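import Pool.Agent.QWE.Lin

/-!
# QWE, module Act: symmetries acting on the fields and on the exterior norms
-/

set_option autoImplicit false

open MeasureTheory Filter Topology Set
open scoped ENNReal NNReal RealInnerProductSpace ContDiff Pointwise

namespace Pool.Agent.QWE.Actx

open Linx

lemma mps (y : E) :
    MeasurePreserving (fun z : S × ℝ => (z.1, z.2 - inner ℝ y (z.1 : E))) mu mu :=
  mp_shift (g := fun w : S => inner ℝ y (w : E)) (by fun_prop)

/-! ### the Radon transform -/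

lemma Rad_shift (φ : E → ℝ) (y : E) (w : S) (p : ℝ) :
    Rad (fun x => φ (x - y)) (w, p) = Rad φ (w, p - inner ℝ y (w : E)) := by
  unfold Rad
  simp only
  have h1 : ∀ x : E, {x : E | inner ℝ x (w : E) ≤ p}.indicator
      (fun x => fderiv ℝ (fun x => φ (x - y)) x (w : E)) x =
      (fun x' => {x : E | inner ℝ x (w : E) ≤ p - inner ℝ y (w : E)}.indicator
        (fun x => fderiv ℝ φ x (w : E)) x') (x - y) := by
    intro x
    simp only [indicator_apply, Set.mem_ofPred_eq, inner_sub_left, sub_le_sub_iff_right]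
    rw [fderiv_comp_sub]
  simp_rw [h1]
  exact integral_sub_right_eq_self _ y

lemma dRad_shift (φ : E → ℝ) (y : E) (w : S) (p : ℝ) :
    dRad (fun x => φ (x - y)) (w, p) = dRad φ (w, p - inner ℝ y (w : E)) := by
  unfold dRad
  simp only
  rw [← Rad_shift (fun x => fderiv ℝ φ x (w : E)) y w p]
  congr 1
  funext x
  rw [fderiv_comp_sub]

lemma Rad_smul (c : ℝ) (φ : E → ℝ) (z : S × ℝ) : Rad (fun x => c * φ x) z = c * Rad φ z := by
  unfold Rad
  rw [← integral_const_mul]
  congr 1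
  funext x
  simp only [indicator_apply, Set.mem_ofPred_eq]
  split_ifs
  · have h : fderiv ℝ (fun x => c * φ x) x = c • fderiv ℝ φ x := by
      rcases eq_or_ne c 0 with rfl | hc
      · simp
      · have : Invertible c := invertibleOfNonzero hc
        exact fderiv_const_smul_of_invertible (𝕜 := ℝ) (f := φ) (x := x) c
    rw [h]
    rfl
  · simp

lemma Rad_scale (φ : E → ℝ) (a : ℝ) (w : S) (p : ℝ) :
    Rad (fun x => φ (Real.exp a • x)) (w, p) =
      Real.exp (-(4 * a)) * Rad φ (w, Real.exp a * p) := by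
  unfold Rad
  simp only
  have h1 : ∀ x : E, {x : E | inner ℝ x (w : E) ≤ p}.indicator
      (fun x => fderiv ℝ (fun x => φ (Real.exp a • x)) x (w : E)) x =
      Real.exp a * (fun x' => {x : E | inner ℝ x (w : E) ≤ Real.exp a * p}.indicator
        (fun x => fderiv ℝ φ x (w : E)) x') (Real.exp a • x) := by
    intro x
    simp only [indicator_apply, Set.mem_ofPred_eq, real_inner_smul_left,
      mul_le_mul_iff_right₀ (Real.exp_pos a)]
    split_ifs
    · rw [fderiv_comp_smul]
      rfl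
    · simp
  simp_rw [h1]
  rw [integral_const_mul, Measure.integral_comp_smul, smul_eq_mul, ← mul_assoc]
  congr 1
  have h2 : Module.finrank ℝ E = 5 := by simp
  rw [h2, abs_of_pos (by positivity), ← Real.exp_nat_mul, ← Real.exp_neg, ← Real.exp_add]
  congr 1
  push_cast
  ring

lemma dRad_scale (φ : E → ℝ) (a : ℝ) (w : S) (p : ℝ) :
    dRad (fun x => φ (Real.exp a • x)) (w, p) =
      Real.exp (-(3 * a)) * dRad φ (w, Real.exp a * p) := by
  unfold dRad
  simp only
  have h1 : (fun x : E => fderiv ℝ (fun x => φ (Real.exp a • x)) x (w : E)) =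
      fun x => Real.exp a * (fun x => fderiv ℝ φ x (w : E)) (Real.exp a • x) := by
    funext x
    rw [fderiv_comp_smul]
    rfl
  rw [h1, Rad_smul, Rad_scale (fun x => fderiv ℝ φ x (w : E)) a w p, ← mul_assoc,
    ← Real.exp_add]
  congr 2
  ring

lemma Rad_rev (hR : St_RadT) {φ : E → ℝ} (hφ : IsTest φ) (w : S) (p : ℝ) :
    Rad φ (-w, p) = Rad φ (w, -p) := by
  obtain ⟨hc, -, hs, hd, hf, -⟩ := hR φ hφ
  have c1 : Continuous fun p : ℝ => Rad φ (-w, p) := hc.comp (by fun_prop)
  have c2 : Continuous fun p : ℝ => Rad φ (w, -p) := hc.comp (by fun_prop)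
  have h1 : (fun p : ℝ => Rad φ (-w, p) - Rad φ (w, -p)) =ᵐ[volume] 0 := by
    have li : LocallyIntegrable (fun p : ℝ => Rad φ (-w, p) - Rad φ (w, -p)) volume :=
      (c1.sub c2).locallyIntegrable
    refine ae_eq_zero_of_integral_contDiff_smul_eq_zero li fun g hg1 hg2 => ?_
    have e1 := hf (-w) g hg1.continuous
    have e2 := hf w (fun p => g (-p)) (hg1.continuous.comp continuous_neg)
    have e3 : ∫ x, φ x * g (inner ℝ x ((-w : S) : E)) = ∫ x, φ x * g (-(inner ℝ x (w : E))) := by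
      congr 1
      funext x
      have : ((-w : S) : E) = -(w : E) := rfl
      rw [this, inner_neg_right]
    have e4 : ∫ p, Rad φ (w, -p) * g p = ∫ p, Rad φ (w, p) * g (-p) := by
      rw [← integral_neg_eq_self (fun p => Rad φ (w, p) * g (-p)) volume]
      simp only [neg_neg]
    have i1 : Integrable (fun p => Rad φ (-w, p) * g p) volume := by
      have h := (c1.locallyIntegrable (μ := volume)).integrable_smul_left_of_hasCompactSupport
        hg1.continuous hg2
      refine h.congr (Eventually.of_forall fun x => ?_)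
      simp only [smul_eq_mul]
      ring
    have i2 : Integrable (fun p => Rad φ (w, -p) * g p) volume := by
      have h := (c2.locallyIntegrable (μ := volume)).integrable_smul_left_of_hasCompactSupport
        hg1.continuous hg2
      refine h.congr (Eventually.of_forall fun x => ?_)
      simp only [smul_eq_mul]
      ring
    have e5 : (fun p => g p • (Rad φ (-w, p) - Rad φ (w, -p))) =
        fun p => Rad φ (-w, p) * g p - Rad φ (w, -p) * g p := by
      funext p
      simp only [smul_eq_mul]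
      ring
    rw [e5, integral_sub i1 i2, e1, e3, e4, e2, sub_self]
  have h2 : (fun p : ℝ => Rad φ (-w, p) - Rad φ (w, -p)) = 0 :=
    (c1.sub c2).ae_eq_iff_eq volume continuous_zero |>.1 h1
  have h3 := congrFun h2 p
  simp only [Pi.zero_apply] at h3
  linarith

lemma dRad_rev (hR : St_RadT) {φ : E → ℝ} (hφ : IsTest φ) (w : S) (p : ℝ) :
    dRad φ (-w, p) = - dRad φ (w, -p) := by
  obtain ⟨-, -, -, hd, -, -⟩ := hR φ hφ
  have h1 := (hd (-w) p).1
  have h2 := (hd w (-p)).1
  have h3 : HasDerivAt (fun p => Rad φ (w, -p)) (dRad φ (w, -p) * (-1)) p :=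
    h2.comp p (hasDerivAt_neg p)
  have h4 : (fun p => Rad φ (-w, p)) = fun p => Rad φ (w, -p) := by
    funext p
    exact Rad_rev hR hφ w p
  rw [h4] at h1
  have h5 := h1.unique h3
  rw [h5]
  ring

/-! ### test functions -/

lemma test_shift {φ : E → ℝ} (h : IsTest φ) (y : E) : IsTest (fun x => φ (x - y)) :=
  ⟨h.1.comp (contDiff_id.sub contDiff_const), h.2.comp_homeomorph (Homeomorph.subRight y)⟩

lemma test_scale {φ : E → ℝ} (h : IsTest φ) (a : ℝ) : IsTest (fun x => φ (Real.exp a • x)) :=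
  ⟨h.1.comp (contDiff_id.const_smul (Real.exp a)),
    h.2.comp_homeomorph (Homeomorph.smulOfNeZero (Real.exp a) (Real.exp_pos a).ne')⟩

lemma tsupport_comp (φ : E → ℝ) (g : E → E) (hg : Continuous g) :
    tsupport (fun x => φ (g x)) ⊆ g ⁻¹' tsupport φ := by
  unfold tsupport
  have h : Function.support (fun x => φ (g x)) = g ⁻¹' Function.support φ := rfl
  rw [h]
  exact hg.closure_preimage_subset _

/-! ### action on the test states -/

lemma sh_Rk (hR : St_RadT) {φ : E → ℝ} (hφ : IsTest φ) (y : E) :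
    sh y (Rk φ) = Rk (fun x => φ (x - y)) ∧ sh y (dRk φ) = dRk (fun x => φ (x - y)) := by
  have h1 := (hR φ hφ).2.2.2.2.2
  have h2 := (hR _ (test_shift hφ y)).2.2.2.2.2
  constructor
  · apply Lp.ext
    have h3 := (mps y).quasiMeasurePreserving.ae h1.1
    filter_upwards [sh_coe y (Rk φ), h2.1, h3] with z e1 e2 e3
    rw [e1, e2, e3]
    exact (Rad_shift φ y z.1 z.2).symm
  · apply Lp.ext
    have h3 := (mps y).quasiMeasurePreserving.ae h1.2
    filter_upwards [sh_coe y (dRk φ), h2.2, h3] with z e1 e2 e3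
    rw [e1, e2, e3]
    exact (dRad_shift φ y z.1 z.2).symm

lemma dl_Rk (hR : St_RadT) {φ : E → ℝ} (hφ : IsTest φ) (a : ℝ) :
    dl a (Rk φ) = Real.exp (9 * a / 2) • Rk (fun x => φ (Real.exp a • x)) ∧
    dl a (dRk φ) = Real.exp (7 * a / 2) • dRk (fun x => φ (Real.exp a • x)) := by
  have h1 := (hR φ hφ).2.2.2.2.2
  have h2 := (hR _ (test_scale hφ a)).2.2.2.2.2
  constructor
  · apply Lp.ext
    have h3 := (qmp_scale (Real.exp_pos a)).ae h1.1
    filter_upwards [dl_coe a (Rk φ), h2.1, h3,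
      Lp.coeFn_smul (Real.exp (9 * a / 2)) (Rk (fun x => φ (Real.exp a • x)))] with z e1 e2 e3 e4
    rw [e1, e4, Pi.smul_apply, e2, e3, smul_eq_mul]
    have e5 := Rad_scale φ a z.1 z.2
    rw [e5, ← mul_assoc, ← Real.exp_add]
    congr 2
    ring
  · apply Lp.ext
    have h3 := (qmp_scale (Real.exp_pos a)).ae h1.2
    filter_upwards [dl_coe a (dRk φ), h2.2, h3,
      Lp.coeFn_smul (Real.exp (7 * a / 2)) (dRk (fun x => φ (Real.exp a • x)))] with z e1 e2 e3 e4
    rw [e1, e4, Pi.smul_apply, e2, e3, smul_eq_mul]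
    have e5 := dRad_scale φ a z.1 z.2
    rw [e5, ← mul_assoc, ← Real.exp_add]
    congr 2
    ring

lemma rev_Rk (hR : St_RadT) {φ : E → ℝ} (hφ : IsTest φ) :
    rev (Rk φ) = Rk φ ∧ rev (dRk φ) = - dRk φ := by
  have h1 := (hR φ hφ).2.2.2.2.2
  constructor
  · apply Lp.ext
    have h3 := mp_rev.quasiMeasurePreserving.ae h1.1
    filter_upwards [rev_coe (Rk φ), h1.1, h3] with z e1 e2 e3
    rw [e1, e2, e3]
    have := Rad_rev hR hφ z.1 (-z.2)
    rw [neg_neg] at this
    exact this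
  · apply Lp.ext
    have h3 := mp_rev.quasiMeasurePreserving.ae h1.2
    filter_upwards [rev_coe (dRk φ), h1.2, h3, Lp.coeFn_neg (dRk φ)] with z e1 e2 e3 e4
    rw [e1, e4, Pi.neg_apply, e2, e3]
    have := dRad_rev hR hφ z.1 (-z.2)
    rw [neg_neg] at this
    exact this

/-! ### the isometries and the exterior norms -/

lemma proj_conj (T : K →ₗᵢ[ℝ] K) (A B : Submodule ℝ K) [A.HasOrthogonalProjection]
    [B.HasOrthogonalProjection] (h1 : ∀ w ∈ A, T w ∈ B) (h2 : ∀ w ∈ B, ∃ w' ∈ A, T w' = w) (k : K) :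
    ‖B.starProjection (T k)‖ = ‖A.starProjection k‖ := by
  have h3 : B.starProjection (T k) = T (A.starProjection k) := by
    apply Submodule.eq_starProjection_of_mem_of_inner_eq_zero
    · exact h1 _ (Submodule.starProjection_apply_mem _ _)
    · intro w hw
      obtain ⟨w', hw', rfl⟩ := h2 w hw
      rw [← map_sub, LinearIsometry.inner_map_map]
      exact Submodule.starProjection_inner_eq_zero _ _ hw'
  rw [h3, LinearIsometry.norm_map]

lemma map_TS (T : K →ₗᵢ[ℝ] K) (Ω Ω' : Set E)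
    (h : ∀ φ, IsTest φ → tsupport φ ⊆ Ω → T (Rk φ) ∈ TS Ω' ∧ T (dRk φ) ∈ TS Ω') :
    ∀ w ∈ TS Ω, T w ∈ TS Ω' := by
  have h1 : TS Ω ≤ (TS Ω').comap T.toLinearMap := by
    unfold TS
    refine Submodule.topologicalClosure_minimal _ ?_ ?_
    · rw [Submodule.span_le]
      rintro w ⟨φ, hφ, hs, hw⟩
      rcases hw with rfl | rfl
      · exact (h φ hφ hs).1
      · exact (h φ hφ hs).2
    · exact (Submodule.isClosed_topologicalClosure _).preimage T.continuous
  exact fun w hw => h1 hw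

lemma mem_TS {Ω : Set E} {φ : E → ℝ} (hφ : IsTest φ) (hs : tsupport φ ⊆ Ω) :
    Rk φ ∈ TS Ω ∧ dRk φ ∈ TS Ω :=
  ⟨Submodule.le_topologicalClosure _ (Submodule.subset_span ⟨φ, hφ, hs, Or.inl rfl⟩),
    Submodule.le_topologicalClosure _ (Submodule.subset_span ⟨φ, hφ, hs, Or.inr rfl⟩)⟩

lemma sh_TS (hR : St_RadT) (y : E) (Ω Ω' : Set E) (h : ∀ x, x - y ∈ Ω → x ∈ Ω') :
    ∀ w ∈ TS Ω, sh y w ∈ TS Ω' := by
  refine map_TS (sh y) Ω Ω' fun φ hφ hs => ?_
  rw [(sh_Rk hR hφ y).1, (sh_Rk hR hφ y).2]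
  refine mem_TS (test_shift hφ y) ?_
  intro x hx
  exact h x (hs (tsupport_comp φ (fun x => x - y) (by fun_prop) hx))

lemma dl_TS (hR : St_RadT) (a : ℝ) (Ω Ω' : Set E) (h : ∀ x, Real.exp a • x ∈ Ω → x ∈ Ω') :
    ∀ w ∈ TS Ω, dl a w ∈ TS Ω' := by
  refine map_TS (dl a) Ω Ω' fun φ hφ hs => ?_
  rw [(dl_Rk hR hφ a).1, (dl_Rk hR hφ a).2]
  have h1 : tsupport (fun x => φ (Real.exp a • x)) ⊆ Ω' := by
    intro x hx
    exact h x (hs (tsupport_comp φ (fun x => Real.exp a • x) (by fun_prop) hx))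
  have h2 := mem_TS (test_scale hφ a) h1
  exact ⟨Submodule.smul_mem _ _ h2.1, Submodule.smul_mem _ _ h2.2⟩

lemma ex_sh (hG : St_Grp1) (hR : St_RadT) (Ω : Set E) (y : E) (k : K) :
    ex Ω (sh y k) = ex {x | x + y ∈ Ω} k := by
  unfold ex pr
  refine proj_conj (sh y) _ _ ?_ ?_ k
  · refine sh_TS hR y _ _ fun x hx => ?_
    simpa using hx
  · intro w hw
    refine ⟨sh (-y) w, sh_TS hR (-y) _ _ (fun x hx => ?_) w hw, ?_⟩
    · simpa using hx
    · rw [hG.2.2.1, add_neg_cancel, hG.2.2.2.1]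

lemma ex_dl (hG : St_Grp2) (hR : St_RadT) (Ω : Set E) (a : ℝ) (k : K) :
    ex Ω (dl a k) = ex {x | Real.exp (-a) • x ∈ Ω} k := by
  unfold ex pr
  refine proj_conj (dl a) _ _ ?_ ?_ k
  · refine dl_TS hR a _ _ fun x hx => ?_
    have h1 : Real.exp (-a) • Real.exp a • x = x := by
      rw [smul_smul, ← Real.exp_add, neg_add_cancel, Real.exp_zero, one_smul]
    rw [Set.mem_ofPred_eq, h1] at hx
    exact hx
  · intro w hw
    refine ⟨dl (-a) w, dl_TS hR (-a) _ _ (fun x hx => hx) w hw, ?_⟩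
    rw [hG.1, add_neg_cancel, hG.2.1]

lemma ex_rev (hG : St_Grp2) (hR : St_RadT) (Ω : Set E) (k : K) : ex Ω (rev k) = ex Ω k := by
  unfold ex pr
  have h1 : ∀ w ∈ TS Ω, rev w ∈ TS Ω := by
    refine map_TS rev Ω Ω fun φ hφ hs => ?_
    rw [(rev_Rk hR hφ).1, (rev_Rk hR hφ).2]
    have h2 := mem_TS hφ hs
    exact ⟨h2.1, Submodule.neg_mem _ h2.2⟩
  refine proj_conj rev _ _ h1 ?_ k
  intro w hw
  exact ⟨rev w, h1 w hw, hG.2.2.1 w⟩

lemma inner_rev (hG : St_Grp2) (k k' : K) : inner ℝ (rev k) k' = inner ℝ k (rev k') := by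
  have h : rev (rev k') = k' := hG.2.2.1 k'
  conv_lhs => rw [← h]
  exact LinearIsometry.inner_map_map _ _ _

/-! ### the fields -/

lemma int_shift (f φ : E → ℝ) (y : E) : ∫ x, f x * φ (x + y) = ∫ x, f (x - y) * φ x := by
  have h := integral_sub_right_eq_self (μ := (volume : Measure E)) (fun x => f x * φ (x + y)) y
  rw [← h]
  congr 1
  funext x
  simp

lemma int_scale (f φ : E → ℝ) (a : ℝ) :
    ∫ x, f x * φ (Real.exp (-a) • x) = Real.exp (5 * a) * ∫ x, f (Real.exp a • x) * φ x := by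
  have h := Measure.integral_comp_smul (volume : Measure E)
    (fun x => f x * φ (Real.exp (-a) • x)) (Real.exp a)
  have h2 : Module.finrank ℝ E = 5 := by simp
  rw [h2, abs_of_pos (by positivity), smul_eq_mul] at h
  have h3 : ∀ x : E, Real.exp (-a) • Real.exp a • x = x := by
    intro x
    rw [smul_smul, ← Real.exp_add, neg_add_cancel, Real.exp_zero, one_smul]
  simp only [h3] at h
  rw [h, ← mul_assoc, ← Real.exp_nat_mul, ← Real.exp_neg, ← Real.exp_add]
  have h4 : 5 * a + -(((5 : ℕ) : ℝ) * a) = 0 := by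
    push_cast
    ring
  rw [h4, Real.exp_zero, one_mul]

lemma li_shift {f : E → ℝ} (hf : LocallyIntegrable f volume) (y : E) :
    LocallyIntegrable (fun x => f (x - y)) volume := by
  have h := (measurePreserving_sub_right (volume : Measure E) y)
  have h2 := (MeasureTheory.locallyIntegrable_map_homeomorph (Homeomorph.subRight y)
    (f := f) (μ := volume)).1
  have h3 : Measure.map (Homeomorph.subRight y) (volume : Measure E) = volume := h.map_eq
  rw [h3] at h2
  exact h2 hf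

lemma li_scale {f : E → ℝ} (hf : LocallyIntegrable f volume) (a : ℝ) :
    LocallyIntegrable (fun x => f (Real.exp a • x)) volume := by
  have h2 := (MeasureTheory.locallyIntegrable_map_homeomorph
    (Homeomorph.smulOfNeZero (Real.exp a) (Real.exp_pos a).ne' : E ≃ₜ E)
    (f := f) (μ := volume)).1
  have h3 : Measure.map (Homeomorph.smulOfNeZero (Real.exp a) (Real.exp_pos a).ne' : E ≃ₜ E)
      (volume : Measure E) =
      ENNReal.ofReal |(Real.exp a ^ Module.finrank ℝ E)⁻¹| • volume :=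
    Measure.map_addHaar_smul volume (Real.exp_pos a).ne'
  rw [h3] at h2
  refine h2 fun x => ?_
  obtain ⟨s, hs, hi⟩ := hf x
  refine ⟨s, hs, ?_⟩
  rw [IntegrableOn, Measure.restrict_smul]
  exact hi.smul_measure ENNReal.ofReal_ne_top

end Pool.Agent.QWE.Actx

namespace Pool.Agent.QWE

open Actx Linx in
/-- **Act** (symmetries acting on fields and on exterior norms). -/
theorem thm_Act (hG1 : St_Grp1) (hG2 : St_Grp2) (hR : St_RadT) (hU : St_UTest) (hF : St_Fld) :
    St_Act := by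
  obtain ⟨C, hC, hF⟩ := hF
  have h1 : (1 : ℝ≥0∞) ≤ 10 / 3 := by
    rw [ENNReal.le_div_iff_mul_le (by norm_num) (by norm_num)]
    norm_num
  have liU : ∀ k : K, LocallyIntegrable (U k) volume := hU.2.1
  have liV : ∀ k : K, LocallyIntegrable (V k) volume := fun k =>
    (hF k).2.1.1.1.locallyIntegrable h1
  have eU : ∀ (k : K) (φ : E → ℝ), IsTest φ → ∫ x, U k x * φ x = inner ℝ k (Rk φ) :=
    fun k φ hφ => hU.2.2 k φ (test_sch hφ)
  have eV : ∀ (k : K) (φ : E → ℝ), IsTest φ → ∫ x, V k x * φ x = inner ℝ k (dRk φ) :=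
    fun k φ hφ => (hF k).2.1.1.2 φ hφ
  refine ⟨fun y k => ⟨?_, ?_⟩, fun a k => ⟨?_, ?_⟩, fun k => ⟨?_, ?_⟩, ?_, ex_rev hG2 hR⟩
  · refine ae_uniq (liU _) (li_shift (liU k) y) fun φ hφ => ?_
    have h2 := test_shift hφ (-y)
    have h3 := sh_Rk hR hφ (-y)
    rw [eU _ φ hφ, hG1.2.2.2.2.2.2.1, h3.1, ← eU _ _ h2]
    simp only [sub_neg_eq_add]
    exact int_shift _ _ _
  · refine ae_uniq (liV _) (li_shift (liV k) y) fun φ hφ => ?_
    have h2 := test_shift hφ (-y)
    have h3 := sh_Rk hR hφ (-y)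
    rw [eV _ φ hφ, hG1.2.2.2.2.2.2.1, h3.2, ← eV _ _ h2]
    simp only [sub_neg_eq_add]
    exact int_shift _ _ _
  · refine ae_uniq (liU _) ?_ fun φ hφ => ?_
    · exact (li_scale (liU k) a).smul (Real.exp (a / 2))
    · have h2 := test_scale hφ (-a)
      have h3 := dl_Rk hR hφ (-a)
      rw [eU _ φ hφ, hG2.2.2.2.2.2.2.2.2.1, h3.1, real_inner_smul_right, ← eU _ _ h2, int_scale,
        ← mul_assoc, ← Real.exp_add, ← integral_const_mul]
      congr 1
      funext x
      rw [mul_assoc]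
      congr 2
      ring
  · refine ae_uniq (liV _) ?_ fun φ hφ => ?_
    · exact (li_scale (liV k) a).smul (Real.exp (3 * a / 2))
    · have h2 := test_scale hφ (-a)
      have h3 := dl_Rk hR hφ (-a)
      rw [eV _ φ hφ, hG2.2.2.2.2.2.2.2.2.1, h3.2, real_inner_smul_right, ← eV _ _ h2, int_scale,
        ← mul_assoc, ← Real.exp_add, ← integral_const_mul]
      congr 1
      funext x
      rw [mul_assoc]
      congr 2
      ring
  · refine ae_uniq (liU _) (liU k) fun φ hφ => ?_
    rw [eU _ φ hφ, inner_rev hG2, (rev_Rk hR hφ).1, eU _ φ hφ]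
  · refine ae_uniq (liV _) (liV k).neg fun φ hφ => ?_
    rw [eV _ φ hφ, inner_rev hG2, (rev_Rk hR hφ).2, inner_neg_right, ← eV _ φ hφ,
      ← integral_neg]
    congr 1
    funext x
    simp
  · intro Ω y a k
    unfold gr
    rw [ex_sh hG1 hR, ex_dl hG2 hR]
    congr 1
    ext x
    simp only [Set.mem_ofPred_eq]
    rw [add_comm]

end Pool.Agent.QWE
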