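import Pool.Agent.QWE.Defs

set_option autoImplicit false

/-!
# QWE, block A: linear theory in the translation representation

Every `St_X` is to be proved as `theorem thm_X : St_X` (possibly with other `St_Y` as hypotheses) in
`Pool/Agent/QWE/X.lean`. Paper: `/team-store/R5_paper.md`.
-/

open MeasureTheory Filter Topology Set
open scoped ENNReal NNReal RealInnerProductSpace Pointwise

namespace Pool.Agent.QWE

/-- **Grp1** (translations). Proof: `Lp.compMeasurePreserving` of compositions; a.e. formulas `tau_coe`,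
`sh_coe` composed with measure preserving maps. Adjoint: `tau (-t)` is the inverse of the isometry
`tau t`, same for `sh`. Continuity in the parameter: for `k` continuous with compact support (dense,
`MemLp.exists_hasCompactSupport_eLpNorm_sub_le`) uniform continuity, then `‖tau t k‖ = ‖k‖` and an
`ε/3` argument. -/
def St_Grp1 : Prop :=
  (∀ s t k, tau s (tau t k) = tau (s + t) k) ∧ (∀ k, tau 0 k = k) ∧
  (∀ y z k, sh y (sh z k) = sh (y + z) k) ∧ (∀ k, sh 0 k = k) ∧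
  (∀ t y k, tau t (sh y k) = sh y (tau t k)) ∧
  (∀ t (k k' : K), inner ℝ (tau t k) k' = inner ℝ k (tau (-t) k')) ∧
  (∀ y (k k' : K), inner ℝ (sh y k) k' = inner ℝ k (sh (-y) k')) ∧
  (∀ k, Continuous fun t => tau t k) ∧ (∀ k, Continuous fun y => sh y k)

/-- **Grp2** (dilations, reversal). Proof: a.e. formulas `dl_coe`, `rev_coe` composed with quasi measure
preserving maps (`qmp_scale`, `mp_rev`); `inner ℝ (dl a k) k' = inner ℝ k (dl (-a) k')` because `dl (-a)`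
is the inverse of the isometry `dl a`. Continuity as in Grp1. -/
def St_Grp2 : Prop :=
  (∀ a b k, dl a (dl b k) = dl (a + b) k) ∧ (∀ k, dl 0 k = k) ∧ (∀ k, rev (rev k) = k) ∧
  (∀ a t k, tau t (dl a k) = dl a (tau (Real.exp a * t) k)) ∧
  (∀ a y k, sh y (dl a k) = dl a (sh (Real.exp a • y) k)) ∧
  (∀ t k, rev (tau t k) = tau (-t) (rev k)) ∧ (∀ y k, rev (sh y k) = sh y (rev k)) ∧
  (∀ a k, rev (dl a k) = dl a (rev k)) ∧
  (∀ a (k k' : K), inner ℝ (dl a k) k' = inner ℝ k (dl (-a) k')) ∧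
  (∀ k, Continuous fun a => dl a k)

/-- **RadT** (Radon transform of test functions). `Rad φ (w,p) = ∫_{x·w ≤ p} w·∇φ(x) dx`.
Proof. Continuity: dominated convergence (for `(w_n,p_n) → (w,p)` the integrands converge for all `x` with
`x·w ≠ p`, a null hyperplane is excluded). Support: if `tsupport φ ⊆ closedBall y ρ` and `p - y·w ≤ -ρ` the
half space meets the ball in a null set; if `p - y·w ≥ ρ` the integral is `∫_E w·∇φ = 0`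
(`integral_fderiv` of a compactly supported function). Formula: for `g` continuous, by Fubini and with
`G(s) = ∫_s^M g` (`M` large), `∫_p Rad φ (w,p) g p dp = ∫_x w·∇φ(x) G(x·w) dx = ∫ φ(x) g(x·w) dx`
(integration by parts in `x`, the derivative of `G(x·w)` in direction `w` is `- g(x·w)`, `|w| = 1`;
`φ` compactly supported, `Rad φ (w,·)` vanishes for `|p| ≥ M`).
Derivative in `p`: by the formula with `φ` replaced by `w·∇φ` : for every test `g` of one variable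
`∫ Rad (w·∇φ)(w,p) g(p) dp = ∫ w·∇φ(x) g(x·w) dx = - ∫ φ g'(x·w) dx = - ∫ Rad φ (w,p) g'(p) dp`, and both
functions of `p` are continuous, so `Rad φ(w,·)` is `C¹` with derivative `dRad φ(w,·)`. Second derivative:
`Rad (w·∇(w·∇φ))(w,p) = Rad (lap φ)(w,p)`, since with an orthonormal basis `w = e_1, e_2, …, e_5` of `E`
`∫ (lap φ)(x) g(x·w) dx = ∫ φ(x) g''(x·w) dx = ∫ (w·∇)²φ(x) g(x·w) dx` (for all test `g`; `lap (g(x·w)) =
g''(x·w)`), and continuity. In `K`: continuous with compact support (`S` compact) so `MemLp`. -/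
def St_RadT : Prop := ∀ φ : E → ℝ, IsTest φ →
  Continuous (Rad φ) ∧ Continuous (dRad φ) ∧
  (∀ (y : E) (ρ : ℝ), tsupport φ ⊆ Metric.closedBall y ρ →
    ∀ z : S × ℝ, ρ ≤ |z.2 - inner ℝ y (z.1 : E)| → Rad φ z = 0 ∧ dRad φ z = 0) ∧
  (∀ (w : S) (p : ℝ), HasDerivAt (fun p => Rad φ (w, p)) (dRad φ (w, p)) p ∧
    HasDerivAt (fun p => dRad φ (w, p)) (Rad (lap φ) (w, p)) p) ∧
  (∀ (w : S) (g : ℝ → ℝ), Continuous g →
    ∫ p, Rad φ (w, p) * g p = ∫ x, φ x * g (inner ℝ x (w : E))) ∧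
  ((Rk φ : S × ℝ → ℝ) =ᵐ[mu] Rad φ) ∧ ((dRk φ : S × ℝ → ℝ) =ᵐ[mu] dRad φ)

/-- **RadS** (Radon transform of Schwartz functions). As RadT, with rapid decay instead of compact support:
for `φ` Schwartz, `|Rad φ (w,p)| + |dRad φ (w,p)| ≤ C_N (1+|p|)^{-N}` uniformly in `w` (for `p ≤ 0` integrate
`|∇φ| ≤ C (1+|x|)^{-N-6}` over `x·w ≤ p`; for `p > 0` use `∫_E w·∇φ = 0`). -/
def St_RadS : Prop := ∀ φ : E → ℝ, IsSch φ →
  Continuous (Rad φ) ∧ Continuous (dRad φ) ∧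
  (∃ C, ∀ z : S × ℝ, |Rad φ z| ≤ C / (1 + z.2 ^ 2) ∧ |dRad φ z| ≤ C / (1 + z.2 ^ 2)) ∧
  (∀ (w : S) (p : ℝ), HasDerivAt (fun p => Rad φ (w, p)) (dRad φ (w, p)) p ∧
    HasDerivAt (fun p => dRad φ (w, p)) (Rad (lap φ) (w, p)) p) ∧
  (∀ (w : S) (g : ℝ → ℝ), Continuous g → (∃ B, ∀ p, |g p| ≤ B) →
    ∫ p, Rad φ (w, p) * g p = ∫ x, φ x * g (inner ℝ x (w : E))) ∧
  ((Rk φ : S × ℝ → ℝ) =ᵐ[mu] Rad φ) ∧ ((dRk φ : S × ℝ → ℝ) =ᵐ[mu] dRad φ)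

/-- **Sob** (Sobolev inequalities for test functions, `ℝ⁵`): `‖f‖_{10} + ‖∇f‖_{10/3} ≤ C ‖Δ f‖_2`,
`‖g‖_{10/3} ≤ C ‖∇ g‖_2`, and `Σ_{ij} ‖∂_i∂_j f‖_2² = ‖Δ f‖_2²`. Proof: Gagliardo-Nirenberg-Sobolev in
Mathlib (`eLpNorm_le_eLpNorm_fderiv_of_eq`, `p = 2`, `p* = 10/3`; `p = 10/3`, `p* = 10`) applied to `g`, to
`∂_i f` and to `f`; `∫ ∂_i∂_j f ∂_i∂_j f = ∫ ∂_i∂_i f ∂_j∂_j f` by integration by parts twice. -/
def St_Sob : Prop := ∃ C : ℝ, 0 < C ∧ ∀ f : E → ℝ, IsTest f →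
  eLpNorm f 10 volume ≤ ENNReal.ofReal C * eLpNorm (lap f) 2 volume ∧
  (∀ i, eLpNorm (pd i f) (10 / 3) volume ≤ ENNReal.ofReal C * eLpNorm (lap f) 2 volume) ∧
  (∀ i j, eLpNorm (pd j (pd i f)) 2 volume ≤ eLpNorm (lap f) 2 volume) ∧
  eLpNorm f (10 / 3) volume ≤ ENNReal.ofReal C * ∑ i, eLpNorm (pd i f) 2 volume

/-- **FSl** (Fourier slice theorem): for `φ` Schwartz and `w ∈ S`, `r ∈ ℝ` the Fourier transform in `p` of
`Rad φ(w,·)` at `r` is the Fourier transform of `φ` at `r w`. Proof: RadS formula with `g = cos, sin`. -/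
def St_FSl : Prop := ∀ φ : E → ℝ, IsSch φ → ∀ (w : S) (r : ℝ),
  ∫ p, (Rad φ (w, p) : ℂ) * Complex.exp (-2 * Real.pi * Complex.I * r * p) =
    ∫ x, (φ x : ℂ) * Complex.exp (-2 * Real.pi * Complex.I * r * inner ℝ x (w : E))

/-- **Iso** (the isometry, F1, F2, F3). Proof: one dimensional Parseval for `Rad(..)(w,·)` (integrable,
continuous, rapidly decreasing), FSl, polar coordinates in `E` (`∫_S ∫_0^∞ h(r w) r⁴ dr dw = ∫_E h`) and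
Plancherel in `E`: with `F = f^`, `Φ = φ^`,
`∫_S∫_ℝ Rad(lap lap f) Rad φ dp dw = ∫_S∫_ℝ (2πr)⁴ F(rw) conj Φ(rw) dr dw = 2 (2π)⁴ ∫_E F conj Φ = 2 (2π)⁴ ∫ f φ`
(`r → -r`, `w → -w` gives the factor 2), `1/c0 = 2 (2π)⁴ = 32 π⁴`. Second: `dRad` has Fourier transform
`2πi r φ^(rw)`, so `∫∫ dRad(lap f) dRad φ = ∫∫ -(2πr)² F (2πr)² conj Φ = - 2(2π)⁴ ∫ f φ`. Third:
`∫∫ Rad f dRad φ = 0` since `Rad f` is even and `dRad φ` is odd under `(w,p) → (-w,-p)`. -/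
def St_Iso : Prop := ∀ f φ : E → ℝ, IsSch f → IsSch φ →
  c0 * inner ℝ (Rk (lap (lap f))) (Rk φ) = ∫ x, f x * φ x ∧
  c0 * inner ℝ (dRk (lap f)) (dRk φ) = - ∫ x, f x * φ x ∧
  inner ℝ (Rk f) (dRk φ) = 0

/-- **Dens** (density). Proof. (a) If `κ ∈ K` is orthogonal to all `Rk (lap (lap f))`, `dRk (lap g)`, `f, g`
Schwartz, then `κ = 0`: split `κ` in its even and odd part under `(w,p) → (-w,-p)`. With
`h(ξ) = κ_even^(ξ/|ξ|, |ξ|)` (Fourier transform in `p`, `h ∈ L²(|ξ|⁻⁴ dξ)`, so locally integrable) one gets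
`∫_E conj h(ξ) f^(ξ) dξ = 0` for all Schwartz `f`, so `h = 0` a.e.; the odd part in the same way with
`h(ξ) = κ_odd^/|ξ|`. (b) Theta of test pairs approximates Theta of Schwartz pairs: `χ(·/M) f → f` in the norm
`‖lap ·‖_2`, `χ(·/M) g → g` in the norm `‖∇·‖_2`, and
`‖Theta f g‖² = c0 (‖lap f‖_2² + ‖∇g‖_2²)` by Iso. -/
def St_Dens : Prop :=
  TS univ = ⊤ ∧ ∀ (k : K) (ε : ℝ), 0 < ε → ∃ f g : E → ℝ, IsTest f ∧ IsTest g ∧ ‖k - Theta f g‖ < ε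

/-- **UTest** (the dual Radon transform, (DR)). Proof: for fixed `w` the image of the measure `dx` on the ball
`B(y,M)` under `x ↦ x·w` has a density `≤ C M⁴ 1_{|p - y·w| < M}` with respect to `dp` (Fubini in an orthonormal
frame starting with `w`); so `∫_{B(y,M)} ∫_S |k(w, x·w)| dw dx ≤ C M⁴ ∫_{|p-y·w|<M} |k| ≤ C M^{9/2}
‖1_{|p-y·w|<M} k‖` (Cauchy-Schwarz, the set has measure `2M |S|`). Test formula: Fubini and RadT:
`∫_x φ(x) ∫_w k(w,x·w) = ∫_w ∫_x φ(x) k(w,x·w) dx = ∫_w ∫_p Rad φ(w,p) k(w,p)` (the RadT formula for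
continuous `g` extends to locally integrable `g`). -/
def St_UTest : Prop :=
  (∃ C : ℝ, 0 < C ∧ ∀ (k : K) (y : E) (M : ℝ), 0 < M →
    ∫⁻ x in Metric.ball y M, ‖U k x‖ₑ ≤ ENNReal.ofReal (C * M ^ (9 / 2 : ℝ)) *
      ‖indK {z | |z.2 - inner ℝ y (z.1 : E)| < M} k‖ₑ) ∧
  (∀ k : K, LocallyIntegrable (U k) volume) ∧
  ∀ (k : K) (φ : E → ℝ), IsSch φ → ∫ x, U k x * φ x = inner ℝ k (Rk φ)

/-- **Fld** (the fields and their bounds, L3). Proof. For test `f, g`, `k = Theta f g`: `U k = f` a.e., because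
`∫ (U k) φ = ⟨k, Rk φ⟩ = ∫ f φ` (UTest, Iso) for all test `φ`; `g` is the velocity field (`⟨k, dRk φ⟩ = ∫ g φ`).
`‖k‖² = c0 (‖lap f‖² + Σ ‖∂_i g‖²)` (Iso), so Sob bounds all norms by `C ‖k‖`. General `k`: `Theta f_n g_n → k`
(Dens); `f_n`, `g_n`, `∂_i f_n`, `∂_i∂_j f_n`, `∂_i g_n` are Cauchy in the spaces `L^10, L^{10/3}, L^{10/3}, L², L²`;
the limits satisfy the weak identities (Hoelder against test functions) and the bounds; `lim f_n = U k` a.e. by UTest. -/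
def St_Fld : Prop := ∃ C : ℝ, 0 < C ∧ ∀ k : K,
  (MemLp (U k) 10 volume ∧ eLpNorm (U k) 10 volume ≤ ENNReal.ofReal C * ‖k‖ₑ) ∧
  (IsV k (V k) ∧ eLpNorm (V k) (10 / 3) volume ≤ ENNReal.ofReal C * ‖k‖ₑ) ∧
  (∀ i, MemLp (DU k i) (10 / 3) volume ∧ WD i (U k) (DU k i) ∧
    eLpNorm (DU k i) (10 / 3) volume ≤ ENNReal.ofReal C * ‖k‖ₑ) ∧
  (∀ i j, MemLp (DDU k i j) 2 volume ∧ WD j (DU k i) (DDU k i j) ∧
    eLpNorm (DDU k i j) 2 volume ≤ ENNReal.ofReal C * ‖k‖ₑ) ∧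
  (∀ i, MemLp (DV k i) 2 volume ∧ WD i (V k) (DV k i) ∧
    eLpNorm (DV k i) 2 volume ≤ ENNReal.ofReal C * ‖k‖ₑ)

/-- **Lin** (a.e. linearity of the fields, values on test states). Proof: Fld, UTest and uniqueness: a locally
integrable function is determined a.e. by its integrals against test functions
(`ae_eq_zero_of_integral_contDiff_smul_eq_zero`). -/
def St_Lin : Prop :=
  (∀ (c : ℝ) (k k' : K), (U (k + c • k') =ᵐ[volume] fun x => U k x + c * U k' x) ∧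
    (V (k + c • k') =ᵐ[volume] fun x => V k x + c * V k' x) ∧
    (∀ i, DU (k + c • k') i =ᵐ[volume] fun x => DU k i x + c * DU k' i x) ∧
    (∀ i j, DDU (k + c • k') i j =ᵐ[volume] fun x => DDU k i j x + c * DDU k' i j x) ∧
    (∀ i, DV (k + c • k') i =ᵐ[volume] fun x => DV k i x + c * DV k' i x)) ∧
  (∀ f g : E → ℝ, IsTest f → IsTest g → (U (Theta f g) =ᵐ[volume] f) ∧
    (V (Theta f g) =ᵐ[volume] g) ∧ (∀ i, DU (Theta f g) i =ᵐ[volume] pd i f) ∧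
    (∀ i j, DDU (Theta f g) i j =ᵐ[volume] pd j (pd i f)) ∧
    (∀ i, DV (Theta f g) i =ᵐ[volume] pd i g)) ∧
  (∀ (k : K) (φ : E → ℝ), IsSch φ → ∫ x, V k x * φ x = inner ℝ k (dRk φ))

/-- **IP** (inner product in terms of the fields, (1.1)). Proof: both sides are continuous bilinear; for test
states it is Iso: `⟨Theta f g, Theta f' g'⟩ = c0 (∫ lap f lap f' + Σ ∫ ∂_i g ∂_i g')` (integrate by parts);
density (Dens), Lin. -/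
def St_IP : Prop := ∀ k k' : K,
  inner ℝ k k' = c0 * ((∫ x, LU k x * LU k' x) + ∑ i, ∫ x, DV k i x * DV k' i x)

/-- **Act** (symmetries acting on fields and on exterior norms). Proof: fields of `sh`, `dl`, `rev` from the
formula for `U` (a.e.) and for `V` by test functions, using `sh y (Rk φ) = Rk (φ(· - y))`,
`dl a (Rk φ) = e^{9a/2} Rk (φ(e^a ·))`, `dl a (dRk φ) = e^{7a/2} dRk (φ(e^a ·))`, `rev (Rk φ) = Rk φ`,
`rev (dRk φ) = - dRk φ` (a.e. formulas of Rad: change of variables). They show that `gr y a` maps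
`TS {z | y + e^{-a} z ∈ Ω}` onto `TS Ω`, `rev` maps `TS Ω` onto itself, so the projections are intertwined. -/
def St_Act : Prop :=
  (∀ (y : E) (k : K), (U (sh y k) =ᵐ[volume] fun x => U k (x - y)) ∧
    (V (sh y k) =ᵐ[volume] fun x => V k (x - y))) ∧
  (∀ (a : ℝ) (k : K), (U (dl a k) =ᵐ[volume] fun x => Real.exp (a / 2) * U k (Real.exp a • x)) ∧
    (V (dl a k) =ᵐ[volume] fun x => Real.exp (3 * a / 2) * V k (Real.exp a • x))) ∧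
  (∀ k : K, (U (rev k) =ᵐ[volume] U k) ∧ (V (rev k) =ᵐ[volume] fun x => - V k x)) ∧
  (∀ (Ω : Set E) (y : E) (a : ℝ) (k : K),
    ex Ω (gr y a k) = ex {z | y + Real.exp (-a) • z ∈ Ω} k) ∧
  (∀ (Ω : Set E) (k : K), ex Ω (rev k) = ex Ω k)

/-- **ExB** (exterior norms). Proofs. Lipschitz: `‖pr Ω k‖ ≤ ‖k‖`, linear. Monotone: `TS Ω ≤ TS Ω'`.
`k - pr Ω k ∈ (TS Ω)ᗮ`. `Van` in terms of the fields: if `Ω` is open, `U k`, `V k` locally integrable and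
`∫ (U k) φ = ∫ (V k) φ = 0` for all test `φ` supported in `Ω` (UTest, Lin) iff they vanish a.e. on `Ω`.
Weak lower semicontinuity: `‖pr Ω k‖² = lim ⟨pr Ω k_n, pr Ω k⟩ ≤ liminf ‖pr Ω k_n‖ ‖pr Ω k‖`. Increasing unions
of open sets: a compact support contained in the union lies in one of them, so `TS (⋃ Ω_n)` is the closure of
`⋃ TS Ω_n`. Large radii: for a test state `ex (ext 0 R) (Theta f g) = 0` if `f, g` vanish off `B(0,R)`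
(`⟨Theta f g, Rk φ⟩ = ∫ f φ`), density and Lipschitz. Balls: TS of all of E is `K` (Dens). -/
def St_ExB : Prop :=
  (∀ Ω (k k' : K), |ex Ω k - ex Ω k'| ≤ ‖k - k'‖) ∧ (∀ Ω (k : K), ex Ω k ≤ ‖k‖) ∧
  (∀ Ω Ω' (k : K), Ω ⊆ Ω' → ex Ω k ≤ ex Ω' k) ∧
  (∀ Ω (k : K), Van Ω k ↔ ex Ω k = 0) ∧ (∀ Ω (k : K), Van Ω (k - pr Ω k)) ∧
  (∀ Ω (k k' : K), Van Ω (k - k') → ex Ω k ≤ ‖k'‖ ∧ ex Ω k = ex Ω k') ∧
  (∀ Ω (k : K), IsOpen Ω → (Van Ω k ↔ (∀ᵐ x, x ∈ Ω → U k x = 0) ∧ ∀ᵐ x, x ∈ Ω → V k x = 0)) ∧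
  (∀ Ω (k : ℕ → K) (k' : K) (r : ℝ), WTo k k' → (∀ n, ex Ω (k n) ≤ r) → ex Ω k' ≤ r) ∧
  (∀ (Ω : ℕ → Set E) (k : K), Monotone Ω → (∀ n, IsOpen (Ω n)) →
    Tendsto (fun n => ex (Ω n) k) atTop (𝓝 (ex (⋃ n, Ω n) k))) ∧
  (∀ k : K, Tendsto (fun R : ℝ => ex (ext 0 R) k) atTop (𝓝 0)) ∧
  (∀ k : K, Tendsto (fun R : ℝ => ex (Metric.ball 0 R) k) atTop (𝓝 ‖k‖))

/-- **L7**. Proof: for a test function `φ` with compact support in the open ball `B(y,ρ)` the functions `Rad φ`,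
`dRad φ` vanish for `|p - y·w| ≥ ρ` (RadT), so `⟨k, Rk φ⟩ = ⟨k, dRk φ⟩ = 0`. -/
def St_L7 : Prop := ∀ (y : E) (ρ : ℝ) (k : K),
  indK {z | |z.2 - inner ℝ y (z.1 : E)| < ρ} k = 0 → Van (Metric.ball y ρ) k

/-- **L8** (exterior locality). Proof. Let `k' = k - pr (ext y ρ) k`, whose fields vanish on `{|x - y| > ρ}`
(ExB). Let `ρ' > ρ` and `κ ∈ K` with `κ = 0` for `|p - y·w| < ρ'`; by L7 its fields vanish on `B(y,ρ')`.
By IP `⟨k', κ⟩ = c0 (∫ LU k' LU κ + Σ ∫ DV k' i DV κ i) = 0`, since the weak derivatives of a field that vanishes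
on an open set vanish a.e. there. So `k' = 0` a.e. on `|p - y·w| ≥ ρ'`, for every `ρ' > ρ`; hence
`indK {ρ < |p - y·w|} k = indK {..} (pr (ext y ρ) k)`, norm `≤ ex (ext y ρ) k`. -/
def St_L8 : Prop := ∀ (y : E) (ρ : ℝ) (k : K), 0 ≤ ρ →
  ‖indK {z | ρ < |z.2 - inner ℝ y (z.1 : E)|} k‖ ≤ ex (ext y ρ) k ∧
  (Van (ext y ρ) k → indK {z | ρ < |z.2 - inner ℝ y (z.1 : E)|} k = 0)

/-- **Cut** (cut-off at infinity, L9). There are bounded operators `X_M` (`M ∈ ℕ`, uniformly bounded) with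
`Van {|x| > 2M+2} (X_M k)`, `X_M k → k`, and `Van Ω k → Van Ω (X_M k)` for open `Ω`. Proof: `χ` smooth, `χ = 1` on `B(0,1)`,
`= 0` off `B(0,2)`, `χ_M = χ(·/(M+1))`. For test `f, g`:
`‖lap (χ_M f)‖_2 ≤ ‖lap f‖_2 + 2 ‖∇χ_M‖_5 ‖∇f‖_{10/3} + ‖lap χ_M‖_{5/2} ‖f‖_{10} ≤ C ‖lap f‖_2` (the norms of the
derivatives of `χ_M` do not depend on `M`), `‖∇(χ_M g)‖_2 ≤ ‖∇g‖_2 + ‖∇χ_M‖_5 ‖g‖_{10/3} ≤ C ‖∇ g‖_2`; so
`Theta f g ↦ Theta (χ_M f) (χ_M g)` extends to a bounded operator `X_M` of `K` (Dens, Iso), `U (X_M k) = χ_M U k`,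
`V (X_M k) = χ_M V k` a.e., and `X_M k → k` because this is true on test states (`X_M = id` for `M` large). -/
def St_Cut : Prop := ∃ (C : ℝ) (X : ℕ → K →L[ℝ] K), (∀ (M : ℕ) (k : K), ‖X M k‖ ≤ C * ‖k‖) ∧
  (∀ (M : ℕ) (k : K), Van (ext 0 (2 * (M : ℝ) + 2)) (X M k)) ∧
  (∀ (M : ℕ) (k : K) (Ω : Set E), IsOpen Ω → Van Ω k → Van Ω (X M k)) ∧
  (∀ k : K, Tendsto (fun M => X M k) atTop (𝓝 k)) ∧
  (∀ (M : ℕ) (k : K), ∃ χ : E → ℝ, SmE χ ∧ (∀ x, 0 ≤ χ x ∧ χ x ≤ 1) ∧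
    (∀ x, ‖x‖ ≤ M + 1 → χ x = 1) ∧
    (U (X M k) =ᵐ[volume] fun x => χ x * U k x) ∧ (V (X M k) =ᵐ[volume] fun x => χ x * V k x))

/-- **SL** (slices of the sphere). `O e : ℝ⁴ → e^⊥` is any linear isometry. Proof: it suffices to integrate
`b(x/|x|) ψ(|x|)` over `E` with `ψ` radial. Coordinates `x = s' e + O y`, `y = ρ v`, `v ∈ S³` (polar coordinates in
`ℝ⁴`), then `s' = r s`, `ρ = r √(1-s²)`: `dx = ρ³ dρ dv ds' = r⁴ (1-s²) dr ds dv`. The left side is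
`∫ r⁴ ψ dr ∫_S b` (polar coordinates in `ℝ⁵`). -/
def St_SL : Prop := ∀ (e : S) (O : EuclideanSpace ℝ (Fin 4) →ₗᵢ[ℝ] E),
  (∀ v, inner ℝ (O v) (e : E) = 0) → ∀ b : E → ℝ, Continuous b →
  ∫ w : S, b w ∂sg = ∫ s in (-1 : ℝ)..1, (1 - s ^ 2) *
    ∫ v : Metric.sphere (0 : EuclideanSpace ℝ (Fin 4)) 1, b (s • (e : E) + √(1 - s ^ 2) • O v)
      ∂((volume : Measure (EuclideanSpace ℝ (Fin 4))).toSphere)

/-- **SL1** (zonal functions): `∫_S g(z·w) dw = (2π²/|z|) ∫_{|p| ≤ |z|} (1 - p²/|z|²) g(p) dp`, for measurable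
`g : ℝ → ℝ≥0∞`. Proof: as SL (or from SL), `|S³| = 2π²`. -/
def St_SL1 : Prop := ∀ (z : E), z ≠ 0 → ∀ g : ℝ → ℝ≥0∞, Measurable g →
  ∫⁻ w : S, g (inner ℝ z (w : E)) ∂sg =
    ∫⁻ p in Icc (-‖z‖) ‖z‖, ENNReal.ofReal (2 * Real.pi ^ 2 / ‖z‖ * (1 - p ^ 2 / ‖z‖ ^ 2)) * g p

/-- The kernel `2π² |z|⁻¹ (1 - t²/|z|²)_+`. -/
noncomputable def Kc (t : ℝ) (z : E) : ℝ := 2 * Real.pi ^ 2 / ‖z‖ * max 0 (1 - t ^ 2 / ‖z‖ ^ 2)

/-- Dual Radon transform of the shifted Radon transform. -/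
noncomputable def Sph (f : E → ℝ) (t : ℝ) (x : E) : ℝ := ∫ w : S, Rad f (w, inner ℝ x (w : E) - t) ∂sg

/-- **Sph** (properties of `Sph`). Proof: `Rad f (w,·)` is smooth with all derivatives continuous on `S × ℝ` and compactly supported (RadT applied repeatedly to `f`, `lap f`, ...), so
`Sph f` is smooth in `(t,x)`: every `∂_t` gives `- ∂_p`, every `∂_{x_i}` gives `w_i ∂_p` (differentiate under the integral sign over the compact sphere); `Σ w_i² = 1`. Kernel formula: SL1 and RadT: for a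
bounded continuous `g` of one variable `∫ g(t) Sph f t x dt = ∫_S ∫_y f(y) g((x-y)·w) dy dw = ∫_y f(y) ∫ g(t) Kc t (x-y) dt dy`; both sides are continuous in `t`. Vanishing: if `f = 0` on `B̄(x,|t|)`, then
for `|t'| < |t|` near a given such value only `y` with `|x-y| > |t'|` contribute, so `Sph f t' x = A - B t'²` on `(-|t|,|t|)`: third and fourth derivatives vanish there and by continuity at `t`
(for `t = 0`: the derivative of order 3 at `0` vanishes since `Sph f` is even in `t`; the one of order 4 is `f(x)/c0 = 0`). Inversion: `c0 ∂_t⁴ Sph f (0,x) = f(x)`: from Iso and UTest: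
`∫ U (c0 Rk (lap lap f)) φ = c0 ⟨Rk (lap lap f), Rk φ⟩ = ∫ f φ`, and `U (Rk (lap lap f)) = Sph (lap lap f) 0 = ∂_t⁴ Sph f (0,·)`, continuous. -/
def St_Sph : Prop := ∀ f : E → ℝ, IsTest f →
  ContDiff ℝ ((⊤ : ℕ∞) : WithTop ℕ∞) (fun q : ℝ × E => Sph f q.1 q.2) ∧
  (∀ t x, Sph f t x = ∫ y, f y * Kc t (x - y)) ∧
  (∀ t x, Sph f (-t) x = Sph f t x) ∧
  (∀ t x, iteratedDeriv 2 (fun s => Sph f s x) t = Sph (lap f) t x ∧
    lap (fun y => Sph f t y) x = Sph (lap f) t x) ∧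
  (∀ t x, (∀ y, dist y x ≤ |t| → f y = 0) →
    iteratedDeriv 3 (fun s => Sph f s x) t = 0 ∧ iteratedDeriv 4 (fun s => Sph f s x) t = 0) ∧
  (∀ x, c0 * iteratedDeriv 4 (fun s => Sph f s x) 0 = f x)

/-- **Free** (free evolution of test states, L11; uses Sph: `f'(x) = c0 (∂_t⁴ Sph f + ∂_t³ Sph g)(t,x)`, `g' = ∂_t f'`). For test `f, g` and `t ∈ ℝ` there are test `f', g'` with
`tau t (Theta f g) = Theta f' g'`; they vanish at `x` if `f`, `g` vanish on the closed ball `B̄(x,|t|)`; and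
`tau t (Rk f)`, `tau t (dRk f)` are of the form `Rk f1 + dRk f2` with such `f1, f2`. Proof: put
`f'(x) = c0 ∫_S k(w, x·w - t) dw`, `g'(x) = - c0 ∫_S ∂_p k(w, x·w - t) dw` with the smooth representative
`k = Rad (lap lap f) - dRad (lap g)` (smooth in `p`, all `p`-derivatives continuous and compactly supported): these
are smooth in `x`. Support: `G(t) = ∫_S Rad f (w, x·w - t) dw = ∫ f(x') Kc(t, x - x') dx'` with
`Kc(t,z) = 2π² |z|⁻¹ (1 - t²/|z|²)_+` (SL1); if `f = 0` on `B̄(x, |t|)`, hence on a slightly larger ball, then `G` is near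
`t` a polynomial `A - B t²`, so its third and fourth derivatives vanish: the contribution
`∫_S ∂_p⁴ Rad f (w, x·w - t) dw = G''''(t)` is zero, same for `g` and for `t`-derivatives. In particular `f', g'` have
compact support. `U (tau t k) = f'` a.e., `V (tau t k) = g'` (test functions), so `tau t (Theta f g) = Theta f' g'`
(injectivity: Dens). For `Rk f`: `tau t (Rk f)` has even part `(1/2)(Rad f(·,p-t) + Rad f(·,p+t))` and odd part;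
take `f1(x) = c0 ∫_S ∂_p⁴ Rad f (w,x·w-t) dw` (solution of the wave equation with position `f`) and `f2` the solution
with velocity `-f`, i.e. `f2(x) = c0 ∫_S ∂_p³ Rad f (w, x·w - t) dw`: check against all `Theta`, using
`⟨tau t (Rk f), Theta a b⟩ = ⟨Rk f, tau (-t) (Theta a b)⟩ = ∫ f a'`, where `a'` is the position of `tau (-t) (Theta a b)`,
and `∫ f a' = ∫ f1 a + ∫ f2 b` by Fubini (the kernel of the wave flow is even in `x - x'`). -/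
def St_Free : Prop := ∀ (f g : E → ℝ) (t : ℝ), IsTest f → IsTest g →
  (∃ f' g' : E → ℝ, IsTest f' ∧ IsTest g' ∧ tau t (Theta f g) = Theta f' g' ∧
    ∀ x, (∀ y, dist y x ≤ |t| → f y = 0 ∧ g y = 0) → f' x = 0 ∧ g' x = 0) ∧
  (∃ f1 f2 : E → ℝ, IsTest f1 ∧ IsTest f2 ∧ tau t (Rk f) = Rk f1 + dRk f2 ∧
    ∀ x, (∀ y, dist y x ≤ |t| → f y = 0) → f1 x = 0 ∧ f2 x = 0) ∧
  (∃ f1 f2 : E → ℝ, IsTest f1 ∧ IsTest f2 ∧ tau t (dRk f) = Rk f1 + dRk f2 ∧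
    ∀ x, (∀ y, dist y x ≤ |t| → f y = 0) → f1 x = 0 ∧ f2 x = 0)

/-- **FSP** (finite speed of propagation, linear). Proof: for a test `φ` with support in `shr Ω |t|` the functions of
Free for `tau (-t) (Rk φ)`, `tau (-t) (dRk φ)` are supported in `Ω` (the closed `|t|`-neighbourhood of the compact set
`tsupport φ` lies in `Ω`), so `⟨tau t k, Rk φ⟩ = ⟨k, tau (-t)(Rk φ)⟩ = 0`. Second part: `tau t (k - pr Ω k)` vanishes on
`shr Ω |t|`. -/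
def St_FSP : Prop := ∀ (Ω : Set E) (t : ℝ) (k : K), IsOpen Ω →
  (Van Ω k → Van (shr Ω |t|) (tau t k)) ∧ ex (shr Ω |t|) (tau t k) ≤ ex Ω k

/-- **Decay** (pointwise decay for test states). Proof: conventions of Free, `k = c0 (Rad (lap lap f) - dRad (lap g))` smooth in
`p`, supported in `|p| ≤ M0`, `f' (x) = ∫_S k(w, x·w - t) dw` and all derivatives in `x`, `t` are integrals of
`± w^α ∂_p^j k (w, x·w - t)`. So they vanish for `|x| < |t| - M0` (then `|x·w - t| > M0`) and for `|x| > |t| + M0` (Free), and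
are bounded by `C |{w : |x·w - t| ≤ M0}|`. For `|t| ≥ 4 M0`, `|x| ≥ |t|/2`: by SL1 with `s = p/|x|` the set is
`{||x| s - t| ≤ M0}`, on it `1 - |s| ≤ 2 M0/|x|` (as `|x| ≤ |t| + M0`), length `≤ 2 M0/|x|`, measure
`≤ 2π² (2M0/|x|) (4M0/|x|) ≤ C t⁻²`. For `|t| ≤ 4 M0` everything is bounded. -/
def St_Decay : Prop := ∀ f g : E → ℝ, IsTest f → IsTest g → ∃ C M0 : ℝ, 0 < C ∧ 1 ≤ M0 ∧
  ∀ t : ℝ, ∃ f' g' : E → ℝ, IsTest f' ∧ IsTest g' ∧ tau t (Theta f g) = Theta f' g' ∧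
    (∀ x, M0 ≤ abs (‖x‖ - |t|) → f' x = 0 ∧ g' x = 0) ∧
    ∀ x i j, |f' x| ≤ C / (1 + t ^ 2) ∧ |pd i f' x| ≤ C / (1 + t ^ 2) ∧
      |pd j (pd i f') x| ≤ C / (1 + t ^ 2) ∧ |g' x| ≤ C / (1 + t ^ 2) ∧ |pd i g' x| ≤ C / (1 + t ^ 2)

/-- **D1** (a free wave leaves every half space that moves with speed one). Proof: `ex` is 1-Lipschitz, so `k = Theta f g`
(Dens). With `f', g'` of Decay and `χ1` smooth on `ℝ`, `χ1 = 1` on `[0,∞)`, `= 0` on `(-∞,-1]`, let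
`W = Theta (χ1(x·e - t - c) f') (χ1(x·e - t - c) g')`: `Van (half e (c+t)) (tau t k - W)`, so
`ex (half e (c+t)) (tau t k) ≤ ‖W‖`, and `‖W‖² = c0 (‖lap ..‖² + ‖∇ ..‖²) ≤ C t⁻⁴ vol {x·e ≥ t+c-1, |x| ≤ t + M0}`. This region has
`x·e` in an interval of length `M0 - c + 1` and squared distance to the axis `ℝe` at most `(t+M0)² - (t+c-1)² ≤ C t`, so volume
`≤ C t²`, and `‖W‖² ≤ C t⁻²`. (`‖e‖ = 1`.) -/
def St_D1 : Prop := ∀ (k : K) (e : E) (c : ℝ), ‖e‖ = 1 →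
  Tendsto (fun t : ℝ => ex (half e (c + t)) (tau t k)) atTop (𝓝 0)

/-- **GamE** (sources, L5). Proof: `F ∈ L² ∩ L^{10/3}` with weak gradient `G ∈ L²` is a limit of test functions `ψ_n` with
`∇ψ_n → G` in `L²` and `ψ_n → F` in `L^{10/3}` and in `L²` (cut off with `χ(·/M)`, mollify). `Theta 0 ψ_n` is Cauchy
(`‖Theta 0 ψ‖² = c0 ‖∇ψ‖²`), its limit `w` satisfies `⟨w, Rk φ⟩ = 0`, `⟨w, dRk φ⟩ = ∫ F φ` (Iso), `‖w‖² = c0 Σ ‖G_i‖²`. Uniqueness by Dens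
(`TS univ = ⊤`). -/
def St_GamE : Prop := ∀ (F : E → ℝ) (G : Fin 5 → E → ℝ), MemLp F 2 volume → MemLp F (10 / 3) volume →
  (∀ i, MemLp (G i) 2 volume ∧ WD i F (G i)) →
  IsGam F (Gam F) ∧ ‖Gam F‖ ^ 2 = c0 * ∑ i, ∫ x, G i x ^ 2 ∧
  (U (Gam F) =ᵐ[volume] 0) ∧ (V (Gam F) =ᵐ[volume] F) ∧ (∀ i, DV (Gam F) i =ᵐ[volume] G i)

/-- **HLS** (Hardy-Littlewood-Sobolev on the line, two exponents). Proof (Lieb-Loss 4.3): normalise `‖f‖ = ‖g‖ = 1`, layer cake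
`f = ∫ 1_{f>a} da`, `g = ∫ 1_{g>b} db`, `|t|^{-γ} = γ ∫ c^{-1-γ} 1_{|t|<c} dc`; the triple integral of `c^{-1-γ} I(a,b,c)`,
`I(a,b,c) = |{(s,t) : f(s)>a, g(t)>b, |s-t|<c}| ≤ min(u v, 2 c u, 2 c v)`, `u = |{f>a}|`, `v = |{g>b}|`; integrate in `c` first
(split at `c = max(u,v)`): `≤ C min(u v^{1-γ}, v u^{1-γ})`, then `a^p u, b^p v` integrable, split `b ≤ a` (with `‖·‖_p` normalised,
Hoelder). -/
def St_HLS : Prop := ∃ C : ℝ, 0 < C ∧ ∀ f g : ℝ → ℝ≥0∞, Measurable f → Measurable g →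
  (∫⁻ s, ∫⁻ t, f s * g t * ENNReal.ofReal (|s - t| ^ (-(1 / 2 : ℝ))) ≤
    ENNReal.ofReal C * (∫⁻ s, f s ^ (4 / 3 : ℝ)) ^ (3 / 4 : ℝ) * (∫⁻ s, g s ^ (4 / 3 : ℝ)) ^ (3 / 4 : ℝ)) ∧
  (∫⁻ s, ∫⁻ t, f s * g t * ENNReal.ofReal (|s - t| ^ (-(2 / 3 : ℝ))) ≤
    ENNReal.ofReal C * (∫⁻ s, f s ^ (3 / 2 : ℝ)) ^ (2 / 3 : ℝ) * (∫⁻ s, g s ^ (3 / 2 : ℝ)) ^ (2 / 3 : ℝ))

/-- **KcB** (the kernel of `T T*`). For nonnegative measurable `F` on `ℝ × E` the quadratic form with kernel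
`Kc(t,z) = 2π² |z|⁻¹ (1 - t²/|z|²)_+` is bounded on `L^{4/3} L^{20/19}` and on `L^{3/2} L^{30/29}`. Also for the kernel shifted in
time by `r`. Proof: for fixed `t` `‖Kc(t,·)‖_{L^{10}} = C |t|^{-1/2}`, `‖Kc(t,·)‖_{L^{15}} = C |t|^{-2/3}` (polar coordinates),
Young's inequality `∫∫ a(x) b(x') κ(x-x') ≤ ‖a‖_{r'} ‖b‖_{r'} ‖κ‖_{r/2}` (`2/r' + 2/r = 2`) and HLS with `|s - t + r|` (translate
one function). -/
def St_KcB : Prop := ∃ C : ℝ, 0 < C ∧ ∀ (F : ℝ → E → ℝ≥0∞) (r : ℝ), Measurable (Function.uncurry F) →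
  (∫⁻ s, ∫⁻ t, ∫⁻ x, ∫⁻ y, F s x * F t y * ENNReal.ofReal (Kc (s - t + r) (x - y)) ≤
    ENNReal.ofReal C * (∫⁻ s, (∫⁻ x, F s x ^ (20 / 19 : ℝ)) ^ (19 / 15 : ℝ)) ^ (3 / 2 : ℝ)) ∧
  (∫⁻ s, ∫⁻ t, ∫⁻ x, ∫⁻ y, F s x * F t y * ENNReal.ofReal (Kc (s - t + r) (x - y)) ≤
    ENNReal.ofReal C * (∫⁻ s, (∫⁻ x, F s x ^ (30 / 29 : ℝ)) ^ (29 / 20 : ℝ)) ^ (4 / 3 : ℝ))

/-- **Str** (Strichartz estimates, L12). Proof. `φ_ε` even mollifier on `ℝ`, `k_ε = k *_p φ_ε` (with `|k|` instead of `k`). For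
`F ≥ 0` bounded with bounded support put `κ(w,p) = ∫∫ F(t,x) φ_ε(x·w - t - p) dx dt`; Fubini gives
`∫∫ (U (tau t k_ε))(x) F = ∫ k κ ≤ ‖k‖ ‖κ‖` and `‖κ‖² = ∫∫∫∫ F F' ∫_S Φ_ε((x-x')·w - (t-t')) dw`, `Φ_ε = φ_ε * φ_ε`,
`= ∫ Φ_ε(r) [∫∫∫∫ F F' Kc(t-t'+r, x-x')] dr ≤ C ‖F‖²_{L^{q'}L^{r'}}` (SL1, KcB). Duality: `‖U (tau t k_ε)‖_{L^q L^r} ≤ C ‖k‖`.
`ε → 0`: `U (tau t k_ε) → U (tau t k)` in `L¹_loc(dt dx)` (UTest), Fatou. -/
def St_Str : Prop := ∃ C : ℝ, 0 < C ∧ ∀ k : K,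
  ∫⁻ t, eLpNorm (U (tau t k)) 20 volume ^ 4 ≤ (ENNReal.ofReal C * ‖k‖ₑ) ^ 4 ∧
  ∫⁻ t, eLpNorm (U (tau t k)) 30 volume ^ 3 ≤ (ENNReal.ofReal C * ‖k‖ₑ) ^ 3

/-- **Lsc** (measurability). Proof: for `1 ≤ p` the norm `‖1_B U k‖_p` is the supremum over countably many bounded measurable
`φ` with bounded support (unit ball of the dual exponent) of `|∫_B (U k) φ|`, and `k ↦ U k ∈ L¹_loc` is continuous
(UTest). -/
def St_Lsc : Prop := ∀ (p : ℝ≥0∞) (B : Set E), 1 ≤ p → MeasurableSet B →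
  LowerSemicontinuous (fun k : K => eLpNorm (B.indicator (U k)) p volume)

/-- **NFK** (kernel bound for the near field). Proof: slices SL along `e = z/|z|`: the integral is
`∫_{-1}^{1} φ^{(n)}(|z| s + σ) B(s) ds`, `B(s) = (1-s²) ∫_{S³} b(s e + √(1-s²) O v) dv`, `B` is `C^n` for `|s| < 1/2` with
derivatives bounded by `C(n) max_{|x| ≤ 1, j ≤ n} |D^j b|`; the integrand is supported in `|s| ≤ (1/8 + 1/100)/|z| < 1/2`;
`φ^{(n)}(|z| s + σ) = |z|^{-n} (d/ds)^n φ(|z| s + σ)`, integrate by parts `n` times, `∫ φ(|z|s+σ) ds = 1/|z|`. -/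
def St_NFK : Prop := ∀ (n : ℕ) (B : ℝ), ∃ C : ℝ, ∀ (b : E → ℝ), SmE b →
  (∀ j ≤ n, ∀ x : E, ‖x‖ ≤ 1 → ‖iteratedFDeriv ℝ j b x‖ ≤ B) →
  ∀ (φ : ℝ → ℝ), Sm φ → (∀ p, 0 ≤ φ p) → (∀ p, 1 / 100 ≤ |p| → φ p = 0) → ∫ p, φ p = 1 →
  ∀ (z : E) (σ : ℝ), 5 / 12 ≤ ‖z‖ → 0 ≤ σ → σ ≤ 1 / 8 →
  |∫ w : S, b w * iteratedDeriv n φ (inner ℝ z (w : E) + σ) ∂sg| ≤ C / ‖z‖ ^ (n + 1)

/-- The regularised near field state `κ^ε` (paper P2). -/
noncomputable def kap (θ : ℝ → ℝ) (F : E → ℝ) (σ : ℝ) (φ : ℝ → ℝ) (z : S × ℝ) : ℝ :=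
  c0 * ∫ y : E, F y * ∑ j ∈ Finset.range 4, (Nat.choose 3 j : ℝ) * (-1) ^ (3 - j) *
    iteratedDeriv j θ (inner ℝ y (z.1 : E) - σ) *
    iteratedDeriv (3 - j) φ (z.2 - (inner ℝ y (z.1 : E) - σ))

/-- Mollifiers on the line with support in `(-r, r)`. -/
def IsMol (r : ℝ) (φ : ℝ → ℝ) : Prop := Sm φ ∧ (∀ p, 0 ≤ φ p) ∧ (∀ p, r ≤ |p| → φ p = 0) ∧ ∫ p, φ p = 1

/-- **NFa** (weak approximation). Proof (paper P2, L5): for a test function `ψ` and `κ' = Rad ψ` or `dRad ψ` (smooth in `p`)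
`⟨θ tau (-σ) (Gam F), κ'⟩ = ⟨Gam F, tau σ (θ κ')⟩ = c0 ∫ F(y) ∫_S ∂_p³ (θ κ')(w, a) dw dy`, `a = y·w - σ`: indeed `Gam F = Theta 0 F = - c0 dRk (lap F) = - c0 ∂_p³ Rad F`, integrate by parts three times in `p` and use the
RadT formula. On the other side `∫ iteratedDeriv (3-j) φ_n (p - a) κ'(w,p) dp = (-1)^{3-j} ∫ φ_n(p-a) ∂_p^{3-j} κ'(w,p) dp → (-1)^{3-j} ∂_p^{3-j} κ'(w,a)` uniformly, and Leibniz' rule. `kap` is bounded
with compact support, hence in `L²`. -/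
def St_NFa : Prop := ∀ (θ : ℝ → ℝ) (F : E → ℝ) (σ : ℝ), Sm θ → (∀ p, |θ p| ≤ 1) → (∀ p, 1 / 12 ≤ |p| → θ p = 0) →
  IsTest F → (∀ x, 1 / 3 ≤ ‖x‖ → F x = 0) →
  (∀ φ r, IsMol r φ → MemLp (kap θ F σ φ) 2 mu) ∧
  ∀ φ : ℕ → ℝ → ℝ, (∀ n : ℕ, IsMol (1 / (n + 100 : ℝ)) (φ n)) → ∀ ψ, IsTest ψ →
    Tendsto (fun n => inner ℝ (toK (kap θ F σ (φ n))) (Rk ψ)) atTop
      (𝓝 (inner ℝ (mulK (fun z => θ z.2) (tau (-σ) (Gam F))) (Rk ψ))) ∧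
    Tendsto (fun n => inner ℝ (toK (kap θ F σ (φ n))) (dRk ψ)) atTop
      (𝓝 (inner ℝ (mulK (fun z => θ z.2) (tau (-σ) (Gam F))) (dRk ψ)))

/-- **NFb** (bound of the regularised near field). Proof (paper P2). `U (toK kap) x = ∫_S kap (w, x·w) dw = c0 ∫ F(y) Σ_j binom(3,j) (-1)^{3-j} ∫_S θ^{(j)}(y·w - σ) φ^{(3-j)}((x-y)·w + σ) dw dy`; each `∂_{x_i}` multiplies by
`w_i` and differentiates `φ` once more; `V (toK kap)` is minus the same expression with `φ^{(4-j)}` (test against `dRk ψ`). For `|x| ≥ 3/4` and `|y| < 1/3`: `|x - y| ≥ 5/12`, NFK with `b(w) = θ^{(j)}(y·w - σ) w^α`: `|∂^α U| ≤ C ‖F‖_1 |x|^{-1-|α|}`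
(`|α| ≤ 2`), `|∂^α V| ≤ C ‖F‖_1 |x|^{-2-|α|}` (`|α| ≤ 1`). With `χ` smooth, `0` for `|x| ≤ 3/4`, `1` for `|x| ≥ 1`, the pair `(χ U, χ V)` is the limit of the test pairs `χ(·) χ_M (U,V)` in the norm `‖lap‖_2 + ‖∇‖_2` (decay), so it is the pair
of fields of some `W ∈ K` with `‖W‖² = c0 (‖Δ(χU)‖² + ‖∇(χV)‖²) ≤ C ‖F‖_1² ∫_{3/4}^∞ r⁻⁶ r⁴ dr`; `Van (ext 0 1) (toK kap - W)`. -/
def St_NFb : Prop := ∀ θ : ℝ → ℝ, Sm θ → (∀ p, |θ p| ≤ 1) → (∀ p, 1 / 12 ≤ |p| → θ p = 0) →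
  ∃ C : ℝ, ∀ (F : E → ℝ) (σ : ℝ) (φ : ℝ → ℝ), IsTest F → (∀ x, 1 / 3 ≤ ‖x‖ → F x = 0) → 0 ≤ σ → σ ≤ 1 / 8 →
    IsMol (1 / 100) φ → ex (ext 0 1) (toK (kap θ F σ φ)) ≤ C * ∫ x, |F x|

/-- **NF1** (near field, unit scale, smooth sources). Proof from NFa, NFb: for `w` in the span of `Rk ψ, dRk ψ`, `tsupport ψ ⊆ ext 0 1`, and `κ = θ tau (-σ) (Gam F)`:
`|⟨κ, w⟩| = lim |⟨toK kap_n, w⟩| = lim |⟨pr (ext 0 1) (toK kap_n), w⟩| ≤ C ‖F‖_1 ‖w‖`; the span is dense in `TS (ext 0 1)`. -/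
def St_NF1 : Prop := ∀ θ : ℝ → ℝ, Sm θ → (∀ p, |θ p| ≤ 1) → (∀ p, 1 / 12 ≤ |p| → θ p = 0) →
  ∃ C : ℝ, ∀ (F : E → ℝ) (σ : ℝ), IsTest F → (∀ x, 1 / 3 ≤ ‖x‖ → F x = 0) → 0 ≤ σ → σ ≤ 1 / 8 →
  ex (ext 0 1) (mulK (fun z => θ z.2) (tau (-σ) (Gam F))) ≤ C * ∫ x, |F x|

/-- **NF** (near field, P2). Proof from NF1: `F` as in GamE is approximated by test functions (mollification) with `L¹` norms
`≤ ‖F‖_1` and supports in a slightly larger ball, `Gam` converges; scaling: `Gam F = dl (-log R) (Gam F1)`, `F = R^{-3/2} F1(·/R)`,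
`θ(·/R)` and `tau` are intertwined (Grp2), `ex (ext 0 R) (dl (-log R) κ) = ex (ext 0 1) κ` (Act), `‖F1‖_1 = R^{-7/2} ‖F‖_1`. -/
def St_NF : Prop := ∀ θ : ℝ → ℝ, Sm θ → (∀ p, |θ p| ≤ 1) → (∀ p, 1 / 12 ≤ |p| → θ p = 0) →
  ∃ C : ℝ, ∀ (R : ℝ) (F : E → ℝ) (G : Fin 5 → E → ℝ) (σ : ℝ), 0 < R →
    MemLp F 2 volume → MemLp F (10 / 3) volume → (∀ i, MemLp (G i) 2 volume ∧ WD i F (G i)) →
    (∀ᵐ x, R / 4 < ‖x‖ → F x = 0) → 0 ≤ σ → σ ≤ R / 8 →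
    ex (ext 0 R) (mulK (fun z => θ (z.2 / R)) (tau (-σ) (Gam F))) ≤
      C * R ^ (-(7 / 2 : ℝ)) * ∫ x, |F x|

end Pool.Agent.QWE
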