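import Pool.Agent.QWE.StG
import Pool.Agent.QWE.StA

/-!
# [Apx] uniform approximation along a solution
-/

set_option autoImplicit false

open MeasureTheory Filter Topology Set
open scoped ENNReal NNReal RealInnerProductSpace Pointwise

namespace Pool.Agent.QWE

namespace Apxx

/-- dominated convergence in `L²⁰` -/
private theorem tend {f : E → ℝ} (hf : eLpNorm f 20 volume < ⊤)
    {F : ℕ → E → ℝ} (hF : ∀ n, AEStronglyMeasurable (F n) volume) (hle : ∀ n x, |F n x| ≤ |f x|)
    (hlim : ∀ x, Tendsto (fun n => F n x) atTop (𝓝 0)) :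
    Tendsto (fun n => eLpNorm (F n) 20 volume) atTop (𝓝 0) := by
  have e20 : (20 : ℝ≥0∞).toReal = 20 := by norm_num
  have hfin : ∫⁻ x, ‖f x‖ₑ ^ (20 : ℝ) ≠ ⊤ := by
    have h1 := lintegral_rpow_enorm_lt_top_of_eLpNorm_lt_top (μ := volume) (f := f)
      (p := 20) (by norm_num) (by norm_num) hf
    rw [e20] at h1
    exact h1.ne
  have h1 : Tendsto (fun n => ∫⁻ x, ‖F n x‖ₑ ^ (20 : ℝ)) atTop (𝓝 (∫⁻ _x : E, 0)) := by
    refine tendsto_lintegral_of_dominated_convergence' (fun x => ‖f x‖ₑ ^ (20 : ℝ))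
      (fun n => (hF n).enorm.pow_const 20) (fun n => ?_) hfin ?_
    · refine Eventually.of_forall fun x => ?_
      refine ENNReal.rpow_le_rpow ?_ (by norm_num)
      rw [← ofReal_norm, ← ofReal_norm]
      exact ENNReal.ofReal_le_ofReal (hle n x)
    · refine Eventually.of_forall fun x => ?_
      have h2 : Tendsto (fun n => ‖F n x‖ₑ) atTop (𝓝 0) := by
        have h3 := (hlim x).enorm
        rwa [enorm_zero] at h3
      have h4 := (ENNReal.continuous_rpow_const (y := 20)).tendsto 0 |>.comp h2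
      rw [ENNReal.zero_rpow_of_pos (by norm_num)] at h4
      exact h4
  rw [lintegral_zero] at h1
  have h5 := (ENNReal.continuous_rpow_const (y := 1 / 20)).tendsto 0 |>.comp h1
  rw [ENNReal.zero_rpow_of_pos (by norm_num)] at h5
  refine h5.congr fun n => ?_
  rw [eLpNorm_eq_lintegral_rpow_enorm_toReal (by norm_num) (by norm_num), e20]
  rfl

private theorem qm_le (m : ℝ) (hm : 0 ≤ m) (k : K) : qm m k ≤ 2 * sn k := by
  unfold qm sn
  rw [two_mul]
  refine add_le_add ?_ (eLpNorm_indicator_le _)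
  refine eLpNorm_mono fun x => ?_
  rw [Real.norm_eq_abs, Real.norm_eq_abs, abs_of_nonneg (le_max_left _ _)]
  exact max_le (abs_nonneg _) (by linarith [abs_nonneg (U k x)])

private theorem qm_tend (k : K) (hU : AEStronglyMeasurable (U k) volume) (hk : sn k < ⊤) :
    Tendsto (fun n : ℕ => qm n k) atTop (𝓝 0) := by
  have h1 : Tendsto (fun n : ℕ => eLpNorm (fun x => max 0 (|U k x| - n)) 20 volume) atTop
      (𝓝 0) := by
    refine tend (f := U k) hk (fun n => ?_) (fun n x => ?_) fun x => ?_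
    · exact (continuous_const.max continuous_id).comp_aestronglyMeasurable
        ((continuous_abs.comp_aestronglyMeasurable hU).sub aestronglyMeasurable_const)
    · rw [abs_of_nonneg (le_max_left _ _)]
      exact max_le (abs_nonneg _) (by linarith [Nat.cast_nonneg (α := ℝ) n])
    · obtain ⟨N, hN⟩ := exists_nat_ge |U k x|
      refine tendsto_const_nhds.congr' ?_
      filter_upwards [eventually_ge_atTop N] with n hn
      have : (N : ℝ) ≤ n := by exact_mod_cast hn
      rw [max_eq_left (by linarith)]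
  have h2 : Tendsto (fun n : ℕ => eLpNorm ((Metric.ball (0 : E) n)ᶜ.indicator (U k)) 20 volume)
      atTop (𝓝 0) := by
    refine tend (f := U k) hk (fun n => ?_) (fun n x => ?_) fun x => ?_
    · exact hU.indicator measurableSet_ball.compl
    · by_cases hx : x ∈ (Metric.ball (0 : E) n)ᶜ
      · rw [indicator_of_mem hx]
      · rw [indicator_of_notMem hx, abs_zero]
        exact abs_nonneg _
    · obtain ⟨N, hN⟩ := exists_nat_gt ‖x‖
      refine tendsto_const_nhds.congr' ?_
      filter_upwards [eventually_ge_atTop N] with n hn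
      have : (N : ℝ) ≤ n := by exact_mod_cast hn
      rw [indicator_of_notMem]
      rw [notMem_compl_iff, mem_ball_zero_iff]
      linarith
  have h3 := h1.add h2
  rw [add_zero] at h3
  exact h3

/-- measurability along a curve -/
private theorem meas_curve {J : Set ℝ} {a : ℝ → K} (ha : ContinuousOn a J)
    {φ : K → ℝ≥0∞} (hφ : LowerSemicontinuous φ) : Measurable (fun t : J => φ (a t)) := by
  have h1 : LowerSemicontinuous (fun t : J => φ (a t)) :=
    hφ.comp (continuousOn_iff_continuous_domRestrict.1 ha)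
  exact h1.measurable

end Apxx

open Apxx in
theorem thm_Apx (hG10 : St_G10) (hLscT : St_LscT) (hLsc : St_Lsc) (hBlow : St_Blow)
    (hMaxE : St_MaxE) (hDens : St_Dens) (hLin : St_Lin) (hFld : St_Fld) : St_Apx := by
  intro J a hA ε hε
  obtain ⟨hJ, hsol, hSN⟩ := hA
  obtain ⟨C, hC, hFld⟩ := hFld
  have hcont : ContinuousOn a J := hsol.2.1
  have hε' : (0 : ℝ≥0∞) < ENNReal.ofReal ε := ENNReal.ofReal_pos.2 hε
  have hJm : MeasurableSet J := by
    rcases hJ with rfl | ⟨Ts, -, rfl⟩
    · exact measurableSet_Ici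
    · exact measurableSet_Icc
  -- Step A
  obtain ⟨m1, hm1⟩ : ∃ m1 : ℝ, ∀ t ∈ J, m1 < t → ∀ i,
      eLpNorm (DU (a t) i) (10 / 3) volume ≤ ENNReal.ofReal ε := by
    rcases hJ with rfl | ⟨Ts, -, rfl⟩
    · obtain ⟨I, k, hmax, h0I, -, hk⟩ := hMaxE (a 0) 0
      obtain ⟨hsub, hka⟩ := hk (Ici 0) a hsol (by simp) rfl
      have hinter : I ∩ Ici 0 = Ici 0 := inter_eq_right.2 hsub
      have hSNk : SN (I ∩ Ici 0) k < ⊤ := by
        rw [hinter]
        have : SN (Ici 0) k = SN (Ici 0) a := by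
          unfold SN
          refine setLIntegral_congr_fun measurableSet_Ici fun t ht => ?_
          rw [hka t ht]
        rw [this]
        exact hSN
      obtain ⟨-, -, kp, hkp⟩ := (hBlow I k 0 hmax h0I).1 hSNk
      have h1 : ∀ i, ∀ᶠ t in atTop, eLpNorm (DU (k t) i) (10 / 3) volume ≤ ENNReal.ofReal ε :=
        fun i => (hG10 k kp hkp i).eventually (ge_mem_nhds hε')
      have h2 : ∀ᶠ t in atTop, ∀ i, eLpNorm (DU (k t) i) (10 / 3) volume ≤ ENNReal.ofReal ε :=
        eventually_all.2 h1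
      obtain ⟨m1, hm1⟩ := eventually_atTop.1 h2
      refine ⟨m1, fun t ht hmt i => ?_⟩
      rw [hka t ht]
      exact hm1 t hmt.le i
    · exact ⟨Ts, fun t ht hlt => absurd ht.2 (not_le.2 hlt)⟩
  -- Step B
  have hcpt : IsCompact (a '' (J ∩ Iic m1)) := by
    refine IsCompact.image_of_continuousOn ?_ (hcont.mono inter_subset_left)
    rcases hJ with rfl | ⟨Ts, -, rfl⟩
    · have : Ici (0 : ℝ) ∩ Iic m1 = Icc 0 m1 := rfl
      rw [this]
      exact isCompact_Icc
    · exact isCompact_Icc.inter_right isClosed_Iic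
  obtain ⟨δ, hδ⟩ : ∃ δ : ℝ, δ = ε / C := ⟨_, rfl⟩
  have hδ0 : 0 < δ := by rw [hδ]; positivity
  obtain ⟨F, hFsub, hFfin, hFcov⟩ :
      ∃ F : Set ((E → ℝ) × (E → ℝ)), (∀ p ∈ F, IsTest p.1 ∧ IsTest p.2) ∧ F.Finite ∧
        ∀ k ∈ a '' (J ∩ Iic m1), ∃ p ∈ F, ‖k - Theta p.1 p.2‖ < δ := by
    have h1 := hcpt.elim_finite_subcover
      (fun p : {p : (E → ℝ) × (E → ℝ) // IsTest p.1 ∧ IsTest p.2} =>
        Metric.ball (Theta p.1.1 p.1.2) δ) (fun _ => Metric.isOpen_ball) (by
        intro k _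
        obtain ⟨f, g, hf, hg, hfg⟩ := hDens.2 k δ hδ0
        rw [mem_iUnion]
        refine ⟨⟨(f, g), hf, hg⟩, ?_⟩
        rw [Metric.mem_ball, dist_eq_norm]
        exact hfg)
    obtain ⟨T, hT⟩ := h1
    refine ⟨Subtype.val '' (T : Set {p : (E → ℝ) × (E → ℝ) // IsTest p.1 ∧ IsTest p.2}), ?_,
      (T.finite_toSet).image _, ?_⟩
    · rintro _ ⟨p, -, rfl⟩
      exact p.2
    · intro k hk
      have h2 := hT hk
      simp only [mem_iUnion] at h2
      obtain ⟨p, hp, hkp⟩ := h2
      rw [Metric.mem_ball, dist_eq_norm] at hkp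
      exact ⟨p.1, ⟨p, hp, rfl⟩, hkp⟩
  -- bounds for the test functions
  have hbd : ∀ p ∈ F, ∃ B : ℝ, ∀ i x, |pd i p.1 x| ≤ B ∧ (B ≤ ‖x‖ → pd i p.1 x = 0) := by
    intro p hp
    obtain ⟨⟨hf1, hf2⟩, -⟩ := hFsub p hp
    have hcs : HasCompactSupport (fderiv ℝ p.1) := hf2.fderiv ℝ
    have hcf : Continuous (fderiv ℝ p.1) := hf1.continuous_fderiv (by simp)
    obtain ⟨B1, hB1⟩ := hcs.exists_bound_of_continuous hcf
    obtain ⟨R, hR⟩ := hcs.isCompact.isBounded.subset_closedBall (0 : E)
    refine ⟨max B1 (R + 1), fun i x => ⟨?_, ?_⟩⟩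
    · unfold pd
      have h1 := (fderiv ℝ p.1 x).le_opNorm (EuclideanSpace.single i (1 : ℝ))
      have h2 : ‖EuclideanSpace.single i (1 : ℝ)‖ = 1 := by simp
      rw [h2, mul_one] at h1
      rw [← Real.norm_eq_abs]
      exact (h1.trans (hB1 x)).trans (le_max_left _ _)
    · intro hx
      have h1 : x ∉ tsupport (fderiv ℝ p.1) := by
        intro hmem
        have h2 := hR hmem
        rw [mem_closedBall_zero_iff] at h2
        have := (le_max_right B1 (R + 1)).trans hx
        linarith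
      unfold pd
      rw [image_eq_zero_of_notMem_tsupport h1]
      simp
  obtain ⟨M0, hM0⟩ : ∃ M0 : ℝ, ∀ p ∈ F, ∀ i x, |pd i p.1 x| ≤ M0 ∧ (M0 ≤ ‖x‖ → pd i p.1 x = 0) := by
    choose! B hB using hbd
    obtain ⟨M0, hM0⟩ := (hFfin.image B).bddAbove
    refine ⟨M0, fun p hp i x => ?_⟩
    have h1 : B p ≤ M0 := hM0 (mem_image_of_mem B hp)
    exact ⟨((hB p hp i x).1).trans h1, fun hx => (hB p hp i x).2 (h1.trans hx)⟩
  -- Step C
  have hmsn : Measurable (fun t : J => sn (a t)) := by
    have h1 := meas_curve hcont (hLsc 20 univ (by norm_num) MeasurableSet.univ)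
    simp only [indicator_univ] at h1
    exact h1
  have hmqm : ∀ m : ℝ, 0 ≤ m → Measurable (fun t : J => qm m (a t)) := by
    intro m hm
    have h1 := meas_curve hcont (hLscT m hm)
    have h2 := meas_curve hcont (hLsc 20 (Metric.ball (0 : E) m)ᶜ (by norm_num)
      measurableSet_ball.compl)
    exact h1.add h2
  obtain ⟨G, hG⟩ : ∃ G : ℕ → ℝ → ℝ≥0∞, G = fun (n : ℕ) (t : ℝ) =>
      if t ≤ (n : ℝ) then qm n (a t) ^ 4 else sn (a t) ^ 4 := ⟨_, rfl⟩
  have hGm : ∀ n, AEMeasurable (G n) (volume.restrict J) := by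
    intro n
    refine aemeasurable_restrict_of_measurable_subtype hJm ?_
    rw [hG]
    refine Measurable.ite ?_ ((hmqm n (Nat.cast_nonneg n)).pow_const 4) (hmsn.pow_const 4)
    exact measurable_subtype_coe measurableSet_Iic
  have hqle : ∀ (n : ℕ) t, qm n (a t) ^ 4 ≤ 16 * sn (a t) ^ 4 := by
    intro n t
    calc qm n (a t) ^ 4 ≤ (2 * sn (a t)) ^ 4 := by
          gcongr
          exact qm_le n (Nat.cast_nonneg n) (a t)
      _ = 16 * sn (a t) ^ 4 := by
          rw [mul_pow]
          norm_num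
  have hlim : Tendsto (fun n => ∫⁻ t in J, G n t) atTop (𝓝 (∫⁻ _t in J, 0)) := by
    refine tendsto_lintegral_of_dominated_convergence' (fun t => 16 * sn (a t) ^ 4) hGm
      (fun n => Eventually.of_forall fun t => ?_) ?_ ?_
    · rw [hG]
      dsimp only
      split_ifs
      · exact hqle n t
      · calc sn (a t) ^ 4 = 1 * sn (a t) ^ 4 := by rw [one_mul]
          _ ≤ 16 * sn (a t) ^ 4 := by
              gcongr
              norm_num
    · rw [lintegral_const_mul' _ _ (by norm_num)]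
      exact (ENNReal.mul_lt_top (by norm_num) hSN).ne
    · have hae : ∀ᵐ t ∂(volume.restrict J), sn (a t) ^ 4 < ⊤ :=
        ae_lt_top' (aemeasurable_restrict_of_measurable_subtype hJm (hmsn.pow_const 4)) hSN.ne
      filter_upwards [hae] with t ht
      have ht' : sn (a t) < ⊤ := by
        by_contra hcon
        rw [not_lt, top_le_iff] at hcon
        rw [hcon] at ht
        simp at ht
      have h1 := qm_tend (a t) (hFld (a t)).1.1.1 ht'
      have h2 := ((ENNReal.continuous_pow 4).tendsto 0).comp h1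
      rw [zero_pow (by norm_num)] at h2
      refine h2.congr' ?_
      obtain ⟨N, hN⟩ := exists_nat_ge t
      filter_upwards [eventually_ge_atTop N] with n hn
      have : (N : ℝ) ≤ n := by exact_mod_cast hn
      rw [hG]
      dsimp only [Function.comp]
      rw [if_pos (by linarith)]
  rw [lintegral_zero] at hlim
  have hev := hlim.eventually (ge_mem_nhds hε')
  obtain ⟨N1, hN1⟩ := exists_nat_ge m1
  obtain ⟨N2, hN2⟩ := exists_nat_ge M0
  obtain ⟨n, hn1, hn2, hn3⟩ := (hev.and ((eventually_ge_atTop N1).and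
    (eventually_ge_atTop N2))).exists
  have hnm1 : m1 ≤ n := hN1.trans (by exact_mod_cast hn2)
  have hnM0 : M0 ≤ n := hN2.trans (by exact_mod_cast hn3)
  refine ⟨n, Nat.cast_nonneg n, ?_, ?_, ?_⟩
  · intro t ht _
    rcases le_or_gt t m1 with h | h
    · obtain ⟨p, hp, hlt⟩ := hFcov (a t) ⟨t, ⟨ht, h⟩, rfl⟩
      obtain ⟨hp1, hp2⟩ := hFsub p hp
      refine ⟨fun i => pd i p.1, fun i => ?_, fun i x => ((hM0 p hp i x).1).trans hnM0,
        fun i x hx => (hM0 p hp i x).2 (hnM0.trans hx), fun i => ?_⟩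
      · have hcf : Continuous (fderiv ℝ p.1) := hp1.1.continuous_fderiv (by simp)
        have : Continuous (pd i p.1) := by
          unfold pd
          exact hcf.clm_apply continuous_const
        exact this.measurable
      · have h1 := (hLin.1 (-1) (a t) (Theta p.1 p.2)).2.2.1 i
        have h2 := (hLin.2.1 p.1 p.2 hp1 hp2).2.2.1 i
        have h3 : (fun x => DU (a t) i x - pd i p.1 x) =ᵐ[volume]
            DU (a t + (-1 : ℝ) • Theta p.1 p.2) i := by
          filter_upwards [h1, h2] with x h1 h2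
          rw [h1, h2]
          ring
        rw [eLpNorm_congr_ae h3]
        refine ((hFld (a t + (-1 : ℝ) • Theta p.1 p.2)).2.2.1 i).2.2.trans ?_
        rw [← ofReal_norm, ← ENNReal.ofReal_mul hC.le]
        refine ENNReal.ofReal_le_ofReal ?_
        have h4 : a t + (-1 : ℝ) • Theta p.1 p.2 = a t - Theta p.1 p.2 := by
          rw [neg_one_smul, sub_eq_add_neg]
        rw [h4]
        calc C * ‖a t - Theta p.1 p.2‖ ≤ C * δ := by gcongr
          _ = ε := by rw [hδ]; field_simp
    · refine ⟨fun _ _ => 0, fun i => measurable_const, fun i x => ?_, fun i x _ => rfl,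
        fun i => ?_⟩
      · rw [abs_zero]
        exact Nat.cast_nonneg n
      · simp only [sub_zero]
        exact hm1 t ht h i
  · intro t ht hlt i
    exact hm1 t ht (lt_of_le_of_lt hnm1 hlt) i
  · have e1 : J ∩ Ioi (n : ℝ) = J \ Iic (n : ℝ) := by
      ext t
      simp
    have e2 : ∫⁻ t in J ∩ Iic (n : ℝ), qm n (a t) ^ 4 = ∫⁻ t in J ∩ Iic (n : ℝ), G n t := by
      refine setLIntegral_congr_fun (hJm.inter measurableSet_Iic) fun t ht => ?_
      rw [hG]
      dsimp only
      rw [if_pos (mem_Iic.1 ht.2)]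
    have e3 : ∫⁻ t in J \ Iic (n : ℝ), sn (a t) ^ 4 = ∫⁻ t in J \ Iic (n : ℝ), G n t := by
      refine setLIntegral_congr_fun (hJm.diff measurableSet_Iic) fun t ht => ?_
      rw [hG]
      dsimp only
      rw [if_neg (fun h => ht.2 (mem_Iic.2 h))]
    rw [e1, e2, e3, lintegral_inter_add_sdiff _ _ measurableSet_Iic]
    exact hn1

end Pool.Agent.QWE
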