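import Pool.Agent.QWE.Defs

set_option autoImplicit false

/-!
# QWE, block B: nonlinear theory

Every `St_X` is to be proved as `theorem thm_X : St_X` (possibly with other `St_Y` as hypotheses) in
`Pool/Agent/QWE/X.lean`. Paper: `/team-store/R5_paper.md`, Section 2 and G3.
Notation: `u = U k`, `S(J)`-norm `= (SN J k)^{1/4}`.
-/

open MeasureTheory Filter Topology Set
open scoped ENNReal NNReal RealInnerProductSpace Pointwise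

namespace Pool.Agent.QWE

/-- **ExF** (fields on an open set are controlled by the exterior norm). Proof: `U k = U (pr Ω k)` etc. a.e. on `Ω`
(ExB: `Van Ω (k - pr Ω k)`, so the fields of the difference vanish a.e. on `Ω`, hence also their weak derivatives: test
with functions supported in `Ω`), then Fld for `pr Ω k`. -/
def St_ExF : Prop := ∃ C : ℝ, 0 < C ∧ ∀ (k : K) (Ω : Set E), IsOpen Ω →
  eLpNorm (Ω.indicator (U k)) 10 volume ≤ ENNReal.ofReal (C * ex Ω k) ∧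
  (∀ i, eLpNorm (Ω.indicator (DU k i)) (10 / 3) volume ≤ ENNReal.ofReal (C * ex Ω k)) ∧
  eLpNorm (Ω.indicator (V k)) (10 / 3) volume ≤ ENNReal.ofReal (C * ex Ω k) ∧
  (∀ k' : K, Van Ω (k - k') → (∀ᵐ x, x ∈ Ω → U k x = U k' x ∧ V k x = V k' x ∧
    (∀ i, DU k i x = DU k' i x) ∧ (∀ i j, DDU k i j x = DDU k' i j x) ∧ ∀ i, DV k i x = DV k' i x))

/-- **NLb** (bounds for the nonlinearity, (2.1)). Proof. Let `sn k < ⊤`. `u ∈ L^10 ∩ L^20`, so `u⁵ ∈ L² ∩ L⁴ ⊆ L^{10/3}`. Weak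
gradient: test `f_n` with `Theta f_n g_n → k`: `f_n → u` in `L^10`, `∂_i f_n → DU k i` in `L^{10/3}`, so `f_n⁵ → u⁵` in `L²`,
`5 f_n⁴ ∂_i f_n → 5 u⁴ DU k i` in `L^{10/7}`; hence `WD i (u⁵) (5 u⁴ DU k i)`; `‖u⁴ DU‖_2 ≤ ‖u‖_{20}⁴ ‖DU‖_{10/3}` (Hoelder).
GamE gives `IsGam` and the first bound. If `sn k = ⊤` the right side is `⊤` unless `k = 0`; for `k = 0` all is `0`.
Difference: `u⁴∇u - u'⁴∇u' = (u⁴ - u'⁴)∇u + u'⁴ ∇(u-u')`, `|u⁴ - u'⁴| ≤ 4 (|u|+|u'|)³ |u-u'|`, `Gam` is linear on admissible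
sources (uniqueness: `TS univ = ⊤`). -/
def St_NLb : Prop :=
  (∃ C : ℝ, 0 < C ∧ (∀ k : K, ‖NL k‖ₑ ≤ ENNReal.ofReal C * sn k ^ 4 * ‖k‖ₑ) ∧
    ∀ k k' : K, sn k < ⊤ → sn k' < ⊤ → ‖NL k - NL k'‖ₑ ≤ ENNReal.ofReal C *
      ((sn k + sn k') ^ 3 * sn (k - k') * ‖k‖ₑ + sn k' ^ 4 * ‖k - k'‖ₑ)) ∧
  ∀ k : K, sn k < ⊤ → MemLp (fun x => U k x ^ 5) 2 volume ∧ MemLp (fun x => U k x ^ 5) (10 / 3) volume ∧
    IsGam (fun x => U k x ^ 5) (NL k) ∧ (U (NL k) =ᵐ[volume] 0) ∧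
    (V (NL k) =ᵐ[volume] fun x => U k x ^ 5) ∧
    (∀ i, MemLp (fun x => 5 * U k x ^ 4 * DU k i x) 2 volume ∧
      WD i (fun x => U k x ^ 5) (fun x => 5 * U k x ^ 4 * DU k i x) ∧
      DV (NL k) i =ᵐ[volume] fun x => 5 * U k x ^ 4 * DU k i x)

/-- **NLw** (weak pairing). `⟨NL k, Theta f g⟩ = - c0 ∫ u⁵ Δ g`, and `|..| ≤ C ‖k‖⁵ ‖Δ g‖_2`. Proof: definition of `Theta`, `IsGam`
of NLb; `u⁵ ∈ L²`. Consequently `k ↦ ⟨NL k, Theta f g⟩` is continuous on `{sn < ⊤}`. -/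
def St_NLw : Prop := ∃ C : ℝ, 0 < C ∧ ∀ (k : K) (f g : E → ℝ), sn k < ⊤ → IsTest f → IsTest g →
  inner ℝ (NL k) (Theta f g) = - c0 * ∫ x, U k x ^ 5 * lap g x ∧
  |∫ x, U k x ^ 5 * lap g x| ≤ C * ‖k‖ ^ 5 * (eLpNorm (lap g) 2 volume).toReal

/-- **Meas** (measurability). Proof: first part from Lsc. Second: on `{r : sn (k r) < ⊤}` all functions
`r ↦ ⟨NL (k r), Theta f g⟩` are measurable (NLw: continuous functions of `k r`); the `Theta f g` are dense (Dens), `K` is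
separable, so a Gram-Schmidt basis `e_n` of a countable dense family of test states gives
`NL (k r) = Σ ⟨NL (k r), e_n⟩ e_n`, a limit of measurable functions. -/
def St_Meas : Prop := ∀ (k : ℝ → K) (J : Set ℝ), MeasurableSet J →
  AEStronglyMeasurable k (volume.restrict J) →
  (∀ (p : ℝ≥0∞) (B : Set E), 1 ≤ p → MeasurableSet B →
    AEMeasurable (fun r => eLpNorm (B.indicator (U (k r))) p volume) (volume.restrict J)) ∧
  ((∀ᵐ r ∂(volume.restrict J), sn (k r) < ⊤) →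
    AEStronglyMeasurable (fun r => NL (k r)) (volume.restrict J))

/-- **DuhI** (Duhamel integrals). For `G` integrable on `[a,b]`, `t0 ∈ [a,b]`, the curve `D(t) = ∫_{t0}^t tau (t-r) (G r) dr` is
continuous on `[a,b]`, `‖D(t)‖ ≤ ∫_a^b ‖G‖`, and `∫_a^b ‖U (D t)‖_{20}^4 dt ≤ (C ∫_a^b ‖G‖)^4`; same for `L³L³⁰`. Proof: integrability:
`(t,r) ↦ tau (t-r) (G r)` is jointly strongly measurable (continuity of `tau`, Grp1). Continuity: `tau (-t) D(t) = ∫ tau (-r) G(r) dr`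
(continuous in `t`), and `(t,k) ↦ tau t k` is continuous. Strichartz by Minkowski's integral inequality (or duality with
test `F(t,x)`): `‖U D‖_{L⁴L²⁰} ≤ ∫ ‖1_{r ≤ t} U (tau (t-r) (G r))‖_{L⁴L²⁰} dr ≤ C ∫ ‖G(r)‖ dr` (Str). -/
def St_DuhI : Prop := ∃ C : ℝ, 0 < C ∧ ∀ (a b t0 : ℝ) (G : ℝ → K), a ≤ t0 → t0 ≤ b →
  IntegrableOn G (Icc a b) volume →
  ContinuousOn (fun t => ∫ r in t0..t, tau (t - r) (G r)) (Icc a b) ∧
  (∀ t ∈ Icc a b, ‖∫ r in t0..t, tau (t - r) (G r)‖ ≤ ∫ r in Icc a b, ‖G r‖) ∧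
  SN (Icc a b) (fun t => ∫ r in t0..t, tau (t - r) (G r)) ≤
    ENNReal.ofReal (C * ∫ r in Icc a b, ‖G r‖) ^ 4 ∧
  ∫⁻ t in Icc a b, eLpNorm (U (∫ r in t0..t, tau (t - r) (G r))) 30 volume ^ 3 ≤
    ENNReal.ofReal (C * ∫ r in Icc a b, ‖G r‖) ^ 3

/-- **SNt** (triangle inequality and monotonicity for the Strichartz norm). Proof: Minkowski in `L⁴(J; L²⁰)`, `U (k+k') = U k + U k'` a.e.
(Lin), measurability (Meas). -/
def St_SNt : Prop := ∀ (k k' : ℝ → K) (J : Set ℝ), MeasurableSet J →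
  AEStronglyMeasurable k (volume.restrict J) → AEStronglyMeasurable k' (volume.restrict J) →
  (SN J (fun t => k t + k' t)) ^ (1 / 4 : ℝ) ≤ (SN J k) ^ (1 / 4 : ℝ) + (SN J k') ^ (1 / 4 : ℝ) ∧
  SN J (fun t => - k t) = SN J k

/-- One Picard step for the Duhamel formula. -/
noncomputable def Pic (k0 : K) (t0 : ℝ) (k : ℝ → K) : ℝ → K :=
  fun t => tau (t - t0) k0 - ∫ r in t0..t, tau (t - r) (NL (k r))

/-- Picard iterates, starting from the free evolution. -/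
noncomputable def PicN (k0 : K) (t0 : ℝ) : ℕ → ℝ → K
  | 0 => fun t => tau (t - t0) k0
  | n + 1 => Pic k0 t0 (PicN k0 t0 n)

/-- **Loc** (local theory, N1). Proof. Let `η0 = η0(A)` be small, `X` the set of `k ∈ C([a,b];K)` with `‖k(t)‖ ≤ 2A`,
`‖u‖_S ≤ 2η`. NLb, Meas, DuhI: for `k ∈ X` `∫ ‖NL k‖ ≤ C (2η)⁴ 2A ≤ min(A, η)/C'`, so `Pic` maps `X` into `X`; for `k, k' ∈ X`
`∫ ‖NL k - NL k'‖ ≤ C [(4η)³ ‖u-u'‖_S 2A + (2η)⁴ sup ‖k-k'‖] ≤ δ (sup ‖k-k'‖ + ‖u-u'‖_S)`, `δ` small. So the Picard iterates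
(the free evolution lies in `X`) are Cauchy in `sup ‖·‖` (and in `S`); the limit `k` lies in `X` (Lsc, Fatou) and
`Pic k = k` on `[a,b]` by the estimate of differences. This gives the Duhamel formula with base point `t0`, and for
arbitrary base points `s` by the group property. Uniqueness in `X` is not claimed here. -/
def St_Loc : Prop := ∀ A : ℝ, 0 < A → ∃ η0 : ℝ, 0 < η0 ∧ ∀ (k0 : K) (a b t0 η : ℝ), ‖k0‖ ≤ A →
  a ≤ t0 → t0 ≤ b → 0 < η → η ≤ η0 → SN (Icc a b) (fun t => tau (t - t0) k0) ≤ ENNReal.ofReal η ^ 4 →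
  ∃ k : ℝ → K, IsSol (Icc a b) k ∧ k t0 = k0 ∧ SN (Icc a b) k ≤ ENNReal.ofReal (2 * η) ^ 4 ∧
    (∀ t ∈ Icc a b, ‖k t‖ ≤ 2 * A) ∧
    ∀ t ∈ Icc a b, Tendsto (fun n => PicN k0 t0 n t) atTop (𝓝 (k t))

/-- **Uniq** (uniqueness). Proof: let `s ∈ I ∩ J`, say `s > t0`; on `[t0,s]` both have finite `S`-norm and are bounded by `B`. Cut `[t0,s]`
in finitely many intervals on which the sum of the `S`-norms is `≤ η` small. On the first interval `[t0,t1]`, `d = k - k'`: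
`sup ‖d‖ + ‖U d‖_S ≤ C ∫ ‖NL k - NL k'‖ ≤ C' (η³ B ‖U d‖_S + η⁴ sup ‖d‖) ≤ (1/2)(..)` (NLb, DuhI), so `d = 0` there. Induction. -/
def St_Uniq : Prop := ∀ (I J : Set ℝ) (k k' : ℝ → K) (t0 : ℝ), IsSol I k → IsSol J k' → t0 ∈ I → t0 ∈ J →
  k t0 = k' t0 → ∀ t ∈ I, t ∈ J → k t = k' t

/-- **Glue** (gluing). Two solutions on intervals with a common point at which they agree define a solution on the union. Proof: Uniq
(they agree on the intersection), continuity at points of the union (the intersection of two order connected sets with a common point;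
if the union has an interior point that is an end point of both, it is the common point), Duhamel formula by the group property of
`tau` and additivity of the interval integral. -/
def St_Glue : Prop := ∀ (I J : Set ℝ) (k k' : ℝ → K) (t0 : ℝ), IsSol I k → IsSol J k' → t0 ∈ I → t0 ∈ J →
  k t0 = k' t0 → ∃ k'' : ℝ → K, IsSol (I ∪ J) k'' ∧ (∀ t ∈ I, k'' t = k t) ∧ ∀ t ∈ J, k'' t = k' t

/-- **Gron** (a priori bound). Proof: Duhamel and NLb: `‖k t‖ ≤ ‖k s‖ + C ∫_s^t sn⁴ ‖k‖`, Gronwall. -/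
def St_Gron : Prop := ∃ C : ℝ, 0 < C ∧ ∀ (I : Set ℝ) (k : ℝ → K), IsSol I k → SN I k < ⊤ →
  ∀ s ∈ I, ∀ t ∈ I, ‖k t‖ ≤ ‖k s‖ * Real.exp (C * (SN I k).toReal)

/-- **MaxE** (maximal solutions). Proof: for every `k0` the `S`-norm of the free evolution on `[t0-δ,t0+δ]` tends to `0` with `δ` (Str), so Loc
gives a solution near `t0`. The union of all open intervals `I ∋ t0` carrying a solution with value `k0` at `t0` (they agree on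
intersections by Uniq) is the maximal one (Glue; it cannot be extended to an end point, otherwise Loc at the end point and Glue extend
it to a larger open interval). -/
def St_MaxE : Prop := ∀ (k0 : K) (t0 : ℝ), ∃ (I : Set ℝ) (k : ℝ → K), IsMax I k ∧ t0 ∈ I ∧ k t0 = k0 ∧
  ∀ (J : Set ℝ) (k' : ℝ → K), IsSol J k' → t0 ∈ J → k' t0 = k0 → J ⊆ I ∧ ∀ t ∈ J, k' t = k t

/-- **Blow** (blow-up criterion and scattering, N2). Proof: Gron: `k` is bounded on `I ∩ [t0,∞)`, `∫ ‖NL k‖ < ∞` (NLb), so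
`tau (-t) (k t) = tau (-t0) (k t0) - ∫_{t0}^t tau (-r) (NL (k r)) dr` converges as `t → sup I`. If `sup I = T < ∞`, let `k T` be the limit of
`k t`: then `k` is a solution on `I ∪ {T}`, Loc at `T` and Glue extend it beyond `T`: contradiction with maximality. Backwards the same
(or Sym with `rev`). -/
def St_Blow : Prop := ∀ (I : Set ℝ) (k : ℝ → K) (t0 : ℝ), IsMax I k → t0 ∈ I →
  (SN (I ∩ Ici t0) k < ⊤ → Ici t0 ⊆ I ∧ (∃ B, ∀ t ∈ Ici t0, ‖k t‖ ≤ B) ∧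
    ∃ kp, Tendsto (fun t => tau (-t) (k t)) atTop (𝓝 kp)) ∧
  (SN (I ∩ Iic t0) k < ⊤ → Iic t0 ⊆ I ∧ (∃ B, ∀ t ∈ Iic t0, ‖k t‖ ≤ B) ∧
    ∃ km, Tendsto (fun t => tau (-t) (k t)) atBot (𝓝 km))

/-- **Small** (small data, N3). Proof: Str: `‖T k0‖_{S(ℝ)} ≤ C ‖k0‖`. For `‖k0‖ ≤ d0` apply Loc (with `A = 1` and `η = C ‖k0‖`; for the bound `2 ‖k0‖` of the norm
use Duhamel and `∫ ‖NL k‖ ≤ C ‖k0‖⁴ sup ‖k‖`) on `[t0-n,t0+n]`, glue (Uniq). `∫ ‖NL k‖ ≤ C ‖u‖_S⁴ sup ‖k‖ ≤ C ‖k0‖⁵`; the limits of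
`tau (-t) (k t)` exist by Blow or directly. -/
def St_Small : Prop := ∃ d0 C : ℝ, 0 < d0 ∧ 0 < C ∧ ∀ (k0 : K) (t0 : ℝ), ‖k0‖ ≤ d0 →
  ∃ k : ℝ → K, IsSol univ k ∧ k t0 = k0 ∧ (∀ t, ‖k t‖ ≤ 2 * ‖k0‖) ∧
    SN univ k ≤ ENNReal.ofReal (C * ‖k0‖) ^ 4 ∧ Integrable (fun t => NL (k t)) volume ∧
    ∫ t, ‖NL (k t)‖ ≤ C * ‖k0‖ ^ 5 ∧
    (∃ kp, Tendsto (fun t => tau (-t) (k t)) atTop (𝓝 kp)) ∧
    ∃ km, Tendsto (fun t => tau (-t) (k t)) atBot (𝓝 km)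

/-- **Pert** (perturbation lemma, G3). Proof: cut `[0,T]` in `m(A,M)` intervals `[t_j,t_{j+1}]` on which the `S`-norm of `U kt` is `≤ η` (small, depending on `A`). On each of them
`k` is constructed by Loc (the free evolution of `k(t_j)` has `S`-norm `≤ ‖U kt‖_S + C (∫ ‖NL kt‖ + ∫ ‖e‖) + C ‖k(t_j) - kt(t_j)‖ ≤ 2η`), and
`D_j = sup ‖k-kt‖ + ‖U(k-kt)‖_S` on it satisfies `D_j ≤ C (‖k(t_j)-kt(t_j)‖ + ε) + (1/2) D_j` by NLb and DuhI. So `‖k(t_{j+1}) - kt(t_{j+1})‖ ≤ C' (‖k(t_j)-kt(t_j)‖ + ε)`,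
which stays `≤ C'^m ε`; choose `e1` so small that everything stays in the regime of Loc. Glue the pieces (Glue, Uniq); here for `Icc 0 T`. -/
def St_Pert : Prop := ∀ A M : ℝ, 0 < A → 0 < M → ∃ e1 C : ℝ, 0 < e1 ∧ 0 < C ∧
  ∀ (T ε : ℝ) (kt e : ℝ → K) (k0 : K), 0 ≤ T → 0 ≤ ε → ε ≤ e1 → ContinuousOn kt (Icc 0 T) →
    (∀ t ∈ Icc 0 T, ‖kt t‖ ≤ A) → SN (Icc 0 T) kt ≤ ENNReal.ofReal M →
    IntegrableOn e (Icc 0 T) volume → ∫ r in Icc 0 T, ‖e r‖ ≤ ε →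
    (∀ t ∈ Icc 0 T, kt t = tau t (kt 0) - ∫ r in (0 : ℝ)..t, tau (t - r) (NL (kt r) - e r)) →
    ‖k0 - kt 0‖ ≤ ε →
    ∃ k : ℝ → K, IsSol (Icc 0 T) k ∧ k 0 = k0 ∧ (∀ t ∈ Icc 0 T, ‖k t - kt t‖ ≤ C * ε) ∧
      SN (Icc 0 T) (fun t => k t - kt t) ≤ ENNReal.ofReal (C * ε) ^ 4

/-- **Stab** (stability on compact intervals, N4). Proof: Pert with `kt = k`, `e = 0` forward from `t0` and, with `rev` (Sym), backward; Glue. -/
def St_Stab : Prop := ∀ (a b t0 : ℝ) (k : ℝ → K) (k0 : ℕ → K), a ≤ t0 → t0 ≤ b → IsSol (Icc a b) k →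
  Tendsto k0 atTop (𝓝 (k t0)) →
  ∃ kn : ℕ → ℝ → K, (∀ᶠ n in atTop, IsSol (Icc a b) (kn n) ∧ kn n t0 = k0 n) ∧
    ∀ ε : ℝ, 0 < ε → ∀ᶠ n in atTop, (∀ t ∈ Icc a b, ‖kn n t - k t‖ < ε) ∧
      SN (Icc a b) (fun t => kn n t - k t) < ENNReal.ofReal ε

/-- **GStab** (stability on a half line). Proof: `k` is bounded (Gron); Pert on `[0,T]` with constants independent of `T`, `kt = k`, `e = 0`; the solutions for different
`T` agree (Uniq); SNt. -/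
def St_GStab : Prop := ∀ (k : ℝ → K) (k0 : ℕ → K), IsSol (Ici 0) k → SN (Ici 0) k < ⊤ →
  Tendsto k0 atTop (𝓝 (k 0)) →
  ∃ kn : ℕ → ℝ → K, ∀ᶠ n in atTop, IsSol (Ici 0) (kn n) ∧ kn n 0 = k0 n ∧
    SN (Ici 0) (kn n) ≤ SN (Ici 0) k + 1

/-- **Sym** (symmetries, N5). Proof: Act gives `U (sh y k) = U k (· - y)` etc., so `sn (sh y k) = sn k`, `sn (dl a k) = e^{a/4} sn k`, `sn (rev k) = sn k`, and
`NL (sh y k) = sh y (NL k)`, `NL (dl a k) = e^a dl a (NL k)`, `NL (rev k) = - rev (NL k)` (characterise `Gam` by its fields); change of variables in the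
interval integral, `tau t (dl a k) = dl a (tau (e^a t) k)`, `rev (tau t k) = tau (-t) (rev k)`. -/
def St_Sym : Prop :=
  (∀ y k, sn (sh y k) = sn k) ∧ (∀ a k, sn (dl a k) = ENNReal.ofReal (Real.exp (a / 4)) * sn k) ∧
  (∀ k, sn (rev k) = sn k) ∧ (∀ y k, NL (sh y k) = sh y (NL k)) ∧
  (∀ a k, NL (dl a k) = Real.exp a • dl a (NL k)) ∧ (∀ k, NL (rev k) = - rev (NL k)) ∧
  (∀ (I : Set ℝ) (k : ℝ → K), IsSol I k →
    (∀ c : ℝ, IsSol {t | t + c ∈ I} (fun t => k (t + c))) ∧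
    (∀ y : E, IsSol I (fun t => sh y (k t))) ∧
    (∀ a : ℝ, IsSol {t | Real.exp a * t ∈ I} (fun t => dl a (k (Real.exp a * t)))) ∧
    IsSol {t | -t ∈ I} (fun t => rev (k (-t)))) ∧
  (∀ (J : Set ℝ) (k : ℝ → K), MeasurableSet J →
    (∀ c : ℝ, SN {t | t + c ∈ J} (fun t => k (t + c)) = SN J k) ∧
    (∀ y : E, SN J (fun t => sh y (k t)) = SN J k) ∧
    (∀ a : ℝ, SN {t | Real.exp a * t ∈ J} (fun t => dl a (k (Real.exp a * t))) = SN J k) ∧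
    SN {t | -t ∈ J} (fun t => rev (k (-t))) = SN J k)

/-- **NFSP** (finite speed of propagation, N6). Proof. Short intervals: if `I = Icc a b` is so short that Loc applies to `k t0` and `k' t0` (small `S`-norm of the free evolutions), then by Uniq
`k`, `k'` are the limits of the Picard iterates; by induction `Van (shr Ω |t-t0|) (PicN (k t0) t0 n t - PicN (k' t0) t0 n t)`: the sources `NL (..)` differ by
`Gam (u⁵ - u'⁵)`, whose fields vanish on `shr Ω |r-t0|`, and `FSP` moves this to `shr (shr Ω |r-t0|) |t-r| ⊇ shr Ω |t-t0|` for `r` between `t0` and `t`; `Van Ω` is a closed subspace (integrals, limits).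
General `t`: divide `[t0,t]` in finitely many short intervals (absolute continuity of the `S`-norm; the free evolution of `k(t_j)` has small `S`-norm on a short interval because
`k` has), and use `shr (shr Ω a) b ⊇ shr Ω (a+b)`. -/
def St_NFSP : Prop := ∀ (I : Set ℝ) (k k' : ℝ → K) (t0 : ℝ) (Ω : Set E), IsSol I k → IsSol I k' → t0 ∈ I →
  IsOpen Ω → Van Ω (k t0 - k' t0) → ∀ t ∈ I, Van (shr Ω |t - t0|) (k t - k' t)

/-- **Ext** (exterior small solution, N7). Proof: Small for the data `pr Ω (k t0)` (norm `ex Ω (k t0)`), NFSP (restrict `k'` to `I`), ExB: `ex Ω' (k t) = ex Ω' (k' t) ≤ ‖k' t‖` for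
`Ω' = shr Ω |t-t0|`. -/
def St_Ext : Prop := ∃ d0 C : ℝ, 0 < d0 ∧ 0 < C ∧ ∀ (I : Set ℝ) (k : ℝ → K) (t0 : ℝ) (Ω : Set E),
  IsSol I k → t0 ∈ I → IsOpen Ω → ex Ω (k t0) ≤ d0 →
  ∃ k' : ℝ → K, IsSol univ k' ∧ k' t0 = pr Ω (k t0) ∧ (∀ t, ‖k' t‖ ≤ 2 * ex Ω (k t0)) ∧
    Integrable (fun t => NL (k' t)) volume ∧ ∫ t, ‖NL (k' t)‖ ≤ C * ex Ω (k t0) ^ 5 ∧
    (∃ kp, Tendsto (fun t => tau (-t) (k' t)) atTop (𝓝 kp)) ∧
    (∃ km, Tendsto (fun t => tau (-t) (k' t)) atBot (𝓝 km)) ∧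
    ∀ t ∈ I, Van (shr Ω |t - t0|) (k t - k' t) ∧ ex (shr Ω |t - t0|) (k t) ≤ 2 * ex Ω (k t0)

/-- Finite energy. -/
def FE (k : K) : Prop := (∀ i, MemLp (DU k i) 2 volume) ∧ MemLp (V k) 2 volume

/-- Energy. -/
noncomputable def En (k : K) : ℝ :=
  (∑ i, ∫ x, DU k i x ^ 2) / 2 + (∫ x, V k x ^ 2) / 2 + (∫ x, U k x ^ 6) / 6

/-- **WEq** (the equation in the sense of distributions, and in `L²`). For a solution and `s, t ∈ I`: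
`V(k t) - V(k s) = ∫_s^t (Δu - u⁵) dr` and `U(k t) - U(k s) = ∫_s^t v dr`, tested with test functions. Proof: Duhamel, pair with `Rk φ`, `dRk φ`; `t ↦ ⟨tau t k, Rk φ⟩` has the derivative
`⟨tau t k, dRk φ⟩`, and `⟨tau t k, dRk φ⟩` the derivative `⟨tau t k, Rk (lap φ)⟩` (RadT); `⟨NL k, Rk φ⟩ = 0`, `⟨NL k, dRk φ⟩ = ∫ u⁵ φ`. -/
def St_WEq : Prop := ∀ (I : Set ℝ) (k : ℝ → K), IsSol I k → ∀ s ∈ I, ∀ t ∈ I, ∀ φ, IsTest φ →
  (∫ x, U (k t) x * φ x) - (∫ x, U (k s) x * φ x) = ∫ r in s..t, ∫ x, V (k r) x * φ x ∧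
  (∫ x, V (k t) x * φ x) - (∫ x, V (k s) x * φ x) =
    ∫ r in s..t, ∫ x, (LU (k r) x - U (k r) x ^ 5) * φ x

/-- **FEd** (finite energy states are well approximated; Sobolev and Hardy). If `FE k` there are test `f_n, g_n` with `Theta f_n g_n → k` in `K`, `∂_i f_n → DU k i` and `g_n → V k` in `L²`; moreover
`U k ∈ L^{10/3} ∩ L^6`, and `‖u/(1+|x|²)^{1/2}‖_2 ≤ C ‖∇u‖_2`. Proof. (i) `u ∈ L^{10/3}`: let `G` be smooth on `ℝ`, `G = 0` on `[-1,1]`, `|G'| ≤ 2`, `|G(s)| ≥ |s|/2` for `|s| ≥ 4`, `G_a(s) = a G(s/a)`. As `u ∈ L^10` the set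
`{|u| > a}` has finite measure, so `G_a(u) ∈ L²`, and its weak gradient is `G_a'(u) ∇u ∈ L²` (chain rule by approximation); Sobolev for `H¹`: `‖G_a(u)‖_{10/3} ≤ C ‖∇u‖_2`; let `a → 0` (Fatou). So `‖u‖_{10/3} ≤ C‖∇u‖_2`, and `u ∈ L^6` by
interpolation with `L^10`. (ii) Approximation: `χ_M u` (`χ_M = χ(·/M)`): `‖u ∇χ_M‖_2 ≤ ‖∇χ_M‖_5 ‖u‖_{L^{10/3}(|x|>M)} → 0`, and `→ k` in `K` as in Cut; `χ_M v → v` in `L²`; then mollify. (iii) Hardy for test functions: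
`∫ u² (5/⟨x⟩² - 2|x|²/⟨x⟩⁴) = - 2 ∫ u x·∇u/⟨x⟩²`, so `3 ‖u/⟨x⟩‖² ≤ 2 ‖u/⟨x⟩‖ ‖∇u‖`; general `k` by (ii) and Fatou. -/
def St_FEd : Prop := ∃ C : ℝ, 0 < C ∧ ∀ k : K, FE k →
  (∃ f g : ℕ → E → ℝ, (∀ n, IsTest (f n) ∧ IsTest (g n)) ∧
    Tendsto (fun n => Theta (f n) (g n)) atTop (𝓝 k) ∧
    (∀ i, Tendsto (fun n => eLpNorm (fun x => pd i (f n) x - DU k i x) 2 volume) atTop (𝓝 0)) ∧
    Tendsto (fun n => eLpNorm (fun x => g n x - V k x) 2 volume) atTop (𝓝 0)) ∧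
  MemLp (U k) (10 / 3) volume ∧ MemLp (U k) 6 volume ∧
  eLpNorm (fun x => U k x / √(1 + ‖x‖ ^ 2)) 2 volume ≤
    ENNReal.ofReal C * ∑ i, eLpNorm (DU k i) 2 volume

/-- **En** (energy conservation, N8). Proof: WEq and `LU (k r), U (k r)⁵ ∈ C(I; L²)`, `DV (k r) i ∈ C(I;L²)` show `V(k t) - V(k t0) ∈ L²`, `DU (k t) i - DU (k t0) i = ∫ DV (k r) i dr ∈ L²`, and that
`t ↦ V(k t)`, `t ↦ DU (k t) i` are `C¹` into `L²` (relative to `t0`) with derivatives `LU - U⁵` and `DV i`. `t ↦ U(k t)⁶ ∈ L¹` is `C¹` with derivative `6 U⁵ V` (`U ∈ C(L^10 ∩ L²_loc..)`: `U(k t) - U(k s) = ∫ V dr` in `L²`, `U⁵ ∈ L²`). So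
`En' = Σ ∫ DU i DV i + ∫ V (LU - U⁵) + ∫ U⁵ V = 0`, because `Σ ∫ DU k i DV k i = - ∫ V k LU k` (test states, FEd). -/
def St_En : Prop := ∀ (I : Set ℝ) (k : ℝ → K) (t0 : ℝ), IsSol I k → t0 ∈ I → FE (k t0) →
  ∀ t ∈ I, FE (k t) ∧ MemLp (U (k t)) 6 volume ∧ En (k t) = En (k t0)

/-- **MorI** (static Morawetz identity). `m = ∇a·∇u + (1/2) Δa u`, `a = ⟨x⟩ = (1+|x|²)^{1/2}`. For `FE k`: `m ∈ L²`, `‖m‖_2 ≤ C Σ ‖DU k i‖_2`, `∫ (LU k - u⁵) m ≤ - (4/3) ∫ u⁶/⟨x⟩`. Proof: for test `u`: `∫ Δu m = - ∫ D²a(∇u,∇u) + (1/4) ∫ Δ²a u²`,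
`∫ u⁵ m = (1/3) ∫ Δa u⁶`; `D²a ≥ 0`, `Δa = ⟨x⟩⁻³ + 4⟨x⟩⁻¹`, `Δ²a = - 4 ⟨x⟩⁻⁵ (5 + 2|x|²) - 15 ⟨x⟩⁻⁷ ≤ 0` (`Δ⟨x⟩^s = s ⟨x⟩^{s-4} (5 + (3+s)|x|²)`). Extends to `FE k` by FEd (`u_n⁵ → u⁵` in `L²`, Hardy for `Δa u`, `|Δa| ≤ 5/⟨x⟩`). -/
def St_MorI : Prop := ∃ C : ℝ, 0 < C ∧ ∀ k : K, FE k → ∃ m : E → ℝ, MemLp m 2 volume ∧
  (m =ᵐ[volume] fun x => (∑ i, x i * DU k i x) / √(1 + ‖x‖ ^ 2) +
    (1 / (√(1 + ‖x‖ ^ 2)) ^ 3 + 4 / √(1 + ‖x‖ ^ 2)) / 2 * U k x) ∧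
  eLpNorm m 2 volume ≤ ENNReal.ofReal C * ∑ i, eLpNorm (DU k i) 2 volume ∧
  ∫ x, (LU k x - U k x ^ 5) * m x ≤ - (4 / 3) * ∫ x, U k x ^ 6 / √(1 + ‖x‖ ^ 2)

/-- **Mor** (Morawetz inequality, N9). Proof: `M(t) = ∫ V(k t) m(k t)`, with `m` of MorI, is `C¹` on `[a,b]` (as in En: `V` is `C¹` into `L²`; `m` is `C¹` into `L²` with derivative `m` of the velocity,
`∇a·∇v + (1/2)Δa v`, and `∫ v (∇a·∇v + (1/2) Δa v) = 0` for `v ∈ L²`, `∇v ∈ L²`), `M' ≤ - (4/3) ∫ u⁶/⟨x⟩`, and `|M(t)| ≤ C En` by MorI and energy conservation. -/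
def St_Mor : Prop := ∃ C : ℝ, 0 < C ∧ ∀ (a b : ℝ) (k : ℝ → K), a ≤ b → IsSol (Icc a b) k → FE (k a) →
  ∫⁻ t in Icc a b, ∫⁻ x, ENNReal.ofReal (U (k t) x ^ 6 / √(1 + ‖x‖ ^ 2)) ≤
    ENNReal.ofReal (C * En (k a))

/-- **Z1** (energy zero). Proof: all three terms are nonnegative; `∫ u⁶ = 0` gives `U k = 0` a.e., `V k = 0` a.e., so `k ⊥ TS univ = K`. -/
def St_Z1 : Prop := ∀ k : K, FE k → MemLp (U k) 6 volume → En k = 0 → k = 0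

end Pool.Agent.QWE
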