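import Pool.Agent.QWE.StB

set_option autoImplicit false

/-!
# QWE, block F: the statement in terms of functions, and the bridge

The final theorem is `St_Final`. Everything before speaks about `K`; here `u(t), v(t) = u_t(t)` are functions on `ℝ⁵`.
-/

open MeasureTheory Filter Topology Set
open scoped ENNReal NNReal RealInnerProductSpace Pointwise

namespace Pool.Agent.QWE

/-- `f ∈ Ḣ²(ℝ⁵)` with Laplacian `h`: `f ∈ L^10` is a limit in `L^10` of test functions whose Laplacians converge to `h` in `L²`. -/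
def InH2 (f h : E → ℝ) : Prop := MemLp f 10 volume ∧ MemLp h 2 volume ∧
  ∃ φ : ℕ → E → ℝ, (∀ n, IsTest (φ n)) ∧
    Tendsto (fun n => eLpNorm (fun x => φ n x - f x) 10 volume) atTop (𝓝 0) ∧
    Tendsto (fun n => eLpNorm (fun x => lap (φ n) x - h x) 2 volume) atTop (𝓝 0)

/-- `g ∈ Ḣ¹(ℝ⁵)` with gradient `G`: `g ∈ L^{10/3}` is a limit in `L^{10/3}` of test functions whose gradients converge to `G` in `L²`. -/
def InH1 (g : E → ℝ) (G : Fin 5 → E → ℝ) : Prop := MemLp g (10 / 3) volume ∧ (∀ i, MemLp (G i) 2 volume) ∧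
  ∃ φ : ℕ → E → ℝ, (∀ n, IsTest (φ n)) ∧
    Tendsto (fun n => eLpNorm (fun x => φ n x - g x) (10 / 3) volume) atTop (𝓝 0) ∧
    ∀ i, Tendsto (fun n => eLpNorm (fun x => pd i (φ n) x - G i x) 2 volume) atTop (𝓝 0)

/-- The norm of `(f, g)` in the critical space `Ḣ² × Ḣ¹` (`‖Δ f‖_2 + Σ_i ‖∂_i g‖_2`; `⊤` outside the space). -/
noncomputable def HN (f g : E → ℝ) : ℝ≥0∞ :=
  ⨅ (h : E → ℝ) (G : Fin 5 → E → ℝ) (_ : InH2 f h) (_ : InH1 g G),
    eLpNorm h 2 volume + ∑ i, eLpNorm (G i) 2 volume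

/-- `u` (with time derivative `v`) is a strong solution of `u_tt - Δu + u⁵ = 0` on the interval `I`:
`(u,v)` is a continuous curve in `Ḣ² × Ḣ¹`, `u ∈ L⁴_loc(I; L²⁰)`, `u_t = v` and `v_t = Δu - u⁵` in the sense of
distributions. -/
def IsSoln (I : Set ℝ) (u v : ℝ → E → ℝ) : Prop :=
  I.OrdConnected ∧ (∀ t ∈ I, HN (u t) (v t) < ⊤) ∧
  (∀ t ∈ I, Tendsto (fun s => HN (fun x => u s x - u t x) (fun x => v s x - v t x)) (𝓝[I] t) (𝓝 0)) ∧
  (∀ a ∈ I, ∀ b ∈ I, ∫⁻ t in Icc a b, eLpNorm (u t) 20 volume ^ 4 < ⊤) ∧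
  ∀ φ, IsTest φ → ∀ s ∈ I, ∀ t ∈ I,
    (∫ x, u t x * φ x) - (∫ x, u s x * φ x) = ∫ r in s..t, ∫ x, v r x * φ x ∧
    (∫ x, v t x * φ x) - (∫ x, v s x * φ x) = ∫ r in s..t, ∫ x, (u r x * lap φ x - u r x ^ 5 * φ x)

/-- `w` (with time derivative `z`) is a solution of the free wave equation `w_tt = Δw` on `ℝ`. -/
def IsFree (w z : ℝ → E → ℝ) : Prop :=
  (∀ t, HN (w t) (z t) < ⊤) ∧
  (∀ t, Tendsto (fun s => HN (fun x => w s x - w t x) (fun x => z s x - z t x)) (𝓝 t) (𝓝 0)) ∧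
  ∀ φ, IsTest φ → ∀ s t : ℝ,
    (∫ x, w t x * φ x) - (∫ x, w s x * φ x) = ∫ r in s..t, ∫ x, z r x * φ x ∧
    (∫ x, z t x * φ x) - (∫ x, z s x * φ x) = ∫ r in s..t, ∫ x, w r x * lap φ x

/-- Maximal lifespan. -/
def IsMaxSoln (I : Set ℝ) (u v : ℝ → E → ℝ) : Prop :=
  IsSoln I u v ∧ I.Nonempty ∧ ∀ (J : Set ℝ) (u' v' : ℝ → E → ℝ), IsSoln J u' v' → I ⊆ J →
    (∀ t ∈ I, u' t =ᵐ[volume] u t ∧ v' t =ᵐ[volume] v t) → J ⊆ I

/-- **Final theorem (S)**: global existence, scattering in both directions, uniform space-time bound. -/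
def St_Final : Prop :=
  (∀ (I : Set ℝ) (u v : ℝ → E → ℝ), IsMaxSoln I u v →
    (∃ A : ℝ≥0, ∀ t ∈ I, HN (u t) (v t) ≤ A) →
    I = univ ∧
    (∃ w z, IsFree w z ∧
      Tendsto (fun t => HN (fun x => u t x - w t x) (fun x => v t x - z t x)) atTop (𝓝 0)) ∧
    (∃ w z, IsFree w z ∧
      Tendsto (fun t => HN (fun x => u t x - w t x) (fun x => v t x - z t x)) atBot (𝓝 0))) ∧
  ∀ A : ℝ≥0, ∃ L : ℝ≥0, ∀ (I : Set ℝ) (u v : ℝ → E → ℝ), IsSoln I u v →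
    (∀ t ∈ I, HN (u t) (v t) ≤ A) → ∫⁻ t in I, eLpNorm (u t) 20 volume ^ 4 ≤ L

/-- **Main internal theorem** (`L(A) < ∞`), Part II. -/
def St_LA : Prop := ∀ A : ℝ, ∃ L : ℝ, ∀ (I : Set ℝ) (k : ℝ → K), IsSol I k →
  (∀ t ∈ I, ‖k t‖ ≤ A) → SN I k ≤ ENNReal.ofReal L

/-- **Br1** (`K` is `Ḣ² × Ḣ¹`). Proof. If `InH2 f h`, `InH1 g G` with test `φ_n, ψ_n`, then `Theta φ_n ψ_n` is Cauchy
(`‖Theta φ ψ‖² = c0 (‖lap φ‖² + Σ ‖∂_i ψ‖²)`, Iso), its limit `k` has `U k = f`, `V k = g`, `LU k = h`, `DV k i = G i` a.e. (Fld, Lin) and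
`‖k‖² = c0 (‖h‖² + Σ ‖G_i‖²)` (IP); `h`, `G` are determined by `f`, `g` (weak derivatives). Conversely for `k ∈ K` take test states
converging to `k` (Dens). The infimum defining `HN` is over one pair of a.e. classes. -/
def St_Br1 : Prop := ∃ c C : ℝ, 0 < c ∧ 0 < C ∧
  (∀ f g : E → ℝ, HN f g < ⊤ → ∃ k : K, (U k =ᵐ[volume] f) ∧ (V k =ᵐ[volume] g)) ∧
  (∀ (f g : E → ℝ) (k : K), (U k =ᵐ[volume] f) → (V k =ᵐ[volume] g) →
    HN f g ≤ ENNReal.ofReal C * ‖k‖ₑ ∧ ENNReal.ofReal c * ‖k‖ₑ ≤ HN f g) ∧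
  ∀ k k' : K, (U k =ᵐ[volume] U k') → (V k =ᵐ[volume] V k') → k = k'

/-- **Br2** (a weak solution is a Duhamel solution). Proof. Br1 gives `k : I → K` with the fields `u(t), v(t)`, continuous. `SN (Icc a b) k < ⊤`. Put for fixed `s ∈ I`
`k'(t) = tau (t-s) (k s) - ∫_s^t tau (t-r) (NL (k r)) dr` (integrable: NLb, Meas, bounded). Both `k` and `k'` satisfy the weak equations with the same source
(`WEq`-type computation for `k'`), so `D = k - k'` satisfies: `⟨D(t), Rk φ⟩` has derivative `⟨D(t), dRk φ⟩`, and `⟨D(t), dRk φ⟩` has derivative `⟨D(t), Rk (lap φ)⟩`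
(`∫ U D lap φ`), `D(s) = 0`, `D` continuous. For test states `Theta a b` and fixed `t1`, `tau (t-t1) (Rk φ) = Rk (f1 t) + dRk (f2 t)` with `f1, f2` test functions depending smoothly on `t`
(Free, `f1' = lap f2`, `f2' = f1` up to sign: differentiate the explicit formulas); the product rule shows that `t ↦ ⟨D(t), tau (t-t1) (Rk φ)⟩` is constant `= 0`; at `t = t1`: `⟨D(t1), Rk φ⟩ = 0`; the same for
`dRk φ`. So `D = 0` (Dens). [Difference quotients: `⟨D(t+h), W(t+h)⟩ - ⟨D(t), W(t)⟩`, `W(t) = tau (t-t1) (Rk φ)`, `(W(t+h) - W(t))/h → tau (t-t1) (-dRk φ)` in `K`.] -/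
def St_Br2 : Prop := ∀ (I : Set ℝ) (u v : ℝ → E → ℝ), IsSoln I u v →
  ∃ k : ℝ → K, IsSol I k ∧ ∀ t ∈ I, (U (k t) =ᵐ[volume] u t) ∧ (V (k t) =ᵐ[volume] v t)

/-- **Br3** (a Duhamel solution is a weak solution; free waves). Proof: WEq (with `∫ LU φ = ∫ U lap φ`), Br1 for the norm, Grp1; free waves as WEq. -/
def St_Br3 : Prop :=
  (∀ (I : Set ℝ) (k : ℝ → K), IsSol I k → IsSoln I (fun t => U (k t)) (fun t => V (k t))) ∧
  ∀ k : K, IsFree (fun t => U (tau t k)) (fun t => V (tau t k))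

/-- **Final** from `LA`. Proof: Br2 gives `k` on `I` with `‖k t‖ ≤ A/c`; LA: `SN I k ≤ L`, which is the last clause (`U (k t) = u t` a.e.). If `I` is maximal, then `I` is the interval of `MaxE` for
`k(t0)` (Br3, maximality), so Blow: `I = univ`, `tau (-t) (k t) → kp`, so `‖k t - tau t kp‖ → 0`, and `(U (tau t kp), V (tau t kp))` is the free wave; `HN ≤ C ‖·‖` (Br1). -/
def St_FinalOf : Prop := St_LA → St_Final

end Pool.Agent.QWE
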