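import Pool.Agent.QWE.StA
import Pool.Agent.QWE.StF

set_option autoImplicit false

/-!
# QWE, Br1: the space of states in terms of the two fields (helper25)
-/

open MeasureTheory Filter Topology Set
open scoped ENNReal NNReal RealInnerProductSpace ContDiff Pointwise

namespace Pool.Agent.QWE.Br1x

/-- a field: linear, bounded -/
structure Fd (F : K → E → ℝ) (p : ℝ≥0∞) (C : ℝ) : Prop where
  lin : ∀ (c : ℝ) (k k' : K), F (k + c • k') =ᵐ[volume] fun x => F k x + c * F k' x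
  mem : ∀ k, MemLp (F k) p volume
  bd : ∀ k, eLpNorm (F k) p volume ≤ ENNReal.ofReal C * ‖k‖ₑ

lemma Fd.dist {F : K → E → ℝ} {p : ℝ≥0∞} {C : ℝ} (h : Fd F p C) (k k' : K) :
    eLpNorm (fun x => F k x - F k' x) p volume ≤ ENNReal.ofReal C * ‖k - k'‖ₑ := by
  have h1 : k + (-1 : ℝ) • k' = k - k' := by rw [neg_one_smul, sub_eq_add_neg]
  have h2 := h.lin (-1) k k'
  rw [h1] at h2
  have h3 : (fun x => F k x - F k' x) =ᵐ[volume] F (k - k') := by
    filter_upwards [h2] with x hx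
    rw [hx]
    ring
  rw [eLpNorm_congr_ae h3]
  exact h.bd _

lemma tend0 {C : ℝ} (hC : 0 < C) {θ : ℕ → K} {k : K} (hθ : Tendsto θ atTop (𝓝 k)) :
    Tendsto (fun n => ENNReal.ofReal C * ‖θ n - k‖ₑ) atTop (𝓝 0) := by
  have h1 : Tendsto (fun n => ‖θ n - k‖) atTop (𝓝 0) := tendsto_iff_norm_sub_tendsto_zero.1 hθ
  have h2 : Tendsto (fun n => ENNReal.ofReal (C * ‖θ n - k‖)) atTop
      (𝓝 (ENNReal.ofReal (C * 0))) := ENNReal.tendsto_ofReal (h1.const_mul C)
  rw [mul_zero, ENNReal.ofReal_zero] at h2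
  refine h2.congr fun n => ?_
  rw [ENNReal.ofReal_mul hC.le, ofReal_norm]

lemma Fd.approx {F : K → E → ℝ} {p : ℝ≥0∞} {C : ℝ} (h : Fd F p C) (hC : 0 < C) {θ : ℕ → K}
    {k : K} (hθ : Tendsto θ atTop (𝓝 k)) {a : ℕ → E → ℝ} {f : E → ℝ}
    (ha : ∀ n, F (θ n) =ᵐ[volume] a n) (hf : F k =ᵐ[volume] f) :
    Tendsto (fun n => eLpNorm (fun x => a n x - f x) p volume) atTop (𝓝 0) := by
  refine tendsto_of_tendsto_of_tendsto_of_le_of_le tendsto_const_nhds (tend0 hC hθ)
    (fun n => bot_le) (fun n => ?_)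
  have h1 : (fun x => a n x - f x) =ᵐ[volume] fun x => F (θ n) x - F k x := by
    filter_upwards [ha n, hf] with x h1 h2
    rw [h1, h2]
  change eLpNorm (fun x => a n x - f x) p volume ≤ ENNReal.ofReal C * ‖θ n - k‖ₑ
  rw [eLpNorm_congr_ae h1]
  exact h.dist _ _

lemma Fd.lim {F : K → E → ℝ} {p : ℝ≥0∞} {C : ℝ} (h : Fd F p C) (hC : 0 < C) (hp : 1 ≤ p)
    {θ : ℕ → K} {k : K} (hθ : Tendsto θ atTop (𝓝 k)) {a : ℕ → E → ℝ} {f : E → ℝ}
    (ha : ∀ n, F (θ n) =ᵐ[volume] a n) (hf : AEStronglyMeasurable f volume)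
    (hlim : Tendsto (fun n => eLpNorm (fun x => a n x - f x) p volume) atTop (𝓝 0)) :
    F k =ᵐ[volume] f := by
  have hma : ∀ n, AEStronglyMeasurable (a n) volume := fun n => (h.mem (θ n)).1.congr (ha n)
  have hmk : AEStronglyMeasurable (F k) volume := (h.mem k).1
  have key : ∀ n, eLpNorm (fun x => F k x - f x) p volume ≤
      ENNReal.ofReal C * ‖θ n - k‖ₑ + eLpNorm (fun x => a n x - f x) p volume := by
    intro n
    have h1 : (fun x => F k x - f x) = (fun x => F k x - a n x) + fun x => a n x - f x := by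
      funext x
      rw [Pi.add_apply]
      ring
    rw [h1]
    refine (eLpNorm_add_le (f := fun x => F k x - a n x) (g := fun x => a n x - f x)
      (hmk.sub (hma n)) ((hma n).sub hf) hp).trans ?_
    refine add_le_add ?_ le_rfl
    have h2 : (fun x => F k x - a n x) =ᵐ[volume] fun x => F k x - F (θ n) x := by
      filter_upwards [ha n] with x hx
      rw [hx]
    rw [eLpNorm_congr_ae h2, enorm_sub_rev]
    exact h.dist _ _
  have h3 : Tendsto (fun n => ENNReal.ofReal C * ‖θ n - k‖ₑ +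
      eLpNorm (fun x => a n x - f x) p volume) atTop (𝓝 0) := by
    have := (tend0 hC hθ).add hlim
    rwa [add_zero] at this
  have h4 : eLpNorm (fun x => F k x - f x) p volume = 0 :=
    le_antisymm (ge_of_tendsto' h3 key) bot_le
  have h5 : (fun x => F k x - f x) =ᵐ[volume] 0 :=
    (eLpNorm_eq_zero_iff (f := fun x => F k x - f x) (hmk.sub hf) (by
      intro h0
      rw [h0] at hp
      exact absurd hp (by norm_num))).1 h4
  filter_upwards [h5] with x hx
  exact sub_eq_zero.1 hx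

lemma int_sq {f : E → ℝ} (hf : MemLp f 2 volume) :
    ∫ x, f x * f x = (eLpNorm f 2 volume).toReal ^ 2 := by
  have h1 : (inner ℝ (hf.toLp f) (hf.toLp f) : ℝ) = ∫ x, f x * f x := by
    rw [L2.inner_def]
    refine integral_congr_ae ?_
    filter_upwards [hf.coeFn_toLp] with x hx
    rw [hx]
    simp [sq]
  rw [← h1, real_inner_self_eq_norm_sq, Lp.norm_toLp]

lemma c0_pos : 0 < c0 := by
  unfold c0
  positivity

end Pool.Agent.QWE.Br1x

namespace Pool.Agent.QWE

open Br1x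

private lemma Br1_norm (hF : St_Fld) (hI : St_IP) (hLU : ∀ k, MemLp (LU k) 2 volume) (k : K) :
    ‖k‖ₑ ≤ ENNReal.ofReal (Real.sqrt c0) *
      (eLpNorm (LU k) 2 volume + ∑ i, eLpNorm (DV k i) 2 volume) := by
  obtain ⟨C, hC, hF⟩ := hF
  have hDV : ∀ i, MemLp (DV k i) 2 volume := fun i => ((hF k).2.2.2.2 i).1
  set a : ℝ := (eLpNorm (LU k) 2 volume).toReal with ha
  set b : Fin 5 → ℝ := fun i => (eLpNorm (DV k i) 2 volume).toReal with hb
  have ha0 : 0 ≤ a := ENNReal.toReal_nonneg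
  have hb0 : ∀ i, 0 ≤ b i := fun i => ENNReal.toReal_nonneg
  have h1 : ‖k‖ ^ 2 = c0 * (a ^ 2 + ∑ i, b i ^ 2) := by
    rw [← real_inner_self_eq_norm_sq, hI k k, int_sq (hLU k)]
    congr 2
    exact Finset.sum_congr rfl fun i _ => int_sq (hDV i)
  have h2 : a ^ 2 + ∑ i, b i ^ 2 ≤ (a + ∑ i, b i) ^ 2 := by
    have h3 : ∑ i, b i ^ 2 ≤ (∑ i, b i) ^ 2 :=
      Finset.sum_sq_le_sq_sum_of_nonneg fun i _ => hb0 i
    have h4 : 0 ≤ ∑ i, b i := Finset.sum_nonneg fun i _ => hb0 i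
    nlinarith
  have h5 : ‖k‖ ≤ Real.sqrt c0 * (a + ∑ i, b i) := by
    have h4 : 0 ≤ a + ∑ i, b i := add_nonneg ha0 (Finset.sum_nonneg fun i _ => hb0 i)
    refine abs_le_of_sq_le_sq' ?_ (mul_nonneg (Real.sqrt_nonneg _) h4) |>.2
    rw [h1, mul_pow, Real.sq_sqrt c0_pos.le]
    exact mul_le_mul_of_nonneg_left h2 c0_pos.le
  have h6 : ENNReal.ofReal (a + ∑ i, b i) =
      eLpNorm (LU k) 2 volume + ∑ i, eLpNorm (DV k i) 2 volume := by
    rw [ENNReal.ofReal_add ha0 (Finset.sum_nonneg fun i _ => hb0 i),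
      ENNReal.ofReal_sum_of_nonneg fun i _ => hb0 i, ha, ENNReal.ofReal_toReal (hLU k).2.ne]
    congr 1
    exact Finset.sum_congr rfl fun i _ => ENNReal.ofReal_toReal (hDV i).2.ne
  rw [← h6, ← ENNReal.ofReal_mul (Real.sqrt_nonneg _), ← ofReal_norm]
  exact ENNReal.ofReal_le_ofReal h5

theorem thm_Br1 (hD : St_Dens) (hF : St_Fld) (hL : St_Lin) (hI : St_IP) (hE : St_ExB) :
    St_Br1 := by
  have hN0 := hF
  obtain ⟨C, hC, hF⟩ := hF
  obtain ⟨hL1, hL2, -⟩ := hL
  obtain ⟨hD1, hD2⟩ := hD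
  obtain ⟨-, -, -, -, -, -, hvan, -, -, -, -⟩ := hE
  have h103 : (1 : ℝ≥0∞) ≤ 10 / 3 := by
    rw [ENNReal.le_div_iff_mul_le (Or.inl (by norm_num)) (Or.inl (by norm_num))]
    norm_num
  have h2' : (1 : ℝ≥0∞) ≤ 2 := by norm_num
  have h10' : (1 : ℝ≥0∞) ≤ 10 := by norm_num
  -- the fields
  have fU : Fd U 10 C := ⟨fun c k k' => (hL1 c k k').1, fun k => (hF k).1.1, fun k => (hF k).1.2⟩
  have fV : Fd V (10 / 3) C :=
    ⟨fun c k k' => (hL1 c k k').2.1, fun k => (hF k).2.1.1.1, fun k => (hF k).2.1.2⟩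
  have fDV : ∀ i, Fd (fun k => DV k i) 2 C := fun i =>
    ⟨fun c k k' => (hL1 c k k').2.2.2.2 i, fun k => ((hF k).2.2.2.2 i).1,
      fun k => ((hF k).2.2.2.2 i).2.2⟩
  have fDD : ∀ i, Fd (fun k => DDU k i i) 2 C := fun i =>
    ⟨fun c k k' => (hL1 c k k').2.2.2.1 i i, fun k => ((hF k).2.2.2.1 i i).1,
      fun k => ((hF k).2.2.2.1 i i).2.2⟩
  have hLUm : ∀ k, MemLp (LU k) 2 volume := by
    intro k
    exact memLp_finset_sum _ fun i _ => (fDD i).mem k
  have fLU : Fd LU 2 (5 * C) := by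
    refine ⟨?_, hLUm, ?_⟩
    · intro c k k'
      filter_upwards [ae_all_iff.2 fun i => (fDD i).lin c k k'] with x hx
      unfold LU
      rw [Finset.mul_sum, ← Finset.sum_add_distrib]
      exact Finset.sum_congr rfl fun i _ => hx i
    · intro k
      have h1 : LU k = ∑ i, DDU k i i := by
        funext x
        rw [Finset.sum_apply]
        rfl
      rw [h1]
      refine (eLpNorm_sum_le (fun i _ => ((fDD i).mem k).1) h2').trans ?_
      refine (Finset.sum_le_sum fun i _ => (fDD i).bd k).trans ?_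
      rw [Finset.sum_const, Finset.card_univ, Fintype.card_fin, nsmul_eq_mul,
        ENNReal.ofReal_mul (by norm_num), mul_assoc]
      norm_num
  have hLUT : ∀ f g : E → ℝ, IsTest f → IsTest g → LU (Theta f g) =ᵐ[volume] lap f := by
    intro f g hf hg
    filter_upwards [ae_all_iff.2 fun i => (hL2 f g hf hg).2.2.2.1 i i] with x hx
    exact Finset.sum_congr rfl fun i _ => hx i
  -- uniqueness
  have huniq : ∀ k k' : K, (U k =ᵐ[volume] U k') → (V k =ᵐ[volume] V k') → k = k' := by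
    intro k k' hU hV
    have h1 : k + (-1 : ℝ) • k' = k - k' := by rw [neg_one_smul, sub_eq_add_neg]
    have e1 := (hL1 (-1) k k').1
    have e2 := (hL1 (-1) k k').2.1
    rw [h1] at e1 e2
    have h2 : Van univ (k - k') := by
      rw [hvan univ (k - k') isOpen_univ]
      constructor
      · filter_upwards [e1, hU] with x a1 a2 _
        rw [a1, a2]
        ring
      · filter_upwards [e2, hV] with x a1 a2 _
        rw [a1, a2]
        ring
    have h3 : k - k' ∈ (TS univ)ᗮ := h2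
    rw [hD1, Submodule.top_orthogonal_eq_bot, Submodule.mem_bot] at h3
    exact sub_eq_zero.1 h3
  -- existence
  have hex : ∀ (f g h : E → ℝ) (G : Fin 5 → E → ℝ), InH2 f h → InH1 g G →
      ∃ k : K, (U k =ᵐ[volume] f) ∧ (V k =ᵐ[volume] g) ∧ (LU k =ᵐ[volume] h) ∧
        ∀ i, DV k i =ᵐ[volume] G i := by
    rintro f g h G ⟨hf, hh, φ, hφ, hφ1, hφ2⟩ ⟨hg, hG, ψ, hψ, hψ1, hψ2⟩
    set θ : ℕ → K := fun n => Theta (φ n) (ψ n) with hθ
    have tU : ∀ n, U (θ n) =ᵐ[volume] φ n := fun n => (hL2 _ _ (hφ n) (hψ n)).1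
    have tV : ∀ n, V (θ n) =ᵐ[volume] ψ n := fun n => (hL2 _ _ (hφ n) (hψ n)).2.1
    have tLU : ∀ n, LU (θ n) =ᵐ[volume] lap (φ n) := fun n => hLUT _ _ (hφ n) (hψ n)
    have tDV : ∀ n i, DV (θ n) i =ᵐ[volume] pd i (ψ n) := fun n i =>
      (hL2 _ _ (hφ n) (hψ n)).2.2.2.2 i
    set b : ℕ → ℝ≥0∞ := fun n => eLpNorm (fun x => lap (φ n) x - h x) 2 volume +
      ∑ i, eLpNorm (fun x => pd i (ψ n) x - G i x) 2 volume with hb
    have hb0 : Tendsto b atTop (𝓝 0) := by
      have h1 : Tendsto b atTop (𝓝 (0 + ∑ _i : Fin 5, 0)) :=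
        hφ2.add (tendsto_finset_sum _ fun i _ => hψ2 i)
      simpa using h1
    -- the distances
    have tri : ∀ {F : K → E → ℝ} {C' : ℝ} (_ : Fd F 2 C') {a : ℕ → E → ℝ} {w : E → ℝ}
        (_ : ∀ n, F (θ n) =ᵐ[volume] a n) (_ : AEStronglyMeasurable w volume) (n m : ℕ),
        eLpNorm (F (θ n - θ m)) 2 volume ≤ eLpNorm (fun x => a n x - w x) 2 volume +
          eLpNorm (fun x => a m x - w x) 2 volume := by
      intro F C' hFd a w ha hw n m
      have hma : ∀ n, AEStronglyMeasurable (a n) volume := fun n => (hFd.mem (θ n)).1.congr (ha n)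
      have h1 : θ n + (-1 : ℝ) • θ m = θ n - θ m := by rw [neg_one_smul, sub_eq_add_neg]
      have h2 := hFd.lin (-1) (θ n) (θ m)
      rw [h1] at h2
      have h3 : F (θ n - θ m) =ᵐ[volume] (fun x => a n x - w x) - fun x => a m x - w x := by
        filter_upwards [h2, ha n, ha m] with x e1 e2 e3
        rw [e1, e2, e3, Pi.sub_apply]
        ring
      rw [eLpNorm_congr_ae h3]
      exact eLpNorm_sub_le ((hma n).sub hw) ((hma m).sub hw) h2'
    have hdist : ∀ n m, edist (θ n) (θ m) ≤ ENNReal.ofReal (Real.sqrt c0) * (b n + b m) := by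
      intro n m
      rw [edist_eq_enorm_sub]
      refine (Br1_norm hN0 hI hLUm _).trans ?_
      refine mul_le_mul_right ?_ _
      have e1 := tri fLU tLU hh.1 n m
      have e2 : ∑ i, eLpNorm (DV (θ n - θ m) i) 2 volume ≤
          ∑ i, (eLpNorm (fun x => pd i (ψ n) x - G i x) 2 volume +
            eLpNorm (fun x => pd i (ψ m) x - G i x) 2 volume) :=
        Finset.sum_le_sum fun i _ => tri (fDV i) (fun n => tDV n i) (hG i).1 n m
      refine (add_le_add e1 e2).trans (le_of_eq ?_)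
      rw [Finset.sum_add_distrib, hb]
      simp only
      abel
    have hb1 : Tendsto (fun n => ENNReal.ofReal (Real.sqrt c0) * b n) atTop (𝓝 0) := by
      have := ENNReal.Tendsto.const_mul hb0 (Or.inr (ENNReal.ofReal_ne_top (r := Real.sqrt c0)))
      rwa [mul_zero] at this
    have hcau : CauchySeq θ := by
      rw [EMetric.cauchySeq_iff]
      intro ε hε
      have hε2 : (0 : ℝ≥0∞) < ε / 2 := ENNReal.half_pos hε.ne'
      obtain ⟨N, hN⟩ := eventually_atTop.1 (hb1.eventually_lt_const hε2)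
      refine ⟨N, fun m hm n hn => (hdist m n).trans_lt ?_⟩
      rw [mul_add]
      calc ENNReal.ofReal (Real.sqrt c0) * b m + ENNReal.ofReal (Real.sqrt c0) * b n
          < ε / 2 + ε / 2 := ENNReal.add_lt_add (hN m hm) (hN n hn)
        _ = ε := ENNReal.add_halves ε
    obtain ⟨k, hk⟩ := cauchySeq_tendsto_of_complete hcau
    exact ⟨k, fU.lim hC h10' hk tU hf.1 hφ1, fV.lim hC h103 hk tV hg.1 hψ1,
      fLU.lim (by positivity) h2' hk tLU hh.1 hφ2,
      fun i => (fDV i).lim hC h2' hk (fun n => tDV n i) (hG i).1 (hψ2 i)⟩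
  -- the fields are in the spaces
  have hin : ∀ (k : K) (f g : E → ℝ), (U k =ᵐ[volume] f) → (V k =ᵐ[volume] g) →
      InH2 f (LU k) ∧ InH1 g (DV k) := by
    intro k f g hUf hVg
    choose a b' ha hb' hab using fun n : ℕ => hD2 k (1 / ((n : ℝ) + 1)) (by positivity)
    have hθ : Tendsto (fun n => Theta (a n) (b' n)) atTop (𝓝 k) := by
      rw [tendsto_iff_norm_sub_tendsto_zero]
      refine squeeze_zero (fun n => norm_nonneg _) (fun n => ?_)
        tendsto_one_div_add_atTop_nhds_zero_nat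
      rw [norm_sub_rev]
      exact (hab n).le
    refine ⟨⟨(memLp_congr_ae hUf).1 (fU.mem k), hLUm k, a, ha, ?_, ?_⟩,
      ⟨(memLp_congr_ae hVg).1 (fV.mem k), fun i => (fDV i).mem k, b', hb', ?_, fun i => ?_⟩⟩
    · exact fU.approx hC hθ (fun n => (hL2 _ _ (ha n) (hb' n)).1) hUf
    · exact fLU.approx (by positivity) hθ (fun n => hLUT _ _ (ha n) (hb' n)) EventuallyEq.rfl
    · exact fV.approx hC hθ (fun n => (hL2 _ _ (ha n) (hb' n)).2.1) hVg
    · exact (fDV i).approx hC hθ (fun n => (hL2 _ _ (ha n) (hb' n)).2.2.2.2 i) EventuallyEq.rfl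
  have hs0 : 0 < Real.sqrt c0 := Real.sqrt_pos.2 c0_pos
  refine ⟨(Real.sqrt c0)⁻¹, 10 * C, inv_pos.2 hs0, by positivity, ?_, ?_, huniq⟩
  · intro f g hfg
    unfold HN at hfg
    simp only [iInf_lt_iff] at hfg
    obtain ⟨h, G, h1, h2, -⟩ := hfg
    obtain ⟨k, e1, e2, -, -⟩ := hex f g h G h1 h2
    exact ⟨k, e1, e2⟩
  · intro f g k hUf hVg
    constructor
    · obtain ⟨h1, h2⟩ := hin k f g hUf hVg
      have h3 : HN f g ≤ eLpNorm (LU k) 2 volume + ∑ i, eLpNorm (DV k i) 2 volume := by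
        unfold HN
        exact iInf_le_of_le (LU k) (iInf_le_of_le (DV k) (iInf_le_of_le h1 (iInf_le _ h2)))
      refine h3.trans ?_
      have h4 : ∑ i, eLpNorm (DV k i) 2 volume ≤ 5 * (ENNReal.ofReal C * ‖k‖ₑ) := by
        refine (Finset.sum_le_sum fun i _ => (fDV i).bd k).trans (le_of_eq ?_)
        rw [Finset.sum_const, Finset.card_univ, Fintype.card_fin, nsmul_eq_mul]
        norm_num
      have h5 : eLpNorm (LU k) 2 volume ≤ 5 * (ENNReal.ofReal C * ‖k‖ₑ) := by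
        refine (fLU.bd k).trans (le_of_eq ?_)
        rw [ENNReal.ofReal_mul (by norm_num), mul_assoc]
        norm_num
      refine (add_le_add h5 h4).trans (le_of_eq ?_)
      rw [ENNReal.ofReal_mul (by norm_num), mul_assoc, ← add_mul]
      norm_num
    · unfold HN
      refine le_iInf fun h => le_iInf fun G => le_iInf fun h1 => le_iInf fun h2 => ?_
      obtain ⟨k1, e1, e2, e3, e4⟩ := hex f g h G h1 h2
      have hkk : k = k1 := huniq k k1 (hUf.trans e1.symm) (hVg.trans e2.symm)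
      have h3 := Br1_norm hN0 hI hLUm k
      rw [hkk, eLpNorm_congr_ae e3] at h3
      have h4 : ∑ i, eLpNorm (DV k1 i) 2 volume = ∑ i, eLpNorm (G i) 2 volume :=
        Finset.sum_congr rfl fun i _ => eLpNorm_congr_ae (e4 i)
      rw [h4] at h3
      rw [hkk]
      calc ENNReal.ofReal (Real.sqrt c0)⁻¹ * ‖k1‖ₑ
          ≤ ENNReal.ofReal (Real.sqrt c0)⁻¹ * (ENNReal.ofReal (Real.sqrt c0) *
            (eLpNorm h 2 volume + ∑ i, eLpNorm (G i) 2 volume)) := mul_le_mul_right h3 _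
        _ = eLpNorm h 2 volume + ∑ i, eLpNorm (G i) 2 volume := by
          rw [← mul_assoc, ← ENNReal.ofReal_mul (inv_nonneg.2 hs0.le),
            inv_mul_cancel₀ hs0.ne', ENNReal.ofReal_one, one_mul]

end Pool.Agent.QWE
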