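import Pool.Agent.QWE.StF
import Pool.Agent.QWE.StA

set_option autoImplicit false

/-!
# QWE, Br3: a Duhamel solution is a weak solution; free waves (helper81)
-/

open MeasureTheory Filter Topology Set
open scoped ENNReal NNReal RealInnerProductSpace ContDiff Pointwise

namespace Pool.Agent.QWE

namespace Br3x

/-! ### test functions -/

private lemma test_pd (i : Fin 5) {φ : E → ℝ} (h : IsTest φ) : IsTest (pd i φ) := by
  refine ⟨?_, h.2.fderiv_apply ℝ _⟩
  exact (h.1.fderiv_right (m := ∞) (by simp)).clm_apply contDiff_const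

private lemma tsupport_pd (i : Fin 5) (φ : E → ℝ) : tsupport (pd i φ) ⊆ tsupport φ :=
  tsupport_fderiv_apply_subset ℝ _

private lemma lap_zero {φ : E → ℝ} {x : E} (h : x ∉ tsupport φ) : lap φ x = 0 := by
  refine Finset.sum_eq_zero fun i _ => ?_
  exact image_eq_zero_of_notMem_tsupport fun h2 => h (tsupport_pd i φ (tsupport_pd i _ h2))

private lemma test_lap {φ : E → ℝ} (h : IsTest φ) : IsTest (lap φ) := by
  refine ⟨?_, HasCompactSupport.intro h.2 fun x hx => lap_zero hx⟩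
  exact ContDiff.sum fun i _ => (test_pd i (test_pd i h)).1

private lemma sch {f : E → ℝ} (hf : IsTest f) : IsSch f :=
  ⟨hf.2.toSchwartzMap hf.1, fun _ => rfl⟩

private lemma int_li {f φ : E → ℝ} (hf : LocallyIntegrable f (volume : Measure E)) (h : IsTest φ) :
    Integrable (fun x => f x * φ x) (volume : Measure E) :=
  hf.integrable_smul_right_of_hasCompactSupport h.1.continuous h.2

private lemma int_lp {f φ : E → ℝ} {p : ℝ≥0∞} (hp : 1 ≤ p) (hf : MemLp f p (volume : Measure E))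
    (h : IsTest φ) : Integrable (fun x => f x * φ x) (volume : Measure E) :=
  int_li (hf.locallyIntegrable hp) h

private lemma int_p5 {f φ : E → ℝ} (hf : MemLp f 10 (volume : Measure E)) (h : IsTest φ) :
    Integrable (fun x => f x ^ 5 * φ x) (volume : Measure E) := by
  obtain ⟨C, hC⟩ := h.1.continuous.bounded_above_of_compact_support h.2
  have h1 : Integrable (fun x => ‖f x‖ ^ 10) (volume : Measure E) :=
    MemLp.integrable_norm_pow (p := 10) (by exact_mod_cast hf) (by norm_num)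
  have h2 : Integrable φ (volume : Measure E) := h.1.continuous.integrable_of_hasCompactSupport h.2
  refine (h2.norm.add (h1.const_mul C)).mono' ?_ (Eventually.of_forall fun x => ?_)
  · exact (hf.1.pow 5).mul h.1.continuous.aestronglyMeasurable
  · have h3 := hC x
    have h4 : 0 ≤ ‖φ x‖ := norm_nonneg _
    have h5 : ‖f x‖ ^ 5 ≤ 1 + ‖f x‖ ^ 10 := by
      nlinarith [sq_nonneg (‖f x‖ ^ 5 - 1), pow_nonneg (norm_nonneg (f x)) 10,
        pow_nonneg (norm_nonneg (f x)) 5]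
    have h6 : 0 ≤ ‖f x‖ ^ 10 := by positivity
    rw [norm_mul, norm_pow]
    simp only [Pi.add_apply]
    nlinarith [mul_le_mul_of_nonneg_right h5 h4, mul_le_mul_of_nonneg_left h3 h6]

/-- `∫ LU φ = ∫ U lap φ` -/
private lemma lapU {C : ℝ} (hF : ∀ k : K,
    (MemLp (U k) 10 volume ∧ eLpNorm (U k) 10 volume ≤ ENNReal.ofReal C * ‖k‖ₑ) ∧
    (IsV k (V k) ∧ eLpNorm (V k) (10 / 3) volume ≤ ENNReal.ofReal C * ‖k‖ₑ) ∧
    (∀ i, MemLp (DU k i) (10 / 3) volume ∧ WD i (U k) (DU k i) ∧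
      eLpNorm (DU k i) (10 / 3) volume ≤ ENNReal.ofReal C * ‖k‖ₑ) ∧
    (∀ i j, MemLp (DDU k i j) 2 volume ∧ WD j (DU k i) (DDU k i j) ∧
      eLpNorm (DDU k i j) 2 volume ≤ ENNReal.ofReal C * ‖k‖ₑ) ∧
    (∀ i, MemLp (DV k i) 2 volume ∧ WD i (V k) (DV k i) ∧
      eLpNorm (DV k i) 2 volume ≤ ENNReal.ofReal C * ‖k‖ₑ)) (k : K) {φ : E → ℝ} (h : IsTest φ) :
    ∫ x, LU k x * φ x = ∫ x, U k x * lap φ x := by
  obtain ⟨h1, -, h2, h3, -⟩ := hF k
  have e1 : ∫ x, LU k x * φ x = ∑ i, ∫ x, DDU k i i x * φ x := by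
    rw [← integral_finsetSum _ fun i _ => int_lp (by norm_num) (h3 i i).1 h]
    refine integral_congr_ae (Eventually.of_forall fun x => ?_)
    simp only [LU, Finset.sum_mul]
  have e2 : ∫ x, U k x * lap φ x = ∑ i, ∫ x, U k x * pd i (pd i φ) x := by
    rw [← integral_finsetSum _ fun i _ => int_lp (by norm_num) h1.1 (test_pd i (test_pd i h))]
    refine integral_congr_ae (Eventually.of_forall fun x => ?_)
    simp only [lap, Finset.mul_sum]
  rw [e1, e2]
  refine Finset.sum_congr rfl fun i _ => ?_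
  rw [(h2 i).2.1 (pd i φ) (test_pd i h), (h3 i i).2.1 φ h, neg_neg]

/-! ### time derivatives -/

private structure Nice (u : S × ℝ → ℝ) : Prop where
  c : Continuous u
  s : ∃ M, ∀ z, M ≤ |z.2| → u z = 0

private lemma nice_both (hR : St_RadT) {φ : E → ℝ} (h : IsTest φ) : Nice (Rad φ) ∧ Nice (dRad φ) := by
  obtain ⟨h1, h2, h3, -⟩ := hR φ h
  obtain ⟨ρ, hρ⟩ := h.2.isBounded.subset_closedBall (0 : E)
  refine ⟨⟨h1, ρ, fun z hz => (h3 0 ρ hρ z (by simpa using hz)).1⟩,
    ⟨h2, ρ, fun z hz => (h3 0 ρ hρ z (by simpa using hz)).2⟩⟩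

private lemma nice_bdd {u : S × ℝ → ℝ} (hu : Nice u) : ∃ C, ∀ z, |u z| ≤ C := by
  obtain ⟨M, hM⟩ := hu.s
  have h : HasCompactSupport u := by
    refine HasCompactSupport.intro (isCompact_univ.prod (isCompact_Icc (a := -M) (b := M)))
      fun z hz => hM z ?_
    by_contra h2
    exact hz ⟨mem_univ _, abs_le.1 (not_le.1 h2).le⟩
  obtain ⟨C, hC⟩ := hu.c.bounded_above_of_compact_support h
  exact ⟨C, hC⟩

private lemma pairing (hG : St_Grp1) (k : K) {κ : K} {u : S × ℝ → ℝ}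
    (h : (κ : S × ℝ → ℝ) =ᵐ[mu] u) (t : ℝ) :
    inner ℝ (tau t k) κ = ∫ z, k z * u (z.1, z.2 + t) ∂mu := by
  rw [hG.2.2.2.2.2.1 t k κ, L2.inner_def]
  refine integral_congr_ae ?_
  have h2 := (mp_shift (g := fun _ => -t) measurable_const).quasiMeasurePreserving.ae h
  filter_upwards [tau_coe (-t) κ, h2] with z h3 h4
  rw [h3, h4]
  simp only [RCLike.inner_apply, conj_trivial, sub_neg_eq_add]
  ring

private lemma int_cut (k : K) (M : ℝ) :
    Integrable ((univ ×ˢ Icc (-M) M : Set (S × ℝ)).indicator (k : S × ℝ → ℝ)) mu := by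
  have hc : IsCompact (univ ×ˢ Icc (-M) M : Set (S × ℝ)) := isCompact_univ.prod isCompact_Icc
  rw [integrable_indicator_iff hc.measurableSet]
  exact ((Lp.memLp k).locallyIntegrable (by norm_num)).integrableOn_isCompact hc

private lemma int_ku (k : K) {u : S × ℝ → ℝ} (hu : Nice u) (t : ℝ) :
    Integrable (fun z => k z * u (z.1, z.2 + t)) mu := by
  obtain ⟨M, hM⟩ := hu.s
  obtain ⟨C, hC⟩ := nice_bdd hu
  have hc : Continuous fun z : S × ℝ => u (z.1, z.2 + t) := hu.c.comp (by fun_prop)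
  have h1 := (int_cut k (M + |t|)).mul_bdd (c := C) hc.aestronglyMeasurable
    (Eventually.of_forall fun z => hC _)
  refine h1.congr (Eventually.of_forall fun z => ?_)
  by_cases hz : z ∈ (univ ×ˢ Icc (-(M + |t|)) (M + |t|) : Set (S × ℝ))
  · simp only [indicator_of_mem hz]
  · simp only [indicator_of_notMem hz, zero_mul]
    rw [hM (z.1, z.2 + t), mul_zero]
    have h2 : M + |t| < |z.2| := by
      by_contra h3
      exact hz ⟨mem_univ _, abs_le.1 (not_lt.1 h3)⟩
    have h3 : |z.2| ≤ |z.2 + t| + |t| := by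
      have := abs_add_le (z.2 + t) (-t)
      rwa [add_neg_cancel_right, abs_neg] at this
    linarith

private lemma dt (hG : St_Grp1) (k : K) {κ κ' : K} {u u' : S × ℝ → ℝ}
    (h : (κ : S × ℝ → ℝ) =ᵐ[mu] u) (h' : (κ' : S × ℝ → ℝ) =ᵐ[mu] u') (hu : Nice u) (hu' : Nice u')
    (du : ∀ (w : S) p, HasDerivAt (fun p => u (w, p)) (u' (w, p)) p) (s t : ℝ) :
    inner ℝ (tau t k) κ - inner ℝ (tau s k) κ = ∫ r in s..t, inner ℝ (tau r k) κ' := by
  obtain ⟨M, hM⟩ := hu'.s
  obtain ⟨C, hC⟩ := nice_bdd hu'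
  rw [pairing hG k h t, pairing hG k h s, ← integral_sub (int_ku k hu t) (int_ku k hu s)]
  have e1 : ∀ z : S × ℝ, k z * u (z.1, z.2 + t) - k z * u (z.1, z.2 + s) =
      ∫ r in s..t, k z * u' (z.1, z.2 + r) := by
    intro z
    rw [intervalIntegral.integral_const_mul, ← mul_sub]
    congr 1
    refine (intervalIntegral.integral_eq_sub_of_hasDerivAt
      (f := fun r => u (z.1, z.2 + r)) (fun r _ => ?_) ?_).symm
    · have := (du z.1 (z.2 + r)).comp_const_add z.2 r
      exact this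
    · exact (hu'.c.comp (by fun_prop : Continuous fun r : ℝ => (z.1, z.2 + r))).intervalIntegrable _ _
  have e2 : ∀ r : ℝ, inner ℝ (tau r k) κ' = ∫ z, k z * u' (z.1, z.2 + r) ∂mu := fun r =>
    pairing hG k h' r
  simp only [e1, e2]
  symm
  refine intervalIntegral_integral_swap ?_
  have hc : Continuous fun q : ℝ × (S × ℝ) => u' (q.2.1, q.2.2 + q.1) :=
    hu'.c.comp (by fun_prop)
  haveI : IsFiniteMeasure ((volume : Measure ℝ).restrict (uIoc s t)) := by
    refine ⟨?_⟩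
    rw [Measure.restrict_apply_univ, uIoc, Real.volume_Ioc]
    exact ENNReal.ofReal_lt_top
  have i1 : Integrable (fun q : ℝ × (S × ℝ) =>
      (univ ×ˢ Icc (-(M + (|s| + |t|))) (M + (|s| + |t|)) : Set (S × ℝ)).indicator
        (k : S × ℝ → ℝ) q.2) ((volume.restrict (uIoc s t)).prod mu) :=
    (int_cut k _).comp_snd _
  have i2 := i1.mul_bdd (c := C) hc.aestronglyMeasurable (Eventually.of_forall fun z => hC _)
  refine i2.congr ?_
  have m1 : ∀ᵐ q : ℝ × (S × ℝ) ∂((volume.restrict (uIoc s t)).prod mu), q.1 ∈ uIoc s t := by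
    have := (Measure.quasiMeasurePreserving_fst (μ := volume.restrict (uIoc s t)) (ν := mu)).ae
      (ae_restrict_mem measurableSet_uIoc)
    exact this
  filter_upwards [m1] with q hq
  simp only [Function.uncurry]
  by_cases hz : q.2 ∈ (univ ×ˢ Icc (-(M + (|s| + |t|))) (M + (|s| + |t|)) : Set (S × ℝ))
  · simp only [indicator_of_mem hz]
  · simp only [indicator_of_notMem hz, zero_mul]
    rw [hM (q.2.1, q.2.2 + q.1), mul_zero]
    have h2 : M + (|s| + |t|) < |q.2.2| := by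
      by_contra h3
      exact hz ⟨mem_univ _, abs_le.1 (not_lt.1 h3)⟩
    have h3 : |q.2.2| ≤ |q.2.2 + q.1| + |q.1| := by
      have := abs_add_le (q.2.2 + q.1) (-q.1)
      rwa [add_neg_cancel_right, abs_neg] at this
    have h4 : |q.1| ≤ |s| + |t| := by
      rw [mem_uIoc] at hq
      rcases hq with hq | hq
      · rw [abs_le]
        constructor <;> linarith [neg_abs_le s, le_abs_self t, abs_nonneg s, abs_nonneg t]
      · rw [abs_le]
        constructor <;> linarith [neg_abs_le t, le_abs_self s, abs_nonneg s, abs_nonneg t]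
    linarith

/-! ### norms -/

private lemma HN_lt {c C : ℝ} (hB : ∀ (f g : E → ℝ) (k : K), (U k =ᵐ[volume] f) →
    (V k =ᵐ[volume] g) → HN f g ≤ ENNReal.ofReal C * ‖k‖ₑ ∧ ENNReal.ofReal c * ‖k‖ₑ ≤ HN f g)
    (k : K) : HN (U k) (V k) < ⊤ :=
  (hB _ _ k (ae_eq_refl _) (ae_eq_refl _)).1.trans_lt
    (ENNReal.mul_lt_top ENNReal.ofReal_lt_top enorm_lt_top)

private lemma HN_tendsto {c C : ℝ} (hL : St_Lin) (hB : ∀ (f g : E → ℝ) (k : K), (U k =ᵐ[volume] f) →
    (V k =ᵐ[volume] g) → HN f g ≤ ENNReal.ofReal C * ‖k‖ₑ ∧ ENNReal.ofReal c * ‖k‖ₑ ≤ HN f g)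
    {l : Filter ℝ} {k : ℝ → K} {k0 : K} (h : Tendsto k l (𝓝 k0)) :
    Tendsto (fun s => HN (fun x => U (k s) x - U k0 x) (fun x => V (k s) x - V k0 x)) l (𝓝 0) := by
  have h1 : Tendsto (fun s => ENNReal.ofReal C * ‖k s + (-1 : ℝ) • k0‖ₑ) l (𝓝 0) := by
    have h2 : Tendsto (fun s => k s + (-1 : ℝ) • k0) l (𝓝 0) := by
      have := h.add (tendsto_const_nhds (x := (-1 : ℝ) • k0))
      simpa using this
    have h3 := ENNReal.Tendsto.const_mul (a := ENNReal.ofReal C) h2.enorm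
      (Or.inr ENNReal.ofReal_ne_top)
    simpa using h3
  refine tendsto_of_tendsto_of_tendsto_of_le_of_le tendsto_const_nhds h1 (fun _ => zero_le)
    fun s => ?_
  obtain ⟨h4, h5, -⟩ := hL.1 (-1) (k s) k0
  refine (hB _ _ (k s + (-1 : ℝ) • k0) ?_ ?_).1
  · filter_upwards [h4] with x hx
    rw [hx]; ring
  · filter_upwards [h5] with x hx
    rw [hx]; ring

end Br3x

open Br3x in
theorem thm_Br3 (hR : St_RadT) (hG : St_Grp1) (hU : St_UTest) (hF : St_Fld) (hL : St_Lin)
    (hW : St_WEq) (hB : St_Br1) : St_Br3 := by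
  obtain ⟨C, hC, hF⟩ := hF
  obtain ⟨c1, C1, -, -, -, hB, -⟩ := hB
  constructor
  · intro I k hk
    refine ⟨hk.1, fun t _ => HN_lt hB (k t), fun t ht => HN_tendsto hL hB (hk.2.1 t ht),
      hk.2.2.1, fun φ hφ s hs t ht => ?_⟩
    obtain ⟨h1, h2⟩ := hW I k hk s hs t ht φ hφ
    refine ⟨h1, h2.trans ?_⟩
    refine intervalIntegral.integral_congr fun r _ => ?_
    have i1 : Integrable (fun x => LU (k r) x * φ x) (volume : Measure E) := by
      have : MemLp (LU (k r)) 2 (volume : Measure E) :=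
        memLp_finsetSum _ fun i _ => ((hF (k r)).2.2.2.1 i i).1
      exact int_lp (by norm_num) this hφ
    have i2 := int_p5 (hF (k r)).1.1 hφ
    have i3 := int_lp (by norm_num) (hF (k r)).1.1 (test_lap hφ)
    have e1 : ∫ x, (LU (k r) x - U (k r) x ^ 5) * φ x =
        (∫ x, LU (k r) x * φ x) - ∫ x, U (k r) x ^ 5 * φ x := by
      rw [← integral_sub i1 i2]
      exact integral_congr_ae (Eventually.of_forall fun x => sub_mul _ _ _)
    simp only
    rw [e1, integral_sub i3 i2, lapU hF (k r) hφ]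
  · intro k
    have hc := hG.2.2.2.2.2.2.2.1 k
    refine ⟨fun t => HN_lt hB (tau t k), fun t => HN_tendsto hL hB (hc.tendsto t),
      fun φ hφ s t => ⟨?_, ?_⟩⟩
    · simp only [hU.2.2 _ φ (sch hφ), hL.2.2 _ φ (sch hφ)]
      exact dt hG k (hR φ hφ).2.2.2.2.2.1 (hR φ hφ).2.2.2.2.2.2 (nice_both hR hφ).1
        (nice_both hR hφ).2 (fun w p => ((hR φ hφ).2.2.2.1 w p).1) s t
    · simp only [hU.2.2 _ (lap φ) (sch (test_lap hφ)), hL.2.2 _ φ (sch hφ)]
      exact dt hG k (hR φ hφ).2.2.2.2.2.2 (hR _ (test_lap hφ)).2.2.2.2.2.1 (nice_both hR hφ).2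
        (nice_both hR (test_lap hφ)).1 (fun w p => ((hR φ hφ).2.2.2.1 w p).2) s t

end Pool.Agent.QWE
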