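import Pool.Agent.QWE.StC
import Pool.Agent.QWE.StA

/-!
# QWE, module C1a: uniform time of existence for data in a compact set
-/

set_option autoImplicit false

open MeasureTheory Filter Topology Set
open scoped ENNReal NNReal RealInnerProductSpace

namespace Pool.Agent.QWE

namespace C1ax

/-- the Strichartz norm of a free wave on short intervals -/
theorem short (hStr : St_Str) (κ : K) (ε : ℝ≥0∞) (hε : ε ≠ 0) :
    ∀ᶠ n : ℕ in atTop, SN (Icc (-(1 / ((n : ℝ) + 1))) (1 / ((n : ℝ) + 1))) (fun t => tau t κ) ≤ ε := by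
  obtain ⟨C, -, hC⟩ := hStr
  have h1 : ∫⁻ t, eLpNorm (U (tau t κ)) 20 volume ^ 4 ≠ ⊤ := by
    refine ((hC κ).1.trans_lt ?_).ne
    exact ENNReal.pow_lt_top (ENNReal.mul_lt_top ENNReal.ofReal_lt_top enorm_lt_top)
  have h2 : Tendsto (volume ∘ fun n : ℕ => Icc (-(1 / ((n : ℝ) + 1))) (1 / ((n : ℝ) + 1)))
      atTop (𝓝 0) := by
    have h3 : ∀ n : ℕ, (volume ∘ fun n : ℕ => Icc (-(1 / ((n : ℝ) + 1))) (1 / ((n : ℝ) + 1))) n =
        ENNReal.ofReal (2 * (1 / ((n : ℝ) + 1))) := by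
      intro n
      rw [Function.comp_apply, Real.volume_Icc]
      congr 1
      ring
    rw [tendsto_congr h3]
    have h4 : Tendsto (fun n : ℕ => 2 * (1 / ((n : ℝ) + 1))) atTop (𝓝 0) := by
      have h5 := (tendsto_one_div_add_atTop_nhds_zero_nat (𝕜 := ℝ)).const_mul 2
      rwa [mul_zero] at h5
    have h6 := ENNReal.tendsto_ofReal h4
    rwa [ENNReal.ofReal_zero] at h6
  have h3 := tendsto_setLIntegral_zero h1 h2
  exact h3.eventually_le_const (pos_iff_ne_zero.mpr hε)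

end C1ax

open C1ax

theorem thm_C1a (hGrp1 : St_Grp1) (hStr : St_Str) (hSNt : St_SNt) (hLoc : St_Loc) : St_C1a := by
  intro Q hQ
  have hcont : ∀ k : K, Continuous fun t => tau t k := hGrp1.2.2.2.2.2.2.2.1
  obtain ⟨A, hA0, hA⟩ := hQ.isBounded.exists_pos_norm_le
  obtain ⟨η, hη, hloc⟩ := hLoc A hA0
  obtain ⟨C, hC0, hC⟩ := id hStr
  obtain ⟨δ, hδ⟩ : ∃ δ, δ = η / (2 * C) := ⟨_, rfl⟩
  have hδ0 : 0 < δ := by rw [hδ]; positivity
  obtain ⟨F, hFQ, hFfin, hcov⟩ := hQ.finite_cover_balls hδ0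
  have hev : ∀ᶠ n : ℕ in atTop, ∀ κ ∈ F,
      SN (Icc (-(1 / ((n : ℝ) + 1))) (1 / ((n : ℝ) + 1))) (fun t => tau t κ) ≤
        ENNReal.ofReal (η / 2) ^ 4 := by
    rw [eventually_all_finite hFfin]
    intro κ _
    refine short hStr κ _ (pow_ne_zero 4 ?_)
    rw [Ne, ENNReal.ofReal_eq_zero, not_le]
    positivity
  obtain ⟨n, hn⟩ := hev.exists
  obtain ⟨c, hc⟩ : ∃ c : ℝ, c = 1 / ((n : ℝ) + 1) := ⟨_, rfl⟩
  have hc0 : 0 < c := by rw [hc]; positivity
  rw [← hc] at hn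
  refine ⟨c, hc0, ?_⟩
  intro κ hκ
  obtain ⟨κi, hκi, hball⟩ : ∃ κi ∈ F, κ ∈ Metric.ball κi δ := by
    have h1 := hcov hκ
    simpa only [mem_iUnion, exists_prop] using h1
  -- the Strichartz norm of the free evolution of `κ`
  have hJ : MeasurableSet (Icc (-c) c) := measurableSet_Icc
  have h1 := (hSNt (fun t => tau t κi) (fun t => tau t (κ - κi)) (Icc (-c) c) hJ
    (hcont κi).aestronglyMeasurable (hcont (κ - κi)).aestronglyMeasurable).1
  have h2 : (fun t : ℝ => tau t κi + tau t (κ - κi)) = fun t => tau t κ := by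
    funext t
    rw [← map_add, add_sub_cancel]
  rw [h2] at h1
  have hroot : ∀ x : ℝ≥0∞, (x ^ 4) ^ (1 / 4 : ℝ) = x := by
    intro x
    rw [← ENNReal.rpow_natCast, ← ENNReal.rpow_mul]
    norm_num
  have h3 : (SN (Icc (-c) c) fun t => tau t κi) ^ (1 / 4 : ℝ) ≤ ENNReal.ofReal (η / 2) := by
    rw [← hroot (ENNReal.ofReal (η / 2))]
    exact ENNReal.rpow_le_rpow (hn κi hκi) (by norm_num)
  have h4 : (SN (Icc (-c) c) fun t => tau t (κ - κi)) ^ (1 / 4 : ℝ) ≤ ENNReal.ofReal (η / 2) := by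
    have h5 : (SN (Icc (-c) c) fun t => tau t (κ - κi)) ≤
        (ENNReal.ofReal C * ‖κ - κi‖ₑ) ^ 4 := by
      refine le_trans ?_ (hC (κ - κi)).1
      exact setLIntegral_le_lintegral _ _
    have h6 : ENNReal.ofReal C * ‖κ - κi‖ₑ ≤ ENNReal.ofReal (η / 2) := by
      rw [← ofReal_norm, ← ENNReal.ofReal_mul hC0.le]
      apply ENNReal.ofReal_le_ofReal
      rw [Metric.mem_ball, dist_eq_norm] at hball
      calc C * ‖κ - κi‖ ≤ C * δ := mul_le_mul_of_nonneg_left hball.le hC0.le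
        _ = η / 2 := by
            rw [hδ]
            field_simp
    refine (ENNReal.rpow_le_rpow h5 (by norm_num)).trans ?_
    rw [hroot]
    exact h6
  have h5 : (SN (Icc (-c) c) fun t => tau t κ) ^ (1 / 4 : ℝ) ≤ ENNReal.ofReal η := by
    refine h1.trans ((add_le_add h3 h4).trans (le_of_eq ?_))
    rw [← ENNReal.ofReal_add (by positivity) (by positivity)]
    congr 1
    ring
  have h6 : (SN (Icc (-c) c) fun t => tau (t - 0) κ) ≤ ENNReal.ofReal η ^ 4 := by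
    have h7 : (fun t : ℝ => tau (t - 0) κ) = fun t => tau t κ := by
      funext t
      rw [sub_zero]
    rw [h7]
    have h8 := ENNReal.rpow_le_rpow h5 (by norm_num : (0 : ℝ) ≤ 4)
    rw [← ENNReal.rpow_mul] at h8
    have h9 : (1 / 4 : ℝ) * 4 = 1 := by norm_num
    rw [h9, ENNReal.rpow_one] at h8
    refine h8.trans (le_of_eq ?_)
    rw [← ENNReal.rpow_natCast]
    norm_num
  obtain ⟨k, hk, hk0, -⟩ := hloc κ (-c) c 0 η (hA κ hκ) (by linarith) hc0.le hη le_rfl h6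
  exact ⟨k, hk, hk0⟩

end Pool.Agent.QWE
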