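import Pool.Agent.QWE.StC

/-!
# QWE: compact solutions are global (C2)
-/

set_option autoImplicit false

open MeasureTheory Filter Topology Set
open scoped ENNReal NNReal RealInnerProductSpace

namespace Pool.Agent.QWE

namespace C2x

/-- a compact solution is not bounded above -/
theorem notBdd (hC2a : St_C2a) (hC2b : St_C2b) (hEn : St_En) (hZ1 : St_Z1) (hGr : St_GrA)
    {Q : Set K} {I : Set ℝ} {k : ℝ → K} {x : ℝ → E} {a : ℝ → ℝ} (hk : CSol Q I k x a) :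
    ¬ BddAbove I := by
  intro hb
  obtain ⟨-, -, -, g4, -⟩ := hGr
  obtain ⟨hQ, hQ0, hmax, hrep⟩ := hk
  have hne : I.Nonempty := hmax.2.2.1
  have hopen : IsOpen I := hmax.2.1
  have hT : IsLUB I (sSup I) := isLUB_csSup hne hb
  obtain ⟨T, hTdef⟩ : ∃ T, T = sSup I := ⟨_, rfl⟩
  rw [← hTdef] at hT
  have hTI : T ∉ I := by
    intro h
    obtain ⟨ε, hε, hball⟩ := Metric.isOpen_iff.1 hopen T h
    have h1 : T + ε / 2 ∈ I := hball (by
      rw [Metric.mem_ball, Real.dist_eq, add_sub_cancel_left, abs_of_pos (by positivity)]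
      linarith)
    have h2 := hT.1 h1
    linarith
  have hlt : ∀ s ∈ I, s < T := fun s hs => lt_of_le_of_ne (hT.1 hs) fun h => hTI (h ▸ hs)
  obtain ⟨x0, hx0⟩ := hC2a Q I k x a ⟨hQ, hQ0, hmax, hrep⟩ T hT
  obtain ⟨C, hC, hCb⟩ := hC2b
  obtain ⟨A, hA, hAQ⟩ := hQ.isBounded.exists_pos_norm_le
  have hnorm : ∀ s ∈ I, ‖k s‖ ≤ A ∧ k s ≠ 0 := by
    intro s hs
    obtain ⟨κ, hκ, he⟩ := hrep s hs
    have h1 : ‖k s‖ = ‖κ‖ := by rw [he]; exact (g4 (x s) (a s) κ).1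
    refine ⟨h1 ▸ hAQ κ hκ, fun h => ?_⟩
    rw [h, norm_zero] at h1
    exact hQ0 ((norm_eq_zero.1 h1.symm) ▸ hκ)
  have hb2 : ∀ s ∈ I, FE (k s) ∧ MemLp (U (k s)) 6 volume ∧ 0 ≤ En (k s) ∧
      En (k s) ≤ C * (3 * (T - s)) ^ 2 * (A ^ 2 + A ^ 6) := by
    intro s hs
    have hρ : 0 < T - s := sub_pos.2 (hlt s hs)
    have h1 := hx0 s hs (T - s) hρ
    have h2 : 2 * (T - s) + T - s = 3 * (T - s) := by ring
    rw [h2] at h1
    obtain ⟨h3, h4, h5, h6⟩ := hCb (k s) x0 (3 * (T - s)) (by positivity) h1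
    refine ⟨h3, h4, h5, h6.trans ?_⟩
    have h7 := (hnorm s hs).1
    have h8 : ‖k s‖ ^ 2 ≤ A ^ 2 := pow_le_pow_left₀ (norm_nonneg _) h7 2
    have h9 : ‖k s‖ ^ 6 ≤ A ^ 6 := pow_le_pow_left₀ (norm_nonneg _) h7 6
    exact mul_le_mul_of_nonneg_left (add_le_add h8 h9) (by positivity)
  obtain ⟨s, hs⟩ := hne
  have hzero : En (k s) = 0 := by
    refine le_antisymm ?_ (hb2 s hs).2.2.1
    by_contra hcon
    rw [not_le] at hcon
    obtain ⟨M, hM⟩ : ∃ M, M = C * 9 * (A ^ 2 + A ^ 6) := ⟨_, rfl⟩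
    have hM0 : 0 < M := by rw [hM]; positivity
    obtain ⟨δ, hδ⟩ : ∃ δ, δ = min 1 (En (k s) / (2 * M)) := ⟨_, rfl⟩
    have hδ0 : 0 < δ := by rw [hδ]; exact lt_min one_pos (by positivity)
    have hδ1 : δ ≤ 1 := by rw [hδ]; exact min_le_left _ _
    have hδ2 : δ ≤ En (k s) / (2 * M) := by rw [hδ]; exact min_le_right _ _
    obtain ⟨s', hs', hs'1, -⟩ := hT.exists_between (sub_lt_self T hδ0)
    have h1 := (hEn I k s hmax.1 hs (hb2 s hs).1 s' hs').2.2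
    have h2 := (hb2 s' hs').2.2.2
    rw [h1] at h2
    have h3 : T - s' < δ := by linarith
    have h4 : 0 < T - s' := sub_pos.2 (hlt s' hs')
    have h5 : (T - s') ^ 2 ≤ δ := by nlinarith
    have h6 : C * (3 * (T - s')) ^ 2 * (A ^ 2 + A ^ 6) = M * (T - s') ^ 2 := by
      rw [hM]; ring
    rw [h6] at h2
    have h7 : M * (T - s') ^ 2 ≤ M * (En (k s) / (2 * M)) :=
      mul_le_mul_of_nonneg_left (h5.trans hδ2) hM0.le
    have h8 : M * (En (k s) / (2 * M)) = En (k s) / 2 := by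
      field_simp
    linarith
  exact (hnorm s hs).2 (hZ1 (k s) (hb2 s hs).1 (hb2 s hs).2.1 hzero)

end C2x

open C2x in
theorem thm_C2 (hC2a : St_C2a) (hC2b : St_C2b) (hEn : St_En) (hZ1 : St_Z1) (hCSy : St_CSy)
    (hGr : St_GrA) : St_C2 := by
  intro Q I k x a hk
  have h1 : ¬ BddAbove I := notBdd hC2a hC2b hEn hZ1 hGr hk
  have h2 : ¬ BddAbove {t : ℝ | -t ∈ I} :=
    notBdd hC2a hC2b hEn hZ1 hGr (hCSy.2 Q I k x a hk)
  rw [not_bddAbove_iff] at h1 h2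
  refine eq_univ_of_forall fun t => ?_
  obtain ⟨u, hu, htu⟩ := h1 t
  obtain ⟨v, hv, htv⟩ := h2 (-t)
  exact hk.2.2.1.1.1.out hv hu ⟨by linarith, htu.le⟩

end Pool.Agent.QWE
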