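import Pool.Agent.QWE.DefsR
import Pool.Agent.QWE.StB

set_option autoImplicit false

/-!
# QWE, block C: compact solutions, first reductions (Section 3 of the paper)

Every `St_X` is to be proved as `theorem thm_X : St_X` (with the cited statements `St_Y` as hypotheses) in
`Pool/Agent/QWE/X.lean`. Paper: `/team-store/R5_paper.md`, Section 3. `N(t) = e^{a(t)}`. The statements of
StA.lean, StB.lean (St_Loc, St_Uniq, St_MaxE, St_Blow, St_Small, St_Stab, St_Sym, St_Ext, St_En, ...) may be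
used as hypotheses.
-/

open MeasureTheory Filter Topology Set
open scoped ENNReal NNReal RealInnerProductSpace

namespace Pool.Agent.QWE

/-- **GrA** (the group of translations and dilations). Proof from Grp1, Grp2, Act.
`dl a (sh y' k) = sh (e^{-a} y') (dl a k)` (Grp2 with `y = e^{-a} y'`), so
`gr y a (gr y' a' k) = sh y (dl a (sh y' (dl a' k))) = sh (y + e^{-a} y') (dl (a + a') k)`. With `y' = - e^a y`,
`a' = -a` this is the identity; same in the other order. Norm, additivity: isometries (`gr y a` is linear).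
Inner product: `inner (sh y (dl a k)) k' = inner (dl a k) (sh (-y) k') = inner k (dl (-a) (sh (-y) k'))` and
`dl (-a) (sh (-y) k') = sh (e^a (-y)) (dl (-a) k')`. `tau`: commutes with `sh`, Grp2. Joint continuity:
`‖gr y a k - gr y₀ a₀ k₀‖ ≤ ‖k - k₀‖ + ‖gr y a k₀ - gr y₀ a₀ k₀‖` and
`‖sh y (dl a k₀) - sh y₀ (dl a₀ k₀)‖ ≤ ‖dl a k₀ - dl a₀ k₀‖ + ‖sh y (dl a₀ k₀) - sh y₀ (dl a₀ k₀)‖ → 0` (continuity
statements of Grp1, Grp2). Exteriors and half spaces: Act with the elementary set identities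
`{z | x + e^{-a} z ∈ ext y R} = ext (e^a (y - x)) (e^a R)`, `{z | x + e^{-a} z ∈ half e c} = half e (e^a (c - ⟪x,e⟫))`,
`{z | x + e^{-a} z ∈ univ} = univ`. -/
def St_GrA : Prop :=
  (∀ (y y' : E) (a a' : ℝ) (k : K), gr y a (gr y' a' k) = gr (y + Real.exp (-a) • y') (a + a') k) ∧
  (∀ k : K, gr 0 0 k = k) ∧
  (∀ (y : E) (a : ℝ) (k : K), gr y a (ig y a k) = k ∧ ig y a (gr y a k) = k) ∧
  (∀ (y : E) (a : ℝ) (k : K), ‖gr y a k‖ = ‖k‖ ∧ ‖ig y a k‖ = ‖k‖) ∧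
  (∀ (y : E) (a c : ℝ) (k k' : K), gr y a (k + c • k') = gr y a k + c • gr y a k') ∧
  (∀ (y : E) (a : ℝ) (k k' : K), inner ℝ (gr y a k) k' = inner ℝ k (ig y a k')) ∧
  (∀ (t : ℝ) (y : E) (a : ℝ) (k : K), tau t (gr y a k) = gr y a (tau (Real.exp a * t) k)) ∧
  (Continuous fun z : E × ℝ × K => gr z.1 z.2.1 z.2.2) ∧
  (∀ (y : E) (R : ℝ) (x : E) (a : ℝ) (k : K),
    ex (ext y R) (gr x a k) = ex (ext (Real.exp a • (y - x)) (Real.exp a * R)) k) ∧
  (∀ (e : E) (c : ℝ) (x : E) (a : ℝ) (k : K),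
    ex (half e c) (gr x a k) = ex (half e (Real.exp a * (c - inner ℝ x e))) k)

/-- **G0a**: a fixed element, transported by group elements that leave every compact set, tends weakly to `0`.
Proof. Both `κ` and `w` can be approximated in norm by bounded (`|·| ≤ B`) measurable functions vanishing for
`|p| > M` (truncate; `gr` is an isometry), so assume this. Then
`|⟨gr y a κ, w⟩| ≤ ∫∫ e^{a/2} |κ(ω, e^a (p - y·ω))| |w(ω,p)|`. Case `a → -∞`: `≤ e^{a/2} B² 2M |S|`. Case `a → ∞`: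
bound `w` by `B` and substitute `q = e^a (p - y·ω)`: `≤ e^{-a/2} B² 2M |S|`. Case `|a| ≤ B₀`, `‖y‖ → ∞`: the
integrand vanishes unless `|p| ≤ M` and `|p - y·ω| ≤ e^{B₀} M`, so `|y·ω| ≤ M' := (1 + e^{B₀}) M`, and
`|{ω ∈ S : |y·ω| ≤ M'}| ≤ 4 π² M'/‖y‖` (SL1 with `z = y`, `g` the indicator of `[-M', M']`), so
`≤ e^{B₀/2} B² 2M · 4π² M'/‖y‖ → 0`. -/
def St_G0a : Prop := ∀ (κ w : K) (y : ℕ → E) (a : ℕ → ℝ),
  (Tendsto a atTop atTop ∨ Tendsto a atTop atBot ∨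
    ((∃ B, ∀ n, |a n| ≤ B) ∧ Tendsto (fun n => ‖y n‖) atTop atTop)) →
  Tendsto (fun n => (inner ℝ (gr (y n) (a n) κ) w : ℝ)) atTop (𝓝 0)

/-- **G0** (paper G0). Proof from G0a: otherwise there are `w`, `ε > 0` and a subsequence with
`|⟨gr (y n) (a n) (k n), w⟩| ≥ ε`; along a further subsequence `k n → κ` (`Q` compact); the hypothesis on
`(a, y)` passes to subsequences; `|⟨gr (y n) (a n) (k n - κ), w⟩| ≤ ‖k n - κ‖ ‖w‖ → 0` and G0a for `κ`:
contradiction. -/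
def St_G0 : Prop := ∀ (Q : Set K) (k : ℕ → K) (y : ℕ → E) (a : ℕ → ℝ), IsCompact Q → (∀ n, k n ∈ Q) →
  (Tendsto a atTop atTop ∨ Tendsto a atTop atBot ∨
    ((∃ B, ∀ n, |a n| ≤ B) ∧ Tendsto (fun n => ‖y n‖) atTop atTop)) →
  WTo (fun n => gr (y n) (a n) (k n)) 0

/-- **GBd** (group elements stay bounded if a weak limit is not zero). Proof from G0. Weak convergence passes
to subsequences. If `a` is not bounded above there is a subsequence with `a → ∞`, by G0 the weak limit is `0`,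
weak limits are unique (test with `w = κ`): `κ = 0`. Same if `a` is not bounded below. If `|a n| ≤ B` for all `n`
and `‖y n‖` is unbounded: a subsequence with `‖y n‖ → ∞`, the third case of G0. -/
def St_GBd : Prop := ∀ (Q : Set K) (k : ℕ → K) (y : ℕ → E) (a : ℕ → ℝ) (κ : K), IsCompact Q →
  (∀ n, k n ∈ Q) → WTo (fun n => gr (y n) (a n) (k n)) κ → κ ≠ 0 →
  ∃ B, ∀ n, |a n| ≤ B ∧ ‖y n‖ ≤ B

/-- **GLim** (closedness). Proof from GBd, GrA: norm convergence implies weak convergence, so `(y n, a n)` is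
bounded (GBd); `closedBall × Icc × Q` is compact, take a convergent subsequence; joint continuity (GrA) and
uniqueness of limits give `κ = gr y' a' κ'`. -/
def St_GLim : Prop := ∀ (Q : Set K) (k : ℕ → K) (y : ℕ → E) (a : ℕ → ℝ) (κ : K), IsCompact Q →
  (∀ n, k n ∈ Q) → Tendsto (fun n => gr (y n) (a n) (k n)) atTop (𝓝 κ) → κ ≠ 0 →
  ∃ φ : ℕ → ℕ, StrictMono φ ∧ ∃ (y' : E) (a' : ℝ) (κ' : K), κ' ∈ Q ∧
    Tendsto (y ∘ φ) atTop (𝓝 y') ∧ Tendsto (a ∘ φ) atTop (𝓝 a') ∧ Tendsto (k ∘ φ) atTop (𝓝 κ') ∧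
    κ = gr y' a' κ'

/-- **C0** (we may assume `0 ∉ Q`). Proof: let `d0` be the constant of small data theory (St_Small). If there
are `t_n ∈ I` with `‖k(t_n)‖ → 0`, then for `n` large the small solution with value `k(t_n)` at `t_n` is global
and bounded by `2 ‖k(t_n)‖`; by uniqueness (St_Uniq) it agrees with `k` on `I`, so `‖k(t)‖ ≤ 2 ‖k(t_n)‖ → 0` for
every `t ∈ I`: contradiction. So `‖k(t)‖ ≥ m0 > 0` on `I`, and `Q' = Q ∩ {κ | m0 ≤ ‖κ‖}` is compact, does not contain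
`0`, and contains the `κ` with `k(t) = gr (x t) (a t) κ` (isometry, GrA). -/
def St_C0 : Prop := ∀ (I : Set ℝ) (k : ℝ → K) (Q : Set K) (x : ℝ → E) (a : ℝ → ℝ), IsMax I k →
  IsCompact Q → (∀ t ∈ I, ∃ κ ∈ Q, k t = gr (x t) (a t) κ) → (∃ t ∈ I, k t ≠ 0) →
  ∃ Q', CSol Q' I k x a

/-- **CSy** (symmetries of compact solutions). Proof: St_Sym (the transformed functions are solutions, and the
inverse transformation shows that they are maximal). Group law (GrA):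
`ig y₀ a₀ (gr x a κ) = gr (- e^{a₀} y₀ + e^{a₀} x) (a - a₀) κ`; `rev (gr x a κ) = gr x a (rev κ)` (Grp2); `rev '' Q`
is compact (`rev` is continuous) and does not contain `0` (`rev` is injective). -/
def St_CSy : Prop :=
  (∀ Q I k x a, CSol Q I k x a → ∀ (y0 : E) (a0 t0 : ℝ),
    CSol Q {s | t0 + Real.exp (-a0) * s ∈ I} (fun s => ig y0 a0 (k (t0 + Real.exp (-a0) * s)))
      (fun s => Real.exp a0 • (x (t0 + Real.exp (-a0) * s) - y0))
      (fun s => a (t0 + Real.exp (-a0) * s) - a0)) ∧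
  (∀ Q I k x a, CSol Q I k x a →
    CSol (rev '' Q) {t | -t ∈ I} (fun t => rev (k (-t))) (fun t => x (-t)) (fun t => a (-t)))

/-- **C1a** (uniform time of existence for data in a compact set). Proof from St_Loc, Str. `A = sup_Q ‖κ‖`,
`η = η0(A)` the smallness constant of St_Loc for norm `A`. With the Strichartz constant `C` and a finite set
`κ_i ∈ Q` with `Q ⊆ ⋃ ball κ_i δ`, `C δ ≤ η/2`: the function `t ↦ sn (tau t κ_i) ^ 4` is integrable on `ℝ` (Str), so its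
integral over `[-c, c]` is `≤ (η/2)^4` for small `c`, for all `i`; Minkowski in `L⁴L²⁰` and Str for
`κ - κ_i` give norm `≤ η` for all `κ ∈ Q`. St_Loc gives the solution on `[-c, c]`. -/
def St_C1a : Prop := ∀ Q : Set K, IsCompact Q → ∃ c : ℝ, 0 < c ∧ ∀ κ ∈ Q,
  ∃ k : ℝ → K, IsSol (Icc (-c) c) k ∧ k 0 = κ

/-- **C1** (lifespan). Proof: `c` from C1a. By CSy (first part with `y0 = x t`, `a0 = a t`, `t0 = t`) the function
`s ↦ ig (x t) (a t) (k (t + e^{-a(t)} s))` is maximal on `I' = {s | t + e^{-a(t)} s ∈ I}` and has the value `κ ∈ Q` at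
`0` (`ig` is inverse to `gr`). By C1a there is a solution on `[-c, c]` with the same value at `0`, so `[-c,c] ⊆ I'`
by maximality (MaxE at `0` with value `κ`: its interval contains `I'` and `[-c,c]`, and it equals `I'` because `k'` is maximal). -/
def St_C1 : Prop := ∀ Q : Set K, IsCompact Q → ∃ c : ℝ, 0 < c ∧ ∀ I k x a, CSol Q I k x a →
  ∀ t ∈ I, Icc (t - c * Real.exp (-(a t))) (t + c * Real.exp (-(a t))) ⊆ I

/-- **Tga** (uniform tightness of compact sets). Proof: `R ↦ ex (ext 0 R) κ` is antitone, tends to `0` for every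
`κ` (ExB) and `κ ↦ ex Ω κ` is 1-Lipschitz: finite `ε/2`-net of `Q`. -/
def St_Tga : Prop := ∀ Q : Set K, IsCompact Q → ∀ ε : ℝ, 0 < ε → ∃ R0 : ℝ, 0 < R0 ∧
  ∀ R, R0 ≤ R → ∀ κ ∈ Q, ex (ext 0 R) κ ≤ ε

/-- **C2a** (a compact solution that stops at the time `T` is supported in a backward cone). Proof.
`I` is an open interval and `T = sup I < ∞`, so `T ∉ I`; by C1 `t + c e^{-a(t)} < T`, so `e^{a(t)} ≥ c/(T - t)` for
`t ∈ I`. Let `t_n ∈ I`, `t_n → T`, `x_n = x(t_n)`. For `s ∈ I`, `ρ > 0` and `n` with `t_n ≥ s` put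
`e_n := ex (ext x_n ρ) (k t_n) = ex (ext 0 (e^{a(t_n)} ρ)) κ_n` (GrA), which tends to `0` (Tga). As `e_n ≤ d0` for large `n`, St_Ext
(exterior small solution, backwards in time, `shr (ext x_n ρ) (t_n - s) = ext x_n (ρ + t_n - s)`) gives
`ex (ext x_n (ρ + t_n - s)) (k s) ≤ 2 e_n`. (1) `x_n` is bounded: otherwise, along a subsequence `‖x_n‖ → ∞`; for fixed `M` the
ball `B(0,M)` is contained in `ext x_n (ρ + t_n - s)` for large `n`, so `ex (ball 0 M) (k s) ≤ 2 e_n → 0`, and this for all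
`M` gives `‖k s‖ = 0` (ExB), but `k s ≠ 0` (`0 ∉ Q`, isometry). (2) So `x_n → x0` along a subsequence (chosen once, it does not
depend on `s`, `ρ`); `ext x0 (2ρ + T - s) ⊆ ext x_n (ρ + t_n - s)` for large `n`, so `ex (ext x0 (2ρ + T - s)) (k s) = 0`, i.e. `Van` (ExB). -/
def St_C2a : Prop := ∀ Q I k x a, CSol Q I k x a → ∀ T : ℝ, IsLUB I T →
  ∃ x0 : E, ∀ s ∈ I, ∀ ρ : ℝ, 0 < ρ → Van (ext x0 (2 * ρ + T - s)) (k s)

/-- **C2b** (energy of a state supported in a small ball). Proof: the fields `U k`, `V k`, hence `DU k i`, vanish a.e. off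
`closedBall x0 r` (ExF with `k' = 0`: `Van Ω k` gives fields `= 0` on `Ω = ext x0 r`; fields of `0` vanish a.e., Lin). Hoelder on the
ball, `vol = C r⁵`: `∫ |DU k i|² ≤ (C r⁵)^{2/5} ‖DU k i‖²_{10/3}`, the same for `V k`, `∫ u⁶ ≤ (C r⁵)^{2/5} ‖u‖_{10}⁶`; Fld. -/
def St_C2b : Prop := ∃ C : ℝ, 0 < C ∧ ∀ (k : K) (x0 : E) (r : ℝ), 0 < r → Van (ext x0 r) k →
  FE k ∧ MemLp (U k) 6 volume ∧ 0 ≤ En k ∧ En k ≤ C * r ^ 2 * (‖k‖ ^ 2 + ‖k‖ ^ 6)

/-- **C2** (compact solutions are global). Proof from C2a, C2b, En, Z1, CSy. `I` is open, order connected and nonempty. Suppose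
`I` is bounded above, `T = sSup I` (`IsLUB I T`, `T ∉ I`). With `x0` of C2a and `ρ = T - s > 0`: `Van (ext x0 (3 (T-s))) (k s)` for `s ∈ I`. So
`FE (k s)` and `0 ≤ En (k s) ≤ 9 C (T-s)² (A² + A⁶)`, `A = sup_Q ‖κ‖` (`‖k s‖ = ‖κ‖ ≤ A`). Energy conservation (St_En):
`En (k s) = En (k s')` for `s' ∈ I`; `s' → T`: `En (k s) = 0`, so `k s = 0` (Z1), contradiction with `0 ∉ Q`. So `I` is not bounded
above; applied to the reversed solution (CSy, second part) `I` is not bounded below. -/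
def St_C2 : Prop := ∀ Q I k x a, CSol Q I k x a → I = univ

/-- **C4** (bounded oscillation). Proof from C3, G0. Otherwise there are `T` and `t_n`, `|s_n| ≤ T` with
`a(t_n + e^{-a(t_n)} s_n) > a(t_n) + n`. Choose `κ_n ∈ Q` with `k(t_n) = gr (x t_n) (a t_n) κ_n`; along a subsequence `κ_n → κ`
and `s_n → s₀`. C3: `ig (x t_n) (a t_n) (k (t_n + e^{-a(t_n)} s_n)) → k'(s₀)`, and `k'(s₀) ≠ 0` (`CSol Q univ k' x' a'`, `0 ∉ Q`). But
`k (t_n + e^{-a(t_n)} s_n) = gr (x(..)) (a(..)) κ'_n` with `κ'_n ∈ Q`, so by GrA the left side is `gr h_n (a(t_n + ..) - a(t_n)) κ'_n` with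
second parameter `≥ n`, `→ ∞`: it tends weakly to `0` (G0), contradiction. -/
def St_C4 : Prop := ∀ Q k x a, CSol Q univ k x a → ∀ T : ℝ, ∃ C : ℝ, ∀ t s : ℝ, |s| ≤ T →
  a (t + Real.exp (-(a t)) * s) ≤ a t + C

/-- **C3** (hull). Proof (paper C3). Put `k_n(s) := ig (x t_n) (a t_n) (k (t_n + e^{-a(t_n)} s))`; by CSy
`CSol Q univ k_n x_n a_n` with `x_n(s) = e^{a(t_n)} (x(..) - x(t_n))`, `a_n(s) = a(t_n + e^{-a(t_n)} s) - a(t_n)`, and
`k_n(0) = κ_n → κ`, `κ ∈ Q` (closed), `κ ≠ 0`. Let `k'` be the maximal solution with `k'(0) = κ` (St_MaxE), on `I'`. For every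
compact interval `J ⊆ I'` containing `0`: `k_n → k'` uniformly on `J` (St_Stab and uniqueness). `k'(s) ≠ 0` for `s ∈ I'` (uniqueness:
otherwise `k' = 0`). For `s ∈ I'`: `k_n(s) = gr (x_n s) (a_n s) κ_n^s` with `κ_n^s ∈ Q` tends to `k'(s) ≠ 0`; GLim gives a subsequence with
`(x_n(s), a_n(s), κ_n^s) → (y', a', κ')`, `k'(s) = gr y' a' κ'`, `κ' ∈ Q`; put `x'(s) = y'`, `a'(s) = a'` (choice). A limit point `a'(s)` of
`a_n(s)` satisfies `b ≤ a'(s)` whenever `b ≤ a_n(s)` for large `n`. So `CSol Q I' k' x' a'`, hence `I' = univ` (C2). If `s_n → s₀`: uniform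
convergence on `[-|s₀|-1, |s₀|+1]` and continuity of `k'` give `k_n(s_n) → k'(s₀)`. -/
def St_C3 : Prop := ∀ Q k x a, CSol Q univ k x a → ∀ (t : ℕ → ℝ) (κn : ℕ → K) (κ : K),
  (∀ n, κn n ∈ Q ∧ k (t n) = gr (x (t n)) (a (t n)) (κn n)) → Tendsto κn atTop (𝓝 κ) →
  ∃ k' x' a', CSol Q univ k' x' a' ∧ k' 0 = κ ∧
    (∀ (s : ℕ → ℝ) (s0 : ℝ), Tendsto s atTop (𝓝 s0) →
      Tendsto (fun n => ig (x (t n)) (a (t n)) (k (t n + Real.exp (-(a (t n))) * s n))) atTop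
        (𝓝 (k' s0))) ∧
    ∀ s b : ℝ, (∀ᶠ n in atTop, b ≤ a (t n + Real.exp (-(a (t n))) * s) - a (t n)) → b ≤ a' s

/-- **C5** (pure real analysis). `N = e^a`. Proof (paper C5). Otherwise there is `T > 0` such that for every `t` there is `s`,
`|s| ≤ T`, with `a(t') < a(t) - log 2` for `t' = t + e^{-a(t)} s`. Iterate: `t_0 = 0`, `t_{j+1} = t_j'`; `a(t_{j+1}) < a(t_j) - log 2`, so
`a(t_j) > a(t_J) + (J-j) log 2` and `e^{-a(t_j)} ≤ 2^{-(J-j)} e^{-a(t_J)}` for `j < J`. Hence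
`|t_0 - t_J| ≤ Σ_{j<J} T e^{-a(t_j)} ≤ T e^{-a(t_J)} Σ_{j<J} 2^{-(J-j)} ≤ T e^{-a(t_J)}`. The hypothesis at `t = t_J` with
`s = e^{a(t_J)} (t_0 - t_J)`, `|s| ≤ T`, gives `a(t_0) ≤ a(t_J) + C`, but `a(t_0) ≥ a(t_J) + J log 2`: contradiction for large `J`. -/
def St_C5 : Prop := ∀ a : ℝ → ℝ,
  (∀ T : ℝ, ∃ C : ℝ, ∀ t s : ℝ, |s| ≤ T → a (t + Real.exp (-(a t)) * s) ≤ a t + C) →
  ∀ T : ℝ, 0 < T → ∃ t : ℝ, ∀ s : ℝ, |s| ≤ T → a t - Real.log 2 ≤ a (t + Real.exp (-(a t)) * s)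

/-- **C6** (normalised compact solution). Proof: C4, C5 with `T = n + 1` give `t_n` with
`a(t_n) - log 2 ≤ a(t_n + e^{-a(t_n)} s)` for `|s| ≤ n + 1`. Choose `κ_n ∈ Q` with `k(t_n) = gr (x t_n) (a t_n) κ_n`, pass to a subsequence
`κ_n → κ` (`Q` compact). C3 gives `k', x', a'`; its last clause with `b = - log 2` gives `a'(s) ≥ - log 2` for every `s`. -/
def St_C6 : Prop := ∀ Q k x a, CSol Q univ k x a → ∃ k' x' a', NSol Q k' x' a'

/-- **Tgt** (3.1). Proof from Tga, GrA: `ex (ext (x t) R) (gr (x t) (a t) κ) = ex (ext 0 (e^{a(t)} R)) κ` and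
`e^{a(t)} ≥ 1/2`, so for `R ≥ 2 R0 > 0` this is `≤ ε` (monotonicity of `ext 0 ·` and `ex`). -/
def St_Tgt : Prop := ∀ Q k x a, NSol Q k x a → ∀ ε : ℝ, 0 < ε → ∃ R0 : ℝ, 0 < R0 ∧
  ∀ R, R0 ≤ R → ∀ t, ex (ext (x t) R) (k t) ≤ ε

/-- **ABd** (`N` and the centre are bounded on compact time intervals). Proof: otherwise there are `t_n ∈ [-T,T]` with
`|a(t_n)| + ‖x(t_n)‖ → ∞`, `t_n → t` (subsequence). `k` is continuous, so `gr (x t_n) (a t_n) κ_n = k(t_n) → k(t) ≠ 0`, which contradicts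
GBd. (`k(t) ≠ 0` as `k(t) = gr .. κ`, `κ ∈ Q`, `0 ∉ Q`, isometry.) -/
def St_ABd : Prop := ∀ Q k x a, CSol Q univ k x a → ∀ T : ℝ, ∃ B : ℝ, ∀ t : ℝ, |t| ≤ T →
  |a t| ≤ B ∧ ‖x t‖ ≤ B

end Pool.Agent.QWE
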