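import Pool.Agent.QWE.StA
import Pool.Agent.QWE.StC

set_option autoImplicit false

/-!
# QWE, C2a: compact solutions that stop are supported in a backward cone
-/

open MeasureTheory Filter Topology Set
open scoped ENNReal NNReal RealInnerProductSpace

namespace Pool.Agent.QWE

namespace C2ax

lemma open_ext (y : E) (ρ : ℝ) : IsOpen (ext y ρ) :=
  isOpen_lt continuous_const (continuous_id.dist continuous_const)

lemma ext_sub_shr (y : E) (ρ b : ℝ) : ext y (ρ + b) ⊆ shr (ext y ρ) b := by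
  intro z hz
  have hz' : ρ + b < dist z y := hz
  refine ⟨dist z y - ρ, by linarith, ?_⟩
  intro w hw
  have hw' : dist w z < dist z y - ρ := hw
  show ρ < dist w y
  have h1 := dist_triangle z w y
  rw [dist_comm z w] at h1
  linarith

lemma ext_sub_ext (y y' : E) (ρ ρ' : ℝ) (h : ρ' + dist y y' ≤ ρ) : ext y ρ ⊆ ext y' ρ' := by
  intro z hz
  have hz' : ρ < dist z y := hz
  show ρ' < dist z y'
  have h1 := dist_triangle z y' y
  rw [dist_comm y' y] at h1
  linarith

lemma ball_sub_ext (y : E) (M ρ : ℝ) (h : ρ + M ≤ ‖y‖) : Metric.ball (0 : E) M ⊆ ext y ρ := by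
  intro z hz
  have hz' : dist z 0 < M := hz
  show ρ < dist z y
  have h1 := dist_triangle y z 0
  rw [dist_zero_right, dist_comm y z] at h1
  linarith

end C2ax

open C2ax in
/-- **C2a**. -/
theorem thm_C2a (hX : St_ExB) (hE : St_Ext) (hA : St_GrA) (hTga : St_Tga) (hC1 : St_C1) :
    St_C2a := by
  intro Q I k x a hC T hT
  obtain ⟨-, -, x3, x4, -, -, -, -, -, -, x11⟩ := hX
  obtain ⟨d0, C, hd0, hC0, hE⟩ := hE
  obtain ⟨-, -, -, g4, -, -, -, -, g9, -⟩ := hA
  obtain ⟨c, hc, hcI⟩ := hC1 Q hC.1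
  have hCI := hcI I k x a hC
  have hTga' := hTga Q hC.1
  obtain ⟨q1, q2, ⟨hs, ho, hne, hm⟩, q4⟩ := hC
  have hTI : T ∉ I := by
    intro h
    obtain ⟨ε, hε, hb⟩ := Metric.isOpen_iff.1 ho T h
    have h1 : T + ε / 2 ∈ I := hb (by
      rw [Metric.mem_ball, Real.dist_eq, add_sub_cancel_left, abs_of_pos (by linarith)]
      linarith)
    have h2 := hT.1 h1
    linarith
  have hlt : ∀ t ∈ I, t < T := fun t ht => lt_of_le_of_ne (hT.1 ht) (fun h => hTI (h ▸ ht))
  have hexp : ∀ t ∈ I, c < Real.exp (a t) * (T - t) := by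
    intro t ht
    have h1 : 0 < c * Real.exp (-(a t)) := by positivity
    have h2 : t + c * Real.exp (-(a t)) ∈ I := hCI t ht ⟨by linarith, le_refl _⟩
    have h3 := hlt _ h2
    have h4 : c * Real.exp (-(a t)) < T - t := by linarith
    have h5 := mul_lt_mul_of_pos_left h4 (Real.exp_pos (a t))
    have h6 : Real.exp (a t) * (c * Real.exp (-(a t))) = c := by
      rw [mul_left_comm, ← Real.exp_add, add_neg_cancel, Real.exp_zero, mul_one]
    rwa [h6] at h5
  obtain ⟨t, -, ht1, ht2, ht3⟩ := hT.exists_seq_strictMono_tendsto_of_notMem hTI hne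
  -- exterior norms at the times `t n` are small
  have hsmall : ∀ ρ : ℝ, 0 < ρ → ∀ ε : ℝ, 0 < ε → ∀ᶠ n in atTop,
      ex (ext (x (t n)) ρ) (k (t n)) ≤ ε := by
    intro ρ hρ ε hε
    obtain ⟨R0, hR0, hR⟩ := hTga' ε hε
    have h1 : ∀ᶠ n in atTop, T - t n < c * ρ / R0 := by
      have h2 : Tendsto (fun n => T - t n) atTop (𝓝 (T - T)) := tendsto_const_nhds.sub ht2
      rw [sub_self] at h2
      exact h2.eventually_lt_const (by positivity)
    filter_upwards [h1] with n hn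
    obtain ⟨κ, hκ, he⟩ := q4 (t n) (ht3 n)
    rw [he, g9, sub_self, smul_zero]
    apply hR _ _ κ hκ
    have h2 := hexp (t n) (ht3 n)
    have h3 : 0 < T - t n := by linarith [ht1 n]
    have h4 : (T - t n) * R0 < c * ρ := (lt_div_iff₀ hR0).1 hn
    have h5 : c * ρ < Real.exp (a (t n)) * (T - t n) * ρ := mul_lt_mul_of_pos_right h2 hρ
    have h6 : (T - t n) * R0 < (T - t n) * (Real.exp (a (t n)) * ρ) := by
      calc (T - t n) * R0 < c * ρ := h4
        _ < Real.exp (a (t n)) * (T - t n) * ρ := h5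
        _ = (T - t n) * (Real.exp (a (t n)) * ρ) := by ring
    exact (lt_of_mul_lt_mul_left h6 h3.le).le
  -- and at the time `s`
  have hback : ∀ s ∈ I, ∀ ρ : ℝ, 0 < ρ → ∀ ε : ℝ, 0 < ε → ∀ᶠ n in atTop,
      ex (ext (x (t n)) (ρ + (T - s))) (k s) ≤ ε := by
    intro s hsI ρ hρ ε hε
    filter_upwards [hsmall ρ hρ (min d0 (ε / 2)) (lt_min hd0 (by linarith)),
      ht2.eventually_const_lt (hlt s hsI)] with n hn hn2
    obtain ⟨k', -, -, -, -, -, -, -, h8⟩ := hE I k (t n) (ext (x (t n)) ρ) hs (ht3 n)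
      (open_ext _ _) (le_trans hn (min_le_left _ _))
    have h9 := (h8 s hsI).2
    have h10 : ext (x (t n)) (ρ + (T - s)) ⊆ shr (ext (x (t n)) ρ) |s - t n| := by
      refine Subset.trans (ext_sub_ext (x (t n)) (x (t n)) _ (ρ + |s - t n|) ?_)
        (ext_sub_shr _ _ _)
      rw [dist_self, add_zero, abs_sub_comm, abs_of_pos (by linarith)]
      linarith [ht1 n]
    have h11 := x3 _ _ (k s) h10
    have h12 := le_trans hn (min_le_right _ _)
    linarith
  have hpos : ∀ s ∈ I, 0 < ‖k s‖ := by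
    intro s hsI
    obtain ⟨κ, hκ, he⟩ := q4 s hsI
    rw [he, (g4 _ _ _).1]
    apply norm_pos_iff.2
    intro h0
    exact q2 (h0 ▸ hκ)
  have hex0 : ∀ (Ω : Set E) (κ : K), 0 ≤ ex Ω κ := fun Ω κ => norm_nonneg _
  -- a convergent subsequence of the centres
  have hfreq : ∃ R : ℝ, ∃ᶠ n in atTop, ‖x (t n)‖ ≤ R := by
    by_contra hno
    push Not at hno
    obtain ⟨s, hsI⟩ := hne
    have h1 : ∀ M : ℝ, ex (Metric.ball (0 : E) M) (k s) ≤ 0 := by
      intro M
      apply le_of_forall_pos_le_add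
      intro ε hε
      rw [zero_add]
      have h2 := hno (1 + (T - s) + M)
      have h3 := (hback s hsI 1 one_pos ε hε).and h2
      obtain ⟨n, hn1, hn2⟩ := h3.exists
      exact le_trans (x3 _ _ (k s) (ball_sub_ext _ M _ hn2.le)) hn1
    have h2 := x11 (k s)
    have h3 : ‖k s‖ ≤ 0 := le_of_tendsto' h2 h1
    exact absurd (hpos s hsI) (not_lt.2 h3)
  obtain ⟨R, hR⟩ := hfreq
  obtain ⟨x0, -, φ, hφ, hx0⟩ := tendsto_subseq_of_frequently_bounded
    (Metric.isBounded_closedBall (x := (0 : E)) (r := R)) (x := fun n => x (t n))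
    (hR.mono fun n hn => by rwa [mem_closedBall_zero_iff])
  refine ⟨x0, fun s hsI ρ hρ => ?_⟩
  rw [x4]
  apply le_antisymm _ (hex0 _ _)
  apply le_of_forall_pos_le_add
  intro ε hε
  rw [zero_add]
  have h1 : ∀ᶠ n in atTop, dist (x (t (φ n))) x0 < ρ := by
    have h2 := (Metric.tendsto_nhds.1 hx0) ρ hρ
    exact h2
  have h3 := (hφ.tendsto_atTop.eventually (hback s hsI ρ hρ ε hε)).and h1
  obtain ⟨n, hn1, hn2⟩ := h3.exists
  refine le_trans (x3 _ _ (k s) (ext_sub_ext x0 (x (t (φ n))) _ _ ?_)) hn1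
  rw [dist_comm]
  linarith

end Pool.Agent.QWE
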