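import Pool.Agent.QWE.StC
import Pool.Agent.QWE.StA

/-!
# QWE/C2b (helper96): energy of a state supported in a ball
-/

set_option autoImplicit false

open MeasureTheory Filter Topology Set
open scoped ENNReal NNReal RealInnerProductSpace

namespace Pool.Agent.QWE

namespace C2bx

theorem norm_le {f : E → ℝ} {x0 : E} {r A : ℝ} (hr : 0 < r) (n : ℕ)
    (q : ℝ≥0∞) (hq : (n : ℝ≥0∞) ≤ q) (s : ℝ) (hs : 1 / (n : ℝ) - 1 / q.toReal = s)
    (hs0 : 0 ≤ s) (hf : MemLp f q volume) (hfA : eLpNorm f q volume ≤ ENNReal.ofReal A)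
    (h0 : ∀ᵐ x, r < dist x x0 → f x = 0) :
    eLpNorm f n volume ≤ ENNReal.ofReal (A * (r ^ 5 * volume.real (Metric.ball (0 : E) 1)) ^ s) := by
  set B : Set E := Metric.closedBall x0 r with hB
  have hBm : MeasurableSet B := Metric.isClosed_closedBall.measurableSet
  have h1 : f =ᵐ[volume] B.indicator f := by
    filter_upwards [h0] with x hx
    by_cases hxB : x ∈ B
    · rw [indicator_of_mem hxB]
    · rw [indicator_of_notMem hxB]
      apply hx
      rw [hB, Metric.mem_closedBall, not_le] at hxB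
      exact hxB
  have hv : volume B = ENNReal.ofReal (r ^ 5 * volume.real (Metric.ball (0 : E) 1)) := by
    have h2 : volume.real B = r ^ 5 * volume.real (Metric.ball (0 : E) 1) := by
      have h3 := Measure.addHaar_real_closedBall (volume : Measure E) x0 hr.le
      rw [hB, h3]
      congr 2
      simp
    rw [← h2, Measure.real, ENNReal.ofReal_toReal]
    exact (isCompact_closedBall x0 r).measure_lt_top.ne
  have hv0 : 0 ≤ r ^ 5 * volume.real (Metric.ball (0 : E) 1) :=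
    mul_nonneg (by positivity) measureReal_nonneg
  calc eLpNorm f n volume = eLpNorm f n (volume.restrict B) := by
        rw [eLpNorm_congr_ae h1, eLpNorm_indicator_eq_eLpNorm_restrict hBm]
    _ ≤ eLpNorm f q (volume.restrict B) * (volume.restrict B) Set.univ ^
          (1 / (n : ℝ≥0∞).toReal - 1 / q.toReal) :=
        eLpNorm_le_eLpNorm_mul_rpow_measure_univ hq hf.aestronglyMeasurable.restrict
    _ = eLpNorm f q (volume.restrict B) * volume B ^ s := by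
        rw [Measure.restrict_apply_univ, ENNReal.toReal_natCast, hs]
    _ ≤ ENNReal.ofReal A * volume B ^ s := by
        gcongr
        exact (eLpNorm_mono_measure f Measure.restrict_le_self).trans hfA
    _ = _ := by
        rw [hv, ENNReal.ofReal_rpow_of_nonneg hv0 hs0,
          ← ENNReal.ofReal_mul' (Real.rpow_nonneg hv0 _)]

theorem pow_eq {f : E → ℝ} (n : ℕ) (hn : Even n) (hn0 : n ≠ 0) (hf : MemLp f n volume) :
    0 ≤ ∫ x, f x ^ n ∧ ENNReal.ofReal (∫ x, f x ^ n) = eLpNorm f n volume ^ n := by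
  have h0 : ∀ x, 0 ≤ f x ^ n := fun x => hn.pow_nonneg _
  refine ⟨integral_nonneg h0, ?_⟩
  have h1 : eLpNorm f n volume ^ n = ∫⁻ x, ENNReal.ofReal (f x ^ n) := by
    have h2 := eLpNorm_nnreal_pow_eq_lintegral (μ := (volume : Measure E)) (f := f)
      (p := (n : ℝ≥0)) (by exact_mod_cast hn0)
    have h3 : eLpNorm f ((n : ℝ≥0) : ℝ≥0∞) volume = eLpNorm f n volume := by
      rw [ENNReal.coe_natCast]
    rw [h3, NNReal.coe_natCast, ENNReal.rpow_natCast] at h2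
    rw [h2]
    refine lintegral_congr fun x => ?_
    rw [ENNReal.rpow_natCast, Real.enorm_eq_ofReal_abs, ← ENNReal.ofReal_pow (abs_nonneg _),
      hn.pow_abs]
  rw [h1, ofReal_integral_eq_lintegral_ofReal _ (Eventually.of_forall h0)]
  have h4 : Integrable (fun x => ‖f x‖ ^ n) volume := hf.integrable_norm_pow hn0
  refine h4.congr (Eventually.of_forall fun x => ?_)
  dsimp only
  rw [Real.norm_eq_abs, hn.pow_abs]

theorem key {f : E → ℝ} {x0 : E} {r A : ℝ} (hr : 0 < r) (hA : 0 ≤ A) (n : ℕ) (hn : Even n)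
    (hn0 : n ≠ 0) (q : ℝ≥0∞) (hq : (n : ℝ≥0∞) ≤ q) (s : ℝ)
    (hs : 1 / (n : ℝ) - 1 / q.toReal = s) (hs0 : 0 ≤ s) (hsn : s * n = 2 / 5)
    (hf : MemLp f q volume) (hfA : eLpNorm f q volume ≤ ENNReal.ofReal A)
    (h0 : ∀ᵐ x, r < dist x x0 → f x = 0) :
    MemLp f n volume ∧ 0 ≤ ∫ x, f x ^ n ∧
      ∫ x, f x ^ n ≤ A ^ n * (volume.real (Metric.ball (0 : E) 1) ^ (2 / 5 : ℝ) * r ^ 2) := by
  have h1 := norm_le hr n q hq s hs hs0 hf hfA h0
  have hm : MemLp f n volume := ⟨hf.aestronglyMeasurable, h1.trans_lt ENNReal.ofReal_lt_top⟩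
  obtain ⟨h2, h3⟩ := pow_eq n hn hn0 hm
  refine ⟨hm, h2, ?_⟩
  have hb0 : 0 ≤ volume.real (Metric.ball (0 : E) 1) := measureReal_nonneg
  have hv0 : 0 ≤ r ^ 5 * volume.real (Metric.ball (0 : E) 1) := mul_nonneg (by positivity) hb0
  have h4 : ENNReal.ofReal (∫ x, f x ^ n) ≤
      ENNReal.ofReal ((A * (r ^ 5 * volume.real (Metric.ball (0 : E) 1)) ^ s) ^ n) := by
    rw [h3, ENNReal.ofReal_pow (mul_nonneg hA (Real.rpow_nonneg hv0 _))]
    exact pow_le_pow_left' h1 n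
  have h5 := (ENNReal.ofReal_le_ofReal_iff
    (pow_nonneg (mul_nonneg hA (Real.rpow_nonneg hv0 _)) n)).1 h4
  refine h5.trans (le_of_eq ?_)
  rw [mul_pow, ← Real.rpow_natCast (_ ^ s) n, ← Real.rpow_mul hv0, hsn,
    Real.mul_rpow (by positivity) hb0, mul_comm (volume.real _ ^ (2 / 5 : ℝ))]
  congr 2
  rw [← Real.rpow_natCast, ← Real.rpow_mul hr.le, ← Real.rpow_natCast]
  congr 1
  norm_num

end C2bx

open C2bx in
/-- **C2b** -/
theorem thm_C2b (hF : St_Fld) (hL : St_Lin) (hE : St_ExF) : St_C2b := by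
  obtain ⟨C, hC, hFld⟩ := hF
  obtain ⟨_, _, hExF⟩ := hE
  set w : ℝ := volume.real (Metric.ball (0 : E) 1) ^ (2 / 5 : ℝ) with hw
  have hw0 : 0 ≤ w := Real.rpow_nonneg measureReal_nonneg _
  refine ⟨(3 * C ^ 2 + C ^ 6) * w + 1, by positivity, ?_⟩
  intro k x0 r hr hvan
  have hopen : IsOpen (ext x0 r) :=
    isOpen_lt (f := fun _ : E => r) (g := fun x : E => dist x x0) continuous_const
      (continuous_id.dist continuous_const)
  -- the fields of the zero element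
  have hz := hL.1 (-1) 0 0
  have hz0 : (0 : K) + (-1 : ℝ) • (0 : K) = 0 := by simp
  rw [hz0] at hz
  obtain ⟨hz1, hz2, hz3, _, _⟩ := hz
  have hEx := (hExF k (ext x0 r) hopen).2.2.2 0 (by rw [sub_zero]; exact hvan)
  have hU : ∀ᵐ x, r < dist x x0 → U k x = 0 := by
    filter_upwards [hEx, hz1] with x h1 h2 hx
    rw [(h1 hx).1, h2]
    ring
  have hV : ∀ᵐ x, r < dist x x0 → V k x = 0 := by
    filter_upwards [hEx, hz2] with x h1 h2 hx
    rw [(h1 hx).2.1, h2]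
    ring
  have hD : ∀ i, ∀ᵐ x, r < dist x x0 → DU k i x = 0 := by
    intro i
    filter_upwards [hEx, hz3 i] with x h1 h2 hx
    rw [(h1 hx).2.2.1 i, h2]
    ring
  obtain ⟨hU10, hVb, hDb, _, _⟩ := hFld k
  have hA : 0 ≤ C * ‖k‖ := by positivity
  have hconv : ENNReal.ofReal C * ‖k‖ₑ = ENNReal.ofReal (C * ‖k‖) := by
    rw [ENNReal.ofReal_mul hC.le, ofReal_norm_eq_enorm]
  rw [hconv] at hU10 hVb
  have h103 : (2 : ℝ≥0∞) ≤ 10 / 3 := by
    rw [ENNReal.le_div_iff_mul_le (Or.inl (by norm_num)) (Or.inl (by norm_num))]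
    norm_num
  have h103r : ((10 / 3 : ℝ≥0∞)).toReal = 10 / 3 := by
    rw [ENNReal.toReal_div]
    norm_num
  have kU := key hr hA 6 (by decide) (by norm_num) 10 (by norm_num) (1 / 15)
    (by norm_num) (by norm_num) (by norm_num) hU10.1 hU10.2 hU
  have kV := key hr hA 2 (by decide) (by norm_num) (10 / 3) (by exact_mod_cast h103) (1 / 5)
    (by rw [h103r]; norm_num) (by norm_num) (by norm_num) hVb.1.1 hVb.2 hV
  have kD : ∀ i, _ := fun i => key hr hA 2 (by decide) (by norm_num) (10 / 3)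
    (by exact_mod_cast h103) (1 / 5) (by rw [h103r]; norm_num) (by norm_num) (by norm_num)
    (hDb i).1 (by have := (hDb i).2.2; rw [hconv] at this; exact this) (hD i)
  rw [← hw] at kU kV
  simp only [← hw] at kD
  refine ⟨⟨fun i => by simpa using (kD i).1, by simpa using kV.1⟩, by simpa using kU.1, ?_, ?_⟩
  · unfold En
    have h1 : 0 ≤ ∑ i, ∫ x, DU k i x ^ 2 := Finset.sum_nonneg fun i _ => (kD i).2.1
    have h2 := kV.2.1
    have h3 := kU.2.1
    positivity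
  · unfold En
    have h1 : ∑ i, ∫ x, DU k i x ^ 2 ≤ 5 * ((C * ‖k‖) ^ 2 * (w * r ^ 2)) := by
      refine (Finset.sum_le_card_nsmul _ _ _ (fun i _ => (kD i).2.2)).trans ?_
      simp
    have h2 := kV.2.2
    have h3 := kU.2.2
    have h4 : 0 ≤ ‖k‖ ^ 2 := by positivity
    have h5 : 0 ≤ ‖k‖ ^ 6 := by positivity
    have h6 : 0 ≤ w * r ^ 2 := by positivity
    have e1 : ((C * ‖k‖) ^ 2 * (w * r ^ 2)) = C ^ 2 * (w * r ^ 2) * ‖k‖ ^ 2 := by ring
    have e2 : ((C * ‖k‖) ^ 6 * (w * r ^ 2)) = C ^ 6 * (w * r ^ 2) * ‖k‖ ^ 6 := by ring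
    rw [e1] at h1 h2
    rw [e2] at h3
    have h7 : (∑ i, ∫ x, DU k i x ^ 2) / 2 + (∫ x, V k x ^ 2) / 2 + (∫ x, U k x ^ 6) / 6 ≤
        3 * (C ^ 2 * (w * r ^ 2) * ‖k‖ ^ 2) + C ^ 6 * (w * r ^ 2) * ‖k‖ ^ 6 := by
      have : 0 ≤ C ^ 6 * (w * r ^ 2) * ‖k‖ ^ 6 := by positivity
      linarith
    refine h7.trans ?_
    have g1 : 0 ≤ C ^ 2 * (w * r ^ 2) * ‖k‖ ^ 6 := by positivity
    have g2 : 0 ≤ C ^ 6 * (w * r ^ 2) * ‖k‖ ^ 2 := by positivity
    have g3 : 0 ≤ r ^ 2 * (‖k‖ ^ 2 + ‖k‖ ^ 6) := by positivity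
    have e3 : ((3 * C ^ 2 + C ^ 6) * w + 1) * r ^ 2 * (‖k‖ ^ 2 + ‖k‖ ^ 6) =
        3 * (C ^ 2 * (w * r ^ 2) * ‖k‖ ^ 2) + C ^ 6 * (w * r ^ 2) * ‖k‖ ^ 6 +
        3 * (C ^ 2 * (w * r ^ 2) * ‖k‖ ^ 6) + C ^ 6 * (w * r ^ 2) * ‖k‖ ^ 2 +
        r ^ 2 * (‖k‖ ^ 2 + ‖k‖ ^ 6) := by ring
    rw [e3]
    linarith

end Pool.Agent.QWE
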