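import Pool.Agent.QWE.StC

/-!
# QWE: the hull of a compact solution (C3)
-/

set_option autoImplicit false

open MeasureTheory Filter Topology Set
open scoped ENNReal NNReal RealInnerProductSpace

namespace Pool.Agent.QWE

namespace C3x

lemma isSol_mono {I J : Set ℝ} {k : ℝ → K} (h : IsSol I k) (hJ : J ⊆ I) (hJo : J.OrdConnected) :
    IsSol J k :=
  ⟨hJo, h.2.1.mono hJ, fun a ha b hb => h.2.2.1 a (hJ ha) b (hJ hb),
    fun s hs t ht => h.2.2.2 s (hJ hs) t (hJ ht)⟩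

/-- a solution which vanishes at one time vanishes -/
lemma eq_zero_of_zero (hU : St_Uniq) (hS : St_Small) {I : Set ℝ} {k : ℝ → K} (h : IsSol I k)
    {s t : ℝ} (hs : s ∈ I) (ht : t ∈ I) (h0 : k s = 0) : k t = 0 := by
  obtain ⟨d0, C, hd0, -, hsm⟩ := hS
  obtain ⟨kz, hkz, hz0, hzb, -⟩ := hsm 0 s (by simpa using hd0.le)
  have h1 := hU I univ k kz s h hkz hs (mem_univ _) (h0.trans hz0.symm) t ht (mem_univ _)
  have h2 := hzb t
  rw [norm_zero, mul_zero] at h2
  rw [h1]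
  exact norm_le_zero_iff.1 h2

end C3x

open C3x in
theorem thm_C3 (hGr : St_GrA) (hGL : St_GLim) (hCSy : St_CSy) (hC2 : St_C2) (hMax : St_MaxE)
    (hStab : St_Stab) (hU : St_Uniq) (hSm : St_Small) : St_C3 := by
  intro Q k x a hk t κn κ hκn hκlim
  obtain ⟨g1, g2, g3, g4, g5, g6, g7, g8, g9, g10⟩ := hGr
  have hQ : IsCompact Q := hk.1
  have hQ0 : (0 : K) ∉ Q := hk.2.1
  have hκQ : κ ∈ Q := hQ.isClosed.mem_of_tendsto hκlim (Eventually.of_forall fun n => (hκn n).1)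
  have hκ0 : κ ≠ 0 := fun h => hQ0 (h ▸ hκQ)
  set kn : ℕ → ℝ → K := fun n s => ig (x (t n)) (a (t n)) (k (t n + Real.exp (-(a (t n))) * s))
    with hkn
  set xn : ℕ → ℝ → E := fun n s =>
    Real.exp (a (t n)) • (x (t n + Real.exp (-(a (t n))) * s) - x (t n)) with hxn
  set an : ℕ → ℝ → ℝ := fun n s => a (t n + Real.exp (-(a (t n))) * s) - a (t n) with han
  have hC : ∀ n, CSol Q univ (kn n) (xn n) (an n) := by
    intro n
    have h := hCSy.1 Q univ k x a hk (x (t n)) (a (t n)) (t n)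
    have h2 : {s : ℝ | t n + Real.exp (-(a (t n))) * s ∈ (univ : Set ℝ)} = univ := by
      ext s
      simp
    rw [h2] at h
    exact h
  have hkn0 : ∀ n, kn n 0 = κn n := by
    intro n
    simp only [hkn, mul_zero, add_zero]
    rw [(hκn n).2]
    exact (g3 (x (t n)) (a (t n)) (κn n)).2
  obtain ⟨I', k', hmax, h0I, hk0, -⟩ := hMax κ 0
  have hsol' : IsSol I' k' := hmax.1
  have hne : ∀ s ∈ I', k' s ≠ 0 := by
    intro s hs h
    exact hκ0 (hk0 ▸ eq_zero_of_zero hU hSm hsol' hs h0I h)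
  -- uniform convergence
  have hunif : ∀ α β : ℝ, α ≤ 0 → 0 ≤ β → Icc α β ⊆ I' → ∀ ε : ℝ, 0 < ε →
      ∀ᶠ n in atTop, ∀ s ∈ Icc α β, ‖kn n s - k' s‖ < ε := by
    intro α β hα hβ hsub ε hε
    obtain ⟨km, hkm, hkm2⟩ := hStab α β 0 k' κn hα hβ (isSol_mono hsol' hsub ordConnected_Icc)
      (by rw [hk0]; exact hκlim)
    filter_upwards [hkm, hkm2 ε hε] with n hn1 hn2 s hs
    have h1 : km n s = kn n s := hU (Icc α β) univ (km n) (kn n) 0 hn1.1 (hC n).2.2.1.1 ⟨hα, hβ⟩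
      (mem_univ _) (by rw [hn1.2, hkn0]) s hs (mem_univ _)
    rw [← h1]
    exact hn2.1 s hs
  -- pointwise convergence
  have hpt : ∀ s ∈ I', Tendsto (fun n => kn n s) atTop (𝓝 (k' s)) := by
    intro s hs
    rw [Metric.tendsto_atTop']
    intro ε hε
    have hsub : Icc (min 0 s) (max 0 s) ⊆ I' := by
      have h1 : uIcc 0 s ⊆ I' := hsol'.1.uIcc_subset h0I hs
      exact h1
    have h2 := hunif (min 0 s) (max 0 s) (min_le_left _ _) (le_max_left _ _) hsub ε hε
    obtain ⟨N, hN⟩ := eventually_atTop.1 h2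
    refine ⟨N, fun n hn => ?_⟩
    rw [dist_eq_norm]
    exact hN n hn.le s ⟨min_le_right _ _, le_max_right _ _⟩
  have hlim : ∀ s ∈ I', ∃ (y' : E) (a' : ℝ) (κ' : K), κ' ∈ Q ∧ k' s = gr y' a' κ' ∧
      ∀ b : ℝ, (∀ᶠ n in atTop, b ≤ an n s) → b ≤ a' := by
    intro s hs
    choose κs hκsQ hκs using fun n => (hC n).2.2.2 s (mem_univ _)
    have h1 : Tendsto (fun n => gr (xn n s) (an n s) (κs n)) atTop (𝓝 (k' s)) :=
      (hpt s hs).congr hκs
    obtain ⟨φ, hφ, y', a', κ', hκ', -, ha', -, he⟩ := hGL Q κs (fun n => xn n s) (fun n => an n s)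
      (k' s) hQ hκsQ h1 (hne s hs)
    refine ⟨y', a', κ', hκ', he, fun b hb => ?_⟩
    exact ge_of_tendsto ha' (hφ.tendsto_atTop.eventually hb)
  choose! x' a' κ' hκ'Q hκ' ha' using hlim
  have hCS : CSol Q I' k' x' a' := ⟨hQ, hQ0, hmax, fun s hs => ⟨κ' s, hκ'Q s hs, hκ' s hs⟩⟩
  have hI : I' = univ := hC2 Q I' k' x' a' hCS
  subst hI
  refine ⟨k', x', a', hCS, hk0, ?_, ?_⟩
  · intro s s0 hs
    have hcont : Tendsto (fun n => k' (s n)) atTop (𝓝 (k' s0)) := by
      have h1 : Continuous k' := continuousOn_univ.1 hsol'.2.1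
      exact (h1.tendsto s0).comp hs
    have hdiff : Tendsto (fun n => kn n (s n) - k' (s n)) atTop (𝓝 0) := by
      rw [Metric.tendsto_atTop']
      intro ε hε
      have h1 := hunif (-|s0| - 1) (|s0| + 1) (by linarith [abs_nonneg s0])
        (by linarith [abs_nonneg s0]) (subset_univ _) ε hε
      have h2 : ∀ᶠ n in atTop, s n ∈ Icc (-|s0| - 1) (|s0| + 1) := by
        refine hs.eventually (Icc_mem_nhds ?_ ?_)
        · have := neg_abs_le s0
          linarith
        · have := le_abs_self s0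
          linarith
      obtain ⟨N, hN⟩ := eventually_atTop.1 (h1.and h2)
      refine ⟨N, fun n hn => ?_⟩
      rw [dist_zero_right]
      exact (hN n hn.le).1 _ (hN n hn.le).2
    have h3 := hdiff.add hcont
    simp only [sub_add_cancel, zero_add] at h3
    exact h3
  · intro s b hb
    exact ha' s (mem_univ _) b hb

end Pool.Agent.QWE
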