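import Pool.Agent.QWE.StC

set_option autoImplicit false

/-!
# QWE, module C5 (real analysis)
-/

open MeasureTheory Filter Topology Set
open scoped ENNReal NNReal RealInnerProductSpace

namespace Pool.Agent.QWE

theorem thm_C5 : St_C5 := by
  intro a hosc T hT
  by_contra hcon
  push Not at hcon
  choose σ hσ hlt using hcon
  obtain ⟨C, hC⟩ := hosc T
  obtain ⟨F, hF⟩ : ∃ F : ℝ → ℝ, F = fun t => t + Real.exp (-(a t)) * σ t := ⟨_, rfl⟩
  have hFa : ∀ t, a (F t) < a t - Real.log 2 := by
    intro t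
    rw [hF]
    exact hlt t
  have hFd : ∀ t, |F t - t| ≤ T * Real.exp (-(a t)) := by
    intro t
    rw [hF]
    change |t + Real.exp (-(a t)) * σ t - t| ≤ _
    rw [add_sub_cancel_left, abs_mul, abs_of_pos (Real.exp_pos _), mul_comm]
    exact mul_le_mul_of_nonneg_right (hσ t) (Real.exp_pos _).le
  have key : ∀ J : ℕ, |F^[J] 0 - 0| ≤ T * Real.exp (-(a (F^[J] 0))) ∧
      a (F^[J] 0) ≤ a 0 - J * Real.log 2 := by
    intro J
    induction J with
    | zero =>
      refine ⟨?_, ?_⟩
      · rw [Function.iterate_zero_apply, sub_self, abs_zero]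
        positivity
      · rw [Function.iterate_zero_apply, Nat.cast_zero, zero_mul, sub_zero]
    | succ J ih =>
      obtain ⟨ih1, ih2⟩ := ih
      rw [Function.iterate_succ_apply']
      obtain ⟨u, hu⟩ : ∃ u, u = F^[J] 0 := ⟨_, rfl⟩
      rw [← hu] at ih1 ih2 ⊢
      have h1 := hFa u
      have h2 := hFd u
      have h3 : 2 * Real.exp (-(a u)) ≤ Real.exp (-(a (F u))) := by
        have h4 : 2 * Real.exp (-(a u)) = Real.exp (Real.log 2 + -(a u)) := by
          rw [Real.exp_add, Real.exp_log (by norm_num)]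
        rw [h4]
        exact Real.exp_le_exp.mpr (by linarith)
      refine ⟨?_, ?_⟩
      · have h5 : |F u - 0| ≤ |F u - u| + |u - 0| := by
          have := abs_add_le (F u - u) (u - 0)
          rwa [sub_add_sub_cancel] at this
        have h6 := mul_le_mul_of_nonneg_left h3 hT.le
        linarith
      · push_cast
        linarith
  obtain ⟨J, hJ⟩ := exists_nat_gt (C / Real.log 2)
  obtain ⟨k1, k2⟩ := key J
  have hlog : 0 < Real.log 2 := Real.log_pos (by norm_num)
  rw [div_lt_iff₀ hlog] at hJ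
  obtain ⟨u, hu⟩ : ∃ u, u = F^[J] 0 := ⟨_, rfl⟩
  rw [← hu] at k1 k2
  have h7 := hC u (Real.exp (a u) * (0 - u)) (by
    rw [abs_mul, abs_of_pos (Real.exp_pos _), abs_sub_comm]
    have h8 := mul_le_mul_of_nonneg_left k1 (Real.exp_pos (a u)).le
    have h9 : Real.exp (a u) * (T * Real.exp (-(a u))) = T := by
      rw [mul_left_comm, ← Real.exp_add, add_neg_cancel, Real.exp_zero, mul_one]
    linarith)
  have h10 : u + Real.exp (-(a u)) * (Real.exp (a u) * (0 - u)) = 0 := by
    rw [← mul_assoc, ← Real.exp_add, neg_add_cancel, Real.exp_zero]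
    ring
  rw [h10] at h7
  linarith

end Pool.Agent.QWE
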