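import Pool.Agent.QWE.StA
import Pool.Agent.QWE.StC

set_option autoImplicit false

/-!
# QWE, CSy: symmetries of compact solutions
-/

open MeasureTheory Filter Topology Set
open scoped ENNReal NNReal RealInnerProductSpace

namespace Pool.Agent.QWE

namespace CSyx

/-- Maximal solutions are transported by symmetries. -/
lemma max_trans (φ ψ : ℝ → ℝ) (h1 : ∀ t, φ (ψ t) = t) (h2 : ∀ s, ψ (φ s) = s)
    (hφ : Continuous φ) (P P' : K → K) (hP : ∀ κ, P' (P κ) = κ)
    (hF : ∀ (I : Set ℝ) (k : ℝ → K), IsSol I k → IsSol {s | φ s ∈ I} (fun s => P (k (φ s))))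
    (hB : ∀ (J : Set ℝ) (k : ℝ → K), IsSol J k → IsSol {t | ψ t ∈ J} (fun t => P' (k (ψ t))))
    (I : Set ℝ) (k : ℝ → K) (hk : IsMax I k) : IsMax {s | φ s ∈ I} (fun s => P (k (φ s))) := by
  obtain ⟨hs, ho, ⟨t0, ht0⟩, hm⟩ := hk
  refine ⟨hF I k hs, ho.preimage hφ, ⟨ψ t0, ?_⟩, ?_⟩
  · show φ (ψ t0) ∈ I
    rw [h1]
    exact ht0
  · intro J k' hk' hJ heq s hsJ
    have h3 := hm {t | ψ t ∈ J} (fun t => P' (k' (ψ t))) (hB J k' hk') (by
      intro t ht
      apply hJ
      show φ (ψ t) ∈ I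
      rw [h1]
      exact ht) (by
      intro t ht
      have h4 : ψ t ∈ {s | φ s ∈ I} := by
        show φ (ψ t) ∈ I
        rw [h1]
        exact ht
      show P' (k' (ψ t)) = k t
      rw [heq _ h4, hP, h1])
    exact h3 (by
      show ψ (φ s) ∈ J
      rw [h2]
      exact hsJ)

end CSyx

open CSyx in
/-- **CSy**. -/
theorem thm_CSy (hG : St_Grp2) (hA : St_GrA) (hS : St_Sym) : St_CSy := by
  obtain ⟨-, -, r1, -, -, -, r2, r3, -, -⟩ := hG
  obtain ⟨g1, -, g3, -, -, -, -, -, -, -⟩ := hA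
  obtain ⟨-, -, -, -, -, -, s7, -⟩ := hS
  constructor
  · intro Q I k x a h y0 a0 t0
    obtain ⟨q1, q2, q3, q4⟩ := h
    refine ⟨q1, q2, ?_, ?_⟩
    · refine max_trans (fun s => t0 + Real.exp (-a0) * s) (fun t => Real.exp a0 * (t + -t0))
        ?_ ?_ (by fun_prop) (ig y0 a0) (gr y0 a0) (fun κ => (g3 y0 a0 κ).1) ?_ ?_ I k q3
      · intro t
        show t0 + Real.exp (-a0) * (Real.exp a0 * (t + -t0)) = t
        rw [← mul_assoc, ← Real.exp_add, neg_add_cancel, Real.exp_zero]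
        ring
      · intro s
        show Real.exp a0 * (t0 + Real.exp (-a0) * s + -t0) = s
        have h1 : Real.exp a0 * (t0 + Real.exp (-a0) * s + -t0) =
            (Real.exp a0 * Real.exp (-a0)) * s := by ring
        rw [h1, ← Real.exp_add, add_neg_cancel, Real.exp_zero, one_mul]
      · intro I k hk
        have h1 := (s7 _ _ hk).1 t0
        have h2 := (s7 _ _ h1).2.2.1 (-a0)
        have h3 := (s7 _ _ h2).2.1 (-(Real.exp a0 • y0))
        have e1 : {s | t0 + Real.exp (-a0) * s ∈ I} = {t | Real.exp (-a0) * t ∈ {t | t + t0 ∈ I}} := by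
          ext s
          show t0 + Real.exp (-a0) * s ∈ I ↔ Real.exp (-a0) * s + t0 ∈ I
          rw [add_comm]
        have e2 : (fun s => ig y0 a0 (k (t0 + Real.exp (-a0) * s))) =
            fun t => sh (-(Real.exp a0 • y0)) (dl (-a0) (k (Real.exp (-a0) * t + t0))) := by
          funext s
          rw [add_comm t0]
          rfl
        rw [e1, e2]
        exact h3
      · intro J k hk
        have h2 := (s7 _ _ hk).2.2.1 a0
        have h3 := (s7 _ _ h2).2.1 y0
        exact (s7 _ _ h3).1 (-t0)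
    · intro t ht
      obtain ⟨κ, hκ, he⟩ := q4 _ ht
      refine ⟨κ, hκ, ?_⟩
      show ig y0 a0 (k (t0 + Real.exp (-a0) * t)) =
        gr (Real.exp a0 • (x (t0 + Real.exp (-a0) * t) - y0)) (a (t0 + Real.exp (-a0) * t) - a0) κ
      rw [he]
      unfold ig
      rw [g1, neg_neg, smul_sub, neg_add_eq_sub, neg_add_eq_sub]
  · intro Q I k x a h
    obtain ⟨q1, q2, q3, q4⟩ := h
    refine ⟨q1.image rev.continuous, ?_, ?_, ?_⟩
    · rintro ⟨κ, hκ, h0⟩
      apply q2
      have h1 : ‖κ‖ = 0 := by rw [← rev.norm_map κ, h0, norm_zero]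
      rwa [← norm_eq_zero.1 h1]
    · refine max_trans (fun s => -s) (fun t => -t) (fun t => neg_neg t) (fun t => neg_neg t)
        continuous_neg rev rev r1 ?_ ?_ I k q3
      · intro I k hk
        exact (s7 _ _ hk).2.2.2
      · intro I k hk
        exact (s7 _ _ hk).2.2.2
    · intro t ht
      obtain ⟨κ, hκ, he⟩ := q4 _ ht
      refine ⟨rev κ, ⟨κ, hκ, rfl⟩, ?_⟩
      show rev (k (-t)) = _
      rw [he]
      unfold gr
      rw [r2, r3]

end Pool.Agent.QWE
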