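import Pool.Agent.QWE.StC

set_option autoImplicit false

/-!
# QWE, block E: the pointwise bound, decay of the exterior norm, end of the proof of (R) (Sections 5 - 7)

Every `St_X` is to be proved as `theorem thm_X : St_X` (with the cited statements `St_Y` as hypotheses) in
`Pool/Agent/QWE/X.lean`. Paper: `/team-store/R5_paper.md`. The statements of StA.lean, StB.lean, StC.lean may be used
as hypotheses. Constants: `κ` is the subluminality gap, `ext y ρ = {x | ρ < dist x y}`.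
-/

open MeasureTheory Filter Topology Set
open scoped ENNReal NNReal RealInnerProductSpace

namespace Pool.Agent.QWE

/-- **Ind** (multiplication operators). Proof: `mulK_coe` for `indK A = mulK (A.indicator 1)`; norms in `L²` are monotone in
`|·|` a.e. (`Lp.norm_le_norm_of_ae_le`). `|1_{A ∪ B}| ≤ |1_A| + |1_B|`, more precisely `1_{A∪B} k = 1_A k + 1_B (1_{A∪B} k) - ..`: use
`indK (A ∪ B) k = indK A k + indK (B \ A) k`. `tau`, `rev`, `sh`: `1_A(ω,p) k(ω,p-s)` is the image under the isometry `tau s` of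
`1_A(ω,p+s) k(ω,p)`; for `rev`: `1_A(ω,p) k(-ω,-p)` is `rev` of `1_A(-ω,-p) k(ω,p)`; for `sh y`:
`1_A(ω,p) k(ω, p - y·ω)` is `sh y` of `1_A(ω, p + y·ω) k(ω,p)`; `θ(ω,p) k(ω, p-s)` likewise. Last part: `|θ| ≤ 1_B`. -/
def St_Ind : Prop :=
  (∀ (A : Set (S × ℝ)) (k : K), MeasurableSet A → (indK A k : S × ℝ → ℝ) =ᵐ[mu] A.indicator k) ∧
  (∀ (A B : Set (S × ℝ)) (k : K), MeasurableSet A → MeasurableSet B → A ⊆ B → ‖indK A k‖ ≤ ‖indK B k‖) ∧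
  (∀ (θ : S × ℝ → ℝ) (k : K), ‖mulK θ k‖ ≤ ‖k‖) ∧
  (∀ (A B : Set (S × ℝ)) (k : K), MeasurableSet A → MeasurableSet B →
    ‖indK (A ∪ B) k‖ ≤ ‖indK A k‖ + ‖indK B k‖) ∧
  (∀ (A : Set (S × ℝ)) (k : K) (s : ℝ), MeasurableSet A →
    indK A (tau s k) = tau s (indK {z | (z.1, z.2 + s) ∈ A} k)) ∧
  (∀ (A : Set (S × ℝ)) (k : K), MeasurableSet A →
    indK A (rev k) = rev (indK {z | (-z.1, -z.2) ∈ A} k)) ∧
  (∀ (A : Set (S × ℝ)) (k : K) (y : E), MeasurableSet A →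
    indK A (sh y k) = sh y (indK {z | (z.1, z.2 + inner ℝ y (z.1 : E)) ∈ A} k)) ∧
  (∀ (θ : S × ℝ → ℝ) (B : Set (S × ℝ)) (k : K), Measurable θ → (∀ z, |θ z| ≤ 1) → MeasurableSet B →
    (∀ z, θ z ≠ 0 → z ∈ B) → ‖mulK θ k‖ ≤ ‖indK B k‖) ∧
  (∀ (θ : S × ℝ → ℝ) (B : Set (S × ℝ)) (k : K), Measurable θ → (∀ z, |θ z| ≤ 1) → MeasurableSet B →
    indK B k = 0 → (∀ z, θ z ≠ 0 → z ∈ B) → mulK θ k = 0)

/-- **NLo** (locality of the nonlinearity). Proof: by NLb the fields of `NL k - NL k'` are `0` and `u⁵ - u'⁵` a.e. (Lin); `U k = U k'` a.e.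
on `Ω` (ExF), so they vanish a.e. on `Ω` and `Van Ω (NL k - NL k')` (ExB). Second part: L8. -/
def St_NLo : Prop :=
  (∀ (Ω : Set E) (k k' : K), IsOpen Ω → sn k < ⊤ → sn k' < ⊤ → Van Ω (k - k') →
    Van Ω (NL k - NL k')) ∧
  ∀ (y : E) (ρ : ℝ) (k k' : K), 0 ≤ ρ → sn k < ⊤ → sn k' < ⊤ → Van (ext y ρ) (k - k') →
    indK {z | ρ < |z.2 - inner ℝ y (z.1 : E)|} (NL k - NL k') = 0

/-- **NLi** (integrability of the source along a solution). Proof: `k` is continuous on `I`, hence bounded by some `B` on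
`[a,b]`, `SN (Icc a b) k < ⊤`, so `sn (k t) < ⊤` for a.e. `t`, `t ↦ NL (k t)` is a.e. strongly measurable on `[a,b]` (Meas), and
`∫ ‖NL (k t)‖ ≤ C B ∫ sn⁴ < ∞` (NLb). Duhamel from `t0` to `t`, moved back by `tau (t0 - t)` (a bounded operator commutes with the
integral; `tau (t0 - t) (tau (t - r) w) = tau (t0 - r) w`). -/
def St_NLi : Prop := ∀ (I : Set ℝ) (k : ℝ → K), IsSol I k →
  (∀ a ∈ I, ∀ b ∈ I, IntegrableOn (fun t => NL (k t)) (Icc a b) volume ∧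
    ∀ᵐ t ∂(volume.restrict (Icc a b)), sn (k t) < ⊤) ∧
  ∀ t0 ∈ I, ∀ t ∈ I, tau (t0 - t) (k t) = k t0 - ∫ r in t0..t, tau (t0 - r) (NL (k r))

/-- **P1a** (the pointwise bound, outgoing side; paper P1). Proof. `d0, C` of St_Ext, `Ω = ext (y t0) ρ`, `k'` the exterior solution
with `k' t0 = pr Ω (k t0)`. For `s ≥ 0`: `Van (ext (y t0) (ρ+s)) (k (t0+s) - k' (t0+s))` (`ext (y t0) (ρ+s) ⊆ shr Ω s`), so by NLo
`indK {ρ + s < z.2 - y(t0)·ω} (NL (k (t0+s)) - NL (k' (t0+s))) = 0` whenever both `sn` are finite (a.e. `s`). Let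
`A = {z | ρ < z.2 - ⟪y t0, z.1⟫}`. By Ind `indK A (tau (-s) w) = tau (-s) (indK {z | ρ + s < z.2 - y(t0)·ω} w)`. NLi (with `t = t0 + s`):
`indK A (k t0) = indK A (tau (-s) (k (t0+s))) + ∫_{t0}^{t0+s} indK A (tau (t0-r) (NL (k r))) dr`, and in the integral `NL (k r)` may be
replaced by `NL (k' r)`. First term: on `{ρ + s < z.2 - y(t0)·ω}` one has
`z.2 - y(t0+s)·ω > ρ + s - dist(y(t0+s), y(t0)) ≥ ρ + κ s`, so its norm is `≤ ‖indK {ρ + κ s < |z.2 - y(t0+s)·ω|} (k (t0+s))‖ ≤ ex (ext (y (t0+s)) (ρ + κ s)) (k (t0+s))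
≤ m (ρ + κ s) → 0` (L8) as `s → ∞`. Second term: norm `≤ ∫ ‖NL (k' r)‖ dr ≤ C ex^5`. Let `s → ∞`. -/
def St_P1a : Prop := ∃ d C : ℝ, 0 < d ∧ 0 < C ∧ ∀ (κ A : ℝ) (m : ℝ → ℝ) (k : ℝ → K) (y : ℝ → E),
  0 < κ → κ < 1 → Pth κ A m k y → Tendsto m atTop (𝓝 0) → ∀ t ρ : ℝ, 0 ≤ ρ →
  ex (ext (y t) ρ) (k t) ≤ d →
  ‖indK {z | ρ < z.2 - inner ℝ (y t) (z.1 : E)} (k t)‖ ≤ C * ex (ext (y t) ρ) (k t) ^ 5

/-- **PSy** (symmetries of paths). Proof: St_Sym for `IsSol univ`, `tau`-free; `ex (ext y ρ) (sh z k) = ex (ext (y - z) ρ) k` (Act or GrA with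
`a = 0`), `ex (ext y ρ) (rev k) = ex (ext y ρ) k` (Act). -/
def St_PSy : Prop := ∀ (κ A : ℝ) (m : ℝ → ℝ) (k : ℝ → K) (y : ℝ → E), Pth κ A m k y →
  Pth κ A m (fun t => rev (k (-t))) (fun t => y (-t)) ∧
  (∀ t ρ, ex (ext (y (-t)) ρ) (rev (k (-t))) = ex (ext (y (-t)) ρ) (k (-t))) ∧
  ∀ t0 : ℝ, Pth κ A m (fun t => sh (-(y t0)) (k (t0 + t))) (fun t => y (t0 + t) - y t0) ∧
    ∀ ρ, ex (ext 0 ρ) (sh (-(y t0)) (k t0)) = ex (ext (y t0) ρ) (k t0)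

/-- **P1** (the pointwise bound, both sides). Proof: P1a; for the incoming side apply P1a to the reversed path (PSy) at the time `-t`:
`{z | ρ < z.2 - y·ω}` becomes under `rev` the set `{z | ρ < -(z.2 - y·ω)}` (Ind). The set `{ρ < |z.2 - y·ω|}` is the union of the
two. -/
def St_P1 : Prop := ∃ d C : ℝ, 0 < d ∧ 0 < C ∧ ∀ (κ A : ℝ) (m : ℝ → ℝ) (k : ℝ → K) (y : ℝ → E),
  0 < κ → κ < 1 → Pth κ A m k y → Tendsto m atTop (𝓝 0) → ∀ t ρ : ℝ, 0 ≤ ρ →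
  ex (ext (y t) ρ) (k t) ≤ d →
  ‖indK {z | ρ < |z.2 - inner ℝ (y t) (z.1 : E)|} (k t)‖ ≤ C * ex (ext (y t) ρ) (k t) ^ 5

/-- **P3a** (decomposition at time `0`). Proof: NLi with `t0 = 0`, `t = T`: `k 0 = tau (-T) (k T) + ∫_0^T tau (-r) (NL (k r)) dr`; apply the
bounded operator `mulK θ` and add `k 0 = mulK (1-θ) (k 0) + mulK θ (k 0)` (a.e. formula `mulK_coe`). -/
def St_P3a : Prop := ∀ (k : ℝ → K), IsSol univ k → ∀ θ : S × ℝ → ℝ, Measurable θ →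
  (∀ z, 0 ≤ θ z ∧ θ z ≤ 1) → ∀ T : ℝ, 0 ≤ T →
  IntervalIntegrable (fun s => mulK θ (tau (-s) (NL (k s)))) volume 0 T ∧
  k 0 = mulK (fun z => 1 - θ z) (k 0) + mulK θ (tau (-T) (k T)) +
    ∫ s in (0 : ℝ)..T, mulK θ (tau (-s) (NL (k s)))

/-- **P3b** (the first two terms; (i) and (ii) of the paper). Proof. `R > 0`, `T = R/κ + R/12`. (i) `1 - θ(p/R)` vanishes for
`|p| ≤ κ R/24` and `y 0 = 0`: norm `≤ ‖indK {κR/24 < |z.2|} (k 0)‖ ≤ C m(κR/24)^5` (Ind, P1, `ex .. ≤ m(κR/24) ≤ d`; `m ≥ 0` as it bounds `ex`; `x ↦ x⁵`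
monotone). (ii) `mulK θ (tau (-T) w) = tau (-T) (mulK θ(.. (z.2 - T)/R) w)`; on the support `|z.2 - T| < κR/12`, and `‖y T‖ ≤ (1-κ) T`, so
`z.2 - y(T)·ω > T - κR/12 - (1-κ) T = κ T - κR/12 = R`; P1 at the time `T` with `ρ = R`, `m R ≤ m(κR/24) ≤ d`. -/
def St_P3b : Prop := ∃ d : ℝ, 0 < d ∧ ∃ C : ℝ, 0 < C ∧ ∀ (κ A : ℝ) (m : ℝ → ℝ) (k : ℝ → K) (y : ℝ → E)
  (θ : ℝ → ℝ) (R : ℝ), 0 < κ → κ < 1 → Pth κ A m k y → Antitone m → Tendsto m atTop (𝓝 0) → y 0 = 0 →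
  Measurable θ → (∀ p, 0 ≤ θ p ∧ θ p ≤ 1) → (∀ p, |p| ≤ κ / 24 → θ p = 1) → (∀ p, κ / 12 ≤ |p| → θ p = 0) →
  0 < R → m (κ / 24 * R) ≤ d →
  ‖mulK (fun z => 1 - θ (z.2 / R)) (k 0)‖ ≤ C * m (κ / 24 * R) ^ 5 ∧
  ‖mulK (fun z => θ (z.2 / R)) (tau (-(R / κ + R / 12)) (k (R / κ + R / 12)))‖ ≤ C * m (κ / 24 * R) ^ 5

/-- **Core** (the source in the core; (iii) of the paper). Proof. `F := 1_{closedBall y r} (u⁵ - u'⁵)` (`u = U k`, `u' = U k'`): `u = u'` a.e. outside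
(ExF), so `F = u⁵ - u'⁵` a.e., `G i := 5 u⁴ DU k i - 5 u'⁴ DU k' i`; NLb gives all integrability and `WD`. `NL k - NL k' = Gam F`: GamE for `F`, NLb for
`k, k'`, uniqueness of `IsGam` (Dens: `TS univ = ⊤`). `∫ |F| ≤ ∫_{ball} |u|⁵ + ∫_{ball} |u'|⁵` (the sphere is a null set) and Hoelder with
`L²`: `∫_{ball y r} |u'|⁵ ≤ (vol)^{1/2} ‖u'‖_{10}^5 ≤ C r^{5/2} ‖k'‖^5` (Fld). -/
def St_Core : Prop := ∃ C : ℝ, 0 < C ∧ ∀ (k k' : K) (y : E) (r : ℝ), 0 < r → sn k < ⊤ → sn k' < ⊤ →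
  Van (ext y r) (k - k') →
  ∃ (F : E → ℝ) (G : Fin 5 → E → ℝ), MemLp F 2 volume ∧ MemLp F (10 / 3) volume ∧
    (∀ i, MemLp (G i) 2 volume ∧ WD i F (G i)) ∧ (∀ x, r < dist x y → F x = 0) ∧
    NL k - NL k' = Gam F ∧ Integrable F volume ∧
    ∫ x, |F x| ≤ (∫ x in Metric.ball y r, |U k x| ^ 5) + C * r ^ (5 / 2 : ℝ) * ‖k'‖ ^ 5

/-- **P3c** (near field estimate of the core source; (iv) of the paper). Proof from Core, NLo, NF, Ind. Put `c = κ/24`, `r = c R`, `F, G` of Core with `y = Y`.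
(1) `s > R/8`: `w := NL k - NL k'` satisfies `indK {cR < |z.2 - Y·ω|} w = 0` (NLo). `mulK θ(./R) (tau (-s) w) = tau (-s) (mulK (θ((z.2 - s)/R)) w)`, and
where `θ((z.2-s)/R) ≠ 0`: `z.2 > s - κR/12`, `z.2 - Y·ω > s - κR/12 - (1-κ) s = κ s - κR/12 > κR/8 - κR/12 = κR/24`. So the product vanishes.
(2) `s ≤ R/8`: `F = 0` for `|x| > R/4`, as `‖Y‖ + cR ≤ (1-κ) R/8 + κR/24 ≤ R/4`. NF (its `θ` vanishes for `|p| ≥ 1/12`, fine since `κ < 1`)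
gives `ex (ext 0 R) (..) ≤ C R^{-7/2} ∫ |F|`; Core with `r = cR ≤ R` bounds `∫ |F|` (`ball Y (cR) ⊆ ball Y R`, `|u|⁵` is integrable on balls). -/
def St_P3c : Prop := ∀ (κ : ℝ) (θ : ℝ → ℝ), 0 < κ → κ < 1 → Sm θ → (∀ p, 0 ≤ θ p ∧ θ p ≤ 1) →
  (∀ p, κ / 12 ≤ |p| → θ p = 0) → ∃ C : ℝ, 0 < C ∧ ∀ (R s : ℝ) (k k' : K) (Y : E), 0 < R → 0 ≤ s →
  ‖Y‖ ≤ (1 - κ) * s → sn k < ⊤ → sn k' < ⊤ → Van (ext Y (κ / 24 * R)) (k - k') →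
  (R / 8 < s → mulK (fun z => θ (z.2 / R)) (tau (-s) (NL k - NL k')) = 0) ∧
  (s ≤ R / 8 → ex (ext 0 R) (mulK (fun z => θ (z.2 / R)) (tau (-s) (NL k - NL k'))) ≤
    C * R ^ (-(7 / 2 : ℝ)) * ((∫ x in Metric.ball Y R, |U k x| ^ 5) + R ^ (5 / 2 : ℝ) * ‖k'‖ ^ 5))

/-- **P3d** (exterior solutions on short time intervals). Proof: St_Ext with `Ω = ext (y t1) ρ` (`ex ≤ m ρ ≤ d`), and
`ext (y t) (2ρ) ⊆ shr Ω |t - t1|` for `|t - t1| ≤ ρ/2`: `dist x (y t1) ≥ dist x (y t) - |t - t1| > 2ρ - ρ/2 ≥ ρ + |t-t1|`; `Van` is antitone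
in the set. `0 ≤ ex ≤ m ρ`, powers monotone. -/
def St_P3d : Prop := ∃ d C : ℝ, 0 < d ∧ 0 < C ∧ ∀ (κ A : ℝ) (m : ℝ → ℝ) (k : ℝ → K) (y : ℝ → E),
  0 < κ → κ < 1 → Pth κ A m k y → ∀ ρ t1 : ℝ, 0 < ρ → m ρ ≤ d →
  ∃ k' : ℝ → K, IsSol univ k' ∧ (∀ t, ‖k' t‖ ≤ 2 * m ρ) ∧ Integrable (fun t => NL (k' t)) volume ∧
    ∫ t, ‖NL (k' t)‖ ≤ C * m ρ ^ 5 ∧
    ∀ t, |t - t1| ≤ ρ / 2 → Van (ext (y t) (2 * ρ)) (k t - k' t)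

/-- **P3e** (the Duhamel term). Proof from P3c, P3d, NLi, Ind. `ρ = κR/48` (so `2ρ = κR/24`), `T = R/κ + R/12`, `J = J(κ)` with
`J ρ/2 ≥ T`, `t_n = n ρ/2`, `k'_n` of P3d for `t1 = t_n`. For a.e. `s ∈ I_n = [t_n, t_{n+1}] ∩ [0,T]` all `sn` are finite (NLi for `k` and `k'_n`) and
`‖y s‖ ≤ (1-κ) s` (`y 0 = 0`). `ex (ext 0 R) (·) = ‖pr (·)‖` and `pr` is a bounded operator, so
`ex (∫_{I_n} mulK θ (tau (-s) (NL (k s)))) ≤ ∫_{I_n} ‖NL (k'_n s)‖ ds + ∫_{I_n} ex (mulK θ (tau (-s) (NL (k s) - NL (k'_n s)))) ds`. The first is `≤ C m(ρ)^5`. In the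
second the integrand is `0` for `s > R/8`, and for `s ≤ R/8` at most `C R^{-7/2} (B + R^{5/2} (2 m(ρ))^5)` (P3c). Sum over `n < J`: the sum of the second terms is at most
`(R/8) C R^{-7/2} (B + 32 R^{5/2} m(ρ)^5)`. -/
def St_P3e : Prop := ∃ d : ℝ, 0 < d ∧ ∀ (κ : ℝ) (θ : ℝ → ℝ), 0 < κ → κ < 1 → Sm θ →
  (∀ p, 0 ≤ θ p ∧ θ p ≤ 1) → (∀ p, κ / 12 ≤ |p| → θ p = 0) → ∃ C : ℝ, 0 < C ∧
  ∀ (A : ℝ) (m : ℝ → ℝ) (k : ℝ → K) (y : ℝ → E) (R B : ℝ), 0 < R → Pth κ A m k y → y 0 = 0 →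
    m (κ / 48 * R) ≤ d → (∀ t, ∫ x in Metric.ball (y t) R, |U (k t) x| ^ 5 ≤ B) →
    ex (ext 0 R) (∫ s in (0 : ℝ)..(R / κ + R / 12), mulK (fun z => θ (z.2 / R)) (tau (-s) (NL (k s)))) ≤
      C * m (κ / 48 * R) ^ 5 + C * R ^ (-(5 / 2 : ℝ)) * B

/-- **L5B** (`L⁵` norm on a ball by dyadic annuli). Proof: `ball y (2^{n+1})` is the union of `ball y 1` and of
`{2^j ≤ dist x y < 2^{j+1}}`, `j ≤ n`. On `ball y 1`: `∫ |u|⁵ ≤ C ‖u‖_{10}^5 ≤ C ‖k‖^5` (Cauchy-Schwarz). On the annulus (up to a null set contained in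
`ext y (2^j)`): `∫ |u|⁵ ≤ (vol B(2^{j+1}))^{1/2} ‖1_{ext y 2^j} u‖_{10}^5 ≤ C 2^{5j/2} (C ex (ext y 2^j) k)^5` (ExF). -/
def St_L5B : Prop := ∃ C : ℝ, 0 < C ∧ ∀ (k : K) (y : E) (m : ℝ → ℝ) (A : ℝ), ‖k‖ ≤ A →
  (∀ ρ, ex (ext y ρ) k ≤ m ρ) → ∀ n : ℕ,
  ∫ x in Metric.ball y (2 ^ (n + 1)), |U k x| ^ 5 ≤
    C * (A ^ 5 + ∑ j ∈ Finset.range (n + 1), (2 : ℝ) ^ ((5 / 2 : ℝ) * j) * m (2 ^ j) ^ 5)

/-- **P3** (the nonlinear recursion at time `0`). Proof from P3a, P3b, P3e, L5B. Choose `θ` smooth with `θ = 1` for `|p| ≤ κ/24`, `θ = 0` for `|p| ≥ κ/12`,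
`0 ≤ θ ≤ 1` (ContDiffBump), `M` with `2^{-M} ≤ κ/48`, `n0 ≥ M` so large that `m(2^{n0-M}) ≤ d` (the smaller of the two `d`). `R = 2^n`,
`T = R/κ + R/12`. P3a with the function `z ↦ θ(z.2/R)`: `ex (ext 0 R) (k 0) ≤ ‖first‖ + ‖second‖ + ex (ext 0 R) (integral)` (`ex ≤ ‖·‖`,
subadditive). `m(κR/24), m(κR/48) ≤ m(2^{n-M})`. P3e with `B = C (A^5 + Σ_{j ≤ n} 2^{5j/2} m(2^j)^5)` (L5B for each time, `ball (y t) (2^n) ⊆ ball (y t) (2^{n+1})`);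
`A` may be replaced by `max A 1`. `R^{-5/2} = 2^{-(5/2) n}`. -/
def St_P3 : Prop := ∀ (κ A : ℝ) (m : ℝ → ℝ), 0 < κ → κ < 1 → Antitone m → Tendsto m atTop (𝓝 0) →
  ∃ (C : ℝ) (M n0 : ℕ), M ≤ n0 ∧ ∀ (k : ℝ → K) (y : ℝ → E), Pth κ A m k y → y 0 = 0 → ∀ n : ℕ, n0 ≤ n →
    ex (ext 0 (2 ^ n)) (k 0) ≤ C * m (2 ^ (n - M)) ^ 5 + C * (2 : ℝ) ^ (-(5 / 2 : ℝ) * n) *
      (1 + ∑ j ∈ Finset.range (n + 1), (2 : ℝ) ^ ((5 / 2 : ℝ) * j) * m (2 ^ j) ^ 5)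

/-- **P4r** (a sequence lemma; paper P4). Proof. Put `b_n = 2^{3n/2} e_n` and `μ_n = max_{j ≤ n} b_j`. WLOG `C ≥ 0` (replace by `|C|`). Let `δ > 0` be small, `n1` with `e_j ≤ δ` for `j ≥ n1`. For
`n ≥ n0 + n1 + M`: `2^{3n/2} C e_{n-M}^5 ≤ C 2^{3M/2} δ⁴ b_{n-M} ≤ C 2^{3M/2} δ⁴ μ_n`;
`2^{3n/2} C 2^{-5n/2} (1 + Σ_{j<n1} 2^{5j/2} e_j^5) ≤ C'(n1)`; `C 2^{-n} Σ_{n1 ≤ j ≤ n} 2^{5j/2} e_j^5 ≤ C 2^{-n} Σ_{j ≤ n} 2^{j} δ⁴ b_j ≤ 2 C δ⁴ μ_n`. So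
`b_n ≤ C' + (C 2^{3M/2} + 2C) δ⁴ μ_n ≤ C' + μ_n/2` for `δ` small; hence `μ_n ≤ max(μ_{n-1}, 2C')` and `μ` is bounded. -/
def St_P4r : Prop := ∀ (e : ℕ → ℝ) (C : ℝ) (M n0 : ℕ), (∀ n, 0 ≤ e n) → Tendsto e atTop (𝓝 0) → M ≤ n0 →
  (∀ n, n0 ≤ n → e n ≤ C * e (n - M) ^ 5 + C * (2 : ℝ) ^ (-(5 / 2 : ℝ) * n) *
    (1 + ∑ j ∈ Finset.range (n + 1), (2 : ℝ) ^ ((5 / 2 : ℝ) * j) * e j ^ 5)) →
  ∃ D : ℝ, 0 < D ∧ ∀ n, e n ≤ D * (2 : ℝ) ^ (-(3 / 2 : ℝ) * n)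

/-- **P4** (decay of the exterior norm). Proof: `m = epsb k y` is antitone (`ext` is antitone in `ρ`, `ex` monotone, suprema of functions bounded by `A`)
and `≥ 0`. P3 for the translated paths `t ↦ sh (-(y t0)) (k (t0+t))` (PSy), all with the same `κ, A, m`: the bound for `ex (ext (y t0) (2^n)) (k t0)` for every `t0`,
hence for the supremum `epsb k y (2^n)`; P4r with `e n = epsb k y (2^n)`. -/
def St_P4 : Prop := ∀ (κ A : ℝ) (k : ℝ → K) (y : ℝ → E), 0 < κ → κ < 1 → Pth κ A (epsb k y) k y →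
  Tendsto (epsb k y) atTop (𝓝 0) →
  ∃ D : ℝ, 0 < D ∧ ∀ (n : ℕ) (t : ℝ), ex (ext (y t) (2 ^ n)) (k t) ≤ D * (2 : ℝ) ^ (-(3 / 2 : ℝ) * n)

/-- **NPth** (a normalised compact solution with a subluminal centre is a path). Proof: `‖k t‖ = ‖κ_t‖ ≤ A := sup_Q ‖·‖` (GrA). All suprema are bounded by `A` (ExB), so
`ex (ext (y t) ρ) (k t) ≤ epsb k y ρ`. `ext (y t) ρ ⊆ ext (x t) (ρ - C)`, so by Tgt `epsb k y ρ ≤ ε` for `ρ ≥ R0 + C`. `IsSol univ k` from `IsMax`. -/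
def St_NPth : Prop := ∀ Q k x a, NSol Q k x a → ∀ (y : ℝ → E) (κ C : ℝ), 0 < κ → κ < 1 →
  (∀ s t : ℝ, dist (y t) (y s) ≤ (1 - κ) * |t - s|) → (∀ t, dist (x t) (y t) ≤ C) →
  (∃ A : ℝ, Pth κ A (epsb k y) k y) ∧ Tendsto (epsb k y) atTop (𝓝 0)

/-- **E1** (energy tails). Proof. `u = U k`. Annuli `{2^j < dist x y ≤ 2^{j+1}}`, `j ≥ n`, contained in `ext y (2^j)`; Hoelder
(`2/(10/3) + 2/5 = 1`): `∫ |DU k i|² ≤ (C 2^{5(j+1)})^{2/5} ‖1_{ext} DU k i‖²_{10/3} ≤ C 2^{2j} ex² ≤ C D² 2^{2j-3j} = C D² 2^{-j}` (ExF), the same for `V k`;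
`∫ u⁶ ≤ (C 2^{5(j+1)})^{2/5} ‖1_{ext} u‖_{10}^6 ≤ C 2^{2j} D⁶ 2^{-9j} ≤ C D⁶ 2^{-j}`. Sum over `j ≥ n` (countable union, monotone convergence). On `closedBall y 1`:
Hoelder with the full norms (Fld). So all three functions are square (resp. sixth power) integrable. -/
def St_E1 : Prop := ∀ D : ℝ, ∃ C : ℝ, 0 < C ∧ ∀ (k : K) (y : E), ‖k‖ ≤ D →
  (∀ n : ℕ, ex (ext y (2 ^ n)) k ≤ D * (2 : ℝ) ^ (-(3 / 2 : ℝ) * n)) →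
  FE k ∧ MemLp (U k) 6 volume ∧ ∀ n : ℕ,
    (∑ i, ∫ x in ext y (2 ^ n), DU k i x ^ 2) + (∫ x in ext y (2 ^ n), V k x ^ 2) +
      (∫ x in ext y (2 ^ n), U k x ^ 6) ≤ C * (2 : ℝ) ^ (-(n : ℝ))

/-- **UV0** (the position cannot vanish on a time interval). Proof. `U (k s) = 0` a.e. for `s ∈ [0,1]` gives `NL (k s) = 0` (its fields are `0` and `u⁵ = 0`, NLb, Dens), so
`k s = tau s (k 0)` on `[0,1]`. For a test function `φ`: `0 = ∫ U (k s) φ = ⟨tau s (k 0), Rk φ⟩ = ⟨k 0, tau (-s) (Rk φ)⟩` for `s ∈ [0,1]` (UTest); the function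
`s ↦ tau (-s) (Rk φ)` is differentiable with derivative `dRk φ` at `0` (RadT: `Rad φ(ω, p+s)`, uniform convergence of the difference quotients with compact supports; or WEq), so
`⟨k 0, dRk φ⟩ = 0` and `⟨k 0, Rk φ⟩ = 0`: `k 0 ⊥ TS univ = K` (Dens). -/
def St_UV0 : Prop := ∀ (k : ℝ → K), IsSol univ k →
  (∀ᵐ s ∂(volume.restrict (Icc (0 : ℝ) 1)), U (k s) =ᵐ[volume] 0) → k 0 = 0

/-- **E3a** (lower bound near the core). Proof from C3, Lsc, UV0, Act, GrA. Otherwise for each `n` there is `t_n` with (C1 = n+1, c' = 1/(n+1)) failure. With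
`k_n(s) = ig (x t_n) (a t_n) (k (t_n + e^{-a(t_n)} s))`, i.e. `U (k (t_n + e^{-a} s)) z = e^{a/2} U (k_n s) (e^a (z - x t_n))` (Act), the change of variables
(`e^{3a} e^{-5a} e^{-a} = e^{-3a}`) turns this into `∫_0^1 ∫_{|z| ≤ n+1} |U (k_n s)|⁶ dz ds < 1/(n+1)`. Write `k(t_n) = gr .. κ_n`, `κ_n ∈ Q`; subsequence `κ_n → κ`; C3: `k_n(s) → k'(s)` for every `s`. Lsc (`p = 6`,
`B = closedBall 0 M`) and Fatou in `s`: `∫_0^1 ∫_{|z| ≤ M} |U (k' s)|⁶ ≤ liminf = 0` for every `M`. So `U (k' s) = 0` a.e. for a.e. `s ∈ [0,1]`, `k' 0 = 0` (UV0),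
but `k' 0 = κ ∈ Q`, `0 ∉ Q`. -/
def St_E3a : Prop := ∀ Q k x a, CSol Q univ k x a → ∃ C1 c' : ℝ, 0 < C1 ∧ 0 < c' ∧ ∀ t : ℝ,
  ENNReal.ofReal (c' * Real.exp (-(3 * a t))) ≤
    ∫⁻ s in Icc t (t + Real.exp (-(a t))),
      ∫⁻ z in Metric.closedBall (x t) (C1 * Real.exp (-(a t))), ENNReal.ofReal (U (k s) z ^ 6)

/-- **E3** (the frequency scale is unbounded). Proof (paper E3). Suppose `a t ≤ L` for all `t`. E3a; `e^{-a(t)} ≤ 2`, so for `s ∈ [t, t + e^{-a(t)}] ⊆ [t, t+2]` and `z` in the ball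
`‖z‖ ≤ ‖x t‖ + 2 C1 ≤ ‖y 0‖ + |t| + C + 2 C1`, `√(1+‖z‖²) ≤ 1 + ‖z‖ ≤ C'' (1 + |t|)`. So
`∫⁻_{[t,t+2]} ∫⁻ ofReal (u⁶/⟨z⟩) ≥ c' e^{-3L}/(C'' (1+|t|))`. For `t = 2n`, `n < N`, the intervals are disjoint up to end points and contained in `[0, 2N]`: the integral over `[0,2N]` is
at least `Σ_{n<N} c'''/(1+2n)`, unbounded (harmonic series), but it is `≤ ofReal (C En (k 0))` by the hypothesis. -/
def St_E3 : Prop := ∀ Q k x a, NSol Q k x a → ∀ (y : ℝ → E) (C B : ℝ),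
  (∀ s t : ℝ, dist (y t) (y s) ≤ |t - s|) → (∀ t, dist (x t) (y t) ≤ C) →
  (∀ T : ℝ, 0 < T → ∫⁻ t in Icc 0 T, ∫⁻ z, ENNReal.ofReal (U (k t) z ^ 6 / √(1 + ‖z‖ ^ 2)) ≤
    ENNReal.ofReal B) →
  ∀ L : ℝ, ∃ t, L < a t

/-- **E4a** (splitting of the energy). Proof. `E ⊆ ext y R ∪ closedBall x ρ ∪ (closedBall y R ∩ ext x ρ)`. On `closedBall x ρ` Hoelder as in C2b:
`≤ C ρ² (A² + A⁶)`. On the third set: `≤ C R² (e² + e⁶)`, `e = ex (ext x ρ) k`, by Hoelder with `‖1_{ext x ρ} DU‖_{10/3} ≤ C e` etc. (ExF). -/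
def St_E4a : Prop := ∀ A : ℝ, ∃ C : ℝ, 0 < C ∧ ∀ (k : K) (x y : E) (ρ R : ℝ), ‖k‖ ≤ A → FE k →
  MemLp (U k) 6 volume → 0 < ρ → 0 < R →
  En k ≤ (∑ i, ∫ z in ext y R, DU k i z ^ 2) + (∫ z in ext y R, V k z ^ 2) +
    (∫ z in ext y R, U k z ^ 6) + C * ρ ^ 2 + C * R ^ 2 * (ex (ext x ρ) k ^ 2 + ex (ext x ρ) k ^ 6)

/-- **E4** (the energy is zero). Proof. `A ≥ sup_Q ‖·‖`, `A ≥ D`. `FE (k t)` and the tails by E1 (with `D' = max A D`). Let `ε > 0`; choose `R = 2^n` with tail `≤ ε`, `ρ > 0` with `C ρ² ≤ ε`, then by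
hypothesis `t_j` with `a(t_j) ≥ j`: `e_j = ex (ext (x t_j) ρ) (k t_j) = ex (ext 0 (e^{a(t_j)} ρ)) κ_j → 0` (GrA, Tga). E4a: `En (k t_j) ≤ 2ε + C R² (e_j² + e_j⁶) → 2ε`. Energy conservation: `En (k 0) = En (k t_j)`; so
`0 ≤ En (k 0) ≤ 2ε` for all `ε`, `En (k 0) = 0`, `k 0 = 0` (Z1); but `k 0 ≠ 0`. -/
def St_E4 : Prop := ∀ Q k x a, NSol Q k x a → ∀ (y : ℝ → E) (D : ℝ),
  (∀ (n : ℕ) (t : ℝ), ex (ext (y t) (2 ^ n)) (k t) ≤ D * (2 : ℝ) ^ (-(3 / 2 : ℝ) * n)) →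
  (∀ L : ℝ, ∃ t, L < a t) → False

/-- **D5** (statement of Section 4, proved in block D): a normalised compact solution is subluminal. See StD.lean for the proof. -/
def St_D5 : Prop := ∀ Q k x a, NSol Q k x a → ∃ (y : ℝ → E) (κ C : ℝ), 0 < κ ∧ κ < 1 ∧
  (∀ s t : ℝ, dist (y t) (y s) ≤ (1 - κ) * |t - s|) ∧ ∀ t, dist (x t) (y t) ≤ C

/-- **R** (rigidity, THEOREM (R)). Proof. Suppose `k t ≠ 0` for some `t ∈ I`. C0: `CSol Q' I k x a`; C2: `I = univ`; C6: a normalised compact solution, again called `k`. D5: `y, κ, C`. NPth: `Pth κ A (epsb k y) k y`,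
`epsb → 0`. P4: `ex (ext (y t) (2^n)) (k t) ≤ D 2^{-3n/2}`. E1 (with `max D A`): `FE (k 0)`. Mor on `[0,T]` (restrict the solution to `Icc 0 T`): the hypothesis of E3 with `B = C En (k 0)`. E3: `a` is unbounded above. E4: `False`. -/
def St_R : Prop := ∀ (I : Set ℝ) (k : ℝ → K) (Q : Set K) (x : ℝ → E) (a : ℝ → ℝ), IsMax I k →
  IsCompact Q → (∀ t ∈ I, ∃ κ ∈ Q, k t = gr (x t) (a t) κ) → ∀ t ∈ I, k t = 0

end Pool.Agent.QWE
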