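import Pool.Agent.QWE.StA
import Pool.Agent.QWE.StE

/-!
# QWE, module Core: the source in the core
-/

set_option autoImplicit false

open MeasureTheory Filter Topology Set
open scoped ENNReal NNReal RealInnerProductSpace ContDiff

namespace Pool.Agent.QWE

namespace Corex

private lemma test_pd (i : Fin 5) {φ : E → ℝ} (h : IsTest φ) : IsTest (pd i φ) := by
  refine ⟨?_, h.2.fderiv_apply ℝ _⟩
  exact (h.1.fderiv_right (m := ∞) (by simp)).clm_apply contDiff_const

private lemma test_two {φ : E → ℝ} (h : IsTest φ) : MemLp φ 2 volume :=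
  h.1.continuous.memLp_of_hasCompactSupport h.2

private lemma int_mul {f φ : E → ℝ} (hf : MemLp f 2 volume) (h : IsTest φ) :
    Integrable (fun x => f x * φ x) volume := hf.integrable_mul (test_two h)

/-- an element of `K` is determined by its products with the test states -/
private lemma orth (k : K) (hU : ∀ φ, IsTest φ → inner ℝ k (Rk φ) = 0)
    (hV : ∀ φ, IsTest φ → inner ℝ k (dRk φ) = 0) (hT : TS univ = ⊤) : k = 0 := by
  have hk : k ∈ TS univ := by
    rw [hT]
    exact Submodule.mem_top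
  have h1 : ∀ w ∈ Submodule.span ℝ {w : K | ∃ φ, IsTest φ ∧ tsupport φ ⊆ univ ∧
      (w = Rk φ ∨ w = dRk φ)}, inner ℝ k w = 0 := by
    intro w hw
    induction hw using Submodule.span_induction with
    | mem w hw =>
      obtain ⟨φ, hφ, -, h | h⟩ := hw
      · rw [h]
        exact hU φ hφ
      · rw [h]
        exact hV φ hφ
    | zero => exact inner_zero_right _
    | add x y _ _ hx hy => rw [inner_add_right, hx, hy, add_zero]
    | smul c x _ hx => rw [inner_smul_right, hx, mul_zero]
  have h2 : closure ((Submodule.span ℝ {w : K | ∃ φ, IsTest φ ∧ tsupport φ ⊆ univ ∧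
      (w = Rk φ ∨ w = dRk φ)} : Submodule ℝ K) : Set K) ⊆ {w : K | inner ℝ k w = 0} := by
    refine closure_minimal (fun w hw => h1 w hw) ?_
    exact isClosed_eq (by fun_prop) continuous_const
  have h3 : inner ℝ k k = 0 := by
    have h4 : k ∈ closure ((Submodule.span ℝ {w : K | ∃ φ, IsTest φ ∧ tsupport φ ⊆ univ ∧
      (w = Rk φ ∨ w = dRk φ)} : Submodule ℝ K) : Set K) := by
      rw [← Submodule.topologicalClosure_coe]
      exact hk
    exact h2 h4
  exact inner_self_eq_zero.1 h3

private lemma wd_sub (i : Fin 5) {f f' g g' : E → ℝ} (hf : MemLp f 2 volume)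
    (hf' : MemLp f' 2 volume) (hg : MemLp g 2 volume) (hg' : MemLp g' 2 volume)
    (h : WD i f g) (h' : WD i f' g') : WD i (fun x => f x - f' x) (fun x => g x - g' x) := by
  intro φ hφ
  have e1 : ∀ x, (f x - f' x) * pd i φ x = f x * pd i φ x - f' x * pd i φ x := fun x => by ring
  have e2 : ∀ x, (g x - g' x) * φ x = g x * φ x - g' x * φ x := fun x => by ring
  simp only [e1, e2]
  rw [integral_sub (int_mul hf (test_pd i hφ)) (int_mul hf' (test_pd i hφ)),
    integral_sub (int_mul hg hφ) (int_mul hg' hφ), h φ hφ, h' φ hφ]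
  ring

private lemma wd_congr (i : Fin 5) {f f' g : E → ℝ} (he : f' =ᵐ[volume] f) (h : WD i f g) :
    WD i f' g := by
  intro φ hφ
  rw [← h φ hφ]
  refine integral_congr_ae ?_
  filter_upwards [he] with x hx
  rw [hx]

/-- Hoelder's inequality on a ball -/
private lemma holder (u : E → ℝ) (hu : MemLp u 10 volume) (y : E) (r : ℝ) :
    IntegrableOn (fun x => |u x| ^ 5) (Metric.ball y r) volume ∧
    ∫ x in Metric.ball y r, |u x| ^ 5 ≤
      (eLpNorm u 10 volume).toReal ^ 5 * (volume (Metric.ball y r)).toReal ^ (1 / 2 : ℝ) := by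
  have hfin : volume (Metric.ball y r) < ⊤ := measure_ball_lt_top
  have : IsFiniteMeasure (volume.restrict (Metric.ball y r)) := ⟨by simpa using hfin⟩
  have h10 : MemLp u 10 (volume.restrict (Metric.ball y r)) := hu.restrict _
  have h5 : MemLp u 5 (volume.restrict (Metric.ball y r)) :=
    h10.mono_exponent (by norm_num)
  have hint : IntegrableOn (fun x => |u x| ^ 5) (Metric.ball y r) volume := by
    have := h5.integrable_norm_pow (p := 5) (by norm_num)
    exact this
  refine ⟨hint, ?_⟩
  have h1 : eLpNorm u 5 (volume.restrict (Metric.ball y r)) ≤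
      eLpNorm u 10 volume * volume (Metric.ball y r) ^ (1 / 10 : ℝ) := by
    have h := eLpNorm_le_eLpNorm_mul_rpow_measure_univ (μ := volume.restrict (Metric.ball y r))
      (f := u) (p := 5) (q := 10) (by norm_num) h10.1
    rw [Measure.restrict_apply_univ] at h
    have e : (1 / (5 : ℝ≥0∞).toReal - 1 / (10 : ℝ≥0∞).toReal) = (1 / 10 : ℝ) := by
      simp only [ENNReal.toReal_ofNat]
      norm_num
    rw [e] at h
    refine h.trans ?_
    gcongr
    exact Measure.restrict_le_self
  have h2 : (eLpNorm u 5 (volume.restrict (Metric.ball y r))).toReal ≤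
      (eLpNorm u 10 volume).toReal * (volume (Metric.ball y r)).toReal ^ (1 / 10 : ℝ) := by
    have h3 := ENNReal.toReal_mono (ENNReal.mul_ne_top hu.2.ne
      (ENNReal.rpow_ne_top_of_nonneg (by norm_num) hfin.ne)) h1
    rwa [ENNReal.toReal_mul, ← ENNReal.toReal_rpow] at h3
  have h4 : (eLpNorm u 5 (volume.restrict (Metric.ball y r))).toReal ^ 5 =
      ∫ x in Metric.ball y r, |u x| ^ 5 := by
    have h0 : 0 ≤ ∫ x in Metric.ball y r, |u x| ^ 5 := integral_nonneg fun x => by positivity
    rw [h5.eLpNorm_eq_integral_rpow_norm (by norm_num) (by norm_num)]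
    have e : ∫ x in Metric.ball y r, ‖u x‖ ^ (5 : ℝ≥0∞).toReal =
        ∫ x in Metric.ball y r, |u x| ^ 5 := by
      refine integral_congr_ae (Eventually.of_forall fun x => ?_)
      change ‖u x‖ ^ (5 : ℝ≥0∞).toReal = |u x| ^ 5
      rw [ENNReal.toReal_ofNat, Real.rpow_ofNat, Real.norm_eq_abs]
    rw [e, ENNReal.toReal_ofReal (by positivity), ENNReal.toReal_ofNat, ← Real.rpow_natCast,
      ← Real.rpow_mul h0]
    norm_num
  rw [← h4]
  calc (eLpNorm u 5 (volume.restrict (Metric.ball y r))).toReal ^ 5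
      ≤ ((eLpNorm u 10 volume).toReal * (volume (Metric.ball y r)).toReal ^ (1 / 10 : ℝ)) ^ 5 := by
        gcongr
    _ = _ := by
        rw [mul_pow]
        congr 1
        rw [← Real.rpow_natCast, ← Real.rpow_mul ENNReal.toReal_nonneg]
        norm_num

private lemma vol_ball (y : E) {r : ℝ} (hr : 0 < r) :
    (volume (Metric.ball y r)).toReal ^ (1 / 2 : ℝ) =
      (volume (Metric.ball (0 : E) 1)).toReal ^ (1 / 2 : ℝ) * r ^ (5 / 2 : ℝ) := by
  rw [Measure.addHaar_ball _ _ hr.le, ENNReal.toReal_mul,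
    ENNReal.toReal_ofReal (by positivity), mul_comm,
    Real.mul_rpow ENNReal.toReal_nonneg (by positivity)]
  congr 1
  rw [finrank_euclideanSpace_fin, ← Real.rpow_natCast, ← Real.rpow_mul hr.le]
  norm_num

end Corex

open Corex

theorem thm_Core (hDens : St_Dens) (hFld : St_Fld) (hGamE : St_GamE) (hNLb : St_NLb)
    (hExF : St_ExF) : St_Core := by
  obtain ⟨C0, hC0, hF⟩ := hFld
  obtain ⟨C1, hC1, hE⟩ := hExF
  obtain ⟨-, hN⟩ := hNLb
  have hv1 : 0 ≤ (volume (Metric.ball (0 : E) 1)).toReal ^ (1 / 2 : ℝ) := by positivity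
  refine ⟨C0 ^ 5 * (volume (Metric.ball (0 : E) 1)).toReal ^ (1 / 2 : ℝ) + 1, by positivity, ?_⟩
  intro k k' y r hr hk hk' hvan
  obtain ⟨a2, a3, aG, -, -, aD⟩ := hN k hk
  obtain ⟨b2, b3, bG, -, -, bD⟩ := hN k' hk'
  have hΩ : IsOpen (ext y r) := isOpen_lt continuous_const (continuous_id.dist continuous_const)
  have hae := (hE k (ext y r) hΩ).2.2.2 k' hvan
  let F0 : E → ℝ := fun x => U k x ^ 5 - U k' x ^ 5
  let F : E → ℝ := (Metric.closedBall y r).indicator F0
  let G : Fin 5 → E → ℝ := fun i x => 5 * U k x ^ 4 * DU k i x - 5 * U k' x ^ 4 * DU k' i x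
  have hFF : F =ᵐ[volume] F0 := by
    filter_upwards [hae] with x hx
    by_cases h : x ∈ Metric.closedBall y r
    · exact Set.indicator_of_mem h F0
    · change (Metric.closedBall y r).indicator F0 x = F0 x
      rw [Set.indicator_of_notMem h]
      have h1 : x ∈ ext y r := by
        change r < dist x y
        exact not_le.1 fun h' => h (Metric.mem_closedBall.2 h')
      change (0 : ℝ) = U k x ^ 5 - U k' x ^ 5
      rw [(hx h1).1, sub_self]
  have m2 : MemLp F0 2 volume := a2.sub b2
  have m3 : MemLp F0 (10 / 3) volume := a3.sub b3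
  have f2 : MemLp F 2 volume := (memLp_congr_ae hFF).2 m2
  have f3 : MemLp F (10 / 3) volume := (memLp_congr_ae hFF).2 m3
  have hG : ∀ i, MemLp (G i) 2 volume ∧ WD i F (G i) := by
    intro i
    refine ⟨(aD i).1.sub (bD i).1, ?_⟩
    exact wd_congr i hFF (wd_sub i a2 b2 (aD i).1 (bD i).1 (aD i).2.1 (bD i).2.1)
  have hout : ∀ x, r < dist x y → F x = 0 := by
    intro x hx
    have h : x ∉ Metric.closedBall y r := fun h => not_lt.2 (Metric.mem_closedBall.1 h) hx
    exact Set.indicator_of_notMem h F0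
  have hUk : MemLp (U k) 10 volume := (hF k).1.1
  have hUk' : MemLp (U k') 10 volume := (hF k').1.1
  have hsph : (Metric.ball y r : Set E) =ᵐ[volume] Metric.closedBall y r :=
    ae_eq_set.2 ⟨by rw [Set.sdiff_eq_empty.2 Metric.ball_subset_closedBall, measure_empty], by
      rw [Metric.closedBall_sdiff_ball]
      exact Measure.addHaar_sphere _ _ _⟩
  obtain ⟨i1, j1⟩ := holder (U k) hUk y r
  obtain ⟨i2, j2⟩ := holder (U k') hUk' y r
  have hFi : Integrable F volume := by
    have h1 : MemLp F 2 (volume.restrict (Metric.closedBall y r)) := f2.restrict _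
    have hfin : volume (Metric.closedBall y r) < ⊤ := measure_closedBall_lt_top
    have : IsFiniteMeasure (volume.restrict (Metric.closedBall y r)) := ⟨by simpa using hfin⟩
    have h2 : IntegrableOn F (Metric.closedBall y r) volume := h1.integrable (by norm_num)
    exact h2.integrable_of_forall_notMem_eq_zero fun x hx => hout x (not_le.1 hx)
  refine ⟨F, G, f2, f3, hG, hout, ?_, hFi, ?_⟩
  · obtain ⟨hg, -⟩ := hGamE F G f2 f3 hG
    have h0 : NL k - NL k' - Gam F = 0 := by
      refine orth _ (fun φ hφ => ?_) (fun φ hφ => ?_) hDens.1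
      · rw [inner_sub_left, inner_sub_left, (aG φ hφ).1, (bG φ hφ).1, (hg φ hφ).1]
        ring
      · rw [inner_sub_left, inner_sub_left, (aG φ hφ).2, (bG φ hφ).2, (hg φ hφ).2]
        have h1 : ∫ x, F x * φ x = (∫ x, U k x ^ 5 * φ x) - ∫ x, U k' x ^ 5 * φ x := by
          rw [← integral_sub (int_mul a2 hφ) (int_mul b2 hφ)]
          refine integral_congr_ae ?_
          filter_upwards [hFF] with x hx
          rw [hx]
          change (U k x ^ 5 - U k' x ^ 5) * φ x = _
          ring
        rw [h1]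
        ring
    exact sub_eq_zero.1 h0
  · have s1 : ∫ x, |F x| = ∫ x in Metric.ball y r, |F x| := by
      rw [setIntegral_congr_set hsph]
      refine (setIntegral_eq_integral_of_forall_compl_eq_zero fun x hx => ?_).symm
      rw [hout x (not_le.1 hx), abs_zero]
    have s2 : ∫ x in Metric.ball y r, |F x| ≤
        ∫ x in Metric.ball y r, (|U k x| ^ 5 + |U k' x| ^ 5) := by
      refine setIntegral_mono_on hFi.abs.integrableOn (i1.add i2) measurableSet_ball ?_
      intro x hx
      have h1 : F x = U k x ^ 5 - U k' x ^ 5 :=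
        Set.indicator_of_mem (Metric.ball_subset_closedBall hx) F0
      rw [h1, ← abs_pow, ← abs_pow]
      exact abs_sub _ _
    rw [integral_add i1 i2] at s2
    have s3 : ∫ x in Metric.ball y r, |U k' x| ^ 5 ≤
        (C0 ^ 5 * (volume (Metric.ball (0 : E) 1)).toReal ^ (1 / 2 : ℝ) + 1) *
          r ^ (5 / 2 : ℝ) * ‖k'‖ ^ 5 := by
      have h1 : (eLpNorm (U k') 10 volume).toReal ≤ C0 * ‖k'‖ := by
        have h2 := (hF k').1.2
        have h3 := ENNReal.toReal_mono (ENNReal.mul_ne_top ENNReal.ofReal_ne_top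
          enorm_ne_top) h2
        rwa [ENNReal.toReal_mul, ENNReal.toReal_ofReal hC0.le, toReal_enorm] at h3
      have h4 : 0 ≤ r ^ (5 / 2 : ℝ) := by positivity
      calc ∫ x in Metric.ball y r, |U k' x| ^ 5
          ≤ (eLpNorm (U k') 10 volume).toReal ^ 5 *
            (volume (Metric.ball y r)).toReal ^ (1 / 2 : ℝ) := j2
        _ ≤ (C0 * ‖k'‖) ^ 5 *
            ((volume (Metric.ball (0 : E) 1)).toReal ^ (1 / 2 : ℝ) * r ^ (5 / 2 : ℝ)) := by
            rw [vol_ball y hr]
            gcongr
        _ = (C0 ^ 5 * (volume (Metric.ball (0 : E) 1)).toReal ^ (1 / 2 : ℝ)) *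
            r ^ (5 / 2 : ℝ) * ‖k'‖ ^ 5 := by ring
        _ ≤ _ := by
            gcongr
            linarith
    rw [s1]
    linarith

end Pool.Agent.QWE
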