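import Pool.Agent.QWE.StA

set_option autoImplicit false

/-!
# QWE, Cut: cut-off at infinity (helper52)
-/

open MeasureTheory Filter Topology Set
open scoped ENNReal NNReal RealInnerProductSpace ContDiff Pointwise

namespace Pool.Agent.QWE

namespace Cutx

/-! ### test functions -/

private lemma sm_pd (i : Fin 5) {φ : E → ℝ} (h : ContDiff ℝ ∞ φ) : ContDiff ℝ ∞ (pd i φ) :=
  (h.fderiv_right (m := ∞) (by simp)).clm_apply contDiff_const

private lemma test_pd (i : Fin 5) {φ : E → ℝ} (h : IsTest φ) : IsTest (pd i φ) :=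
  ⟨sm_pd i h.1, h.2.fderiv_apply ℝ _⟩

private lemma tsupport_pd (i : Fin 5) (φ : E → ℝ) : tsupport (pd i φ) ⊆ tsupport φ :=
  tsupport_fderiv_apply_subset ℝ _

private lemma sm_lap {φ : E → ℝ} (h : ContDiff ℝ ∞ φ) : ContDiff ℝ ∞ (lap φ) :=
  ContDiff.sum fun i _ => sm_pd i (sm_pd i h)

private lemma lap_zero {φ : E → ℝ} {x : E} (h : x ∉ tsupport φ) : lap φ x = 0 := by
  refine Finset.sum_eq_zero fun i _ => ?_
  exact image_eq_zero_of_notMem_tsupport fun h2 => h (tsupport_pd i φ (tsupport_pd i _ h2))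

private lemma test_lap {φ : E → ℝ} (h : IsTest φ) : IsTest (lap φ) :=
  ⟨sm_lap h.1, HasCompactSupport.intro h.2 fun _ hx => lap_zero hx⟩

private lemma test_sub {f g : E → ℝ} (hf : IsTest f) (hg : IsTest g) : IsTest fun x => f x - g x :=
  ⟨hf.1.sub hg.1, hf.2.sub hg.2⟩

private lemma test_mul {χ f : E → ℝ} (hχ : ContDiff ℝ ∞ χ) (hf : IsTest f) :
    IsTest fun x => χ x * f x :=
  ⟨hχ.mul hf.1, hf.2.mul_left⟩

private lemma sch {f : E → ℝ} (hf : IsTest f) : IsSch f :=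
  ⟨hf.2.toSchwartzMap hf.1, fun _ => rfl⟩

private lemma test_memLp {f : E → ℝ} (hf : IsTest f) (p : ℝ≥0∞) : MemLp f p volume :=
  hf.1.continuous.memLp_of_hasCompactSupport hf.2

private lemma test_int2 {f g : E → ℝ} (hf : IsTest f) (hg : IsTest g) :
    Integrable (fun x => f x * g x) volume :=
  (hf.1.continuous.mul hg.1.continuous).integrable_of_hasCompactSupport hg.2.mul_left

/-! ### testing -/

private lemma orth_span (s : Set K) (k : K) :
    k ∈ (Submodule.span ℝ s)ᗮ ↔ ∀ u ∈ s, inner ℝ k u = 0 := by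
  constructor
  · intro h u hu
    exact (Submodule.mem_orthogonal' _ _).1 h u (Submodule.subset_span hu)
  · intro h
    rw [Submodule.mem_orthogonal']
    intro u hu
    induction hu using Submodule.span_induction with
    | mem x hx => exact h x hx
    | zero => exact inner_zero_right _
    | add x y _ _ hx hy => rw [inner_add_right, hx, hy, add_zero]
    | smul a x _ hx => rw [inner_smul_right, hx, mul_zero]

private lemma van_iff (Ω : Set E) (k : K) : Van Ω k ↔ ∀ φ, IsTest φ → tsupport φ ⊆ Ω →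
    inner ℝ k (Rk φ) = 0 ∧ inner ℝ k (dRk φ) = 0 := by
  unfold Van TS
  rw [Submodule.orthogonal_closure, orth_span]
  constructor
  · intro h φ h1 h2
    exact ⟨h _ ⟨φ, h1, h2, Or.inl rfl⟩, h _ ⟨φ, h1, h2, Or.inr rfl⟩⟩
  · rintro h u ⟨φ, h1, h2, rfl | rfl⟩
    · exact (h φ h1 h2).1
    · exact (h φ h1 h2).2

private lemma eq_of_test (hD : TS univ = ⊤) (k k' : K)
    (h : ∀ φ, IsTest φ → inner ℝ k (Rk φ) = inner ℝ k' (Rk φ) ∧
      inner ℝ k (dRk φ) = inner ℝ k' (dRk φ)) : k = k' := by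
  have h1 : Van univ (k - k') := by
    rw [van_iff]
    intro φ hφ _
    rw [inner_sub_left, inner_sub_left, (h φ hφ).1, (h φ hφ).2, sub_self, sub_self]
    exact ⟨rfl, rfl⟩
  unfold Van at h1
  rw [hD, Submodule.top_orthogonal_eq_bot, Submodule.mem_bot] at h1
  exact sub_eq_zero.1 h1

private lemma inner_Theta (hU : St_UTest) (hLin : St_Lin) {f g φ : E → ℝ} (hf : IsTest f)
    (hg : IsTest g) (hφ : IsTest φ) :
    inner ℝ (Theta f g) (Rk φ) = ∫ x, f x * φ x ∧ inner ℝ (Theta f g) (dRk φ) = ∫ x, g x * φ x := by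
  obtain ⟨a1, a2, -⟩ := hLin.2.1 f g hf hg
  constructor
  · rw [← hU.2.2 (Theta f g) φ (sch hφ)]
    refine integral_congr_ae ?_
    filter_upwards [a1] with x hx
    rw [hx]
  · rw [← hLin.2.2 (Theta f g) φ (sch hφ)]
    refine integral_congr_ae ?_
    filter_upwards [a2] with x hx
    rw [hx]

private lemma Theta_sub (hD : TS univ = ⊤) (hU : St_UTest) (hLin : St_Lin) {f g f' g' : E → ℝ}
    (hf : IsTest f) (hg : IsTest g) (hf' : IsTest f') (hg' : IsTest g') :
    Theta f g - Theta f' g' = Theta (fun x => f x - f' x) (fun x => g x - g' x) := by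
  refine eq_of_test hD _ _ fun φ hφ => ?_
  obtain ⟨a1, a2⟩ := inner_Theta hU hLin hf hg hφ
  obtain ⟨b1, b2⟩ := inner_Theta hU hLin hf' hg' hφ
  obtain ⟨c1, c2⟩ := inner_Theta hU hLin (test_sub hf hf') (test_sub hg hg') hφ
  rw [inner_sub_left, inner_sub_left, a1, a2, b1, b2, c1, c2,
    ← integral_sub (test_int2 hf hφ) (test_int2 hf' hφ),
    ← integral_sub (test_int2 hg hφ) (test_int2 hg' hφ)]
  constructor
  · refine integral_congr_ae (Eventually.of_forall fun x => ?_)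
    ring
  · refine integral_congr_ae (Eventually.of_forall fun x => ?_)
    ring

/-! ### the norm of test states -/

private lemma c0_pos : 0 < c0 := by unfold c0; positivity

private lemma c0_le : c0 ≤ 1 := by
  unfold c0
  have h1 : (1 : ℝ) ≤ Real.pi := by linarith [Real.pi_gt_three]
  have h2 : (1 : ℝ) ≤ Real.pi ^ 4 := one_le_pow₀ h1
  rw [div_le_one (by positivity)]
  linarith

private lemma sq_int {h : E → ℝ} (hh : IsTest h) :
    ∫ x, h x * h x = (eLpNorm h 2 volume).toReal ^ 2 := by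
  have h1 := (test_memLp hh 2).eLpNorm_eq_integral_rpow_norm (by norm_num) (by norm_num)
  have h2 : ∫ x, ‖h x‖ ^ (2 : ℝ≥0∞).toReal = ∫ x, h x * h x := by
    refine integral_congr_ae (Eventually.of_forall fun x => ?_)
    simp only [ENNReal.toReal_ofNat, Real.rpow_two, Real.norm_eq_abs, sq_abs]
    ring
  rw [h2] at h1
  have h3 : 0 ≤ ∫ x, h x * h x := integral_nonneg fun x => mul_self_nonneg _
  rw [h1, ENNReal.toReal_ofReal (by positivity), ← Real.rpow_natCast, ← Real.rpow_mul h3]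
  norm_num

private lemma real_bd (a : ℝ) (b : Fin 5 → ℝ) (ha : 0 ≤ a) (hb : ∀ i, 0 ≤ b i) :
    c0 * (a ^ 2 + ∑ i, b i ^ 2) ≤ (a + ∑ i, b i) ^ 2 := by
  obtain ⟨B, hB⟩ : ∃ B : ℝ, B = ∑ i, b i := ⟨_, rfl⟩
  have hB0 : 0 ≤ B := by rw [hB]; exact Finset.sum_nonneg fun i _ => hb i
  have h1 : ∑ i, b i ^ 2 ≤ B ^ 2 := by
    calc ∑ i, b i ^ 2 ≤ ∑ i, b i * B := by
          refine Finset.sum_le_sum fun i _ => ?_
          rw [sq]
          refine mul_le_mul_of_nonneg_left ?_ (hb i)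
          rw [hB]
          exact Finset.single_le_sum (fun j _ => hb j) (Finset.mem_univ i)
      _ = B ^ 2 := by rw [← Finset.sum_mul, ← hB, sq]
  have h2 : 0 ≤ ∑ i, b i ^ 2 := Finset.sum_nonneg fun i _ => sq_nonneg _
  rw [← hB]
  calc c0 * (a ^ 2 + ∑ i, b i ^ 2) ≤ 1 * (a ^ 2 + ∑ i, b i ^ 2) :=
        mul_le_mul_of_nonneg_right c0_le (add_nonneg (sq_nonneg a) h2)
    _ ≤ (a + B) ^ 2 := by nlinarith [mul_nonneg ha hB0]

private lemma norm_Theta (hLin : St_Lin) (hIP : St_IP) {f g : E → ℝ} (hf : IsTest f)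
    (hg : IsTest g) :
    ‖Theta f g‖ₑ ≤ eLpNorm (lap f) 2 volume + ∑ i, eLpNorm (pd i g) 2 volume := by
  obtain ⟨-, -, -, a4, a5⟩ := hLin.2.1 f g hf hg
  have h1 : LU (Theta f g) =ᵐ[volume] lap f := by
    have : ∀ᵐ x, ∀ i, DDU (Theta f g) i i x = pd i (pd i f) x := eventually_all.2 fun i => a4 i i
    filter_upwards [this] with x hx
    exact Finset.sum_congr rfl fun i _ => hx i
  have h2 : ‖Theta f g‖ ^ 2 = c0 * ((∫ x, lap f x * lap f x) + ∑ i, ∫ x, pd i g x * pd i g x) := by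
    rw [← real_inner_self_eq_norm_sq, hIP (Theta f g) (Theta f g)]
    congr 2
    · refine integral_congr_ae ?_
      filter_upwards [h1] with x hx
      rw [hx]
    · refine Finset.sum_congr rfl fun i _ => integral_congr_ae ?_
      filter_upwards [a5 i] with x hx
      rw [hx]
  obtain ⟨a, ha⟩ : ∃ a : ℝ, a = (eLpNorm (lap f) 2 volume).toReal := ⟨_, rfl⟩
  obtain ⟨b, hb⟩ : ∃ b : Fin 5 → ℝ, b = fun i => (eLpNorm (pd i g) 2 volume).toReal := ⟨_, rfl⟩
  have ha0 : 0 ≤ a := by rw [ha]; exact ENNReal.toReal_nonneg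
  have hb0 : ∀ i, 0 ≤ b i := fun i => by rw [hb]; exact ENNReal.toReal_nonneg
  have h3 : ‖Theta f g‖ ^ 2 ≤ (a + ∑ i, b i) ^ 2 := by
    rw [h2, sq_int (test_lap hf), ← ha]
    have h4 : ∑ i, ∫ x, pd i g x * pd i g x = ∑ i, b i ^ 2 :=
      Finset.sum_congr rfl fun i _ => by rw [hb]; exact sq_int (test_pd i hg)
    rw [h4]
    exact real_bd a b ha0 hb0
  have h8 : ‖Theta f g‖ ≤ a + ∑ i, b i :=
    le_of_sq_le_sq h3 (add_nonneg ha0 (Finset.sum_nonneg fun i _ => hb0 i))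
  have h9 : eLpNorm (lap f) 2 volume = ENNReal.ofReal a := by
    rw [ha]
    exact (ENNReal.ofReal_toReal (test_memLp (test_lap hf) 2).eLpNorm_ne_top).symm
  have h10 : ∀ i, eLpNorm (pd i g) 2 volume = ENNReal.ofReal (b i) := fun i => by
    rw [hb]
    exact (ENNReal.ofReal_toReal (test_memLp (test_pd i hg) 2).eLpNorm_ne_top).symm
  rw [h9]
  simp_rw [h10]
  rw [← ENNReal.ofReal_sum_of_nonneg fun i _ => hb0 i, ← ENNReal.ofReal_add ha0
    (Finset.sum_nonneg fun i _ => hb0 i), ← ofReal_norm]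
  exact ENNReal.ofReal_le_ofReal h8

/-! ### product rules -/

private lemma df {f : E → ℝ} (hf : ContDiff ℝ ∞ f) (x : E) : DifferentiableAt ℝ f x :=
  hf.differentiable (by simp) x

private lemma pd_mul (i : Fin 5) {χ f : E → ℝ} (hχ : ContDiff ℝ ∞ χ) (hf : ContDiff ℝ ∞ f)
    (x : E) : pd i (fun y => χ y * f y) x = χ x * pd i f x + pd i χ x * f x := by
  unfold pd
  rw [fderiv_fun_mul (df hχ x) (df hf x)]
  simp only [_root_.add_apply, _root_.smul_apply, smul_eq_mul]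
  ring

private lemma pd_add (i : Fin 5) {χ f : E → ℝ} (hχ : ContDiff ℝ ∞ χ) (hf : ContDiff ℝ ∞ f)
    (x : E) : pd i (fun y => χ y + f y) x = pd i χ x + pd i f x := by
  unfold pd
  rw [fderiv_fun_add (df hχ x) (df hf x)]
  rfl

private lemma pd2_mul (i : Fin 5) {χ f : E → ℝ} (hχ : ContDiff ℝ ∞ χ) (hf : ContDiff ℝ ∞ f)
    (x : E) : pd i (pd i (fun y => χ y * f y)) x =
      χ x * pd i (pd i f) x + 2 * (pd i χ x * pd i f x) + pd i (pd i χ) x * f x := by
  have h1 : pd i (fun y => χ y * f y) = fun x => χ x * pd i f x + pd i χ x * f x :=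
    funext fun y => pd_mul i hχ hf y
  rw [h1, pd_add i (hχ.mul (sm_pd i hf)) ((sm_pd i hχ).mul hf),
    pd_mul i hχ (sm_pd i hf), pd_mul i (sm_pd i hχ) hf]
  ring

private lemma lap_mul {χ f : E → ℝ} (hχ : ContDiff ℝ ∞ χ) (hf : ContDiff ℝ ∞ f)
    (x : E) : lap (fun y => χ y * f y) x =
      χ x * lap f x + (∑ i, 2 * (pd i χ x * pd i f x)) + lap χ x * f x := by
  unfold lap
  rw [Finset.mul_sum, Finset.sum_mul, ← Finset.sum_add_distrib, ← Finset.sum_add_distrib]
  exact Finset.sum_congr rfl fun i _ => pd2_mul i hχ hf x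

/-! ### the cut-off functions -/

/-- the fixed bump function -/
private noncomputable def bet : ContDiffBump (0 : E) := ⟨1, 2, one_pos, one_lt_two⟩

private lemma bet_sm : ContDiff ℝ ∞ bet := bet.contDiff

/-- the cut-off functions -/
private noncomputable def chi (M : ℕ) (x : E) : ℝ := bet (((M : ℝ) + 1)⁻¹ • x)

private lemma chi_sm (M : ℕ) : ContDiff ℝ ∞ (chi M) :=
  bet_sm.comp (contDiff_const_smul _)

private lemma chi_nonneg (M : ℕ) (x : E) : 0 ≤ chi M x := bet.nonneg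

private lemma chi_le (M : ℕ) (x : E) : chi M x ≤ 1 := bet.le_one

private lemma M_pos (M : ℕ) : (0 : ℝ) < (M : ℝ) + 1 := by positivity

private lemma norm_sc (M : ℕ) (x : E) : ‖((M : ℝ) + 1)⁻¹ • x‖ = ((M : ℝ) + 1)⁻¹ * ‖x‖ := by
  rw [norm_smul, Real.norm_of_nonneg (inv_nonneg.2 (M_pos M).le)]

private lemma chi_one (M : ℕ) (x : E) (h : ‖x‖ ≤ M + 1) : chi M x = 1 := by
  refine bet.one_of_mem_closedBall ?_
  rw [Metric.mem_closedBall, dist_zero_right, norm_sc]
  change ((M : ℝ) + 1)⁻¹ * ‖x‖ ≤ 1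
  rw [inv_mul_le_iff₀ (M_pos M), mul_one]
  exact h

private lemma chi_zero (M : ℕ) (x : E) (h : 2 * ((M : ℝ) + 1) ≤ ‖x‖) : chi M x = 0 := by
  refine bet.zero_of_le_dist ?_
  rw [dist_zero_right, norm_sc]
  change (2 : ℝ) ≤ ((M : ℝ) + 1)⁻¹ * ‖x‖
  rw [le_inv_mul_iff₀ (M_pos M)]
  linarith

private lemma chi_ts (M : ℕ) : tsupport (chi M) ⊆ Metric.closedBall 0 (2 * ((M : ℝ) + 1)) := by
  refine closure_minimal ?_ Metric.isClosed_closedBall
  intro x hx
  rw [Metric.mem_closedBall, dist_zero_right]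
  by_contra h
  exact hx (chi_zero M x (not_le.1 h).le)

private lemma pd_sc (i : Fin 5) (c : ℝ) {b : E → ℝ} (hb : ContDiff ℝ ∞ b) (x : E) :
    pd i (fun y => b (c • y)) x = c * pd i b (c • x) := by
  unfold pd
  have h1 : HasFDerivAt (fun y : E => c • y) (c • ContinuousLinearMap.id ℝ E) x :=
    (hasFDerivAt_id x).const_smul c
  have h2 := (df hb (c • x)).hasFDerivAt.comp x h1
  have h3 : fderiv ℝ (fun y => b (c • y)) x =
      (fderiv ℝ b (c • x)).comp (c • ContinuousLinearMap.id ℝ E) := h2.fderiv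
  rw [h3]
  simp

private lemma pd_cmul (i : Fin 5) (c : ℝ) {b : E → ℝ} (hb : ContDiff ℝ ∞ b) (x : E) :
    pd i (fun y => c * b y) x = c * pd i b x := by
  unfold pd
  rw [fderiv_const_mul (df hb x)]
  rfl

private lemma pd_chi (i : Fin 5) (M : ℕ) (x : E) :
    pd i (chi M) x = ((M : ℝ) + 1)⁻¹ * pd i bet (((M : ℝ) + 1)⁻¹ • x) :=
  pd_sc i _ bet_sm x

private lemma lap_chi (M : ℕ) (x : E) :
    lap (chi M) x = (((M : ℝ) + 1)⁻¹) ^ 2 * lap bet (((M : ℝ) + 1)⁻¹ • x) := by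
  unfold lap
  rw [Finset.mul_sum]
  refine Finset.sum_congr rfl fun i _ => ?_
  have h1 : pd i (chi M) = fun x => ((M : ℝ) + 1)⁻¹ * pd i bet (((M : ℝ) + 1)⁻¹ • x) :=
    funext fun y => pd_chi i M y
  have hb : ContDiff ℝ ∞ (pd i bet) := sm_pd i bet_sm
  have hb2 : ContDiff ℝ ∞ (fun x => pd i bet (((M : ℝ) + 1)⁻¹ • x)) :=
    hb.comp (contDiff_const_smul _)
  rw [h1, pd_cmul i _ hb2, pd_sc i _ hb]
  ring

private lemma bd_exists : ∃ B : ℝ, 0 ≤ B ∧ (∀ i x, |pd i bet x| ≤ B) ∧ ∀ x, |lap bet x| ≤ B := by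
  have hb : IsTest bet := ⟨bet_sm, bet.hasCompactSupport⟩
  have h1 : ∀ i, ∃ C, ∀ x, ‖pd i bet x‖ ≤ C := fun i =>
    (test_pd i hb).2.exists_bound_of_continuous (test_pd i hb).1.continuous
  choose C hC using h1
  obtain ⟨D, hD⟩ := (test_lap hb).2.exists_bound_of_continuous (test_lap hb).1.continuous
  have hC0 : ∀ i, 0 ≤ C i := fun i => (norm_nonneg _).trans (hC i 0)
  have hD0 : 0 ≤ D := (norm_nonneg _).trans (hD 0)
  have hS : 0 ≤ ∑ i, C i := Finset.sum_nonneg fun i _ => hC0 i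
  refine ⟨∑ i, C i + D, add_nonneg hS hD0, ?_, ?_⟩
  · intro i x
    have := Finset.single_le_sum (fun j _ => hC0 j) (Finset.mem_univ i)
    have h2 := hC i x
    rw [Real.norm_eq_abs] at h2
    linarith
  · intro x
    have h2 := hD x
    rw [Real.norm_eq_abs] at h2
    linarith

/-- the scaling bound -/
private lemma sc_bd (h : E → ℝ) (R c : ℝ) (a : ℕ) (p : ℝ≥0∞) (hR : 0 < R) (hc : 0 ≤ c)
    (hp0 : p ≠ 0) (hpt : p ≠ ⊤) (hpa : 5 * (1 / p.toReal) = a)
    (h1 : ∀ x, |h x| ≤ (R⁻¹) ^ a * c) (h2 : ∀ x, x ∉ Metric.closedBall (0 : E) (2 * R) → h x = 0) :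
    eLpNorm h p volume ≤ ENNReal.ofReal (c * 2 ^ a) *
      volume (Metric.ball (0 : E) 1) ^ (1 / p.toReal) := by
  have hR2 : 0 ≤ 2 * R := by positivity
  have hk : 0 ≤ (R⁻¹) ^ a * c := by positivity
  calc eLpNorm h p volume
      ≤ eLpNorm ((Metric.closedBall (0 : E) (2 * R)).indicator fun _ => (R⁻¹) ^ a * c) p volume := by
        refine eLpNorm_mono fun x => ?_
        by_cases hx : x ∈ Metric.closedBall (0 : E) (2 * R)
        · rw [indicator_of_mem hx, Real.norm_of_nonneg hk]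
          exact h1 x
        · rw [indicator_of_notMem hx, h2 x hx]
    _ = ‖(R⁻¹) ^ a * c‖ₑ * volume (Metric.closedBall (0 : E) (2 * R)) ^ (1 / p.toReal) :=
        eLpNorm_indicator_const Metric.isClosed_closedBall.measurableSet hp0 hpt
    _ = ENNReal.ofReal (c * 2 ^ a) * volume (Metric.ball (0 : E) 1) ^ (1 / p.toReal) := by
        have hq : 0 ≤ 1 / p.toReal := by positivity
        rw [Measure.addHaar_closedBall _ _ hR2, ENNReal.mul_rpow_of_nonneg _ _ hq,
          Real.enorm_of_nonneg hk, ← mul_assoc,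
          ENNReal.ofReal_rpow_of_nonneg (by positivity) hq, ← ENNReal.ofReal_mul hk]
        congr 2
        rw [finrank_euclideanSpace, Fintype.card_fin, ← Real.rpow_natCast (2 * R) 5,
          ← Real.rpow_mul hR2]
        have e : ((5 : ℕ) : ℝ) * (1 / p.toReal) = (a : ℝ) := by push_cast; exact hpa
        rw [e, Real.rpow_natCast, mul_pow, inv_pow]
        field_simp

private lemma chi_norms : ∃ A : ℝ≥0∞, A ≠ ⊤ ∧
    (∀ (M : ℕ) (i : Fin 5), eLpNorm (pd i (chi M)) 5 volume ≤ A) ∧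
    ∀ M : ℕ, eLpNorm (lap (chi M)) (5 / 2) volume ≤ A := by
  obtain ⟨B, hB, hB1, hB2⟩ := bd_exists
  have hv : volume (Metric.ball (0 : E) 1) ≠ ⊤ := measure_ball_lt_top.ne
  refine ⟨ENNReal.ofReal (B * 2 ^ 1) * volume (Metric.ball (0 : E) 1) ^
      (1 / (5 : ℝ≥0∞).toReal) + ENNReal.ofReal (B * 2 ^ 2) * volume (Metric.ball (0 : E) 1) ^
      (1 / (5 / 2 : ℝ≥0∞).toReal), ?_, ?_, ?_⟩
  · refine ENNReal.add_ne_top.2 ⟨ENNReal.mul_ne_top ENNReal.ofReal_ne_top ?_,
      ENNReal.mul_ne_top ENNReal.ofReal_ne_top ?_⟩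
    · exact ENNReal.rpow_ne_top_of_nonneg (by positivity) hv
    · exact ENNReal.rpow_ne_top_of_nonneg (by positivity) hv
  · intro M i
    refine le_trans (sc_bd (pd i (chi M)) ((M : ℝ) + 1) B 1 5 (M_pos M) hB (by norm_num)
      (by norm_num) ?_ ?_ ?_) le_self_add
    · rw [ENNReal.toReal_ofNat]
      norm_num
    · intro x
      rw [pd_chi, abs_mul, abs_of_pos (inv_pos.2 (M_pos M)), pow_one]
      exact mul_le_mul_of_nonneg_left (hB1 i _) (inv_nonneg.2 (M_pos M).le)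
    · intro x hx
      exact image_eq_zero_of_notMem_tsupport fun h2 => hx (chi_ts M (tsupport_pd i _ h2))
  · intro M
    refine le_trans (sc_bd (lap (chi M)) ((M : ℝ) + 1) B 2 (5 / 2) (M_pos M) hB
      (by norm_num) ?_ ?_ ?_ ?_) le_add_self
    · exact (ENNReal.div_lt_top (by norm_num) (by norm_num)).ne
    · rw [ENNReal.toReal_div, ENNReal.toReal_ofNat, ENNReal.toReal_ofNat]
      norm_num
    · intro x
      have h0 : 0 ≤ (((M : ℝ) + 1)⁻¹) ^ 2 := sq_nonneg _
      rw [lap_chi, abs_mul, abs_of_nonneg h0]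
      exact mul_le_mul_of_nonneg_left (hB2 _) h0
    · intro x hx
      exact lap_zero fun h2 => hx (chi_ts M h2)

/-! ### Hoelder -/

private lemma ht1 : ENNReal.HolderTriple 5 (10 / 3) 2 := by
  refine ⟨?_⟩
  rw [← ENNReal.toReal_eq_toReal_iff' (by simp) (by simp), ENNReal.toReal_add (by simp) (by simp)]
  simp only [ENNReal.toReal_inv, ENNReal.toReal_div, ENNReal.toReal_ofNat]
  norm_num

private lemma ht2 : ENNReal.HolderTriple (5 / 2) 10 2 := by
  refine ⟨?_⟩
  rw [← ENNReal.toReal_eq_toReal_iff' (by simp) (by simp), ENNReal.toReal_add (by simp) (by simp)]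
  simp only [ENNReal.toReal_inv, ENNReal.toReal_div, ENNReal.toReal_ofNat]
  norm_num

private lemma hol1 {u v : E → ℝ} (hu : ContDiff ℝ ∞ u) (hv : ContDiff ℝ ∞ v) :
    eLpNorm (fun x => u x * v x) 2 volume ≤ eLpNorm u 5 volume * eLpNorm v (10 / 3) volume := by
  have := ht1
  exact eLpNorm_smul_le_mul_eLpNorm (𝕜 := ℝ) hv.continuous.aestronglyMeasurable
    hu.continuous.aestronglyMeasurable

private lemma hol2 {u v : E → ℝ} (hu : ContDiff ℝ ∞ u) (hv : ContDiff ℝ ∞ v) :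
    eLpNorm (fun x => u x * v x) 2 volume ≤ eLpNorm u (5 / 2) volume * eLpNorm v 10 volume := by
  have := ht2
  exact eLpNorm_smul_le_mul_eLpNorm (𝕜 := ℝ) hv.continuous.aestronglyMeasurable
    hu.continuous.aestronglyMeasurable

private lemma hol0 (M : ℕ) (v : E → ℝ) :
    eLpNorm (fun x => chi M x * v x) 2 volume ≤ eLpNorm v 2 volume := by
  refine eLpNorm_mono fun x => ?_
  rw [norm_mul, Real.norm_of_nonneg (chi_nonneg M x)]
  exact mul_le_of_le_one_left (norm_nonneg _) (chi_le M x)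

/-- the bound for test states -/
private lemma key (hFld : St_Fld) (hLin : St_Lin) (hIP : St_IP) : ∃ C : ℝ, 0 ≤ C ∧
    ∀ (M : ℕ) (f g : E → ℝ), IsTest f → IsTest g →
      ‖Theta (fun x => chi M x * f x) (fun x => chi M x * g x)‖ ≤ C * ‖Theta f g‖ := by
  obtain ⟨A, hA, hA1, hA2⟩ := chi_norms
  obtain ⟨C₁, hC₁, hF⟩ := hFld
  refine ⟨((5 + (∑ _i : Fin 5, 2 * A) + A + ∑ _i : Fin 5, (1 + A)) * ENNReal.ofReal C₁).toReal,
    ENNReal.toReal_nonneg, ?_⟩
  intro M f g hf hg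
  have hfin : (5 + (∑ _i : Fin 5, 2 * A) + A + ∑ _i : Fin 5, (1 + A)) * ENNReal.ofReal C₁ ≠ ⊤ := by
    refine ENNReal.mul_ne_top ?_ ENNReal.ofReal_ne_top
    refine ENNReal.add_ne_top.2 ⟨ENNReal.add_ne_top.2 ⟨ENNReal.add_ne_top.2 ⟨by norm_num, ?_⟩, hA⟩,
      ?_⟩
    · exact ENNReal.sum_ne_top.2 fun i _ => ENNReal.mul_ne_top (by norm_num) hA
    · exact ENNReal.sum_ne_top.2 fun i _ => ENNReal.add_ne_top.2 ⟨by norm_num, hA⟩
  obtain ⟨N, hN⟩ : ∃ N : ℝ≥0∞, N = ENNReal.ofReal C₁ * ‖Theta f g‖ₑ := ⟨_, rfl⟩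
  obtain ⟨⟨-, b1⟩, ⟨-, b2⟩, b3, b4, b5⟩ := hF (Theta f g)
  obtain ⟨a1, a2, a3, a4, a5⟩ := hLin.2.1 f g hf hg
  rw [eLpNorm_congr_ae a1, ← hN] at b1
  rw [eLpNorm_congr_ae a2, ← hN] at b2
  have c3 : ∀ i, eLpNorm (pd i f) (10 / 3) volume ≤ N := fun i => by
    have := (b3 i).2.2
    rwa [eLpNorm_congr_ae (a3 i), ← hN] at this
  have c4 : ∀ i, eLpNorm (pd i (pd i f)) 2 volume ≤ N := fun i => by
    have := (b4 i i).2.2
    rwa [eLpNorm_congr_ae (a4 i i), ← hN] at this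
  have c5 : ∀ i, eLpNorm (pd i g) 2 volume ≤ N := fun i => by
    have := (b5 i).2.2
    rwa [eLpNorm_congr_ae (a5 i), ← hN] at this
  have hχ := chi_sm M
  have hsm : ∀ {u v : E → ℝ}, ContDiff ℝ ∞ u → ContDiff ℝ ∞ v →
      AEStronglyMeasurable (fun x => u x * v x) (volume : Measure E) := fun hu hv =>
    (hu.continuous.mul hv.continuous).aestronglyMeasurable
  -- the Laplacian
  have d1 : eLpNorm (lap fun x => chi M x * f x) 2 volume ≤
      5 * N + (∑ _i : Fin 5, 2 * A * N) + A * N := by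
    have e1 : (lap fun x => chi M x * f x) = (fun x => chi M x * lap f x) +
        (fun x => ∑ i, 2 * (pd i (chi M) x * pd i f x)) + fun x => lap (chi M) x * f x :=
      funext fun x => lap_mul hχ hf.1 x
    have e2 : (fun x => ∑ i, 2 * (pd i (chi M) x * pd i f x)) =
        ∑ i, fun x => 2 * (pd i (chi M) x * pd i f x) := by
      funext x
      rw [Finset.sum_apply]
    have m1 := hsm hχ (sm_lap hf.1)
    have m2 : ∀ i, AEStronglyMeasurable (fun x => 2 * (pd i (chi M) x * pd i f x))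
        (volume : Measure E) := fun i => (hsm (sm_pd i hχ) (sm_pd i hf.1)).const_mul 2
    have m3 : AEStronglyMeasurable (fun x => ∑ i, 2 * (pd i (chi M) x * pd i f x))
        (volume : Measure E) := by
      rw [e2]
      exact Finset.aestronglyMeasurable_sum _ fun i _ => m2 i
    have m4 := hsm (sm_lap hχ) hf.1
    rw [e1]
    refine (eLpNorm_add_le (m1.add m3) m4 (by norm_num)).trans ?_
    refine add_le_add ((eLpNorm_add_le m1 m3 (by norm_num)).trans (add_le_add ?_ ?_)) ?_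
    · refine (hol0 M (lap f)).trans ?_
      have e3 : lap f = ∑ i, fun x => pd i (pd i f) x := by
        funext x
        rw [Finset.sum_apply]
        rfl
      rw [e3]
      refine (eLpNorm_sum_le (fun i _ =>
        (sm_pd i (sm_pd i hf.1)).continuous.aestronglyMeasurable) (by norm_num)).trans ?_
      calc ∑ i, eLpNorm (fun x => pd i (pd i f) x) 2 volume ≤ ∑ _i : Fin 5, N :=
            Finset.sum_le_sum fun i _ => c4 i
        _ = 5 * N := by
            rw [Finset.sum_const, Finset.card_univ, Fintype.card_fin, nsmul_eq_mul]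
            norm_num
    · rw [e2]
      refine (eLpNorm_sum_le (fun i _ => m2 i) (by norm_num)).trans ?_
      refine Finset.sum_le_sum fun i _ => ?_
      have e4 : (fun x => 2 * (pd i (chi M) x * pd i f x)) =
          (2 : ℝ) • fun x => pd i (chi M) x * pd i f x := rfl
      rw [e4, eLpNorm_const_smul, mul_assoc]
      have e5 : ‖(2 : ℝ)‖ₑ = 2 := by
        rw [Real.enorm_of_nonneg (by norm_num)]
        norm_num
      rw [e5]
      refine mul_le_mul_right ?_ _
      exact (hol1 (sm_pd i hχ) (sm_pd i hf.1)).trans (mul_le_mul' (hA1 M i) (c3 i))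
    · exact (hol2 (sm_lap hχ) hf.1).trans (mul_le_mul' (hA2 M) b1)
  -- the gradient
  have d2 : ∀ i, eLpNorm (pd i fun x => chi M x * g x) 2 volume ≤ (1 + A) * N := by
    intro i
    have e1 : (pd i fun x => chi M x * g x) = (fun x => chi M x * pd i g x) +
        fun x => pd i (chi M) x * g x := funext fun x => pd_mul i hχ hg.1 x
    rw [e1, add_mul, one_mul]
    refine (eLpNorm_add_le (hsm hχ (sm_pd i hg.1)) (hsm (sm_pd i hχ) hg.1) (by norm_num)).trans ?_
    exact add_le_add ((hol0 M (pd i g)).trans (c5 i))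
      ((hol1 (sm_pd i hχ) hg.1).trans (mul_le_mul' (hA1 M i) b2))
  have d3 : ‖Theta (fun x => chi M x * f x) (fun x => chi M x * g x)‖ₑ ≤
      (5 + (∑ _i : Fin 5, 2 * A) + A + ∑ _i : Fin 5, (1 + A)) * ENNReal.ofReal C₁ *
        ‖Theta f g‖ₑ := by
    refine (norm_Theta hLin hIP (test_mul hχ hf) (test_mul hχ hg)).trans ?_
    refine (add_le_add d1 (Finset.sum_le_sum fun i _ => d2 i)).trans ?_
    rw [mul_assoc _ (ENNReal.ofReal C₁) _, ← hN]
    simp only [Finset.sum_const, Finset.card_univ, Fintype.card_fin, nsmul_eq_mul]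
    apply le_of_eq
    ring
  have d4 := ENNReal.toReal_mono (ENNReal.mul_ne_top hfin enorm_ne_top) d3
  rwa [ENNReal.toReal_mul, toReal_enorm, toReal_enorm] at d4

/-! ### the operators -/

/-- `h` is the cut-off of `k` -/
private def Rel (χ : E → ℝ) (k h : K) : Prop := ∀ φ, IsTest φ →
  inner ℝ h (Rk φ) = inner ℝ k (Rk fun x => χ x * φ x) ∧
  inner ℝ h (dRk φ) = inner ℝ k (dRk fun x => χ x * φ x)

private lemma rel_test (hU : St_UTest) (hLin : St_Lin) {χ f g : E → ℝ} (hχ : ContDiff ℝ ∞ χ)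
    (hf : IsTest f) (hg : IsTest g) :
    Rel χ (Theta f g) (Theta (fun x => χ x * f x) (fun x => χ x * g x)) := by
  intro φ hφ
  obtain ⟨a1, a2⟩ := inner_Theta hU hLin (test_mul hχ hf) (test_mul hχ hg) hφ
  obtain ⟨b1, b2⟩ := inner_Theta hU hLin hf hg (test_mul hχ hφ)
  rw [a1, a2, b1, b2]
  constructor
  · refine integral_congr_ae (Eventually.of_forall fun x => ?_)
    ring
  · refine integral_congr_ae (Eventually.of_forall fun x => ?_)
    ring

private lemma rel_unique (hD : TS univ = ⊤) {χ : E → ℝ} {k h h' : K} (h1 : Rel χ k h)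
    (h2 : Rel χ k h') : h = h' := by
  refine eq_of_test hD _ _ fun φ hφ => ?_
  rw [(h1 φ hφ).1, (h1 φ hφ).2, (h2 φ hφ).1, (h2 φ hφ).2]
  exact ⟨rfl, rfl⟩

private lemma rel_add {χ : E → ℝ} {k k' h h' : K} (h1 : Rel χ k h) (h2 : Rel χ k' h') :
    Rel χ (k + k') (h + h') := by
  intro φ hφ
  rw [inner_add_left, inner_add_left, inner_add_left, inner_add_left, (h1 φ hφ).1, (h1 φ hφ).2,
    (h2 φ hφ).1, (h2 φ hφ).2]
  exact ⟨rfl, rfl⟩

private lemma rel_smul {χ : E → ℝ} {k h : K} (c : ℝ) (h1 : Rel χ k h) :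
    Rel χ (c • k) (c • h) := by
  intro φ hφ
  rw [real_inner_smul_left, real_inner_smul_left, real_inner_smul_left, real_inner_smul_left,
    (h1 φ hφ).1, (h1 φ hφ).2]
  exact ⟨rfl, rfl⟩

private lemma rel_exists (hDens : St_Dens) (hU : St_UTest) (hLin : St_Lin) (C : ℝ) (hC : 0 ≤ C)
    (M : ℕ) (hkey : ∀ f g : E → ℝ, IsTest f → IsTest g →
      ‖Theta (fun x => chi M x * f x) (fun x => chi M x * g x)‖ ≤ C * ‖Theta f g‖) (k : K) :
    ∃ h : K, Rel (chi M) k h ∧ ‖h‖ ≤ C * ‖k‖ := by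
  have h1 : ∀ n : ℕ, ∃ p : (E → ℝ) × (E → ℝ), IsTest p.1 ∧ IsTest p.2 ∧
      ‖k - Theta p.1 p.2‖ < 1 / ((n : ℝ) + 1) := by
    intro n
    obtain ⟨f, g, hf, hg, hfg⟩ := hDens.2 k (1 / ((n : ℝ) + 1)) (by positivity)
    exact ⟨(f, g), hf, hg, hfg⟩
  choose p hp1 hp2 hp3 using h1
  obtain ⟨T, hTd⟩ : ∃ T : ℕ → K, T = fun n => Theta (p n).1 (p n).2 := ⟨_, rfl⟩
  obtain ⟨H, hHd⟩ : ∃ H : ℕ → K, H = fun n => Theta (fun x => chi M x * (p n).1 x)
    (fun x => chi M x * (p n).2 x) := ⟨_, rfl⟩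
  have hT : Tendsto T atTop (𝓝 k) := by
    rw [tendsto_iff_norm_sub_tendsto_zero]
    refine squeeze_zero (fun n => norm_nonneg _) (fun n => ?_) tendsto_one_div_add_atTop_nhds_zero_nat
    rw [norm_sub_rev, hTd]
    exact (hp3 n).le
  have hHn : ∀ n, ‖H n‖ ≤ C * ‖T n‖ := fun n => by
    rw [hHd, hTd]
    exact hkey _ _ (hp1 n) (hp2 n)
  have hdiff : ∀ m n, ‖H m - H n‖ ≤ C * ‖T m - T n‖ := by
    intro m n
    have e1 : T m - T n = Theta (fun x => (p m).1 x - (p n).1 x) (fun x => (p m).2 x - (p n).2 x) := by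
      rw [hTd]
      exact Theta_sub hDens.1 hU hLin (hp1 m) (hp2 m) (hp1 n) (hp2 n)
    have e2 : H m - H n = Theta (fun x => chi M x * ((p m).1 x - (p n).1 x))
        (fun x => chi M x * ((p m).2 x - (p n).2 x)) := by
      rw [hHd]
      change Theta (fun x => chi M x * (p m).1 x) (fun x => chi M x * (p m).2 x) -
        Theta (fun x => chi M x * (p n).1 x) (fun x => chi M x * (p n).2 x) = _
      rw [Theta_sub hDens.1 hU hLin (test_mul (chi_sm M) (hp1 m)) (test_mul (chi_sm M) (hp2 m))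
        (test_mul (chi_sm M) (hp1 n)) (test_mul (chi_sm M) (hp2 n))]
      congr 1
      · funext x
        ring
      · funext x
        ring
    rw [e1, e2]
    exact hkey _ _ (test_sub (hp1 m) (hp1 n)) (test_sub (hp2 m) (hp2 n))
  have hCau : CauchySeq H := by
    rw [Metric.cauchySeq_iff]
    intro ε hε
    have hC1 : 0 < C + 1 := by linarith
    obtain ⟨N, hN⟩ := (Metric.cauchySeq_iff.1 hT.cauchySeq) (ε / (C + 1)) (by positivity)
    refine ⟨N, fun m hm n hn => ?_⟩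
    have h2 := hN m hm n hn
    rw [dist_eq_norm] at h2 ⊢
    calc ‖H m - H n‖ ≤ C * ‖T m - T n‖ := hdiff m n
      _ ≤ C * (ε / (C + 1)) := mul_le_mul_of_nonneg_left h2.le hC
      _ < (C + 1) * (ε / (C + 1)) := mul_lt_mul_of_pos_right (by linarith) (by positivity)
      _ = ε := mul_div_cancel₀ ε hC1.ne'
  obtain ⟨h, hh⟩ := cauchySeq_tendsto_of_complete hCau
  refine ⟨h, ?_, le_of_tendsto_of_tendsto' hh.norm (hT.norm.const_mul C) hHn⟩
  intro φ hφ
  have hr : ∀ n, Rel (chi M) (T n) (H n) := fun n => by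
    rw [hTd, hHd]
    exact rel_test hU hLin (chi_sm M) (hp1 n) (hp2 n)
  constructor
  · refine tendsto_nhds_unique (hh.inner (𝕜 := ℝ) tendsto_const_nhds) ?_
    refine (hT.inner (𝕜 := ℝ) tendsto_const_nhds).congr fun n => ?_
    exact ((hr n φ hφ).1).symm
  · refine tendsto_nhds_unique (hh.inner (𝕜 := ℝ) tendsto_const_nhds) ?_
    refine (hT.inner (𝕜 := ℝ) tendsto_const_nhds).congr fun n => ?_
    exact ((hr n φ hφ).2).symm

private lemma zero_Rk (hU : St_UTest) (hLin : St_Lin) (k : K) :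
    inner ℝ k (Rk fun _ => 0) = 0 ∧ inner ℝ k (dRk fun _ => 0) = 0 := by
  have h0 : IsTest fun _ : E => (0 : ℝ) := ⟨contDiff_const, HasCompactSupport.zero⟩
  constructor
  · rw [← hU.2.2 k _ (sch h0)]
    simp
  · rw [← hLin.2.2 k _ (sch h0)]
    simp

private lemma rel_van (M : ℕ) {k h : K} (hU : St_UTest) (hLin : St_Lin) (hr : Rel (chi M) k h) :
    Van (ext 0 (2 * (M : ℝ) + 2)) h := by
  rw [van_iff]
  intro φ hφ hs
  have e : (fun x => chi M x * φ x) = fun _ => 0 := by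
    funext x
    by_cases hx : x ∈ tsupport φ
    · have h1 := hs hx
      simp only [ext, Set.mem_ofPred_eq, dist_zero_right] at h1
      rw [chi_zero M x (by linarith), zero_mul]
    · rw [image_eq_zero_of_notMem_tsupport hx, mul_zero]
  rw [(hr φ hφ).1, (hr φ hφ).2, e]
  exact zero_Rk hU hLin k

private lemma rel_loc (M : ℕ) {k h : K} (hr : Rel (chi M) k h) (Ω : Set E) (hk : Van Ω k) :
    Van Ω h := by
  rw [van_iff] at hk ⊢
  intro φ hφ hs
  rw [(hr φ hφ).1, (hr φ hφ).2]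
  exact hk _ (test_mul (chi_sm M) hφ) ((tsupport_mul_subset_right).trans hs)

private lemma rel_U (M : ℕ) {k h : K} (hU : St_UTest) (hFld : St_Fld) (hr : Rel (chi M) k h) :
    U h =ᵐ[volume] fun x => chi M x * U k x := by
  obtain ⟨C, -, hF⟩ := hFld
  have h1 : MemLp (U k) 10 volume := (hF k).1.1
  have h2 : MemLp (fun x => chi M x * U k x) 10 volume := by
    refine h1.mono ((chi_sm M).continuous.aestronglyMeasurable.mul h1.1) ?_
    refine Eventually.of_forall fun x => ?_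
    rw [norm_mul, Real.norm_of_nonneg (chi_nonneg M x)]
    exact mul_le_of_le_one_left (norm_nonneg _) (chi_le M x)
  refine ae_eq_of_integral_contDiff_smul_eq (hU.2.1 h) (h2.locallyIntegrable (by norm_num)) ?_
  intro φ h3 h4
  have hφ : IsTest φ := ⟨h3, h4⟩
  have e1 : ∫ x, φ x • U h x = inner ℝ h (Rk φ) := by
    rw [← hU.2.2 h φ (sch hφ)]
    exact integral_congr_ae (Eventually.of_forall fun x => by simp [mul_comm])
  have e2 : ∫ x, φ x • (chi M x * U k x) = inner ℝ k (Rk fun x => chi M x * φ x) := by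
    rw [← hU.2.2 k _ (sch (test_mul (chi_sm M) hφ))]
    refine integral_congr_ae (Eventually.of_forall fun x => ?_)
    simp only [smul_eq_mul]
    ring
  rw [e1, e2, (hr φ hφ).1]

private lemma rel_V (M : ℕ) {k h : K} (hLin : St_Lin) (hFld : St_Fld) (hr : Rel (chi M) k h) :
    V h =ᵐ[volume] fun x => chi M x * V k x := by
  obtain ⟨C, -, hF⟩ := hFld
  have h1 : MemLp (V k) (10 / 3) volume := (hF k).2.1.1.1
  have h1' : MemLp (V h) (10 / 3) volume := (hF h).2.1.1.1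
  have hp : (1 : ℝ≥0∞) ≤ 10 / 3 := by
    rw [ENNReal.le_div_iff_mul_le (Or.inl (by norm_num)) (Or.inl (by norm_num))]
    norm_num
  have h2 : MemLp (fun x => chi M x * V k x) (10 / 3) volume := by
    refine h1.mono ((chi_sm M).continuous.aestronglyMeasurable.mul h1.1) ?_
    refine Eventually.of_forall fun x => ?_
    rw [norm_mul, Real.norm_of_nonneg (chi_nonneg M x)]
    exact mul_le_of_le_one_left (norm_nonneg _) (chi_le M x)
  refine ae_eq_of_integral_contDiff_smul_eq (h1'.locallyIntegrable hp) (h2.locallyIntegrable hp) ?_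
  intro φ h3 h4
  have hφ : IsTest φ := ⟨h3, h4⟩
  have e1 : ∫ x, φ x • V h x = inner ℝ h (dRk φ) := by
    rw [← hLin.2.2 h φ (sch hφ)]
    exact integral_congr_ae (Eventually.of_forall fun x => by simp [mul_comm])
  have e2 : ∫ x, φ x • (chi M x * V k x) = inner ℝ k (dRk fun x => chi M x * φ x) := by
    rw [← hLin.2.2 k _ (sch (test_mul (chi_sm M) hφ))]
    refine integral_congr_ae (Eventually.of_forall fun x => ?_)
    simp only [smul_eq_mul]
    ring
  rw [e1, e2, (hr φ hφ).2]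

/-- test states are fixed by the cut-offs with large parameter -/
private lemma rel_fix (hD : TS univ = ⊤) (hU : St_UTest) (hLin : St_Lin) {f g : E → ℝ}
    (hf : IsTest f) (hg : IsTest g) : ∃ M₀ : ℕ, ∀ M, M₀ ≤ M → ∀ h, Rel (chi M) (Theta f g) h →
      h = Theta f g := by
  obtain ⟨R₁, hR₁⟩ := hf.2.isBounded.subset_closedBall (0 : E)
  obtain ⟨R₂, hR₂⟩ := hg.2.isBounded.subset_closedBall (0 : E)
  obtain ⟨M₀, hM₀⟩ := exists_nat_ge (max R₁ R₂)
  refine ⟨M₀, fun M hM h hr => ?_⟩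
  have hM' : (M₀ : ℝ) ≤ M := by exact_mod_cast hM
  have e : ∀ {u : E → ℝ} {R : ℝ}, tsupport u ⊆ Metric.closedBall 0 R → R ≤ M₀ →
      (fun x => chi M x * u x) = u := by
    intro u R h1 h2
    funext x
    by_cases hx : x ∈ tsupport u
    · have h3 := h1 hx
      rw [Metric.mem_closedBall, dist_zero_right] at h3
      rw [chi_one M x (by linarith), one_mul]
    · rw [image_eq_zero_of_notMem_tsupport hx, mul_zero]
  have h4 := rel_test hU hLin (chi_sm M) hf hg
  rw [e hR₁ ((le_max_left _ _).trans hM₀), e hR₂ ((le_max_right _ _).trans hM₀)] at h4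
  exact rel_unique hD hr h4

end Cutx

open Cutx in
/-- **Cut** -/
theorem thm_Cut (hDens : St_Dens) (hU : St_UTest) (hFld : St_Fld) (hLin : St_Lin)
    (hIP : St_IP) : St_Cut := by
  obtain ⟨C, hC, hkey⟩ := key hFld hLin hIP
  have hex : ∀ (M : ℕ) (k : K), ∃ h : K, Rel (chi M) k h ∧ ‖h‖ ≤ C * ‖k‖ := fun M k =>
    rel_exists hDens hU hLin C hC M (hkey M) k
  choose Y hY1 hY2 using hex
  let X : ℕ → K →L[ℝ] K := fun M => LinearMap.mkContinuous
    { toFun := Y M
      map_add' := fun k k' =>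
        rel_unique hDens.1 (hY1 M (k + k')) (rel_add (hY1 M k) (hY1 M k'))
      map_smul' := fun c k =>
        rel_unique hDens.1 (hY1 M (c • k)) (rel_smul c (hY1 M k)) } C (hY2 M)
  have hX : ∀ M k, Rel (chi M) k (X M k) := hY1
  refine ⟨C, X, hY2, fun M k => rel_van M hU hLin (hX M k), fun M k Ω _ hk =>
    rel_loc M (hX M k) Ω hk, ?_, fun M k => ⟨chi M, chi_sm M, fun x => ⟨chi_nonneg M x, chi_le M x⟩,
      chi_one M, rel_U M hU hFld (hX M k), rel_V M hLin hFld (hX M k)⟩⟩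
  intro k
  rw [Metric.tendsto_atTop]
  intro ε hε
  have hC1 : 0 < C + 1 := by linarith
  obtain ⟨f, g, hf, hg, hfg⟩ := hDens.2 k (ε / (C + 1)) (by positivity)
  obtain ⟨M₀, hM₀⟩ := rel_fix hDens.1 hU hLin hf hg
  refine ⟨M₀, fun M hM => ?_⟩
  have h1 : X M (Theta f g) = Theta f g := hM₀ M hM _ (hX M _)
  have h2 : X M k - k = X M (k - Theta f g) - (k - Theta f g) := by
    rw [map_sub, h1]
    abel
  rw [dist_eq_norm, h2]
  calc ‖X M (k - Theta f g) - (k - Theta f g)‖ ≤ ‖X M (k - Theta f g)‖ + ‖k - Theta f g‖ :=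
        norm_sub_le _ _
    _ ≤ C * ‖k - Theta f g‖ + ‖k - Theta f g‖ := by
        gcongr
        exact hY2 M _
    _ = (C + 1) * ‖k - Theta f g‖ := by ring
    _ < (C + 1) * (ε / (C + 1)) := mul_lt_mul_of_pos_left hfg hC1
    _ = ε := mul_div_cancel₀ ε hC1.ne'

end Pool.Agent.QWE
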