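import Pool.Agent.QWE.StA

/-!
# QWE/D1 (helper96): a free wave leaves every half space that moves with speed one
-/

set_option autoImplicit false

open MeasureTheory Filter Topology Set
open scoped ENNReal NNReal RealInnerProductSpace Pointwise ContDiff

namespace Pool.Agent.QWE

namespace D1x

/-! ### Calculus -/

theorem pd_zero {O : Set E} (hO : IsOpen O) {a : E → ℝ} (ha : ∀ x ∈ O, a x = 0) (i : Fin 5) :
    ∀ x ∈ O, pd i a x = 0 := by
  intro x hx
  unfold pd
  have h1 : a =ᶠ[𝓝 x] fun _ => (0 : ℝ) := by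
    filter_upwards [hO.mem_nhds hx] with y hy using ha y hy
  rw [h1.fderiv_eq]
  simp

theorem pd_add_mul {a b : E → ℝ} (i : Fin 5) (c : ℝ) (x : E) (ha : DifferentiableAt ℝ a x)
    (hb : DifferentiableAt ℝ b x) :
    pd i (fun x => a x + c * b x) x = pd i a x + c * pd i b x := by
  unfold pd
  have h1 : HasFDerivAt (fun x => a x + c * b x) (fderiv ℝ a x + c • fderiv ℝ b x) x :=
    ha.hasFDerivAt.add (hb.hasFDerivAt.const_mul c)
  rw [h1.fderiv]
  rfl

theorem hasFDerivAt_ridge {η η' : ℝ → ℝ} (hη : ∀ y, HasDerivAt η (η' y) y) (e : E) (s : ℝ)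
    (x : E) : HasFDerivAt (fun x : E => η (inner ℝ x e - s))
      (η' (inner ℝ x e - s) • (innerSL ℝ e)) x := by
  have h1 : HasFDerivAt (fun x : E => inner ℝ x e - s) (innerSL ℝ e) x := by
    have h2 : (fun x : E => inner ℝ x e - s) = fun x : E => innerSL ℝ e x - s := by
      funext y
      rw [innerSL_apply_apply, real_inner_comm]
    rw [h2]
    exact (innerSL ℝ e).hasFDerivAt.sub_const s
  exact (hη _).comp_hasFDerivAt x h1

theorem pdA {η η' : ℝ → ℝ} (hη : ∀ y, HasDerivAt η (η' y) y) (e : E) (s : ℝ) (f : E → ℝ)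
    (i : Fin 5) (x : E) (hf : DifferentiableAt ℝ f x) :
    DifferentiableAt ℝ (fun x : E => η (inner ℝ x e - s) * f x) x ∧
    pd i (fun x : E => η (inner ℝ x e - s) * f x) x =
      η (inner ℝ x e - s) * pd i f x + e i * (η' (inner ℝ x e - s) * f x) := by
  have h1 := (hasFDerivAt_ridge hη e s x).mul hf.hasFDerivAt
  have h2 : (fun x : E => η (inner ℝ x e - s) * f x) =
      (fun x : E => η (inner ℝ x e - s)) * f := rfl
  refine ⟨h2 ▸ h1.differentiableAt, ?_⟩
  unfold pd
  rw [h2, h1.fderiv]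
  simp only [ContinuousLinearMap.add_apply, ContinuousLinearMap.smul_apply, innerSL_apply_apply,
    smul_eq_mul]
  have h3 : inner ℝ e (EuclideanSpace.single i (1 : ℝ)) = e i := by
    rw [EuclideanSpace.inner_single_right]
    simp
  rw [h3]
  ring

theorem pd_contDiff {f : E → ℝ} (hf : ContDiff ℝ ∞ f) (i : Fin 5) : ContDiff ℝ ∞ (pd i f) := by
  unfold pd
  exact (hf.fderiv_right (m := ∞) (by simp)).clm_apply contDiff_const

/-- the cut-off function -/
noncomputable def et (y : ℝ) : ℝ := Real.smoothTransition (y + 1)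

theorem et_contDiff : ContDiff ℝ ∞ et :=
  Real.smoothTransition.contDiff.comp (contDiff_id.add contDiff_const)

theorem et_zero {y : ℝ} (hy : y ≤ -1) : et y = 0 :=
  Real.smoothTransition.zero_of_nonpos (by linarith)

theorem et_one {y : ℝ} (hy : 0 ≤ y) : et y = 1 :=
  Real.smoothTransition.one_of_one_le (by linarith)

theorem et_abs (y : ℝ) : |et y| ≤ 1 := by
  unfold et
  rw [abs_of_nonneg (Real.smoothTransition.nonneg _)]
  exact Real.smoothTransition.le_one _

theorem et_d1 (y : ℝ) : HasDerivAt et (deriv et y) y :=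
  (et_contDiff.differentiable (by simp)).differentiableAt.hasDerivAt

theorem det_contDiff : ContDiff ℝ ∞ (deriv et) :=
  ((contDiff_infty_iff_deriv).1 et_contDiff).2

theorem et_d2 (y : ℝ) : HasDerivAt (deriv et) (deriv (deriv et) y) y :=
  (det_contDiff.differentiable (by simp)).differentiableAt.hasDerivAt

theorem det_compact : HasCompactSupport (deriv et) := by
  refine HasCompactSupport.intro (isCompact_Icc (a := (-1 : ℝ)) (b := 0)) ?_
  intro y hy
  rw [Set.mem_Icc, not_and_or, not_le, not_le] at hy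
  rcases hy with hy | hy
  · have h1 : et =ᶠ[𝓝 y] fun _ => (0 : ℝ) := by
      filter_upwards [Iio_mem_nhds hy] with z hz using et_zero hz.le
    rw [h1.deriv_eq, deriv_const]
  · have h1 : et =ᶠ[𝓝 y] fun _ => (1 : ℝ) := by
      filter_upwards [Ioi_mem_nhds hy] with z hz using et_one hz.le
    rw [h1.deriv_eq, deriv_const]

theorem et_bounds : ∃ B : ℝ, 0 ≤ B ∧ (∀ y, |deriv et y| ≤ B) ∧ ∀ y, |deriv (deriv et) y| ≤ B := by
  obtain ⟨B1, h1⟩ := det_compact.exists_bound_of_continuous det_contDiff.continuous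
  obtain ⟨B2, h2⟩ := det_compact.deriv.exists_bound_of_continuous
    ((contDiff_infty_iff_deriv).1 det_contDiff).2.continuous
  refine ⟨max B1 B2, ?_, ?_, ?_⟩
  · exact (norm_nonneg _).trans ((h1 0).trans (le_max_left _ _))
  · intro y
    exact (h1 y).trans (le_max_left _ _)
  · intro y
    exact (h2 y).trans (le_max_right _ _)

theorem abs_coord_le {e : E} (he : ‖e‖ = 1) (i : Fin 5) : |e i| ≤ 1 := by
  have h := EuclideanSpace.norm_sq_eq e
  rw [he] at h
  have h1 : ‖e i‖ ^ 2 ≤ ∑ j, ‖e j‖ ^ 2 :=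
    Finset.single_le_sum (f := fun j => ‖e j‖ ^ 2) (fun j _ => sq_nonneg _) (Finset.mem_univ i)
  rw [← h] at h1
  have h2 : ‖e i‖ ≤ 1 := by
    have := norm_nonneg (e i)
    nlinarith
  exact h2

/-- bounds of the derivatives of the localised functions -/
theorem bounds {B C0 : ℝ} (hB : 0 ≤ B) (h1 : ∀ y, |deriv et y| ≤ B)
    (h2 : ∀ y, |deriv (deriv et) y| ≤ B) {e : E} (he : ‖e‖ = 1) (s : ℝ) {f : E → ℝ}
    (hf : ContDiff ℝ ∞ f) (hb0 : ∀ x, |f x| ≤ C0) (hb1 : ∀ x i, |pd i f x| ≤ C0) :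
    (∀ x i, |pd i (fun x : E => et (inner ℝ x e - s) * f x) x| ≤ (1 + B) * C0) ∧
    ((∀ x i j, |pd j (pd i f) x| ≤ C0) →
      ∀ x, |lap (fun x : E => et (inner ℝ x e - s) * f x) x| ≤ 5 * ((1 + 3 * B) * C0)) := by
  have hC0 : 0 ≤ C0 := (abs_nonneg _).trans (hb0 0)
  have hdf : ∀ x, DifferentiableAt ℝ f x := fun x =>
    (hf.differentiable (by simp)).differentiableAt
  have hpf : ∀ i x, DifferentiableAt ℝ (pd i f) x := fun i x =>
    ((pd_contDiff hf i).differentiable (by simp)).differentiableAt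
  have hab : ∀ i : Fin 5, |e i| ≤ 1 := abs_coord_le he
  have hprod : ∀ u v a b : ℝ, |u| ≤ a → |v| ≤ b → |u * v| ≤ a * b := by
    intro u v a b hu hv
    rw [abs_mul]
    exact mul_le_mul hu hv (abs_nonneg _) ((abs_nonneg _).trans hu)
  constructor
  · intro x i
    rw [(pdA et_d1 e s f i x (hdf x)).2]
    refine (abs_add_le _ _).trans ?_
    have e1 := hprod _ _ 1 C0 (et_abs (inner ℝ x e - s)) (hb1 x i)
    have e2 := hprod _ _ 1 (B * C0) (hab i) (hprod _ _ B C0 (h1 (inner ℝ x e - s)) (hb0 x))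
    linarith
  · intro hb2 x
    unfold lap
    have hterm : ∀ i : Fin 5, |pd i (pd i (fun x : E => et (inner ℝ x e - s) * f x)) x| ≤
        (1 + 3 * B) * C0 := by
      intro i
      have hfun : pd i (fun x : E => et (inner ℝ x e - s) * f x) =
          fun x => et (inner ℝ x e - s) * pd i f x +
            e i * (deriv et (inner ℝ x e - s) * f x) := by
        funext y
        exact (pdA et_d1 e s f i y (hdf y)).2
      have hA := pdA et_d1 e s (pd i f) i x (hpf i x)
      have hB' := pdA et_d2 e s f i x (hdf x)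
      have hval : pd i (pd i (fun x : E => et (inner ℝ x e - s) * f x)) x =
          (et (inner ℝ x e - s) * pd i (pd i f) x +
            e i * (deriv et (inner ℝ x e - s) * pd i f x)) +
          e i * (deriv et (inner ℝ x e - s) * pd i f x +
            e i * (deriv (deriv et) (inner ℝ x e - s) * f x)) := by
        rw [hfun, ← hA.2, ← hB'.2]
        exact pd_add_mul i (e i) x hA.1 hB'.1
      rw [hval]
      have k1 := hprod _ _ 1 C0 (et_abs (inner ℝ x e - s)) (hb2 x i i)
      have k2 := hprod _ _ 1 (B * C0) (hab i)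
        (hprod _ _ B C0 (h1 (inner ℝ x e - s)) (hb1 x i))
      have k3 := hprod _ _ 1 (B * C0) (hab i)
        (hprod _ _ B C0 (h2 (inner ℝ x e - s)) (hb0 x))
      have k4 := hprod _ _ B C0 (h1 (inner ℝ x e - s)) (hb1 x i)
      have k5 : |deriv et (inner ℝ x e - s) * pd i f x +
            e i * (deriv (deriv et) (inner ℝ x e - s) * f x)| ≤ B * C0 + 1 * (B * C0) :=
        (abs_add_le _ _).trans (add_le_add k4 k3)
      have k6 := hprod _ _ 1 (B * C0 + 1 * (B * C0)) (hab i) k5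
      refine (abs_add_le _ _).trans ?_
      have k7 := (abs_add_le (et (inner ℝ x e - s) * pd i (pd i f) x)
        (e i * (deriv et (inner ℝ x e - s) * pd i f x))).trans (add_le_add k1 k2)
      linarith
    refine (Finset.abs_sum_le_sum_abs _ _).trans ?_
    refine (Finset.sum_le_card_nsmul _ _ _ (fun i _ => hterm i)).trans ?_
    simp

/-! ### The region -/

/-- the region -/
def rgn (e : E) (t D : ℝ) : Set E := {x | t - D ≤ inner ℝ x e ∧ ‖x‖ ≤ t + D}

theorem rgn_closed (e : E) (t D : ℝ) : IsClosed (rgn e t D) := by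
  refine IsClosed.inter ?_ ?_
  · exact isClosed_le (f := fun _ : E => t - D) (g := fun x : E => inner ℝ x e)
      continuous_const (continuous_id.inner continuous_const)
  · exact isClosed_le (f := fun x : E => ‖x‖) (g := fun _ : E => t + D)
      continuous_norm continuous_const

theorem rgn_volume {e : E} (he : ‖e‖ = 1) {t D : ℝ} (hD : 0 < D) (ht : D ≤ t) :
    volume (rgn e t D) ≤ ENNReal.ofReal (512 * D ^ 3 * t ^ 2) := by
  obtain ⟨b, hb⟩ := Orthonormal.exists_orthonormalBasis_extension_of_card_eq (ι := Fin 5)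
    (𝕜 := ℝ) (E := E) (by simp) (v := fun _ => e) (s := {0}) (by
      rw [orthonormal_iff_ite]
      rintro ⟨i, hi⟩ ⟨j, hj⟩
      have hi' : i = 0 := hi
      have hj' : j = 0 := hj
      subst hi'
      subst hj'
      simp [he])
  have hb0 : b 0 = e := hb 0 rfl
  set ρ : ℝ := √(4 * t * D) with hρ
  have hρ0 : 0 ≤ ρ := Real.sqrt_nonneg _
  have ht0 : 0 < t := by linarith
  have hρ2 : ρ ^ 2 = 4 * t * D := Real.sq_sqrt (by positivity)
  set Bx : Set (Fin 5 → ℝ) := Icc (fun i => if i = 0 then t - D else -ρ)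
    (fun i => if i = 0 then t + D else ρ) with hBx
  have hsub : rgn e t D ⊆ b.repr ⁻¹' ((WithLp.ofLp : E → (Fin 5 → ℝ)) ⁻¹' Bx) := by
    rintro x ⟨hx1, hx2⟩
    have hr0 : (b.repr x).ofLp 0 = inner ℝ x e := by
      rw [OrthonormalBasis.repr_apply_apply, hb0, real_inner_comm]
    have hnorm : ‖x‖ ^ 2 = ∑ i, ((b.repr x).ofLp i) ^ 2 := by
      rw [← LinearIsometryEquiv.norm_map b.repr x, EuclideanSpace.norm_sq_eq]
      simp
    have hxe : inner ℝ x e ≤ t + D := by
      have h1 : inner ℝ x e ≤ ‖x‖ * ‖e‖ := real_inner_le_norm x e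
      rw [he, mul_one] at h1
      linarith
    have hle : ∀ i : Fin 5, i ≠ 0 → ((b.repr x).ofLp i) ^ 2 ≤ ρ ^ 2 := by
      intro i hi
      have h1 : ((b.repr x).ofLp 0) ^ 2 + ((b.repr x).ofLp i) ^ 2 ≤ ‖x‖ ^ 2 := by
        rw [hnorm, ← Finset.sum_pair (f := fun j => ((b.repr x).ofLp j) ^ 2) (Ne.symm hi)]
        exact Finset.sum_le_sum_of_subset_of_nonneg (Finset.subset_univ _)
          (fun _ _ _ => sq_nonneg _)
      rw [hr0] at h1
      have h2 : (t - D) ^ 2 ≤ (inner ℝ x e) ^ 2 := pow_le_pow_left₀ (by linarith) hx1 2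
      have h3 : ‖x‖ ^ 2 ≤ (t + D) ^ 2 := pow_le_pow_left₀ (norm_nonneg x) hx2 2
      rw [hρ2]
      nlinarith
    rw [Set.mem_preimage, Set.mem_preimage, hBx, Set.mem_Icc]
    constructor
    · intro i
      dsimp only
      by_cases hi : i = 0
      · rw [if_pos hi, hi, hr0]
        exact hx1
      · rw [if_neg hi]
        exact (abs_le.1 (abs_le_of_sq_le_sq (hle i hi) hρ0)).1
    · intro i
      dsimp only
      by_cases hi : i = 0
      · rw [if_pos hi, hi, hr0]
        exact hxe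
      · rw [if_neg hi]
        exact (abs_le.1 (abs_le_of_sq_le_sq (hle i hi) hρ0)).2
  have hBm : MeasurableSet Bx := measurableSet_Icc
  have hm1 : MeasurableSet ((WithLp.ofLp : E → (Fin 5 → ℝ)) ⁻¹' Bx) :=
    (PiLp.volume_preserving_ofLp (Fin 5)).measurable hBm
  calc volume (rgn e t D) ≤ volume (b.repr ⁻¹' ((WithLp.ofLp : E → (Fin 5 → ℝ)) ⁻¹' Bx)) :=
        measure_mono hsub
    _ = volume ((WithLp.ofLp : E → (Fin 5 → ℝ)) ⁻¹' Bx) :=
        b.measurePreserving_repr.measure_preimage hm1.nullMeasurableSet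
    _ = volume Bx := (PiLp.volume_preserving_ofLp (Fin 5)).measure_preimage
        hBm.nullMeasurableSet
    _ = ENNReal.ofReal (512 * D ^ 3 * t ^ 2) := by
        rw [hBx, Real.volume_Icc_pi, ← ENNReal.ofReal_prod_of_nonneg]
        · congr 1
          rw [Fin.prod_univ_five]
          have e1 : ((1 : Fin 5) = 0) = False := by simp
          have e2 : ((2 : Fin 5) = 0) = False := by simp
          have e3 : ((3 : Fin 5) = 0) = False := by simp
          have e4 : ((4 : Fin 5) = 0) = False := by simp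
          simp only [e1, e2, e3, e4, if_true, if_false]
          have e5 : (t + D - (t - D)) * (ρ - -ρ) * (ρ - -ρ) * (ρ - -ρ) * (ρ - -ρ) =
              32 * D * (ρ ^ 2) ^ 2 := by ring
          rw [e5, hρ2]
          ring
        · intro i _
          by_cases hi : i = 0
          · rw [if_pos hi, if_pos hi]; linarith
          · rw [if_neg hi, if_neg hi]; linarith

theorem int_le {e : E} (he : ‖e‖ = 1) {t D Q : ℝ} (hD : 0 < D) (ht : D ≤ t) {F : E → ℝ}
    (hF : ∀ x, |F x| ≤ Q) (h0 : ∀ x, x ∉ rgn e t D → F x = 0) :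
    ∫ x, F x * F x ≤ Q ^ 2 * (512 * D ^ 3 * t ^ 2) := by
  have hQ : 0 ≤ Q := (abs_nonneg _).trans (hF 0)
  have hv := rgn_volume he hD ht
  have hfin : volume (rgn e t D) < ⊤ := lt_of_le_of_lt hv ENNReal.ofReal_lt_top
  have hms : MeasurableSet (rgn e t D) := (rgn_closed e t D).measurableSet
  have h1 : ∫ x, F x * F x ≤ ∫ x, (rgn e t D).indicator (fun _ => Q ^ 2) x := by
    refine integral_mono_of_nonneg (Eventually.of_forall fun x => mul_self_nonneg _) ?_
      (Eventually.of_forall fun x => ?_)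
    · rw [integrable_indicator_iff hms]
      exact integrableOn_const hfin.ne
    · dsimp only
      by_cases hx : x ∈ rgn e t D
      · rw [indicator_of_mem hx, ← sq, ← sq_abs]
        exact pow_le_pow_left₀ (abs_nonneg _) (hF x) 2
      · rw [indicator_of_notMem hx, h0 x hx, mul_zero]
  refine h1.trans ?_
  rw [integral_indicator_const _ hms, smul_eq_mul, mul_comm]
  refine mul_le_mul_of_nonneg_left ?_ (sq_nonneg _)
  rw [Measure.real]
  refine (ENNReal.toReal_mono ENNReal.ofReal_ne_top hv).trans ?_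
  rw [ENNReal.toReal_ofReal (by positivity)]

/-! ### The wave -/

theorem half_open (e : E) (c : ℝ) : IsOpen (half e c) :=
  isOpen_lt (f := fun _ : E => c) (g := fun x : E => inner ℝ x e)
    continuous_const (continuous_id.inner continuous_const)

theorem isTest_loc (e : E) (s : ℝ) {f : E → ℝ} (hf : IsTest f) :
    IsTest (fun x : E => et (inner ℝ x e - s) * f x) := by
  refine ⟨?_, ?_⟩
  · refine ContDiff.mul ?_ hf.1
    exact et_contDiff.comp ((contDiff_id.inner ℝ contDiff_const).sub contDiff_const)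
  · exact HasCompactSupport.mul_left (f := fun x : E => et (inner ℝ x e - s)) hf.2

theorem loc_zero {e : E} {t D c M0 : ℝ} (hD : D = M0 + |c| + 1) (hM0 : 1 ≤ M0) (ht : D ≤ t)
    {f : E → ℝ} (hf : ∀ x, M0 ≤ abs (‖x‖ - |t|) → f x = 0) :
    ∀ x ∈ (rgn e t D)ᶜ, (fun x : E => et (inner ℝ x e - (t + c)) * f x) x = 0 := by
  intro x hx
  have hc := neg_abs_le c
  have hc0 := abs_nonneg c
  have ht0 : 0 ≤ t := by linarith
  have hx' : inner ℝ x e < t - D ∨ t + D < ‖x‖ := by
    by_contra hno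
    push Not at hno
    exact hx hno
  dsimp only
  rcases hx' with h | h
  · rw [et_zero (by linarith), zero_mul]
  · rw [hf x (by
      rw [abs_of_nonneg ht0, le_abs]
      left
      linarith), mul_zero]

theorem norm_Theta_sq (hL : St_Lin) (hI : St_IP) {a b : E → ℝ} (ha : IsTest a) (hb : IsTest b) :
    ‖Theta a b‖ ^ 2 = c0 * ((∫ x, lap a x * lap a x) + ∑ i, ∫ x, pd i b x * pd i b x) := by
  rw [← real_inner_self_eq_norm_sq, hI (Theta a b) (Theta a b)]
  obtain ⟨_, _, _, hDD, hDV⟩ := hL.2.1 a b ha hb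
  have h1 : ∫ x, LU (Theta a b) x * LU (Theta a b) x = ∫ x, lap a x * lap a x := by
    refine integral_congr_ae ?_
    have h2 : ∀ᵐ x, ∀ i : Fin 5, DDU (Theta a b) i i x = pd i (pd i a) x :=
      ae_all_iff.2 fun i => hDD i i
    filter_upwards [h2] with x hx
    have h3 : LU (Theta a b) x = lap a x := by
      unfold LU lap
      exact Finset.sum_congr rfl fun i _ => hx i
    rw [h3]
  have h2 : ∀ i, ∫ x, DV (Theta a b) i x * DV (Theta a b) i x = ∫ x, pd i b x * pd i b x := by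
    intro i
    refine integral_congr_ae ?_
    filter_upwards [hDV i] with x hx
    rw [hx]
  rw [h1]
  simp only [h2]

theorem c0_nonneg : 0 ≤ c0 := by
  unfold c0
  positivity

theorem main (hL : St_Lin) (hI : St_IP) (hX : St_ExB) (hDc : St_Decay) {f g : E → ℝ}
    (hf : IsTest f) (hg : IsTest g) {e : E} (c : ℝ) (he : ‖e‖ = 1) :
    ∃ Kc T : ℝ, 0 ≤ Kc ∧ ∀ t, T ≤ t →
      ex (half e (c + t)) (tau t (Theta f g)) ^ 2 ≤ Kc / (1 + t ^ 2) := by
  obtain ⟨C, M0, hC, hM0, hdec⟩ := hDc f g hf hg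
  obtain ⟨B, hB, hB1, hB2⟩ := et_bounds
  set D : ℝ := M0 + |c| + 1 with hD
  have hD0 : 0 < D := by
    have := abs_nonneg c
    linarith
  set Q0 : ℝ := 5 * ((1 + 3 * B) * C) with hQ0
  refine ⟨c0 * (6 * (Q0 ^ 2 * (512 * D ^ 3))), D, ?_, ?_⟩
  · have := c0_nonneg
    positivity
  intro t ht
  obtain ⟨f', g', hf', hg', htau, hvan, hbd⟩ := hdec t
  have ht0 : 0 ≤ t := by linarith
  set C0 : ℝ := C / (1 + t ^ 2) with hC0
  have hC00 : 0 ≤ C0 := by positivity
  set a : E → ℝ := fun x => et (inner ℝ x e - (t + c)) * f' x with ha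
  set b : E → ℝ := fun x => et (inner ℝ x e - (t + c)) * g' x with hb
  have hat : IsTest a := isTest_loc e (t + c) hf'
  have hbt : IsTest b := isTest_loc e (t + c) hg'
  have hVan : Van (half e (c + t)) (tau t (Theta f g) - Theta a b) := by
    have h1 : tau t (Theta f g) - Theta a b = Theta f' g' + (-1 : ℝ) • Theta a b := by
      rw [htau, neg_one_smul, sub_eq_add_neg]
    rw [h1]
    have hl := hL.1 (-1) (Theta f' g') (Theta a b)
    have hv1 := hL.2.1 f' g' hf' hg'
    have hv2 := hL.2.1 a b hat hbt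
    have hone : ∀ x ∈ half e (c + t), et (inner ℝ x e - (t + c)) = 1 := by
      intro x hx
      have hx' : c + t < inner ℝ x e := hx
      exact et_one (by linarith)
    refine (hX.2.2.2.2.2.2.1 _ _ (half_open e (c + t))).2 ⟨?_, ?_⟩
    · filter_upwards [hl.1, hv1.1, hv2.1] with x h2 h3 h4 hx
      rw [h2, h3, h4, ha]
      dsimp only
      rw [hone x hx]
      ring
    · filter_upwards [hl.2.1, hv1.2.1, hv2.2.1] with x h2 h3 h4 hx
      rw [h2, h3, h4, hb]
      dsimp only
      rw [hone x hx]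
      ring
  have hex : ex (half e (c + t)) (tau t (Theta f g)) ≤ ‖Theta a b‖ :=
    (hX.2.2.2.2.2.1 _ _ _ hVan).1
  have hex0 : 0 ≤ ex (half e (c + t)) (tau t (Theta f g)) := norm_nonneg _
  refine (pow_le_pow_left₀ hex0 hex 2).trans ?_
  rw [norm_Theta_sq hL hI hat hbt]
  have hO : IsOpen (rgn e t D)ᶜ := (rgn_closed e t D).isOpen_compl
  have hza : ∀ x ∈ (rgn e t D)ᶜ, a x = 0 := loc_zero hD hM0 ht (fun x hx => (hvan x hx).1)
  have hzb : ∀ x ∈ (rgn e t D)ᶜ, b x = 0 := loc_zero hD hM0 ht (fun x hx => (hvan x hx).2)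
  set Q : ℝ := 5 * ((1 + 3 * B) * C0) with hQ
  have hba := bounds hB hB1 hB2 he (t + c) hf'.1 (fun x => (hbd x 0 0).1)
    (fun x i => (hbd x i 0).2.1)
  have hbb := bounds hB hB1 hB2 he (t + c) hg'.1 (fun x => (hbd x 0 0).2.2.2.1)
    (fun x i => (hbd x i 0).2.2.2.2)
  have hI1 : ∫ x, lap a x * lap a x ≤ Q ^ 2 * (512 * D ^ 3 * t ^ 2) := by
    refine int_le he hD0 ht (hba.2 (fun x i j => (hbd x i j).2.2.1)) ?_
    intro x hx
    unfold lap
    refine Finset.sum_eq_zero fun i _ => ?_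
    exact pd_zero hO (pd_zero hO hza i) i x hx
  have hI2 : ∀ i : Fin 5, ∫ x, pd i b x * pd i b x ≤ Q ^ 2 * (512 * D ^ 3 * t ^ 2) := by
    intro i
    refine int_le he hD0 ht ?_ ?_
    · intro x
      refine (hbb.1 x i).trans ?_
      rw [hQ]
      have : 0 ≤ B * C0 := by positivity
      nlinarith
    · intro x hx
      exact pd_zero hO hzb i x hx
  have hsum : (∫ x, lap a x * lap a x) + ∑ i, ∫ x, pd i b x * pd i b x ≤
      6 * (Q ^ 2 * (512 * D ^ 3 * t ^ 2)) := by
    have h1 : ∑ i, ∫ x, pd i b x * pd i b x ≤ 5 * (Q ^ 2 * (512 * D ^ 3 * t ^ 2)) := by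
      refine (Finset.sum_le_card_nsmul _ _ _ (fun i _ => hI2 i)).trans ?_
      simp
    linarith
  refine (mul_le_mul_of_nonneg_left hsum c0_nonneg).trans ?_
  rw [mul_div_assoc]
  refine mul_le_mul_of_nonneg_left ?_ c0_nonneg
  have hQQ : Q = Q0 / (1 + t ^ 2) := by
    rw [hQ, hQ0, hC0]
    ring
  rw [hQQ, div_pow, le_div_iff₀ (by positivity)]
  have h3 : 6 * (Q0 ^ 2 / (1 + t ^ 2) ^ 2 * (512 * D ^ 3 * t ^ 2)) * (1 + t ^ 2) =
      6 * (Q0 ^ 2 * (512 * D ^ 3)) * (t ^ 2 / (1 + t ^ 2)) := by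
    field_simp
  rw [h3]
  refine mul_le_of_le_one_right (by positivity) ?_
  rw [div_le_one (by positivity)]
  linarith

end D1x

open D1x in
/-- **D1** -/
theorem thm_D1 (hDens : St_Dens) (hL : St_Lin) (hI : St_IP) (hX : St_ExB) (hDc : St_Decay) :
    St_D1 := by
  intro k e c he
  rw [Metric.tendsto_atTop]
  intro ε hε
  obtain ⟨f, g, hf, hg, hfg⟩ := hDens.2 k (ε / 2) (half_pos hε)
  obtain ⟨Kc, T, hK, hmain⟩ := main hL hI hX hDc hf hg c he
  refine ⟨max T (4 * Kc / ε ^ 2 + 1), ?_⟩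
  intro t ht
  have ht1 : T ≤ t := (le_max_left _ _).trans ht
  have ht2 : 4 * Kc / ε ^ 2 + 1 ≤ t := (le_max_right _ _).trans ht
  have h0 : 0 ≤ 4 * Kc / ε ^ 2 := by positivity
  have hex0 : 0 ≤ ex (half e (c + t)) (tau t k) := norm_nonneg _
  rw [Real.dist_eq, sub_zero, abs_of_nonneg hex0]
  have h1 := hmain t ht1
  have h2 : Kc / (1 + t ^ 2) < (ε / 2) ^ 2 := by
    rw [div_lt_iff₀ (by positivity)]
    have h3 : 4 * Kc / ε ^ 2 < 1 + t ^ 2 := by nlinarith
    rw [div_lt_iff₀ (by positivity)] at h3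
    nlinarith
  have h3 : ex (half e (c + t)) (tau t (Theta f g)) < ε / 2 :=
    lt_of_pow_lt_pow_left₀ 2 (by positivity) (h1.trans_lt h2)
  have h4 := hX.1 (half e (c + t)) (tau t k) (tau t (Theta f g))
  have h5 : ‖tau t k - tau t (Theta f g)‖ = ‖k - Theta f g‖ := by
    rw [← map_sub, LinearIsometry.norm_map]
  rw [h5] at h4
  have h6 := le_abs_self (ex (half e (c + t)) (tau t k) - ex (half e (c + t)) (tau t (Theta f g)))
  linarith

end Pool.Agent.QWE
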