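import Pool.Agent.QWE.StD

set_option autoImplicit false

/-!
# QWE: module D2 (small data in a half space moving with speed one)
-/

open MeasureTheory Filter Topology Set
open scoped ENNReal NNReal RealInnerProductSpace

namespace Pool.Agent.QWE

theorem thm_D2 (hExt : St_Ext) (hD1 : St_D1) (hEx : St_ExB) (hHB : St_HB) (hGrp : St_Grp1) : St_D2 := by
  obtain ⟨d0, C, hd0, -, hE⟩ := hExt
  obtain ⟨x1, -, -, -, -, x6, -, -, -, -, -⟩ := hEx
  obtain ⟨hop, -, -, hshr, -, -⟩ := hHB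
  obtain ⟨g1, g2, -, -, -, -, -, -, -⟩ := hGrp
  refine ⟨d0, hd0, ?_⟩
  intro k e c s hk he hd
  obtain ⟨k', -, -, -, -, -, ⟨kp, hkp⟩, -, hV⟩ := hE univ k s (half e c) hk (mem_univ s) (hop e c) hd
  have hV' : ∀ t, s ≤ t → Van (half e (c + (t - s))) (k t - k' t) ∧
      ex (half e (c + (t - s))) (k t) ≤ 2 * ex (half e c) (k s) := by
    intro t ht
    have h1 := hV t (mem_univ t)
    rw [abs_of_nonneg (sub_nonneg.2 ht), hshr e c (t - s) he (sub_nonneg.2 ht)] at h1
    exact h1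
  refine ⟨fun t ht => (hV' t ht).2, ?_⟩
  have hD := hD1 kp e (c - s) he
  have hN : Tendsto (fun t => ‖tau (-t) (k' t) - kp‖) atTop (𝓝 0) :=
    tendsto_iff_norm_sub_tendsto_zero.1 hkp
  have hsum : Tendsto (fun t : ℝ => ex (half e (c - s + t)) (tau t kp) + ‖tau (-t) (k' t) - kp‖)
      atTop (𝓝 0) := by simpa using hD.add hN
  refine squeeze_zero' (Eventually.of_forall fun t => norm_nonneg _) ?_ hsum
  filter_upwards [eventually_ge_atTop s] with t ht
  have h1 := (x6 _ _ _ (hV' t ht).1).2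
  have h2 := (abs_le.1 (x1 (half e (c + (t - s))) (k' t) (tau t kp))).2
  have h3 : ‖k' t - tau t kp‖ = ‖tau (-t) (k' t) - kp‖ := by
    have h4 : tau (-t) (k' t) - kp = tau (-t) (k' t - tau t kp) := by
      rw [map_sub, g1, neg_add_cancel, g2]
    rw [h4, LinearIsometry.norm_map]
  have h5 : c - s + t = c + (t - s) := by ring
  rw [h1, h5]
  linarith

end Pool.Agent.QWE
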