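import Pool.Agent.QWE.StA
import Pool.Agent.QWE.StC

set_option autoImplicit false

/-!
# QWE, block D: subluminality (Section 4 of the paper)

Every `St_X` is to be proved as `theorem thm_X : St_X` (possibly with other `St_Y` as hypotheses) in
`Pool/Agent/QWE/X.lean`. Paper: `/team-store/R5_paper.md`. Below `h(k; e, c) = ex (half e c) k`,
`half e c = {x | c < ⟪x, e⟫}`. `St_D1` is in `StA.lean`.
-/

open MeasureTheory Filter Topology Set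
open scoped ENNReal NNReal RealInnerProductSpace

namespace Pool.Agent.QWE

/-- **HB** (half spaces, elementary facts). From `St_Act`, `St_ExB`, `St_Grp1`.
(1) `half e c` is open; antitone in `c`. (2) `half e C ⊆ ext 0 C` and `ball 0 C ⊆ half e (-C)` for `‖e‖ = 1`
(Cauchy-Schwarz). (3) `shr (half e c) s = half e (c + s)` for `s ≥ 0`, `‖e‖ = 1`: the open ball of radius `b > 0`
about `x` lies in `half e c` iff `⟪x,e⟫ - b ≥ c` (for `⟪x,e⟫ - b < c` take the point `x - b' e`, `b' < b` close to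
`b`). (4) `ex (half e c) (gr y a k) = ex (half e (e^a (c - ⟪y,e⟫))) k`: `St_Act` and
`{z | y + e^{-a} z ∈ half e c} = half e (e^a (c - ⟪y,e⟫))`. (5) `h(k; e, c - s) ≤ h(k; e, c) + ‖sh (s e) k - k‖`:
`h(k; e, c - s) = h(sh (s e) k; e, c)` (as (4) with `a = 0`, `dl 0 k = k`), and `ex` is 1-Lipschitz. -/
def St_HB : Prop :=
  (∀ (e : E) (c : ℝ), IsOpen (half e c)) ∧
  (∀ (e : E) (c c' : ℝ) (k : K), c ≤ c' → ex (half e c') k ≤ ex (half e c) k) ∧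
  (∀ (e : E) (c : ℝ), ‖e‖ = 1 → half e c ⊆ ext 0 c ∧ Metric.ball 0 c ⊆ half e (-c)) ∧
  (∀ (e : E) (c s : ℝ), ‖e‖ = 1 → 0 ≤ s → shr (half e c) s = half e (c + s)) ∧
  (∀ (e y : E) (c a : ℝ) (k : K),
    ex (half e c) (gr y a k) = ex (half e (Real.exp a * (c - inner ℝ y e))) k) ∧
  (∀ (e : E) (c s : ℝ) (k : K), ‖e‖ = 1 →
    ex (half e (c - s)) k ≤ ex (half e c) k + ‖sh (s • e) k - k‖)

/-- **Hcp** (uniformity on compact sets). Hypotheses `St_ExB`, `St_HB`. Proof: for `κ ∈ K` the functions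
`ex (ext 0 R) κ → 0` and `ex (ball 0 R) κ → ‖κ‖` as `R → ∞` (ExB), monotone in `R`, and 1-Lipschitz in `κ`: by
compactness (finite `d/3`-net) uniformly in `κ ∈ Q`; then HB (2) and monotonicity of `ex` in the set. -/
def St_Hcp : Prop := ∀ (Q : Set K) (d : ℝ), IsCompact Q → 0 < d → ∃ C0 : ℝ, 0 < C0 ∧
  ∀ κ ∈ Q, ∀ e : E, ‖e‖ = 1 → ex (half e C0) κ ≤ d ∧ ‖κ‖ - d ≤ ex (half e (-C0)) κ

/-- **Hsc** (semicontinuity in all variables). Hypotheses `St_ExB`, `St_Cut`, `St_HB`.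
First part (upper semicontinuity): let `D = W' - pr (half e' b1) W'`, so `Van (half e' b1) D`; by Cut choose `M` with
`‖D - X M D‖ ≤ ε/2`; `D_M = X M D` has fields vanishing on `half e' b1` and on `ext 0 (2M+2)` (both open). For `n` large
`half (e n) (b n) ⊆ half e' b1 ∪ ext 0 (2M+2)` (for `|x| ≤ 2M+2` and `⟪x,e n⟫ > b n` one has
`⟪x,e'⟫ > b n - (2M+2) ‖e n - e'‖ > b1`), so `Van (half (e n) (b n)) D_M` (ExB characterisation of `Van` on open sets), and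
`ex (half (e n) (b n)) (W n) ≤ ‖W n - W'‖ + ‖pr (half e' b1) W'‖ + ‖D - D_M‖` (`ex` of a sum is at most the sum of `ex`,
`ex Ω k = ‖pr Ω k‖`, `ex ≤ ‖·‖`).
Second part (lower semicontinuity): for `m ∈ ℕ` the open set `Ω_m = half e' (b' + 1/(m+1)) ∩ ball 0 m` is contained in
`half (e n) (b n)` for `n` large, so `ex Ω_m (W n) ≤ d`, hence `ex Ω_m W' ≤ d` (Lipschitz); `Ω_m` increases to
`half e' b'` (ExB, increasing unions). -/
def St_Hsc : Prop :=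
  (∀ (W : ℕ → K) (W' : K) (e : ℕ → E) (e' : E) (b : ℕ → ℝ) (b' b1 ε : ℝ),
    Tendsto W atTop (𝓝 W') → Tendsto e atTop (𝓝 e') → Tendsto b atTop (𝓝 b') → b1 < b' → 0 < ε →
    ∀ᶠ n in atTop, ex (half (e n) (b n)) (W n) ≤ ex (half e' b1) W' + ε) ∧
  (∀ (W : ℕ → K) (W' : K) (e : ℕ → E) (e' : E) (b : ℕ → ℝ) (b' d : ℝ),
    Tendsto W atTop (𝓝 W') → Tendsto e atTop (𝓝 e') → Tendsto b atTop (𝓝 b') →
    (∀ n, ex (half (e n) (b n)) (W n) ≤ d) → ex (half e' b') W' ≤ d)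

/-- **D2** (small data in a half space moving with speed one). Hypotheses `St_Ext`, `St_Small`, `St_D1`, `St_ExB`,
`St_HB`, `St_Uniq`, `St_Grp1`. Proof: Ext with `Ω = half e c`, `t0 = s`: there is a global solution `kt` with
`kt s = pr Ω (k s)`, `‖kt t‖ ≤ 2 ex Ω (k s)` and `Van (shr Ω |t - s|) (k t - kt t)`; `shr Ω (t - s) = half e (c + (t - s))`
(HB). So `ex (half e (c + (t - s))) (k t) = ex (..) (kt t) ≤ ‖kt t‖`. By Small `tau (-t) (kt t) → kp` as `t → ∞`, so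
`‖kt t - tau t kp‖ → 0` and `ex (half e (c - s + t)) (tau t kp) → 0` by D1. -/
def St_D2 : Prop := ∃ d0 : ℝ, 0 < d0 ∧ ∀ (k : ℝ → K) (e : E) (c s : ℝ), IsSol univ k → ‖e‖ = 1 →
  ex (half e c) (k s) ≤ d0 →
  (∀ t, s ≤ t → ex (half e (c + (t - s))) (k t) ≤ 2 * ex (half e c) (k s)) ∧
  Tendsto (fun t => ex (half e (c + (t - s))) (k t)) atTop (𝓝 0)

/-- **D3** (gain over the speed of light). Hypotheses `St_D2`, `St_HB`, `St_Hcp`, `St_Hsc`, `St_C3`, `St_GrA`,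
`St_CSy` (rescaled compact solutions are compact solutions), `St_Grp1`. Take `d0 = (d0 of D2)/2`.
Proof. Assume the contrary. With `Tb = n + 2`, `s1 = 1/(n+2)` there are `t_n, e_n, c_n` with `h(k(t_n); e_n, c_n) ≤ d1` but
`h(k(t_n + Tb e^{-a(t_n)}); e_n, c_n + (Tb - s1) e^{-a(t_n)}) > d1`. Put `κ_n(t) = ig (x t_n) (a t_n) (k (t_n + t e^{-a(t_n)}))`, a global
solution with `κ_n(0) ∈ Q` (GrA: `ig` inverts `gr`), `c'_n = e^{a(t_n)} (c_n - ⟪x t_n, e_n⟫)`. By HB (4):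
`h(κ_n(0); e_n, c'_n) ≤ d1` and `h(κ_n(n+2); e_n, c'_n + n + 2 - 1/(n+2)) > d1`. `c'_n` is bounded below: by Hcp (with a `d` such
that `d1 + d < ‖κ‖` on the compact set `Q`) there is `C0` with `h(κ; e, -C0) > d1` for `κ ∈ Q`, so `c'_n > -C0`. We may also assume
`c'_n ≤ C0` where `h(κ; e, C0) ≤ d1` on `Q`: if `c'_n > C0` replace it by `C0` (the hypothesis stays true and the second
inequality becomes stronger, as `h` is antitone in `c`). Subsequence: `κ_n(0) → κ ∈ Q`, `e_n → e` (unit sphere compact),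
`c'_n → c`. C3: there is a global solution `k'` with `k' 0 = κ` and `κ_n(s) → k' s` for every fixed `s`. Hsc (2):
`h(κ; e, c) ≤ d1`. HB (5) and continuity of `s ↦ sh (s e) κ` (Grp1): there is `s2 > 0` with `h(κ; e, c - s2) ≤ 2 d1`. D2 for
`k'`: there is `T > 0` with `h(k' T; e, c - s2 + T) ≤ d1/4`. Hsc (1) with `W n = κ_n(T)`, `b n = c'_n - s2/2 + T`,
`b1 = c - s2 + T`, `ε = d1/4`: `h(κ_n(T); e_n, c'_n - s2/2 + T) ≤ d1/2` for `n` large. D2 for `κ_n` from time `T` on: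
`h(κ_n(t); e_n, c'_n - s2/2 + t) ≤ d1` for `t ≥ T`. With `t = n + 2 ≥ T`, `1/(n+2) ≤ s2/2` and monotonicity this contradicts
the second inequality. -/
def St_D3 : Prop := ∃ d0 : ℝ, 0 < d0 ∧
  ∀ (Q : Set K) (k : ℝ → K) (x : ℝ → E) (a : ℝ → ℝ) (d1 : ℝ), CSol Q univ k x a →
  0 < d1 → d1 ≤ d0 → (∀ κ ∈ Q, d1 < ‖κ‖) → ∃ Tb s1 : ℝ, 0 < s1 ∧ s1 < Tb ∧
  ∀ (t : ℝ) (e : E) (c : ℝ), ‖e‖ = 1 → ex (half e c) (k t) ≤ d1 →
    ex (half e (c + (Tb - s1) * Real.exp (-(a t)))) (k (t + Tb * Real.exp (-(a t)))) ≤ d1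

/-- **D4** (speed of the centre). Hypotheses `St_D2`, `St_D3`, `St_HB`, `St_Hcp`, `St_ABd`.
Proof. `Q` is compact, nonempty, `0 ∉ Q`, so `m0 = min ‖κ‖ > 0`. Choose `d1 > 0`, `d1 < m0`, `d1 ≤ d0` of D3 and of D2. `Tb, s1`
from D3, `κ = s1/Tb ∈ (0,1)`. Hcp: `C0` with `h(κ; e, C0) ≤ d1/2` and `h(κ; e, -C0) > d1` for `κ ∈ Q`, `‖e‖ = 1`. In terms of
`k(t) = gr (x t) (a t) κ_t` (HB (4)): (i) `h(k(t); e, ⟪x t,e⟫ + C0 e^{-a t}) ≤ d1/2`, (ii) `h(k(t); e, c) ≤ d1` implies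
`c > ⟪x t,e⟫ - C0 e^{-a t}`; and `e^{-a t} ≤ 2`. Let `s < t`, `‖e‖ = 1`, `t_0 = s`, `t_{j+1} = t_j + Tb e^{-a(t_j)}`. `a ≤ B` on
`[s,t]` (ABd), so the steps are `≥ Tb e^{-B}` as long as `t_j ≤ t`, and there is `J` with `t_J ≤ t < t_{J+1}`. With
`c_j = ⟪x s,e⟫ + C0 e^{-a s} + (1 - κ)(t_j - s)` D3 gives by induction `h(k(t_j); e, c_j) ≤ d1` for `j ≤ J`
(`(Tb - s1) e^{-a} = (1 - κ) Tb e^{-a}`), so by (ii) `⟪x t_J,e⟫ ≤ ⟪x s,e⟫ + (1 - κ)(t_J - s) + 4 C0`. By (i) at `t_J` and D2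
`h(k(t); e, ⟪x t_J,e⟫ + C0 e^{-a t_J} + t - t_J) ≤ d1`, so by (ii) `⟪x t,e⟫ ≤ ⟪x t_J,e⟫ + 4 C0 + 2 Tb`. Together
`⟪x t - x s, e⟫ ≤ (1 - κ)(t - s) + 8 C0 + 2 Tb` for every unit vector `e`; take `e = (x t - x s)/‖x t - x s‖`. -/
def St_D4 : Prop := ∀ (Q : Set K) (k : ℝ → K) (x : ℝ → E) (a : ℝ → ℝ), NSol Q k x a →
  ∃ kap C : ℝ, 0 < kap ∧ kap < 1 ∧ ∀ s t, dist (x t) (x s) ≤ (1 - kap) * |t - s| + C

/-- **Intp** (interpolation; elementary). Proof: `C ≥ 0` (take `s = t`). Choose `L > 0` with `C ≤ (kap/2) L`. `y` is the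
linear interpolation of `x` at the points `n L`, `n ∈ ℤ`: `y t = (1 - θ) x(nL) + θ x((n+1)L)`, `n = ⌊t/L⌋`,
`θ = Int.fract (t/L)`. On `[nL, (n+1)L]` it has Lipschitz constant `‖x((n+1)L) - x(nL)‖/L ≤ (1 - kap) + C/L ≤ 1 - kap/2`, so
on `ℝ` as well (chain the points `nL` between `s` and `t`). `‖x t - y t‖ ≤ ‖x t - x(nL)‖ + ‖x(nL) - y t‖ ≤ (1-kap) L + C + L`. -/
def St_Intp : Prop := ∀ (x : ℝ → E) (kap C : ℝ), 0 < kap → kap < 1 →
  (∀ s t, dist (x t) (x s) ≤ (1 - kap) * |t - s| + C) →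
  ∃ (y : ℝ → E) (kap' C' : ℝ), 0 < kap' ∧ kap' < 1 ∧
    (∀ s t, dist (y t) (y s) ≤ (1 - kap') * |t - s|) ∧ ∀ t, dist (x t) (y t) ≤ C'

/-! **D5** (subluminal centre) is `St_D5` in `StE.lean`; it is D4 and Intp (module `D5.lean`). -/

end Pool.Agent.QWE
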