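import Pool.Agent.QWE.StA
import Pool.Agent.QWE.StD

set_option autoImplicit false

/-!
# QWE / D3: gain over the speed of light
-/

open MeasureTheory Filter Topology Set
open scoped ENNReal NNReal RealInnerProductSpace

namespace Pool.Agent.QWE

namespace D3x

/-- the rescaled solutions are solutions -/
theorem sol (hCSy : St_CSy) {Q : Set K} {k : ℝ → K} {x : ℝ → E} {a : ℝ → ℝ}
    (h : CSol Q univ k x a) (y0 : E) (a0 t0 : ℝ) :
    IsSol univ (fun s => ig y0 a0 (k (t0 + Real.exp (-a0) * s))) := by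
  have h1 := (hCSy.1 Q univ k x a h y0 a0 t0).2.2.1.1
  have h2 : {s : ℝ | t0 + Real.exp (-a0) * s ∈ (univ : Set ℝ)} = univ := by
    ext s
    simp
  rw [h2] at h1
  exact h1

end D3x

open D3x in
theorem thm_D3 (hD2 : St_D2) (hHB : St_HB) (hHcp : St_Hcp) (hHsc : St_Hsc) (hC3 : St_C3)
    (hGrA : St_GrA) (hCSy : St_CSy) (hGrp1 : St_Grp1) : St_D3 := by
  obtain ⟨D, hD, hD2⟩ := hD2
  refine ⟨D / 2, by positivity, ?_⟩
  intro Q k x a d1 hk hd1 hd1D hQ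
  by_contra hcon
  push Not at hcon
  -- the sequences
  have hn0 : ∀ n : ℕ, (0 : ℝ) < (n : ℝ) + 2 := fun n => by positivity
  have hex : ∀ n : ℕ, ∃ (t : ℝ) (e : E) (c : ℝ), ‖e‖ = 1 ∧ ex (half e c) (k t) ≤ d1 ∧
      d1 < ex (half e (c + (((n : ℝ) + 2) - 1 / ((n : ℝ) + 2)) * Real.exp (-(a t))))
        (k (t + ((n : ℝ) + 2) * Real.exp (-(a t)))) := by
    intro n
    have h1 : 1 / ((n : ℝ) + 2) < (n : ℝ) + 2 := by
      rw [div_lt_iff₀ (hn0 n)]
      have : (0 : ℝ) ≤ n := Nat.cast_nonneg n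
      nlinarith
    exact hcon ((n : ℝ) + 2) (1 / ((n : ℝ) + 2)) (by positivity) h1
  choose t e c he hc1 hc2 using hex
  have hκ : ∀ n : ℕ, ∃ κ ∈ Q, k (t n) = gr (x (t n)) (a (t n)) κ := fun n =>
    hk.2.2.2 (t n) (mem_univ _)
  choose κn hκQ hκk using hκ
  obtain ⟨c', hc'⟩ : ∃ c' : ℕ → ℝ, ∀ n, c' n = Real.exp (a (t n)) * (c n - inner ℝ (x (t n)) (e n)) :=
    ⟨_, fun _ => rfl⟩
  obtain ⟨kn, hkn⟩ : ∃ kn : ℕ → ℝ → K, ∀ n s, kn n s =
      ig (x (t n)) (a (t n)) (k (t n + Real.exp (-(a (t n))) * s)) := ⟨_, fun _ _ => rfl⟩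
  obtain ⟨hHB1, hHB2, hHB3, hHB4, hHB5, hHB6⟩ := hHB
  -- the two inequalities in terms of the rescaled solutions
  have g1 : ∀ n, ex (half (e n) (c' n)) (κn n) ≤ d1 := by
    intro n
    have h1 := hc1 n
    rw [hκk n, hHB5, ← hc' n] at h1
    exact h1
  have g2 : ∀ n, d1 < ex (half (e n) (c' n + (((n : ℝ) + 2) - 1 / ((n : ℝ) + 2))))
      (kn n ((n : ℝ) + 2)) := by
    intro n
    have h1 := hc2 n
    have h2 := (hGrA.2.2.1 (x (t n)) (a (t n)) (k (t n + ((n : ℝ) + 2) * Real.exp (-(a (t n)))))).1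
    rw [← h2, hHB5] at h1
    have h3 : Real.exp (a (t n)) * (c n + (((n : ℝ) + 2) - 1 / ((n : ℝ) + 2)) *
        Real.exp (-(a (t n))) - inner ℝ (x (t n)) (e n)) =
        c' n + (((n : ℝ) + 2) - 1 / ((n : ℝ) + 2)) := by
      rw [hc' n]
      have h4 : Real.exp (a (t n)) * Real.exp (-(a (t n))) = 1 := by
        rw [← Real.exp_add, add_neg_cancel, Real.exp_zero]
      linear_combination (((n : ℝ) + 2) - 1 / ((n : ℝ) + 2)) * h4
    rw [h3, mul_comm ((n : ℝ) + 2) (Real.exp (-(a (t n)))), ← hkn n ((n : ℝ) + 2)] at h1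
    exact h1
  -- bounds for `c'`
  have hQne : Q.Nonempty := ⟨κn 0, hκQ 0⟩
  obtain ⟨κm, hκm, hmin⟩ := hk.1.exists_isMinOn hQne continuous_norm.continuousOn
  have hm0 := hQ κm hκm
  obtain ⟨C0, hC0, hC0'⟩ := hHcp Q ((‖κm‖ - d1) / 2) hk.1 (by linarith)
  obtain ⟨C1, hC1, hC1'⟩ := hHcp Q d1 hk.1 hd1
  have hlow : ∀ n, -C0 ≤ c' n := by
    intro n
    by_contra h
    rw [not_le] at h
    have h1 := hHB2 (e n) (c' n) (-C0) (κn n) h.le
    have h2 := (hC0' (κn n) (hκQ n) (e n) (he n)).2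
    have h3 : ‖κm‖ ≤ ‖κn n‖ := hmin (hκQ n)
    have h4 := g1 n
    linarith
  obtain ⟨b, hb⟩ : ∃ b : ℕ → ℝ, ∀ n, b n = min (c' n) C1 := ⟨_, fun _ => rfl⟩
  have hb1 : ∀ n, ex (half (e n) (b n)) (κn n) ≤ d1 := by
    intro n
    rw [hb n]
    rcases le_total (c' n) C1 with h | h
    · rw [min_eq_left h]
      exact g1 n
    · rw [min_eq_right h]
      exact (hC1' (κn n) (hκQ n) (e n) (he n)).1
  have hb2 : ∀ n, d1 < ex (half (e n) (b n + (((n : ℝ) + 2) - 1 / ((n : ℝ) + 2))))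
      (kn n ((n : ℝ) + 2)) := by
    intro n
    refine lt_of_lt_of_le (g2 n) (hHB2 _ _ _ _ ?_)
    have : b n ≤ c' n := by rw [hb n]; exact min_le_left _ _
    linarith
  have hbI : ∀ n, b n ∈ Icc (-C0) C1 := by
    intro n
    rw [hb n]
    exact ⟨le_min (hlow n) (by linarith), min_le_right _ _⟩
  -- a convergent subsequence
  have hcpt : IsCompact (Q ×ˢ (Metric.sphere (0 : E) 1 ×ˢ Icc (-C0) C1)) :=
    hk.1.prod ((isCompact_sphere _ _).prod isCompact_Icc)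
  obtain ⟨⟨κ, e0, c0⟩, hmem, φ, hφ, hlim⟩ := hcpt.tendsto_subseq
    (x := fun n => (κn n, e n, b n)) (fun n => ⟨hκQ n, by simpa using he n, hbI n⟩)
  have hlκ : Tendsto (fun n => κn (φ n)) atTop (𝓝 κ) := (continuous_fst.tendsto _).comp hlim
  have hle : Tendsto (fun n => e (φ n)) atTop (𝓝 e0) :=
    ((continuous_fst.comp continuous_snd).tendsto _).comp hlim
  have hlb : Tendsto (fun n => b (φ n)) atTop (𝓝 c0) :=
    ((continuous_snd.comp continuous_snd).tendsto _).comp hlim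
  have he0 : ‖e0‖ = 1 := by
    have := hmem.2.1
    simpa using this
  -- the limit solution
  obtain ⟨k', x', a', hk', hk'0, hconv, -⟩ := hC3 Q k x a hk (fun n => t (φ n)) (fun n => κn (φ n)) κ
    (fun n => ⟨hκQ (φ n), hκk (φ n)⟩) hlκ
  have h1 : ex (half e0 c0) κ ≤ d1 := hHsc.2 (fun n => κn (φ n)) κ (fun n => e (φ n)) e0
    (fun n => b (φ n)) c0 d1 hlκ hle hlb (fun n => hb1 (φ n))
  obtain ⟨s2, hs2, hs2'⟩ : ∃ s2 : ℝ, 0 < s2 ∧ ‖sh (s2 • e0) κ - κ‖ ≤ d1 := by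
    have hcont := (hGrp1.2.2.2.2.2.2.2.2 κ).continuousAt (x := (0 : E))
    obtain ⟨η, hη, hη'⟩ := Metric.continuousAt_iff.1 hcont d1 hd1
    refine ⟨η / 2, by positivity, ?_⟩
    have h2 := hη' (x := (η / 2) • e0) (by
      rw [dist_zero_right, norm_smul, he0, mul_one, Real.norm_of_nonneg (by positivity)]
      linarith)
    rw [hGrp1.2.2.2.1, dist_eq_norm] at h2
    exact h2.le
  have h2 : ex (half e0 (c0 - s2)) (k' 0) ≤ 2 * d1 := by
    rw [hk'0]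
    have := hHB6 e0 c0 s2 κ he0
    linarith
  have h3 := (hD2 k' e0 (c0 - s2) 0 hk'.2.2.1.1 he0 (by linarith)).2
  obtain ⟨T, hT0, hT⟩ : ∃ T : ℝ, 0 ≤ T ∧ ex (half e0 (c0 - s2 + (T - 0))) (k' T) ≤ d1 / 4 := by
    have h4 : ∀ᶠ T : ℝ in atTop, ex (half e0 (c0 - s2 + (T - 0))) (k' T) < d1 / 4 :=
      h3.eventually (gt_mem_nhds (by positivity))
    obtain ⟨T, hT1, hT2⟩ := (h4.and (eventually_ge_atTop 0)).exists
    exact ⟨T, hT2, hT1.le⟩
  rw [sub_zero] at hT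
  have hW : Tendsto (fun n => kn (φ n) T) atTop (𝓝 (k' T)) := by
    have := hconv (fun _ => T) T tendsto_const_nhds
    refine this.congr fun n => ?_
    rw [hkn]
  have h5 := hHsc.1 (fun n => kn (φ n) T) (k' T) (fun n => e (φ n)) e0
    (fun n => b (φ n) - s2 / 2 + T) (c0 - s2 / 2 + T) (c0 - s2 + T) (d1 / 4) hW hle
    ((hlb.sub_const _).add_const _) (by linarith) (by positivity)
  have hφ1 : Tendsto (fun n => ((φ n : ℕ) : ℝ)) atTop atTop :=
    tendsto_natCast_atTop_atTop.comp hφ.tendsto_atTop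
  obtain ⟨n, hn1, hn2, hn3⟩ := (h5.and ((hφ1.eventually_ge_atTop T).and
    (hφ1.eventually_ge_atTop (2 / s2)))).exists
  have hsol : IsSol univ (kn (φ n)) := by
    have := sol hCSy hk (x (t (φ n))) (a (t (φ n))) (t (φ n))
    have h6 : kn (φ n) = fun s => ig (x (t (φ n))) (a (t (φ n)))
        (k (t (φ n) + Real.exp (-(a (t (φ n)))) * s)) := funext fun s => hkn _ _
    rw [h6]
    exact this
  have h6 : ex (half (e (φ n)) (b (φ n) - s2 / 2 + T)) (kn (φ n) T) ≤ d1 / 2 := by linarith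
  have h7 := (hD2 (kn (φ n)) (e (φ n)) (b (φ n) - s2 / 2 + T) T hsol (he _) (by linarith)).1
    ((φ n : ℝ) + 2) (by linarith)
  have h8 := hb2 (φ n)
  have h9 : b (φ n) - s2 / 2 + T + ((φ n : ℝ) + 2 - T) ≤
      b (φ n) + (((φ n : ℝ) + 2) - 1 / ((φ n : ℝ) + 2)) := by
    have h10 : 1 / ((φ n : ℝ) + 2) ≤ s2 / 2 := by
      rw [div_le_iff₀ (hn0 (φ n))]
      rw [div_le_iff₀ hs2] at hn3
      nlinarith
    linarith
  have h10 := hHB2 (e (φ n)) _ _ (kn (φ n) ((φ n : ℝ) + 2)) h9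
  linarith

end Pool.Agent.QWE
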