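import Pool.Agent.QWE.StD
import Pool.Agent.QWE.StE

set_option autoImplicit false

/-!
# QWE, D5: the centre of a normalised compact solution is subluminal
-/

namespace Pool.Agent.QWE

theorem thm_D5 (h4 : St_D4) (hi : St_Intp) : St_D5 := by
  intro Q k x a h
  obtain ⟨kap, C, h0, h1, h2⟩ := h4 Q k x a h
  exact hi x kap C h0 h1 h2

end Pool.Agent.QWE
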