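import Pool.Agent.QWE.Free

set_option autoImplicit false

/-!
# QWE, Decay: pointwise decay for test states (helper98)
-/

open MeasureTheory Filter Topology Set
open scoped ENNReal NNReal RealInnerProductSpace ContDiff Pointwise

namespace Pool.Agent.QWE

namespace Decayx

open Freex

/-- the basic integrals -/
noncomputable def J (b : S → ℝ) (u : S × ℝ → ℝ) (t : ℝ) (x : E) : ℝ :=
  ∫ w : S, b w * u (w, inner ℝ x (w : E) - t) ∂sg

lemma int_S {a : S → ℝ} (ha : Continuous a) : Integrable a sg :=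
  ha.integrable_of_hasCompactSupport (HasCompactSupport.of_compactSpace _)

lemma bdd_S {b : S → ℝ} (hb : Continuous b) : ∃ B, 0 ≤ B ∧ ∀ w, |b w| ≤ B := by
  obtain ⟨B, hB⟩ := hb.bounded_above_of_compact_support (HasCompactSupport.of_compactSpace _)
  exact ⟨|B|, abs_nonneg _, fun w => (hB w).trans (le_abs_self B)⟩

lemma cont_S {b : S → ℝ} {u : S × ℝ → ℝ} (hb : Continuous b) (hu : Continuous u) (t : ℝ) (x : E) :
    Continuous fun w : S => b w * u (w, inner ℝ x (w : E) - t) :=
  hb.mul (hu.comp (by fun_prop))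

lemma J_line {b : S → ℝ} {u u' : S × ℝ → ℝ} (hb : Continuous b) (hu : Nice u) (hu' : Nice u')
    (du : ∀ (w : S) p, HasDerivAt (fun p => u (w, p)) (u' (w, p)) p) (t : ℝ) (x e : E) :
    HasLineDerivAt ℝ (J b u t) (J (fun w => b w * inner ℝ e (w : E)) u' t x) x e := by
  obtain ⟨B, hB0, hB⟩ := bdd_S hb
  obtain ⟨C, hC⟩ := nice_bdd hu'
  have hc : ∀ y : E, Continuous fun w : S => b w * u (w, inner ℝ y (w : E) - t) := fun y =>
    cont_S hb hu.c t y
  have hc' : ∀ y : E, Continuous fun w : S =>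
      (b w * inner ℝ e (w : E)) * u' (w, inner ℝ y (w : E) - t) := fun y =>
    cont_S (hb.mul (by fun_prop)) hu'.c t y
  have key := hasDerivAt_integral_of_dominated_loc_of_deriv_le (μ := sg) (𝕜 := ℝ)
    (F := fun (s : ℝ) (w : S) => b w * u (w, inner ℝ (x + s • e) (w : E) - t))
    (F' := fun (s : ℝ) (w : S) =>
      (b w * inner ℝ e (w : E)) * u' (w, inner ℝ (x + s • e) (w : E) - t)) (x₀ := 0) (s := univ)
    (bound := fun _ => B * ‖e‖ * C) univ_mem
    (Eventually.of_forall fun s => (hc _).aestronglyMeasurable) (int_S (hc _))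
    (hc' _).aestronglyMeasurable
    (Eventually.of_forall fun w s _ => ?_) (integrable_const _)
    (Eventually.of_forall fun w s _ => ?_)
  · have h2 := key.2
    simp only [zero_smul, add_zero] at h2
    exact h2
  · rw [norm_mul, norm_mul]
    have h1 : ‖(inner ℝ e (w : E) : ℝ)‖ ≤ ‖e‖ := by
      have := norm_inner_le_norm (𝕜 := ℝ) e (w : E)
      rwa [norm_eq_of_mem_sphere w, mul_one] at this
    gcongr
    · exact hB w
    · exact hC _
  · have h1 := du w (inner ℝ (x + s • e) (w : E) - t)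
    have h2 : HasDerivAt (fun s : ℝ => inner ℝ (x + s • e) (w : E) - t) (inner ℝ e (w : E)) s := by
      have h3 : (fun s : ℝ => inner ℝ (x + s • e) (w : E) - t) =
          fun s : ℝ => inner ℝ x (w : E) + s * inner ℝ e (w : E) - t := by
        funext s
        rw [inner_add_left, real_inner_smul_left]
      rw [h3]
      have h4 := (((hasDerivAt_id s).mul_const (inner ℝ e (w : E))).const_add
        (inner ℝ x (w : E))).sub_const t
      simpa using h4
    have h3 : HasDerivAt (fun s : ℝ => u (w, inner ℝ (x + s • e) (w : E) - t))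
        (u' (w, inner ℝ (x + s • e) (w : E) - t) * inner ℝ e (w : E)) s :=
      HasDerivAt.comp (h₂ := fun p : ℝ => u (w, p)) s h1 h2
    have h4 := h3.const_mul (b w)
    have h5 : (b w * inner ℝ e (w : E)) * u' (w, inner ℝ (x + s • e) (w : E) - t) =
        b w * (u' (w, inner ℝ (x + s • e) (w : E) - t) * inner ℝ e (w : E)) := by ring
    rw [h5]
    exact h4

lemma pd_of_line {F : E → ℝ} (hF : IsTest F) {i : Fin 5} {x : E} {c : ℝ}
    (h : HasLineDerivAt ℝ F c x (EuclideanSpace.single i (1 : ℝ))) : pd i F x = c := by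
  have h1 : DifferentiableAt ℝ F x := (hF.1.differentiable (by simp)) x
  rw [pd, ← h1.lineDeriv_eq_fderiv]
  exact h.lineDeriv

/-- the set of directions that see the support -/
def band (M t : ℝ) (x : E) : Set S := {w | |inner ℝ x (w : E) - t| ≤ M}

lemma band_meas (M t : ℝ) (x : E) : MeasurableSet (band M t x) :=
  (isClosed_le (by fun_prop) continuous_const).measurableSet

lemma band_far (hSL : St_SL1) {M t : ℝ} {x : E} (hM : 1 ≤ M) (ht : 4 * M ≤ |t|)
    (h1 : |t| - M ≤ ‖x‖) (h2 : ‖x‖ ≤ |t| + M) :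
    sg (band M t x) ≤ ENNReal.ofReal (64 * Real.pi ^ 2 * M ^ 2 / (1 + t ^ 2)) := by
  have hx : 0 < ‖x‖ := by linarith
  have hx0 : x ≠ 0 := norm_pos_iff.1 hx
  have hg : Measurable (({p : ℝ | |p - t| ≤ M}).indicator (1 : ℝ → ℝ≥0∞)) :=
    measurable_one.indicator (isClosed_le (by fun_prop) continuous_const).measurableSet
  have h3 := hSL x hx0 _ hg
  have h4 : ∫⁻ w : S, ({p : ℝ | |p - t| ≤ M}).indicator (1 : ℝ → ℝ≥0∞) (inner ℝ x (w : E)) ∂sg =
      sg (band M t x) := by
    rw [← lintegral_indicator_one (band_meas M t x)]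
    refine lintegral_congr fun w => ?_
    by_cases hw : |inner ℝ x (w : E) - t| ≤ M
    · rw [indicator_of_mem (show w ∈ band M t x from hw),
        indicator_of_mem (show inner ℝ x (w : E) ∈ {p : ℝ | |p - t| ≤ M} from hw)]
      rfl
    · rw [indicator_of_notMem (show w ∉ band M t x from hw),
        indicator_of_notMem (show inner ℝ x (w : E) ∉ {p : ℝ | |p - t| ≤ M} from hw)]
  rw [← h4, h3]
  have hT : MeasurableSet {p : ℝ | |p - t| ≤ M} :=
    (isClosed_le (by fun_prop) continuous_const).measurableSet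
  calc ∫⁻ p in Icc (-‖x‖) ‖x‖, ENNReal.ofReal (2 * Real.pi ^ 2 / ‖x‖ * (1 - p ^ 2 / ‖x‖ ^ 2)) *
        ({p : ℝ | |p - t| ≤ M}).indicator (1 : ℝ → ℝ≥0∞) p
      ≤ ∫⁻ p, ({p : ℝ | |p - t| ≤ M}).indicator
        (fun _ => ENNReal.ofReal (2 * Real.pi ^ 2 / ‖x‖ * (4 * M / ‖x‖))) p := by
        rw [← lintegral_indicator measurableSet_Icc]
        refine lintegral_mono fun p => ?_
        by_cases hp : p ∈ Icc (-‖x‖) ‖x‖
        · rw [indicator_of_mem hp]
          by_cases hp2 : |p - t| ≤ M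
          · rw [indicator_of_mem (show p ∈ {p : ℝ | |p - t| ≤ M} from hp2),
              indicator_of_mem (show p ∈ {p : ℝ | |p - t| ≤ M} from hp2), Pi.one_apply, mul_one]
            refine ENNReal.ofReal_le_ofReal ?_
            have e1 : |p| ≤ ‖x‖ := abs_le.2 hp
            have e2 : |t| ≤ |p| + M := by
              have := abs_sub_abs_le_abs_sub t p
              rw [abs_sub_comm] at this
              linarith
            have e3 : 1 - p ^ 2 / ‖x‖ ^ 2 ≤ 4 * M / ‖x‖ := by
              rw [← sq_abs p, sub_le_iff_le_add, ← sub_le_iff_le_add', div_eq_mul_inv (|p| ^ 2)]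
              have e4 : 1 - 4 * M / ‖x‖ = (‖x‖ ^ 2 - 4 * M * ‖x‖) * (‖x‖ ^ 2)⁻¹ := by
                field_simp
              rw [e4]
              gcongr
              nlinarith
            gcongr
          · rw [indicator_of_notMem (show p ∉ {p : ℝ | |p - t| ≤ M} from hp2), mul_zero]
            exact zero_le
        · rw [indicator_of_notMem hp]
          exact zero_le
    _ = ENNReal.ofReal (2 * Real.pi ^ 2 / ‖x‖ * (4 * M / ‖x‖)) * ENNReal.ofReal (2 * M) := by
        rw [lintegral_indicator hT, setLIntegral_const]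
        congr 1
        have : {p : ℝ | |p - t| ≤ M} = Icc (t - M) (t + M) := by
          ext p
          rw [mem_ofPred_eq, abs_le, mem_Icc]
          constructor
          · rintro ⟨a, b⟩
            constructor <;> linarith
          · rintro ⟨a, b⟩
            constructor <;> linarith
        rw [this, Real.volume_Icc]
        congr 1
        ring
    _ ≤ ENNReal.ofReal (64 * Real.pi ^ 2 * M ^ 2 / (1 + t ^ 2)) := by
        rw [← ENNReal.ofReal_mul (by positivity)]
        refine ENNReal.ofReal_le_ofReal ?_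
        have e1 : 2 * Real.pi ^ 2 / ‖x‖ * (4 * M / ‖x‖) * (2 * M) =
            16 * Real.pi ^ 2 * M ^ 2 / ‖x‖ ^ 2 := by
          field_simp
          ring
        rw [e1, div_le_div_iff₀ (by positivity) (by positivity)]
        have e2 : 1 + t ^ 2 ≤ 4 * ‖x‖ ^ 2 := by
          have e3 : 3 * |t| ≤ 4 * ‖x‖ := by linarith
          have e4 : 4 ≤ |t| := by linarith
          have e5 : t ^ 2 = |t| ^ 2 := (sq_abs t).symm
          rw [e5]
          nlinarith
        have e3 : 0 ≤ 16 * Real.pi ^ 2 * M ^ 2 := by positivity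
        nlinarith

lemma band_bound (hSL : St_SL1) {M : ℝ} (hM : 1 ≤ M) : ∃ C : ℝ, 0 ≤ C ∧ ∀ (t : ℝ) (x : E),
    |t| - M ≤ ‖x‖ → ‖x‖ ≤ |t| + M → (sg (band M t x)).toReal ≤ C / (1 + t ^ 2) := by
  refine ⟨64 * Real.pi ^ 2 * M ^ 2 + (sg univ).toReal * (1 + 16 * M ^ 2), by positivity,
    fun t x h1 h2 => ?_⟩
  have hfin : sg univ ≠ ⊤ := measure_ne_top _ _
  rcases le_or_gt (4 * M) |t| with ht | ht
  · have h3 := band_far hSL hM ht h1 h2
    have h4 : (sg (band M t x)).toReal ≤ 64 * Real.pi ^ 2 * M ^ 2 / (1 + t ^ 2) :=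
      ENNReal.toReal_le_of_le_ofReal (by positivity) h3
    refine h4.trans ?_
    gcongr
    have : 0 ≤ (sg univ).toReal * (1 + 16 * M ^ 2) := by positivity
    linarith
  · have h3 : (sg (band M t x)).toReal ≤ (sg univ).toReal :=
      ENNReal.toReal_mono hfin (measure_mono (subset_univ _))
    refine h3.trans ?_
    rw [le_div_iff₀ (by positivity)]
    have h4 : t ^ 2 ≤ 16 * M ^ 2 := by
      rw [← sq_abs t]
      nlinarith [abs_nonneg t]
    have h5 : (sg univ).toReal * (1 + t ^ 2) ≤ (sg univ).toReal * (1 + 16 * M ^ 2) := by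
      gcongr
    have h6 : 0 ≤ 64 * Real.pi ^ 2 * M ^ 2 := by positivity
    linarith

lemma J_zero {b : S → ℝ} {u : S × ℝ → ℝ} {M t : ℝ} {x : E} (hz : ∀ z, M ≤ |z.2| → u z = 0)
    (h : ‖x‖ ≤ |t| - M) : J b u t x = 0 := by
  refine (integral_congr_ae (Eventually.of_forall fun w => ?_)).trans (integral_zero _ _)
  have h1 : |(inner ℝ x (w : E) : ℝ)| ≤ ‖x‖ := by
    have := norm_inner_le_norm (𝕜 := ℝ) x (w : E)
    rwa [norm_eq_of_mem_sphere w, mul_one] at this
  have h2 : M ≤ |inner ℝ x (w : E) - t| := by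
    have := abs_sub_abs_le_abs_sub t (inner ℝ x (w : E))
    rw [abs_sub_comm] at this
    linarith
  show b w * u (w, inner ℝ x (w : E) - t) = 0
  rw [hz _ h2, mul_zero]

lemma J_bound (hSL : St_SL1) {M : ℝ} (hM : 1 ≤ M) {u : S × ℝ → ℝ} (hu : Nice u)
    (hz : ∀ z, M ≤ |z.2| → u z = 0) : ∃ C : ℝ, 0 ≤ C ∧ ∀ b : S → ℝ, Continuous b →
      (∀ w, |b w| ≤ 1) → ∀ (t : ℝ) (x : E), ‖x‖ ≤ |t| + M → |J b u t x| ≤ C / (1 + t ^ 2) := by
  obtain ⟨C1, hC1, h1⟩ := band_bound hSL hM
  obtain ⟨C2', hC2'⟩ := nice_bdd hu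
  obtain ⟨C2, hC2, h2⟩ : ∃ C : ℝ, 0 ≤ C ∧ ∀ z, |u z| ≤ C :=
    ⟨|C2'|, abs_nonneg _, fun z => (hC2' z).trans (le_abs_self _)⟩
  refine ⟨C2 * C1, by positivity, fun b hb hb1 t x hx => ?_⟩
  rcases le_or_gt ‖x‖ (|t| - M) with h3 | h3
  · rw [J_zero hz h3, abs_zero]
    positivity
  · have h4 : |J b u t x| ≤ ∫ w : S, (band M t x).indicator (fun _ => C2) w ∂sg := by
      have h5 := norm_integral_le_integral_norm (μ := sg)
        (fun w : S => b w * u (w, inner ℝ x (w : E) - t))
      refine le_trans h5 ?_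
      refine integral_mono (int_S (cont_S hb hu.c t x)).norm
        ((integrable_const C2).indicator (band_meas M t x)) fun w => ?_
      by_cases hw : w ∈ band M t x
      · rw [indicator_of_mem hw]
        calc ‖b w * u (w, inner ℝ x (w : E) - t)‖ = |b w| * |u (w, inner ℝ x (w : E) - t)| :=
              norm_mul _ _
          _ ≤ 1 * C2 := by
              gcongr
              · exact hb1 w
              · exact h2 _
          _ = C2 := one_mul _
      · rw [indicator_of_notMem hw]
        have : M ≤ |inner ℝ x (w : E) - t| := (not_le.1 hw).le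
        show ‖b w * u (w, inner ℝ x (w : E) - t)‖ ≤ 0
        rw [hz _ this, mul_zero, norm_zero]
    rw [integral_indicator (band_meas M t x), setIntegral_const] at h4
    calc |J b u t x| ≤ (sg (band M t x)).toReal * C2 := by simpa [Measure.real] using h4
      _ ≤ C1 / (1 + t ^ 2) * C2 := by
          gcongr
          exact h1 t x h3.le hx
      _ = C2 * C1 / (1 + t ^ 2) := by ring

lemma nice_lin {u v : S × ℝ → ℝ} (a b : ℝ) (hu : Nice u) (hv : Nice v) :
    Nice fun z => a * u z + b * v z := by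
  obtain ⟨M, hM⟩ := hu.s
  obtain ⟨N, hN⟩ := hv.s
  refine ⟨(continuous_const.mul hu.c).add (continuous_const.mul hv.c), max M N, fun z hz => ?_⟩
  rw [hM z ((le_max_left _ _).trans hz), hN z ((le_max_right _ _).trans hz)]
  ring

end Decayx

open Freex Decayx in
theorem thm_Decay (hR : St_RadT) (hI : St_Iso) (hD : St_Dens) (hSL : St_SL1) (hS : St_Sph) :
    St_Decay := by
  intro f g hf hg
  have hf2 := test_lap hf
  have hf4 := test_lap hf2
  have hf6 := test_lap hf4
  have hg2 := test_lap hg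
  have hg4 := test_lap hg2
  obtain ⟨ρ1, hρ1⟩ := hf.2.isBounded.subset_closedBall (0 : E)
  obtain ⟨ρ2, hρ2⟩ := hg.2.isBounded.subset_closedBall (0 : E)
  let Φ0 : S × ℝ → ℝ := fun z => c0 * Rad (lap (lap f)) z + (-c0) * dRad (lap g) z
  let Φ1 : S × ℝ → ℝ := fun z => c0 * dRad (lap (lap f)) z + (-c0) * Rad (lap (lap g)) z
  let Φ2 : S × ℝ → ℝ := fun z => c0 * Rad (lap (lap (lap f))) z + (-c0) * dRad (lap (lap g)) z
  have n0 : Nice Φ0 := nice_lin _ _ (nice_both hR hf4).1 (nice_both hR hg2).2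
  have n1 : Nice Φ1 := nice_lin _ _ (nice_both hR hf4).2 (nice_both hR hg4).1
  have n2 : Nice Φ2 := nice_lin _ _ (nice_both hR hf6).1 (nice_both hR hg4).2
  have e0 : ∀ (w : S) p, HasDerivAt (fun p => Φ0 (w, p)) (Φ1 (w, p)) p := fun w p =>
    ((d1 hR hf4 w p).const_mul c0).add ((d2 hR hg2 w p).const_mul (-c0))
  have e1 : ∀ (w : S) p, HasDerivAt (fun p => Φ1 (w, p)) (Φ2 (w, p)) p := fun w p =>
    ((d2 hR hf4 w p).const_mul c0).add ((d1 hR hg4 w p).const_mul (-c0))
  obtain ⟨M0, hM0⟩ := n0.s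
  obtain ⟨M1, hM1⟩ := n1.s
  obtain ⟨M2, hM2⟩ := n2.s
  let M : ℝ := |ρ1| + |ρ2| + |M0| + |M1| + |M2| + 2
  have hM : 1 ≤ M := by
    have : 0 ≤ |ρ1| + |ρ2| + |M0| + |M1| + |M2| := by positivity
    simp only [M]
    linarith
  have z0 : ∀ z, M ≤ |z.2| → Φ0 z = 0 := fun z hz => hM0 z (by
    have h1 := le_abs_self M0
    have h2 : 0 ≤ |ρ1| + |ρ2| + |M1| + |M2| := by positivity
    simp only [M] at hz
    linarith)
  have z1 : ∀ z, M ≤ |z.2| → Φ1 z = 0 := fun z hz => hM1 z (by
    have h1 := le_abs_self M1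
    have h2 : 0 ≤ |ρ1| + |ρ2| + |M0| + |M2| := by positivity
    simp only [M] at hz
    linarith)
  have z2 : ∀ z, M ≤ |z.2| → Φ2 z = 0 := fun z hz => hM2 z (by
    have h1 := le_abs_self M2
    have h2 : 0 ≤ |ρ1| + |ρ2| + |M0| + |M1| := by positivity
    simp only [M] at hz
    linarith)
  obtain ⟨C0, hC0, b0⟩ := J_bound hSL hM n0 z0
  obtain ⟨C1, hC1, b1⟩ := J_bound hSL hM n1 z1
  obtain ⟨C2, hC2, b2⟩ := J_bound hSL hM n2 z2
  refine ⟨C0 + C1 + C2 + 1, M, by positivity, hM, fun t => ?_⟩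
  obtain ⟨T1, T2, heq, hvan⟩ := formula hR hI hD hS hf hg t
  -- the functions as integrals over the sphere
  have iS : ∀ {a : E → ℝ}, IsTest a → ∀ x, Integrable (fun w : S => Rad a (w, inner ℝ x (w : E) - t)) sg :=
    fun ha x => int_S ((nice_both hR ha).1.c.comp (by fun_prop))
  have iS' : ∀ {a : E → ℝ}, IsTest a → ∀ x, Integrable (fun w : S => dRad a (w, inner ℝ x (w : E) - t)) sg :=
    fun ha x => int_S ((nice_both hR ha).2.c.comp (by fun_prop))
  have F1 : (fun x => c0 * (Sph (lap (lap f)) t x + D (lap g) t x)) = J (fun _ => 1) Φ0 t := by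
    funext x
    have h1 := D_eq hR hg2 t x
    have h2 : D (lap g) t x = - ∫ w : S, dRad (lap g) (w, inner ℝ x (w : E) - t) ∂sg := by
      rw [h1, neg_neg]
    rw [h2, Sph, J]
    simp only [Φ0, one_mul]
    rw [integral_add ((iS hf4 x).const_mul _) ((iS' hg2 x).const_mul _), integral_const_mul,
      integral_const_mul]
    ring
  have F2 : (fun x => c0 * (D (lap (lap f)) t x + Sph (lap (lap g)) t x)) =
      J (fun _ => -1) Φ1 t := by
    funext x
    have h1 := D_eq hR hf4 t x
    have h2 : D (lap (lap f)) t x = - ∫ w : S, dRad (lap (lap f)) (w, inner ℝ x (w : E) - t) ∂sg := by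
      rw [h1, neg_neg]
    have h3 : (fun w : S => (-1 : ℝ) * Φ1 (w, inner ℝ x (w : E) - t)) =
        fun w : S => (-c0) * dRad (lap (lap f)) (w, inner ℝ x (w : E) - t) +
          c0 * Rad (lap (lap g)) (w, inner ℝ x (w : E) - t) := by
      funext w
      simp only [Φ1]
      ring
    rw [h2, Sph, J, h3, integral_add ((iS' hf4 x).const_mul _) ((iS hg4 x).const_mul _),
      integral_const_mul, integral_const_mul]
    ring
  set f' : E → ℝ := fun x => c0 * (Sph (lap (lap f)) t x + D (lap g) t x) with hf'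
  set g' : E → ℝ := fun x => c0 * (D (lap (lap f)) t x + Sph (lap (lap g)) t x) with hg'
  have hout : ∀ x : E, |t| + M ≤ ‖x‖ + 1 → f' x = 0 ∧ g' x = 0 := by
    intro x hx
    refine hvan x fun y hy => ?_
    have h1 : ‖x‖ ≤ ‖y‖ + |t| := by
      have := norm_sub_norm_le x y
      rw [dist_comm, dist_eq_norm] at hy
      linarith
    have h2 : |ρ1| + |ρ2| < ‖y‖ := by
      have h3 : 0 ≤ |M0| + |M1| + |M2| := by positivity
      simp only [M] at hx
      linarith
    constructor
    · refine image_eq_zero_of_notMem_tsupport fun h3 => ?_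
      have h4 := hρ1 h3
      rw [mem_closedBall_zero_iff] at h4
      have := le_abs_self ρ1
      have := abs_nonneg ρ2
      linarith
    · refine image_eq_zero_of_notMem_tsupport fun h3 => ?_
      have h4 := hρ2 h3
      rw [mem_closedBall_zero_iff] at h4
      have := le_abs_self ρ2
      have := abs_nonneg ρ1
      linarith
  have hts : ∀ {F : E → ℝ}, (∀ x : E, |t| + M ≤ ‖x‖ + 1 → F x = 0) → ∀ x, |t| + M < ‖x‖ →
      x ∉ tsupport F := by
    intro F hF x hx hx2
    rw [tsupport, mem_closure_iff] at hx2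
    obtain ⟨z, hz, hz2⟩ := hx2 {y : E | |t| + M < ‖y‖} (isOpen_lt continuous_const continuous_norm) hx
    exact hz2 (hF z (by
      have : |t| + M < ‖z‖ := hz
      linarith))
  have hpos : 0 < 1 + t ^ 2 := by positivity
  have lift : ∀ {C v : ℝ}, C ≤ C0 + C1 + C2 + 1 → |v| ≤ C / (1 + t ^ 2) →
      |v| ≤ (C0 + C1 + C2 + 1) / (1 + t ^ 2) := fun h1 h2 => h2.trans (by gcongr)
  have hw1 : ∀ (i : Fin 5) (w : S), |(inner ℝ (EuclideanSpace.single i (1 : ℝ)) (w : E) : ℝ)| ≤ 1 := by
    intro i w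
    have := norm_inner_le_norm (𝕜 := ℝ) (EuclideanSpace.single i (1 : ℝ)) (w : E)
    rw [norm_eq_of_mem_sphere w, mul_one, PiLp.norm_single, norm_one] at this
    exact this
  -- the derivatives
  have P1 : ∀ i, pd i f' = J (fun w => 1 * inner ℝ (EuclideanSpace.single i (1 : ℝ)) (w : E)) Φ1 t := by
    intro i
    funext x
    refine pd_of_line T1 ?_
    rw [F1]
    exact J_line continuous_const n0 n1 e0 t x _
  have P2 : ∀ i j, pd j (pd i f') = J (fun w => 1 * inner ℝ (EuclideanSpace.single i (1 : ℝ)) (w : E) *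
      inner ℝ (EuclideanSpace.single j (1 : ℝ)) (w : E)) Φ2 t := by
    intro i j
    funext x
    refine pd_of_line (test_pd i T1) ?_
    rw [P1 i]
    exact J_line (by fun_prop) n1 n2 e1 t x _
  have P3 : ∀ i, pd i g' = J (fun w => -1 * inner ℝ (EuclideanSpace.single i (1 : ℝ)) (w : E)) Φ2 t := by
    intro i
    funext x
    refine pd_of_line T2 ?_
    rw [F2]
    exact J_line continuous_const n1 n2 e1 t x _
  refine ⟨f', g', T1, T2, heq, fun x hx => ?_, fun x i j => ?_⟩
  · rcases le_abs'.1 hx with h1 | h1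
    · have h2 : ‖x‖ ≤ |t| - M := by linarith
      rw [F1, F2]
      exact ⟨J_zero z0 h2, J_zero z1 h2⟩
    · exact hout x (by linarith)
  · rcases le_or_gt ‖x‖ (|t| + M) with hx | hx
    · refine ⟨?_, ?_, ?_, ?_, ?_⟩
      · rw [F1]
        exact lift (by linarith) (b0 _ continuous_const (fun _ => by simp) t x hx)
      · rw [P1]
        refine lift (by linarith) (b1 _ (by fun_prop) (fun w => ?_) t x hx)
        rw [one_mul]
        exact hw1 i w
      · rw [P2]
        refine lift (by linarith) (b2 _ (by fun_prop) (fun w => ?_) t x hx)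
        rw [one_mul, abs_mul]
        exact mul_le_one₀ (hw1 i w) (abs_nonneg _) (hw1 j w)
      · rw [F2]
        exact lift (by linarith) (b1 _ continuous_const (fun _ => by simp) t x hx)
      · rw [P3]
        refine lift (by linarith) (b2 _ (by fun_prop) (fun w => ?_) t x hx)
        rw [neg_one_mul, abs_neg]
        exact hw1 i w
    · have s1 := hts (fun x hx => (hout x hx).1) x hx
      have s2 := hts (fun x hx => (hout x hx).2) x hx
      have q : (0 : ℝ) ≤ (C0 + C1 + C2 + 1) / (1 + t ^ 2) := by positivity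
      refine ⟨?_, ?_, ?_, ?_, ?_⟩
      · rw [image_eq_zero_of_notMem_tsupport s1, abs_zero]
        exact q
      · rw [image_eq_zero_of_notMem_tsupport fun h => s1 (tsupport_pd i _ h), abs_zero]
        exact q
      · rw [image_eq_zero_of_notMem_tsupport fun h => s1 (tsupport_pd i _ (tsupport_pd j _ h)),
          abs_zero]
        exact q
      · rw [image_eq_zero_of_notMem_tsupport s2, abs_zero]
        exact q
      · rw [image_eq_zero_of_notMem_tsupport fun h => s2 (tsupport_pd i _ h), abs_zero]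
        exact q

end Pool.Agent.QWE
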