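import Mathlib

set_option autoImplicit false

/-!
# QWE: the quintic wave equation in `ℝ⁵` (problem MP_9ce95b_an, `d = 5`, `p = 5`, no symmetry)

Definitions. Paper: `/team-store/R5_paper.md` (numbers L1, N1, C1, D1, P1, G1 ... refer to it).

`K = L²(S⁴ × ℝ)` is the translation representation space; the free wave flow is the translation
`tau t` in the second variable. `U k` is the position field, `V k` the velocity field.
-/

open MeasureTheory Filter Topology Set
open scoped ENNReal NNReal RealInnerProductSpace ContDiff Pointwise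

namespace Pool.Agent.QWE

/-- `ℝ⁵`. -/
abbrev E := EuclideanSpace ℝ (Fin 5)

/-- The unit sphere of `ℝ⁵`. -/
abbrev S := Metric.sphere (0 : E) 1

/-- Surface measure on the unit sphere (total mass `8 π² / 3`). -/
noncomputable abbrev sg : Measure S := (volume : Measure E).toSphere

/-- The measure `dω dp` on `S⁴ × ℝ`. -/
noncomputable abbrev mu : Measure (S × ℝ) := sg.prod (volume : Measure ℝ)

/-- The translation representation space `L²(S⁴ × ℝ)` (real Hilbert space). -/
noncomputable abbrev K := Lp ℝ 2 mu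

/-- The element of `K` given by a function (zero if it is not square integrable). -/
noncomputable def toK (f : S × ℝ → ℝ) : K := by
  classical exact if h : MemLp f 2 mu then h.toLp f else 0

lemma toK_coe {f : S × ℝ → ℝ} (h : MemLp f 2 mu) : (toK f : S × ℝ → ℝ) =ᵐ[mu] f := by
  simp only [toK, dif_pos h]; exact h.coeFn_toLp

/-! ### The isometries of `K` -/

lemma mp_shift {g : S → ℝ} (hg : Measurable g) :
    MeasurePreserving (fun z : S × ℝ => (z.1, z.2 - g z.1)) mu mu := by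
  refine MeasurePreserving.skew_product (g := fun (w : S) (p : ℝ) => p - g w)
    (MeasurePreserving.id sg) ?_ ?_
  · exact measurable_snd.sub (hg.comp measurable_fst)
  · exact Eventually.of_forall fun w => (measurePreserving_sub_right volume (g w)).map_eq

/-- Free wave flow: `(tau t k)(ω, p) = k(ω, p - t)`. -/
noncomputable def tau (t : ℝ) : K →ₗᵢ[ℝ] K :=
  Lp.compMeasurePreservingₗᵢ ℝ (fun z : S × ℝ => (z.1, z.2 - t))
    (mp_shift (g := fun _ => t) measurable_const)

/-- Space translation: `(sh y k)(ω, p) = k(ω, p - ⟪y, ω⟫)`; `U (sh y k) x = U k (x - y)`. -/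
noncomputable def sh (y : E) : K →ₗᵢ[ℝ] K :=
  Lp.compMeasurePreservingₗᵢ ℝ (fun z : S × ℝ => (z.1, z.2 - inner ℝ y (z.1 : E)))
    (mp_shift (g := fun w : S => inner ℝ y (w : E)) (by fun_prop))

lemma tau_coe (t : ℝ) (k : K) : (tau t k : S × ℝ → ℝ) =ᵐ[mu] fun z => k (z.1, z.2 - t) :=
  Lp.coeFn_compMeasurePreserving k _

lemma sh_coe (y : E) (k : K) :
    (sh y k : S × ℝ → ℝ) =ᵐ[mu] fun z => k (z.1, z.2 - inner ℝ y (z.1 : E)) :=
  Lp.coeFn_compMeasurePreserving k _

/-- The measure on `S⁴ × ℝ` scales under `(ω, p) ↦ (ω, c p)`. -/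
lemma map_scale {c : ℝ} (hc : 0 < c) :
    mu.map (fun z : S × ℝ => (z.1, c * z.2)) = ENNReal.ofReal c⁻¹ • mu := by
  have h1 : (fun z : S × ℝ => (z.1, c * z.2)) = Prod.map id (fun p : ℝ => c * p) := rfl
  rw [h1, ← Measure.map_prod_map _ _ measurable_id (by fun_prop), Measure.map_id]
  have h2 : Measure.map (fun p : ℝ => c * p) volume = ENNReal.ofReal c⁻¹ • (volume : Measure ℝ) := by
    rw [Real.map_volume_mul_left hc.ne', abs_of_pos (inv_pos.2 hc)]
  rw [h2, Measure.prod_smul_right]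

lemma qmp_scale {c : ℝ} (hc : 0 < c) :
    Measure.QuasiMeasurePreserving (fun z : S × ℝ => (z.1, c * z.2)) mu mu := by
  refine ⟨by fun_prop, ?_⟩
  rw [map_scale hc]
  exact Measure.smul_absolutelyContinuous

lemma eLpNorm_scale (a : ℝ) (f : S × ℝ → ℝ) (hf : AEStronglyMeasurable f mu) :
    eLpNorm (fun z : S × ℝ => Real.exp (a / 2) * f (z.1, Real.exp a * z.2)) 2 mu =
      eLpNorm f 2 mu := by
  have hc := Real.exp_pos a
  have h1 : eLpNorm (fun z : S × ℝ => f (z.1, Real.exp a * z.2)) 2 mu =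
      ENNReal.ofReal (Real.exp (-a / 2)) * eLpNorm f 2 mu := by
    have h2 : eLpNorm (f ∘ fun z : S × ℝ => (z.1, Real.exp a * z.2)) 2 mu =
        eLpNorm f 2 (mu.map fun z : S × ℝ => (z.1, Real.exp a * z.2)) := by
      rw [eLpNorm_map_measure _ (by fun_prop)]
      rw [map_scale hc]
      exact hf.mono_ac Measure.smul_absolutelyContinuous
    have h3 : (fun z : S × ℝ => f (z.1, Real.exp a * z.2)) =
        f ∘ fun z : S × ℝ => (z.1, Real.exp a * z.2) := rfl
    rw [h3, h2, map_scale hc, eLpNorm_smul_measure_of_ne_top (by norm_num)]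
    simp only [smul_eq_mul]
    congr 1
    rw [ENNReal.ofReal_rpow_of_pos (inv_pos.2 hc), ← Real.exp_neg, ← Real.exp_mul]
    congr 2
    norm_num
    ring
  have h4 : (fun z : S × ℝ => Real.exp (a / 2) * f (z.1, Real.exp a * z.2)) =
      Real.exp (a / 2) • fun z : S × ℝ => f (z.1, Real.exp a * z.2) := rfl
  rw [h4, eLpNorm_const_smul, h1, ← mul_assoc, Real.enorm_eq_ofReal (Real.exp_pos _).le,
    ← ENNReal.ofReal_mul (Real.exp_pos _).le, ← Real.exp_add]
  have h5 : a / 2 + -a / 2 = 0 := by ring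
  rw [h5]; simp

lemma memLp_dl (a : ℝ) (k : K) :
    MemLp (fun z : S × ℝ => Real.exp (a / 2) * k (z.1, Real.exp a * z.2)) 2 mu := by
  refine ⟨((Lp.aestronglyMeasurable k).comp_quasiMeasurePreserving
      (qmp_scale (Real.exp_pos a))).const_mul _, ?_⟩
  rw [eLpNorm_scale a k (Lp.aestronglyMeasurable k)]
  exact Lp.eLpNorm_lt_top k

/-- Auxiliary: the dilated element. -/
noncomputable def dlAux (a : ℝ) (k : K) : K := (memLp_dl a k).toLp _

lemma dlAux_coe (a : ℝ) (k : K) :
    (dlAux a k : S × ℝ → ℝ) =ᵐ[mu] fun z => Real.exp (a / 2) * k (z.1, Real.exp a * z.2) :=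
  MemLp.coeFn_toLp _

/-- Dilation by `e^a`: `(dl a k)(ω, p) = e^{a/2} k(ω, e^a p)`; `U (dl a k) x = e^{a/2} U k (e^a x)`,
`V (dl a k) x = e^{3a/2} V k (e^a x)`. -/
noncomputable def dl (a : ℝ) : K →ₗᵢ[ℝ] K where
  toFun := dlAux a
  map_add' k k' := by
    apply Lp.ext
    have h := (qmp_scale (Real.exp_pos a)).ae (Lp.coeFn_add k k')
    filter_upwards [dlAux_coe a (k + k'), dlAux_coe a k, dlAux_coe a k',
      Lp.coeFn_add (dlAux a k) (dlAux a k'), h] with z h1 h2 h3 h4 h5
    rw [h1, h4, Pi.add_apply, h2, h3, h5, Pi.add_apply]; ring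
  map_smul' c k := by
    apply Lp.ext
    have h := (qmp_scale (Real.exp_pos a)).ae (Lp.coeFn_smul c k)
    filter_upwards [dlAux_coe a (c • k), dlAux_coe a k, Lp.coeFn_smul c (dlAux a k), h]
      with z h1 h2 h3 h4
    rw [h1, RingHom.id_apply, h3, Pi.smul_apply, h2, h4, Pi.smul_apply, smul_eq_mul, smul_eq_mul]
    ring
  norm_map' k := by
    change ‖dlAux a k‖ = ‖k‖
    rw [dlAux, Lp.norm_toLp, eLpNorm_scale a k (Lp.aestronglyMeasurable k), Lp.norm_def]

lemma dl_coe (a : ℝ) (k : K) :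
    (dl a k : S × ℝ → ℝ) =ᵐ[mu] fun z => Real.exp (a / 2) * k (z.1, Real.exp a * z.2) :=
  dlAux_coe a k

lemma mp_neg_sphere : MeasurePreserving (fun w : S => -w) sg sg := by
  refine ⟨continuous_neg.measurable, ?_⟩
  ext s hs
  rw [Measure.map_apply continuous_neg.measurable hs, Measure.toSphere_apply' _ hs,
    Measure.toSphere_apply' _ (continuous_neg.measurable hs)]
  congr 1
  have h : Ioo (0 : ℝ) 1 • ((↑) '' ((fun w : S => -w) ⁻¹' s) : Set E) =
      -(Ioo (0 : ℝ) 1 • ((↑) '' s : Set E)) := by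
    ext x
    simp only [Set.mem_smul, Set.mem_image, Set.mem_preimage, Set.mem_neg]
    constructor
    · rintro ⟨r, hr, _, ⟨w, hw, rfl⟩, rfl⟩
      exact ⟨r, hr, ((-w : S) : E), ⟨-w, hw, rfl⟩, by simp⟩
    · rintro ⟨r, hr, _, ⟨w, hw, rfl⟩, hx⟩
      refine ⟨r, hr, ((-w : S) : E), ⟨-w, by simpa using hw, rfl⟩, ?_⟩
      have : x = -(r • (w : E)) := by rw [hx, neg_neg]
      rw [this]; simp
  rw [h, Measure.measure_neg]

lemma mp_rev : MeasurePreserving (fun z : S × ℝ => (-z.1, -z.2)) mu mu :=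
  mp_neg_sphere.prod (Measure.measurePreserving_neg volume)

/-- Time reversal: `(rev k)(ω, p) = k(-ω, -p)`; `U (rev k) = U k`, `V (rev k) = - V k`. -/
noncomputable def rev : K →ₗᵢ[ℝ] K :=
  Lp.compMeasurePreservingₗᵢ ℝ (fun z : S × ℝ => (-z.1, -z.2)) mp_rev

lemma rev_coe (k : K) : (rev k : S × ℝ → ℝ) =ᵐ[mu] fun z => k (-z.1, -z.2) :=
  Lp.coeFn_compMeasurePreserving k _

lemma memLp_mul {θ : S × ℝ → ℝ} (h : Measurable θ ∧ ∀ z, |θ z| ≤ 1) (k : K) :
    MemLp (fun z => θ z * k z) 2 mu := by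
  refine (Lp.memLp k).mono (h.1.aestronglyMeasurable.mul (Lp.aestronglyMeasurable k)) ?_
  refine Eventually.of_forall fun z => ?_
  rw [norm_mul]
  calc ‖θ z‖ * ‖k z‖ ≤ 1 * ‖k z‖ := by gcongr; exact h.2 z
    _ = ‖k z‖ := one_mul _

/-- Auxiliary: multiplication by `θ`. -/
noncomputable def mulLin {θ : S × ℝ → ℝ} (h : Measurable θ ∧ ∀ z, |θ z| ≤ 1) : K →ₗ[ℝ] K where
  toFun k := (memLp_mul h k).toLp _
  map_add' k k' := by
    apply Lp.ext
    filter_upwards [MemLp.coeFn_toLp (memLp_mul h (k + k')),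
      MemLp.coeFn_toLp (memLp_mul h k), MemLp.coeFn_toLp (memLp_mul h k'),
      Lp.coeFn_add ((memLp_mul h k).toLp _) ((memLp_mul h k').toLp _),
      Lp.coeFn_add k k'] with z h1 h2 h3 h4 h5
    rw [h1, h4, Pi.add_apply, h2, h3, h5, Pi.add_apply]; ring
  map_smul' c k := by
    apply Lp.ext
    filter_upwards [MemLp.coeFn_toLp (memLp_mul h (c • k)),
      MemLp.coeFn_toLp (memLp_mul h k), Lp.coeFn_smul c ((memLp_mul h k).toLp _),
      Lp.coeFn_smul c k] with z h1 h2 h3 h4
    rw [h1, RingHom.id_apply, h3, Pi.smul_apply, h2, h4, Pi.smul_apply, smul_eq_mul,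
      smul_eq_mul]
    ring

lemma mulLin_coe {θ : S × ℝ → ℝ} (h : Measurable θ ∧ ∀ z, |θ z| ≤ 1) (k : K) :
    (mulLin h k : S × ℝ → ℝ) =ᵐ[mu] fun z => θ z * k z :=
  MemLp.coeFn_toLp (memLp_mul h k)

lemma mulLin_le {θ : S × ℝ → ℝ} (h : Measurable θ ∧ ∀ z, |θ z| ≤ 1) (k : K) :
    ‖mulLin h k‖ ≤ 1 * ‖k‖ := by
  rw [one_mul]
  refine Lp.norm_le_norm_of_ae_le ?_
  filter_upwards [mulLin_coe h k] with z h1
  rw [h1, norm_mul]
  calc ‖θ z‖ * ‖k z‖ ≤ 1 * ‖k z‖ := by gcongr; exact h.2 z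
    _ = ‖k z‖ := one_mul _

/-- Multiplication by a measurable function `θ` with `|θ| ≤ 1` (zero for other `θ`). -/
noncomputable def mulK (θ : S × ℝ → ℝ) : K →L[ℝ] K := by
  classical exact if h : Measurable θ ∧ ∀ z, |θ z| ≤ 1 then
    LinearMap.mkContinuous (mulLin h) 1 (mulLin_le h) else 0

lemma mulK_coe {θ : S × ℝ → ℝ} (h1 : Measurable θ) (h2 : ∀ z, |θ z| ≤ 1) (k : K) :
    (mulK θ k : S × ℝ → ℝ) =ᵐ[mu] fun z => θ z * k z := by
  have h : Measurable θ ∧ ∀ z, |θ z| ≤ 1 := ⟨h1, h2⟩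
  rw [mulK, dif_pos h]
  exact mulLin_coe h k

/-- Restriction of `k` to a measurable set. -/
noncomputable def indK (A : Set (S × ℝ)) : K →L[ℝ] K := mulK (A.indicator fun _ => 1)

/-! ### Test functions, Radon transform -/

/-- Test functions on `ℝ⁵`. -/
def IsTest (φ : E → ℝ) : Prop := ContDiff ℝ ∞ φ ∧ HasCompactSupport φ

/-- Derivative in the `i`-th coordinate direction. -/
noncomputable def pd (i : Fin 5) (φ : E → ℝ) (x : E) : ℝ :=
  fderiv ℝ φ x (EuclideanSpace.single i (1 : ℝ))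

/-- Laplacian. -/
noncomputable def lap (φ : E → ℝ) (x : E) : ℝ := ∑ i, pd i (pd i φ) x

/-- Radon transform: the integral of `φ` over the hyperplane `⟪x, ω⟫ = p`, written as the integral
of `ω · ∇ φ` over the half space `⟪x, ω⟫ ≤ p`. -/
noncomputable def Rad (φ : E → ℝ) (z : S × ℝ) : ℝ :=
  ∫ x : E, {x : E | inner ℝ x (z.1 : E) ≤ z.2}.indicator (fun x => fderiv ℝ φ x (z.1 : E)) x

/-- `∂_p` of the Radon transform (`∂_p R φ = R (ω · ∇ φ)`). -/
noncomputable def dRad (φ : E → ℝ) (z : S × ℝ) : ℝ :=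
  Rad (fun x => fderiv ℝ φ x (z.1 : E)) z

/-- Radon transform of a (test or Schwartz) function as an element of `K`. -/
noncomputable def Rk (φ : E → ℝ) : K := toK (Rad φ)

/-- `∂_p` of the Radon transform as an element of `K`. -/
noncomputable def dRk (φ : E → ℝ) : K := toK (dRad φ)

/-- The constant `1 / (2 (2π)⁴)`. -/
noncomputable def c0 : ℝ := 1 / (32 * Real.pi ^ 4)

/-- The element of `K` with position `f` and velocity `g` (test or Schwartz functions):
`c0 (∂_p⁴ R f - ∂_p³ R g)`. -/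
noncomputable def Theta (f g : E → ℝ) : K := c0 • (Rk (lap (lap f)) - dRk (lap g))

/-! ### The fields of `k ∈ K` -/

/-- Position field (dual Radon transform). -/
noncomputable def U (k : K) (x : E) : ℝ := ∫ w : S, k (w, inner ℝ x (w : E)) ∂sg

/-- `g` is the velocity field of `k`. -/
def IsV (k : K) (g : E → ℝ) : Prop :=
  MemLp g (10 / 3) volume ∧ ∀ φ, IsTest φ → ∫ x, g x * φ x = inner ℝ k (dRk φ)

/-- Velocity field. -/
noncomputable def V (k : K) : E → ℝ := by
  classical exact if h : ∃ g, IsV k g then h.choose else 0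

/-- `g` is the `i`-th weak derivative of `f`. -/
def WD (i : Fin 5) (f g : E → ℝ) : Prop :=
  ∀ φ, IsTest φ → ∫ x, f x * pd i φ x = - ∫ x, g x * φ x

/-- `i`-th weak derivative of the position field (in `L^{10/3}`). -/
noncomputable def DU (k : K) (i : Fin 5) : E → ℝ := by
  classical exact if h : ∃ g : E → ℝ, MemLp g (10 / 3) volume ∧ WD i (U k) g then h.choose else 0

/-- Second weak derivatives of the position field (in `L²`). -/
noncomputable def DDU (k : K) (i j : Fin 5) : E → ℝ := by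
  classical exact if h : ∃ g : E → ℝ, MemLp g 2 volume ∧ WD j (DU k i) g then h.choose else 0

/-- Weak Laplacian of the position field (in `L²`). -/
noncomputable def LU (k : K) (x : E) : ℝ := ∑ i, DDU k i i x

/-- `i`-th weak derivative of the velocity field (in `L²`). -/
noncomputable def DV (k : K) (i : Fin 5) : E → ℝ := by
  classical exact if h : ∃ g : E → ℝ, MemLp g 2 volume ∧ WD i (V k) g then h.choose else 0

/-- Smooth functions of one variable. -/
def Sm (θ : ℝ → ℝ) : Prop := ContDiff ℝ ((⊤ : ℕ∞) : WithTop ℕ∞) θ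

/-- Smooth functions on `E`. -/
def SmE (b : E → ℝ) : Prop := ContDiff ℝ ((⊤ : ℕ∞) : WithTop ℕ∞) b

/-- Schwartz functions (as plain functions). -/
def IsSch (φ : E → ℝ) : Prop := ∃ f : SchwartzMap E ℝ, ∀ x, f x = φ x

/-! ### Exterior norms -/

/-- Closed span of the Radon transforms of test functions supported in `Ω` (test states). The
orthogonal complement consists of the `k` whose fields vanish on `Ω`. -/
noncomputable def TS (Ω : Set E) : Submodule ℝ K :=
  (Submodule.span ℝ {w | ∃ φ, IsTest φ ∧ tsupport φ ⊆ Ω ∧ (w = Rk φ ∨ w = dRk φ)}).topologicalClosure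

instance instProjTS (Ω : Set E) : (TS Ω).HasOrthogonalProjection := by
  have : CompleteSpace (TS Ω) :=
    (Submodule.isClosed_topologicalClosure _).completeSpace_coe
  infer_instance

/-- The fields of `k` vanish on `Ω`. -/
def Van (Ω : Set E) (k : K) : Prop := k ∈ (TS Ω)ᗮ

/-- Minimal element of `K` with the same fields as `k` on `Ω` (orthogonal projection on `TS Ω`). -/
noncomputable def pr (Ω : Set E) : K →L[ℝ] K := (TS Ω).starProjection

/-- Norm of `k` on `Ω` (quotient norm). -/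
noncomputable def ex (Ω : Set E) (k : K) : ℝ := ‖pr Ω k‖

/-- Exterior of a ball. -/
def ext (y : E) (ρ : ℝ) : Set E := {x | ρ < dist x y}

/-- Half space. -/
def half (e : E) (c : ℝ) : Set E := {x | c < inner ℝ x e}

/-- Points of `Ω` whose closed ball of radius `a` is contained in `Ω`. -/
def shr (Ω : Set E) (a : ℝ) : Set E := {x | ∃ b, a < b ∧ Metric.ball x b ⊆ Ω}

/-! ### The nonlinear equation -/

/-- `w` is the source element `Θ(0, F)`. -/
def IsGam (F : E → ℝ) (w : K) : Prop :=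
  ∀ φ, IsTest φ → inner ℝ w (Rk φ) = 0 ∧ inner ℝ w (dRk φ) = ∫ x, F x * φ x

/-- The source element `Θ(0, F)` (position `0`, velocity `F`). -/
noncomputable def Gam (F : E → ℝ) : K := by
  classical exact if h : ∃ w, IsGam F w then h.choose else 0

/-- The nonlinearity `N(k) = Γ(u⁵)`, `u = U k`. -/
noncomputable def NL (k : K) : K := Gam fun x => U k x ^ 5

/-- `‖u‖_{L²⁰}`. -/
noncomputable def sn (k : K) : ℝ≥0∞ := eLpNorm (U k) 20 volume

/-- Fourth power of the Strichartz norm `‖u‖_{L⁴(J; L²⁰)}`. -/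
noncomputable def SN (J : Set ℝ) (k : ℝ → K) : ℝ≥0∞ := ∫⁻ t in J, sn (k t) ^ 4

/-- `k` is a solution of the nonlinear wave equation on the interval `I` (Duhamel formula in the
translation representation). -/
def IsSol (I : Set ℝ) (k : ℝ → K) : Prop :=
  I.OrdConnected ∧ ContinuousOn k I ∧ (∀ a ∈ I, ∀ b ∈ I, SN (Icc a b) k < ⊤) ∧
    ∀ s ∈ I, ∀ t ∈ I, k t = tau (t - s) (k s) - ∫ r in s..t, tau (t - r) (NL (k r))

/-- Maximal solution. -/
def IsMax (I : Set ℝ) (k : ℝ → K) : Prop :=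
  IsSol I k ∧ IsOpen I ∧ I.Nonempty ∧
    ∀ J k', IsSol J k' → I ⊆ J → (∀ t ∈ I, k' t = k t) → J ⊆ I

/-- Weak convergence in `K`. -/
def WTo (k : ℕ → K) (k' : K) : Prop :=
  ∀ w : K, Tendsto (fun n => inner ℝ (k n) w) atTop (𝓝 (inner ℝ k' w))

/-- Space translation by `y` and dilation by `e^a`. -/
noncomputable def gr (y : E) (a : ℝ) (k : K) : K := sh y (dl a k)

end Pool.Agent.QWE
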