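import Pool.Agent.QWE.DefsR

set_option autoImplicit false

/-!
# QWE: definitions for Part II (Sections 8 - 10 of the paper)

`SN` is the fourth power of the Strichartz norm.
-/

open MeasureTheory Filter Topology Set
open scoped ENNReal NNReal RealInnerProductSpace

namespace Pool.Agent.QWE

/-- Frequency cut-off kernel: Schwartz, even, Fourier transform with values in `[0,1]`, equal to `1` on the unit
ball and to `0` off the ball of radius `2`. -/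
def IsPsi (ψ : E → ℝ) : Prop :=
  IsSch ψ ∧ (∀ x, ψ (-x) = ψ x) ∧ ∀ ξ : E,
    0 ≤ ∫ x, ψ x * Real.cos (2 * Real.pi * inner ℝ x ξ) ∧
    ∫ x, ψ x * Real.cos (2 * Real.pi * inner ℝ x ξ) ≤ 1 ∧
    (‖ξ‖ ≤ 1 → ∫ x, ψ x * Real.cos (2 * Real.pi * inner ℝ x ξ) = 1) ∧
    (2 ≤ ‖ξ‖ → ∫ x, ψ x * Real.cos (2 * Real.pi * inner ℝ x ξ) = 0)

/-- Sequence of solutions `β n` on `[0, T n]`, bounded by `A`, with Strichartz norms bounded by `M`, and with initial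
data converging weakly to `0`. -/
def BetaSeq (A M : ℝ) (T : ℕ → ℝ) (β : ℕ → ℝ → K) : Prop :=
  (∀ n, 0 ≤ T n ∧ IsSol (Icc 0 (T n)) (β n) ∧ (∀ t ∈ Icc 0 (T n), ‖β n t‖ ≤ A) ∧
    SN (Icc 0 (T n)) (β n) ≤ ENNReal.ofReal M) ∧ WTo (fun n => β n 0) 0

/-- A solution with finite Strichartz norm on `[0, Ts]` or on `[0, ∞)`. -/
def ASol (J : Set ℝ) (a : ℝ → K) : Prop :=
  (J = Ici 0 ∨ ∃ Ts : ℝ, 0 ≤ Ts ∧ J = Icc 0 Ts) ∧ IsSol J a ∧ SN J a < ⊤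

/-- Size of the part of `U k` above height `m` or outside the ball of radius `m`, in `L²⁰`. -/
noncomputable def qm (m : ℝ) (k : K) : ℝ≥0∞ :=
  eLpNorm (fun x => max 0 (|U k x| - m)) 20 volume +
    eLpNorm ((Metric.ball (0 : E) m)ᶜ.indicator (U k)) 20 volume

/-- Supremum of (the fourth power of) the Strichartz norms of all solutions bounded by `A`. -/
noncomputable def LA (A : ℝ) : ℝ≥0∞ :=
  ⨆ (I : Set ℝ) (k : ℝ → K) (_ : IsSol I k ∧ ∀ t ∈ I, ‖k t‖ ≤ A), SN I k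

/-- Critical element: a maximal solution bounded by the critical size `Ac` for nonnegative times, with infinite
Strichartz norm forward in time. -/
def Crit (Ac : ℝ) (I : Set ℝ) (a : ℝ → K) : Prop :=
  (∀ A' < Ac, LA A' < ⊤) ∧ IsMax I a ∧ (0 : ℝ) ∈ I ∧ (∀ t ∈ I, 0 ≤ t → ‖a t‖ ≤ Ac) ∧
    SN (I ∩ Ici 0) a = ⊤

/-- The bubble functional `F(k) = sup_g max (|⟨ρ_g⁻¹ k, R ψ⟩|, |⟨ρ_g⁻¹ k, ∂_p R ψ⟩|)`. -/
noncomputable def Fb (ψ : E → ℝ) (k : K) : ℝ :=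
  ⨆ g : E × ℝ, max |inner ℝ (ig g.1 g.2 k) (Rk ψ)| |inner ℝ (ig g.1 g.2 k) (dRk ψ)|

/-- The solution `t ↦ ρ_{(y,b)}⁻¹ k(t0 + t e^{-b})`, rescaled about time `t0`. -/
noncomputable def resc (k : ℝ → K) (t0 : ℝ) (y : E) (b : ℝ) (t : ℝ) : K :=
  ig y b (k (t0 + t * Real.exp (-b)))

end Pool.Agent.QWE
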