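import Pool.Agent.QWE.Defs

set_option autoImplicit false

/-!
# QWE: definitions for the rigidity part (Sections 3 - 7 of the paper)

Frequency scales are `N(t) = e^{a(t)}`; `gr y a κ` has centre `y` and scale `e^a`.
-/

open MeasureTheory Filter Topology Set
open scoped ENNReal NNReal RealInnerProductSpace

namespace Pool.Agent.QWE

/-- Inverse of `gr y a`: `ig y a (gr y a k) = k` (statement GrA). -/
noncomputable def ig (y : E) (a : ℝ) (k : K) : K := gr (-(Real.exp a • y)) (-a) k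

/-- Compact solution (Section 3): maximal solution on `I` with `k(t) = ρ_{(x(t), a(t))} κ`, `κ ∈ Q`,
`Q` compact, `0 ∉ Q`. No regularity of `x`, `a` is assumed. -/
def CSol (Q : Set K) (I : Set ℝ) (k : ℝ → K) (x : ℝ → E) (a : ℝ → ℝ) : Prop :=
  IsCompact Q ∧ (0 : K) ∉ Q ∧ IsMax I k ∧ ∀ t ∈ I, ∃ κ ∈ Q, k t = gr (x t) (a t) κ

/-- Normalised compact solution (conclusion of C6): global, `N(t) = e^{a(t)} ≥ 1/2`. -/
def NSol (Q : Set K) (k : ℝ → K) (x : ℝ → E) (a : ℝ → ℝ) : Prop :=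
  CSol Q univ k x a ∧ ∀ t, -Real.log 2 ≤ a t

/-- Input of Sections 5, 6: global solution, bounded by `A`, centre `y` of speed at most `1 - κ`, exterior
norms bounded by `m`: `‖k(t)‖_{|x - y(t)| > ρ} ≤ m(ρ)` for all `t`, `ρ`. -/
def Pth (κ A : ℝ) (m : ℝ → ℝ) (k : ℝ → K) (y : ℝ → E) : Prop :=
  IsSol univ k ∧ (∀ t, ‖k t‖ ≤ A) ∧ (∀ s t, dist (y t) (y s) ≤ (1 - κ) * |t - s|) ∧
    ∀ t ρ, ex (ext (y t) ρ) (k t) ≤ m ρ

/-- `epsb ρ = sup_t ‖k(t)‖_{|x - y(t)| > ρ}`. -/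
noncomputable def epsb (k : ℝ → K) (y : ℝ → E) (ρ : ℝ) : ℝ := ⨆ t, ex (ext (y t) ρ) (k t)

end Pool.Agent.QWE
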