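import Pool.Agent.QWE.DensB

set_option autoImplicit false

/-!
# QWE / Dens: density of the test states
-/

open MeasureTheory Filter Topology Set
open scoped ENNReal NNReal RealInnerProductSpace Pointwise FourierTransform SchwartzMap LineDeriv
  ContDiff Manifold

namespace Pool.Agent.QWE

namespace Densx

open Isox

/-! ### Functions on the sphere -/

/-- restrictions of smooth functions to the sphere -/
noncomputable def smS : Subalgebra ℝ C(S, ℝ) where
  carrier := {A | ∃ a : E → ℝ, SmE a ∧ ∀ w : S, A w = a w}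
  mul_mem' := by
    rintro A A' ⟨a, ha, hA⟩ ⟨a', ha', hA'⟩
    refine ⟨fun x => a x * a' x, ContDiff.mul ha ha', fun w => ?_⟩
    rw [ContinuousMap.mul_apply, hA, hA']
  add_mem' := by
    rintro A A' ⟨a, ha, hA⟩ ⟨a', ha', hA'⟩
    refine ⟨fun x => a x + a' x, ContDiff.add ha ha', fun w => ?_⟩
    rw [ContinuousMap.add_apply, hA, hA']
  algebraMap_mem' := by
    intro r
    exact ⟨fun _ => r, contDiff_const, fun w => rfl⟩

theorem smS_sep : smS.SeparatesPoints := by
  intro w w' hww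
  have hc : Continuous fun v : S => inner ℝ (v : E) (w : E) := by fun_prop
  refine ⟨fun v : S => inner ℝ (v : E) (w : E), ⟨⟨_, hc⟩, ⟨fun x => inner ℝ x (w : E), ?_,
    fun v => rfl⟩, rfl⟩, ?_⟩
  · exact contDiff_id.inner ℝ contDiff_const
  · intro h
    have hw : ‖(w : E)‖ = 1 := by simp
    have hw' : ‖(w' : E)‖ = 1 := by simp
    have h1 : inner ℝ (w : E) (w : E) = (1 : ℝ) := (inner_eq_one_iff_of_norm_eq_one hw hw).2 rfl
    have h2 : inner ℝ (w' : E) (w : E) = (1 : ℝ) := h.symm.trans h1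
    have h3 := (inner_eq_one_iff_of_norm_eq_one hw' hw).1 h2
    exact hww (Subtype.ext h3.symm)

theorem sphere_cont {F : S → ℝ} (hF : Integrable F sg)
    (h : ∀ a : E → ℝ, SmE a → ∫ w : S, a w * F w ∂sg = 0) {A : S → ℝ} (hA : Continuous A) :
    ∫ w, A w * F w ∂sg = 0 := by
  obtain ⟨MA, hMA⟩ : ∃ M, ∀ w, ‖A w‖ ≤ M := by
    obtain ⟨M, hM⟩ := isCompact_univ.exists_bound_of_continuousOn hA.continuousOn
    exact ⟨M, fun w => hM w (mem_univ w)⟩
  have hAF : Integrable (fun w => A w * F w) sg :=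
    hF.bdd_mul hA.aestronglyMeasurable (Eventually.of_forall hMA)
  have key : ∀ ε : ℝ, 0 < ε → |∫ w, A w * F w ∂sg| ≤ ε * ∫ w, |F w| ∂sg := by
    intro ε hε
    obtain ⟨⟨a0, a, ha, haA⟩, hg⟩ :=
      ContinuousMap.exists_mem_subalgebra_near_continuous_of_separatesPoints smS smS_sep A hA ε hε
    have hg' : ∀ w : S, ‖a w - A w‖ < ε := by
      intro w
      rw [← haA w]
      exact hg w
    have hca : Continuous fun w : S => a w := (ContDiff.continuous ha).comp continuous_subtype_val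
    obtain ⟨Ma, hMa⟩ : ∃ M, ∀ w : S, ‖a w‖ ≤ M := by
      obtain ⟨M, hM⟩ := isCompact_univ.exists_bound_of_continuousOn hca.continuousOn
      exact ⟨M, fun w => hM w (mem_univ w)⟩
    have haF : Integrable (fun w : S => a w * F w) sg :=
      hF.bdd_mul hca.aestronglyMeasurable (Eventually.of_forall hMa)
    have h1 : ∫ w, A w * F w ∂sg = ∫ w : S, (A w * F w - a w * F w) ∂sg := by
      rw [integral_sub hAF haF, h a ha, sub_zero]
    rw [h1, ← Real.norm_eq_abs]
    refine (norm_integral_le_integral_norm _).trans ?_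
    rw [← integral_const_mul]
    refine integral_mono (hAF.sub haF).norm (hF.abs.const_mul ε) fun w => ?_
    show ‖A w * F w - a w * F w‖ ≤ ε * |F w|
    rw [← sub_mul, norm_mul, Real.norm_eq_abs (F w), norm_sub_rev]
    exact mul_le_mul_of_nonneg_right (hg' w).le (abs_nonneg _)
  have hI : 0 ≤ ∫ w, |F w| ∂sg := integral_nonneg fun w => abs_nonneg _
  have h0 : |∫ w, A w * F w ∂sg| ≤ 0 := by
    refine le_of_forall_pos_le_add fun ε hε => ?_
    have h2 := key (ε / (∫ w, |F w| ∂sg + 1)) (by positivity)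
    refine h2.trans ?_
    rw [zero_add, div_mul_eq_mul_div, div_le_iff₀ (by positivity)]
    nlinarith
  exact abs_nonpos_iff.1 h0

theorem sphere_zero {F : S → ℝ} (hF : Integrable F sg)
    (h : ∀ a : E → ℝ, SmE a → ∫ w : S, a w * F w ∂sg = 0) : ∀ᵐ w ∂sg, F w = 0 := by
  haveI : Fact (Module.finrank ℝ E = 4 + 1) := ⟨by simp [E]⟩
  refine ae_eq_zero_of_integral_contMDiff_smul_eq_zero (𝓡 4) (M := S) hF.locallyIntegrable
    fun g hg _ => ?_
  exact sphere_cont hF h hg.continuous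

/-! ### Functions on the line -/

theorem ones_smul {B : 𝓢(ℝ, ℂ)} (hB : OneS B) (c : ℂ) : OneS (c • B) := by
  obtain ⟨δ, R, hδ, h1, h2⟩ := hB
  refine ⟨δ, R, hδ, fun r hr => ?_, fun r hr => ?_⟩
  · show c * B r = 0
    rw [h1 r hr, mul_zero]
  · show c * B r = 0
    rw [h2 r hr, mul_zero]

theorem mul_parts (x : ℝ) (z : ℂ) :
    (x : ℂ) * z = ((x * z.re : ℝ) : ℂ) + ((x * z.im : ℝ) : ℂ) * Complex.I := by
  apply Complex.ext <;> simp

theorem mul_parts' (x : ℝ) (z : ℂ) : (x : ℂ) * (starRingEnd ℂ) z =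
    ((x * z.re : ℝ) : ℂ) + ((x * z.im : ℝ) : ℂ) * (-Complex.I) := by
  apply Complex.ext <;> simp

theorem line_c {g : ℝ → ℝ} (hg : MemLp g 2 volume)
    (h : ∀ B : 𝓢(ℝ, ℂ), OneS B → ∫ p, g p * ((𝓕⁻ B) p).re = 0) {B : 𝓢(ℝ, ℂ)} (hB : OneS B) :
    ∫ p, (g p : ℂ) * (𝓕⁻ B) p = 0 ∧ ∫ p, (g p : ℂ) * (starRingEnd ℂ) ((𝓕⁻ B) p) = 0 := by
  have h1 := h B hB
  have h2 : ∫ p, g p * ((𝓕⁻ B) p).im = 0 := by
    have h3 := h (Complex.I • B) (ones_smul hB _)
    have h4 : ∀ p, g p * ((𝓕⁻ (Complex.I • B)) p).re = -(g p * ((𝓕⁻ B) p).im) := by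
      intro p
      rw [FourierTransform.fourierInv_smul]
      show g p * (Complex.I * (𝓕⁻ B) p).re = _
      rw [Complex.I_mul_re, mul_neg]
    rw [integral_congr_ae (Eventually.of_forall h4), integral_neg, neg_eq_zero] at h3
    exact h3
  have hb : MemLp (⇑(𝓕⁻ B : 𝓢(ℝ, ℂ))) 2 volume := SchwartzMap.memLp _ 2 volume
  have i1 : Integrable fun p => g p * ((𝓕⁻ B) p).re := hg.integrable_mul hb.re
  have i2 : Integrable fun p => g p * ((𝓕⁻ B) p).im := hg.integrable_mul hb.im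
  constructor
  · have h5 : ∀ p, (g p : ℂ) * (𝓕⁻ B) p =
        ((g p * ((𝓕⁻ B) p).re : ℝ) : ℂ) + ((g p * ((𝓕⁻ B) p).im : ℝ) : ℂ) * Complex.I := by
      intro p
      exact mul_parts _ _
    rw [integral_congr_ae (Eventually.of_forall h5), integral_add i1.ofReal
      (i2.ofReal.mul_const _), integral_mul_const, integral_complex_ofReal, integral_complex_ofReal,
      h1, h2]
    simp
  · have h5 : ∀ p, (g p : ℂ) * (starRingEnd ℂ) ((𝓕⁻ B) p) =
        ((g p * ((𝓕⁻ B) p).re : ℝ) : ℂ) + ((g p * ((𝓕⁻ B) p).im : ℝ) : ℂ) * (-Complex.I) := by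
      intro p
      exact mul_parts' _ _
    rw [integral_congr_ae (Eventually.of_forall h5), integral_add i1.ofReal
      (i2.ofReal.mul_const _), integral_mul_const, integral_complex_ofReal, integral_complex_ofReal,
      h1, h2]
    simp

/-- a smooth function with compact support in the open right half line as a Schwartz function -/
theorem exists_ones {φ : ℝ → ℝ} (h1 : ContDiff ℝ ∞ φ) (h2 : HasCompactSupport φ)
    (h3 : tsupport φ ⊆ Ioi 0) : ∃ B : 𝓢(ℝ, ℂ), OneS B ∧ ∀ r, B r = (φ r : ℂ) := by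
  have hc : HasCompactSupport fun r => (φ r : ℂ) := h2.comp_left (g := fun x : ℝ => (x : ℂ)) rfl
  have hs : ContDiff ℝ ∞ fun r => (φ r : ℂ) := Complex.ofRealCLM.contDiff.comp h1
  refine ⟨hc.toSchwartzMap hs, ?_, fun _ => rfl⟩
  have h4 : (tsupport φ)ᶜ ∈ 𝓝 (0 : ℝ) :=
    (isClosed_tsupport φ).isOpen_compl.mem_nhds fun h => absurd (mem_Ioi.1 (h3 h)) (lt_irrefl _)
  obtain ⟨ε, hε, hball⟩ := Metric.mem_nhds_iff.1 h4
  obtain ⟨R, hR⟩ := h2.isBounded.subset_closedBall (0 : ℝ)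
  refine ⟨ε / 2, R + 1, by positivity, fun r hr => ?_, fun r hr => ?_⟩
  · show (φ r : ℂ) = 0
    have h5 : r ∉ tsupport φ := by
      rcases le_or_gt r 0 with h6 | h6
      · intro h7
        exact absurd (h3 h7) (not_lt.2 h6)
      · refine hball ?_
        rw [mem_ball_zero_iff, Real.norm_eq_abs, abs_of_pos h6]
        linarith
    rw [image_eq_zero_of_notMem_tsupport h5, Complex.ofReal_zero]
  · show (φ r : ℂ) = 0
    have h5 : r ∉ tsupport φ := by
      intro h7
      have h8 := hR h7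
      rw [mem_closedBall_zero_iff, Real.norm_eq_abs] at h8
      have := le_abs_self r
      linarith
    rw [image_eq_zero_of_notMem_tsupport h5, Complex.ofReal_zero]

theorem line_zero {g : ℝ → ℝ} (hg : MemLp g 2 volume)
    (h : ∀ B : 𝓢(ℝ, ℂ), OneS B → ∫ p, g p * ((𝓕⁻ B) p).re = 0) : ∀ᵐ p, g p = 0 := by
  have hgC : MemLp (fun p => (g p : ℂ)) 2 volume := hg.ofReal
  set γ : Lp ℂ 2 (volume : Measure ℝ) := hgC.toLp _ with hγ
  have hγe : (γ : ℝ → ℂ) =ᵐ[volume] fun p => (g p : ℂ) := hgC.coeFn_toLp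
  set η : Lp ℂ 2 (volume : Measure ℝ) := 𝓕 γ with hη
  -- duality
  have hdual : ∀ Ψ : 𝓢(ℝ, ℂ), ∫ r, (starRingEnd ℂ) (Ψ r) * η r =
      ∫ p, (g p : ℂ) * (starRingEnd ℂ) ((𝓕⁻ Ψ) p) := by
    intro Ψ
    have e1 : (inner ℂ (Ψ.toLp 2 volume) η : ℂ) = ∫ r, (starRingEnd ℂ) (Ψ r) * η r := by
      rw [L2.inner_def]
      refine integral_congr_ae ?_
      filter_upwards [Ψ.coeFn_toLp 2 volume] with r hr
      rw [hr, RCLike.inner_apply, mul_comm]
    have e2 : (inner ℂ ((𝓕⁻ Ψ).toLp 2 volume) γ : ℂ) =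
        ∫ p, (g p : ℂ) * (starRingEnd ℂ) ((𝓕⁻ Ψ) p) := by
      rw [L2.inner_def]
      refine integral_congr_ae ?_
      filter_upwards [(𝓕⁻ Ψ).coeFn_toLp 2 volume, hγe] with r hr hr2
      rw [hr, hr2, RCLike.inner_apply]
    have e3 : (inner ℂ (𝓕 ((𝓕⁻ Ψ).toLp 2 volume)) (𝓕 γ) : ℂ) =
        inner ℂ ((𝓕⁻ Ψ).toLp 2 volume) γ := Lp.inner_fourier_eq _ _
    rw [SchwartzMap.toLp_fourier_eq, FourierTransform.fourier_fourierInv_eq] at e3
    rw [← e1, ← e2, ← e3]
  have hloc : LocallyIntegrable (η : ℝ → ℂ) volume :=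
    (Lp.memLp η).locallyIntegrable (by norm_num)
  -- right half line
  have hpos : ∀ᵐ r : ℝ, r ∈ Ioi (0 : ℝ) → η r = 0 := by
    refine isOpen_Ioi.ae_eq_zero_of_integral_contDiff_smul_eq_zero (hloc.locallyIntegrableOn _)
      fun φ h1 h2 h3 => ?_
    obtain ⟨B, hB, hBφ⟩ := exists_ones h1 h2 h3
    have h4 := (line_c hg h hB).2
    rw [← hdual B] at h4
    rw [← h4]
    refine integral_congr_ae (Eventually.of_forall fun r => ?_)
    simp only
    rw [hBφ, Complex.conj_ofReal, Complex.real_smul]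
  -- left half line
  have hneg : ∀ᵐ r : ℝ, r ∈ Iio (0 : ℝ) → η r = 0 := by
    refine isOpen_Iio.ae_eq_zero_of_integral_contDiff_smul_eq_zero (hloc.locallyIntegrableOn _)
      fun φ h1 h2 h3 => ?_
    have h1' : ContDiff ℝ ∞ fun r => φ (-r) := h1.comp contDiff_neg
    have h2' : HasCompactSupport fun r => φ (-r) := h2.comp_homeomorph (Homeomorph.neg ℝ)
    have h3' : tsupport (fun r => φ (-r)) ⊆ Ioi 0 := by
      intro r hr
      have h5 : tsupport (fun r => φ (-r)) = (Homeomorph.neg ℝ) ⁻¹' tsupport φ :=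
        tsupport_comp_eq_preimage φ (Homeomorph.neg ℝ)
      rw [h5] at hr
      have h6 : -r < 0 := h3 hr
      exact neg_lt_zero.1 h6
    obtain ⟨B, hB, hBφ⟩ := exists_ones h1' h2' h3'
    have hc : HasCompactSupport fun r => (φ r : ℂ) := h2.comp_left (g := fun x : ℝ => (x : ℂ)) rfl
    have hs : ContDiff ℝ ∞ fun r => (φ r : ℂ) := Complex.ofRealCLM.contDiff.comp h1
    set B' : 𝓢(ℝ, ℂ) := hc.toSchwartzMap hs with hB'
    have hB'φ : ∀ r, B' r = (φ r : ℂ) := fun _ => rfl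
    have h4 := (line_c hg h hB).1
    have h6 : ∀ p, (starRingEnd ℂ) ((𝓕⁻ B') p) = (𝓕⁻ B) p := by
      intro p
      rw [SchwartzMap.fourierInv_coe, SchwartzMap.fourierInv_coe, Real.fourierInv_eq',
        Real.fourierInv_eq', ← integral_conj, ← integral_neg_eq_self]
      refine integral_congr_ae (Eventually.of_forall fun r => ?_)
      simp only [smul_eq_mul, map_mul]
      rw [hB'φ, hBφ, Complex.conj_ofReal, ← Complex.exp_conj, map_mul, Complex.conj_I,
        Complex.conj_ofReal]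
      congr 2
      · rw [inner_neg_left]
        push_cast
        ring
    rw [← integral_congr_ae (Eventually.of_forall fun p => by
      show (g p : ℂ) * (starRingEnd ℂ) ((𝓕⁻ B') p) = (g p : ℂ) * (𝓕⁻ B) p
      rw [h6 p]), ← hdual B'] at h4
    rw [← h4]
    refine integral_congr_ae (Eventually.of_forall fun r => ?_)
    simp only
    rw [hB'φ, Complex.conj_ofReal, Complex.real_smul]
  have hη0 : η = 0 := by
    rw [Lp.eq_zero_iff_ae_eq_zero]
    have hne : ∀ᵐ r : ℝ, r ≠ 0 := by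
      rw [ae_iff]
      simp
    filter_upwards [hpos, hneg, hne] with r h1 h2 h3
    rcases lt_or_gt_of_ne h3 with h4 | h4
    · exact h2 h4
    · exact h1 h4
  have hγ0 : γ = 0 := by
    have h1 : ‖η‖ = ‖γ‖ := Lp.norm_fourier_eq γ
    rw [hη0, norm_zero] at h1
    exact norm_eq_zero.1 h1.symm
  have h7 : (γ : ℝ → ℂ) =ᵐ[volume] 0 := by
    rw [hγ0]
    exact Lp.coeFn_zero _ _ _
  filter_upwards [hγe, h7] with p h8 h9
  rw [h9, Pi.zero_apply] at h8
  exact_mod_cast h8.symm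

/-! ### Orthogonality -/

theorem orth_zero (hR : St_RadS) (hF : St_FSl) (κ : K)
    (hκ : ∀ f g : E → ℝ, IsSch f → IsSch g → inner ℝ κ (Theta f g) = 0) : κ = 0 := by
  -- the product formula
  have hprod : ∀ (a : E → ℝ) (B : 𝓢(ℝ, ℂ)), SmE a → OneS B →
      Integrable (fun z : S × ℝ => κ z * (a z.1 * ((𝓕⁻ B) z.2).re)) mu ∧
        ∫ z : S × ℝ, κ z * (a z.1 * ((𝓕⁻ B) z.2).re) ∂mu = 0 := by
    intro a B ha hB
    obtain ⟨f, g, hf, hg, hfg⟩ := prof hR hF ha hB
    have a1 := (hR _ (sch_lap (sch_lap hf))).2.2.2.2.2.1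
    have a2 := (hR _ (sch_lap hg)).2.2.2.2.2.2
    have h1 : ((Rk (lap (lap f)) - dRk (lap g) : K) : S × ℝ → ℝ) =ᵐ[mu]
        fun z => a z.1 * ((𝓕⁻ B) z.2).re := by
      filter_upwards [Lp.coeFn_sub (Rk (lap (lap f))) (dRk (lap g)), a1, a2] with z e1 e2 e3
      rw [e1, Pi.sub_apply, e2, e3]
      exact hfg z.1 z.2
    constructor
    · have h2 : Integrable (fun z => κ z * (Rk (lap (lap f)) - dRk (lap g) : K) z) mu :=
        (Lp.memLp κ).integrable_mul (Lp.memLp _)
      refine h2.congr ?_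
      filter_upwards [h1] with z hz
      rw [hz]
    · rw [← inner_K (Filter.EventuallyEq.refl _ _) h1]
      have h3 := hκ f g hf hg
      unfold Theta at h3
      rw [inner_smul_right] at h3
      exact (mul_eq_zero.1 h3).resolve_left c0_pos.ne'
  -- slices
  have hslice : ∀ B : 𝓢(ℝ, ℂ), OneS B → ∀ᵐ w ∂sg, ∫ p, κ (w, p) * ((𝓕⁻ B) p).re = 0 := by
    intro B hB
    have h1 := (hprod (fun _ => 1) B contDiff_const hB).1
    simp only [one_mul] at h1
    refine sphere_zero h1.integral_prod_left fun a ha => ?_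
    obtain ⟨h2, h3⟩ := hprod a B ha hB
    rw [integral_prod _ h2] at h3
    rw [← h3]
    refine integral_congr_ae (Eventually.of_forall fun w => ?_)
    simp only
    rw [← integral_const_mul]
    refine integral_congr_ae (Eventually.of_forall fun p => ?_)
    simp only
    ring
  -- a countable family
  set D : Set (Lp ℝ 2 (volume : Measure ℝ)) :=
    {β | ∃ B : 𝓢(ℝ, ℂ), OneS B ∧ (β : ℝ → ℝ) =ᵐ[volume] fun p => ((𝓕⁻ B) p).re} with hD
  have : Fact ((2 : ℝ≥0∞) ≠ ⊤) := ⟨by norm_num⟩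
  have : SecondCountableTopology (Lp ℝ 2 (volume : Measure ℝ)) := inferInstance
  obtain ⟨t, htD, htc, hDt⟩ :=
    (TopologicalSpace.IsSeparable.of_separableSpace D).exists_countable_dense_subset
  have h1 : ∀ᵐ w ∂sg, ∀ β ∈ t, ∫ p, κ (w, p) * β p = 0 := by
    rw [ae_ball_iff htc]
    intro β hβ
    obtain ⟨B, hB, hβB⟩ := htD hβ
    filter_upwards [hslice B hB] with w hw
    rw [← hw]
    refine integral_congr_ae ?_
    filter_upwards [hβB] with p hp
    rw [hp]
  have hmeas : StronglyMeasurable (κ : S × ℝ → ℝ) := Lp.stronglyMeasurable κ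
  have h2 : ∀ᵐ w ∂sg, Integrable (fun p => κ (w, p) ^ 2) volume :=
    (Lp.memLp κ).integrable_sq.prod_right_ae
  have h3 : ∀ᵐ w ∂sg, ∀ᵐ p, κ (w, p) = 0 := by
    filter_upwards [h1, h2] with w hw1 hw2
    have hsm : StronglyMeasurable fun p => κ (w, p) := hmeas.comp_measurable measurable_prodMk_left
    have hm : MemLp (fun p => κ (w, p)) 2 volume :=
      (memLp_two_iff_integrable_sq hsm.aestronglyMeasurable).2 hw2
    refine line_zero hm fun B hB => ?_
    have hbm : MemLp (fun p => ((𝓕⁻ B) p).re) 2 volume := ((𝓕⁻ B).memLp 2 volume).re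
    set κw : Lp ℝ 2 (volume : Measure ℝ) := hm.toLp _ with hκw
    have hinner : ∀ β : Lp ℝ 2 (volume : Measure ℝ),
        (inner ℝ κw β : ℝ) = ∫ p, κ (w, p) * β p := by
      intro β
      rw [L2.inner_def]
      refine integral_congr_ae ?_
      filter_upwards [hm.coeFn_toLp] with p hp
      rw [hκw, hp]
      simp [mul_comm]
    have hcl : closure t ⊆ {β | (inner ℝ κw β : ℝ) = 0} := by
      refine closure_minimal (fun β hβ => ?_) ?_
      · show (inner ℝ κw β : ℝ) = 0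
        rw [hinner]
        exact hw1 β hβ
      · exact isClosed_eq (continuous_const.inner continuous_id) continuous_const
    have hmem : hbm.toLp _ ∈ D := ⟨B, hB, hbm.coeFn_toLp⟩
    have h4 : (inner ℝ κw (hbm.toLp _) : ℝ) = 0 := hcl (hDt hmem)
    rw [hinner] at h4
    rw [← h4]
    refine integral_congr_ae ?_
    filter_upwards [hbm.coeFn_toLp] with p hp
    rw [hp]
  have h4 : ∀ᵐ z ∂mu, κ z = 0 := by
    have hms : MeasurableSet {z : S × ℝ | κ z = 0} :=
      hmeas.measurable (measurableSet_singleton 0)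
    exact (Measure.ae_prod_iff_ae_ae hms).2 h3
  exact (Lp.eq_zero_iff_ae_eq_zero).2 h4

/-- the subspace of test states -/
noncomputable def tst (hR : St_RadS) : Submodule ℝ K where
  carrier := {k | ∃ f g : E → ℝ, IsTest f ∧ IsTest g ∧ k = Theta f g}
  add_mem' := by
    rintro _ _ ⟨f, g, hf, hg, rfl⟩ ⟨f', g', hf', hg', rfl⟩
    refine ⟨_, _, test_lin hf hf' 1, test_lin hg hg' 1, ?_⟩
    rw [Theta_lin hR (test_sch hf) (test_sch hf') (test_sch hg) (test_sch hg') 1, one_smul]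
  zero_mem' := by
    have h0 : IsTest (fun _ : E => (0 : ℝ)) := ⟨contDiff_const, HasCompactSupport.zero⟩
    refine ⟨_, _, h0, h0, ?_⟩
    have h1 := Theta_lin hR (test_sch h0) (test_sch h0) (test_sch h0) (test_sch h0) (-1)
    simp only [mul_zero, add_zero, neg_smul, one_smul, add_neg_cancel] at h1
    exact h1.symm
  smul_mem' := by
    rintro c _ ⟨f, g, hf, hg, rfl⟩
    have h0 : IsTest (fun _ : E => (0 : ℝ)) := ⟨contDiff_const, HasCompactSupport.zero⟩
    refine ⟨_, _, test_lin h0 hf c, test_lin h0 hg c, ?_⟩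
    have h1 := Theta_lin hR (test_sch h0) (test_sch h0) (test_sch h0) (test_sch h0) (-1)
    simp only [mul_zero, add_zero, neg_smul, one_smul, add_neg_cancel] at h1
    rw [Theta_lin hR (test_sch h0) (test_sch hf) (test_sch h0) (test_sch hg) c, h1, zero_add]

theorem tst_dense (hR : St_RadS) (hF : St_FSl) (hI : St_Iso) :
    (tst hR).topologicalClosure = ⊤ := by
  rw [Submodule.topologicalClosure_eq_top_iff, Submodule.eq_bot_iff]
  intro κ hκ
  rw [Submodule.mem_orthogonal'] at hκ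
  refine orth_zero hR hF κ fun f g hf hg => ?_
  have h1 : Tendsto (fun n => (inner ℝ κ (Theta (cut f n) (cut g n)) : ℝ)) atTop
      (𝓝 (inner ℝ κ (Theta f g))) := (tendsto_const_nhds).inner (Theta_cut hI hf hg)
  have h2 : ∀ n, (inner ℝ κ (Theta (cut f n) (cut g n)) : ℝ) = 0 := fun n =>
    hκ _ ⟨_, _, cut_test hf n, cut_test hg n, rfl⟩
  simp only [h2] at h1
  exact (tendsto_nhds_unique h1 tendsto_const_nhds)

end Densx

open Densx in
theorem thm_Dens (hR : St_RadS) (hF : St_FSl) (hI : St_Iso) : St_Dens := by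
  have hd := tst_dense hR hF hI
  constructor
  · rw [eq_top_iff, ← hd]
    refine Submodule.topologicalClosure_mono ?_
    rintro _ ⟨f, g, hf, hg, rfl⟩
    unfold Theta
    refine Submodule.smul_mem _ _ (Submodule.sub_mem _ (Submodule.subset_span ?_)
      (Submodule.subset_span ?_))
    · exact ⟨_, test_lap (test_lap hf), subset_univ _, Or.inl rfl⟩
    · exact ⟨_, test_lap hg, subset_univ _, Or.inr rfl⟩
  · intro k ε hε
    have h1 : k ∈ closure ((tst hR : Submodule ℝ K) : Set K) := by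
      rw [← Submodule.topologicalClosure_coe, hd]
      trivial
    obtain ⟨b, ⟨f, g, hf, hg, rfl⟩, hb⟩ := Metric.mem_closure_iff.1 h1 ε hε
    exact ⟨f, g, hf, hg, by rwa [← dist_eq_norm]⟩

end Pool.Agent.QWE
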