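import Pool.Agent.QWE.Iso

set_option autoImplicit false

/-!
# QWE / Dens, first part: linearity of `Theta`, cut-off of Schwartz functions
-/

open MeasureTheory Filter Topology Set
open scoped ENNReal NNReal RealInnerProductSpace Pointwise FourierTransform SchwartzMap LineDeriv
  ContDiff

namespace Pool.Agent.QWE

namespace Densx

open Isox

/-! ### Schwartz functions and test functions -/

theorem sch_smE {φ : E → ℝ} (h : IsSch φ) : SmE φ := by
  obtain ⟨f, hf⟩ := h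
  have he : φ = f := by
    funext x
    exact (hf x).symm
  rw [he]
  exact f.smooth ⊤

theorem test_sch {φ : E → ℝ} (h : IsTest φ) : IsSch φ :=
  ⟨h.2.toSchwartzMap h.1, fun _ => rfl⟩

theorem sch_diff {φ : E → ℝ} (h : IsSch φ) : Differentiable ℝ φ := by
  obtain ⟨f, hf⟩ := h
  have he : φ = f := by
    funext x
    exact (hf x).symm
  rw [he]
  exact f.differentiable

theorem sch_lineDeriv {φ : E → ℝ} (h : IsSch φ) (v : E) : IsSch (fun x => fderiv ℝ φ x v) := by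
  obtain ⟨f, hf⟩ := h
  have he : φ = f := by
    funext x
    exact (hf x).symm
  refine ⟨∂_{v} f, fun x => ?_⟩
  rw [he]
  rfl

theorem sch_int {φ : E → ℝ} (h : IsSch φ) : Integrable φ := by
  obtain ⟨f, hf⟩ := h
  have he : φ = f := by
    funext x
    exact (hf x).symm
  rw [he]
  exact f.integrable

theorem sch_lin {φ ψ : E → ℝ} (hφ : IsSch φ) (hψ : IsSch ψ) (c : ℝ) :
    IsSch (fun x => φ x + c * ψ x) := by
  obtain ⟨f, hf⟩ := hφ
  obtain ⟨g, hg⟩ := hψ
  refine ⟨f + c • g, fun x => ?_⟩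
  show f x + c * g x = φ x + c * ψ x
  rw [hf, hg]

theorem test_lin {φ ψ : E → ℝ} (hφ : IsTest φ) (hψ : IsTest ψ) (c : ℝ) :
    IsTest (fun x => φ x + c * ψ x) :=
  ⟨hφ.1.add (contDiff_const.mul hψ.1), hφ.2.add (hψ.2.mul_left)⟩

theorem test_pd {φ : E → ℝ} (h : IsTest φ) (i : Fin 5) : IsTest (pd i φ) := by
  refine ⟨?_, ?_⟩
  · have h1 : ContDiff ℝ ∞ (fderiv ℝ φ) := h.1.fderiv_right (by exact_mod_cast le_top)
    exact h1.clm_apply contDiff_const
  · exact h.2.fderiv_apply (𝕜 := ℝ) (EuclideanSpace.single i (1 : ℝ))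

theorem test_lap {φ : E → ℝ} (h : IsTest φ) : IsTest (lap φ) := by
  refine ⟨?_, ?_⟩
  · show ContDiff ℝ ∞ fun x => ∑ i, pd i (pd i φ) x
    exact ContDiff.sum fun i _ => (test_pd (test_pd h i) i).1
  · have h1 : ∀ s : Finset (Fin 5), HasCompactSupport fun x => ∑ i ∈ s, pd i (pd i φ) x := by
      intro s
      classical
      induction s using Finset.induction_on with
      | empty =>
        simp only [Finset.sum_empty]
        exact HasCompactSupport.zero
      | insert a s ha ih =>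
        simp only [Finset.sum_insert ha]
        exact (test_pd (test_pd h a) a).2.add ih
    exact h1 Finset.univ

/-! ### Linearity -/

theorem pd_lin {φ ψ : E → ℝ} (hφ : IsSch φ) (hψ : IsSch ψ) (c : ℝ) (i : Fin 5) :
    pd i (fun x => φ x + c * ψ x) = fun x => pd i φ x + c * pd i ψ x := by
  funext x
  have h1 : HasFDerivAt (fun x => φ x + c * ψ x) (fderiv ℝ φ x + c • fderiv ℝ ψ x) x :=
    ((sch_diff hφ) x).hasFDerivAt.add (((sch_diff hψ) x).hasFDerivAt.const_mul c)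
  unfold pd
  rw [h1.fderiv]
  rfl

theorem lap_lin {φ ψ : E → ℝ} (hφ : IsSch φ) (hψ : IsSch ψ) (c : ℝ) :
    lap (fun x => φ x + c * ψ x) = fun x => lap φ x + c * lap ψ x := by
  funext x
  unfold lap
  rw [Finset.mul_sum, ← Finset.sum_add_distrib]
  refine Finset.sum_congr rfl fun i _ => ?_
  rw [pd_lin hφ hψ c i, pd_lin (sch_pd hφ i) (sch_pd hψ i) c i]

theorem Rad_lin {φ ψ : E → ℝ} (hφ : IsSch φ) (hψ : IsSch ψ) (c : ℝ) (z : S × ℝ) :
    Rad (fun x => φ x + c * ψ x) z = Rad φ z + c * Rad ψ z := by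
  have hA : MeasurableSet {x : E | inner ℝ x (z.1 : E) ≤ z.2} :=
    measurableSet_le (by fun_prop) (by fun_prop)
  have h1 : ∀ x : E, {x : E | inner ℝ x (z.1 : E) ≤ z.2}.indicator
      (fun x => fderiv ℝ (fun x => φ x + c * ψ x) x (z.1 : E)) x =
      {x : E | inner ℝ x (z.1 : E) ≤ z.2}.indicator (fun x => fderiv ℝ φ x (z.1 : E)) x +
      c * {x : E | inner ℝ x (z.1 : E) ≤ z.2}.indicator (fun x => fderiv ℝ ψ x (z.1 : E)) x := by
    intro x
    have h2 : HasFDerivAt (fun x => φ x + c * ψ x) (fderiv ℝ φ x + c • fderiv ℝ ψ x) x :=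
      ((sch_diff hφ) x).hasFDerivAt.add (((sch_diff hψ) x).hasFDerivAt.const_mul c)
    by_cases hx : x ∈ {x : E | inner ℝ x (z.1 : E) ≤ z.2}
    · rw [indicator_of_mem hx, indicator_of_mem hx, indicator_of_mem hx, h2.fderiv]
      rfl
    · rw [indicator_of_notMem hx, indicator_of_notMem hx, indicator_of_notMem hx]
      simp
  unfold Rad
  rw [integral_congr_ae (Eventually.of_forall h1), integral_add, integral_const_mul]
  · exact (sch_int (sch_lineDeriv hφ (z.1 : E))).indicator hA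
  · exact ((sch_int (sch_lineDeriv hψ (z.1 : E))).indicator hA).const_mul c

theorem dRad_lin {φ ψ : E → ℝ} (hφ : IsSch φ) (hψ : IsSch ψ) (c : ℝ) (z : S × ℝ) :
    dRad (fun x => φ x + c * ψ x) z = dRad φ z + c * dRad ψ z := by
  unfold dRad
  rw [← Rad_lin (sch_lineDeriv hφ _) (sch_lineDeriv hψ _) c z]
  congr 1
  funext x
  have h2 : HasFDerivAt (fun x => φ x + c * ψ x) (fderiv ℝ φ x + c • fderiv ℝ ψ x) x :=
    ((sch_diff hφ) x).hasFDerivAt.add (((sch_diff hψ) x).hasFDerivAt.const_mul c)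
  rw [h2.fderiv]
  rfl

theorem Rk_lin (hR : St_RadS) {φ ψ : E → ℝ} (hφ : IsSch φ) (hψ : IsSch ψ) (c : ℝ) :
    Rk (fun x => φ x + c * ψ x) = Rk φ + c • Rk ψ := by
  apply Lp.ext
  filter_upwards [(hR _ (sch_lin hφ hψ c)).2.2.2.2.2.1, (hR φ hφ).2.2.2.2.2.1,
    (hR ψ hψ).2.2.2.2.2.1, Lp.coeFn_add (Rk φ) (c • Rk ψ), Lp.coeFn_smul c (Rk ψ)]
    with z h1 h2 h3 h4 h5
  rw [h1, h4, Pi.add_apply, h2, h5, Pi.smul_apply, h3, Rad_lin hφ hψ c z, smul_eq_mul]

theorem dRk_lin (hR : St_RadS) {φ ψ : E → ℝ} (hφ : IsSch φ) (hψ : IsSch ψ) (c : ℝ) :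
    dRk (fun x => φ x + c * ψ x) = dRk φ + c • dRk ψ := by
  apply Lp.ext
  filter_upwards [(hR _ (sch_lin hφ hψ c)).2.2.2.2.2.2, (hR φ hφ).2.2.2.2.2.2,
    (hR ψ hψ).2.2.2.2.2.2, Lp.coeFn_add (dRk φ) (c • dRk ψ), Lp.coeFn_smul c (dRk ψ)]
    with z h1 h2 h3 h4 h5
  rw [h1, h4, Pi.add_apply, h2, h5, Pi.smul_apply, h3, dRad_lin hφ hψ c z, smul_eq_mul]

theorem Theta_lin (hR : St_RadS) {f f' g g' : E → ℝ} (hf : IsSch f) (hf' : IsSch f')
    (hg : IsSch g) (hg' : IsSch g') (c : ℝ) :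
    Theta (fun x => f x + c * f' x) (fun x => g x + c * g' x) = Theta f g + c • Theta f' g' := by
  unfold Theta
  rw [lap_lin hf hf' c, lap_lin (sch_lap hf) (sch_lap hf') c, lap_lin hg hg' c,
    Rk_lin hR (sch_lap (sch_lap hf)) (sch_lap (sch_lap hf')) c,
    dRk_lin hR (sch_lap hg) (sch_lap hg') c]
  rw [smul_comm c c0, ← smul_add]
  congr 1
  rw [smul_sub]
  abel

/-! ### Cut-off -/

/-- sequences of smooth functions with uniformly bounded derivatives -/
def UB (u : ℕ → E → ℝ) : Prop := (∀ n, SmE (u n)) ∧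
  ∀ m : ℕ, ∃ C : ℝ, ∀ n x, ‖iteratedFDeriv ℝ m (u n) x‖ ≤ C

theorem UB_mul {u v : ℕ → E → ℝ} (hu : UB u) (hv : UB v) : UB fun n x => u n x * v n x := by
  refine ⟨fun n => (hu.1 n).mul (hv.1 n), fun m => ?_⟩
  choose C hC using hu.2
  choose D hD using hv.2
  refine ⟨∑ i ∈ Finset.range (m + 1), (m.choose i : ℝ) * C i * D (m - i), fun n x => ?_⟩
  refine (norm_iteratedFDeriv_mul_le (N := ((⊤ : ℕ∞) : WithTop ℕ∞)) (hu.1 n) (hv.1 n) x
    (by exact_mod_cast le_top)).trans ?_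
  refine Finset.sum_le_sum fun i _ => ?_
  have h1 := hC i n x
  have h2 := hD (m - i) n x
  have h3 : 0 ≤ C i := (norm_nonneg _).trans h1
  gcongr

theorem UB_pd {u : ℕ → E → ℝ} (hu : UB u) (i : Fin 5) : UB fun n => pd i (u n) := by
  have hs : ∀ n, ContDiff ℝ ((⊤ : ℕ∞) : WithTop ℕ∞) (fderiv ℝ (u n)) := fun n =>
    (hu.1 n).fderiv_right (by exact_mod_cast le_top)
  refine ⟨fun n => (hs n).clm_apply contDiff_const, fun m => ?_⟩
  obtain ⟨C, hC⟩ := hu.2 (m + 1)
  refine ⟨‖(EuclideanSpace.single i (1 : ℝ) : E)‖ * C, fun n x => ?_⟩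
  refine (norm_iteratedFDeriv_clm_apply_const (N := ((⊤ : ℕ∞) : WithTop ℕ∞))
    (hs n).contDiffAt (by exact_mod_cast le_top)).trans ?_
  rw [norm_iteratedFDeriv_fderiv]
  exact mul_le_mul_of_nonneg_left (hC n x) (norm_nonneg _)

theorem UB_lap {u : ℕ → E → ℝ} (hu : UB u) : UB fun n => lap (u n) := by
  have h1 : ∀ i, UB fun n => pd i (pd i (u n)) := fun i => UB_pd (UB_pd hu i) i
  refine ⟨fun n => ContDiff.sum fun i _ => (h1 i).1 n, fun m => ?_⟩
  choose C hC using fun i => (h1 i).2 m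
  refine ⟨∑ i, C i, fun n x => ?_⟩
  have h2 : iteratedFDeriv ℝ m (lap (u n)) x = ∑ i, iteratedFDeriv ℝ m (pd i (pd i (u n))) x :=
    iteratedFDeriv_fun_sum_apply fun i _ =>
      (((h1 i).1 n).of_le (by exact_mod_cast le_top)).contDiffAt
  rw [h2]
  exact (norm_sum_le _ _).trans (Finset.sum_le_sum fun i _ => hC i n x)

theorem UB_bound {u : ℕ → E → ℝ} (hu : UB u) : ∃ C : ℝ, ∀ n x, |u n x| ≤ C := by
  obtain ⟨C, hC⟩ := hu.2 0
  refine ⟨C, fun n x => ?_⟩
  have h1 := hC n x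
  rwa [norm_iteratedFDeriv_zero] at h1

/-- the bump function -/
noncomputable def bmp : ContDiffBump (0 : E) := ⟨1, 2, one_pos, one_lt_two⟩

/-- the cut-off functions -/
noncomputable def chi (n : ℕ) (x : E) : ℝ := bmp (((n : ℝ) + 1)⁻¹ • x)

theorem UB_chi : UB chi := by
  refine ⟨fun n => bmp.contDiff.comp (contDiff_const_smul _), fun m => ?_⟩
  have hc : HasCompactSupport (iteratedFDeriv ℝ m (bmp : E → ℝ)) :=
    bmp.hasCompactSupport.iteratedFDeriv m
  have hcont : Continuous (iteratedFDeriv ℝ m (bmp : E → ℝ)) :=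
    (bmp.contDiff (n := (m : ℕ∞))).continuous_iteratedFDeriv le_rfl
  obtain ⟨C, hC⟩ := hcont.bounded_above_of_compact_support hc
  refine ⟨C, fun n x => ?_⟩
  have h1 : iteratedFDeriv ℝ m (chi n) x =
      (((n : ℝ) + 1)⁻¹) ^ m • iteratedFDeriv ℝ m (bmp : E → ℝ) (((n : ℝ) + 1)⁻¹ • x) := by
    have h2 := iteratedFDeriv_comp_const_smul (𝕜 := ℝ) (f := (bmp : E → ℝ)) (i := m)
      (((n : ℝ) + 1)⁻¹) bmp.contDiff
    exact congrFun h2 x
  rw [h1, norm_smul]
  have h3 : ‖(((n : ℝ) + 1)⁻¹) ^ m‖ ≤ 1 := by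
    rw [norm_pow]
    apply pow_le_one₀ (norm_nonneg _)
    rw [norm_inv]
    apply inv_le_one_of_one_le₀
    rw [Real.norm_of_nonneg (by positivity)]
    have : (0 : ℝ) ≤ n := by positivity
    linarith
  calc ‖(((n : ℝ) + 1)⁻¹) ^ m‖ * ‖iteratedFDeriv ℝ m (bmp : E → ℝ) (((n : ℝ) + 1)⁻¹ • x)‖
      ≤ 1 * C := mul_le_mul h3 (hC _) (norm_nonneg _) zero_le_one
    _ = C := one_mul C

theorem UB_sch {f : E → ℝ} (hf : IsSch f) : UB fun _ => f := by
  refine ⟨fun _ => sch_smE hf, fun m => ?_⟩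
  obtain ⟨g, hg⟩ := hf
  have he : f = g := by
    funext x
    exact (hg x).symm
  obtain ⟨C, hC⟩ := g.decay 0 m
  refine ⟨C, fun _ x => ?_⟩
  have h1 := hC.2 x
  rw [pow_zero, one_mul] at h1
  rw [he]
  exact h1

/-- the cut-off Schwartz function -/
noncomputable def cut (f : E → ℝ) (n : ℕ) (x : E) : ℝ := chi n x * f x

theorem chi_nonneg (n : ℕ) (x : E) : 0 ≤ chi n x := bmp.nonneg

theorem chi_le_one (n : ℕ) (x : E) : chi n x ≤ 1 := bmp.le_one

theorem chi_one (n : ℕ) (x : E) (hx : ‖x‖ ≤ n + 1) : chi n x = 1 := by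
  apply bmp.one_of_mem_closedBall
  rw [mem_closedBall_zero_iff, norm_smul, norm_inv, Real.norm_of_nonneg (by positivity)]
  show ((n : ℝ) + 1)⁻¹ * ‖x‖ ≤ 1
  rw [inv_mul_le_iff₀ (by positivity), mul_one]
  exact hx

theorem cut_test {f : E → ℝ} (hf : IsSch f) (n : ℕ) : IsTest (cut f n) := by
  refine ⟨(UB_chi.1 n).mul (sch_smE hf), ?_⟩
  apply HasCompactSupport.mul_right
  refine HasCompactSupport.intro (isCompact_closedBall (0 : E) (2 * ((n : ℝ) + 1))) fun x hx => ?_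
  rw [mem_closedBall_zero_iff, not_le] at hx
  have h1 : ((n : ℝ) + 1)⁻¹ • x ∉ Function.support (bmp : E → ℝ) := by
    rw [bmp.support_eq, mem_ball_zero_iff, norm_smul, norm_inv,
      Real.norm_of_nonneg (by positivity), not_lt]
    show (2 : ℝ) ≤ ((n : ℝ) + 1)⁻¹ * ‖x‖
    rw [le_inv_mul_iff₀ (by positivity)]
    linarith
  exact Function.notMem_support.1 h1

theorem cut_le (f : E → ℝ) (n : ℕ) (x : E) : |cut f n x| ≤ |f x| := by
  unfold cut
  rw [abs_mul, abs_of_nonneg (chi_nonneg n x)]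
  exact mul_le_of_le_one_left (abs_nonneg _) (chi_le_one n x)

theorem UB_cut {f : E → ℝ} (hf : IsSch f) : UB (cut f) := UB_mul UB_chi (UB_sch hf)

theorem cut_ev (f : E → ℝ) (x : E) : ∀ᶠ n in atTop, cut f n =ᶠ[𝓝 x] f := by
  obtain ⟨N, hN⟩ := exists_nat_gt ‖x‖
  filter_upwards [eventually_ge_atTop N] with n hn
  have h1 : Metric.ball x 1 ∈ 𝓝 x := Metric.ball_mem_nhds x one_pos
  filter_upwards [h1] with y hy
  unfold cut
  rw [chi_one n y, one_mul]
  have h2 : ‖y‖ ≤ ‖x‖ + 1 := by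
    have h3 : ‖y - x‖ < 1 := by rwa [mem_ball_iff_norm] at hy
    have h4 : ‖y‖ ≤ ‖y - x‖ + ‖x‖ := by
      have := norm_add_le (y - x) x
      rwa [sub_add_cancel] at this
    linarith
  have h5 : (N : ℝ) ≤ n := by exact_mod_cast hn
  linarith

theorem pd_ev {u v : E → ℝ} {x : E} (h : u =ᶠ[𝓝 x] v) (i : Fin 5) : pd i u =ᶠ[𝓝 x] pd i v := by
  filter_upwards [h.fderiv (𝕜 := ℝ)] with y hy
  unfold pd
  rw [hy]

theorem lap_ev {u v : E → ℝ} {x : E} (h : u =ᶠ[𝓝 x] v) : lap u =ᶠ[𝓝 x] lap v := by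
  have h1 : ∀ᶠ y in 𝓝 x, ∀ i, pd i (pd i u) y = pd i (pd i v) y :=
    eventually_all.2 fun i => pd_ev (pd_ev h i) i
  filter_upwards [h1] with y hy
  exact Finset.sum_congr rfl fun i _ => hy i

/-- convergence of the integrals -/
theorem cut_int {f : E → ℝ} (hf : IsSch f) {u : ℕ → E → ℝ} {v : E → ℝ} (hu : UB u)
    (huv : ∀ x, ∀ᶠ n in atTop, u n x = v x) :
    Tendsto (fun n => ∫ x, f x * u n x) atTop (𝓝 (∫ x, f x * v x)) ∧
      Tendsto (fun n => ∫ x, cut f n x * u n x) atTop (𝓝 (∫ x, f x * v x)) := by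
  obtain ⟨C, hC⟩ := UB_bound hu
  have hi : Integrable fun x => |f x| * C := (sch_int hf).abs.mul_const C
  constructor
  · refine tendsto_integral_of_dominated_convergence (fun x => |f x| * C) ?_ hi ?_ ?_
    · intro n
      exact ((sch_smE hf).continuous.mul (hu.1 n).continuous).aestronglyMeasurable
    · intro n
      refine Eventually.of_forall fun x => ?_
      rw [Real.norm_eq_abs, abs_mul]
      exact mul_le_mul_of_nonneg_left (hC n x) (abs_nonneg _)
    · refine Eventually.of_forall fun x => ?_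
      refine tendsto_nhds_of_eventually_eq ?_
      filter_upwards [huv x] with n hn
      rw [hn]
  · refine tendsto_integral_of_dominated_convergence (fun x => |f x| * C) ?_ hi ?_ ?_
    · intro n
      exact (((cut_test hf n).1).continuous.mul (hu.1 n).continuous).aestronglyMeasurable
    · intro n
      refine Eventually.of_forall fun x => ?_
      rw [Real.norm_eq_abs, abs_mul]
      exact mul_le_mul (cut_le f n x) (hC n x) (abs_nonneg _) (abs_nonneg _)
    · refine Eventually.of_forall fun x => ?_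
      refine tendsto_nhds_of_eventually_eq ?_
      filter_upwards [huv x, cut_ev f x] with n hn hn2
      rw [hn, hn2.self_of_nhds]

theorem c0_pos : 0 < c0 := by
  unfold c0
  positivity

theorem Rk_cut (hI : St_Iso) {f : E → ℝ} (hf : IsSch f) :
    Tendsto (fun n => ‖Rk (lap (lap f)) - Rk (lap (lap (cut f n)))‖ ^ 2) atTop (𝓝 0) := by
  have h1 := cut_int hf (UB_lap (UB_lap (UB_cut hf))) (v := lap (lap f)) (fun x => by
    filter_upwards [cut_ev f x] with n hn
    exact (lap_ev (lap_ev hn)).self_of_nhds)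
  have h2 : Tendsto (fun n => c0⁻¹ * ((∫ x, f x * lap (lap f) x) -
      2 * (∫ x, f x * lap (lap (cut f n)) x) + ∫ x, cut f n x * lap (lap (cut f n)) x)) atTop
      (𝓝 (c0⁻¹ * ((∫ x, f x * lap (lap f) x) - 2 * (∫ x, f x * lap (lap f) x) +
        ∫ x, f x * lap (lap f) x))) :=
    ((tendsto_const_nhds.sub (h1.1.const_mul 2)).add h1.2).const_mul _
  have h3 : c0⁻¹ * ((∫ x, f x * lap (lap f) x) - 2 * (∫ x, f x * lap (lap f) x) +
        ∫ x, f x * lap (lap f) x) = 0 := by ring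
  rw [h3] at h2
  refine h2.congr fun n => ?_
  have hcn := test_sch (cut_test hf n)
  have e1 := (hI f _ hf (sch_lap (sch_lap hf))).1
  have e2 := (hI f _ hf (sch_lap (sch_lap hcn))).1
  have e3 := (hI _ _ hcn (sch_lap (sch_lap hcn))).1
  rw [← e1, ← e2, ← e3, norm_sub_sq_real, real_inner_self_eq_norm_sq, real_inner_self_eq_norm_sq]
  have h4 := c0_pos.ne'
  field_simp

theorem dRk_cut (hI : St_Iso) {f : E → ℝ} (hf : IsSch f) :
    Tendsto (fun n => ‖dRk (lap f) - dRk (lap (cut f n))‖ ^ 2) atTop (𝓝 0) := by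
  have h1 := cut_int hf (UB_lap (UB_cut hf)) (v := lap f) (fun x => by
    filter_upwards [cut_ev f x] with n hn
    exact (lap_ev hn).self_of_nhds)
  have h2 : Tendsto (fun n => -c0⁻¹ * ((∫ x, f x * lap f x) -
      2 * (∫ x, f x * lap (cut f n) x) + ∫ x, cut f n x * lap (cut f n) x)) atTop
      (𝓝 (-c0⁻¹ * ((∫ x, f x * lap f x) - 2 * (∫ x, f x * lap f x) +
        ∫ x, f x * lap f x))) :=
    ((tendsto_const_nhds.sub (h1.1.const_mul 2)).add h1.2).const_mul _
  have h3 : -c0⁻¹ * ((∫ x, f x * lap f x) - 2 * (∫ x, f x * lap f x) +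
        ∫ x, f x * lap f x) = 0 := by ring
  rw [h3] at h2
  refine h2.congr fun n => ?_
  have hcn := test_sch (cut_test hf n)
  have e1 := (hI f _ hf (sch_lap hf)).2.1
  have e2 := (hI f _ hf (sch_lap hcn)).2.1
  have e3 := (hI _ _ hcn (sch_lap hcn)).2.1
  have e1' : ∫ x, f x * lap f x = -(c0 * inner ℝ (dRk (lap f)) (dRk (lap f))) := by
    rw [e1, neg_neg]
  have e2' : ∫ x, f x * lap (cut f n) x = -(c0 * inner ℝ (dRk (lap f)) (dRk (lap (cut f n)))) := by
    rw [e2, neg_neg]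
  have e3' : ∫ x, cut f n x * lap (cut f n) x =
      -(c0 * inner ℝ (dRk (lap (cut f n))) (dRk (lap (cut f n)))) := by
    rw [e3, neg_neg]
  rw [e1', e2', e3', norm_sub_sq_real, real_inner_self_eq_norm_sq, real_inner_self_eq_norm_sq]
  have h4 := c0_pos.ne'
  field_simp
  ring

/-- test states approximate Schwartz states -/
theorem Theta_cut (hI : St_Iso) {f g : E → ℝ} (hf : IsSch f) (hg : IsSch g) :
    Tendsto (fun n => Theta (cut f n) (cut g n)) atTop (𝓝 (Theta f g)) := by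
  have h1 : Tendsto (fun n => Rk (lap (lap (cut f n)))) atTop (𝓝 (Rk (lap (lap f)))) := by
    rw [tendsto_iff_norm_sub_tendsto_zero]
    have h2 := (Rk_cut hI hf).sqrt
    rw [Real.sqrt_zero] at h2
    refine h2.congr fun n => ?_
    rw [Real.sqrt_sq (norm_nonneg _), norm_sub_rev]
  have h2 : Tendsto (fun n => dRk (lap (cut g n))) atTop (𝓝 (dRk (lap g))) := by
    rw [tendsto_iff_norm_sub_tendsto_zero]
    have h2 := (dRk_cut hI hg).sqrt
    rw [Real.sqrt_zero] at h2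
    refine h2.congr fun n => ?_
    rw [Real.sqrt_sq (norm_nonneg _), norm_sub_rev]
  exact (h1.sub h2).const_smul c0

end Densx

end Pool.Agent.QWE
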