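import Pool.Agent.QWE.DensA

set_option autoImplicit false

/-!
# QWE / Dens, second part: states with product profiles
-/

open MeasureTheory Filter Topology Set
open scoped ENNReal NNReal RealInnerProductSpace Pointwise FourierTransform SchwartzMap LineDeriv
  ContDiff

namespace Pool.Agent.QWE

namespace Densx

open Isox

/-- Schwartz functions on the line with compact support in the open right half line -/
def OneS (B : 𝓢(ℝ, ℂ)) : Prop :=
  ∃ δ R : ℝ, 0 < δ ∧ (∀ r, r ≤ δ → B r = 0) ∧ ∀ r, R ≤ r → B r = 0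

theorem sch_prod {a : E → ℝ} (ha : SmE a) {B : 𝓢(ℝ, ℂ)} (hB : OneS B) (k : ℕ) (c : ℂ) :
    ∃ Φ : 𝓢(E, ℂ), ∀ ξ : E, Φ ξ =
      c * ((a (‖ξ‖⁻¹ • ξ) : ℝ) : ℂ) * B ‖ξ‖ * ((‖ξ‖⁻¹ : ℝ) : ℂ) ^ k := by
  obtain ⟨δ, R, hδ, h1, h2⟩ := hB
  have hs : ContDiff ℝ ∞ fun ξ : E =>
      c * ((a (‖ξ‖⁻¹ • ξ) : ℝ) : ℂ) * B ‖ξ‖ * ((‖ξ‖⁻¹ : ℝ) : ℂ) ^ k := by
    rw [contDiff_iff_contDiffAt]
    intro ξ
    by_cases hξ : ‖ξ‖ < δ
    · have h3 : (fun ξ : E => c * ((a (‖ξ‖⁻¹ • ξ) : ℝ) : ℂ) * B ‖ξ‖ * ((‖ξ‖⁻¹ : ℝ) : ℂ) ^ k)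
          =ᶠ[𝓝 ξ] fun _ => 0 := by
        have h4 : ∀ᶠ y : E in 𝓝 ξ, ‖y‖ < δ := continuous_norm.continuousAt.eventually_lt_const hξ
        filter_upwards [h4] with y hy
        rw [h1 _ hy.le, mul_zero, zero_mul]
      exact contDiffAt_const.congr_of_eventuallyEq h3
    · have hξ0 : ξ ≠ 0 := by
        intro h0
        rw [h0, norm_zero] at hξ
        exact hξ hδ
      have hn : ContDiffAt ℝ ∞ (fun ξ : E => ‖ξ‖) ξ := contDiffAt_norm ℝ hξ0
      have hi : ContDiffAt ℝ ∞ (fun ξ : E => ‖ξ‖⁻¹) ξ := hn.inv (norm_ne_zero_iff.2 hξ0)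
      have h3 : ContDiffAt ℝ ∞ (fun ξ : E => a (‖ξ‖⁻¹ • ξ)) ξ :=
        (ha.contDiffAt).comp ξ (hi.smul contDiffAt_id)
      have h4 : ContDiffAt ℝ ∞ (fun ξ : E => ((a (‖ξ‖⁻¹ • ξ) : ℝ) : ℂ)) ξ :=
        Complex.ofRealCLM.contDiff.contDiffAt.comp ξ h3
      have h5 : ContDiffAt ℝ ∞ (fun ξ : E => B ‖ξ‖) ξ :=
        ((B.smooth ⊤).contDiffAt).comp ξ hn
      have h6 : ContDiffAt ℝ ∞ (fun ξ : E => ((‖ξ‖⁻¹ : ℝ) : ℂ)) ξ :=
        Complex.ofRealCLM.contDiff.contDiffAt.comp ξ hi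
      exact ((contDiffAt_const.mul h4).mul h5).mul (h6.pow k)
  have hc : HasCompactSupport fun ξ : E =>
      c * ((a (‖ξ‖⁻¹ • ξ) : ℝ) : ℂ) * B ‖ξ‖ * ((‖ξ‖⁻¹ : ℝ) : ℂ) ^ k := by
    refine HasCompactSupport.intro (isCompact_closedBall (0 : E) R) fun x hx => ?_
    rw [mem_closedBall_zero_iff, not_le] at hx
    rw [h2 _ hx.le, mul_zero, zero_mul]
  exact ⟨hc.toSchwartzMap hs, fun _ => rfl⟩

theorem four_lin {u v : ℝ → ℂ} (hu : Integrable u) (hv : Integrable v) (c : ℂ) (r : ℝ) :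
    𝓕 (fun p => u p + c * v p) r = 𝓕 u r + c * 𝓕 v r := by
  rw [Real.fourier_real_eq, Real.fourier_real_eq, Real.fourier_real_eq, ← integral_const_mul,
    ← integral_add]
  · refine integral_congr_ae (Eventually.of_forall fun p => ?_)
    simp only [Circle.smul_def, smul_eq_mul]
    ring
  · have h := (Real.fourierIntegral_convergent_iff (μ := volume) (f := u) r).2 hu
    refine h.congr (Eventually.of_forall fun p => ?_)
    simp [mul_comm]
  · have h := (Real.fourierIntegral_convergent_iff (μ := volume) (f := v) r).2 hv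
    refine (h.congr (Eventually.of_forall fun p => ?_)).const_mul c
    simp [mul_comm]

theorem sch_re (F : 𝓢(E, ℂ)) : IsSch fun x => (F x).re :=
  ⟨F.postcompCLM Complex.reCLM, fun x => by rw [SchwartzMap.postcompCLM_apply]; rfl⟩

theorem sch_im (F : 𝓢(E, ℂ)) : IsSch fun x => (F x).im :=
  ⟨F.postcompCLM Complex.imCLM, fun x => by rw [SchwartzMap.postcompCLM_apply]; rfl⟩

theorem cx_G (hF : St_FSl) (F : 𝓢(E, ℂ)) (w : S) (r : ℝ) :
    𝓕 (G (fun x => (F x).re) w) r + Complex.I * 𝓕 (G (fun x => (F x).im) w) r =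
      𝓕 F (r • (w : E)) := by
  obtain ⟨f, hf⟩ := exists_cx (sch_re F)
  obtain ⟨f', hf'⟩ := exists_cx (sch_im F)
  rw [F_G hF (sch_re F) hf w r, F_G hF (sch_im F) hf' w r]
  have h1 : F = f + Complex.I • f' := by
    ext x
    show F x = f x + Complex.I * f' x
    rw [hf, hf', mul_comm]
    exact (Complex.re_add_im (F x)).symm
  have h2 : 𝓕 F = 𝓕 f + Complex.I • 𝓕 f' := by
    rw [h1, FourierTransform.fourier_add, FourierTransform.fourier_smul]
  rw [h2]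
  rfl

/-- the main identity on the Fourier side -/
theorem prof_four (hR : St_RadS) (hF : St_FSl) (F1 F2 : 𝓢(E, ℂ)) (w : S) (r : ℝ) :
    𝓕 (fun p => (G (lap (lap fun x => (F1 x).re)) w p + Complex.I *
        G (lap (lap fun x => (F1 x).im)) w p) + (-1) *
      (dG (lap fun x => (F2 x).re) w p + Complex.I * dG (lap fun x => (F2 x).im) w p)) r =
      (2 * Real.pi * Complex.I * r) ^ 4 * 𝓕 F1 (r • (w : E)) -
        (2 * Real.pi * Complex.I * r) ^ 3 * 𝓕 F2 (r • (w : E)) := by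
  have i1 := G_int hR (sch_lap (sch_lap (sch_re F1))) w
  have i2 := G_int hR (sch_lap (sch_lap (sch_im F1))) w
  have i3 := dG_int hR (sch_lap (sch_re F2)) w
  have i4 := dG_int hR (sch_lap (sch_im F2)) w
  have i12 : Integrable fun p => G (lap (lap fun x => (F1 x).re)) w p + Complex.I *
      G (lap (lap fun x => (F1 x).im)) w p := i1.add (i2.const_mul Complex.I)
  have i34 : Integrable fun p => dG (lap fun x => (F2 x).re) w p + Complex.I *
      dG (lap fun x => (F2 x).im) w p := i3.add (i4.const_mul Complex.I)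
  rw [four_lin i12 i34 (-1) r, four_lin i1 i2 Complex.I r, four_lin i3 i4 Complex.I r,
    F_G_lap hR (sch_lap (sch_re F1)), F_G_lap hR (sch_re F1),
    F_G_lap hR (sch_lap (sch_im F1)), F_G_lap hR (sch_im F1),
    F_dG hR (sch_lap (sch_re F2)), F_G_lap hR (sch_re F2),
    F_dG hR (sch_lap (sch_im F2)), F_G_lap hR (sch_im F2), ← cx_G hF F1 w r, ← cx_G hF F2 w r,
    smul_eq_mul, smul_eq_mul]
  ring

theorem prof_c (hR : St_RadS) (hF : St_FSl) {a : E → ℝ} (ha : SmE a) {B : 𝓢(ℝ, ℂ)} (hB : OneS B) :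
    ∃ F1 F2 : 𝓢(E, ℂ), ∀ (w : S) (p : ℝ), (G (lap (lap fun x => (F1 x).re)) w p + Complex.I *
        G (lap (lap fun x => (F1 x).im)) w p) + (-1) *
      (dG (lap fun x => (F2 x).re) w p + Complex.I * dG (lap fun x => (F2 x).im) w p) =
      ((a w : ℝ) : ℂ) * (𝓕⁻ B) p := by
  obtain ⟨Φ1, hΦ1⟩ := sch_prod ha hB 4 (1 / (2 * (2 * Real.pi) ^ 4))
  obtain ⟨Φ2, hΦ2⟩ := sch_prod ha hB 3 (-Complex.I / (2 * (2 * Real.pi) ^ 3))
  refine ⟨𝓕⁻ Φ1, 𝓕⁻ Φ2, fun w p => ?_⟩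
  set θ : ℝ → ℂ := fun p => (G (lap (lap fun x => ((𝓕⁻ Φ1) x).re)) w p + Complex.I *
        G (lap (lap fun x => ((𝓕⁻ Φ1) x).im)) w p) + (-1) *
      (dG (lap fun x => ((𝓕⁻ Φ2) x).re) w p + Complex.I * dG (lap fun x => ((𝓕⁻ Φ2) x).im) w p)
    with hθ
  have i1 := G_int hR (sch_lap (sch_lap (sch_re (𝓕⁻ Φ1)))) w
  have i2 := G_int hR (sch_lap (sch_lap (sch_im (𝓕⁻ Φ1)))) w
  have i3 := dG_int hR (sch_lap (sch_re (𝓕⁻ Φ2))) w
  have i4 := dG_int hR (sch_lap (sch_im (𝓕⁻ Φ2))) w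
  have hint : Integrable θ :=
    (i1.add (i2.const_mul Complex.I)).add ((i3.add (i4.const_mul Complex.I)).const_mul (-1))
  have c1 := G_cont hR (sch_lap (sch_lap (sch_re (𝓕⁻ Φ1)))) w
  have c2 := G_cont hR (sch_lap (sch_lap (sch_im (𝓕⁻ Φ1)))) w
  have c3 := dG_cont hR (sch_lap (sch_re (𝓕⁻ Φ2))) w
  have c4 := dG_cont hR (sch_lap (sch_im (𝓕⁻ Φ2))) w
  have hcont : Continuous θ :=
    (c1.add (continuous_const.mul c2)).add (continuous_const.mul (c3.add (continuous_const.mul c4)))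
  have hfour : 𝓕 θ = ((((a w : ℝ) : ℂ) • B : 𝓢(ℝ, ℂ)) : ℝ → ℂ) := by
    funext r
    rw [hθ, prof_four hR hF (𝓕⁻ Φ1) (𝓕⁻ Φ2) w r, FourierTransform.fourier_fourierInv_eq,
      FourierTransform.fourier_fourierInv_eq, hΦ1, hΦ2]
    show _ = ((a w : ℝ) : ℂ) * B r
    have hw : ‖(w : E)‖ = 1 := by simp
    have hpi : (Real.pi : ℂ) ≠ 0 := by exact_mod_cast Real.pi_ne_zero
    obtain ⟨δ, R, hδ, h1, h2⟩ := hB
    rcases lt_trichotomy r 0 with hr | hr | hr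
    · have hn : ‖r • (w : E)‖ = -r := by rw [norm_smul, hw, mul_one, Real.norm_eq_abs, abs_of_neg hr]
      rw [hn, h1 r (by linarith)]
      have hrc : (r : ℂ) ≠ 0 := by exact_mod_cast hr.ne
      have h3 : (((-r)⁻¹ : ℝ) : ℂ) = -(r : ℂ)⁻¹ := by
        push_cast
        rw [inv_neg]
      rw [h3]
      have hI : Complex.I ^ 4 = 1 := Complex.I_pow_four
      field_simp
      ring_nf
    · subst hr
      have h3 : B 0 = 0 := h1 0 hδ.le
      simp [h3]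
    · have hn : ‖r • (w : E)‖ = r := by rw [norm_smul, hw, mul_one, Real.norm_eq_abs, abs_of_pos hr]
      rw [hn]
      have h4 : r⁻¹ • r • (w : E) = w := by
        rw [smul_smul, inv_mul_cancel₀ hr.ne', one_smul]
      rw [h4]
      have hrc : (r : ℂ) ≠ 0 := by exact_mod_cast hr.ne'
      have h3 : ((r⁻¹ : ℝ) : ℂ) = (r : ℂ)⁻¹ := by
        push_cast
        rfl
      rw [h3]
      have hI : Complex.I ^ 4 = 1 := Complex.I_pow_four
      field_simp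
      ring_nf
      rw [hI]
      ring
  have hinv : 𝓕⁻ (𝓕 θ) = θ := hcont.fourierInv_fourier_eq hint (by
    rw [hfour]
    exact (((a w : ℝ) : ℂ) • B : 𝓢(ℝ, ℂ)).integrable)
  have h5 : θ p = (𝓕⁻ (((a w : ℝ) : ℂ) • B)) p := by
    rw [← hinv, hfour, SchwartzMap.fourierInv_coe]
  show θ p = _
  rw [h5, FourierTransform.fourierInv_smul]
  rfl

/-- states whose translation representation is `a(w) Re (𝓕⁻ B) (p)` -/
theorem prof (hR : St_RadS) (hF : St_FSl) {a : E → ℝ} (ha : SmE a) {B : 𝓢(ℝ, ℂ)} (hB : OneS B) :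
    ∃ f g : E → ℝ, IsSch f ∧ IsSch g ∧ ∀ (w : S) (p : ℝ),
      Rad (lap (lap f)) (w, p) - dRad (lap g) (w, p) = a w * ((𝓕⁻ B) p).re := by
  obtain ⟨F1, F2, h⟩ := prof_c hR hF ha hB
  refine ⟨_, _, sch_re F1, sch_re F2, fun w p => ?_⟩
  have h1 := congrArg Complex.re (h w p)
  unfold G dG at h1
  simp only [Complex.add_re, Complex.mul_re, Complex.ofReal_re, Complex.ofReal_im, Complex.I_re,
    Complex.I_im, Complex.neg_re, Complex.one_re, Complex.neg_im, Complex.one_im, Complex.add_im,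
    Complex.mul_im, zero_mul, mul_zero, sub_zero, zero_add, add_zero, neg_zero] at h1
  linarith

end Densx

end Pool.Agent.QWE
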