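import Pool.Agent.QWE.StA
import Pool.Agent.QWE.StB

/-!
# QWE: Duhamel integrals (`DuhI`)
-/

set_option autoImplicit false

open MeasureTheory Filter Topology Set
open scoped ENNReal NNReal RealInnerProductSpace Pointwise

namespace Pool.Agent.QWE

namespace DuhIx

/-- Jensen's inequality for a lower semicontinuous extended seminorm. -/
lemma jensen {F : Type*} [NormedAddCommGroup F] [NormedSpace ℝ F] [CompleteSpace F]
    (N : F → ℝ≥0∞) (hN : LowerSemicontinuous N)
    (hadd : ∀ x y, N (x + y) ≤ N x + N y)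
    (hsmul : ∀ (c : ℝ) x, N (c • x) ≤ ENNReal.ofReal |c| * N x)
    (μ : Measure ℝ) [IsFiniteMeasure μ] (g : ℝ → F) (hg : Integrable g μ)
    (hm : AEMeasurable (fun r => N (g r)) μ) :
    N (∫ r, g r ∂μ) ≤ ∫⁻ r, N (g r) ∂μ := by
  by_cases htop : ∫⁻ r, N (g r) ∂μ = ⊤
  · rw [htop]; exact le_top
  have hN0 : N 0 = 0 := by
    have h := hsmul 0 0
    rw [abs_zero, ENNReal.ofReal_zero, zero_mul, zero_smul] at h
    exact le_antisymm h bot_le
  by_cases hμ : μ = 0
  · rw [hμ]; simp [hN0]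
  have : NeZero μ := ⟨hμ⟩
  have hfin : ∀ᵐ r ∂μ, N (g r) < ⊤ := ae_lt_top' hm htop
  have hint : Integrable (fun r => (N (g r)).toReal) μ :=
    integrable_toReal_of_lintegral_ne_top hm htop
  let s : Set (F × ℝ) := {p | 0 ≤ p.2 ∧ N p.1 ≤ ENNReal.ofReal p.2}
  have hconv : Convex ℝ s := by
    rintro ⟨x, a⟩ ⟨hx1, hx2⟩ ⟨y, b⟩ ⟨hy1, hy2⟩ c d hc hd hcd
    simp only at hx1 hx2 hy1 hy2
    refine ⟨?_, ?_⟩
    · simp only [Prod.smul_mk, Prod.mk_add_mk, smul_eq_mul]
      positivity
    · simp only [Prod.smul_mk, Prod.mk_add_mk, smul_eq_mul]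
      calc N (c • x + d • y) ≤ N (c • x) + N (d • y) := hadd _ _
        _ ≤ ENNReal.ofReal |c| * N x + ENNReal.ofReal |d| * N y := add_le_add (hsmul _ _) (hsmul _ _)
        _ ≤ ENNReal.ofReal c * ENNReal.ofReal a + ENNReal.ofReal d * ENNReal.ofReal b := by
            rw [abs_of_nonneg hc, abs_of_nonneg hd]
            gcongr
        _ = ENNReal.ofReal (c * a + d * b) := by
            rw [ENNReal.ofReal_add (by positivity) (by positivity), ENNReal.ofReal_mul hc,
              ENNReal.ofReal_mul hd]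
  have hclosed : IsClosed s := by
    have h1 : IsClosed {p : F × ℝ | 0 ≤ p.2} := isClosed_le continuous_const continuous_snd
    have h2 : IsClosed {p : F × ℝ≥0∞ | N p.1 ≤ p.2} := hN.isClosed_epigraph
    have h3 : IsClosed {p : F × ℝ | N p.1 ≤ ENNReal.ofReal p.2} :=
      h2.preimage (f := fun p : F × ℝ => (p.1, ENNReal.ofReal p.2))
        (continuous_fst.prodMk (ENNReal.continuous_ofReal.comp continuous_snd))
    exact h1.inter h3
  have hmem : ∀ᵐ r ∂μ, (g r, (N (g r)).toReal) ∈ s := by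
    filter_upwards [hfin] with r hr
    refine ⟨ENNReal.toReal_nonneg, ?_⟩
    simp only
    rw [ENNReal.ofReal_toReal hr.ne]
  have havg := hconv.average_mem hclosed hmem (hg.prodMk hint)
  rw [average_pair hg hint] at havg
  obtain ⟨h1, h2⟩ := havg
  simp only [average_eq, smul_eq_mul] at h1 h2
  have hm0 : 0 < μ.real univ := by
    rw [Measure.real, ENNReal.toReal_pos_iff]
    exact ⟨pos_iff_ne_zero.2 (by simpa using hμ), measure_lt_top _ _⟩
  have h3 : ∫ r, g r ∂μ = (μ.real univ) • ((μ.real univ)⁻¹ • ∫ r, g r ∂μ) := by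
    rw [smul_smul, mul_inv_cancel₀ hm0.ne', one_smul]
  rw [h3]
  calc N ((μ.real univ) • ((μ.real univ)⁻¹ • ∫ r, g r ∂μ))
      ≤ ENNReal.ofReal |μ.real univ| * N ((μ.real univ)⁻¹ • ∫ r, g r ∂μ) := hsmul _ _
    _ ≤ ENNReal.ofReal (μ.real univ) * ENNReal.ofReal ((μ.real univ)⁻¹ * ∫ r, (N (g r)).toReal ∂μ) := by
        rw [abs_of_pos hm0]
        gcongr
    _ = ENNReal.ofReal (∫ r, (N (g r)).toReal ∂μ) := by
        rw [← ENNReal.ofReal_mul hm0.le, ← mul_assoc, mul_inv_cancel₀ hm0.ne', one_mul]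
    _ = ∫⁻ r, N (g r) ∂μ := by
        rw [integral_toReal hm hfin, ENNReal.ofReal_toReal htop]

/-- Minkowski's integral inequality. -/
lemma mink (μ ν : Measure ℝ) [IsFiniteMeasure μ] [SFinite ν] (q : ℝ) (hq : 1 < q)
    (h : ℝ → ℝ → ℝ≥0∞) (hh : Measurable (Function.uncurry h)) (B : ℝ → ℝ≥0∞) (hBm : Measurable B)
    (hB : ∀ r, ∫⁻ t, h t r ^ q ∂μ ≤ B r ^ q) :
    ∫⁻ t, (∫⁻ r, h t r ∂ν) ^ q ∂μ ≤ (∫⁻ r, B r ∂ν) ^ q := by
  have hq0 : 0 < q := by linarith
  set H : ℝ → ℝ≥0∞ := fun t => ∫⁻ r, h t r ∂ν with hH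
  have hHm : Measurable H := hh.lintegral_prod_right'
  -- the truncated version
  have key : ∀ n : ℕ, ∫⁻ t, (min (H t) n) ^ q ∂μ ≤ (∫⁻ r, B r ∂ν) ^ q := by
    intro n
    set Hn : ℝ → ℝ≥0∞ := fun t => min (H t) n with hHn
    have hHnm : Measurable Hn := hHm.min measurable_const
    set I : ℝ≥0∞ := ∫⁻ t, Hn t ^ q ∂μ with hI
    have hIfin : I ≠ ⊤ := by
      have h1 : I ≤ ∫⁻ _t, (n : ℝ≥0∞) ^ q ∂μ := by
        apply lintegral_mono
        intro t
        exact ENNReal.rpow_le_rpow (min_le_right _ _) hq0.le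
      rw [lintegral_const] at h1
      refine ne_top_of_le_ne_top ?_ h1
      exact ENNReal.mul_ne_top (ENNReal.rpow_ne_top_of_nonneg hq0.le (ENNReal.natCast_ne_top n))
        (measure_ne_top _ _)
    by_cases hI0 : I = 0
    · rw [hI0]; exact bot_le
    have hconj : (q / (q - 1)).HolderConjugate q := by
      have := Real.HolderConjugate.conjExponent hq
      exact this.symm
    have h2 : I ≤ ∫⁻ r, ∫⁻ t, Hn t ^ (q - 1) * h t r ∂μ ∂ν := by
      have h3 : I ≤ ∫⁻ t, Hn t ^ (q - 1) * H t ∂μ := by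
        apply lintegral_mono
        intro t
        have h4 : Hn t ^ q = Hn t ^ (q - 1) * Hn t := by
          have h5 : Hn t ^ (q - 1) * Hn t ^ (1 : ℝ) = Hn t ^ (q - 1 + 1) :=
            (ENNReal.rpow_add_of_nonneg _ _ (by linarith) (by norm_num)).symm
          rw [ENNReal.rpow_one] at h5
          rw [h5]
          congr 1
          ring
        show Hn t ^ q ≤ Hn t ^ (q - 1) * H t
        rw [h4]
        exact mul_le_mul_right (min_le_left _ _) _
      refine le_trans h3 ?_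
      have h6 : ∀ t, Hn t ^ (q - 1) * H t = ∫⁻ r, Hn t ^ (q - 1) * h t r ∂ν := by
        intro t
        rw [lintegral_const_mul _ (hh.of_uncurry_left)]
      simp_rw [h6]
      rw [lintegral_lintegral_swap]
      apply Measurable.aemeasurable
      exact ((hHnm.pow_const _).comp measurable_fst).mul hh
    have h7 : ∀ r, ∫⁻ t, Hn t ^ (q - 1) * h t r ∂μ ≤ I ^ (1 - 1 / q) * B r := by
      intro r
      have h8 := ENNReal.lintegral_mul_le_Lp_mul_Lq μ hconj (f := fun t => Hn t ^ (q - 1))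
        (g := fun t => h t r) (hHnm.pow_const _).aemeasurable (hh.of_uncurry_right).aemeasurable
      simp only [Pi.mul_apply] at h8
      refine le_trans h8 ?_
      have h9 : ∀ t, (Hn t ^ (q - 1)) ^ (q / (q - 1)) = Hn t ^ q := by
        intro t
        rw [← ENNReal.rpow_mul]
        congr 1
        have : q - 1 ≠ 0 := by linarith
        field_simp
      simp_rw [h9]
      have h10 : 1 / (q / (q - 1)) = 1 - 1 / q := by
        have : q - 1 ≠ 0 := by linarith
        field_simp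
      rw [h10]
      apply mul_le_mul_right
      calc (∫⁻ t, h t r ^ q ∂μ) ^ (1 / q) ≤ (B r ^ q) ^ (1 / q) :=
            ENNReal.rpow_le_rpow (hB r) (by positivity)
        _ = B r := by
            rw [← ENNReal.rpow_mul, mul_one_div, div_self hq0.ne', ENNReal.rpow_one]
    have h11 : I ≤ I ^ (1 - 1 / q) * ∫⁻ r, B r ∂ν := by
      refine le_trans h2 (le_trans (lintegral_mono h7) ?_)
      rw [lintegral_const_mul _ hBm]
    have h12 : I = I ^ (1 - 1 / q) * I ^ (1 / q) := by
      rw [← ENNReal.rpow_add _ _ hI0 hIfin]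
      have : 1 - 1 / q + 1 / q = 1 := by ring
      rw [this, ENNReal.rpow_one]
    have h13 : I ^ (1 / q) ≤ ∫⁻ r, B r ∂ν := by
      have h14 : I ^ (1 - 1 / q) * I ^ (1 / q) ≤ I ^ (1 - 1 / q) * ∫⁻ r, B r ∂ν := by
        rw [← h12]; exact h11
      have h15 : I ^ (1 - 1 / q) ≠ 0 := by
        intro h0
        rw [h0, zero_mul] at h12
        exact hI0 h12
      have h16 : I ^ (1 - 1 / q) ≠ ⊤ := by
        apply ENNReal.rpow_ne_top_of_nonneg _ hIfin
        have : 1 / q < 1 := by rw [div_lt_one hq0]; exact hq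
        linarith
      exact (ENNReal.mul_le_mul_iff_right h15 h16).1 h14
    calc I = (I ^ (1 / q)) ^ q := by
          rw [← ENNReal.rpow_mul, one_div, inv_mul_cancel₀ hq0.ne', ENNReal.rpow_one]
      _ ≤ (∫⁻ r, B r ∂ν) ^ q := ENNReal.rpow_le_rpow h13 hq0.le
  -- monotone convergence
  have hmono : Monotone fun (n : ℕ) (t : ℝ) => (min (H t) n) ^ q := by
    intro n m hnm t
    exact ENNReal.rpow_le_rpow (min_le_min_left _ (by exact_mod_cast hnm)) hq0.le
  have hsup : ∀ t, H t ^ q = ⨆ n : ℕ, (min (H t) n) ^ q := by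
    intro t
    have h1 : Tendsto (fun n : ℕ => (min (H t) (n : ℝ≥0∞)) ^ q) atTop (𝓝 (H t ^ q)) := by
      have h2 : Tendsto (fun n : ℕ => min (H t) (n : ℝ≥0∞)) atTop (𝓝 (min (H t) ⊤)) :=
        (continuous_const.min continuous_id).continuousAt.tendsto.comp ENNReal.tendsto_nat_nhds_top
      rw [min_eq_left le_top] at h2
      exact (ENNReal.continuous_rpow_const.tendsto _).comp h2
    exact tendsto_nhds_unique h1 (tendsto_atTop_iSup fun n m hnm => hmono hnm t)
  calc ∫⁻ t, H t ^ q ∂μ = ∫⁻ t, ⨆ n : ℕ, (min (H t) n) ^ q ∂μ := by simp_rw [hsup]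
    _ = ⨆ n : ℕ, ∫⁻ t, (min (H t) n) ^ q ∂μ :=
        lintegral_iSup (fun n => (hHm.min measurable_const).pow_const _) hmono
    _ ≤ _ := iSup_le key

lemma tau_cont (hG : St_Grp1) : Continuous (fun q : ℝ × K => tau q.1 q.2) := by
  obtain ⟨_, _, _, _, _, _, _, hc, _⟩ := hG
  rw [continuous_iff_continuousAt]
  rintro ⟨s, k⟩
  rw [ContinuousAt, tendsto_iff_norm_sub_tendsto_zero]
  have h1 : ∀ q : ℝ × K, ‖tau q.1 q.2 - tau s k‖ ≤ ‖q.2 - k‖ + ‖tau q.1 k - tau s k‖ := by
    intro q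
    have h2 : tau q.1 q.2 - tau s k = tau q.1 (q.2 - k) + (tau q.1 k - tau s k) := by
      rw [map_sub]; abel
    rw [h2]
    refine le_trans (norm_add_le _ _) ?_
    rw [LinearIsometry.norm_map]
  have h3 : Tendsto (fun q : ℝ × K => ‖q.2 - k‖ + ‖tau q.1 k - tau s k‖) (𝓝 (s, k)) (𝓝 0) := by
    have h4 : Continuous (fun q : ℝ × K => ‖q.2 - k‖ + ‖tau q.1 k - tau s k‖) :=
      (continuous_snd.sub continuous_const).norm.add
        (((hc k).comp continuous_fst).sub continuous_const).norm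
    have h5 := h4.tendsto (s, k)
    simpa using h5
  exact squeeze_zero (fun q => norm_nonneg _) h1 h3

lemma N_lsc (hLsc : St_Lsc) (p : ℝ≥0∞) (hp : 1 ≤ p) :
    LowerSemicontinuous (fun k : K => eLpNorm (U k) p volume) := by
  have h := hLsc p univ hp MeasurableSet.univ
  simpa using h

lemma N_add (hL : St_Lin) (hU : St_UTest) (p : ℝ≥0∞) (hp : 1 ≤ p) (k k' : K) :
    eLpNorm (U (k + k')) p volume ≤ eLpNorm (U k) p volume + eLpNorm (U k') p volume := by
  have h1 := (hL.1 1 k k').1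
  rw [one_smul] at h1
  rw [eLpNorm_congr_ae h1]
  simp only [one_mul]
  exact eLpNorm_add_le (hU.2.1 k).aestronglyMeasurable (hU.2.1 k').aestronglyMeasurable hp

lemma N_smul (hL : St_Lin) (p : ℝ≥0∞) (c : ℝ) (k : K) :
    eLpNorm (U (c • k)) p volume ≤ ENNReal.ofReal |c| * eLpNorm (U k) p volume := by
  have h0 : U (0 : K) =ᵐ[volume] fun _ => 0 := by
    have h1 := (hL.1 (-1) 0 0).1
    rw [smul_zero, add_zero] at h1
    filter_upwards [h1] with x hx
    linarith
  have h1 := (hL.1 c 0 k).1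
  rw [zero_add] at h1
  have h2 : U (c • k) =ᵐ[volume] c • U k := by
    filter_upwards [h0, h1] with x hx1 hx2
    rw [hx2, hx1, zero_add, Pi.smul_apply, smul_eq_mul]
  rw [eLpNorm_congr_ae h2, eLpNorm_const_smul, Real.enorm_eq_ofReal_abs]

lemma sub_Icc {a b t0 t : ℝ} (ha : a ≤ t0) (hb : t0 ≤ b) (ht : t ∈ Icc a b) :
    uIoc t0 t ⊆ Icc a b := by
  intro r hr
  rw [mem_uIoc] at hr
  rcases hr with hr | hr
  · exact ⟨by linarith [hr.1], by linarith [hr.2, ht.2]⟩
  · exact ⟨by linarith [hr.1, ht.1], by linarith [hr.2]⟩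

section gen

variable {F : Type*} [NormedAddCommGroup F] [NormedSpace ℝ F] [CompleteSpace F]

omit [CompleteSpace F] in
lemma gen_int (T : ℝ → F →ₗᵢ[ℝ] F) (htc : Continuous fun q : ℝ × F => T q.1 q.2)
    (μ : Measure ℝ) (G : ℝ → F) (hG : Integrable G μ) (φ : ℝ → ℝ) (hφ : Measurable φ) :
    Integrable (fun r => T (φ r) (G r)) μ := by
  refine ⟨?_, ?_⟩
  · exact htc.comp_aestronglyMeasurable (hφ.aestronglyMeasurable.prodMk hG.aestronglyMeasurable)
  · have h2 := hG.hasFiniteIntegral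
    rw [hasFiniteIntegral_iff_enorm] at h2 ⊢
    refine lt_of_le_of_lt (lintegral_mono fun r => ?_) h2
    rw [LinearIsometry.enorm_map]

lemma gen_strich (T : ℝ → F →ₗᵢ[ℝ] F) (htc : Continuous fun q : ℝ × F => T q.1 q.2)
    (N : F → ℝ≥0∞) (hN : LowerSemicontinuous N) (hadd : ∀ x y, N (x + y) ≤ N x + N y)
    (hsmul : ∀ (c : ℝ) x, N (c • x) ≤ ENNReal.ofReal |c| * N x)
    (q : ℝ) (hq : 1 < q) (C : ℝ) (hC : 0 < C)
    (hStr : ∀ k : F, ∫⁻ t, N (T t k) ^ q ≤ (ENNReal.ofReal C * ‖k‖ₑ) ^ q)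
    (a b t0 : ℝ) (G : ℝ → F) (ha : a ≤ t0) (hb : t0 ≤ b) (hGi : IntegrableOn G (Icc a b) volume) :
    ∫⁻ t in Icc a b, N (∫ r in t0..t, T (t - r) (G r)) ^ q ≤
      (ENNReal.ofReal (C * ∫ r in Icc a b, ‖G r‖)) ^ q := by
  have hq0 : 0 < q := by linarith
  obtain ⟨G', hG'm, hGG'⟩ := hGi.aestronglyMeasurable
  borelize F
  have hNm : Measurable N := hN.measurable
  have hsm : StronglyMeasurable (fun z : ℝ × ℝ => T (z.1 - z.2) (G' z.2)) := by
    have h1 : StronglyMeasurable (fun z : ℝ × ℝ => (z.1 - z.2, G' z.2)) :=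
      (measurable_fst.sub measurable_snd).stronglyMeasurable.prodMk
        (hG'm.comp_measurable measurable_snd)
    exact htc.comp_stronglyMeasurable h1
  have hhm : Measurable (Function.uncurry fun t r : ℝ => N (T (t - r) (G' r))) :=
    hNm.comp hsm.measurable
  have step1 : ∀ t ∈ Icc a b, N (∫ r in t0..t, T (t - r) (G r)) ≤
      ∫⁻ r in Icc a b, N (T (t - r) (G' r)) := by
    intro t ht
    have hsub : uIoc t0 t ⊆ Icc a b := sub_Icc ha hb ht
    have hae : ∀ᵐ r ∂(volume.restrict (uIoc t0 t)), G r = G' r :=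
      ae_mono (Measure.restrict_mono hsub le_rfl) hGG'
    have hint : Integrable (fun r => T (t - r) (G r)) (volume.restrict (uIoc t0 t)) :=
      gen_int T htc _ G (hGi.mono_set hsub) (fun r => t - r) (measurable_const.sub measurable_id)
    have hcong : (fun r => N (T (t - r) (G r))) =ᵐ[volume.restrict (uIoc t0 t)]
        fun r => N (T (t - r) (G' r)) := by
      filter_upwards [hae] with r hr
      rw [hr]
    have haem : AEMeasurable (fun r => N (T (t - r) (G r))) (volume.restrict (uIoc t0 t)) :=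
      (hhm.of_uncurry_left (x := t)).aemeasurable.congr hcong.symm
    have hfinm : IsFiniteMeasure (volume.restrict (uIoc t0 t)) := by
      refine ⟨?_⟩
      rw [Measure.restrict_apply_univ]
      exact lt_of_le_of_lt (measure_mono hsub) (by rw [Real.volume_Icc]; exact ENNReal.ofReal_lt_top)
    have hJ := jensen N hN hadd hsmul (volume.restrict (uIoc t0 t))
      (fun r => T (t - r) (G r)) hint haem
    rw [intervalIntegral.intervalIntegral_eq_integral_uIoc]
    refine le_trans (hsmul _ _) ?_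
    have habs : |(if t0 ≤ t then (1 : ℝ) else -1)| = 1 := by
      split_ifs
      · simp
      · simp
    rw [habs, ENNReal.ofReal_one, one_mul]
    refine le_trans hJ ?_
    rw [lintegral_congr_ae hcong]
    exact lintegral_mono_set hsub
  have step2 : ∫⁻ t in Icc a b, N (∫ r in t0..t, T (t - r) (G r)) ^ q ≤
      ∫⁻ t in Icc a b, (∫⁻ r in Icc a b, N (T (t - r) (G' r))) ^ q := by
    apply setLIntegral_mono' measurableSet_Icc
    intro t ht
    exact ENNReal.rpow_le_rpow (step1 t ht) hq0.le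
  refine le_trans step2 ?_
  have step3 := mink (volume.restrict (Icc a b)) (volume.restrict (Icc a b)) q hq
    (fun t r : ℝ => N (T (t - r) (G' r))) hhm
    (fun r => ENNReal.ofReal C * ‖G' r‖ₑ) (hG'm.enorm.const_mul _)
    (by
      intro r
      refine le_trans (setLIntegral_le_lintegral _ _) ?_
      rw [lintegral_sub_right_eq_self (fun t : ℝ => N (T t (G' r)) ^ q) r]
      exact hStr (G' r))
  refine le_trans step3 (le_of_eq ?_)
  congr 1
  rw [lintegral_const_mul _ hG'm.enorm, ENNReal.ofReal_mul hC.le,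
    ofReal_integral_norm_eq_lintegral_enorm hGi]
  congr 1
  apply lintegral_congr_ae
  filter_upwards [hGG'] with r hr
  rw [hr]

lemma gen_cont (T : ℝ → F →ₗᵢ[ℝ] F) (htc : Continuous fun q : ℝ × F => T q.1 q.2)
    (hgrp : ∀ s t k, T s (T t k) = T (s + t) k)
    (a b t0 : ℝ) (G : ℝ → F) (ha : a ≤ t0) (hb : t0 ≤ b) (hGi : IntegrableOn G (Icc a b) volume) :
    ContinuousOn (fun t => ∫ r in t0..t, T (t - r) (G r)) (Icc a b) := by
  have hab : a ≤ b := le_trans ha hb
  have ht0 : t0 ∈ Icc a b := ⟨ha, hb⟩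
  have hgi : IntegrableOn (fun r => T (-r) (G r)) (Icc a b) volume :=
    gen_int T htc _ G hGi (fun r => -r) measurable_neg
  have h1 : ContinuousOn (fun t => ∫ r in t0..t, T (-r) (G r)) (Icc a b) := by
    have h3 := intervalIntegral.continuousOn_primitive_interval' (a := t0)
      (f := fun r => T (-r) (G r)) (b₁ := a) (b₂ := b)
      ((intervalIntegrable_iff_integrableOn_Icc_of_le hab).2 hgi) (by rw [uIcc_of_le hab]; exact ht0)
    rwa [uIcc_of_le hab] at h3
  have h4 : ∀ t ∈ Icc a b, ∫ r in t0..t, T (t - r) (G r) = T t (∫ r in t0..t, T (-r) (G r)) := by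
    intro t ht
    have h5 : ∀ r, T (t - r) (G r) = T t (T (-r) (G r)) := by
      intro r
      rw [hgrp, sub_eq_add_neg]
    simp_rw [h5]
    have h6 : IntervalIntegrable (fun r => T (-r) (G r)) volume t0 t := by
      rw [intervalIntegrable_iff]
      exact hgi.mono_set (sub_Icc ha hb ht)
    exact (T t).toContinuousLinearMap.intervalIntegral_comp_comm h6
  have h7 : ContinuousOn (fun t => T t (∫ r in t0..t, T (-r) (G r))) (Icc a b) :=
    htc.comp_continuousOn (continuousOn_id.prodMk h1)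
  exact h7.congr h4

omit [CompleteSpace F] in
lemma gen_norm (T : ℝ → F →ₗᵢ[ℝ] F)
    (a b t0 : ℝ) (G : ℝ → F) (ha : a ≤ t0) (hb : t0 ≤ b) (hGi : IntegrableOn G (Icc a b) volume) :
    ∀ t ∈ Icc a b, ‖∫ r in t0..t, T (t - r) (G r)‖ ≤ ∫ r in Icc a b, ‖G r‖ := by
  intro t ht
  have hsub : uIoc t0 t ⊆ Icc a b := sub_Icc ha hb ht
  refine le_trans intervalIntegral.norm_integral_le_integral_norm_uIoc ?_
  simp only [LinearIsometry.norm_map]
  exact setIntegral_mono_set hGi.norm (Eventually.of_forall fun r => norm_nonneg _)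
    (LE.le.eventuallyLE hsub)

end gen

end DuhIx

open DuhIx in
/-- **DuhI** (Duhamel integrals). -/
theorem thm_DuhI (hG1 : St_Grp1) (hL : St_Lin) (hU : St_UTest) (hLsc : St_Lsc) (hStr : St_Str) :
    St_DuhI := by
  obtain ⟨C, hC, hS⟩ := hStr
  refine ⟨C, hC, ?_⟩
  intro a b t0 G ha hb hGi
  have htc := tau_cont hG1
  refine ⟨gen_cont tau htc hG1.1 a b t0 G ha hb hGi, gen_norm tau a b t0 G ha hb hGi, ?_, ?_⟩
  · have h := gen_strich tau htc (fun k : K => eLpNorm (U k) 20 volume) (N_lsc hLsc 20 (by norm_num))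
      (N_add hL hU 20 (by norm_num)) (N_smul hL 20) 4 (by norm_num) C hC
      (by
        intro k
        have h1 := (hS k).1
        simpa using h1)
      a b t0 G ha hb hGi
    simpa [SN, sn] using h
  · have h := gen_strich tau htc (fun k : K => eLpNorm (U k) 30 volume) (N_lsc hLsc 30 (by norm_num))
      (N_add hL hU 30 (by norm_num)) (N_smul hL 30) 3 (by norm_num) C hC
      (by
        intro k
        have h1 := (hS k).2
        simpa using h1)
      a b t0 G ha hb hGi
    simpa using h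

end Pool.Agent.QWE
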