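import Pool.Agent.QWE.StA
import Pool.Agent.QWE.StE

set_option autoImplicit false

/-!
# QWE, E1: energy tails from the decay of the exterior norm, by dyadic annuli
-/

open MeasureTheory Filter Topology Set
open scoped ENNReal NNReal RealInnerProductSpace

namespace Pool.Agent.QWE.E1x

/-- The constant in the volume of dyadic balls. -/
private noncomputable def cb : ℝ := (volume (Metric.ball (0 : E) 1)).toReal ^ (2 / 5 : ℝ)

private lemma cb_nonneg : 0 ≤ cb := by unfold cb; positivity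

private lemma isOpen_ext (y : E) (ρ : ℝ) : IsOpen (ext y ρ) :=
  isOpen_lt continuous_const (continuous_id.dist continuous_const)

private lemma vol_ball (y : E) (j : ℕ) :
    (volume (Metric.closedBall y ((2 : ℝ) ^ (j + 1)))) ^ (2 / 5 : ℝ) =
      ENNReal.ofReal (4 * (4 : ℝ) ^ j * cb) := by
  have h0 : (volume (Metric.ball (0 : E) 1)) = ENNReal.ofReal (volume (Metric.ball (0 : E) 1)).toReal :=
    (ENNReal.ofReal_toReal measure_ball_lt_top.ne).symm
  have hfr : Module.finrank ℝ E = 5 := by simp [E]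
  rw [Measure.addHaar_closedBall volume y (by positivity), hfr,
    ENNReal.mul_rpow_of_nonneg _ _ (by norm_num), h0,
    ENNReal.ofReal_rpow_of_nonneg (by positivity) (by norm_num),
    ENNReal.ofReal_rpow_of_nonneg ENNReal.toReal_nonneg (by norm_num), ← cb,
    ← ENNReal.ofReal_mul (by positivity)]
  congr 2
  have h1 : (((2 : ℝ) ^ (j + 1)) ^ 5) ^ (2 / 5 : ℝ) = ((2 : ℝ) ^ (j + 1)) ^ 2 := by
    rw [← Real.rpow_natCast _ 5, ← Real.rpow_mul (by positivity), ← Real.rpow_natCast _ 2]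
    norm_num
  rw [h1, ← pow_mul, mul_comm (j + 1) 2, pow_mul, pow_succ]
  norm_num
  ring

/-- Estimate on one dyadic annulus. -/
private lemma annulus {p q : ℝ≥0∞} (m : ℕ) (hm : 2 ≤ m) (hp : p = m) (hpq : p ≤ q)
    (hq : (1 / p.toReal - 1 / q.toReal) * m = 2 / 5) (y : E) (j : ℕ) {f : E → ℝ}
    (hf : AEStronglyMeasurable f volume) {B : ℝ} (hB : 0 ≤ B)
    (h : eLpNorm ((ext y (2 ^ j)).indicator f) q volume ≤
      ENNReal.ofReal (B * (2 : ℝ) ^ (-(3 / 2 : ℝ) * j))) :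
    ∫⁻ x in ext y (2 ^ j) ∩ Metric.closedBall y (2 ^ (j + 1)), ‖f x‖ₑ ^ m ≤
      ENNReal.ofReal (B ^ m * (4 * cb) * (2 : ℝ) ^ (-(j : ℝ))) := by
  set A := ext y (2 ^ j) ∩ Metric.closedBall y (2 ^ (j + 1)) with hA
  have hm0 : (m : ℝ) ≠ 0 := by positivity
  have hp0 : p ≠ 0 := by rw [hp]; exact_mod_cast (by omega : m ≠ 0)
  have hpt : p ≠ ⊤ := by rw [hp]; exact ENNReal.natCast_ne_top m
  have h1 : ∫⁻ x in A, ‖f x‖ₑ ^ m = eLpNorm f p (volume.restrict A) ^ m := by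
    rw [eLpNorm_eq_lintegral_rpow_enorm_toReal hp0 hpt, hp, ENNReal.toReal_natCast,
      ← ENNReal.rpow_natCast, ← ENNReal.rpow_mul, one_div, inv_mul_cancel₀ hm0, ENNReal.rpow_one]
    simp only [ENNReal.rpow_natCast]
  have h2 : eLpNorm f p (volume.restrict A) ≤ eLpNorm f q (volume.restrict A) *
      (volume A) ^ (1 / p.toReal - 1 / q.toReal) := by
    have := eLpNorm_le_eLpNorm_mul_rpow_measure_univ hpq (hf.restrict (s := A))
    rwa [Measure.restrict_apply_univ] at this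
  have h3 : eLpNorm f q (volume.restrict A) ≤ ENNReal.ofReal (B * (2 : ℝ) ^ (-(3 / 2 : ℝ) * j)) := by
    refine le_trans ?_ h
    rw [eLpNorm_indicator_eq_eLpNorm_restrict (isOpen_ext y _).measurableSet]
    exact eLpNorm_mono_measure f (Measure.restrict_mono inter_subset_left le_rfl)
  have h4 : ((volume A) ^ (1 / p.toReal - 1 / q.toReal)) ^ m ≤ ENNReal.ofReal (4 * (4 : ℝ) ^ j * cb) := by
    rw [← ENNReal.rpow_natCast, ← ENNReal.rpow_mul, hq, ← vol_ball y j]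
    exact ENNReal.rpow_le_rpow (measure_mono inter_subset_right) (by norm_num)
  calc ∫⁻ x in A, ‖f x‖ₑ ^ m = eLpNorm f p (volume.restrict A) ^ m := h1
    _ ≤ (eLpNorm f q (volume.restrict A) * (volume A) ^ (1 / p.toReal - 1 / q.toReal)) ^ m := by
        gcongr
    _ = eLpNorm f q (volume.restrict A) ^ m * ((volume A) ^ (1 / p.toReal - 1 / q.toReal)) ^ m :=
        mul_pow _ _ _
    _ ≤ ENNReal.ofReal (B * (2 : ℝ) ^ (-(3 / 2 : ℝ) * j)) ^ m *
        ENNReal.ofReal (4 * (4 : ℝ) ^ j * cb) := by gcongr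
    _ = ENNReal.ofReal ((B * (2 : ℝ) ^ (-(3 / 2 : ℝ) * j)) ^ m * (4 * (4 : ℝ) ^ j * cb)) := by
        rw [← ENNReal.ofReal_pow (by positivity), ← ENNReal.ofReal_mul (by positivity)]
    _ ≤ ENNReal.ofReal (B ^ m * (4 * cb) * (2 : ℝ) ^ (-(j : ℝ))) := by
        apply ENNReal.ofReal_le_ofReal
        have hcb := cb_nonneg
        have h5 : ((2 : ℝ) ^ (-(3 / 2 : ℝ) * j)) ^ m * (4 : ℝ) ^ j ≤ (2 : ℝ) ^ (-(j : ℝ)) := by
          have h6 : (4 : ℝ) ^ j = (2 : ℝ) ^ (2 * (j : ℝ)) := by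
            rw [Real.rpow_mul (by norm_num), Real.rpow_natCast]; norm_num
          rw [h6, ← Real.rpow_natCast, ← Real.rpow_mul (by norm_num), ← Real.rpow_add (by norm_num)]
          apply Real.rpow_le_rpow_of_exponent_le (by norm_num)
          have h7 : (2 : ℝ) ≤ m := by exact_mod_cast hm
          have h8 : (0 : ℝ) ≤ j := by positivity
          nlinarith
        calc (B * (2 : ℝ) ^ (-(3 / 2 : ℝ) * j)) ^ m * (4 * (4 : ℝ) ^ j * cb)
            = B ^ m * (4 * cb) * (((2 : ℝ) ^ (-(3 / 2 : ℝ) * j)) ^ m * (4 : ℝ) ^ j) := by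
              rw [mul_pow]; ring
          _ ≤ B ^ m * (4 * cb) * (2 : ℝ) ^ (-(j : ℝ)) := by gcongr

private lemma ext_subset (y : E) (n : ℕ) :
    ext y ((2 : ℝ) ^ n) ⊆ ⋃ i : ℕ, ext y (2 ^ (n + i)) ∩ Metric.closedBall y (2 ^ (n + i + 1)) := by
  intro x hx
  have hx' : (2 : ℝ) ^ n < dist x y := hx
  have hex : ∃ i : ℕ, dist x y ≤ (2 : ℝ) ^ (n + i + 1) := by
    obtain ⟨N, hN⟩ := pow_unbounded_of_one_lt (dist x y) (by norm_num : (1 : ℝ) < 2)
    refine ⟨N, hN.le.trans ?_⟩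
    exact pow_le_pow_right₀ (by norm_num) (by omega)
  classical
  let i := Nat.find hex
  have hi : dist x y ≤ (2 : ℝ) ^ (n + i + 1) := Nat.find_spec hex
  rw [mem_iUnion]
  refine ⟨i, ?_, hi⟩
  change (2 : ℝ) ^ (n + i) < dist x y
  rcases Nat.eq_zero_or_pos i with h0 | hpos
  · rw [h0]; simpa using hx'
  · have h1 := Nat.find_min hex (m := i - 1) (by omega)
    rw [not_le] at h1
    have h2 : n + (i - 1) + 1 = n + i := by omega
    rwa [h2] at h1

/-- Estimate outside a dyadic ball. -/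
private lemma tail {p q : ℝ≥0∞} (m : ℕ) (hm : 2 ≤ m) (hp : p = m) (hpq : p ≤ q)
    (hq : (1 / p.toReal - 1 / q.toReal) * m = 2 / 5) (y : E) {f : E → ℝ}
    (hf : AEStronglyMeasurable f volume) {B : ℝ} (hB : 0 ≤ B)
    (h : ∀ j : ℕ, eLpNorm ((ext y (2 ^ j)).indicator f) q volume ≤
      ENNReal.ofReal (B * (2 : ℝ) ^ (-(3 / 2 : ℝ) * j))) (n : ℕ) :
    ∫⁻ x in ext y (2 ^ n), ‖f x‖ₑ ^ m ≤
      ENNReal.ofReal (B ^ m * (8 * cb) * (2 : ℝ) ^ (-(n : ℝ))) := by
  have hcb := cb_nonneg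
  calc ∫⁻ x in ext y (2 ^ n), ‖f x‖ₑ ^ m
      ≤ ∫⁻ x in ⋃ i : ℕ, ext y (2 ^ (n + i)) ∩ Metric.closedBall y (2 ^ (n + i + 1)),
          ‖f x‖ₑ ^ m := lintegral_mono_set (ext_subset y n)
    _ ≤ ∑' i : ℕ, ∫⁻ x in ext y (2 ^ (n + i)) ∩ Metric.closedBall y (2 ^ (n + i + 1)),
          ‖f x‖ₑ ^ m := lintegral_iUnion_le _ _
    _ ≤ ∑' i : ℕ, ENNReal.ofReal (B ^ m * (4 * cb) * (2 : ℝ) ^ (-(n : ℝ)) * (1 / 2) ^ i) := by
        refine ENNReal.tsum_le_tsum fun i => ?_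
        refine (annulus m hm hp hpq hq y (n + i) hf hB (h (n + i))).trans (le_of_eq ?_)
        congr 1
        rw [mul_assoc (B ^ m * (4 * cb))]
        congr 1
        rw [Real.rpow_neg (by norm_num), Real.rpow_natCast, Real.rpow_neg (by norm_num),
          Real.rpow_natCast, pow_add, mul_inv, one_div, inv_pow]
    _ = ENNReal.ofReal (∑' i : ℕ, B ^ m * (4 * cb) * (2 : ℝ) ^ (-(n : ℝ)) * (1 / 2) ^ i) := by
        rw [ENNReal.ofReal_tsum_of_nonneg]
        · intro i; positivity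
        · exact summable_geometric_two.mul_left _
    _ = ENNReal.ofReal (B ^ m * (8 * cb) * (2 : ℝ) ^ (-(n : ℝ))) := by
        rw [tsum_mul_left, tsum_geometric_two]
        congr 1; ring

/-- Integrability of the power and real form of the tail estimate. -/
private lemma main {p q : ℝ≥0∞} (m : ℕ) (hm : 2 ≤ m) (hme : Even m) (hp : p = m) (hpq : p ≤ q)
    (hq : (1 / p.toReal - 1 / q.toReal) * m = 2 / 5) (y : E) {f : E → ℝ}
    (hf : MemLp f q volume) {B : ℝ} (hB : 0 ≤ B)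
    (h : ∀ j : ℕ, eLpNorm ((ext y (2 ^ j)).indicator f) q volume ≤
      ENNReal.ofReal (B * (2 : ℝ) ^ (-(3 / 2 : ℝ) * j))) :
    MemLp f p volume ∧ ∀ n : ℕ, ∫ x in ext y (2 ^ n), f x ^ m ≤
      B ^ m * (8 * cb) * (2 : ℝ) ^ (-(n : ℝ)) := by
  have hcb := cb_nonneg
  have hm0 : (m : ℝ) ≠ 0 := by positivity
  have hp0 : p ≠ 0 := by rw [hp]; exact_mod_cast (by omega : m ≠ 0)
  have hpt : p ≠ ⊤ := by rw [hp]; exact ENNReal.natCast_ne_top m
  have ht := tail m hm hp hpq hq y hf.1 hB h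
  refine ⟨⟨hf.1, ?_⟩, fun n => ?_⟩
  · rw [eLpNorm_lt_top_iff_lintegral_rpow_enorm_lt_top hp0 hpt, hp, ENNReal.toReal_natCast]
    simp only [ENNReal.rpow_natCast]
    have hms : MeasurableSet (ext y (2 ^ 0)) := (isOpen_ext y _).measurableSet
    rw [← lintegral_add_compl _ hms]
    refine ENNReal.add_lt_top.2 ⟨lt_of_le_of_lt (ht 0) ENNReal.ofReal_lt_top, ?_⟩
    have hsub : (ext y ((2 : ℝ) ^ 0))ᶜ ⊆ Metric.closedBall y 1 := by
      intro x hx
      have hx' : ¬ ((2 : ℝ) ^ 0 < dist x y) := hx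
      rw [Metric.mem_closedBall]
      simpa using hx'
    refine lt_of_le_of_lt (lintegral_mono_set hsub) ?_
    have hfin : (volume : Measure E) (Metric.closedBall y 1) < ⊤ := measure_closedBall_lt_top
    have : IsFiniteMeasure ((volume : Measure E).restrict (Metric.closedBall y 1)) :=
      ⟨by rwa [Measure.restrict_apply_univ]⟩
    have h1 : MemLp f p (volume.restrict (Metric.closedBall y 1)) :=
      (hf.restrict (Metric.closedBall y 1)).mono_exponent hpq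
    have h2 := (eLpNorm_lt_top_iff_lintegral_rpow_enorm_lt_top hp0 hpt).1 h1.2
    rw [hp, ENNReal.toReal_natCast] at h2
    simpa only [ENNReal.rpow_natCast] using h2
  · have h1 : ∫ x in ext y (2 ^ n), f x ^ m = (∫⁻ x in ext y (2 ^ n), ‖f x‖ₑ ^ m).toReal := by
      rw [integral_eq_lintegral_of_nonneg_ae]
      · congr 1
        apply lintegral_congr
        intro x
        rw [Real.enorm_eq_ofReal_abs, ← ENNReal.ofReal_pow (abs_nonneg _), hme.pow_abs]
      · exact Eventually.of_forall fun x => hme.pow_nonneg _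
      · exact (hf.1.restrict.pow m)
    rw [h1]
    exact ENNReal.toReal_le_of_le_ofReal (by positivity) (ht n)

end Pool.Agent.QWE.E1x

namespace Pool.Agent.QWE

open E1x

/-- **E1** (energy tails). -/
theorem thm_E1 (hF : St_Fld) (hE : St_ExF) : St_E1 := by
  obtain ⟨C1, hC1, hF⟩ := hF
  obtain ⟨C2, hC2, hE⟩ := hE
  intro D
  have hcb := cb_nonneg
  refine ⟨6 * ((C2 * |D|) ^ 2 * (8 * cb)) + (C2 * |D|) ^ 6 * (8 * cb) + 1, by positivity, ?_⟩
  intro k y hkD hex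
  have hD : |D| = D := abs_of_nonneg ((norm_nonneg k).trans hkD)
  rw [hD]
  have hD0 : 0 ≤ D := (norm_nonneg k).trans hkD
  have hB : 0 ≤ C2 * D := by positivity
  have hexj : ∀ j : ℕ, C2 * ex (ext y (2 ^ j)) k ≤ C2 * D * (2 : ℝ) ^ (-(3 / 2 : ℝ) * j) := by
    intro j
    rw [mul_assoc]
    exact mul_le_mul_of_nonneg_left (hex j) hC2.le
  have hopen : ∀ j : ℕ, IsOpen (ext y ((2 : ℝ) ^ j)) := fun j =>
    isOpen_lt continuous_const (continuous_id.dist continuous_const)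
  have h103 : (10 / 3 : ℝ≥0∞).toReal = 10 / 3 := by simp
  have h23 : (2 : ℝ≥0∞) ≤ 10 / 3 := by
    rw [ENNReal.le_div_iff_mul_le (Or.inl (by norm_num)) (Or.inl (by norm_num))]
    norm_num
  obtain ⟨⟨hU, -⟩, ⟨⟨hV, -⟩, -⟩, hDU, -, -⟩ := hF k
  have hDU' := fun i => main (p := 2) (q := 10 / 3) 2 le_rfl (by decide) (by norm_num) h23
    (by rw [h103]; norm_num) y (hDU i).1 hB
    (fun j => ((hE k _ (hopen j)).2.1 i).trans (ENNReal.ofReal_le_ofReal (hexj j)))
  have hV' := main (p := 2) (q := 10 / 3) 2 le_rfl (by decide) (by norm_num) h23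
    (by rw [h103]; norm_num) y hV hB
    (fun j => ((hE k _ (hopen j)).2.2.1).trans (ENNReal.ofReal_le_ofReal (hexj j)))
  have hU' := main (p := 6) (q := 10) 6 (by norm_num) (by decide) (by norm_num) (by norm_num)
    (by norm_num) y hU hB
    (fun j => ((hE k _ (hopen j)).1).trans (ENNReal.ofReal_le_ofReal (hexj j)))
  refine ⟨⟨fun i => (hDU' i).1, hV'.1⟩, hU'.1, fun n => ?_⟩
  have h1 : (∑ i, ∫ x in ext y (2 ^ n), DU k i x ^ 2) ≤
      5 * ((C2 * D) ^ 2 * (8 * cb) * (2 : ℝ) ^ (-(n : ℝ))) := by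
    calc (∑ i, ∫ x in ext y (2 ^ n), DU k i x ^ 2)
        ≤ ∑ _i : Fin 5, ((C2 * D) ^ 2 * (8 * cb) * (2 : ℝ) ^ (-(n : ℝ))) :=
          Finset.sum_le_sum fun i _ => (hDU' i).2 n
      _ = 5 * ((C2 * D) ^ 2 * (8 * cb) * (2 : ℝ) ^ (-(n : ℝ))) := by
          rw [Finset.sum_const, Finset.card_univ, Fintype.card_fin, nsmul_eq_mul]
          norm_num
  have h2 := hV'.2 n
  have h3 := hU'.2 n
  have h4 : (0 : ℝ) < (2 : ℝ) ^ (-(n : ℝ)) := by positivity
  nlinarith [h1, h2, h3, h4]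

end Pool.Agent.QWE
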