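import Pool.Agent.QWE.StE

set_option autoImplicit false

/-!
# QWE, module E3: the frequency scale is unbounded
-/

open MeasureTheory Filter Topology Set
open scoped ENNReal NNReal RealInnerProductSpace

namespace Pool.Agent.QWE

namespace E3x

/-- sums of integrals over the intervals `[2n, 2n+2)` -/
lemma sum_le (g : ℝ → ℝ≥0∞) (N : ℕ) :
    ∑ n ∈ Finset.range N, ∫⁻ s in Ico (2 * (n : ℝ)) (2 * n + 2), g s ≤
      ∫⁻ s in Ico (0 : ℝ) (2 * N), g s := by
  induction N with
  | zero => simp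
  | succ N ih =>
    rw [Finset.sum_range_succ]
    have h1 : Ico (0 : ℝ) (2 * ((N + 1 : ℕ) : ℝ)) =
        Ico (0 : ℝ) (2 * N) ∪ Ico (2 * (N : ℝ)) (2 * N + 2) := by
      rw [Ico_union_Ico_eq_Ico (by positivity) (by linarith)]
      congr 1
      push_cast
      ring
    rw [h1, lintegral_union measurableSet_Ico (by
      rw [Set.disjoint_left]
      intro s hs hs'
      exact absurd hs.2 (not_lt.mpr hs'.1))]
    exact add_le_add ih le_rfl

/-- harmonic sums are unbounded -/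
lemma harm (c B : ℝ) (hc : 0 < c) : ∃ N : ℕ, 0 < N ∧
    B < ∑ n ∈ Finset.range N, c / (1 + 2 * (n : ℝ)) := by
  have h1 := Real.tendsto_sum_range_one_div_nat_succ_atTop
  have h2 : ∀ᶠ N : ℕ in atTop, 2 * B / c + 1 ≤ ∑ i ∈ Finset.range N, (1 / (i + 1 : ℝ)) :=
    h1.eventually_ge_atTop _
  obtain ⟨N, hN, hN0⟩ := (h2.and (eventually_gt_atTop 0)).exists
  refine ⟨N, hN0, ?_⟩
  have h3 : ∑ i ∈ Finset.range N, (1 / (i + 1 : ℝ)) * (c / 2) ≤
      ∑ n ∈ Finset.range N, c / (1 + 2 * (n : ℝ)) := by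
    refine Finset.sum_le_sum fun i _ => ?_
    have hi : (0 : ℝ) ≤ i := Nat.cast_nonneg i
    rw [div_mul_div_comm, one_mul]
    exact div_le_div_of_nonneg_left hc.le (by positivity) (by linarith)
  rw [← Finset.sum_mul] at h3
  have h4 := mul_le_mul_of_nonneg_right hN (by positivity : (0 : ℝ) ≤ c / 2)
  have h5 : (2 * B / c + 1) * (c / 2) = B + c / 2 := by
    field_simp
  linarith

end E3x

theorem thm_E3 (hE3a : St_E3a) : St_E3 := by
  intro Q k x a hN y C B hy hxy hB L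
  by_contra hcon
  push Not at hcon
  obtain ⟨hCS, ha⟩ := hN
  obtain ⟨C1, c', hC1, hc', hlow⟩ := hE3a Q k x a hCS
  obtain ⟨K0, hK0⟩ : ∃ K0 : ℝ, K0 = 1 + ‖y 0‖ + |C| + 2 * C1 := ⟨_, rfl⟩
  obtain ⟨c2, hc2⟩ : ∃ c2 : ℝ, c2 = c' * Real.exp (-(3 * L)) := ⟨_, rfl⟩
  have hc20 : 0 < c2 := by rw [hc2]; positivity
  have hK01 : 1 ≤ K0 := by
    rw [hK0]
    have := norm_nonneg (y 0)
    have := abs_nonneg C
    linarith
  obtain ⟨g, hg⟩ : ∃ g : ℝ → ℝ≥0∞, g = fun t => ∫⁻ z,
    ENNReal.ofReal (U (k t) z ^ 6 / √(1 + ‖z‖ ^ 2)) := ⟨_, rfl⟩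
  have hexp : ∀ t, Real.exp (-(a t)) ≤ 2 := by
    intro t
    have h1 := Real.exp_le_exp.mpr (show -(a t) ≤ Real.log 2 by linarith [ha t])
    rwa [Real.exp_log (by norm_num)] at h1
  have key : ∀ t : ℝ, 0 ≤ t → ENNReal.ofReal (c2 / K0 / (1 + t)) ≤
      ∫⁻ s in Ico t (t + 2), g s := by
    intro t ht
    have h1 := hlow t
    have h2 : ENNReal.ofReal c2 ≤ ENNReal.ofReal (c' * Real.exp (-(3 * a t))) := by
      apply ENNReal.ofReal_le_ofReal
      rw [hc2]
      exact mul_le_mul_of_nonneg_left (Real.exp_le_exp.mpr (by linarith [hcon t])) hc'.le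
    have h3 : ∀ s, ∫⁻ z in Metric.closedBall (x t) (C1 * Real.exp (-(a t))),
        ENNReal.ofReal (U (k s) z ^ 6) ≤ ENNReal.ofReal (K0 * (1 + t)) * g s := by
      intro s
      rw [hg]
      change _ ≤ ENNReal.ofReal (K0 * (1 + t)) * ∫⁻ z,
        ENNReal.ofReal (U (k s) z ^ 6 / √(1 + ‖z‖ ^ 2))
      rw [← lintegral_const_mul' _ _ ENNReal.ofReal_ne_top]
      refine le_trans ?_ (setLIntegral_le_lintegral
        (Metric.closedBall (x t) (C1 * Real.exp (-(a t)))) _)
      refine setLIntegral_mono' Metric.isClosed_closedBall.measurableSet fun z hz => ?_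
      rw [← ENNReal.ofReal_mul (by positivity)]
      apply ENNReal.ofReal_le_ofReal
      have hz1 : dist z (x t) ≤ C1 * Real.exp (-(a t)) := Metric.mem_closedBall.mp hz
      have hz2 : C1 * Real.exp (-(a t)) ≤ 2 * C1 := by
        have := mul_le_mul_of_nonneg_left (hexp t) hC1.le
        linarith
      have hz3 : ‖z‖ ≤ ‖y 0‖ + t + |C| + 2 * C1 := by
        have e1 : ‖z‖ ≤ dist z (x t) + dist (x t) (y t) + dist (y t) (y 0) + ‖y 0‖ := by
          have f1 : ‖z‖ = dist z 0 := (dist_zero_right z).symm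
          have f2 : ‖y 0‖ = dist (y 0) 0 := (dist_zero_right (y 0)).symm
          rw [f1, f2]
          have g1 := dist_triangle z (x t) 0
          have g2 := dist_triangle (x t) (y t) 0
          have g3 := dist_triangle (y t) (y 0) 0
          linarith
        have e2 := hxy t
        have e3 := hy 0 t
        rw [sub_zero, abs_of_nonneg ht] at e3
        have e4 := le_abs_self C
        linarith
      have hz4 : √(1 + ‖z‖ ^ 2) ≤ 1 + ‖z‖ := by
        rw [Real.sqrt_le_left (by positivity)]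
        nlinarith [norm_nonneg z]
      have hz5 : √(1 + ‖z‖ ^ 2) ≤ K0 * (1 + t) := by
        have e1 : 1 + ‖z‖ ≤ K0 + t := by rw [hK0]; linarith
        have e2 : K0 * (1 + t) = K0 + K0 * t := by ring
        have e3 : 1 * t ≤ K0 * t := mul_le_mul_of_nonneg_right hK01 ht
        linarith
      have hz6 : 0 < √(1 + ‖z‖ ^ 2) := Real.sqrt_pos.mpr (by positivity)
      have hU : 0 ≤ U (k s) z ^ 6 := by positivity
      rw [mul_div_assoc', le_div_iff₀ hz6, mul_comm]
      exact mul_le_mul_of_nonneg_right hz5 hU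
    have h4 : ENNReal.ofReal c2 ≤ ENNReal.ofReal (K0 * (1 + t)) * ∫⁻ s in Ico t (t + 2), g s := by
      refine h2.trans (h1.trans ?_)
      rw [← lintegral_const_mul' _ _ ENNReal.ofReal_ne_top]
      refine le_trans (lintegral_mono fun s => h3 s) ?_
      rw [setLIntegral_congr (Ico_ae_eq_Icc (a := t) (b := t + 2) (μ := (volume : Measure ℝ)))]
      refine lintegral_mono_set (Icc_subset_Icc le_rfl ?_)
      linarith [hexp t]
    have hpos : 0 < K0 * (1 + t) := by positivity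
    have h5 : ENNReal.ofReal (c2 / K0 / (1 + t)) =
        ENNReal.ofReal c2 / ENNReal.ofReal (K0 * (1 + t)) := by
      rw [← ENNReal.ofReal_div_of_pos hpos, div_div]
    rw [h5]
    exact ENNReal.div_le_of_le_mul' h4
  obtain ⟨N, hN0, hNB⟩ := E3x.harm (c2 / K0) (max B 0) (by positivity)
  have hN0' : (0 : ℝ) < 2 * N := by
    have : (0 : ℝ) < N := by exact_mod_cast hN0
    linarith
  have h6 : ∑ n ∈ Finset.range N, ENNReal.ofReal (c2 / K0 / (1 + 2 * (n : ℝ))) ≤
      ENNReal.ofReal B := by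
    calc ∑ n ∈ Finset.range N, ENNReal.ofReal (c2 / K0 / (1 + 2 * (n : ℝ)))
        ≤ ∑ n ∈ Finset.range N, ∫⁻ s in Ico (2 * (n : ℝ)) (2 * n + 2), g s :=
          Finset.sum_le_sum fun n _ => key (2 * n) (by positivity)
      _ ≤ ∫⁻ s in Ico (0 : ℝ) (2 * N), g s := E3x.sum_le g N
      _ ≤ ∫⁻ s in Icc (0 : ℝ) (2 * N), g s := lintegral_mono_set Ico_subset_Icc_self
      _ ≤ _ := by
          rw [hg]
          exact hB (2 * N) hN0'
  rw [← ENNReal.ofReal_sum_of_nonneg (fun n _ => by positivity)] at h6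
  have h7 : ENNReal.ofReal B ≤ ENNReal.ofReal (max B 0) :=
    ENNReal.ofReal_le_ofReal (le_max_left _ _)
  have h8 := (ENNReal.ofReal_le_ofReal_iff (le_max_right B 0)).mp (h6.trans h7)
  linarith

end Pool.Agent.QWE
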