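import Pool.Agent.QWE.StE
import Pool.Agent.QWE.StA

set_option autoImplicit false

/-!
# QWE, E3a: lower bound near the core
-/

open MeasureTheory Filter Topology Set
open scoped ENNReal NNReal RealInnerProductSpace

namespace Pool.Agent.QWE

namespace E3ax

/-- the local sixth power. -/
noncomputable def F (κ : K) (M : ℝ) : ℝ≥0∞ :=
  ∫⁻ z in Metric.closedBall (0 : E) M, ENNReal.ofReal (U κ z ^ 6)

lemma pow_six (f : E → ℝ) (B : Set E) :
    eLpNorm f 6 (volume.restrict B) ^ 6 = ∫⁻ x in B, ENNReal.ofReal (f x ^ 6) := by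
  have h4 := eLpNorm_nnreal_pow_eq_lintegral (f := f) (μ := volume.restrict B)
    (p := (6 : ℝ≥0)) (by norm_num)
  have h6 : eLpNorm f ((6 : ℝ≥0) : ℝ≥0∞) (volume.restrict B) ^ ((6 : ℝ≥0) : ℝ) =
      eLpNorm f 6 (volume.restrict B) ^ 6 := by
    have e1 : ((6 : ℝ≥0) : ℝ) = ((6 : ℕ) : ℝ) := by norm_num
    rw [e1, ENNReal.rpow_natCast]
    rfl
  rw [← h6, h4]
  apply lintegral_congr
  intro x
  have e1 : ((6 : ℝ≥0) : ℝ) = ((6 : ℕ) : ℝ) := by norm_num
  rw [e1, ENNReal.rpow_natCast, ← Even.pow_abs (by decide : Even 6), Real.enorm_eq_ofReal_abs,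
    ENNReal.ofReal_pow (abs_nonneg _)]

lemma F_eq (κ : K) (M : ℝ) : F κ M =
    eLpNorm ((Metric.closedBall (0 : E) M).indicator (U κ)) 6 volume ^ 6 := by
  rw [eLpNorm_indicator_eq_eLpNorm_restrict Metric.isClosed_closedBall.measurableSet, pow_six]
  rfl

lemma F_lsc (hLsc : St_Lsc) (M : ℝ) : LowerSemicontinuous (fun κ : K => F κ M) := by
  have h1 := hLsc 6 (Metric.closedBall (0 : E) M) (by norm_num)
    Metric.isClosed_closedBall.measurableSet
  have h2 := Continuous.comp_lowerSemicontinuous (ENNReal.continuous_pow 6) h1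
    (fun a b hab => by gcongr)
  have h3 : (fun κ : K => F κ M) = (fun x : ℝ≥0∞ => x ^ 6) ∘
      (fun κ : K => eLpNorm ((Metric.closedBall (0 : E) M).indicator (U κ)) 6 volume) := by
    funext κ
    exact F_eq κ M
  rw [h3]
  exact h2

lemma F_meas (hLsc : St_Lsc) (M : ℝ) (g : ℝ → K) (hg : Continuous g) :
    Measurable fun s => F (g s) M := by
  have h1 : LowerSemicontinuous ((fun κ : K => F κ M) ∘ g) :=
    LowerSemicontinuous.comp (f := fun κ : K => F κ M) (F_lsc hLsc M) hg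
  exact h1.measurable

lemma F_mono (κ : K) {M M' : ℝ} (h : M ≤ M') : F κ M ≤ F κ M' :=
  lintegral_mono_set (Metric.closedBall_subset_closedBall h)

lemma F_zero (hFld : St_Fld) (κ : K) (h : ∀ M : ℕ, F κ M = 0) : U κ =ᵐ[volume] 0 := by
  obtain ⟨C, -, hC⟩ := hFld
  have hm : AEStronglyMeasurable (U κ) volume := (hC κ).1.1.1
  have h1 : ∀ M : ℕ, (Metric.closedBall (0 : E) M).indicator (U κ) =ᵐ[volume] 0 := by
    intro M
    have h2 := h M
    rw [F_eq, pow_eq_zero_iff (by norm_num)] at h2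
    exact (eLpNorm_eq_zero_iff (hm.indicator Metric.isClosed_closedBall.measurableSet)
      (by norm_num)).1 h2
  filter_upwards [ae_all_iff.2 h1] with z hz
  obtain ⟨M, hM⟩ := exists_nat_ge ‖z‖
  have h3 := hz M
  rwa [indicator_of_mem (mem_closedBall_zero_iff.2 hM)] at h3

/-- scaling. -/
lemma lint_scale (c : ℝ) (hc : 0 < c) (f : E → ℝ≥0∞) :
    ∫⁻ z, f (c • z) = ENNReal.ofReal ((c ^ 5)⁻¹) * ∫⁻ z, f z := by
  have h1 := (Homeomorph.smulOfNeZero c hc.ne' : E ≃ₜ E).measurableEmbedding.lintegral_map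
    (μ := (volume : Measure E)) f
  have h2 : Measure.map (⇑(Homeomorph.smulOfNeZero c hc.ne' : E ≃ₜ E)) (volume : Measure E) =
      ENNReal.ofReal ((c ^ 5)⁻¹) • (volume : Measure E) := by
    have h3 := Measure.map_addHaar_smul (volume : Measure E) hc.ne'
    rw [finrank_euclideanSpace, Fintype.card_fin, abs_of_pos (by positivity)] at h3
    exact h3
  rw [h2, lintegral_smul_measure, smul_eq_mul] at h1
  exact h1.symm

lemma lint_time (t c : ℝ) (hc : 0 < c) (f : ℝ → ℝ≥0∞) :
    ∫⁻ s, f (t + c * s) = ENNReal.ofReal (c⁻¹) * ∫⁻ s, f s := by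
  have h1 := (Homeomorph.mulLeft₀ c hc.ne').measurableEmbedding.lintegral_map
    (μ := (volume : Measure ℝ)) (fun s => f (t + s))
  have h2 : Measure.map (⇑(Homeomorph.mulLeft₀ c hc.ne')) (volume : Measure ℝ) =
      ENNReal.ofReal (c⁻¹) • (volume : Measure ℝ) := by
    have h3 := Real.map_volume_mul_left hc.ne'
    rw [abs_of_pos (by positivity)] at h3
    exact h3
  rw [h2, lintegral_smul_measure, smul_eq_mul, lintegral_add_left_eq_self] at h1
  exact h1.symm

lemma lint_ball (hAct : St_Act) (x : E) (a : ℝ) (κ : K) (C : ℝ) :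
    ∫⁻ z in Metric.closedBall x (C * Real.exp (-a)), ENNReal.ofReal (U (gr x a κ) z ^ 6) =
      ENNReal.ofReal (Real.exp (-(2 * a))) * F κ C := by
  obtain ⟨h1, h2, -, -⟩ := hAct
  have hm : ∀ (y : E) (r : ℝ), MeasurableSet (Metric.closedBall y r) := fun y r =>
    Metric.isClosed_closedBall.measurableSet
  have e1 : ∫⁻ z in Metric.closedBall x (C * Real.exp (-a)),
      ENNReal.ofReal (U (gr x a κ) z ^ 6) = ∫⁻ z in Metric.closedBall x (C * Real.exp (-a)),
      ENNReal.ofReal (U (dl a κ) (z - x) ^ 6) := by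
    apply lintegral_congr_ae
    filter_upwards [ae_restrict_of_ae (h1 x (dl a κ)).1] with z hz
    unfold gr
    rw [hz]
  have e2 : ∫⁻ z in Metric.closedBall x (C * Real.exp (-a)),
      ENNReal.ofReal (U (dl a κ) (z - x) ^ 6) = ∫⁻ z in Metric.closedBall 0 (C * Real.exp (-a)),
      ENNReal.ofReal (U (dl a κ) z ^ 6) := by
    rw [← lintegral_indicator (hm _ _), ← lintegral_indicator (hm _ _)]
    rw [← lintegral_sub_right_eq_self (fun z => (Metric.closedBall 0 (C * Real.exp (-a))).indicator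
      (fun z => ENNReal.ofReal (U (dl a κ) z ^ 6)) z) x]
    apply lintegral_congr
    intro z
    by_cases hz : z ∈ Metric.closedBall x (C * Real.exp (-a))
    · have hz' : z - x ∈ Metric.closedBall (0 : E) (C * Real.exp (-a)) := by
        rw [Metric.mem_closedBall, dist_eq_norm] at hz
        rwa [mem_closedBall_zero_iff]
      rw [indicator_of_mem hz, indicator_of_mem hz']
    · have hz' : z - x ∉ Metric.closedBall (0 : E) (C * Real.exp (-a)) := by
        rw [Metric.mem_closedBall, dist_eq_norm] at hz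
        rwa [mem_closedBall_zero_iff]
      rw [indicator_of_notMem hz, indicator_of_notMem hz']
  have hea := Real.exp_pos a
  have e3 : ∫⁻ z in Metric.closedBall 0 (C * Real.exp (-a)), ENNReal.ofReal (U (dl a κ) z ^ 6) =
      ∫⁻ z in Metric.closedBall 0 (C * Real.exp (-a)),
        ENNReal.ofReal (Real.exp (3 * a)) * ENNReal.ofReal (U κ (Real.exp a • z) ^ 6) := by
    apply lintegral_congr_ae
    filter_upwards [ae_restrict_of_ae (h2 a κ).1] with z hz
    rw [hz, ← ENNReal.ofReal_mul (Real.exp_pos _).le, mul_pow, ← Real.exp_nat_mul]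
    congr 3
    push_cast
    ring
  have e4 : ∫⁻ z in Metric.closedBall 0 (C * Real.exp (-a)),
        ENNReal.ofReal (Real.exp (3 * a)) * ENNReal.ofReal (U κ (Real.exp a • z) ^ 6) =
      ENNReal.ofReal (Real.exp (3 * a)) * (ENNReal.ofReal ((Real.exp a ^ 5)⁻¹) * F κ C) := by
    rw [lintegral_const_mul' _ _ ENNReal.ofReal_ne_top]
    congr 1
    unfold F
    rw [← lintegral_indicator (hm _ _), ← lintegral_indicator (hm _ _), ← lint_scale _ hea]
    apply lintegral_congr
    intro z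
    have hiff : z ∈ Metric.closedBall (0 : E) (C * Real.exp (-a)) ↔
        Real.exp a • z ∈ Metric.closedBall (0 : E) C := by
      rw [mem_closedBall_zero_iff, mem_closedBall_zero_iff, norm_smul, Real.norm_eq_abs,
        abs_of_pos hea, Real.exp_neg, ← div_eq_mul_inv, le_div_iff₀ hea, mul_comm]
    by_cases hz : z ∈ Metric.closedBall (0 : E) (C * Real.exp (-a))
    · rw [indicator_of_mem hz, indicator_of_mem (hiff.1 hz)]
    · rw [indicator_of_notMem hz, indicator_of_notMem (fun h => hz (hiff.2 h))]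
  rw [e1, e2, e3, e4, ← mul_assoc, ← ENNReal.ofReal_mul (Real.exp_pos _).le]
  congr 2
  rw [← Real.exp_nat_mul, ← Real.exp_neg, ← Real.exp_add]
  congr 1
  push_cast
  ring

/-- the change of variables. -/
lemma lint_total (hGrA : St_GrA) (hAct : St_Act) (k : ℝ → K) (x : E) (a t C : ℝ) :
    ∫⁻ s in Icc t (t + Real.exp (-a)), ∫⁻ z in Metric.closedBall x (C * Real.exp (-a)),
      ENNReal.ofReal (U (k s) z ^ 6) =
    ENNReal.ofReal (Real.exp (-(3 * a))) *
      ∫⁻ s in Icc (0 : ℝ) 1, F (ig x a (k (t + Real.exp (-a) * s))) C := by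
  have hid := hGrA.2.2.1
  have hc := Real.exp_pos (-a)
  have e1 : ∀ s, ∫⁻ z in Metric.closedBall x (C * Real.exp (-a)),
      ENNReal.ofReal (U (k s) z ^ 6) = ENNReal.ofReal (Real.exp (-(2 * a))) *
        F (ig x a (k s)) C := by
    intro s
    rw [← lint_ball hAct x a (ig x a (k s)) C, (hid x a (k s)).1]
  rw [lintegral_congr e1, lintegral_const_mul' _ _ ENNReal.ofReal_ne_top]
  rw [← lintegral_indicator measurableSet_Icc, ← lintegral_indicator measurableSet_Icc]
  have h1 := lint_time t (Real.exp (-a)) hc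
    ((Icc t (t + Real.exp (-a))).indicator fun s => F (ig x a (k s)) C)
  have h2 : ∀ s, (Icc t (t + Real.exp (-a))).indicator (fun s => F (ig x a (k s)) C)
      (t + Real.exp (-a) * s) =
      (Icc (0 : ℝ) 1).indicator (fun s => F (ig x a (k (t + Real.exp (-a) * s))) C) s := by
    intro s
    have hiff : t + Real.exp (-a) * s ∈ Icc t (t + Real.exp (-a)) ↔ s ∈ Icc (0 : ℝ) 1 := by
      rw [mem_Icc, mem_Icc]
      constructor
      · rintro ⟨h3, h4⟩
        constructor <;> by_contra h5 <;> push Not at h5 <;> nlinarith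
      · rintro ⟨h3, h4⟩
        constructor <;> nlinarith
    by_cases hs : s ∈ Icc (0 : ℝ) 1
    · rw [indicator_of_mem hs, indicator_of_mem (hiff.2 hs)]
    · rw [indicator_of_notMem hs, indicator_of_notMem (fun h => hs (hiff.1 h))]
  rw [lintegral_congr h2] at h1
  rw [h1, ← mul_assoc, ← ENNReal.ofReal_mul (Real.exp_pos _).le]
  congr 2
  rw [← Real.exp_neg, neg_neg, ← Real.exp_add]
  congr 1
  ring

end E3ax

open E3ax in
theorem thm_E3a (hFld : St_Fld) (hC3 : St_C3) (hLsc : St_Lsc) (hUV0 : St_UV0) (hAct : St_Act)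
    (hGrA : St_GrA) : St_E3a := by
  intro Q k x a hk
  by_contra hcon
  push Not at hcon
  have hn : ∀ n : ℕ, ∃ t : ℝ, ∫⁻ s in Icc (0 : ℝ) 1,
      F (ig (x t) (a t) (k (t + Real.exp (-(a t)) * s))) ((n : ℝ) + 1) ≤
      ENNReal.ofReal (1 / ((n : ℝ) + 1)) := by
    intro n
    obtain ⟨t, ht⟩ := hcon ((n : ℝ) + 1) (1 / ((n : ℝ) + 1)) (by positivity) (by positivity)
    refine ⟨t, ?_⟩
    rw [lint_total hGrA hAct, ENNReal.ofReal_mul (by positivity),
      mul_comm (ENNReal.ofReal (1 / ((n : ℝ) + 1)))] at ht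
    have h0 : ENNReal.ofReal (Real.exp (-(3 * a t))) ≠ 0 := by
      rw [Ne, ENNReal.ofReal_eq_zero, not_le]
      exact Real.exp_pos _
    exact ((ENNReal.mul_lt_mul_iff_right h0 ENNReal.ofReal_ne_top).1 ht).le
  choose t ht using hn
  obtain ⟨hQ, h0, hmax, hkQ⟩ := hk
  choose κ hκQ hκ using fun n => hkQ (t n) (mem_univ _)
  obtain ⟨κ0, hκ0, φ, hφ, hlim⟩ := hQ.tendsto_subseq hκQ
  obtain ⟨k', x', a', hk', hk'0, hconv, -⟩ := hC3 Q k x a ⟨hQ, h0, hmax, hkQ⟩ (fun n => t (φ n))
    (fun n => κ (φ n)) κ0 (fun n => ⟨hκQ _, hκ _⟩) hlim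
  have hkc : Continuous k := by
    rw [← continuousOn_univ]
    exact hmax.1.2.1
  have hgc : ∀ (y : E) (b : ℝ), Continuous fun κ : K => ig y b κ := by
    intro y b
    have h : Continuous fun z : E × ℝ × K => gr z.1 z.2.1 z.2.2 := hGrA.2.2.2.2.2.2.2.1
    have h1 : Continuous fun κ : K => ((-(Real.exp b • y), -b, κ) : E × ℝ × K) :=
      continuous_const.prodMk (continuous_const.prodMk continuous_id)
    exact (h.comp h1).congr fun κ => rfl
  set kn : ℕ → ℝ → K := fun n s => ig (x (t (φ n))) (a (t (φ n)))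
    (k (t (φ n) + Real.exp (-(a (t (φ n)))) * s)) with hkn
  have hknc : ∀ n, Continuous (kn n) := fun n => (hgc _ _).comp (hkc.comp (by fun_prop))
  have hknlim : ∀ s, Tendsto (fun n => kn n s) atTop (𝓝 (k' s)) := fun s =>
    hconv (fun _ => s) s tendsto_const_nhds
  have hzero : ∀ M : ℕ, ∫⁻ s in Icc (0 : ℝ) 1, F (k' s) M = 0 := by
    intro M
    have hmeas : ∀ n, Measurable fun s => F (kn n s) M := fun n =>
      F_meas hLsc M (kn n) (hknc n)
    have h1 : ∀ s, F (k' s) M ≤ liminf (fun n => F (kn n s) M) atTop := by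
      intro s
      have h0 : LowerSemicontinuousAt (fun κ : K => F κ M) (k' s) := F_lsc hLsc M (k' s)
      refine (lowerSemicontinuousAt_iff_le_liminf.1 h0).trans ?_
      exact liminf_le_liminf_of_le (u := fun κ : K => F κ M) (hknlim s)
    have h2 : ∫⁻ s in Icc (0 : ℝ) 1, F (k' s) M ≤
        liminf (fun n => ∫⁻ s in Icc (0 : ℝ) 1, F (kn n s) M) atTop :=
      (lintegral_mono h1).trans (lintegral_liminf_le hmeas)
    have h3 : Tendsto (fun n => ∫⁻ s in Icc (0 : ℝ) 1, F (kn n s) M) atTop (𝓝 0) := by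
      have h4 : Tendsto (fun n : ℕ => ENNReal.ofReal (1 / ((n : ℝ) + 1))) atTop (𝓝 0) := by
        rw [← ENNReal.ofReal_zero]
        exact ENNReal.tendsto_ofReal tendsto_one_div_add_atTop_nhds_zero_nat
      refine tendsto_of_tendsto_of_tendsto_of_le_of_le' tendsto_const_nhds h4
        (Eventually.of_forall fun n => bot_le) ?_
      filter_upwards [eventually_ge_atTop M] with n hMn
      have h5 := ht (φ n)
      have h6 : n ≤ φ n := hφ.id_le n
      have h7 : (M : ℝ) ≤ (φ n : ℝ) + 1 := by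
        have : (M : ℝ) ≤ (φ n : ℝ) := by exact_mod_cast hMn.trans h6
        linarith
      calc ∫⁻ s in Icc (0 : ℝ) 1, F (kn n s) M
          ≤ ∫⁻ s in Icc (0 : ℝ) 1, F (kn n s) ((φ n : ℝ) + 1) :=
            lintegral_mono fun s => F_mono _ h7
        _ ≤ ENNReal.ofReal (1 / ((φ n : ℝ) + 1)) := h5
        _ ≤ ENNReal.ofReal (1 / ((n : ℝ) + 1)) := by
            apply ENNReal.ofReal_le_ofReal
            have : (n : ℝ) ≤ (φ n : ℝ) := by exact_mod_cast h6
            gcongr
    rw [h3.liminf_eq] at h2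
    exact le_antisymm h2 bot_le
  have hk'c : Continuous k' := by
    rw [← continuousOn_univ]
    exact hk'.2.2.1.1.2.1
  have hae : ∀ᵐ s ∂(volume.restrict (Icc (0 : ℝ) 1)), ∀ M : ℕ, F (k' s) M = 0 := by
    rw [ae_all_iff]
    intro M
    have hmeas : Measurable fun s => F (k' s) M := F_meas hLsc M k' hk'c
    have h1 := (lintegral_eq_zero_iff hmeas).1 (hzero M)
    filter_upwards [h1] with s hs
    exact hs
  have hU : ∀ᵐ s ∂(volume.restrict (Icc (0 : ℝ) 1)), U (k' s) =ᵐ[volume] 0 := by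
    filter_upwards [hae] with s hs
    exact F_zero hFld (k' s) hs
  have h3 := hUV0 k' hk'.2.2.1.1 hU
  rw [hk'0] at h3
  rw [h3] at hκ0
  exact h0 hκ0

end Pool.Agent.QWE
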