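import Pool.Agent.QWE.StE
import Pool.Agent.QWE.StA

set_option autoImplicit false

/-!
# QWE, E4a: splitting of the energy
-/

open MeasureTheory Filter Topology Set
open scoped ENNReal NNReal RealInnerProductSpace

namespace Pool.Agent.QWE

namespace E4ax

/-- Hoelder on a set of finite measure, in terms of integrals. -/
lemma holder (q : ℕ) (hq : Even q) (hq1 : 1 ≤ q) (p : ℝ≥0∞) (hp : (q : ℝ≥0∞) ≤ p)
    (f : E → ℝ) (hf : AEStronglyMeasurable f volume) (B : Set E) (v c : ℝ)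
    (hv : volume B ≤ ENNReal.ofReal v) (hv0 : 0 ≤ v) (hc0 : 0 ≤ c)
    (hs : 0 ≤ 1 / (q : ℝ) - 1 / p.toReal)
    (hc : eLpNorm f p (volume.restrict B) ≤ ENNReal.ofReal c) :
    ∫ x in B, f x ^ q ≤ (c * v ^ (1 / (q : ℝ) - 1 / p.toReal)) ^ q := by
  have hfB : AEStronglyMeasurable f (volume.restrict B) := hf.restrict
  have h1 := eLpNorm_le_eLpNorm_mul_rpow_measure_univ (μ := volume.restrict B) hp hfB
  rw [Measure.restrict_apply_univ, ENNReal.toReal_natCast] at h1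
  have h2 : eLpNorm f q (volume.restrict B) ≤
      ENNReal.ofReal (c * v ^ (1 / (q : ℝ) - 1 / p.toReal)) := by
    refine h1.trans ?_
    rw [ENNReal.ofReal_mul hc0, ← ENNReal.ofReal_rpow_of_nonneg hv0 hs]
    exact mul_le_mul' hc (ENNReal.rpow_le_rpow hv hs)
  have h3 : eLpNorm f q (volume.restrict B) ^ q = ∫⁻ x in B, ENNReal.ofReal (f x ^ q) := by
    have h4 := eLpNorm_nnreal_pow_eq_lintegral (f := f) (μ := volume.restrict B)
      (p := (q : ℝ≥0)) (by positivity)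
    have h5 : (((q : ℝ≥0) : ℝ≥0∞)) = (q : ℝ≥0∞) := ENNReal.coe_natCast q
    rw [h5] at h4
    have h6 : eLpNorm f q (volume.restrict B) ^ (((q : ℝ≥0)) : ℝ) =
        eLpNorm f q (volume.restrict B) ^ q := by
      rw [NNReal.coe_natCast, ENNReal.rpow_natCast]
    rw [← h6, h4]
    apply lintegral_congr
    intro x
    rw [NNReal.coe_natCast, ENNReal.rpow_natCast, ← hq.pow_abs, Real.enorm_eq_ofReal_abs,
      ENNReal.ofReal_pow (abs_nonneg _)]
  rw [integral_eq_lintegral_of_nonneg_ae (Eventually.of_forall fun x => hq.pow_nonneg _)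
    (hfB.pow q), ← h3]
  have h7 : 0 ≤ c * v ^ (1 / (q : ℝ) - 1 / p.toReal) := mul_nonneg hc0 (Real.rpow_nonneg hv0 _)
  calc (eLpNorm f q (volume.restrict B) ^ q).toReal
      ≤ (ENNReal.ofReal (c * v ^ (1 / (q : ℝ) - 1 / p.toReal)) ^ q).toReal := by
        apply ENNReal.toReal_mono
        · exact ENNReal.pow_ne_top ENNReal.ofReal_ne_top
        · gcongr
    _ = _ := by rw [ENNReal.toReal_pow, ENNReal.toReal_ofReal h7]

/-- the volume of the unit ball. -/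
noncomputable def v1 : ℝ := (volume (Metric.ball (0 : E) 1)).toReal

lemma v1_nonneg : 0 ≤ v1 := ENNReal.toReal_nonneg

lemma vol_le (z : E) (r : ℝ) (hr : 0 ≤ r) (B : Set E) (hB : B ⊆ Metric.closedBall z r) :
    volume B ≤ ENNReal.ofReal (r ^ 5 * v1) := by
  refine (measure_mono hB).trans (le_of_eq ?_)
  rw [Measure.addHaar_closedBall _ _ hr, finrank_euclideanSpace, Fintype.card_fin, v1,
    ENNReal.ofReal_mul (by positivity), ENNReal.ofReal_toReal measure_ball_lt_top.ne]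

lemma rpow_five (r : ℝ) (hr : 0 ≤ r) : (r ^ 5) ^ (2 / 5 : ℝ) = r ^ 2 := by
  rw [← Real.rpow_natCast r 5, ← Real.rpow_mul hr, ← Real.rpow_natCast r 2]
  norm_num

lemma holder2 (f : E → ℝ) (hf : AEStronglyMeasurable f volume) (z : E) (r : ℝ) (hr : 0 ≤ r)
    (B : Set E) (hB : B ⊆ Metric.closedBall z r) (c : ℝ) (hc0 : 0 ≤ c)
    (hc : eLpNorm f (10 / 3) (volume.restrict B) ≤ ENNReal.ofReal c) :
    ∫ x in B, f x ^ 2 ≤ c ^ 2 * r ^ 2 * v1 ^ (2 / 5 : ℝ) := by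
  have e1 : ((10 / 3 : ℝ≥0∞)).toReal = 10 / 3 := by
    rw [ENNReal.toReal_div]; norm_num
  have h := holder 2 (by decide) (by norm_num) (10 / 3) (by
    rw [Nat.cast_ofNat, ENNReal.le_div_iff_mul_le (by norm_num) (by norm_num)]
    norm_num) f hf B (r ^ 5 * v1) c (vol_le z r hr B hB) (mul_nonneg (by positivity) v1_nonneg)
    hc0 (by rw [e1]; norm_num) hc
  refine h.trans (le_of_eq ?_)
  rw [e1]
  have e2 : (1 / ((2 : ℕ) : ℝ) - 1 / (10 / 3)) = 1 / 5 := by norm_num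
  rw [e2, mul_pow, ← Real.rpow_natCast ((r ^ 5 * v1) ^ (1 / 5 : ℝ)) 2,
    ← Real.rpow_mul (mul_nonneg (by positivity) v1_nonneg)]
  have e3 : (1 / 5 : ℝ) * ((2 : ℕ) : ℝ) = 2 / 5 := by norm_num
  rw [e3, Real.mul_rpow (by positivity) v1_nonneg, rpow_five r hr]
  ring

lemma holder6 (f : E → ℝ) (hf : AEStronglyMeasurable f volume) (z : E) (r : ℝ) (hr : 0 ≤ r)
    (B : Set E) (hB : B ⊆ Metric.closedBall z r) (c : ℝ) (hc0 : 0 ≤ c)
    (hc : eLpNorm f 10 (volume.restrict B) ≤ ENNReal.ofReal c) :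
    ∫ x in B, f x ^ 6 ≤ c ^ 6 * r ^ 2 * v1 ^ (2 / 5 : ℝ) := by
  have e1 : ((10 : ℝ≥0∞)).toReal = 10 := by norm_num
  have h := holder 6 (by decide) (by norm_num) 10 (by norm_num) f hf B (r ^ 5 * v1) c
    (vol_le z r hr B hB) (mul_nonneg (by positivity) v1_nonneg)
    hc0 (by rw [e1]; norm_num) hc
  refine h.trans (le_of_eq ?_)
  rw [e1]
  have e2 : (1 / ((6 : ℕ) : ℝ) - 1 / 10) = 1 / 15 := by norm_num
  rw [e2, mul_pow, ← Real.rpow_natCast ((r ^ 5 * v1) ^ (1 / 15 : ℝ)) 6,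
    ← Real.rpow_mul (mul_nonneg (by positivity) v1_nonneg)]
  have e3 : (1 / 15 : ℝ) * ((6 : ℕ) : ℝ) = 2 / 5 := by norm_num
  rw [e3, Real.mul_rpow (by positivity) v1_nonneg, rpow_five r hr]
  ring

lemma isOpen_ext (y : E) (ρ : ℝ) : IsOpen (ext y ρ) :=
  isOpen_lt continuous_const (continuous_id.dist continuous_const)

/-- splitting of an integral. -/
lemma split (g : E → ℝ) (hg : Integrable g volume) (hg0 : ∀ x, 0 ≤ g x) (x y : E) (ρ R : ℝ) :
    ∫ z, g z ≤ (∫ z in ext y R, g z) + (∫ z in Metric.closedBall x ρ, g z) +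
      ∫ z in Metric.closedBall y R ∩ ext x ρ, g z := by
  have m1 : MeasurableSet (ext y R) := (isOpen_ext y R).measurableSet
  have m2 : MeasurableSet (Metric.closedBall x ρ) := Metric.isClosed_closedBall.measurableSet
  have m3 : MeasurableSet (Metric.closedBall y R ∩ ext x ρ) :=
    Metric.isClosed_closedBall.measurableSet.inter (isOpen_ext x ρ).measurableSet
  rw [← integral_indicator m1, ← integral_indicator m2, ← integral_indicator m3,
    ← integral_add (hg.indicator m1) (hg.indicator m2)]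
  have e2 := integral_add ((hg.indicator m1).add (hg.indicator m2)) (hg.indicator m3)
  refine le_trans ?_ (le_of_eq e2)
  refine integral_mono hg (((hg.indicator m1).add (hg.indicator m2)).add (hg.indicator m3)) ?_
  intro z
  have n1 : 0 ≤ (ext y R).indicator g z := indicator_nonneg (fun x _ => hg0 x) z
  have n2 : 0 ≤ (Metric.closedBall x ρ).indicator g z := indicator_nonneg (fun x _ => hg0 x) z
  have n3 : 0 ≤ (Metric.closedBall y R ∩ ext x ρ).indicator g z :=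
    indicator_nonneg (fun x _ => hg0 x) z
  change g z ≤ (ext y R).indicator g z + (Metric.closedBall x ρ).indicator g z +
    (Metric.closedBall y R ∩ ext x ρ).indicator g z
  by_cases h1 : z ∈ ext y R
  · rw [indicator_of_mem h1 g]
    linarith
  by_cases h2 : z ∈ Metric.closedBall x ρ
  · rw [indicator_of_mem h2 g]
    linarith
  have h3 : z ∈ Metric.closedBall y R ∩ ext x ρ := by
    refine ⟨?_, ?_⟩
    · exact Metric.mem_closedBall.2 (not_lt.1 h1)
    · exact not_le.1 fun h => h2 (Metric.mem_closedBall.2 h)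
  rw [indicator_of_mem h3 g]
  linarith

lemma restrict_le (f : E → ℝ) (p : ℝ≥0∞) (Ω B : Set E) (hΩ : IsOpen Ω) (hB : B ⊆ Ω) (c : ℝ≥0∞)
    (h : eLpNorm (Ω.indicator f) p volume ≤ c) : eLpNorm f p (volume.restrict B) ≤ c := by
  rw [eLpNorm_indicator_eq_eLpNorm_restrict hΩ.measurableSet] at h
  exact (eLpNorm_mono_measure f (Measure.restrict_mono hB le_rfl)).trans h

lemma full_le (f : E → ℝ) (p : ℝ≥0∞) (B : Set E) (C A : ℝ) (hC : 0 ≤ C) (k : K) (hk : ‖k‖ ≤ A)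
    (h : eLpNorm f p volume ≤ ENNReal.ofReal C * ‖k‖ₑ) :
    eLpNorm f p (volume.restrict B) ≤ ENNReal.ofReal (C * A) := by
  refine (eLpNorm_mono_measure f Measure.restrict_le_self).trans (h.trans ?_)
  rw [← ofReal_norm, ← ENNReal.ofReal_mul hC]
  exact ENNReal.ofReal_le_ofReal (mul_le_mul_of_nonneg_left hk hC)

end E4ax

open E4ax in
theorem thm_E4a (hFld : St_Fld) (hExF : St_ExF) : St_E4a := by
  intro A
  obtain ⟨C1, hC1, h1⟩ := hFld
  obtain ⟨C2, hC2, h2⟩ := hExF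
  have hw : 0 ≤ v1 ^ (2 / 5 : ℝ) := Real.rpow_nonneg v1_nonneg _
  set w : ℝ := v1 ^ (2 / 5 : ℝ) with hw'
  refine ⟨6 * (C1 * A) ^ 2 * w + (C1 * A) ^ 6 * w + 6 * C2 ^ 2 * w + C2 ^ 6 * w + 1, by positivity,
    ?_⟩
  intro k x y ρ R hk hFE hU hρ hR
  have hA : 0 ≤ A := (norm_nonneg k).trans hk
  obtain ⟨⟨hU10, hUn⟩, ⟨hV, hVn⟩, hDU, -, -⟩ := h1 k
  obtain ⟨g1, g2, g3, -⟩ := h2 k (ext x ρ) (isOpen_ext x ρ)
  have he0 : 0 ≤ ex (ext x ρ) k := norm_nonneg _
  set e : ℝ := ex (ext x ρ) k with he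
  have hCA : 0 ≤ C1 * A := mul_nonneg hC1.le hA
  have hCe : 0 ≤ C2 * e := mul_nonneg hC2.le he0
  have key2 : ∀ f : E → ℝ, MemLp f 2 volume →
      eLpNorm f (10 / 3) volume ≤ ENNReal.ofReal C1 * ‖k‖ₑ →
      eLpNorm ((ext x ρ).indicator f) (10 / 3) volume ≤ ENNReal.ofReal (C2 * e) →
      ∫ z, f z ^ 2 ≤ (∫ z in ext y R, f z ^ 2) + (C1 * A) ^ 2 * ρ ^ 2 * w +
        (C2 * e) ^ 2 * R ^ 2 * w := by
    intro f hf hf1 hf2
    have s1 := split (fun z => f z ^ 2) hf.integrable_sq (fun z => sq_nonneg _) x y ρ R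
    have s2 := holder2 f hf.1 x ρ hρ.le (Metric.closedBall x ρ) subset_rfl (C1 * A) hCA
      (full_le f _ _ C1 A hC1.le k hk hf1)
    have s3 := holder2 f hf.1 y R hR.le (Metric.closedBall y R ∩ ext x ρ) inter_subset_left
      (C2 * e) hCe (restrict_le f _ (ext x ρ) _ (isOpen_ext x ρ) inter_subset_right _ hf2)
    linarith
  have hV2 := key2 (V k) hFE.2 hVn g3
  have hD2 : ∀ i, _ := fun i => key2 (DU k i) (hFE.1 i) (hDU i).2.2 (g2 i)
  have hD3 : ∑ i : Fin 5, ∫ z, DU k i z ^ 2 ≤ ∑ i : Fin 5, ((∫ z in ext y R, DU k i z ^ 2) +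
      (C1 * A) ^ 2 * ρ ^ 2 * w + (C2 * e) ^ 2 * R ^ 2 * w) :=
    Finset.sum_le_sum fun i _ => hD2 i
  rw [Finset.sum_add_distrib, Finset.sum_add_distrib, Finset.sum_const, Finset.sum_const,
    Finset.card_univ, Fintype.card_fin, nsmul_eq_mul, nsmul_eq_mul] at hD3
  have hU6 : ∫ z, U k z ^ 6 ≤ (∫ z in ext y R, U k z ^ 6) + (C1 * A) ^ 6 * ρ ^ 2 * w +
        (C2 * e) ^ 6 * R ^ 2 * w := by
    have hint : Integrable (fun z => U k z ^ 6) volume := by
      have h := hU.integrable_norm_rpow (by norm_num) (by norm_num)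
      refine h.congr (Eventually.of_forall fun z => ?_)
      change ‖U k z‖ ^ (ENNReal.toReal 6) = U k z ^ 6
      have e1 : (ENNReal.toReal 6) = ((6 : ℕ) : ℝ) := by norm_num
      rw [e1, Real.rpow_natCast, Real.norm_eq_abs, Even.pow_abs (by decide)]
    have s1 := split (fun z => U k z ^ 6) hint (fun z => by positivity) x y ρ R
    have s2 := holder6 (U k) hU.1 x ρ hρ.le (Metric.closedBall x ρ) subset_rfl (C1 * A) hCA
      (full_le _ _ _ C1 A hC1.le k hk hUn)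
    have s3 := holder6 (U k) hU.1 y R hR.le (Metric.closedBall y R ∩ ext x ρ) inter_subset_left
      (C2 * e) hCe (restrict_le _ _ (ext x ρ) _ (isOpen_ext x ρ) inter_subset_right _ g1)
    linarith
  have n1 : 0 ≤ ∑ i, ∫ z, DU k i z ^ 2 :=
    Finset.sum_nonneg fun i _ => integral_nonneg fun z => by positivity
  have n2 : 0 ≤ ∫ z, V k z ^ 2 := integral_nonneg fun z => by positivity
  have n3 : 0 ≤ ∫ z, U k z ^ 6 := integral_nonneg fun z => by positivity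
  have hEn : En k ≤ (∑ i, ∫ z, DU k i z ^ 2) + (∫ z, V k z ^ 2) + ∫ z, U k z ^ 6 := by
    unfold En
    linarith
  have b1 : 6 * ((C1 * A) ^ 2 * ρ ^ 2 * w) + (C1 * A) ^ 6 * ρ ^ 2 * w ≤
      (6 * (C1 * A) ^ 2 * w + (C1 * A) ^ 6 * w + 6 * C2 ^ 2 * w + C2 ^ 6 * w + 1) * ρ ^ 2 := by
    have : 0 ≤ (6 * C2 ^ 2 * w + C2 ^ 6 * w + 1) * ρ ^ 2 := by positivity
    linarith
  have b2 : 6 * ((C2 * e) ^ 2 * R ^ 2 * w) + (C2 * e) ^ 6 * R ^ 2 * w ≤
      (6 * (C1 * A) ^ 2 * w + (C1 * A) ^ 6 * w + 6 * C2 ^ 2 * w + C2 ^ 6 * w + 1) * R ^ 2 *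
        (e ^ 2 + e ^ 6) := by
    have t1 : 0 ≤ (6 * (C1 * A) ^ 2 * w + (C1 * A) ^ 6 * w + 1) * R ^ 2 * (e ^ 2 + e ^ 6) := by
      positivity
    have t2 : 0 ≤ 6 * C2 ^ 2 * w * R ^ 2 * e ^ 6 := by positivity
    have t3 : 0 ≤ C2 ^ 6 * w * R ^ 2 * e ^ 2 := by positivity
    nlinarith
  push_cast at hD3
  linarith

end Pool.Agent.QWE
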