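import Pool.Agent.QWE.StA
import Pool.Agent.QWE.StB

set_option autoImplicit false

/-!
# QWE / En: energy conservation (helper74 for helper50)
-/

open MeasureTheory Filter Topology Set
open scoped ENNReal NNReal RealInnerProductSpace Pointwise

namespace Pool.Agent.QWE

namespace Enx

/-- the Hilbert space `L²(ℝ⁵)` -/
noncomputable abbrev L2 := Lp ℝ 2 (volume : Measure E)

theorem inner_eq (f g : L2) (a b : E → ℝ) (hf : (f : E → ℝ) =ᵐ[volume] a)
    (hg : (g : E → ℝ) =ᵐ[volume] b) : inner ℝ f g = ∫ x, a x * b x := by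
  rw [L2.inner_def]
  refine integral_congr_ae ?_
  filter_upwards [hf, hg] with x h1 h2
  rw [h1, h2]
  simp [mul_comm]

theorem holder_triple : ENNReal.HolderTriple (10 : ℝ≥0∞) (5 / 2) 2 := by
  constructor
  rw [ENNReal.inv_div (by simp) (by simp)]
  have h1 : (10 : ℝ≥0∞)⁻¹ = ENNReal.ofReal (1 / 10) := by
    rw [ENNReal.ofReal_div_of_pos (by norm_num)]
    simp
  have h2 : (2 : ℝ≥0∞) / 5 = ENNReal.ofReal (2 / 5) := by
    rw [ENNReal.ofReal_div_of_pos (by norm_num)]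
    simp
  have h3 : (2 : ℝ≥0∞)⁻¹ = ENNReal.ofReal (1 / 2) := by
    rw [ENNReal.ofReal_div_of_pos (by norm_num)]
    simp
  rw [h1, h2, h3, ← ENNReal.ofReal_add (by norm_num) (by norm_num)]
  norm_num

/-- fourth powers -/
theorem pow4 (h : E → ℝ) : eLpNorm (fun x => ‖h x‖ ^ 4) (5 / 2) volume =
    eLpNorm h 10 volume ^ 4 := by
  have h1 := eLpNorm_norm_rpow (p := (5 / 2 : ℝ≥0∞)) (μ := (volume : Measure E)) h
    (q := (4 : ℝ)) (by norm_num)
  have h2 : (5 / 2 : ℝ≥0∞) * ENNReal.ofReal 4 = 10 := by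
    have h3 : (5 / 2 : ℝ≥0∞) = ENNReal.ofReal (5 / 2) := by
      rw [ENNReal.ofReal_div_of_pos (by norm_num)]
      simp
    rw [h3, ← ENNReal.ofReal_mul (by norm_num)]
    norm_num
  rw [h2] at h1
  have h4 : (fun x => ‖h x‖ ^ (4 : ℝ)) = fun x => ‖h x‖ ^ 4 := by
    funext x
    exact_mod_cast Real.rpow_natCast ‖h x‖ 4
  rw [h4] at h1
  rw [h1]
  exact_mod_cast ENNReal.rpow_natCast (eLpNorm h 10 volume) 4

/-- Hoelder for a factor times a fourth power -/
theorem holder (d s G : E → ℝ) (c : ℝ) (hc : 0 ≤ c) (hd : AEStronglyMeasurable d volume)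
    (hs : AEStronglyMeasurable s volume) (hG : ∀ x, |G x| ≤ c * (|d x| * |s x| ^ 4)) :
    eLpNorm G 2 volume ≤ ENNReal.ofReal c * (eLpNorm d 10 volume * eLpNorm s 10 volume ^ 4) := by
  have h0 := holder_triple
  have h1 : eLpNorm G 2 volume ≤ eLpNorm (c • (d • fun x => ‖s x‖ ^ 4)) 2 volume := by
    refine eLpNorm_mono fun x => ?_
    have h2 := hG x
    show |G x| ≤ |c * (d x * |s x| ^ 4)|
    rw [abs_mul, abs_mul, abs_of_nonneg hc, abs_of_nonneg (by positivity : 0 ≤ |s x| ^ 4)]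
    exact h2
  refine h1.trans ?_
  rw [eLpNorm_const_smul]
  have h3 : ‖c‖ₑ = ENNReal.ofReal c := Real.enorm_eq_ofReal hc
  rw [h3]
  gcongr
  refine (eLpNorm_smul_le_mul_eLpNorm (p := 10) (q := 5 / 2) (r := 2) (hs.norm.pow 4) hd).trans ?_
  exact le_of_eq (congrArg (fun z => eLpNorm d 10 volume * z) (pow4 s))

theorem memLp_of (d s G : E → ℝ) (c : ℝ) (hc : 0 ≤ c) (hd : MemLp d 10 volume)
    (hs : MemLp s 10 volume) (hGm : AEStronglyMeasurable G volume)
    (hG : ∀ x, |G x| ≤ c * (|d x| * |s x| ^ 4)) : MemLp G 2 volume := by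
  refine ⟨hGm, lt_of_le_of_lt (holder d s G c hc hd.1 hs.1 hG) ?_⟩
  exact ENNReal.mul_lt_top ENNReal.ofReal_lt_top
    (ENNReal.mul_lt_top hd.2 (ENNReal.pow_lt_top hs.2))

/-- uniqueness by test functions -/
theorem ae_of_test (a b : E → ℝ) (ha : LocallyIntegrable a volume) (hb : LocallyIntegrable b volume)
    (h : ∀ φ : E → ℝ, IsTest φ → ∫ x, a x * φ x = ∫ x, b x * φ x) : a =ᵐ[volume] b := by
  have h1 : ∀ᵐ x ∂(volume : Measure E), (a x - b x) = 0 := by
    refine ae_eq_zero_of_integral_contDiff_smul_eq_zero (ha.sub hb) ?_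
    intro g hg hgs
    have h2 := h g ⟨hg, hgs⟩
    have hi : ∀ c : E → ℝ, LocallyIntegrable c volume → Integrable (fun x => c x * g x) volume := by
      intro c hc
      have h3 := hc.integrable_smul_left_of_hasCompactSupport hg.continuous hgs
      refine h3.congr (Eventually.of_forall fun x => ?_)
      simp [mul_comm]
    calc ∫ x, g x • (a x - b x) = ∫ x, (a x * g x - b x * g x) := by
          refine integral_congr_ae (Eventually.of_forall fun x => ?_)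
          simp only [smul_eq_mul]
          ring
      _ = 0 := by rw [integral_sub (hi a ha) (hi b hb), h2, sub_self]
  filter_upwards [h1] with x hx
  linarith

theorem test_pd (φ : E → ℝ) (h : IsTest φ) (i : Fin 5) : IsTest (pd i φ) := by
  refine ⟨?_, ?_⟩
  · have h1 : ContDiff ℝ ((⊤ : ℕ∞) : WithTop ℕ∞) (fderiv ℝ φ) :=
      h.1.fderiv_right (m := ((⊤ : ℕ∞) : WithTop ℕ∞)) (by simp)
    exact h1.clm_apply contDiff_const
  · refine h.2.mono' ?_
    intro x hx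
    by_contra hcon
    have h2 : fderiv ℝ φ x = 0 := by
      have h3 : φ =ᶠ[𝓝 x] 0 := notMem_tsupport_iff_eventuallyEq.1 hcon
      rw [h3.fderiv_eq]
      simp
    apply hx
    simp [pd, h2]

theorem test_memLp (φ : E → ℝ) (h : IsTest φ) (p : ℝ≥0∞) : MemLp φ p volume :=
  h.1.continuous.memLp_of_hasCompactSupport h.2

theorem memLp_locInt {p : ℝ≥0∞} (hp : 1 ≤ p) {a : E → ℝ} (h : MemLp a p volume) :
    LocallyIntegrable a volume := h.locallyIntegrable hp


/-! ### the fields as elements of `L²` -/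

theorem diff_le {p : ℝ≥0∞} (X : K → E → ℝ) (C : ℝ)
    (hC : ∀ k, eLpNorm (X k) p volume ≤ ENNReal.ofReal C * ‖k‖ₑ)
    (hlin : ∀ k k' : K, X (k + (-1 : ℝ) • k') =ᵐ[volume] fun x => X k x + (-1) * X k' x) (k k' : K) :
    eLpNorm (fun x => X k x - X k' x) p volume ≤ ENNReal.ofReal C * ‖k - k'‖ₑ := by
  have h1 : (fun x => X k x - X k' x) =ᵐ[volume] X (k + (-1 : ℝ) • k') := by
    filter_upwards [hlin k k'] with x hx
    rw [hx]
    ring
  have h2 : k + (-1 : ℝ) • k' = k - k' := by rw [neg_one_smul, sub_eq_add_neg]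
  rw [eLpNorm_congr_ae h1, h2]
  exact hC _

theorem toLp_cont {p : ℝ≥0∞} [Fact (1 ≤ p)] (X : K → E → ℝ) (hX : ∀ k, MemLp (X k) p volume) (C : ℝ)
    (hC0 : 0 ≤ C) (hC : ∀ k, eLpNorm (X k) p volume ≤ ENNReal.ofReal C * ‖k‖ₑ)
    (hlin : ∀ k k' : K, X (k + (-1 : ℝ) • k') =ᵐ[volume] fun x => X k x + (-1) * X k' x) :
    Continuous (fun k => (hX k).toLp (X k)) := by
  refine (LipschitzWith.of_dist_le_mul (K := ⟨C, hC0⟩) fun k k' => ?_).continuous
  rw [dist_eq_norm, dist_eq_norm, ← MemLp.toLp_sub, Lp.norm_toLp]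
  have h1 := diff_le X C hC hlin k k'
  have h2 : ENNReal.ofReal C * ‖k - k'‖ₑ = ENNReal.ofReal (C * ‖k - k'‖) := by
    rw [ENNReal.ofReal_mul hC0, ofReal_norm]
  rw [h2] at h1
  exact ENNReal.toReal_le_of_le_ofReal (by positivity) h1

/-- the constants of the field bounds -/
theorem lu_facts (hF : St_Fld) (hLn : St_Lin) : ∃ C : ℝ, 0 < C ∧
    (∀ k, MemLp (LU k) 2 volume) ∧
    (∀ k, eLpNorm (LU k) 2 volume ≤ ENNReal.ofReal C * ‖k‖ₑ) ∧
    ∀ k k' : K, LU (k + (-1 : ℝ) • k') =ᵐ[volume] fun x => LU k x + (-1) * LU k' x := by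
  obtain ⟨C, hC0, hC⟩ := hF
  refine ⟨5 * C, by positivity, ?_, ?_, ?_⟩
  · intro k
    exact memLp_finsetSum _ fun i _ => ((hC k).2.2.2.1 i i).1
  · intro k
    calc eLpNorm (LU k) 2 volume ≤ ∑ i : Fin 5, eLpNorm (DDU k i i) 2 volume := by
          have h1 : LU k = ∑ i : Fin 5, DDU k i i := by
            funext x
            rw [Finset.sum_apply]
            rfl
          rw [h1]
          exact eLpNorm_sum_le (fun i _ => ((hC k).2.2.2.1 i i).1.1) (by norm_num)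
      _ ≤ ∑ i : Fin 5, ENNReal.ofReal C * ‖k‖ₑ := Finset.sum_le_sum fun i _ => ((hC k).2.2.2.1 i i).2.2
      _ = ENNReal.ofReal (5 * C) * ‖k‖ₑ := by
          rw [Finset.sum_const, Finset.card_univ, Fintype.card_fin, ENNReal.ofReal_mul (by norm_num)]
          simp [mul_assoc]
  · intro k k'
    have h1 : ∀ᵐ x ∂(volume : Measure E), ∀ i : Fin 5, DDU (k + (-1 : ℝ) • k') i i x =
        DDU k i i x + (-1) * DDU k' i i x :=
      eventually_countable_forall.2 fun i => (hLn.1 (-1) k k').2.2.2.1 i i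
    filter_upwards [h1] with x hx
    show ∑ i, DDU (k + (-1 : ℝ) • k') i i x = (∑ i, DDU k i i x) + (-1) * ∑ i, DDU k' i i x
    rw [Finset.mul_sum, ← Finset.sum_add_distrib]
    exact Finset.sum_congr rfl fun i _ => hx i

/-- Nemytskii estimate -/
theorem Gbd (hF : St_Fld) (hLn : St_Lin) : ∃ C : ℝ, 0 < C ∧ ∀ (G : ℝ → ℝ → ℝ) (c : ℝ), 0 ≤ c →
    (∀ a b, |G a b| ≤ c * (|a - b| * (|a| + |b|) ^ 4)) → Continuous (Function.uncurry G) →
    ∀ k k' : K, MemLp (fun x => G (U k' x) (U k x)) 2 volume ∧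
      eLpNorm (fun x => G (U k' x) (U k x)) 2 volume ≤
        ENNReal.ofReal (c * ((C * ‖k' - k‖) * (C * (‖k'‖ + ‖k‖)) ^ 4)) := by
  obtain ⟨C, hC0, hC⟩ := hF
  refine ⟨C, hC0, ?_⟩
  intro G c hc hG hGc k k'
  have hU : ∀ k, MemLp (U k) 10 volume := fun k => (hC k).1.1
  have hd : MemLp (fun x => U k' x - U k x) 10 volume := (hU k').sub (hU k)
  have hs : MemLp (fun x => |U k' x| + |U k x|) 10 volume := (hU k').norm.add (hU k).norm
  have hGm : AEStronglyMeasurable (fun x => G (U k' x) (U k x)) volume :=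
    hGc.comp_aestronglyMeasurable ((hU k').1.prodMk (hU k).1)
  have hb : ∀ x, |G (U k' x) (U k x)| ≤ c * (|U k' x - U k x| * |(|U k' x| + |U k x|)| ^ 4) := by
    intro x
    rw [abs_of_nonneg (by positivity : 0 ≤ |U k' x| + |U k x|)]
    exact hG _ _
  refine ⟨memLp_of _ _ _ c hc hd hs hGm hb, ?_⟩
  refine (holder _ _ _ c hc hd.1 hs.1 hb).trans ?_
  have h1 : eLpNorm (fun x => U k' x - U k x) 10 volume ≤ ENNReal.ofReal (C * ‖k' - k‖) := by
    rw [ENNReal.ofReal_mul hC0.le, ofReal_norm]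
    exact diff_le U C (fun k => (hC k).1.2) (fun k k' => (hLn.1 (-1) k k').1) k' k
  have h2 : eLpNorm (fun x => |U k' x| + |U k x|) 10 volume ≤ ENNReal.ofReal (C * (‖k'‖ + ‖k‖)) := by
    calc eLpNorm (fun x => |U k' x| + |U k x|) 10 volume
        ≤ eLpNorm (fun x => ‖U k' x‖) 10 volume + eLpNorm (fun x => ‖U k x‖) 10 volume :=
          eLpNorm_add_le (hU k').1.norm (hU k).1.norm (by norm_num)
      _ = eLpNorm (U k') 10 volume + eLpNorm (U k) 10 volume := by rw [eLpNorm_norm, eLpNorm_norm]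
      _ ≤ ENNReal.ofReal C * ‖k'‖ₑ + ENNReal.ofReal C * ‖k‖ₑ := add_le_add (hC k').1.2 (hC k).1.2
      _ = ENNReal.ofReal (C * (‖k'‖ + ‖k‖)) := by
          rw [ENNReal.ofReal_mul hC0.le, ENNReal.ofReal_add (norm_nonneg _) (norm_nonneg _),
            ofReal_norm, ofReal_norm]
          ring
  calc ENNReal.ofReal c * (eLpNorm (fun x => U k' x - U k x) 10 volume *
        eLpNorm (fun x => |U k' x| + |U k x|) 10 volume ^ 4)
      ≤ ENNReal.ofReal c * (ENNReal.ofReal (C * ‖k' - k‖) *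
        ENNReal.ofReal (C * (‖k'‖ + ‖k‖)) ^ 4) := by gcongr
    _ = ENNReal.ofReal (c * ((C * ‖k' - k‖) * (C * (‖k'‖ + ‖k‖)) ^ 4)) := by
        rw [ENNReal.ofReal_mul hc, ENNReal.ofReal_mul (p := C * ‖k' - k‖) (by positivity),
          ENNReal.ofReal_pow (by positivity)]


/-- Green's formula for finite energy states -/
theorem green (hF : St_Fld) (hLn : St_Lin) (hFE : St_FEd) (k : K) (hk : FE k) :
    (∑ i, ∫ x, DU k i x * DV k i x) + ∫ x, V k x * LU k x = 0 := by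
  obtain ⟨Cl, hCl0, hLm, hLb, hLl⟩ := lu_facts hF hLn
  obtain ⟨Cf, hCf0, hCf⟩ := hFE
  obtain ⟨C, hC0, hC⟩ := hF
  obtain ⟨⟨f, g, hfg, hTh, -, hg⟩, -, -, -⟩ := hCf k hk
  have hgm : ∀ n, MemLp (g n) 2 volume := fun n => test_memLp _ (hfg n).2 2
  have hpm : ∀ n i, MemLp (pd i (g n)) 2 volume := fun n i =>
    test_memLp _ (test_pd _ (hfg n).2 i) 2
  -- convergence in `L²`
  have hgL : Tendsto (fun n => ((hgm n).toLp (g n) : L2)) atTop (𝓝 (hk.2.toLp (V k))) := by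
    rw [tendsto_iff_norm_sub_tendsto_zero]
    have h1 := (ENNReal.tendsto_toReal (by norm_num : (0 : ℝ≥0∞) ≠ ⊤)).comp hg
    simp only [ENNReal.toReal_zero] at h1
    refine h1.congr fun n => ?_
    rw [← MemLp.toLp_sub, Lp.norm_toLp]
    rfl
  have hpL : ∀ i, Tendsto (fun n => ((hpm n i).toLp (pd i (g n)) : L2)) atTop
      (𝓝 ((((hC k).2.2.2.2 i).1).toLp (DV k i))) := by
    intro i
    have h1 : Continuous (fun k : K => (((hC k).2.2.2.2 i).1).toLp (DV k i) : K → L2) :=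
      toLp_cont (fun k => DV k i) (fun k => ((hC k).2.2.2.2 i).1) C hC0.le
        (fun k => ((hC k).2.2.2.2 i).2.2) (fun k k' => (hLn.1 (-1) k k').2.2.2.2 i)
    have h2 := (h1.tendsto k).comp hTh
    refine h2.congr fun n => ?_
    refine (MemLp.toLp_eq_toLp_iff ((hC _).2.2.2.2 i).1 (hpm n i)).2 ?_
    exact (hLn.2.1 (f n) (g n) (hfg n).1 (hfg n).2).2.2.2.2 i
  -- the identity for test functions
  have hid : ∀ n, (∑ i, inner ℝ ((hk.1 i).toLp (DU k i) : L2) ((hpm n i).toLp (pd i (g n)))) +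
      inner ℝ ((hgm n).toLp (g n) : L2) ((hLm k).toLp (LU k)) = 0 := by
    intro n
    have h1 : ∀ i, inner ℝ ((hk.1 i).toLp (DU k i) : L2) ((hpm n i).toLp (pd i (g n))) =
        - ∫ x, DDU k i i x * g n x := by
      intro i
      rw [inner_eq _ _ _ _ (MemLp.coeFn_toLp _) (MemLp.coeFn_toLp _)]
      exact ((hC k).2.2.2.1 i i).2.1 (g n) (hfg n).2
    have h2 : inner ℝ ((hgm n).toLp (g n) : L2) ((hLm k).toLp (LU k)) =
        ∑ i, ∫ x, DDU k i i x * g n x := by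
      rw [inner_eq _ _ _ _ (MemLp.coeFn_toLp _) (MemLp.coeFn_toLp _), ← integral_finsetSum]
      · refine integral_congr_ae (Eventually.of_forall fun x => ?_)
        show g n x * (∑ i, DDU k i i x) = ∑ i, DDU k i i x * g n x
        rw [Finset.mul_sum]
        exact Finset.sum_congr rfl fun i _ => mul_comm _ _
      · intro i _
        exact ((hC k).2.2.2.1 i i).1.integrable_mul (hgm n)
    rw [h2, Finset.sum_congr rfl fun i _ => h1 i, Finset.sum_neg_distrib]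
    ring
  have hlim : Tendsto (fun n => (∑ i, inner ℝ ((hk.1 i).toLp (DU k i) : L2)
      ((hpm n i).toLp (pd i (g n)))) + inner ℝ ((hgm n).toLp (g n) : L2) ((hLm k).toLp (LU k)))
      atTop (𝓝 ((∑ i, inner ℝ ((hk.1 i).toLp (DU k i) : L2)
        ((((hC k).2.2.2.2 i).1).toLp (DV k i))) +
        inner ℝ (hk.2.toLp (V k) : L2) ((hLm k).toLp (LU k)))) := by
    refine Tendsto.add (tendsto_finsetSum _ fun i _ => ?_) ?_
    · exact Tendsto.inner tendsto_const_nhds (hpL i)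
    · exact Tendsto.inner hgL tendsto_const_nhds
  have h0 := tendsto_nhds_unique hlim (by
    refine Tendsto.congr (fun n => (hid n).symm) tendsto_const_nhds)
  rw [← h0]
  congr 1
  · refine Finset.sum_congr rfl fun i _ => ?_
    exact (inner_eq _ _ _ _ (MemLp.coeFn_toLp _) (MemLp.coeFn_toLp _)).symm
  · exact (inner_eq _ _ _ _ (MemLp.coeFn_toLp _) (MemLp.coeFn_toLp _)).symm


theorem memLp_pow5 {u : E → ℝ} (hu : MemLp u 10 volume) : MemLp (fun x => u x ^ 5) 2 volume := by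
  refine memLp_of u u _ 1 zero_le_one hu hu (hu.1.pow 5) fun x => ?_
  rw [one_mul, abs_pow, ← pow_succ']

theorem integrable_pow6 {u : E → ℝ} (hu : MemLp u 6 volume) : Integrable (fun x => u x ^ 6) volume := by
  have h1 : MemLp u ((6 : ℕ) : ℝ≥0∞) volume := by exact_mod_cast hu
  have h2 := h1.integrable_norm_pow (by norm_num)
  refine h2.congr (Eventually.of_forall fun x => ?_)
  show ‖u x‖ ^ 6 = u x ^ 6
  rw [Real.norm_eq_abs]
  exact Even.pow_abs (by decide) _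

theorem inner_int (w : ℝ → L2) (hw : Continuous w) (s t : ℝ) (g : L2) :
    inner ℝ (∫ r in s..t, w r) g = ∫ r in s..t, inner ℝ (w r) g := by
  have h1 := (innerSL ℝ g).intervalIntegral_comp_comm (hw.intervalIntegrable (μ := volume) s t)
  rw [real_inner_comm]
  have h2 : ∀ r, inner ℝ (w r) g = innerSL ℝ g (w r) := by
    intro r
    rw [innerSL_apply_apply, real_inner_comm]
  simp only [h2]
  rw [h1, innerSL_apply_apply]

theorem deriv_int (w : ℝ → L2) (hw : Continuous w) (v0 : L2) (t0 t : ℝ) :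
    HasDerivAt (fun t => v0 + ∫ r in t0..t, w r) (w t) t := by
  have h1 := (hw.integral_hasStrictDerivAt t0 t).hasDerivAt
  exact h1.const_add v0

/-- `(a⁶ - b⁶)/(a - b) - 6 b⁵` -/
noncomputable def Rf (a b : ℝ) : ℝ :=
  (a - b) * (a ^ 4 + 2 * a ^ 3 * b + 3 * a ^ 2 * b ^ 2 + 4 * a * b ^ 3 + 5 * b ^ 4)

theorem Rf_le (a b : ℝ) : |Rf a b| ≤ 15 * (|a - b| * (|a| + |b|) ^ 4) := by
  have ha := abs_nonneg a
  have hb := abs_nonneg b
  have h1 : |a ^ 4 + 2 * a ^ 3 * b + 3 * a ^ 2 * b ^ 2 + 4 * a * b ^ 3 + 5 * b ^ 4| ≤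
      15 * (|a| + |b|) ^ 4 := by
    calc |a ^ 4 + 2 * a ^ 3 * b + 3 * a ^ 2 * b ^ 2 + 4 * a * b ^ 3 + 5 * b ^ 4|
        ≤ |a ^ 4| + |2 * a ^ 3 * b| + |3 * a ^ 2 * b ^ 2| + |4 * a * b ^ 3| + |5 * b ^ 4| := by
          refine (abs_add_le _ _).trans (add_le_add ?_ le_rfl)
          refine (abs_add_le _ _).trans (add_le_add ?_ le_rfl)
          refine (abs_add_le _ _).trans (add_le_add ?_ le_rfl)
          exact abs_add_le _ _
      _ = |a| ^ 4 + 2 * |a| ^ 3 * |b| + 3 * |a| ^ 2 * |b| ^ 2 + 4 * |a| * |b| ^ 3 + 5 * |b| ^ 4 := by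
          simp only [abs_mul, abs_pow, Nat.abs_ofNat]
      _ ≤ 15 * (|a| + |b|) ^ 4 := by
          have h2 : 0 ≤ |a| ^ 3 * |b| := by positivity
          have h3 : 0 ≤ |a| ^ 2 * |b| ^ 2 := by positivity
          have h4 : 0 ≤ |a| * |b| ^ 3 := by positivity
          have h5 : 0 ≤ |a| ^ 4 := by positivity
          have h6 : 0 ≤ |b| ^ 4 := by positivity
          have h7 : (|a| + |b|) ^ 4 = |a| ^ 4 + 4 * (|a| ^ 3 * |b|) + 6 * (|a| ^ 2 * |b| ^ 2) +
            4 * (|a| * |b| ^ 3) + |b| ^ 4 := by ring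
          rw [h7]
          linarith
  unfold Rf
  rw [abs_mul]
  calc |a - b| * |a ^ 4 + 2 * a ^ 3 * b + 3 * a ^ 2 * b ^ 2 + 4 * a * b ^ 3 + 5 * b ^ 4|
      ≤ |a - b| * (15 * (|a| + |b|) ^ 4) := by gcongr
    _ = 15 * (|a - b| * (|a| + |b|) ^ 4) := by ring

theorem Rf_cont : Continuous (Function.uncurry Rf) := by
  unfold Rf Function.uncurry
  fun_prop

theorem five_le (a b : ℝ) : |a ^ 5 - b ^ 5| ≤ 5 * (|a - b| * (|a| + |b|) ^ 4) := by
  have ha := abs_nonneg a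
  have hb := abs_nonneg b
  have h1 : |a ^ 4 + a ^ 3 * b + a ^ 2 * b ^ 2 + a * b ^ 3 + b ^ 4| ≤ 5 * (|a| + |b|) ^ 4 := by
    calc |a ^ 4 + a ^ 3 * b + a ^ 2 * b ^ 2 + a * b ^ 3 + b ^ 4|
        ≤ |a ^ 4| + |a ^ 3 * b| + |a ^ 2 * b ^ 2| + |a * b ^ 3| + |b ^ 4| := by
          refine (abs_add_le _ _).trans (add_le_add ?_ le_rfl)
          refine (abs_add_le _ _).trans (add_le_add ?_ le_rfl)
          refine (abs_add_le _ _).trans (add_le_add ?_ le_rfl)
          exact abs_add_le _ _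
      _ = |a| ^ 4 + |a| ^ 3 * |b| + |a| ^ 2 * |b| ^ 2 + |a| * |b| ^ 3 + |b| ^ 4 := by
          simp only [abs_mul, abs_pow]
      _ ≤ 5 * (|a| + |b|) ^ 4 := by
          have h2 : 0 ≤ |a| ^ 3 * |b| := by positivity
          have h3 : 0 ≤ |a| ^ 2 * |b| ^ 2 := by positivity
          have h4 : 0 ≤ |a| * |b| ^ 3 := by positivity
          have h5 : 0 ≤ |a| ^ 4 := by positivity
          have h6 : 0 ≤ |b| ^ 4 := by positivity
          have h7 : (|a| + |b|) ^ 4 = |a| ^ 4 + 4 * (|a| ^ 3 * |b|) + 6 * (|a| ^ 2 * |b| ^ 2) +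
            4 * (|a| * |b| ^ 3) + |b| ^ 4 := by ring
          rw [h7]
          linarith
  have h2 : a ^ 5 - b ^ 5 = (a - b) * (a ^ 4 + a ^ 3 * b + a ^ 2 * b ^ 2 + a * b ^ 3 + b ^ 4) := by
    ring
  rw [h2, abs_mul]
  calc |a - b| * |a ^ 4 + a ^ 3 * b + a ^ 2 * b ^ 2 + a * b ^ 3 + b ^ 4|
      ≤ |a - b| * (5 * (|a| + |b|) ^ 4) := by gcongr
    _ = 5 * (|a - b| * (|a| + |b|) ^ 4) := by ring

/-- the limit of the Nemytskii bound -/
theorem bound_lim (C c : ℝ) (k : K) {α : Type} (l : Filter α) (f : α → K) (hf : Tendsto f l (𝓝 k)) :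
    Tendsto (fun a => c * ((C * ‖f a - k‖) * (C * (‖f a‖ + ‖k‖)) ^ 4)) l (𝓝 0) := by
  have h1 : Tendsto (fun a => ‖f a - k‖) l (𝓝 0) := tendsto_iff_norm_sub_tendsto_zero.1 hf
  have h2 : Tendsto (fun a => ‖f a‖) l (𝓝 ‖k‖) := hf.norm
  have h3 := ((h1.const_mul C).mul (((h2.add_const ‖k‖).const_mul C).pow 4)).const_mul c
  simpa using h3

/-- continuity of the fifth power -/
theorem Q_cont (hF : St_Fld) (hLn : St_Lin) (hU : ∀ k, MemLp (U k) 10 volume) :
    Continuous (fun k : K => ((memLp_pow5 (hU k)).toLp (fun x => U k x ^ 5) : L2)) := by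
  obtain ⟨C, hC0, hC⟩ := Gbd hF hLn
  rw [continuous_iff_continuousAt]
  intro k
  show Tendsto _ (𝓝 k) _
  rw [tendsto_iff_norm_sub_tendsto_zero]
  have hb := bound_lim C 5 k (𝓝 k) id tendsto_id
  refine squeeze_zero (fun _ => norm_nonneg _) (fun k' => ?_) hb
  rw [← MemLp.toLp_sub, Lp.norm_toLp]
  have h1 := (hC (fun a b => a ^ 5 - b ^ 5) 5 (by norm_num) five_le (by
    unfold Function.uncurry; fun_prop) k k').2
  exact ENNReal.toReal_le_of_le_ofReal (by positivity) h1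


/-- an integrated equation between weak formulations gives an equality almost everywhere -/
theorem repr_ae (X : ℝ → E → ℝ) (w : ℝ → L2) (W : ℝ → E → ℝ) (hw : Continuous w) (v0 : L2)
    (a b t0 t : ℝ) (ht0 : t0 ∈ Icc a b) (ht : t ∈ Icc a b)
    (hwW : ∀ r ∈ Icc a b, (w r : E → ℝ) =ᵐ[volume] W r) (hX : LocallyIntegrable (X t) volume)
    (hv0 : ∀ φ, IsTest φ → ∫ x, (v0 : E → ℝ) x * φ x = ∫ x, X t0 x * φ x)
    (hE : ∀ φ, IsTest φ → (∫ x, X t x * φ x) - ∫ x, X t0 x * φ x = ∫ r in t0..t, ∫ x, W r x * φ x) :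
    ((v0 + ∫ r in t0..t, w r : L2) : E → ℝ) =ᵐ[volume] X t := by
  refine ae_of_test _ _ (memLp_locInt (p := 2) (by norm_num) (Lp.memLp _)) hX fun φ hφ => ?_
  have hφm := test_memLp φ hφ 2
  have h1 : ∫ x, ((v0 + ∫ r in t0..t, w r : L2) : E → ℝ) x * φ x =
      inner ℝ (v0 + ∫ r in t0..t, w r : L2) (hφm.toLp φ) :=
    (inner_eq _ _ _ _ (ae_eq_refl _) (MemLp.coeFn_toLp _)).symm
  have h2 : inner ℝ v0 (hφm.toLp φ) = ∫ x, X t0 x * φ x := by
    rw [inner_eq _ _ _ _ (ae_eq_refl _) (MemLp.coeFn_toLp _)]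
    exact hv0 φ hφ
  have h3 : ∫ r in t0..t, inner ℝ (w r) (hφm.toLp φ) = ∫ r in t0..t, ∫ x, W r x * φ x := by
    refine intervalIntegral.integral_congr fun r hr => ?_
    have hr' : r ∈ Icc a b := (ordConnected_Icc.uIcc_subset ht0 ht) hr
    exact inner_eq _ _ _ _ (hwW r hr') (MemLp.coeFn_toLp _)
  rw [h1, inner_add_left, inner_int w hw, h2, h3, ← hE φ hφ]
  ring

theorem main_int (hF : St_Fld) (hLn : St_Lin) (hFE : St_FEd) (κ : ℝ → K) (hκ : Continuous κ)
    (a b t0 : ℝ) (ht0 : t0 ∈ Icc a b) (h0 : FE (κ t0))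
    (hW1 : ∀ s ∈ Icc a b, ∀ t ∈ Icc a b, ∀ φ, IsTest φ →
      (∫ x, U (κ t) x * φ x) - (∫ x, U (κ s) x * φ x) = ∫ r in s..t, ∫ x, V (κ r) x * φ x)
    (hW2 : ∀ s ∈ Icc a b, ∀ t ∈ Icc a b, ∀ φ, IsTest φ →
      (∫ x, V (κ t) x * φ x) - (∫ x, V (κ s) x * φ x) =
        ∫ r in s..t, ∫ x, (LU (κ r) x - U (κ r) x ^ 5) * φ x) :
    ∀ t ∈ Icc a b, FE (κ t) ∧ MemLp (U (κ t)) 6 volume ∧ En (κ t) = En (κ t0) := by
  obtain ⟨Cl, hCl0, hLm, hLb, hLl⟩ := lu_facts hF hLn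
  obtain ⟨CG, hCG0, hCG⟩ := Gbd hF hLn
  have hgreen := green hF hLn hFE
  obtain ⟨C, hC0, hC⟩ := id hF
  have hU : ∀ k, MemLp (U k) 10 volume := fun k => (hC k).1.1
  have hQc := Q_cont hF hLn hU
  obtain ⟨Cf, hCf0, hCf⟩ := hFE
  -- the continuous curves in `L²`
  let LUc : K → L2 := fun k => (hLm k).toLp (LU k)
  have hLUc : Continuous LUc := toLp_cont LU hLm Cl hCl0.le hLb hLl
  let Qc : K → L2 := fun k => (memLp_pow5 (hU k)).toLp (fun x => U k x ^ 5)
  have hQc : Continuous Qc := hQc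
  let zc : Fin 5 → K → L2 := fun i k => (((hC k).2.2.2.2 i).1).toLp (DV k i)
  have hzc : ∀ i, Continuous (zc i) := fun i =>
    toLp_cont (fun k => DV k i) (fun k => ((hC k).2.2.2.2 i).1) C hC0.le
      (fun k => ((hC k).2.2.2.2 i).2.2) (fun k k' => (hLn.1 (-1) k k').2.2.2.2 i)
  let w : ℝ → L2 := fun r => LUc (κ r) - Qc (κ r)
  have hw : Continuous w := (hLUc.comp hκ).sub (hQc.comp hκ)
  have hwW : ∀ r, (w r : E → ℝ) =ᵐ[volume] fun x => LU (κ r) x - U (κ r) x ^ 5 := by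
    intro r
    filter_upwards [Lp.coeFn_sub (LUc (κ r)) (Qc (κ r)), (hLm (κ r)).coeFn_toLp,
      (memLp_pow5 (hU (κ r))).coeFn_toLp] with x h1 h2 h3
    rw [h1, Pi.sub_apply]
    show (LUc (κ r) : E → ℝ) x - (Qc (κ r) : E → ℝ) x = _
    rw [show (LUc (κ r) : E → ℝ) x = LU (κ r) x from h2,
      show (Qc (κ r) : E → ℝ) x = U (κ r) x ^ 5 from h3]
  let z : Fin 5 → ℝ → L2 := fun i r => zc i (κ r)
  have hz : ∀ i, Continuous (z i) := fun i => (hzc i).comp hκ
  have hzW : ∀ i r, (z i r : E → ℝ) =ᵐ[volume] DV (κ r) i := fun i r =>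
    (((hC (κ r)).2.2.2.2 i).1).coeFn_toLp
  let v0 : L2 := h0.2.toLp (V (κ t0))
  let d0 : Fin 5 → L2 := fun i => (h0.1 i).toLp (DU (κ t0) i)
  let v : ℝ → L2 := fun t => v0 + ∫ r in t0..t, w r
  let d : Fin 5 → ℝ → L2 := fun i t => d0 i + ∫ r in t0..t, z i r
  have hvd : ∀ t, HasDerivAt v (w t) t := fun t => deriv_int w hw v0 t0 t
  have hdd : ∀ i t, HasDerivAt (d i) (z i t) t := fun i t => deriv_int (z i) (hz i) (d0 i) t0 t
  have hvc : Continuous v := continuous_iff_continuousAt.2 fun t => (hvd t).continuousAt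
  -- `V` and `DU` are given by these curves
  have hvV : ∀ t ∈ Icc a b, (v t : E → ℝ) =ᵐ[volume] V (κ t) := by
    intro t ht
    refine repr_ae (fun t => V (κ t)) w _ hw v0 a b t0 t ht0 ht (fun r _ => hwW r)
      (memLp_locInt (p := 10 / 3) ?_ (hC (κ t)).2.1.1.1) (fun φ hφ => ?_)
      (fun φ hφ => hW2 t0 ht0 t ht φ hφ)
    · rw [ENNReal.le_div_iff_mul_le (by simp) (by simp)]
      norm_num
    · refine integral_congr_ae ?_
      filter_upwards [h0.2.coeFn_toLp] with x hx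
      rw [show (v0 : E → ℝ) x = V (κ t0) x from hx]
  have hdD : ∀ i, ∀ t ∈ Icc a b, (d i t : E → ℝ) =ᵐ[volume] DU (κ t) i := by
    intro i t ht
    refine repr_ae (fun t => DU (κ t) i) (z i) _ (hz i) (d0 i) a b t0 t ht0 ht (fun r _ => hzW i r)
      (memLp_locInt (p := 10 / 3) ?_ ((hC (κ t)).2.2.1 i).1) (fun φ hφ => ?_) (fun φ hφ => ?_)
    · rw [ENNReal.le_div_iff_mul_le (by simp) (by simp)]
      norm_num
    · refine integral_congr_ae ?_
      filter_upwards [(h0.1 i).coeFn_toLp] with x hx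
      rw [show (d0 i : E → ℝ) x = DU (κ t0) i x from hx]
    · have h1 := hW1 t0 ht0 t ht (pd i φ) (test_pd φ hφ i)
      have h2 := ((hC (κ t)).2.2.1 i).2.1 φ hφ
      have h3 := ((hC (κ t0)).2.2.1 i).2.1 φ hφ
      have h4 : ∀ r, ∫ x, V (κ r) x * pd i φ x = - ∫ x, DV (κ r) i x * φ x := fun r =>
        ((hC (κ r)).2.2.2.2 i).2.1 φ hφ
      simp only [h4] at h1
      rw [h2, h3, intervalIntegral.integral_neg] at h1
      linarith
  have hFEt : ∀ t ∈ Icc a b, FE (κ t) := by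
    intro t ht
    exact ⟨fun i => (Lp.memLp (d i t)).ae_eq (hdD i t ht), (Lp.memLp (v t)).ae_eq (hvV t ht)⟩
  have hU6 : ∀ t ∈ Icc a b, MemLp (U (κ t)) 6 volume := fun t ht => (hCf (κ t) (hFEt t ht)).2.2.1
  -- the difference of the position fields
  let y : ℝ → L2 := fun t => 0 + ∫ r in t0..t, v r
  have hyd : ∀ t, HasDerivAt y (v t) t := fun t => deriv_int v hvc 0 t0 t
  have hyU : ∀ t ∈ Icc a b, (y t : E → ℝ) =ᵐ[volume] fun x => U (κ t) x - U (κ t0) x := by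
    intro t ht
    have hi : ∀ k : K, ∀ φ, IsTest φ → Integrable (fun x => U k x * φ x) volume := by
      intro k φ hφ
      have h1 := (memLp_locInt (p := 10) (by norm_num)
        (hU k)).integrable_smul_left_of_hasCompactSupport hφ.1.continuous hφ.2
      refine h1.congr (Eventually.of_forall fun x => ?_)
      simp [mul_comm]
    refine repr_ae (fun t x => U (κ t) x - U (κ t0) x) v (fun r => V (κ r)) hvc 0 a b t0 t ht0 ht
      (fun r hr => hvV r hr) ?_ (fun φ hφ => ?_) (fun φ hφ => ?_)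
    · exact (memLp_locInt (p := 10) (by norm_num) (hU (κ t))).sub
        (memLp_locInt (p := 10) (by norm_num) (hU (κ t0)))
    · have h1 : ∫ x, ((0 : L2) : E → ℝ) x * φ x = 0 := by
        rw [← integral_zero E ℝ]
        refine integral_congr_ae ?_
        filter_upwards [Lp.coeFn_zero ℝ 2 (volume : Measure E)] with x hx
        rw [hx]
        simp
      rw [h1]
      simp
    · have h1 := hW1 t0 ht0 t ht φ hφ
      have h2 : ∫ x, (U (κ t) x - U (κ t0) x) * φ x =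
          (∫ x, U (κ t) x * φ x) - ∫ x, U (κ t0) x * φ x := by
        rw [← integral_sub (hi _ φ hφ) (hi _ φ hφ)]
        refine integral_congr_ae (Eventually.of_forall fun x => ?_)
        ring
      have h3 : ∫ x, (U (κ t0) x - U (κ t0) x) * φ x = 0 := by simp
      simp only [h2, h3, sub_zero]
      exact h1
  -- the sixth power
  let F : ℝ → ℝ := fun t => ∫ x, U (κ t) x ^ 6
  have hRm : ∀ k k' : K, MemLp (fun x => Rf (U k' x) (U k x)) 2 volume := fun k k' =>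
    (hCG Rf 15 (by norm_num) Rf_le Rf_cont k k').1
  let Rc : K → K → L2 := fun k k' => (hRm k k').toLp (fun x => Rf (U k' x) (U k x))
  have hRn : ∀ k k', ‖Rc k k'‖ ≤ 15 * ((CG * ‖k' - k‖) * (CG * (‖k'‖ + ‖k‖)) ^ 4) := by
    intro k k'
    show ‖(hRm k k').toLp _‖ ≤ _
    rw [Lp.norm_toLp]
    exact ENNReal.toReal_le_of_le_ofReal (by positivity)
      (hCG Rf 15 (by norm_num) Rf_le Rf_cont k k').2
  have hFdiff : ∀ s ∈ Icc a b, ∀ t ∈ Icc a b, F t - F s =
      inner ℝ (y t - y s) ((6 : ℝ) • Qc (κ s) + Rc (κ s) (κ t)) := by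
    intro s hs t ht
    have h1 : F t - F s = ∫ x, (U (κ t) x ^ 6 - U (κ s) x ^ 6) :=
      (integral_sub (integrable_pow6 (hU6 t ht)) (integrable_pow6 (hU6 s hs))).symm
    rw [h1, inner_eq _ _ (fun x => U (κ t) x - U (κ s) x)
      (fun x => 6 * U (κ s) x ^ 5 + Rf (U (κ t) x) (U (κ s) x))]
    · refine integral_congr_ae (Eventually.of_forall fun x => ?_)
      simp only [Rf]
      ring
    · filter_upwards [Lp.coeFn_sub (y t) (y s), hyU t ht, hyU s hs] with x h2 h3 h4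
      rw [h2, Pi.sub_apply, h3, h4]
      ring
    · filter_upwards [Lp.coeFn_add ((6 : ℝ) • Qc (κ s)) (Rc (κ s) (κ t)),
        Lp.coeFn_smul (6 : ℝ) (Qc (κ s)), (memLp_pow5 (hU (κ s))).coeFn_toLp,
        (hRm (κ s) (κ t)).coeFn_toLp] with x h2 h3 h4 h5
      rw [h2, Pi.add_apply, h3, Pi.smul_apply, smul_eq_mul]
      rw [show (Qc (κ s) : E → ℝ) x = U (κ s) x ^ 5 from h4,
        show (Rc (κ s) (κ t) : E → ℝ) x = Rf (U (κ t) x) (U (κ s) x) from h5]
  have hFd : ∀ s ∈ Icc a b, HasDerivWithinAt F (6 * inner ℝ (v s) (Qc (κ s))) (Icc a b) s := by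
    intro s hs
    rw [hasDerivWithinAt_iff_tendsto_slope]
    have h1 : Tendsto (slope y s) (𝓝[Icc a b \ {s}] s) (𝓝 (v s)) :=
      (hasDerivWithinAt_iff_tendsto_slope.1 (hyd s).hasDerivWithinAt)
    have hκs : Tendsto κ (𝓝[Icc a b \ {s}] s) (𝓝 (κ s)) :=
      (hκ.tendsto s).mono_left nhdsWithin_le_nhds
    have h2 : Tendsto (fun t => Rc (κ s) (κ t)) (𝓝[Icc a b \ {s}] s) (𝓝 0) := by
      rw [tendsto_zero_iff_norm_tendsto_zero]
      exact squeeze_zero (fun _ => norm_nonneg _) (fun t => hRn (κ s) (κ t))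
        (bound_lim CG 15 (κ s) _ κ hκs)
    have h3 : Tendsto (fun t => inner ℝ (slope y s t) ((6 : ℝ) • Qc (κ s) + Rc (κ s) (κ t)))
        (𝓝[Icc a b \ {s}] s) (𝓝 (inner ℝ (v s) ((6 : ℝ) • Qc (κ s) + 0))) :=
      Tendsto.inner h1 (tendsto_const_nhds.add h2)
    rw [add_zero, real_inner_smul_right] at h3
    refine h3.congr' ?_
    filter_upwards [self_mem_nhdsWithin] with t ht
    rw [slope_def_module, slope_def_field, hFdiff s hs t ht.1, real_inner_smul_left]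
    ring
  -- the energy
  have hEn : ∀ t ∈ Icc a b, En (κ t) = (∑ i, ‖d i t‖ ^ 2) / 2 + ‖v t‖ ^ 2 / 2 + F t / 6 := by
    intro t ht
    have h1 : ∀ i, ‖d i t‖ ^ 2 = ∫ x, DU (κ t) i x ^ 2 := by
      intro i
      rw [← real_inner_self_eq_norm_sq, inner_eq _ _ _ _ (hdD i t ht) (hdD i t ht)]
      exact integral_congr_ae (Eventually.of_forall fun x => by ring)
    have h2 : ‖v t‖ ^ 2 = ∫ x, V (κ t) x ^ 2 := by
      rw [← real_inner_self_eq_norm_sq, inner_eq _ _ _ _ (hvV t ht) (hvV t ht)]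
      exact integral_congr_ae (Eventually.of_forall fun x => by ring)
    unfold En
    rw [h2, Finset.sum_congr rfl fun i _ => h1 i]
  have hder : ∀ s ∈ Icc a b, HasDerivWithinAt
      (fun t => (∑ i, ‖d i t‖ ^ 2) / 2 + ‖v t‖ ^ 2 / 2 + F t / 6) 0 (Icc a b) s := by
    intro s hs
    have h1 : HasDerivAt (fun t => ∑ i, ‖d i t‖ ^ 2) (∑ i, 2 * inner ℝ (d i s) (z i s)) s :=
      HasDerivAt.fun_sum fun i _ => (hdd i s).norm_sq
    have h2 : HasDerivAt (fun t => ‖v t‖ ^ 2) (2 * inner ℝ (v s) (w s)) s := (hvd s).norm_sq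
    have h3 := ((h1.hasDerivWithinAt (s := Icc a b)).div_const 2).add
      ((h2.hasDerivWithinAt (s := Icc a b)).div_const 2)
    have h4 := h3.add ((hFd s hs).div_const 6)
    refine h4.congr_deriv ?_
    have h5 := hgreen (κ s) (hFEt s hs)
    have h6 : ∀ i, inner ℝ (d i s) (z i s) = ∫ x, DU (κ s) i x * DV (κ s) i x := fun i =>
      inner_eq _ _ _ _ (hdD i s hs) (hzW i s)
    have h7 : inner ℝ (v s) (LUc (κ s)) = ∫ x, V (κ s) x * LU (κ s) x :=
      inner_eq _ _ _ _ (hvV s hs) (hLm (κ s)).coeFn_toLp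
    have h8 : inner ℝ (v s) (w s) = inner ℝ (v s) (LUc (κ s)) - inner ℝ (v s) (Qc (κ s)) :=
      inner_sub_right _ _ _
    rw [← h7, ← Finset.sum_congr rfl fun i _ => h6 i] at h5
    rw [h8, ← Finset.mul_sum]
    linarith
  have hconst : ∀ t ∈ Icc a b, (fun t => (∑ i, ‖d i t‖ ^ 2) / 2 + ‖v t‖ ^ 2 / 2 + F t / 6) t =
      (fun t => (∑ i, ‖d i t‖ ^ 2) / 2 + ‖v t‖ ^ 2 / 2 + F t / 6) a := by
    refine constant_of_has_deriv_right_zero (fun s hs => (hder s hs).continuousWithinAt) ?_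
    intro s hs
    exact (hder s (Ico_subset_Icc_self hs)).mono_of_mem_nhdsWithin (Icc_mem_nhdsGE_of_mem hs)
  intro t ht
  refine ⟨hFEt t ht, hU6 t ht, ?_⟩
  rw [hEn t ht, hEn t0 ht0]
  exact (hconst t ht).trans (hconst t0 ht0).symm

end Enx

open Enx

theorem thm_En (hF : St_Fld) (hLn : St_Lin) (hWE : St_WEq) (hFE : St_FEd) : St_En := by
  intro I k t0 hI ht0 h0 t ht
  have hW := hWE I k hI
  have hsub : uIcc t0 t ⊆ I := hI.1.uIcc_subset ht0 ht
  have hab : min t0 t ≤ max t0 t := min_le_max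
  have hsub' : Icc (min t0 t) (max t0 t) ⊆ I := hsub
  let κ : ℝ → K := IccExtend hab (fun x : Icc (min t0 t) (max t0 t) => k x)
  have hκ : Continuous κ := by
    refine Continuous.Icc_extend' ?_
    exact continuousOn_iff_continuous_domRestrict.1 (hI.2.1.mono hsub')
  have hκk : ∀ r ∈ Icc (min t0 t) (max t0 t), κ r = k r := fun r hr =>
    IccExtend_of_mem hab _ hr
  have m0 : t0 ∈ Icc (min t0 t) (max t0 t) := ⟨min_le_left _ _, le_max_left _ _⟩
  have mt : t ∈ Icc (min t0 t) (max t0 t) := ⟨min_le_right _ _, le_max_right _ _⟩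
  have h1 := main_int hF hLn hFE κ hκ (min t0 t) (max t0 t) t0 m0 (by rw [hκk _ m0]; exact h0)
    (fun s hs r hr φ hφ => by
      rw [hκk s hs, hκk r hr, (hW s (hsub' hs) r (hsub' hr) φ hφ).1]
      refine intervalIntegral.integral_congr fun q hq => ?_
      show ∫ x, V (k q) x * φ x = ∫ x, V (κ q) x * φ x
      rw [hκk q ((ordConnected_Icc.uIcc_subset hs hr) hq)])
    (fun s hs r hr φ hφ => by
      rw [hκk s hs, hκk r hr, (hW s (hsub' hs) r (hsub' hr) φ hφ).2]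
      refine intervalIntegral.integral_congr fun q hq => ?_
      show ∫ x, (LU (k q) x - U (k q) x ^ 5) * φ x = ∫ x, (LU (κ q) x - U (κ q) x ^ 5) * φ x
      rw [hκk q ((ordConnected_Icc.uIcc_subset hs hr) hq)]) t mt
  rw [hκk _ m0, hκk _ mt] at h1
  exact h1

end Pool.Agent.QWE
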