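import Pool.Agent.QWE.StA

set_option autoImplicit false

/-!
# QWE / ExB: exterior norms
-/

open MeasureTheory Filter Topology Set
open scoped ENNReal NNReal RealInnerProductSpace Pointwise

namespace Pool.Agent.QWE

namespace ExBx

theorem isSch_of_test {φ : E → ℝ} (h : IsTest φ) : IsSch φ :=
  ⟨h.2.toSchwartzMap h.1, fun _ => rfl⟩

theorem TS_mono {Ω Ω' : Set E} (h : Ω ⊆ Ω') : TS Ω ≤ TS Ω' := by
  refine Submodule.topologicalClosure_mono (Submodule.span_mono ?_)
  rintro w ⟨φ, h1, h2, h3⟩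
  exact ⟨φ, h1, h2.trans h, h3⟩

theorem gen_mem {Ω : Set E} {φ : E → ℝ} (h1 : IsTest φ) (h2 : tsupport φ ⊆ Ω) :
    Rk φ ∈ TS Ω ∧ dRk φ ∈ TS Ω :=
  ⟨Submodule.le_topologicalClosure _ (Submodule.subset_span ⟨φ, h1, h2, Or.inl rfl⟩),
    Submodule.le_topologicalClosure _ (Submodule.subset_span ⟨φ, h1, h2, Or.inr rfl⟩)⟩

theorem van_iff {Ω : Set E} {k : K} : Van Ω k ↔ ∀ φ, IsTest φ → tsupport φ ⊆ Ω →
    inner ℝ k (Rk φ) = 0 ∧ inner ℝ k (dRk φ) = 0 := by
  constructor
  · intro h φ h1 h2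
    have h3 := gen_mem h1 h2
    exact ⟨Submodule.inner_left_of_mem_orthogonal h3.1 h,
      Submodule.inner_left_of_mem_orthogonal h3.2 h⟩
  · intro h
    unfold Van TS
    rw [Submodule.orthogonal_closure, Submodule.mem_orthogonal']
    intro u hu
    induction hu using Submodule.span_induction with
    | mem x hx =>
      obtain ⟨φ, h1, h2, h3 | h3⟩ := hx
      · rw [h3]; exact (h φ h1 h2).1
      · rw [h3]; exact (h φ h1 h2).2
    | zero => exact inner_zero_right _
    | add x y _ _ hx hy => rw [inner_add_right, hx, hy, add_zero]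
    | smul c x _ hx => rw [inner_smul_right, hx, mul_zero]

theorem van_iff_pr {Ω : Set E} {k : K} : Van Ω k ↔ pr Ω k = 0 := by
  unfold Van pr
  rw [Submodule.starProjection_apply_eq_zero_iff]

theorem pr_of_subset {Ω Ω' : Set E} (h : Ω ⊆ Ω') (k : K) : pr Ω (pr Ω' k) = pr Ω k := by
  have h1 := Submodule.starProjection_comp_starProjection_of_le (TS_mono h)
  exact congrArg (fun T : K →L[ℝ] K => T k) h1

/-- the projections converge along increasing open sets -/
theorem tendsto_pr {ι : Type} [Preorder ι] [Nonempty ι] [IsDirectedOrder ι] (Ω : ι → Set E) (k : K)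
    (hm : Monotone Ω) (ho : ∀ n, IsOpen (Ω n)) :
    Tendsto (fun n => pr (Ω n) k) atTop (𝓝 (pr (⋃ n, Ω n) k)) := by
  have hcl : (⨆ n, TS (Ω n)).topologicalClosure = TS (⋃ n, Ω n) := by
    apply le_antisymm
    · refine Submodule.topologicalClosure_minimal _ (iSup_le fun n => TS_mono (subset_iUnion Ω n)) ?_
      exact Submodule.isClosed_topologicalClosure _
    · refine Submodule.topologicalClosure_minimal _ ?_ (Submodule.isClosed_topologicalClosure _)
      rw [Submodule.span_le]
      rintro w ⟨φ, h1, h2, h3⟩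
      obtain ⟨n, hn⟩ := h1.2.isCompact.elim_directed_cover Ω ho h2 hm.directed_le
      have h4 := gen_mem h1 hn
      refine Submodule.le_topologicalClosure _ (Submodule.mem_iSup_of_mem n ?_)
      rcases h3 with h3 | h3
      · rw [h3]; exact h4.1
      · rw [h3]; exact h4.2
  have : (⨆ n, TS (Ω n)).topologicalClosure.HasOrthogonalProjection := by
    rw [hcl]; infer_instance
  have h := Submodule.starProjection_tendsto_closure_iSup (fun n => TS (Ω n))
    (fun a b hab => TS_mono (hm hab)) k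
  have e : (⨆ n, TS (Ω n)).topologicalClosure.starProjection k = pr (⋃ n, Ω n) k := by
    unfold pr
    congr 1
    simp only [hcl]
  rw [e] at h
  exact h

theorem van_field (hU : St_UTest) (hF : St_Fld) {Ω : Set E} (hΩ : IsOpen Ω) (k : K) :
    Van Ω k ↔ (∀ᵐ x, x ∈ Ω → U k x = 0) ∧ ∀ᵐ x, x ∈ Ω → V k x = 0 := by
  obtain ⟨C, -, hC⟩ := hF
  obtain ⟨-, hloc, hint⟩ := hU
  have hV : IsV k (V k) := (hC k).2.1.1
  have hVloc : LocallyIntegrable (V k) volume :=
    hV.1.locallyIntegrable (by norm_num [ENNReal.le_div_iff_mul_le])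
  rw [van_iff]
  constructor
  · intro h
    constructor
    · refine hΩ.ae_eq_zero_of_integral_contDiff_smul_eq_zero ((hloc k).locallyIntegrableOn _) ?_
      intro g g1 g2 g3
      have h1 := hint k g (isSch_of_test ⟨g1, g2⟩)
      rw [(h g ⟨g1, g2⟩ g3).1] at h1
      rw [← h1]
      exact integral_congr_ae (Eventually.of_forall fun x => by simp [mul_comm])
    · refine hΩ.ae_eq_zero_of_integral_contDiff_smul_eq_zero (hVloc.locallyIntegrableOn _) ?_
      intro g g1 g2 g3
      have h1 := hV.2 g ⟨g1, g2⟩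
      rw [(h g ⟨g1, g2⟩ g3).2] at h1
      rw [← h1]
      exact integral_congr_ae (Eventually.of_forall fun x => by simp [mul_comm])
  · rintro ⟨h1, h2⟩ φ p1 p2
    have hz : ∀ f : E → ℝ, (∀ᵐ x, x ∈ Ω → f x = 0) → ∫ x, f x * φ x = 0 := by
      intro f hf
      have : (fun x => f x * φ x) =ᵐ[volume] fun _ => (0 : ℝ) := by
        filter_upwards [hf] with x hx
        by_cases hxΩ : x ∈ Ω
        · rw [hx hxΩ, zero_mul]
        · have : φ x = 0 := by
            by_contra hne
            exact hxΩ (p2 (subset_tsupport φ hne))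
          rw [this, mul_zero]
      rw [integral_congr_ae this, integral_zero]
    constructor
    · rw [← hint k φ (isSch_of_test p1)]
      exact hz _ h1
    · rw [← hV.2 φ p1]
      exact hz _ h2

theorem isOpen_ext (y : E) (ρ : ℝ) : IsOpen (ext y ρ) :=
  isOpen_lt continuous_const (by fun_prop)

end ExBx

open ExBx in
theorem thm_ExB (h1 : St_Dens) (h2 : St_UTest) (h3 : St_Fld) (h4 : St_Lin) : St_ExB := by
  have A1 : ∀ Ω (k k' : K), |ex Ω k - ex Ω k'| ≤ ‖k - k'‖ := by
    intro Ω k k'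
    refine (abs_norm_sub_norm_le _ _).trans ?_
    rw [← map_sub]
    exact Submodule.norm_starProjection_apply_le _ _
  have A2 : ∀ Ω (k : K), ex Ω k ≤ ‖k‖ := fun Ω k => Submodule.norm_starProjection_apply_le _ _
  have A3 : ∀ Ω Ω' (k : K), Ω ⊆ Ω' → ex Ω k ≤ ex Ω' k := by
    intro Ω Ω' k h
    unfold ex
    rw [← pr_of_subset h k]
    exact Submodule.norm_starProjection_apply_le _ _
  have A4 : ∀ Ω (k : K), Van Ω k ↔ ex Ω k = 0 := by
    intro Ω k
    rw [van_iff_pr, ex, norm_eq_zero]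
  have A5 : ∀ Ω (k : K), Van Ω (k - pr Ω k) := fun Ω k =>
    Submodule.sub_starProjection_mem_orthogonal k
  have A6 : ∀ Ω (k k' : K), Van Ω (k - k') → ex Ω k ≤ ‖k'‖ ∧ ex Ω k = ex Ω k' := by
    intro Ω k k' h
    rw [van_iff_pr, map_sub, sub_eq_zero] at h
    have e : ex Ω k = ex Ω k' := by rw [ex, ex, h]
    exact ⟨e.trans_le (A2 Ω k'), e⟩
  have A7 : ∀ Ω (k : K), IsOpen Ω →
      (Van Ω k ↔ (∀ᵐ x, x ∈ Ω → U k x = 0) ∧ ∀ᵐ x, x ∈ Ω → V k x = 0) :=
    fun Ω k h => van_field h2 h3 h k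
  have A8 : ∀ Ω (k : ℕ → K) (k' : K) (r : ℝ), WTo k k' → (∀ n, ex Ω (k n) ≤ r) →
      ex Ω k' ≤ r := by
    intro Ω k k' r hw hr
    have hr0 : 0 ≤ r := (norm_nonneg _).trans (hr 0)
    have h5 := hw (pr Ω k')
    have h6 : inner ℝ k' (pr Ω k') = ex Ω k' * ex Ω k' := by
      have : inner ℝ (pr Ω k') (pr Ω k') = inner ℝ k' (pr Ω (pr Ω k')) :=
        Submodule.inner_starProjection_left_eq_right _ _ _
      rw [pr_of_subset (subset_refl Ω)] at this
      rw [← this, real_inner_self_eq_norm_mul_norm, ex]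
    have h7 : ∀ n, inner ℝ (k n) (pr Ω k') ≤ r * ex Ω k' := by
      intro n
      have : inner ℝ (pr Ω (k n)) (pr Ω k') = inner ℝ (k n) (pr Ω (pr Ω k')) :=
        Submodule.inner_starProjection_left_eq_right _ _ _
      rw [pr_of_subset (subset_refl Ω)] at this
      rw [← this]
      refine (real_inner_le_norm _ _).trans ?_
      exact mul_le_mul_of_nonneg_right (hr n) (norm_nonneg _)
    have h8 : inner ℝ k' (pr Ω k') ≤ r * ex Ω k' := le_of_tendsto' h5 h7
    rw [h6] at h8
    by_cases h0 : ex Ω k' = 0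
    · rw [h0]; exact hr0
    · have : 0 < ex Ω k' := lt_of_le_of_ne (norm_nonneg _) (Ne.symm h0)
      exact le_of_mul_le_mul_right h8 this
  have hTS : ∀ k : K, ex univ k = ‖k‖ := by
    intro k
    unfold ex pr
    have : k ∈ TS univ := by rw [h1.1]; trivial
    rw [Submodule.starProjection_eq_self_iff.2 this]
  refine ⟨A1, A2, A3, A4, A5, A6, A7, A8, ?_, ?_, ?_⟩
  · intro Ω k hm ho
    exact (tendsto_pr Ω k hm ho).norm
  · intro k
    rw [Metric.tendsto_atTop]
    intro ε hε
    obtain ⟨f, g, hf, hg, hfg⟩ := h1.2 k ε hε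
    obtain ⟨R₀, hR₀⟩ := (hf.2.isCompact.isBounded.union hg.2.isCompact.isBounded).subset_closedBall 0
    refine ⟨R₀, fun R hR => ?_⟩
    have hvan : Van (ext 0 R) (Theta f g) := by
      rw [A7 _ _ (isOpen_ext 0 R)]
      have hout : ∀ x ∈ ext 0 R, f x = 0 ∧ g x = 0 := by
        intro x hx
        have hx' : R < dist x 0 := hx
        have hnot : x ∉ Metric.closedBall (0 : E) R₀ := by
          rw [Metric.mem_closedBall, not_le]
          linarith
        constructor
        · by_contra hne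
          exact hnot (hR₀ (Or.inl (subset_tsupport f hne)))
        · by_contra hne
          exact hnot (hR₀ (Or.inr (subset_tsupport g hne)))
      obtain ⟨l1, l2, -⟩ := h4.2.1 f g hf hg
      constructor
      · filter_upwards [l1] with x hx hxΩ
        rw [hx, (hout x hxΩ).1]
      · filter_upwards [l2] with x hx hxΩ
        rw [hx, (hout x hxΩ).2]
    rw [Real.dist_eq, sub_zero]
    have h5 := A1 (ext 0 R) k (Theta f g)
    rw [(A4 _ _).1 hvan, sub_zero] at h5
    exact h5.trans_lt hfg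
  · intro k
    have h5 := (tendsto_pr (fun R : ℝ => Metric.ball (0 : E) R) k
      (fun a b hab => Metric.ball_subset_ball hab) (fun _ => Metric.isOpen_ball)).norm
    have e : (⋃ R : ℝ, Metric.ball (0 : E) R) = univ := by
      ext x
      simp only [mem_iUnion, Metric.mem_ball, mem_univ, iff_true]
      exact ⟨dist x 0 + 1, by linarith⟩
    rw [e] at h5
    have h6 : ‖pr univ k‖ = ‖k‖ := hTS k
    rw [h6] at h5
    exact h5

end Pool.Agent.QWE
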