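import Pool.Agent.QWE.StA
import Pool.Agent.QWE.StB

set_option autoImplicit false

/-!
# QWE, ExF: fields on an open set are controlled by the exterior norm (helper25)
-/

open MeasureTheory Filter Topology Set
open scoped ENNReal NNReal RealInnerProductSpace ContDiff Pointwise

namespace Pool.Agent.QWE.ExFx

lemma pd_zero {Ω : Set E} {φ : E → ℝ} (h : tsupport φ ⊆ Ω) (i : Fin 5) {x : E} (hx : x ∉ Ω) :
    pd i φ x = 0 := by
  have h1 : x ∉ tsupport (fderiv ℝ φ) := fun hx' => hx (h (tsupport_fderiv_subset ℝ hx'))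
  have h2 : fderiv ℝ φ x = 0 := image_eq_zero_of_notMem_tsupport h1
  unfold pd
  rw [h2]
  rfl

/-- the weak derivative of a function which vanishes on an open set vanishes there -/
lemma wd_zero {Ω : Set E} (hΩ : IsOpen Ω) {i : Fin 5} {f g : E → ℝ} (hw : WD i f g)
    (hg : LocallyIntegrable g volume) (hf : ∀ᵐ x, x ∈ Ω → f x = 0) : ∀ᵐ x, x ∈ Ω → g x = 0 := by
  refine hΩ.ae_eq_zero_of_integral_contDiff_smul_eq_zero (hg.locallyIntegrableOn Ω) ?_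
  intro φ h1 h2 h3
  have h4 := hw φ ⟨h1, h2⟩
  have h5 : ∫ x, f x * pd i φ x = 0 := by
    refine integral_eq_zero_of_ae ?_
    filter_upwards [hf] with x hx
    by_cases hxΩ : x ∈ Ω
    · rw [hx hxΩ, zero_mul]
      rfl
    · rw [pd_zero h3 i hxΩ, mul_zero]
      rfl
  rw [h5] at h4
  have h6 : ∫ x, φ x • g x = ∫ x, g x * φ x := by
    refine integral_congr_ae (Eventually.of_forall fun x => ?_)
    change φ x • g x = g x * φ x
    rw [smul_eq_mul, mul_comm]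
  rw [h6]
  linarith

end Pool.Agent.QWE.ExFx

namespace Pool.Agent.QWE

open ExFx

theorem thm_ExF (hF : St_Fld) (hL : St_Lin) (hE : St_ExB) : St_ExF := by
  obtain ⟨C, hC, hF⟩ := hF
  obtain ⟨hL, -, -⟩ := hL
  obtain ⟨-, -, -, -, hpr, -, hvan, -, -, -, -⟩ := hE
  have h103 : (1 : ℝ≥0∞) ≤ 10 / 3 := by
    rw [ENNReal.le_div_iff_mul_le (Or.inl (by norm_num)) (Or.inl (by norm_num))]
    norm_num
  have h2' : (1 : ℝ≥0∞) ≤ 2 := by norm_num
  -- the fields on the open set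
  have key : ∀ (k k' : K) (Ω : Set E), IsOpen Ω → Van Ω (k - k') →
      (∀ᵐ x, x ∈ Ω → U k x = U k' x ∧ V k x = V k' x ∧
    (∀ i, DU k i x = DU k' i x) ∧ (∀ i j, DDU k i j x = DDU k' i j x) ∧
      ∀ i, DV k i x = DV k' i x) := by
    intro k k' Ω hΩ hv
    obtain ⟨hU0, hV0⟩ := (hvan Ω (k - k') hΩ).1 hv
    obtain ⟨-, -, hDU, hDDU, hDV⟩ := hF (k - k')
    have hDU0 : ∀ i, ∀ᵐ x, x ∈ Ω → DU (k - k') i x = 0 := fun i =>
      wd_zero hΩ (hDU i).2.1 ((hDU i).1.locallyIntegrable h103) hU0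
    have hDDU0 : ∀ i j, ∀ᵐ x, x ∈ Ω → DDU (k - k') i j x = 0 := fun i j =>
      wd_zero hΩ (hDDU i j).2.1 ((hDDU i j).1.locallyIntegrable h2') (hDU0 i)
    have hDV0 : ∀ i, ∀ᵐ x, x ∈ Ω → DV (k - k') i x = 0 := fun i =>
      wd_zero hΩ (hDV i).2.1 ((hDV i).1.locallyIntegrable h2') hV0
    have hk : k' + (1 : ℝ) • (k - k') = k := by
      rw [one_smul, add_sub_cancel]
    obtain ⟨a1, a2, a3, a4, a5⟩ := hL 1 k' (k - k')
    rw [hk] at a1 a2
    simp only [hk] at a3 a4 a5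
    filter_upwards [hU0, hV0, ae_all_iff.2 hDU0, ae_all_iff.2 fun i => ae_all_iff.2 (hDDU0 i),
      ae_all_iff.2 hDV0, a1, a2, ae_all_iff.2 a3, ae_all_iff.2 fun i => ae_all_iff.2 (a4 i),
      ae_all_iff.2 a5] with x b1 b2 b3 b4 b5 c1 c2 c3 c4 c5 hx
    refine ⟨?_, ?_, fun i => ?_, fun i j => ?_, fun i => ?_⟩
    · rw [c1, b1 hx, mul_zero, add_zero]
    · rw [c2, b2 hx, mul_zero, add_zero]
    · rw [c3 i, b3 i hx, mul_zero, add_zero]
    · rw [c4 i j, b4 i j hx, mul_zero, add_zero]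
    · rw [c5 i, b5 i hx, mul_zero, add_zero]
  -- transfer of the bounds
  have tr : ∀ (Ω : Set E) (k : K) (p : ℝ≥0∞) (f g : E → ℝ), (∀ᵐ x, x ∈ Ω → f x = g x) →
      eLpNorm g p volume ≤ ENNReal.ofReal C * ‖pr Ω k‖ₑ →
      eLpNorm (Ω.indicator f) p volume ≤ ENNReal.ofReal (C * ex Ω k) := by
    intro Ω k p f g h1 h2
    have h3 : Ω.indicator f =ᵐ[volume] Ω.indicator g := by
      filter_upwards [h1] with x hx
      by_cases hxΩ : x ∈ Ω
      · rw [indicator_of_mem hxΩ, indicator_of_mem hxΩ, hx hxΩ]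
      · rw [indicator_of_notMem hxΩ, indicator_of_notMem hxΩ]
    rw [eLpNorm_congr_ae h3]
    refine (eLpNorm_indicator_le g).trans (h2.trans (le_of_eq ?_))
    rw [ENNReal.ofReal_mul hC.le, ex, ofReal_norm]
  refine ⟨C, hC, fun k Ω hΩ => ?_⟩
  have hk := key k (pr Ω k) Ω hΩ (hpr Ω k)
  obtain ⟨f1, f2, f3, -, -⟩ := hF (pr Ω k)
  refine ⟨?_, fun i => ?_, ?_, fun k' hv => key k k' Ω hΩ hv⟩
  · exact tr Ω k 10 _ _ (hk.mono fun x hx hxΩ => (hx hxΩ).1) f1.2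
  · exact tr Ω k (10 / 3) _ _ (hk.mono fun x hx hxΩ => (hx hxΩ).2.2.1 i) (f3 i).2.2
  · exact tr Ω k (10 / 3) _ _ (hk.mono fun x hx hxΩ => (hx hxΩ).2.1) f2.2

end Pool.Agent.QWE
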