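import Pool.Agent.QWE.StA

set_option autoImplicit false

/-!
# QWE: module GamE (source elements)

Mollified and truncated functions `ψ_n` have bounded gradients in `L²` and converge to `F` against test
functions; a weak limit of `Theta 0 ψ_n` (Alaoglu) is the source element. The fields are found by testing and the
norm by the formula for the inner product.
-/

open MeasureTheory Filter Topology Set
open scoped ENNReal NNReal RealInnerProductSpace ContDiff Pointwise Convolution

namespace Pool.Agent.QWE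
namespace GamEx

theorem sch {f : E → ℝ} (hf : IsTest f) : IsSch f :=
  ⟨hf.2.toSchwartzMap hf.1, fun _ => rfl⟩

/-- Mollification. -/
noncomputable def mol (ρ F : E → ℝ) (x : E) : ℝ := ∫ t, F t * ρ (x - t)

theorem mol_eq (ρ F : E → ℝ) :
    mol ρ F = F ⋆[ContinuousLinearMap.lsmul ℝ ℝ, volume] ρ := by
  funext x
  simp only [mol, convolution_def, ContinuousLinearMap.lsmul_apply, smul_eq_mul]

theorem mol_smooth {ρ F : E → ℝ} (hρ : IsTest ρ) (hF : LocallyIntegrable F volume) :
    ContDiff ℝ ∞ (mol ρ F) := by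
  rw [mol_eq]
  exact HasCompactSupport.contDiff_convolution_right _ hρ.2 hF hρ.1

theorem pd_mol {ρ F : E → ℝ} (hρ : IsTest ρ) (hF : LocallyIntegrable F volume) (i : Fin 5) (x : E) :
    pd i (mol ρ F) x = mol (pd i ρ) F x := by
  have h1 : ContDiff ℝ 1 ρ := hρ.1.of_le (by norm_cast)
  have h := HasCompactSupport.hasFDerivAt_convolution_right (ContinuousLinearMap.lsmul ℝ ℝ) hρ.2 hF
    h1 x
  rw [pd, mol_eq, h.fderiv, convolution_precompR_apply _ hF (hρ.2.fderiv ℝ)
    (h1.continuous_fderiv one_ne_zero) x, mol_eq]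
  rfl

theorem test_refl {ρ : E → ℝ} (hρ : IsTest ρ) (x : E) : IsTest fun t => ρ (x - t) :=
  ⟨hρ.1.comp (contDiff_const.sub contDiff_id),
    hρ.2.comp_homeomorph (Homeomorph.subLeft x)⟩

theorem pd_refl {ρ : E → ℝ} (hρ : IsTest ρ) (x : E) (i : Fin 5) (t : E) :
    pd i (fun t => ρ (x - t)) t = - pd i ρ (x - t) := by
  have h1 : DifferentiableAt ℝ ρ (x - t) :=
    (hρ.1.differentiable (by norm_num)).differentiableAt
  have h2 : HasFDerivAt (fun t : E => x - t) (-ContinuousLinearMap.id ℝ E) t :=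
    (hasFDerivAt_id t).const_sub x
  have h3 := h1.hasFDerivAt.comp t h2
  rw [pd, show (fun t => ρ (x - t)) = ρ ∘ fun t => x - t from rfl, h3.fderiv]
  simp [pd]

theorem mol_WD {ρ F G : E → ℝ} (hρ : IsTest ρ) (i : Fin 5) (h : WD i F G) (x : E) :
    mol (pd i ρ) F x = mol ρ G x := by
  have h1 := h _ (test_refl hρ x)
  simp only [pd_refl hρ x i, mul_neg, integral_neg, neg_inj] at h1
  exact h1

/-- Young: mollification contracts the `L²` norm. -/
theorem mol_L2 {ρ F : E → ℝ} (hρ : Continuous ρ) (h0 : ∀ x, 0 ≤ ρ x) (hi : Integrable ρ volume)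
    (h1 : ∫ x, ρ x = 1) (hF : MemLp F 2 volume) :
    eLpNorm (mol ρ F) 2 volume ≤ eLpNorm F 2 volume := by
  have hone : ∀ x, ∫⁻ t, ‖ρ (x - t)‖ₑ = 1 := by
    intro x
    have e1 : ∫⁻ t, ‖ρ (x - t)‖ₑ = ∫⁻ t, ‖ρ t‖ₑ := lintegral_sub_left_eq_self (fun t => ‖ρ t‖ₑ) x
    rw [e1]
    have e2 : ∫⁻ t, ‖ρ t‖ₑ = ∫⁻ t, ENNReal.ofReal (ρ t) := by
      refine lintegral_congr fun t => ?_
      rw [Real.enorm_eq_ofReal (h0 t)]
    rw [e2, ← ofReal_integral_eq_lintegral_ofReal hi (Eventually.of_forall h0), h1]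
    simp
  have hpt : ∀ x, ‖mol ρ F x‖ₑ ^ (2 : ℝ) ≤ ∫⁻ t, ‖F t‖ₑ ^ (2 : ℝ) * ‖ρ (x - t)‖ₑ := by
    intro x
    have m1 : AEMeasurable (fun t => ‖F t‖ₑ * ‖ρ (x - t)‖ₑ ^ (1 / 2 : ℝ)) volume :=
      hF.1.enorm.mul ((by fun_prop : Continuous fun t => ρ (x - t)).measurable.enorm.pow_const _).aemeasurable
    have m2 : AEMeasurable (fun t => ‖ρ (x - t)‖ₑ ^ (1 / 2 : ℝ)) volume :=
      ((by fun_prop : Continuous fun t => ρ (x - t)).measurable.enorm.pow_const _).aemeasurable
    have c1 : ‖mol ρ F x‖ₑ ≤ ∫⁻ t, ((fun t => ‖F t‖ₑ * ‖ρ (x - t)‖ₑ ^ (1 / 2 : ℝ)) *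
        fun t => ‖ρ (x - t)‖ₑ ^ (1 / 2 : ℝ)) t := by
      refine (enorm_integral_le_lintegral_enorm _).trans (le_of_eq (lintegral_congr fun t => ?_))
      simp only [Pi.mul_apply]
      rw [enorm_mul, mul_assoc, ← ENNReal.rpow_add_of_nonneg _ _ (by norm_num) (by norm_num)]
      norm_num
    have c2 := ENNReal.lintegral_mul_le_Lp_mul_Lq volume
      (show (2 : ℝ).HolderConjugate 2 from Real.HolderConjugate.two_two) m1 m2
    have c3 : ∫⁻ t, (‖ρ (x - t)‖ₑ ^ (1 / 2 : ℝ)) ^ (2 : ℝ) = 1 := by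
      rw [← hone x]
      refine lintegral_congr fun t => ?_
      rw [← ENNReal.rpow_mul]; norm_num
    have c4 : ∫⁻ t, (‖F t‖ₑ * ‖ρ (x - t)‖ₑ ^ (1 / 2 : ℝ)) ^ (2 : ℝ) =
        ∫⁻ t, ‖F t‖ₑ ^ (2 : ℝ) * ‖ρ (x - t)‖ₑ := by
      refine lintegral_congr fun t => ?_
      rw [ENNReal.mul_rpow_of_nonneg _ _ (by norm_num), ← ENNReal.rpow_mul]; norm_num
    rw [c3, c4, ENNReal.one_rpow, mul_one] at c2
    calc ‖mol ρ F x‖ₑ ^ (2 : ℝ) ≤ ((∫⁻ t, ‖F t‖ₑ ^ (2 : ℝ) * ‖ρ (x - t)‖ₑ) ^ (1 / 2 : ℝ)) ^ (2 : ℝ) :=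
          ENNReal.rpow_le_rpow (c1.trans c2) (by norm_num)
      _ = _ := by rw [← ENNReal.rpow_mul]; norm_num
  have hfub : ∫⁻ x, ∫⁻ t, ‖F t‖ₑ ^ (2 : ℝ) * ‖ρ (x - t)‖ₑ = ∫⁻ t, ‖F t‖ₑ ^ (2 : ℝ) := by
    rw [lintegral_lintegral_swap]
    · refine lintegral_congr fun t => ?_
      rw [lintegral_const_mul _
        (by fun_prop : Continuous fun x => ρ (x - t)).measurable.enorm,
        lintegral_sub_right_eq_self (fun x => ‖ρ x‖ₑ) t]
      have e3 : ∫⁻ t, ‖ρ t‖ₑ = 1 := by
        rw [← hone 0]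
        exact (lintegral_sub_left_eq_self (fun t => ‖ρ t‖ₑ) 0).symm
      rw [e3, mul_one]
    · refine AEMeasurable.mul ?_ ?_
      · exact (hF.1.enorm.pow_const _).comp_quasiMeasurePreserving
          (Measure.quasiMeasurePreserving_snd)
      · exact (by fun_prop : Continuous fun z : E × E => ρ (z.1 - z.2)).measurable.enorm.aemeasurable
  rw [eLpNorm_eq_lintegral_rpow_enorm_toReal (by norm_num) (by norm_num),
    eLpNorm_eq_lintegral_rpow_enorm_toReal (by norm_num) (by norm_num)]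
  simp only [ENNReal.toReal_ofNat]
  refine ENNReal.rpow_le_rpow ?_ (by norm_num)
  rw [← hfub]
  exact lintegral_mono hpt

/-! ### Cut-off functions -/

theorem exists_chi : ∃ (χ : ℕ → E → ℝ) (C : ℝ), 0 ≤ C ∧ (∀ n, IsTest (χ n)) ∧
    (∀ n x, |χ n x| ≤ 1) ∧ (∀ (n : ℕ) (x : E), ‖x‖ ≤ n → χ n x = 1) ∧ ∀ (n : ℕ) (i : Fin 5) (x : E), |pd i (χ n) x| ≤ C := by
  let b : ContDiffBump (0 : E) := ⟨1, 2, one_pos, one_lt_two⟩
  have hb : IsTest b := ⟨b.contDiff, b.hasCompactSupport⟩
  have hC : ∃ C : ℝ, ∀ x, ‖fderiv ℝ b x‖ ≤ C := by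
    have h1 : Continuous (fderiv ℝ b) :=
      (b.contDiff (n := 1)).continuous_fderiv one_ne_zero
    exact (b.hasCompactSupport.fderiv ℝ).exists_bound_of_continuous h1
  obtain ⟨C, hC⟩ := hC
  have hC0 : 0 ≤ C := (norm_nonneg _).trans (hC 0)
  have hn : ∀ n : ℕ, (0 : ℝ) < n + 1 := fun n => by positivity
  refine ⟨fun (n : ℕ) x => b ((n + 1 : ℝ)⁻¹ • x), C, hC0, fun n => ⟨?_, ?_⟩, fun n x => ?_, fun n x hx => ?_,
    fun n i x => ?_⟩
  · exact b.contDiff.comp (contDiff_const_smul _)
  · exact b.hasCompactSupport.comp_smul (inv_ne_zero (hn n).ne')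
  · rw [abs_of_nonneg b.nonneg]; exact b.le_one
  · refine b.one_of_mem_closedBall ?_
    rw [mem_closedBall_zero_iff, norm_smul, Real.norm_of_nonneg (inv_nonneg.2 (hn n).le)]
    change _ ≤ (1 : ℝ)
    rw [inv_mul_le_iff₀ (hn n)]
    linarith
  · have h1 : HasFDerivAt (fun x : E => (n + 1 : ℝ)⁻¹ • x) ((n + 1 : ℝ)⁻¹ • ContinuousLinearMap.id ℝ E) x :=
      ((n + 1 : ℝ)⁻¹ • ContinuousLinearMap.id ℝ E).hasFDerivAt
    have h2 : DifferentiableAt ℝ b ((n + 1 : ℝ)⁻¹ • x) :=
      ((b.contDiff (n := 1)).differentiable one_ne_zero).differentiableAt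
    have h3 := h2.hasFDerivAt.comp x h1
    change |fderiv ℝ (b ∘ fun x : E => (n + 1 : ℝ)⁻¹ • x) x (EuclideanSpace.single i (1 : ℝ))| ≤ C
    rw [h3.fderiv]
    have h4 : ((fderiv ℝ b ((n + 1 : ℝ)⁻¹ • x)).comp ((n + 1 : ℝ)⁻¹ • ContinuousLinearMap.id ℝ E))
        (EuclideanSpace.single i (1 : ℝ)) =
        (n + 1 : ℝ)⁻¹ * fderiv ℝ b ((n + 1 : ℝ)⁻¹ • x) (EuclideanSpace.single i (1 : ℝ)) := by
      simp
    rw [h4, abs_mul, abs_of_pos (inv_pos.2 (hn n))]
    have h5 : |fderiv ℝ b ((n + 1 : ℝ)⁻¹ • x) (EuclideanSpace.single i (1 : ℝ))| ≤ C := by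
      refine ((fderiv ℝ b ((n + 1 : ℝ)⁻¹ • x)).le_opNorm _).trans ?_
      rw [PiLp.norm_single, norm_one, mul_one]
      exact hC _
    have h6 : (n + 1 : ℝ)⁻¹ ≤ 1 := inv_le_one_of_one_le₀ (by linarith [n.cast_nonneg (α := ℝ)])
    calc _ ≤ (n + 1 : ℝ)⁻¹ * C := by gcongr
      _ ≤ 1 * C := by gcongr
      _ = C := one_mul _

/-- Mollifier. -/
noncomputable def bmp (n : ℕ) : ContDiffBump (0 : E) :=
  ⟨1 / (n + 1) / 2, 1 / (n + 1), by positivity, half_lt_self (by positivity)⟩

noncomputable def rho (n : ℕ) : E → ℝ := (bmp n).normed volume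

theorem rho_test (n : ℕ) : IsTest (rho n) :=
  ⟨(bmp n).contDiff_normed, (bmp n).hasCompactSupport_normed⟩

theorem rho_nonneg (n : ℕ) (x : E) : 0 ≤ rho n x := (bmp n).nonneg_normed x

theorem rho_int (n : ℕ) : ∫ x, rho n x = 1 := (bmp n).integral_normed

theorem rho_neg (n : ℕ) (x : E) : rho n (-x) = rho n x := (bmp n).normed_neg x

theorem fub {F : E → ℝ} {g : E × E → ℝ} (hF : LocallyIntegrable F volume) (hg : Continuous g) {R : ℝ}
    (hR : ∀ t x, g (t, x) ≠ 0 → ‖t‖ ≤ R ∧ ‖x‖ ≤ R) :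
    ∫ x, ∫ t, F t * g (t, x) = ∫ t, F t * ∫ x, g (t, x) := by
  have hK : HasCompactSupport g := by
    refine HasCompactSupport.intro ((isCompact_closedBall (0 : E) R).prod
      (isCompact_closedBall (0 : E) R)) ?_
    rintro ⟨t, x⟩ h
    by_contra h0
    exact h ⟨by simpa using (hR t x h0).1, by simpa using (hR t x h0).2⟩
  obtain ⟨M, hM⟩ := hK.exists_bound_of_continuous hg
  have hM0 : 0 ≤ M := (norm_nonneg _).trans (hM 0)
  have i1 : Integrable ((Metric.closedBall (0 : E) R).indicator F) volume :=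
    (integrable_indicator_iff measurableSet_closedBall).2
      (hF.integrableOn_isCompact (isCompact_closedBall 0 R))
  have i2 : Integrable ((Metric.closedBall (0 : E) R).indicator fun _ => M) volume :=
    (integrable_indicator_iff measurableSet_closedBall).2
      (continuous_const.continuousOn.integrableOn_compact (isCompact_closedBall 0 R))
  have i3 : Integrable (fun z : E × E => F z.1 * g z) (volume.prod volume) := by
    refine (i1.mul_prod i2).mono ?_ ?_
    · exact (hF.aestronglyMeasurable.comp_quasiMeasurePreserving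
        Measure.quasiMeasurePreserving_fst).mul hg.aestronglyMeasurable
    · refine Eventually.of_forall fun z => ?_
      by_cases h0 : g z = 0
      · rw [h0, mul_zero, norm_zero]; exact norm_nonneg _
      · have h1 := hR z.1 z.2 h0
        rw [indicator_of_mem (by simpa using h1.1), indicator_of_mem (by simpa using h1.2), norm_mul,
          norm_mul, Real.norm_of_nonneg hM0]
        gcongr
        exact hM z
  have i4 : Integrable (Function.uncurry fun (x t : E) => F t * g (t, x)) (volume.prod volume) :=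
    i3.swap
  rw [integral_integral_swap i4]
  refine integral_congr_ae (Eventually.of_forall fun t => ?_)
  exact integral_const_mul _ _

theorem mol_tendsto {F φ : E → ℝ} (hF : LocallyIntegrable F volume) (hφ : IsTest φ) :
    Tendsto (fun n => ∫ x, mol (rho n) F x * φ x) atTop (𝓝 (∫ x, F x * φ x)) := by
  -- `H y = ∫ F (x) φ (x + y) dx`
  have hH : Continuous fun y => ∫ t, F t * φ (y + t) := by
    have h := (mol_smooth (test_refl hφ 0) hF).continuous.comp continuous_neg
    refine h.congr fun y => ?_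
    simp only [Function.comp_apply, mol]
    refine integral_congr_ae (Eventually.of_forall fun t => ?_)
    simp only
    congr 2
    abel
  have h1 : ∀ n, ∫ x, mol (rho n) F x * φ x = (rho n ⋆[ContinuousLinearMap.lsmul ℝ ℝ, volume]
      fun y => ∫ t, F t * φ (y + t)) 0 := by
    intro n
    obtain ⟨R, hR⟩ := (rho_test n).2.isCompact.isBounded.subset_closedBall (0 : E)
    obtain ⟨R', hR'⟩ := hφ.2.isCompact.isBounded.subset_closedBall (0 : E)
    have b1 : ∀ x, rho n x ≠ 0 → ‖x‖ ≤ R := fun x hx => by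
      simpa using hR (subset_tsupport _ hx)
    have b2 : ∀ x, φ x ≠ 0 → ‖x‖ ≤ R' := fun x hx => by
      simpa using hR' (subset_tsupport _ hx)
    have e1 : ∫ x, mol (rho n) F x * φ x = ∫ x, ∫ t, F t * (rho n (x - t) * φ x) := by
      refine integral_congr_ae (Eventually.of_forall fun x => ?_)
      simp only [mol]
      rw [← integral_mul_const]
      refine integral_congr_ae (Eventually.of_forall fun t => ?_)
      simp only
      ring
    have c1 : Continuous (rho n) := (rho_test n).1.continuous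
    have c2 : Continuous φ := hφ.1.continuous
    have e2 := fub (g := fun z => rho n (z.2 - z.1) * φ z.2) (R := max (R + R') R') hF
      ((c1.comp (continuous_snd.sub continuous_fst)).mul (c2.comp continuous_snd))
      (fun t x h => by
        have h1 := b1 _ (left_ne_zero_of_mul h)
        have h2 := b2 _ (right_ne_zero_of_mul h)
        refine ⟨le_max_of_le_left ?_, le_max_of_le_right h2⟩
        have h3 : t = x - (x - t) := by abel
        rw [h3]
        refine (norm_sub_le _ _).trans ?_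
        simp only at h1 h2
        linarith)
    have e3 := fub (g := fun z => rho n z.2 * φ (z.2 + z.1)) (R := max (R + R') R) hF
      ((c1.comp continuous_snd).mul (c2.comp (continuous_snd.add continuous_fst)))
      (fun t x h => by
        have h1 := b1 _ (left_ne_zero_of_mul h)
        have h2 := b2 _ (right_ne_zero_of_mul h)
        refine ⟨le_max_of_le_left ?_, le_max_of_le_right h1⟩
        have h3 : t = (x + t) - x := by abel
        rw [h3]
        refine (norm_sub_le _ _).trans ?_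
        simp only at h1 h2
        linarith)
    simp only at e2 e3
    rw [e1, e2]
    have e4 : ∀ t, ∫ x, rho n (x - t) * φ x = ∫ x, rho n x * φ (x + t) := by
      intro t
      rw [← integral_add_right_eq_self (fun x => rho n (x - t) * φ x) t]
      simp
    simp only [e4]
    rw [← e3, convolution_def, ← integral_neg_eq_self]
    refine integral_congr_ae (Eventually.of_forall fun y => ?_)
    simp only [ContinuousLinearMap.lsmul_apply, smul_eq_mul, rho_neg, zero_sub]
    rw [← integral_const_mul]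
    refine integral_congr_ae (Eventually.of_forall fun t => ?_)
    simp only
    ring
  have h2 : ∫ x, F x * φ x = (fun y => ∫ t, F t * φ (y + t)) 0 := by simp
  simp only [h1]
  rw [h2]
  refine ContDiffBump.convolution_tendsto_right_of_continuous (φ := bmp) ?_ hH 0
  exact tendsto_one_div_add_atTop_nhds_zero_nat

/-! ### Weak compactness -/

theorem weak_lim {θ : ℕ → K} {B : ℝ} (hB : ∀ n, ‖θ n‖ ≤ B) :
    ∃ w : K, ∀ (v : K) (c : ℝ), Tendsto (fun n => inner ℝ (θ n) v) atTop (𝓝 c) → inner ℝ w v = c := by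
  let x : ℕ → WeakDual ℝ K := fun n =>
    StrongDual.toWeakDual (𝕜 := ℝ) (E := K) (InnerProductSpace.toDual ℝ K (θ n))
  have hK := WeakDual.isCompact_closedBall (𝕜 := ℝ) (E := K) 0 B
  obtain ⟨l, -, hl⟩ := hK.ultrafilter_le_nhds ((hyperfilter ℕ).map x) (by
    rw [Filter.le_principal_iff]
    change ∀ᶠ n in (hyperfilter ℕ : Filter ℕ), x n ∈ _
    refine Eventually.of_forall fun n => ?_
    simp only [x, Set.mem_preimage, mem_closedBall_zero_iff]
    change ‖InnerProductSpace.toDual ℝ K (θ n)‖ ≤ B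
    rw [LinearIsometryEquiv.norm_map]
    exact hB n)
  refine ⟨(InnerProductSpace.toDual ℝ K).symm (WeakDual.toStrongDual l), fun v c hc => ?_⟩
  have h1 : Tendsto (fun n => x n v) (hyperfilter ℕ) (𝓝 (l v)) :=
    ((WeakDual.eval_continuous v).tendsto l).comp hl
  have h2 : Tendsto (fun n => x n v) (hyperfilter ℕ) (𝓝 c) :=
    hc.mono_left Nat.hyperfilter_le_atTop
  rw [InnerProductSpace.toDual_symm_apply]
  exact tendsto_nhds_unique h1 h2

/-! ### Approximation -/

theorem pd_mul {a b : E → ℝ} (ha : ContDiff ℝ ∞ a) (hb : ContDiff ℝ ∞ b) (i : Fin 5) (x : E) :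
    pd i (fun y => a y * b y) x = pd i a x * b x + a x * pd i b x := by
  have h1 : DifferentiableAt ℝ a x := (ha.differentiable (by norm_num)).differentiableAt
  have h2 : DifferentiableAt ℝ b x := (hb.differentiable (by norm_num)).differentiableAt
  have h3 := h1.hasFDerivAt.mul h2.hasFDerivAt
  rw [pd, show (fun y => a y * b y) = a * b from rfl, h3.fderiv]
  simp [pd]
  ring

theorem approx {F : E → ℝ} {G : Fin 5 → E → ℝ} (hF : MemLp F 2 volume)
    (hG : ∀ i, MemLp (G i) 2 volume ∧ WD i F (G i)) :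
    ∃ (ψ : ℕ → E → ℝ) (C : ℝ≥0∞), C ≠ ⊤ ∧ (∀ n, IsTest (ψ n)) ∧
      (∀ n i, eLpNorm (pd i (ψ n)) 2 volume ≤ C) ∧
      ∀ φ, IsTest φ → Tendsto (fun n => ∫ x, ψ n x * φ x) atTop (𝓝 (∫ x, F x * φ x)) := by
  obtain ⟨χ, C, hC0, hχ, hχ1, hχ2, hχ3⟩ := exists_chi
  have hFl : LocallyIntegrable F volume := hF.locallyIntegrable (by norm_num)
  have hsm : ∀ n, ContDiff ℝ ∞ (mol (rho n) F) := fun n => mol_smooth (rho_test n) hFl
  have hint : ∀ n, Integrable (rho n) volume := fun n =>
    (rho_test n).1.continuous.integrable_of_hasCompactSupport (rho_test n).2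
  refine ⟨fun n x => χ n x * mol (rho n) F x,
    ENNReal.ofReal C * eLpNorm F 2 volume + ∑ i, eLpNorm (G i) 2 volume, ?_, fun n => ?_,
    fun n i => ?_, fun φ hφ => ?_⟩
  · refine ENNReal.add_ne_top.2 ⟨ENNReal.mul_ne_top ENNReal.ofReal_ne_top hF.2.ne, ?_⟩
    exact (ENNReal.sum_lt_top.2 fun i _ => (hG i).1.2).ne
  · exact ⟨(hχ n).1.mul (hsm n), (hχ n).2.mul_right⟩
  · have e1 : pd i (fun x => χ n x * mol (rho n) F x) =
        (fun x => pd i (χ n) x * mol (rho n) F x) + fun x => χ n x * mol (rho n) (G i) x := by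
      funext x
      rw [pd_mul (hχ n).1 (hsm n), pd_mol (rho_test n) hFl, mol_WD (rho_test n) i (hG i).2]
      rfl
    have hGl : LocallyIntegrable (G i) volume := (hG i).1.locallyIntegrable (by norm_num)
    have m1 : Continuous (pd i (χ n)) := by
      have h1 : Continuous (fderiv ℝ (χ n)) := (hχ n).1.continuous_fderiv (by norm_num)
      exact h1.clm_apply continuous_const
    have m2 : Continuous (mol (rho n) F) := (hsm n).continuous
    have m3 : Continuous (mol (rho n) (G i)) := (mol_smooth (rho_test n) hGl).continuous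
    rw [e1]
    refine (eLpNorm_add_le (m1.mul m2).aestronglyMeasurable
      ((hχ n).1.continuous.mul m3).aestronglyMeasurable (by norm_num)).trans ?_
    refine add_le_add ?_ ?_
    · calc eLpNorm (fun x => pd i (χ n) x * mol (rho n) F x) 2 volume
          ≤ ENNReal.ofReal C * eLpNorm (mol (rho n) F) 2 volume := by
            refine eLpNorm_le_mul_eLpNorm_of_ae_le_mul (Eventually.of_forall fun x => ?_) 2
            rw [norm_mul]
            gcongr
            exact hχ3 n i x
        _ ≤ _ := by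
            gcongr
            exact mol_L2 (rho_test n).1.continuous (rho_nonneg n) (hint n) (rho_int n) hF
    · calc eLpNorm (fun x => χ n x * mol (rho n) (G i) x) 2 volume
          ≤ eLpNorm (mol (rho n) (G i)) 2 volume := by
            refine eLpNorm_mono fun x => ?_
            rw [norm_mul]
            calc ‖χ n x‖ * ‖mol (rho n) (G i) x‖ ≤ 1 * ‖mol (rho n) (G i) x‖ := by
                  gcongr; exact hχ1 n x
              _ = _ := one_mul _
        _ ≤ eLpNorm (G i) 2 volume :=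
            mol_L2 (rho_test n).1.continuous (rho_nonneg n) (hint n) (rho_int n) (hG i).1
        _ ≤ _ := Finset.single_le_sum (f := fun i => eLpNorm (G i) 2 volume)
            (fun _ _ => bot_le) (Finset.mem_univ i)
  · obtain ⟨R, hR⟩ := hφ.2.isCompact.isBounded.subset_closedBall (0 : E)
    refine (mol_tendsto hFl hφ).congr' ?_
    filter_upwards [eventually_ge_atTop ⌈R⌉₊] with n hn
    refine integral_congr_ae (Eventually.of_forall fun x => ?_)
    simp only
    by_cases h0 : φ x = 0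
    · simp [h0]
    · have h1 : ‖x‖ ≤ R := by simpa using hR (subset_tsupport _ h0)
      rw [hχ2 n x (h1.trans ((Nat.le_ceil R).trans (by exact_mod_cast hn))), one_mul]

/-! ### Uniqueness -/

theorem ae_zero {f : E → ℝ} (hf : LocallyIntegrable f volume)
    (h : ∀ φ, IsTest φ → ∫ x, f x * φ x = 0) : f =ᵐ[volume] 0 := by
  refine ae_eq_zero_of_integral_contDiff_smul_eq_zero hf fun g h1 h2 => ?_
  have h3 := h g ⟨h1, h2⟩
  simp only [smul_eq_mul]
  rw [← h3]
  exact integral_congr_ae (Eventually.of_forall fun x => mul_comm _ _)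

theorem int_mul {f φ : E → ℝ} (hf : LocallyIntegrable f volume) (hφ : IsTest φ) :
    Integrable (fun x => f x * φ x) volume := by
  have := hf.integrable_smul_right_of_hasCompactSupport hφ.1.continuous hφ.2
  simpa [smul_eq_mul] using this

theorem ae_eq {f g : E → ℝ} (hf : LocallyIntegrable f volume) (hg : LocallyIntegrable g volume)
    (h : ∀ φ, IsTest φ → ∫ x, f x * φ x = ∫ x, g x * φ x) : f =ᵐ[volume] g := by
  have h1 := ae_zero (hf.sub hg) fun φ hφ => by
    have e : (fun x => (f - g) x * φ x) = fun x => f x * φ x - g x * φ x := by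
      funext x; simp [sub_mul]
    rw [e, integral_sub (int_mul hf hφ) (int_mul hg hφ), h φ hφ, sub_self]
  filter_upwards [h1] with x hx
  simpa [sub_eq_zero] using hx

theorem test_pd {φ : E → ℝ} (hφ : IsTest φ) (i : Fin 5) : IsTest (pd i φ) := by
  refine ⟨?_, ?_⟩
  · have h1 : ContDiff ℝ ∞ (fderiv ℝ φ) := hφ.1.fderiv_right (by norm_num)
    exact h1.clm_apply contDiff_const
  · exact (hφ.2.fderiv ℝ).comp_left (g := fun L : E →L[ℝ] ℝ => L (EuclideanSpace.single i (1 : ℝ)))
      (by simp)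

theorem one_le_ten : (1 : ℝ≥0∞) ≤ 10 / 3 := by
  rw [ENNReal.le_div_iff_mul_le (Or.inl (by norm_num)) (Or.inl (by norm_num))]
  norm_num

theorem int_sq {f : E → ℝ} (hf : MemLp f 2 volume) :
    ∫ x, f x ^ 2 = (eLpNorm f 2 volume).toReal ^ 2 := by
  have h0 : 0 ≤ ∫ x, ‖f x‖ ^ (2 : ℝ) := integral_nonneg fun x => by positivity
  rw [hf.eLpNorm_eq_integral_rpow_norm (by norm_num) (by norm_num)]
  simp only [ENNReal.toReal_ofNat]
  rw [ENNReal.toReal_ofReal (by positivity), ← Real.rpow_natCast, ← Real.rpow_mul h0]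
  norm_num

theorem test_zero : IsTest (fun _ : E => (0 : ℝ)) :=
  ⟨contDiff_const, HasCompactSupport.zero⟩

end GamEx

open GamEx

theorem thm_GamE (hU : St_UTest) (hFld : St_Fld) (hLin : St_Lin) (hIP : St_IP) : St_GamE := by
  intro F G hF hF' hG
  have hFl : LocallyIntegrable F volume := hF.locallyIntegrable (by norm_num)
  obtain ⟨C0, -, hfld⟩ := hFld
  have hc0 : 0 < c0 := by unfold c0; positivity
  -- the norm when the position field is zero
  have hnorm : ∀ (w : K), (∀ i, DDU w i i =ᵐ[volume] 0) → 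
      ‖w‖ ^ 2 = c0 * ∑ i, ∫ x, DV w i x ^ 2 := by
    intro w hw
    have h1 := hIP w w
    rw [real_inner_self_eq_norm_sq] at h1
    rw [h1]
    have h2 : LU w =ᵐ[volume] 0 := by
      have h3 : ∀ᵐ x, ∀ i, DDU w i i x = 0 := by
        rw [ae_all_iff]
        exact hw
      filter_upwards [h3] with x hx
      simp [LU, hx]
    have h4 : ∫ x, LU w x * LU w x = 0 := by
      rw [← integral_zero E ℝ (μ := volume)]
      refine integral_congr_ae ?_
      filter_upwards [h2] with x hx
      simp [hx]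
    rw [h4, zero_add]
    simp only [pow_two]
  -- existence
  have hex : ∃ w, IsGam F w := by
    obtain ⟨ψ, C, hC, hψ, hb, ht⟩ := approx hF hG
    have hfin : ∀ n, ‖Theta (fun _ => 0) (ψ n)‖ ^ 2 ≤ c0 * ∑ _i : Fin 5, C.toReal ^ 2 := by
      intro n
      obtain ⟨-, -, -, l1, l2⟩ := hLin.2.1 _ _ test_zero (hψ n)
      have hpd0 : ∀ i : Fin 5, pd i (fun _ : E => (0 : ℝ)) = fun _ => 0 := by
        intro i; funext x; simp [pd]
      rw [hnorm _ fun i => by
        have := l1 i i
        rw [hpd0, hpd0] at this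
        exact this]
      gcongr with i
      have h1 : ∫ x, DV (Theta (fun _ => 0) (ψ n)) i x ^ 2 = ∫ x, pd i (ψ n) x ^ 2 := by
        refine integral_congr_ae ?_
        filter_upwards [l2 i] with x hx
        rw [hx]
      rw [h1]
      have hcont : Continuous (pd i (ψ n)) := (test_pd (hψ n) i).1.continuous
      have hm : MemLp (pd i (ψ n)) 2 volume :=
        hcont.memLp_of_hasCompactSupport (test_pd (hψ n) i).2
      have h2 : ∫ x, pd i (ψ n) x ^ 2 = (eLpNorm (pd i (ψ n)) 2 volume).toReal ^ 2 :=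
        int_sq hm
      rw [h2]
      exact pow_le_pow_left₀ ENNReal.toReal_nonneg (ENNReal.toReal_mono hC (hb n i)) 2
    obtain ⟨w, hw⟩ := weak_lim (θ := fun n => Theta (fun _ => 0) (ψ n))
      (B := Real.sqrt (c0 * ∑ _i : Fin 5, C.toReal ^ 2)) fun n => Real.le_sqrt_of_sq_le (hfin n)
    refine ⟨w, fun φ hφ => ⟨hw _ _ ?_, hw _ _ ?_⟩⟩
    · refine tendsto_const_nhds.congr fun n => ?_
      rw [← hU.2.2 _ φ (sch hφ)]
      obtain ⟨l0, -, -, -, -⟩ := hLin.2.1 _ _ test_zero (hψ n)
      symm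
      rw [← integral_zero E ℝ (μ := volume)]
      refine integral_congr_ae ?_
      filter_upwards [l0] with x hx
      simp [hx]
    · refine (ht φ hφ).congr fun n => ?_
      rw [← hLin.2.2 _ φ (sch hφ)]
      obtain ⟨-, l0, -, -, -⟩ := hLin.2.1 _ _ test_zero (hψ n)
      refine integral_congr_ae ?_
      filter_upwards [l0] with x hx
      simp [hx]
  have hGam : IsGam F (Gam F) := by
    rw [Gam, dif_pos hex]
    exact hex.choose_spec
  obtain ⟨f1, f2, f3, f4, f5⟩ := hfld (Gam F)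
  have hUl := hU.2.1 (Gam F)
  have hVl : LocallyIntegrable (V (Gam F)) volume := f2.1.1.locallyIntegrable one_le_ten
  have hU0 : U (Gam F) =ᵐ[volume] 0 := ae_zero hUl fun φ hφ => by
    rw [hU.2.2 _ φ (sch hφ)]; exact (hGam φ hφ).1
  have hV0 : V (Gam F) =ᵐ[volume] F := ae_eq hVl hFl fun φ hφ => by
    rw [hLin.2.2 _ φ (sch hφ)]; exact (hGam φ hφ).2
  have zero_int : ∀ {f g : E → ℝ}, f =ᵐ[volume] 0 → ∫ x, f x * g x = 0 := by
    intro f g h
    rw [← integral_zero E ℝ (μ := volume)]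
    refine integral_congr_ae ?_
    filter_upwards [h] with x hx
    simp [hx]
  have hDU : ∀ i, DU (Gam F) i =ᵐ[volume] 0 := fun i =>
    ae_zero ((f3 i).1.locallyIntegrable one_le_ten) fun φ hφ => by
      have h1 := (f3 i).2.1 φ hφ
      rw [zero_int hU0] at h1
      linarith
  have hDDU : ∀ i j, DDU (Gam F) i j =ᵐ[volume] 0 := fun i j =>
    ae_zero ((f4 i j).1.locallyIntegrable (by norm_num)) fun φ hφ => by
      have h1 := (f4 i j).2.1 φ hφ
      rw [zero_int (hDU i)] at h1
      linarith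
  have hDV : ∀ i, DV (Gam F) i =ᵐ[volume] G i := fun i =>
    ae_eq ((f5 i).1.locallyIntegrable (by norm_num)) ((hG i).1.locallyIntegrable (by norm_num))
      fun φ hφ => by
        have h1 := (f5 i).2.1 φ hφ
        have h2 := (hG i).2 φ hφ
        have h3 : ∫ x, V (Gam F) x * pd i φ x = ∫ x, F x * pd i φ x := by
          refine integral_congr_ae ?_
          filter_upwards [hV0] with x hx
          rw [hx]
        linarith
  refine ⟨hGam, ?_, hU0, hV0, hDV⟩
  rw [hnorm _ fun i => hDDU i i]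
  congr 1
  refine Finset.sum_congr rfl fun i _ => integral_congr_ae ?_
  filter_upwards [hDV i] with x hx
  rw [hx]

end Pool.Agent.QWE
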