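import Pool.Agent.QWE.Defs

set_option autoImplicit false

/-!
# QWE / Moll: mollification and cut-off on `E`

Convolution with test functions, weak derivatives, convergence in `L^p`.
-/

open MeasureTheory Filter Topology Set
open scoped ENNReal NNReal RealInnerProductSpace ContDiff Pointwise

namespace Pool.Agent.QWE.Moll

/-! ### test functions -/

lemma test_pd {φ : E → ℝ} (hφ : IsTest φ) (i : Fin 5) : IsTest (pd i φ) := by
  refine ⟨?_, ?_⟩
  · have h1 : ContDiff ℝ ∞ (fderiv ℝ φ) := hφ.1.fderiv_right (by simp)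
    exact h1.clm_apply contDiff_const
  · exact hφ.2.fderiv_apply (𝕜 := ℝ) _

lemma test_mul {φ ψ : E → ℝ} (hφ : IsTest φ) (hψ : ContDiff ℝ ∞ ψ) :
    IsTest (fun x => φ x * ψ x) := ⟨hφ.1.mul hψ, hφ.2.mul_right⟩

lemma test_diff {φ : E → ℝ} (hφ : IsTest φ) (x : E) : DifferentiableAt ℝ φ x :=
  (hφ.1.differentiable (by simp)) x

lemma pd_mul {φ ψ : E → ℝ} {x : E} (hφ : DifferentiableAt ℝ φ x) (hψ : DifferentiableAt ℝ ψ x)
    (i : Fin 5) : pd i (fun x => φ x * ψ x) x = pd i φ x * ψ x + φ x * pd i ψ x := by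
  unfold pd
  rw [fderiv_fun_mul hφ hψ]
  simp only [ContinuousLinearMap.add_apply, ContinuousLinearMap.smul_apply, smul_eq_mul]
  ring

lemma test_neg {φ : E → ℝ} (hφ : IsTest φ) (x : E) : IsTest (fun y => φ (x - y)) := by
  refine ⟨hφ.1.comp (contDiff_const.sub contDiff_id), ?_⟩
  exact hφ.2.comp_homeomorph (Homeomorph.subLeft x)

lemma pd_neg {φ : E → ℝ} (hφ : IsTest φ) (x : E) (i : Fin 5) (y : E) :
    pd i (fun y => φ (x - y)) y = - pd i φ (x - y) := by
  unfold pd
  have h1 : HasFDerivAt (fun y : E => x - y) (-(ContinuousLinearMap.id ℝ E)) y :=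
    (hasFDerivAt_id y).const_sub x
  have h2 := ((test_diff hφ (x - y)).hasFDerivAt.comp y h1).fderiv
  have h3 : (φ ∘ fun y => x - y) = fun y => φ (x - y) := rfl
  rw [h3] at h2
  rw [h2]
  simp

/-! ### convolution -/

/-- convolution -/
noncomputable def mc (φ w : E → ℝ) : E → ℝ :=
  convolution φ w (ContinuousLinearMap.lsmul ℝ ℝ) volume

lemma mc_apply (φ w : E → ℝ) (x : E) : mc φ w x = ∫ t, φ t * w (x - t) := rfl

lemma mc_apply' (φ w : E → ℝ) (x : E) : mc φ w x = ∫ y, φ (x - y) * w y := by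
  rw [mc_apply, ← integral_sub_left_eq_self (fun t => φ t * w (x - t)) volume x]
  simp

lemma mc_congr {φ w w' : E → ℝ} (h : w =ᵐ[volume] w') : mc φ w = mc φ w' := by
  funext x
  rw [mc_apply', mc_apply']
  refine integral_congr_ae ?_
  filter_upwards [h] with y hy
  rw [hy]

lemma mc_smooth {φ w : E → ℝ} (hφ : IsTest φ) (hw : LocallyIntegrable w volume) :
    ContDiff ℝ ∞ (mc φ w) :=
  hφ.2.contDiff_convolution_left _ hφ.1 hw

lemma mc_test {φ w : E → ℝ} (hφ : IsTest φ) (hw : LocallyIntegrable w volume)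
    (hc : HasCompactSupport w) : IsTest (mc φ w) :=
  ⟨mc_smooth hφ hw, hφ.2.convolution _ hc⟩

lemma mc_int {φ w : E → ℝ} (hφ : Continuous φ) (hc : HasCompactSupport φ)
    (hw : LocallyIntegrable w volume) (x : E) : Integrable (fun t => φ t * w (x - t)) volume :=
  hc.convolutionExists_left (ContinuousLinearMap.lsmul ℝ ℝ) hφ hw x

lemma pd_mc {φ w : E → ℝ} (hφ : IsTest φ) (hw : LocallyIntegrable w volume) (i : Fin 5) (x : E) :
    pd i (mc φ w) x = mc (pd i φ) w x := by
  have h1 := (hφ.2.hasFDerivAt_convolution_left (ContinuousLinearMap.lsmul ℝ ℝ)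
    (hφ.1.of_le (by exact_mod_cast le_top)) hw x).fderiv
  unfold pd mc
  rw [h1]
  have h2 : Integrable (fun t => (ContinuousLinearMap.precompL E (ContinuousLinearMap.lsmul ℝ ℝ))
      (fderiv ℝ φ t) (w (x - t))) volume := by
    have h3 : Continuous (fderiv ℝ φ) := (hφ.1.continuous_fderiv (by simp))
    exact (hφ.2.fderiv ℝ).convolutionExists_left
      (ContinuousLinearMap.precompL E (ContinuousLinearMap.lsmul ℝ ℝ)) h3 hw x
  unfold convolution
  rw [ContinuousLinearMap.integral_apply h2]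
  rfl

lemma mc_wd {φ w g : E → ℝ} (hφ : IsTest φ) {i : Fin 5} (h : WD i w g) (x : E) :
    mc (pd i φ) w x = mc φ g x := by
  have h1 := h (fun y => φ (x - y)) (test_neg hφ x)
  rw [mc_apply', mc_apply']
  have h2 : ∫ y, w y * pd i (fun y => φ (x - y)) y = - ∫ y, pd i φ (x - y) * w y := by
    rw [← integral_neg]
    refine integral_congr_ae (Eventually.of_forall fun y => ?_)
    simp only
    rw [pd_neg hφ]
    ring
  rw [h2] at h1
  have h3 : ∫ y, g y * φ (x - y) = ∫ y, φ (x - y) * g y := by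
    refine integral_congr_ae (Eventually.of_forall fun y => ?_)
    simp only
    ring
  rw [h3] at h1
  linarith

/-! ### mollifiers -/

/-- a sequence of bumps -/
noncomputable def bp (n : ℕ) : ContDiffBump (0 : E) where
  rIn := 1 / (2 * ((n : ℝ) + 1))
  rOut := 1 / ((n : ℝ) + 1)
  rIn_pos := by positivity
  rIn_lt_rOut := by
    apply one_div_lt_one_div_of_lt (by positivity)
    have : (0 : ℝ) ≤ n := Nat.cast_nonneg n
    linarith

/-- mollifiers -/
noncomputable def ph (n : ℕ) : E → ℝ := (bp n).normed volume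

lemma ph_test (n : ℕ) : IsTest (ph n) :=
  ⟨(bp n).contDiff_normed, (bp n).hasCompactSupport_normed⟩

lemma ph_nonneg (n : ℕ) (x : E) : 0 ≤ ph n x := (bp n).nonneg_normed x

lemma ph_int (n : ℕ) : ∫ x, ph n x = 1 := (bp n).integral_normed

lemma ph_supp (n : ℕ) {x : E} (hx : 1 / ((n : ℝ) + 1) ≤ ‖x‖) : ph n x = 0 := by
  by_contra h
  have h1 : x ∈ Function.support (ph n) := h
  unfold ph at h1
  rw [(bp n).support_normed_eq, mem_ball_zero_iff] at h1
  have h2 : (bp n).rOut = 1 / ((n : ℝ) + 1) := rfl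
  linarith

/-- Jensen and Fubini -/
lemma mc_sub_le_aux {p : ℝ≥0∞} (h1 : 1 ≤ p) (hp : p ≠ ⊤) {φ w : E → ℝ} (hφ : IsTest φ)
    (h0 : ∀ x, 0 ≤ φ x) (hi : ∫ x, φ x = 1) (hw : StronglyMeasurable w)
    (hwl : LocallyIntegrable w volume) {ε : ℝ≥0∞}
    (hε : ∀ y, φ y ≠ 0 → eLpNorm (fun x => w (x - y) - w x) p volume ≤ ε) :
    eLpNorm (fun x => mc φ w x - w x) p volume ≤ ε := by
  have hp0 : p ≠ 0 := (lt_of_lt_of_le zero_lt_one h1).ne'
  have hpr : 0 < p.toReal := ENNReal.toReal_pos hp0 hp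
  have hφm : Measurable φ := hφ.1.continuous.measurable
  have hφi : Integrable φ volume := hφ.1.continuous.integrable_of_hasCompactSupport hφ.2
  obtain ⟨ν, hν⟩ : ∃ ν : Measure E, ν = volume.withDensity (fun y => ENNReal.ofReal (φ y)) := ⟨_, rfl⟩
  have hνp : IsProbabilityMeasure ν := by
    refine ⟨?_⟩
    rw [hν, withDensity_apply _ MeasurableSet.univ, Measure.restrict_univ,
      ← ofReal_integral_eq_lintegral_ofReal hφi (Eventually.of_forall h0), hi, ENNReal.ofReal_one]
  have hmeas : Measurable (fun q : E × E => w (q.1 - q.2) - w q.1) :=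
    (hw.measurable.comp (measurable_fst.sub measurable_snd)).sub (hw.measurable.comp measurable_fst)
  -- pointwise bound
  have hpt : ∀ x, ‖mc φ w x - w x‖ₑ ^ p.toReal ≤ ∫⁻ y, ‖w (x - y) - w x‖ₑ ^ p.toReal ∂ν := by
    intro x
    have hmx : Measurable (fun y => w (x - y) - w x) := hmeas.comp measurable_prodMk_left
    have e1 : mc φ w x - w x = ∫ y, φ y * (w (x - y) - w x) := by
      have e2 : ∀ y, φ y * (w (x - y) - w x) = φ y * w (x - y) - φ y * w x := fun y => by ring
      rw [mc_apply, integral_congr_ae (Eventually.of_forall e2),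
        integral_sub (mc_int hφ.1.continuous hφ.2 hwl x) (hφi.mul_const _), integral_mul_const, hi,
        one_mul]
    have e2 : ‖mc φ w x - w x‖ₑ ≤ eLpNorm (fun y => w (x - y) - w x) 1 ν := by
      rw [e1, eLpNorm_one_eq_lintegral_enorm, hν,
        lintegral_withDensity_eq_lintegral_mul _ (by fun_prop) hmx.enorm]
      refine (enorm_integral_le_lintegral_enorm _).trans (lintegral_mono fun y => ?_)
      rw [enorm_mul, Real.enorm_eq_ofReal (h0 y)]
      rfl
    have e3 := e2.trans (eLpNorm_le_eLpNorm_of_exponent_le h1 hmx.aestronglyMeasurable)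
    rw [eLpNorm_eq_lintegral_rpow_enorm_toReal hp0 hp] at e3
    calc ‖mc φ w x - w x‖ₑ ^ p.toReal ≤
          ((∫⁻ y, ‖w (x - y) - w x‖ₑ ^ p.toReal ∂ν) ^ (1 / p.toReal)) ^ p.toReal := by gcongr
      _ = ∫⁻ y, ‖w (x - y) - w x‖ₑ ^ p.toReal ∂ν := by
          rw [← ENNReal.rpow_mul, one_div_mul_cancel hpr.ne', ENNReal.rpow_one]
  rw [eLpNorm_eq_lintegral_rpow_enorm_toReal hp0 hp]
  have h2 : ∫⁻ x, ‖mc φ w x - w x‖ₑ ^ p.toReal ≤ ε ^ p.toReal := by
    refine (lintegral_mono hpt).trans ?_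
    rw [lintegral_lintegral_swap (by fun_prop)]
    have h3 : ∀ᵐ y ∂ν, ∫⁻ x, ‖w (x - y) - w x‖ₑ ^ p.toReal ≤ ε ^ p.toReal := by
      rw [hν, ae_withDensity_iff (by fun_prop)]
      refine Eventually.of_forall fun y hy => ?_
      have hy' : φ y ≠ 0 := by
        intro h
        rw [h, ENNReal.ofReal_zero] at hy
        exact hy rfl
      have h4 := hε y hy'
      rw [eLpNorm_eq_lintegral_rpow_enorm_toReal hp0 hp] at h4
      calc ∫⁻ x, ‖w (x - y) - w x‖ₑ ^ p.toReal =
            ((∫⁻ x, ‖w (x - y) - w x‖ₑ ^ p.toReal) ^ (1 / p.toReal)) ^ p.toReal := by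
            rw [← ENNReal.rpow_mul, one_div_mul_cancel hpr.ne', ENNReal.rpow_one]
        _ ≤ ε ^ p.toReal := by gcongr
    calc ∫⁻ y, (∫⁻ x, ‖w (x - y) - w x‖ₑ ^ p.toReal) ∂ν ≤ ∫⁻ _y, ε ^ p.toReal ∂ν :=
          lintegral_mono_ae h3
      _ = ε ^ p.toReal := by rw [lintegral_const, measure_univ, mul_one]
  calc (∫⁻ x, ‖mc φ w x - w x‖ₑ ^ p.toReal) ^ (1 / p.toReal) ≤ (ε ^ p.toReal) ^ (1 / p.toReal) := by
        gcongr
    _ = ε := by rw [← ENNReal.rpow_mul, mul_one_div_cancel hpr.ne', ENNReal.rpow_one]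

/-- translations are continuous in `L^p` -/
lemma trans_small {p : ℝ≥0∞} (h1 : 1 ≤ p) (hp : p ≠ ⊤) {w : E → ℝ} (hw : MemLp w p volume)
    {ε : ℝ} (hε : 0 < ε) : ∃ δ : ℝ, 0 < δ ∧ ∀ y : E, ‖y‖ < δ →
      eLpNorm (fun x => w (x - y) - w x) p volume ≤ ENNReal.ofReal ε := by
  have : Fact (1 ≤ p) := ⟨h1⟩
  obtain ⟨g, hg⟩ : ∃ g : E → C(E, E), g = fun y => ⟨fun x => x - y, by fun_prop⟩ := ⟨_, rfl⟩
  have hgc : Continuous g := by
    have : Continuous (fun q : E × E => q.2 - q.1) := by fun_prop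
    have h := (ContinuousMap.curry (⟨fun q : E × E => q.2 - q.1, this⟩ : C(E × E, E))).continuous
    rw [hg]
    exact h
  have hmp : ∀ y : E, MeasurePreserving (fun x : E => x - y) volume volume := fun y =>
    measurePreserving_sub_right volume y
  have hmp' : ∀ y : E, MeasurePreserving (⇑(g y)) volume volume := by
    intro y
    rw [hg]
    exact hmp y
  have ht := (tendsto_const_nhds (x := hw.toLp w) (f := 𝓝 (0 : E))).compMeasurePreservingLp
    (hgc.tendsto 0) hmp' (hmp' 0) hp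
  rw [Metric.tendsto_nhds_nhds] at ht
  obtain ⟨δ, hδ, hδ'⟩ := ht ε hε
  refine ⟨δ, hδ, fun y hy => ?_⟩
  have h2 := hδ' (x := y) (by rwa [dist_zero_right])
  have h3 : Lp.compMeasurePreserving (⇑(g 0)) (hmp' 0) (hw.toLp w) = hw.toLp w := by
    apply Lp.ext
    filter_upwards [Lp.coeFn_compMeasurePreserving (hw.toLp w) (hmp' 0)] with x hx
    rw [hx, hg]
    simp
  rw [h3, Lp.dist_def] at h2
  have h4 : eLpNorm (⇑(Lp.compMeasurePreserving (⇑(g y)) (hmp' y) (hw.toLp w)) - ⇑(hw.toLp w)) p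
      volume = eLpNorm (fun x => w (x - y) - w x) p volume := by
    refine eLpNorm_congr_ae ?_
    have h5 : ∀ᵐ x, (hw.toLp w : E → ℝ) (x - y) = w (x - y) :=
      (hmp y).quasiMeasurePreserving.ae (hw.coeFn_toLp)
    filter_upwards [Lp.coeFn_compMeasurePreserving (hw.toLp w) (hmp' y), hw.coeFn_toLp, h5] with x
      hx1 hx2 hx3
    rw [Pi.sub_apply, hx1, hx2, hg]
    simp only [Function.comp_apply, ContinuousMap.coe_mk]
    rw [hx3]
  rw [h4] at h2
  refine (ENNReal.le_ofReal_iff_toReal_le ?_ hε.le).2 h2.le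
  have h5 : MemLp (fun x => w (x - y) - w x) p volume :=
    (hw.comp_measurePreserving (hmp y)).sub hw
  exact h5.2.ne

/-- convergence of the mollifications -/
theorem mc_tendsto {p : ℝ≥0∞} (h1 : 1 ≤ p) (hp : p ≠ ⊤) {w : E → ℝ} (hw : MemLp w p volume) :
    Tendsto (fun n => eLpNorm (fun x => mc (ph n) w x - w x) p volume) atTop (𝓝 0) := by
  rw [ENNReal.tendsto_nhds_zero]
  intro ε hε
  rcases eq_or_ne ε ⊤ with hε' | hε'
  · rw [hε']
    exact Eventually.of_forall fun n => le_top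
  have hεr : 0 < ε.toReal := ENNReal.toReal_pos hε.ne' hε'
  obtain ⟨δ, hδ, hδ'⟩ := trans_small h1 hp hw hεr
  have hN : ∀ᶠ n : ℕ in atTop, 1 / ((n : ℝ) + 1) < δ :=
    (tendsto_one_div_add_atTop_nhds_zero_nat).eventually (gt_mem_nhds hδ)
  filter_upwards [hN] with n hn
  -- a measurable representative
  obtain ⟨w', hw', hww'⟩ := hw.1
  have hw2 : MemLp w' p volume := hw.ae_eq hww'
  have e1 : eLpNorm (fun x => mc (ph n) w x - w x) p volume =
      eLpNorm (fun x => mc (ph n) w' x - w' x) p volume := by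
    rw [mc_congr hww']
    refine eLpNorm_congr_ae ?_
    filter_upwards [hww'] with x hx
    rw [hx]
  rw [e1]
  refine mc_sub_le_aux h1 hp (ph_test n) (ph_nonneg n) (ph_int n) hw' (hw2.locallyIntegrable h1) ?_
  intro y hy
  have hy' : ‖y‖ < 1 / ((n : ℝ) + 1) := by
    by_contra h
    exact hy (ph_supp n (not_lt.1 h))
  have h2 := hδ' y (hy'.trans hn)
  rw [ENNReal.ofReal_toReal hε'] at h2
  refine le_trans (le_of_eq ?_) h2
  refine eLpNorm_congr_ae ?_
  have h5 : ∀ᵐ x, w (x - y) = w' (x - y) :=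
    (measurePreserving_sub_right volume y).quasiMeasurePreserving.ae hww'
  filter_upwards [hww', h5] with x hx1 hx2
  rw [hx1, hx2]

/-- cut-off of a weak derivative -/
theorem wd_mul {i : Fin 5} {w g χ : E → ℝ} (hχ : IsTest χ) (hw : LocallyIntegrable w volume)
    (hg : LocallyIntegrable g volume) (h : WD i w g) :
    WD i (fun x => χ x * w x) (fun x => χ x * g x + pd i χ x * w x) := by
  intro φ hφ
  have h1 := h (fun x => χ x * φ x) (test_mul hχ hφ.1)
  have hint : ∀ (u ψ : E → ℝ), LocallyIntegrable u volume → IsTest ψ →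
      Integrable (fun x => u x * ψ x) volume := by
    intro u ψ hu hψ
    have h2 := (hu.integrable_smul_right_of_hasCompactSupport hψ.1.continuous hψ.2)
    simpa [mul_comm] using h2
  have i1 := hint w (fun x => pd i χ x * φ x) hw (test_mul (test_pd hχ i) hφ.1)
  have i2 := hint w (fun x => χ x * pd i φ x) hw (test_mul hχ (test_pd hφ i).1)
  have i3 := hint g (fun x => χ x * φ x) hg (test_mul hχ hφ.1)
  have e1 : ∫ x, w x * pd i (fun x => χ x * φ x) x =
      (∫ x, w x * (pd i χ x * φ x)) + ∫ x, w x * (χ x * pd i φ x) := by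
    rw [← integral_add i1 i2]
    refine integral_congr_ae (Eventually.of_forall fun x => ?_)
    simp only
    rw [pd_mul (test_diff hχ x) (test_diff hφ x)]
    ring
  rw [e1] at h1
  have e2 : ∫ x, χ x * w x * pd i φ x = ∫ x, w x * (χ x * pd i φ x) := by
    refine integral_congr_ae (Eventually.of_forall fun x => ?_)
    simp only
    ring
  have e3 : ∫ x, (χ x * g x + pd i χ x * w x) * φ x =
      (∫ x, g x * (χ x * φ x)) + ∫ x, w x * (pd i χ x * φ x) := by
    rw [← integral_add i3 i1]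
    refine integral_congr_ae (Eventually.of_forall fun x => ?_)
    simp only
    ring
  rw [e2, e3]
  linarith

end Pool.Agent.QWE.Moll
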