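import Pool.Agent.QWE.StA
import Pool.Agent.QWE.StB

set_option autoImplicit false

/-!
# QWE, module MorI: the static Morawetz identity (helper27)
-/

open MeasureTheory Filter Topology Set
open scoped ENNReal NNReal RealInnerProductSpace Pointwise

namespace Pool.Agent.QWE

namespace MorIx

/-- the basis vectors. -/
noncomputable def eb (i : Fin 5) : E := EuclideanSpace.single i (1 : ℝ)

/-- `1 / √(1 + |x|²)`. -/
noncomputable def rr (x : E) : ℝ := (√(1 + ‖x‖ ^ 2))⁻¹

lemma rr_pos (x : E) : 0 < rr x := by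
  unfold rr
  positivity

lemma rr_sq (x : E) : rr x ^ 2 * (1 + ‖x‖ ^ 2) = 1 := by
  unfold rr
  rw [inv_pow, Real.sq_sqrt (by positivity)]
  exact inv_mul_cancel₀ (by positivity)

lemma norm_sq (x : E) : ‖x‖ ^ 2 = ∑ i, x i ^ 2 := EuclideanSpace.real_norm_sq_eq x

lemma rr_smooth : ContDiff ℝ ((⊤ : ℕ∞) : WithTop ℕ∞) rr := by
  unfold rr
  have h1 : ContDiff ℝ ((⊤ : ℕ∞) : WithTop ℕ∞) (fun x : E => 1 + ‖x‖ ^ 2) :=
    contDiff_const.add (contDiff_norm_sq ℝ)
  have h2 : ContDiff ℝ ((⊤ : ℕ∞) : WithTop ℕ∞) (fun x : E => √(1 + ‖x‖ ^ 2)) :=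
    h1.sqrt (fun x => by positivity)
  exact h2.inv (fun x => by positivity)

/-- derivative along a basis vector as a derivative in one variable. -/
lemma hd_of_diff {F : E → ℝ} (hF : Differentiable ℝ F) (j : Fin 5) (x : E) :
    HasDerivAt (fun t : ℝ => F (x + t • eb j)) (pd j F x) 0 := by
  have h1 : HasDerivAt (fun t : ℝ => x + t • eb j) (eb j) 0 := by
    have h2 := ((hasDerivAt_id (0 : ℝ)).smul_const (eb j)).const_add x
    simpa using h2
  have h3 : HasFDerivAt F (fderiv ℝ F x) (x + (0 : ℝ) • eb j) := by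
    rw [zero_smul, add_zero]
    exact (hF x).hasFDerivAt
  have h4 := h3.comp_hasDerivAt (0 : ℝ) h1
  exact h4

lemma pd_eq_of_hd {F : E → ℝ} (hF : Differentiable ℝ F) (j : Fin 5) (x : E) (c : ℝ)
    (h : HasDerivAt (fun t : ℝ => F (x + t • eb j)) c 0) : pd j F x = c :=
  (hd_of_diff hF j x).unique h

/-- coordinates. -/
lemma hd_coord (i j : Fin 5) (x : E) :
    HasDerivAt (fun t : ℝ => (x + t • eb j) i) (if i = j then 1 else 0) 0 := by
  have h1 : (fun t : ℝ => (x + t • eb j) i) = fun t : ℝ => x i + t * (if i = j then 1 else 0) := by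
    funext t
    simp [eb]
  rw [h1]
  have h2 := ((hasDerivAt_id (0 : ℝ)).mul_const (if i = j then (1 : ℝ) else 0)).const_add (x i)
  simpa using h2

lemma hd_rr (j : Fin 5) (x : E) :
    HasDerivAt (fun t : ℝ => rr (x + t • eb j)) (- x j * rr x ^ 3) 0 := by
  have h1 : (fun t : ℝ => rr (x + t • eb j)) =
      fun t : ℝ => (√(1 + ∑ i, ((x + t • eb j) i) ^ 2))⁻¹ := by
    funext t
    unfold rr
    rw [norm_sq]
  rw [h1]
  have h2 : HasDerivAt (fun t : ℝ => ∑ i, ((x + t • eb j) i) ^ 2) (2 * x j) 0 := by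
    have h3 : HasDerivAt (fun t : ℝ => ∑ i, ((x + t • eb j) i) ^ 2)
        (∑ i, 2 * ((x + (0 : ℝ) • eb j) i) * (if i = j then 1 else 0)) 0 := by
      refine HasDerivAt.fun_sum fun i _ => ?_
      have h4 := (hd_coord i j x).fun_pow 2
      refine h4.congr_deriv ?_
      norm_num
    refine h3.congr_deriv ?_
    simp
  have h5 : HasDerivAt (fun t : ℝ => 1 + ∑ i, ((x + t • eb j) i) ^ 2) (2 * x j) 0 :=
    h2.const_add 1
  have h6 : (1 + ∑ i, ((x + (0 : ℝ) • eb j) i) ^ 2) = 1 + ‖x‖ ^ 2 := by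
    rw [norm_sq, zero_smul, add_zero]
  have h7 : (1 + ∑ i, ((x + (0 : ℝ) • eb j) i) ^ 2) ≠ 0 := by
    rw [h6]
    positivity
  have h8 := (h5.sqrt h7)
  have h9 : √(1 + ∑ i, ((x + (0 : ℝ) • eb j) i) ^ 2) ≠ 0 := by
    rw [h6]
    positivity
  have h10 := h8.inv h9
  refine h10.congr_deriv ?_
  rw [h6]
  unfold rr
  have h11 : √(1 + ‖x‖ ^ 2) ≠ 0 := by positivity
  field_simp

/-- the integral of a derivative. -/
lemma int_pd {F : E → ℝ} (hF : ContDiff ℝ 1 F) (hs : HasCompactSupport F) (j : Fin 5) :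
    ∫ x, pd j F x = 0 := by
  have hd : Differentiable ℝ F := hF.differentiable (by norm_num)
  have h1 : Continuous (fun x => fderiv ℝ F x (eb j)) :=
    (hF.continuous_fderiv (by norm_num)).clm_apply continuous_const
  have h2 : HasCompactSupport (fun x => fderiv ℝ F x (eb j)) := hs.fderiv_apply ℝ (eb j)
  have h3 : Integrable (fun x => fderiv ℝ F x (eb j)) volume := h1.integrable_of_hasCompactSupport h2
  have h4 : Integrable F volume := hF.continuous.integrable_of_hasCompactSupport hs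
  have h5 := integral_mul_fderiv_eq_neg_fderiv_mul_of_integrable (𝕜 := ℝ) (μ := (volume : Measure E))
    (f := fun _ : E => (1 : ℝ)) (g := F) (v := eb j) (by simp) (by simpa using h3) (by simpa using h4)
    (fun _ _ => differentiableAt_const _) (fun x _ => hd x)
  simpa [pd, eb] using h5

/-- the polynomial identity behind the Morawetz identity. -/
lemma poly_id (x g : Fin 5 → ℝ) (H : Fin 5 → Fin 5 → ℝ) (hH : ∀ i j, H i j = H j i) (f r : ℝ)
    (hr : r ^ 2 * (1 + ∑ i, x i ^ 2) = 1) :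
    ∑ j, (H j j * (r * ∑ i, x i * g i) +
      g j * ((-x j * r ^ 3) * (∑ i, x i * g i) + r * (g j + ∑ i, x i * H i j)) -
      (r * (∑ i, g i ^ 2) / 2 + x j * (-x j * r ^ 3) * (∑ i, g i ^ 2) / 2 +
        x j * r * ∑ i, g i * H i j) +
      (4 * (-x j * r ^ 3) + 3 * r ^ 2 * (-x j * r ^ 3)) / 2 * (f * g j) +
      (4 * r + r ^ 3) / 2 * (g j ^ 2 + f * H j j) +
      ((4 * r ^ 3 + 3 * r ^ 5) + x j * (12 * r ^ 2 * (-x j * r ^ 3) + 15 * r ^ 4 * (-x j * r ^ 3))) / 4
        * f ^ 2 +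
      x j * (4 * r ^ 3 + 3 * r ^ 5) / 4 * (2 * f * g j) -
      (6 * f ^ 5 * g j * (x j * r) + f ^ 6 * (r + x j * (-x j * r ^ 3))) / 6) =
    ((∑ i, H i i) - f ^ 5) * (r * (∑ i, x i * g i) + (r ^ 3 + 4 * r) / 2 * f) +
      4 / 3 * (f ^ 5 * (r * f)) +
      ((r * (∑ i, g i ^ 2) - r ^ 3 * (∑ i, x i * g i) ^ 2) +
        (8 * r ^ 3 + 12 * r ^ 5 + 15 * r ^ 7) / 4 * f ^ 2 + r ^ 3 * f ^ 6 / 3) := by
  simp only [Fin.sum_univ_five] at hr ⊢
  rw [hH 1 0, hH 2 0, hH 3 0, hH 4 0, hH 2 1, hH 3 1, hH 4 1, hH 3 2, hH 4 2, hH 4 3]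
  linear_combination (r * (g 0 ^ 2 + g 1 ^ 2 + g 2 ^ 2 + g 3 ^ 2 + g 4 ^ 2) / 2 -
    (12 * r ^ 3 + 15 * r ^ 5) / 4 * f ^ 2 + r * f ^ 6 / 6) * hr

/-- the remainder is nonnegative. -/
lemma poly_pos (x g : Fin 5 → ℝ) (f r : ℝ) (hr0 : 0 ≤ r)
    (hr : r ^ 2 * (1 + ∑ i, x i ^ 2) = 1) :
    0 ≤ (r * (∑ i, g i ^ 2) - r ^ 3 * (∑ i, x i * g i) ^ 2) +
        (8 * r ^ 3 + 12 * r ^ 5 + 15 * r ^ 7) / 4 * f ^ 2 + r ^ 3 * f ^ 6 / 3 := by
  have h1 : (∑ i, x i * g i) ^ 2 ≤ (∑ i, x i ^ 2) * ∑ i, g i ^ 2 :=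
    Finset.sum_mul_sq_le_sq_mul_sq _ _ _
  have h2 : 0 ≤ ∑ i, g i ^ 2 := Finset.sum_nonneg fun i _ => sq_nonneg _
  have h3 : r ^ 3 * (∑ i, x i * g i) ^ 2 ≤ r ^ 3 * ((∑ i, x i ^ 2) * ∑ i, g i ^ 2) :=
    mul_le_mul_of_nonneg_left h1 (by positivity)
  have h4 : r ^ 3 * ((∑ i, x i ^ 2) * ∑ i, g i ^ 2) ≤ r * (∑ i, g i ^ 2) := by
    have h5 : r ^ 3 * ((∑ i, x i ^ 2) * ∑ i, g i ^ 2) =
        r * (∑ i, g i ^ 2) - r ^ 3 * (∑ i, g i ^ 2) := by
      linear_combination (r * ∑ i, g i ^ 2) * hr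
    rw [h5]
    have h6 : 0 ≤ r ^ 3 * (∑ i, g i ^ 2) := by positivity
    linarith
  have h7 : 0 ≤ (8 * r ^ 3 + 12 * r ^ 5 + 15 * r ^ 7) / 4 * f ^ 2 := by positivity
  have h8 : 0 ≤ r ^ 3 * f ^ 6 / 3 := by positivity
  linarith

/-- `x · ∇f`. -/
noncomputable def S1 (f : E → ℝ) (x : E) : ℝ := ∑ i, x i * pd i f x

/-- `|∇f|²`. -/
noncomputable def G2 (f : E → ℝ) (x : E) : ℝ := ∑ i, pd i f x ^ 2

/-- the Morawetz multiplier. -/
noncomputable def mm (f : E → ℝ) (x : E) : ℝ := rr x * S1 f x + (rr x ^ 3 + 4 * rr x) / 2 * f x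

/-- the vector field. -/
noncomputable def Zf (f : E → ℝ) (j : Fin 5) (x : E) : ℝ :=
  pd j f x * (rr x * S1 f x) - x j * rr x * G2 f x / 2 +
    (4 * rr x + rr x ^ 3) / 2 * (f x * pd j f x) + x j * (4 * rr x ^ 3 + 3 * rr x ^ 5) / 4 * f x ^ 2 -
    f x ^ 6 * (x j * rr x) / 6

lemma test_diff {f : E → ℝ} (hf : IsTest f) : Differentiable ℝ f :=
  hf.1.differentiable (by simp)

lemma test_pd {f : E → ℝ} (hf : IsTest f) (i : Fin 5) : IsTest (pd i f) := by
  refine ⟨?_, hf.2.fderiv_apply ℝ _⟩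
  unfold pd
  exact (hf.1.fderiv_right (m := ((⊤ : ℕ∞) : WithTop ℕ∞)) (by simp)).clm_apply contDiff_const

lemma pd_symm {f : E → ℝ} (hf : IsTest f) (i j : Fin 5) (x : E) :
    pd j (pd i f) x = pd i (pd j f) x := by
  have h1 : ∀ a b : Fin 5, pd b (pd a f) x = fderiv ℝ (fderiv ℝ f) x (eb b) (eb a) := by
    intro a b
    have h2 : DifferentiableAt ℝ (fderiv ℝ f) x :=
      ((hf.1.fderiv_right (m := ((⊤ : ℕ∞) : WithTop ℕ∞)) (by simp)).differentiable (by simp)) x
    have h3 : HasFDerivAt (pd a f) ((fderiv ℝ (fderiv ℝ f) x).flip (eb a)) x := by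
      have h4 := h2.hasFDerivAt.clm_apply (hasFDerivAt_const (eb a) x)
      refine h4.congr_fderiv ?_
      ext v
      simp
    unfold pd at h3 ⊢
    rw [h3.fderiv]
    rfl
  rw [h1, h1]
  have h5 : IsSymmSndFDerivAt ℝ f x := by
    refine ContDiffAt.isSymmSndFDerivAt (n := ((⊤ : ℕ∞) : WithTop ℕ∞)) hf.1.contDiffAt ?_
    rw [minSmoothness_of_isRCLikeNormedField]
    exact WithTop.coe_le_coe.2 (le_top : (2 : ℕ∞) ≤ ⊤)
  exact h5.eq (eb j) (eb i)

lemma hd_Zf {f : E → ℝ} (hf : IsTest f) (j : Fin 5) (x : E) :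
    HasDerivAt (fun t : ℝ => Zf f j (x + t • eb j))
      (pd j (pd j f) x * (rr x * ∑ i, x i * pd i f x) +
      pd j f x * ((-x j * rr x ^ 3) * (∑ i, x i * pd i f x) +
        rr x * (pd j f x + ∑ i, x i * pd j (pd i f) x)) -
      (rr x * (∑ i, pd i f x ^ 2) / 2 + x j * (-x j * rr x ^ 3) * (∑ i, pd i f x ^ 2) / 2 +
        x j * rr x * ∑ i, pd i f x * pd j (pd i f) x) +
      (4 * (-x j * rr x ^ 3) + 3 * rr x ^ 2 * (-x j * rr x ^ 3)) / 2 * (f x * pd j f x) +
      (4 * rr x + rr x ^ 3) / 2 * (pd j f x ^ 2 + f x * pd j (pd j f) x) +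
      ((4 * rr x ^ 3 + 3 * rr x ^ 5) + x j * (12 * rr x ^ 2 * (-x j * rr x ^ 3) +
        15 * rr x ^ 4 * (-x j * rr x ^ 3))) / 4 * f x ^ 2 +
      x j * (4 * rr x ^ 3 + 3 * rr x ^ 5) / 4 * (2 * f x * pd j f x) -
      (6 * f x ^ 5 * pd j f x * (x j * rr x) + f x ^ 6 * (rr x + x j * (-x j * rr x ^ 3))) / 6) 0 := by
  have hx0 : x + (0 : ℝ) • eb j = x := by rw [zero_smul, add_zero]
  have hfd := hd_of_diff (test_diff hf) j x
  have hgd : ∀ i, HasDerivAt (fun t : ℝ => pd i f (x + t • eb j)) (pd j (pd i f) x) 0 :=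
    fun i => hd_of_diff (test_diff (test_pd hf i)) j x
  have hr := hd_rr j x
  have hxj : HasDerivAt (fun t : ℝ => (x + t • eb j) j) 1 0 := by
    have := hd_coord j j x
    simpa using this
  have hS : HasDerivAt (fun t : ℝ => S1 f (x + t • eb j)) (pd j f x + ∑ i, x i * pd j (pd i f) x) 0 := by
    unfold S1
    have h1 : HasDerivAt (fun t : ℝ => ∑ i, (x + t • eb j) i * pd i f (x + t • eb j))
        (∑ i, ((if i = j then 1 else 0) * pd i f (x + (0 : ℝ) • eb j) +
          (x + (0 : ℝ) • eb j) i * pd j (pd i f) x)) 0 :=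
      HasDerivAt.fun_sum fun i _ => (hd_coord i j x).fun_mul (hgd i)
    refine h1.congr_deriv ?_
    rw [hx0, Finset.sum_add_distrib]
    simp
  have hG : HasDerivAt (fun t : ℝ => G2 f (x + t • eb j)) (2 * ∑ i, pd i f x * pd j (pd i f) x) 0 := by
    unfold G2
    have h1 : HasDerivAt (fun t : ℝ => ∑ i, pd i f (x + t • eb j) ^ 2)
        (∑ i, ((2 : ℕ) : ℝ) * pd i f (x + (0 : ℝ) • eb j) ^ (2 - 1) * pd j (pd i f) x) 0 :=
      HasDerivAt.fun_sum fun i _ => (hgd i).fun_pow 2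
    refine h1.congr_deriv ?_
    rw [hx0, Finset.mul_sum]
    refine Finset.sum_congr rfl fun i _ => ?_
    norm_num
    ring
  have t1 := (hgd j).fun_mul (hr.fun_mul hS)
  have t2 := ((hxj.fun_mul hr).fun_mul hG).div_const 2
  have t3 := (((hr.const_mul 4).fun_add (hr.fun_pow 3)).div_const 2).fun_mul (hfd.fun_mul (hgd j))
  have t4 := ((hxj.fun_mul (((hr.fun_pow 3).const_mul 4).fun_add
    ((hr.fun_pow 5).const_mul 3))).div_const 4).fun_mul (hfd.fun_pow 2)
  have t5 := ((hfd.fun_pow 6).fun_mul (hxj.fun_mul hr)).div_const 6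
  have t := (((t1.fun_sub t2).fun_add t3).fun_add t4).fun_sub t5
  refine HasDerivAt.congr_deriv (f := fun t : ℝ => Zf f j (x + t • eb j)) t ?_
  rw [hx0]
  unfold S1 G2
  norm_num
  ring

lemma cont_coord (j : Fin 5) : ContDiff ℝ ((⊤ : ℕ∞) : WithTop ℕ∞) (fun x : E => x j) :=
  (EuclideanSpace.proj (𝕜 := ℝ) j).contDiff

lemma S1_smooth {f : E → ℝ} (hf : IsTest f) : ContDiff ℝ ((⊤ : ℕ∞) : WithTop ℕ∞) (S1 f) := by
  unfold S1
  exact ContDiff.sum fun i _ => (cont_coord i).mul (test_pd hf i).1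

lemma G2_smooth {f : E → ℝ} (hf : IsTest f) : ContDiff ℝ ((⊤ : ℕ∞) : WithTop ℕ∞) (G2 f) := by
  unfold G2
  exact ContDiff.sum fun i _ => (test_pd hf i).1.pow 2

lemma Zf_smooth {f : E → ℝ} (hf : IsTest f) (j : Fin 5) :
    ContDiff ℝ ((⊤ : ℕ∞) : WithTop ℕ∞) (Zf f j) := by
  unfold Zf
  have h1 := rr_smooth
  have h2 := S1_smooth hf
  have h3 := G2_smooth hf
  have h4 := cont_coord j
  have h5 := (test_pd hf j).1
  have h6 := hf.1
  exact (((((h5.mul (h1.mul h2)).sub (((h4.mul h1).mul h3).div_const 2)).add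
    ((((contDiff_const.mul h1).add (h1.pow 3)).div_const 2).mul (h6.mul h5))).add
    (((h4.mul ((contDiff_const.mul (h1.pow 3)).add (contDiff_const.mul (h1.pow 5)))).div_const 4).mul
      (h6.pow 2))).sub (((h6.pow 6).mul (h4.mul h1)).div_const 6))

lemma Zf_zero {f : E → ℝ} (j : Fin 5) (x : E) (h0 : f x = 0) (h1 : ∀ i, pd i f x = 0) :
    Zf f j x = 0 := by
  unfold Zf S1 G2
  simp [h0, h1]

/-- a function which vanishes where `f` and its derivatives vanish has compact support. -/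
lemma supp_of {f g : E → ℝ} (hf : IsTest f)
    (hg : ∀ x, f x = 0 → (∀ i, pd i f x = 0) → g x = 0) : HasCompactSupport g := by
  refine HasCompactSupport.of_support_subset_isCompact hf.2 ?_
  intro x hx
  by_contra hn
  apply hx
  have h1 : f x = 0 := image_eq_zero_of_notMem_tsupport hn
  refine hg x h1 fun i => ?_
  have h2 : x ∉ tsupport (fderiv ℝ f) := fun h => hn (tsupport_fderiv_subset ℝ h)
  have h3 : fderiv ℝ f x = 0 := image_eq_zero_of_notMem_tsupport h2
  unfold pd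
  rw [h3]
  simp

lemma Zf_supp {f : E → ℝ} (hf : IsTest f) (j : Fin 5) : HasCompactSupport (Zf f j) :=
  supp_of hf fun x h0 h1 => Zf_zero j x h0 h1

lemma mm_cont {f : E → ℝ} (hf : IsTest f) : Continuous (mm f) := by
  unfold mm
  have h1 := rr_smooth.continuous
  have h2 := (S1_smooth hf).continuous
  have h3 := hf.1.continuous
  fun_prop

lemma mm_supp {f : E → ℝ} (hf : IsTest f) : HasCompactSupport (mm f) := by
  refine supp_of hf fun x h0 h1 => ?_
  unfold mm S1
  simp [h0, h1]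

lemma lap_cont {f : E → ℝ} (hf : IsTest f) : Continuous (lap f) := by
  unfold lap
  exact continuous_finsetSum _ fun i _ => (test_pd (test_pd hf i) i).1.continuous

/-- the inequality for test functions. -/
lemma test_ineq {f : E → ℝ} (hf : IsTest f) :
    ∫ x, ((lap f x - f x ^ 5) * mm f x + 4 / 3 * (f x ^ 5 * (rr x * f x))) ≤ 0 := by
  have h1 : ∀ x, (lap f x - f x ^ 5) * mm f x + 4 / 3 * (f x ^ 5 * (rr x * f x)) ≤
      ∑ j, pd j (Zf f j) x := by
    intro x
    have h2 : ∀ j, pd j (Zf f j) x = _ := fun j =>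
      pd_eq_of_hd ((Zf_smooth hf j).differentiable (by simp)) j x _ (hd_Zf hf j x)
    rw [Finset.sum_congr rfl fun j _ => h2 j]
    have h3 := poly_id (fun i => x i) (fun i => pd i f x) (fun i j => pd j (pd i f) x)
      (fun i j => pd_symm hf i j x) (f x) (rr x) (by rw [← norm_sq]; exact rr_sq x)
    have h4 := poly_pos (fun i => x i) (fun i => pd i f x) (f x) (rr x) (rr_pos x).le
      (by rw [← norm_sq]; exact rr_sq x)
    simp only at h3 h4
    rw [h3]
    unfold lap mm S1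
    linarith
  have h5 : ∀ j, Integrable (fun x => pd j (Zf f j) x) volume := by
    intro j
    have hc : Continuous (fun x => pd j (Zf f j) x) := by
      unfold pd
      exact ((Zf_smooth hf j).continuous_fderiv (by simp)).clm_apply continuous_const
    exact hc.integrable_of_hasCompactSupport ((Zf_supp hf j).fderiv_apply ℝ _)
  have h6 : Integrable (fun x => (lap f x - f x ^ 5) * mm f x + 4 / 3 * (f x ^ 5 * (rr x * f x)))
      volume := by
    have c1 := lap_cont hf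
    have c2 := mm_cont hf
    have c3 := hf.1.continuous
    have c4 := rr_smooth.continuous
    refine Continuous.integrable_of_hasCompactSupport (by fun_prop) ?_
    refine supp_of hf fun x h0 h1 => ?_
    unfold mm S1
    simp [h0, h1]
  calc ∫ x, ((lap f x - f x ^ 5) * mm f x + 4 / 3 * (f x ^ 5 * (rr x * f x))) ≤
      ∫ x, ∑ j, pd j (Zf f j) x := integral_mono h6 (integrable_finsetSum _ fun j _ => h5 j) h1
    _ = ∑ j, ∫ x, pd j (Zf f j) x := integral_finsetSum _ fun j _ => h5 j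
    _ = 0 := by
      refine Finset.sum_eq_zero fun j _ => ?_
      exact int_pd ((Zf_smooth hf j).of_le (by simp)) (Zf_supp hf j) j

/-! ### convergence in `L²` -/

lemma l2_tendsto {an bn : ℕ → E → ℝ} {a b : E → ℝ} (han : ∀ n, MemLp (an n) 2 volume)
    (hbn : ∀ n, MemLp (bn n) 2 volume) (ha : MemLp a 2 volume) (hb : MemLp b 2 volume)
    (h1 : Tendsto (fun n => eLpNorm (fun x => an n x - a x) 2 volume) atTop (𝓝 0))
    (h2 : Tendsto (fun n => eLpNorm (fun x => bn n x - b x) 2 volume) atTop (𝓝 0)) :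
    Tendsto (fun n => ∫ x, an n x * bn n x) atTop (𝓝 (∫ x, a x * b x)) := by
  have key : ∀ (f g : E → ℝ) (hf : MemLp f 2 volume) (hg : MemLp g 2 volume),
      inner ℝ (hf.toLp f) (hg.toLp g) = ∫ x, f x * g x := by
    intro f g hf hg
    rw [L2.inner_def]
    refine integral_congr_ae ?_
    filter_upwards [hf.coeFn_toLp, hg.coeFn_toLp] with x h3 h4
    rw [h3, h4]
    simp [mul_comm]
  have t1 := (Lp.tendsto_Lp_iff_tendsto_eLpNorm'' an han a ha).2 h1
  have t2 := (Lp.tendsto_Lp_iff_tendsto_eLpNorm'' bn hbn b hb).2 h2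
  have t3 := t1.inner t2 (𝕜 := ℝ)
  simp only [key] at t3
  exact t3

instance holder_inst : ENNReal.HolderTriple 10 (5 / 2) 2 := by
  refine ⟨?_⟩
  have h1 : (5 / 2 : ℝ≥0∞) = ENNReal.ofReal (5 / 2) := by
    rw [ENNReal.ofReal_div_of_pos (by norm_num)]
    norm_num
  have h2 : (10 : ℝ≥0∞) = ENNReal.ofReal 10 := by norm_num
  have h3 : (2 : ℝ≥0∞) = ENNReal.ofReal 2 := by norm_num
  rw [h1, h2, h3, ← ENNReal.ofReal_inv_of_pos (by norm_num), ← ENNReal.ofReal_inv_of_pos (by norm_num),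
    ← ENNReal.ofReal_inv_of_pos (by norm_num), ← ENNReal.ofReal_add (by norm_num) (by norm_num)]
  norm_num

lemma pow5_bd {f u : E → ℝ} (hf : AEStronglyMeasurable f volume) (hu : AEStronglyMeasurable u volume) :
    eLpNorm (fun x => f x ^ 5 - u x ^ 5) 2 volume ≤
      eLpNorm (fun x => f x - u x) 10 volume * (eLpNorm f 10 volume + eLpNorm u 10 volume) ^ (4 : ℝ) := by
  set w : E → ℝ := fun x => |f x| + |u x| with hw
  have hwm : AEStronglyMeasurable w volume := hf.norm.add hu.norm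
  have h1 : eLpNorm (fun x => f x ^ 5 - u x ^ 5) 2 volume ≤
      eLpNorm ((fun x => f x - u x) • fun x => ‖w x‖ ^ (4 : ℝ)) 2 volume := by
    refine eLpNorm_mono fun x => ?_
    simp only [Pi.smul_apply', smul_eq_mul, norm_mul, Real.norm_eq_abs]
    have h2 : |w x| = |f x| + |u x| := abs_of_nonneg (by positivity)
    rw [h2]
    have h3 : ((|f x| + |u x|) ^ (4 : ℝ)) = (|f x| + |u x|) ^ 4 := by
      rw [← Real.rpow_natCast]
      norm_num
    rw [h3, abs_of_nonneg (by positivity : (0 : ℝ) ≤ (|f x| + |u x|) ^ 4)]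
    have h4 : f x ^ 5 - u x ^ 5 = (f x - u x) *
        (f x ^ 4 + f x ^ 3 * u x + f x ^ 2 * u x ^ 2 + f x * u x ^ 3 + u x ^ 4) := by ring
    rw [h4, abs_mul]
    refine mul_le_mul_of_nonneg_left ?_ (abs_nonneg _)
    have h5 : |f x ^ 4 + f x ^ 3 * u x + f x ^ 2 * u x ^ 2 + f x * u x ^ 3 + u x ^ 4| ≤
        |f x| ^ 4 + |f x| ^ 3 * |u x| + |f x| ^ 2 * |u x| ^ 2 + |f x| * |u x| ^ 3 + |u x| ^ 4 := by
      refine (abs_add_le _ _).trans (add_le_add ((abs_add_le _ _).trans (add_le_add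
        ((abs_add_le _ _).trans (add_le_add ((abs_add_le _ _).trans (add_le_add ?_ ?_)) ?_)) ?_)) ?_)
      all_goals simp [abs_mul, abs_pow]
    refine h5.trans ?_
    have a0 := abs_nonneg (f x)
    have b0 := abs_nonneg (u x)
    have h6 : (|f x| + |u x|) ^ 4 = |f x| ^ 4 + |f x| ^ 3 * |u x| + |f x| ^ 2 * |u x| ^ 2 +
        |f x| * |u x| ^ 3 + |u x| ^ 4 + (3 * |f x| ^ 3 * |u x| + 5 * |f x| ^ 2 * |u x| ^ 2 +
          3 * |f x| * |u x| ^ 3) := by ring
    rw [h6]
    have : 0 ≤ 3 * |f x| ^ 3 * |u x| + 5 * |f x| ^ 2 * |u x| ^ 2 + 3 * |f x| * |u x| ^ 3 := by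
      positivity
    linarith
  have hm4 : AEStronglyMeasurable (fun x => ‖w x‖ ^ (4 : ℝ)) volume :=
    (hwm.norm.aemeasurable.pow_const (4 : ℝ)).aestronglyMeasurable
  have h2 := eLpNorm_smul_le_mul_eLpNorm (p := 10) (q := 5 / 2) (r := 2) (μ := (volume : Measure E))
    hm4 (hf.sub hu)
  have h3 : eLpNorm (fun x => ‖w x‖ ^ (4 : ℝ)) (5 / 2) volume = eLpNorm w 10 volume ^ (4 : ℝ) := by
    rw [eLpNorm_norm_rpow w (by norm_num : (0 : ℝ) < 4)]
    congr 2
    have h4 : ENNReal.ofReal 4 = 4 := by norm_num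
    rw [h4]
    have h1 : (5 / 2 : ℝ≥0∞) = ENNReal.ofReal (5 / 2) := by
      rw [ENNReal.ofReal_div_of_pos (by norm_num)]
      norm_num
    rw [h1, ← h4, ← ENNReal.ofReal_mul (by norm_num)]
    norm_num
  have h5 : eLpNorm w 10 volume ≤ eLpNorm f 10 volume + eLpNorm u 10 volume := by
    have h6 := eLpNorm_add_le (p := 10) (μ := (volume : Measure E)) hf.norm hu.norm (by norm_num)
    rw [eLpNorm_norm, eLpNorm_norm] at h6
    exact h6
  refine h1.trans (h2.trans ?_)
  rw [h3]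
  exact mul_le_mul_right (ENNReal.rpow_le_rpow h5 (by norm_num)) _

lemma pow5_memLp {u : E → ℝ} (hu : MemLp u 10 volume) : MemLp (fun x => u x ^ 5) 2 volume := by
  refine ⟨hu.1.pow 5, ?_⟩
  have h1 := pow5_bd (f := u) (u := fun _ => 0) hu.1 aestronglyMeasurable_const
  simp only [ne_eq, OfNat.ofNat_ne_zero, not_false_eq_true, zero_pow, sub_zero] at h1
  refine h1.trans_lt ?_
  have h2 : eLpNorm (fun _ : E => (0 : ℝ)) 10 volume = 0 := by simp
  rw [h2, add_zero]
  exact ENNReal.mul_lt_top hu.2 (ENNReal.rpow_lt_top_of_nonneg (by norm_num) hu.2.ne)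

/-! ### the multiplier -/

/-- the multiplier for general functions. -/
noncomputable def MM (D : Fin 5 → E → ℝ) (u : E → ℝ) (x : E) : ℝ :=
  rr x * (∑ i, x i * D i x) + (rr x ^ 3 + 4 * rr x) / 2 * u x

lemma rr_le_one (x : E) : rr x ≤ 1 := by
  have h1 := rr_sq x
  have h2 := rr_pos x
  by_contra hn
  push Not at hn
  have h3 : 1 < rr x ^ 2 := by nlinarith
  nlinarith [sq_nonneg ‖x‖]

lemma rr_coord (x : E) (i : Fin 5) : rr x * |x i| ≤ 1 := by
  have h1 := rr_sq x
  have h2 := rr_pos x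
  have h3 : x i ^ 2 ≤ ‖x‖ ^ 2 := by
    rw [norm_sq]
    exact Finset.single_le_sum (f := fun i => x i ^ 2) (fun i _ => sq_nonneg _) (Finset.mem_univ i)
  have h4 : (rr x * |x i|) ^ 2 ≤ 1 ^ 2 := by
    rw [mul_pow, sq_abs, one_pow]
    nlinarith [sq_nonneg (rr x)]
  exact (sq_le_sq₀ (by positivity) (by norm_num)).1 h4

lemma rr_meas : AEStronglyMeasurable rr (volume : Measure E) :=
  rr_smooth.continuous.aestronglyMeasurable

lemma cc_meas : AEStronglyMeasurable (fun x : E => (rr x ^ 2 + 4) / 2) (volume : Measure E) := by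
  have h := rr_smooth.continuous
  have h2 : Continuous (fun x : E => (rr x ^ 2 + 4) / 2) := by fun_prop
  exact h2.aestronglyMeasurable

lemma coord_meas (i : Fin 5) : AEStronglyMeasurable (fun x : E => x i) (volume : Measure E) :=
  (cont_coord i).continuous.aestronglyMeasurable

lemma MM_eq (D : Fin 5 → E → ℝ) (u : E → ℝ) :
    MM D u = (∑ i, fun x : E => rr x * x i * D i x) + fun x => (rr x ^ 2 + 4) / 2 * (rr x * u x) := by
  funext x
  unfold MM
  rw [Pi.add_apply, Finset.sum_apply, Finset.mul_sum]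
  congr 1
  · refine Finset.sum_congr rfl fun i _ => ?_
    ring
  · ring

lemma MM_meas {D : Fin 5 → E → ℝ} {u : E → ℝ} (hD : ∀ i, AEStronglyMeasurable (D i) volume)
    (hu : AEStronglyMeasurable u volume) : AEStronglyMeasurable (MM D u) volume := by
  rw [MM_eq]
  refine AEStronglyMeasurable.add ?_ ?_
  · exact Finset.aestronglyMeasurable_sum _ fun i _ => (rr_meas.mul (coord_meas i)).mul (hD i)
  · exact cc_meas.mul (rr_meas.mul hu)

lemma MM_bd {D : Fin 5 → E → ℝ} {u : E → ℝ} (hD : ∀ i, AEStronglyMeasurable (D i) volume)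
    (hu : AEStronglyMeasurable u volume) :
    eLpNorm (MM D u) 2 volume ≤ (∑ i, eLpNorm (D i) 2 volume) +
      ENNReal.ofReal (5 / 2) * eLpNorm (fun x => rr x * u x) 2 volume := by
  rw [MM_eq]
  have m1 : ∀ i ∈ (Finset.univ : Finset (Fin 5)),
      AEStronglyMeasurable (fun x : E => rr x * x i * D i x) volume :=
    fun i _ => (rr_meas.mul (coord_meas i)).mul (hD i)
  have m2 : AEStronglyMeasurable (fun x : E => (rr x ^ 2 + 4) / 2 * (rr x * u x)) volume :=
    cc_meas.mul (rr_meas.mul hu)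
  refine (eLpNorm_add_le (Finset.aestronglyMeasurable_sum _ m1) m2 (by norm_num)).trans ?_
  refine add_le_add ((eLpNorm_sum_le m1 (by norm_num)).trans (Finset.sum_le_sum fun i _ => ?_)) ?_
  · refine eLpNorm_mono fun x => ?_
    rw [norm_mul, norm_mul, Real.norm_eq_abs, Real.norm_eq_abs, abs_of_pos (rr_pos x)]
    calc rr x * |x i| * ‖D i x‖ ≤ 1 * ‖D i x‖ :=
          mul_le_mul_of_nonneg_right (rr_coord x i) (norm_nonneg _)
      _ = ‖D i x‖ := one_mul _
  · refine eLpNorm_le_mul_eLpNorm_of_ae_le_mul (Eventually.of_forall fun x => ?_) 2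
    rw [norm_mul]
    refine mul_le_mul_of_nonneg_right ?_ (norm_nonneg _)
    have h1 := rr_le_one x
    have h2 := rr_pos x
    rw [Real.norm_eq_abs, abs_of_pos (by positivity)]
    nlinarith

/-- the multiplier of a state. -/
noncomputable def mk (k : K) (x : E) : ℝ :=
  (∑ i, x i * DU k i x) / √(1 + ‖x‖ ^ 2) +
    (1 / (√(1 + ‖x‖ ^ 2)) ^ 3 + 4 / √(1 + ‖x‖ ^ 2)) / 2 * U k x

lemma mk_eq (k : K) : mk k = MM (DU k) (U k) := by
  funext x
  unfold mk MM rr
  have h : √(1 + ‖x‖ ^ 2) ≠ 0 := by positivity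
  field_simp

lemma mm_eq (f : E → ℝ) : mm f = MM (fun i => pd i f) f := rfl

lemma rr_div (u : E → ℝ) : (fun x => u x / √(1 + ‖x‖ ^ 2)) = fun x => rr x * u x := by
  funext x
  unfold rr
  rw [div_eq_inv_mul]

lemma memLp_test {f : E → ℝ} (hf : IsTest f) (p : ℝ≥0∞) : MemLp f p volume :=
  hf.1.continuous.memLp_of_hasCompactSupport hf.2

end MorIx

open MorIx in
theorem thm_MorI (hFld : St_Fld) (hLin : St_Lin) (hFEd : St_FEd) : St_MorI := by
  obtain ⟨CF, hCF, hF⟩ := hFld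
  obtain ⟨CE, hCE, hE⟩ := hFEd
  obtain ⟨hL1, hL2, _⟩ := hLin
  refine ⟨1 + 5 / 2 * CE, by positivity, ?_⟩
  intro k hk
  have mU : AEStronglyMeasurable (U k) volume := (hF k).1.1.1
  have mD : ∀ i, AEStronglyMeasurable (DU k i) volume := fun i => (hk.1 i).1
  obtain ⟨⟨f, g, hfg, hfg1, hfg2, hfg3⟩, _, _, hHardy⟩ := hE k hk
  have hbd : eLpNorm (mk k) 2 volume ≤
      ENNReal.ofReal (1 + 5 / 2 * CE) * ∑ i, eLpNorm (DU k i) 2 volume := by
    rw [mk_eq]
    refine (MM_bd mD mU).trans ?_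
    rw [rr_div] at hHardy
    rw [ENNReal.ofReal_add (by norm_num) (by positivity), add_mul, ENNReal.ofReal_one, one_mul,
      ENNReal.ofReal_mul (by norm_num), mul_assoc]
    exact add_le_add le_rfl (mul_le_mul_right hHardy _)
  have hsum : ∑ i, eLpNorm (DU k i) 2 volume < ⊤ := by
    rw [ENNReal.sum_lt_top]
    exact fun i _ => (hk.1 i).2
  have hmm : MemLp (mk k) 2 volume := by
    refine ⟨?_, hbd.trans_lt (ENNReal.mul_lt_top ENNReal.ofReal_lt_top hsum)⟩
    rw [mk_eq]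
    exact MM_meas mD mU
  refine ⟨mk k, hmm, Eventually.of_forall fun x => rfl, hbd, ?_⟩
  -- the differences
  set d : ℕ → K := fun n => Theta (f n) (g n) + (-1 : ℝ) • k with hd
  have hd0 : Tendsto (fun n => ‖d n‖ₑ) atTop (𝓝 0) := by
    have h1 : Tendsto d atTop (𝓝 (k + (-1 : ℝ) • k)) := hfg1.add_const _
    have h2 : k + (-1 : ℝ) • k = 0 := by rw [neg_one_smul, add_neg_cancel]
    rw [h2] at h1
    have h3 := h1.enorm
    rwa [enorm_zero] at h3
  have dU : ∀ n, U (d n) =ᵐ[volume] fun x => f n x - U k x := by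
    intro n
    filter_upwards [(hL1 (-1) (Theta (f n) (g n)) k).1, (hL2 (f n) (g n) (hfg n).1 (hfg n).2).1]
      with x h1 h2
    rw [h1, h2]
    ring
  have dD : ∀ n i, DU (d n) i =ᵐ[volume] fun x => pd i (f n) x - DU k i x := by
    intro n i
    filter_upwards [(hL1 (-1) (Theta (f n) (g n)) k).2.2.1 i,
      (hL2 (f n) (g n) (hfg n).1 (hfg n).2).2.2.1 i] with x h1 h2
    rw [h1, h2]
    ring
  have dV : ∀ n, V (d n) =ᵐ[volume] fun x => g n x - V k x := by
    intro n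
    filter_upwards [(hL1 (-1) (Theta (f n) (g n)) k).2.1,
      (hL2 (f n) (g n) (hfg n).1 (hfg n).2).2.1] with x h1 h2
    rw [h1, h2]
    ring
  have dDD : ∀ n i, DDU (d n) i i =ᵐ[volume] fun x => pd i (pd i (f n)) x - DDU k i i x := by
    intro n i
    filter_upwards [(hL1 (-1) (Theta (f n) (g n)) k).2.2.2.1 i i,
      (hL2 (f n) (g n) (hfg n).1 (hfg n).2).2.2.2.1 i i] with x h1 h2
    rw [h1, h2]
    ring
  have dFE : ∀ n, FE (d n) := by
    intro n
    refine ⟨fun i => ?_, ?_⟩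
    · refine MemLp.ae_eq (dD n i).symm ?_
      exact (memLp_test (test_pd (hfg n).1 i) 2).sub (hk.1 i)
    · refine MemLp.ae_eq (dV n).symm ?_
      exact (memLp_test (hfg n).2 2).sub hk.2
  have hDto : Tendsto (fun n => ∑ i, eLpNorm (fun x => pd i (f n) x - DU k i x) 2 volume) atTop
      (𝓝 0) := by
    have h1 := tendsto_finsetSum (Finset.univ : Finset (Fin 5)) fun i _ => hfg2 i
    simpa using h1
  have hHto : Tendsto (fun n => eLpNorm (fun x => rr x * (f n x - U k x)) 2 volume) atTop (𝓝 0) := by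
    have h1 : ∀ n, eLpNorm (fun x => rr x * (f n x - U k x)) 2 volume ≤
        ENNReal.ofReal CE * ∑ i, eLpNorm (fun x => pd i (f n) x - DU k i x) 2 volume := by
      intro n
      have h2 := (hE (d n) (dFE n)).2.2.2
      rw [rr_div] at h2
      have h3 : eLpNorm (fun x => rr x * U (d n) x) 2 volume =
          eLpNorm (fun x => rr x * (f n x - U k x)) 2 volume := by
        refine eLpNorm_congr_ae ?_
        filter_upwards [dU n] with x h4
        rw [h4]
      have h5 : ∑ i, eLpNorm (DU (d n) i) 2 volume =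
          ∑ i, eLpNorm (fun x => pd i (f n) x - DU k i x) 2 volume :=
        Finset.sum_congr rfl fun i _ => eLpNorm_congr_ae (dD n i)
      rw [h3, h5] at h2
      exact h2
    have h6 := ENNReal.Tendsto.const_mul (a := ENNReal.ofReal CE) hDto (Or.inr ENNReal.ofReal_ne_top)
    rw [mul_zero] at h6
    exact tendsto_of_tendsto_of_tendsto_of_le_of_le tendsto_const_nhds h6 (fun _ => zero_le) h1
  have hMto : Tendsto (fun n => eLpNorm (fun x => mm (f n) x - mk k x) 2 volume) atTop (𝓝 0) := by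
    have h1 : ∀ n, eLpNorm (fun x => mm (f n) x - mk k x) 2 volume ≤
        (∑ i, eLpNorm (fun x => pd i (f n) x - DU k i x) 2 volume) +
        ENNReal.ofReal (5 / 2) * eLpNorm (fun x => rr x * (f n x - U k x)) 2 volume := by
      intro n
      have h2 : (fun x => mm (f n) x - mk k x) =
          MM (fun i x => pd i (f n) x - DU k i x) (fun x => f n x - U k x) := by
        funext x
        rw [mm_eq, mk_eq]
        unfold MM
        simp only [mul_sub, Finset.sum_sub_distrib]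
        ring
      rw [h2]
      exact MM_bd (fun i => (memLp_test (test_pd (hfg n).1 i) 2).1.sub (mD i))
        ((memLp_test (hfg n).1 2).1.sub mU)
    have h6 := ENNReal.Tendsto.const_mul (a := ENNReal.ofReal (5 / 2)) hHto
      (Or.inr ENNReal.ofReal_ne_top)
    rw [mul_zero] at h6
    have h7 := hDto.add h6
    rw [add_zero] at h7
    exact tendsto_of_tendsto_of_tendsto_of_le_of_le tendsto_const_nhds h7 (fun _ => zero_le) h1
  have hdC : Tendsto (fun n => ENNReal.ofReal CF * ‖d n‖ₑ) atTop (𝓝 0) := by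
    have h6 := ENNReal.Tendsto.const_mul (a := ENNReal.ofReal CF) hd0 (Or.inr ENNReal.ofReal_ne_top)
    rwa [mul_zero] at h6
  have hLto : Tendsto (fun n => eLpNorm (fun x => lap (f n) x - LU k x) 2 volume) atTop (𝓝 0) := by
    have h1 : ∀ n, eLpNorm (fun x => lap (f n) x - LU k x) 2 volume ≤
        ∑ i : Fin 5, ENNReal.ofReal CF * ‖d n‖ₑ := by
      intro n
      have h2 : (fun x => lap (f n) x - LU k x) =
          ∑ i, fun x => pd i (pd i (f n)) x - DDU k i i x := by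
        funext x
        unfold lap LU
        rw [Finset.sum_apply, Finset.sum_sub_distrib]
      rw [h2]
      refine (eLpNorm_sum_le (fun i _ => (memLp_test (test_pd (test_pd (hfg n).1 i) i) 2).1.sub
        ((hF k).2.2.2.1 i i).1.1) (by norm_num)).trans (Finset.sum_le_sum fun i _ => ?_)
      have h3 : eLpNorm (pd i (pd i (f n)) - DDU k i i) 2 volume = eLpNorm (DDU (d n) i i) 2 volume :=
        (eLpNorm_congr_ae (dDD n i)).symm
      rw [h3]
      exact ((hF (d n)).2.2.2.1 i i).2.2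
    have h7 := tendsto_finsetSum (Finset.univ : Finset (Fin 5)) fun _ _ => hdC
    simp only [Finset.sum_const_zero] at h7
    exact tendsto_of_tendsto_of_tendsto_of_le_of_le tendsto_const_nhds h7 (fun _ => zero_le) h1
  have hPto : Tendsto (fun n => eLpNorm (fun x => f n x ^ 5 - U k x ^ 5) 2 volume) atTop (𝓝 0) := by
    have h1 : ∀ n, eLpNorm (fun x => f n x ^ 5 - U k x ^ 5) 2 volume ≤
        ENNReal.ofReal CF * ‖d n‖ₑ * ((ENNReal.ofReal CF * ‖d n‖ₑ + eLpNorm (U k) 10 volume) +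
          eLpNorm (U k) 10 volume) ^ (4 : ℝ) := by
      intro n
      have h2 : eLpNorm (fun x => f n x - U k x) 10 volume ≤ ENNReal.ofReal CF * ‖d n‖ₑ := by
        rw [← eLpNorm_congr_ae (dU n)]
        exact (hF (d n)).1.2
      refine (pow5_bd (memLp_test (hfg n).1 10).1 mU).trans (mul_le_mul' h2 ?_)
      refine ENNReal.rpow_le_rpow (add_le_add ?_ le_rfl) (by norm_num)
      have h3 : f n = (fun x => f n x - U k x) + U k := by
        funext x
        simp
      calc eLpNorm (f n) 10 volume = eLpNorm ((fun x => f n x - U k x) + U k) 10 volume := by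
            rw [← h3]
        _ ≤ eLpNorm (fun x => f n x - U k x) 10 volume + eLpNorm (U k) 10 volume :=
            eLpNorm_add_le ((memLp_test (hfg n).1 10).1.sub mU) mU (by norm_num)
        _ ≤ _ := add_le_add h2 le_rfl
    have h4 : Tendsto (fun n => ((ENNReal.ofReal CF * ‖d n‖ₑ + eLpNorm (U k) 10 volume) +
          eLpNorm (U k) 10 volume) ^ (4 : ℝ)) atTop
        (𝓝 (((0 + eLpNorm (U k) 10 volume) + eLpNorm (U k) 10 volume) ^ (4 : ℝ))) :=
      ((hdC.add tendsto_const_nhds).add tendsto_const_nhds).ennrpow_const 4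
    have h5 : ((0 + eLpNorm (U k) 10 volume) + eLpNorm (U k) 10 volume) ^ (4 : ℝ) ≠ ⊤ := by
      refine (ENNReal.rpow_lt_top_of_nonneg (by norm_num) ?_).ne
      rw [zero_add]
      exact (ENNReal.add_lt_top.2 ⟨(hF k).1.1.2, (hF k).1.1.2⟩).ne
    have h6 := ENNReal.Tendsto.mul hdC (Or.inr h5) h4 (Or.inr ENNReal.zero_ne_top)
    rw [zero_mul] at h6
    exact tendsto_of_tendsto_of_tendsto_of_le_of_le tendsto_const_nhds h6 (fun _ => zero_le) h1
  -- integrability of the limits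
  have mLU : MemLp (LU k) 2 volume := by
    have h1 : LU k = ∑ i, DDU k i i := by
      funext x
      rw [Finset.sum_apply]
      rfl
    rw [h1]
    exact memLp_finsetSum' _ fun i _ => ((hF k).2.2.2.1 i i).1
  have mP : MemLp (fun x => U k x ^ 5) 2 volume := pow5_memLp (hF k).1.1
  have mLf : ∀ n, MemLp (lap (f n)) 2 volume := by
    intro n
    have h1 : lap (f n) = ∑ i, pd i (pd i (f n)) := by
      funext x
      rw [Finset.sum_apply]
      rfl
    rw [h1]
    exact memLp_finsetSum' _ fun i _ => memLp_test (test_pd (test_pd (hfg n).1 i) i) 2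
  have mPf : ∀ n, MemLp (fun x => f n x ^ 5) 2 volume := fun n => pow5_memLp (memLp_test (hfg n).1 10)
  have mmf : ∀ n, MemLp (mm (f n)) 2 volume := fun n =>
    (mm_cont (hfg n).1).memLp_of_hasCompactSupport (mm_supp (hfg n).1)
  have mRf : ∀ n, MemLp (fun x => rr x * f n x) 2 volume := by
    intro n
    refine (rr_smooth.continuous.mul (hfg n).1.1.continuous).memLp_of_hasCompactSupport ?_
    exact (hfg n).1.2.mul_left
  have mR : MemLp (fun x => rr x * U k x) 2 volume := by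
    refine ⟨rr_meas.mul mU, ?_⟩
    rw [rr_div] at hHardy
    exact hHardy.trans_lt (ENNReal.mul_lt_top ENNReal.ofReal_lt_top hsum)
  have t1 : Tendsto (fun n => ∫ x, (lap (f n) x - f n x ^ 5) * mm (f n) x) atTop
      (𝓝 (∫ x, (LU k x - U k x ^ 5) * mk k x)) := by
    refine l2_tendsto (an := fun n x => lap (f n) x - f n x ^ 5) (bn := fun n x => mm (f n) x)
      (a := fun x => LU k x - U k x ^ 5) (b := fun x => mk k x)
      (fun n => (mLf n).sub (mPf n)) mmf (mLU.sub mP) hmm ?_ hMto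
    have h1 : ∀ n, eLpNorm (fun x => (lap (f n) x - f n x ^ 5) - (LU k x - U k x ^ 5)) 2 volume ≤
        eLpNorm (fun x => lap (f n) x - LU k x) 2 volume +
          eLpNorm (fun x => f n x ^ 5 - U k x ^ 5) 2 volume := by
      intro n
      have h2 : (fun x => (lap (f n) x - f n x ^ 5) - (LU k x - U k x ^ 5)) =
          (fun x => lap (f n) x - LU k x) - fun x => f n x ^ 5 - U k x ^ 5 := by
        funext x
        simp only [Pi.sub_apply]
        ring
      rw [h2]
      exact eLpNorm_sub_le ((mLf n).sub mLU).1 ((mPf n).sub mP).1 (by norm_num)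
    have h3 := hLto.add hPto
    rw [add_zero] at h3
    exact tendsto_of_tendsto_of_tendsto_of_le_of_le tendsto_const_nhds h3 (fun _ => zero_le) h1
  have t2 : Tendsto (fun n => ∫ x, f n x ^ 5 * (rr x * f n x)) atTop
      (𝓝 (∫ x, U k x ^ 5 * (rr x * U k x))) := by
    refine l2_tendsto (an := fun n x => f n x ^ 5) (bn := fun n x => rr x * f n x)
      (a := fun x => U k x ^ 5) (b := fun x => rr x * U k x) mPf mRf mP mR hPto ?_
    refine hHto.congr fun n => ?_
    congr 1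
    funext x
    ring
  have t3 := t1.add (t2.const_mul (4 / 3))
  have h4 : ∀ n, (∫ x, (lap (f n) x - f n x ^ 5) * mm (f n) x) +
      4 / 3 * ∫ x, f n x ^ 5 * (rr x * f n x) ≤ 0 := by
    intro n
    rw [← integral_const_mul, ← integral_add]
    · exact test_ineq (hfg n).1
    · exact ((mLf n).sub (mPf n)).integrable_mul (mmf n)
    · exact ((mPf n).integrable_mul (mRf n)).const_mul _
  have h5 := le_of_tendsto' t3 h4
  have h6 : ∫ x, U k x ^ 6 / √(1 + ‖x‖ ^ 2) = ∫ x, U k x ^ 5 * (rr x * U k x) := by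
    refine integral_congr_ae (Eventually.of_forall fun x => ?_)
    simp only [rr]
    rw [div_eq_mul_inv]
    ring
  rw [h6]
  linarith

end Pool.Agent.QWE
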