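import Pool.Agent.QWE.StA
import Pool.Agent.QWE.StB

/-!
# QWE, NLb: bounds for the nonlinearity
-/

set_option autoImplicit false

open MeasureTheory Filter Topology Set
open scoped ENNReal NNReal RealInnerProductSpace Pointwise ContDiff

namespace Pool.Agent.QWE

namespace NLbx

lemma ht {p q r : ℝ≥0∞} (hp : p ≠ 0) (hq : q ≠ 0) (hr : r ≠ 0)
    (h : p.toReal⁻¹ + q.toReal⁻¹ = r.toReal⁻¹) : ENNReal.HolderTriple p q r := by
  refine ⟨?_⟩
  have h1 : p⁻¹ ≠ ⊤ := ENNReal.inv_ne_top.2 hp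
  have h2 : q⁻¹ ≠ ⊤ := ENNReal.inv_ne_top.2 hq
  have h3 : r⁻¹ ≠ ⊤ := ENNReal.inv_ne_top.2 hr
  rw [← ENNReal.toReal_eq_toReal_iff' (ENNReal.add_ne_top.2 ⟨h1, h2⟩) h3,
    ENNReal.toReal_add h1 h2, ENNReal.toReal_inv, ENNReal.toReal_inv, ENNReal.toReal_inv]
  exact h

lemma hoel (p q : ℝ≥0∞) {r : ℝ≥0∞} (h : ENNReal.HolderTriple p q r) {f g : E → ℝ}
    (hf : AEStronglyMeasurable f volume) (hg : AEStronglyMeasurable g volume) :
    eLpNorm (fun x => f x * g x) r volume ≤ eLpNorm f p volume * eLpNorm g q volume :=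
  eLpNorm_smul_le_mul_eLpNorm (f := g) (φ := f) hg hf

lemma hoelM (p q : ℝ≥0∞) {r : ℝ≥0∞} (h : ENNReal.HolderTriple p q r) {f g : E → ℝ}
    (hf : MemLp f p volume) (hg : MemLp g q volume) :
    MemLp (fun x => f x * g x) r volume :=
  MemLp.smul (f := g) (φ := f) hg hf

/-- convergence in `L^p` of functions in `L^p` -/
def Cv (p : ℝ≥0∞) (F : ℕ → E → ℝ) (f : E → ℝ) : Prop :=
  MemLp f p volume ∧ (∀ n, MemLp (F n) p volume) ∧
    Tendsto (fun n => eLpNorm (fun x => F n x - f x) p volume) atTop (𝓝 0)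

lemma Cv.cst {p : ℝ≥0∞} {f : E → ℝ} (h : MemLp f p volume) : Cv p (fun _ => f) f := by
  refine ⟨h, fun _ => h, ?_⟩
  have h1 : (fun _ : ℕ => eLpNorm (fun x => f x - f x) p volume) = fun _ => 0 := by
    have h2 : (fun x => f x - f x) = (0 : E → ℝ) := by ext x; simp
    rw [h2, eLpNorm_zero]
  exact h1 ▸ tendsto_const_nhds

lemma Cv.mul {p q r : ℝ≥0∞} (h : ENNReal.HolderTriple p q r) (hr : 1 ≤ r) {F G : ℕ → E → ℝ}
    {f g : E → ℝ} (hF : Cv p F f) (hG : Cv q G g) :
    Cv r (fun n x => F n x * G n x) (fun x => f x * g x) := by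
  obtain ⟨f1, f2, f3⟩ := hF
  obtain ⟨g1, g2, g3⟩ := hG
  refine ⟨hoelM p q h f1 g1, fun n => hoelM p q h (f2 n) (g2 n), ?_⟩
  have hlim : Tendsto (fun n => eLpNorm (fun x => F n x - f x) p volume *
      eLpNorm (fun x => G n x - g x) q volume + eLpNorm (fun x => F n x - f x) p volume *
      eLpNorm g q volume + eLpNorm f p volume * eLpNorm (fun x => G n x - g x) q volume)
      atTop (𝓝 0) := by
    have h1 := ENNReal.Tendsto.mul f3 (Or.inr ENNReal.zero_ne_top) g3
      (Or.inr ENNReal.zero_ne_top)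
    have h2 := ENNReal.Tendsto.mul_const f3 (b := eLpNorm g q volume) (Or.inr g1.2.ne)
    have h3 := ENNReal.Tendsto.const_mul g3 (a := eLpNorm f p volume) (Or.inr f1.2.ne)
    have h4 := (h1.add h2).add h3
    simpa using h4
  refine tendsto_of_tendsto_of_tendsto_of_le_of_le tendsto_const_nhds hlim
    (fun _ => bot_le) fun n => ?_
  have mF : AEStronglyMeasurable (fun x => F n x - f x) volume := (f2 n).1.sub f1.1
  have mG : AEStronglyMeasurable (fun x => G n x - g x) volume := (g2 n).1.sub g1.1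
  have e1 : (fun x => F n x * G n x - f x * g x) =
      ((fun x => (F n x - f x) * (G n x - g x)) + fun x => (F n x - f x) * g x) +
        fun x => f x * (G n x - g x) := by
    ext x
    simp only [Pi.add_apply]
    ring
  rw [e1]
  refine (eLpNorm_add_le ((mF.mul mG).add (mF.mul g1.1)) (f1.1.mul mG) hr).trans ?_
  refine add_le_add ((eLpNorm_add_le (mF.mul mG) (mF.mul g1.1) hr).trans ?_) (hoel p q h f1.1 mG)
  exact add_le_add (hoel p q h mF mG) (hoel p q h mF g1.1)

lemma Cv.int {F : ℕ → E → ℝ} {f : E → ℝ} (h : Cv 1 F f) :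
    Tendsto (fun n => ∫ x, F n x) atTop (𝓝 (∫ x, f x)) :=
  tendsto_integral_of_L1' f h.1.1 (Eventually.of_forall fun n => memLp_one_iff_integrable.1 (h.2.1 n))
    h.2.2

/-! ### Test functions -/

lemma test_memLp {f : E → ℝ} (hf : IsTest f) (p : ℝ≥0∞) : MemLp f p volume :=
  hf.1.continuous.memLp_of_hasCompactSupport hf.2

lemma test_pd {f : E → ℝ} (hf : IsTest f) (i : Fin 5) : IsTest (pd i f) := by
  constructor
  · exact (hf.1.fderiv_right (m := ∞) (by norm_cast)).clm_apply contDiff_const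
  · exact hf.2.fderiv_apply (𝕜 := ℝ) _

lemma test_mul_int {f g : E → ℝ} (hf : Continuous f) (hg : IsTest g) :
    Integrable (fun x => f x * g x) volume :=
  (hf.mul hg.1.continuous).integrable_of_hasCompactSupport hg.2.mul_left

lemma wd_test {f : E → ℝ} (hf : IsTest f) (i : Fin 5) :
    WD i (fun x => f x ^ 5) (fun x => 5 * f x ^ 4 * pd i f x) := by
  intro φ hφ
  have hd : ∀ x, DifferentiableAt ℝ f x := fun x => (hf.1.differentiable (by simp)) x
  have hc := hf.1.continuous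
  have hpd : ∀ x, fderiv ℝ (fun x => f x ^ 5) x (EuclideanSpace.single i (1 : ℝ)) =
      5 * f x ^ 4 * pd i f x := by
    intro x
    have h1 := ((hd x).hasFDerivAt.pow 5).fderiv
    have h2 : (fun x => f x ^ 5) = fun y => f y ^ 5 := rfl
    rw [h1]
    unfold pd
    simp
  have hcpd : Continuous (pd i f) := (test_pd hf i).1.continuous
  have h := integral_mul_fderiv_eq_neg_fderiv_mul_of_integrable (μ := (volume : Measure E))
    (f := fun x => f x ^ 5) (g := φ) (v := EuclideanSpace.single i (1 : ℝ)) ?_ ?_ ?_ ?_ ?_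
  · unfold pd at *
    rw [h]
    congr 1
    refine integral_congr_ae (Eventually.of_forall fun x => ?_)
    simp only [hpd]
  · simp only [hpd]
    exact test_mul_int ((continuous_const.mul (hc.pow 4)).mul hcpd) hφ
  · exact test_mul_int (hc.pow 5) (test_pd hφ i)
  · exact test_mul_int (hc.pow 5) hφ
  · intro x _
    exact (hd x).pow 5
  · intro x _
    exact (hφ.1.differentiable (by simp)) x

/-! ### The weak gradient of `u⁵` -/

lemma neg_add (k k' : K) : k + (-1 : ℝ) • k' = k - k' := by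
  rw [neg_smul, one_smul, sub_eq_add_neg]

lemma U_sub (lin : St_Lin) (k k' : K) :
    U (k - k') =ᵐ[volume] fun x => U k x - U k' x := by
  have h := (lin.1 (-1) k k').1
  rw [neg_add] at h
  filter_upwards [h] with x hx
  rw [hx]; ring

lemma DU_sub (lin : St_Lin) (k k' : K) (i : Fin 5) :
    DU (k - k') i =ᵐ[volume] fun x => DU k i x - DU k' i x := by
  have h := (lin.1 (-1) k k').2.2.1 i
  rw [neg_add] at h
  filter_upwards [h] with x hx
  rw [hx]; ring

lemma apx (dens : St_Dens) (k : K) : ∃ f g : ℕ → E → ℝ, (∀ n, IsTest (f n)) ∧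
    (∀ n, IsTest (g n)) ∧ Tendsto (fun n => ‖k - Theta (f n) (g n)‖ₑ) atTop (𝓝 0) := by
  have h : ∀ n : ℕ, ∃ f g : E → ℝ, IsTest f ∧ IsTest g ∧ ‖k - Theta f g‖ < 1 / ((n : ℝ) + 1) :=
    fun n => dens.2 k _ (by positivity)
  choose f g hf hg hk using h
  refine ⟨f, g, hf, hg, ?_⟩
  have h1 : Tendsto (fun n => ‖k - Theta (f n) (g n)‖) atTop (𝓝 0) :=
    squeeze_zero (fun n => norm_nonneg _) (fun n => (hk n).le)
      tendsto_one_div_add_atTop_nhds_zero_nat
  have h2 := ENNReal.tendsto_ofReal h1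
  rw [ENNReal.ofReal_zero] at h2
  simpa only [ofReal_norm] using h2

lemma wd_main (fld : St_Fld) (lin : St_Lin) (dens : St_Dens) (k : K) (i : Fin 5) :
    WD i (fun x => U k x ^ 5) (fun x => 5 * U k x ^ 4 * DU k i x) := by
  intro φ hφ
  obtain ⟨C, hC, hfld⟩ := fld
  obtain ⟨f, g, hf, hg, hlim⟩ := apx dens k
  have hlimC : Tendsto (fun n => ENNReal.ofReal C * ‖k - Theta (f n) (g n)‖ₑ) atTop (𝓝 0) := by
    have h := ENNReal.Tendsto.const_mul hlim (a := ENNReal.ofReal C) (Or.inr ENNReal.ofReal_ne_top)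
    rwa [mul_zero] at h
  have c1 : Cv 10 f (U k) := by
    refine ⟨(hfld k).1.1, fun n => test_memLp (hf n) _, ?_⟩
    refine tendsto_of_tendsto_of_tendsto_of_le_of_le tendsto_const_nhds hlimC
      (fun _ => bot_le) fun n => ?_
    refine le_trans (le_of_eq ?_) (hfld (k - Theta (f n) (g n))).1.2
    refine eLpNorm_congr_norm_ae ?_
    filter_upwards [U_sub lin k (Theta (f n) (g n)), (lin.2.1 (f n) (g n) (hf n) (hg n)).1]
      with x h1 h2
    rw [h1, h2]
    exact norm_sub_rev _ _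
  have c2 : Cv (10 / 3) (fun n => pd i (f n)) (DU k i) := by
    refine ⟨((hfld k).2.2.1 i).1, fun n => test_memLp (test_pd (hf n) i) _, ?_⟩
    refine tendsto_of_tendsto_of_tendsto_of_le_of_le tendsto_const_nhds hlimC
      (fun _ => bot_le) fun n => ?_
    refine le_trans (le_of_eq ?_) ((hfld (k - Theta (f n) (g n))).2.2.1 i).2.2
    refine eLpNorm_congr_norm_ae ?_
    filter_upwards [DU_sub lin k (Theta (f n) (g n)) i,
      (lin.2.1 (f n) (g n) (hf n) (hg n)).2.2.1 i] with x h1 h2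
    rw [h1, h2]
    exact norm_sub_rev _ _
  have u2 := Cv.mul (r := 5) (ht (by norm_num) (by norm_num) (by norm_num) (by norm_num))
    (by norm_num) c1 c1
  have u4 := Cv.mul (r := 5 / 2) (ht (by norm_num) (by norm_num) (by norm_num)
    (by norm_num)) (by
      rw [ENNReal.le_div_iff_mul_le (by norm_num) (by norm_num)]; norm_num) u2 u2
  have u5 := Cv.mul (r := 2) (ht (by norm_num) (by norm_num) (by norm_num)
    (by norm_num)) (by norm_num) u4 c1
  have ud := Cv.mul (r := 10 / 7) (ht (by norm_num) (by norm_num) (by norm_num)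
    (by norm_num)) (by
      rw [ENNReal.le_div_iff_mul_le (by norm_num) (by norm_num)]; norm_num) u4 c2
  have i1 := (Cv.mul (r := 1) (ht (by norm_num) (by norm_num) (by norm_num)
    (by norm_num)) le_rfl u5 (Cv.cst (test_memLp (test_pd hφ i) 2))).int
  have i2 := (Cv.mul (r := 1) (ht (by norm_num) (by norm_num) (by norm_num)
    (by norm_num)) le_rfl ud (Cv.cst (test_memLp hφ (10 / 3)))).int
  have h1 : ∀ n, ∫ x, f n x * f n x * (f n x * f n x) * f n x * pd i φ x =
      - (5 * ∫ x, f n x * f n x * (f n x * f n x) * pd i (f n) x * φ x) := by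
    intro n
    have h2 := wd_test (hf n) i φ hφ
    have h3 : (fun x => f n x * f n x * (f n x * f n x) * f n x * pd i φ x) =
        fun x => f n x ^ 5 * pd i φ x := by ext x; ring
    rw [h3, h2, ← integral_const_mul]
    congr 1
    refine integral_congr_ae (Eventually.of_forall fun x => ?_)
    ring
  have h2 := i1.congr h1
  have h3 := (i2.const_mul 5).neg
  have h4 := tendsto_nhds_unique h2 h3
  have h5 : (fun x => U k x ^ 5 * pd i φ x) =
      fun x => U k x * U k x * (U k x * U k x) * U k x * pd i φ x := by ext x; ring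
  have h6 : (fun x => 5 * U k x ^ 4 * DU k i x * φ x) =
      fun x => 5 * (U k x * U k x * (U k x * U k x) * DU k i x * φ x) := by ext x; ring
  rw [h5, h6, h4, integral_const_mul]

/-! ### Uniqueness and norm of sources -/

lemma uniq (dens : St_Dens) {w w' : K} (h : ∀ φ, IsTest φ →
    inner ℝ w (Rk φ) = inner ℝ w' (Rk φ) ∧ inner ℝ w (dRk φ) = inner ℝ w' (dRk φ)) : w = w' := by
  have h1 : w - w' ∈ (Submodule.span ℝ {v : K | ∃ φ, IsTest φ ∧ tsupport φ ⊆ (univ : Set E) ∧
      (v = Rk φ ∨ v = dRk φ)})ᗮ := by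
    rw [Submodule.mem_orthogonal]
    intro u hu
    induction hu using Submodule.span_induction with
    | mem v hv =>
      obtain ⟨φ, hφ, -, rfl | rfl⟩ := hv
      · rw [real_inner_comm, inner_sub_left, (h φ hφ).1, sub_self]
      · rw [real_inner_comm, inner_sub_left, (h φ hφ).2, sub_self]
    | zero => exact inner_zero_left _
    | add x y _ _ hx hy => rw [inner_add_left, hx, hy, add_zero]
    | smul a x _ hx => rw [inner_smul_left, hx, mul_zero]
  rw [← Submodule.orthogonal_closure] at h1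
  have h2 : (Submodule.span ℝ {v : K | ∃ φ, IsTest φ ∧ tsupport φ ⊆ (univ : Set E) ∧
      (v = Rk φ ∨ v = dRk φ)}).topologicalClosure = ⊤ := dens.1
  rw [h2, Submodule.top_orthogonal_eq_bot, Submodule.mem_bot] at h1
  exact sub_eq_zero.1 h1

lemma int_sq {G : E → ℝ} (h : MemLp G 2 volume) :
    ∫ x, G x ^ 2 = (eLpNorm G 2 volume).toReal ^ 2 := by
  rw [h.eLpNorm_eq_integral_rpow_norm (by norm_num) (by norm_num)]
  have h0 : 0 ≤ ∫ x, ‖G x‖ ^ (2 : ℝ≥0∞).toReal :=
    integral_nonneg fun x => by positivity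
  rw [ENNReal.toReal_ofReal (by positivity)]
  simp only [ENNReal.toReal_ofNat]
  rw [← Real.rpow_natCast, ← Real.rpow_mul (by simpa using h0)]
  norm_num

lemma c0_pos : 0 < c0 := by unfold c0; positivity

lemma gam_le {w : K} {G : Fin 5 → E → ℝ} (h : ‖w‖ ^ 2 = c0 * ∑ i, ∫ x, G i x ^ 2)
    (hG : ∀ i, MemLp (G i) 2 volume) :
    ‖w‖ₑ ≤ ENNReal.ofReal (√c0) * ∑ i, eLpNorm (G i) 2 volume := by
  have h1 : ‖w‖ ≤ √c0 * ∑ i, (eLpNorm (G i) 2 volume).toReal := by
    refine abs_le_of_sq_le_sq' ?_ (by positivity) |>.2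
    rw [h, mul_pow, Real.sq_sqrt c0_pos.le]
    refine mul_le_mul_of_nonneg_left ?_ c0_pos.le
    rw [Finset.sum_congr rfl fun i _ => int_sq (hG i)]
    exact Finset.sum_sq_le_sq_sum_of_nonneg fun i _ => ENNReal.toReal_nonneg
  have h2 : (∑ i, (eLpNorm (G i) 2 volume).toReal) = (∑ i, eLpNorm (G i) 2 volume).toReal :=
    (ENNReal.toReal_sum fun i _ => (hG i).2.ne).symm
  have h3 : (∑ i, eLpNorm (G i) 2 volume) ≠ ⊤ := ENNReal.sum_ne_top.2 fun i _ => (hG i).2.ne
  rw [h2] at h1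
  calc ‖w‖ₑ = ENNReal.ofReal ‖w‖ := (ofReal_norm w).symm
    _ ≤ ENNReal.ofReal (√c0 * (∑ i, eLpNorm (G i) 2 volume).toReal) := ENNReal.ofReal_le_ofReal h1
    _ = ENNReal.ofReal (√c0) * ∑ i, eLpNorm (G i) 2 volume := by
        rw [ENNReal.ofReal_mul (Real.sqrt_nonneg _), ENNReal.ofReal_toReal h3]

/-! ### Bounds -/

lemma p4 {f : E → ℝ} (hf : MemLp f 20 volume) : MemLp (fun x => f x ^ 4) 5 volume ∧
    eLpNorm (fun x => f x ^ 4) 5 volume ≤ eLpNorm f 20 volume ^ 4 := by
  have e : (fun x => f x ^ 4) = fun x => f x * f x * (f x * f x) := by ext x; ring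
  have t1 : ENNReal.HolderTriple 20 20 10 :=
    ht (by norm_num) (by norm_num) (by norm_num) (by norm_num)
  have t2 : ENNReal.HolderTriple 10 10 5 :=
    ht (by norm_num) (by norm_num) (by norm_num) (by norm_num)
  have h2 := hoelM 20 20 t1 hf hf
  rw [e]
  refine ⟨hoelM 10 10 t2 h2 h2, (hoel 10 10 t2 h2.1 h2.1).trans ?_⟩
  have h3 := hoel 20 20 t1 hf.1 hf.1
  calc eLpNorm (fun x => f x * f x) 10 volume * eLpNorm (fun x => f x * f x) 10 volume
      ≤ (eLpNorm f 20 volume * eLpNorm f 20 volume) *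
        (eLpNorm f 20 volume * eLpNorm f 20 volume) := mul_le_mul' h3 h3
    _ = eLpNorm f 20 volume ^ 4 := by ring

lemma p5 {f : E → ℝ} (h10 : MemLp f 10 volume) : MemLp (fun x => f x ^ 5) 2 volume := by
  have e : (fun x => f x ^ 5) = fun x => f x * f x * (f x * f x) * f x := by ext x; ring
  have t1 : ENNReal.HolderTriple 10 10 5 :=
    ht (by norm_num) (by norm_num) (by norm_num) (by norm_num)
  have t2 : ENNReal.HolderTriple 5 5 (5 / 2) :=
    ht (by norm_num) (by norm_num) (by norm_num) (by norm_num)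
  have t3 : ENNReal.HolderTriple (5 / 2) 10 2 :=
    ht (by norm_num) (by norm_num) (by norm_num) (by norm_num)
  rw [e]
  exact hoelM _ _ t3 (hoelM _ _ t2 (hoelM _ _ t1 h10 h10) (hoelM _ _ t1 h10 h10)) h10

lemma p5' {f : E → ℝ} (h10 : MemLp f 10 volume) (h20 : MemLp f 20 volume) :
    MemLp (fun x => f x ^ 5) (10 / 3) volume := by
  have e : (fun x => f x ^ 5) = fun x => f x ^ 4 * f x := by ext x; ring
  rw [e]
  exact hoelM _ _ (ht (by norm_num) (by norm_num) (by norm_num) (by norm_num)) (p4 h20).1 h10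

lemma c5 {f : E → ℝ} (p : ℝ≥0∞) :
    eLpNorm (fun x => 5 * f x) p volume = 5 * eLpNorm f p volume := by
  have h := eLpNorm_const_smul (5 : ℝ) f p (volume : Measure E)
  have h1 : ‖(5 : ℝ)‖ₑ = 5 := by
    rw [Real.enorm_eq_ofReal (by norm_num)]
    exact ENNReal.ofReal_ofNat 5
  rw [h1] at h
  exact h

lemma grad_memLp {f d : E → ℝ} (hf : MemLp f 20 volume) (hd : MemLp d (10 / 3) volume) :
    MemLp (fun x => 5 * f x ^ 4 * d x) 2 volume ∧ eLpNorm (fun x => 5 * f x ^ 4 * d x) 2 volume ≤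
      5 * eLpNorm f 20 volume ^ 4 * eLpNorm d (10 / 3) volume := by
  have t : ENNReal.HolderTriple 5 (10 / 3) 2 :=
    ht (by norm_num) (by norm_num) (by norm_num) (by norm_num)
  obtain ⟨h1, h2⟩ := p4 hf
  have h3 : MemLp (fun x => 5 * f x ^ 4) 5 volume := h1.const_mul 5
  refine ⟨hoelM _ _ t h3 hd, (hoel _ _ t h3.1 hd.1).trans ?_⟩
  rw [c5 (f := fun x => f x ^ 4)]
  gcongr

lemma diff4 {f g : E → ℝ} (hf : MemLp f 20 volume) (hg : MemLp g 20 volume) :
    eLpNorm (fun x => f x ^ 4 - g x ^ 4) 5 volume ≤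
      (eLpNorm f 20 volume + eLpNorm g 20 volume) ^ 3 *
        eLpNorm (fun x => f x - g x) 20 volume := by
  have t1 : ENNReal.HolderTriple 20 20 10 :=
    ht (by norm_num) (by norm_num) (by norm_num) (by norm_num)
  have t2 : ENNReal.HolderTriple 20 10 (20 / 3) :=
    ht (by norm_num) (by norm_num) (by norm_num) (by norm_num)
  have t3 : ENNReal.HolderTriple 20 (20 / 3) 5 :=
    ht (by norm_num) (by norm_num) (by norm_num) (by norm_num)
  obtain ⟨s, hs⟩ : ∃ s : E → ℝ, s = fun x => |f x| + |g x| := ⟨_, rfl⟩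
  have hsM : MemLp s 20 volume := by rw [hs]; exact hf.abs.add hg.abs
  have hsn : eLpNorm s 20 volume ≤ eLpNorm f 20 volume + eLpNorm g 20 volume := by
    have h1 := eLpNorm_add_le hf.abs.1 hg.abs.1 (by norm_num : (1 : ℝ≥0∞) ≤ 20)
    have h2 : eLpNorm |f| 20 volume = eLpNorm f 20 volume :=
      eLpNorm_congr_norm_ae (Eventually.of_forall fun x => by simp)
    have h3 : eLpNorm |g| 20 volume = eLpNorm g 20 volume :=
      eLpNorm_congr_norm_ae (Eventually.of_forall fun x => by simp)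
    rw [h2, h3] at h1
    rw [hs]
    exact h1
  have hfg : AEStronglyMeasurable (fun x => f x - g x) volume := hf.1.sub hg.1
  have hss := hoelM 20 20 t1 hsM hsM
  have hsss := hoelM 20 10 t2 hsM hss
  calc eLpNorm (fun x => f x ^ 4 - g x ^ 4) 5 volume
      ≤ eLpNorm (fun x => (f x - g x) * (s x * (s x * s x))) 5 volume := by
        refine eLpNorm_mono fun x => ?_
        rw [Real.norm_eq_abs, Real.norm_eq_abs]
        have e1 : f x ^ 4 - g x ^ 4 = (f x - g x) * ((f x + g x) * (f x ^ 2 + g x ^ 2)) := by ring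
        rw [e1, abs_mul (f x - g x), abs_mul (f x - g x)]
        refine mul_le_mul_of_nonneg_left ?_ (abs_nonneg (f x - g x))
        have hs0 : 0 ≤ s x := by rw [hs]; positivity
        rw [abs_mul, abs_of_nonneg (by positivity : 0 ≤ s x * (s x * s x)),
          abs_of_nonneg (by positivity : 0 ≤ f x ^ 2 + g x ^ 2)]
        have e2 : |f x + g x| ≤ s x := by rw [hs]; exact abs_add_le (f x) (g x)
        have e3 : f x ^ 2 + g x ^ 2 ≤ s x * s x := by
          rw [hs]
          have e4 : f x ^ 2 = |f x| ^ 2 := (sq_abs _).symm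
          have e5 : g x ^ 2 = |g x| ^ 2 := (sq_abs _).symm
          rw [e4, e5]
          nlinarith [mul_nonneg (abs_nonneg (f x)) (abs_nonneg (g x))]
        exact mul_le_mul e2 e3 (by positivity) hs0
    _ ≤ eLpNorm (fun x => f x - g x) 20 volume *
          eLpNorm (fun x => s x * (s x * s x)) (20 / 3) volume := hoel _ _ t3 hfg hsss.1
    _ ≤ eLpNorm (fun x => f x - g x) 20 volume *
          (eLpNorm s 20 volume * (eLpNorm s 20 volume * eLpNorm s 20 volume)) := by
        refine mul_le_mul' le_rfl ((hoel _ _ t2 hsM.1 hss.1).trans ?_)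
        exact mul_le_mul' le_rfl (hoel _ _ t1 hsM.1 hsM.1)
    _ ≤ eLpNorm (fun x => f x - g x) 20 volume *
          ((eLpNorm f 20 volume + eLpNorm g 20 volume) *
            ((eLpNorm f 20 volume + eLpNorm g 20 volume) *
              (eLpNorm f 20 volume + eLpNorm g 20 volume))) :=
        mul_le_mul' le_rfl (mul_le_mul' hsn (mul_le_mul' hsn hsn))
    _ = _ := by ring

end NLbx

open NLbx in
theorem thm_NLb (fld : St_Fld) (lin : St_Lin) (dens : St_Dens) (gam : St_GamE) : St_NLb := by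
  obtain ⟨C, hC, hfld⟩ := id fld
  -- the second part
  have hB : ∀ k : K, sn k < ⊤ → MemLp (U k) 20 volume ∧
      MemLp (fun x => U k x ^ 5) 2 volume ∧ MemLp (fun x => U k x ^ 5) (10 / 3) volume ∧
      (∀ i, MemLp (fun x => 5 * U k x ^ 4 * DU k i x) 2 volume ∧
        WD i (fun x => U k x ^ 5) (fun x => 5 * U k x ^ 4 * DU k i x)) ∧
      (∀ i, eLpNorm (fun x => 5 * U k x ^ 4 * DU k i x) 2 volume ≤
        5 * sn k ^ 4 * (ENNReal.ofReal C * ‖k‖ₑ)) := by
    intro k hk
    have h10 := (hfld k).1.1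
    have h20 : MemLp (U k) 20 volume := ⟨h10.1, hk⟩
    refine ⟨h20, p5 h10, p5' h10 h20, fun i => ⟨(grad_memLp h20 ((hfld k).2.2.1 i).1).1,
      wd_main fld lin dens k i⟩, fun i => (grad_memLp h20 ((hfld k).2.2.1 i).1).2.trans ?_⟩
    exact mul_le_mul' le_rfl ((hfld k).2.2.1 i).2.2
  have hc : ENNReal.ofReal (√c0 * 25 * C) = ENNReal.ofReal (√c0) * 25 * ENNReal.ofReal C := by
    rw [ENNReal.ofReal_mul (by positivity), ENNReal.ofReal_mul (by positivity),
      ENNReal.ofReal_ofNat]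
  have hc0 : 0 < √c0 := Real.sqrt_pos.2 c0_pos
  have hCpos : 0 < √c0 * 25 * C := by positivity
  refine ⟨⟨√c0 * 25 * C, hCpos, ?_, ?_⟩, ?_⟩
  · intro k
    by_cases hk : sn k < ⊤
    · obtain ⟨h20, m2, m3, hG, hb⟩ := hB k hk
      obtain ⟨-, g2, -⟩ := gam _ _ m2 m3 hG
      refine (gam_le (w := NL k) g2 fun i => (hG i).1).trans ?_
      rw [hc]
      calc ENNReal.ofReal (√c0) * ∑ i, eLpNorm (fun x => 5 * U k x ^ 4 * DU k i x) 2 volume
          ≤ ENNReal.ofReal (√c0) * ∑ _i : Fin 5, 5 * sn k ^ 4 * (ENNReal.ofReal C * ‖k‖ₑ) :=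
            mul_le_mul' le_rfl (Finset.sum_le_sum fun i _ => hb i)
        _ = ENNReal.ofReal (√c0) * 25 * ENNReal.ofReal C * sn k ^ 4 * ‖k‖ₑ := by
            rw [Finset.sum_const, Finset.card_univ, Fintype.card_fin, nsmul_eq_mul]
            push_cast
            ring
    · have hk' : sn k = ⊤ := not_lt_top_iff.1 hk
      by_cases h0 : ‖k‖ₑ = 0
      · exfalso
        have h1 : eLpNorm (U k) 10 volume = 0 := by
          have h2 := (hfld k).1.2
          rw [h0, mul_zero] at h2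
          exact le_antisymm h2 bot_le
        rw [eLpNorm_eq_zero_iff (hfld k).1.1.1 (by norm_num)] at h1
        have h3 : sn k = 0 := by
          unfold sn
          rw [eLpNorm_eq_zero_iff (hfld k).1.1.1 (by norm_num)]
          exact h1
        rw [h3] at hk'
        exact ENNReal.zero_ne_top hk'
      · have h1 : ENNReal.ofReal (√c0 * 25 * C) ≠ 0 := (ENNReal.ofReal_pos.2 hCpos).ne'
        rw [hk', ENNReal.top_pow (by norm_num), ENNReal.mul_top h1, ENNReal.top_mul h0]
        exact le_top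
  · intro k k' hk hk'
    obtain ⟨h20, m2, m3, hG, hb⟩ := hB k hk
    obtain ⟨h20', m2', m3', hG', hb'⟩ := hB k' hk'
    obtain ⟨g1, -, -⟩ := gam _ _ m2 m3 hG
    obtain ⟨g1', -, -⟩ := gam _ _ m2' m3' hG'
    have hWD : ∀ i, MemLp (fun x => 5 * U k x ^ 4 * DU k i x - 5 * U k' x ^ 4 * DU k' i x) 2
        volume ∧ WD i (fun x => U k x ^ 5 - U k' x ^ 5)
        (fun x => 5 * U k x ^ 4 * DU k i x - 5 * U k' x ^ 4 * DU k' i x) := by
      intro i
      refine ⟨(hG i).1.sub (hG' i).1, ?_⟩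
      intro φ hφ
      have t : ENNReal.HolderTriple 2 2 1 :=
        ht (by norm_num) (by norm_num) (by norm_num) (by norm_num)
      have j1 : ∀ {f : E → ℝ} {ψ : E → ℝ}, MemLp f 2 volume → IsTest ψ →
          Integrable (fun x => f x * ψ x) volume := fun hf hψ =>
        memLp_one_iff_integrable.1 (hoelM 2 2 t hf (test_memLp hψ 2))
      have e1 : (fun x => (U k x ^ 5 - U k' x ^ 5) * pd i φ x) =
          fun x => U k x ^ 5 * pd i φ x - U k' x ^ 5 * pd i φ x := by ext x; ring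
      have e2 : (fun x => (5 * U k x ^ 4 * DU k i x - 5 * U k' x ^ 4 * DU k' i x) * φ x) =
          fun x => 5 * U k x ^ 4 * DU k i x * φ x - 5 * U k' x ^ 4 * DU k' i x * φ x := by
        ext x; ring
      rw [e1, e2, integral_sub (j1 m2 (test_pd hφ i)) (j1 m2' (test_pd hφ i)),
        integral_sub (j1 (hG i).1 hφ) (j1 (hG' i).1 hφ), (hG i).2 φ hφ, (hG' i).2 φ hφ]
      ring
    obtain ⟨q1, q2, -⟩ := gam _ _ (m2.sub m2') (m3.sub m3') hWD
    have huni : NL k - NL k' = Gam (fun x => U k x ^ 5 - U k' x ^ 5) := by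
      refine uniq dens fun φ hφ => ?_
      have t : ENNReal.HolderTriple 2 2 1 :=
        ht (by norm_num) (by norm_num) (by norm_num) (by norm_num)
      have j1 : ∀ {f : E → ℝ}, MemLp f 2 volume → Integrable (fun x => f x * φ x) volume :=
        fun hf => memLp_one_iff_integrable.1 (hoelM 2 2 t hf (test_memLp hφ 2))
      have a1 := q1 φ hφ
      have a2 : inner ℝ (NL k) (Rk φ) = 0 ∧ inner ℝ (NL k) (dRk φ) = ∫ x, U k x ^ 5 * φ x :=
        g1 φ hφ
      have a3 : inner ℝ (NL k') (Rk φ) = 0 ∧ inner ℝ (NL k') (dRk φ) = ∫ x, U k' x ^ 5 * φ x :=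
        g1' φ hφ
      rw [inner_sub_left, inner_sub_left, a2.1, a3.1, a2.2, a3.2]
      refine ⟨by rw [sub_zero]; exact a1.1.symm, ?_⟩
      have e1 : (fun x => (U k x ^ 5 - U k' x ^ 5) * φ x) =
          fun x => U k x ^ 5 * φ x - U k' x ^ 5 * φ x := by ext x; ring
      rw [← integral_sub (j1 m2) (j1 m2'), ← e1]
      exact a1.2.symm
    rw [huni]
    refine (gam_le q2 fun i => (hWD i).1).trans ?_
    have hi : ∀ i, eLpNorm (fun x => 5 * U k x ^ 4 * DU k i x - 5 * U k' x ^ 4 * DU k' i x) 2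
        volume ≤ 5 * ((sn k + sn k') ^ 3 * sn (k - k')) * (ENNReal.ofReal C * ‖k‖ₑ) +
          5 * sn k' ^ 4 * (ENNReal.ofReal C * ‖k - k'‖ₑ) := by
      intro i
      have t : ENNReal.HolderTriple 5 (10 / 3) 2 :=
        ht (by norm_num) (by norm_num) (by norm_num) (by norm_num)
      have e1 : (fun x => 5 * U k x ^ 4 * DU k i x - 5 * U k' x ^ 4 * DU k' i x) =
          (fun x => 5 * (U k x ^ 4 - U k' x ^ 4) * DU k i x) +
            fun x => 5 * U k' x ^ 4 * (DU k i x - DU k' i x) := by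
        ext x; simp only [Pi.add_apply]; ring
      have d1 := (hfld k).2.2.1 i
      have d2 := (hfld k').2.2.1 i
      have d3 : MemLp (fun x => DU k i x - DU k' i x) (10 / 3) volume := d1.1.sub d2.1
      have n1 : MemLp (fun x => 5 * (U k x ^ 4 - U k' x ^ 4)) 5 volume :=
        ((p4 h20).1.sub (p4 h20').1).const_mul 5
      have n2 := grad_memLp h20' d3
      rw [e1]
      refine (eLpNorm_add_le (n1.1.mul d1.1.1) n2.1.1 (by norm_num)).trans
        (add_le_add ?_ (n2.2.trans ?_))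
      · refine (hoel _ _ t n1.1 d1.1.1).trans (mul_le_mul' ?_ d1.2.2)
        rw [c5 (f := fun x => U k x ^ 4 - U k' x ^ 4)]
        refine mul_le_mul' le_rfl ((diff4 h20 h20').trans (mul_le_mul' le_rfl ?_))
        unfold sn
        exact le_of_eq (eLpNorm_congr_ae (U_sub lin k k').symm)
      · refine mul_le_mul' le_rfl ?_
        refine le_trans (le_of_eq ?_) ((hfld (k - k')).2.2.1 i).2.2
        exact eLpNorm_congr_ae (DU_sub lin k k' i).symm
    rw [hc]
    calc ENNReal.ofReal (√c0) * ∑ i, eLpNorm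
          (fun x => 5 * U k x ^ 4 * DU k i x - 5 * U k' x ^ 4 * DU k' i x) 2 volume
        ≤ ENNReal.ofReal (√c0) * ∑ _i : Fin 5,
          (5 * ((sn k + sn k') ^ 3 * sn (k - k')) * (ENNReal.ofReal C * ‖k‖ₑ) +
          5 * sn k' ^ 4 * (ENNReal.ofReal C * ‖k - k'‖ₑ)) :=
          mul_le_mul' le_rfl (Finset.sum_le_sum fun i _ => hi i)
      _ = ENNReal.ofReal (√c0) * 25 * ENNReal.ofReal C *
          ((sn k + sn k') ^ 3 * sn (k - k') * ‖k‖ₑ + sn k' ^ 4 * ‖k - k'‖ₑ) := by
          rw [Finset.sum_const, Finset.card_univ, Fintype.card_fin, nsmul_eq_mul]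
          push_cast
          ring
  · intro k hk
    obtain ⟨h20, m2, m3, hG, hb⟩ := hB k hk
    obtain ⟨g1, -, g3, g4, g5⟩ := gam _ _ m2 m3 hG
    exact ⟨m2, m3, g1, g3, g4, fun i => ⟨(hG i).1, (hG i).2, g5 i⟩⟩

end Pool.Agent.QWE
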