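import Pool.Agent.QWE.StA
import Pool.Agent.QWE.StB
import Pool.Agent.QWE.Moll
import Pool.Agent.QWE.NLb
import Pool.Agent.QWE.MorI
import Pool.Agent.QWE.GamE

set_option autoImplicit false

/-!
# QWE / FEd: finite energy states are well approximated; Sobolev and Hardy
-/

open MeasureTheory Filter Topology Set
open scoped ENNReal NNReal RealInnerProductSpace ContDiff Pointwise

namespace Pool.Agent.QWE

namespace FEdx

open Moll

/-! ### sequences tending to zero in `L^p` -/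

/-- null sequence in `L^p` -/
def Z (p : ℝ≥0∞) (F : ℕ → E → ℝ) : Prop :=
  (∀ n, AEStronglyMeasurable (F n) volume) ∧ Tendsto (fun n => eLpNorm (F n) p volume) atTop (𝓝 0)

lemma Z.congr {p : ℝ≥0∞} {F G : ℕ → E → ℝ} (hF : Z p F) (h : ∀ n, F n = G n) : Z p G := by
  have : F = G := funext h
  rwa [← this]

lemma Z.of_le {p : ℝ≥0∞} {F : ℕ → E → ℝ} {b : ℕ → ℝ≥0∞} (hm : ∀ n, AEStronglyMeasurable (F n) volume)
    (h : ∀ n, eLpNorm (F n) p volume ≤ b n) (hb : Tendsto b atTop (𝓝 0)) : Z p F :=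
  ⟨hm, tendsto_of_tendsto_of_tendsto_of_le_of_le tendsto_const_nhds hb (fun _ => bot_le) h⟩

lemma Z.add {p : ℝ≥0∞} (hp : 1 ≤ p) {F G : ℕ → E → ℝ} (hF : Z p F) (hG : Z p G) :
    Z p (fun n x => F n x + G n x) := by
  refine Z.of_le (fun n => (hF.1 n).add (hG.1 n))
    (fun n => eLpNorm_add_le (hF.1 n) (hG.1 n) hp) ?_
  simpa using hF.2.add hG.2

lemma Z.bdd {p : ℝ≥0∞} {F c : ℕ → E → ℝ} {B : ℝ} (hF : Z p F)
    (hc : ∀ n, AEStronglyMeasurable (c n) volume) (hB : ∀ n x, |c n x| ≤ B) :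
    Z p (fun n x => c n x * F n x) := by
  refine Z.of_le (fun n => (hc n).mul (hF.1 n))
    (b := fun n => ENNReal.ofReal B * eLpNorm (F n) p volume) (fun n => ?_) ?_
  · refine eLpNorm_le_mul_eLpNorm_of_ae_le_mul (Eventually.of_forall fun x => ?_) p
    rw [norm_mul]
    gcongr
    exact hB n x
  · have h := ENNReal.Tendsto.const_mul hF.2 (a := ENNReal.ofReal B) (Or.inr ENNReal.ofReal_ne_top)
    rwa [mul_zero] at h

lemma one_div_zero : Tendsto (fun n : ℕ => ENNReal.ofReal (1 / ((n : ℝ) + 1))) atTop (𝓝 0) := by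
  have h := ENNReal.tendsto_ofReal (tendsto_one_div_add_atTop_nhds_zero_nat (𝕜 := ℝ))
  rwa [ENNReal.ofReal_zero] at h

lemma Z.small {p : ℝ≥0∞} {c F : ℕ → E → ℝ} {B : ℝ} {A : ℝ≥0∞} (hA : A ≠ ⊤)
    (hc : ∀ n, AEStronglyMeasurable (c n) volume) (hF : ∀ n, AEStronglyMeasurable (F n) volume)
    (hB : ∀ n x, |c n x| ≤ B * (1 / ((n : ℝ) + 1))) (hb : ∀ n, eLpNorm (F n) p volume ≤ A) :
    Z p (fun n x => c n x * F n x) := by
  refine Z.of_le (fun n => (hc n).mul (hF n))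
    (b := fun n => ENNReal.ofReal (1 / ((n : ℝ) + 1)) * (ENNReal.ofReal B * A)) (fun n => ?_) ?_
  · calc eLpNorm (fun x => c n x * F n x) p volume ≤
          ENNReal.ofReal (B * (1 / ((n : ℝ) + 1))) * eLpNorm (F n) p volume := by
          refine eLpNorm_le_mul_eLpNorm_of_ae_le_mul (Eventually.of_forall fun x => ?_) p
          rw [norm_mul]
          gcongr
          exact hB n x
      _ ≤ ENNReal.ofReal (B * (1 / ((n : ℝ) + 1))) * A := by gcongr; exact hb n
      _ = ENNReal.ofReal (1 / ((n : ℝ) + 1)) * (ENNReal.ofReal B * A) := by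
          rw [mul_comm B, ENNReal.ofReal_mul (by positivity)]
          ring
  · have h := ENNReal.Tendsto.mul_const one_div_zero (b := ENNReal.ofReal B * A)
      (Or.inr (ENNReal.mul_ne_top ENNReal.ofReal_ne_top hA))
    rwa [zero_mul] at h

/-- dominated convergence -/
lemma Z.dom {p : ℝ≥0∞} (hp : 1 ≤ p) (hpt : p ≠ ⊤) {c : ℕ → E → ℝ} {w : E → ℝ} {B : ℝ}
    (hc : ∀ n, AEStronglyMeasurable (c n) volume) (hw : MemLp w p volume)
    (hB : ∀ n x, |c n x| ≤ B) (h0 : ∀ x, ∀ᶠ n in atTop, c n x = 0) :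
    Z p (fun n x => c n x * w x) := by
  have hp0 : p ≠ 0 := (lt_of_lt_of_le zero_lt_one hp).ne'
  have hpr : 0 < p.toReal := ENNReal.toReal_pos hp0 hpt
  refine ⟨fun n => (hc n).mul hw.1, ?_⟩
  have h1 : Tendsto (fun n => ∫⁻ x, ‖c n x * w x‖ₑ ^ p.toReal) atTop (𝓝 (∫⁻ _x : E, 0)) := by
    refine tendsto_lintegral_of_dominated_convergence'
      (fun x => (ENNReal.ofReal B * ‖w x‖ₑ) ^ p.toReal) (fun n => ?_) (fun n => ?_) ?_ ?_
    · exact (((hc n).mul hw.1).enorm).pow_const _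
    · refine Eventually.of_forall fun x => ?_
      simp only
      gcongr
      rw [enorm_mul]
      gcongr
      rw [Real.enorm_eq_ofReal_abs]
      exact ENNReal.ofReal_le_ofReal (hB n x)
    · have h2 : ∫⁻ x, (ENNReal.ofReal B * ‖w x‖ₑ) ^ p.toReal =
          ENNReal.ofReal B ^ p.toReal * ∫⁻ x, ‖w x‖ₑ ^ p.toReal := by
        rw [← lintegral_const_mul' _ _ (ENNReal.rpow_ne_top_of_nonneg hpr.le ENNReal.ofReal_ne_top)]
        refine lintegral_congr fun x => ?_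
        rw [ENNReal.mul_rpow_of_nonneg _ _ hpr.le]
      rw [h2]
      refine ENNReal.mul_ne_top (ENNReal.rpow_ne_top_of_nonneg hpr.le ENNReal.ofReal_ne_top) ?_
      exact (lintegral_rpow_enorm_lt_top_of_eLpNorm_lt_top hp0 hpt hw.2).ne
    · refine Eventually.of_forall fun x => ?_
      refine tendsto_const_nhds.congr' ?_
      filter_upwards [h0 x] with n hn
      rw [hn, zero_mul, enorm_zero, ENNReal.zero_rpow_of_pos hpr]
  rw [lintegral_zero] at h1
  have h2 : (fun n => eLpNorm (fun x => c n x * w x) p volume) =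
      fun n => (∫⁻ x, ‖c n x * w x‖ₑ ^ p.toReal) ^ (1 / p.toReal) := by
    funext n
    rw [eLpNorm_eq_lintegral_rpow_enorm_toReal hp0 hpt]
  rw [h2]
  have h3 := h1.ennrpow_const (1 / p.toReal)
  rwa [ENNReal.zero_rpow_of_pos (by positivity)] at h3

/-- Hoelder -/
lemma Z.hol {p q r : ℝ≥0∞} (h : ENNReal.HolderTriple p q r) {c F : ℕ → E → ℝ} {A : ℝ≥0∞}
    (hA : A ≠ ⊤) (hc : ∀ n, AEStronglyMeasurable (c n) volume)
    (hb : ∀ n, eLpNorm (c n) p volume ≤ A) (hF : Z q F) : Z r (fun n x => c n x * F n x) := by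
  refine Z.of_le (fun n => (hc n).mul (hF.1 n)) (b := fun n => A * eLpNorm (F n) q volume)
    (fun n => (NLbx.hoel p q h (hc n) (hF.1 n)).trans (by gcongr; exact hb n)) ?_
  have h1 := ENNReal.Tendsto.const_mul hF.2 (a := A) (Or.inr hA)
  rwa [mul_zero] at h1

/-! ### cut-off functions -/

/-- the bump -/
noncomputable def bb : ContDiffBump (0 : E) := ⟨1, 2, one_pos, one_lt_two⟩

/-- cut-off functions -/
noncomputable def chi (n : ℕ) (x : E) : ℝ := bb (((n : ℝ) + 1)⁻¹ • x)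

lemma bb_test : IsTest (bb : E → ℝ) := ⟨bb.contDiff, bb.hasCompactSupport⟩

lemma sc_test {h : E → ℝ} (hh : IsTest h) (n : ℕ) :
    IsTest (fun x => h (((n : ℝ) + 1)⁻¹ • x)) :=
  ⟨hh.1.comp (contDiff_const_smul _), hh.2.comp_smul (inv_ne_zero (by positivity))⟩

lemma chi_test (n : ℕ) : IsTest (chi n) := sc_test bb_test n

lemma pd_sc {h : E → ℝ} (hh : IsTest h) (n : ℕ) (c : ℝ) (i : Fin 5) (x : E) :
    pd i (fun x => c * h (((n : ℝ) + 1)⁻¹ • x)) x = c * (((n : ℝ) + 1)⁻¹ * pd i h (((n : ℝ) + 1)⁻¹ • x)) := by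
  have h1 : HasFDerivAt (fun x : E => ((n : ℝ) + 1)⁻¹ • x)
      (((n : ℝ) + 1)⁻¹ • ContinuousLinearMap.id ℝ E) x :=
    (((n : ℝ) + 1)⁻¹ • ContinuousLinearMap.id ℝ E).hasFDerivAt
  have h3 := ((test_diff hh (((n : ℝ) + 1)⁻¹ • x)).hasFDerivAt.comp x h1).const_mul c
  unfold pd
  have h4 : (fun x => c * h (((n : ℝ) + 1)⁻¹ • x)) =
      fun y => c * (h ∘ fun x : E => ((n : ℝ) + 1)⁻¹ • x) y := rfl
  rw [h4, h3.fderiv]
  simp

lemma pd_chi (n : ℕ) (i : Fin 5) (x : E) :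
    pd i (chi n) x = ((n : ℝ) + 1)⁻¹ * pd i bb (((n : ℝ) + 1)⁻¹ • x) := by
  have h := pd_sc bb_test n 1 i x
  simp only [one_mul] at h
  exact h

lemma pd2_chi (n : ℕ) (i j : Fin 5) (x : E) :
    pd j (pd i (chi n)) x = ((n : ℝ) + 1)⁻¹ * (((n : ℝ) + 1)⁻¹ *
      pd j (pd i bb) (((n : ℝ) + 1)⁻¹ • x)) := by
  have h : pd i (chi n) = fun x => ((n : ℝ) + 1)⁻¹ * pd i bb (((n : ℝ) + 1)⁻¹ • x) :=
    funext fun x => pd_chi n i x
  rw [h]
  exact pd_sc (test_pd bb_test i) n _ j x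

lemma chi_abs (n : ℕ) (x : E) : |chi n x| ≤ 1 := by
  unfold chi
  rw [abs_of_nonneg bb.nonneg]
  exact bb.le_one

lemma chi_one (n : ℕ) (x : E) (hx : ‖x‖ ≤ n) : chi n x = 1 := by
  have hn : (0 : ℝ) < (n : ℝ) + 1 := by positivity
  refine bb.one_of_mem_closedBall ?_
  rw [mem_closedBall_zero_iff, norm_smul, Real.norm_of_nonneg (inv_nonneg.2 hn.le)]
  change _ ≤ (1 : ℝ)
  rw [inv_mul_le_iff₀ hn]
  linarith

/-- derivatives of the bump vanish in the unit ball -/
lemma pd_loc {h : E → ℝ} {c : ℝ} (hc : ∀ x ∈ Metric.ball (0 : E) 1, h x = c) (i : Fin 5) {x : E}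
    (hx : x ∈ Metric.ball (0 : E) 1) : pd i h x = 0 := by
  have h1 : h =ᶠ[𝓝 x] fun _ => c := by
    filter_upwards [Metric.isOpen_ball.mem_nhds hx] with y hy using hc y hy
  unfold pd
  rw [h1.fderiv_eq]
  simp

lemma bb_one {x : E} (hx : x ∈ Metric.ball (0 : E) 1) : bb x = 1 :=
  bb.one_of_mem_closedBall (Metric.ball_subset_closedBall hx)

lemma mem_small {n : ℕ} {x : E} (hx : ‖x‖ ≤ n) : ((n : ℝ) + 1)⁻¹ • x ∈ Metric.ball (0 : E) 1 := by
  have hn : (0 : ℝ) < (n : ℝ) + 1 := by positivity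
  rw [mem_ball_zero_iff, norm_smul, Real.norm_of_nonneg (inv_nonneg.2 hn.le), inv_mul_lt_iff₀ hn]
  linarith

lemma pd_chi_zero (n : ℕ) (i : Fin 5) (x : E) (hx : ‖x‖ ≤ n) : pd i (chi n) x = 0 := by
  rw [pd_chi, pd_loc (fun y hy => bb_one hy) i (mem_small hx), mul_zero]

/-- bounds of the derivatives -/
lemma bds : ∃ B : ℝ, 0 ≤ B ∧ (∀ i x, |pd i bb x| ≤ B) ∧ ∀ i j x, |pd j (pd i bb) x| ≤ B := by
  have h1 : ∀ i, ∃ C : ℝ, ∀ x, |pd i bb x| ≤ C := by
    intro i
    obtain ⟨C, hC⟩ := (test_pd bb_test i).2.exists_bound_of_continuous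
      (test_pd bb_test i).1.continuous
    exact ⟨C, hC⟩
  have h2 : ∀ i j, ∃ C : ℝ, ∀ x, |pd j (pd i bb) x| ≤ C := by
    intro i j
    have ht := test_pd (test_pd bb_test i) j
    obtain ⟨C, hC⟩ := ht.2.exists_bound_of_continuous ht.1.continuous
    exact ⟨C, hC⟩
  choose C1 hC1 using h1
  choose C2 hC2 using h2
  have hC1n : ∀ i, 0 ≤ C1 i := fun i => (abs_nonneg _).trans (hC1 i 0)
  have hC2n : ∀ i j, 0 ≤ C2 i j := fun i j => (abs_nonneg _).trans (hC2 i j 0)
  refine ⟨(∑ i, C1 i) + ∑ i, ∑ j, C2 i j, ?_, fun i x => ?_, fun i j x => ?_⟩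
  · exact add_nonneg (Finset.sum_nonneg fun i _ => hC1n i)
      (Finset.sum_nonneg fun i _ => Finset.sum_nonneg fun j _ => hC2n i j)
  · have e1 := Finset.single_le_sum (f := C1) (fun i _ => hC1n i) (Finset.mem_univ i)
    have e2 : 0 ≤ ∑ i, ∑ j, C2 i j :=
      Finset.sum_nonneg fun i _ => Finset.sum_nonneg fun j _ => hC2n i j
    exact (hC1 i x).trans (by linarith)
  · have e1 := Finset.single_le_sum (f := C2 i) (fun j _ => hC2n i j) (Finset.mem_univ j)
    have e2 := Finset.single_le_sum (f := fun i => ∑ j, C2 i j)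
      (fun i _ => Finset.sum_nonneg fun j _ => hC2n i j) (Finset.mem_univ i)
    have e3 : 0 ≤ ∑ i, C1 i := Finset.sum_nonneg fun i _ => hC1n i
    exact (hC2 i j x).trans (by linarith)

lemma test_meas {h : E → ℝ} (hh : IsTest h) : AEStronglyMeasurable h volume :=
  hh.1.continuous.aestronglyMeasurable

lemma supp_zero {h : E → ℝ} (h0 : ∀ x, 2 ≤ ‖x‖ → h x = 0) (n : ℕ) {x : E}
    (hx : x ∉ Metric.closedBall (0 : E) (2 * ((n : ℝ) + 1))) : h (((n : ℝ) + 1)⁻¹ • x) = 0 := by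
  have hn : (0 : ℝ) < (n : ℝ) + 1 := by positivity
  refine h0 _ ?_
  rw [norm_smul, Real.norm_of_nonneg (inv_nonneg.2 hn.le), le_inv_mul_iff₀ hn]
  rw [mem_closedBall_zero_iff, not_le] at hx
  linarith

lemma bb_supp (x : E) (hx : 2 ≤ ‖x‖) : bb x = 0 :=
  bb.zero_of_le_dist (by rw [dist_zero_right]; exact hx)

lemma pd_supp {h : E → ℝ} (hh : IsTest h) (h0 : ∀ x, 2 ≤ ‖x‖ → h x = 0) (i : Fin 5) (x : E)
    (hx : 2 ≤ ‖x‖) : pd i h x = 0 := by
  have h1 : Continuous (pd i h) := (test_pd hh i).1.continuous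
  -- the derivative vanishes on the open set, hence on its closure
  have h2 : ∀ y : E, 2 < ‖y‖ → pd i h y = 0 := by
    intro y hy
    have h3 : h =ᶠ[𝓝 y] fun _ => (0 : ℝ) := by
      have ho : IsOpen {z : E | 2 < ‖z‖} := isOpen_lt continuous_const continuous_norm
      filter_upwards [ho.mem_nhds hy] with z hz using h0 z (le_of_lt hz)
    unfold pd
    rw [h3.fderiv_eq]
    simp
  have h3 : Tendsto (fun t : ℝ => pd i h (t • x)) (𝓝[>] 1) (𝓝 (pd i h x)) := by
    have h4 : Continuous (fun t : ℝ => pd i h (t • x)) := h1.comp (continuous_id.smul continuous_const)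
    have h5 := (h4.tendsto 1).mono_left (nhdsWithin_le_nhds (s := Ioi (1 : ℝ)))
    simpa using h5
  have h4 : Tendsto (fun t : ℝ => pd i h (t • x)) (𝓝[>] 1) (𝓝 0) := by
    refine tendsto_const_nhds.congr' ?_
    filter_upwards [self_mem_nhdsWithin] with t ht
    rw [h2]
    rw [norm_smul, Real.norm_of_nonneg (by linarith [mem_Ioi.1 ht])]
    nlinarith [mem_Ioi.1 ht]
  exact tendsto_nhds_unique h3 h4

/-- the `L^5` norms of the derivatives are bounded -/
lemma sc_bd {h : E → ℝ} {R B : ℝ} (hR : 0 < R) (hB : 0 ≤ B) (h1 : ∀ x, |h x| ≤ R⁻¹ * B)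
    (h2 : ∀ x, x ∉ Metric.closedBall (0 : E) (2 * R) → h x = 0) :
    eLpNorm h 5 volume ≤ ENNReal.ofReal (B * 2) * volume (Metric.ball (0 : E) 1) ^ (1 / 5 : ℝ) := by
  have hR2 : 0 ≤ 2 * R := by positivity
  have hk : 0 ≤ R⁻¹ * B := by positivity
  calc eLpNorm h 5 volume
      ≤ eLpNorm ((Metric.closedBall (0 : E) (2 * R)).indicator fun _ => R⁻¹ * B) 5 volume := by
        refine eLpNorm_mono fun x => ?_
        by_cases hx : x ∈ Metric.closedBall (0 : E) (2 * R)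
        · rw [indicator_of_mem hx, Real.norm_of_nonneg hk]
          exact h1 x
        · rw [indicator_of_notMem hx, h2 x hx]
    _ = ‖R⁻¹ * B‖ₑ * volume (Metric.closedBall (0 : E) (2 * R)) ^ (1 / (5 : ℝ≥0∞).toReal) :=
        eLpNorm_indicator_const Metric.isClosed_closedBall.measurableSet (by norm_num) (by norm_num)
    _ = ENNReal.ofReal (B * 2) * volume (Metric.ball (0 : E) 1) ^ (1 / 5 : ℝ) := by
        have hq : (0 : ℝ) ≤ 1 / 5 := by norm_num
        rw [ENNReal.toReal_ofNat, Measure.addHaar_closedBall _ _ hR2,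
          ENNReal.mul_rpow_of_nonneg _ _ hq, Real.enorm_of_nonneg hk, ← mul_assoc,
          ENNReal.ofReal_rpow_of_nonneg (by positivity) hq, ← ENNReal.ofReal_mul hk]
        congr 2
        rw [finrank_euclideanSpace, Fintype.card_fin, ← Real.rpow_natCast (2 * R) 5,
          ← Real.rpow_mul hR2]
        norm_num
        field_simp

/-- bounds of the derivatives of the cut-off functions -/
lemma chi_bds : ∃ (B : ℝ) (A : ℝ≥0∞), 0 ≤ B ∧ A ≠ ⊤ ∧
    (∀ n i x, |pd i (chi n) x| ≤ B * (1 / ((n : ℝ) + 1))) ∧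
    (∀ n i j x, |pd j (pd i (chi n)) x| ≤ B * (1 / ((n : ℝ) + 1))) ∧
    (∀ n i, eLpNorm (pd i (chi n)) 5 volume ≤ A) ∧
    ∀ n i j, eLpNorm (pd j (pd i (chi n))) 5 volume ≤ ENNReal.ofReal (1 / ((n : ℝ) + 1)) * A := by
  obtain ⟨B, hB, hB1, hB2⟩ := bds
  have hn : ∀ n : ℕ, (0 : ℝ) < (n : ℝ) + 1 := fun n => by positivity
  have hn1 : ∀ n : ℕ, ((n : ℝ) + 1)⁻¹ ≤ 1 := fun n =>
    inv_le_one_of_one_le₀ (by linarith [n.cast_nonneg (α := ℝ)])
  have b1 : ∀ n i x, |pd i (chi n) x| ≤ ((n : ℝ) + 1)⁻¹ * B := by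
    intro n i x
    rw [pd_chi, abs_mul, abs_of_pos (inv_pos.2 (hn n))]
    exact mul_le_mul_of_nonneg_left (hB1 i _) (inv_nonneg.2 (hn n).le)
  have b2 : ∀ n i j x, |pd j (pd i (chi n)) x| ≤ ((n : ℝ) + 1)⁻¹ * (((n : ℝ) + 1)⁻¹ * B) := by
    intro n i j x
    rw [pd2_chi, abs_mul, abs_mul, abs_of_pos (inv_pos.2 (hn n))]
    exact mul_le_mul_of_nonneg_left (mul_le_mul_of_nonneg_left (hB2 i j _)
      (inv_nonneg.2 (hn n).le)) (inv_nonneg.2 (hn n).le)
  have hv : volume (Metric.ball (0 : E) 1) ≠ ⊤ := measure_ball_lt_top.ne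
  refine ⟨B, ENNReal.ofReal (B * 2) * volume (Metric.ball (0 : E) 1) ^ (1 / 5 : ℝ), hB,
    ENNReal.mul_ne_top ENNReal.ofReal_ne_top (ENNReal.rpow_ne_top_of_nonneg (by norm_num) hv),
    fun n i x => ?_, fun n i j x => ?_, fun n i => ?_, fun n i j => ?_⟩
  · refine (b1 n i x).trans (le_of_eq ?_)
    rw [one_div, mul_comm]
  · refine (b2 n i j x).trans ?_
    rw [one_div, mul_comm B]
    have h1 : ((n : ℝ) + 1)⁻¹ * B ≤ B := by
      calc ((n : ℝ) + 1)⁻¹ * B ≤ 1 * B := mul_le_mul_of_nonneg_right (hn1 n) hB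
        _ = B := one_mul B
    exact mul_le_mul_of_nonneg_left h1 (inv_nonneg.2 (hn n).le)
  · refine sc_bd (hn n) hB (b1 n i) fun x hx => ?_
    rw [pd_chi, supp_zero (pd_supp bb_test bb_supp i) n hx, mul_zero]
  · have h1 : eLpNorm (pd j (pd i (chi n))) 5 volume ≤ ENNReal.ofReal (((n : ℝ) + 1)⁻¹) *
        eLpNorm (fun x => ((n : ℝ) + 1)⁻¹ * pd j (pd i bb) (((n : ℝ) + 1)⁻¹ • x)) 5 volume := by
      refine eLpNorm_le_mul_eLpNorm_of_ae_le_mul (Eventually.of_forall fun x => ?_) 5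
      rw [pd2_chi, norm_mul, Real.norm_of_nonneg (inv_nonneg.2 (hn n).le)]
    rw [one_div]
    refine h1.trans ?_
    gcongr
    refine sc_bd (hn n) hB (fun x => ?_) fun x hx => ?_
    · rw [abs_mul, abs_of_pos (inv_pos.2 (hn n))]
      exact mul_le_mul_of_nonneg_left (hB2 i j _) (inv_nonneg.2 (hn n).le)
    · rw [supp_zero (pd_supp (test_pd bb_test i) (pd_supp bb_test bb_supp i) j) n hx, mul_zero]

lemma chi_ev (x : E) : ∀ᶠ n : ℕ in atTop, ‖x‖ ≤ (n : ℝ) := by
  filter_upwards [eventually_ge_atTop ⌈‖x‖⌉₊] with n hn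
  exact (Nat.le_ceil _).trans (by exact_mod_cast hn)

lemma chi_meas (n : ℕ) : AEStronglyMeasurable (chi n) volume := test_meas (chi_test n)

/-- `chi n * w - w` is a null sequence -/
lemma chi_sub {p : ℝ≥0∞} (hp : 1 ≤ p) (hpt : p ≠ ⊤) {w : E → ℝ} (hw : MemLp w p volume) :
    Z p (fun n x => (chi n x - 1) * w x) := by
  refine Z.dom hp hpt (B := 2) (fun n => (chi_meas n).sub aestronglyMeasurable_const) hw
    (fun n x => ?_) fun x => ?_
  · have h1 := abs_le.1 (chi_abs n x)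
    rw [abs_le]
    constructor <;> linarith
  · filter_upwards [chi_ev x] with n hn
    rw [chi_one n x hn, sub_self]

/-- mollifications -/
noncomputable def mw (w : E → ℝ) (n : ℕ) (x : E) : ℝ := mc (ph n) w x

lemma mw_meas {p : ℝ≥0∞} (hp : 1 ≤ p) {w : E → ℝ} (hw : MemLp w p volume) (n : ℕ) :
    AEStronglyMeasurable (mw w n) volume :=
  (mc_smooth (ph_test n) (hw.locallyIntegrable hp)).continuous.aestronglyMeasurable

lemma mw_sub {p : ℝ≥0∞} (hp : 1 ≤ p) (hpt : p ≠ ⊤) {w : E → ℝ} (hw : MemLp w p volume) :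
    Z p (fun n x => mw w n x - w x) :=
  ⟨fun n => (mw_meas hp hw n).sub hw.1, mc_tendsto hp hpt hw⟩

/-- `chi n * mw w n - w` is a null sequence -/
lemma cut_sub {p : ℝ≥0∞} (hp : 1 ≤ p) (hpt : p ≠ ⊤) {w : E → ℝ} (hw : MemLp w p volume) :
    Z p (fun n x => chi n x * mw w n x - w x) := by
  refine ((Z.bdd (mw_sub hp hpt hw) chi_meas chi_abs).add hp (chi_sub hp hpt hw)).congr fun n => ?_
  funext x
  ring

/-- a bounded null factor times a mollification -/
lemma der_mw {p : ℝ≥0∞} (hp : 1 ≤ p) (hpt : p ≠ ⊤) {w : E → ℝ} (hw : MemLp w p volume)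
    {c : ℕ → E → ℝ} {B : ℝ} (hB : 0 ≤ B) (hc : ∀ n, AEStronglyMeasurable (c n) volume)
    (hb : ∀ n x, |c n x| ≤ B * (1 / ((n : ℝ) + 1))) : Z p (fun n x => c n x * mw w n x) := by
  have hb' : ∀ n x, |c n x| ≤ B := fun n x => by
    refine (hb n x).trans ?_
    have h1 : 1 / ((n : ℝ) + 1) ≤ 1 := by
      rw [div_le_one (by positivity)]
      linarith [n.cast_nonneg (α := ℝ)]
    calc B * (1 / ((n : ℝ) + 1)) ≤ B * 1 := mul_le_mul_of_nonneg_left h1 hB
      _ = B := mul_one B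
  have h1 := Z.bdd (mw_sub hp hpt hw) hc hb'
  have h2 := Z.small (p := p) (c := c) (F := fun _ => w) hw.2.ne hc (fun _ => hw.1) hb
    (fun _ => le_rfl)
  refine (h1.add hp h2).congr fun n => ?_
  funext x
  ring

/-- density of test functions in `H¹` -/
lemma dens1 {w : E → ℝ} {g : Fin 5 → E → ℝ} (hw : MemLp w 2 volume)
    (hg : ∀ i, MemLp (g i) 2 volume ∧ WD i w (g i)) :
    ∃ ψ : ℕ → E → ℝ, (∀ n, IsTest (ψ n)) ∧ Z 2 (fun n x => ψ n x - w x) ∧
      ∀ i, Z 2 (fun n x => pd i (ψ n) x - g i x) := by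
  obtain ⟨B, A, hB, hA, hb1, hb2, hb3, hb4⟩ := chi_bds
  have hwl : LocallyIntegrable w volume := hw.locallyIntegrable (by norm_num)
  have hsm : ∀ n, ContDiff ℝ ∞ (mw w n) := fun n => mc_smooth (ph_test n) hwl
  refine ⟨fun n x => chi n x * mw w n x, fun n => test_mul (chi_test n) (hsm n),
    cut_sub (by norm_num) (by norm_num) hw, fun i => ?_⟩
  have h1 := der_mw (by norm_num) (by norm_num) hw hB
    (fun n => test_meas (test_pd (chi_test n) i)) (fun n x => hb1 n i x)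
  have h2 := cut_sub (p := 2) (by norm_num) (by norm_num) (hg i).1
  refine (h1.add (by norm_num) h2).congr fun n => ?_
  funext x
  rw [pd_mul (test_diff (chi_test n) x) ((hsm n).differentiable (by simp) x)]
  have h3 : pd i (mw w n) x = mw (g i) n x := by
    unfold mw
    rw [pd_mc (ph_test n) hwl, mc_wd (ph_test n) (hg i).2]
  rw [h3]
  ring

/-! ### chain rule -/

/-- chain rule for the fields of `k` -/
lemma chain (fld : St_Fld) (lin : St_Lin) (dens : St_Dens) (k : K) (i : Fin 5) {G G' : ℝ → ℝ}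
    {L L' : ℝ} (hG0 : G 0 = 0) (hd : ∀ s, HasDerivAt G (G' s) s) (hGc : Continuous G')
    (hL : ∀ s, |G' s| ≤ L) (hL' : ∀ s t, |G' s - G' t| ≤ L' * |s - t|)
    (hLip : ∀ s t, |G s - G t| ≤ L * |s - t|) :
    WD i (fun x => G (U k x)) (fun x => G' (U k x) * DU k i x) := by
  intro φ hφ
  obtain ⟨C, hC, hfld⟩ := fld
  obtain ⟨f, g, hf, hg, hlim⟩ := NLbx.apx dens k
  have hGcont : Continuous G := continuous_iff_continuousAt.2 fun s => (hd s).continuousAt
  have hlimC : Tendsto (fun n => ENNReal.ofReal C * ‖k - Theta (f n) (g n)‖ₑ) atTop (𝓝 0) := by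
    have h := ENNReal.Tendsto.const_mul hlim (a := ENNReal.ofReal C) (Or.inr ENNReal.ofReal_ne_top)
    rwa [mul_zero] at h
  have z1 : Z 10 (fun n x => f n x - U k x) := by
    refine Z.of_le (fun n => (test_meas (hf n)).sub (hfld k).1.1.1) (fun n => ?_) hlimC
    refine le_trans (le_of_eq ?_) (hfld (k - Theta (f n) (g n))).1.2
    refine eLpNorm_congr_norm_ae ?_
    filter_upwards [NLbx.U_sub lin k (Theta (f n) (g n)), (lin.2.1 (f n) (g n) (hf n) (hg n)).1]
      with x h1 h2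
    rw [h1, h2]
    exact norm_sub_rev _ _
  have c2 : NLbx.Cv (10 / 3) (fun n => pd i (f n)) (DU k i) := by
    refine ⟨((hfld k).2.2.1 i).1, fun n => NLbx.test_memLp (test_pd (hf n) i) _, ?_⟩
    refine tendsto_of_tendsto_of_tendsto_of_le_of_le tendsto_const_nhds hlimC
      (fun _ => bot_le) fun n => ?_
    refine le_trans (le_of_eq ?_) ((hfld (k - Theta (f n) (g n))).2.2.1 i).2.2
    refine eLpNorm_congr_norm_ae ?_
    filter_upwards [NLbx.DU_sub lin k (Theta (f n) (g n)) i,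
      (lin.2.1 (f n) (g n) (hf n) (hg n)).2.2.1 i] with x h1 h2
    rw [h1, h2]
    exact norm_sub_rev _ _
  have hL0 : 0 ≤ L := (abs_nonneg _).trans (hL 0)
  have hGle : ∀ s, |G s| ≤ L * |s| := fun s => by
    have := hLip s 0
    rwa [hG0, sub_zero, sub_zero] at this
  have hUm := (hfld k).1.1.1
  -- `G (f n) → G u` in `L^10`
  have c1 : NLbx.Cv 10 (fun n x => G (f n x)) (fun x => G (U k x)) := by
    refine ⟨?_, fun n => ?_, ?_⟩
    · refine MemLp.of_le_mul (c := L) (hfld k).1.1 (hGcont.comp_aestronglyMeasurable hUm)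
        (Eventually.of_forall fun x => hGle _)
    · refine MemLp.of_le_mul (c := L) (NLbx.test_memLp (hf n) 10)
        (hGcont.comp_aestronglyMeasurable (test_meas (hf n))) (Eventually.of_forall fun x => hGle _)
    · have h := ENNReal.Tendsto.const_mul z1.2 (a := ENNReal.ofReal L)
        (Or.inr ENNReal.ofReal_ne_top)
      rw [mul_zero] at h
      refine tendsto_of_tendsto_of_tendsto_of_le_of_le tendsto_const_nhds h
        (fun _ => bot_le) fun n => ?_
      exact eLpNorm_le_mul_eLpNorm_of_ae_le_mul (Eventually.of_forall fun x => hLip _ _) 10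
  -- `G' (f n) φ → G' u φ` in `L^(10/7)`
  have ht3 : ENNReal.HolderTriple 10 (5 / 3) (10 / 7) :=
    NLbx.ht (by norm_num) (by norm_num) (by norm_num) (by norm_num)
  have one7 : (1 : ℝ≥0∞) ≤ 10 / 7 := by
    rw [ENNReal.le_div_iff_mul_le (by norm_num) (by norm_num)]; norm_num
  have c3 : NLbx.Cv (10 / 7) (fun n x => G' (f n x) * φ x) (fun x => G' (U k x) * φ x) := by
    refine ⟨?_, fun n => ?_, ?_⟩
    · refine MemLp.of_le_mul (c := L) (NLbx.test_memLp hφ (10 / 7))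
        ((hGc.comp_aestronglyMeasurable hUm).mul (test_meas hφ)) (Eventually.of_forall fun x => ?_)
      rw [norm_mul]
      exact mul_le_mul_of_nonneg_right (hL _) (norm_nonneg _)
    · refine MemLp.of_le_mul (c := L) (NLbx.test_memLp hφ (10 / 7))
        ((hGc.comp_aestronglyMeasurable (test_meas (hf n))).mul (test_meas hφ))
        (Eventually.of_forall fun x => ?_)
      rw [norm_mul]
      exact mul_le_mul_of_nonneg_right (hL _) (norm_nonneg _)
    · have h := ENNReal.Tendsto.mul_const (ENNReal.Tendsto.const_mul z1.2 (a := ENNReal.ofReal L')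
        (Or.inr ENNReal.ofReal_ne_top)) (b := eLpNorm φ (5 / 3) volume)
        (Or.inr (NLbx.test_memLp hφ (5 / 3)).2.ne)
      rw [mul_zero, zero_mul] at h
      refine tendsto_of_tendsto_of_tendsto_of_le_of_le tendsto_const_nhds h
        (fun _ => bot_le) fun n => ?_
      have e1 : eLpNorm (fun x => G' (f n x) * φ x - G' (U k x) * φ x) (10 / 7) volume ≤
          ENNReal.ofReal L' * eLpNorm (fun x => (f n x - U k x) * φ x) (10 / 7) volume := by
        refine eLpNorm_le_mul_eLpNorm_of_ae_le_mul (Eventually.of_forall fun x => ?_) _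
        rw [← sub_mul, norm_mul, norm_mul, ← mul_assoc]
        exact mul_le_mul_of_nonneg_right (hL' _ _) (norm_nonneg _)
      refine e1.trans ?_
      rw [mul_assoc]
      gcongr
      exact NLbx.hoel 10 (5 / 3) ht3 (z1.1 n) (test_meas hφ)
  have i1 := (NLbx.Cv.mul (r := 1) (NLbx.ht (by norm_num) (by norm_num) (by norm_num)
    (by norm_num)) le_rfl c1 (NLbx.Cv.cst (NLbx.test_memLp (test_pd hφ i) (10 / 9)))).int
  have i2 := (NLbx.Cv.mul (r := 1) (NLbx.ht (by norm_num) (by norm_num) (by norm_num)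
    (by norm_num)) le_rfl c3 c2).int
  -- the identity for test functions
  have h1 : ∀ n, ∫ x, G (f n x) * pd i φ x = - ∫ x, G' (f n x) * φ x * pd i (f n) x := by
    intro n
    have hdf : ∀ x, HasFDerivAt (fun x => G (f n x)) (G' (f n x) • fderiv ℝ (f n) x) x := fun x =>
      (hd (f n x)).comp_hasFDerivAt x (test_diff (hf n) x).hasFDerivAt
    have hpd : ∀ x, fderiv ℝ (fun x => G (f n x)) x (EuclideanSpace.single i (1 : ℝ)) =
        G' (f n x) * pd i (f n) x := by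
      intro x
      rw [(hdf x).fderiv]
      rfl
    have hcf := (hf n).1.continuous
    have h := integral_mul_fderiv_eq_neg_fderiv_mul_of_integrable (μ := (volume : Measure E))
      (f := fun x => G (f n x)) (g := φ) (v := EuclideanSpace.single i (1 : ℝ)) ?_ ?_ ?_ ?_ ?_
    · unfold pd at *
      rw [h]
      congr 1
      refine integral_congr_ae (Eventually.of_forall fun x => ?_)
      simp only [hpd]
      ring
    · simp only [hpd]
      exact NLbx.test_mul_int ((hGc.comp hcf).mul (test_pd (hf n) i).1.continuous) hφ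
    · exact NLbx.test_mul_int (hGcont.comp hcf) (test_pd hφ i)
    · exact NLbx.test_mul_int (hGcont.comp hcf) hφ
    · intro x _
      exact (hdf x).differentiableAt
    · intro x _
      exact test_diff hφ x
  have h2 := i1.congr h1
  have h3 := tendsto_nhds_unique h2 i2.neg
  rw [h3]
  congr 1
  refine integral_congr_ae (Eventually.of_forall fun x => ?_)
  ring


/-! ### truncations near zero -/

/-- the ratio -/
noncomputable def rt (a s : ℝ) : ℝ := s ^ 2 / (a ^ 2 + s ^ 2)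

/-- the truncation -/
noncomputable def Gt (a s : ℝ) : ℝ := s ^ 5 / (a ^ 2 + s ^ 2) ^ 2

/-- its derivative -/
noncomputable def Gt1 (a s : ℝ) : ℝ := 5 * rt a s ^ 2 - 4 * rt a s ^ 3

lemma den_pos {a : ℝ} (ha : 0 < a) (s : ℝ) : 0 < a ^ 2 + s ^ 2 := by positivity

lemma rt_nonneg {a : ℝ} (ha : 0 < a) (s : ℝ) : 0 ≤ rt a s := by
  unfold rt
  have := den_pos ha s
  positivity

lemma rt_le_one {a : ℝ} (ha : 0 < a) (s : ℝ) : rt a s ≤ 1 := by
  unfold rt
  rw [div_le_one (den_pos ha s)]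
  nlinarith [sq_nonneg a]

lemma rt_d {a : ℝ} (ha : 0 < a) (s : ℝ) :
    HasDerivAt (rt a) (2 * s * a ^ 2 / (a ^ 2 + s ^ 2) ^ 2) s := by
  have h0 := (den_pos ha s).ne'
  have h1 : HasDerivAt (fun s : ℝ => s ^ 2) (2 * s) s := by
    simpa using hasDerivAt_pow 2 s
  have h2 : HasDerivAt (fun s : ℝ => a ^ 2 + s ^ 2) (2 * s) s := h1.const_add (a ^ 2)
  refine (h1.div h2 h0).congr_deriv ?_
  field_simp
  ring

lemma Gt_d {a : ℝ} (ha : 0 < a) (s : ℝ) : HasDerivAt (Gt a) (Gt1 a s) s := by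
  have h0 := (den_pos ha s).ne'
  have h1 : HasDerivAt (fun s : ℝ => s ^ 2) (2 * s) s := by
    simpa using hasDerivAt_pow 2 s
  have h2 : HasDerivAt (fun s : ℝ => (a ^ 2 + s ^ 2) ^ 2) (2 * (a ^ 2 + s ^ 2) * (2 * s)) s := by
    have h3 := (h1.const_add (a ^ 2)).fun_pow 2
    refine h3.congr_deriv ?_
    norm_num
  have h4 : HasDerivAt (fun s : ℝ => s ^ 5) (5 * s ^ 4) s := by
    simpa using hasDerivAt_pow 5 s
  refine (h4.div h2 (pow_ne_zero 2 h0)).congr_deriv ?_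
  unfold Gt1 rt
  field_simp
  ring

lemma rt_lip {a : ℝ} (ha : 0 < a) (s t : ℝ) : |rt a s - rt a t| ≤ a⁻¹ * |s - t| := by
  have h := Convex.norm_image_sub_le_of_norm_hasDerivWithin_le (s := univ) (f := rt a)
    (f' := fun s => 2 * s * a ^ 2 / (a ^ 2 + s ^ 2) ^ 2) (C := a⁻¹) (x := t) (y := s)
    (fun x _ => (rt_d ha x).hasDerivWithinAt) (fun x _ => ?_) convex_univ (mem_univ _) (mem_univ _)
  · exact h
  · have h0 := den_pos ha x
    rw [Real.norm_eq_abs, abs_div, abs_of_pos (pow_pos h0 2), div_le_iff₀ (pow_pos h0 2),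
      abs_mul, abs_mul, abs_of_pos (two_pos : (0 : ℝ) < 2), abs_of_pos (pow_pos ha 2)]
    have h1 : 2 * |x| * a ≤ a ^ 2 + x ^ 2 := by
      nlinarith [sq_nonneg (|x| - a), sq_abs x]
    have h2 : a ^ 2 ≤ a ^ 2 + x ^ 2 := by nlinarith [sq_nonneg x]
    have h3 : 2 * |x| * a ^ 2 = a⁻¹ * (2 * |x| * a * a ^ 2) := by
      field_simp
    rw [h3]
    refine mul_le_mul_of_nonneg_left ?_ (inv_nonneg.2 ha.le)
    calc 2 * |x| * a * a ^ 2 ≤ (a ^ 2 + x ^ 2) * (a ^ 2 + x ^ 2) :=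
          mul_le_mul h1 h2 (by positivity) h0.le
      _ = (a ^ 2 + x ^ 2) ^ 2 := by ring

lemma Gt1_le {a : ℝ} (ha : 0 < a) (s : ℝ) : |Gt1 a s| ≤ 5 := by
  have h0 := rt_nonneg ha s
  have h1 := rt_le_one ha s
  have h2 : rt a s ^ 2 ≤ 1 := by nlinarith
  have h3 : 0 ≤ rt a s ^ 2 := by positivity
  have h4 : 0 ≤ rt a s ^ 3 := by positivity
  have h5 : rt a s ^ 3 ≤ rt a s ^ 2 := by
    have : rt a s ^ 3 = rt a s ^ 2 * rt a s := by ring
    rw [this]
    nlinarith
  unfold Gt1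
  rw [abs_le]
  constructor <;> nlinarith

lemma Gt1_lip {a : ℝ} (ha : 0 < a) (s t : ℝ) : |Gt1 a s - Gt1 a t| ≤ (22 * a⁻¹) * |s - t| := by
  have h0 := rt_nonneg ha s
  have h1 := rt_le_one ha s
  have h0' := rt_nonneg ha t
  have h1' := rt_le_one ha t
  have h2 := rt_lip ha s t
  have h3 : Gt1 a s - Gt1 a t = (rt a s - rt a t) * (5 * (rt a s + rt a t) -
      4 * (rt a s ^ 2 + rt a s * rt a t + rt a t ^ 2)) := by
    unfold Gt1
    ring
  rw [h3, abs_mul]
  have h4 : |5 * (rt a s + rt a t) - 4 * (rt a s ^ 2 + rt a s * rt a t + rt a t ^ 2)| ≤ 22 := by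
    have e1 : rt a s ^ 2 ≤ 1 := by nlinarith
    have e2 : rt a t ^ 2 ≤ 1 := by nlinarith
    have e3 : rt a s * rt a t ≤ 1 := by nlinarith
    have e4 : 0 ≤ rt a s * rt a t := mul_nonneg h0 h0'
    have e5 : 0 ≤ rt a s ^ 2 := by positivity
    have e6 : 0 ≤ rt a t ^ 2 := by positivity
    rw [abs_le]
    constructor <;> linarith
  calc |rt a s - rt a t| * |5 * (rt a s + rt a t) - 4 * (rt a s ^ 2 + rt a s * rt a t + rt a t ^ 2)|
      ≤ (a⁻¹ * |s - t|) * 22 := mul_le_mul h2 h4 (abs_nonneg _) (by positivity)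
    _ = (22 * a⁻¹) * |s - t| := by ring

lemma Gt1_cont {a : ℝ} (ha : 0 < a) : Continuous (Gt1 a) := by
  have h1 : Continuous (rt a) := continuous_iff_continuousAt.2 fun s => (rt_d ha s).continuousAt
  unfold Gt1
  fun_prop

lemma Gt_lip {a : ℝ} (ha : 0 < a) (s t : ℝ) : |Gt a s - Gt a t| ≤ 5 * |s - t| :=
  Convex.norm_image_sub_le_of_norm_hasDerivWithin_le (s := univ) (f := Gt a)
    (f' := Gt1 a) (C := 5) (x := t) (y := s)
    (fun x _ => (Gt_d ha x).hasDerivWithinAt) (fun x _ => Gt1_le ha x) convex_univ (mem_univ _)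
    (mem_univ _)

lemma Gt_zero (a : ℝ) : Gt a 0 = 0 := by simp [Gt]

lemma Gt_le5 {a : ℝ} (ha : 0 < a) (s : ℝ) : |Gt a s| ≤ (a ^ 4)⁻¹ * |s ^ 5| := by
  unfold Gt
  have h0 := den_pos ha s
  rw [abs_div, abs_of_pos (pow_pos h0 2), div_eq_inv_mul]
  refine mul_le_mul_of_nonneg_right ?_ (abs_nonneg _)
  refine inv_anti₀ (by positivity) ?_
  have h1 : a ^ 2 ≤ a ^ 2 + s ^ 2 := by nlinarith [sq_nonneg s]
  calc a ^ 4 = a ^ 2 * a ^ 2 := by ring
    _ ≤ (a ^ 2 + s ^ 2) * (a ^ 2 + s ^ 2) := mul_le_mul h1 h1 (by positivity) h0.le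
    _ = (a ^ 2 + s ^ 2) ^ 2 := by ring

lemma Gt_tendsto (s : ℝ) : Tendsto (fun n : ℕ => Gt (1 / ((n : ℝ) + 1)) s) atTop (𝓝 s) := by
  by_cases hs : s = 0
  · rw [hs]
    simp only [Gt_zero]
    exact tendsto_const_nhds
  · have h1 := tendsto_one_div_add_atTop_nhds_zero_nat (𝕜 := ℝ)
    have h2 : Tendsto (fun n : ℕ => ((1 / ((n : ℝ) + 1)) ^ 2 + s ^ 2) ^ 2) atTop
        (𝓝 (((0 : ℝ) ^ 2 + s ^ 2) ^ 2)) := ((h1.pow 2).add_const (s ^ 2)).pow 2
    have h3 : ((0 : ℝ) ^ 2 + s ^ 2) ^ 2 ≠ 0 := by positivity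
    have h4 := (tendsto_const_nhds (x := s ^ 5)).div h2 h3
    have h5 : s ^ 5 / ((0 : ℝ) ^ 2 + s ^ 2) ^ 2 = s := by
      field_simp
      ring
    rw [h5] at h4
    exact h4

/-! ### Hardy's inequality for test functions -/

/-- the vector field -/
noncomputable def Fj (f : E → ℝ) (j : Fin 5) (x : E) : ℝ := x j * MorIx.rr x ^ 2 * f x ^ 2

lemma Fj_smooth {f : E → ℝ} (hf : IsTest f) (j : Fin 5) : ContDiff ℝ ∞ (Fj f j) := by
  unfold Fj
  exact ((MorIx.cont_coord j).mul (MorIx.rr_smooth.pow 2)).mul (hf.1.pow 2)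

lemma Fj_supp {f : E → ℝ} (hf : IsTest f) (j : Fin 5) : HasCompactSupport (Fj f j) := by
  refine hf.2.mono' ?_
  refine (Function.support_subset_iff'.2 fun x hx => ?_).trans (subset_tsupport f)
  have h1 : f x = 0 := by simpa using hx
  unfold Fj
  rw [h1]
  ring

lemma pd_Fj {f : E → ℝ} (hf : IsTest f) (j : Fin 5) (x : E) :
    pd j (Fj f j) x = MorIx.rr x ^ 2 * f x ^ 2 + x j * (2 * MorIx.rr x * (-x j * MorIx.rr x ^ 3)) * f x ^ 2 +
      x j * MorIx.rr x ^ 2 * (2 * f x * pd j f x) := by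
  refine MorIx.pd_eq_of_hd ((Fj_smooth hf j).differentiable (by simp)) j x _ ?_
  have h1 := MorIx.hd_coord j j x
  have h2 := (MorIx.hd_rr j x).fun_pow 2
  have h3 := (MorIx.hd_of_diff (MorIx.test_diff hf) j x).fun_pow 2
  have h4 := (h1.mul h2).mul h3
  refine h4.congr_deriv ?_
  simp only [if_true, zero_smul, add_zero]
  norm_num
  ring

lemma hardy_pt {f : E → ℝ} (hf : IsTest f) (x : E) :
    2 * (MorIx.rr x * f x) ^ 2 - ∑ j, pd j f x ^ 2 ≤ ∑ j, pd j (Fj f j) x := by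
  have h0 := MorIx.rr_sq x
  rw [MorIx.norm_sq] at h0
  simp only [pd_Fj hf]
  simp only [Fin.sum_univ_five] at h0 ⊢
  generalize MorIx.rr x = r at *
  generalize f x = w at *
  generalize pd 0 f x = g0 at *
  generalize pd 1 f x = g1 at *
  generalize pd 2 f x = g2 at *
  generalize pd 3 f x = g3 at *
  generalize pd 4 f x = g4 at *
  generalize x 0 = a0 at *
  generalize x 1 = a1 at *
  generalize x 2 = a2 at *
  generalize x 3 = a3 at *
  generalize x 4 = a4 at *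
  -- `r² |a|² = 1 - r²`
  have h1 : r ^ 2 * (a0 ^ 2 + a1 ^ 2 + a2 ^ 2 + a3 ^ 2 + a4 ^ 2) = 1 - r ^ 2 := by linarith
  have h2 : 0 ≤ (g0 + r ^ 2 * w * a0) ^ 2 + (g1 + r ^ 2 * w * a1) ^ 2 + (g2 + r ^ 2 * w * a2) ^ 2 +
      (g3 + r ^ 2 * w * a3) ^ 2 + (g4 + r ^ 2 * w * a4) ^ 2 := by positivity
  have h3 : (g0 + r ^ 2 * w * a0) ^ 2 + (g1 + r ^ 2 * w * a1) ^ 2 + (g2 + r ^ 2 * w * a2) ^ 2 +
      (g3 + r ^ 2 * w * a3) ^ 2 + (g4 + r ^ 2 * w * a4) ^ 2 = (g0 ^ 2 + g1 ^ 2 + g2 ^ 2 + g3 ^ 2 + g4 ^ 2) +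
      2 * r ^ 2 * w * (a0 * g0 + a1 * g1 + a2 * g2 + a3 * g3 + a4 * g4) +
      r ^ 2 * w ^ 2 * (1 - r ^ 2) := by
    rw [← h1]
    ring
  have h4 : 0 ≤ r ^ 4 * w ^ 2 := by positivity
  have h5 : r ^ 2 * w ^ 2 + a0 * (2 * r * (-a0 * r ^ 3)) * w ^ 2 + a0 * r ^ 2 * (2 * w * g0) +
      (r ^ 2 * w ^ 2 + a1 * (2 * r * (-a1 * r ^ 3)) * w ^ 2 + a1 * r ^ 2 * (2 * w * g1)) +
      (r ^ 2 * w ^ 2 + a2 * (2 * r * (-a2 * r ^ 3)) * w ^ 2 + a2 * r ^ 2 * (2 * w * g2)) +
      (r ^ 2 * w ^ 2 + a3 * (2 * r * (-a3 * r ^ 3)) * w ^ 2 + a3 * r ^ 2 * (2 * w * g3)) +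
      (r ^ 2 * w ^ 2 + a4 * (2 * r * (-a4 * r ^ 3)) * w ^ 2 + a4 * r ^ 2 * (2 * w * g4)) =
      5 * r ^ 2 * w ^ 2 - 2 * r ^ 2 * w ^ 2 * (1 - r ^ 2) +
      2 * r ^ 2 * w * (a0 * g0 + a1 * g1 + a2 * g2 + a3 * g3 + a4 * g4) := by
    rw [← h1]
    ring
  rw [h5]
  nlinarith

lemma test_sq_int {f : E → ℝ} (hf : IsTest f) : Integrable (fun x => f x ^ 2) volume :=
  (hf.1.continuous.pow 2).integrable_of_hasCompactSupport (by
    refine hf.2.mono' ?_
    refine (Function.support_subset_iff'.2 fun x hx => ?_).trans (subset_tsupport f)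
    have h1 : f x = 0 := by simpa using hx
    change f x ^ 2 = 0
    rw [h1]
    ring)

lemma rr_mul_test {f : E → ℝ} (hf : IsTest f) : IsTest (fun x => MorIx.rr x * f x) :=
  ⟨MorIx.rr_smooth.mul hf.1, hf.2.mul_left⟩

lemma hardy_test {f : E → ℝ} (hf : IsTest f) :
    eLpNorm (fun x => MorIx.rr x * f x) 2 volume ≤ ∑ i, eLpNorm (pd i f) 2 volume := by
  have h1 : ∫ x, (∑ j, pd j (Fj f j) x) = 0 := by
    rw [integral_finsetSum _ fun j _ => ?_]
    · refine Finset.sum_eq_zero fun j _ => ?_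
      exact MorIx.int_pd ((Fj_smooth hf j).of_le (by exact_mod_cast le_top)) (Fj_supp hf j) j
    · have ht := test_pd (φ := Fj f j) ⟨Fj_smooth hf j, Fj_supp hf j⟩ j
      exact ht.1.continuous.integrable_of_hasCompactSupport ht.2
  have i1 : Integrable (fun x => (MorIx.rr x * f x) ^ 2) volume := test_sq_int (rr_mul_test hf)
  have i2 : ∀ j, Integrable (fun x => pd j f x ^ 2) volume := fun j => test_sq_int (test_pd hf j)
  have i3 : Integrable (fun x => ∑ j, pd j f x ^ 2) volume := integrable_finsetSum _ fun j _ => i2 j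
  have i4 : Integrable (fun x => ∑ j, pd j (Fj f j) x) volume := by
    refine integrable_finsetSum _ fun j _ => ?_
    have ht := test_pd (φ := Fj f j) ⟨Fj_smooth hf j, Fj_supp hf j⟩ j
    exact ht.1.continuous.integrable_of_hasCompactSupport ht.2
  have h2 : ∫ x, (2 * (MorIx.rr x * f x) ^ 2 - ∑ j, pd j f x ^ 2) ≤ 0 := by
    rw [← h1]
    exact integral_mono ((i1.const_mul 2).sub i3) i4 fun x => hardy_pt hf x
  rw [integral_sub (i1.const_mul 2) i3, integral_const_mul, integral_finsetSum _ fun j _ => i2 j] at h2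
  have m0 : MemLp (fun x => MorIx.rr x * f x) 2 volume := NLbx.test_memLp (rr_mul_test hf) 2
  have m1 : ∀ j, MemLp (pd j f) 2 volume := fun j => NLbx.test_memLp (test_pd hf j) 2
  rw [GamEx.int_sq m0] at h2
  have h3 : ∀ j, ∫ x, pd j f x ^ 2 = (eLpNorm (pd j f) 2 volume).toReal ^ 2 := fun j =>
    GamEx.int_sq (m1 j)
  simp only [h3] at h2
  have h4 : ∑ j, (eLpNorm (pd j f) 2 volume).toReal ^ 2 ≤ (∑ j, (eLpNorm (pd j f) 2 volume).toReal) ^ 2 :=
    Finset.sum_sq_le_sq_sum_of_nonneg fun j _ => ENNReal.toReal_nonneg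
  have h5 : (eLpNorm (fun x => MorIx.rr x * f x) 2 volume).toReal ≤
      ∑ j, (eLpNorm (pd j f) 2 volume).toReal := by
    have e1 : 0 ≤ ∑ j, (eLpNorm (pd j f) 2 volume).toReal :=
      Finset.sum_nonneg fun j _ => ENNReal.toReal_nonneg
    refine abs_le_of_sq_le_sq' ?_ e1 |>.2
    nlinarith [sq_nonneg (eLpNorm (fun x => MorIx.rr x * f x) 2 volume).toReal]
  rw [← ENNReal.toReal_sum fun j _ => (m1 j).2.ne] at h5
  exact (ENNReal.toReal_le_toReal m0.2.ne (ENNReal.sum_ne_top.2 fun j _ => (m1 j).2.ne)).1 h5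

/-! ### from test functions to fields -/

lemma ext_bd {c : E → ℝ} (hc : Continuous c) {p C : ℝ≥0∞} (hC : C ≠ ⊤)
    (hb : ∀ f, IsTest f → eLpNorm (fun x => c x * f x) p volume ≤ C * ∑ i, eLpNorm (pd i f) 2 volume)
    {w : E → ℝ} {g : Fin 5 → E → ℝ} (hw : MemLp w 2 volume)
    (hg : ∀ i, MemLp (g i) 2 volume ∧ WD i w (g i)) :
    eLpNorm (fun x => c x * w x) p volume ≤ C * ∑ i, eLpNorm (g i) 2 volume := by
  obtain ⟨ψ, hψ, z0, z1⟩ := dens1 hw hg
  have m : TendstoInMeasure volume ψ atTop w :=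
    tendstoInMeasure_of_tendsto_eLpNorm (p := 2) two_ne_zero (fun n => test_meas (hψ n)) hw.1 z0.2
  obtain ⟨ns, hns, hae⟩ := m.exists_seq_tendsto_ae
  have h1 := Lp.eLpNorm_lim_le_liminf_eLpNorm (μ := volume) (p := p)
    (f := fun n x => c x * ψ (ns n) x)
    (fun n => (hc.mul (hψ _).1.continuous).aestronglyMeasurable) (fun x => c x * w x) (by
      filter_upwards [hae] with x hx
      exact hx.const_mul _)
  refine h1.trans ?_
  have h2 : ∀ n, eLpNorm (fun x => c x * ψ (ns n) x) p volume ≤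
      C * ∑ i, (eLpNorm (fun x => pd i (ψ (ns n)) x - g i x) 2 volume + eLpNorm (g i) 2 volume) := by
    intro n
    refine (hb _ (hψ _)).trans ?_
    gcongr with i hi
    have e1 : pd i (ψ (ns n)) = fun x => (pd i (ψ (ns n)) x - g i x) + g i x := by
      funext x
      ring
    calc eLpNorm (pd i (ψ (ns n))) 2 volume =
          eLpNorm (fun x => (pd i (ψ (ns n)) x - g i x) + g i x) 2 volume := by rw [← e1]
      _ ≤ _ := eLpNorm_add_le ((z1 i).1 _) (hg i).1.1 (by norm_num)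
  have h3 : Tendsto (fun n => C * ∑ i, (eLpNorm (fun x => pd i (ψ (ns n)) x - g i x) 2 volume +
      eLpNorm (g i) 2 volume)) atTop (𝓝 (C * ∑ i, eLpNorm (g i) 2 volume)) := by
    refine ENNReal.Tendsto.const_mul ?_ (Or.inr hC)
    refine tendsto_finsetSum _ fun i _ => ?_
    have h4 := ((z1 i).2.comp hns.tendsto_atTop).add_const (eLpNorm (g i) 2 volume)
    rw [zero_add] at h4
    exact h4
  calc atTop.liminf (fun n => eLpNorm (fun x => c x * ψ (ns n) x) p volume)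
      ≤ atTop.liminf (fun n => C * ∑ i, (eLpNorm (fun x => pd i (ψ (ns n)) x - g i x) 2 volume +
        eLpNorm (g i) 2 volume)) := liminf_le_liminf (Eventually.of_forall h2)
    _ = _ := h3.liminf_eq

/-- the same for the field `U k`, without `U k ∈ L²` -/
lemma ext_fe (fld : St_Fld) (lin : St_Lin) (dens : St_Dens) {c : E → ℝ} (hc : Continuous c)
    {p C : ℝ≥0∞} (hC : C ≠ ⊤)
    (hb : ∀ f, IsTest f → eLpNorm (fun x => c x * f x) p volume ≤ C * ∑ i, eLpNorm (pd i f) 2 volume)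
    (k : K) (hk : ∀ i, MemLp (DU k i) 2 volume) :
    eLpNorm (fun x => c x * U k x) p volume ≤ C * (5 * ∑ i, eLpNorm (DU k i) 2 volume) := by
  have hU10 : MemLp (U k) 10 volume := by
    obtain ⟨C, hC, hfld⟩ := fld
    exact (hfld k).1.1
  have hU5 : MemLp (fun x => U k x ^ 5) 2 volume := NLbx.p5 hU10
  have ha : ∀ n : ℕ, (0 : ℝ) < 1 / ((n : ℝ) + 1) := fun n => by positivity
  have h1 : ∀ n : ℕ, eLpNorm (fun x => c x * Gt (1 / ((n : ℝ) + 1)) (U k x)) p volume ≤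
      C * (5 * ∑ i, eLpNorm (DU k i) 2 volume) := by
    intro n
    have hG : Continuous (Gt (1 / ((n : ℝ) + 1))) :=
      continuous_iff_continuousAt.2 fun s => (Gt_d (ha n) s).continuousAt
    have m0 : MemLp (fun x => Gt (1 / ((n : ℝ) + 1)) (U k x)) 2 volume :=
      MemLp.of_le_mul (c := ((1 / ((n : ℝ) + 1)) ^ 4)⁻¹) hU5
        (hG.comp_aestronglyMeasurable hU10.1) (Eventually.of_forall fun x => Gt_le5 (ha n) _)
    have m1 : ∀ i, MemLp (fun x => Gt1 (1 / ((n : ℝ) + 1)) (U k x) * DU k i x) 2 volume := fun i =>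
      MemLp.of_le_mul (c := 5) (hk i)
        (((Gt1_cont (ha n)).comp_aestronglyMeasurable hU10.1).mul (hk i).1)
        (Eventually.of_forall fun x => by
          rw [norm_mul]
          exact mul_le_mul_of_nonneg_right (Gt1_le (ha n) _) (norm_nonneg _))
    refine (ext_bd hc hC hb m0 fun i => ⟨m1 i, chain fld lin dens k i (L := 5)
      (L' := 22 * (1 / ((n : ℝ) + 1))⁻¹) (Gt_zero _) (Gt_d (ha n)) (Gt1_cont (ha n)) (Gt1_le (ha n))
      (Gt1_lip (ha n)) (Gt_lip (ha n))⟩).trans ?_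
    gcongr
    rw [Finset.mul_sum]
    refine Finset.sum_le_sum fun i _ => ?_
    have h5 : (5 : ℝ≥0∞) = ENNReal.ofReal 5 := by norm_num
    rw [h5]
    refine eLpNorm_le_mul_eLpNorm_of_ae_le_mul (Eventually.of_forall fun x => ?_) 2
    rw [norm_mul]
    exact mul_le_mul_of_nonneg_right (Gt1_le (ha n) _) (norm_nonneg _)
  have hG : ∀ n : ℕ, Continuous (Gt (1 / ((n : ℝ) + 1))) := fun n =>
    continuous_iff_continuousAt.2 fun s => (Gt_d (ha n) s).continuousAt
  have h2 := Lp.eLpNorm_lim_le_liminf_eLpNorm (μ := volume) (p := p)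
    (f := fun (n : ℕ) x => c x * Gt (1 / ((n : ℝ) + 1)) (U k x))
    (fun n => hc.aestronglyMeasurable.mul ((hG n).comp_aestronglyMeasurable hU10.1))
    (fun x => c x * U k x) (Eventually.of_forall fun x => (Gt_tendsto _).const_mul _)
  refine h2.trans ?_
  refine (liminf_le_liminf (Eventually.of_forall h1)).trans ?_
  simp

/-- interpolation -/
lemma mem6 {w : E → ℝ} (h1 : MemLp w (10 / 3) volume) (h2 : MemLp w 10 volume) :
    MemLp w 6 volume := by
  have e1 : (10 / 3 : ℝ≥0∞).toReal = 10 / 3 := by norm_num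
  have i1 := lintegral_rpow_enorm_lt_top_of_eLpNorm_lt_top (p := (10 / 3 : ℝ≥0∞)) (by norm_num)
    (ENNReal.div_ne_top (by norm_num) (by norm_num)) h1.2
  have i2 := lintegral_rpow_enorm_lt_top_of_eLpNorm_lt_top (p := (10 : ℝ≥0∞)) (by norm_num)
    (by norm_num) h2.2
  refine ⟨h1.1, ?_⟩
  rw [eLpNorm_lt_top_iff_lintegral_rpow_enorm_lt_top (by norm_num) (by norm_num)]
  rw [e1] at i1
  rw [ENNReal.toReal_ofNat] at i2
  rw [ENNReal.toReal_ofNat]
  have h3 : ∫⁻ x, ‖w x‖ₑ ^ (6 : ℝ) ≤ ∫⁻ x, (‖w x‖ₑ ^ (10 / 3 : ℝ) + ‖w x‖ₑ ^ (10 : ℝ)) := by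
    refine lintegral_mono fun x => ?_
    rcases le_total ‖w x‖ₑ 1 with h | h
    · exact (ENNReal.rpow_le_rpow_of_exponent_ge h (by norm_num)).trans le_self_add
    · exact (ENNReal.rpow_le_rpow_of_exponent_le h (by norm_num)).trans le_add_self
  refine h3.trans_lt ?_
  rw [lintegral_add_left' (h1.1.enorm.pow_const _)]
  exact ENNReal.add_lt_top.2 ⟨i1, i2⟩

/-! ### approximation of states of finite energy -/

lemma rr_low {n : ℕ} {x : E} (hx : ‖x‖ ≤ 2 * ((n : ℝ) + 1)) : 1 / ((n : ℝ) + 1) ≤ 3 * MorIx.rr x := by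
  have hn : (0 : ℝ) < (n : ℝ) + 1 := by positivity
  have hn0 : (0 : ℝ) ≤ n := n.cast_nonneg
  have h1 : √(1 + ‖x‖ ^ 2) ≤ 3 * ((n : ℝ) + 1) := by
    rw [Real.sqrt_le_left (by positivity)]
    have h2 : ‖x‖ ^ 2 ≤ (2 * ((n : ℝ) + 1)) ^ 2 := by
      have := norm_nonneg x
      gcongr
    nlinarith
  have h0 : 0 < √(1 + ‖x‖ ^ 2) := by positivity
  unfold MorIx.rr
  rw [div_le_iff₀ hn, ← div_eq_mul_inv, div_mul_eq_mul_div, le_div_iff₀ h0, one_mul]
  exact h1

lemma pdchi_rr : ∃ B : ℝ, 0 ≤ B ∧ ∀ n i x, |pd i (chi n) x| ≤ B * MorIx.rr x := by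
  obtain ⟨B, A, hB, hA, hb1, hb2, hb3, hb4⟩ := chi_bds
  refine ⟨3 * B, by positivity, fun n i x => ?_⟩
  by_cases hx : x ∈ Metric.closedBall (0 : E) (2 * ((n : ℝ) + 1))
  · refine (hb1 n i x).trans ?_
    have h1 := rr_low (n := n) (mem_closedBall_zero_iff.1 hx)
    calc B * (1 / ((n : ℝ) + 1)) ≤ B * (3 * MorIx.rr x) := mul_le_mul_of_nonneg_left h1 hB
      _ = 3 * B * MorIx.rr x := by ring
  · rw [pd_chi, supp_zero (pd_supp bb_test bb_supp i) n hx, mul_zero, abs_zero]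
    have := MorIx.rr_pos x
    positivity

lemma pd_add {a b : E → ℝ} {x : E} (ha : DifferentiableAt ℝ a x) (hb : DifferentiableAt ℝ b x)
    (i : Fin 5) : pd i (fun x => a x + b x) x = pd i a x + pd i b x := by
  unfold pd
  rw [fderiv_fun_add ha hb]
  rfl

lemma pd_mw {w g : E → ℝ} {i : Fin 5} (hw : LocallyIntegrable w volume) (h : WD i w g) (n : ℕ)
    (x : E) : pd i (mw w n) x = mw g n x := by
  unfold mw
  rw [pd_mc (ph_test n) hw, mc_wd (ph_test n) h]

lemma Z.sum5 {p : ℝ≥0∞} (hp : 1 ≤ p) {F : Fin 5 → ℕ → E → ℝ} (h : ∀ i, Z p (F i)) :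
    Z p (fun n x => ∑ i, F i n x) := by
  have h1 := ((((h 0).add hp (h 1)).add hp (h 2)).add hp (h 3)).add hp (h 4)
  refine h1.congr fun n => ?_
  funext x
  rw [Fin.sum_univ_five]

lemma ht1 : ENNReal.HolderTriple 5 (10 / 3) 2 :=
  NLbx.ht (by norm_num) (by norm_num) (by norm_num) (by norm_num)

lemma ht2 : ENNReal.HolderTriple (10 / 3) 5 2 :=
  NLbx.ht (by norm_num) (by norm_num) (by norm_num) (by norm_num)

lemma ten3 : (10 / 3 : ℝ≥0∞) ≠ ⊤ := ENNReal.div_ne_top (by norm_num) (by norm_num)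

/-- approximation of the position -/
lemma apx_pos (fld : St_Fld) (k : K) (hk : ∀ i, MemLp (DU k i) 2 volume)
    (hU : MemLp (U k) (10 / 3) volume) (hr : MemLp (fun x => MorIx.rr x * U k x) 2 volume) :
    ∃ f : ℕ → E → ℝ, (∀ n, IsTest (f n)) ∧ (∀ i, Z 2 (fun n x => pd i (f n) x - DU k i x)) ∧
      Z 2 (fun n x => lap (f n) x - LU k x) := by
  obtain ⟨B, A, hB, hA, hb1, hb2, hb3, hb4⟩ := chi_bds
  obtain ⟨B', hB', hbr⟩ := pdchi_rr
  obtain ⟨C, hC, hfld⟩ := fld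
  have hUl : LocallyIntegrable (U k) volume := hU.locallyIntegrable GamEx.one_le_ten
  have hDl : ∀ i, LocallyIntegrable (DU k i) volume := fun i => (hk i).locallyIntegrable (by norm_num)
  have hwd1 : ∀ i, WD i (U k) (DU k i) := fun i => ((hfld k).2.2.1 i).2.1
  have hwd2 : ∀ i j, WD j (DU k i) (DDU k i j) := fun i j => ((hfld k).2.2.2.1 i j).2.1
  have hDD : ∀ i j, MemLp (DDU k i j) 2 volume := fun i j => ((hfld k).2.2.2.1 i j).1
  have sm0 : ∀ n, ContDiff ℝ ∞ (mw (U k) n) := fun n => mc_smooth (ph_test n) hUl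
  have sm1 : ∀ i n, ContDiff ℝ ∞ (mw (DU k i) n) := fun i n => mc_smooth (ph_test n) (hDl i)
  have ht : ∀ n, IsTest (fun x => chi n x * mw (U k) n x) := fun n => test_mul (chi_test n) (sm0 n)
  have p1 : ∀ n i, pd i (fun x => chi n x * mw (U k) n x) =
      fun x => pd i (chi n) x * mw (U k) n x + chi n x * mw (DU k i) n x := by
    intro n i
    funext x
    rw [pd_mul (test_diff (chi_test n) x) ((sm0 n).differentiable (by simp) x), pd_mw hUl (hwd1 i)]
  have p2 : ∀ n i x, pd i (pd i (fun x => chi n x * mw (U k) n x)) x =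
      (pd i (pd i (chi n)) x * mw (U k) n x + pd i (chi n) x * mw (DU k i) n x) +
      (pd i (chi n) x * mw (DU k i) n x + chi n x * mw (DDU k i i) n x) := by
    intro n i x
    have d1 : IsTest (fun x => pd i (chi n) x * mw (U k) n x) :=
      test_mul (test_pd (chi_test n) i) (sm0 n)
    have d2 : IsTest (fun x => chi n x * mw (DU k i) n x) := test_mul (chi_test n) (sm1 i n)
    rw [p1, pd_add (test_diff d1 x) (test_diff d2 x),
      pd_mul (test_diff (test_pd (chi_test n) i) x) ((sm0 n).differentiable (by simp) x),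
      pd_mul (test_diff (chi_test n) x) ((sm1 i n).differentiable (by simp) x),
      pd_mw hUl (hwd1 i), pd_mw (hDl i) (hwd2 i i)]
  have msU := mw_sub (p := 10 / 3) GamEx.one_le_ten ten3 hU
  -- first order terms
  have z1 : ∀ i, Z 2 (fun n x => pd i (chi n) x * (mw (U k) n x - U k x)) := fun i =>
    Z.hol ht1 hA (fun n => test_meas (test_pd (chi_test n) i)) (fun n => hb3 n i) msU
  have rm : AEStronglyMeasurable (fun x => (MorIx.rr x)⁻¹) (volume : Measure E) :=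
    (MorIx.rr_smooth.continuous.inv₀ fun x => (MorIx.rr_pos x).ne').aestronglyMeasurable
  have z2 : ∀ i, Z 2 (fun n x => (pd i (chi n) x * (MorIx.rr x)⁻¹) * (MorIx.rr x * U k x)) := by
    intro i
    refine Z.dom (by norm_num) (by norm_num) (B := B')
      (fun n => (test_meas (test_pd (chi_test n) i)).mul rm) hr (fun n x => ?_) fun x => ?_
    · have h0 := MorIx.rr_pos x
      rw [abs_mul, abs_of_pos (inv_pos.2 h0), ← div_eq_mul_inv, div_le_iff₀ h0]
      exact hbr n i x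
    · filter_upwards [chi_ev x] with n hn
      rw [pd_chi_zero n i x hn, zero_mul]
  have w1 : ∀ i, Z 2 (fun n x => pd i (fun x => chi n x * mw (U k) n x) x - DU k i x) := by
    intro i
    have h3 := cut_sub (p := 2) (by norm_num) (by norm_num) (hk i)
    refine (((z1 i).add (by norm_num) (z2 i)).add (by norm_num) h3).congr fun n => ?_
    funext x
    rw [p1]
    have h0 : (pd i (chi n) x * (MorIx.rr x)⁻¹) * (MorIx.rr x * U k x) = pd i (chi n) x * U k x := by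
      have h0 := (MorIx.rr_pos x).ne'
      field_simp
    simp only [h0]
    ring
  -- second order terms
  have y1 : ∀ i, Z 2 (fun n x => pd i (pd i (chi n)) x * (mw (U k) n x - U k x)) := fun i =>
    Z.hol ht1 hA (fun n => test_meas (test_pd (test_pd (chi_test n) i) i)) (fun n => by
      refine (hb4 n i i).trans ?_
      have e1 : ENNReal.ofReal (1 / ((n : ℝ) + 1)) ≤ 1 := by
        rw [← ENNReal.ofReal_one]
        refine ENNReal.ofReal_le_ofReal ?_
        rw [div_le_one (by positivity)]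
        linarith [n.cast_nonneg (α := ℝ)]
      calc ENNReal.ofReal (1 / ((n : ℝ) + 1)) * A ≤ 1 * A := by gcongr
        _ = A := one_mul A) msU
  have y0 : ∀ i, Z 5 (fun n => pd i (pd i (chi n))) := by
    intro i
    refine Z.of_le (fun n => test_meas (test_pd (test_pd (chi_test n) i) i)) (fun n => hb4 n i i) ?_
    have h := ENNReal.Tendsto.mul_const one_div_zero (b := A) (Or.inr hA)
    rwa [zero_mul] at h
  have y2 : ∀ i, Z 2 (fun n x => U k x * pd i (pd i (chi n)) x) := fun i =>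
    Z.hol ht2 hU.2.ne (fun _ => hU.1) (fun _ => le_rfl) (y0 i)
  have w2 : ∀ i, Z 2 (fun n x => pd i (pd i (fun x => chi n x * mw (U k) n x)) x - DDU k i i x) := by
    intro i
    have h1 := (y1 i).add (by norm_num) (y2 i)
    have h2 := der_mw (p := 2) (by norm_num) (by norm_num) (hk i) hB
      (fun n => test_meas (test_pd (chi_test n) i)) (fun n x => hb1 n i x)
    have h3 := cut_sub (p := 2) (by norm_num) (by norm_num) (hDD i i)
    refine ((h1.add (by norm_num) (h2.add (by norm_num) h2)).add (by norm_num) h3).congr fun n => ?_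
    funext x
    rw [p2]
    ring
  refine ⟨fun n x => chi n x * mw (U k) n x, ht, w1, ?_⟩
  refine (Z.sum5 (by norm_num) w2).congr fun n => ?_
  funext x
  unfold lap LU
  rw [← Finset.sum_sub_distrib]

/-- the norm of the difference with a test state -/
lemma norm_sub_sq (hL : St_Lin) (hI : St_IP) (k : K) {f g : E → ℝ} (hf : IsTest f) (hg : IsTest g) :
    ‖k - Theta f g‖ ^ 2 = c0 * ((∫ x, (lap f x - LU k x) ^ 2) +
      ∑ i, ∫ x, (pd i g x - DV k i x) ^ 2) := by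
  rw [← real_inner_self_eq_norm_sq, hI]
  have hs : k - Theta f g = k + (-1 : ℝ) • Theta f g := (NLbx.neg_add k _).symm
  obtain ⟨_, _, _, hDD, hDV⟩ := hL.2.1 f g hf hg
  obtain ⟨_, _, _, lDD, lDV⟩ := hL.1 (-1) k (Theta f g)
  have h1 : ∫ x, LU (k - Theta f g) x * LU (k - Theta f g) x = ∫ x, (lap f x - LU k x) ^ 2 := by
    refine integral_congr_ae ?_
    have h2 : ∀ᵐ x, ∀ i : Fin 5, DDU (Theta f g) i i x = pd i (pd i f) x :=
      ae_all_iff.2 fun i => hDD i i
    have h3 : ∀ᵐ x, ∀ i : Fin 5, DDU (k - Theta f g) i i x =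
        DDU k i i x + (-1) * DDU (Theta f g) i i x := by
      rw [hs]
      exact ae_all_iff.2 fun i => lDD i i
    filter_upwards [h2, h3] with x hx hy
    have h4 : LU (k - Theta f g) x = LU k x - lap f x := by
      unfold LU lap
      rw [← Finset.sum_sub_distrib]
      refine Finset.sum_congr rfl fun i _ => ?_
      rw [hy i, hx i]
      ring
    rw [h4]
    ring
  have h2 : ∀ i, ∫ x, DV (k - Theta f g) i x * DV (k - Theta f g) i x =
      ∫ x, (pd i g x - DV k i x) ^ 2 := by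
    intro i
    refine integral_congr_ae ?_
    have h3 : DV (k - Theta f g) i =ᵐ[volume] fun x => DV k i x + (-1) * DV (Theta f g) i x := by
      rw [hs]
      exact lDV i
    filter_upwards [hDV i, h3] with x hx hy
    rw [hy, hx]
    ring
  rw [h1]
  simp only [h2]

lemma sq_tendsto {F : ℕ → E → ℝ} (hm : ∀ n, MemLp (F n) 2 volume) (hz : Z 2 F) :
    Tendsto (fun n => ∫ x, F n x ^ 2) atTop (𝓝 0) := by
  have h1 : (fun n => ∫ x, F n x ^ 2) = fun n => (eLpNorm (F n) 2 volume).toReal ^ 2 :=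
    funext fun n => GamEx.int_sq (hm n)
  rw [h1]
  have h2 := ((ENNReal.tendsto_toReal ENNReal.zero_ne_top).comp hz.2).pow 2
  simpa using h2

end FEdx

open FEdx Moll

theorem thm_FEd (fld : St_Fld) (lin : St_Lin) (dens : St_Dens) (hI : St_IP) (sob : St_Sob) :
    St_FEd := by
  obtain ⟨C, hC, hsob⟩ := sob
  refine ⟨5 * C + 5, by positivity, fun k hk => ?_⟩
  obtain ⟨hkD, hkV⟩ := hk
  have hfin : ∑ i, eLpNorm (DU k i) 2 volume ≠ ⊤ := ENNReal.sum_ne_top.2 fun i _ => (hkD i).2.ne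
  have hfld := fld
  obtain ⟨C1, hC1, hf1⟩ := hfld
  have hU10 : MemLp (U k) 10 volume := (hf1 k).1.1
  -- Sobolev
  have s1 : eLpNorm (fun x => 1 * U k x) (10 / 3) volume ≤
      ENNReal.ofReal C * (5 * ∑ i, eLpNorm (DU k i) 2 volume) :=
    ext_fe fld lin dens (c := fun _ => 1) continuous_const ENNReal.ofReal_ne_top (fun f hf => by
      simp only [one_mul]
      exact (hsob f hf).2.2.2) k hkD
  simp only [one_mul] at s1
  have hU3 : MemLp (U k) (10 / 3) volume :=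
    ⟨hU10.1, s1.trans_lt (ENNReal.mul_lt_top ENNReal.ofReal_lt_top
      (ENNReal.mul_lt_top (by norm_num) hfin.lt_top))⟩
  -- Hardy
  have s2 : eLpNorm (fun x => MorIx.rr x * U k x) 2 volume ≤
      1 * (5 * ∑ i, eLpNorm (DU k i) 2 volume) :=
    ext_fe fld lin dens (c := MorIx.rr) MorIx.rr_smooth.continuous ENNReal.one_ne_top
      (fun f hf => by
        rw [one_mul]
        exact hardy_test hf) k hkD
  rw [one_mul] at s2
  have hr : MemLp (fun x => MorIx.rr x * U k x) 2 volume :=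
    ⟨MorIx.rr_smooth.continuous.aestronglyMeasurable.mul hU10.1,
      s2.trans_lt (ENNReal.mul_lt_top (by norm_num) hfin.lt_top)⟩
  refine ⟨?_, hU3, mem6 hU3 hU10, ?_⟩
  · obtain ⟨f, hf, zf1, zf2⟩ := apx_pos fld k hkD hU3 hr
    obtain ⟨g, hg, zg0, zg1⟩ := dens1 hkV fun i => ⟨((hf1 k).2.2.2.2 i).1, ((hf1 k).2.2.2.2 i).2.1⟩
    refine ⟨f, g, fun n => ⟨hf n, hg n⟩, ?_, fun i => (zf1 i).2, zg0.2⟩
    have mL : MemLp (LU k) 2 volume := by
      have h := memLp_finsetSum (μ := (volume : Measure E)) (p := 2) Finset.univ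
        (f := fun (i : Fin 5) x => DDU k i i x) fun i _ => ((hf1 k).2.2.2.1 i i).1
      exact h
    have ml : ∀ n, MemLp (lap (f n)) 2 volume := by
      intro n
      have h := memLp_finsetSum (μ := (volume : Measure E)) (p := 2) Finset.univ
        (f := fun (i : Fin 5) x => pd i (pd i (f n)) x) fun i _ =>
          NLbx.test_memLp (test_pd (test_pd (hf n) i) i) 2
      exact h
    have t1 : Tendsto (fun n => ∫ x, (lap (f n) x - LU k x) ^ 2) atTop (𝓝 0) :=
      sq_tendsto (fun n => (ml n).sub mL) zf2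
    have t2 : ∀ i, Tendsto (fun n => ∫ x, (pd i (g n) x - DV k i x) ^ 2) atTop (𝓝 0) := fun i =>
      sq_tendsto (fun n => (NLbx.test_memLp (test_pd (hg n) i) 2).sub ((hf1 k).2.2.2.2 i).1) (zg1 i)
    have t3 : Tendsto (fun n => ‖k - Theta (f n) (g n)‖ ^ 2) atTop (𝓝 0) := by
      have h1 : (fun n => ‖k - Theta (f n) (g n)‖ ^ 2) = fun n =>
          c0 * ((∫ x, (lap (f n) x - LU k x) ^ 2) + ∑ i, ∫ x, (pd i (g n) x - DV k i x) ^ 2) :=
        funext fun n => norm_sub_sq lin hI k (hf n) (hg n)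
      rw [h1]
      have h2 := (t1.add (tendsto_finsetSum Finset.univ fun i _ => t2 i)).const_mul c0
      simpa using h2
    have t4 : Tendsto (fun n => ‖k - Theta (f n) (g n)‖) atTop (𝓝 0) := by
      have h1 := (Real.continuous_sqrt.tendsto 0).comp t3
      rw [Real.sqrt_zero] at h1
      refine h1.congr fun n => ?_
      exact Real.sqrt_sq (norm_nonneg _)
    rw [tendsto_iff_norm_sub_tendsto_zero]
    refine t4.congr fun n => ?_
    exact norm_sub_rev _ _
  · rw [MorIx.rr_div]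
    refine s2.trans ?_
    rw [← ENNReal.ofReal_ofNat (n := 5)]
    gcongr
    linarith

end Pool.Agent.QWE
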