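import Pool.Agent.QWE.StA

set_option autoImplicit false

/-!
# QWE, FSP: finite speed of propagation, linear (helper98)
-/

open MeasureTheory Filter Topology Set
open scoped ENNReal NNReal RealInnerProductSpace ContDiff Pointwise

namespace Pool.Agent.QWE

namespace FSPx

private lemma supp {φ F : E → ℝ} {Ω : Set E} {t : ℝ} (hφ : IsTest φ)
    (hs : tsupport φ ⊆ shr Ω |t|) (h : ∀ x, (∀ y, dist y x ≤ |t| → φ y = 0) → F x = 0) :
    tsupport F ⊆ Ω := by
  have hc : IsCompact (tsupport φ) := hφ.2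
  have h1 : Metric.cthickening |t| (tsupport φ) ⊆ Ω := by
    rw [hc.cthickening_eq_biUnion_closedBall (abs_nonneg t)]
    intro x hx
    obtain ⟨y, hy, hxy⟩ := mem_iUnion₂.1 hx
    obtain ⟨b, hb, hb2⟩ := hs hy
    exact hb2 (Metric.mem_ball.2 ((Metric.mem_closedBall.1 hxy).trans_lt hb))
  refine (closure_minimal ?_ Metric.isClosed_cthickening).trans h1
  intro x hx
  by_contra hx2
  refine hx (h x fun y hy => image_eq_zero_of_notMem_tsupport fun hy2 => hx2 ?_)
  rw [hc.cthickening_eq_biUnion_closedBall (abs_nonneg t)]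
  refine mem_iUnion₂.2 ⟨y, hy2, ?_⟩
  rwa [Metric.mem_closedBall, dist_comm]

private lemma van_iff {Ω : Set E} {k : K} : Van Ω k ↔
    ∀ φ, IsTest φ → tsupport φ ⊆ Ω → inner ℝ k (Rk φ) = 0 ∧ inner ℝ k (dRk φ) = 0 := by
  constructor
  · intro h φ hφ hs
    have hm : ∀ w, (w = Rk φ ∨ w = dRk φ) → inner ℝ k w = 0 := by
      intro w hw
      have h1 : w ∈ TS Ω := by
        refine Submodule.le_topologicalClosure _ (Submodule.subset_span ?_)
        exact ⟨φ, hφ, hs, hw⟩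
      rw [real_inner_comm]
      exact (Submodule.mem_orthogonal _ _).1 h w h1
    exact ⟨hm _ (Or.inl rfl), hm _ (Or.inr rfl)⟩
  · intro h
    have h1 : TS Ω ≤ (ℝ ∙ k)ᗮ := by
      refine Submodule.topologicalClosure_minimal _ ?_ (Submodule.isClosed_orthogonal _)
      rw [Submodule.span_le]
      rintro w ⟨φ, hφ, hs, rfl | rfl⟩
      · exact Submodule.mem_orthogonal_singleton_iff_inner_right.2 (h φ hφ hs).1
      · exact Submodule.mem_orthogonal_singleton_iff_inner_right.2 (h φ hφ hs).2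
    refine (Submodule.mem_orthogonal _ _).2 fun u hu => ?_
    rw [real_inner_comm]
    exact Submodule.mem_orthogonal_singleton_iff_inner_right.1 (h1 hu)

end FSPx

open FSPx in
theorem thm_FSP (hG : St_Grp1) (hE : St_ExB) (hF : St_Free) : St_FSP := by
  have key : ∀ (Ω : Set E) (t : ℝ) (k : K), Van Ω k → Van (shr Ω |t|) (tau t k) := by
    intro Ω t k hk
    rw [van_iff] at hk ⊢
    intro φ hφ hs
    have hs' : tsupport φ ⊆ shr Ω |(-t)| := by rwa [abs_neg]
    obtain ⟨-, ⟨f1, f2, h1, h2, h3, h4⟩, -⟩ := hF φ φ (-t) hφ hφ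
    obtain ⟨-, -, ⟨g1, g2, k1, k2, k3, k4⟩⟩ := hF φ φ (-t) hφ hφ
    rw [hG.2.2.2.2.2.1 t k (Rk φ), hG.2.2.2.2.2.1 t k (dRk φ), h3, k3, inner_add_right,
      inner_add_right, (hk f1 h1 (supp hφ hs' fun x hx => (h4 x hx).1)).1,
      (hk f2 h2 (supp hφ hs' fun x hx => (h4 x hx).2)).2,
      (hk g1 k1 (supp hφ hs' fun x hx => (k4 x hx).1)).1,
      (hk g2 k2 (supp hφ hs' fun x hx => (k4 x hx).2)).2]
    simp
  intro Ω t k _
  refine ⟨key Ω t k, ?_⟩
  obtain ⟨-, -, -, -, h5, h6, -⟩ := hE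
  have h1 := key Ω t _ (h5 Ω k)
  rw [map_sub] at h1
  have h2 := (h6 _ _ _ h1).1
  rwa [LinearIsometry.norm_map] at h2

end Pool.Agent.QWE
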