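import Pool.Agent.QWE.StA

/-!
# QWE, module FSl: Fourier slice theorem
-/

set_option autoImplicit false

open MeasureTheory Filter Topology Set
open scoped ENNReal NNReal RealInnerProductSpace Pointwise

namespace Pool.Agent.QWE

namespace FSlx

theorem exp_eq (r t : ℝ) : Complex.exp (-2 * Real.pi * Complex.I * r * t) =
    ((Real.cos (2 * Real.pi * r * t) : ℝ) : ℂ) -
      Complex.I * ((Real.sin (2 * Real.pi * r * t) : ℝ) : ℂ) := by
  have h1 : (-2 * Real.pi * Complex.I * r * t : ℂ) =
      ((-(2 * Real.pi * r * t) : ℝ) : ℂ) * Complex.I := by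
    push_cast
    ring
  rw [h1, Complex.exp_mul_I, ← Complex.ofReal_cos, ← Complex.ofReal_sin, Real.cos_neg,
    Real.sin_neg]
  push_cast
  ring

theorem int_eq {α : Type} [MeasurableSpace α] {μ : Measure α} {a θ : α → ℝ} (r : ℝ)
    (ha : Integrable a μ) (hθ : Measurable θ) :
    ∫ x, (a x : ℂ) * Complex.exp (-2 * Real.pi * Complex.I * r * θ x) ∂μ =
      ((∫ x, a x * Real.cos (2 * Real.pi * r * θ x) ∂μ : ℝ) : ℂ) -
        Complex.I * ((∫ x, a x * Real.sin (2 * Real.pi * r * θ x) ∂μ : ℝ) : ℂ) := by
  have hc : Integrable (fun x => a x * Real.cos (2 * Real.pi * r * θ x)) μ := by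
    refine ha.mul_bdd (c := 1) ?_ ?_
    · exact (Real.measurable_cos.comp (hθ.const_mul _)).aestronglyMeasurable
    · exact Eventually.of_forall fun x => by
        rw [Real.norm_eq_abs]
        exact Real.abs_cos_le_one _
  have hs : Integrable (fun x => a x * Real.sin (2 * Real.pi * r * θ x)) μ := by
    refine ha.mul_bdd (c := 1) ?_ ?_
    · exact (Real.measurable_sin.comp (hθ.const_mul _)).aestronglyMeasurable
    · exact Eventually.of_forall fun x => by
        rw [Real.norm_eq_abs]
        exact Real.abs_sin_le_one _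
  have h1 : ∀ x, (a x : ℂ) * Complex.exp (-2 * Real.pi * Complex.I * r * θ x) =
      ((a x * Real.cos (2 * Real.pi * r * θ x) : ℝ) : ℂ) -
        Complex.I * ((a x * Real.sin (2 * Real.pi * r * θ x) : ℝ) : ℂ) := by
    intro x
    rw [exp_eq]
    push_cast
    ring
  rw [integral_congr_ae (Eventually.of_forall h1), integral_sub hc.ofReal (hs.ofReal.const_mul _),
    integral_const_mul, integral_complex_ofReal, integral_complex_ofReal]

end FSlx

open FSlx

theorem thm_FSl (hRadS : St_RadS) : St_FSl := by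
  intro φ hφ w r
  obtain ⟨hcont, -, ⟨C, hC⟩, -, hform, -, -⟩ := hRadS φ hφ
  have hR : Integrable (fun p : ℝ => Rad φ (w, p)) volume := by
    refine Integrable.mono' (g := fun p : ℝ => C * (1 + p ^ 2)⁻¹)
      (integrable_inv_one_add_sq.const_mul C) ?_ ?_
    · exact (hcont.comp (by fun_prop)).aestronglyMeasurable
    · refine Eventually.of_forall fun p => ?_
      rw [Real.norm_eq_abs]
      have h1 := (hC (w, p)).1
      rw [div_eq_mul_inv] at h1
      exact h1
  have hφi : Integrable φ volume := by
    obtain ⟨f, hf⟩ := hφ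
    have h1 : (f : E → ℝ) = φ := funext hf
    rw [← h1]
    exact f.integrable
  rw [int_eq (a := fun p : ℝ => Rad φ (w, p)) (θ := fun p : ℝ => p) r hR measurable_id,
    int_eq (a := φ) (θ := fun x : E => inner ℝ x (w : E)) r hφi (by fun_prop)]
  have hc := hform w (fun p => Real.cos (2 * Real.pi * r * p)) (by fun_prop)
    ⟨1, fun p => Real.abs_cos_le_one _⟩
  have hs := hform w (fun p => Real.sin (2 * Real.pi * r * p)) (by fun_prop)
    ⟨1, fun p => Real.abs_sin_le_one _⟩
  rw [hc, hs]

end Pool.Agent.QWE
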