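import Pool.Agent.QWE.StG

set_option autoImplicit false

/-!
# QWE, FbP: the bubble functional
-/

open MeasureTheory Filter Topology Set
open scoped ENNReal NNReal RealInnerProductSpace

namespace Pool.Agent.QWE

namespace FbPx

/-- the integrand of the supremum -/
noncomputable def F (ψ : E → ℝ) (k : K) (g : E × ℝ) : ℝ :=
  max |inner ℝ (ig g.1 g.2 k) (Rk ψ)| |inner ℝ (ig g.1 g.2 k) (dRk ψ)|

lemma ig_sub (y : E) (a : ℝ) (k k' : K) : ig y a (k - k') = ig y a k - ig y a k' := by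
  unfold ig gr
  rw [map_sub, map_sub]

lemma F_lip (hG : St_GrA) (ψ : E → ℝ) (k k' : K) (g : E × ℝ) :
    F ψ k g ≤ F ψ k' g + max ‖Rk ψ‖ ‖dRk ψ‖ * ‖k - k'‖ := by
  have h0 : ‖ig g.1 g.2 k - ig g.1 g.2 k'‖ = ‖k - k'‖ := by
    rw [← ig_sub]
    exact (hG.2.2.2.1 g.1 g.2 (k - k')).2
  have h1 : ∀ w : K, ‖w‖ ≤ max ‖Rk ψ‖ ‖dRk ψ‖ → |inner ℝ (ig g.1 g.2 k) w| ≤
      |inner ℝ (ig g.1 g.2 k') w| + max ‖Rk ψ‖ ‖dRk ψ‖ * ‖k - k'‖ := by
    intro w hw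
    have h2 : inner ℝ (ig g.1 g.2 k) w = inner ℝ (ig g.1 g.2 k') w +
        inner ℝ (ig g.1 g.2 k - ig g.1 g.2 k') w := by
      rw [inner_sub_left]
      ring
    rw [h2]
    refine (abs_add_le _ _).trans (add_le_add le_rfl ?_)
    refine (abs_real_inner_le_norm _ _).trans ?_
    rw [h0, mul_comm]
    exact mul_le_mul_of_nonneg_right hw (norm_nonneg _)
  unfold F
  refine max_le ?_ ?_
  · exact (h1 _ (le_max_left _ _)).trans (add_le_add (le_max_left _ _) le_rfl)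
  · exact (h1 _ (le_max_right _ _)).trans (add_le_add (le_max_right _ _) le_rfl)

lemma F_bdd (hG : St_GrA) (ψ : E → ℝ) (k : K) : BddAbove (range (F ψ k)) := by
  refine ⟨max ‖Rk ψ‖ ‖dRk ψ‖ * ‖k‖, ?_⟩
  rintro _ ⟨g, rfl⟩
  have h1 := F_lip hG ψ k 0 g
  have h2 : F ψ 0 g = 0 := by
    have h3 : ig g.1 g.2 0 = 0 := by
      unfold ig gr
      rw [map_zero, map_zero]
    unfold F
    rw [h3, inner_zero_left, inner_zero_left, abs_zero, max_self]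
  rw [h2, zero_add, sub_zero] at h1
  exact h1

lemma Fb_lip (hG : St_GrA) (ψ : E → ℝ) (k k' : K) :
    Fb ψ k ≤ Fb ψ k' + max ‖Rk ψ‖ ‖dRk ψ‖ * ‖k - k'‖ := by
  refine ciSup_le fun g => ?_
  refine (F_lip hG ψ k k' g).trans (add_le_add ?_ le_rfl)
  exact le_ciSup (F_bdd hG ψ k') g

lemma ig_gr (hG : St_GrA) (y y' : E) (a a' : ℝ) (k : K) :
    ∃ g : E × ℝ, ig y' a' (gr y a k) = ig g.1 g.2 k := by
  have h1 : ig y' a' (gr y a k) =
      gr (-(Real.exp a' • y') + Real.exp (- -a') • y) (-a' + a) k := hG.1 _ _ _ _ _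
  refine ⟨(-(Real.exp (-a' + a) • (-(Real.exp a' • y') + Real.exp (- -a') • y)), -(-a' + a)), ?_⟩
  rw [h1]
  unfold ig
  simp only
  rw [smul_neg, neg_neg, smul_smul, ← Real.exp_add, neg_add_cancel, Real.exp_zero, one_smul,
    neg_neg, neg_neg]

lemma Fb_gr_le (hG : St_GrA) (ψ : E → ℝ) (k : K) (y : E) (a : ℝ) :
    Fb ψ (gr y a k) ≤ Fb ψ k := by
  refine ciSup_le fun g => ?_
  obtain ⟨g', hg'⟩ := ig_gr hG y g.1 a g.2 k
  rw [hg']
  exact le_ciSup (F_bdd hG ψ k) g'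

end FbPx

open FbPx

theorem thm_FbP (hP : St_PsiNZ) (hG : St_GrA) : St_FbP := by
  intro ψ hψ
  refine ⟨⟨max ‖Rk ψ‖ ‖dRk ψ‖, ?_⟩, ?_, ?_⟩
  · intro k k'
    rw [abs_le]
    have h1 := Fb_lip hG ψ k k'
    have h2 := Fb_lip hG ψ k' k
    rw [norm_sub_rev] at h2
    constructor <;> linarith
  · intro k y a
    refine le_antisymm (Fb_gr_le hG ψ k y a) ?_
    have h1 := Fb_gr_le hG ψ (gr y a k) (-(Real.exp a • y)) (-a)
    have h2 : gr (-(Real.exp a • y)) (-a) (gr y a k) = k := (hG.2.2.1 y a k).2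
    rw [h2] at h1
    exact h1
  · intro k hk
    have h0 : 0 < Fb ψ k := by
      by_contra hcon
      refine hk (hP ψ hψ k fun y a => ?_)
      have h1 : F ψ k (y, a) ≤ 0 := (le_ciSup (F_bdd hG ψ k) (y, a)).trans (not_lt.1 hcon)
      have h2 := (le_max_left _ _).trans h1
      have h3 := (le_max_right _ _).trans h1
      exact ⟨abs_nonpos_iff.1 h2, abs_nonpos_iff.1 h3⟩
    refine ⟨h0, ?_⟩
    obtain ⟨g, hg⟩ := exists_lt_of_lt_ciSup (f := F ψ k) (b := Fb ψ k / 2) (half_lt_self h0)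
    exact ⟨g.1, g.2, hg.le⟩

end Pool.Agent.QWE
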