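import Pool.Agent.QWE.StA
import Pool.Agent.QWE.StF

/-!
# QWE, FinalOf: the final theorem from the space-time bound (helper21)
-/

set_option autoImplicit false

open MeasureTheory Filter Topology Set
open scoped ENNReal NNReal RealInnerProductSpace Pointwise

namespace Pool.Agent.QWE

namespace FinalOfx

private lemma U_sub (hLin : St_Lin) (k k' : K) :
    (U (k - k') =ᵐ[volume] fun x => U k x - U k' x) ∧
      (V (k - k') =ᵐ[volume] fun x => V k x - V k' x) := by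
  have h := hLin.1 (-1) k k'
  rw [neg_one_smul, ← sub_eq_add_neg] at h
  refine ⟨h.1.trans (Eventually.of_forall fun x => ?_), h.2.1.trans (Eventually.of_forall fun x => ?_)⟩
  · change U k x + -1 * U k' x = U k x - U k' x
    ring
  · change V k x + -1 * V k' x = V k x - V k' x
    ring

private lemma norm_bd {c : ℝ} (hc : 0 < c) {A : ℝ≥0} {k : K} {r : ℝ≥0∞}
    (h1 : ENNReal.ofReal c * ‖k‖ₑ ≤ r) (h2 : r ≤ A) : ‖k‖ ≤ (A : ℝ) / c := by
  have h3 := ENNReal.toReal_mono ENNReal.coe_ne_top (h1.trans h2)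
  rw [ENNReal.toReal_mul, ENNReal.toReal_ofReal hc.le, toReal_enorm, ENNReal.coe_toReal] at h3
  rw [le_div_iff₀ hc]
  linarith

private lemma SN_eq {I : Set ℝ} (hI : I.OrdConnected) {u : ℝ → E → ℝ} {k : ℝ → K}
    (h : ∀ t ∈ I, U (k t) =ᵐ[volume] u t) :
    ∫⁻ t in I, eLpNorm (u t) 20 volume ^ 4 = SN I k := by
  unfold SN sn
  refine setLIntegral_congr_fun hI.measurableSet fun t ht => ?_
  change eLpNorm (u t) 20 volume ^ 4 = eLpNorm (U (k t)) 20 volume ^ 4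
  rw [eLpNorm_congr_ae (h t ht)]

private lemma scat (hGrp : St_Grp1) (hLin : St_Lin) {C : ℝ}
    (hC : ∀ (f g : E → ℝ) (k : K), (U k =ᵐ[volume] f) → (V k =ᵐ[volume] g) →
      HN f g ≤ ENNReal.ofReal C * ‖k‖ₑ) {u v : ℝ → E → ℝ} {k : ℝ → K}
    (hk : ∀ t, (U (k t) =ᵐ[volume] u t) ∧ (V (k t) =ᵐ[volume] v t)) (l : Filter ℝ) (kp : K)
    (h : Tendsto (fun t => tau (-t) (k t)) l (𝓝 kp)) :
    Tendsto (fun t => HN (fun x => u t x - U (tau t kp) x) (fun x => v t x - V (tau t kp) x)) l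
      (𝓝 0) := by
  have h1 : ∀ t, ‖k t - tau t kp‖ = ‖tau (-t) (k t) - kp‖ := by
    intro t
    have h2 : tau (-t) (k t) - kp = tau (-t) (k t - tau t kp) := by
      rw [map_sub, hGrp.1, neg_add_cancel, hGrp.2.1]
    rw [h2, LinearIsometry.norm_map]
  have h3 : Tendsto (fun t => ‖k t - tau t kp‖) l (𝓝 0) := by
    simp only [h1]
    exact tendsto_iff_norm_sub_tendsto_zero.1 h
  have h4 : Tendsto (fun t => ENNReal.ofReal C * ‖k t - tau t kp‖ₑ) l (𝓝 0) := by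
    have h5 : Tendsto (fun t => ‖k t - tau t kp‖ₑ) l (𝓝 0) := by
      have h6 := ENNReal.tendsto_ofReal h3
      rw [ENNReal.ofReal_zero] at h6
      simpa only [ofReal_norm] using h6
    have h7 := ENNReal.Tendsto.const_mul (a := ENNReal.ofReal C) h5 (Or.inr ENNReal.ofReal_ne_top)
    rwa [mul_zero] at h7
  refine tendsto_of_tendsto_of_tendsto_of_le_of_le tendsto_const_nhds h4 (fun t => zero_le)
    fun t => ?_
  have h8 := U_sub hLin (k t) (tau t kp)
  refine hC _ _ (k t - tau t kp) (h8.1.trans ?_) (h8.2.trans ?_)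
  · filter_upwards [(hk t).1] with x hx
    rw [hx]
  · filter_upwards [(hk t).2] with x hx
    rw [hx]

end FinalOfx

open FinalOfx in
/-- **Final** from `LA` -/
theorem thm_FinalOf (hGrp : St_Grp1) (hLin : St_Lin) (hMax : St_MaxE) (hBlow : St_Blow)
    (hBr1 : St_Br1) (hBr2 : St_Br2) (hBr3 : St_Br3) : St_FinalOf := by
  intro hLA
  obtain ⟨c, C, hc, hC, -, hHN, -⟩ := hBr1
  refine ⟨?_, ?_⟩
  · rintro I u v ⟨hsol, ⟨t0, ht0⟩, hmaxi⟩ ⟨A, hA⟩
    obtain ⟨k, hk, hkf⟩ := hBr2 I u v hsol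
    obtain ⟨L, hL⟩ := hLA ((A : ℝ) / c)
    have hb : ∀ t ∈ I, ‖k t‖ ≤ (A : ℝ) / c := fun t ht =>
      norm_bd hc (hHN _ _ (k t) (hkf t ht).1 (hkf t ht).2).2 (hA t ht)
    have hSN := hL I k hk hb
    obtain ⟨J, k', hJ, htJ, hk0, hmax⟩ := hMax (k t0) t0
    obtain ⟨hIJ, hkk⟩ := hmax I k hk ht0 rfl
    have hJI : J ⊆ I := hmaxi J _ _ (hBr3.1 J k' hJ.1) hIJ fun t ht => by
      change (U (k' t) =ᵐ[volume] u t) ∧ (V (k' t) =ᵐ[volume] v t)
      rw [← hkk t ht]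
      exact hkf t ht
    obtain rfl : I = J := Subset.antisymm hIJ hJI
    have hSN' : SN I k' < ⊤ := by
      have h1 : SN I k' = SN I k := by
        unfold SN
        refine setLIntegral_congr_fun hsol.1.measurableSet fun t ht => ?_
        rw [hkk t ht]
      rw [h1]
      exact hSN.trans_lt ENNReal.ofReal_lt_top
    have hS1 : SN (I ∩ Ici t0) k' < ⊤ :=
      (lintegral_mono_set inter_subset_left).trans_lt hSN'
    have hS2 : SN (I ∩ Iic t0) k' < ⊤ :=
      (lintegral_mono_set inter_subset_left).trans_lt hSN'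
    obtain ⟨hI1, -, kp, hkp⟩ := (hBlow I k' t0 hJ ht0).1 hS1
    obtain ⟨hI2, -, km, hkm⟩ := (hBlow I k' t0 hJ ht0).2 hS2
    have hU : I = univ := by
      refine eq_univ_of_forall fun t => ?_
      rcases le_total t0 t with h | h
      · exact hI1 h
      · exact hI2 h
    subst hU
    have hf : ∀ t, (U (k' t) =ᵐ[volume] u t) ∧ (V (k' t) =ᵐ[volume] v t) := fun t => by
      rw [← hkk t (mem_univ t)]
      exact hkf t (mem_univ t)
    have hC1 : ∀ (f g : E → ℝ) (k : K), (U k =ᵐ[volume] f) → (V k =ᵐ[volume] g) →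
        HN f g ≤ ENNReal.ofReal C * ‖k‖ₑ := fun f g k h1 h2 => (hHN f g k h1 h2).1
    exact ⟨rfl, ⟨_, _, hBr3.2 kp, scat hGrp hLin hC1 hf atTop kp hkp⟩,
      ⟨_, _, hBr3.2 km, scat hGrp hLin hC1 hf atBot km hkm⟩⟩
  · intro A
    obtain ⟨L, hL⟩ := hLA ((A : ℝ) / c)
    refine ⟨L.toNNReal, fun I u v hsol hA => ?_⟩
    obtain ⟨k, hk, hkf⟩ := hBr2 I u v hsol
    rw [SN_eq hsol.1 fun t ht => (hkf t ht).1]
    exact hL I k hk fun t ht =>
      norm_bd hc (hHN _ _ (k t) (hkf t ht).1 (hkf t ht).2).2 (hA t ht)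

end Pool.Agent.QWE
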