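import Pool.Agent.QWE.Lin

/-!
# QWE, module Fld: the fields and their bounds
-/

set_option autoImplicit false

open MeasureTheory Filter Topology Set
open scoped ENNReal NNReal RealInnerProductSpace ContDiff Pointwise

namespace Pool.Agent.QWE

namespace Fldx

open Linx

lemma int_mul' {f g : E → ℝ} (hf : IsTest f) (hg : IsTest g) :
    Integrable (fun x => f x * g x) (volume : Measure E) :=
  (hf.1.continuous.mul hg.1.continuous).integrable_of_hasCompactSupport hf.2.mul_right

lemma ibp (i : Fin 5) {f g : E → ℝ} (hf : IsTest f) (hg : IsTest g) :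
    ∫ x, f x * pd i g x = - ∫ x, pd i f x * g x := wd_test hf i g hg

lemma ibp_lap {f g : E → ℝ} (hf : IsTest f) (hg : IsTest g) :
    ∫ x, f x * lap g x = - ∑ i, ∫ x, pd i f x * pd i g x := by
  have h1 : ∫ x, f x * lap g x = ∑ i, ∫ x, f x * pd i (pd i g) x := by
    rw [← integral_finsetSum _ fun i _ => int_mul' hf (test_pd (test_pd hg i) i)]
    refine integral_congr_ae (Eventually.of_forall fun x => ?_)
    simp only [lap, Finset.mul_sum]
  rw [h1, ← Finset.sum_neg_distrib]
  exact Finset.sum_congr rfl fun i _ => ibp i hf (test_pd hg i)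

lemma ibp_lap2 {f g : E → ℝ} (hf : IsTest f) (hg : IsTest g) :
    ∫ x, f x * lap (lap g) x = ∫ x, lap f x * lap g x := by
  have h1 := ibp_lap hf (test_lap hg)
  have h2 := ibp_lap (test_lap hg) hf
  have h3 : ∫ x, lap f x * lap g x = ∫ x, lap g x * lap f x :=
    integral_congr_ae (Eventually.of_forall fun x => mul_comm _ _)
  rw [h1, h3, h2]
  congr 1
  refine Finset.sum_congr rfl fun i _ => ?_
  exact integral_congr_ae (Eventually.of_forall fun x => mul_comm _ _)

lemma theta_theta (hI : St_Iso) {f g f' g' : E → ℝ} (hf : IsTest f) (hg : IsTest g)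
    (hf' : IsTest f') (hg' : IsTest g') : inner ℝ (Theta f g) (Theta f' g') =
      c0 * ((∫ x, lap f x * lap f' x) + ∑ i, ∫ x, pd i g x * pd i g' x) := by
  have h1 := inner_Theta_Rk hI hf hg (test_sch (test_lap (test_lap hf')))
  have h2 := inner_Theta_dRk hI hf hg (test_sch (test_lap hg'))
  have h3 : inner ℝ (Theta f g) (Theta f' g') =
      c0 * (inner ℝ (Theta f g) (Rk (lap (lap f'))) - inner ℝ (Theta f g) (dRk (lap g'))) := by
    conv_lhs => rw [show Theta f' g' = c0 • (Rk (lap (lap f')) - dRk (lap g')) from rfl]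
    rw [real_inner_smul_right, inner_sub_right]
  rw [h3, h1, h2, ibp_lap2 hf hf', ibp_lap hg hg', sub_neg_eq_add]

lemma c0_pos : 0 < c0 := by unfold c0; positivity

lemma memLp_test {f : E → ℝ} (hf : IsTest f) (p : ℝ≥0∞) : MemLp f p (volume : Measure E) :=
  hf.1.continuous.memLp_of_hasCompactSupport hf.2

lemma in_toLp {u : E → ℝ} (hu : MemLp u 2 volume) :
    ∫ x, u x * u x = ‖hu.toLp u‖ ^ 2 := by
  rw [← real_inner_self_eq_norm_sq, L2.inner_def]
  refine integral_congr_ae ?_
  filter_upwards [hu.coeFn_toLp] with x h1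
  rw [h1]
  simp [sq]

/-- `L²` bounds of test states -/
lemma theta_bound (hI : St_Iso) {f g : E → ℝ} (hf : IsTest f) (hg : IsTest g) :
    eLpNorm (lap f) 2 volume ≤ ENNReal.ofReal (√(1 / c0)) * ‖Theta f g‖ₑ ∧
    ∀ i, eLpNorm (pd i g) 2 volume ≤ ENNReal.ofReal (√(1 / c0)) * ‖Theta f g‖ₑ := by
  have h1 := theta_theta hI hf hg hf hg
  rw [real_inner_self_eq_norm_sq] at h1
  have hnn : ∀ i, 0 ≤ ∫ x, pd i g x * pd i g x := fun i =>
    integral_nonneg fun x => mul_self_nonneg _
  have hnn' : 0 ≤ ∫ x, lap f x * lap f x := integral_nonneg fun x => mul_self_nonneg _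
  have hgen : ∀ u : E → ℝ, IsTest u → c0 * ∫ x, u x * u x ≤ ‖Theta f g‖ ^ 2 →
      eLpNorm u 2 volume ≤ ENNReal.ofReal (√(1 / c0)) * ‖Theta f g‖ₑ := by
    intro u hu hle
    have hm := memLp_test hu 2
    rw [in_toLp hm] at hle
    have h2 : ‖hm.toLp u‖ ≤ √(1 / c0) * ‖Theta f g‖ := by
      have h3 : ‖hm.toLp u‖ ^ 2 ≤ (1 / c0) * ‖Theta f g‖ ^ 2 := by
        rw [div_mul_eq_mul_div, one_mul, le_div_iff₀ c0_pos]
        linarith
      calc ‖hm.toLp u‖ = √(‖hm.toLp u‖ ^ 2) := (Real.sqrt_sq (norm_nonneg _)).symm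
        _ ≤ √((1 / c0) * ‖Theta f g‖ ^ 2) := Real.sqrt_le_sqrt h3
        _ = √(1 / c0) * ‖Theta f g‖ := by
            rw [Real.sqrt_mul (by have := c0_pos; positivity), Real.sqrt_sq (norm_nonneg _)]
    rw [Lp.norm_toLp] at h2
    rw [← ofReal_norm (Theta f g), ← ENNReal.ofReal_mul (Real.sqrt_nonneg _),
      ← ENNReal.ofReal_toReal hm.2.ne]
    exact ENNReal.ofReal_le_ofReal h2
  have hc := c0_pos
  constructor
  · apply hgen _ (test_lap hf)
    rw [h1]
    have := Finset.sum_nonneg fun i (_ : i ∈ Finset.univ) => hnn i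
    nlinarith
  · intro i
    apply hgen _ (test_pd hg i)
    rw [h1]
    have := Finset.single_le_sum (fun i (_ : i ∈ Finset.univ) => hnn i) (Finset.mem_univ i)
    nlinarith

lemma eq_zero_of (hD : St_Dens) (d : K)
    (h : ∀ φ, IsTest φ → inner ℝ d (Rk φ) = (0 : ℝ) ∧ inner ℝ d (dRk φ) = (0 : ℝ)) : d = 0 := by
  have hle : TS univ ≤ (Submodule.span ℝ {d})ᗮ := by
    apply Submodule.topologicalClosure_minimal _ _ (Submodule.isClosed_orthogonal _)
    rw [Submodule.span_le]
    rintro w ⟨φ, hφ, -, hw⟩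
    rw [SetLike.mem_coe, Submodule.mem_orthogonal_singleton_iff_inner_right]
    rcases hw with rfl | rfl
    · exact (h φ hφ).1
    · exact (h φ hφ).2
  rw [hD.1] at hle
  have := hle (Submodule.mem_top (x := d))
  rw [Submodule.mem_orthogonal_singleton_iff_inner_right] at this
  exact inner_self_eq_zero.1 this

lemma test_sub {f g : E → ℝ} (hf : IsTest f) (hg : IsTest g) :
    IsTest (fun x => f x - g x) := ⟨hf.1.sub hg.1, hf.2.sub hg.2⟩

lemma theta_sub (hI : St_Iso) (hD : St_Dens) {f g f' g' : E → ℝ} (hf : IsTest f) (hg : IsTest g)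
    (hf' : IsTest f') (hg' : IsTest g') :
    Theta (fun x => f x - f' x) (fun x => g x - g' x) = Theta f g - Theta f' g' := by
  rw [← sub_eq_zero]
  apply eq_zero_of hD
  intro φ hφ
  have hs := test_sch hφ
  have hF := test_sub hf hf'
  have hG := test_sub hg hg'
  constructor
  · rw [inner_sub_left, inner_sub_left, inner_Theta_Rk hI hF hG hs, inner_Theta_Rk hI hf hg hs,
      inner_Theta_Rk hI hf' hg' hs]
    have : ∫ x, (f x - f' x) * φ x = (∫ x, f x * φ x) - ∫ x, f' x * φ x := by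
      rw [← integral_sub (int_mul' hf hφ) (int_mul' hf' hφ)]
      congr 1
      ext x
      ring
    rw [this]
    ring
  · rw [inner_sub_left, inner_sub_left, inner_Theta_dRk hI hF hG hs, inner_Theta_dRk hI hf hg hs,
      inner_Theta_dRk hI hf' hg' hs]
    have : ∫ x, (g x - g' x) * φ x = (∫ x, g x * φ x) - ∫ x, g' x * φ x := by
      rw [← integral_sub (int_mul' hg hφ) (int_mul' hg' hφ)]
      congr 1
      ext x
      ring
    rw [this]
    ring

/-- pairing with a test function is continuous on `L^p` -/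
lemma pair_cont (p : ℝ≥0∞) (hp : 1 ≤ p) {φ : E → ℝ} (hφ : IsTest φ) :
    ∃ D : ℝ, ∀ u : E → ℝ, MemLp u p volume → |∫ x, u x * φ x| ≤ D * (eLpNorm u p volume).toReal := by
  obtain ⟨B, hB⟩ := hφ.1.continuous.bounded_above_of_compact_support hφ.2
  have hB0 : 0 ≤ B := (norm_nonneg _).trans (hB 0)
  set A : Set E := tsupport φ with hA
  have hAm : MeasurableSet A := (isClosed_tsupport φ).measurableSet
  have hAf : volume A ≠ ⊤ := hφ.2.isCompact.measure_lt_top.ne
  set e : ℝ := 1 / (1 : ℝ≥0∞).toReal - 1 / p.toReal with he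
  have he0 : 0 ≤ e := by
    rw [he, ENNReal.toReal_one, div_one, sub_nonneg]
    by_cases hpt : p = ⊤
    · rw [hpt]; simp
    · have : 1 ≤ p.toReal := by
        rw [← ENNReal.toReal_one]
        exact (ENNReal.toReal_le_toReal ENNReal.one_ne_top hpt).2 hp
      rw [div_le_one (by linarith)]
      exact this
  refine ⟨B * ((volume A) ^ e).toReal, fun u hu => ?_⟩
  have h1 : ‖∫ x, u x * φ x‖ₑ ≤ ENNReal.ofReal B * (eLpNorm u p volume * (volume A) ^ e) := by
    calc ‖∫ x, u x * φ x‖ₑ ≤ ∫⁻ x, ‖u x * φ x‖ₑ := enorm_integral_le_lintegral_enorm _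
      _ ≤ ∫⁻ x, A.indicator (fun x => ENNReal.ofReal B * ‖u x‖ₑ) x := by
          apply lintegral_mono
          intro x
          by_cases hx : x ∈ A
          · rw [indicator_of_mem hx]
            simp only [enorm_mul]
            rw [mul_comm]
            gcongr
            rw [← ofReal_norm]
            exact ENNReal.ofReal_le_ofReal (hB x)
          · rw [indicator_of_notMem hx]
            change ‖u x * φ x‖ₑ ≤ 0
            have h0 : φ x = 0 := image_eq_zero_of_notMem_tsupport hx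
            simp [h0]
      _ = ENNReal.ofReal B * ∫⁻ x in A, ‖u x‖ₑ := by
          rw [lintegral_indicator hAm, lintegral_const_mul' _ _ ENNReal.ofReal_ne_top]
      _ ≤ ENNReal.ofReal B * (eLpNorm u p volume * (volume A) ^ e) := by
          gcongr
          rw [← eLpNorm_one_eq_lintegral_enorm]
          have h := eLpNorm_le_eLpNorm_mul_rpow_measure_univ (μ := (volume : Measure E).restrict A)
            (p := 1) (q := p) (f := u) hp hu.1.restrict
          rw [Measure.restrict_apply_univ] at h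
          exact h.trans (mul_le_mul_left (eLpNorm_mono_measure _ Measure.restrict_le_self) _)
  have h2 : ENNReal.ofReal B * (eLpNorm u p volume * (volume A) ^ e) ≠ ⊤ :=
    ENNReal.mul_ne_top ENNReal.ofReal_ne_top
      (ENNReal.mul_ne_top hu.2.ne (ENNReal.rpow_ne_top_of_nonneg he0 hAf))
  have h3 := (ENNReal.toReal_le_toReal enorm_ne_top h2).2 h1
  rw [toReal_enorm, Real.norm_eq_abs, ENNReal.toReal_mul, ENNReal.toReal_mul,
    ENNReal.toReal_ofReal hB0] at h3
  linarith

/-- extension from test states -/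
lemma ext_test (hI : St_Iso) (hD : St_Dens) (p : ℝ≥0∞) (hp : 1 ≤ p) (C : ℝ) (hC : 0 ≤ C)
    (ψ : (E → ℝ) → K)
    (H : ∀ f g : E → ℝ, IsTest f → IsTest g → ∃ h : E → ℝ, MemLp h p volume ∧
      eLpNorm h p volume ≤ ENNReal.ofReal C * ‖Theta f g‖ₑ ∧
      ∀ φ, IsTest φ → ∫ x, h x * φ x = inner ℝ (Theta f g) (ψ φ)) (k : K) :
    ∃ h : E → ℝ, MemLp h p volume ∧ eLpNorm h p volume ≤ ENNReal.ofReal C * ‖k‖ₑ ∧
      ∀ φ, IsTest φ → ∫ x, h x * φ x = inner ℝ k (ψ φ) := by
  have : Fact (1 ≤ p) := ⟨hp⟩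
  have hseq : ∀ n : ℕ, ∃ f g : E → ℝ, IsTest f ∧ IsTest g ∧ ‖k - Theta f g‖ < (1 / 2) ^ n :=
    fun n => hD.2 k _ (by positivity)
  choose f g hf hg hfg using hseq
  choose h hm hb hh using fun n => H (f n) (g n) (hf n) (hg n)
  set d : ℕ → K := fun n => Theta (f n) (g n) with hd
  have hdlim : Tendsto d atTop (𝓝 k) := by
    rw [tendsto_iff_norm_sub_tendsto_zero]
    have h0 : Tendsto (fun n : ℕ => (1 / 2 : ℝ) ^ n) atTop (𝓝 0) :=
      tendsto_pow_atTop_nhds_zero_of_lt_one (by norm_num) (by norm_num)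
    refine squeeze_zero (fun n => norm_nonneg _) (fun n => ?_) h0
    rw [← norm_neg, neg_sub]
    exact (hfg n).le
  have hli : ∀ {u : E → ℝ}, MemLp u p volume → LocallyIntegrable u volume := fun hu =>
    hu.locallyIntegrable hp
  have hdiff : ∀ n m, eLpNorm (h n - h m) p volume ≤ ENNReal.ofReal C * ‖d n - d m‖ₑ := by
    intro n m
    obtain ⟨h', hm', hb', hh'⟩ := H _ _ (test_sub (hf n) (hf m)) (test_sub (hg n) (hg m))
    rw [theta_sub hI hD (hf n) (hg n) (hf m) (hg m)] at hb' hh'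
    have hae : (h n - h m) =ᵐ[volume] h' := by
      apply ae_uniq (hli ((hm n).sub (hm m))) (hli hm')
      intro φ hφ
      rw [hh' φ hφ, inner_sub_left, ← hh n φ hφ, ← hh m φ hφ,
        ← integral_sub (int_mul (hli (hm n)) hφ) (int_mul (hli (hm m)) hφ)]
      congr 1
      ext x
      simp only [Pi.sub_apply]
      ring
    rw [eLpNorm_congr_ae hae]
    exact hb'
  set a : ℕ → Lp ℝ p (volume : Measure E) := fun n => (hm n).toLp (h n) with ha
  have hadist : ∀ n m, dist (a n) (a m) ≤ C * dist (d n) (d m) := by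
    intro n m
    rw [dist_eq_norm, dist_eq_norm, ha]
    simp only
    rw [← MemLp.toLp_sub, Lp.norm_toLp]
    refine ENNReal.toReal_le_of_le_ofReal (by positivity) ((hdiff n m).trans_eq ?_)
    rw [ENNReal.ofReal_mul hC, ofReal_norm]
  have hcau : CauchySeq a := by
    rw [Metric.cauchySeq_iff]
    intro ε hε
    have hdc := hdlim.cauchySeq
    rw [Metric.cauchySeq_iff] at hdc
    obtain ⟨N, hN⟩ := hdc (ε / (C + 1)) (by positivity)
    refine ⟨N, fun m hm' n hn => ?_⟩
    have h1 := hN m hm' n hn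
    have h2 := hadist m n
    rw [lt_div_iff₀ (by positivity)] at h1
    have h3 : 0 ≤ dist (d m) (d n) := dist_nonneg
    nlinarith
  obtain ⟨A, hA⟩ := cauchySeq_tendsto_of_complete hcau
  have hnorm : ∀ n, ‖a n‖ ≤ C * ‖d n‖ := by
    intro n
    rw [ha]
    simp only
    rw [Lp.norm_toLp]
    refine ENNReal.toReal_le_of_le_ofReal (by positivity) ((hb n).trans_eq ?_)
    rw [ENNReal.ofReal_mul hC, ofReal_norm]
  refine ⟨A, Lp.memLp A, ?_, ?_⟩
  · rw [← Lp.enorm_def, ← ofReal_norm A, ← ofReal_norm k, ← ENNReal.ofReal_mul hC]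
    apply ENNReal.ofReal_le_ofReal
    exact le_of_tendsto_of_tendsto' hA.norm (hdlim.norm.const_mul C) hnorm
  · intro φ hφ
    obtain ⟨D, hDφ⟩ := pair_cont p hp hφ
    have l1 : Tendsto (fun n => ∫ x, h n x * φ x) atTop (𝓝 (∫ x, A x * φ x)) := by
      rw [tendsto_iff_dist_tendsto_zero]
      have h0 : Tendsto (fun n => D * ‖a n - A‖) atTop (𝓝 (D * 0)) :=
        (tendsto_iff_norm_sub_tendsto_zero.1 hA).const_mul D
      rw [mul_zero] at h0
      refine squeeze_zero (fun n => dist_nonneg) (fun n => ?_) h0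
      rw [Real.dist_eq, ← integral_sub (int_mul (hli (hm n)) hφ)
        (int_mul (hli (Lp.memLp A)) hφ)]
      have e1 : ∫ x, (h n x * φ x - A x * φ x) = ∫ x, (h n - (A : E → ℝ)) x * φ x := by
        congr 1
        ext x
        simp only [Pi.sub_apply]
        ring
      rw [e1]
      refine (hDφ _ ((hm n).sub (Lp.memLp A))).trans (le_of_eq ?_)
      congr 1
      rw [Lp.norm_def]
      congr 1
      apply eLpNorm_congr_ae
      filter_upwards [Lp.coeFn_sub (a n) A, (hm n).coeFn_toLp] with x h1 h2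
      rw [h1, Pi.sub_apply, Pi.sub_apply, ← h2]
    have l2 : Tendsto (fun n => ∫ x, h n x * φ x) atTop (𝓝 (inner ℝ k (ψ φ))) := by
      have h1 : Tendsto (fun n => inner ℝ (d n) (ψ φ)) atTop (𝓝 (inner ℝ k (ψ φ))) :=
        hdlim.inner tendsto_const_nhds
      refine h1.congr fun n => ?_
      rw [hh n φ hφ]
    exact tendsto_nhds_unique l1 l2

end Fldx

open Linx Fldx in
theorem thm_Fld (hS : St_Sob) (hI : St_Iso) (hD : St_Dens) (hU : St_UTest) : St_Fld := by
  obtain ⟨Cs, hCs, hSob⟩ := hS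
  obtain ⟨-, hUl, hUt⟩ := hU
  have hc := c0_pos
  set K0 : ℝ := √(1 / c0) with hK0
  have hK0p : 0 < K0 := Real.sqrt_pos.2 (by positivity)
  set C : ℝ := (5 * Cs + 1) * K0 with hC
  have hCp : 0 < C := by positivity
  have h103 : (1 : ℝ≥0∞) ≤ 10 / 3 := by
    rw [ENNReal.le_div_iff_mul_le (by norm_num) (by norm_num)]
    norm_num
  have h10 : (1 : ℝ≥0∞) ≤ 10 := by norm_num
  have h2 : (1 : ℝ≥0∞) ≤ 2 := by norm_num
  have hm1 : ∀ a : ℝ, a ≤ C → ∀ k : K, ENNReal.ofReal a * ‖k‖ₑ ≤ ENNReal.ofReal C * ‖k‖ₑ :=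
    fun a ha k => by gcongr
  refine ⟨C, hCp, fun k => ?_⟩
  -- position field
  have hA := ext_test hI hD 10 h10 C hCp.le (fun φ => Rk φ) (by
    intro f g hf hg
    refine ⟨f, memLp_test hf 10, ?_, fun φ hφ => (inner_Theta_Rk hI hf hg (test_sch hφ)).symm⟩
    have b1 := (hSob f hf).1
    have b2 := (theta_bound hI hf hg).1
    calc eLpNorm f 10 volume ≤ ENNReal.ofReal Cs * (ENNReal.ofReal K0 * ‖Theta f g‖ₑ) := by
          refine b1.trans ?_
          gcongr
      _ = ENNReal.ofReal (Cs * K0) * ‖Theta f g‖ₑ := by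
          rw [ENNReal.ofReal_mul hCs.le, mul_assoc]
      _ ≤ _ := hm1 _ (by rw [hC]; nlinarith) _) k
  obtain ⟨F, hF1, hF2, hF3⟩ := hA
  have hUF : U k =ᵐ[volume] F := by
    apply ae_uniq (hUl k) (hF1.locallyIntegrable h10)
    intro φ hφ
    rw [hF3 φ hφ, hUt k φ (test_sch hφ)]
  have hU10 : MemLp (U k) 10 volume := hF1.ae_eq hUF.symm
  -- velocity field
  have hB := ext_test hI hD (10 / 3) h103 C hCp.le (fun φ => dRk φ) (by
    intro f g hf hg
    refine ⟨g, memLp_test hg _, ?_, fun φ hφ => (inner_Theta_dRk hI hf hg (test_sch hφ)).symm⟩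
    have b1 := (hSob g hg).2.2.2
    have b2 := (theta_bound hI hf hg).2
    calc eLpNorm g (10 / 3) volume
        ≤ ENNReal.ofReal Cs * ∑ i : Fin 5, (ENNReal.ofReal K0 * ‖Theta f g‖ₑ) := by
          refine b1.trans ?_
          gcongr with i _
          exact b2 i
      _ = ENNReal.ofReal (5 * Cs * K0) * ‖Theta f g‖ₑ := by
          rw [Finset.sum_const, Finset.card_univ, Fintype.card_fin, nsmul_eq_mul,
            ENNReal.ofReal_mul (by positivity), ENNReal.ofReal_mul (by norm_num),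
            ENNReal.ofReal_ofNat]
          push_cast
          ring
      _ ≤ _ := hm1 _ (by rw [hC]; nlinarith) _) k
  obtain ⟨G, hG1, hG2, hG3⟩ := hB
  have hVex : ∃ g, IsV k g := ⟨G, hG1, hG3⟩
  have hV : IsV k (V k) := by
    have e : V k = hVex.choose := by simp only [V, dif_pos hVex]
    rw [e]
    exact hVex.choose_spec
  have hVG : V k =ᵐ[volume] G := by
    apply ae_uniq (hV.1.locallyIntegrable h103) (hG1.locallyIntegrable h103)
    intro φ hφ
    rw [hG3 φ hφ, hV.2 φ hφ]
  -- first derivatives of the position field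
  have hDU : ∀ i, MemLp (DU k i) (10 / 3) volume ∧ WD i (U k) (DU k i) ∧
      eLpNorm (DU k i) (10 / 3) volume ≤ ENNReal.ofReal C * ‖k‖ₑ := by
    intro i
    obtain ⟨g, g1, g2, g3⟩ := ext_test hI hD (10 / 3) h103 C hCp.le (fun φ => - Rk (pd i φ)) (by
      intro f g hf hg
      refine ⟨pd i f, memLp_test (test_pd hf i) _, ?_, fun φ hφ => ?_⟩
      · have b1 := (hSob f hf).2.1 i
        have b2 := (theta_bound hI hf hg).1
        calc eLpNorm (pd i f) (10 / 3) volume
            ≤ ENNReal.ofReal Cs * (ENNReal.ofReal K0 * ‖Theta f g‖ₑ) := by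
              refine b1.trans ?_
              gcongr
          _ = ENNReal.ofReal (Cs * K0) * ‖Theta f g‖ₑ := by
              rw [ENNReal.ofReal_mul hCs.le, mul_assoc]
          _ ≤ _ := hm1 _ (by rw [hC]; nlinarith) _
      · rw [inner_neg_right, inner_Theta_Rk hI hf hg (test_sch (test_pd hφ i)), ibp i hf hφ,
          neg_neg]) k
    have hwd : WD i (U k) g := by
      intro φ hφ
      rw [g3 φ hφ, inner_neg_right, neg_neg, hUt k _ (test_sch (test_pd hφ i))]
    have hex : ∃ g : E → ℝ, MemLp g (10 / 3) volume ∧ WD i (U k) g := ⟨g, g1, hwd⟩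
    have hs : MemLp (DU k i) (10 / 3) volume ∧ WD i (U k) (DU k i) := by
      have e : DU k i = hex.choose := by simp only [DU, dif_pos hex]
      rw [e]
      exact hex.choose_spec
    have hae : DU k i =ᵐ[volume] g := by
      apply ae_uniq (hs.1.locallyIntegrable h103) (g1.locallyIntegrable h103)
      intro φ hφ
      have e1 := hs.2 φ hφ
      have e2 := hwd φ hφ
      linarith
    exact ⟨hs.1, hs.2, (eLpNorm_congr_ae hae).trans_le g2⟩
  refine ⟨⟨hU10, (eLpNorm_congr_ae hUF).trans_le hF2⟩, ⟨hV, (eLpNorm_congr_ae hVG).trans_le hG2⟩,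
    hDU, ?_, ?_⟩
  · intro i j
    obtain ⟨g, g1, g2, g3⟩ := ext_test hI hD 2 h2 C hCp.le (fun φ => Rk (pd i (pd j φ))) (by
      intro f g hf hg
      refine ⟨pd j (pd i f), memLp_test (test_pd (test_pd hf i) j) _, ?_, fun φ hφ => ?_⟩
      · have b1 := (hSob f hf).2.2.1 i j
        have b2 := (theta_bound hI hf hg).1
        calc eLpNorm (pd j (pd i f)) 2 volume ≤ ENNReal.ofReal K0 * ‖Theta f g‖ₑ := b1.trans b2
          _ ≤ _ := hm1 _ (by rw [hC]; nlinarith) _
      · rw [inner_Theta_Rk hI hf hg (test_sch (test_pd (test_pd hφ j) i)),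
          ibp i hf (test_pd hφ j), ibp j (test_pd hf i) hφ, neg_neg]) k
    have hwd : WD j (DU k i) g := by
      intro φ hφ
      have e1 := (hDU i).2.1 (pd j φ) (test_pd hφ j)
      have e2 := hUt k _ (test_sch (test_pd (test_pd hφ j) i))
      rw [g3 φ hφ]
      linarith
    have hex : ∃ g : E → ℝ, MemLp g 2 volume ∧ WD j (DU k i) g := ⟨g, g1, hwd⟩
    have hs : MemLp (DDU k i j) 2 volume ∧ WD j (DU k i) (DDU k i j) := by
      have e : DDU k i j = hex.choose := by simp only [DDU, dif_pos hex]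
      rw [e]
      exact hex.choose_spec
    have hae : DDU k i j =ᵐ[volume] g := by
      apply ae_uniq (hs.1.locallyIntegrable h2) (g1.locallyIntegrable h2)
      intro φ hφ
      have e1 := hs.2 φ hφ
      have e2 := hwd φ hφ
      linarith
    exact ⟨hs.1, hs.2, (eLpNorm_congr_ae hae).trans_le g2⟩
  · intro i
    obtain ⟨g, g1, g2, g3⟩ := ext_test hI hD 2 h2 C hCp.le (fun φ => - dRk (pd i φ)) (by
      intro f g hf hg
      refine ⟨pd i g, memLp_test (test_pd hg i) _, ?_, fun φ hφ => ?_⟩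
      · exact ((theta_bound hI hf hg).2 i).trans (hm1 _ (by rw [hC]; nlinarith) _)
      · rw [inner_neg_right, inner_Theta_dRk hI hf hg (test_sch (test_pd hφ i)), ibp i hg hφ,
          neg_neg]) k
    have hwd : WD i (V k) g := by
      intro φ hφ
      have e1 := hV.2 (pd i φ) (test_pd hφ i)
      rw [g3 φ hφ, inner_neg_right]
      linarith
    have hex : ∃ g : E → ℝ, MemLp g 2 volume ∧ WD i (V k) g := ⟨g, g1, hwd⟩
    have hs : MemLp (DV k i) 2 volume ∧ WD i (V k) (DV k i) := by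
      have e : DV k i = hex.choose := by simp only [DV, dif_pos hex]
      rw [e]
      exact hex.choose_spec
    have hae : DV k i =ᵐ[volume] g := by
      apply ae_uniq (hs.1.locallyIntegrable h2) (g1.locallyIntegrable h2)
      intro φ hφ
      have e1 := hs.2 φ hφ
      have e2 := hwd φ hφ
      linarith
    exact ⟨hs.1, hs.2, (eLpNorm_congr_ae hae).trans_le g2⟩


end Pool.Agent.QWE
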