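import Pool.Agent.QWE.StA

set_option autoImplicit false

/-!
# QWE, Free: free evolution of test states (helper98)
-/

open MeasureTheory Filter Topology Set
open scoped ENNReal NNReal RealInnerProductSpace ContDiff Pointwise

namespace Pool.Agent.QWE

namespace Freex

/-! ### test functions -/

lemma test_pd (i : Fin 5) {φ : E → ℝ} (h : IsTest φ) : IsTest (pd i φ) := by
  refine ⟨?_, h.2.fderiv_apply ℝ _⟩
  exact (h.1.fderiv_right (m := ∞) (by simp)).clm_apply contDiff_const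

lemma tsupport_pd (i : Fin 5) (φ : E → ℝ) : tsupport (pd i φ) ⊆ tsupport φ :=
  tsupport_fderiv_apply_subset ℝ _

lemma lap_zero {φ : E → ℝ} {x : E} (h : x ∉ tsupport φ) : lap φ x = 0 := by
  refine Finset.sum_eq_zero fun i _ => ?_
  exact image_eq_zero_of_notMem_tsupport fun h2 => h (tsupport_pd i φ (tsupport_pd i _ h2))

lemma test_lap {φ : E → ℝ} (h : IsTest φ) : IsTest (lap φ) := by
  refine ⟨?_, HasCompactSupport.intro h.2 fun x hx => lap_zero hx⟩
  exact ContDiff.sum fun i _ => (test_pd i (test_pd i h)).1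

lemma test_add {f g : E → ℝ} (hf : IsTest f) (hg : IsTest g) : IsTest fun x => f x + g x :=
  ⟨hf.1.add hg.1, hf.2.add hg.2⟩

lemma test_cmul {f : E → ℝ} (c : ℝ) (hf : IsTest f) : IsTest fun x => c * f x :=
  ⟨contDiff_const.mul hf.1, hf.2.mul_left⟩

lemma sch {f : E → ℝ} (hf : IsTest f) : IsSch f :=
  ⟨hf.2.toSchwartzMap hf.1, fun _ => rfl⟩

/-- the Laplacian vanishes on a closed ball where the function vanishes -/
lemma lap_ball {f : E → ℝ} (hf : IsTest f) {x : E} {r : ℝ} (hr : 0 < r)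
    (h : ∀ y, dist y x ≤ r → f y = 0) : ∀ y, dist y x ≤ r → lap f y = 0 := by
  have h1 : ∀ y ∈ Metric.ball x r, lap f y = 0 := by
    intro y hy
    refine lap_zero fun h2 => ?_
    rw [tsupport, mem_closure_iff] at h2
    obtain ⟨z, hz, hz2⟩ := h2 _ Metric.isOpen_ball hy
    exact hz2 (h z (Metric.mem_ball.1 hz).le)
  have h2 : IsClosed {y | lap f y = 0} := isClosed_eq (test_lap hf).1.continuous continuous_const
  have h3 : closure (Metric.ball x r) ⊆ {y | lap f y = 0} := h2.closure_subset_iff.2 h1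
  rw [closure_ball x hr.ne'] at h3
  exact fun y hy => h3 hy

/-! ### Radon transforms -/

structure Nice (u : S × ℝ → ℝ) : Prop where
  c : Continuous u
  s : ∃ M, ∀ z, M ≤ |z.2| → u z = 0

lemma nice_both (hR : St_RadT) {φ : E → ℝ} (h : IsTest φ) : Nice (Rad φ) ∧ Nice (dRad φ) := by
  obtain ⟨h1, h2, h3, -⟩ := hR φ h
  obtain ⟨ρ, hρ⟩ := h.2.isBounded.subset_closedBall (0 : E)
  refine ⟨⟨h1, ρ, fun z hz => (h3 0 ρ hρ z (by simpa using hz)).1⟩,
    ⟨h2, ρ, fun z hz => (h3 0 ρ hρ z (by simpa using hz)).2⟩⟩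

lemma nice_bdd {u : S × ℝ → ℝ} (hu : Nice u) : ∃ C, ∀ z, |u z| ≤ C := by
  obtain ⟨M, hM⟩ := hu.s
  have h : HasCompactSupport u := by
    refine HasCompactSupport.intro (isCompact_univ.prod (isCompact_Icc (a := -M) (b := M)))
      fun z hz => hM z ?_
    by_contra h2
    exact hz ⟨mem_univ _, abs_le.1 (not_le.1 h2).le⟩
  obtain ⟨C, hC⟩ := hu.c.bounded_above_of_compact_support h
  exact ⟨C, hC⟩

lemma nice_int {u v : S × ℝ → ℝ} (hu : Continuous u) (hv : Nice v) (t : ℝ) :
    Integrable (fun z : S × ℝ => u (z.1, z.2 - t) * v z) mu := by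
  obtain ⟨M, hM⟩ := hv.s
  have h : HasCompactSupport (fun z : S × ℝ => u (z.1, z.2 - t) * v z) := by
    refine HasCompactSupport.intro (isCompact_univ.prod (isCompact_Icc (a := -M) (b := M)))
      fun z hz => ?_
    rw [hM z, mul_zero]
    by_contra h2
    exact hz ⟨mem_univ _, abs_le.1 (not_le.1 h2).le⟩
  refine Continuous.integrable_of_hasCompactSupport ?_ h
  exact (hu.comp (by fun_prop)).mul hv.c

/-- inner products in `K` in terms of continuous representatives -/
lemma inner_eq {k k' : K} {u v : S × ℝ → ℝ} (h : (k : S × ℝ → ℝ) =ᵐ[mu] u)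
    (h' : (k' : S × ℝ → ℝ) =ᵐ[mu] v) (t : ℝ) :
    inner ℝ (tau t k) k' = ∫ z, u (z.1, z.2 - t) * v z ∂mu := by
  rw [L2.inner_def]
  refine integral_congr_ae ?_
  have h2 := (mp_shift (g := fun _ => t) measurable_const).quasiMeasurePreserving.ae h
  filter_upwards [tau_coe t k, h2, h'] with z h3 h4 h5
  rw [h3, h4, h5]
  simp only [RCLike.inner_apply, conj_trivial]
  ring

lemma pair (hR : St_RadT) {H : S × ℝ → ℝ} (hH : Continuous H) {φ : E → ℝ} (h : IsTest φ)
    (t : ℝ) : ∫ z, H (z.1, z.2 - t) * Rad φ z ∂mu =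
      ∫ x, φ x * ∫ w : S, H (w, inner ℝ x (w : E) - t) ∂sg := by
  have h1 : Integrable (fun z : S × ℝ => H (z.1, z.2 - t) * Rad φ z) mu :=
    nice_int hH (nice_both hR h).1 t
  rw [integral_prod _ h1]
  have h2 : ∀ w : S, ∫ p, H (w, p - t) * Rad φ (w, p) =
      ∫ x, φ x * H (w, inner ℝ x (w : E) - t) := by
    intro w
    have h3 := (hR φ h).2.2.2.2.1 w (fun p => H (w, p - t)) (hH.comp (by fun_prop))
    rw [← h3]
    exact integral_congr_ae (Eventually.of_forall fun p => mul_comm _ _)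
  simp only [h2]
  have h4 : Integrable (Function.uncurry fun (w : S) (x : E) =>
      φ x * H (w, inner ℝ x (w : E) - t)) (sg.prod volume) := by
    have hc : HasCompactSupport (Function.uncurry fun (w : S) (x : E) =>
        φ x * H (w, inner ℝ x (w : E) - t)) := by
      refine HasCompactSupport.intro (isCompact_univ.prod h.2) fun z hz => ?_
      have : φ z.2 = 0 := image_eq_zero_of_notMem_tsupport fun h5 => hz ⟨mem_univ _, h5⟩
      simp only [Function.uncurry, this, zero_mul]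
    refine Continuous.integrable_of_hasCompactSupport ?_ hc
    refine (h.1.continuous.comp continuous_snd).mul (hH.comp ?_)
    fun_prop
  rw [integral_integral_swap h4]
  exact integral_congr_ae (Eventually.of_forall fun x => integral_const_mul _ _)

/-- integration by parts in `p` -/
lemma ibp {u u' v v' : S × ℝ → ℝ} (hu : Nice u) (hu' : Nice u') (hv : Nice v)
    (hv' : Nice v') (du : ∀ (w : S) p, HasDerivAt (fun p => u (w, p)) (u' (w, p)) p)
    (dv : ∀ (w : S) p, HasDerivAt (fun p => v (w, p)) (v' (w, p)) p) (t : ℝ) :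
    ∫ z, u (z.1, z.2 - t) * v' z ∂mu = - ∫ z, u' (z.1, z.2 - t) * v z ∂mu := by
  rw [integral_prod _ (nice_int hu.c hv' t), integral_prod _ (nice_int hu'.c hv t),
    ← integral_neg]
  refine integral_congr_ae (Eventually.of_forall fun w => ?_)
  have hi : ∀ {a b : S × ℝ → ℝ}, Continuous a → Nice b →
      Integrable (fun p : ℝ => a (w, p - t) * b (w, p)) := by
    intro a b ha hb
    obtain ⟨M, hM⟩ := hb.s
    refine Continuous.integrable_of_hasCompactSupport
      ((ha.comp (by fun_prop)).mul (hb.c.comp (by fun_prop))) ?_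
    refine HasCompactSupport.intro (isCompact_Icc (a := -M) (b := M)) fun p hp => ?_
    rw [hM (w, p), mul_zero]
    by_contra h2
    exact hp (abs_le.1 (not_le.1 h2).le)
  refine integral_mul_deriv_eq_deriv_mul_of_integrable (u := fun p : ℝ => u (w, p - t))
    (u' := fun p : ℝ => u' (w, p - t)) (v := fun p : ℝ => v (w, p))
    (v' := fun p : ℝ => v' (w, p)) (fun p _ => ?_) (fun p _ => dv w p)
    (hi hu.c hv') (hi hu'.c hv) (hi hu.c hv)
  have := (du w (p - t)).comp_sub_const p t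
  simpa using this

/-- the first derivative of `Sph` in time -/
lemma sph_deriv (hR : St_RadT) {f : E → ℝ} (h : IsTest f) (t : ℝ) (x : E) :
    HasDerivAt (fun s => Sph f s x) (- ∫ w : S, dRad f (w, inner ℝ x (w : E) - t) ∂sg) t := by
  obtain ⟨hn, hd⟩ := nice_both hR h
  obtain ⟨C, hC⟩ := nice_bdd hd
  have hc1 : ∀ s : ℝ, Continuous fun w : S => Rad f (w, inner ℝ x (w : E) - s) := fun s =>
    hn.c.comp (by fun_prop)
  have hc2 : ∀ s : ℝ, Continuous fun w : S => - dRad f (w, inner ℝ x (w : E) - s) := fun s =>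
    (hd.c.comp (by fun_prop)).neg
  have hint : ∀ {a : S → ℝ}, Continuous a → Integrable a sg := fun ha =>
    ha.integrable_of_hasCompactSupport (HasCompactSupport.of_compactSpace _)
  have key := hasDerivAt_integral_of_dominated_loc_of_deriv_le (μ := sg) (𝕜 := ℝ)
    (F := fun (s : ℝ) (w : S) => Rad f (w, inner ℝ x (w : E) - s))
    (F' := fun (s : ℝ) (w : S) => - dRad f (w, inner ℝ x (w : E) - s)) (x₀ := t) (s := univ)
    (bound := fun _ => C) univ_mem
    (Eventually.of_forall fun s => (hc1 s).aestronglyMeasurable) (hint (hc1 t))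
    (hc2 t).aestronglyMeasurable
    (Eventually.of_forall fun w s _ => by rw [norm_neg]; exact hC _) (integrable_const C)
    (Eventually.of_forall fun w s _ => ?_)
  · have h2 := key.2
    rw [integral_neg] at h2
    exact h2
  · have h1 := ((hR f h).2.2.2.1 w (inner ℝ x (w : E) - s)).1
    have h2 : HasDerivAt (fun y : ℝ => Rad f (w, inner ℝ x (w : E) - y))
        (dRad f (w, inner ℝ x (w : E) - s) * (-1)) s :=
      HasDerivAt.comp s h1 ((hasDerivAt_id s).const_sub (inner ℝ x (w : E)))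
    rw [mul_neg_one] at h2
    exact h2

/-- the first derivative of `Sph` in time -/
noncomputable def D (f : E → ℝ) (t : ℝ) (x : E) : ℝ := deriv (fun s => Sph f s x) t

lemma D_eq (hR : St_RadT) {f : E → ℝ} (h : IsTest f) (t : ℝ) (x : E) :
    ∫ w : S, dRad f (w, inner ℝ x (w : E) - t) ∂sg = - D f t x := by
  rw [D, (sph_deriv hR h t x).deriv, neg_neg]

/-! ### smoothness and supports -/

lemma it4 (hS : St_Sph) {f : E → ℝ} (h : IsTest f) (t : ℝ) (x : E) :
    iteratedDeriv 4 (fun s => Sph f s x) t = Sph (lap (lap f)) t x := by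
  have h1 : iteratedDeriv 2 (fun s => Sph f s x) = fun s => Sph (lap f) s x :=
    funext fun s => ((hS f h).2.2.2.1 s x).1
  have h2 : iteratedDeriv 4 (fun s => Sph f s x) =
      iteratedDeriv 2 (iteratedDeriv 2 fun s => Sph f s x) := by
    simp only [iteratedDeriv_eq_iterate]
    rw [← Function.iterate_add_apply]
  rw [h2, h1]
  exact ((hS (lap f) (test_lap h)).2.2.2.1 t x).1

lemma it3 (hS : St_Sph) {f : E → ℝ} (h : IsTest f) (t : ℝ) (x : E) :
    iteratedDeriv 3 (fun s => Sph f s x) t = D (lap f) t x := by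
  have h1 : iteratedDeriv 2 (fun s => Sph f s x) = fun s => Sph (lap f) s x :=
    funext fun s => ((hS f h).2.2.2.1 s x).1
  rw [iteratedDeriv_succ, h1]
  rfl

/-- the vanishing property of the theorem -/
def Vn (f F : E → ℝ) (t : ℝ) : Prop := ∀ x, (∀ y, dist y x ≤ |t| → f y = 0) → F x = 0

lemma van4 (hS : St_Sph) {f : E → ℝ} (h : IsTest f) (t : ℝ) :
    Vn f (Sph (lap (lap f)) t) t := by
  intro x hx
  rw [← it4 hS h]
  exact ((hS f h).2.2.2.2.1 t x hx).2

lemma van3 (hS : St_Sph) {f : E → ℝ} (h : IsTest f) (t : ℝ) :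
    Vn f (D (lap f) t) t := by
  intro x hx
  rw [← it3 hS h]
  exact ((hS f h).2.2.2.2.1 t x hx).1

lemma van5 (hS : St_Sph) {f : E → ℝ} (h : IsTest f) (t : ℝ) :
    Vn f (D (lap (lap f)) t) t := by
  intro x hx
  rcases eq_or_ne t 0 with ht | ht
  · subst ht
    have he : ∀ s, Sph (lap (lap f)) (-s) x = Sph (lap (lap f)) s x := fun s =>
      (hS _ (test_lap (test_lap h))).2.2.1 s x
    have h1 := deriv_comp_neg (f := fun s => Sph (lap (lap f)) s x) 0
    simp only [he, neg_zero] at h1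
    have h2 : deriv (fun s => Sph (lap (lap f)) s x) 0 = 0 := by linarith
    exact h2
  · exact van3 hS (test_lap h) t x (lap_ball h (abs_pos.2 ht) hx)

lemma vn_compact {f F : E → ℝ} {t : ℝ} (hf : IsTest f) (hF : ContDiff ℝ ∞ F)
    (h : Vn f F t) : IsTest F := by
  obtain ⟨ρ, hρ⟩ := hf.2.isBounded.subset_closedBall (0 : E)
  refine ⟨hF, HasCompactSupport.intro (isCompact_closedBall (0 : E) (ρ + |t|)) fun x hx => ?_⟩
  refine h x fun y hy => image_eq_zero_of_notMem_tsupport fun h2 => hx ?_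
  have h3 := hρ h2
  rw [Metric.mem_closedBall] at h3 ⊢
  calc dist x 0 ≤ dist x y + dist y 0 := dist_triangle _ _ _
    _ ≤ |t| + ρ := by rw [dist_comm x y]; gcongr
    _ = ρ + |t| := add_comm _ _

lemma smooth_sph (hS : St_Sph) {f : E → ℝ} (h : IsTest f) (t : ℝ) :
    ContDiff ℝ ∞ (Sph f t) := by
  have h1 := (hS f h).1
  exact h1.comp (contDiff_const.prodMk contDiff_id)

lemma smooth_D (hS : St_Sph) {f : E → ℝ} (h : IsTest f) (t : ℝ) :
    ContDiff ℝ ∞ (D f t) := by
  have h1 := (hS f h).1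
  have h2 : D f t = fun x => fderiv ℝ (fun q : ℝ × E => Sph f q.1 q.2) (t, x) (1, 0) := by
    funext x
    have h3 : HasFDerivAt (fun q : ℝ × E => Sph f q.1 q.2)
        (fderiv ℝ (fun q : ℝ × E => Sph f q.1 q.2) (t, x)) (t, x) :=
      (h1.differentiable (by simp) (t, x)).hasFDerivAt
    have h4 : HasDerivAt (fun s : ℝ => (s, x)) ((1 : ℝ), (0 : E)) t :=
      (hasDerivAt_id t).prodMk (hasDerivAt_const t x)
    exact (h3.comp_hasDerivAt t h4).deriv
  rw [h2]
  have h5 : ContDiff ℝ ∞ (fun x : E => fderiv ℝ (fun q : ℝ × E => Sph f q.1 q.2) (t, x)) :=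
    (h1.fderiv_right (m := ∞) (by simp)).comp (contDiff_const.prodMk contDiff_id)
  exact h5.clm_apply contDiff_const

/-! ### inner products -/

lemma inA (hR : St_RadT) {a φ : E → ℝ} (ha : IsTest a) (h : IsTest φ) (t : ℝ) :
    inner ℝ (tau t (Rk a)) (Rk φ) = ∫ x, φ x * Sph a t x := by
  rw [inner_eq (hR a ha).2.2.2.2.2.1 (hR φ h).2.2.2.2.2.1 t, pair hR (nice_both hR ha).1.c h t]
  rfl

lemma inB (hR : St_RadT) {a φ : E → ℝ} (ha : IsTest a) (h : IsTest φ) (t : ℝ) :
    inner ℝ (tau t (dRk a)) (Rk φ) = - ∫ x, φ x * D a t x := by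
  rw [inner_eq (hR a ha).2.2.2.2.2.2 (hR φ h).2.2.2.2.2.1 t, pair hR (nice_both hR ha).2.c h t,
    ← integral_neg]
  refine integral_congr_ae (Eventually.of_forall fun x => ?_)
  simp only [D_eq hR ha]
  ring

lemma d1 (hR : St_RadT) {a : E → ℝ} (ha : IsTest a) (w : S) (p : ℝ) :
    HasDerivAt (fun p => Rad a (w, p)) (dRad a (w, p)) p := ((hR a ha).2.2.2.1 w p).1

lemma d2 (hR : St_RadT) {a : E → ℝ} (ha : IsTest a) (w : S) (p : ℝ) :
    HasDerivAt (fun p => dRad a (w, p)) (Rad (lap a) (w, p)) p := ((hR a ha).2.2.2.1 w p).2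

/-- `⟨tau Rk a, dRk φ⟩ = - ⟨tau dRk a, Rk φ⟩` -/
lemma p0 (hR : St_RadT) {a φ : E → ℝ} (ha : IsTest a) (h : IsTest φ) (t : ℝ) :
    inner ℝ (tau t (Rk a)) (dRk φ) = - inner ℝ (tau t (dRk a)) (Rk φ) := by
  rw [inner_eq (hR a ha).2.2.2.2.2.1 (hR φ h).2.2.2.2.2.2 t,
    inner_eq (hR a ha).2.2.2.2.2.2 (hR φ h).2.2.2.2.2.1 t]
  exact ibp (nice_both hR ha).1 (nice_both hR ha).2 (nice_both hR h).1 (nice_both hR h).2
    (d1 hR ha) (d1 hR h) t

/-- `⟨tau dRk a, dRk φ⟩ = - ⟨tau Rk (lap a), Rk φ⟩` -/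
lemma p1 (hR : St_RadT) {a φ : E → ℝ} (ha : IsTest a) (h : IsTest φ) (t : ℝ) :
    inner ℝ (tau t (dRk a)) (dRk φ) = - inner ℝ (tau t (Rk (lap a))) (Rk φ) := by
  rw [inner_eq (hR a ha).2.2.2.2.2.2 (hR φ h).2.2.2.2.2.2 t,
    inner_eq (hR _ (test_lap ha)).2.2.2.2.2.1 (hR φ h).2.2.2.2.2.1 t]
  exact ibp (nice_both hR ha).2 (nice_both hR (test_lap ha)).1 (nice_both hR h).1
    (nice_both hR h).2 (d2 hR ha) (d1 hR h) t

/-- `⟨tau Rk a, Rk (lap φ)⟩ = - ⟨tau dRk a, dRk φ⟩` -/
lemma p2 (hR : St_RadT) {a φ : E → ℝ} (ha : IsTest a) (h : IsTest φ) (t : ℝ) :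
    inner ℝ (tau t (Rk a)) (Rk (lap φ)) = - inner ℝ (tau t (dRk a)) (dRk φ) := by
  rw [inner_eq (hR a ha).2.2.2.2.2.1 (hR _ (test_lap h)).2.2.2.2.2.1 t,
    inner_eq (hR a ha).2.2.2.2.2.2 (hR φ h).2.2.2.2.2.2 t]
  exact ibp (nice_both hR ha).1 (nice_both hR ha).2 (nice_both hR h).2
    (nice_both hR (test_lap h)).1 (d1 hR ha) (d2 hR h) t

/-- `⟨tau dRk a, Rk (lap φ)⟩ = - ⟨tau Rk (lap a), dRk φ⟩` -/
lemma p3 (hR : St_RadT) {a φ : E → ℝ} (ha : IsTest a) (h : IsTest φ) (t : ℝ) :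
    inner ℝ (tau t (dRk a)) (Rk (lap φ)) = - inner ℝ (tau t (Rk (lap a))) (dRk φ) := by
  rw [inner_eq (hR a ha).2.2.2.2.2.2 (hR _ (test_lap h)).2.2.2.2.2.1 t,
    inner_eq (hR _ (test_lap ha)).2.2.2.2.2.1 (hR φ h).2.2.2.2.2.2 t]
  exact ibp (nice_both hR ha).2 (nice_both hR (test_lap ha)).1 (nice_both hR h).2
    (nice_both hR (test_lap h)).1 (d2 hR ha) (d2 hR h) t

lemma inC (hR : St_RadT) {a φ : E → ℝ} (ha : IsTest a) (h : IsTest φ) (t : ℝ) :
    inner ℝ (tau t (Rk a)) (dRk φ) = ∫ x, φ x * D a t x := by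
  rw [p0 hR ha h, inB hR ha h, neg_neg]

lemma inD (hR : St_RadT) {a φ : E → ℝ} (ha : IsTest a) (h : IsTest φ) (t : ℝ) :
    inner ℝ (tau t (dRk a)) (dRk φ) = - ∫ x, φ x * Sph (lap a) t x := by
  rw [p1 hR ha h, inA hR (test_lap ha) h]

/-- `⟨Theta f g, Rk φ⟩`, `⟨Theta f g, dRk φ⟩` -/
lemma theta_in (hI : St_Iso) {f g φ : E → ℝ} (hf : IsTest f) (hg : IsTest g)
    (h : IsTest φ) : inner ℝ (Theta f g) (Rk φ) = ∫ x, f x * φ x ∧
      inner ℝ (Theta f g) (dRk φ) = ∫ x, g x * φ x := by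
  constructor
  · have h1 := (hI f φ (sch hf) (sch h)).1
    have h2 := (hI φ (lap g) (sch h) (sch (test_lap hg))).2.2
    rw [Theta, real_inner_smul_left, inner_sub_left, mul_sub, h1,
      real_inner_comm (Rk φ) (dRk (lap g)), h2]
    ring
  · have h1 := (hI g φ (sch hg) (sch h)).2.1
    have h2 := (hI (lap (lap f)) φ (sch (test_lap (test_lap hf))) (sch h)).2.2
    rw [Theta, real_inner_smul_left, inner_sub_left, mul_sub, h1, h2]
    ring

lemma zero_of_orth (hD : St_Dens) {z : K}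
    (h : ∀ φ, IsTest φ → inner ℝ z (Rk φ) = 0 ∧ inner ℝ z (dRk φ) = 0) : z = 0 := by
  have h1 : TS univ ≤ (ℝ ∙ z)ᗮ := by
    refine Submodule.topologicalClosure_minimal _ ?_ (Submodule.isClosed_orthogonal _)
    rw [Submodule.span_le]
    rintro w ⟨φ, hφ, -, rfl | rfl⟩
    · exact Submodule.mem_orthogonal_singleton_iff_inner_right.2 (h φ hφ).1
    · exact Submodule.mem_orthogonal_singleton_iff_inner_right.2 (h φ hφ).2
  rw [hD.1] at h1
  have h2 : z ∈ (ℝ ∙ z)ᗮ := h1 Submodule.mem_top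
  have h3 := Submodule.mem_orthogonal_singleton_iff_inner_right.1 h2
  exact inner_self_eq_zero.1 h3

lemma zero_of_theta (hD : St_Dens) {z : K}
    (h : ∀ a b, IsTest a → IsTest b → inner ℝ z (Theta a b) = 0) : z = 0 := by
  by_contra hz
  have hz' : 0 < ‖z‖ := norm_pos_iff.2 hz
  obtain ⟨a, b, ha, hb, hab⟩ := hD.2 z (‖z‖ / 2) (by positivity)
  have h1 : inner ℝ z (z - Theta a b) = ‖z‖ ^ 2 := by
    rw [inner_sub_right, h a b ha hb, sub_zero, real_inner_self_eq_norm_sq]
  have h2 : inner ℝ z (z - Theta a b) ≤ ‖z‖ * ‖z - Theta a b‖ := real_inner_le_norm _ _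
  rw [h1] at h2
  have h3 : ‖z‖ * ‖z - Theta a b‖ ≤ ‖z‖ * (‖z‖ / 2) := by gcongr
  nlinarith

lemma int_test {φ F : E → ℝ} (h : IsTest φ) (hF : Continuous F) :
    Integrable fun x => φ x * F x :=
  (h.1.continuous.mul hF).integrable_of_hasCompactSupport h.2.mul_right

/-- the free evolution of a test state -/
lemma formula (hR : St_RadT) (hI : St_Iso) (hD : St_Dens) (hS : St_Sph) {f g : E → ℝ}
    (hf : IsTest f) (hg : IsTest g) (t : ℝ) :
    IsTest (fun x => c0 * (Sph (lap (lap f)) t x + D (lap g) t x)) ∧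
    IsTest (fun x => c0 * (D (lap (lap f)) t x + Sph (lap (lap g)) t x)) ∧
    tau t (Theta f g) = Theta (fun x => c0 * (Sph (lap (lap f)) t x + D (lap g) t x))
      (fun x => c0 * (D (lap (lap f)) t x + Sph (lap (lap g)) t x)) ∧
    ∀ x, (∀ y, dist y x ≤ |t| → f y = 0 ∧ g y = 0) →
      c0 * (Sph (lap (lap f)) t x + D (lap g) t x) = 0 ∧
      c0 * (D (lap (lap f)) t x + Sph (lap (lap g)) t x) = 0 := by
  have tl : ∀ {φ : E → ℝ}, IsTest φ → IsTest (lap φ) := fun h => test_lap h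
  have hf2 := tl hf
  have hf4 := tl hf2
  have hg2 := tl hg
  have hg4 := tl hg2
  have T4 : ∀ {φ : E → ℝ}, IsTest φ → IsTest (Sph (lap (lap φ)) t) := fun h =>
    vn_compact h (smooth_sph hS (tl (tl h)) t) (van4 hS h t)
  have T3 : ∀ {φ : E → ℝ}, IsTest φ → IsTest (D (lap φ) t) := fun h =>
    vn_compact h (smooth_D hS (tl h) t) (van3 hS h t)
  have T5 : ∀ {φ : E → ℝ}, IsTest φ → IsTest (D (lap (lap φ)) t) := fun h =>
    vn_compact h (smooth_D hS (tl (tl h)) t) (van5 hS h t)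
  refine ⟨test_cmul c0 (test_add (T4 hf) (T3 hg)), test_cmul c0 (test_add (T5 hf) (T4 hg)), ?_, ?_⟩
  · rw [← sub_eq_zero]
    refine zero_of_orth hD fun φ h => ?_
    obtain ⟨h1, h2⟩ := theta_in hI (test_cmul c0 (test_add (T4 hf) (T3 hg)))
      (test_cmul c0 (test_add (T5 hf) (T4 hg))) h
    rw [inner_sub_left, inner_sub_left, h1, h2, Theta, map_smul, map_sub, real_inner_smul_left,
      real_inner_smul_left, inner_sub_left, inner_sub_left, inA hR hf4 h, inB hR hg2 h,
      inC hR hf4 h, inD hR hg2 h, sub_neg_eq_add, sub_neg_eq_add,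
      ← integral_add (int_test h (T4 hf).1.continuous) (int_test h (T3 hg).1.continuous),
      ← integral_add (int_test h (T5 hf).1.continuous) (int_test h (T4 hg).1.continuous),
      ← integral_const_mul, ← integral_const_mul, sub_eq_zero, sub_eq_zero]
    constructor
    · exact integral_congr_ae (Eventually.of_forall fun x => by ring)
    · exact integral_congr_ae (Eventually.of_forall fun x => by ring)
  · intro x hx
    have a1 := van4 hS hf t x fun y hy => (hx y hy).1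
    have a2 := van3 hS hg t x fun y hy => (hx y hy).2
    have a3 := van5 hS hf t x fun y hy => (hx y hy).1
    have a4 := van4 hS hg t x fun y hy => (hx y hy).2
    simp only [a1, a2, a3, a4]
    simp

end Freex

open Freex in
theorem thm_Free (hR : St_RadT) (hI : St_Iso) (hD : St_Dens) (hS : St_Sph) : St_Free := by
  intro f g t hf hg
  have tl : ∀ {φ : E → ℝ}, IsTest φ → IsTest (lap φ) := fun h => test_lap h
  have hf2 := tl hf
  have hf4 := tl hf2
  have hg2 := tl hg
  have hg4 := tl hg2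
  -- the functions
  have T4 : ∀ {φ : E → ℝ}, IsTest φ → IsTest (Sph (lap (lap φ)) t) := fun h =>
    vn_compact h (smooth_sph hS (tl (tl h)) t) (van4 hS h t)
  have T3 : ∀ {φ : E → ℝ}, IsTest φ → IsTest (D (lap φ) t) := fun h =>
    vn_compact h (smooth_D hS (tl h) t) (van3 hS h t)
  have T5 : ∀ {φ : E → ℝ}, IsTest φ → IsTest (D (lap (lap φ)) t) := fun h =>
    vn_compact h (smooth_D hS (tl (tl h)) t) (van5 hS h t)
  refine ⟨⟨_, _, formula hR hI hD hS hf hg t⟩, ?_, ?_⟩
  · refine ⟨fun x => c0 * Sph (lap (lap f)) t x, fun x => (-c0) * D (lap f) t x,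
      test_cmul c0 (T4 hf), test_cmul (-c0) (T3 hf), ?_, ?_⟩
    · rw [← sub_eq_zero]
      refine zero_of_theta hD fun a b ha hb => ?_
      have e1 := (theta_in hI ha hb (test_cmul c0 (T4 hf))).1
      have e2 := (theta_in hI ha hb (test_cmul (-c0) (T3 hf))).2
      have e3 : inner ℝ (tau t (Rk f)) (Rk (lap (lap a))) = ∫ x, a x * Sph (lap (lap f)) t x := by
        rw [p2 hR hf (tl ha), p1 hR hf (tl ha), p2 hR hf2 ha, p1 hR hf2 ha, inA hR hf4 ha]
        ring
      have e4 : inner ℝ (tau t (Rk f)) (dRk (lap b)) = ∫ x, b x * D (lap f) t x := by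
        rw [p0 hR hf (tl hb), p3 hR hf hb, inC hR hf2 hb, neg_neg]
      rw [inner_sub_left, inner_add_left, real_inner_comm (Theta a b) (Rk _),
        real_inner_comm (Theta a b) (dRk _), e1, e2, Theta, real_inner_smul_right,
        inner_sub_right, e3, e4]
      have e5 : ∫ x, a x * (c0 * Sph (lap (lap f)) t x) = c0 * ∫ x, a x * Sph (lap (lap f)) t x := by
        rw [← integral_const_mul]
        exact integral_congr_ae (Eventually.of_forall fun x => by ring)
      have e6 : ∫ x, b x * ((-c0) * D (lap f) t x) = (-c0) * ∫ x, b x * D (lap f) t x := by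
        rw [← integral_const_mul]
        exact integral_congr_ae (Eventually.of_forall fun x => by ring)
      rw [e5, e6]
      ring
    · intro x hx
      simp only [van4 hS hf t x hx, van3 hS hf t x hx]
      simp
  · refine ⟨fun x => (-c0) * D (lap (lap f)) t x, fun x => c0 * Sph (lap (lap f)) t x,
      test_cmul (-c0) (T5 hf), test_cmul c0 (T4 hf), ?_, ?_⟩
    · rw [← sub_eq_zero]
      refine zero_of_theta hD fun a b ha hb => ?_
      have e1 := (theta_in hI ha hb (test_cmul (-c0) (T5 hf))).1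
      have e2 := (theta_in hI ha hb (test_cmul c0 (T4 hf))).2
      have e3 : inner ℝ (tau t (dRk f)) (Rk (lap (lap a))) = - ∫ x, a x * D (lap (lap f)) t x := by
        rw [p3 hR hf (tl ha), p0 hR hf2 (tl ha), p3 hR hf2 ha, inC hR hf4 ha, neg_neg]
      have e4 : inner ℝ (tau t (dRk f)) (dRk (lap b)) = - ∫ x, b x * Sph (lap (lap f)) t x := by
        rw [p1 hR hf (tl hb), p2 hR hf2 hb, p1 hR hf2 hb, inA hR hf4 hb, neg_neg]
      rw [inner_sub_left, inner_add_left, real_inner_comm (Theta a b) (Rk _),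
        real_inner_comm (Theta a b) (dRk _), e1, e2, Theta, real_inner_smul_right,
        inner_sub_right, e3, e4]
      have e5 : ∫ x, a x * ((-c0) * D (lap (lap f)) t x) =
          (-c0) * ∫ x, a x * D (lap (lap f)) t x := by
        rw [← integral_const_mul]
        exact integral_congr_ae (Eventually.of_forall fun x => by ring)
      have e6 : ∫ x, b x * (c0 * Sph (lap (lap f)) t x) = c0 * ∫ x, b x * Sph (lap (lap f)) t x := by
        rw [← integral_const_mul]
        exact integral_congr_ae (Eventually.of_forall fun x => by ring)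
      rw [e5, e6]
      ring
    · intro x hx
      simp only [van4 hS hf t x hx, van5 hS hf t x hx]
      simp

end Pool.Agent.QWE
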