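import Pool.Agent.QWE.StC

set_option autoImplicit false

/-!
# QWE, module G0
-/

open MeasureTheory Filter Topology Set
open scoped ENNReal NNReal RealInnerProductSpace

namespace Pool.Agent.QWE

theorem thm_G0 (h : St_G0a) : St_G0 := by
  intro Q k y a hQ hk hcase w
  rw [inner_zero_left]
  refine tendsto_of_subseq_tendsto fun ns hns => ?_
  obtain ⟨κ, hκ, φ, hφ, hlim⟩ := hQ.tendsto_subseq (x := fun n => k (ns n)) (fun n => hk (ns n))
  refine ⟨φ, ?_⟩
  have hsub : Tendsto (fun n => ns (φ n)) atTop atTop := hns.comp hφ.tendsto_atTop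
  have h1 : Tendsto (fun n => (inner ℝ (gr (y (ns (φ n))) (a (ns (φ n))) κ) w : ℝ)) atTop
      (𝓝 0) := by
    refine h κ w (fun n => y (ns (φ n))) (fun n => a (ns (φ n))) ?_
    rcases hcase with h1 | h1 | ⟨⟨B, hB⟩, h1⟩
    · exact Or.inl (h1.comp hsub)
    · exact Or.inr (Or.inl (h1.comp hsub))
    · exact Or.inr (Or.inr ⟨⟨B, fun n => hB _⟩, h1.comp hsub⟩)
  have h2 : Tendsto (fun n => ‖k (ns (φ n)) - κ‖ * ‖w‖) atTop (𝓝 0) := by
    have h3 : Tendsto (fun n => ‖k (ns (φ n)) - κ‖) atTop (𝓝 0) :=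
      tendsto_iff_norm_sub_tendsto_zero.mp hlim
    have h4 := h3.mul_const ‖w‖
    rwa [zero_mul] at h4
  have h5 : Tendsto (fun n => (inner ℝ (gr (y (ns (φ n))) (a (ns (φ n))) (k (ns (φ n)) - κ)) w : ℝ))
      atTop (𝓝 0) := by
    refine squeeze_zero_norm (fun n => ?_) h2
    refine (norm_inner_le_norm _ _).trans ?_
    refine mul_le_mul_of_nonneg_right (le_of_eq ?_) (norm_nonneg w)
    unfold gr
    rw [(sh _).norm_map, (dl _).norm_map]
  have h6 := h1.add h5
  rw [add_zero] at h6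
  refine h6.congr fun n => ?_
  rw [← inner_add_left]
  unfold gr
  rw [← map_add, ← map_add, add_sub_cancel]

end Pool.Agent.QWE
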