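import Pool.Agent.QWE.DefsG
import Pool.Agent.QWE.StA
import Pool.Agent.QWE.StE
import Pool.Agent.QWE.StF

set_option autoImplicit false

/-!
# QWE, block G: Part II, compactness (Sections 8 - 10 of the paper)

Every `St_X` is to be proved as `theorem thm_X : St_X` (possibly with other `St_Y` as hypotheses) in
`Pool/Agent/QWE/X.lean`. Paper: `/team-store/R5_paper.md`. All statements of StA.lean, StB.lean, StC.lean may be used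
as hypotheses. `u = U k`; `SN` is the FOURTH power of the `L⁴L²⁰` norm. Weak convergence `WTo` is for sequences.
-/

open MeasureTheory Filter Topology Set
open scoped ENNReal NNReal RealInnerProductSpace

namespace Pool.Agent.QWE

/-! ### Section 8: bubbles -/

/-- **Psi** (existence of the cut-off kernel). Proof: `h` = smooth bump with `h = 1` on the closed unit ball,
support in the ball of radius `2`, `0 ≤ h ≤ 1`, `h(-ξ) = h(ξ)` (`ContDiffBump` at `0` is even: `ContDiffBump.neg`), `h` is a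
Schwartz function (`HasCompactSupport.toSchwartzMap`). Its inverse Fourier transform `ψ` is Schwartz; it is real and
even because `h` is: `ψ(x) = ∫ h(ξ) cos(2π⟨x,ξ⟩) dξ`. Fourier inversion: `∫ ψ(x) e^{-2πi⟨x,ξ⟩} dx = h(ξ)`, the real part is
the integral with `cos`. (Real part of a complex Schwartz function is Schwartz.) -/
def St_Psi : Prop := ∃ ψ : E → ℝ, IsPsi ψ

/-- **RSobT** (refined Sobolev inequality, test functions). Proof. We may assume `B > 0` (if it holds for all `B' > B`, let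
`B' → B`). `P_l f (x) = ∫ f(x + z/l) ψ(z) dz = ∫ f(x - z/l) ψ(z) dz` (`ψ` even) has the Fourier transform `ψ^(ξ/l) f^(ξ)`, so by
Plancherel `‖f - P_l f‖_2² = ∫ |1 - ψ^(ξ/l)|² |f^(ξ)|² dξ ≤ ∫_{|ξ| ≥ l} |f^|²`. For `λ > 0` put `l = (λ/2B)²`: `|P_l f| ≤ B √l = λ/2`, so
`|{|f| > λ}| ≤ |{|f - P_l f| > λ/2}| ≤ 4 λ⁻² ∫_{|ξ| ≥ (λ/2B)²} |f^|²` (Chebyshev). Layer cake and Tonelli:
`∫ |f|^10 = 10 ∫ λ^9 |{|f|>λ}| dλ ≤ 40 ∫ |f^(ξ)|² ∫_0^{2B|ξ|^{1/2}} λ^7 dλ dξ = 1280 B^8 ∫ |ξ|⁴ |f^|² = 1280 (2π)⁻⁴ B^8 ∫ (Δf)²`. -/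
def St_RSobT : Prop := ∀ ψ : E → ℝ, IsPsi ψ → ∃ C : ℝ, 0 < C ∧ ∀ (f : E → ℝ) (B : ℝ), IsTest f → 0 ≤ B →
  (∀ (x : E) (l : ℝ), 0 < l → |∫ z, f (x + l⁻¹ • z) * ψ z| ≤ B * √l) →
  ∫ x, |f x| ^ 10 ≤ C * B ^ 8 * ∫ x, lap f x ^ 2

/-- **RSob** (refined Sobolev inequality on `K`, G1). Hypotheses RSobT, Dens, Iso, Fld, Lin, Act, UTest, GrA. Proof. With `l = e^a`:
`U (ig y a k) z = e^{-a/2} U k (y + e^{-a} z)` a.e. (Act), so `⟨ig y a k, Rk ψ⟩ = ∫ l^{-1/2} U k (y + z/l) ψ(z) dz` (UTest). Let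
`Theta f_n g_n → k` (Dens): `|⟨ig y a (Theta f_n g_n), Rk ψ⟩| ≤ B + ‖k - Theta f_n g_n‖ ‖Rk ψ‖ =: B_n → B`, `U (Theta f_n g_n) = f_n` a.e.,
`c0 ∫ (lap f_n)² ≤ ‖Theta f_n g_n‖²` (Iso), so RSobT gives `‖f_n‖_{10}^{10} ≤ C B_n^8 ‖Theta f_n g_n‖²/c0`, and `f_n → U k` in `L^10` (Fld, Lin). -/
def St_RSob : Prop := ∀ ψ : E → ℝ, IsPsi ψ → ∃ C : ℝ, 0 < C ∧ ∀ (k : K) (B : ℝ), 0 ≤ B →
  (∀ (y : E) (a : ℝ), |inner ℝ (ig y a k) (Rk ψ)| ≤ B) →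
  eLpNorm (U k) 10 volume ≤ ENNReal.ofReal (C * B ^ (4 / 5 : ℝ) * ‖k‖ ^ (1 / 5 : ℝ))

/-- **PsiNZ** (the bubble functionals separate points). Hypotheses Act, UTest, Lin, Fld, Dens, ExB. Proof. Let `φ` be a test function and
`ψ_l = l⁵ ψ(l ·)`, `l = e^a`. As in RSob `⟨ig y a k, Rk ψ⟩ = l^{-1/2} (U k * ψ_l)(y)` and, with `V (ig y a k) z = e^{-3a/2} V k (y + e^{-a} z)`,
`⟨ig y a k, dRk ψ⟩ = l^{-3/2} (V k * ψ_l)(y)` (`ψ` even). So `U k * ψ_l = 0`, `V k * ψ_l = 0` for all `l`. `∫ ψ = 1` (`ξ = 0` in `IsPsi`), so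
`φ * ψ_l → φ` in `L^{10/9}` and in `L^{10/7}` as `l → ∞` (approximate identity), and `∫ (U k) (φ * ψ_l) = ∫ (U k * ψ_l) φ = 0`; hence
`∫ (U k) φ = 0`, `∫ (V k) φ = 0`. So `k ⊥ TS univ = K` (UTest, Lin, Dens). -/
def St_PsiNZ : Prop := ∀ ψ : E → ℝ, IsPsi ψ → ∀ k : K,
  (∀ (y : E) (a : ℝ), inner ℝ (ig y a k) (Rk ψ) = 0 ∧ inner ℝ (ig y a k) (dRk ψ) = 0) → k = 0

/-- **G2** (concentration). Hypotheses RSob, Str, DuhI, NLb, Meas, Lin. Proof. `k t = tau (t - t0) (k t0) - D(t)`,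
`D(t) = ∫_{t0}^t tau (t-r) (NL (k r)) dr`, `∫ ‖NL (k r)‖ ≤ C A SN = C A` (NLb). So `∫_{t0}^{t1} ‖U (k t)‖_{30}^3 ≤ C_A` (Str, DuhI). By Lyapunov's
inequality (`1/20 = (1/4)/10 + (3/4)/30`) `‖u‖_{20}^4 ≤ ‖u‖_{10} ‖u‖_{30}^3`, so `1 = SN ≤ sup_t ‖U (k t)‖_{10} · C_A`: there is
`t` with `‖U (k t)‖_{10} ≥ 1/(2 C_A)`. If `|⟨ig y a (k t), Rk ψ⟩| < c` for all `y, a`, RSob gives
`‖U (k t)‖_{10} ≤ C c^{4/5} A^{1/5}`, impossible for `c = c(A)` small. (`A` may be assumed `≥ 1`.) -/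
def St_G2 : Prop := ∀ ψ : E → ℝ, IsPsi ψ → ∀ A : ℝ, ∃ c : ℝ, 0 < c ∧
  ∀ (t0 t1 : ℝ) (k : ℝ → K), IsSol (Icc t0 t1) k → (∀ t ∈ Icc t0 t1, ‖k t‖ ≤ A) → SN (Icc t0 t1) k = 1 →
  ∃ t ∈ Icc t0 t1, ∃ (y : E) (a : ℝ), c ≤ |inner ℝ (ig y a (k t)) (Rk ψ)|

/-! ### Section 9: weak limits, interaction -/

/-- **WkS** (weak convergence in the separable Hilbert space `K`). Proofs: `K` is separable (`Lp` over a countably generated σ-finite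
measure space, `MeasureTheory.Lp.SecondCountableTopology`); sequential Banach-Alaoglu and Riesz; uniform boundedness
(`banach_steinhaus`); `‖k'‖² = lim ⟨k n, k'⟩ ≤ A ‖k'‖`; `‖k n - k'‖² = ‖k n‖² - 2⟨k n,k'⟩ + ‖k'‖²`; density: `ε/3`. -/
def St_WkS : Prop :=
  (∀ (k : ℕ → K) (A : ℝ), (∀ n, ‖k n‖ ≤ A) → ∃ φ : ℕ → ℕ, StrictMono φ ∧ ∃ k' : K, ‖k'‖ ≤ A ∧ WTo (k ∘ φ) k') ∧
  (∀ (k : ℕ → K) (k' : K), WTo k k' → ∃ A, ∀ n, ‖k n‖ ≤ A) ∧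
  (∀ (k : ℕ → K) (k' : K) (A : ℝ), WTo k k' → (∀ n, ‖k n‖ ≤ A) → ‖k'‖ ≤ A) ∧
  (∀ (k : ℕ → K) (k' : K) (φ : ℕ → ℕ), WTo k k' → StrictMono φ → WTo (k ∘ φ) k') ∧
  (∀ (k : ℕ → K) (k' k'' : K), WTo k k' → WTo k k'' → k' = k'') ∧
  (∀ (k : ℕ → K) (k' : K), Tendsto k atTop (𝓝 k') → WTo k k') ∧
  (∀ (k : ℕ → K) (k' : K), WTo k k' → Tendsto (fun n => ‖k n‖) atTop (𝓝 ‖k'‖) → Tendsto k atTop (𝓝 k')) ∧
  (∀ (k : ℕ → K) (k' : K) (A : ℝ) (D : Set K), Dense D → (∀ n, ‖k n‖ ≤ A) →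
    (∀ w ∈ D, Tendsto (fun n => inner ℝ (k n) w) atTop (𝓝 (inner ℝ k' w))) → WTo k k') ∧
  (∀ (k : ℕ → K) (k' : K), ¬ WTo k k' → ∃ (w : K) (ε : ℝ) (φ : ℕ → ℕ), 0 < ε ∧ StrictMono φ ∧
    ∀ n, ε ≤ |inner ℝ (k (φ n)) w - inner ℝ k' w|)

/-- **WkC** (weak compactness of equicontinuous curves). Proof. Diagonal argument over a countable dense set of times `t_j ∈ [0,M]` (WkS):
a subsequence converges weakly at every `t_j`. For `w ∈ D` and any `t ∈ [0,M]` the sequence `⟨β_{φ n}(t), w⟩` is Cauchy (equicontinuity: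
compare with a `t_j` close to `t`); by boundedness and density of `D` for every `w ∈ K`; the limit is a bounded linear functional of
`w`, norm `≤ A` (Riesz). Continuity of `⟨k t, w⟩` for `w ∈ D` from the uniform modulus, then uniform limits. -/
def St_WkC : Prop := ∀ (A M : ℝ) (β : ℕ → ℝ → K) (D : Set K), 0 ≤ M → Dense D →
  (∀ n, ∀ t ∈ Icc 0 M, ‖β n t‖ ≤ A) →
  (∀ w ∈ D, ∀ ε : ℝ, 0 < ε → ∃ δ : ℝ, 0 < δ ∧ ∀ n, ∀ s ∈ Icc 0 M, ∀ t ∈ Icc 0 M, |s - t| ≤ δ →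
    |inner ℝ (β n s) w - inner ℝ (β n t) w| ≤ ε) →
  ∃ (φ : ℕ → ℕ) (k : ℝ → K), StrictMono φ ∧
    (∀ t ∈ Icc 0 M, ‖k t‖ ≤ A ∧ WTo (fun n => β (φ n) t) (k t)) ∧
    ∀ w, ContinuousOn (fun t => inner ℝ (k t) w) (Icc 0 M)

/-- **G4** (local compactness). Hypotheses WkS, Fld, Lin, Dens, UTest, Sob. Proof. `φ_ε` a mollifier supported in `B(0,ε)`, `ε ≤ 1`. For `k ∈ K`
`‖U k - φ_ε * U k‖_{L²(B(0,M))} ≤ C_M ε ‖k‖` and `‖DU k i - φ_ε * DU k i‖_{L²} ≤ C ε ‖k‖`: for test states `Theta f g` this is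
`‖f - φ_ε * f‖_{L²(B(0,M))} ≤ ε ‖∇f‖_{L²(B(0,M+1))} ≤ C_M ε ‖∇f‖_{10/3}` and `‖∂_i f - φ_ε * ∂_i f‖_2 ≤ ε ‖∇∂_i f‖_2`, then density. For fixed `ε`
`(φ_ε * U (k n))(x) = ⟨k n, Rk (φ_ε(x - ·))⟩ → 0` for every `x` (UTest) and `(φ_ε * DU (k n) i)(x) = - ⟨k n, Rk (∂_i [φ_ε(x - ·)])⟩ → 0` (WD), bounded by
`sup ‖k n‖ · C_ε` (WkS; the norm of `Rk (φ(x - ·))` does not depend on `x`, Act, or is bounded on the ball): dominated convergence on the ball. -/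
def St_G4 : Prop := ∀ (k : ℕ → K) (M : ℝ), WTo k 0 →
  Tendsto (fun n => eLpNorm ((Metric.ball (0 : E) M).indicator (U (k n))) 2 volume) atTop (𝓝 0) ∧
  ∀ i, Tendsto (fun n => eLpNorm ((Metric.ball (0 : E) M).indicator (DU (k n) i)) 2 volume) atTop (𝓝 0)

/-- **NLc** (weak continuity of the nonlinearity). Hypotheses G4, NLw, NLb, IP, Lin, Fld, Decay (or Free), WkS. Proofs. First: pass to a subsequence with
`sn (k n) → liminf`; `U (k n) → U k'` in `L²(B)` for every ball (G4 for `k n - k'`, Lin), so a.e. for a further subsequence; Fatou. Second: NLw: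
`⟨NL k, Theta f g⟩ = - c0 ∫ u⁵ Δg`, `Δg` bounded, supported in a ball `B`; `|u_n⁵ - u⁵| ≤ 5 |u_n - u| (|u_n| + |u|)⁴`,
`∫_B ≤ ‖u_n - u‖_{L²(B)} ‖ |u_n|+|u| ‖_{L^8(B)}^4 → 0` (bounded in `L^10`, Fld, WkS). Third: `tau s (Theta f g) = Theta f' g'`, with `g'` and its first
derivatives bounded and supported in `|x| ≤ M + M0` for `|s| ≤ M` (Decay); IP with `LU (NL k) = 0`, `DV (NL k) i = 5 u⁴ DU k i` (NLb):
`|⟨NL k, Theta f' g'⟩| ≤ 5 c0 Σ ∫ |u|⁴ |DU k i| |∂_i g'| ≤ C ‖u‖_{10}⁴ ‖DU k i‖_{10/3} |B|^{3/10} ≤ C ‖k‖⁵`. -/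
def St_NLc : Prop :=
  (∀ (k : ℕ → K) (k' : K), WTo k k' → sn k' ≤ liminf (fun n => sn (k n)) atTop) ∧
  (∀ (k : ℕ → K) (k' : K) (f g : E → ℝ), IsTest f → IsTest g → WTo k k' → (∀ n, sn (k n) < ⊤) → sn k' < ⊤ →
    Tendsto (fun n => inner ℝ (NL (k n)) (Theta f g)) atTop (𝓝 (inner ℝ (NL k') (Theta f g)))) ∧
  (∀ (f g : E → ℝ) (M : ℝ), IsTest f → IsTest g → ∃ C : ℝ, 0 < C ∧ ∀ (s : ℝ) (k : K), |s| ≤ M → sn k < ⊤ →
    |inner ℝ (NL k) (tau s (Theta f g))| ≤ C * ‖k‖ ^ 5)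

/-- **G5** (weak nullity for bounded times). Hypotheses WkS, WkC, NLc, NLb, Meas, Uniq, DuhI, Free, Dens, Grp1. Proof. Fix `t`; by WkS (last clause) and passing to a
subsequence we may assume `t ≤ T n` for all `n` and must show that a further subsequence of `β n t` tends weakly to `0`. Work on `[0,t]`. For
`κ = Theta f g` (`f,g` test) the Duhamel formula with base point `s'` gives
`⟨β n s, κ⟩ - ⟨β n s', κ⟩ = ⟨β n s', tau (s'-s) κ - κ⟩ - ∫_{s'}^s ⟨NL (β n r), tau (r-s) κ⟩ dr`, bounded by `A ‖tau (s'-s) κ - κ‖ + C_κ A⁵ |s - s'|` (NLc (3); `sn (β n r) < ⊤` for a.e. `r`), uniformly in `n`;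
so WkC applies: `β n s → k* s` weakly for all `s ∈ [0,t]`, `‖k* s‖ ≤ A`, and `SN (Icc 0 t) k* ≤ M` (NLc (1), Fatou). `k*` is weakly
continuous, hence strongly measurable (separable space); `NL (k* r)` is integrable (Meas, NLb). Limit in the Duhamel formula tested with `κ`: for a.e. `r`
all `sn (β n r)`, `sn (k* r)` are finite and `tau (r-s) κ = Theta f' g'` (Free), so NLc (2) and dominated convergence give
`⟨k* s, κ⟩ = - ∫_0^s ⟨NL (k* r), tau (r-s) κ⟩ dr`; by density `k* s = - ∫_0^s tau (s-r) (NL (k* r)) dr`, continuous (DuhI), so `k*` is a solution on `[0,t]` with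
`k* 0 = 0` (group property for other base points). The zero function is a solution; Uniq: `k* = 0`. -/
def St_G5 : Prop := ∀ (A M : ℝ) (T : ℕ → ℝ) (β : ℕ → ℝ → K), BetaSeq A M T β →
  ∀ t : ℝ, 0 ≤ t → WTo (fun n => if t ≤ T n then β n t else 0) 0

/-- **G6** (shell estimate). Hypotheses Dens, Lin, Fld, Iso. Proof. `f` test: `|f(ρ ω)|⁸ ≤ 8 ∫_ρ^∞ |f|⁷ |∂_r f| dr`, so (polar coordinates)
`ρ⁴ ∫_S |f(ρ ω)|⁸ dω ≤ 8 ∫_S ∫_ρ^∞ |f|⁷ |∇f| r⁴ dr dω ≤ 8 ∫ |f|⁷ |∇f| ≤ 8 ‖f‖_{10}^7 ‖∇f‖_{10/3} ≤ C ‖Theta f g‖⁸`; integrate over `|ρ - r| ≤ M`. General `k`: test states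
`→ k`, convergence in `L^10`, so a.e. along a subsequence, Fatou. -/
def St_G6 : Prop := ∃ C : ℝ, 0 < C ∧ ∀ (k : K) (r M : ℝ), 0 ≤ M →
  ∫⁻ x in {x : E | |‖x‖ - r| ≤ M}, ‖U k x‖ₑ ^ 8 ≤ ENNReal.ofReal (C * M) * ‖k‖ₑ ^ 8

/-- **G7** (decay of the pairing, pointwise in time). Hypotheses G6, Decay, IP, NLb, Lin, Fld. Proof. `tau r (Theta f g) = Theta f' g'` with `|∂_i g'| ≤ C/(1+r²)`, supported in the shell
`Sh = {abs (‖x‖ - r) ≤ M0}`, `|Sh| ≤ C r⁴` (Decay, `r ≥ 1`). IP (`LU (NL k) = 0`), NLb, Lin: `|⟨NL k, Theta f' g'⟩| ≤ 5 c0 Σ ∫_{Sh} |u|⁴ |DU k i| |∂_i g'|`; Hoelder with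
`4/8 + 3/10 + 1/5 = 1`: `≤ C Σ ‖1_{Sh} u‖_8⁴ ‖DU k i‖_{10/3} ‖∂_i g'‖_5`, `‖1_{Sh} u‖_8 ≤ C ‖k‖` (G6), `‖DU k i‖_{10/3} ≤ C ‖k‖` (Fld), `‖∂_i g'‖_5 ≤ C r⁻² |Sh|^{1/5} ≤ C r^{-6/5}`. -/
def St_G7 : Prop := ∀ f g : E → ℝ, IsTest f → IsTest g → ∃ C : ℝ, 0 < C ∧ ∀ (k : K) (r : ℝ), 1 ≤ r →
  sn k < ⊤ →
  |inner ℝ (NL k) (tau r (Theta f g))| ≤ C * r ^ (-(6 / 5 : ℝ)) * ‖k‖ ^ 5

/-- **G8** (weak nullity for all times, interaction picture). Hypotheses G5, G7, NLc, NLb, Meas, WkS, Dens, Grp1. Proof. `‖tau (-t) β‖ ≤ A`. By compactness of `C1` (subsequences) and density it suffices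
that `⟨tau (-(t n)) (β n (t n)), κ⟩ → 0` for `κ = Theta f g`. Duhamel with base point `0`: this is `⟨β n 0, κ⟩ - ∫_0^{t n} ⟨NL (β n r), tau r κ⟩ dr`. Let `M' ≥ 1`.
On `[0, min M' (t n)]` the integrand tends to `0` for a.e. `r` (NLc (2) for the sequence `if r ≤ T n then β n r else 0` of G5, `k' = 0`, `NL 0 = 0`) and is bounded by `C A⁵` (NLc (3)): dominated
convergence. On `[M', t n]`: G7 (for a.e. `r`, where `sn` is finite):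
`≤ C A⁵ ∫_{M'}^∞ r^{-6/5} dr = 5 C A⁵ M'^{-1/5}`. Let `n → ∞`, then `M' → ∞`. -/
def St_G8 : Prop := ∀ (A M : ℝ) (T t : ℕ → ℝ) (β : ℕ → ℝ → K) (C1 : Set K) (c : ℕ → K),
  BetaSeq A M T β → (∀ n, t n ∈ Icc 0 (T n)) → IsCompact C1 → (∀ n, c n ∈ C1) →
  Tendsto (fun n => inner ℝ (tau (-(t n)) (β n (t n))) (c n)) atTop (𝓝 0)

/-- **G9** (local smallness). Hypotheses G5, G4, Meas, Fld, Lin. (`t ↦ ‖1_B DU (β n t) i‖_2` is continuous: `|‖1_B DU k i‖_2 - ‖1_B DU k' i‖_2| ≤ C_B ‖k - k'‖` by Lin, Fld.) Proof. For every fixed `t` the quantities `e2_n(t) = ‖1_B U (β n t)‖_2`, `‖1_B DU (β n t) i‖_2` (for `t ≤ T n`, else `0`) tend to `0` by G5 and G4, and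
they are bounded by `C_R A` (Fld, Hoelder on the ball): dominated convergence on `[0,R]` gives the second claim. First claim: Lyapunov `1/15 = (1/27)/2 + (26/27)/20`:
`‖1_B u‖_{15}^3 ≤ ‖1_B u‖_2^{1/9} ‖u‖_{20}^{26/9}`; Hoelder in time with exponents `18/5`, `18/13`:
`≤ (∫ e2_n^{2/5})^{5/18} (∫ sn⁴)^{13/18} → 0`. -/
def St_G9 : Prop := ∀ (A M : ℝ) (T : ℕ → ℝ) (β : ℕ → ℝ → K) (R : ℝ), BetaSeq A M T β → 0 ≤ R →
  Tendsto (fun n => ∫⁻ t in Icc 0 (min R (T n)),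
    eLpNorm ((Metric.ball (0 : E) R).indicator (U (β n t))) 15 volume ^ 3) atTop (𝓝 0) ∧
  ∀ i, Tendsto (fun n => ∫⁻ t in Icc 0 (min R (T n)),
    eLpNorm ((Metric.ball (0 : E) R).indicator (DU (β n t) i)) 2 volume ^ 2) atTop (𝓝 0)

/-- **G10** (dispersion). Hypotheses Decay, Dens, Lin, Fld, Grp1. Proof. `k t = tau t kp + o(1)`, `‖DU k i‖_{10/3} ≤ C ‖k‖`, so we may assume `kp = Theta f g`; then `|∂_i f'| ≤ C/(1+t²)`, supported in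
`|x| ≤ t + M0` (Decay): `L^{10/3}` norm `≤ C t^{-2} (t+M0)^{3/2} → 0`. -/
def St_G10 : Prop := ∀ (k : ℝ → K) (kp : K), Tendsto (fun t => tau (-t) (k t)) atTop (𝓝 kp) →
  ∀ i, Tendsto (fun t => eLpNorm (DU (k t) i) (10 / 3) volume) atTop (𝓝 0)

/-- **LscT** (semicontinuity). Hypotheses Fld, Lin. Proof. If `k n → k` in `K` then `U (k n) → U k` in `L^10`, a.e. for a subsequence; Fatou (first pass to a subsequence
realising the liminf). -/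
def St_LscT : Prop := ∀ m : ℝ, 0 ≤ m →
  LowerSemicontinuous (fun k : K => eLpNorm (fun x => max 0 (|U k x| - m)) 20 volume)

/-- **Int0** (the interaction term, pointwise in time). Hypotheses NLb, IP, Lin, Fld. Proof. `w = NL (k+k') - NL k - NL k'`; `U w = 0`, `a = U k`, `b = U k'`,
`DV w i = 5 [(a+b)⁴ - a⁴] DU k i + 5 [(a+b)⁴ - b⁴] DU k' i` a.e. (NLb, Lin; `sn (k+k') ≤ sn k + sn k'`), `‖w‖² = c0 Σ ‖DV w i‖_2²` (IP, `LU w = 0`), and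
`|(a+b)⁴ - a⁴| ≤ 15 |b| (|a|³ + |b|³)`. -/
def St_Int0 : Prop := ∃ C : ℝ, 0 < C ∧ ∀ k k' : K, sn k < ⊤ → sn k' < ⊤ →
  ‖NL (k + k') - NL k - NL k'‖ₑ ≤ ENNReal.ofReal C * ∑ i,
    (eLpNorm (fun x => |U k' x| * (|U k x| ^ 3 + |U k' x| ^ 3) * |DU k i x|) 2 volume +
      eLpNorm (fun x => |U k x| * (|U k x| ^ 3 + |U k' x| ^ 3) * |DU k' i x|) 2 volume)

/-- **Int1** (interaction term, split into a local part and errors). Hypotheses Int0, Fld. Notation: `a = U k`, `b = U k'`, `B = ball 0 m`, `s = sn k`, `s' = sn k'`, `q = qm m k`. Hoelder: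
`|b|(|a|³+|b|³)|DU k i| ≤ |b|(|a|³+|b|³)|H| + |b|(|a|³+|b|³)|DU k i - H|`, second part `≤ ε (s' s³ + s'⁴)` in `L²` (`4/20 + 3/10 = 1/2`), first part `≤ m (‖1_B b a³‖_2 + ‖1_B b⁴‖_2) ≤ m C_m ‖1_B b‖_{15} (s² ‖a‖_{10} + s'² ‖b‖_{10})`
(`1/15 + 2/20 + 1/10 ≤ 1/2`, `B` bounded). `|a| ≤ m 1_B + r`, `r = max 0 (|a| - m) + 1_{Bᶜ} |a|`, `‖r‖_{20} ≤ q`: `|a|⁴ |DU k' i| ≤ 8 m⁴ 1_B |DU k' i| + 8 r⁴ |DU k' i|`, norms `≤ 8 m⁴ ‖1_B DU k' i‖_2 + 8 q⁴ ‖DU k' i‖_{10/3}`;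
`|a| |b|³ |DU k' i| ≤ m 1_B |b|³ |DU k' i| + r |b|³ |DU k' i|`, norms `≤ m C_m ‖1_B b‖_{15} s'² ‖DU k' i‖_{10/3} + q s'³ ‖DU k' i‖_{10/3}` (`1/15 + 2/20 + 3/10 ≤ 1/2`). Fld:
`‖a‖_{10} ≤ C ‖k‖`, `‖b‖_{10}, ‖DU k' i‖_{10/3} ≤ C ‖k'‖`. -/
def St_Int1 : Prop := ∃ C : ℝ, 0 < C ∧ ∀ m : ℝ, 0 ≤ m → ∃ Cm : ℝ, 0 < Cm ∧
  ∀ (k k' : K) (H : Fin 5 → E → ℝ) (ε : ℝ≥0∞), sn k < ⊤ → sn k' < ⊤ → (∀ i, Measurable (H i)) →
  (∀ i x, |H i x| ≤ m) → (∀ i x, m ≤ ‖x‖ → H i x = 0) →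
  (∀ i, eLpNorm (fun x => DU k i x - H i x) (10 / 3) volume ≤ ε) →
  ‖NL (k + k') - NL k - NL k'‖ₑ ≤
    ENNReal.ofReal C * (ε * (sn k' * sn k ^ 3 + sn k' ^ 4) +
      (qm m k ^ 4 + qm m k * sn k' ^ 3) * ‖k'‖ₑ) +
    ENNReal.ofReal Cm * (eLpNorm ((Metric.ball (0 : E) m).indicator (U k')) 15 volume *
      (sn k ^ 2 * ‖k‖ₑ + sn k' ^ 2 * ‖k'‖ₑ) +
      ∑ i, eLpNorm ((Metric.ball (0 : E) m).indicator (DU k' i)) 2 volume)

/-- **Apx** (uniform approximation along a solution). Hypotheses G10, LscT, Lsc, Blow, MaxE, Dens, Lin, Fld, Meas. Proof. If `J = Ici 0`: extend `a` to a maximal solution (MaxE), Blow: `tau (-t) (a t)` converges, so by G10 there is `m1`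
with `‖DU (a t) i‖_{10/3} ≤ ε` for `t > m1`; if `J = Icc 0 Ts` take `m1 = Ts`. `{a t : t ∈ J, t ≤ m1}` is compact; finitely many test states `Theta f_j g_j` (Dens) approximate it so well that
`‖DU (a t) i - ∂_i f_j‖_{10/3} ≤ ε` (Fld, Lin) for a suitable `j = j(t)`; `H = ∂_i f_j` for `t ≤ m1`, `H = 0` for `m1 < t ≤ m`; `m ≥ m1` larger than all bounds and supports. Integrals:
`qm m (a t) ≤ 2 sn (a t)`, and `qm m (a t) → 0` as `m → ∞` whenever `sn (a t) < ⊤` (dominated convergence in `L²⁰`), measurable in `t` (LscT, Lsc, continuity of `a`);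
dominated convergence in `t`. -/
def St_Apx : Prop := ∀ (J : Set ℝ) (a : ℝ → K), ASol J a → ∀ ε : ℝ, 0 < ε → ∃ m : ℝ, 0 ≤ m ∧
  (∀ t ∈ J, t ≤ m → ∃ H : Fin 5 → E → ℝ, (∀ i, Measurable (H i)) ∧ (∀ i x, |H i x| ≤ m) ∧
    (∀ i x, m ≤ ‖x‖ → H i x = 0) ∧
    ∀ i, eLpNorm (fun x => DU (a t) i x - H i x) (10 / 3) volume ≤ ENNReal.ofReal ε) ∧
  (∀ t ∈ J, m < t → ∀ i, eLpNorm (DU (a t) i) (10 / 3) volume ≤ ENNReal.ofReal ε) ∧
  (∫⁻ t in J ∩ Iic m, qm m (a t) ^ 4) + (∫⁻ t in J ∩ Ioi m, sn (a t) ^ 4) ≤ ENNReal.ofReal ε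

/-- **G11** (interaction vanishes). Hypotheses Apx, Int1, G9, Gron, Meas. Proof. `‖a t‖ ≤ A'` on `J` (Gron). Let `ε > 0`, `m` from Apx. For a.e. `t ∈ [0, T n] ⊆ J` all `sn` are finite. For `t ≤ m` use Int1 with `m` and `H`
of Apx, for `t > m` Int1 with `m = 0`, `H = 0` (`qm 0 k ≤ 2 sn k`, empty ball). Integrate in time, `s = sn (a t)`, `s' = sn (β n t)`, `q = qm m (a t)`: Hoelder gives
`∫ (s' s³ + s'⁴) ≤ C`, `∫_{t ≤ m} q⁴ ≤ ε`, `∫_{t ≤ m} q s'³ ≤ ε^{1/4} C`, `∫_{t > m} (s⁴ + s s'³) ≤ ε + ε^{1/4} C`,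
`∫_{t ≤ m} ‖1_B U (β n t)‖_{15} (s² + s'²) ≤ m^{1/6} (∫ ‖1_B U (β n t)‖_{15}^3)^{1/3} C → 0`, `∫_{t ≤ m} ‖1_B DU (β n t) i‖_2 ≤ m^{1/2} (∫ ‖·‖_2²)^{1/2} → 0`
as `n → ∞` (G9 with `R = m`). So the limsup is `≤ C (ε + ε^{1/4})`. -/
def St_G11 : Prop := ∀ (A M : ℝ) (J : Set ℝ) (a : ℝ → K) (T : ℕ → ℝ) (β : ℕ → ℝ → K), ASol J a →
  BetaSeq A M T β → (∀ n, T n ∈ J) →
  Tendsto (fun n => ∫⁻ t in Icc 0 (T n), ‖NL (a t + β n t) - NL (a t) - NL (β n t)‖ₑ) atTop (𝓝 0)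

/-- **Dec** (decoupling). Hypotheses G11, G8, Pert, Uniq, Gron, SNt, Meas, NLb, Blow, MaxE, Grp1. Proof. `kt = a + β n` satisfies `kt t = tau t (kt 0) - ∫_0^t tau (t-r) (NL (kt r) - e_n r) dr`,
`e_n = NL (a + β n) - NL a - NL (β n)`, `∫_0^{T n} ‖e_n‖ → 0` (G11), `kt` is bounded (Gron), `SN kt ≤ ((SN a)^{1/4} + M^{1/4})^4` (SNt). Pert with `k0 = k n 0 = kt 0`, `ε = ∫ ‖e_n‖` and Uniq:
`‖k n t - kt t‖ ≤ C ε_n` on `[0, T n]`, `SN (k n - kt) ≤ (C ε_n)^4`; SNt gives the bound of `SN (k n)`. Second claim: `⟨a t, β t⟩ = ⟨tau (-t) (a t), tau (-t) (β t)⟩` and G8 with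
`C1 = ` closure of `{tau (-t) (a t) : t ∈ J}`, which is compact: `J` compact and continuity, or (`J = Ici 0`) continuity and convergence as `t → ∞` (MaxE, Blow). -/
def St_Dec : Prop := ∀ (A M : ℝ) (J : Set ℝ) (a : ℝ → K) (T t : ℕ → ℝ) (β k : ℕ → ℝ → K), ASol J a →
  BetaSeq A M T β → (∀ n, T n ∈ J) → (∀ n, t n ∈ Icc 0 (T n)) → (∀ n, IsSol (Icc 0 (T n)) (k n)) →
  (∀ n, k n 0 = a 0 + β n 0) →
  Tendsto (fun n => k n (t n) - a (t n) - β n (t n)) atTop (𝓝 0) ∧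
  Tendsto (fun n => (inner ℝ (a (t n)) (β n (t n)) : ℝ)) atTop (𝓝 0) ∧
  ∃ B : ℝ, ∀ᶠ n in atTop, SN (Icc 0 (T n)) (k n) ≤ ENNReal.ofReal B

/-! ### Section 10: the compactness theorem -/

/-- **SNc** (elementary facts on solutions and `SN`). Proofs: restriction is immediate from the definition; `SN` is the integral of a fixed function over the set (additive, continuous from inside,
`lintegral` over unions of increasing sequences of measurable sets); order connected sets are countable increasing unions of compact intervals with end points in the set; absolute continuity of the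
integral. The zero curve is a solution (`NL 0 = 0`, NLb), so a solution that vanishes at one time vanishes (Uniq). -/
def St_SNc : Prop :=
  (∀ (I I' : Set ℝ) (k : ℝ → K), IsSol I k → I' ⊆ I → I'.OrdConnected → IsSol I' k) ∧
  (∀ (I : Set ℝ) (k : ℝ → K) (r : ℝ≥0∞), IsSol I k → r < SN I k →
    ∃ s ∈ I, ∃ t ∈ I, s ≤ t ∧ r < SN (Icc s t) k) ∧
  (∀ (I : Set ℝ) (k : ℝ → K) (s : ℝ) (r : ℝ≥0∞), IsSol I k → s ∈ I → r < SN (I ∩ Ici s) k →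
    ∃ t ∈ I, s ≤ t ∧ r < SN (Icc s t) k) ∧
  (∀ (I : Set ℝ) (k : ℝ → K) (s : ℝ), IsSol I k → s ∈ I →
    ContinuousOn (fun t => (SN (Icc s t) k).toReal) (I ∩ Ici s) ∧
    ContinuousOn (fun t => (SN (Icc t s) k).toReal) (I ∩ Iic s)) ∧
  (∀ (k : ℝ → K) (a b c : ℝ), a ≤ b → b ≤ c → SN (Icc a c) k = SN (Icc a b) k + SN (Icc b c) k) ∧
  (∀ (I : Set ℝ) (k : ℝ → K) (s : ℝ), IsSol I k → s ∈ I → k s = 0 → ∀ t ∈ I, k t = 0)

/-- **ScM** (rescaled solutions). Hypotheses Sym, GrA, Act. Proof. `resc k t0 y b t = sh (- e^b y) (dl (-b) (k (t0 + t e^{-b})))`; compose the three symmetries of Sym; `IsMax`: apply the inverse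
transformation (`resc` with `t0' = - t0 e^b`, `y' = - e^b y`, `b' = -b`) to an extension; isometry. -/
def St_ScM : Prop := ∀ (I : Set ℝ) (k : ℝ → K) (t0 : ℝ) (y : E) (b : ℝ),
  (IsSol I k → IsSol {t | t0 + t * Real.exp (-b) ∈ I} (resc k t0 y b)) ∧
  (IsMax I k → IsMax {t | t0 + t * Real.exp (-b) ∈ I} (resc k t0 y b)) ∧
  (MeasurableSet I → SN {t | t0 + t * Real.exp (-b) ∈ I} (resc k t0 y b) = SN I k) ∧
  ∀ t, ‖resc k t0 y b t‖ = ‖k (t0 + t * Real.exp (-b))‖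

/-- **G12** (one bubble takes everything). Hypotheses Dec, SNc, MaxE, Blow, Uniq, Small, Gron, WkS. Proof (all along subsequences). Suppose not: there are a subsequence and `μ > 0` with
`b_n = k n 0 - φ`, `‖b_n‖ ≥ μ`, `b_n → 0` weakly. Let `a` be the maximal solution with `a 0 = φ` on `I_a`, `β n` the maximal solution with `β n 0 = b_n` on `I_n` (MaxE). `m1 = min(d0, ‖φ‖/2, μ/3) > 0` (`d0` of Small):
`‖a t‖ ≥ m1` for `t ∈ I_a`, `‖β n t‖ ≥ m1` for `t ∈ I_n` (if `‖a t‖ < m1`, Small from the time `t` and Uniq give `‖φ‖ ≤ 2 ‖a t‖ < 2 m1`; same for `β n`).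
`A' = √(Ac² - m1²/2) < Ac`, `M = (LA A').toReal + 1`. `G_n` = set of `T ∈ [0, τ n]` with `[0,T] ⊆ I_a ∩ I_n`, `SN (Icc 0 T) a ≤ M`, `SN (Icc 0 T) (β n) ≤ M`. It is an interval containing `0`, and closed
(if `T*` is its supremum, the `SN` over `[0,T*)` are `≤ M`; if `T*` were `sup I_a` then `SN (I_a ∩ Ici 0) a ≤ M < ∞` and Blow gives `Ici 0 ⊆ I_a`, contradiction; same for `I_n`). Let `T n = max G_n`.
`J = {t ≥ 0 : [0,t] ⊆ I_a, SN (Icc 0 t) a ≤ M}` is `Icc 0 Ts` or `Ici 0` (same argument), `ASol J a`, and `BetaSeq A M T β` with `A` from Gron. Claim: for `n` large `‖a t‖ ≤ A'` and `‖β n t‖ ≤ A'` for all `t ∈ [0, T n]`.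
Otherwise there are infinitely many `n` and `t n ∈ [0, T n]` with `‖a (t n)‖ > A'` or `‖β n (t n)‖ > A'`; Dec: `‖a (t n)‖² + ‖β n (t n)‖² = ‖k n (t n)‖² + o(1) ≤ Ac² + o(1)`, and both terms are `≥ m1²`, so both are
`≤ Ac² - m1² + o(1) < A'²`, contradiction. By the claim and the definition of `LA`: `SN (Icc 0 (T n)) a ≤ M - 1`, same for `β n`; if `T n < τ n`, continuity of `SN` (SNc) and openness of `I_a, I_n` contradict the maximality of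
`T n`. So `T n = τ n` for `n` large, and Dec bounds `SN (Icc 0 (τ n)) (k n)`: contradiction with `→ ∞`. -/
def St_G12 : Prop := ∀ Ac : ℝ, (∀ A' < Ac, LA A' < ⊤) →
  ∀ (τ δ : ℕ → ℝ) (k : ℕ → ℝ → K) (φ : K), (∀ n, 0 ≤ τ n) → (∀ n, IsSol (Icc 0 (τ n)) (k n)) →
  Tendsto δ atTop (𝓝 0) → (∀ n, ∀ t ∈ Icc 0 (τ n), ‖k n t‖ ≤ Ac + δ n) →
  Tendsto (fun n => SN (Icc 0 (τ n)) (k n)) atTop (𝓝 ⊤) → WTo (fun n => k n 0) φ → φ ≠ 0 →
  Tendsto (fun n => k n 0) atTop (𝓝 φ)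

/-- **G13a** (passing to the limit in a sequence of blowing up solutions). Hypotheses Stab, GStab, Blow, MaxE, Uniq, SNt, SNc, Meas. Proof. Let `(I, a)` be the maximal solution with `a 0 = φ` (MaxE). For `T ∈ I`, `T ≥ 0`:
Stab on `[0,T]` with data `k n 0 → φ` gives solutions on `[0,T]` (for large `n`) converging to `a` uniformly and in `SN`, in particular with bounded `SN`; by Uniq they agree with `k n` on `[0, min T (τ n)]`; as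
`SN (Icc 0 (τ n)) (k n) → ∞` we get `T ≤ τ n` for `n` large. This gives the last clause and `‖a T‖ ≤ Ac`. If `SN (I ∩ Ici 0) a < ⊤`, Blow gives `Ici 0 ⊆ I` and GStab bounds the `SN` of the solutions with data
`k n 0` on `Ici 0`, contradiction. -/
def St_G13a : Prop := ∀ (Ac : ℝ) (τ δ : ℕ → ℝ) (k : ℕ → ℝ → K) (φ : K), (∀ n, 0 ≤ τ n) →
  (∀ n, IsSol (Icc 0 (τ n)) (k n)) → Tendsto δ atTop (𝓝 0) →
  (∀ n, ∀ t ∈ Icc 0 (τ n), ‖k n t‖ ≤ Ac + δ n) →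
  Tendsto (fun n => SN (Icc 0 (τ n)) (k n)) atTop (𝓝 ⊤) → Tendsto (fun n => k n 0) atTop (𝓝 φ) →
  ∃ (I : Set ℝ) (a : ℝ → K), IsMax I a ∧ (0 : ℝ) ∈ I ∧ a 0 = φ ∧ (∀ t ∈ I, 0 ≤ t → ‖a t‖ ≤ Ac) ∧
    SN (I ∩ Ici 0) a = ⊤ ∧
    ∀ T ∈ I, 0 ≤ T → (∀ᶠ n in atTop, T ≤ τ n) ∧ ∀ ε : ℝ, 0 < ε →
      ∀ᶠ n in atTop, (∀ t ∈ Icc 0 T, ‖k n t - a t‖ < ε) ∧
        SN (Icc 0 T) (fun t => k n t - a t) < ENNReal.ofReal ε

/-- **G13** (critical element). Hypotheses Psi, G2, WkS, G12, G13a, ScM, SNc, GrA. Proof. `LA` is monotone, `LA A = 0` for `A < 0`; `Ac = sInf {A | LA A = ⊤}`. For every `n` there is, as `LA (Ac + 1/(n+1)) = ⊤`, a solution with norms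
`≤ Ac + 1/(n+1)` and `SN > n + 2`, hence (SNc) one on a compact interval `[α_n, ω_n]` with `SN > n + 2`. Let `α_n'` with `SN (Icc α_n α_n') = 1` (continuity). G2 (with `A = Ac + 1`): `t_n ∈ [α_n, α_n']`, `y_n, b_n` with
`|⟨ig y_n b_n (k_n t_n), Rk ψ⟩| ≥ c`. Rescale: `k'_n = resc k_n t_n y_n b_n` on `[0, (ω_n - t_n) e^{b_n}]`, `SN ≥ n + 1` (ScM, SNc). Subsequence: `k'_n 0 → φ` weakly (WkS), `|⟨φ, Rk ψ⟩| ≥ c`, so `φ ≠ 0`. G12, then G13a. -/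
def St_G13 : Prop := (∃ A : ℝ, LA A = ⊤) → ∃ (Ac : ℝ) (I : Set ℝ) (a : ℝ → K), Crit Ac I a

/-- **G14** (forward precompactness modulo symmetries). Hypotheses Psi, G2, WkS, G12, G13a, ScM, SNc, SNt, GrA. Proof. `SN (Icc 0 (t n)) a → ∞`. For `n` large choose `t'' ∈ [0, t n]` with `SN (Icc t'' (t n)) a = 1` (continuity), and by G2
(`A = Ac`) `r n ∈ [t'', t n]`, `y n`, `b n` with `|⟨ig (y n) (b n) (a (r n)), Rk ψ⟩| ≥ c`. `k_n = resc a (r n) (y n) (b n)` on `[0, τ n]`, `τ n` such that `SN (Icc 0 (τ n)) k_n ≥ n` (possible since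
`SN (I ∩ Ici (r n)) a = ⊤`: `SN (Icc 0 (r n)) a < ⊤`), norms `≤ Ac`. Subsequence: `k_n 0 → φ ≠ 0` weakly, strongly by G12. G13a: maximal `(I', a')` with `a' 0 = φ`, `SN (I' ∩ Ici 0) a' = ⊤`; choose `T1 ∈ I'`, `T1 ≥ 0`, with
`SN (Icc 0 T1) a' ≥ 16`. By G13a and SNt `SN (Icc 0 T1) k_n > 1` for `n` large, but with `s_n = e^{b n} (t n - r n)` `SN (Icc 0 s_n) k_n = SN (Icc (r n) (t n)) a ≤ 1`, so `s_n ≤ T1`. Subsequence `s_n → s ∈ [0,T1]`;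
`ig (y n) (b n) (a (t n)) = k_n s_n → a' s` (uniform convergence on `[0,T1]`, continuity of `a'`), and `a' s ≠ 0` (SNc). -/
def St_G14 : Prop := ∀ (Ac : ℝ) (I : Set ℝ) (a : ℝ → K), Crit Ac I a → ∀ t : ℕ → ℝ,
  (∀ n, t n ∈ I ∧ 0 ≤ t n) → (∀ T ∈ I, ∀ᶠ n in atTop, T ≤ t n) →
  ∃ (φ : ℕ → ℕ) (y : ℕ → E) (b : ℕ → ℝ) (κ : K), StrictMono φ ∧ κ ≠ 0 ∧
    Tendsto (fun n => ig (y n) (b n) (a (t (φ n)))) atTop (𝓝 κ)

/-- **FbP** (the bubble functional). Hypotheses PsiNZ, GrA. Proof. `|⟨ig y a k, Rk ψ⟩| ≤ ‖k‖ ‖Rk ψ‖`, same for `dRk`, so the supremum is finite; `ig y a` is linear and isometric. Invariance: `ig y' a' (gr y a k) = ig y'' a'' k`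
where `(y'', a'')` runs through all of `E × ℝ` (group law, GrA). Positivity: PsiNZ. -/
def St_FbP : Prop := ∀ ψ : E → ℝ, IsPsi ψ →
  (∃ C : ℝ, ∀ k k' : K, |Fb ψ k - Fb ψ k'| ≤ C * ‖k - k'‖) ∧
  (∀ (k : K) (y : E) (a : ℝ), Fb ψ (gr y a k) = Fb ψ k) ∧
  (∀ k : K, k ≠ 0 → 0 < Fb ψ k ∧ ∃ (y : E) (a : ℝ),
    Fb ψ k / 2 ≤ max |inner ℝ (ig y a k) (Rk ψ)| |inner ℝ (ig y a k) (dRk ψ)|)

/-- **G15** (choice of the parameters). Hypotheses G14, FbP, Psi, GBd, GrA, SNc. Proof. `a t ≠ 0` for all `t` (SNc: otherwise `a = 0` and `SN = 0`). Choose `(x t, b t)` with `Fb ψ (a t) / 2 ≤ max(..)` (FbP). Let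
`S0 = {ig (x t) (b t) (a t) : t ∈ I, t ≥ 0}`. Claim: every sequence `t_n` has a subsequence along which `ig (x t_n) (b t_n) (a t_n)` converges to a nonzero limit; then `Q` = closure of `S0` is compact and `0 ∉ Q`, and
`a t = gr (x t) (b t) (ig ..)`. Proof of the claim: if infinitely many `t_n` lie in some `[0,T] ⊆ I`, `a (t_n) → a(t*) ≠ 0` along a subsequence; otherwise G14. In both cases there are `h_n = (y_n, a_n)` and `φ ≠ 0` with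
`ig h_n (a t_n) → φ` (subsequence). FbP: `Fb ψ (a t_n) = Fb ψ (ig h_n (a t_n)) → Fb ψ φ > 0`. `ig (x t_n) (b t_n) (a t_n) = gr g_n (ig h_n (a t_n))`, `g_n = (x t_n, b t_n)⁻¹ h_n` (group law), pairs with `Rk ψ` or `dRk ψ` to
at least `Fb ψ φ / 4` in absolute value, so no subsequence tends weakly to `0`; GBd (bounded sequence: take a weakly convergent subsequence, limit `≠ 0`; `Q' = {ig h_n (a t_n)} ∪ {φ}` compact) gives that the parameters of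
`g_n` are bounded, subsequence `g_n → g`, limit `gr g φ ≠ 0` (joint continuity, GrA). -/
def St_G15 : Prop := ∀ (Ac : ℝ) (I : Set ℝ) (a : ℝ → K), Crit Ac I a →
  ∃ (Q : Set K) (x : ℝ → E) (b : ℝ → ℝ), IsCompact Q ∧ (0 : K) ∉ Q ∧
    ∀ t ∈ I, 0 ≤ t → ∃ κ ∈ Q, a t = gr (x t) (b t) κ

/-- **G16** (a two sided compact solution). Hypotheses G15, GLim, GBd, C1a, Stab, MaxE, Uniq, ScM, SNc, GrA. Proof. `I` is an open interval; let `T+ = sup I ≤ ∞`. (i) If `T+ < ∞` then `e^{b(t)} ≥ c/(T+ - t)` for `t ∈ I ∩ [0,∞)`: by C1a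
(data in `Q`) and ScM the solution exists on `[t - c e^{-b(t)}, t + c e^{-b(t)}]` (maximality of `a`). (ii) Let `t_n ∈ I`, `t_n → T+`, `κ_n = ig (x t_n) (b t_n) (a t_n) ∈ Q`, subsequence `κ_n → κ ∈ Q`; `k` the maximal solution with `k 0 = κ` on
`I'`. `k_n = resc a t_n (x t_n) (b t_n)` is maximal on `I_n = {s : t_n + s e^{-b(t_n)} ∈ I}` (ScM). For a compact interval `J ∋ 0`, `J ⊆ I'`: Stab and maximality: `J ⊆ I_n` for `n` large and `k_n → k` uniformly on `J`. (iii) Claim: for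
`s ∈ I'` one has `t_n + s e^{-b(t_n)} ≥ 0` for `n` large. Clear for `s ≥ 0`. If it fails for some `s < 0` and infinitely many `n`: `σ_n = - t_n e^{b(t_n)} ∈ (s, 0]`, subsequence `σ_n → σ ∈ [s,0]`, so
`ig (x t_n) (b t_n) (a 0) = k_n σ_n → k σ ≠ 0` (SNc); so by GBd (`Q' = {a 0}`; `ig y b = gr (-e^b y) (-b)`) `b(t_n)` is bounded. If `T+ < ∞` this contradicts (i), if `T+ = ∞` then `t_n → ∞`,
`σ_n → -∞`, contradiction. (iv) For `s ∈ I'`: `k_n s = ig (x t_n) (b t_n) (gr (x t') (b t') κ'_n)`, `t' = t_n + s e^{-b(t_n)}`, `κ'_n ∈ Q`, `= gr (..) (..) κ'_n` (group law), converges to `k s ≠ 0` (SNc); GLim: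
`k s = gr y' b' κ'` with `κ' ∈ Q`. So `CSol Q I' k x' b'`. -/
def St_G16 : Prop := ∀ (Ac : ℝ) (I : Set ℝ) (a : ℝ → K), Crit Ac I a →
  ∃ (Q : Set K) (I' : Set ℝ) (k : ℝ → K) (x : ℝ → E) (b : ℝ → ℝ), CSol Q I' k x b

end Pool.Agent.QWE
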