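import Pool.Agent.QWE.StA
import Pool.Agent.QWE.StG

set_option autoImplicit false

/-!
# QWE, G10: dispersion
-/

open MeasureTheory Filter Topology Set
open scoped ENNReal NNReal RealInnerProductSpace

namespace Pool.Agent.QWE

namespace G10x

/-- The `L^{10/3}` norm of a bounded function supported in a ball. -/
lemma norm_ball (h : E → ℝ) (R B : ℝ) (hR : 0 ≤ R) (h1 : ∀ x, |h x| ≤ B)
    (h2 : ∀ x, R < ‖x‖ → h x = 0) :
    eLpNorm h (10 / 3) volume ≤
      (ENNReal.ofReal (R ^ 5) * volume (Metric.ball (0 : E) 1)) ^ (3 / 10 : ℝ) *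
        ENNReal.ofReal B := by
  have e1 : h = (Metric.closedBall (0 : E) R).indicator h := by
    funext x
    by_cases hx : x ∈ Metric.closedBall (0 : E) R
    · rw [indicator_of_mem hx]
    · rw [indicator_of_notMem hx]
      apply h2
      rw [mem_closedBall_zero_iff, not_le] at hx
      exact hx
  rw [e1, eLpNorm_indicator_eq_eLpNorm_restrict measurableSet_closedBall]
  have e2 := eLpNorm_le_of_ae_bound (p := 10 / 3) (f := h) (C := B)
    (μ := volume.restrict (Metric.closedBall (0 : E) R)) (Eventually.of_forall h1)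
  refine e2.trans (le_of_eq ?_)
  rw [Measure.restrict_apply_univ, Measure.addHaar_closedBall _ _ hR]
  congr 2
  · simp
  · norm_num

lemma pd_zero {f : E → ℝ} {R : ℝ} (h : ∀ x, R < ‖x‖ → f x = 0) (i : Fin 5) (x : E)
    (hx : R < ‖x‖) : pd i f x = 0 := by
  have h1 : f =ᶠ[𝓝 x] fun _ => 0 := by
    have h2 : {y : E | R < ‖y‖} ∈ 𝓝 x :=
      (isOpen_lt continuous_const continuous_norm).mem_nhds hx
    filter_upwards [h2] with y hy
    exact h y hy
  unfold pd
  rw [h1.fderiv_eq]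
  simp

end G10x

open G10x in
theorem thm_G10 (hDecay : St_Decay) (hDens : St_Dens) (hLin : St_Lin) (hFld : St_Fld)
    (hGrp1 : St_Grp1) : St_G10 := by
  intro k kp hlim i
  obtain ⟨C, hC, hF⟩ := hFld
  obtain ⟨g1, g2, -⟩ := hGrp1
  rw [ENNReal.tendsto_nhds_zero]
  intro ε hε
  by_cases hεt : ε = ⊤
  · exact Eventually.of_forall fun t => by rw [hεt]; exact le_top
  obtain ⟨e, he⟩ : ∃ e, e = ε.toReal := ⟨_, rfl⟩
  have he0 : 0 < e := by rw [he]; exact ENNReal.toReal_pos hε.ne' hεt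
  have heε : ENNReal.ofReal e = ε := by rw [he]; exact ENNReal.ofReal_toReal hεt
  obtain ⟨f, g, hf, hg, hfg⟩ := hDens.2 kp (e / (4 * C)) (by positivity)
  obtain ⟨D, M0, hD, hM0, hdec⟩ := hDecay f g hf hg
  -- the limit of the main term
  obtain ⟨v, hv⟩ : ∃ v : ℝ, v = (volume (Metric.ball (0 : E) 1)).toReal := ⟨_, rfl⟩
  have hv' : volume (Metric.ball (0 : E) 1) = ENNReal.ofReal v := by
    rw [hv, ENNReal.ofReal_toReal measure_ball_lt_top.ne]
  have hv0 : 0 ≤ v := by rw [hv]; exact ENNReal.toReal_nonneg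
  have hmain : Tendsto (fun t : ℝ => (32 * v) ^ (3 / 10 : ℝ) * D * t ^ (-(1 / 2 : ℝ))) atTop
      (𝓝 0) := by
    have := (tendsto_rpow_neg_atTop (show (0 : ℝ) < 1 / 2 by norm_num)).const_mul
      ((32 * v) ^ (3 / 10 : ℝ) * D)
    rwa [mul_zero] at this
  have hev1 : ∀ᶠ t in atTop, (32 * v) ^ (3 / 10 : ℝ) * D * t ^ (-(1 / 2 : ℝ)) ≤ e / 2 :=
    (hmain.eventually_lt_const (by positivity : (0 : ℝ) < e / 2)).mono fun t ht => ht.le
  have hev2 : ∀ᶠ t in atTop, ‖tau (-t) (k t) - kp‖ < e / (4 * C) := by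
    have := Metric.tendsto_nhds.1 hlim (e / (4 * C)) (by positivity)
    refine this.mono fun t ht => ?_
    rwa [dist_eq_norm] at ht
  filter_upwards [hev1, hev2, eventually_ge_atTop M0] with t ht1 ht2 ht3
  have ht0 : 1 ≤ t := hM0.trans ht3
  have htp : 0 < t := by linarith
  obtain ⟨f', g', hf', hg', hfg', hsupp, hbd⟩ := hdec t
  obtain ⟨w, hw⟩ : ∃ w : K, w = k t - tau t (Theta f g) := ⟨_, rfl⟩
  have hkt : k t = tau t (Theta f g) + (1 : ℝ) • w := by
    rw [hw, one_smul]; abel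
  -- the error term
  have hwn : ‖w‖ ≤ e / (2 * C) := by
    have h1 : w = tau t (tau (-t) (k t) - Theta f g) := by
      rw [hw, map_sub, g1, add_neg_cancel, g2]
    rw [h1, LinearIsometry.norm_map]
    have h2 : tau (-t) (k t) - Theta f g = (tau (-t) (k t) - kp) + (kp - Theta f g) := by abel
    rw [h2]
    refine (norm_add_le _ _).trans ?_
    have h3 : e / (2 * C) = e / (4 * C) + e / (4 * C) := by field_simp; norm_num
    rw [h3]
    exact add_le_add ht2.le hfg.le
  have hwe : eLpNorm (DU w i) (10 / 3) volume ≤ ENNReal.ofReal (e / 2) := by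
    refine ((hF w).2.2.1 i).2.2.trans ?_
    rw [← ofReal_norm, ← ENNReal.ofReal_mul hC.le]
    apply ENNReal.ofReal_le_ofReal
    calc C * ‖w‖ ≤ C * (e / (2 * C)) := by gcongr
      _ = e / 2 := by field_simp
  -- the main term
  have hme : eLpNorm (DU (tau t (Theta f g)) i) (10 / 3) volume ≤ ENNReal.ofReal (e / 2) := by
    rw [hfg', eLpNorm_congr_ae ((hLin.2.1 f' g' hf' hg').2.2.1 i)]
    have hR : 0 ≤ |t| + M0 := by positivity
    have h1 := norm_ball (pd i f') (|t| + M0) (D / (1 + t ^ 2)) hR (fun x => (hbd x i i).2.1)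
      (fun x hx => pd_zero (fun y hy => (hsupp y (by
        rw [abs_of_nonneg (by linarith)]; linarith)).1) i x hx)
    refine h1.trans ?_
    rw [hv', ← ENNReal.ofReal_mul (by positivity), ENNReal.ofReal_rpow_of_nonneg (by positivity)
      (by norm_num), ← ENNReal.ofReal_mul (by positivity)]
    apply ENNReal.ofReal_le_ofReal
    refine le_trans ?_ ht1
    rw [abs_of_pos htp]
    have h2 : ((t + M0) ^ 5 * v) ^ (3 / 10 : ℝ) ≤ (32 * v) ^ (3 / 10 : ℝ) * t ^ (3 / 2 : ℝ) := by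
      have h3 : (t + M0) ^ 5 * v ≤ (32 * v) * t ^ 5 := by
        have h4 : (t + M0) ^ 5 ≤ (2 * t) ^ 5 := by gcongr; linarith
        have h5 : (t + M0) ^ 5 * v ≤ (2 * t) ^ 5 * v := mul_le_mul_of_nonneg_right h4 hv0
        refine h5.trans (le_of_eq ?_)
        ring
      calc ((t + M0) ^ 5 * v) ^ (3 / 10 : ℝ) ≤ ((32 * v) * t ^ 5) ^ (3 / 10 : ℝ) :=
            Real.rpow_le_rpow (by positivity) h3 (by norm_num)
        _ = (32 * v) ^ (3 / 10 : ℝ) * t ^ (3 / 2 : ℝ) := by
            rw [Real.mul_rpow (by positivity) (by positivity), ← Real.rpow_natCast t 5,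
              ← Real.rpow_mul htp.le]
            norm_num
    have h6 : D / (1 + t ^ 2) ≤ D * t ^ (-(2 : ℝ)) := by
      rw [Real.rpow_neg htp.le, Real.rpow_two, ← div_eq_mul_inv]
      gcongr
      linarith
    calc ((t + M0) ^ 5 * v) ^ (3 / 10 : ℝ) * (D / (1 + t ^ 2)) ≤
        ((32 * v) ^ (3 / 10 : ℝ) * t ^ (3 / 2 : ℝ)) * (D * t ^ (-(2 : ℝ))) := by gcongr
      _ = (32 * v) ^ (3 / 10 : ℝ) * D * (t ^ (3 / 2 : ℝ) * t ^ (-(2 : ℝ))) := by ring
      _ = (32 * v) ^ (3 / 10 : ℝ) * D * t ^ (-(1 / 2 : ℝ)) := by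
          rw [← Real.rpow_add htp]
          norm_num
  have hsum : eLpNorm (DU (k t) i) (10 / 3) volume ≤
      eLpNorm (DU (tau t (Theta f g)) i) (10 / 3) volume + eLpNorm (DU w i) (10 / 3) volume := by
    have h1 := (hLin.1 1 (tau t (Theta f g)) w).2.2.1 i
    rw [← hkt] at h1
    rw [eLpNorm_congr_ae h1]
    have h2 : (fun x => DU (tau t (Theta f g)) i x + 1 * DU w i x) =
        DU (tau t (Theta f g)) i + DU w i := by
      funext x; rw [one_mul]; rfl
    rw [h2]
    refine eLpNorm_add_le ((hF _).2.2.1 i).1.aestronglyMeasurable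
      ((hF _).2.2.1 i).1.aestronglyMeasurable ?_
    rw [ENNReal.le_div_iff_mul_le (by norm_num) (by norm_num)]
    norm_num
  rw [← heε]
  calc eLpNorm (DU (k t) i) (10 / 3) volume ≤ ENNReal.ofReal (e / 2) + ENNReal.ofReal (e / 2) :=
        hsum.trans (add_le_add hme hwe)
    _ = ENNReal.ofReal e := by
        rw [← ENNReal.ofReal_add (by positivity) (by positivity)]
        congr 1
        ring

end Pool.Agent.QWE
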