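import Pool.Agent.QWE.StA
import Pool.Agent.QWE.StG

/-!
# QWE, G11: the interaction vanishes
-/

set_option autoImplicit false

open MeasureTheory Filter Topology Set
open scoped ENNReal NNReal RealInnerProductSpace

namespace Pool.Agent.QWE

namespace G11x

lemma young (q s lam : ℝ≥0∞) (h0 : lam ≠ 0) (h1 : lam ≠ ⊤) :
    q * s ^ 3 ≤ lam⁻¹ ^ 3 * q ^ 4 + lam * s ^ 4 := by
  rcases le_total q (lam * s) with h | h
  · calc q * s ^ 3 ≤ lam * s * s ^ 3 := by gcongr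
      _ = lam * s ^ 4 := by ring
      _ ≤ _ := le_add_self
  · have h2 : s ≤ lam⁻¹ * q := by
      calc s = lam⁻¹ * (lam * s) := by rw [← mul_assoc, ENNReal.inv_mul_cancel h0 h1, one_mul]
        _ ≤ lam⁻¹ * q := by gcongr
    calc q * s ^ 3 ≤ q * (lam⁻¹ * q) ^ 3 := by gcongr
      _ = lam⁻¹ ^ 3 * q ^ 4 := by ring
      _ ≤ _ := le_self_add

lemma young1 (x y : ℝ≥0∞) : x * y ^ 3 ≤ x ^ 4 + y ^ 4 := by
  rcases le_total x y with h | h
  · calc x * y ^ 3 ≤ y * y ^ 3 := by gcongr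
      _ = y ^ 4 := by ring
      _ ≤ _ := le_add_self
  · calc x * y ^ 3 ≤ x * x ^ 3 := by gcongr
      _ = x ^ 4 := by ring
      _ ≤ _ := le_self_add

lemma sq_add (x y : ℝ≥0∞) : (x + y) ^ 2 ≤ 4 * (x ^ 2 + y ^ 2) := by
  rcases le_total x y with h | h
  · calc (x + y) ^ 2 ≤ (y + y) ^ 2 := by gcongr
      _ = 4 * y ^ 2 := by ring
      _ ≤ _ := by gcongr; exact le_add_self
  · calc (x + y) ^ 2 ≤ (x + x) ^ 2 := by gcongr
      _ = 4 * x ^ 2 := by ring
      _ ≤ _ := by gcongr; exact le_self_add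

lemma hol2 {μ : Measure ℝ} {f g : ℝ → ℝ≥0∞} (hf : AEMeasurable f μ) (hg : AEMeasurable g μ) :
    ∫⁻ t, f t * g t ∂μ ≤
      (∫⁻ t, f t ^ 2 ∂μ) ^ (1 / 2 : ℝ) * (∫⁻ t, g t ^ 2 ∂μ) ^ (1 / 2 : ℝ) := by
  have h := ENNReal.lintegral_mul_le_Lp_mul_Lq μ Real.HolderConjugate.two_two hf hg
  simpa only [Pi.mul_apply, ENNReal.rpow_two] using h

lemma hol3 {μ : Measure ℝ} {f : ℝ → ℝ≥0∞} (hf : AEMeasurable f μ) :
    ∫⁻ t, f t ^ 2 ∂μ ≤ (∫⁻ t, f t ^ 3 ∂μ) ^ (2 / 3 : ℝ) * μ univ ^ (1 / 3 : ℝ) := by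
  have hpq : (3 / 2 : ℝ).HolderConjugate 3 := by
    rw [Real.holderConjugate_iff]
    norm_num
  have h := ENNReal.lintegral_mul_le_Lp_mul_Lq μ hpq (hf.pow_const 2)
    (aemeasurable_const (b := (1 : ℝ≥0∞)))
  have e : ∀ t, (f t ^ 2) ^ (3 / 2 : ℝ) = f t ^ 3 := by
    intro t
    rw [← ENNReal.rpow_natCast, ← ENNReal.rpow_mul, ← ENNReal.rpow_natCast]
    norm_num
  simp only [Pi.mul_apply, mul_one, e, ENNReal.one_rpow, lintegral_one] at h
  refine h.trans (le_of_eq ?_)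
  norm_num

/-- the estimate on a set of times, abstract form -/
lemma part1 {μ : Measure ℝ} {W s s' q p : ℝ → ℝ≥0∞} {d : Fin 5 → ℝ → ℝ≥0∞}
    {C A A' Cm ε ε' lam S M : ℝ≥0∞} (hs : AEMeasurable s μ) (hs' : AEMeasurable s' μ)
    (hp : AEMeasurable p μ) (hd : ∀ i, AEMeasurable (d i) μ)
    (hS : ∫⁻ t, s t ^ 4 ∂μ ≤ S) (hM : ∫⁻ t, s' t ^ 4 ∂μ ≤ M) (hq : ∫⁻ t, q t ^ 4 ∂μ ≤ ε')
    (hC : C ≠ ⊤) (hA : A ≠ ⊤) (hl0 : lam ≠ 0) (hl1 : lam ≠ ⊤)
    (hW : ∀ᵐ t ∂μ, W t ≤ C * (ε * (s' t * s t ^ 3 + s' t ^ 4) + (q t ^ 4 + q t * s' t ^ 3) * A) +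
      Cm * (p t * (s t ^ 2 * A' + s' t ^ 2 * A) + ∑ i, d i t)) :
    ∫⁻ t, W t ∂μ ≤ C * (ε * (S + 2 * M) + A * (ε' + lam⁻¹ ^ 3 * ε' + lam * M)) +
      Cm * ((∫⁻ t, p t ^ 2 ∂μ) ^ (1 / 2 : ℝ) * (4 * (A' ^ 2 * S + A ^ 2 * M)) ^ (1 / 2 : ℝ) +
        ∑ i, (∫⁻ t, d i t ^ 2 ∂μ) ^ (1 / 2 : ℝ) * μ univ ^ (1 / 2 : ℝ)) := by
  have hc : C * A * (1 + lam⁻¹ ^ 3) ≠ ⊤ := by
    refine ENNReal.mul_ne_top (ENNReal.mul_ne_top hC hA) (ENNReal.add_ne_top.2 ⟨ENNReal.one_ne_top, ?_⟩)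
    exact ENNReal.pow_ne_top (ENNReal.inv_ne_top.2 hl0)
  -- the measurable part
  have hs4 : AEMeasurable (fun t => s t ^ 4) μ := hs.pow_const 4
  have hs'4 : AEMeasurable (fun t => s' t ^ 4) μ := hs'.pow_const 4
  have hs2 : AEMeasurable (fun t => s t ^ 2) μ := hs.pow_const 2
  have hs'2 : AEMeasurable (fun t => s' t ^ 2) μ := hs'.pow_const 2
  have hX : AEMeasurable (fun t => s t ^ 4 + 2 * s' t ^ 4) μ := hs4.add (hs'4.const_mul 2)
  have hY : AEMeasurable (fun t => s t ^ 2 * A' + s' t ^ 2 * A) μ :=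
    (hs2.mul_const A').add (hs'2.mul_const A)
  have hD : AEMeasurable (fun t => ∑ i, d i t) μ := Finset.aemeasurable_fun_sum _ fun i _ => hd i
  have hP : AEMeasurable (fun t => p t * (s t ^ 2 * A' + s' t ^ 2 * A)) μ := hp.mul hY
  have hX2 : AEMeasurable (fun t => ε * (s t ^ 4 + 2 * s' t ^ 4) + A * lam * s' t ^ 4) μ :=
    (hX.const_mul ε).add (hs'4.const_mul (A * lam))
  have hG1 : AEMeasurable (fun t => C * (ε * (s t ^ 4 + 2 * s' t ^ 4) + A * lam * s' t ^ 4)) μ :=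
    hX2.const_mul C
  have hPD : AEMeasurable (fun t => p t * (s t ^ 2 * A' + s' t ^ 2 * A) + ∑ i, d i t) μ :=
    hP.add hD
  have hG2 : AEMeasurable (fun t => Cm * (p t * (s t ^ 2 * A' + s' t ^ 2 * A) + ∑ i, d i t)) μ :=
    hPD.const_mul Cm
  have hG : AEMeasurable (fun t => C * (ε * (s t ^ 4 + 2 * s' t ^ 4) + A * lam * s' t ^ 4) +
      Cm * (p t * (s t ^ 2 * A' + s' t ^ 2 * A) + ∑ i, d i t)) μ := hG1.add hG2
  have h1 : ∫⁻ t, W t ∂μ ≤ ∫⁻ t, (C * A * (1 + lam⁻¹ ^ 3) * q t ^ 4 +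
      (C * (ε * (s t ^ 4 + 2 * s' t ^ 4) + A * lam * s' t ^ 4) +
        Cm * (p t * (s t ^ 2 * A' + s' t ^ 2 * A) + ∑ i, d i t))) ∂μ := by
    refine lintegral_mono_ae ?_
    filter_upwards [hW] with t ht
    refine ht.trans ?_
    rw [← add_assoc]
    refine add_le_add ?_ le_rfl
    have h2 := young1 (s' t) (s t)
    have h3 := young (q t) (s' t) lam hl0 hl1
    calc C * (ε * (s' t * s t ^ 3 + s' t ^ 4) + (q t ^ 4 + q t * s' t ^ 3) * A) ≤
        C * (ε * (s' t ^ 4 + s t ^ 4 + s' t ^ 4) +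
          (q t ^ 4 + (lam⁻¹ ^ 3 * q t ^ 4 + lam * s' t ^ 4)) * A) := by gcongr
      _ = _ := by ring
  refine h1.trans ?_
  rw [lintegral_add_right' _ hG, lintegral_const_mul' _ _ hc, lintegral_add_left' hG1,
    lintegral_const_mul'' C hX2, lintegral_add_left' (hX.const_mul ε), lintegral_const_mul'' ε hX,
    lintegral_const_mul'' (A * lam) hs'4, lintegral_add_left' hs4,
    lintegral_const_mul'' 2 hs'4, lintegral_const_mul'' Cm hPD, lintegral_add_left' hP,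
    lintegral_finsetSum' _ fun i _ => hd i]
  have hP2 : ∫⁻ t, p t * (s t ^ 2 * A' + s' t ^ 2 * A) ∂μ ≤
      (∫⁻ t, p t ^ 2 ∂μ) ^ (1 / 2 : ℝ) * (4 * (A' ^ 2 * S + A ^ 2 * M)) ^ (1 / 2 : ℝ) := by
    refine (hol2 hp hY).trans ?_
    gcongr
    calc ∫⁻ t, (s t ^ 2 * A' + s' t ^ 2 * A) ^ 2 ∂μ ≤
        ∫⁻ t, 4 * (A' ^ 2 * s t ^ 4 + A ^ 2 * s' t ^ 4) ∂μ := by
          refine lintegral_mono fun t => ?_
          refine (sq_add _ _).trans (le_of_eq ?_)
          ring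
      _ = 4 * (A' ^ 2 * ∫⁻ t, s t ^ 4 ∂μ + A ^ 2 * ∫⁻ t, s' t ^ 4 ∂μ) := by
          have hZ : AEMeasurable (fun t => A' ^ 2 * s t ^ 4 + A ^ 2 * s' t ^ 4) μ :=
            (hs4.const_mul _).add (hs'4.const_mul _)
          rw [lintegral_const_mul'' 4 hZ,
            lintegral_add_left' (hs4.const_mul _), lintegral_const_mul'' _ hs4,
            lintegral_const_mul'' _ hs'4]
      _ ≤ _ := by gcongr
  have hD2 : ∑ i, ∫⁻ t, d i t ∂μ ≤
      ∑ i, (∫⁻ t, d i t ^ 2 ∂μ) ^ (1 / 2 : ℝ) * μ univ ^ (1 / 2 : ℝ) := by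
    refine Finset.sum_le_sum fun i _ => ?_
    have h2 := hol2 (hd i) (aemeasurable_const (b := (1 : ℝ≥0∞)))
    simpa only [mul_one, one_pow, lintegral_one] using h2
  calc C * A * (1 + lam⁻¹ ^ 3) * ∫⁻ t, q t ^ 4 ∂μ +
      (C * (ε * (∫⁻ t, s t ^ 4 ∂μ + 2 * ∫⁻ t, s' t ^ 4 ∂μ) + A * lam * ∫⁻ t, s' t ^ 4 ∂μ) +
        Cm * (∫⁻ t, p t * (s t ^ 2 * A' + s' t ^ 2 * A) ∂μ + ∑ i, ∫⁻ t, d i t ∂μ)) ≤
      C * A * (1 + lam⁻¹ ^ 3) * ε' + (C * (ε * (S + 2 * M) + A * lam * M) +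
        Cm * ((∫⁻ t, p t ^ 2 ∂μ) ^ (1 / 2 : ℝ) * (4 * (A' ^ 2 * S + A ^ 2 * M)) ^ (1 / 2 : ℝ) +
        ∑ i, (∫⁻ t, d i t ^ 2 ∂μ) ^ (1 / 2 : ℝ) * μ univ ^ (1 / 2 : ℝ))) := by gcongr
    _ = _ := by ring

/-- local `L²` norm of the gradient as a function of the state -/
lemma cont_DU (hF : St_Fld) (hL : St_Lin) (m : ℝ) (i : Fin 5) :
    Continuous fun k : K => eLpNorm ((Metric.ball (0 : E) m).indicator (DU k i)) 2 volume := by
  obtain ⟨C, -, hC⟩ := hF
  have hfin : volume (Metric.ball (0 : E) m) ≠ ⊤ := measure_ball_lt_top.ne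
  obtain ⟨c, hc⟩ : ∃ c : ℝ≥0∞, c = volume (Metric.ball (0 : E) m) ^ (1 / (2 : ℝ≥0∞).toReal -
    1 / (10 / 3 : ℝ≥0∞).toReal) := ⟨_, rfl⟩
  have h103 : (10 / 3 : ℝ≥0∞).toReal = 10 / 3 := by simp
  have hc1 : c ≠ ⊤ := by
    rw [hc]
    refine ENNReal.rpow_ne_top_of_nonneg ?_ hfin
    rw [h103]
    norm_num
  have hle : (2 : ℝ≥0∞) ≤ 10 / 3 := by
    rw [ENNReal.le_div_iff_mul_le (Or.inl (by norm_num)) (Or.inl (by norm_num))]
    norm_num
  have hb : ∀ k : K, eLpNorm ((Metric.ball (0 : E) m).indicator (DU k i)) 2 volume ≤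
      ENNReal.ofReal C * c * ‖k‖ₑ := by
    intro k
    have h1 := ((hC k).2.2.1 i).1.1
    have h2 := ((hC k).2.2.1 i).2.2
    rw [eLpNorm_indicator_eq_eLpNorm_restrict measurableSet_ball]
    refine (eLpNorm_le_eLpNorm_mul_rpow_measure_univ hle h1.restrict).trans ?_
    rw [Measure.restrict_apply_univ, ← hc]
    calc eLpNorm (DU k i) (10 / 3) (volume.restrict (Metric.ball 0 m)) * c ≤
        (ENNReal.ofReal C * ‖k‖ₑ) * c := by
          gcongr
          exact (eLpNorm_mono_measure _ Measure.restrict_le_self).trans h2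
      _ = _ := by ring
  refine continuous_of_le_add_edist (ENNReal.ofReal C * c)
    (ENNReal.mul_ne_top ENNReal.ofReal_ne_top hc1) ?_
  intro k k'
  have h1 := (hL.1 1 k' (k - k')).2.2.1 i
  rw [one_smul, add_sub_cancel] at h1
  have h2 : (Metric.ball (0 : E) m).indicator (DU k i) =ᵐ[volume]
      (Metric.ball (0 : E) m).indicator (DU k' i) +
        (Metric.ball (0 : E) m).indicator (DU (k - k') i) := by
    filter_upwards [h1] with x hx
    by_cases hxm : x ∈ Metric.ball (0 : E) m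
    · simp only [Pi.add_apply, indicator_of_mem hxm, hx, one_mul]
    · simp only [Pi.add_apply, indicator_of_notMem hxm, add_zero]
  rw [eLpNorm_congr_ae h2]
  refine (eLpNorm_add_le (((hC k').2.2.1 i).1.1.indicator measurableSet_ball)
    (((hC (k - k')).2.2.1 i).1.1.indicator measurableSet_ball) (by norm_num)).trans ?_
  refine add_le_add le_rfl ((hb (k - k')).trans (le_of_eq ?_))
  rw [edist_eq_enorm_sub]

lemma qm_zero (k : K) : qm 0 k = 2 * sn k := by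
  unfold qm sn
  have h1 : eLpNorm (fun x => max 0 (|U k x| - 0)) 20 volume = eLpNorm (U k) 20 volume := by
    refine eLpNorm_congr_norm_ae (Eventually.of_forall fun x => ?_)
    rw [sub_zero, max_eq_right (abs_nonneg _), Real.norm_eq_abs, Real.norm_eq_abs, abs_abs]
  rw [h1, Metric.ball_zero, compl_empty, indicator_univ]
  ring

/-- basic facts on `SN` and finiteness -/
lemma meas_sn (hMe : St_Meas) {k : ℝ → K} {J : Set ℝ} (hJ : MeasurableSet J)
    (hk : ContinuousOn k J) : AEMeasurable (fun t => sn (k t)) (volume.restrict J) := by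
  have h := (hMe k J hJ (hk.aestronglyMeasurable hJ)).1 20 univ (by norm_num) MeasurableSet.univ
  simp only [indicator_univ] at h
  exact h

lemma fin_sn (hMe : St_Meas) {k : ℝ → K} {J : Set ℝ} (hJ : MeasurableSet J)
    (hk : ContinuousOn k J) (h : SN J k < ⊤) : ∀ᵐ t ∂(volume.restrict J), sn (k t) < ⊤ := by
  have h1 := ae_lt_top' ((meas_sn hMe hJ hk).pow_const 4) h.ne
  filter_upwards [h1] with t ht
  by_contra hcon
  rw [not_lt, top_le_iff] at hcon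
  rw [hcon, ENNReal.top_pow (by norm_num)] at ht
  exact lt_irrefl _ ht

lemma tendsto_rpow_zero {f : ℕ → ℝ≥0∞} {y : ℝ} (hy : 0 < y) (h : Tendsto f atTop (𝓝 0)) :
    Tendsto (fun n => f n ^ y) atTop (𝓝 0) := by
  have h1 := ((ENNReal.continuous_rpow_const (y := y)).tendsto 0).comp h
  rw [ENNReal.zero_rpow_of_pos hy] at h1
  exact h1

lemma ball_zero_ind (f : E → ℝ) (p : ℝ≥0∞) :
    eLpNorm ((Metric.ball (0 : E) 0).indicator f) p volume = 0 := by
  rw [Metric.ball_zero, indicator_empty, eLpNorm_zero']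

end G11x

open G11x in
theorem thm_G11 (hApx : St_Apx) (hInt : St_Int1) (hG9 : St_G9) (hGr : St_Gron) (hMe : St_Meas)
    (hF : St_Fld) (hL : St_Lin) : St_G11 := by
  intro A M J a T β hJa hβ hTJ
  have hJa' := hJa
  obtain ⟨hJ, hsol, hSJ⟩ := hJa
  have hβ1 := hβ.1
  have h0J : (0 : ℝ) ∈ J := by
    rcases hJ with rfl | ⟨Ts, hTs, rfl⟩
    · exact mem_Ici.2 le_rfl
    · exact ⟨le_rfl, hTs⟩
  have hsub : ∀ n, Icc 0 (T n) ⊆ J := fun n => hsol.1.out h0J (hTJ n)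
  obtain ⟨Cg, -, hg⟩ := hGr
  obtain ⟨A', hA'⟩ : ∃ A', A' = ‖a 0‖ * Real.exp (Cg * (SN J a).toReal) := ⟨_, rfl⟩
  have hA'b : ∀ t ∈ J, ‖a t‖ ≤ A' := fun t ht => hA' ▸ hg J a hsol hSJ 0 h0J t ht
  obtain ⟨C, hC, hC1⟩ := hInt
  obtain ⟨C0, hC0, hC01⟩ := hC1 0 le_rfl
  obtain ⟨S, hS⟩ : ∃ S, S = SN J a := ⟨_, rfl⟩
  -- enorm bounds
  have hen : ∀ {x : K} {B : ℝ}, ‖x‖ ≤ B → ‖x‖ₑ ≤ ENNReal.ofReal B := by
    intro x B hx
    rw [← ofReal_norm]
    exact ENNReal.ofReal_le_ofReal hx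
  -- the main estimate
  obtain ⟨Kc, hKc⟩ : ∃ Kc : ℝ≥0∞, Kc = ENNReal.ofReal C * ((S + 2 * ENNReal.ofReal M) +
      ENNReal.ofReal A * (2 + ENNReal.ofReal M)) + ENNReal.ofReal C * ((S + 2 * ENNReal.ofReal M) +
      ENNReal.ofReal A * (32 + ENNReal.ofReal M)) := ⟨_, rfl⟩
  have hKcT : Kc ≠ ⊤ := by
    rw [hKc, hS]
    have h1 : SN J a + 2 * ENNReal.ofReal M ≠ ⊤ := ENNReal.add_ne_top.2 ⟨hSJ.ne,
      ENNReal.mul_ne_top (by norm_num) ENNReal.ofReal_ne_top⟩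
    refine ENNReal.add_ne_top.2 ⟨ENNReal.mul_ne_top ENNReal.ofReal_ne_top
      (ENNReal.add_ne_top.2 ⟨h1, ?_⟩), ENNReal.mul_ne_top ENNReal.ofReal_ne_top
      (ENNReal.add_ne_top.2 ⟨h1, ?_⟩)⟩ <;>
    exact ENNReal.mul_ne_top ENNReal.ofReal_ne_top
      (ENNReal.add_ne_top.2 ⟨by norm_num, ENNReal.ofReal_ne_top⟩)
  have key : ∀ lam : ℝ, 0 < lam → lam ≤ 1 → ∃ r : ℕ → ℝ≥0∞, Tendsto r atTop (𝓝 0) ∧ ∀ n,
      ∫⁻ t in Icc 0 (T n), ‖NL (a t + β n t) - NL (a t) - NL (β n t)‖ₑ ≤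
        Kc * ENNReal.ofReal lam + r n := by
    intro lam hlam0 hlam1
    obtain ⟨m, hm, hap1, hap2, hap3⟩ := hApx J a hJa' (lam ^ 4) (by positivity)
    obtain ⟨Cm, hCm, hCm1⟩ := hC1 m hm
    obtain ⟨hp3, hd2⟩ := hG9 A M T β m hβ hm
    obtain ⟨L, hLdef⟩ : ∃ L, L = ENNReal.ofReal lam := ⟨_, rfl⟩
    have hL0 : L ≠ 0 := by
      rw [hLdef, Ne, ENNReal.ofReal_eq_zero, not_le]
      exact hlam0
    have hLT : L ≠ ⊤ := hLdef ▸ ENNReal.ofReal_ne_top
    have hL1 : L ≤ 1 := by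
      rw [hLdef]
      exact ENNReal.ofReal_le_one.2 hlam1
    have hε : ENNReal.ofReal (lam ^ 4) = L ^ 4 := by
      rw [hLdef, ENNReal.ofReal_pow hlam0.le]
    rw [hε] at hap3
    have hL4 : L ^ 4 ≤ L := by
      calc L ^ 4 = L * L ^ 3 := by ring
        _ ≤ L * 1 := by
            gcongr
            exact pow_le_one' hL1 3
        _ = L := mul_one L
    have hL34 : L⁻¹ ^ 3 * L ^ 4 = L := by
      calc L⁻¹ ^ 3 * L ^ 4 = (L⁻¹ * L) ^ 3 * L := by ring
        _ = L := by rw [ENNReal.inv_mul_cancel hL0 hLT, one_pow, one_mul]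
    obtain ⟨c, hc⟩ : ∃ c : ℝ≥0∞, c = (4 * (ENNReal.ofReal A' ^ 2 * S +
      ENNReal.ofReal A ^ 2 * ENNReal.ofReal M)) ^ (1 / 2 : ℝ) := ⟨_, rfl⟩
    have hcT : c ≠ ⊤ := by
      rw [hc, hS]
      refine ENNReal.rpow_ne_top_of_nonneg (by norm_num) (ENNReal.mul_ne_top (by norm_num)
        (ENNReal.add_ne_top.2 ⟨?_, ?_⟩))
      · exact ENNReal.mul_ne_top (ENNReal.pow_ne_top ENNReal.ofReal_ne_top) hSJ.ne
      · exact ENNReal.mul_ne_top (ENNReal.pow_ne_top ENNReal.ofReal_ne_top) ENNReal.ofReal_ne_top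
    refine ⟨fun n => ENNReal.ofReal Cm * (((∫⁻ t in Icc 0 (min m (T n)),
        eLpNorm ((Metric.ball (0 : E) m).indicator (U (β n t))) 15 volume ^ 3) ^ (2 / 3 : ℝ) *
          ENNReal.ofReal m ^ (1 / 3 : ℝ)) ^ (1 / 2 : ℝ) * c +
        ∑ i, (∫⁻ t in Icc 0 (min m (T n)),
          eLpNorm ((Metric.ball (0 : E) m).indicator (DU (β n t) i)) 2 volume ^ 2) ^ (1 / 2 : ℝ) *
            ENNReal.ofReal m ^ (1 / 2 : ℝ)), ?_, ?_⟩
    · have hmT : ∀ y : ℝ, 0 ≤ y → ENNReal.ofReal m ^ y ≠ ⊤ := fun y hy =>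
        ENNReal.rpow_ne_top_of_nonneg hy ENNReal.ofReal_ne_top
      have t1 := tendsto_rpow_zero (y := 2 / 3) (by norm_num) hp3
      have t2 := ENNReal.Tendsto.mul_const (b := ENNReal.ofReal m ^ (1 / 3 : ℝ)) t1
        (Or.inr (hmT _ (by norm_num)))
      rw [zero_mul] at t2
      have t3 := tendsto_rpow_zero (y := 1 / 2) (by norm_num) t2
      have t4 := ENNReal.Tendsto.mul_const (b := c) t3 (Or.inr hcT)
      rw [zero_mul] at t4
      have t5 : Tendsto (fun n => ∑ i, (∫⁻ t in Icc 0 (min m (T n)),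
          eLpNorm ((Metric.ball (0 : E) m).indicator (DU (β n t) i)) 2 volume ^ 2) ^ (1 / 2 : ℝ) *
            ENNReal.ofReal m ^ (1 / 2 : ℝ)) atTop (𝓝 (∑ _i : Fin 5, 0)) := by
        refine tendsto_finsetSum _ fun i _ => ?_
        have t6 := ENNReal.Tendsto.mul_const (b := ENNReal.ofReal m ^ (1 / 2 : ℝ))
          (tendsto_rpow_zero (y := 1 / 2) (by norm_num) (hd2 i)) (Or.inr (hmT _ (by norm_num)))
        rw [zero_mul] at t6
        exact t6
      rw [Finset.sum_const_zero] at t5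
      have t7 := t4.add t5
      rw [add_zero] at t7
      have t8 := ENNReal.Tendsto.const_mul (a := ENNReal.ofReal Cm) t7
        (Or.inr ENNReal.ofReal_ne_top)
      rw [mul_zero] at t8
      exact t8
    · intro n
      obtain ⟨hTn, hβs, hβA, hβM⟩ := hβ1 n
      -- measurable sets
      have hI1 : Icc 0 (min m (T n)) ⊆ Icc 0 (T n) := Icc_subset_Icc_right (min_le_right _ _)
      have hI2 : Icc 0 (T n) ∩ Ioi m ⊆ Icc 0 (T n) := inter_subset_left
      have hm1 : MeasurableSet (Icc 0 (min m (T n))) := measurableSet_Icc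
      have hm2 : MeasurableSet (Icc 0 (T n) ∩ Ioi m) := measurableSet_Icc.inter measurableSet_Ioi
      have hac : ContinuousOn a (Icc 0 (T n)) := hsol.2.1.mono (hsub n)
      have hbc : ContinuousOn (β n) (Icc 0 (T n)) := hβs.2.1
      have hcov : Icc 0 (T n) ⊆ Icc 0 (min m (T n)) ∪ (Icc 0 (T n) ∩ Ioi m) := by
        intro t ht
        rcases le_or_gt t m with h | h
        · exact Or.inl ⟨ht.1, le_min h ht.2⟩
        · exact Or.inr ⟨ht, h⟩
      have hmono : ∀ {s t : Set ℝ} (k : ℝ → K), s ⊆ t → SN s k ≤ SN t k := fun k h =>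
        lintegral_mono_set h
      have hSa : ∀ I : Set ℝ, I ⊆ Icc 0 (T n) → SN I a ≤ S := fun I h =>
        hS ▸ hmono a (h.trans (hsub n))
      have hSb : ∀ I : Set ℝ, I ⊆ Icc 0 (T n) → SN I (β n) ≤ ENNReal.ofReal M := fun I h =>
        (hmono (β n) h).trans hβM
      have hfa : ∀ I : Set ℝ, MeasurableSet I → I ⊆ Icc 0 (T n) →
          ∀ᵐ t ∂(volume.restrict I), sn (a t) < ⊤ := fun I h h' =>
        fin_sn hMe h (hac.mono h') ((hmono a (h'.trans (hsub n))).trans_lt hSJ)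
      have hfb : ∀ I : Set ℝ, MeasurableSet I → I ⊆ Icc 0 (T n) →
          ∀ᵐ t ∂(volume.restrict I), sn (β n t) < ⊤ := fun I h h' =>
        fin_sn hMe h (hbc.mono h') ((hSb I h').trans_lt ENNReal.ofReal_lt_top)
      have hpm : AEMeasurable (fun t => eLpNorm ((Metric.ball (0 : E) m).indicator (U (β n t))) 15
          volume) (volume.restrict (Icc 0 (min m (T n)))) :=
        (hMe (β n) _ hm1 ((hbc.mono hI1).aestronglyMeasurable hm1)).1 15 _ (by norm_num)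
          measurableSet_ball
      have hdm : ∀ i, AEMeasurable (fun t => eLpNorm ((Metric.ball (0 : E) m).indicator
          (DU (β n t) i)) 2 volume) (volume.restrict (Icc 0 (min m (T n)))) := fun i =>
        ((cont_DU hF hL m i).comp_continuousOn (hbc.mono hI1)).aemeasurable hm1
      -- first part
      have e1 := part1 (μ := volume.restrict (Icc 0 (min m (T n))))
        (W := fun t => ‖NL (a t + β n t) - NL (a t) - NL (β n t)‖ₑ)
        (s := fun t => sn (a t)) (s' := fun t => sn (β n t)) (q := fun t => qm m (a t))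
        (p := fun t => eLpNorm ((Metric.ball (0 : E) m).indicator (U (β n t))) 15 volume)
        (d := fun i t => eLpNorm ((Metric.ball (0 : E) m).indicator (DU (β n t) i)) 2 volume)
        (C := ENNReal.ofReal C) (A := ENNReal.ofReal A) (A' := ENNReal.ofReal A')
        (Cm := ENNReal.ofReal Cm) (ε := L ^ 4) (ε' := L ^ 4) (lam := L) (S := S)
        (M := ENNReal.ofReal M) (meas_sn hMe hm1 (hac.mono hI1)) (meas_sn hMe hm1 (hbc.mono hI1))
        hpm hdm (hSa _ hI1) (hSb _ hI1) ?_ ENNReal.ofReal_ne_top ENNReal.ofReal_ne_top hL0 hLT ?_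
      rotate_left
      · refine le_trans ?_ (le_self_add.trans hap3)
        exact lintegral_mono_set fun t ht => ⟨hsub n (hI1 ht), ht.2.trans (min_le_left _ _)⟩
      · filter_upwards [hfa _ hm1 hI1, hfb _ hm1 hI1, ae_restrict_mem hm1] with t hta htb ht
        obtain ⟨H, hH1, hH2, hH3, hH4⟩ := hap1 t (hsub n (hI1 ht)) (ht.2.trans (min_le_left _ _))
        have h1 := hCm1 (a t) (β n t) H (ENNReal.ofReal (lam ^ 4)) hta htb hH1 hH2 hH3 hH4
        rw [hε] at h1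
        refine h1.trans ?_
        have h2 := hen (hA'b t (hsub n (hI1 ht)))
        have h3 := hen (hβA t (hI1 ht))
        gcongr
      -- second part
      have e2 := part1 (μ := volume.restrict (Icc 0 (T n) ∩ Ioi m))
        (W := fun t => ‖NL (a t + β n t) - NL (a t) - NL (β n t)‖ₑ)
        (s := fun t => sn (a t)) (s' := fun t => sn (β n t)) (q := fun t => 2 * sn (a t))
        (p := fun _ => 0) (d := fun _ _ => 0)
        (C := ENNReal.ofReal C) (A := ENNReal.ofReal A) (A' := ENNReal.ofReal A')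
        (Cm := 0) (ε := L ^ 4) (ε' := 16 * L ^ 4) (lam := L) (S := S)
        (M := ENNReal.ofReal M) (meas_sn hMe hm2 (hac.mono hI2)) (meas_sn hMe hm2 (hbc.mono hI2))
        aemeasurable_const (fun _ => aemeasurable_const) (hSa _ hI2) (hSb _ hI2) ?_
        ENNReal.ofReal_ne_top ENNReal.ofReal_ne_top hL0 hLT ?_
      rotate_left
      · have h1 : ∀ t, (2 * sn (a t)) ^ 4 = 16 * sn (a t) ^ 4 := fun t => by ring
        simp only [h1]
        rw [lintegral_const_mul' _ _ (by norm_num)]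
        gcongr
        refine le_trans ?_ (le_add_self.trans hap3)
        exact lintegral_mono_set fun t ht => ⟨hsub n ht.1, ht.2⟩
      · filter_upwards [hfa _ hm2 hI2, hfb _ hm2 hI2, ae_restrict_mem hm2] with t hta htb ht
        have h0 := hap2 t (hsub n ht.1) ht.2
        have h1 := hC01 (a t) (β n t) (fun _ _ => 0) (ENNReal.ofReal (lam ^ 4)) hta htb
          (fun _ => measurable_const) (fun _ _ => by simp) (fun _ _ _ => rfl)
          (fun i => by simpa only [sub_zero] using h0 i)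
        rw [hε, qm_zero] at h1
        simp only [ball_zero_ind, zero_mul, Finset.sum_const_zero, add_zero, mul_zero] at h1
        rw [zero_mul, add_zero]
        refine h1.trans ?_
        have h3 := hen (hβA t ht.1)
        gcongr
      -- conclusion
      refine (lintegral_mono_set hcov).trans ((lintegral_union_le _ _ _).trans ?_)
      refine (add_le_add e1 e2).trans ?_
      rw [zero_mul, add_zero, hL34]
      have hL34' : L⁻¹ ^ 3 * (16 * L ^ 4) = 16 * L := by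
        rw [mul_left_comm, hL34]
      rw [hL34', ← hLdef, ← hc]
      have hvol : (volume.restrict (Icc 0 (min m (T n)))) univ ≤ ENNReal.ofReal m := by
        rw [Measure.restrict_apply_univ, Real.volume_Icc]
        refine ENNReal.ofReal_le_ofReal ?_
        rw [sub_zero]
        exact min_le_left _ _
      have hp2 : (∫⁻ t in Icc 0 (min m (T n)),
          eLpNorm ((Metric.ball (0 : E) m).indicator (U (β n t))) 15 volume ^ 2) ≤
          (∫⁻ t in Icc 0 (min m (T n)),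
          eLpNorm ((Metric.ball (0 : E) m).indicator (U (β n t))) 15 volume ^ 3) ^ (2 / 3 : ℝ) *
          ENNReal.ofReal m ^ (1 / 3 : ℝ) := by
        refine (hol3 hpm).trans ?_
        gcongr
      have hr : ENNReal.ofReal Cm * ((∫⁻ t in Icc 0 (min m (T n)),
          eLpNorm ((Metric.ball (0 : E) m).indicator (U (β n t))) 15 volume ^ 2) ^ (1 / 2 : ℝ) * c +
          ∑ i, (∫⁻ t in Icc 0 (min m (T n)),
            eLpNorm ((Metric.ball (0 : E) m).indicator (DU (β n t) i)) 2 volume ^ 2) ^ (1 / 2 : ℝ) *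
            (volume.restrict (Icc 0 (min m (T n)))) univ ^ (1 / 2 : ℝ)) ≤
          ENNReal.ofReal Cm * (((∫⁻ t in Icc 0 (min m (T n)),
          eLpNorm ((Metric.ball (0 : E) m).indicator (U (β n t))) 15 volume ^ 3) ^ (2 / 3 : ℝ) *
          ENNReal.ofReal m ^ (1 / 3 : ℝ)) ^ (1 / 2 : ℝ) * c +
        ∑ i, (∫⁻ t in Icc 0 (min m (T n)),
          eLpNorm ((Metric.ball (0 : E) m).indicator (DU (β n t) i)) 2 volume ^ 2) ^ (1 / 2 : ℝ) *
            ENNReal.ofReal m ^ (1 / 2 : ℝ)) := by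
        gcongr
      have hA1 : ENNReal.ofReal C * (L ^ 4 * (S + 2 * ENNReal.ofReal M) +
          ENNReal.ofReal A * (L ^ 4 + L + L * ENNReal.ofReal M)) ≤
          ENNReal.ofReal C * ((S + 2 * ENNReal.ofReal M) +
            ENNReal.ofReal A * (2 + ENNReal.ofReal M)) * L := by
        calc ENNReal.ofReal C * (L ^ 4 * (S + 2 * ENNReal.ofReal M) +
          ENNReal.ofReal A * (L ^ 4 + L + L * ENNReal.ofReal M)) ≤
          ENNReal.ofReal C * (L * (S + 2 * ENNReal.ofReal M) +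
          ENNReal.ofReal A * (L + L + L * ENNReal.ofReal M)) := by gcongr
          _ = _ := by ring
      have hA2 : ENNReal.ofReal C * (L ^ 4 * (S + 2 * ENNReal.ofReal M) +
          ENNReal.ofReal A * (16 * L ^ 4 + 16 * L + L * ENNReal.ofReal M)) ≤
          ENNReal.ofReal C * ((S + 2 * ENNReal.ofReal M) +
            ENNReal.ofReal A * (32 + ENNReal.ofReal M)) * L := by
        calc ENNReal.ofReal C * (L ^ 4 * (S + 2 * ENNReal.ofReal M) +
          ENNReal.ofReal A * (16 * L ^ 4 + 16 * L + L * ENNReal.ofReal M)) ≤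
          ENNReal.ofReal C * (L * (S + 2 * ENNReal.ofReal M) +
          ENNReal.ofReal A * (16 * L + 16 * L + L * ENNReal.ofReal M)) := by gcongr
          _ = _ := by ring
      refine (add_le_add (add_le_add hA1 hr) hA2).trans (le_of_eq ?_)
      rw [hKc]
      ring
  -- conclusion
  rw [ENNReal.tendsto_nhds_zero]
  intro η hη
  obtain ⟨lam, hlam0, hlam1, hlam⟩ : ∃ lam : ℝ, 0 < lam ∧ lam ≤ 1 ∧
      Kc * ENNReal.ofReal lam ≤ η / 2 := by
    have h1 : Tendsto (fun x : ℝ => Kc * ENNReal.ofReal x) (𝓝[>] 0) (𝓝 0) := by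
      have h2 : Tendsto (fun x : ℝ => ENNReal.ofReal x) (𝓝[>] 0) (𝓝 0) := by
        have h3 := (ENNReal.continuous_ofReal.tendsto 0).mono_left
          (nhdsWithin_le_nhds (s := Ioi (0 : ℝ)))
        rwa [ENNReal.ofReal_zero] at h3
      have h4 := ENNReal.Tendsto.const_mul (a := Kc) h2 (Or.inr hKcT)
      rwa [mul_zero] at h4
    have h5 : ∀ᶠ x : ℝ in 𝓝[>] 0, Kc * ENNReal.ofReal x ≤ η / 2 :=
      (ENNReal.tendsto_nhds_zero.1 h1) (η / 2) (ENNReal.half_pos hη.ne')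
    have h6 : ∀ᶠ x : ℝ in 𝓝[>] 0, x ∈ Ioc (0 : ℝ) 1 := Ioc_mem_nhdsGT one_pos
    obtain ⟨x, hx1, hx2⟩ := (h5.and h6).exists
    exact ⟨x, hx2.1, hx2.2, hx1⟩
  obtain ⟨r, hr, hr1⟩ := key lam hlam0 hlam1
  filter_upwards [(ENNReal.tendsto_nhds_zero.1 hr) (η / 2) (ENNReal.half_pos hη.ne')] with n hn
  calc _ ≤ Kc * ENNReal.ofReal lam + r n := hr1 n
    _ ≤ η / 2 + η / 2 := add_le_add hlam hn
    _ = η := ENNReal.add_halves η

end Pool.Agent.QWE
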