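import Pool.Agent.QWE.StG

set_option autoImplicit false

/-!
# QWE, G12: one bubble takes everything
-/

open MeasureTheory Filter Topology Set
open scoped ENNReal NNReal RealInnerProductSpace

namespace Pool.Agent.QWE

namespace G12x

/-- `[0,T]` is in the lifespan and the Strichartz norm there is at most `M`. -/
def Good (I : Set ℝ) (a : ℝ → K) (M T : ℝ) : Prop :=
  0 ≤ T ∧ Icc 0 T ⊆ I ∧ SN (Icc 0 T) a ≤ ENNReal.ofReal M

lemma SN_mono {s t : Set ℝ} (h : s ⊆ t) (k : ℝ → K) : SN s k ≤ SN t k :=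
  lintegral_mono_set h

lemma SN_point (k : ℝ → K) (t : ℝ) : SN (Icc t t) k = 0 := by
  simp [SN]

lemma good_zero {I : Set ℝ} {a : ℝ → K} {M : ℝ} (h0 : (0 : ℝ) ∈ I) : Good I a M 0 := by
  refine ⟨le_rfl, ?_, ?_⟩
  · intro x hx
    have : x = 0 := le_antisymm hx.2 hx.1
    rw [this]; exact h0
  · rw [SN_point]; exact zero_le

lemma good_mono {I : Set ℝ} {a : ℝ → K} {M T T' : ℝ} (h : Good I a M T) (h0 : 0 ≤ T') (h1 : T' ≤ T) :
    Good I a M T' :=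
  ⟨h0, (Icc_subset_Icc_right h1).trans h.2.1, (SN_mono (Icc_subset_Icc_right h1) a).trans h.2.2⟩

lemma good_closed (hN : St_SNc) (hB : St_Blow) {I : Set ℝ} {a : ℝ → K} {M T : ℝ} (hI : IsMax I a)
    (h0 : (0 : ℝ) ∈ I) (hT : 0 < T) (h : ∀ T' : ℝ, 0 ≤ T' → T' < T → Good I a M T') : Good I a M T := by
  have hico : Ico 0 T ⊆ I := fun x hx => (h x hx.1 hx.2).2.1 ⟨hx.1, le_rfl⟩
  have hTI : T ∈ I := by
    by_contra hTI
    have hsub : I ∩ Ici 0 ⊆ Ico 0 T := by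
      rintro x ⟨hx, hx0⟩
      refine ⟨hx0, ?_⟩
      by_contra hc
      push Not at hc
      exact hTI (hI.1.1.out h0 hx ⟨hT.le, hc⟩)
    have hfin : SN (I ∩ Ici 0) a ≤ ENNReal.ofReal M := by
      by_contra hc
      push Not at hc
      obtain ⟨t, htI, ht0, ht⟩ := hN.2.2.1 I a 0 _ hI.1 h0 hc
      have ht1 : t < T := (hsub ⟨htI, ht0⟩).2
      exact absurd (h t ht0 ht1).2.2 (not_le.2 ht)
    have h2 := (hB I a 0 hI h0).1 (hfin.trans_lt ENNReal.ofReal_lt_top)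
    exact hTI (h2.1 hT.le)
  have hicc : Icc 0 T ⊆ I := fun x hx => hI.1.1.out h0 hTI hx
  refine ⟨hT.le, hicc, ?_⟩
  by_contra hc
  push Not at hc
  have hs : IsSol (Ico 0 T) a := hN.1 I _ a hI.1 hico ordConnected_Ico
  have heq : SN (Ico 0 T ∩ Ici 0) a = SN (Icc 0 T) a := by
    have h1 : Ico 0 T ∩ Ici 0 = Ico (0 : ℝ) T := by
      ext x; simp only [mem_inter_iff, mem_Ico, mem_Ici]; tauto
    rw [h1]
    unfold SN
    exact setLIntegral_congr Ico_ae_eq_Icc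
  rw [← heq] at hc
  obtain ⟨t, htI, ht0, ht⟩ := hN.2.2.1 _ a 0 _ hs ⟨le_rfl, hT⟩ hc
  exact absurd (h t ht0 htI.2).2.2 (not_le.2 ht)

lemma good_open (hN : St_SNc) {I : Set ℝ} {a : ℝ → K} {M T : ℝ} (hI : IsMax I a)
    (h0 : (0 : ℝ) ∈ I) (hM : 1 ≤ M) (h : Good I a M T) (h1 : SN (Icc 0 T) a ≤ ENNReal.ofReal (M - 1)) :
    ∃ ε : ℝ, 0 < ε ∧ Good I a M (T + ε) := by
  have hTI : T ∈ I := h.2.1 ⟨h.1, le_rfl⟩
  have hc := (hN.2.2.2.1 I a 0 hI.1 h0).1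
  have hcT := hc T ⟨hTI, h.1⟩
  have hlt : (SN (Icc 0 T) a).toReal < M := by
    have h2 : (SN (Icc 0 T) a).toReal ≤ M - 1 :=
      ENNReal.toReal_le_of_le_ofReal (by linarith) h1
    linarith
  have hev := hcT.eventually (gt_mem_nhds hlt)
  have hev2 : ∀ᶠ t in 𝓝[I ∩ Ici 0] T, t ∈ I := eventually_mem_nhdsWithin.mono fun t ht => ht.1
  have hIo : ∀ᶠ t in 𝓝 T, t ∈ I := hI.2.1.mem_nhds hTI
  rw [eventually_nhdsWithin_iff] at hev
  obtain ⟨ε, hε, hball⟩ := Metric.eventually_nhds_iff.1 (hev.and hIo)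
  refine ⟨ε / 2, by linarith, ?_⟩
  have hd : dist (T + ε / 2) T < ε := by
    rw [Real.dist_eq]
    have : T + ε / 2 - T = ε / 2 := by ring
    rw [this, abs_of_pos (by linarith)]; linarith
  obtain ⟨h3, h4⟩ := hball hd
  have h5 : (0 : ℝ) ≤ T + ε / 2 := by linarith [h.1]
  have h6 := h3 ⟨h4, h5⟩
  refine ⟨h5, fun x hx => hI.1.1.out h0 h4 hx, ?_⟩
  have hfin : SN (Icc 0 (T + ε / 2)) a < ⊤ := hI.1.2.2.1 0 h0 _ h4
  rw [← ENNReal.ofReal_toReal hfin.ne]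
  exact ENNReal.ofReal_le_ofReal h6.le

/-- The set of all good times is `[0,∞)` or a compact interval. -/
lemma good_asol (hN : St_SNc) (hB : St_Blow) {I : Set ℝ} {a : ℝ → K} {M : ℝ} (hI : IsMax I a)
    (h0 : (0 : ℝ) ∈ I) : ASol {t | Good I a M t} a := by
  have hz : Good I a M 0 := good_zero h0
  have hord : {t | Good I a M t}.OrdConnected := by
    refine ⟨fun x hx y hy z hz => ?_⟩
    exact good_mono hy (hx.1.trans hz.1) hz.2
  have hsub : {t | Good I a M t} ⊆ I := fun t ht => ht.2.1 ⟨ht.1, le_rfl⟩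
  have hs : IsSol {t | Good I a M t} a := hN.1 I _ a hI.1 hsub hord
  refine ⟨?_, hs, ?_⟩
  · by_cases hbd : BddAbove {t | Good I a M t}
    · right
      refine ⟨sSup {t | Good I a M t}, le_csSup hbd hz, ?_⟩
      have hS : Good I a M (sSup {t | Good I a M t}) := by
        rcases (le_csSup hbd hz).eq_or_lt with h | h
        · rw [← h]; exact hz
        · refine good_closed hN hB hI h0 h fun T' h1 h2 => ?_
          obtain ⟨T'', h3, h4⟩ := exists_lt_of_lt_csSup ⟨0, hz⟩ h2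
          exact good_mono h3 h1 h4.le
      ext t
      constructor
      · intro ht; exact ⟨ht.1, le_csSup hbd ht⟩
      · rintro ⟨h1, h2⟩; exact good_mono hS h1 h2
    · left
      ext t
      constructor
      · intro ht; exact ht.1
      · intro ht
        rw [not_bddAbove_iff] at hbd
        obtain ⟨y, hy, hty⟩ := hbd t
        exact good_mono hy ht hty.le
  · have hle : SN {t | Good I a M t} a ≤ ENNReal.ofReal M := by
      by_contra hc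
      push Not at hc
      have h1 : {t | Good I a M t} ∩ Ici 0 = {t | Good I a M t} := by
        ext t; simp only [mem_inter_iff, mem_ofPred_eq, mem_Ici]
        exact ⟨fun h => h.1, fun h => ⟨h, h.1⟩⟩
      rw [← h1] at hc
      obtain ⟨t, htI, ht0, ht⟩ := hN.2.2.1 _ a 0 _ hs hz hc
      exact absurd htI.2.2 (not_le.2 ht)
    exact hle.trans_lt ENNReal.ofReal_lt_top

lemma lower {I : Set ℝ} {a : ℝ → K} {d0 m : ℝ} (hU : St_Uniq)
    (hS : ∀ (k0 : K) (t0 : ℝ), ‖k0‖ ≤ d0 → ∃ k : ℝ → K, IsSol univ k ∧ k t0 = k0 ∧ ∀ t, ‖k t‖ ≤ 2 * ‖k0‖)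
    (hI : IsSol I a) (h0 : (0 : ℝ) ∈ I) (hm : m ≤ d0) (hm2 : 2 * m ≤ ‖a 0‖) : ∀ t ∈ I, m ≤ ‖a t‖ := by
  intro t ht
  by_contra hc
  push Not at hc
  obtain ⟨k, hk, hkt, hb⟩ := hS (a t) t (hc.le.trans hm)
  have h1 := hU I univ a k t hI hk ht (mem_univ _) hkt.symm 0 h0 (mem_univ _)
  have h2 := hb 0
  rw [← h1] at h2
  linarith

end G12x

open G12x in
theorem G12x.core (hD : St_Dec) (hN : St_SNc) (hMx : St_MaxE) (hB : St_Blow) (hU : St_Uniq)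
    (hSm : St_Small) (hG : St_Gron) (hW : St_WkS) (Ac : ℝ) (hLA : ∀ A' < Ac, LA A' < ⊤)
    (τ δ : ℕ → ℝ) (k : ℕ → ℝ → K) (φ : K) (hτ : ∀ n, 0 ≤ τ n) (hk : ∀ n, IsSol (Icc 0 (τ n)) (k n))
    (hδ : Tendsto δ atTop (𝓝 0)) (hkb : ∀ n, ∀ t ∈ Icc 0 (τ n), ‖k n t‖ ≤ Ac + δ n)
    (hinf : Tendsto (fun n => SN (Icc 0 (τ n)) (k n)) atTop (𝓝 ⊤)) (hw : WTo (fun n => k n 0) φ)
    (hφ : φ ≠ 0) (μ : ℝ) (hμ : 0 < μ) (hb : ∀ n, μ ≤ ‖k n 0 - φ‖) : False := by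
  classical
  obtain ⟨d0, Cs, hd0, hCs, hS⟩ := hSm
  have hS' : ∀ (k0 : K) (t0 : ℝ), ‖k0‖ ≤ d0 →
      ∃ k : ℝ → K, IsSol univ k ∧ k t0 = k0 ∧ ∀ t, ‖k t‖ ≤ 2 * ‖k0‖ := by
    intro k0 t0 h
    obtain ⟨k, h1, h2, h3, -⟩ := hS k0 t0 h
    exact ⟨k, h1, h2, h3⟩
  have hφp : 0 < ‖φ‖ := norm_pos_iff.2 hφ
  set m1 : ℝ := min d0 (min (‖φ‖ / 2) (μ / 2)) with hm1
  have hm1p : 0 < m1 := by
    rw [hm1]; exact lt_min hd0 (lt_min (by linarith) (by linarith))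
  have hm1d : m1 ≤ d0 := min_le_left _ _
  have hm1φ : 2 * m1 ≤ ‖φ‖ := by
    have : m1 ≤ ‖φ‖ / 2 := (min_le_right _ _).trans (min_le_left _ _)
    linarith
  have hm1μ : 2 * m1 ≤ μ := by
    have : m1 ≤ μ / 2 := (min_le_right _ _).trans (min_le_right _ _)
    linarith
  -- the critical size is at least the norm of the weak limit
  have hAcφ : ‖φ‖ ≤ Ac := by
    refine le_of_forall_pos_le_add fun ε hε => ?_
    obtain ⟨N, hNn⟩ := (hδ.eventually (gt_mem_nhds hε)).exists_forall_of_atTop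
    have hsh : WTo (fun n => k (n + N) 0) φ :=
      hW.2.2.2.1 _ _ (fun n => n + N) hw (strictMono_id.add_const N)
    refine hW.2.2.1 _ _ _ hsh fun n => ?_
    have h1 := hkb (n + N) 0 ⟨le_rfl, hτ _⟩
    have h2 := hNn (n + N) (by omega)
    linarith
  have hAcp : 0 < Ac := hφp.trans_le hAcφ
  set A' : ℝ := √(Ac ^ 2 - m1 ^ 2 / 2) with hA'
  have hA'2 : A' ^ 2 = Ac ^ 2 - m1 ^ 2 / 2 := by
    rw [hA', Real.sq_sqrt]
    nlinarith
  have hA'0 : 0 ≤ A' := Real.sqrt_nonneg _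
  have hA'lt : A' < Ac := by
    refine lt_of_pow_lt_pow_left₀ 2 hAcp.le ?_
    rw [hA'2]; nlinarith
  set M : ℝ := (LA A').toReal + 1 with hM
  have hM1 : 1 ≤ M := by rw [hM]; linarith [ENNReal.toReal_nonneg (a := LA A')]
  have hLM : LA A' ≤ ENNReal.ofReal (M - 1) := by
    have : M - 1 = (LA A').toReal := by rw [hM]; ring
    rw [this, ENNReal.ofReal_toReal (hLA A' hA'lt).ne]
  -- maximal solutions
  obtain ⟨Ia, a, hIa, h0a, ha0, -⟩ := hMx φ 0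
  have hβe : ∀ n, ∃ (I : Set ℝ) (b : ℝ → K), IsMax I b ∧ (0 : ℝ) ∈ I ∧ b 0 = k n 0 - φ := by
    intro n
    obtain ⟨I, b, h1, h2, h3, -⟩ := hMx (k n 0 - φ) 0
    exact ⟨I, b, h1, h2, h3⟩
  choose In β hIn h0n hβ0 using hβe
  have hlowa : ∀ t ∈ Ia, m1 ≤ ‖a t‖ := lower hU hS' hIa.1 h0a hm1d (by rw [ha0]; exact hm1φ)
  have hlowb : ∀ n, ∀ t ∈ In n, m1 ≤ ‖β n t‖ := fun n =>
    lower hU hS' (hIn n).1 (h0n n) hm1d (by rw [hβ0]; exact hm1μ.trans (hb n))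
  -- the times `T n`
  set G : ℕ → Set ℝ := fun n => {T | T ≤ τ n ∧ Good Ia a M T ∧ Good (In n) (β n) M T} with hGdef
  have hG0 : ∀ n, (0 : ℝ) ∈ G n := fun n => ⟨hτ n, good_zero h0a, good_zero (h0n n)⟩
  have hGb : ∀ n, BddAbove (G n) := fun n => ⟨τ n, fun T hT => hT.1⟩
  set T : ℕ → ℝ := fun n => sSup (G n) with hT
  have hT0 : ∀ n, 0 ≤ T n := fun n => le_csSup (hGb n) (hG0 n)
  have hTG : ∀ n, T n ∈ G n := by
    intro n
    rcases (hT0 n).eq_or_lt with h | h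
    · rw [← h]; exact hG0 n
    · have h' : ∀ T' : ℝ, 0 ≤ T' → T' < T n → Good Ia a M T' ∧ Good (In n) (β n) M T' := by
        intro T' h1 h2
        obtain ⟨T'', h3, h4⟩ := exists_lt_of_lt_csSup ⟨0, hG0 n⟩ h2
        exact ⟨good_mono h3.2.1 h1 h4.le, good_mono h3.2.2 h1 h4.le⟩
      exact ⟨csSup_le ⟨0, hG0 n⟩ fun T hT => hT.1,
        good_closed hN hB hIa h0a h fun T' h1 h2 => (h' T' h1 h2).1,
        good_closed hN hB (hIn n) (h0n n) h fun T' h1 h2 => (h' T' h1 h2).2⟩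
  have hTτ : ∀ n, T n ≤ τ n := fun n => (hTG n).1
  -- bounded family
  obtain ⟨Cg, hCg, hgr⟩ := hG
  obtain ⟨B0, hB0⟩ := hW.2.1 _ _ hw
  set A : ℝ := (B0 + ‖φ‖) * Real.exp (Cg * M) with hA
  have hβw : WTo (fun n => β n 0) 0 := by
    intro w
    have h1 := (hw w).sub_const (inner ℝ φ w)
    simp only [sub_self] at h1
    simp only [inner_zero_left]
    refine h1.congr fun n => ?_
    rw [hβ0, inner_sub_left]
  have hβS : BetaSeq A M T β := by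
    refine ⟨fun n => ?_, hβw⟩
    have hg := (hTG n).2.2
    have hsol : IsSol (Icc 0 (T n)) (β n) := hN.1 _ _ _ (hIn n).1 hg.2.1 ordConnected_Icc
    refine ⟨hT0 n, hsol, fun t ht => ?_, hg.2.2⟩
    have h1 := hgr _ _ hsol (hg.2.2.trans_lt ENNReal.ofReal_lt_top) 0 ⟨le_rfl, hT0 n⟩ t ht
    refine h1.trans ?_
    have h2 : ‖β n 0‖ ≤ B0 + ‖φ‖ := by
      rw [hβ0]; exact (norm_sub_le _ _).trans (by gcongr; exact hB0 n)
    have h3 : (SN (Icc 0 (T n)) (β n)).toReal ≤ M := by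
      refine ENNReal.toReal_le_of_le_ofReal (by linarith) hg.2.2
    rw [hA]
    have h4 : 0 ≤ B0 + ‖φ‖ := (norm_nonneg _).trans h2
    gcongr
  set J : Set ℝ := {t | Good Ia a M t} with hJ
  have hAS : ASol J a := good_asol hN hB hIa h0a
  have hTJ : ∀ n, T n ∈ J := fun n => (hTG n).2.1
  have hksol : ∀ n, IsSol (Icc 0 (T n)) (k n) := fun n =>
    hN.1 _ _ _ (hk n) (Icc_subset_Icc_right (hTτ n)) ordConnected_Icc
  have hk0 : ∀ n, k n 0 = a 0 + β n 0 := fun n => by rw [ha0, hβ0]; abel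
  -- the claim: both pieces stay below the critical size
  have hclaim : ∀ᶠ n in atTop, ∀ t ∈ Icc 0 (T n), ‖a t‖ ≤ A' ∧ ‖β n t‖ ≤ A' := by
    by_contra hcon
    have hch : ∀ n, ∃ t ∈ Icc 0 (T n),
        (∃ s ∈ Icc 0 (T n), ¬ (‖a s‖ ≤ A' ∧ ‖β n s‖ ≤ A')) → ¬ (‖a t‖ ≤ A' ∧ ‖β n t‖ ≤ A') := by
      intro n
      by_cases h : ∃ s ∈ Icc 0 (T n), ¬ (‖a s‖ ≤ A' ∧ ‖β n s‖ ≤ A')
      · obtain ⟨s, hs, hs'⟩ := h
        exact ⟨s, hs, fun _ => hs'⟩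
      · exact ⟨0, ⟨le_rfl, hT0 n⟩, fun h' => absurd h' h⟩
    choose t ht htb using hch
    obtain ⟨hd1, hd2, -⟩ := hD A M J a T t β k hAS hβS hTJ ht hksol hk0
    have hd1' := hd1.norm
    rw [norm_zero] at hd1'
    have hd2' := hd2.abs
    rw [abs_zero] at hd2'
    have hlim : Tendsto (fun n => (Ac + δ n + ‖k n (t n) - a (t n) - β n (t n)‖) ^ 2 +
        2 * |inner ℝ (a (t n)) (β n (t n))|) atTop (𝓝 ((Ac + 0 + 0) ^ 2 + 2 * 0)) :=
      (((tendsto_const_nhds.add hδ).add hd1').pow 2).add (hd2'.const_mul 2)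
    have hlt : (Ac + 0 + 0) ^ 2 + 2 * 0 < Ac ^ 2 + m1 ^ 2 / 2 := by nlinarith
    have hev := hlim.eventually (gt_mem_nhds hlt)
    apply hcon
    filter_upwards [hev] with n hn
    by_contra hcc
    push Not at hcc
    have hbad : ∃ s ∈ Icc 0 (T n), ¬ (‖a s‖ ≤ A' ∧ ‖β n s‖ ≤ A') := by
      obtain ⟨s, hs, hs'⟩ := hcc
      exact ⟨s, hs, fun h => absurd (hs' h.1) (not_lt.2 h.2)⟩
    have hbt := htb n hbad
    have hla := hlowa (t n) ((hTG n).2.1.2.1 (ht n))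
    have hlb := hlowb n (t n) ((hTG n).2.2.2.1 (ht n))
    have hkt := hkb n (t n) ⟨(ht n).1, (ht n).2.trans (hTτ n)⟩
    have hsum : ‖a (t n) + β n (t n)‖ ≤ Ac + δ n + ‖k n (t n) - a (t n) - β n (t n)‖ := by
      have : a (t n) + β n (t n) = k n (t n) - (k n (t n) - a (t n) - β n (t n)) := by abel
      rw [this]
      exact (norm_sub_le _ _).trans (by linarith)
    have hexp : ‖a (t n) + β n (t n)‖ ^ 2 =
        ‖a (t n)‖ ^ 2 + 2 * inner ℝ (a (t n)) (β n (t n)) + ‖β n (t n)‖ ^ 2 :=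
      norm_add_sq_real _ _
    have hsq : ‖a (t n) + β n (t n)‖ ^ 2 ≤
        (Ac + δ n + ‖k n (t n) - a (t n) - β n (t n)‖) ^ 2 := by gcongr
    have hin : -|inner ℝ (a (t n)) (β n (t n))| ≤ inner ℝ (a (t n)) (β n (t n)) := neg_abs_le _
    have hla2 : m1 ^ 2 ≤ ‖a (t n)‖ ^ 2 := by gcongr
    have hlb2 : m1 ^ 2 ≤ ‖β n (t n)‖ ^ 2 := by gcongr
    apply hbt
    constructor
    · refine le_of_sq_le_sq ?_ hA'0
      rw [hA'2]; linarith
    · refine le_of_sq_le_sq ?_ hA'0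
      rw [hA'2]; linarith
  -- so `T n = τ n` for large `n`
  have hTeq : ∀ᶠ n in atTop, T n = τ n := by
    filter_upwards [hclaim] with n hn
    have hga := (hTG n).2.1
    have hgb := (hTG n).2.2
    have hsa : SN (Icc 0 (T n)) a ≤ ENNReal.ofReal (M - 1) := by
      refine le_trans ?_ hLM
      exact le_iSup_of_le (Icc 0 (T n)) (le_iSup_of_le a (le_iSup_of_le
        ⟨hN.1 _ _ _ hIa.1 hga.2.1 ordConnected_Icc, fun t ht => (hn t ht).1⟩ le_rfl))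
    have hsb : SN (Icc 0 (T n)) (β n) ≤ ENNReal.ofReal (M - 1) := by
      refine le_trans ?_ hLM
      exact le_iSup_of_le (Icc 0 (T n)) (le_iSup_of_le (β n) (le_iSup_of_le
        ⟨hN.1 _ _ _ (hIn n).1 hgb.2.1 ordConnected_Icc, fun t ht => (hn t ht).2⟩ le_rfl))
    by_contra hne
    have hlt : T n < τ n := lt_of_le_of_ne (hTτ n) hne
    obtain ⟨ε1, hε1, h1⟩ := good_open hN hIa h0a hM1 hga hsa
    obtain ⟨ε2, hε2, h2⟩ := good_open hN (hIn n) (h0n n) hM1 hgb hsb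
    set ε := min (min ε1 ε2) (τ n - T n) with hε
    have hεp : 0 < ε := lt_min (lt_min hε1 hε2) (by linarith)
    have e1 : ε ≤ ε1 := (min_le_left _ _).trans (min_le_left _ _)
    have e2 : ε ≤ ε2 := (min_le_left _ _).trans (min_le_right _ _)
    have e3 : ε ≤ τ n - T n := min_le_right _ _
    have hmem : T n + ε ∈ G n := ⟨by linarith,
      good_mono h1 (by linarith [hT0 n]) (by linarith),
      good_mono h2 (by linarith [hT0 n]) (by linarith)⟩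
    have := le_csSup (hGb n) hmem
    have h3 : T n + ε ≤ T n := this
    linarith
  obtain ⟨-, -, B, hBB⟩ := hD A M J a T T β k hAS hβS hTJ (fun n => ⟨hT0 n, le_rfl⟩) hksol hk0
  have hev1 : ∀ᶠ n in atTop, ENNReal.ofReal B < SN (Icc 0 (τ n)) (k n) :=
    hinf.eventually (lt_mem_nhds ENNReal.ofReal_lt_top)
  obtain ⟨n, h1, h2, h3⟩ := (hTeq.and (hBB.and hev1)).exists
  rw [h1] at h2
  exact absurd h2 (not_le.2 h3)

theorem thm_G12 (hD : St_Dec) (hN : St_SNc) (hMx : St_MaxE) (hB : St_Blow) (hU : St_Uniq)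
    (hSm : St_Small) (hG : St_Gron) (hW : St_WkS) : St_G12 := by
  intro Ac hLA τ δ k φ hτ hk hδ hkb hinf hw hφ
  by_contra hcon
  rw [Metric.tendsto_atTop] at hcon
  push Not at hcon
  obtain ⟨μ, hμ, hfr⟩ := hcon
  have hex : ∃ ν : ℕ → ℕ, StrictMono ν ∧ ∀ n, μ ≤ dist (k (ν n) 0) φ := by
    have hf : ∃ᶠ n in atTop, μ ≤ dist (k n 0) φ := by
      rw [frequently_atTop]
      intro N
      obtain ⟨n, h1, h2⟩ := hfr N
      exact ⟨n, h1, h2⟩
    exact extraction_of_frequently_atTop hf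
  obtain ⟨ν, hν, hb⟩ := hex
  exact G12x.core hD hN hMx hB hU hSm hG hW Ac hLA (τ ∘ ν) (δ ∘ ν) (fun n => k (ν n)) φ
    (fun n => hτ _) (fun n => hk _) (hδ.comp hν.tendsto_atTop) (fun n => hkb _)
    (hinf.comp hν.tendsto_atTop) (hW.2.2.2.1 _ _ ν hw hν) hφ μ hμ
    (fun n => by rw [← dist_eq_norm]; exact hb n)

end Pool.Agent.QWE
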