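import Pool.Agent.QWE.StA
import Pool.Agent.QWE.StG

set_option autoImplicit false

/-!
# QWE, G14: forward precompactness modulo symmetries
-/

open MeasureTheory Filter Topology Set
open scoped ENNReal NNReal RealInnerProductSpace

namespace Pool.Agent.QWE

namespace G14x

lemma set_eq (r ω b : ℝ) : {s : ℝ | r + s * Real.exp (-b) ∈ Icc r ω} = Icc 0 ((ω - r) * Real.exp b) := by
  have he := Real.exp_pos b
  have h1 : Real.exp (-b) * Real.exp b = 1 := by rw [← Real.exp_add]; simp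
  ext s
  constructor
  · intro hs
    have h2 : r ≤ r + s * Real.exp (-b) := hs.1
    have h3 : r + s * Real.exp (-b) ≤ ω := hs.2
    have h4 : 0 ≤ s * Real.exp (-b) := by linarith
    have h5 : 0 ≤ s := by
      by_contra hc
      push Not at hc
      have := mul_neg_of_neg_of_pos hc (Real.exp_pos (-b))
      linarith
    refine ⟨h5, ?_⟩
    have h6 : s * Real.exp (-b) * Real.exp b ≤ (ω - r) * Real.exp b := by
      gcongr; linarith
    rwa [mul_assoc, h1, mul_one] at h6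
  · rintro ⟨h2, h3⟩
    have h4 : 0 ≤ s * Real.exp (-b) := by positivity
    have h5 : s * Real.exp (-b) ≤ (ω - r) * Real.exp b * Real.exp (-b) := by gcongr
    rw [mul_assoc, mul_comm (Real.exp b), h1, mul_one] at h5
    exact ⟨by linarith, by linarith⟩

lemma SN_mono {s t : Set ℝ} (h : s ⊆ t) (k : ℝ → K) : SN s k ≤ SN t k :=
  lintegral_mono_set h

lemma SN_tail {I : Set ℝ} {a : ℝ → K} (hI : IsSol I a) (h0 : (0 : ℝ) ∈ I) (h : SN (I ∩ Ici 0) a = ⊤)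
    {r : ℝ} (hr : r ∈ I) : SN (I ∩ Ici r) a = ⊤ := by
  have h1 : I ∩ Ici 0 ⊆ Icc 0 r ∪ (I ∩ Ici r) := by
    rintro x ⟨hx, hx0⟩
    rcases le_total x r with h | h
    · left; exact ⟨hx0, h⟩
    · right; exact ⟨hx, h⟩
  have h2 : SN (I ∩ Ici 0) a ≤ SN (Icc 0 r) a + SN (I ∩ Ici r) a :=
    (lintegral_mono_set h1).trans (lintegral_union_le _ _ _)
  rw [h, top_le_iff, ENNReal.add_eq_top] at h2
  rcases h2 with h2 | h2
  · exact absurd h2 (hI.2.2.1 0 h0 r hr).ne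
  · exact h2

/-- Along the sequence there are earlier times at which a bubble of fixed size is present. -/
lemma bubble (hG2 : St_G2) (hN : St_SNc) {ψ : E → ℝ} (hψ : IsPsi ψ) {Ac : ℝ} {I : Set ℝ} {a : ℝ → K}
    (h : Crit Ac I a) : ∃ c : ℝ, 0 < c ∧ ∀ t ∈ I, 0 ≤ t → 1 < SN (Icc 0 t) a →
      ∃ r ∈ Icc 0 t, SN (Icc r t) a ≤ 1 ∧ ∃ (y : E) (b : ℝ),
        c ≤ |inner ℝ (ig y b (a r)) (Rk ψ)| := by
  obtain ⟨-, hI, h0, hb, -⟩ := h
  obtain ⟨c, hc, hcc⟩ := hG2 ψ hψ Ac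
  refine ⟨c, hc, fun t ht ht0 hS => ?_⟩
  have hsub : Icc 0 t ⊆ I := fun z hz => hI.1.1.out h0 ht hz
  have hcont := (hN.2.2.2.1 I a t hI.1 ht).2
  have hcont' : ContinuousOn (fun s => (SN (Icc s t) a).toReal) (Icc 0 t) :=
    hcont.mono fun z hz => ⟨hsub hz, hz.2⟩
  have hfin : SN (Icc 0 t) a ≠ ⊤ := (hI.1.2.2.1 0 h0 t ht).ne
  have h1 : (1 : ℝ) ≤ (SN (Icc 0 t) a).toReal := by
    have := ENNReal.toReal_mono hfin hS.le
    simpa using this
  have h2 : (SN (Icc t t) a).toReal ≤ 1 := by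
    have : SN (Icc t t) a = 0 := by simp [SN]
    rw [this]; simp
  obtain ⟨s, hs, hs1⟩ := intermediate_value_Icc' ht0 hcont' ⟨h2, h1⟩
  have hs2 : SN (Icc s t) a = 1 := by
    simp only at hs1
    exact (ENNReal.toReal_eq_one_iff _).1 hs1
  have hsol : IsSol (Icc s t) a :=
    hN.1 I _ a hI.1 ((Icc_subset_Icc_left hs.1).trans hsub) ordConnected_Icc
  obtain ⟨r, hr, y, b, hyb⟩ := hcc s t a hsol
    (fun z hz => hb z (hsub ⟨hs.1.trans hz.1, hz.2⟩) (hs.1.trans hz.1)) hs2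
  refine ⟨r, ⟨hs.1.trans hr.1, hr.2⟩, ?_, y, b, hyb⟩
  rw [← hs2]
  exact SN_mono (Icc_subset_Icc_left hr.1) a

end G14x

open G14x in
theorem thm_G14 (hPsi : St_Psi) (hG2 : St_G2) (hW : St_WkS) (h12 : St_G12) (h13a : St_G13a)
    (hSc : St_ScM) (hN : St_SNc) (hSt : St_SNt) : St_G14 := by
  classical
  intro Ac I a hcr t htI htT
  obtain ⟨ψ, hψ⟩ := hPsi
  obtain ⟨c, hc, hbub⟩ := bubble hG2 hN hψ hcr
  obtain ⟨hLA, hI, h0, hb, hinf⟩ := hcr
  -- Strichartz norms up to `t n` are eventually large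
  have hbig : ∀ᶠ n in atTop, 1 < SN (Icc 0 (t n)) a := by
    obtain ⟨T, hT, hT0, h1⟩ := hN.2.2.1 I a 0 1 hI.1 h0 (by rw [hinf]; exact ENNReal.one_lt_top)
    filter_upwards [htT T hT] with n hn
    exact h1.trans_le (SN_mono (Icc_subset_Icc_right hn) a)
  obtain ⟨N, hNN⟩ := hbig.exists_forall_of_atTop
  have hex : ∀ n, ∃ r ∈ Icc 0 (t (n + N)), SN (Icc r (t (n + N))) a ≤ 1 ∧ ∃ (y : E) (b : ℝ),
      c ≤ |inner ℝ (ig y b (a r)) (Rk ψ)| := fun n =>
    hbub _ (htI _).1 (htI _).2 (hNN _ (by omega))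
  choose r hr hr1 y b hyb using hex
  have hrI : ∀ n, r n ∈ I := fun n => hI.1.1.out h0 (htI (n + N)).1 (hr n)
  have hω : ∀ n : ℕ, ∃ ω ∈ I, r n ≤ ω ∧ (n : ℝ≥0∞) < SN (Icc (r n) ω) a := fun n =>
    hN.2.2.1 I a (r n) n hI.1 (hrI n) (by
      rw [SN_tail hI.1 h0 hinf (hrI n)]; exact ENNReal.natCast_lt_top n)
  choose ω hωI hrω hωS using hω
  set k : ℕ → ℝ → K := fun n => resc a (r n) (y n) (b n) with hk
  set τ : ℕ → ℝ := fun n => (ω n - r n) * Real.exp (b n) with hτ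
  have hτ0 : ∀ n, 0 ≤ τ n := fun n => mul_nonneg (by linarith [hrω n]) (Real.exp_pos _).le
  have hksol : ∀ n, IsSol (Icc 0 (τ n)) (k n) := by
    intro n
    have h1 : IsSol (Icc (r n) (ω n)) a :=
      hN.1 I _ a hI.1 (fun z hz => hI.1.1.out (hrI n) (hωI n) hz) ordConnected_Icc
    have h2 := (hSc _ a (r n) (y n) (b n)).1 h1
    rwa [set_eq] at h2
  have hSNk : ∀ n (z : ℝ), SN (Icc 0 ((z - r n) * Real.exp (b n))) (k n) = SN (Icc (r n) z) a := by
    intro n z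
    have := (hSc (Icc (r n) z) a (r n) (y n) (b n)).2.2.1 measurableSet_Icc
    rwa [set_eq] at this
  have hkb : ∀ n, ∀ s ∈ Icc 0 (τ n), ‖k n s‖ ≤ Ac := by
    intro n s hs
    have h1 := (hSc univ a (r n) (y n) (b n)).2.2.2 s
    show ‖resc a (r n) (y n) (b n) s‖ ≤ Ac
    rw [h1]
    have h2 : s ∈ {s : ℝ | r n + s * Real.exp (-(b n)) ∈ Icc (r n) (ω n)} := by
      rw [set_eq]; exact hs
    have h3 : r n + s * Real.exp (-(b n)) ∈ Icc (r n) (ω n) := h2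
    exact hb _ (hI.1.1.out (hrI n) (hωI n) h3) ((hr n).1.trans h3.1)
  have hk0 : ∀ n, k n 0 = ig (y n) (b n) (a (r n)) := by
    intro n
    simp only [hk, resc, zero_mul, add_zero]
  -- weak limit
  obtain ⟨ξ, hξ, φ, -, hφw⟩ := hW.1 (fun n => k n 0) Ac (fun n => hkb n 0 ⟨le_rfl, hτ0 n⟩)
  have hφ0 : φ ≠ 0 := by
    intro h
    have h1 := (hφw (Rk ψ)).abs
    rw [h, inner_zero_left, abs_zero] at h1
    obtain ⟨n, hn⟩ := (h1.eventually (gt_mem_nhds hc)).exists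
    have h2 := hyb (ξ n)
    rw [← hk0] at h2
    exact absurd hn (not_lt.2 h2)
  have hSinf : Tendsto (fun n => SN (Icc 0 (τ (ξ n))) (k (ξ n))) atTop (𝓝 ⊤) := by
    have h1 : Tendsto (fun n => SN (Icc 0 (τ n)) (k n)) atTop (𝓝 ⊤) := by
      refine tendsto_of_tendsto_of_tendsto_of_le_of_le' (g := fun n : ℕ => (n : ℝ≥0∞))
        (h := fun _ => ⊤) ENNReal.tendsto_nat_nhds_top tendsto_const_nhds ?_ ?_
      · refine Eventually.of_forall fun n => ?_
        show (n : ℝ≥0∞) ≤ SN (Icc 0 (τ n)) (k n)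
        rw [hτ, hSNk]; exact (hωS n).le
      · exact Eventually.of_forall fun n => le_top
    exact h1.comp hξ.tendsto_atTop
  have hstrong := h12 Ac hLA (fun n => τ (ξ n)) (fun _ => 0) (fun n => k (ξ n)) φ (fun n => hτ0 _)
    (fun n => hksol _) tendsto_const_nhds (fun n s hs => by rw [add_zero]; exact hkb _ s hs)
    hSinf hφw hφ0
  obtain ⟨I', a', hI', h0', ha0, -, hinf', hconv⟩ := h13a Ac (fun n => τ (ξ n)) (fun _ => 0)
    (fun n => k (ξ n)) φ (fun n => hτ0 _) (fun n => hksol _) tendsto_const_nhds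
    (fun n s hs => by rw [add_zero]; exact hkb _ s hs) hSinf hstrong
  obtain ⟨T1, hT1I, hT10, hT1S⟩ := hN.2.2.1 I' a' 0 16 hI'.1 h0' (by rw [hinf']; simp)
  obtain ⟨hT1τ, hT1c⟩ := hconv T1 hT1I hT10
  have hsub1 : Icc 0 T1 ⊆ I' := fun z hz => hI'.1.1.out h0' hT1I hz
  -- the Strichartz norm of `k` on `[0,T1]` exceeds `1`
  have hk1 : ∀ᶠ n in atTop, 1 < SN (Icc 0 T1) (k (ξ n)) := by
    filter_upwards [hT1τ, hT1c 1 one_pos] with n h1 h2
    have hm1 : AEStronglyMeasurable (k (ξ n)) (volume.restrict (Icc 0 T1)) :=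
      (((hksol (ξ n)).2.1).mono (Icc_subset_Icc_right h1)).aestronglyMeasurable measurableSet_Icc
    have hm2 : AEStronglyMeasurable a' (volume.restrict (Icc 0 T1)) :=
      ((hI'.1.2.1).mono hsub1).aestronglyMeasurable measurableSet_Icc
    have hm3 : AEStronglyMeasurable (fun s => -(k (ξ n) s - a' s)) (volume.restrict (Icc 0 T1)) :=
      (hm1.sub hm2).neg
    have h3 := (hSt (fun s => -(k (ξ n) s - a' s)) (k (ξ n)) (Icc 0 T1) measurableSet_Icc hm3 hm1).1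
    have h4 : (fun s => -(k (ξ n) s - a' s) + k (ξ n) s) = a' := by
      funext s; abel
    rw [h4] at h3
    have h5 := (hSt (fun s => k (ξ n) s - a' s) (k (ξ n)) (Icc 0 T1) measurableSet_Icc
      (hm1.sub hm2) hm1).2
    rw [h5] at h3
    have h6 : SN (Icc 0 T1) (fun s => k (ξ n) s - a' s) ≤ 1 := by
      have := h2.2.le
      simpa using this
    have h7 : (SN (Icc 0 T1) (fun s => k (ξ n) s - a' s)) ^ (1 / 4 : ℝ) ≤ 1 := by
      calc (SN (Icc 0 T1) (fun s => k (ξ n) s - a' s)) ^ (1 / 4 : ℝ) ≤ 1 ^ (1 / 4 : ℝ) := by gcongr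
        _ = 1 := ENNReal.one_rpow _
    have h8 : (2 : ℝ≥0∞) < SN (Icc 0 T1) a' ^ (1 / 4 : ℝ) := by
      have h9 : (2 : ℝ≥0∞) = 16 ^ (1 / 4 : ℝ) := by
        have : (16 : ℝ≥0∞) = 2 ^ (4 : ℝ) := by
          rw [show (4 : ℝ) = ((4 : ℕ) : ℝ) by norm_num, ENNReal.rpow_natCast]; norm_num
        rw [this, ← ENNReal.rpow_mul]; norm_num
      rw [h9]
      exact ENNReal.rpow_lt_rpow hT1S (by norm_num)
    have h10 : (1 : ℝ≥0∞) < SN (Icc 0 T1) (k (ξ n)) ^ (1 / 4 : ℝ) := by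
      by_contra hcc
      push Not at hcc
      have : SN (Icc 0 T1) a' ^ (1 / 4 : ℝ) ≤ 1 + 1 := h3.trans (add_le_add h7 hcc)
      rw [one_add_one_eq_two] at this
      exact absurd h8 (not_lt.2 this)
    by_contra hcc
    push Not at hcc
    have : SN (Icc 0 T1) (k (ξ n)) ^ (1 / 4 : ℝ) ≤ 1 := by
      calc SN (Icc 0 T1) (k (ξ n)) ^ (1 / 4 : ℝ) ≤ 1 ^ (1 / 4 : ℝ) := by gcongr
        _ = 1 := ENNReal.one_rpow _
    exact absurd h10 (not_lt.2 this)
  set s : ℕ → ℝ := fun n => (t (ξ n + N) - r (ξ n)) * Real.exp (b (ξ n)) with hs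
  have hs0 : ∀ n, 0 ≤ s n := fun n =>
    mul_nonneg (by linarith [(hr (ξ n)).2]) (Real.exp_pos _).le
  have hsT : ∀ᶠ n in atTop, s n ∈ Icc 0 T1 := by
    filter_upwards [hk1] with n hn
    refine ⟨hs0 n, ?_⟩
    by_contra hcc
    push Not at hcc
    have h1 : SN (Icc 0 T1) (k (ξ n)) ≤ SN (Icc 0 (s n)) (k (ξ n)) :=
      SN_mono (Icc_subset_Icc_right hcc.le) _
    rw [hs, hSNk] at h1
    exact absurd hn (not_lt.2 (h1.trans (hr1 (ξ n))))
  obtain ⟨s', hs', ζ, hζ, hlim⟩ := isCompact_Icc.tendsto_subseq' hsT.frequently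
  have hval : Tendsto (fun n => k (ξ (ζ n)) (s (ζ n))) atTop (𝓝 (a' s')) := by
    rw [Metric.tendsto_nhds]
    intro ε hε
    have hc1 : ContinuousWithinAt a' (Icc 0 T1) s' := (hI'.1.2.1.mono hsub1) s' hs'
    have hev := hζ.tendsto_atTop.eventually hsT
    have hc2 : Tendsto (fun n => a' (s (ζ n))) atTop (𝓝 (a' s')) :=
      hc1.tendsto.comp (tendsto_nhdsWithin_iff.2 ⟨hlim, hev⟩)
    have hc3 := (Metric.tendsto_nhds.1 hc2 (ε / 2) (by linarith))
    have hc4 := hζ.tendsto_atTop.eventually (hT1c (ε / 2) (by linarith))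
    filter_upwards [hev, hc3, hc4] with n h1 h2 h3
    have h4 := h3.1 (s (ζ n)) h1
    calc dist (k (ξ (ζ n)) (s (ζ n))) (a' s')
        ≤ dist (k (ξ (ζ n)) (s (ζ n))) (a' (s (ζ n))) + dist (a' (s (ζ n))) (a' s') :=
          dist_triangle _ _ _
      _ < ε / 2 + ε / 2 := by
          rw [dist_eq_norm]
          exact add_lt_add h4 h2
      _ = ε := by ring
  refine ⟨fun n => ξ (ζ n) + N, fun n => y (ξ (ζ n)), fun n => b (ξ (ζ n)), a' s', ?_, ?_, ?_⟩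
  · intro m n hmn
    have := hξ (hζ hmn)
    simp only
    omega
  · intro h
    have h1 := hN.2.2.2.2.2 I' a' s' hI'.1 (hsub1 hs') h 0 h0'
    rw [ha0] at h1
    exact hφ0 h1
  · refine hval.congr fun n => ?_
    have h4 : Real.exp (b (ξ (ζ n))) * Real.exp (-(b (ξ (ζ n)))) = 1 := by
      rw [← Real.exp_add]; simp
    simp only [hk, resc, hs]
    congr 2
    rw [mul_assoc, h4]; ring

end Pool.Agent.QWE
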