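import Pool.Agent.QWE.StG

/-!
# QWE, G13a: limit of a sequence of blowing up solutions
-/

set_option autoImplicit false

open MeasureTheory Filter Topology Set
open scoped ENNReal NNReal RealInnerProductSpace

namespace Pool.Agent.QWE

namespace G13ax

lemma SN_congr {J : Set ℝ} (hJ : MeasurableSet J) {k k' : ℝ → K} (h : ∀ t ∈ J, k t = k' t) :
    SN J k = SN J k' := by
  unfold SN
  exact setLIntegral_congr_fun hJ fun t ht => by rw [h t ht]

lemma SN_mono {J J' : Set ℝ} (h : J ⊆ J') (k : ℝ → K) : SN J k ≤ SN J' k := by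
  unfold SN
  exact lintegral_mono_set h

lemma not_tendsto {s : ℕ → ℝ≥0∞} {B : ℝ≥0∞} (hB : B < ⊤) (h : Tendsto s atTop (𝓝 ⊤)) :
    ∀ᶠ n in atTop, B < s n := h.eventually (lt_mem_nhds hB)

end G13ax

open G13ax in
theorem thm_G13a (stab : St_Stab) (gstab : St_GStab) (blow : St_Blow) (maxe : St_MaxE)
    (uniq : St_Uniq) (snt : St_SNt) (snc : St_SNc) : St_G13a := by
  intro Ac τ δ k φ hτ hsol hδ hbd hSN hk0
  obtain ⟨I, a, hmax, h0I, ha0, -⟩ := maxe φ 0
  have hIsol : IsSol I a := hmax.1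
  have hIoc : I.OrdConnected := hIsol.1
  -- the convergence on `[0, T]`
  have key : ∀ T ∈ I, 0 ≤ T → (∀ᶠ n in atTop, T ≤ τ n) ∧ ∀ ε : ℝ, 0 < ε →
      ∀ᶠ n in atTop, (∀ t ∈ Icc 0 T, ‖k n t - a t‖ < ε) ∧
        SN (Icc 0 T) (fun t => k n t - a t) < ENNReal.ofReal ε := by
    intro T hT hT0
    have hsub : Icc 0 T ⊆ I := hIoc.out h0I hT
    have haT : IsSol (Icc 0 T) a := snc.1 I (Icc 0 T) a hIsol hsub ordConnected_Icc
    have hSNa : SN (Icc 0 T) a < ⊤ :=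
      haT.2.2.1 0 (left_mem_Icc.2 hT0) T (right_mem_Icc.2 hT0)
    have hk0' : Tendsto (fun n => k n 0) atTop (𝓝 (a 0)) := by rw [ha0]; exact hk0
    obtain ⟨kn, h1, h2⟩ := stab 0 T 0 a (fun n => k n 0) le_rfl hT0 haT hk0'
    have hagree : ∀ n, IsSol (Icc 0 T) (kn n) ∧ kn n 0 = k n 0 →
        ∀ t ∈ Icc 0 T, t ∈ Icc 0 (τ n) → kn n t = k n t := by
      intro n hn
      exact uniq (Icc 0 T) (Icc 0 (τ n)) (kn n) (k n) 0 hn.1 (hsol n) (left_mem_Icc.2 hT0)
        (left_mem_Icc.2 (hτ n)) hn.2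
    obtain ⟨B, hB⟩ : ∃ B : ℝ≥0∞, B = (1 + SN (Icc 0 T) a ^ (1 / 4 : ℝ)) ^ (4 : ℝ) := ⟨_, rfl⟩
    have hBtop : B < ⊤ := by
      rw [hB]
      refine ENNReal.rpow_lt_top_of_nonneg (by norm_num) ?_
      refine ENNReal.add_ne_top.2 ⟨ENNReal.one_ne_top, ?_⟩
      exact (ENNReal.rpow_lt_top_of_nonneg (by norm_num) hSNa.ne).ne
    have hbound : ∀ᶠ n in atTop, SN (Icc 0 T) (kn n) ≤ B := by
      filter_upwards [h1, h2 1 one_pos] with n hn1 hn2
      have hc1 : ContinuousOn (kn n) (Icc 0 T) := hn1.1.2.1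
      have hc2 : ContinuousOn a (Icc 0 T) := haT.2.1
      have h3 := (snt (fun t => kn n t - a t) a (Icc 0 T) measurableSet_Icc
        ((hc1.sub hc2).aestronglyMeasurable measurableSet_Icc)
        (hc2.aestronglyMeasurable measurableSet_Icc)).1
      have h4 : (fun t => kn n t - a t + a t) = kn n := by ext1 t; exact sub_add_cancel _ _
      rw [h4] at h3
      have h5 : SN (Icc 0 T) (fun t => kn n t - a t) ^ (1 / 4 : ℝ) ≤ 1 := by
        refine ENNReal.rpow_le_one ?_ (by norm_num)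
        have := hn2.2.le
        rwa [ENNReal.ofReal_one] at this
      have h6 : SN (Icc 0 T) (kn n) ^ (1 / 4 : ℝ) ≤ 1 + SN (Icc 0 T) a ^ (1 / 4 : ℝ) :=
        h3.trans (add_le_add h5 le_rfl)
      have h7 := ENNReal.rpow_le_rpow h6 (by norm_num : (0 : ℝ) ≤ 4)
      rw [← ENNReal.rpow_mul] at h7
      norm_num at h7
      rw [hB]
      norm_num
      exact h7
    have hTτ : ∀ᶠ n in atTop, T ≤ τ n := by
      filter_upwards [h1, hbound, not_tendsto hBtop hSN] with n hn1 hn2 hn3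
      by_contra hlt
      push Not at hlt
      have h3 : SN (Icc 0 (τ n)) (k n) = SN (Icc 0 (τ n)) (kn n) :=
        SN_congr measurableSet_Icc fun t ht => (hagree n hn1 t ⟨ht.1, ht.2.trans hlt.le⟩ ht).symm
      have h4 : SN (Icc 0 (τ n)) (kn n) ≤ SN (Icc 0 T) (kn n) :=
        SN_mono (Icc_subset_Icc_right hlt.le) _
      rw [h3] at hn3
      exact absurd (hn3.trans_le (h4.trans hn2)) (lt_irrefl _)
    refine ⟨hTτ, fun ε hε => ?_⟩
    filter_upwards [h1, h2 ε hε, hTτ] with n hn1 hn2 hn3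
    have h3 : ∀ t ∈ Icc 0 T, kn n t = k n t := fun t ht =>
      hagree n hn1 t ht ⟨ht.1, ht.2.trans hn3⟩
    refine ⟨fun t ht => ?_, ?_⟩
    · rw [← h3 t ht]
      exact hn2.1 t ht
    · have h4 : SN (Icc 0 T) (fun t => k n t - a t) = SN (Icc 0 T) (fun t => kn n t - a t) :=
        SN_congr measurableSet_Icc fun t ht => by
          show k n t - a t = kn n t - a t
          rw [h3 t ht]
      rw [h4]
      exact hn2.2
  refine ⟨I, a, hmax, h0I, ha0, ?_, ?_, key⟩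
  · intro T hT hT0
    obtain ⟨h1, h2⟩ := key T hT hT0
    refine le_of_forall_pos_le_add fun ε hε => ?_
    have h3 : ∀ᶠ n in atTop, δ n < ε / 2 := hδ.eventually (gt_mem_nhds (half_pos hε))
    obtain ⟨n, hn1, hn2, hn3⟩ := (h1.and ((h2 (ε / 2) (half_pos hε)).and h3)).exists
    have h4 := hn2.1 T ⟨hT0, le_rfl⟩
    have h5 := hbd n T ⟨hT0, hn1⟩
    have h6 : ‖a T‖ ≤ ‖k n T‖ + ‖k n T - a T‖ := by
      have h7 := norm_sub_le (k n T) (k n T - a T)
      rwa [sub_sub_cancel] at h7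
    linarith
  · by_contra hne
    have hlt : SN (I ∩ Ici 0) a < ⊤ := lt_top_iff_ne_top.2 hne
    obtain ⟨hIci, -, -⟩ := (blow I a 0 hmax h0I).1 hlt
    have hinter : I ∩ Ici 0 = Ici 0 := inter_eq_right.2 hIci
    rw [hinter] at hlt
    have hsolI : IsSol (Ici 0) a := snc.1 I (Ici 0) a hIsol hIci ordConnected_Ici
    have hk0' : Tendsto (fun n => k n 0) atTop (𝓝 (a 0)) := by rw [ha0]; exact hk0
    obtain ⟨kn, h1⟩ := gstab a (fun n => k n 0) hsolI hlt hk0'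
    have hB : SN (Ici 0) a + 1 < ⊤ := ENNReal.add_lt_top.2 ⟨hlt, ENNReal.one_lt_top⟩
    obtain ⟨n, ⟨hn1, hn2, hn3⟩, hn4⟩ := (h1.and (not_tendsto hB hSN)).exists
    have h3 : SN (Icc 0 (τ n)) (k n) = SN (Icc 0 (τ n)) (kn n) := by
      refine SN_congr measurableSet_Icc fun t ht => ?_
      exact (uniq (Ici 0) (Icc 0 (τ n)) (kn n) (k n) 0 hn1 (hsol n) (mem_Ici.2 le_rfl)
        (left_mem_Icc.2 (hτ n)) hn2 t ht.1 ht).symm
    have h4 : SN (Icc 0 (τ n)) (kn n) ≤ SN (Ici 0) (kn n) :=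
      SN_mono (fun t ht => ht.1) _
    rw [h3] at hn4
    exact absurd (hn4.trans_le (h4.trans hn3)) (lt_irrefl _)

end Pool.Agent.QWE
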