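import Pool.Agent.QWE.StG
import Pool.Agent.QWE.StB
import Pool.Agent.QWE.StA

set_option autoImplicit false

/-!
# QWE / G2 (concentration)
-/

open MeasureTheory Filter Topology Set
open scoped ENNReal NNReal RealInnerProductSpace

namespace Pool.Agent.QWE

namespace G2x

/-- Lyapunov: `‖u‖_20^4 ≤ ‖u‖_10 ‖u‖_30^3`. -/
theorem lyap {u : E → ℝ} (hu : AEStronglyMeasurable u volume) :
    eLpNorm u 20 volume ^ 4 ≤ eLpNorm u 10 volume * eLpNorm u 30 volume ^ 3 := by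
  have hpq : (2 : ℝ).HolderConjugate 2 := Real.HolderConjugate.two_two
  have hm : AEMeasurable (fun x => ‖u x‖ₑ) volume := hu.enorm
  have h1 := ENNReal.lintegral_mul_le_Lp_mul_Lq (volume : Measure E) hpq
    (f := fun x => ‖u x‖ₑ ^ (5 : ℝ)) (g := fun x => ‖u x‖ₑ ^ (15 : ℝ))
    (hm.pow_const _) (hm.pow_const _)
  have e1 : ∀ x, ((fun x => ‖u x‖ₑ ^ (5 : ℝ)) * (fun x => ‖u x‖ₑ ^ (15 : ℝ))) x = ‖u x‖ₑ ^ (20 : ℝ) := by
    intro x
    simp only [Pi.mul_apply]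
    rw [← ENNReal.rpow_add_of_nonneg _ _ (by norm_num) (by norm_num)]; norm_num
  have e2 : ∀ x, (‖u x‖ₑ ^ (5 : ℝ)) ^ (2 : ℝ) = ‖u x‖ₑ ^ (10 : ℝ) := by
    intro x; rw [← ENNReal.rpow_mul]; norm_num
  have e3 : ∀ x, (‖u x‖ₑ ^ (15 : ℝ)) ^ (2 : ℝ) = ‖u x‖ₑ ^ (30 : ℝ) := by
    intro x; rw [← ENNReal.rpow_mul]; norm_num
  simp only [e1, e2, e3] at h1
  rw [eLpNorm_eq_lintegral_rpow_enorm_toReal (by norm_num) (by norm_num),
    eLpNorm_eq_lintegral_rpow_enorm_toReal (by norm_num) (by norm_num),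
    eLpNorm_eq_lintegral_rpow_enorm_toReal (by norm_num) (by norm_num)]
  have t1 : (20 : ℝ≥0∞).toReal = 20 := by simp
  have t2 : (10 : ℝ≥0∞).toReal = 10 := by simp
  have t3 : (30 : ℝ≥0∞).toReal = 30 := by simp
  rw [t1, t2, t3]
  have h2 : ((∫⁻ x, ‖u x‖ₑ ^ (20 : ℝ)) ^ (1 / 20 : ℝ)) ^ 4 =
      (∫⁻ x, ‖u x‖ₑ ^ (20 : ℝ)) ^ (1 / 5 : ℝ) := by
    rw [← ENNReal.rpow_natCast, ← ENNReal.rpow_mul]; norm_num
  have h3 : ((∫⁻ x, ‖u x‖ₑ ^ (30 : ℝ)) ^ (1 / 30 : ℝ)) ^ 3 =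
      (∫⁻ x, ‖u x‖ₑ ^ (30 : ℝ)) ^ (1 / 10 : ℝ) := by
    rw [← ENNReal.rpow_natCast, ← ENNReal.rpow_mul]; norm_num
  rw [h2, h3]
  refine (ENNReal.rpow_le_rpow h1 (by norm_num : (0 : ℝ) ≤ 1 / 5)).trans (le_of_eq ?_)
  rw [ENNReal.mul_rpow_of_nonneg _ _ (by norm_num : (0 : ℝ) ≤ 1 / 5), ← ENNReal.rpow_mul,
    ← ENNReal.rpow_mul]
  norm_num

/-- `(a + b)^3 ≤ 4 (a^3 + b^3)`. -/
theorem cube_add (a b : ℝ≥0∞) : (a + b) ^ 3 ≤ 4 * (a ^ 3 + b ^ 3) := by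
  have h := ENNReal.rpow_add_le_mul_rpow_add_rpow a b (p := 3) (by norm_num)
  have e : (2 : ℝ≥0∞) ^ ((3 : ℝ) - 1) = 4 := by
    have : ((3 : ℝ) - 1) = ((2 : ℕ) : ℝ) := by norm_num
    rw [this, ENNReal.rpow_natCast]; norm_num
  rw [e] at h
  have e3 : (3 : ℝ) = ((3 : ℕ) : ℝ) := by norm_num
  rw [e3, ENNReal.rpow_natCast, ENNReal.rpow_natCast, ENNReal.rpow_natCast] at h
  exact h

/-- Bound of the `L³L³⁰` norm by Duhamel and Strichartz. -/
theorem bound30 (hStr : St_Str) (hDuh : St_DuhI) (hNLb : St_NLb) (hMeas : St_Meas) (hLin : St_Lin)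
    (hGrp : St_Grp1) (hUT : St_UTest) :
    ∃ C : ℝ, 0 < C ∧ ∀ (A : ℝ), 0 ≤ A → ∀ (t0 t1 : ℝ) (k : ℝ → K), t0 ≤ t1 → IsSol (Icc t0 t1) k →
      (∀ t ∈ Icc t0 t1, ‖k t‖ ≤ A) → SN (Icc t0 t1) k = 1 →
      ∫⁻ t in Icc t0 t1, eLpNorm (U (k t)) 30 volume ^ 3 ≤ ENNReal.ofReal (C * A ^ 3) := by
  obtain ⟨C1, hC1, hS⟩ := hStr
  obtain ⟨C2, hC2, hD⟩ := hDuh
  obtain ⟨⟨C3, hC3, hN, -⟩, -⟩ := hNLb
  obtain ⟨-, -, -, -, -, -, -, hcont, -⟩ := hGrp
  refine ⟨4 * (C1 ^ 3 + (C2 * C3) ^ 3), by positivity, ?_⟩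
  intro A hA t0 t1 k h01 hsol hbd hSN
  obtain ⟨-, hkc, -, hduh⟩ := hsol
  have hms : MeasurableSet (Icc t0 t1) := measurableSet_Icc
  have hkm : AEStronglyMeasurable k (volume.restrict (Icc t0 t1)) :=
    hkc.aestronglyMeasurable hms
  have hM := hMeas k (Icc t0 t1) hms hkm
  have hsnm : AEMeasurable (fun r => sn (k r)) (volume.restrict (Icc t0 t1)) := by
    have := hM.1 20 univ (by norm_num) MeasurableSet.univ
    simp only [indicator_univ] at this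
    exact this
  have hfin : ∀ᵐ r ∂(volume.restrict (Icc t0 t1)), sn (k r) < ⊤ := by
    have h1 : ∀ᵐ r ∂(volume.restrict (Icc t0 t1)), sn (k r) ^ 4 < ⊤ := by
      refine ae_lt_top' (hsnm.pow_const 4) ?_
      change SN (Icc t0 t1) k ≠ ⊤
      rw [hSN]; exact ENNReal.one_ne_top
    filter_upwards [h1] with r hr
    by_contra hcon
    rw [not_lt, top_le_iff] at hcon
    rw [hcon] at hr
    simp at hr
  have hNm := hM.2 hfin
  -- integral of the norm of the nonlinearity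
  have hNle : ∫⁻ r in Icc t0 t1, ‖NL (k r)‖ₑ ≤ ENNReal.ofReal (C3 * A) := by
    calc ∫⁻ r in Icc t0 t1, ‖NL (k r)‖ₑ
        ≤ ∫⁻ r in Icc t0 t1, ENNReal.ofReal (C3 * A) * sn (k r) ^ 4 := by
          refine setLIntegral_mono_ae' hms (Eventually.of_forall fun r hr => ?_)
          refine (hN (k r)).trans ?_
          rw [ENNReal.ofReal_mul hC3.le]
          have hkr : ‖k r‖ₑ ≤ ENNReal.ofReal A := by
            rw [← ofReal_norm]; exact ENNReal.ofReal_le_ofReal (hbd r hr)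
          calc ENNReal.ofReal C3 * sn (k r) ^ 4 * ‖k r‖ₑ
              ≤ ENNReal.ofReal C3 * sn (k r) ^ 4 * ENNReal.ofReal A := by gcongr
            _ = ENNReal.ofReal C3 * ENNReal.ofReal A * sn (k r) ^ 4 := by ring
      _ = ENNReal.ofReal (C3 * A) * SN (Icc t0 t1) k := by
          rw [lintegral_const_mul'' _ (hsnm.pow_const 4)]; rfl
      _ = ENNReal.ofReal (C3 * A) := by rw [hSN, mul_one]
  have hNint : IntegrableOn (fun r => NL (k r)) (Icc t0 t1) volume :=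
    ⟨hNm, lt_of_le_of_lt hNle ENNReal.ofReal_lt_top⟩
  have hNr : ∫ r in Icc t0 t1, ‖NL (k r)‖ ≤ C3 * A := by
    rw [integral_norm_eq_lintegral_enorm hNm]
    exact ENNReal.toReal_le_of_le_ofReal (by positivity) hNle
  obtain ⟨-, -, -, hD30⟩ := hD t0 t1 t0 (fun r => NL (k r)) le_rfl h01 hNint
  have ht0 : t0 ∈ Icc t0 t1 := ⟨le_rfl, h01⟩
  have hUm : ∀ κ : K, AEStronglyMeasurable (U κ) volume := fun κ => (hUT.2.1 κ).aestronglyMeasurable
  have key : ∀ t ∈ Icc t0 t1, eLpNorm (U (k t)) 30 volume ^ 3 ≤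
      4 * (eLpNorm (U (tau (t - t0) (k t0))) 30 volume ^ 3 +
        eLpNorm (U (∫ r in t0..t, tau (t - r) (NL (k r)))) 30 volume ^ 3) := by
    intro t ht
    have e1 := hduh t0 ht0 t ht
    have h2 : U (k t) =ᵐ[volume] U (tau (t - t0) (k t0)) -
        U (∫ r in t0..t, tau (t - r) (NL (k r))) := by
      have h3 := (hLin.1 (-1) (tau (t - t0) (k t0)) (∫ r in t0..t, tau (t - r) (NL (k r)))).1
      have e2 : tau (t - t0) (k t0) + (-1 : ℝ) • (∫ r in t0..t, tau (t - r) (NL (k r))) = k t := by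
        rw [e1, neg_one_smul, ← sub_eq_add_neg]
      rw [e2] at h3
      filter_upwards [h3] with x hx
      rw [hx, Pi.sub_apply]; ring
    rw [eLpNorm_congr_ae h2]
    refine le_trans ?_ (cube_add _ _)
    gcongr
    exact eLpNorm_sub_le (hUm _) (hUm _) (by norm_num)
  have hm1 : AEMeasurable (fun t => eLpNorm (U (tau (t - t0) (k t0))) 30 volume)
      (volume.restrict (Icc t0 t1)) := by
    have hc : Continuous fun t => tau (t - t0) (k t0) := (hcont (k t0)).comp (continuous_sub_right t0)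
    have := (hMeas (fun t => tau (t - t0) (k t0)) (Icc t0 t1) hms hc.aestronglyMeasurable).1 30 univ
      (by norm_num) MeasurableSet.univ
    simpa only [indicator_univ] using this
  have hfree : ∫⁻ t in Icc t0 t1, eLpNorm (U (tau (t - t0) (k t0))) 30 volume ^ 3 ≤
      ENNReal.ofReal (C1 ^ 3 * A ^ 3) := by
    calc ∫⁻ t in Icc t0 t1, eLpNorm (U (tau (t - t0) (k t0))) 30 volume ^ 3
        ≤ ∫⁻ t, eLpNorm (U (tau (t - t0) (k t0))) 30 volume ^ 3 := setLIntegral_le_lintegral _ _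
      _ = ∫⁻ t, eLpNorm (U (tau t (k t0))) 30 volume ^ 3 :=
          lintegral_sub_right_eq_self (fun t => eLpNorm (U (tau t (k t0))) 30 volume ^ 3) t0
      _ ≤ (ENNReal.ofReal C1 * ‖k t0‖ₑ) ^ 3 := (hS (k t0)).2
      _ ≤ (ENNReal.ofReal C1 * ENNReal.ofReal A) ^ 3 := by
          have hkr : ‖k t0‖ₑ ≤ ENNReal.ofReal A := by
            rw [← ofReal_norm]; exact ENNReal.ofReal_le_ofReal (hbd t0 ht0)
          gcongr
      _ = ENNReal.ofReal (C1 ^ 3 * A ^ 3) := by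
          rw [← ENNReal.ofReal_mul hC1.le, ← ENNReal.ofReal_pow (by positivity)]
          congr 1; ring
  have hduh2 : ∫⁻ t in Icc t0 t1, eLpNorm (U (∫ r in t0..t, tau (t - r) (NL (k r)))) 30 volume ^ 3 ≤
      ENNReal.ofReal ((C2 * C3) ^ 3 * A ^ 3) := by
    refine hD30.trans ?_
    rw [← ENNReal.ofReal_pow (by positivity)]
    refine ENNReal.ofReal_le_ofReal ?_
    calc (C2 * ∫ r in Icc t0 t1, ‖NL (k r)‖) ^ 3 ≤ (C2 * (C3 * A)) ^ 3 := by gcongr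
      _ = (C2 * C3) ^ 3 * A ^ 3 := by ring
  calc ∫⁻ t in Icc t0 t1, eLpNorm (U (k t)) 30 volume ^ 3
      ≤ ∫⁻ t in Icc t0 t1, 4 * (eLpNorm (U (tau (t - t0) (k t0))) 30 volume ^ 3 +
        eLpNorm (U (∫ r in t0..t, tau (t - r) (NL (k r)))) 30 volume ^ 3) :=
        setLIntegral_mono' hms key
    _ = 4 * ((∫⁻ t in Icc t0 t1, eLpNorm (U (tau (t - t0) (k t0))) 30 volume ^ 3) +
        ∫⁻ t in Icc t0 t1, eLpNorm (U (∫ r in t0..t, tau (t - r) (NL (k r)))) 30 volume ^ 3) := by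
        rw [lintegral_const_mul' _ _ (by norm_num), lintegral_add_left' (hm1.pow_const 3)]
    _ ≤ 4 * (ENNReal.ofReal (C1 ^ 3 * A ^ 3) + ENNReal.ofReal ((C2 * C3) ^ 3 * A ^ 3)) := by
        gcongr
    _ = ENNReal.ofReal (4 * (C1 ^ 3 + (C2 * C3) ^ 3) * A ^ 3) := by
        rw [← ENNReal.ofReal_add (by positivity) (by positivity)]
        have : (4 : ℝ≥0∞) = ENNReal.ofReal 4 := by simp
        rw [this, ← ENNReal.ofReal_mul (by norm_num)]
        congr 1; ring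

end G2x

open G2x in
theorem thm_G2 (hRS : St_RSob) (hStr : St_Str) (hDuh : St_DuhI) (hNLb : St_NLb) (hMeas : St_Meas)
    (hLin : St_Lin) (hGrp : St_Grp1) (hUT : St_UTest) : St_G2 := by
  intro ψ hψ A
  obtain ⟨C0, hC0, hR⟩ := hRS ψ hψ
  obtain ⟨C, hC, hB⟩ := bound30 hStr hDuh hNLb hMeas hLin hGrp hUT
  set A' : ℝ := max A 1 with hA'
  have hA1 : (1 : ℝ) ≤ A' := le_max_right _ _
  have hA0 : (0 : ℝ) < A' := lt_of_lt_of_le one_pos hA1
  set D : ℝ := C0 * A' ^ (1 / 5 : ℝ) * (C * A' ^ 3) with hDdef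
  have hDpos : 0 < D := by positivity
  set c : ℝ := (1 / (2 * D)) ^ (5 / 4 : ℝ) with hcdef
  have hcpos : 0 < c := by positivity
  have hc45 : c ^ (4 / 5 : ℝ) = 1 / (2 * D) := by
    rw [hcdef, ← Real.rpow_mul (by positivity)]; norm_num
  refine ⟨c, hcpos, ?_⟩
  intro t0 t1 k hsol hbd hSN
  have h01 : t0 ≤ t1 := by
    by_contra hcon
    rw [Icc_eq_empty hcon] at hSN
    simp [SN] at hSN
  have hbd' : ∀ t ∈ Icc t0 t1, ‖k t‖ ≤ A' := fun t ht => (hbd t ht).trans (le_max_left _ _)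
  have h30 := hB A' hA0.le t0 t1 k h01 hsol hbd' hSN
  by_contra hcon
  push Not at hcon
  have hUm : ∀ κ : K, AEStronglyMeasurable (U κ) volume := fun κ => (hUT.2.1 κ).aestronglyMeasurable
  have h10 : ∀ t ∈ Icc t0 t1, eLpNorm (U (k t)) 10 volume ≤
      ENNReal.ofReal (C0 * c ^ (4 / 5 : ℝ) * A' ^ (1 / 5 : ℝ)) := by
    intro t ht
    refine (hR (k t) c hcpos.le fun y a => (hcon t ht y a).le).trans ?_
    refine ENNReal.ofReal_le_ofReal ?_
    have : ‖k t‖ ^ (1 / 5 : ℝ) ≤ A' ^ (1 / 5 : ℝ) :=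
      Real.rpow_le_rpow (norm_nonneg _) (hbd' t ht) (by norm_num)
    gcongr
  have hle : SN (Icc t0 t1) k ≤ ENNReal.ofReal (1 / 2) := by
    calc SN (Icc t0 t1) k = ∫⁻ t in Icc t0 t1, sn (k t) ^ 4 := rfl
      _ ≤ ∫⁻ t in Icc t0 t1, ENNReal.ofReal (C0 * c ^ (4 / 5 : ℝ) * A' ^ (1 / 5 : ℝ)) *
            eLpNorm (U (k t)) 30 volume ^ 3 := by
          refine setLIntegral_mono' measurableSet_Icc fun t ht => ?_
          refine (lyap (hUm (k t))).trans ?_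
          gcongr
          exact h10 t ht
      _ = ENNReal.ofReal (C0 * c ^ (4 / 5 : ℝ) * A' ^ (1 / 5 : ℝ)) *
            ∫⁻ t in Icc t0 t1, eLpNorm (U (k t)) 30 volume ^ 3 :=
          lintegral_const_mul' _ _ ENNReal.ofReal_ne_top
      _ ≤ ENNReal.ofReal (C0 * c ^ (4 / 5 : ℝ) * A' ^ (1 / 5 : ℝ)) *
            ENNReal.ofReal (C * A' ^ 3) := by gcongr
      _ = ENNReal.ofReal (1 / 2) := by
          rw [← ENNReal.ofReal_mul (by positivity)]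
          congr 1
          rw [hc45]
          have : C0 * (1 / (2 * D)) * A' ^ (1 / 5 : ℝ) * (C * A' ^ 3) = D / (2 * D) := by
            rw [hDdef]; ring
          rw [this]; field_simp
  rw [hSN] at hle
  have h2 : ENNReal.ofReal (1 / 2) < 1 := by
    rw [ENNReal.ofReal_lt_one]; norm_num
  exact absurd hle (not_le.2 h2)

end Pool.Agent.QWE
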