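import Pool.Agent.QWE.StA

set_option autoImplicit false

/-!
# QWE NFb (MP_9ce95b_an): bound of the regularised near field (helper66)
-/

open MeasureTheory Filter Topology Set
open scoped ENNReal NNReal RealInnerProductSpace ContDiff Pointwise

namespace Pool.Agent.QWE.NFbx

/-- the product measure on `S × E`. -/
noncomputable abbrev nu : Measure (S × E) := sg.prod (volume : Measure E)

/-- basic integrals. -/
noncomputable def GG (h : S × E → ℝ) (σ : ℝ) (ψ : ℝ → ℝ) (x : E) : ℝ :=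
  ∫ z : S × E, h z * ψ (inner ℝ (x - z.2) (z.1 : E) + σ) ∂nu

lemma bdd_of_cs {X : Type*} [TopologicalSpace X] {f : X → ℝ} (hf : Continuous f)
    (hc : HasCompactSupport f) : ∃ C : ℝ, 0 ≤ C ∧ ∀ x, |f x| ≤ C := by
  obtain ⟨C, hC⟩ := hf.bounded_above_of_compact_support hc
  refine ⟨|C|, abs_nonneg _, fun x => ?_⟩
  have := hC x
  rw [Real.norm_eq_abs] at this
  exact this.trans (le_abs_self _)

lemma sm_cont {ψ : ℝ → ℝ} (h : Sm ψ) : Continuous ψ := ContDiff.continuous h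

lemma sm_deriv {ψ : ℝ → ℝ} (h : Sm ψ) : Sm (deriv ψ) := by
  have h1 : ContDiff ℝ (((⊤ : ℕ∞) : WithTop ℕ∞) + 1) ψ := h
  exact (contDiff_succ_iff_deriv.1 h1).2.2

lemma sm_hasDerivAt {ψ : ℝ → ℝ} (h : Sm ψ) (t : ℝ) : HasDerivAt ψ (deriv ψ t) t := by
  have h1 : Differentiable ℝ ψ := ContDiff.differentiable h (by simp)
  exact (h1 t).hasDerivAt

lemma single_inner (w : E) (i : Fin 5) : inner ℝ w (EuclideanSpace.single i (1 : ℝ)) = w i := by
  simp [EuclideanSpace.inner_single_right]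

lemma GG_hasFDerivAt (h : S × E → ℝ) (σ : ℝ) (ψ : ℝ → ℝ) (hh : Continuous h)
    (hhc : HasCompactSupport h) (hψ : Sm ψ) (hψc : HasCompactSupport ψ) (x : E) :
    HasFDerivAt (GG h σ ψ) (∑ i : Fin 5, GG (fun z => h z * (z.1 : E) i) σ (deriv ψ) x •
      (EuclideanSpace.proj i : E →L[ℝ] ℝ)) x := by
  obtain ⟨C, hC0, hC⟩ := bdd_of_cs (sm_cont (sm_deriv hψ)) hψc.deriv
  have hint : Integrable h nu := hh.integrable_of_hasCompactSupport hhc
  have hψ1 : Continuous ψ := sm_cont hψ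
  have hψ2 : Continuous (deriv ψ) := sm_cont (sm_deriv hψ)
  have key := hasFDerivAt_integral_of_dominated_of_fderiv_le (𝕜 := ℝ) (μ := nu)
    (F := fun (x : E) (z : S × E) => h z * ψ (inner ℝ (x - z.2) (z.1 : E) + σ))
    (F' := fun (x : E) (z : S × E) =>
      (h z * deriv ψ (inner ℝ (x - z.2) (z.1 : E) + σ)) • innerSL ℝ (z.1 : E))
    (x₀ := x) (bound := fun z => |h z| * C) (s := univ) univ_mem
    (Eventually.of_forall fun x' => by
      apply Continuous.aestronglyMeasurable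
      fun_prop)
    (by
      refine Continuous.integrable_of_hasCompactSupport (by fun_prop) ?_
      exact hhc.mul_right)
    (by
      apply Continuous.aestronglyMeasurable
      fun_prop)
    (Eventually.of_forall fun z x' _ => by
      rw [norm_smul, innerSL_apply_norm, Real.norm_eq_abs, abs_mul]
      have hz : ‖(z.1 : E)‖ = 1 := by simp
      rw [hz, mul_one]
      exact mul_le_mul_of_nonneg_left (hC _) (abs_nonneg _))
    (hint.abs.mul_const C)
    (Eventually.of_forall fun z x' _ => by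
      have h1 : HasFDerivAt (fun x' : E => inner ℝ (x' - z.2) (z.1 : E) + σ)
          (innerSL ℝ (z.1 : E)) x' := by
        have h2 : (fun x' : E => inner ℝ (x' - z.2) (z.1 : E) + σ) =
            fun x' : E => innerSL ℝ (z.1 : E) x' + (- inner ℝ z.2 (z.1 : E) + σ) := by
          funext x'
          rw [inner_sub_left, innerSL_apply_apply, real_inner_comm x' (z.1 : E)]
          ring
        rw [h2]
        exact (innerSL ℝ (z.1 : E)).hasFDerivAt.add_const _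
      have h3 := (sm_hasDerivAt hψ (inner ℝ (x' - z.2) (z.1 : E) + σ)).comp_hasFDerivAt x' h1
      have h4 := h3.const_mul (h z)
      rw [smul_smul] at h4
      exact h4)
  have hint2 : Integrable (fun z : S × E =>
      (h z * deriv ψ (inner ℝ (x - z.2) (z.1 : E) + σ)) • innerSL ℝ (z.1 : E)) nu := by
    refine Continuous.integrable_of_hasCompactSupport (by fun_prop) ?_
    exact (hhc.mul_right).smul_right
  have he : (∑ i : Fin 5, GG (fun z => h z * (z.1 : E) i) σ (deriv ψ) x •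
      (EuclideanSpace.proj i : E →L[ℝ] ℝ)) =
      ∫ z : S × E, (h z * deriv ψ (inner ℝ (x - z.2) (z.1 : E) + σ)) •
        innerSL ℝ (z.1 : E) ∂nu := by
    ext v
    rw [ContinuousLinearMap.integral_apply hint2]
    simp only [_root_.sum_apply, _root_.smul_apply,
      innerSL_apply_apply, smul_eq_mul, GG]
    have h5 : ∀ z : S × E, h z * deriv ψ (inner ℝ (x - z.2) (z.1 : E) + σ) *
        inner ℝ (z.1 : E) v = ∑ i : Fin 5, (h z * (z.1 : E) i *
          deriv ψ (inner ℝ (x - z.2) (z.1 : E) + σ)) * v i := by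
      intro z
      have h6 : inner ℝ (z.1 : E) v = ∑ i : Fin 5, (z.1 : E) i * v i := by
        rw [PiLp.inner_apply]
        apply Finset.sum_congr rfl
        intro i _
        simp [mul_comm]
      rw [h6, Finset.mul_sum]
      apply Finset.sum_congr rfl
      intro i _
      ring
    simp_rw [h5]
    rw [integral_finsetSum]
    · apply Finset.sum_congr rfl
      intro i _
      rw [integral_mul_const]
      rfl
    · intro i _
      refine Integrable.mul_const ?_ _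
      refine Continuous.integrable_of_hasCompactSupport (by fun_prop) ?_
      exact (hhc.mul_right).mul_right
  rw [he]
  exact key

lemma GG_pd (h : S × E → ℝ) (σ : ℝ) (ψ : ℝ → ℝ) (hh : Continuous h)
    (hhc : HasCompactSupport h) (hψ : Sm ψ) (hψc : HasCompactSupport ψ) (i : Fin 5) (x : E) :
    pd i (GG h σ ψ) x = GG (fun z => h z * (z.1 : E) i) σ (deriv ψ) x := by
  rw [pd, (GG_hasFDerivAt h σ ψ hh hhc hψ hψc x).fderiv]
  simp only [_root_.sum_apply, _root_.smul_apply, smul_eq_mul]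
  rw [Finset.sum_eq_single i]
  · simp
  · intro j _ hj
    have h1 : (EuclideanSpace.proj j : E →L[ℝ] ℝ) (EuclideanSpace.single i (1 : ℝ)) = 0 := by
      simp [hj]
    rw [h1, mul_zero]
  · simp

lemma GG_contDiff_nat (n : ℕ) : ∀ (h : S × E → ℝ) (σ : ℝ) (ψ : ℝ → ℝ), Continuous h →
    HasCompactSupport h → Sm ψ → HasCompactSupport ψ → ContDiff ℝ n (GG h σ ψ) := by
  induction n with
  | zero =>
    intro h σ ψ hh hhc hψ hψc
    have h1 : Continuous (GG h σ ψ) := continuous_iff_continuousAt.2 fun x =>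
      (GG_hasFDerivAt h σ ψ hh hhc hψ hψc x).continuousAt
    exact_mod_cast contDiff_zero.2 h1
  | succ n ih =>
    intro h σ ψ hh hhc hψ hψc
    have h1 : ContDiff ℝ ((n : WithTop ℕ∞) + 1) (GG h σ ψ) := by
      rw [contDiff_succ_iff_fderiv]
      refine ⟨fun x => (GG_hasFDerivAt h σ ψ hh hhc hψ hψc x).differentiableAt, by simp, ?_⟩
      have h2 : fderiv ℝ (GG h σ ψ) = fun x => ∑ i : Fin 5,
          GG (fun z => h z * (z.1 : E) i) σ (deriv ψ) x •
          (EuclideanSpace.proj i : E →L[ℝ] ℝ) := by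
        funext x
        exact (GG_hasFDerivAt h σ ψ hh hhc hψ hψc x).fderiv
      rw [h2]
      apply ContDiff.sum
      intro i _
      exact (ih _ σ _ (by fun_prop) hhc.mul_right (sm_deriv hψ) hψc.deriv).smul contDiff_const
    exact_mod_cast h1

lemma GG_SmE (h : S × E → ℝ) (σ : ℝ) (ψ : ℝ → ℝ) (hh : Continuous h)
    (hhc : HasCompactSupport h) (hψ : Sm ψ) (hψc : HasCompactSupport ψ) : SmE (GG h σ ψ) :=
  contDiff_infty.2 fun n => GG_contDiff_nat n h σ ψ hh hhc hψ hψc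

/-! ### the function `kap` -/

lemma sm_iter {ψ : ℝ → ℝ} (h : Sm ψ) (n : ℕ) : Sm (iteratedDeriv n ψ) := by
  induction n with
  | zero => simpa [iteratedDeriv_zero] using h
  | succ n ih => rw [iteratedDeriv_succ]; exact sm_deriv ih

lemma cs_iter {ψ : ℝ → ℝ} (h : HasCompactSupport ψ) (n : ℕ) :
    HasCompactSupport (iteratedDeriv n ψ) := by
  induction n with
  | zero => simpa [iteratedDeriv_zero] using h
  | succ n ih => rw [iteratedDeriv_succ]; exact ih.deriv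

lemma iter_deriv (ψ : ℝ → ℝ) (n : ℕ) : iteratedDeriv n (deriv ψ) = deriv (iteratedDeriv n ψ) := by
  rw [← iteratedDeriv_succ', iteratedDeriv_succ]

lemma cs_of_zero {ψ : ℝ → ℝ} (r : ℝ) (h : ∀ p, r ≤ |p| → ψ p = 0) : HasCompactSupport ψ := by
  refine HasCompactSupport.intro (isCompact_Icc (a := -r) (b := r)) fun p hp => h p ?_
  by_contra h1
  push Not at h1
  exact hp ⟨(abs_lt.1 h1).1.le, (abs_lt.1 h1).2.le⟩

lemma cs_F {F : E → ℝ} (hF : HasCompactSupport F) :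
    HasCompactSupport (fun z : S × E => F z.2) := by
  refine HasCompactSupport.intro (K := univ ×ˢ tsupport F) (isCompact_univ.prod hF)
    fun z hz => ?_
  apply image_eq_zero_of_notMem_tsupport
  intro h1
  exact hz ⟨mem_univ _, h1⟩

/-- coefficients. -/
noncomputable def cf (j : ℕ) : ℝ := (Nat.choose 3 j : ℝ) * (-1) ^ (3 - j)

/-- the integrand of `kap`. -/
noncomputable def kf (θ : ℝ → ℝ) (F : E → ℝ) (σ : ℝ) (φ : ℝ → ℝ) (z : S × ℝ) (y : E) : ℝ :=
  F y * ∑ j ∈ Finset.range 4, (Nat.choose 3 j : ℝ) * (-1) ^ (3 - j) *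
    iteratedDeriv j θ (inner ℝ y (z.1 : E) - σ) *
    iteratedDeriv (3 - j) φ (z.2 - (inner ℝ y (z.1 : E) - σ))

lemma kap_eq (θ : ℝ → ℝ) (F : E → ℝ) (σ : ℝ) (φ : ℝ → ℝ) (z : S × ℝ) :
    kap θ F σ φ z = c0 * ∫ y, kf θ F σ φ z y := rfl

lemma kf_cont {θ : ℝ → ℝ} {F : E → ℝ} {φ : ℝ → ℝ} (σ : ℝ) (hθ : Sm θ) (hF : Continuous F)
    (hφ : Sm φ) : Continuous (Function.uncurry (kf θ F σ φ)) := by
  unfold Function.uncurry kf
  have h1 : ∀ j, Continuous (iteratedDeriv j θ) := fun j => sm_cont (sm_iter hθ j)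
  have h2 : ∀ j, Continuous (iteratedDeriv (3 - j) φ) := fun j => sm_cont (sm_iter hφ (3 - j))
  apply Continuous.mul (by fun_prop)
  apply continuous_finsetSum
  intro j _
  have h3 := h1 j
  have h4 := h2 j
  fun_prop

lemma kap_cont {θ : ℝ → ℝ} {F : E → ℝ} {φ : ℝ → ℝ} (σ : ℝ) (hθ : Sm θ) (hF : Continuous F)
    (hFc : HasCompactSupport F) (hφ : Sm φ) : Continuous (kap θ F σ φ) := by
  have h1 : kap θ F σ φ = fun z => c0 * ∫ y in tsupport F, kf θ F σ φ z y := by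
    funext z
    rw [kap_eq, setIntegral_eq_integral_of_forall_compl_eq_zero]
    intro y hy
    rw [kf, image_eq_zero_of_notMem_tsupport hy, zero_mul]
  rw [h1]
  exact continuous_const.mul
    (continuous_parametric_integral_of_continuous (kf_cont σ hθ hF hφ) hFc)

lemma kap_hasDerivAt {θ : ℝ → ℝ} {F : E → ℝ} {φ : ℝ → ℝ} (σ : ℝ) (hθ : Sm θ)
    (hθc : HasCompactSupport θ) (hF : Continuous F)
    (hFc : HasCompactSupport F) (hφ : Sm φ) (hφc : HasCompactSupport φ) (w : S) (p : ℝ) :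
    HasDerivAt (fun p => kap θ F σ φ (w, p)) (kap θ F σ (deriv φ) (w, p)) p := by
  have hb : ∃ D : ℝ, ∀ (p : ℝ) (y : E), |kf θ F σ (deriv φ) (w, p) y| ≤ |F y| * D := by
    have h1 : ∀ j, ∃ C : ℝ, 0 ≤ C ∧ ∀ s, |iteratedDeriv j θ s| ≤ C := fun j =>
      bdd_of_cs (sm_cont (sm_iter hθ j)) (cs_iter hθc j)
    have h2 : ∀ j, ∃ C : ℝ, 0 ≤ C ∧ ∀ s, |iteratedDeriv (3 - j) (deriv φ) s| ≤ C := fun j =>
      bdd_of_cs (sm_cont (sm_iter (sm_deriv hφ) (3 - j))) (cs_iter hφc.deriv (3 - j))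
    choose A hA0 hA using h1
    choose B hB0 hB using h2
    refine ⟨∑ j ∈ Finset.range 4, |(Nat.choose 3 j : ℝ) * (-1) ^ (3 - j)| * A j * B j,
      fun p y => ?_⟩
    rw [kf, abs_mul]
    apply mul_le_mul_of_nonneg_left _ (abs_nonneg _)
    refine (Finset.abs_sum_le_sum_abs _ _).trans ?_
    apply Finset.sum_le_sum
    intro j _
    rw [abs_mul, abs_mul (_ * _) (iteratedDeriv j θ _)]
    apply mul_le_mul _ (hB j _) (abs_nonneg _) (by have := hA0 j; positivity)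
    exact mul_le_mul_of_nonneg_left (hA j _) (abs_nonneg _)
  obtain ⟨D, hD⟩ := hb
  have hc1 := kf_cont σ hθ hF hφ
  have hc2 := kf_cont σ hθ hF (sm_deriv hφ)
  have key := hasDerivAt_integral_of_dominated_loc_of_deriv_le (𝕜 := ℝ)
    (μ := (volume : Measure E))
    (F := fun (p : ℝ) (y : E) => kf θ F σ φ (w, p) y)
    (F' := fun (p : ℝ) (y : E) => kf θ F σ (deriv φ) (w, p) y)
    (x₀ := p) (bound := fun y => |F y| * D) (s := univ) univ_mem
    (Eventually.of_forall fun p' => by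
      apply Continuous.aestronglyMeasurable
      exact hc1.comp (by fun_prop : Continuous fun y : E => (((w, p') : S × ℝ), y)))
    (by
      refine Continuous.integrable_of_hasCompactSupport
        (hc1.comp (by fun_prop : Continuous fun y : E => (((w, p) : S × ℝ), y))) ?_
      exact hFc.mul_right)
    (by
      apply Continuous.aestronglyMeasurable
      exact hc2.comp (by fun_prop : Continuous fun y : E => (((w, p) : S × ℝ), y)))
    (Eventually.of_forall fun y p' _ => hD p' y)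
    (((hF.integrable_of_hasCompactSupport hFc).abs).mul_const D)
    (Eventually.of_forall fun y p' _ => by
      unfold kf
      apply HasDerivAt.const_mul
      apply HasDerivAt.fun_sum
      intro j _
      dsimp only
      apply HasDerivAt.const_mul
      rw [iter_deriv]
      have h1 : HasDerivAt (fun p : ℝ => p - (inner ℝ y (w : E) - σ)) 1 p' :=
        (hasDerivAt_id p').sub_const _
      have h2 := (sm_hasDerivAt (sm_iter hφ (3 - j)) (p' - (inner ℝ y (w : E) - σ))).comp p' h1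
      rw [mul_one] at h2
      exact h2)
  have h3 := key.2.const_mul c0
  exact h3

/-- the field of `kap`. -/
noncomputable def uu (θ : ℝ → ℝ) (F : E → ℝ) (σ : ℝ) (φ : ℝ → ℝ) (x : E) : ℝ :=
  ∫ w : S, kap θ F σ φ (w, inner ℝ x (w : E)) ∂sg

/-- the density for `GG`. -/
noncomputable def hj (a : E → ℝ) (θ : ℝ → ℝ) (F : E → ℝ) (σ : ℝ) (j : ℕ) (z : S × E) : ℝ :=
  a (z.1 : E) * (F z.2 * iteratedDeriv j θ (inner ℝ z.2 (z.1 : E) - σ))

lemma hj_cont {a : E → ℝ} {θ : ℝ → ℝ} {F : E → ℝ} (σ : ℝ) (j : ℕ) (ha : Continuous a)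
    (hθ : Sm θ) (hF : Continuous F) : Continuous (hj a θ F σ j) := by
  unfold hj
  have h1 : Continuous (iteratedDeriv j θ) := sm_cont (sm_iter hθ j)
  fun_prop

lemma hj_cs (a : E → ℝ) (θ : ℝ → ℝ) {F : E → ℝ} (σ : ℝ) (j : ℕ)
    (hF : HasCompactSupport F) : HasCompactSupport (hj a θ F σ j) := by
  unfold hj
  exact ((cs_F hF).mul_right).mul_left

lemma uu_eq {θ : ℝ → ℝ} {F : E → ℝ} {φ : ℝ → ℝ} (σ : ℝ) (hθ : Sm θ) (hF : Continuous F)
    (hFc : HasCompactSupport F) (hφ : Sm φ) (x : E) :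
    uu θ F σ φ x = c0 * ∑ j ∈ Finset.range 4, cf j *
      GG (hj (fun _ => 1) θ F σ j) σ (iteratedDeriv (3 - j) φ) x := by
  have hcont : Continuous fun z : S × E => kf θ F σ φ (z.1, inner ℝ x (z.1 : E)) z.2 :=
    (kf_cont σ hθ hF hφ).comp
      (by fun_prop : Continuous fun z : S × E => ((z.1, inner ℝ x (z.1 : E)), z.2))
  have hcs : HasCompactSupport fun z : S × E => kf θ F σ φ (z.1, inner ℝ x (z.1 : E)) z.2 :=
    (cs_F hFc).mul_right
  have hint := hcont.integrable_of_hasCompactSupport (μ := nu) hcs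
  unfold uu
  simp_rw [kap_eq]
  rw [integral_const_mul]
  congr 1
  rw [← integral_prod (fun z : S × E => kf θ F σ φ (z.1, inner ℝ x (z.1 : E)) z.2) hint]
  have h1 : ∀ z : S × E, kf θ F σ φ (z.1, inner ℝ x (z.1 : E)) z.2 =
      ∑ j ∈ Finset.range 4, cf j * (hj (fun _ => 1) θ F σ j z *
        iteratedDeriv (3 - j) φ (inner ℝ (x - z.2) (z.1 : E) + σ)) := by
    intro z
    rw [kf, Finset.mul_sum]
    apply Finset.sum_congr rfl
    intro j _
    have h2 : inner ℝ x (z.1 : E) - (inner ℝ z.2 (z.1 : E) - σ) =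
        inner ℝ (x - z.2) (z.1 : E) + σ := by
      rw [inner_sub_left]
      ring
    simp only [h2, hj, cf]
    ring
  simp_rw [h1]
  rw [integral_finsetSum]
  · apply Finset.sum_congr rfl
    intro j _
    rw [integral_const_mul]
    rfl
  · intro j _
    refine Integrable.const_mul ?_ _
    have h3 := hj_cont (a := fun _ => 1) σ j continuous_const hθ hF
    have h4 : Continuous (iteratedDeriv (3 - j) φ) := sm_cont (sm_iter hφ (3 - j))
    refine Continuous.integrable_of_hasCompactSupport (by fun_prop) ?_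
    exact (hj_cs _ θ σ j hFc).mul_right

/-- pairing with `Rk`. -/
lemma pair_Rk (hR : St_RadT) {θ : ℝ → ℝ} {F : E → ℝ} {φ : ℝ → ℝ} (σ : ℝ) (hθ : Sm θ)
    (hF : Continuous F) (hFc : HasCompactSupport F) (hφ : Sm φ)
    (hm : MemLp (kap θ F σ φ) 2 mu) {ψ : E → ℝ} (hψ : IsTest ψ) :
    inner ℝ (toK (kap θ F σ φ)) (Rk ψ) = ∫ x, uu θ F σ φ x * ψ x := by
  obtain ⟨hR1, -, -, -, hR5, hR6, -⟩ := hR ψ hψ
  have hk := kap_cont σ hθ hF hFc hφ
  have h1 : inner ℝ (toK (kap θ F σ φ)) (Rk ψ) = ∫ z, Rad ψ z * kap θ F σ φ z ∂mu := by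
    rw [L2.inner_def]
    apply integral_congr_ae
    filter_upwards [toK_coe hm, hR6] with z hz1 hz2
    rw [hz1, hz2]
    simp
  have hmR : MemLp (Rad ψ) 2 mu := (Lp.memLp (Rk ψ)).ae_eq hR6
  have hint : Integrable (fun z => Rad ψ z * kap θ F σ φ z) mu := hmR.integrable_mul hm
  rw [h1, integral_prod _ hint]
  have h2 : ∀ w : S, ∫ p, Rad ψ (w, p) * kap θ F σ φ (w, p) =
      ∫ x, ψ x * kap θ F σ φ (w, inner ℝ x (w : E)) := fun w =>
    hR5 w (fun p => kap θ F σ φ (w, p)) (hk.comp (by fun_prop))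
  simp_rw [h2]
  have hcont : Continuous fun z : S × E => ψ z.2 * kap θ F σ φ (z.1, inner ℝ z.2 (z.1 : E)) := by
    have h3 : Continuous ψ := hψ.1.continuous
    have h4 : Continuous fun z : S × E => kap θ F σ φ (z.1, inner ℝ z.2 (z.1 : E)) :=
      hk.comp (by fun_prop)
    fun_prop
  have hcs : HasCompactSupport
      fun z : S × E => ψ z.2 * kap θ F σ φ (z.1, inner ℝ z.2 (z.1 : E)) :=
    (cs_F hψ.2).mul_right
  rw [integral_integral_swap (μ := sg) (ν := (volume : Measure E))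
    (f := fun (w : S) (x : E) => ψ x * kap θ F σ φ (w, inner ℝ x (w : E)))
    (hcont.integrable_of_hasCompactSupport hcs)]
  apply integral_congr_ae
  refine Eventually.of_forall fun x => ?_
  simp only [uu]
  rw [integral_const_mul, mul_comm]

/-- pairing with `dRk`. -/
lemma pair_dRk (hR : St_RadT) {θ : ℝ → ℝ} {F : E → ℝ} {φ : ℝ → ℝ} (σ : ℝ) (hθ : Sm θ)
    (hθc : HasCompactSupport θ) (hF : Continuous F) (hFc : HasCompactSupport F) (hφ : Sm φ)
    (hφc : HasCompactSupport φ)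
    (hm : MemLp (kap θ F σ φ) 2 mu) {ψ : E → ℝ} (hψ : IsTest ψ) :
    inner ℝ (toK (kap θ F σ φ)) (dRk ψ) = ∫ x, -uu θ F σ (deriv φ) x * ψ x := by
  obtain ⟨hR1, hR2, hR3, hR4, hR5, hR6, hR7⟩ := hR ψ hψ
  have hk := kap_cont σ hθ hF hFc hφ
  have hk' := kap_cont σ hθ hF hFc (sm_deriv hφ)
  have h1 : inner ℝ (toK (kap θ F σ φ)) (dRk ψ) = ∫ z, kap θ F σ φ z * dRad ψ z ∂mu := by
    rw [L2.inner_def]
    apply integral_congr_ae
    filter_upwards [toK_coe hm, hR7] with z hz1 hz2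
    rw [hz1, hz2]
    simp [mul_comm]
  have hmR : MemLp (dRad ψ) 2 mu := (Lp.memLp (dRk ψ)).ae_eq hR7
  have hint : Integrable (fun z => kap θ F σ φ z * dRad ψ z) mu := hm.integrable_mul hmR
  rw [h1, integral_prod _ hint]
  obtain ⟨ρ, hρ⟩ : ∃ ρ : ℝ, tsupport ψ ⊆ Metric.closedBall (0 : E) ρ := by
    obtain ⟨ρ, hρ⟩ := (hψ.2.isBounded : Bornology.IsBounded (tsupport ψ)).subset_closedBall 0
    exact ⟨ρ, hρ⟩
  have hz : ∀ (w : S) (p : ℝ), ρ ≤ |p| → Rad ψ (w, p) = 0 ∧ dRad ψ (w, p) = 0 := by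
    intro w p hp
    have := hR3 0 ρ hρ (w, p)
    simpa using this (by simpa using hp)
  have h2 : ∀ w : S, ∫ p, kap θ F σ φ (w, p) * dRad ψ (w, p) =
      - ∫ x, ψ x * kap θ F σ (deriv φ) (w, inner ℝ x (w : E)) := by
    intro w
    have hc1 : Continuous fun p => kap θ F σ φ (w, p) := hk.comp (by fun_prop)
    have hc2 : Continuous fun p => kap θ F σ (deriv φ) (w, p) := hk'.comp (by fun_prop)
    have hc3 : Continuous fun p => Rad ψ (w, p) := hR1.comp (by fun_prop)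
    have hc4 : Continuous fun p => dRad ψ (w, p) := hR2.comp (by fun_prop)
    have hs3 : HasCompactSupport fun p => Rad ψ (w, p) := cs_of_zero ρ fun p hp => (hz w p hp).1
    have hs4 : HasCompactSupport fun p => dRad ψ (w, p) :=
      cs_of_zero ρ fun p hp => (hz w p hp).2
    rw [integral_mul_deriv_eq_deriv_mul_of_integrable
      (u := fun p => kap θ F σ φ (w, p)) (v := fun p => Rad ψ (w, p))
      (u' := fun p => kap θ F σ (deriv φ) (w, p)) (v' := fun p => dRad ψ (w, p))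
      (fun p _ => kap_hasDerivAt σ hθ hθc hF hFc hφ hφc w p)
      (fun p _ => (hR4 w p).1)
      ((hc1.mul hc4).integrable_of_hasCompactSupport hs4.mul_left)
      ((hc2.mul hc3).integrable_of_hasCompactSupport hs3.mul_left)
      ((hc1.mul hc3).integrable_of_hasCompactSupport hs3.mul_left)]
    rw [← hR5 w (fun p => kap θ F σ (deriv φ) (w, p)) hc2]
    congr 1
    apply integral_congr_ae
    exact Eventually.of_forall fun p => mul_comm _ _
  simp_rw [h2]
  have hcont : Continuous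
      fun z : S × E => ψ z.2 * kap θ F σ (deriv φ) (z.1, inner ℝ z.2 (z.1 : E)) := by
    have h3 : Continuous ψ := hψ.1.continuous
    have h4 : Continuous fun z : S × E => kap θ F σ (deriv φ) (z.1, inner ℝ z.2 (z.1 : E)) :=
      hk'.comp (by fun_prop)
    fun_prop
  have hcs : HasCompactSupport
      fun z : S × E => ψ z.2 * kap θ F σ (deriv φ) (z.1, inner ℝ z.2 (z.1 : E)) :=
    (cs_F hψ.2).mul_right
  rw [integral_neg, integral_integral_swap (μ := sg) (ν := (volume : Measure E))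
    (f := fun (w : S) (x : E) => ψ x * kap θ F σ (deriv φ) (w, inner ℝ x (w : E)))
    (hcont.integrable_of_hasCompactSupport hcs), ← integral_neg]
  apply integral_congr_ae
  refine Eventually.of_forall fun x => ?_
  simp only [uu]
  rw [integral_const_mul]
  ring

/-! ### pointwise bounds -/

lemma iter_bdd_ball {a : E → ℝ} (ha : SmE a) (m : ℕ) :
    ∃ A : ℝ, 0 ≤ A ∧ ∀ ξ : E, ‖ξ‖ ≤ 1 → ‖iteratedFDeriv ℝ m a ξ‖ ≤ A := by
  have h1 : Continuous (fun ξ => ‖iteratedFDeriv ℝ m a ξ‖) :=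
    (ContDiff.continuous_iteratedFDeriv (m := m) (by exact_mod_cast le_top) ha).norm
  obtain ⟨A, hA⟩ := (isCompact_closedBall (0 : E) 1).bddAbove_image h1.continuousOn
  refine ⟨|A|, abs_nonneg _, fun ξ hξ => ?_⟩
  have h2 := hA (mem_image_of_mem _ (by simpa using hξ : ξ ∈ Metric.closedBall (0 : E) 1))
  exact h2.trans (le_abs_self _)

lemma iter_bdd_theta {θ : ℝ → ℝ} (hθ : Sm θ) (hθc : HasCompactSupport θ) (j m : ℕ) :
    ∃ A : ℝ, 0 ≤ A ∧ ∀ (y : E) (σ : ℝ), ‖y‖ ≤ 1 → ∀ ξ : E,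
      ‖iteratedFDeriv ℝ m (fun ξ : E => iteratedDeriv j θ (inner ℝ y ξ - σ)) ξ‖ ≤ A := by
  have h0 : Sm (iteratedDeriv j θ) := sm_iter hθ j
  have h1 : Continuous (fun s => ‖iteratedFDeriv ℝ m (iteratedDeriv j θ) s‖) :=
    (ContDiff.continuous_iteratedFDeriv (m := m) (by exact_mod_cast le_top) h0).norm
  have h2 : HasCompactSupport (fun s => ‖iteratedFDeriv ℝ m (iteratedDeriv j θ) s‖) :=
    ((cs_iter hθc j).iteratedFDeriv m).norm
  obtain ⟨A, hA0, hA⟩ := bdd_of_cs h1 h2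
  refine ⟨A, hA0, fun y σ hy ξ => ?_⟩
  have h3 : (fun ξ : E => iteratedDeriv j θ (inner ℝ y ξ - σ)) =
      (fun s => iteratedDeriv j θ (s - σ)) ∘ (innerSL ℝ y) := by
    funext ξ
    simp
  have h4 : ContDiff ℝ m (fun s => iteratedDeriv j θ (s - σ)) := by
    have h5 : ContDiff ℝ m (iteratedDeriv j θ) := ContDiff.of_le h0 (by exact_mod_cast le_top)
    exact h5.comp (contDiff_id.sub contDiff_const)
  rw [h3, ContinuousLinearMap.iteratedFDeriv_comp_right _ h4 _ le_rfl]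
  refine (ContinuousMultilinearMap.norm_compContinuousLinearMap_le _ _).trans ?_
  have h6 : iteratedFDeriv ℝ m (fun s => iteratedDeriv j θ (s - σ)) (innerSL ℝ y ξ) =
      iteratedFDeriv ℝ m (iteratedDeriv j θ) (innerSL ℝ y ξ - σ) := by
    rw [iteratedFDeriv_comp_sub]
  rw [h6]
  have h7 : ∏ _i : Fin m, ‖innerSL ℝ y‖ ≤ 1 := by
    rw [innerSL_apply_norm]
    exact Finset.prod_le_one (fun _ _ => norm_nonneg _) (fun _ _ => hy)
  have h8 := hA (innerSL ℝ y ξ - σ)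
  rw [abs_of_nonneg (norm_nonneg _)] at h8
  calc _ ≤ A * 1 := by
        apply mul_le_mul h8 h7 (Finset.prod_nonneg fun _ _ => norm_nonneg _) hA0
    _ = A := mul_one _

lemma bb_bound {a : E → ℝ} {θ : ℝ → ℝ} (ha : SmE a) (hθ : Sm θ) (hθc : HasCompactSupport θ)
    (j n : ℕ) : ∃ B : ℝ, ∀ (y : E) (σ : ℝ), ‖y‖ ≤ 1 → ∀ m ≤ n, ∀ ξ : E, ‖ξ‖ ≤ 1 →
      ‖iteratedFDeriv ℝ m (fun ξ : E => a ξ * iteratedDeriv j θ (inner ℝ y ξ - σ)) ξ‖ ≤ B := by
  choose A hA0 hA using fun m => iter_bdd_ball ha m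
  choose D hD0 hD using fun m => iter_bdd_theta hθ hθc j m
  refine ⟨∑ m ∈ Finset.range (n + 1), ∑ i ∈ Finset.range (m + 1),
    (m.choose i : ℝ) * A i * D (m - i), fun y σ hy m hm ξ hξ => ?_⟩
  have h1 : ContDiff ℝ m a := ContDiff.of_le ha (by exact_mod_cast le_top)
  have h2 : ContDiff ℝ m (fun ξ : E => iteratedDeriv j θ (inner ℝ y ξ - σ)) := by
    have h3 : ContDiff ℝ m (iteratedDeriv j θ) :=
      ContDiff.of_le (sm_iter hθ j) (by exact_mod_cast le_top)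
    exact h3.comp ((contDiff_const.inner ℝ contDiff_id).sub contDiff_const)
  refine (norm_iteratedFDeriv_mul_le (n := m) h1 h2 ξ le_rfl).trans ?_
  have h4 : ∑ i ∈ Finset.range (m + 1), (m.choose i : ℝ) * ‖iteratedFDeriv ℝ i a ξ‖ *
      ‖iteratedFDeriv ℝ (m - i) (fun ξ : E => iteratedDeriv j θ (inner ℝ y ξ - σ)) ξ‖ ≤
      ∑ i ∈ Finset.range (m + 1), (m.choose i : ℝ) * A i * D (m - i) := by
    apply Finset.sum_le_sum
    intro i _
    apply mul_le_mul _ (hD (m - i) y σ hy ξ) (norm_nonneg _)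
      (mul_nonneg (Nat.cast_nonneg _) (hA0 i))
    exact mul_le_mul_of_nonneg_left (hA i ξ hξ) (Nat.cast_nonneg _)
  refine h4.trans ?_
  apply Finset.single_le_sum (f := fun m => ∑ i ∈ Finset.range (m + 1),
    (m.choose i : ℝ) * A i * D (m - i)) _ (Finset.mem_range.2 (by omega))
  intro m' _
  apply Finset.sum_nonneg
  intro i _
  exact mul_nonneg (mul_nonneg (Nat.cast_nonneg _) (hA0 i)) (hD0 _)

/-- the bound of the basic integrals outside the ball. -/
lemma GG_bound (hN : St_NFK) {a : E → ℝ} {θ : ℝ → ℝ} (ha : SmE a) (hθ : Sm θ)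
    (hθc : HasCompactSupport θ) (j n : ℕ) :
    ∃ C : ℝ, 0 ≤ C ∧ ∀ (F : E → ℝ) (σ : ℝ) (φ : ℝ → ℝ), IsTest F →
      (∀ x, 1 / 3 ≤ ‖x‖ → F x = 0) → 0 ≤ σ → σ ≤ 1 / 8 → IsMol (1 / 100) φ →
      ∀ x : E, 3 / 4 ≤ ‖x‖ →
        |GG (hj a θ F σ j) σ (iteratedDeriv n φ) x| ≤
          C * (∫ x, |F x|) / (1 + ‖x‖) ^ (n + 1) := by
  obtain ⟨B, hB⟩ := bb_bound ha hθ hθc j n
  obtain ⟨C, hC⟩ := hN n B
  refine ⟨|C| * 5 ^ (n + 1), by positivity, fun F σ φ hF hF3 hσ0 hσ1 hφ x hx => ?_⟩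
  obtain ⟨hφ1, hφ2, hφ3, hφ4⟩ := hφ
  have hFc : Continuous F := hF.1.continuous
  have hφc : HasCompactSupport φ := cs_of_zero _ hφ3
  have hcont : Continuous fun z : S × E => hj a θ F σ j z *
      iteratedDeriv n φ (inner ℝ (x - z.2) (z.1 : E) + σ) := by
    have h1 := hj_cont (a := a) σ j (ContDiff.continuous ha) hθ hFc
    have h2 : Continuous (iteratedDeriv n φ) := sm_cont (sm_iter hφ1 n)
    fun_prop
  have hcs : HasCompactSupport fun z : S × E => hj a θ F σ j z *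
      iteratedDeriv n φ (inner ℝ (x - z.2) (z.1 : E) + σ) := (hj_cs a θ σ j hF.2).mul_right
  have hint := hcont.integrable_of_hasCompactSupport (μ := nu) hcs
  have h1 : GG (hj a θ F σ j) σ (iteratedDeriv n φ) x =
      ∫ y : E, F y * ∫ w : S, (a w * iteratedDeriv j θ (inner ℝ y (w : E) - σ)) *
        iteratedDeriv n φ (inner ℝ (x - y) (w : E) + σ) ∂sg := by
    unfold GG
    rw [integral_prod_symm _ hint]
    apply integral_congr_ae
    refine Eventually.of_forall fun y => ?_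
    simp only [hj]
    rw [← integral_const_mul]
    apply integral_congr_ae
    refine Eventually.of_forall fun w => ?_
    simp only
    ring
  have hx1 : 0 < (1 + ‖x‖) ^ (n + 1) := by positivity
  have h2 : ∀ y : E, |F y * ∫ w : S, (a w * iteratedDeriv j θ (inner ℝ y (w : E) - σ)) *
        iteratedDeriv n φ (inner ℝ (x - y) (w : E) + σ) ∂sg| ≤
        |F y| * (|C| * 5 ^ (n + 1) / (1 + ‖x‖) ^ (n + 1)) := by
    intro y
    rw [abs_mul]
    by_cases hy : 1 / 3 ≤ ‖y‖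
    · rw [hF3 y hy, abs_zero, zero_mul, zero_mul]
    · push Not at hy
      apply mul_le_mul_of_nonneg_left _ (abs_nonneg _)
      have h3 : ‖x‖ ≤ ‖x - y‖ + ‖y‖ := by
        calc ‖x‖ = ‖(x - y) + y‖ := by rw [sub_add_cancel]
          _ ≤ _ := norm_add_le _ _
      have h4 : 5 / 12 ≤ ‖x - y‖ := by linarith
      have h5 : (1 + ‖x‖) / 5 ≤ ‖x - y‖ := by linarith
      have hb : SmE (fun ξ : E => a ξ * iteratedDeriv j θ (inner ℝ y ξ - σ)) := by
        have h6 : Sm (iteratedDeriv j θ) := sm_iter hθ j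
        have h7 : ContDiff ℝ ((⊤ : ℕ∞) : WithTop ℕ∞)
            (fun ξ : E => iteratedDeriv j θ (inner ℝ y ξ - σ)) :=
          ContDiff.comp (g := iteratedDeriv j θ) h6
            ((contDiff_const.inner ℝ contDiff_id).sub contDiff_const)
        exact ContDiff.mul ha h7
      have h8 := hC (fun ξ : E => a ξ * iteratedDeriv j θ (inner ℝ y ξ - σ)) hb
        (fun m hm ξ hξ => hB y σ (by linarith) m hm ξ hξ) φ hφ1 hφ2 hφ3 hφ4 (x - y) σ h4
        hσ0 hσ1
      refine h8.trans ?_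
      calc C / ‖x - y‖ ^ (n + 1) ≤ |C| / ‖x - y‖ ^ (n + 1) := by
            gcongr
            exact le_abs_self _
        _ ≤ |C| / ((1 + ‖x‖) / 5) ^ (n + 1) := by
            gcongr
        _ = |C| * 5 ^ (n + 1) / (1 + ‖x‖) ^ (n + 1) := by
            rw [div_pow]
            field_simp
  rw [h1]
  have hFi : Integrable (fun y => |F y|) := (hFc.integrable_of_hasCompactSupport hF.2).abs
  rw [← Real.norm_eq_abs]
  calc ‖∫ y : E, F y * ∫ w : S, (a w * iteratedDeriv j θ (inner ℝ y (w : E) - σ)) *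
        iteratedDeriv n φ (inner ℝ (x - y) (w : E) + σ) ∂sg‖
      ≤ ∫ y : E, |F y| * (|C| * 5 ^ (n + 1) / (1 + ‖x‖) ^ (n + 1)) := by
        apply norm_integral_le_of_norm_le (hFi.mul_const _)
        exact Eventually.of_forall fun y => by
          rw [Real.norm_eq_abs]
          exact h2 y
    _ = |C| * 5 ^ (n + 1) * (∫ x, |F x|) / (1 + ‖x‖) ^ (n + 1) := by
        rw [integral_mul_const]
        ring

/-- combination of the basic integrals. -/
noncomputable def ua (θ : ℝ → ℝ) (F : E → ℝ) (σ : ℝ) (φ : ℝ → ℝ) (a : E → ℝ) (m : ℕ)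
    (x : E) : ℝ :=
  ∑ j ∈ Finset.range 4, c0 * cf j * GG (hj a θ F σ j) σ (iteratedDeriv (3 - j + m) φ) x

lemma uu_ua0 {θ : ℝ → ℝ} {F : E → ℝ} {φ : ℝ → ℝ} (σ : ℝ) (hθ : Sm θ) (hF : Continuous F)
    (hFc : HasCompactSupport F) (hφ : Sm φ) (x : E) :
    uu θ F σ φ x = ua θ F σ φ (fun _ => 1) 0 x := by
  rw [uu_eq σ hθ hF hFc hφ x, ua, Finset.mul_sum]
  apply Finset.sum_congr rfl
  intro j _
  rw [add_zero]
  ring

lemma uu_ua1 {θ : ℝ → ℝ} {F : E → ℝ} {φ : ℝ → ℝ} (σ : ℝ) (hθ : Sm θ) (hF : Continuous F)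
    (hFc : HasCompactSupport F) (hφ : Sm φ) (x : E) :
    uu θ F σ (deriv φ) x = ua θ F σ φ (fun _ => 1) 1 x := by
  rw [uu_eq σ hθ hF hFc (sm_deriv hφ) x, ua, Finset.mul_sum]
  apply Finset.sum_congr rfl
  intro j _
  rw [← iteratedDeriv_succ']
  ring

lemma ua_SmE {θ : ℝ → ℝ} {F : E → ℝ} {φ : ℝ → ℝ} {a : E → ℝ} (σ : ℝ) (m : ℕ) (ha : Continuous a)
    (hθ : Sm θ) (hF : Continuous F) (hFc : HasCompactSupport F) (hφ : Sm φ)
    (hφc : HasCompactSupport φ) : SmE (ua θ F σ φ a m) := by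
  unfold ua SmE
  apply ContDiff.sum
  intro j _
  exact contDiff_const.mul (GG_SmE _ σ _ (hj_cont σ j ha hθ hF) (hj_cs a θ σ j hFc)
    (sm_iter hφ _) (cs_iter hφc _))

lemma ua_pd {θ : ℝ → ℝ} {F : E → ℝ} {φ : ℝ → ℝ} {a : E → ℝ} (σ : ℝ) (m : ℕ) (ha : Continuous a)
    (hθ : Sm θ) (hF : Continuous F) (hFc : HasCompactSupport F) (hφ : Sm φ)
    (hφc : HasCompactSupport φ) (i : Fin 5) :
    pd i (ua θ F σ φ a m) = ua θ F σ φ (fun ξ => a ξ * ξ i) (m + 1) := by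
  funext x
  have h1 : ∀ j ∈ Finset.range 4, HasFDerivAt (fun x => c0 * cf j *
      GG (hj a θ F σ j) σ (iteratedDeriv (3 - j + m) φ) x)
      ((c0 * cf j) • fderiv ℝ (GG (hj a θ F σ j) σ (iteratedDeriv (3 - j + m) φ)) x) x := by
    intro j _
    apply HasFDerivAt.const_mul
    exact (GG_hasFDerivAt _ σ _ (hj_cont σ j ha hθ hF) (hj_cs a θ σ j hFc) (sm_iter hφ _)
      (cs_iter hφc _) x).differentiableAt.hasFDerivAt
  have h2 := HasFDerivAt.fun_sum h1
  have h3 : fderiv ℝ (ua θ F σ φ a m) x = ∑ j ∈ Finset.range 4, (c0 * cf j) •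
      fderiv ℝ (GG (hj a θ F σ j) σ (iteratedDeriv (3 - j + m) φ)) x := h2.fderiv
  rw [pd, h3, _root_.sum_apply, ua]
  apply Finset.sum_congr rfl
  intro j _
  rw [_root_.smul_apply, smul_eq_mul]
  congr 1
  have h4 := GG_pd (hj a θ F σ j) σ (iteratedDeriv (3 - j + m) φ) (hj_cont σ j ha hθ hF)
    (hj_cs a θ σ j hFc) (sm_iter hφ _) (cs_iter hφc _) i x
  rw [pd] at h4
  rw [h4, ← iteratedDeriv_succ]
  have h5 : (fun z : S × E => hj a θ F σ j z * (z.1 : E) i) =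
      hj (fun ξ => a ξ * ξ i) θ F σ j := by
    funext z
    simp only [hj]
    ring
  rw [h5, add_assoc]

lemma ua_bound (hN : St_NFK) {a : E → ℝ} {θ : ℝ → ℝ} (ha : SmE a) (hθ : Sm θ)
    (hθc : HasCompactSupport θ) (m : ℕ) :
    ∃ C : ℝ, 0 ≤ C ∧ ∀ (F : E → ℝ) (σ : ℝ) (φ : ℝ → ℝ), IsTest F →
      (∀ x, 1 / 3 ≤ ‖x‖ → F x = 0) → 0 ≤ σ → σ ≤ 1 / 8 → IsMol (1 / 100) φ →
      ∀ x : E, 3 / 4 ≤ ‖x‖ →
        |ua θ F σ φ a m x| ≤ C * (∫ x, |F x|) / (1 + ‖x‖) ^ (m + 1) := by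
  choose C hC0 hC using fun j => GG_bound hN ha hθ hθc j (3 - j + m)
  refine ⟨∑ j ∈ Finset.range 4, |c0 * cf j| * C j, Finset.sum_nonneg fun j _ =>
    mul_nonneg (abs_nonneg _) (hC0 j), fun F σ φ hF hF3 hσ0 hσ1 hφ x hx => ?_⟩
  have hF0 : 0 ≤ ∫ x, |F x| := integral_nonneg fun _ => abs_nonneg _
  rw [ua]
  refine (Finset.abs_sum_le_sum_abs _ _).trans ?_
  rw [Finset.sum_mul, Finset.sum_div]
  apply Finset.sum_le_sum
  intro j _
  rw [abs_mul]
  have h1 := hC j F σ φ hF hF3 hσ0 hσ1 hφ x hx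
  have h2 : C j * (∫ x, |F x|) / (1 + ‖x‖) ^ (3 - j + m + 1) ≤
      C j * (∫ x, |F x|) / (1 + ‖x‖) ^ (m + 1) := by
    apply div_le_div_of_nonneg_left (mul_nonneg (hC0 j) hF0) (by positivity)
    apply pow_le_pow_right₀ _ (by omega)
    have := norm_nonneg x
    linarith
  calc |c0 * cf j| * |GG (hj a θ F σ j) σ (iteratedDeriv (3 - j + m) φ) x|
      ≤ |c0 * cf j| * (C j * (∫ x, |F x|) / (1 + ‖x‖) ^ (m + 1)) :=
        mul_le_mul_of_nonneg_left (h1.trans h2) (abs_nonneg _)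
    _ = |c0 * cf j| * C j * (∫ x, |F x|) / (1 + ‖x‖) ^ (m + 1) := by ring

/-- symbol estimates outside the ball. -/
def Dec (k : ℕ) (C : ℝ) (f : E → ℝ) : Prop := ∀ x : E, 3 / 4 ≤ ‖x‖ →
  |f x| ≤ C / (1 + ‖x‖) ^ k ∧ (∀ i, |pd i f x| ≤ C / (1 + ‖x‖) ^ (k + 1)) ∧
    ∀ i, |pd i (pd i f) x| ≤ C / (1 + ‖x‖) ^ (k + 2)

lemma coord_SmE (i : Fin 5) : SmE (fun ξ : E => ξ i) :=
  (EuclideanSpace.proj i : E →L[ℝ] ℝ).contDiff

lemma ua_dec (hN : St_NFK) {θ : ℝ → ℝ} (hθ : Sm θ)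
    (hθc : HasCompactSupport θ) (m : ℕ) :
    ∃ C : ℝ, 0 ≤ C ∧ ∀ (F : E → ℝ) (σ : ℝ) (φ : ℝ → ℝ), IsTest F →
      (∀ x, 1 / 3 ≤ ‖x‖ → F x = 0) → 0 ≤ σ → σ ≤ 1 / 8 → IsMol (1 / 100) φ →
      Dec (m + 1) (C * ∫ x, |F x|) (ua θ F σ φ (fun _ => 1) m) := by
  have s1 : SmE (fun _ : E => (1 : ℝ)) := contDiff_const
  have s2 : ∀ i : Fin 5, SmE (fun ξ : E => (1 : ℝ) * ξ i) := fun i =>
    contDiff_const.mul (coord_SmE i)
  have s3 : ∀ i : Fin 5, SmE (fun ξ : E => (1 : ℝ) * ξ i * ξ i) := fun i =>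
    (s2 i).mul (coord_SmE i)
  obtain ⟨C1, h10, h1⟩ := ua_bound hN s1 hθ hθc m
  choose C2 h20 h2 using fun i => ua_bound hN (s2 i) hθ hθc (m + 1)
  choose C3 h30 h3 using fun i => ua_bound hN (s3 i) hθ hθc (m + 2)
  have hs2 : 0 ≤ ∑ i, C2 i := Finset.sum_nonneg fun i _ => h20 i
  have hs3 : 0 ≤ ∑ i, C3 i := Finset.sum_nonneg fun i _ => h30 i
  refine ⟨C1 + ∑ i, C2 i + ∑ i, C3 i, by positivity,
    fun F σ φ hF hF3 hσ0 hσ1 hφ x hx => ?_⟩
  have hF0 : 0 ≤ ∫ x, |F x| := integral_nonneg fun _ => abs_nonneg _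
  have hφc : HasCompactSupport φ := cs_of_zero _ hφ.2.2.1
  have hFc : Continuous F := hF.1.continuous
  have p1 : ∀ i, pd i (ua θ F σ φ (fun _ => 1) m) = ua θ F σ φ (fun ξ => 1 * ξ i) (m + 1) :=
    fun i => ua_pd σ m continuous_const hθ hFc hF.2 hφ.1 hφc i
  have p2 : ∀ i, pd i (ua θ F σ φ (fun ξ => 1 * ξ i) (m + 1)) =
      ua θ F σ φ (fun ξ => 1 * ξ i * ξ i) (m + 2) :=
    fun i => ua_pd σ (m + 1) (ContDiff.continuous (s2 i)) hθ hFc hF.2 hφ.1 hφc i
  refine ⟨?_, fun i => ?_, fun i => ?_⟩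
  · refine (h1 F σ φ hF hF3 hσ0 hσ1 hφ x hx).trans ?_
    apply div_le_div_of_nonneg_right _ (by positivity)
    apply mul_le_mul_of_nonneg_right _ hF0
    linarith
  · rw [p1]
    refine (h2 i F σ φ hF hF3 hσ0 hσ1 hφ x hx).trans ?_
    apply div_le_div_of_nonneg_right _ (by positivity)
    apply mul_le_mul_of_nonneg_right _ hF0
    have : C2 i ≤ ∑ i, C2 i := Finset.single_le_sum (fun i _ => h20 i) (Finset.mem_univ i)
    linarith
  · rw [p1, p2]
    refine (h3 i F σ φ hF hF3 hσ0 hσ1 hφ x hx).trans ?_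
    apply div_le_div_of_nonneg_right _ (by positivity)
    apply mul_le_mul_of_nonneg_right _ hF0
    have : C3 i ≤ ∑ i, C3 i := Finset.single_le_sum (fun i _ => h30 i) (Finset.mem_univ i)
    linarith

/-! ### products and cut-offs -/

lemma smE_diff {f : E → ℝ} (h : SmE f) (x : E) : DifferentiableAt ℝ f x :=
  (ContDiff.differentiable h (by simp)) x

lemma smE_pd {f : E → ℝ} (h : SmE f) (i : Fin 5) : SmE (pd i f) := by
  have h1 : ContDiff ℝ ((⊤ : ℕ∞) : WithTop ℕ∞) (fderiv ℝ f) := (contDiff_infty_iff_fderiv.1 h).2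
  exact h1.clm_apply contDiff_const

lemma pd_mul {f g : E → ℝ} (hf : SmE f) (hg : SmE g) (i : Fin 5) :
    pd i (fun x => f x * g x) = fun x => pd i f x * g x + f x * pd i g x := by
  funext x
  simp only [pd]
  rw [fderiv_fun_mul (smE_diff hf x) (smE_diff hg x)]
  simp only [_root_.add_apply, _root_.smul_apply, smul_eq_mul]
  ring

lemma pd_add {f g : E → ℝ} (hf : SmE f) (hg : SmE g) (i : Fin 5) :
    pd i (fun x => f x + g x) = fun x => pd i f x + pd i g x := by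
  funext x
  simp only [pd]
  rw [fderiv_fun_add (smE_diff hf x) (smE_diff hg x)]
  simp only [_root_.add_apply]

lemma smE_mul {f g : E → ℝ} (hf : SmE f) (hg : SmE g) : SmE (fun x => f x * g x) :=
  ContDiff.mul hf hg

lemma pd_pd_mul {f g : E → ℝ} (hf : SmE f) (hg : SmE g) (i : Fin 5) :
    pd i (pd i (fun x => f x * g x)) = fun x => pd i (pd i f) x * g x + pd i f x * pd i g x +
      (pd i f x * pd i g x + f x * pd i (pd i g) x) := by
  rw [pd_mul hf hg i, pd_add (smE_mul (smE_pd hf i) hg) (smE_mul hf (smE_pd hg i)),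
    pd_mul (smE_pd hf i) hg, pd_mul hf (smE_pd hg i)]

lemma Dec_mul {k : ℕ} {C C' : ℝ} {f g : E → ℝ} (hf : SmE f) (hg : SmE g) (hC : 0 ≤ C)
    (hC' : 0 ≤ C') (h1 : Dec k C f) (h2 : Dec 0 C' g) :
    Dec k (4 * (C * C')) (fun x => f x * g x) := by
  intro x hx
  obtain ⟨a1, a2, a3⟩ := h1 x hx
  obtain ⟨b1, b2, b3⟩ := h2 x hx
  obtain ⟨r, hr⟩ : ∃ r : ℝ, r = 1 + ‖x‖ := ⟨_, rfl⟩
  rw [← hr] at a1 a2 a3 b1 b2 b3 ⊢
  have hr0 : 0 < r := by
    have := norm_nonneg x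
    linarith
  have hCC : 0 ≤ C * C' := mul_nonneg hC hC'
  have e1 : ∀ p q : ℕ, C / r ^ p * (C' / r ^ q) = C * C' / r ^ (p + q) := by
    intro p q
    rw [div_mul_div_comm, pow_add]
  refine ⟨?_, fun i => ?_, fun i => ?_⟩
  · rw [abs_mul]
    calc |f x| * |g x| ≤ C / r ^ k * (C' / r ^ 0) :=
          mul_le_mul a1 b1 (abs_nonneg _) (by positivity)
      _ = C * C' / r ^ k := by rw [e1, add_zero]
      _ ≤ 4 * (C * C') / r ^ k := by
          apply div_le_div_of_nonneg_right _ (by positivity)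
          linarith
  · rw [pd_mul hf hg i]
    have c1 : |pd i f x * g x| ≤ C * C' / r ^ (k + 1) := by
      rw [abs_mul]
      calc |pd i f x| * |g x| ≤ C / r ^ (k + 1) * (C' / r ^ 0) :=
            mul_le_mul (a2 i) b1 (abs_nonneg _) (by positivity)
        _ = C * C' / r ^ (k + 1) := by rw [e1, add_zero]
    have c2 : |f x * pd i g x| ≤ C * C' / r ^ (k + 1) := by
      rw [abs_mul]
      calc |f x| * |pd i g x| ≤ C / r ^ k * (C' / r ^ (0 + 1)) :=
            mul_le_mul a1 (b2 i) (abs_nonneg _) (by positivity)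
        _ = C * C' / r ^ (k + 1) := by rw [e1, zero_add]
    have c3 : 0 ≤ C * C' / r ^ (k + 1) := by positivity
    have c4 : 4 * (C * C') / r ^ (k + 1) = 4 * (C * C' / r ^ (k + 1)) := by ring
    rw [c4]
    refine (abs_add_le _ _).trans ?_
    linarith
  · rw [pd_pd_mul hf hg i]
    have c1 : |pd i (pd i f) x * g x| ≤ C * C' / r ^ (k + 2) := by
      rw [abs_mul]
      calc |pd i (pd i f) x| * |g x| ≤ C / r ^ (k + 2) * (C' / r ^ 0) :=
            mul_le_mul (a3 i) b1 (abs_nonneg _) (by positivity)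
        _ = C * C' / r ^ (k + 2) := by rw [e1, add_zero]
    have c2 : |pd i f x * pd i g x| ≤ C * C' / r ^ (k + 2) := by
      rw [abs_mul]
      calc |pd i f x| * |pd i g x| ≤ C / r ^ (k + 1) * (C' / r ^ (0 + 1)) :=
            mul_le_mul (a2 i) (b2 i) (abs_nonneg _) (by positivity)
        _ = C * C' / r ^ (k + 2) := by rw [e1]
    have c3 : |f x * pd i (pd i g) x| ≤ C * C' / r ^ (k + 2) := by
      rw [abs_mul]
      calc |f x| * |pd i (pd i g) x| ≤ C / r ^ k * (C' / r ^ (0 + 2)) :=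
            mul_le_mul a1 (b3 i) (abs_nonneg _) (by positivity)
        _ = C * C' / r ^ (k + 2) := by rw [e1, zero_add]
    have c4 : 4 * (C * C') / r ^ (k + 2) = 4 * (C * C' / r ^ (k + 2)) := by ring
    rw [c4]
    have d1 := abs_add_le (pd i (pd i f) x * g x + pd i f x * pd i g x)
      (pd i f x * pd i g x + f x * pd i (pd i g) x)
    have d2 := abs_add_le (pd i (pd i f) x * g x) (pd i f x * pd i g x)
    have d3 := abs_add_le (pd i f x * pd i g x) (f x * pd i (pd i g) x)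
    linarith

lemma cs_pd {f : E → ℝ} (h : HasCompactSupport f) (i : Fin 5) : HasCompactSupport (pd i f) :=
  h.fderiv_apply ℝ (EuclideanSpace.single i (1 : ℝ))

/-- a bounded multiplier: continuous times compact support. -/
lemma bdd_mul {f : E → ℝ} (hf : Continuous f) (hc : HasCompactSupport f) (k : ℕ) :
    ∃ C : ℝ, 0 ≤ C ∧ ∀ x, (1 + ‖x‖) ^ k * |f x| ≤ C := by
  have h1 : Continuous fun x : E => (1 + ‖x‖) ^ k * |f x| := by fun_prop
  have h2 : HasCompactSupport fun x : E => (1 + ‖x‖) ^ k * |f x| := by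
    have : HasCompactSupport fun x : E => |f x| := hc.norm
    exact this.mul_left
  obtain ⟨C, hC0, hC⟩ := bdd_of_cs h1 h2
  exact ⟨C, hC0, fun x => (le_abs_self _).trans (hC x)⟩

/-- the inner cut-off. -/
lemma cut_in : ∃ (C : ℝ) (χ : E → ℝ), 0 ≤ C ∧ SmE χ ∧ (∀ x, ‖x‖ ≤ 3 / 4 → χ x = 0) ∧
    (∀ x, 1 ≤ ‖x‖ → χ x = 1) ∧ Dec 0 C χ := by
  let b : ContDiffBump (0 : E) := ⟨3 / 4, 1, by norm_num, by norm_num⟩
  have hb : SmE (b : E → ℝ) := b.contDiff
  have hbc : HasCompactSupport (b : E → ℝ) := b.hasCompactSupport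
  have hχ : SmE (fun x => 1 - b x) := contDiff_const.sub hb
  have p1 : ∀ i, pd i (fun x => 1 - b x) = fun x => (-1) * pd i b x := by
    intro i
    funext x
    simp only [pd]
    rw [fderiv_const_sub]
    simp
  have p2 : ∀ i, pd i (pd i (fun x => 1 - b x)) = fun x => (-1) * pd i (pd i b) x := by
    intro i
    rw [p1 i]
    funext x
    simp only [pd]
    rw [fderiv_const_mul]
    · simp
      rfl
    · exact smE_diff (smE_pd hb i) x
  choose C1 h10 h1 using fun i => bdd_mul (ContDiff.continuous (smE_pd hb i)) (cs_pd hbc i) 1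
  choose C2 h20 h2 using fun i => bdd_mul (ContDiff.continuous (smE_pd (smE_pd hb i) i))
    (cs_pd (cs_pd hbc i) i) 2
  have hs1 : 0 ≤ ∑ i, C1 i := Finset.sum_nonneg fun i _ => h10 i
  have hs2 : 0 ≤ ∑ i, C2 i := Finset.sum_nonneg fun i _ => h20 i
  refine ⟨1 + ∑ i, C1 i + ∑ i, C2 i, fun x => 1 - b x, by positivity, hχ, ?_, ?_, ?_⟩
  · intro x hx
    have : b x = 1 := b.one_of_mem_closedBall (by simpa using hx)
    simp [this]
  · intro x hx
    have : b x = 0 := b.zero_of_le_dist (by simpa using hx)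
    simp [this]
  · intro x hx
    have hr0 : 0 < 1 + ‖x‖ := by positivity
    refine ⟨?_, fun i => ?_, fun i => ?_⟩
    · rw [pow_zero, div_one]
      have a1 := b.nonneg' x
      have a2 : b x ≤ 1 := b.le_one
      rw [abs_le]
      constructor <;> linarith
    · rw [p1 i, abs_mul, abs_neg, abs_one, one_mul, le_div_iff₀ (by positivity), zero_add]
      have a1 := h1 i x
      have a2 : C1 i ≤ ∑ i, C1 i := Finset.single_le_sum (fun i _ => h10 i) (Finset.mem_univ i)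
      linarith
    · rw [p2 i, abs_mul, abs_neg, abs_one, one_mul, le_div_iff₀ (by positivity), zero_add]
      have a1 := h2 i x
      have a2 : C2 i ≤ ∑ i, C2 i := Finset.single_le_sum (fun i _ => h20 i) (Finset.mem_univ i)
      linarith

lemma pd_scale {f : E → ℝ} (c : ℝ) (i : Fin 5) :
    pd i (fun x => f (c • x)) = fun x => c * pd i f (c • x) := by
  funext x
  simp only [pd]
  rw [fderiv_comp_smul]
  simp

/-- the outer cut-offs. -/
lemma cut_out : ∃ (C : ℝ) (χ : ℕ → E → ℝ), 0 ≤ C ∧ ∀ M : ℕ, SmE (χ M) ∧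
    HasCompactSupport (χ M) ∧ (∀ x, ‖x‖ ≤ M + 1 → χ M x = 1) ∧ Dec 0 C (χ M) := by
  let b : ContDiffBump (0 : E) := ⟨1, 2, by norm_num, by norm_num⟩
  have hb : SmE (b : E → ℝ) := b.contDiff
  have hbc : HasCompactSupport (b : E → ℝ) := b.hasCompactSupport
  choose C1 h10 h1 using fun i => bdd_mul (ContDiff.continuous (smE_pd hb i)) (cs_pd hbc i) 1
  choose C2 h20 h2 using fun i => bdd_mul (ContDiff.continuous (smE_pd (smE_pd hb i) i))
    (cs_pd (cs_pd hbc i) i) 2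
  have hs1 : 0 ≤ ∑ i, C1 i := Finset.sum_nonneg fun i _ => h10 i
  have hs2 : 0 ≤ ∑ i, C2 i := Finset.sum_nonneg fun i _ => h20 i
  refine ⟨1 + 3 * ∑ i, C1 i + 9 * ∑ i, C2 i, fun M x => b ((1 / ((M : ℝ) + 1)) • x),
    by positivity, fun M => ?_⟩
  have hM : (0 : ℝ) < (M : ℝ) + 1 := by positivity
  obtain ⟨c, hc⟩ : ∃ c : ℝ, c = 1 / ((M : ℝ) + 1) := ⟨_, rfl⟩
  have hc0 : 0 < c := by rw [hc]; positivity
  have hcM : c * (M + 1) = 1 := by rw [hc]; field_simp
  beta_reduce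
  rw [← hc]
  have hcs : ContDiff ℝ ((⊤ : ℕ∞) : WithTop ℕ∞) (fun x : E => c • x) := contDiff_const_smul c
  have q1 : ∀ i, pd i (fun x => b (c • x)) = fun x => c * pd i b (c • x) := fun i =>
    pd_scale c i
  have q2 : ∀ i, pd i (pd i (fun x => b (c • x))) = fun x => c * (c * pd i (pd i b) (c • x)) := by
    intro i
    rw [q1 i]
    have h3 : pd i (fun x : E => c * pd i b (c • x)) =
        fun x => c * pd i (fun x => pd i b (c • x)) x := by
      funext x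
      simp only [pd]
      rw [fderiv_const_mul]
      · simp
      · have : SmE (fun x : E => pd i b (c • x)) :=
          ContDiff.comp (g := pd i b) (smE_pd hb i) hcs
        exact smE_diff this x
    rw [h3, pd_scale c i]
  refine ⟨ContDiff.comp (g := (b : E → ℝ)) hb hcs, ?_, ?_, ?_⟩
  · refine HasCompactSupport.intro (isCompact_closedBall (0 : E) (2 * (M + 1))) fun x hx => ?_
    apply b.zero_of_le_dist
    simp only [Metric.mem_closedBall, dist_zero_right, not_le] at hx ⊢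
    rw [norm_smul, Real.norm_eq_abs, abs_of_pos hc0]
    have : c * (2 * (M + 1)) ≤ c * ‖x‖ := mul_le_mul_of_nonneg_left hx.le hc0.le
    change (2 : ℝ) ≤ c * ‖x‖
    nlinarith
  · intro x hx
    apply b.one_of_mem_closedBall
    simp only [Metric.mem_closedBall, dist_zero_right]
    rw [norm_smul, Real.norm_eq_abs, abs_of_pos hc0]
    change c * ‖x‖ ≤ (1 : ℝ)
    calc c * ‖x‖ ≤ c * (M + 1) := mul_le_mul_of_nonneg_left hx hc0.le
      _ = 1 := hcM
  · intro x hx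
    have hr0 : 0 < 1 + ‖x‖ := by positivity
    have hn : ‖c • x‖ = c * ‖x‖ := by rw [norm_smul, Real.norm_eq_abs, abs_of_pos hc0]
    have hr : c * (1 + ‖x‖) ≤ 3 * (1 + ‖c • x‖) := by
      rw [hn]
      have : 1 + ‖x‖ ≤ 3 * ‖x‖ := by linarith
      have := mul_le_mul_of_nonneg_left this hc0.le
      linarith
    refine ⟨?_, fun i => ?_, fun i => ?_⟩
    · rw [pow_zero, div_one]
      have a1 := b.nonneg' (c • x)
      have a2 : b (c • x) ≤ 1 := b.le_one
      rw [abs_of_nonneg a1]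
      linarith
    · rw [q1 i, abs_mul, abs_of_pos hc0, le_div_iff₀ (by positivity), zero_add, pow_one]
      have a1 := h1 i (c • x)
      rw [pow_one] at a1
      have a2 : C1 i ≤ ∑ i, C1 i := Finset.single_le_sum (fun i _ => h10 i) (Finset.mem_univ i)
      have a3 : c * |pd i b (c • x)| * (1 + ‖x‖) ≤
          3 * (1 + ‖c • x‖) * |pd i b (c • x)| := by
        calc c * |pd i b (c • x)| * (1 + ‖x‖) = c * (1 + ‖x‖) * |pd i b (c • x)| := by ring
          _ ≤ _ := mul_le_mul_of_nonneg_right hr (abs_nonneg _)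
      linarith
    · rw [q2 i]
      beta_reduce
      rw [← mul_assoc, abs_mul, abs_of_pos (mul_pos hc0 hc0),
        le_div_iff₀ (by positivity), zero_add]
      have a1 := h2 i (c • x)
      have a2 : C2 i ≤ ∑ i, C2 i := Finset.single_le_sum (fun i _ => h20 i) (Finset.mem_univ i)
      have a3 : c * c * |pd i (pd i b) (c • x)| * (1 + ‖x‖) ^ 2 ≤
          9 * ((1 + ‖c • x‖) ^ 2 * |pd i (pd i b) (c • x)|) := by
        calc c * c * |pd i (pd i b) (c • x)| * (1 + ‖x‖) ^ 2 =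
              (c * (1 + ‖x‖)) ^ 2 * |pd i (pd i b) (c • x)| := by ring
          _ ≤ (3 * (1 + ‖c • x‖)) ^ 2 * |pd i (pd i b) (c • x)| := by
              apply mul_le_mul_of_nonneg_right _ (abs_nonneg _)
              exact pow_le_pow_left₀ (by positivity) hr 2
          _ = _ := by ring
      linarith

/-! ### norms -/

lemma theta_norm (hLin : St_Lin) (hIP : St_IP) {f g : E → ℝ} (hf : IsTest f) (hg : IsTest g) :
    ‖Theta f g‖ ^ 2 = c0 * ((∫ x, lap f x ^ 2) + ∑ i, ∫ x, pd i g x ^ 2) := by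
  obtain ⟨-, -, -, h4, h5⟩ := hLin.2.1 f g hf hg
  have h1 := hIP (Theta f g) (Theta f g)
  rw [real_inner_self_eq_norm_sq] at h1
  rw [h1]
  congr 2
  · apply integral_congr_ae
    have h6 : ∀ᵐ x, ∀ i, DDU (Theta f g) i i x = pd i (pd i f) x := by
      rw [ae_all_iff]
      intro i
      exact h4 i i
    filter_upwards [h6] with x hx
    have h7 : LU (Theta f g) x = lap f x := by
      rw [LU, lap]
      exact Finset.sum_congr rfl fun i _ => hx i
    rw [h7, sq]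
  · apply Finset.sum_congr rfl
    intro i _
    apply integral_congr_ae
    filter_upwards [h5 i] with x hx
    rw [hx, sq]

lemma int_w : Integrable (fun x : E => 1 / (1 + ‖x‖) ^ 6) := by
  have h1 : Integrable (fun x : E => (1 + ‖x‖) ^ (-(6 : ℝ))) := by
    apply integrable_one_add_norm
    rw [finrank_euclideanSpace_fin]
    norm_num
  refine h1.congr (Eventually.of_forall fun x => ?_)
  have h2 : 0 < 1 + ‖x‖ := by positivity
  simp only
  rw [Real.rpow_neg h2.le, one_div]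
  norm_cast

lemma pd_congr {f g : E → ℝ} {x : E} (h : f =ᶠ[𝓝 x] g) (i : Fin 5) : pd i f =ᶠ[𝓝 x] pd i g := by
  filter_upwards [h.fderiv (𝕜 := ℝ)] with y hy
  rw [pd, pd, hy]

lemma pd_zero_ev {f : E → ℝ} {x : E} (h : f =ᶠ[𝓝 x] fun _ => 0) (i : Fin 5) :
    pd i f =ᶠ[𝓝 x] fun _ => 0 := by
  refine (pd_congr h i).trans ?_
  refine Eventually.of_forall fun y => ?_
  simp [pd]

lemma zero_in {f : E → ℝ} (hf0 : ∀ x, ‖x‖ ≤ 3 / 4 → f x = 0) {x : E} (hx : ‖x‖ < 3 / 4)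
    (i : Fin 5) : pd i f x = 0 ∧ pd i (pd i f) x = 0 := by
  have h1 : f =ᶠ[𝓝 x] fun _ => 0 := by
    have h2 : Metric.ball (0 : E) (3 / 4) ∈ 𝓝 x :=
      Metric.isOpen_ball.mem_nhds (by simpa using hx)
    filter_upwards [h2] with y hy
    exact hf0 y (by have := mem_ball_zero_iff.1 hy; exact this.le)
  exact ⟨(pd_zero_ev h1 i).eq_of_nhds, (pd_zero_ev (pd_zero_ev h1 i) i).eq_of_nhds⟩

lemma sq_int_le {C : ℝ} {F : E → ℝ} (hF : ∀ x, |F x| ≤ C / (1 + ‖x‖) ^ 3) :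
    ∫ x, F x ^ 2 ≤ C ^ 2 * ∫ x : E, 1 / (1 + ‖x‖) ^ 6 := by
  rw [← integral_const_mul]
  apply integral_mono_of_nonneg (Eventually.of_forall fun x => sq_nonneg _)
    (int_w.const_mul _)
  refine Eventually.of_forall fun x => ?_
  simp only
  have h1 := pow_le_pow_left₀ (abs_nonneg _) (hF x) 2
  rw [sq_abs] at h1
  refine h1.trans (le_of_eq ?_)
  rw [div_pow, ← pow_mul]
  ring

lemma theta_bound (hLin : St_Lin) (hIP : St_IP) {f g : E → ℝ} (hf : IsTest f) (hg : IsTest g)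
    (hf0 : ∀ x, ‖x‖ ≤ 3 / 4 → f x = 0) (hg0 : ∀ x, ‖x‖ ≤ 3 / 4 → g x = 0) {C : ℝ} (hC : 0 ≤ C)
    (h1 : Dec 1 C f) (h2 : Dec 2 C g) :
    ‖Theta f g‖ ≤ Real.sqrt (30 * (c0 * ∫ x : E, 1 / (1 + ‖x‖) ^ 6)) * C := by
  have hI : 0 ≤ ∫ x : E, 1 / (1 + ‖x‖) ^ 6 := integral_nonneg fun x => by positivity
  have hc0 : 0 ≤ c0 := by unfold c0; positivity
  have h3 : ∀ x, |lap f x| ≤ (5 * C) / (1 + ‖x‖) ^ 3 := by
    intro x
    have h4 : ∀ i, |pd i (pd i f) x| ≤ C / (1 + ‖x‖) ^ 3 := by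
      intro i
      by_cases hx : 3 / 4 ≤ ‖x‖
      · exact (h1 x hx).2.2 i
      · push Not at hx
        rw [(zero_in hf0 hx i).2, abs_zero]
        positivity
    rw [lap]
    refine (Finset.abs_sum_le_sum_abs _ _).trans ?_
    calc ∑ i, |pd i (pd i f) x| ≤ ∑ _i : Fin 5, C / (1 + ‖x‖) ^ 3 :=
          Finset.sum_le_sum fun i _ => h4 i
      _ = (5 * C) / (1 + ‖x‖) ^ 3 := by
          rw [Finset.sum_const, Finset.card_univ, Fintype.card_fin, nsmul_eq_mul]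
          push_cast
          ring
  have h5 : ∀ i x, |pd i g x| ≤ C / (1 + ‖x‖) ^ 3 := by
    intro i x
    by_cases hx : 3 / 4 ≤ ‖x‖
    · exact (h2 x hx).2.1 i
    · push Not at hx
      rw [(zero_in hg0 hx i).1, abs_zero]
      positivity
  have h6 := sq_int_le h3
  have h7 : ∑ i, ∫ x, pd i g x ^ 2 ≤ 5 * (C ^ 2 * ∫ x : E, 1 / (1 + ‖x‖) ^ 6) := by
    calc ∑ i, ∫ x, pd i g x ^ 2 ≤ ∑ _i : Fin 5, C ^ 2 * ∫ x : E, 1 / (1 + ‖x‖) ^ 6 :=
          Finset.sum_le_sum fun i _ => sq_int_le (h5 i)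
      _ = _ := by
          rw [Finset.sum_const, Finset.card_univ, Fintype.card_fin, nsmul_eq_mul]
          norm_num
  have h8 : ‖Theta f g‖ ^ 2 ≤
      (Real.sqrt (30 * (c0 * ∫ x : E, 1 / (1 + ‖x‖) ^ 6)) * C) ^ 2 := by
    rw [theta_norm hLin hIP hf hg, mul_pow, Real.sq_sqrt (by positivity)]
    calc c0 * ((∫ x, lap f x ^ 2) + ∑ i, ∫ x, pd i g x ^ 2)
        ≤ c0 * ((5 * C) ^ 2 * (∫ x : E, 1 / (1 + ‖x‖) ^ 6) +
          5 * (C ^ 2 * ∫ x : E, 1 / (1 + ‖x‖) ^ 6)) := by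
          apply mul_le_mul_of_nonneg_left _ hc0
          linarith
      _ = 30 * (c0 * ∫ x : E, 1 / (1 + ‖x‖) ^ 6) * C ^ 2 := by ring
  exact (abs_le_of_sq_le_sq' h8 (by positivity)).2

/-! ### duality -/

lemma test_sch {ψ : E → ℝ} (h : IsTest ψ) : IsSch ψ :=
  ⟨HasCompactSupport.toSchwartzMap (f := ψ) h.2 h.1, fun _ => rfl⟩

lemma theta_Rk (hU : St_UTest) (hLin : St_Lin) {f g ψ : E → ℝ} (hf : IsTest f) (hg : IsTest g)
    (hψ : IsTest ψ) : inner ℝ (Theta f g) (Rk ψ) = ∫ x, f x * ψ x := by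
  rw [← hU.2.2 (Theta f g) ψ (test_sch hψ)]
  apply integral_congr_ae
  filter_upwards [(hLin.2.1 f g hf hg).1] with x hx
  rw [hx]

lemma theta_dRk (hLin : St_Lin) {f g ψ : E → ℝ} (hf : IsTest f) (hg : IsTest g)
    (hψ : IsTest ψ) : inner ℝ (Theta f g) (dRk ψ) = ∫ x, g x * ψ x := by
  rw [← hLin.2.2 (Theta f g) ψ (test_sch hψ)]
  apply integral_congr_ae
  filter_upwards [(hLin.2.1 f g hf hg).2.1] with x hx
  rw [hx]

lemma ex_le_of_dual {Ω : Set E} {κ : K} {A : ℝ} (hA : 0 ≤ A)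
    (h : ∀ w ∈ Submodule.span ℝ {w | ∃ φ, IsTest φ ∧ tsupport φ ⊆ Ω ∧ (w = Rk φ ∨ w = dRk φ)},
      |inner ℝ κ w| ≤ A * ‖w‖) : ex Ω κ ≤ A := by
  have h1 : ∀ w ∈ TS Ω, |inner ℝ κ w| ≤ A * ‖w‖ := by
    intro w hw
    have hcl : IsClosed {w : K | |inner ℝ κ w| ≤ A * ‖w‖} := by
      apply isClosed_le <;> fun_prop
    have h2 : closure ((Submodule.span ℝ {w | ∃ φ, IsTest φ ∧ tsupport φ ⊆ Ω ∧
        (w = Rk φ ∨ w = dRk φ)} : Submodule ℝ K) : Set K) ⊆
        {w : K | |inner ℝ κ w| ≤ A * ‖w‖} := closure_minimal (fun w hw => h w hw) hcl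
    exact h2 hw
  have h3 : pr Ω κ ∈ TS Ω := Submodule.starProjection_apply_mem _ _
  have h4 := h1 _ h3
  have h5 : inner ℝ κ (pr Ω κ) = ‖pr Ω κ‖ ^ 2 := by
    have h6 : inner ℝ (κ - pr Ω κ) (pr Ω κ) = 0 := by
      have h7 : κ - pr Ω κ ∈ (TS Ω)ᗮ := Submodule.sub_starProjection_mem_orthogonal κ
      rw [real_inner_comm]
      exact h7 _ h3
    rw [inner_sub_left, real_inner_self_eq_norm_sq] at h6
    linarith
  rw [h5, abs_of_nonneg (sq_nonneg _)] at h4
  rw [ex]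
  by_contra h8
  push Not at h8
  have h9 : 0 < ‖pr Ω κ‖ := lt_of_le_of_lt hA h8
  nlinarith

/-- the final estimate for one mollifier. -/
lemma main_est (hR : St_RadT) (hU : St_UTest) (hLin : St_Lin) (hIP : St_IP) {θ : ℝ → ℝ}
    (hθ : Sm θ) (hθc : HasCompactSupport θ) {F : E → ℝ} {φ : ℝ → ℝ} (σ : ℝ) (hF : IsTest F)
    (hφ : Sm φ) (hφc : HasCompactSupport φ) (hm : MemLp (kap θ F σ φ) 2 mu)
    {C0 C1 : ℝ} {χ : E → ℝ} {χM : ℕ → E → ℝ} (hC0 : 0 ≤ C0) (hC1 : 0 ≤ C1)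
    (hχ : SmE χ) (hχ0 : ∀ x, ‖x‖ ≤ 3 / 4 → χ x = 0) (hχ1 : ∀ x, 1 ≤ ‖x‖ → χ x = 1)
    (hχd : Dec 0 C0 χ) (hχM : ∀ M : ℕ, SmE (χM M) ∧
    HasCompactSupport (χM M) ∧ (∀ x, ‖x‖ ≤ M + 1 → χM M x = 1) ∧ Dec 0 C1 (χM M))
    {C : ℝ} (hC : 0 ≤ C) (h0 : Dec 1 C (ua θ F σ φ (fun _ => 1) 0))
    (h1 : Dec 2 C (ua θ F σ φ (fun _ => 1) 1)) :
    ex (ext 0 1) (toK (kap θ F σ φ)) ≤
      Real.sqrt (30 * (c0 * ∫ x : E, 1 / (1 + ‖x‖) ^ 6)) * (4 * (C * (4 * (C0 * C1)))) := by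
  have hFc : Continuous F := hF.1.continuous
  obtain ⟨u, hu⟩ : ∃ u : E → ℝ, u = ua θ F σ φ (fun _ => 1) 0 := ⟨_, rfl⟩
  obtain ⟨v, hv⟩ : ∃ v : E → ℝ, v = fun x => (-1) * ua θ F σ φ (fun _ => 1) 1 x := ⟨_, rfl⟩
  have hu1 : SmE u := by
    rw [hu]
    exact ua_SmE σ 0 continuous_const hθ hFc hF.2 hφ hφc
  have hv0 : SmE (ua θ F σ φ (fun _ => 1) 1) :=
    ua_SmE σ 1 continuous_const hθ hFc hF.2 hφ hφc
  have hv1 : SmE v := by
    rw [hv]
    exact contDiff_const.mul hv0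
  have hud : Dec 1 C u := by rw [hu]; exact h0
  have hvd : Dec 2 C v := by
    rw [hv]
    intro x hx
    have p1 : ∀ i, pd i (fun x => (-1) * ua θ F σ φ (fun _ => 1) 1 x) =
        fun x => (-1) * pd i (ua θ F σ φ (fun _ => 1) 1) x := by
      intro i
      funext x
      simp only [pd]
      rw [fderiv_const_mul]
      · simp
      · exact smE_diff hv0 x
    have p2 : ∀ i, pd i (fun x => (-1) * pd i (ua θ F σ φ (fun _ => 1) 1) x) =
        fun x => (-1) * pd i (pd i (ua θ F σ φ (fun _ => 1) 1)) x := by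
      intro i
      funext x
      have h2 := smE_diff (smE_pd hv0 i) x
      rw [pd, fderiv_const_mul h2]
      simp [pd]
    obtain ⟨a1, a2, a3⟩ := h1 x hx
    refine ⟨?_, fun i => ?_, fun i => ?_⟩
    · rw [abs_mul, abs_neg, abs_one, one_mul]
      exact a1
    · rw [p1 i, abs_mul, abs_neg, abs_one, one_mul]
      exact a2 i
    · rw [p1 i, p2 i, abs_mul, abs_neg, abs_one, one_mul]
      exact a3 i
  have pu : ∀ ψ, IsTest ψ → inner ℝ (toK (kap θ F σ φ)) (Rk ψ) = ∫ x, u x * ψ x := by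
    intro ψ hψ
    rw [pair_Rk hR σ hθ hFc hF.2 hφ hm hψ]
    apply integral_congr_ae
    refine Eventually.of_forall fun x => ?_
    simp only
    rw [uu_ua0 σ hθ hFc hF.2 hφ x, hu]
  have pv : ∀ ψ, IsTest ψ → inner ℝ (toK (kap θ F σ φ)) (dRk ψ) = ∫ x, v x * ψ x := by
    intro ψ hψ
    rw [pair_dRk hR σ hθ hθc hFc hF.2 hφ hφc hm hψ]
    apply integral_congr_ae
    refine Eventually.of_forall fun x => ?_
    simp only
    rw [uu_ua1 σ hθ hFc hF.2 hφ x, hv]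
    ring
  have hζ : ∀ M : ℕ, SmE (fun x => χ x * χM M x) := fun M => smE_mul hχ (hχM M).1
  have hζd : ∀ M : ℕ, Dec 0 (4 * (C0 * C1)) (fun x => χ x * χM M x) := fun M =>
    Dec_mul hχ (hχM M).1 hC0 hC1 hχd (hχM M).2.2.2
  have hCC : 0 ≤ 4 * (C0 * C1) := by positivity
  have hfd : ∀ M : ℕ, Dec 1 (4 * (C * (4 * (C0 * C1)))) (fun x => u x * (χ x * χM M x)) :=
    fun M => Dec_mul hu1 (hζ M) hC hCC hud (hζd M)
  have hgd : ∀ M : ℕ, Dec 2 (4 * (C * (4 * (C0 * C1)))) (fun x => v x * (χ x * χM M x)) :=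
    fun M => Dec_mul hv1 (hζ M) hC hCC hvd (hζd M)
  have hft : ∀ M : ℕ, IsTest (fun x => u x * (χ x * χM M x)) := fun M =>
    ⟨smE_mul hu1 (hζ M), ((hχM M).2.1.mul_left).mul_left⟩
  have hgt : ∀ M : ℕ, IsTest (fun x => v x * (χ x * χM M x)) := fun M =>
    ⟨smE_mul hv1 (hζ M), ((hχM M).2.1.mul_left).mul_left⟩
  have hf0 : ∀ (M : ℕ) (x : E), ‖x‖ ≤ 3 / 4 → (fun x => u x * (χ x * χM M x)) x = 0 := by
    intro M x hx
    simp only
    rw [hχ0 x hx, zero_mul, mul_zero]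
  have hg0 : ∀ (M : ℕ) (x : E), ‖x‖ ≤ 3 / 4 → (fun x => v x * (χ x * χM M x)) x = 0 := by
    intro M x hx
    simp only
    rw [hχ0 x hx, zero_mul, mul_zero]
  have hW : ∀ M : ℕ, ‖Theta (fun x => u x * (χ x * χM M x)) (fun x => v x * (χ x * χM M x))‖ ≤
      Real.sqrt (30 * (c0 * ∫ x : E, 1 / (1 + ‖x‖) ^ 6)) * (4 * (C * (4 * (C0 * C1)))) :=
    fun M => theta_bound hLin hIP (hft M) (hgt M) (hf0 M) (hg0 M) (by positivity) (hfd M)
      (hgd M)
  have hcut : ∀ (ψ : E → ℝ), IsTest ψ → tsupport ψ ⊆ ext 0 1 → ∃ M0 : ℕ, ∀ M : ℕ, M0 ≤ M →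
      ∀ x, ψ x ≠ 0 → χ x * χM M x = 1 := by
    intro ψ hψ hs
    obtain ⟨ρ, hρ⟩ := (hψ.2.isBounded : Bornology.IsBounded (tsupport ψ)).subset_closedBall 0
    obtain ⟨M0, hM0⟩ := exists_nat_ge ρ
    refine ⟨M0, fun M hM x hx => ?_⟩
    have h2 : x ∈ tsupport ψ := subset_tsupport ψ hx
    have h3 : 1 < ‖x‖ := by
      have := hs h2
      simpa [ext] using this
    have h4 : ‖x‖ ≤ ρ := by simpa using hρ h2
    have h5 : (M0 : ℝ) ≤ M := by exact_mod_cast hM
    rw [hχ1 x h3.le, (hχM M).2.2.1 x (by linarith), mul_one]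
  apply ex_le_of_dual (by positivity)
  intro w hw
  have key : ∃ M0 : ℕ, ∀ M : ℕ, M0 ≤ M → inner ℝ (toK (kap θ F σ φ)) w =
      inner ℝ (Theta (fun x => u x * (χ x * χM M x)) (fun x => v x * (χ x * χM M x))) w := by
    induction hw using Submodule.span_induction with
    | mem w hw =>
      obtain ⟨ψ, hψ, hs, hw | hw⟩ := hw
      · obtain ⟨M0, hM0⟩ := hcut ψ hψ hs
        refine ⟨M0, fun M hM => ?_⟩
        rw [hw, pu ψ hψ, theta_Rk hU hLin (hft M) (hgt M) hψ]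
        apply integral_congr_ae
        refine Eventually.of_forall fun x => ?_
        simp only
        by_cases hx : ψ x = 0
        · rw [hx, mul_zero, mul_zero]
        · rw [hM0 M hM x hx, mul_one]
      · obtain ⟨M0, hM0⟩ := hcut ψ hψ hs
        refine ⟨M0, fun M hM => ?_⟩
        rw [hw, pv ψ hψ, theta_dRk hLin (hft M) (hgt M) hψ]
        apply integral_congr_ae
        refine Eventually.of_forall fun x => ?_
        simp only
        by_cases hx : ψ x = 0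
        · rw [hx, mul_zero, mul_zero]
        · rw [hM0 M hM x hx, mul_one]
    | zero => exact ⟨0, fun M _ => by rw [inner_zero_right, inner_zero_right]⟩
    | add a b _ _ ha hb =>
      obtain ⟨Ma, hMa⟩ := ha
      obtain ⟨Mb, hMb⟩ := hb
      refine ⟨max Ma Mb, fun M hM => ?_⟩
      rw [inner_add_right, inner_add_right, hMa M (le_of_max_le_left hM),
        hMb M (le_of_max_le_right hM)]
    | smul c a _ ha =>
      obtain ⟨Ma, hMa⟩ := ha
      refine ⟨Ma, fun M hM => ?_⟩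
      rw [inner_smul_right, inner_smul_right, hMa M hM]
  obtain ⟨M, hM⟩ := key
  rw [hM M le_rfl]
  exact (abs_real_inner_le_norm _ _).trans
    (mul_le_mul_of_nonneg_right (hW M) (norm_nonneg _))

end Pool.Agent.QWE.NFbx

namespace Pool.Agent.QWE

open NFbx in
theorem thm_NFb (hR : St_RadT) (hU : St_UTest) (hLin : St_Lin) (hIP : St_IP) (hN : St_NFK)
    (hNa : St_NFa) : St_NFb := by
  intro θ hθ hθ1 hθ0
  have hθc : HasCompactSupport θ := cs_of_zero _ hθ0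
  obtain ⟨C0, χ, hC0, hχ, hχ0, hχ1, hχd⟩ := cut_in
  obtain ⟨C1, χM, hC1, hχM⟩ := cut_out
  obtain ⟨A0, hA0, h0⟩ := ua_dec hN hθ hθc 0
  obtain ⟨A1, hA1, h1⟩ := ua_dec hN hθ hθc 1
  refine ⟨Real.sqrt (30 * (c0 * ∫ x : E, 1 / (1 + ‖x‖) ^ 6)) *
    (4 * ((A0 + A1) * (4 * (C0 * C1)))), fun F σ φ hF hF3 hσ0 hσ1 hφ => ?_⟩
  have hF0 : 0 ≤ ∫ x, |F x| := integral_nonneg fun _ => abs_nonneg _
  have hφc : HasCompactSupport φ := cs_of_zero _ hφ.2.2.1
  have hm : MemLp (kap θ F σ φ) 2 mu := (hNa θ F σ hθ hθ1 hθ0 hF hF3).1 φ _ hφ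
  have mono : ∀ (k : ℕ) (A B : ℝ) (f : E → ℝ), A ≤ B → Dec k A f → Dec k B f := by
    intro k A B f hAB hf x hx
    obtain ⟨a1, a2, a3⟩ := hf x hx
    refine ⟨a1.trans ?_, fun i => (a2 i).trans ?_, fun i => (a3 i).trans ?_⟩ <;>
    · apply div_le_div_of_nonneg_right hAB
      positivity
  have h2 := main_est hR hU hLin hIP hθ hθc σ hF hφ.1 hφc hm hC0 hC1 hχ hχ0 hχ1 hχd hχM
    (C := (A0 + A1) * ∫ x, |F x|) (by positivity)
    (mono _ _ _ _ (mul_le_mul_of_nonneg_right (by linarith) hF0)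
      (h0 F σ φ hF hF3 hσ0 hσ1 hφ))
    (mono _ _ _ _ (mul_le_mul_of_nonneg_right (by linarith) hF0)
      (h1 F σ φ hF hF3 hσ0 hσ1 hφ))
  refine h2.trans (le_of_eq ?_)
  ring

end Pool.Agent.QWE
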