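import Pool.Agent.QWE.StG
import Pool.Agent.QWE.NFb

set_option autoImplicit false

/-!
# QWE G4 (MP_9ce95b_an): local compactness (helper66)

Rellich's theorem for test functions through Plancherel, then density of the test states.
-/

open MeasureTheory Filter Topology Set
open scoped ENNReal NNReal RealInnerProductSpace FourierTransform LineDeriv

namespace Pool.Agent.QWE.G4x

open Pool.Agent.QWE.NFbx

/-- complexification of a test function as a Schwartz function. -/
noncomputable def cS {g : E → ℝ} (hg : IsTest g) : SchwartzMap E ℂ :=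
  HasCompactSupport.toSchwartzMap (f := fun x => (g x : ℂ))
    (hg.2.comp_left (g := ((↑) : ℝ → ℂ)) Complex.ofReal_zero)
    (Complex.ofRealCLM.contDiff.comp hg.1)

lemma cS_apply {g : E → ℝ} (hg : IsTest g) (x : E) : cS hg x = (g x : ℂ) := rfl

lemma test_pd {g : E → ℝ} (hg : IsTest g) (i : Fin 5) : IsTest (pd i g) :=
  ⟨smE_pd hg.1 i, cs_pd hg.2 i⟩

lemma cS_pd {g : E → ℝ} (hg : IsTest g) (i : Fin 5) :
    ∂_{(EuclideanSpace.single i (1 : ℝ) : E)} (cS hg) = cS (test_pd hg i) := by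
  ext x
  rw [SchwartzMap.lineDerivOp_apply_eq_fderiv, cS_apply]
  have h1 : HasFDerivAt (cS hg : E → ℂ) (Complex.ofRealCLM.comp (fderiv ℝ g x)) x :=
    Complex.ofRealCLM.hasFDerivAt.comp x (smE_diff hg.1 x).hasFDerivAt
  rw [h1.fderiv]
  rfl

lemma four_pd {g : E → ℝ} (hg : IsTest g) (i : Fin 5) (ξ : E) :
    ‖𝓕 (cS (test_pd hg i)) ξ‖ = 2 * Real.pi * |ξ i| * ‖𝓕 (cS hg) ξ‖ := by
  rw [← cS_pd hg i, SchwartzMap.fourier_lineDerivOp_eq]
  have h1 : (fun x : E => inner ℝ x (EuclideanSpace.single i (1 : ℝ))).HasTemperateGrowth :=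
    ((innerSL ℝ).flip (EuclideanSpace.single i (1 : ℝ))).hasTemperateGrowth
  rw [_root_.smul_apply, SchwartzMap.smulLeftCLM_apply_apply h1]
  rw [single_inner]
  rw [norm_smul, norm_smul]
  simp only [norm_mul, Complex.norm_ofNat, Complex.norm_real, Complex.norm_I, mul_one,
    Real.norm_eq_abs, abs_of_pos Real.pi_pos]
  ring

lemma four_int {g : E → ℝ} (hg : IsTest g) :
    Integrable (fun ξ => ‖𝓕 (cS hg) ξ‖ ^ 2) :=
  ((𝓕 (cS hg)).memLp 2).integrable_norm_pow (by norm_num)

lemma four_pl {g : E → ℝ} (hg : IsTest g) : ∫ ξ, ‖𝓕 (cS hg) ξ‖ ^ 2 = ∫ x, g x ^ 2 := by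
  rw [SchwartzMap.integral_norm_sq_fourier]
  apply integral_congr_ae
  refine Eventually.of_forall fun x => ?_
  simp only [cS_apply, Complex.norm_real, Real.norm_eq_abs, sq_abs]

lemma four_val {g : E → ℝ} (hg : IsTest g) (ξ : E) : 𝓕 (cS hg) ξ =
    ((∫ x, g x * Real.cos (-2 * Real.pi * inner ℝ x ξ) : ℝ) : ℂ) +
      ((∫ x, g x * Real.sin (-2 * Real.pi * inner ℝ x ξ) : ℝ) : ℂ) * Complex.I := by
  have hc : Continuous g := hg.1.continuous
  have i1 : Integrable (fun x => g x * Real.cos (-2 * Real.pi * inner ℝ x ξ)) := by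
    refine Continuous.integrable_of_hasCompactSupport (by fun_prop) hg.2.mul_right
  have i2 : Integrable (fun x => g x * Real.sin (-2 * Real.pi * inner ℝ x ξ)) := by
    refine Continuous.integrable_of_hasCompactSupport (by fun_prop) hg.2.mul_right
  rw [SchwartzMap.fourier_coe, Real.fourier_eq', ← integral_complex_ofReal,
    ← integral_complex_ofReal, ← integral_mul_const, ← integral_add i1.ofReal
      (i2.ofReal.mul_const _)]
  apply integral_congr_ae
  refine Eventually.of_forall fun x => ?_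
  simp only [cS_apply, smul_eq_mul]
  rw [Complex.exp_mul_I]
  push_cast
  ring

lemma four_bd {g : E → ℝ} (hg : IsTest g) (ξ : E) : ‖𝓕 (cS hg) ξ‖ ≤ 2 * ∫ x, |g x| := by
  have hc : Continuous g := hg.1.continuous
  have i0 : Integrable (fun x => |g x|) := (hc.integrable_of_hasCompactSupport hg.2).abs
  have b1 : ∀ e : E → ℝ, (∀ x, |e x| ≤ 1) → |∫ x, g x * e x| ≤ ∫ x, |g x| := by
    intro e he
    rw [← Real.norm_eq_abs]
    apply norm_integral_le_of_norm_le i0
    refine Eventually.of_forall fun x => ?_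
    rw [Real.norm_eq_abs, abs_mul]
    calc |g x| * |e x| ≤ |g x| * 1 := mul_le_mul_of_nonneg_left (he x) (abs_nonneg _)
      _ = |g x| := mul_one _
  rw [four_val hg ξ]
  refine (norm_add_le _ _).trans ?_
  rw [norm_mul, Complex.norm_I, mul_one, Complex.norm_real, Complex.norm_real,
    Real.norm_eq_abs, Real.norm_eq_abs]
  have h1 := b1 (fun x => Real.cos (-2 * Real.pi * inner ℝ x ξ)) fun x => Real.abs_cos_le_one _
  have h2 := b1 (fun x => Real.sin (-2 * Real.pi * inner ℝ x ξ)) fun x => Real.abs_sin_le_one _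
  linarith

/-- splitting of the Fourier side. -/
lemma four_split {g : E → ℝ} (hg : IsTest g) {R : ℝ} (hR : 0 < R) :
    ∫ x, g x ^ 2 ≤ (∫ ξ in Metric.ball (0 : E) R, ‖𝓕 (cS hg) ξ‖ ^ 2) +
      (R ^ 2)⁻¹ * ∑ i, ∫ x, pd i g x ^ 2 := by
  have h1 : ∀ ξ : E, ‖𝓕 (cS hg) ξ‖ ^ 2 ≤
      (Metric.ball (0 : E) R).indicator (fun ξ => ‖𝓕 (cS hg) ξ‖ ^ 2) ξ +
        (R ^ 2)⁻¹ * ∑ i, ‖𝓕 (cS (test_pd hg i)) ξ‖ ^ 2 := by
    intro ξ
    by_cases hξ : ξ ∈ Metric.ball (0 : E) R
    · rw [indicator_of_mem hξ]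
      have : 0 ≤ (R ^ 2)⁻¹ * ∑ i, ‖𝓕 (cS (test_pd hg i)) ξ‖ ^ 2 := by positivity
      linarith
    · rw [indicator_of_notMem hξ, zero_add]
      have h2 : R ≤ ‖ξ‖ := by simpa using hξ
      have h3 : R ^ 2 ≤ ∑ i, ξ i ^ 2 := by
        rw [← EuclideanSpace.real_norm_sq_eq]
        exact pow_le_pow_left₀ hR.le h2 2
      have h4 : ∑ i, ‖𝓕 (cS (test_pd hg i)) ξ‖ ^ 2 =
          (2 * Real.pi) ^ 2 * (∑ i, ξ i ^ 2) * ‖𝓕 (cS hg) ξ‖ ^ 2 := by
        simp_rw [four_pd hg]
        rw [Finset.mul_sum, Finset.sum_mul]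
        apply Finset.sum_congr rfl
        intro i _
        rw [mul_pow, mul_pow, sq_abs]
      rw [h4, inv_mul_eq_div, le_div_iff₀ (by positivity)]
      have h5 : (1 : ℝ) ≤ (2 * Real.pi) ^ 2 := by
        have := Real.pi_gt_three
        nlinarith
      have h6 : 1 * R ^ 2 ≤ (2 * Real.pi) ^ 2 * ∑ i, ξ i ^ 2 :=
        mul_le_mul h5 h3 (by positivity) (by positivity)
      calc ‖𝓕 (cS hg) ξ‖ ^ 2 * R ^ 2 = (1 * R ^ 2) * ‖𝓕 (cS hg) ξ‖ ^ 2 := by ring
        _ ≤ _ := mul_le_mul_of_nonneg_right h6 (by positivity)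
  rw [← four_pl hg]
  have i1 := four_int hg
  have i2 : Integrable (fun ξ => (R ^ 2)⁻¹ * ∑ i, ‖𝓕 (cS (test_pd hg i)) ξ‖ ^ 2) := by
    apply Integrable.const_mul
    apply integrable_finsetSum
    intro i _
    exact four_int (test_pd hg i)
  refine (integral_mono i1 ((i1.indicator measurableSet_ball).add i2) h1).trans ?_
  rw [integral_add' (i1.indicator measurableSet_ball) i2, integral_indicator measurableSet_ball,
    integral_const_mul, integral_finsetSum]
  · apply le_of_eq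
    congr 2
    apply Finset.sum_congr rfl
    intro i _
    rw [four_pl]
  · intro i _
    exact four_int (test_pd hg i)

/-- Rellich's theorem for test functions. -/
lemma rellich {g : ℕ → E → ℝ} (hg : ∀ n, IsTest (g n)) {C : ℝ}
    (h1 : ∀ e : E → ℝ, SmE e → Tendsto (fun n => ∫ x, g n x * e x) atTop (𝓝 0))
    (h2 : ∀ n, ∫ x, |g n x| ≤ C) (h3 : ∀ n i, ∫ x, pd i (g n) x ^ 2 ≤ C) :
    Tendsto (fun n => ∫ x, g n x ^ 2) atTop (𝓝 0) := by
  have hC : 0 ≤ C := (integral_nonneg fun x => abs_nonneg _).trans (h2 0)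
  have hpt : ∀ ξ, Tendsto (fun n => 𝓕 (cS (hg n)) ξ) atTop (𝓝 0) := by
    intro ξ
    have s0 : SmE (fun x : E => -2 * Real.pi * inner ℝ x ξ) :=
      contDiff_const.mul (contDiff_id.inner ℝ contDiff_const)
    have s1 : SmE (fun x : E => Real.cos (-2 * Real.pi * inner ℝ x ξ)) :=
      Real.contDiff_cos.comp s0
    have s2 : SmE (fun x : E => Real.sin (-2 * Real.pi * inner ℝ x ξ)) :=
      Real.contDiff_sin.comp s0
    have t1 := h1 _ s1
    have t2 := h1 _ s2
    simp_rw [four_val]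
    have t3 : Tendsto (fun n => ((∫ x, g n x * Real.cos (-2 * Real.pi * inner ℝ x ξ) : ℝ) : ℂ) +
      ((∫ x, g n x * Real.sin (-2 * Real.pi * inner ℝ x ξ) : ℝ) : ℂ) * Complex.I) atTop
      (𝓝 (((0 : ℝ) : ℂ) + ((0 : ℝ) : ℂ) * Complex.I)) :=
      ((Complex.continuous_ofReal.tendsto 0).comp t1).add
        (((Complex.continuous_ofReal.tendsto 0).comp t2).mul_const _)
    simpa using t3
  have hball : ∀ R : ℝ, Tendsto (fun n => ∫ ξ in Metric.ball (0 : E) R, ‖𝓕 (cS (hg n)) ξ‖ ^ 2)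
      atTop (𝓝 0) := by
    intro R
    have : IsFiniteMeasure ((volume : Measure E).restrict (Metric.ball (0 : E) R)) :=
      ⟨by rw [Measure.restrict_apply_univ]; exact measure_ball_lt_top⟩
    have h4 : Tendsto (fun n => ∫ ξ in Metric.ball (0 : E) R, ‖𝓕 (cS (hg n)) ξ‖ ^ 2)
        atTop (𝓝 (∫ _ in Metric.ball (0 : E) R, (0 : ℝ))) := by
      apply tendsto_integral_of_dominated_convergence (fun _ => (2 * C) ^ 2)
      · intro n
        exact (((𝓕 (cS (hg n))).continuous.norm).pow 2).aestronglyMeasurable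
      · exact integrable_const _
      · intro n
        refine Eventually.of_forall fun ξ => ?_
        rw [Real.norm_eq_abs, abs_of_nonneg (by positivity)]
        apply pow_le_pow_left₀ (norm_nonneg _)
        refine (four_bd (hg n) ξ).trans ?_
        have := h2 n
        linarith
      · refine Eventually.of_forall fun ξ => ?_
        have := ((hpt ξ).norm).pow 2
        simpa using this
    simpa using h4
  rw [Metric.tendsto_atTop]
  intro ε hε
  obtain ⟨R, hR0, hR⟩ : ∃ R : ℝ, 0 < R ∧ (R ^ 2)⁻¹ * (5 * C) ≤ ε / 2 := by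
    refine ⟨10 * C / ε + 1, by positivity, ?_⟩
    have h5 : 1 ≤ 10 * C / ε + 1 := by
      have : 0 ≤ 10 * C / ε := by positivity
      linarith
    rw [inv_mul_le_iff₀ (by positivity)]
    have h6 : 10 * C / ε + 1 ≤ (10 * C / ε + 1) ^ 2 := by nlinarith
    have h7 : 5 * C ≤ (10 * C / ε + 1) * (ε / 2) := by
      have : (10 * C / ε + 1) * (ε / 2) = 5 * C + ε / 2 := by field_simp; ring
      rw [this]
      linarith
    exact h7.trans (mul_le_mul_of_nonneg_right h6 (by positivity))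
  have h8 := (Metric.tendsto_atTop.1 (hball R)) (ε / 2) (by positivity)
  obtain ⟨N, hN⟩ := h8
  refine ⟨N, fun n hn => ?_⟩
  have h9 := hN n hn
  have nn1 : 0 ≤ ∫ ξ in Metric.ball (0 : E) R, ‖𝓕 (cS (hg n)) ξ‖ ^ 2 :=
    integral_nonneg fun _ => by positivity
  have nn2 : 0 ≤ ∫ x, g n x ^ 2 := integral_nonneg fun _ => by positivity
  rw [Real.dist_eq, sub_zero, abs_of_nonneg nn1] at h9
  rw [Real.dist_eq, sub_zero, abs_of_nonneg nn2]
  have h10 := four_split (hg n) hR0
  have h11 : (R ^ 2)⁻¹ * ∑ i, ∫ x, pd i (g n) x ^ 2 ≤ (R ^ 2)⁻¹ * (5 * C) := by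
    apply mul_le_mul_of_nonneg_left _ (by positivity)
    calc ∑ i, ∫ x, pd i (g n) x ^ 2 ≤ ∑ _i : Fin 5, C := Finset.sum_le_sum fun i _ => h3 n i
      _ = 5 * C := by
          rw [Finset.sum_const, Finset.card_univ, Fintype.card_fin, nsmul_eq_mul]
          norm_num
  linarith

/-! ### Hoelder on balls -/

lemma hol (M : ℝ) {p : ℝ≥0∞} (hp : 2 ≤ p) : ∃ c : ℝ≥0∞, c ≠ ⊤ ∧ ∀ f : E → ℝ,
    AEStronglyMeasurable f volume →
    eLpNorm ((Metric.ball (0 : E) M).indicator f) 2 volume ≤ c * eLpNorm f p volume := by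
  refine ⟨(volume (Metric.ball (0 : E) M)) ^ (1 / (2 : ℝ≥0∞).toReal - 1 / p.toReal), ?_, ?_⟩
  · apply ENNReal.rpow_ne_top_of_nonneg
    · rw [sub_nonneg]
      rcases eq_or_ne p ⊤ with h | h
      · rw [h]; simp
      · apply one_div_le_one_div_of_le (by norm_num)
        exact ENNReal.toReal_mono h hp
    · exact measure_ball_lt_top.ne
  · intro f hf
    rw [eLpNorm_indicator_eq_eLpNorm_restrict measurableSet_ball, mul_comm]
    have h1 := eLpNorm_le_eLpNorm_mul_rpow_measure_univ hp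
      (hf.restrict (s := Metric.ball (0 : E) M))
    rw [Measure.restrict_apply_univ] at h1
    refine h1.trans ?_
    apply mul_le_mul_left
    exact eLpNorm_mono_measure _ Measure.restrict_le_self

lemma sqI {f : E → ℝ} (hf : MemLp f 2 volume) :
    ∫ x, f x ^ 2 = (eLpNorm f 2 volume).toReal ^ 2 := by
  rw [hf.eLpNorm_eq_integral_rpow_norm (by norm_num) (by norm_num)]
  have h1 : 0 ≤ ∫ x, ‖f x‖ ^ ((2 : ℝ≥0∞).toReal) := integral_nonneg fun _ => by positivity
  rw [ENNReal.toReal_ofReal (by positivity)]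
  have h2 : (2 : ℝ≥0∞).toReal = 2 := by norm_num
  rw [h2] at h1 ⊢
  rw [← Real.rpow_natCast _ 2, ← Real.rpow_mul h1]
  norm_num

lemma cs_memLp {f : E → ℝ} (hf : Continuous f) (hc : HasCompactSupport f) (p : ℝ≥0∞) :
    MemLp f p volume := hf.memLp_of_hasCompactSupport hc

/-- the squared bound on a ball. -/
lemma ball_sq {f : E → ℝ} (hf : Continuous f) (hc : HasCompactSupport f) (M : ℝ) {D : ℝ≥0∞}
    (hD : D ≠ ⊤) (h : eLpNorm ((Metric.ball (0 : E) M).indicator f) 2 volume ≤ D) :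
    ∫ x in Metric.ball (0 : E) M, f x ^ 2 ≤ D.toReal ^ 2 := by
  have h1 : MemLp ((Metric.ball (0 : E) M).indicator f) 2 volume :=
    (cs_memLp hf hc 2).indicator measurableSet_ball
  have h2 := sqI h1
  have h3 : ∫ x in Metric.ball (0 : E) M, f x ^ 2 =
      ∫ x, (Metric.ball (0 : E) M).indicator f x ^ 2 := by
    rw [← integral_indicator measurableSet_ball]
    apply integral_congr_ae
    refine Eventually.of_forall fun x => ?_
    by_cases hx : x ∈ Metric.ball (0 : E) M
    · simp [indicator_of_mem hx]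
    · simp [indicator_of_notMem hx]
  rw [h3, h2]
  exact pow_le_pow_left₀ ENNReal.toReal_nonneg (ENNReal.toReal_mono hD h) 2

/-- local compactness for test functions. -/
lemma local_compact {h : ℕ → E → ℝ} (hh : ∀ n, IsTest (h n)) {p q : ℝ≥0∞} (hp : 2 ≤ p)
    (hq : 2 ≤ q) {A : ℝ≥0∞} (hA : A ≠ ⊤) (M : ℝ)
    (h1 : ∀ ψ : E → ℝ, IsTest ψ → Tendsto (fun n => ∫ x, h n x * ψ x) atTop (𝓝 0))
    (h2 : ∀ n, eLpNorm (h n) p volume ≤ A) (h3 : ∀ n i, eLpNorm (pd i (h n)) q volume ≤ A) :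
    Tendsto (fun n => eLpNorm ((Metric.ball (0 : E) M).indicator (h n)) 2 volume) atTop
      (𝓝 0) := by
  obtain ⟨C1, χ, hC1, hχ⟩ := cut_out
  obtain ⟨N, hN⟩ := exists_nat_ge M
  obtain ⟨hη1, hη2, hη3, -⟩ := hχ N
  obtain ⟨η, hη⟩ : ∃ η : E → ℝ, η = χ N := ⟨_, rfl⟩
  rw [← hη] at hη1 hη2 hη3
  have hηc : Continuous η := ContDiff.continuous hη1
  have hgt : ∀ n, IsTest (fun x => η x * h n x) := fun n =>
    ⟨smE_mul hη1 (hh n).1, hη2.mul_right⟩
  obtain ⟨M2, hM2⟩ : ∃ M2 : ℝ, tsupport η ⊆ Metric.ball (0 : E) M2 := by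
    obtain ⟨ρ, hρ⟩ := (hη2.isBounded : Bornology.IsBounded (tsupport η)).subset_closedBall 0
    exact ⟨ρ + 1, hρ.trans (Metric.closedBall_subset_ball (by linarith))⟩
  obtain ⟨B0, hB00, hB0⟩ := bdd_of_cs hηc hη2
  choose B1 hB10 hB1 using fun i => bdd_of_cs (ContDiff.continuous (smE_pd hη1 i)) (cs_pd hη2 i)
  have hzero : ∀ x, x ∉ Metric.ball (0 : E) M2 → η x = 0 ∧ ∀ i, pd i η x = 0 := by
    intro x hx
    refine ⟨image_eq_zero_of_notMem_tsupport fun h => hx (hM2 h), fun i => ?_⟩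
    apply image_eq_zero_of_notMem_tsupport
    intro h
    exact hx (hM2 (tsupport_fderiv_apply_subset ℝ (EuclideanSpace.single i (1 : ℝ)) h))
  obtain ⟨cp, hcp, hcp'⟩ := hol M2 hp
  obtain ⟨cq, hcq, hcq'⟩ := hol M2 hq
  have b0 : ∀ n, ∫ x in Metric.ball (0 : E) M2, h n x ^ 2 ≤ (cp * A).toReal ^ 2 := by
    intro n
    have hc : Continuous (h n) := (hh n).1.continuous
    apply ball_sq hc (hh n).2 M2 (ENNReal.mul_ne_top hcp hA)
    exact (hcp' _ hc.aestronglyMeasurable).trans (mul_le_mul_right (h2 n) _)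
  have b1 : ∀ n i, ∫ x in Metric.ball (0 : E) M2, pd i (h n) x ^ 2 ≤ (cq * A).toReal ^ 2 := by
    intro n i
    have hc : Continuous (pd i (h n)) := ContDiff.continuous (smE_pd (hh n).1 i)
    apply ball_sq hc (cs_pd (hh n).2 i) M2 (ENNReal.mul_ne_top hcq hA)
    exact (hcq' _ hc.aestronglyMeasurable).trans (mul_le_mul_right (h3 n i) _)
  obtain ⟨P, hP⟩ : ∃ P : ℝ, P = (cp * A).toReal ^ 2 := ⟨_, rfl⟩
  obtain ⟨Q, hQ⟩ : ∃ Q : ℝ, Q = (cq * A).toReal ^ 2 := ⟨_, rfl⟩
  have hP0 : 0 ≤ P := by rw [hP]; positivity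
  have hQ0 : 0 ≤ Q := by rw [hQ]; positivity
  rw [← hP] at b0
  rw [← hQ] at b1
  have hs : 0 ≤ ∑ i, B1 i ^ 2 := Finset.sum_nonneg fun i _ => by positivity
  have i0 : ∀ n, IntegrableOn (fun x => h n x ^ 2) (Metric.ball (0 : E) M2) := fun n =>
    (((cs_memLp (hh n).1.continuous (hh n).2 2).integrable_sq)).integrableOn
  have i1 : ∀ n i, IntegrableOn (fun x => pd i (h n) x ^ 2) (Metric.ball (0 : E) M2) :=
    fun n i => (((cs_memLp (ContDiff.continuous (smE_pd (hh n).1 i))
      (cs_pd (hh n).2 i) 2).integrable_sq)).integrableOn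
  have hfin : IsFiniteMeasure ((volume : Measure E).restrict (Metric.ball (0 : E) M2)) :=
    ⟨by rw [Measure.restrict_apply_univ]; exact measure_ball_lt_top⟩
  have key := rellich hgt (C := volume.real (Metric.ball (0 : E) M2) + B0 ^ 2 * P +
      (2 * (∑ i, B1 i ^ 2) * P + 2 * B0 ^ 2 * Q))
    (fun e he => by
      have h4 := h1 (fun x => η x * e x) ⟨smE_mul hη1 he, hη2.mul_right⟩
      refine h4.congr fun n => ?_
      apply integral_congr_ae
      refine Eventually.of_forall fun x => ?_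
      simp only
      ring)
    (fun n => by
      have h4 : ∫ x, |η x * h n x| = ∫ x in Metric.ball (0 : E) M2, |η x * h n x| := by
        rw [setIntegral_eq_integral_of_forall_compl_eq_zero]
        intro x hx
        rw [(hzero x hx).1, zero_mul, abs_zero]
      rw [h4]
      have h5 : ∫ x in Metric.ball (0 : E) M2, |η x * h n x| ≤
          ∫ x in Metric.ball (0 : E) M2, (1 + B0 ^ 2 * h n x ^ 2) := by
        apply integral_mono_of_nonneg (Eventually.of_forall fun _ => abs_nonneg _)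
          ((integrable_const _).add ((i0 n).const_mul _))
        refine Eventually.of_forall fun x => ?_
        simp only [Pi.add_apply]
        have h6 : (η x * h n x) ^ 2 ≤ B0 ^ 2 * h n x ^ 2 := by
          rw [mul_pow]
          apply mul_le_mul_of_nonneg_right _ (sq_nonneg _)
          rw [← sq_abs]
          exact pow_le_pow_left₀ (abs_nonneg _) (hB0 x) 2
        have h7 : |η x * h n x| ≤ 1 + (η x * h n x) ^ 2 := by
          rw [← sq_abs (η x * h n x)]
          nlinarith [abs_nonneg (η x * h n x), sq_nonneg (|η x * h n x| - 1)]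
        linarith
      refine h5.trans ?_
      rw [integral_add (integrable_const _) ((i0 n).const_mul _), integral_const_mul]
      have h8 : ∫ _ in Metric.ball (0 : E) M2, (1 : ℝ) = volume.real (Metric.ball (0 : E) M2) := by
        simp
      rw [h8]
      have h9 : B0 ^ 2 * ∫ x in Metric.ball (0 : E) M2, h n x ^ 2 ≤ B0 ^ 2 * P :=
        mul_le_mul_of_nonneg_left (b0 n) (by positivity)
      have h10 : 0 ≤ 2 * (∑ i, B1 i ^ 2) * P + 2 * B0 ^ 2 * Q := by positivity
      linarith)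
    (fun n i => by
      rw [pd_mul hη1 (hh n).1 i]
      have h4 : ∫ x, (pd i η x * h n x + η x * pd i (h n) x) ^ 2 =
          ∫ x in Metric.ball (0 : E) M2, (pd i η x * h n x + η x * pd i (h n) x) ^ 2 := by
        rw [setIntegral_eq_integral_of_forall_compl_eq_zero]
        intro x hx
        rw [(hzero x hx).1, (hzero x hx).2 i]
        ring
      rw [h4]
      have h5 : ∫ x in Metric.ball (0 : E) M2, (pd i η x * h n x + η x * pd i (h n) x) ^ 2 ≤
          ∫ x in Metric.ball (0 : E) M2,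
            (2 * (∑ i, B1 i ^ 2) * h n x ^ 2 + 2 * B0 ^ 2 * pd i (h n) x ^ 2) := by
        apply integral_mono_of_nonneg (Eventually.of_forall fun _ => sq_nonneg _)
          (((i0 n).const_mul _).add ((i1 n i).const_mul _))
        refine Eventually.of_forall fun x => ?_
        simp only [Pi.add_apply]
        have h6 : (pd i η x) ^ 2 ≤ ∑ i, B1 i ^ 2 := by
          have h7 : (pd i η x) ^ 2 ≤ B1 i ^ 2 := by
            rw [← sq_abs]
            exact pow_le_pow_left₀ (abs_nonneg _) (hB1 i x) 2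
          exact h7.trans (Finset.single_le_sum (f := fun i => B1 i ^ 2)
            (fun i _ => sq_nonneg _) (Finset.mem_univ i))
        have h7 : η x ^ 2 ≤ B0 ^ 2 := by
          rw [← sq_abs]
          exact pow_le_pow_left₀ (abs_nonneg _) (hB0 x) 2
        have h8 : (pd i η x) ^ 2 * h n x ^ 2 ≤ (∑ i, B1 i ^ 2) * h n x ^ 2 :=
          mul_le_mul_of_nonneg_right h6 (sq_nonneg _)
        have h9 : η x ^ 2 * pd i (h n) x ^ 2 ≤ B0 ^ 2 * pd i (h n) x ^ 2 :=
          mul_le_mul_of_nonneg_right h7 (sq_nonneg _)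
        nlinarith [sq_nonneg (pd i η x * h n x - η x * pd i (h n) x)]
      refine h5.trans ?_
      rw [integral_add ((i0 n).const_mul _) ((i1 n i).const_mul _), integral_const_mul,
        integral_const_mul]
      have h9 : 2 * (∑ i, B1 i ^ 2) * ∫ x in Metric.ball (0 : E) M2, h n x ^ 2 ≤
          2 * (∑ i, B1 i ^ 2) * P := mul_le_mul_of_nonneg_left (b0 n) (by positivity)
      have h10 : 2 * B0 ^ 2 * ∫ x in Metric.ball (0 : E) M2, pd i (h n) x ^ 2 ≤
          2 * B0 ^ 2 * Q := mul_le_mul_of_nonneg_left (b1 n i) (by positivity)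
      have h11 : 0 ≤ volume.real (Metric.ball (0 : E) M2) := measureReal_nonneg
      have h12 : 0 ≤ B0 ^ 2 * P := by positivity
      linarith)
  have h4 : ∀ n, eLpNorm ((Metric.ball (0 : E) M).indicator (h n)) 2 volume ≤
      ENNReal.ofReal (Real.sqrt (∫ x, (η x * h n x) ^ 2)) := by
    intro n
    have h5 : MemLp (fun x => η x * h n x) 2 volume :=
      cs_memLp (hgt n).1.continuous (hgt n).2 2
    rw [sqI h5, Real.sqrt_sq ENNReal.toReal_nonneg, ENNReal.ofReal_toReal h5.eLpNorm_ne_top]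
    apply eLpNorm_mono
    intro x
    by_cases hx : x ∈ Metric.ball (0 : E) M
    · rw [indicator_of_mem hx]
      have h6 : ‖x‖ < M := by simpa using hx
      rw [hη3 x (by linarith), one_mul]
    · rw [indicator_of_notMem hx, norm_zero]
      exact norm_nonneg _
  refine tendsto_of_tendsto_of_tendsto_of_le_of_le tendsto_const_nhds ?_ (fun n => zero_le) h4
  have h5 := (ENNReal.continuous_ofReal.tendsto _).comp ((Real.continuous_sqrt.tendsto 0).comp key)
  rw [Real.sqrt_zero, ENNReal.ofReal_zero] at h5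
  exact h5

/-! ### the states -/

lemma enorm_T {A : ℝ} {k : K} (h : ‖k‖ ≤ A) : ‖k‖ₑ ≤ ENNReal.ofReal A := by
  rw [← ofReal_norm]
  exact ENNReal.ofReal_le_ofReal h

end Pool.Agent.QWE.G4x

namespace Pool.Agent.QWE

open NFbx G4x in
theorem thm_G4 (hW : St_WkS) (hFld : St_Fld) (hLin : St_Lin) (hD : St_Dens) (hU : St_UTest) :
    St_G4 := by
  intro k M hk
  obtain ⟨A, hA⟩ := hW.2.1 k 0 hk
  obtain ⟨C, hC, hF⟩ := hFld
  have hA0 : 0 ≤ A := (norm_nonneg _).trans (hA 0)
  choose f g hf hg hfg using fun n : ℕ => hD.2 (k n) (1 / ((n : ℝ) + 1)) (by positivity)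
  have hone : ∀ n : ℕ, 1 / ((n : ℝ) + 1) ≤ 1 := by
    intro n
    rw [div_le_one (by positivity)]
    have : (0 : ℝ) ≤ n := Nat.cast_nonneg n
    linarith
  have hT : ∀ n, ‖Theta (f n) (g n)‖ ≤ A + 1 := by
    intro n
    have h1 : Theta (f n) (g n) = k n - (k n - Theta (f n) (g n)) := by abel
    rw [h1]
    refine (norm_sub_le _ _).trans ?_
    have := hfg n
    have := hA n
    have := hone n
    linarith
  have hlim : Tendsto (fun n : ℕ => 1 / ((n : ℝ) + 1)) atTop (𝓝 0) :=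
    tendsto_one_div_add_atTop_nhds_zero_nat
  have hTw : ∀ w : K, Tendsto (fun n => inner ℝ (Theta (f n) (g n)) w) atTop (𝓝 0) := by
    intro w
    have h1 : Tendsto (fun n => inner ℝ (k n) w - inner ℝ (k n - Theta (f n) (g n)) w) atTop
        (𝓝 (inner ℝ (0 : K) w - 0)) := by
      apply (hk w).sub
      apply squeeze_zero_norm (a := fun n : ℕ => 1 / ((n : ℝ) + 1) * ‖w‖)
      · intro n
        exact (norm_inner_le_norm _ _).trans
          (mul_le_mul_of_nonneg_right (hfg n).le (norm_nonneg _))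
      · have := hlim.mul_const ‖w‖
        rwa [zero_mul] at this
    rw [inner_zero_left, sub_zero] at h1
    refine h1.congr fun n => ?_
    rw [← inner_sub_left]
    congr 1
    abel
  have ae1 : ∀ n, U (Theta (f n) (g n)) =ᵐ[volume] f n := fun n =>
    (hLin.2.1 (f n) (g n) (hf n) (hg n)).1
  have ae2 : ∀ n i, DU (Theta (f n) (g n)) i =ᵐ[volume] pd i (f n) := fun n =>
    (hLin.2.1 (f n) (g n) (hf n) (hg n)).2.2.1
  have ae3 : ∀ n i j, DDU (Theta (f n) (g n)) i j =ᵐ[volume] pd j (pd i (f n)) := fun n =>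
    (hLin.2.1 (f n) (g n) (hf n) (hg n)).2.2.2.1
  obtain ⟨B, hB⟩ : ∃ B : ℝ≥0∞, B = ENNReal.ofReal C * ENNReal.ofReal (A + 1) := ⟨_, rfl⟩
  have hBt : B ≠ ⊤ := by
    rw [hB]
    exact ENNReal.mul_ne_top ENNReal.ofReal_ne_top ENNReal.ofReal_ne_top
  have hTB : ∀ n, ENNReal.ofReal C * ‖Theta (f n) (g n)‖ₑ ≤ B := by
    intro n
    rw [hB]
    exact mul_le_mul_right (enorm_T (hT n)) _
  have n1 : ∀ n, eLpNorm (f n) 10 volume ≤ B := by
    intro n
    rw [← eLpNorm_congr_ae (ae1 n)]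
    exact (hF (Theta (f n) (g n))).1.2.trans (hTB n)
  have n2 : ∀ n i, eLpNorm (pd i (f n)) (10 / 3) volume ≤ B := by
    intro n i
    rw [← eLpNorm_congr_ae (ae2 n i)]
    exact ((hF (Theta (f n) (g n))).2.2.1 i).2.2.trans (hTB n)
  have n3 : ∀ n i j, eLpNorm (pd j (pd i (f n))) 2 volume ≤ B := by
    intro n i j
    rw [← eLpNorm_congr_ae (ae3 n i j)]
    exact ((hF (Theta (f n) (g n))).2.2.2.1 i j).2.2.trans (hTB n)
  have w1 : ∀ ψ : E → ℝ, IsTest ψ → Tendsto (fun n => ∫ x, f n x * ψ x) atTop (𝓝 0) := by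
    intro ψ hψ
    refine (hTw (Rk ψ)).congr fun n => ?_
    exact theta_Rk hU hLin (hf n) (hg n) hψ
  have w2 : ∀ i, ∀ ψ : E → ℝ, IsTest ψ →
      Tendsto (fun n => ∫ x, pd i (f n) x * ψ x) atTop (𝓝 0) := by
    intro i ψ hψ
    have h1 := (hTw (Rk (pd i ψ))).neg
    rw [neg_zero] at h1
    refine h1.congr fun n => ?_
    rw [← hU.2.2 (Theta (f n) (g n)) (pd i ψ) (test_sch (test_pd hψ i))]
    have h2 := ((hF (Theta (f n) (g n))).2.2.1 i).2.1 ψ hψ
    rw [h2, neg_neg]
    apply integral_congr_ae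
    filter_upwards [ae2 n i] with x hx
    rw [hx]
  have p103 : (2 : ℝ≥0∞) ≤ 10 / 3 := by
    rw [ENNReal.le_div_iff_mul_le (by norm_num) (by norm_num)]
    norm_num
  have c1 := local_compact hf (p := 10) (q := 10 / 3) (by norm_num) p103 hBt M w1 n1 n2
  have c2 : ∀ i, Tendsto (fun n => eLpNorm ((Metric.ball (0 : E) M).indicator (pd i (f n))) 2
      volume) atTop (𝓝 0) := fun i =>
    local_compact (fun n => test_pd (hf n) i) (p := 10 / 3) (q := 2) p103 le_rfl hBt M (w2 i)
      (fun n => n2 n i) (fun n j => n3 n i j)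
  obtain ⟨a, ha, ha'⟩ := hol M (p := 10) (by norm_num)
  obtain ⟨b, hb, hb'⟩ := hol M p103
  have hk' : ∀ n, Theta (f n) (g n) + (1 : ℝ) • (k n - Theta (f n) (g n)) = k n := by
    intro n
    rw [one_smul]
    abel
  have hsm : ∀ c : ℝ≥0∞, c ≠ ⊤ → Tendsto (fun n : ℕ => c * (ENNReal.ofReal C *
      ENNReal.ofReal (1 / ((n : ℝ) + 1)))) atTop (𝓝 0) := by
    intro c hc
    have h1 := (ENNReal.continuous_ofReal.tendsto 0).comp hlim
    rw [ENNReal.ofReal_zero] at h1
    have h2 := ENNReal.Tendsto.const_mul (a := ENNReal.ofReal C) h1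
      (Or.inr ENNReal.ofReal_ne_top)
    have h3 := ENNReal.Tendsto.const_mul (a := c) h2 (Or.inr hc)
    rw [mul_zero, mul_zero] at h3
    exact h3
  have hen : ∀ n, ‖k n - Theta (f n) (g n)‖ₑ ≤ ENNReal.ofReal (1 / ((n : ℝ) + 1)) := fun n =>
    enorm_T (hfg n).le
  refine ⟨?_, fun i => ?_⟩
  · have h4 : ∀ n, eLpNorm ((Metric.ball (0 : E) M).indicator (U (k n))) 2 volume ≤
        eLpNorm ((Metric.ball (0 : E) M).indicator (f n)) 2 volume +
          a * (ENNReal.ofReal C * ENNReal.ofReal (1 / ((n : ℝ) + 1))) := by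
      intro n
      have h5 := (hLin.1 1 (Theta (f n) (g n)) (k n - Theta (f n) (g n))).1
      rw [hk' n] at h5
      have h6 : (Metric.ball (0 : E) M).indicator (U (k n)) =ᵐ[volume]
          (Metric.ball (0 : E) M).indicator (f n) +
          (Metric.ball (0 : E) M).indicator (U (k n - Theta (f n) (g n))) := by
        filter_upwards [h5, ae1 n] with x hx1 hx2
        rw [Pi.add_apply]
        by_cases hx : x ∈ Metric.ball (0 : E) M
        · simp only [indicator_of_mem hx]
          rw [hx1, hx2, one_mul]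
        · simp only [indicator_of_notMem hx, add_zero]
      have m1 : AEStronglyMeasurable (U (k n - Theta (f n) (g n))) volume :=
        (hF (k n - Theta (f n) (g n))).1.1.1
      rw [eLpNorm_congr_ae h6]
      refine (eLpNorm_add_le ((hf n).1.continuous.aestronglyMeasurable.indicator
        measurableSet_ball) (m1.indicator measurableSet_ball) (by norm_num)).trans ?_
      apply add_le_add le_rfl
      refine (ha' _ m1).trans (mul_le_mul_right ?_ _)
      exact (hF (k n - Theta (f n) (g n))).1.2.trans (mul_le_mul_right (hen n) _)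
    have h7 := c1.add (hsm a ha)
    rw [add_zero] at h7
    exact tendsto_of_tendsto_of_tendsto_of_le_of_le tendsto_const_nhds h7
      (fun n => zero_le) h4
  · have h4 : ∀ n, eLpNorm ((Metric.ball (0 : E) M).indicator (DU (k n) i)) 2 volume ≤
        eLpNorm ((Metric.ball (0 : E) M).indicator (pd i (f n))) 2 volume +
          b * (ENNReal.ofReal C * ENNReal.ofReal (1 / ((n : ℝ) + 1))) := by
      intro n
      have h5 := (hLin.1 1 (Theta (f n) (g n)) (k n - Theta (f n) (g n))).2.2.1 i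
      rw [hk' n] at h5
      have h6 : (Metric.ball (0 : E) M).indicator (DU (k n) i) =ᵐ[volume]
          (Metric.ball (0 : E) M).indicator (pd i (f n)) +
          (Metric.ball (0 : E) M).indicator (DU (k n - Theta (f n) (g n)) i) := by
        filter_upwards [h5, ae2 n i] with x hx1 hx2
        rw [Pi.add_apply]
        by_cases hx : x ∈ Metric.ball (0 : E) M
        · simp only [indicator_of_mem hx]
          rw [hx1, hx2, one_mul]
        · simp only [indicator_of_notMem hx, add_zero]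
      have m1 : AEStronglyMeasurable (DU (k n - Theta (f n) (g n)) i) volume :=
        ((hF (k n - Theta (f n) (g n))).2.2.1 i).1.1
      rw [eLpNorm_congr_ae h6]
      refine (eLpNorm_add_le ((test_pd (hf n) i).1.continuous.aestronglyMeasurable.indicator
        measurableSet_ball) (m1.indicator measurableSet_ball) (by norm_num)).trans ?_
      apply add_le_add le_rfl
      refine (hb' _ m1).trans (mul_le_mul_right ?_ _)
      exact ((hF (k n - Theta (f n) (g n))).2.2.1 i).2.2.trans (mul_le_mul_right (hen n) _)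
    have h7 := (c2 i).add (hsm b hb)
    rw [add_zero] at h7
    exact tendsto_of_tendsto_of_tendsto_of_le_of_le tendsto_const_nhds h7
      (fun n => zero_le) h4

end Pool.Agent.QWE
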