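import Pool.Agent.QWE.StG
import Pool.Agent.QWE.Loc

set_option autoImplicit false

/-!
# QWE, G5: weak nullity for bounded times (Lean: helper15)
-/

open MeasureTheory Filter Topology Set
open scoped ENNReal NNReal RealInnerProductSpace

namespace Pool.Agent.QWE

namespace G5x

open Locx

theorem mu_sep : MeasureTheory.IsSeparable mu := by
  have : MeasurableSpace.CountablyGenerated (S × ℝ) := inferInstance
  have : SFinite mu := inferInstance
  infer_instance

/-- `K` is separable -/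
theorem K_sc : SecondCountableTopology K := by
  have h1 : Fact ((2 : ℝ≥0∞) ≠ ∞) := ⟨by norm_num⟩
  have h2 := mu_sep
  exact Lp.SecondCountableTopology

/-- weakly continuous curves are strongly measurable -/
theorem pettis {J : Set ℝ} (hJ : MeasurableSet J) (k : ℝ → K)
    (h : ∀ w : K, ContinuousOn (fun t => inner ℝ (k t) w) J) :
    AEStronglyMeasurable k (volume.restrict J) := by
  have hsc := K_sc
  obtain ⟨u, hu⟩ := TopologicalSpace.exists_dense_seq K
  obtain ⟨V, hV⟩ : ∃ V : ℕ → Submodule ℝ K, ∀ n, V n = Submodule.span ℝ (u '' {i | i < n}) :=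
    ⟨_, fun n => rfl⟩
  have hfd : ∀ n, FiniteDimensional ℝ (V n) := by
    intro n
    rw [hV n]
    exact FiniteDimensional.span_of_finite ℝ ((finite_lt_nat n).image u)
  have hmono : Monotone V := by
    intro m n hmn
    rw [hV m, hV n]
    exact Submodule.span_mono (image_mono fun i hi => lt_of_lt_of_le hi hmn)
  have htop : ⊤ ≤ (⨆ n, V n).topologicalClosure := by
    intro x _
    have h1 : Set.range u ⊆ ((⨆ n, V n : Submodule ℝ K) : Set K) := by
      rintro _ ⟨i, rfl⟩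
      have h2 : u i ∈ V (i + 1) := by
        rw [hV]
        exact Submodule.subset_span ⟨i, Nat.lt_succ_self i, rfl⟩
      exact (le_iSup V (i + 1)) h2
    have h2 : x ∈ closure (Set.range u) := by
      rw [hu.closure_range]
      exact mem_univ x
    exact closure_mono h1 h2
  have hmeas : ∀ n, AEStronglyMeasurable (fun t => (V n).starProjection (k t))
      (volume.restrict J) := by
    intro n
    have hc : ContinuousOn (fun t => (V n).starProjection (k t)) J := by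
      have e : ∀ x : K, (V n).starProjection x =
          ∑ i, (inner ℝ ((stdOrthonormalBasis ℝ (V n) i : V n) : K) x) •
            ((stdOrthonormalBasis ℝ (V n) i : V n) : K) := by
        intro x
        have h1 := (stdOrthonormalBasis ℝ (V n)).orthogonalProjectionOnto_apply_eq_sum x
        have h2 : (V n).starProjection x = ((V n).orthogonalProjectionOnto x : K) := rfl
        rw [h2, h1, Submodule.coe_sum]
        rfl
      simp only [e]
      refine continuousOn_finsetSum _ fun i _ => ?_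
      have h3 : ContinuousOn
          (fun t => (inner ℝ ((stdOrthonormalBasis ℝ (V n) i : V n) : K) (k t) : ℝ)) J :=
        (h ((stdOrthonormalBasis ℝ (V n) i : V n) : K)).congr fun t _ => real_inner_comm _ _
      exact h3.smul continuousOn_const
    exact hc.aestronglyMeasurable hJ
  refine aestronglyMeasurable_of_tendsto_ae atTop hmeas (Eventually.of_forall fun t => ?_)
  exact Submodule.starProjection_tendsto_self V hmono (k t) htop

/-- the nonlinearity along a measurable curve is integrable -/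
theorem nl_int {C : ℝ}
    (hC : ∀ k : K, ‖NL k‖ₑ ≤ ENNReal.ofReal C * sn k ^ 4 * ‖k‖ₑ) (hM : St_Meas)
    {a b : ℝ} {k : ℝ → K} (hm : AEStronglyMeasurable k (volume.restrict (Icc a b))) {B : ℝ}
    (hS : SN (Icc a b) k < ⊤) (hn : ∀ t ∈ Icc a b, ‖k t‖ ≤ B) :
    IntegrableOn (fun r => NL (k r)) (Icc a b) volume := by
  have hf := sn_fin hM measurableSet_Icc hm hS
  have hNm := (hM k (Icc a b) measurableSet_Icc hm).2 hf
  refine ⟨hNm, ?_⟩
  show ∫⁻ r in Icc a b, ‖NL (k r)‖ₑ < ⊤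
  calc ∫⁻ r in Icc a b, ‖NL (k r)‖ₑ
      ≤ ∫⁻ r in Icc a b, (ENNReal.ofReal C * ENNReal.ofReal B) * sn (k r) ^ 4 := by
        refine setLIntegral_mono_ae' measurableSet_Icc (Eventually.of_forall fun r hr => ?_)
        calc ‖NL (k r)‖ₑ ≤ ENNReal.ofReal C * sn (k r) ^ 4 * ‖k r‖ₑ := hC _
          _ ≤ ENNReal.ofReal C * sn (k r) ^ 4 * ENNReal.ofReal B := by
              gcongr
              rw [← ofReal_norm]
              exact ENNReal.ofReal_le_ofReal (hn r hr)
          _ = (ENNReal.ofReal C * ENNReal.ofReal B) * sn (k r) ^ 4 := by ring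
    _ = (ENNReal.ofReal C * ENNReal.ofReal B) * SN (Icc a b) k := by
        rw [lintegral_const_mul'' _ ((sn_meas hM measurableSet_Icc hm).pow_const 4)]
        rfl
    _ < ⊤ := ENNReal.mul_lt_top (ENNReal.mul_lt_top ENNReal.ofReal_lt_top
        ENNReal.ofReal_lt_top) hS

theorem inner_int {a b : ℝ} {F : ℝ → K} (hF : IntervalIntegrable F volume a b) (w : K) :
    inner ℝ (∫ r in a..b, F r) w = ∫ r in a..b, inner ℝ (F r) w := by
  have h := (innerSL ℝ w).intervalIntegral_comp_comm hF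
  have e2 : ∀ x : K, (innerSL ℝ w) x = inner ℝ x w := fun x => real_inner_comm x w
  simp only [e2] at h
  exact h.symm

/-- the Duhamel formula in weak form -/
theorem wduh (hG : St_Grp1) {t : ℝ} {γ : ℝ → K} (h : IsSol (Icc 0 t) γ)
    (hi : IntegrableOn (fun r => NL (γ r)) (Icc 0 t) volume) {s' s : ℝ} (hs' : s' ∈ Icc 0 t)
    (hs : s ∈ Icc 0 t) (w : K) :
    inner ℝ (γ s) w = inner ℝ (γ s') (tau (s' - s) w) -
      ∫ r in s'..s, inner ℝ (NL (γ r)) (tau (r - s) w) := by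
  have hadj := hG.2.2.2.2.2.1
  rw [h.2.2.2 s' hs' s hs, inner_sub_left, hadj, inner_int (ii_tau hG hi s hs' hs)]
  rw [neg_sub]
  congr 1
  refine intervalIntegral.integral_congr fun r _ => ?_
  show inner ℝ (tau (s - r) (NL (γ r))) w = inner ℝ (NL (γ r)) (tau (r - s) w)
  rw [hadj, neg_sub]

theorem dense_theta (hD : St_Dens) :
    Dense {w : K | ∃ f g : E → ℝ, IsTest f ∧ IsTest g ∧ w = Theta f g} := by
  intro k
  rw [Metric.mem_closure_iff]
  intro ε hε
  obtain ⟨f, g, hf, hg, h⟩ := hD.2 k ε hε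
  exact ⟨Theta f g, ⟨f, g, hf, hg, rfl⟩, by rw [dist_eq_norm]; exact h⟩

theorem sn_zero (hL : St_Lin) : sn (0 : K) = 0 := by
  have h := (hL.1 (-1) 0 0).1
  have h2 : (0 : K) + (-1 : ℝ) • (0 : K) = 0 := by simp
  rw [h2] at h
  have h3 : U (0 : K) =ᵐ[volume] (0 : E → ℝ) := by
    filter_upwards [h] with x hx
    show U (0 : K) x = 0
    linarith
  rw [sn, eLpNorm_congr_ae h3, eLpNorm_zero]

theorem zero_sol {C : ℝ} (hL : St_Lin)
    (hC : ∀ k : K, ‖NL k‖ₑ ≤ ENNReal.ofReal C * sn k ^ 4 * ‖k‖ₑ) (t : ℝ) :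
    IsSol (Icc 0 t) (fun _ => (0 : K)) := by
  have hN : NL (0 : K) = 0 := by
    have h := hC 0
    rw [enorm_zero, mul_zero, nonpos_iff_eq_zero, enorm_eq_zero] at h
    exact h
  refine ⟨ordConnected_Icc, continuousOn_const, fun a _ b _ => ?_, fun s _ r _ => ?_⟩
  · show ∫⁻ _ in Icc a b, sn (0 : K) ^ 4 < ⊤
    rw [sn_zero hL]
    simp
  · simp [hN]

theorem pair_bd {A t C : ℝ} (hC0 : 0 < C) {w : K}
    (hw : ∀ (s : ℝ) (k : K), |s| ≤ t → sn k < ⊤ → |inner ℝ (NL k) (tau s w)| ≤ C * ‖k‖ ^ 5)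
    {γ : ℝ → K} (hn : ∀ s ∈ Icc 0 t, ‖γ s‖ ≤ A)
    (hf : ∀ᵐ r ∂(volume.restrict (Icc 0 t)), sn (γ r) < ⊤) {s s' : ℝ} (hs : s ∈ Icc 0 t)
    (hs' : s' ∈ Icc 0 t) :
    ∀ᵐ r, r ∈ uIoc s' s → ‖(inner ℝ (NL (γ r)) (tau (r - s) w) : ℝ)‖ ≤ C * A ^ 5 := by
  have h1 := (ae_restrict_iff' measurableSet_Icc).1 hf
  filter_upwards [h1] with r hr hr2
  have hr3 : r ∈ Icc 0 t := ordConnected_Icc.uIcc_subset hs' hs (uIoc_subset_uIcc hr2)
  have h2 : |r - s| ≤ t := by
    rw [abs_le]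
    constructor <;> linarith [hr3.1, hr3.2, hs.1, hs.2]
  refine (hw (r - s) (γ r) h2 (hr hr3)).trans ?_
  refine mul_le_mul_of_nonneg_left ?_ hC0.le
  exact pow_le_pow_left₀ (norm_nonneg _) (hn r hr3) 5

theorem equi (hG : St_Grp1) {A t C : ℝ} (hC0 : 0 < C) {w : K}
    (hw : ∀ (s : ℝ) (k : K), |s| ≤ t → sn k < ⊤ → |inner ℝ (NL k) (tau s w)| ≤ C * ‖k‖ ^ 5)
    {γ : ℝ → K} (h : IsSol (Icc 0 t) γ) (hn : ∀ s ∈ Icc 0 t, ‖γ s‖ ≤ A)
    (hi : IntegrableOn (fun r => NL (γ r)) (Icc 0 t) volume)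
    (hf : ∀ᵐ r ∂(volume.restrict (Icc 0 t)), sn (γ r) < ⊤) {s s' : ℝ} (hs : s ∈ Icc 0 t)
    (hs' : s' ∈ Icc 0 t) :
    |(inner ℝ (γ s) w - inner ℝ (γ s') w : ℝ)| ≤
      A * ‖tau (s' - s) w - w‖ + C * A ^ 5 * |s - s'| := by
  rw [wduh hG h hi hs' hs w]
  have e : (inner ℝ (γ s') (tau (s' - s) w) - (∫ r in s'..s, inner ℝ (NL (γ r)) (tau (r - s) w)) -
      inner ℝ (γ s') w : ℝ) = inner ℝ (γ s') (tau (s' - s) w - w) -
        ∫ r in s'..s, inner ℝ (NL (γ r)) (tau (r - s) w) := by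
    rw [inner_sub_right]
    ring
  rw [e, ← Real.norm_eq_abs]
  refine (norm_sub_le _ _).trans (add_le_add ?_ ?_)
  · refine (norm_inner_le_norm _ _).trans ?_
    exact mul_le_mul_of_nonneg_right (hn s' hs') (norm_nonneg _)
  · exact intervalIntegral.norm_integral_le_of_norm_le_const_ae
      (pair_bd hC0 hw hn hf hs hs')

/-- lower semicontinuity of the Strichartz norm under weak convergence at every time -/
theorem sn_lim (hNc : St_NLc) (hM : St_Meas) {t : ℝ} {γ : ℕ → ℝ → K} {k : ℝ → K} {m : ℝ≥0∞}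
    (hm : ∀ n, AEStronglyMeasurable (γ n) (volume.restrict (Icc 0 t)))
    (hS : ∀ n, SN (Icc 0 t) (γ n) ≤ m) (hk : ∀ s ∈ Icc 0 t, WTo (fun n => γ n s) (k s)) :
    SN (Icc 0 t) k ≤ m := by
  have hp : ∀ x : ℕ → ℝ≥0∞, (liminf x atTop) ^ 4 = liminf (fun n => x n ^ 4) atTop := by
    intro x
    exact Monotone.map_liminf_of_continuousAt (f := fun y : ℝ≥0∞ => y ^ 4)
      (fun a b hab => pow_le_pow_left' hab 4) x (ENNReal.continuous_pow 4).continuousAt
  calc SN (Icc 0 t) k = ∫⁻ r in Icc 0 t, sn (k r) ^ 4 := rfl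
    _ ≤ ∫⁻ r in Icc 0 t, liminf (fun n => sn (γ n r) ^ 4) atTop := by
        refine setLIntegral_mono_ae' measurableSet_Icc (Eventually.of_forall fun r hr => ?_)
        rw [← hp]
        exact pow_le_pow_left' (hNc.1 _ _ (hk r hr)) 4
    _ ≤ liminf (fun n => ∫⁻ r in Icc 0 t, sn (γ n r) ^ 4) atTop :=
        lintegral_liminf_le' fun n => (sn_meas hM measurableSet_Icc (hm n)).pow_const 4
    _ ≤ m := by
        refine liminf_le_of_le (by isBoundedDefault) fun c hc => ?_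
        obtain ⟨j, hj⟩ := hc.exists
        exact hj.trans (hS j)

theorem pair_meas (hG : St_Grp1) {t : ℝ} {γ : ℝ → K} (s : ℝ) (w : K)
    (hi : IntegrableOn (fun r => NL (γ r)) (Icc 0 t) volume) :
    AEStronglyMeasurable (fun r => (inner ℝ (NL (γ r)) (tau (r - s) w) : ℝ))
      (volume.restrict (Icc 0 t)) := by
  have hc := hG.2.2.2.2.2.2.2.1 w
  have h1 : Continuous fun r : ℝ => tau (r - s) w := hc.comp (continuous_id.sub continuous_const)
  exact hi.1.inner h1.aestronglyMeasurable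

/-- a curve that satisfies the Duhamel formula with base point `0` and zero data is a solution -/
theorem sol_of (hG : St_Grp1) (hDu : St_DuhI) {t : ℝ} (ht : 0 ≤ t) {k : ℝ → K}
    (hi : IntegrableOn (fun r => NL (k r)) (Icc 0 t) volume) (hS : SN (Icc 0 t) k < ⊤)
    (hk : ∀ s ∈ Icc 0 t, k s = - ∫ r in (0 : ℝ)..s, tau (s - r) (NL (k r))) :
    IsSol (Icc 0 t) k := by
  obtain ⟨g1, -⟩ := id hG
  obtain ⟨C', -, hD'⟩ := hDu
  have h0 : (0 : ℝ) ∈ Icc 0 t := ⟨le_refl _, ht⟩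
  refine ⟨ordConnected_Icc, ?_, ?_, ?_⟩
  · refine ((hD' 0 t 0 _ le_rfl ht hi).1.neg).congr fun s hs => ?_
    exact hk s hs
  · intro a' ha' b' hb'
    refine lt_of_le_of_lt ?_ hS
    exact lintegral_mono_set (Icc_subset_Icc ha'.1 hb'.2)
  · intro s hs s2 hs2
    have i1 := ii_tau hG hi s h0 hs
    have i2 := ii_tau hG hi s2 h0 hs
    have i3 := ii_tau hG hi s2 hs hs2
    have e3 : tau (s2 - s) (∫ r in (0 : ℝ)..s, tau (s - r) (NL (k r))) =
        ∫ r in (0 : ℝ)..s, tau (s2 - r) (NL (k r)) := by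
      have h := (tau (s2 - s)).toContinuousLinearMap.intervalIntegral_comp_comm i1
      have h2 : (∫ r in (0 : ℝ)..s, (tau (s2 - s)).toContinuousLinearMap
          (tau (s - r) (NL (k r)))) = ∫ r in (0 : ℝ)..s, tau (s2 - r) (NL (k r)) := by
        refine intervalIntegral.integral_congr fun r _ => ?_
        show tau (s2 - s) (tau (s - r) (NL (k r))) = _
        rw [g1]
        congr 2
        ring
      rw [h2] at h
      exact h.symm
    have e5 := intervalIntegral.integral_add_adjacent_intervals i2 i3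
    rw [hk s2 hs2, hk s hs, map_neg, e3, ← e5]
    abel

theorem core (hWS : St_WkS) (hWC : St_WkC) (hNc : St_NLc) (hNb : St_NLb) (hM : St_Meas)
    (hU : St_Uniq) (hDu : St_DuhI) (hF : St_Free) (hD : St_Dens) (hG : St_Grp1) (hL : St_Lin)
    {A M t : ℝ} (ht : 0 ≤ t) {γ : ℕ → ℝ → K} (hs : ∀ n, IsSol (Icc 0 t) (γ n))
    (hn : ∀ n, ∀ s ∈ Icc 0 t, ‖γ n s‖ ≤ A)
    (hS : ∀ n, SN (Icc 0 t) (γ n) ≤ ENNReal.ofReal M) (h0 : WTo (fun n => γ n 0) 0) :
    ∃ φ : ℕ → ℕ, StrictMono φ ∧ WTo (fun n => γ (φ n) t) 0 := by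
  obtain ⟨⟨C, hC0, hC1, hC2⟩, -⟩ := hNb
  have h0t : (0 : ℝ) ∈ Icc 0 t := ⟨le_refl _, ht⟩
  have htt : t ∈ Icc 0 t := ⟨ht, le_refl _⟩
  have hA : 0 ≤ A := (norm_nonneg _).trans (hn 0 0 h0t)
  have hm : ∀ n, AEStronglyMeasurable (γ n) (volume.restrict (Icc 0 t)) := fun n =>
    (hs n).2.1.aestronglyMeasurable measurableSet_Icc
  have hSt : ∀ n, SN (Icc 0 t) (γ n) < ⊤ := fun n => (hS n).trans_lt ENNReal.ofReal_lt_top
  have hi : ∀ n, IntegrableOn (fun r => NL (γ n r)) (Icc 0 t) volume := fun n =>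
    nl_int hC1 hM (hm n) (hSt n) (hn n)
  have hf : ∀ n, ∀ᵐ r ∂(volume.restrict (Icc 0 t)), sn (γ n r) < ⊤ := fun n =>
    sn_fin hM measurableSet_Icc (hm n) (hSt n)
  -- equicontinuity
  obtain ⟨φ, k, hφ, hk1, hk2⟩ := hWC A t γ
    {w : K | ∃ f g : E → ℝ, IsTest f ∧ IsTest g ∧ w = Theta f g} ht (dense_theta hD) hn (by
      rintro w ⟨f, g, hf1, hg1, rfl⟩ ε hε
      obtain ⟨C3, hC3, hw⟩ := hNc.2.2 f g t hf1 hg1
      obtain ⟨w, hww⟩ : ∃ w, w = Theta f g := ⟨_, rfl⟩
      rw [← hww] at hw ⊢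
      have hc := hG.2.2.2.2.2.2.2.1 w
      have hc0 : tau 0 w = w := hG.2.1 w
      have h1 : Tendsto (fun s => ‖tau s w - w‖) (𝓝 0) (𝓝 0) := by
        have h2 : Continuous fun s => ‖tau s w - w‖ := (hc.sub continuous_const).norm
        have h3 := h2.tendsto 0
        rw [hc0, sub_self, norm_zero] at h3
        exact h3
      have h4 : ∀ᶠ s in 𝓝 (0 : ℝ), ‖tau s w - w‖ < ε / (2 * (A + 1)) :=
        h1.eventually (gt_mem_nhds (by positivity))
      rw [Metric.eventually_nhds_iff] at h4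
      obtain ⟨δ1, hδ1, h5⟩ := h4
      refine ⟨min (δ1 / 2) (ε / (2 * (C3 * A ^ 5 + 1))), by positivity, ?_⟩
      intro n s hs1 s' hs2 hss
      refine (equi hG hC3 hw (hs n) (hn n) (hi n) (hf n) hs1 hs2).trans ?_
      have h6 : ‖tau (s' - s) w - w‖ < ε / (2 * (A + 1)) := by
        refine h5 ?_
        rw [dist_zero_right, Real.norm_eq_abs, abs_sub_comm]
        exact (hss.trans (min_le_left _ _)).trans_lt (by linarith)
      have h7 : |s - s'| ≤ ε / (2 * (C3 * A ^ 5 + 1)) := hss.trans (min_le_right _ _)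
      have h8 : A * ‖tau (s' - s) w - w‖ ≤ ε / 2 := by
        calc A * ‖tau (s' - s) w - w‖ ≤ (A + 1) * (ε / (2 * (A + 1))) := by
              refine mul_le_mul (by linarith) h6.le (norm_nonneg _) (by positivity)
          _ = ε / 2 := by field_simp
      have h9 : C3 * A ^ 5 * |s - s'| ≤ ε / 2 := by
        have h10 : 0 ≤ C3 * A ^ 5 := by positivity
        calc C3 * A ^ 5 * |s - s'| ≤ (C3 * A ^ 5 + 1) * (ε / (2 * (C3 * A ^ 5 + 1))) := by
              refine mul_le_mul (by linarith) h7 (abs_nonneg _) (by positivity)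
          _ = ε / 2 := by field_simp
      linarith)
  refine ⟨φ, hφ, ?_⟩
  -- properties of the limit
  have hkn : ∀ s ∈ Icc 0 t, ‖k s‖ ≤ A := fun s hs => (hk1 s hs).1
  have hkw : ∀ s ∈ Icc 0 t, WTo (fun n => γ (φ n) s) (k s) := fun s hs => (hk1 s hs).2
  have hkm : AEStronglyMeasurable k (volume.restrict (Icc 0 t)) := pettis measurableSet_Icc k hk2
  have hkS : SN (Icc 0 t) k ≤ ENNReal.ofReal M :=
    sn_lim hNc hM (fun n => hm (φ n)) (fun n => hS (φ n)) hkw
  have hkSt : SN (Icc 0 t) k < ⊤ := hkS.trans_lt ENNReal.ofReal_lt_top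
  have hki : IntegrableOn (fun r => NL (k r)) (Icc 0 t) volume := nl_int hC1 hM hkm hkSt hkn
  have hkf := sn_fin hM measurableSet_Icc hkm hkSt
  -- initial value
  have hk0 : k 0 = 0 := by
    have h1 := hWS.2.2.2.1 (fun n => γ n 0) 0 φ h0 hφ
    exact hWS.2.2.2.2.1 _ _ _ (hkw 0 h0t) h1
  -- limit in the Duhamel formula
  have hlim : ∀ s ∈ Icc 0 t, ∀ f g : E → ℝ, IsTest f → IsTest g →
      inner ℝ (k s) (Theta f g) =
        - ∫ r in (0 : ℝ)..s, inner ℝ (NL (k r)) (tau (r - s) (Theta f g)) := by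
    intro s hs1 f g hf1 hg1
    obtain ⟨C3, hC3, hw⟩ := hNc.2.2 f g t hf1 hg1
    have e1 : Tendsto (fun n => (inner ℝ (γ (φ n) s) (Theta f g) : ℝ)) atTop
        (𝓝 (inner ℝ (k s) (Theta f g))) := hkw s hs1 (Theta f g)
    have e2 : Tendsto (fun n => (inner ℝ (γ (φ n) 0) (tau (0 - s) (Theta f g)) : ℝ)) atTop
        (𝓝 0) := by
      have h1 := hkw 0 h0t (tau (0 - s) (Theta f g))
      rw [hk0, inner_zero_left] at h1
      exact h1
    have hsub : uIoc 0 s ⊆ Icc 0 t := fun r hr =>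
      ordConnected_Icc.uIcc_subset h0t hs1 (uIoc_subset_uIcc hr)
    have e3 : Tendsto (fun n => ∫ r in (0 : ℝ)..s,
        (inner ℝ (NL (γ (φ n) r)) (tau (r - s) (Theta f g)) : ℝ)) atTop
        (𝓝 (∫ r in (0 : ℝ)..s, inner ℝ (NL (k r)) (tau (r - s) (Theta f g)))) := by
      refine intervalIntegral.tendsto_integral_filter_of_dominated_convergence
        (fun _ => C3 * A ^ 5) ?_ ?_ intervalIntegrable_const ?_
      · exact Eventually.of_forall fun n =>
          (pair_meas hG s (Theta f g) (hi (φ n))).mono_measure (Measure.restrict_mono_set _ hsub)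
      · exact Eventually.of_forall fun n => pair_bd hC3 hw (hn (φ n)) (hf (φ n)) hs1 h0t
      · have h1 := (ae_restrict_iff' measurableSet_Icc).1 (ae_all_iff.2 fun n => hf (φ n))
        have h2 := (ae_restrict_iff' measurableSet_Icc).1 hkf
        filter_upwards [h1, h2] with r hr1 hr2 hr3
        have hr := hsub hr3
        obtain ⟨⟨f', g', hf', hg', he, -⟩, -⟩ := hF f g (r - s) hf1 hg1
        rw [he]
        exact hNc.2.1 _ _ f' g' hf' hg' (hkw r hr) (hr1 hr) (hr2 hr)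
    have e4 := e2.sub e3
    have e5 : (fun n => (inner ℝ (γ (φ n) 0) (tau (0 - s) (Theta f g)) : ℝ) -
        ∫ r in (0 : ℝ)..s, (inner ℝ (NL (γ (φ n) r)) (tau (r - s) (Theta f g)) : ℝ)) =
        fun n => inner ℝ (γ (φ n) s) (Theta f g) :=
      funext fun n => (wduh hG (hs (φ n)) (hi (φ n)) h0t hs1 (Theta f g)).symm
    rw [e5, zero_sub] at e4
    exact tendsto_nhds_unique e1 e4
  have hadj := hG.2.2.2.2.2.1
  have hkd : ∀ s ∈ Icc 0 t, k s = - ∫ r in (0 : ℝ)..s, tau (s - r) (NL (k r)) := by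
    intro s hs1
    refine ext_inner_right ℝ fun v => ?_
    have h1 : Continuous fun v : K => (inner ℝ (k s) v : ℝ) := continuous_const.inner continuous_id
    have h2 : Continuous fun v : K =>
        (inner ℝ (- ∫ r in (0 : ℝ)..s, tau (s - r) (NL (k r))) v : ℝ) :=
      continuous_const.inner continuous_id
    refine congrFun (Continuous.ext_on (dense_theta hD) h1 h2 ?_) v
    rintro w ⟨f, g, hf1, hg1, rfl⟩
    show (inner ℝ (k s) (Theta f g) : ℝ) = inner ℝ (- ∫ r in (0 : ℝ)..s, tau (s - r) (NL (k r)))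
      (Theta f g)
    rw [hlim s hs1 f g hf1 hg1, inner_neg_left, inner_int (ii_tau hG hki s h0t hs1)]
    congr 1
    refine intervalIntegral.integral_congr fun r _ => ?_
    show inner ℝ (NL (k r)) (tau (r - s) (Theta f g)) = inner ℝ (tau (s - r) (NL (k r))) (Theta f g)
    rw [hadj, neg_sub]
  have hsol := sol_of hG hDu ht hki hkSt hkd
  have hz := hU (Icc 0 t) (Icc 0 t) k (fun _ => 0) 0 hsol (zero_sol hL hC1 t) h0t h0t hk0 t htt htt
  have h1 := hkw t htt
  rw [hz] at h1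
  exact h1

end G5x

open G5x

/-- **G5** -/
theorem thm_G5 (hWS : St_WkS) (hWC : St_WkC) (hNc : St_NLc) (hNb : St_NLb) (hM : St_Meas)
    (hU : St_Uniq) (hDu : St_DuhI) (hF : St_Free) (hD : St_Dens) (hG : St_Grp1) (hL : St_Lin) :
    St_G5 := by
  intro A M T β hβ t ht
  by_contra hcon
  obtain ⟨w, ε, φ, hε, hφ, hb⟩ := hWS.2.2.2.2.2.2.2.2 _ _ hcon
  have hT : ∀ n, t ≤ T (φ n) := by
    intro n
    by_contra hc
    have h1 := hb n
    simp only [if_neg hc, sub_self, abs_zero] at h1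
    linarith
  have hsub : ∀ n, Icc 0 t ⊆ Icc 0 (T (φ n)) := fun n => Icc_subset_Icc le_rfl (hT n)
  obtain ⟨ψ, hψ, h2⟩ := core hWS hWC hNc hNb hM hU hDu hF hD hG hL (A := A) (M := M) ht
    (γ := fun n => β (φ n))
    (fun n => by
      obtain ⟨-, ⟨-, h3, h4, h5⟩, -⟩ := hβ.1 (φ n)
      exact ⟨ordConnected_Icc, h3.mono (hsub n), fun a ha b hb => h4 a (hsub n ha) b (hsub n hb),
        fun a ha b hb => h5 a (hsub n ha) b (hsub n hb)⟩)
    (fun n s hs => (hβ.1 (φ n)).2.2.1 s (hsub n hs))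
    (fun n => (lintegral_mono_set (hsub n)).trans (hβ.1 (φ n)).2.2.2)
    (hWS.2.2.2.1 (fun n => β n 0) 0 φ hβ.2 hφ)
  have h3 := h2 w
  rw [inner_zero_left] at h3
  have h4 : ∀ᶠ n in atTop, |(inner ℝ (β (φ (ψ n)) t) w : ℝ)| < ε := by
    have h5 := h3.abs
    rw [abs_zero] at h5
    exact h5.eventually (gt_mem_nhds hε)
  obtain ⟨n, hn⟩ := h4.exists
  have h5 := hb (ψ n)
  simp only [if_pos (hT (ψ n)), inner_zero_left, sub_zero] at h5
  linarith

end Pool.Agent.QWE
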