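import Pool.Agent.QWE.StA
import Pool.Agent.QWE.StG

set_option autoImplicit false

/-!
# QWE: shell estimate (polar coordinates)
-/

open MeasureTheory Filter Topology Set
open scoped ENNReal NNReal RealInnerProductSpace

namespace Pool.Agent.QWE
namespace G6x

/-- polar coordinates -/
private lemma polar (h : E → ℝ≥0∞) (hm : Measurable h) :
    ∫⁻ w : S, ∫⁻ s in Ioi (0 : ℝ), ENNReal.ofReal (s ^ 4) * h (s • (w : E)) ∂volume ∂sg = ∫⁻ x, h x := by
  have hmp := (volume : Measure E).measurePreserving_homeomorphUnitSphereProd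
  have hdim : Module.finrank ℝ E - 1 = 4 := by simp [E]
  rw [hdim] at hmp
  have hval : ∀ x : ({0}ᶜ : Set E), (((homeomorphUnitSphereProd E x).2 : ℝ)) •
      ((homeomorphUnitSphereProd E x).1 : E) = (x : E) := by
    intro x
    exact congrArg (fun y : ({0}ᶜ : Set E) => (y : E))
      ((homeomorphUnitSphereProd E).symm_apply_apply x)
  have hg : Measurable fun z : S × Ioi (0 : ℝ) => h ((z.2 : ℝ) • (z.1 : E)) := by
    refine hm.comp ?_
    fun_prop
  have hin : ∀ w : S, ∫⁻ s : Ioi (0 : ℝ), h ((s : ℝ) • (w : E)) ∂(Measure.volumeIoiPow 4) =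
      ∫⁻ s in Ioi (0 : ℝ), ENNReal.ofReal (s ^ 4) * h (s • (w : E)) := by
    intro w
    have hf : Measurable fun s : Ioi (0 : ℝ) => ENNReal.ofReal ((s : ℝ) ^ 4) := by fun_prop
    have hh : Measurable fun s : Ioi (0 : ℝ) => h ((s : ℝ) • (w : E)) := by
      refine hm.comp ?_
      fun_prop
    rw [Measure.volumeIoiPow, lintegral_withDensity_eq_lintegral_mul _ hf hh,
      ← lintegral_subtype_comap measurableSet_Ioi fun s : ℝ => ENNReal.ofReal (s ^ 4) * h (s • (w : E))]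
    rfl
  calc ∫⁻ w : S, ∫⁻ s in Ioi (0 : ℝ), ENNReal.ofReal (s ^ 4) * h (s • (w : E)) ∂volume ∂sg
      = ∫⁻ w : S, ∫⁻ s : Ioi (0 : ℝ), h ((s : ℝ) • (w : E)) ∂(Measure.volumeIoiPow 4) ∂sg :=
        lintegral_congr fun w => (hin w).symm
    _ = ∫⁻ z : S × Ioi (0 : ℝ), h ((z.2 : ℝ) • (z.1 : E)) ∂(sg.prod (Measure.volumeIoiPow 4)) :=
        (lintegral_prod _ hg.aemeasurable).symm
    _ = ∫⁻ x : ({0}ᶜ : Set E), h x ∂((volume : Measure E).comap (↑)) := by
        rw [← hmp.lintegral_comp hg]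
        exact lintegral_congr fun x => by rw [hval]
    _ = ∫⁻ x, h x := by
        rw [lintegral_subtype_comap (measurableSet_singleton _).compl fun x => h x,
          restrict_compl_singleton]

private lemma dir (f : E → ℝ) (x : E) (w : S) :
    ‖fderiv ℝ f x (w : E)‖ₑ ≤ ∑ i, ‖pd i f x‖ₑ := by
  have h1 : (w : E) = ∑ i, (w : E) i • (EuclideanSpace.single i (1 : ℝ) : E) := by
    have := ((EuclideanSpace.basisFun (Fin 5) ℝ).sum_repr (w : E)).symm
    simpa using this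
  have h2 : fderiv ℝ f x (w : E) = ∑ i, (w : E) i * pd i f x := by
    conv_lhs => rw [h1]
    rw [map_sum]
    refine Finset.sum_congr rfl fun i _ => ?_
    rw [map_smul, smul_eq_mul, pd]
  rw [h2]
  refine (enorm_sum_le _ _).trans ?_
  refine Finset.sum_le_sum fun i _ => ?_
  rw [enorm_mul]
  have h3 : ‖(w : E) i‖ₑ ≤ 1 := by
    have h4 := PiLp.norm_apply_le (w : E) i
    have h5 : ‖(w : E)‖ = 1 := by simp
    rw [h5] at h4
    rw [← ofReal_norm]
    exact ENNReal.ofReal_le_one.2 h4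
  calc ‖(w : E) i‖ₑ * ‖pd i f x‖ₑ ≤ 1 * ‖pd i f x‖ₑ := by gcongr
    _ = ‖pd i f x‖ₑ := one_mul _

/-- the density on rays -/
private noncomputable def H (f : E → ℝ) (x : E) : ℝ≥0∞ := ‖f x‖ₑ ^ 7 * ∑ i, ‖pd i f x‖ₑ

private lemma pd_cont {f : E → ℝ} (hf : IsTest f) (i : Fin 5) : Continuous (pd i f) := by
  have h := hf.1.continuous_fderiv (by simp)
  unfold pd
  exact h.clm_apply continuous_const

private lemma H_meas {f : E → ℝ} (hf : IsTest f) : Measurable (H f) := by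
  have h1 : ∀ i, Measurable (pd i f) := fun i => (pd_cont hf i).measurable
  have h2 : Measurable f := hf.1.continuous.measurable
  unfold H
  refine (h2.enorm.pow_const _).mul ?_
  exact Finset.measurable_sum _ fun i _ => (h1 i).enorm

private lemma ray {f : E → ℝ} (hf : IsTest f) (w : S) {ρ : ℝ} (hρ : 0 < ρ) :
    ENNReal.ofReal (ρ ^ 4) * ‖f (ρ • (w : E))‖ₑ ^ 8 ≤
      8 * ∫⁻ s in Ioi (0 : ℝ), ENNReal.ofReal (s ^ 4) * H f (s • (w : E)) := by
  have hw : ‖(w : E)‖ = 1 := by simp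
  obtain ⟨R, hR⟩ := hf.2.isCompact.isBounded.exists_norm_le
  have hz : f ((max R ρ + 1) • (w : E)) = 0 := by
    by_contra hne
    have h1 := hR _ (subset_tsupport f (Function.mem_support.2 hne))
    rw [norm_smul, hw, mul_one, Real.norm_eq_abs, abs_of_pos (by linarith [le_max_right R ρ])] at h1
    linarith [le_max_left R ρ]
  set N := max R ρ + 1 with hN
  have hρN : ρ ≤ N := by rw [hN]; linarith [le_max_right R ρ]
  have hdf : Differentiable ℝ f := hf.1.differentiable (by simp)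
  have hD : ∀ s : ℝ, HasDerivAt (fun s : ℝ => f (s • (w : E)) ^ 8)
      (8 * f (s • (w : E)) ^ 7 * fderiv ℝ f (s • (w : E)) (w : E)) s := by
    intro s
    have h1 : HasDerivAt (fun s : ℝ => s • (w : E)) ((1 : ℝ) • (w : E)) s :=
      (hasDerivAt_id s).smul_const (w : E)
    have h2 : HasDerivAt (fun s : ℝ => f (s • (w : E)) ^ 8) _ s :=
      ((hdf (s • (w : E))).hasFDerivAt.comp_hasDerivAt s h1).pow 8
    exact h2.congr_deriv (by simp)
  have hcf : Continuous (fderiv ℝ f) := hf.1.continuous_fderiv (by simp)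
  have hfc : Continuous f := hf.1.continuous
  have hc : Continuous fun s : ℝ => 8 * f (s • (w : E)) ^ 7 * fderiv ℝ f (s • (w : E)) (w : E) := by
    have h1 : Continuous fun s : ℝ => fderiv ℝ f (s • (w : E)) := hcf.comp (by fun_prop)
    have h2 : Continuous fun s : ℝ => fderiv ℝ f (s • (w : E)) (w : E) :=
      h1.clm_apply continuous_const
    fun_prop
  have hI := intervalIntegral.integral_eq_sub_of_hasDerivAt (fun s _ => hD s)
    (hc.intervalIntegrable ρ N)
  rw [hz, intervalIntegral.integral_of_le hρN] at hI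
  have h1 : ‖f (ρ • (w : E))‖ₑ ^ 8 ≤
      ∫⁻ s in Ioc ρ N, ‖8 * f (s • (w : E)) ^ 7 * fderiv ℝ f (s • (w : E)) (w : E)‖ₑ := by
    have h2 := enorm_integral_le_lintegral_enorm (μ := volume.restrict (Ioc ρ N))
      (fun s : ℝ => 8 * f (s • (w : E)) ^ 7 * fderiv ℝ f (s • (w : E)) (w : E))
    rw [hI] at h2
    simpa [enorm_neg, enorm_pow] using h2
  calc ENNReal.ofReal (ρ ^ 4) * ‖f (ρ • (w : E))‖ₑ ^ 8
      ≤ ENNReal.ofReal (ρ ^ 4) *
        ∫⁻ s in Ioc ρ N, ‖8 * f (s • (w : E)) ^ 7 * fderiv ℝ f (s • (w : E)) (w : E)‖ₑ := by gcongr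
    _ = ∫⁻ s in Ioc ρ N, ENNReal.ofReal (ρ ^ 4) *
        ‖8 * f (s • (w : E)) ^ 7 * fderiv ℝ f (s • (w : E)) (w : E)‖ₑ := by
        rw [lintegral_const_mul _ hc.measurable.enorm]
    _ ≤ ∫⁻ s in Ioc ρ N, 8 * (ENNReal.ofReal (s ^ 4) * H f (s • (w : E))) := by
        refine setLIntegral_mono' measurableSet_Ioc fun s hs => ?_
        have h3 : ENNReal.ofReal (ρ ^ 4) ≤ ENNReal.ofReal (s ^ 4) :=
          ENNReal.ofReal_le_ofReal (pow_le_pow_left₀ hρ.le hs.1.le 4)
        have h4 := dir f (s • (w : E)) w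
        have h5 : ‖(8 : ℝ)‖ₑ = 8 := by
          rw [Real.enorm_eq_ofReal (by norm_num)]; norm_num
        rw [enorm_mul, enorm_mul, enorm_pow, h5, H]
        calc ENNReal.ofReal (ρ ^ 4) * (8 * ‖f (s • (w : E))‖ₑ ^ 7 *
              ‖fderiv ℝ f (s • (w : E)) (w : E)‖ₑ)
            ≤ ENNReal.ofReal (s ^ 4) * (8 * ‖f (s • (w : E))‖ₑ ^ 7 *
              ∑ i, ‖pd i f (s • (w : E))‖ₑ) := by gcongr
          _ = _ := by ring
    _ ≤ ∫⁻ s in Ioi (0 : ℝ), 8 * (ENNReal.ofReal (s ^ 4) * H f (s • (w : E))) :=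
        lintegral_mono_set fun s hs => hρ.trans hs.1
    _ = 8 * ∫⁻ s in Ioi (0 : ℝ), ENNReal.ofReal (s ^ 4) * H f (s • (w : E)) := by
        refine lintegral_const_mul _ ?_
        have h6 : Measurable fun s : ℝ => H f (s • (w : E)) := (H_meas hf).comp (by fun_prop)
        fun_prop

private lemma shell {f : E → ℝ} (hf : IsTest f) (r M : ℝ) :
    ∫⁻ x in {x : E | |‖x‖ - r| ≤ M}, ‖f x‖ₑ ^ 8 ≤ ENNReal.ofReal (16 * M) * ∫⁻ x, H f x := by
  have hms : MeasurableSet {x : E | |‖x‖ - r| ≤ M} :=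
    measurableSet_le (by fun_prop) measurable_const
  have hfm : Measurable f := hf.1.continuous.measurable
  rw [← lintegral_indicator hms]
  have hind : Measurable ({x : E | |‖x‖ - r| ≤ M}.indicator fun x => ‖f x‖ₑ ^ 8) :=
    Measurable.indicator (by fun_prop) hms
  rw [← polar _ hind]
  have h0 : ∀ w : S, ∫⁻ s in Ioi (0 : ℝ), ENNReal.ofReal (s ^ 4) *
      {x : E | |‖x‖ - r| ≤ M}.indicator (fun x => ‖f x‖ₑ ^ 8) (s • (w : E)) ≤
      ENNReal.ofReal (16 * M) *
        ∫⁻ s in Ioi (0 : ℝ), ENNReal.ofReal (s ^ 4) * H f (s • (w : E)) := by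
    intro w
    have hw : ‖(w : E)‖ = 1 := by simp
    set J := ∫⁻ s in Ioi (0 : ℝ), ENNReal.ofReal (s ^ 4) * H f (s • (w : E)) with hJ
    calc ∫⁻ s in Ioi (0 : ℝ), ENNReal.ofReal (s ^ 4) *
          {x : E | |‖x‖ - r| ≤ M}.indicator (fun x => ‖f x‖ₑ ^ 8) (s • (w : E))
        ≤ ∫⁻ s in Ioi (0 : ℝ), (Icc (r - M) (r + M)).indicator (fun _ => 8 * J) s := by
          refine setLIntegral_mono' measurableSet_Ioi fun s hs => ?_
          have hs0 : (0 : ℝ) < s := hs
          have hn : ‖s • (w : E)‖ = s := by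
            rw [norm_smul, hw, mul_one, Real.norm_eq_abs, abs_of_pos hs0]
          by_cases hsm : |s - r| ≤ M
          · have h1 : s • (w : E) ∈ {x : E | |‖x‖ - r| ≤ M} := by
              simp only [Set.mem_ofPred_eq, hn]; exact hsm
            have h2 : s ∈ Icc (r - M) (r + M) := by
              rw [abs_le] at hsm
              exact ⟨by linarith [hsm.1], by linarith [hsm.2]⟩
            rw [indicator_of_mem h1, indicator_of_mem h2]
            exact ray hf w hs0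
          · have h1 : s • (w : E) ∉ {x : E | |‖x‖ - r| ≤ M} := by
              simp only [Set.mem_ofPred_eq, hn]; exact hsm
            rw [indicator_of_notMem h1, mul_zero]
            exact bot_le
      _ ≤ ∫⁻ s : ℝ, (Icc (r - M) (r + M)).indicator (fun _ => 8 * J) s := setLIntegral_le_lintegral _ _
      _ = 8 * J * ENNReal.ofReal (2 * M) := by
          rw [lintegral_indicator measurableSet_Icc, lintegral_const, Measure.restrict_apply_univ,
            Real.volume_Icc]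
          congr 2; ring
      _ = ENNReal.ofReal (16 * M) * J := by
          have h3 : (16 : ℝ) * M = 8 * (2 * M) := by ring
          have h4 : ENNReal.ofReal 8 = 8 := by norm_num
          rw [h3, ENNReal.ofReal_mul (p := 8) (by norm_num), h4]
          ring
  refine (lintegral_mono h0).trans ?_
  rw [lintegral_const_mul', polar _ (H_meas hf)]
  exact ENNReal.ofReal_ne_top

private lemma holder {f : E → ℝ} (hf : IsTest f) :
    ∫⁻ x, H f x ≤ eLpNorm f 10 volume ^ 7 * ∑ i, eLpNorm (pd i f) (10 / 3) volume := by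
  have hfm : Measurable f := hf.1.continuous.measurable
  have hpm : ∀ i, Measurable (pd i f) := fun i => (pd_cont hf i).measurable
  have hi : ∀ i, ∫⁻ x, ‖f x‖ₑ ^ 7 * ‖pd i f x‖ₑ ≤
      eLpNorm f 10 volume ^ 7 * eLpNorm (pd i f) (10 / 3) volume := by
    intro i
    have hpq : (10 / 7 : ℝ).HolderConjugate (10 / 3) := by
      rw [Real.holderConjugate_iff]; norm_num
    have h := ENNReal.lintegral_mul_le_Lp_mul_Lq volume hpq
      (f := fun x => ‖f x‖ₑ ^ 7) (g := fun x => ‖pd i f x‖ₑ) (by fun_prop)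
      (hpm i).enorm.aemeasurable
    refine h.trans (le_of_eq ?_)
    have e1 : ((10 : ℝ≥0∞)).toReal = 10 := by norm_num
    have e2 : ((10 / 3 : ℝ≥0∞)).toReal = 10 / 3 := by norm_num
    have e3 : (10 / 3 : ℝ≥0∞) ≠ ⊤ := ENNReal.div_ne_top (by norm_num) (by norm_num)
    rw [eLpNorm_eq_lintegral_rpow_enorm_toReal (by norm_num) (by norm_num),
      eLpNorm_eq_lintegral_rpow_enorm_toReal (p := 10 / 3) (by norm_num) e3, e1, e2]
    have e4 : ∀ x, (‖f x‖ₑ ^ 7) ^ (10 / 7 : ℝ) = ‖f x‖ₑ ^ (10 : ℝ) := by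
      intro x
      rw [← ENNReal.rpow_natCast, ← ENNReal.rpow_mul]
      norm_num
    simp_rw [e4]
    congr 1
    rw [← ENNReal.rpow_natCast, ← ENNReal.rpow_mul]
    norm_num
  calc ∫⁻ x, H f x = ∫⁻ x, ∑ i, ‖f x‖ₑ ^ 7 * ‖pd i f x‖ₑ :=
        lintegral_congr fun x => by rw [H, Finset.mul_sum]
    _ = ∑ i, ∫⁻ x, ‖f x‖ₑ ^ 7 * ‖pd i f x‖ₑ := by
        refine lintegral_finsetSum _ fun i _ => ?_
        have := hpm i
        fun_prop
    _ ≤ ∑ i, eLpNorm f 10 volume ^ 7 * eLpNorm (pd i f) (10 / 3) volume :=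
        Finset.sum_le_sum fun i _ => hi i
    _ = _ := by rw [Finset.mul_sum]

end G6x

open G6x in
theorem thm_G6 (hDens : St_Dens) (hLin : St_Lin) (hFld : St_Fld) : St_G6 := by
  obtain ⟨C0, hC0, hF⟩ := hFld
  refine ⟨80 * C0 ^ 8, by positivity, ?_⟩
  intro k r M hM
  have ht : ∀ f g : E → ℝ, IsTest f → IsTest g →
      ∫⁻ x in {x : E | |‖x‖ - r| ≤ M}, ‖f x‖ₑ ^ 8 ≤
        ENNReal.ofReal (80 * C0 ^ 8 * M) * ‖Theta f g‖ₑ ^ 8 := by
    intro f g hf hg
    have h1 : eLpNorm f 10 volume ≤ ENNReal.ofReal C0 * ‖Theta f g‖ₑ := by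
      rw [← eLpNorm_congr_ae (hLin.2.1 f g hf hg).1]
      exact (hF (Theta f g)).1.2
    have h2 : ∀ i, eLpNorm (pd i f) (10 / 3) volume ≤ ENNReal.ofReal C0 * ‖Theta f g‖ₑ := by
      intro i
      rw [← eLpNorm_congr_ae ((hLin.2.1 f g hf hg).2.2.1 i)]
      exact ((hF (Theta f g)).2.2.1 i).2.2
    have h3 : ∑ i, eLpNorm (pd i f) (10 / 3) volume ≤ 5 * (ENNReal.ofReal C0 * ‖Theta f g‖ₑ) := by
      refine (Finset.sum_le_sum fun i _ => h2 i).trans ?_
      rw [Finset.sum_const, Finset.card_univ, Fintype.card_fin, nsmul_eq_mul]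
      norm_num
    calc ∫⁻ x in {x : E | |‖x‖ - r| ≤ M}, ‖f x‖ₑ ^ 8
        ≤ ENNReal.ofReal (16 * M) * ∫⁻ x, H f x := shell hf r M
      _ ≤ ENNReal.ofReal (16 * M) *
          ((ENNReal.ofReal C0 * ‖Theta f g‖ₑ) ^ 7 * (5 * (ENNReal.ofReal C0 * ‖Theta f g‖ₑ))) := by
          gcongr
          exact (holder hf).trans (mul_le_mul' (pow_le_pow_left' h1 7) h3)
      _ = ENNReal.ofReal (80 * C0 ^ 8 * M) * ‖Theta f g‖ₑ ^ 8 := by
          have e1 : (80 : ℝ) * C0 ^ 8 * M = 5 * (C0 ^ 8 * (16 * M)) := by ring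
          have e2 : ENNReal.ofReal 5 = 5 := by norm_num
          rw [e1, ENNReal.ofReal_mul (p := 5) (by norm_num), e2,
            ENNReal.ofReal_mul (p := C0 ^ 8) (by positivity), ENNReal.ofReal_pow hC0.le]
          ring
  choose f g hf hg hfg using fun n : ℕ => hDens.2 k (1 / ((n : ℝ) + 1)) (by positivity)
  have hlim : Tendsto (fun n => Theta (f n) (g n)) atTop (𝓝 k) := by
    rw [tendsto_iff_norm_sub_tendsto_zero]
    refine squeeze_zero (fun n => norm_nonneg _) (fun n => ?_)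
      (tendsto_one_div_add_atTop_nhds_zero_nat (𝕜 := ℝ))
    rw [norm_sub_rev]
    exact (hfg n).le
  have hL : Tendsto (fun n => eLpNorm (f n - U k) 10 volume) atTop (𝓝 0) := by
    have h1 : ∀ n, eLpNorm (f n - U k) 10 volume ≤
        ENNReal.ofReal C0 * ‖Theta (f n) (g n) - k‖ₑ := by
      intro n
      have h2 := (hLin.1 (-1) (Theta (f n) (g n)) k).1
      have h3 := (hLin.2.1 (f n) (g n) (hf n) (hg n)).1
      have h4 : Theta (f n) (g n) + (-1 : ℝ) • k = Theta (f n) (g n) - k := by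
        rw [neg_one_smul, sub_eq_add_neg]
      rw [h4] at h2
      have h5 : (f n - U k) =ᵐ[volume] U (Theta (f n) (g n) - k) := by
        filter_upwards [h2, h3] with x h6 h7
        rw [h6, h7, Pi.sub_apply]; ring
      rw [eLpNorm_congr_ae h5]
      exact (hF _).1.2
    have h2 : Tendsto (fun n => ENNReal.ofReal C0 * ‖Theta (f n) (g n) - k‖ₑ) atTop (𝓝 0) := by
      have h3 : Tendsto (fun n => Theta (f n) (g n) - k) atTop (𝓝 0) := by
        simpa using hlim.sub_const k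
      have h4 : Tendsto (fun n => ‖Theta (f n) (g n) - k‖ₑ) atTop (𝓝 0) := by
        have h6 : Tendsto (fun n => ‖Theta (f n) (g n) - k‖ₑ) atTop (𝓝 ‖(0 : K)‖ₑ) :=
          ((continuous_enorm (E := K)).tendsto 0).comp h3
        rwa [enorm_zero] at h6
      have h5 := ENNReal.Tendsto.const_mul h4 (Or.inr (ENNReal.ofReal_ne_top (r := C0)))
      simpa using h5
    exact tendsto_of_tendsto_of_tendsto_of_le_of_le tendsto_const_nhds h2
      (fun n => bot_le) h1
  have hmeas : TendstoInMeasure volume f atTop (U k) :=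
    tendstoInMeasure_of_tendsto_eLpNorm (by norm_num)
      (fun n => (hf n).1.continuous.aestronglyMeasurable) (hF k).1.1.1 hL
  obtain ⟨ns, hns, hae⟩ := hmeas.exists_seq_tendsto_ae
  have hR : Tendsto (fun n => ENNReal.ofReal (80 * C0 ^ 8 * M) *
      ‖Theta (f (ns n)) (g (ns n))‖ₑ ^ 8) atTop (𝓝 (ENNReal.ofReal (80 * C0 ^ 8 * M) * ‖k‖ₑ ^ 8)) := by
    have h1 : Tendsto (fun n => ‖Theta (f (ns n)) (g (ns n))‖ₑ) atTop (𝓝 ‖k‖ₑ) :=
      ((continuous_enorm (E := K)).tendsto k).comp (hlim.comp hns.tendsto_atTop)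
    exact ENNReal.Tendsto.const_mul (ENNReal.Tendsto.pow h1) (Or.inr ENNReal.ofReal_ne_top)
  calc ∫⁻ x in {x : E | |‖x‖ - r| ≤ M}, ‖U k x‖ₑ ^ 8
      = ∫⁻ x in {x : E | |‖x‖ - r| ≤ M}, liminf (fun n => ‖f (ns n) x‖ₑ ^ 8) atTop := by
        refine lintegral_congr_ae ?_
        filter_upwards [ae_restrict_of_ae hae] with x hx
        have h1 : Tendsto (fun n => ‖f (ns n) x‖ₑ ^ 8) atTop (𝓝 (‖U k x‖ₑ ^ 8)) :=
          ENNReal.Tendsto.pow ((continuous_enorm.tendsto _).comp hx)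
        exact h1.liminf_eq.symm
    _ ≤ liminf (fun n => ∫⁻ x in {x : E | |‖x‖ - r| ≤ M}, ‖f (ns n) x‖ₑ ^ 8) atTop := by
        refine lintegral_liminf_le fun n => ?_
        have := (hf (ns n)).1.continuous.measurable
        fun_prop
    _ ≤ liminf (fun n => ENNReal.ofReal (80 * C0 ^ 8 * M) *
        ‖Theta (f (ns n)) (g (ns n))‖ₑ ^ 8) atTop :=
        liminf_le_liminf (Eventually.of_forall fun n => ht _ _ (hf _) (hg _))
    _ = ENNReal.ofReal (80 * C0 ^ 8 * M) * ‖k‖ₑ ^ 8 := hR.liminf_eq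

end Pool.Agent.QWE
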