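import Pool.Agent.QWE.StG

set_option autoImplicit false

/-!
# QWE, G7: decay of the pairing, pointwise in time
-/

open MeasureTheory Filter Topology Set
open scoped ENNReal NNReal RealInnerProductSpace ContDiff

namespace Pool.Agent.QWE

namespace G7x

lemma wd_zero {F G : E → ℝ} {p : ℝ≥0∞} {i : Fin 5} (hF : F =ᵐ[volume] 0) (hp : 1 ≤ p)
    (hG : MemLp G p volume) (h : WD i F G) : G =ᵐ[volume] 0 := by
  have h1 : LocallyIntegrable G volume := hG.locallyIntegrable hp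
  have h2 := ae_eq_zero_of_integral_contDiff_smul_eq_zero h1 (fun φ hφ hφ2 => by
    have h3 := h φ ⟨hφ, hφ2⟩
    have h4 : ∫ x, F x * pd i φ x = 0 := by
      have h5 : (fun x => F x * pd i φ x) =ᵐ[volume] fun _ => (0 : ℝ) := by
        filter_upwards [hF] with x hx
        rw [hx]
        simp
      rw [integral_congr_ae h5, integral_zero]
    have h6 : ∫ x, φ x • G x = ∫ x, G x * φ x := by
      apply integral_congr_ae
      exact Eventually.of_forall fun x => by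
        show φ x • G x = G x * φ x
        rw [smul_eq_mul, mul_comm]
    rw [h6]
    linarith)
  filter_upwards [h2] with x hx
  exact hx

lemma LU_zero (hFld : St_Fld) {k : K} (hU : U k =ᵐ[volume] 0) : LU k =ᵐ[volume] 0 := by
  obtain ⟨C, _, hC⟩ := hFld
  obtain ⟨_, _, h3, h4, _⟩ := hC k
  have h5 : ∀ i, DU k i =ᵐ[volume] 0 := fun i =>
    wd_zero hU (by
      rw [ENNReal.le_div_iff_mul_le (Or.inl (by norm_num)) (Or.inl (by norm_num))]
      norm_num) (h3 i).1 (h3 i).2.1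
  have h6 : ∀ i, DDU k i i =ᵐ[volume] 0 := fun i =>
    wd_zero (h5 i) (by norm_num) (h4 i i).1 (h4 i i).2.1
  have h7 : ∀ᵐ x, ∀ i, DDU k i i x = 0 := ae_all_iff.2 fun i => by
    filter_upwards [h6 i] with x hx
    exact hx
  filter_upwards [h7] with x hx
  show ∑ i, DDU k i i x = 0
  exact Finset.sum_eq_zero fun i _ => hx i

lemma num_shell (r M0 : ℝ) (hr : 1 ≤ r) (hM : 1 ≤ M0) :
    (r + M0) ^ 5 - (max 0 (r - M0)) ^ 5 ≤ 10 * M0 * (1 + M0) ^ 4 * r ^ 4 := by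
  obtain ⟨s, hs⟩ : ∃ s, s = max 0 (r - M0) := ⟨_, rfl⟩
  obtain ⟨R, hR⟩ : ∃ R, R = r + M0 := ⟨_, rfl⟩
  rw [← hs, ← hR]
  have h0 : 0 ≤ s := by rw [hs]; exact le_max_left _ _
  have h1 : r - M0 ≤ s := by rw [hs]; exact le_max_right _ _
  have h2 : s ≤ R := by
    rw [hs, hR]
    exact max_le (by linarith) (by linarith)
  have hR0 : 0 ≤ R := h0.trans h2
  have h3 : R - s ≤ 2 * M0 := by rw [hR]; linarith
  have h4 : R ≤ (1 + M0) * r := by
    rw [hR]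
    nlinarith
  have h5 : R ^ 5 - s ^ 5 = (R - s) * (R ^ 4 + R ^ 3 * s + R ^ 2 * s ^ 2 + R * s ^ 3 + s ^ 4) := by
    ring
  have h6 : R ^ 3 * s ≤ R ^ 4 := by
    have := mul_le_mul_of_nonneg_left h2 (pow_nonneg hR0 3)
    linarith [this, (by ring : R ^ 3 * R = R ^ 4)]
  have h7 : R ^ 2 * s ^ 2 ≤ R ^ 4 := by
    have h8 : s ^ 2 ≤ R ^ 2 := pow_le_pow_left₀ h0 h2 2
    have := mul_le_mul_of_nonneg_left h8 (pow_nonneg hR0 2)
    linarith [this, (by ring : R ^ 2 * R ^ 2 = R ^ 4)]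
  have h8 : R * s ^ 3 ≤ R ^ 4 := by
    have h9 : s ^ 3 ≤ R ^ 3 := pow_le_pow_left₀ h0 h2 3
    have := mul_le_mul_of_nonneg_left h9 hR0
    linarith [this, (by ring : R * R ^ 3 = R ^ 4)]
  have h9 : s ^ 4 ≤ R ^ 4 := pow_le_pow_left₀ h0 h2 4
  have h10 : R ^ 4 ≤ ((1 + M0) * r) ^ 4 := pow_le_pow_left₀ hR0 h4 4
  have h11 : R ^ 4 + R ^ 3 * s + R ^ 2 * s ^ 2 + R * s ^ 3 + s ^ 4 ≤ 5 * ((1 + M0) * r) ^ 4 := by
    linarith
  rw [h5]
  calc (R - s) * (R ^ 4 + R ^ 3 * s + R ^ 2 * s ^ 2 + R * s ^ 3 + s ^ 4) ≤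
      (2 * M0) * (5 * ((1 + M0) * r) ^ 4) := by
        apply mul_le_mul h3 h11 (by positivity) (by linarith)
    _ = _ := by ring

lemma shell_vol (r M0 : ℝ) (hr : 1 ≤ r) (hM : 1 ≤ M0) :
    volume {x : E | |‖x‖ - r| ≤ M0} ≤
      ENNReal.ofReal (10 * M0 * (1 + M0) ^ 4 * r ^ 4) * volume (Metric.ball (0 : E) 1) := by
  have hs : (0 : ℝ) ≤ max 0 (r - M0) := le_max_left _ _
  have hR : (0 : ℝ) ≤ r + M0 := by linarith
  have hsR : max 0 (r - M0) ≤ r + M0 := max_le (by linarith) (by linarith)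
  have h1 : {x : E | |‖x‖ - r| ≤ M0} ⊆
      Metric.closedBall 0 (r + M0) \ Metric.ball 0 (max 0 (r - M0)) := by
    intro x hx
    have h2 := abs_le.1 (show |‖x‖ - r| ≤ M0 from hx)
    refine ⟨?_, ?_⟩
    · rw [Metric.mem_closedBall, dist_zero_right]
      linarith [h2.2]
    · rw [Metric.mem_ball, dist_zero_right, not_lt]
      exact max_le (norm_nonneg x) (by linarith [h2.1])
  refine (measure_mono h1).trans ?_
  have hsub : Metric.ball (0 : E) (max 0 (r - M0)) ⊆ Metric.closedBall 0 (r + M0) :=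
    (Metric.ball_subset_ball hsR).trans Metric.ball_subset_closedBall
  rw [measure_sdiff hsub measurableSet_ball.nullMeasurableSet measure_ball_lt_top.ne,
    Measure.addHaar_closedBall _ _ hR, Measure.addHaar_ball _ _ hs, finrank_euclideanSpace_fin,
    tsub_le_iff_right, ← add_mul]
  refine mul_le_mul_left ?_ _
  rw [← ENNReal.ofReal_add (by positivity) (by positivity)]
  apply ENNReal.ofReal_le_ofReal
  linarith [num_shell r M0 hr hM]

lemma holder (A : Set E) (u d : E → ℝ) (hu : AEStronglyMeasurable u volume)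
    (hd : AEStronglyMeasurable d volume) :
    ∫⁻ x in A, ‖u x‖ₑ ^ 4 * ‖d x‖ₑ ≤ (∫⁻ x in A, ‖u x‖ₑ ^ 8) ^ (1 / 2 : ℝ) *
      (eLpNorm d (10 / 3) volume * volume A ^ (1 / 5 : ℝ)) := by
  have h1 := ENNReal.lintegral_mul_le_Lp_mul_Lq (volume.restrict A) Real.HolderConjugate.two_two
    (f := fun x => ‖u x‖ₑ ^ 4) (g := fun x => ‖d x‖ₑ) (hu.restrict.enorm.pow_const 4)
    hd.restrict.enorm
  have h2 : ∀ x, (‖u x‖ₑ ^ 4) ^ (2 : ℝ) = ‖u x‖ₑ ^ 8 := by
    intro x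
    rw [ENNReal.rpow_ofNat, ← pow_mul]
  have h3 : (∫⁻ x in A, ‖d x‖ₑ ^ (2 : ℝ)) ^ (1 / 2 : ℝ) = eLpNorm d 2 (volume.restrict A) := by
    rw [eLpNorm_eq_lintegral_rpow_enorm_toReal (by norm_num) (by norm_num)]
    simp
  have h4 := eLpNorm_le_eLpNorm_mul_rpow_measure_univ (p := 2) (q := 10 / 3)
    (μ := volume.restrict A) (f := d) (by
      rw [ENNReal.le_div_iff_mul_le (Or.inl (by norm_num)) (Or.inl (by norm_num))]
      norm_num) hd.restrict
  have h5 : (1 / (2 : ℝ≥0∞).toReal - 1 / (10 / 3 : ℝ≥0∞).toReal) = (1 / 5 : ℝ) := by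
    rw [ENNReal.toReal_div]
    norm_num
  rw [h5, Measure.restrict_apply_univ] at h4
  simp only [Pi.mul_apply, h2] at h1
  refine h1.trans ?_
  refine mul_le_mul_right ?_ _
  rw [h3]
  refine h4.trans ?_
  exact mul_le_mul_left (eLpNorm_mono_measure _ Measure.restrict_le_self) _

lemma pd_zero {g : E → ℝ} {M0 r : ℝ} (hg : ∀ x, M0 ≤ |‖x‖ - r| → g x = 0) (i : Fin 5) (x : E)
    (hx : M0 < |‖x‖ - r|) : pd i g x = 0 := by
  have hopen : IsOpen {y : E | M0 < |‖y‖ - r|} := isOpen_lt continuous_const (by fun_prop)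
  have h1 : g =ᶠ[𝓝 x] fun _ => (0 : ℝ) := by
    filter_upwards [hopen.mem_nhds hx] with y hy
    exact hg y (le_of_lt hy)
  unfold pd
  rw [h1.fderiv_eq]
  simp

lemma rpow_calc (r : ℝ) (hr : 1 ≤ r) : (r ^ 4) ^ (1 / 5 : ℝ) / (1 + r ^ 2) ≤ r ^ (-(6 / 5 : ℝ)) := by
  have h0 : 0 < r := by linarith
  have h1 : (r ^ 4) ^ (1 / 5 : ℝ) = r ^ (4 / 5 : ℝ) := by
    rw [← Real.rpow_natCast, ← Real.rpow_mul h0.le]
    norm_num
  have h2 : r ^ (-(6 / 5 : ℝ)) = r ^ (4 / 5 : ℝ) / r ^ 2 := by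
    rw [← Real.rpow_natCast, ← Real.rpow_sub h0]
    norm_num
  rw [h1, h2]
  apply div_le_div_of_nonneg_left (Real.rpow_nonneg h0.le _) (by positivity)
  linarith

end G7x

theorem thm_G7 (hG6 : St_G6) (hDecay : St_Decay) (hIP : St_IP) (hNLb : St_NLb) (hLin : St_Lin)
    (hFld : St_Fld) : St_G7 := by
  intro f g hf hg
  obtain ⟨C1, M0, hC1, hM0, hdec⟩ := hDecay f g hf hg
  obtain ⟨C2, hC2, hg6⟩ := hG6
  obtain ⟨C3, hC3, hfld⟩ := hFld
  obtain ⟨v, hv⟩ : ∃ v : ℝ, v = (volume (Metric.ball (0 : E) 1)).toReal := ⟨_, rfl⟩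
  have hv0 : 0 ≤ v := by rw [hv]; exact ENNReal.toReal_nonneg
  have hvE : volume (Metric.ball (0 : E) 1) = ENNReal.ofReal v := by
    rw [hv, ENNReal.ofReal_toReal measure_ball_lt_top.ne]
  obtain ⟨D, hD⟩ : ∃ D : ℝ, D = 10 * M0 * (1 + M0) ^ 4 * v := ⟨_, rfl⟩
  have hM0' : 0 < M0 := by linarith
  have hD0 : 0 ≤ D := by rw [hD]; positivity
  have hc0 : 0 < c0 := by unfold c0; positivity
  obtain ⟨C, hC⟩ : ∃ C : ℝ, C = c0 * (5 * (5 * C1 * (√(C2 * M0) * (C3 * D ^ (1 / 5 : ℝ))))) :=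
    ⟨_, rfl⟩
  have hCn : 0 ≤ C := by rw [hC]; positivity
  refine ⟨C + 1, by linarith, ?_⟩
  intro k r hr hk
  have hr0 : 0 < r := by linarith
  obtain ⟨f', g', hf', hg', htau, hsupp, hbd⟩ := hdec r
  rw [abs_of_pos hr0] at hsupp
  obtain ⟨_, _, _, hUN, _, hDN⟩ := hNLb.2 k hk
  obtain ⟨hU, _, hDU, _⟩ := hfld k
  -- the shell
  have hmeas : MeasurableSet {x : E | |‖x‖ - r| ≤ M0} :=
    (isClosed_le (by fun_prop) continuous_const).measurableSet
  have hLU : ∫ x, LU (NL k) x * LU (Theta f' g') x = 0 := by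
    have h1 := G7x.LU_zero ⟨C3, hC3, hfld⟩ hUN
    have h2 : (fun x => LU (NL k) x * LU (Theta f' g') x) =ᵐ[volume] fun _ => (0 : ℝ) := by
      filter_upwards [h1] with x hx
      rw [hx]
      simp
    rw [integral_congr_ae h2, integral_zero]
  have hinner : inner ℝ (NL k) (tau r (Theta f g)) =
      c0 * ∑ i, ∫ x, DV (NL k) i x * DV (Theta f' g') i x := by
    rw [htau, hIP, hLU, zero_add]
  -- each summand
  have hterm : ∀ i, ‖∫ x, DV (NL k) i x * DV (Theta f' g') i x‖ₑ ≤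
      ENNReal.ofReal (5 * C1 * (√(C2 * M0) * (C3 * D ^ (1 / 5 : ℝ))) *
        ((r ^ 4) ^ (1 / 5 : ℝ) / (1 + r ^ 2)) * ‖k‖ ^ 5) := by
    intro i
    have hcong : ∫ x, DV (NL k) i x * DV (Theta f' g') i x =
        ∫ x, (5 * U k x ^ 4 * DU k i x) * pd i g' x := by
      apply integral_congr_ae
      filter_upwards [(hDN i).2.2, (hLin.2.1 f' g' hf' hg').2.2.2.2 i] with x h1 h2
      rw [h1, h2]
    rw [hcong]
    refine (enorm_integral_le_lintegral_enorm _).trans ?_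
    have hpt : ∀ x, ‖(5 * U k x ^ 4 * DU k i x) * pd i g' x‖ₑ ≤
        {x : E | |‖x‖ - r| ≤ M0}.indicator (fun x => ENNReal.ofReal (5 * (C1 / (1 + r ^ 2))) *
          (‖U k x‖ₑ ^ 4 * ‖DU k i x‖ₑ)) x := by
      intro x
      by_cases hx : x ∈ {x : E | |‖x‖ - r| ≤ M0}
      · rw [indicator_of_mem hx]
        have h1 : |pd i g' x| ≤ C1 / (1 + r ^ 2) := (hbd x i i).2.2.2.2
        have h2 : ‖pd i g' x‖ₑ ≤ ENNReal.ofReal (C1 / (1 + r ^ 2)) := by
          rw [Real.enorm_eq_ofReal_abs]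
          exact ENNReal.ofReal_le_ofReal h1
        rw [enorm_mul, enorm_mul, enorm_mul, enorm_pow, ENNReal.ofReal_mul (by norm_num)]
        have h3 : ‖(5 : ℝ)‖ₑ = ENNReal.ofReal 5 := by
          rw [Real.enorm_eq_ofReal (by norm_num)]
        rw [h3]
        calc ENNReal.ofReal 5 * ‖U k x‖ₑ ^ 4 * ‖DU k i x‖ₑ * ‖pd i g' x‖ₑ ≤
            ENNReal.ofReal 5 * ‖U k x‖ₑ ^ 4 * ‖DU k i x‖ₑ * ENNReal.ofReal (C1 / (1 + r ^ 2)) :=
              mul_le_mul_right h2 _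
          _ = _ := by ring
      · rw [indicator_of_notMem hx]
        have h1 : M0 < |‖x‖ - r| := by
          by_contra hc
          exact hx (not_lt.1 hc)
        rw [G7x.pd_zero (fun y hy => (hsupp y hy).2) i x h1, mul_zero, enorm_zero]
    refine (lintegral_mono hpt).trans ?_
    rw [lintegral_indicator hmeas, lintegral_const_mul' _ _ ENNReal.ofReal_ne_top]
    have hH := G7x.holder {x : E | |‖x‖ - r| ≤ M0} (U k) (DU k i) hU.1.1 (hDU i).1.1
    have hA : (∫⁻ x in {x : E | |‖x‖ - r| ≤ M0}, ‖U k x‖ₑ ^ 8) ^ (1 / 2 : ℝ) ≤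
        ENNReal.ofReal (√(C2 * M0) * ‖k‖ ^ 4) := by
      have h1 := hg6 k r M0 hM0'.le
      have h2 : ENNReal.ofReal (C2 * M0) * ‖k‖ₑ ^ 8 = ENNReal.ofReal ((C2 * M0) * ‖k‖ ^ 8) := by
        rw [ENNReal.ofReal_mul (p := C2 * M0) (q := ‖k‖ ^ 8) (by positivity),
          ENNReal.ofReal_pow (norm_nonneg _), ofReal_norm]
      rw [h2] at h1
      refine (ENNReal.rpow_le_rpow h1 (by norm_num)).trans (le_of_eq ?_)
      rw [ENNReal.ofReal_rpow_of_nonneg (by positivity) (by norm_num)]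
      congr 1
      rw [← Real.sqrt_eq_rpow, Real.sqrt_mul (by positivity)]
      congr 1
      have : ‖k‖ ^ 8 = (‖k‖ ^ 4) ^ 2 := by ring
      rw [this, Real.sqrt_sq (by positivity)]
    have hB : eLpNorm (DU k i) (10 / 3) volume ≤ ENNReal.ofReal (C3 * ‖k‖) := by
      rw [ENNReal.ofReal_mul hC3.le, ofReal_norm]
      exact (hDU i).2.2
    have hV : volume {x : E | |‖x‖ - r| ≤ M0} ^ (1 / 5 : ℝ) ≤
        ENNReal.ofReal (D ^ (1 / 5 : ℝ) * (r ^ 4) ^ (1 / 5 : ℝ)) := by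
      have h1 := G7x.shell_vol r M0 hr hM0
      rw [hvE, ← ENNReal.ofReal_mul (by positivity)] at h1
      refine (ENNReal.rpow_le_rpow h1 (by norm_num)).trans (le_of_eq ?_)
      rw [ENNReal.ofReal_rpow_of_nonneg (by positivity) (by norm_num)]
      congr 1
      have h2 : 10 * M0 * (1 + M0) ^ 4 * r ^ 4 * v = D * r ^ 4 := by rw [hD]; ring
      rw [h2, Real.mul_rpow hD0 (by positivity)]
    calc ENNReal.ofReal (5 * (C1 / (1 + r ^ 2))) *
          ∫⁻ x in {x : E | |‖x‖ - r| ≤ M0}, ‖U k x‖ₑ ^ 4 * ‖DU k i x‖ₑ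
        ≤ ENNReal.ofReal (5 * (C1 / (1 + r ^ 2))) * (ENNReal.ofReal (√(C2 * M0) * ‖k‖ ^ 4) *
          (ENNReal.ofReal (C3 * ‖k‖) *
            ENNReal.ofReal (D ^ (1 / 5 : ℝ) * (r ^ 4) ^ (1 / 5 : ℝ)))) := by
          gcongr
          exact hH.trans (mul_le_mul' hA (mul_le_mul' hB hV))
      _ = _ := by
          rw [← ENNReal.ofReal_mul (by positivity), ← ENNReal.ofReal_mul (by positivity),
            ← ENNReal.ofReal_mul (by positivity)]
          congr 1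
          ring
  have hsum : ‖inner ℝ (NL k) (tau r (Theta f g))‖ₑ ≤ ENNReal.ofReal (c0 * (5 *
      (5 * C1 * (√(C2 * M0) * (C3 * D ^ (1 / 5 : ℝ))) *
        ((r ^ 4) ^ (1 / 5 : ℝ) / (1 + r ^ 2)) * ‖k‖ ^ 5))) := by
    rw [hinner, enorm_mul, ENNReal.ofReal_mul hc0.le, Real.enorm_eq_ofReal hc0.le]
    refine mul_le_mul_right ?_ _
    refine (enorm_sum_le _ _).trans ?_
    refine (Finset.sum_le_sum fun i _ => hterm i).trans (le_of_eq ?_)
    rw [Finset.sum_const, Finset.card_univ, Fintype.card_fin, nsmul_eq_mul,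
      ENNReal.ofReal_mul (by norm_num : (0 : ℝ) ≤ 5)]
    congr 1
    norm_num
  rw [Real.enorm_eq_ofReal_abs, ENNReal.ofReal_le_ofReal_iff (by positivity)] at hsum
  refine hsum.trans ?_
  have h1 := G7x.rpow_calc r hr
  calc c0 * (5 * (5 * C1 * (√(C2 * M0) * (C3 * D ^ (1 / 5 : ℝ))) *
        ((r ^ 4) ^ (1 / 5 : ℝ) / (1 + r ^ 2)) * ‖k‖ ^ 5)) =
      C * ((r ^ 4) ^ (1 / 5 : ℝ) / (1 + r ^ 2)) * ‖k‖ ^ 5 := by rw [hC]; ring
    _ ≤ (C + 1) * r ^ (-(6 / 5 : ℝ)) * ‖k‖ ^ 5 := by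
        have h2 : 0 ≤ (r ^ 4) ^ (1 / 5 : ℝ) / (1 + r ^ 2) := by positivity
        gcongr
        linarith

end Pool.Agent.QWE
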