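import Pool.Agent.QWE.StG
import Pool.Agent.QWE.G5

set_option autoImplicit false

/-!
# QWE G8 (MP_9ce95b_an): weak nullity for all times, interaction picture (helper66)
-/

open MeasureTheory Filter Topology Set
open scoped ENNReal NNReal RealInnerProductSpace

namespace Pool.Agent.QWE

namespace G8x

open Locx G5x

lemma tail_int {M' : ℝ} (hM' : 0 < M') :
    IntegrableOn (fun r : ℝ => r ^ (-(6 / 5 : ℝ))) (Ioi M') volume ∧
      ∫ r in Ioi M', r ^ (-(6 / 5 : ℝ)) = 5 * M' ^ (-(1 / 5 : ℝ)) := by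
  refine ⟨integrableOn_Ioi_rpow_of_lt (by norm_num) hM', ?_⟩
  rw [integral_Ioi_rpow_of_lt (by norm_num) hM']
  norm_num
  ring

/-- the late times. -/
lemma tail {A C : ℝ} {T t M' : ℝ} {γ : ℝ → K} {κ : K} (hM : St_Meas)
    (hC : 0 < C)
    (h7 : ∀ (k : K) (r : ℝ), 1 ≤ r → sn k < ⊤ → |inner ℝ (NL k) (tau r κ)| ≤
      C * r ^ (-(6 / 5 : ℝ)) * ‖k‖ ^ 5)
    (hm : AEStronglyMeasurable γ (volume.restrict (Icc 0 T)))
    (hn : ∀ s ∈ Icc 0 T, ‖γ s‖ ≤ A) (hS : SN (Icc 0 T) γ < ⊤)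
    (htT : t ≤ T) (hM1 : 1 ≤ M') (hA : 0 ≤ A) :
    |∫ r in Ioc M' t, (inner ℝ (NL (γ r)) (tau r κ) : ℝ)| ≤
      C * A ^ 5 * (5 * M' ^ (-(1 / 5 : ℝ))) := by
  have hsub : Ioc M' t ⊆ Icc 0 T := fun r hr => ⟨by linarith [hr.1], hr.2.trans htT⟩
  have hf := sn_fin hM measurableSet_Icc hm hS
  obtain ⟨ti1, ti2⟩ := tail_int (lt_of_lt_of_le one_pos hM1)
  have hi5 : IntegrableOn (fun r : ℝ => r ^ (-(6 / 5 : ℝ))) (Ioc M' t) volume :=
    ti1.mono_set Ioc_subset_Ioi_self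
  have hCA : 0 ≤ C * A ^ 5 := by positivity
  have hb : ∀ᵐ r ∂(volume.restrict (Ioc M' t)), ‖(inner ℝ (NL (γ r)) (tau r κ) : ℝ)‖ ≤
      C * A ^ 5 * r ^ (-(6 / 5 : ℝ)) := by
    have hf' : ∀ᵐ r ∂(volume.restrict (Ioc M' t)), sn (γ r) < ⊤ :=
      ae_restrict_of_ae_restrict_of_subset hsub hf
    filter_upwards [hf', ae_restrict_mem measurableSet_Ioc] with r hr hr2
    have hr1 : 1 ≤ r := hM1.trans hr2.1.le
    rw [Real.norm_eq_abs]
    refine (h7 (γ r) r hr1 hr).trans ?_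
    have hr0 : 0 ≤ r ^ (-(6 / 5 : ℝ)) := Real.rpow_nonneg (by linarith) _
    calc C * r ^ (-(6 / 5 : ℝ)) * ‖γ r‖ ^ 5 ≤ C * r ^ (-(6 / 5 : ℝ)) * A ^ 5 :=
          mul_le_mul_of_nonneg_left (pow_le_pow_left₀ (norm_nonneg _) (hn r (hsub hr2)) 5)
            (mul_nonneg hC.le hr0)
      _ = _ := by ring
  rw [← Real.norm_eq_abs]
  refine (norm_integral_le_of_norm_le (hi5.const_mul _) hb).trans ?_
  rw [integral_const_mul]
  have q2 : ∫ r in Ioc M' t, r ^ (-(6 / 5 : ℝ)) ≤ 5 * M' ^ (-(1 / 5 : ℝ)) := by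
    rw [← ti2]
    apply setIntegral_mono_set ti1 _ Ioc_subset_Ioi_self.eventuallyLE
    filter_upwards [ae_restrict_mem measurableSet_Ioi] with r hr
    exact Real.rpow_nonneg (by have := mem_Ioi.1 hr; linarith) _
  exact mul_le_mul_of_nonneg_left q2 hCA

lemma NL_zero {C : ℝ} (hC : ∀ k : K, ‖NL k‖ₑ ≤ ENNReal.ofReal C * sn k ^ 4 * ‖k‖ₑ) :
    NL (0 : K) = 0 := by
  have h := hC 0
  rw [enorm_zero, mul_zero, nonpos_iff_eq_zero, enorm_eq_zero] at h
  exact h

/-- the early times. -/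
lemma early (hG5 : St_G5) (hNc : St_NLc) (hNb : St_NLb) (hM : St_Meas) (hL : St_Lin)
    (hF : St_Free) (hG : St_Grp1) {A M : ℝ} {T t : ℕ → ℝ} {β : ℕ → ℝ → K}
    (hβ : BetaSeq A M T β) (ht : ∀ n, t n ∈ Icc 0 (T n))
    (hi : ∀ n, IntegrableOn (fun r => NL (β n r)) (Icc 0 (T n)) volume)
    {f g : E → ℝ} (hf : IsTest f) (hg : IsTest g) (M' : ℝ) :
    Tendsto (fun n => ∫ r in Ioc 0 (min M' (t n)),
      (inner ℝ (NL (β n r)) (tau r (Theta f g)) : ℝ)) atTop (𝓝 0) := by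
  obtain ⟨⟨C, hC0, hC1, -⟩, -⟩ := hNb
  obtain ⟨C3, hC30, hC3⟩ := hNc.2.2 f g M' hf hg
  have hA : 0 ≤ A := (norm_nonneg _).trans ((hβ.1 0).2.2.1 0 ⟨le_rfl, (hβ.1 0).1⟩)
  have hfin : ∀ n, ∀ᵐ r ∂(volume.restrict (Icc 0 (T n))), sn (β n r) < ⊤ := by
    intro n
    obtain ⟨h1, h2, h3, h4⟩ := hβ.1 n
    exact sn_fin hM measurableSet_Icc (h2.2.1.aestronglyMeasurable measurableSet_Icc)
      (lt_of_le_of_lt h4 ENNReal.ofReal_lt_top)
  have hfin' : ∀ᵐ r : ℝ, ∀ n, r ∈ Icc 0 (T n) → sn (β n r) < ⊤ := by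
    rw [ae_all_iff]
    intro n
    exact (ae_restrict_iff' measurableSet_Icc).1 (hfin n)
  have hconv : ∀ n, ∫ r in Ioc 0 (min M' (t n)),
      (inner ℝ (NL (β n r)) (tau r (Theta f g)) : ℝ) = ∫ r in Ioc 0 M',
      (Iic (t n)).indicator (fun r => (inner ℝ (NL (β n r)) (tau r (Theta f g)) : ℝ)) r := by
    intro n
    rw [setIntegral_indicator measurableSet_Iic]
    congr 2
    ext r
    simp only [mem_Ioc, mem_inter_iff, mem_Iic, le_min_iff]
    tauto
  simp_rw [hconv]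
  have key : Tendsto (fun n => ∫ r in Ioc 0 M',
      (Iic (t n)).indicator (fun r => (inner ℝ (NL (β n r)) (tau r (Theta f g)) : ℝ)) r) atTop
      (𝓝 (∫ _ in Ioc 0 M', (0 : ℝ))) := by
    apply tendsto_integral_of_dominated_convergence (fun _ => C3 * A ^ 5)
    · intro n
      rw [aestronglyMeasurable_indicator_iff measurableSet_Iic,
        Measure.restrict_restrict measurableSet_Iic]
      have h1 := pair_meas hG 0 (Theta f g) (hi n)
      have h2 : AEStronglyMeasurable (fun r => (inner ℝ (NL (β n r)) (tau r (Theta f g)) : ℝ))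
          (volume.restrict (Icc 0 (T n))) := by
        refine h1.congr (Eventually.of_forall fun r => ?_)
        simp only [sub_zero]
      apply h2.mono_measure
      apply Measure.restrict_mono _ le_rfl
      intro r hr
      exact ⟨hr.2.1.le, (mem_Iic.1 hr.1).trans (ht n).2⟩
    · exact integrable_const _
    · intro n
      filter_upwards [ae_restrict_of_ae hfin', ae_restrict_mem measurableSet_Ioc] with r hr hr2
      by_cases hrt : r ∈ Iic (t n)
      · rw [indicator_of_mem hrt]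
        have hr3 : r ∈ Icc 0 (T n) := ⟨hr2.1.le, (mem_Iic.1 hrt).trans (ht n).2⟩
        have hr4 : |r| ≤ M' := by
          rw [abs_of_pos hr2.1]
          exact hr2.2
        refine (hC3 r (β n r) hr4 (hr n hr3)).trans ?_
        exact mul_le_mul_of_nonneg_left (pow_le_pow_left₀ (norm_nonneg _)
          ((hβ.1 n).2.2.1 r hr3) 5) hC30.le
      · rw [indicator_of_notMem hrt, norm_zero]
        positivity
    · filter_upwards [ae_restrict_of_ae hfin', ae_restrict_mem measurableSet_Ioc] with r hr hr2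
      obtain ⟨f', g', hf', hg', he, -⟩ := (hF f g r hf hg).1
      have hw := hG5 A M T β hβ r hr2.1.le
      have hsn : ∀ n, sn (if r ≤ T n then β n r else 0) < ⊤ := by
        intro n
        split_ifs with h
        · exact hr n ⟨hr2.1.le, h⟩
        · rw [sn_zero hL]
          exact ENNReal.zero_lt_top
      have h1 := hNc.2.1 _ 0 f' g' hf' hg' hw hsn (by rw [sn_zero hL]; exact ENNReal.zero_lt_top)
      rw [NL_zero hC1, inner_zero_left] at h1
      refine squeeze_zero_norm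
        (a := fun n => ‖(inner ℝ (NL (if r ≤ T n then β n r else 0)) (Theta f' g') : ℝ)‖) ?_
        (by simpa using h1.norm)
      intro n
      by_cases hrt : r ∈ Iic (t n)
      · rw [indicator_of_mem hrt, he, if_pos ((mem_Iic.1 hrt).trans (ht n).2)]
      · rw [indicator_of_notMem hrt, norm_zero]
        exact norm_nonneg _
  simpa using key

/-- the test states. -/
lemma step1 (hG5 : St_G5) (hG7 : St_G7) (hNc : St_NLc) (hNb : St_NLb) (hM : St_Meas)
    (hL : St_Lin) (hF : St_Free) (hG : St_Grp1) {A M : ℝ} {T t : ℕ → ℝ} {β : ℕ → ℝ → K}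
    (hβ : BetaSeq A M T β) (ht : ∀ n, t n ∈ Icc 0 (T n)) {f g : E → ℝ} (hf : IsTest f)
    (hg : IsTest g) :
    Tendsto (fun n => (inner ℝ (tau (-(t n)) (β n (t n))) (Theta f g) : ℝ)) atTop (𝓝 0) := by
  obtain ⟨⟨C, hC0, hCb, -⟩, -⟩ := id hNb
  obtain ⟨C7, hC70, hC7⟩ := hG7 f g hf hg
  have hA : 0 ≤ A := (norm_nonneg _).trans ((hβ.1 0).2.2.1 0 ⟨le_rfl, (hβ.1 0).1⟩)
  have hm : ∀ n, AEStronglyMeasurable (β n) (volume.restrict (Icc 0 (T n))) := fun n =>
    (hβ.1 n).2.1.2.1.aestronglyMeasurable measurableSet_Icc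
  have hi : ∀ n, IntegrableOn (fun r => NL (β n r)) (Icc 0 (T n)) volume := fun n =>
    nl_int hCb hM (hm n) (lt_of_le_of_lt (hβ.1 n).2.2.2 ENNReal.ofReal_lt_top)
      (hβ.1 n).2.2.1
  have hform : ∀ (n : ℕ) (M' : ℝ), 0 ≤ M' →
      (inner ℝ (tau (-(t n)) (β n (t n))) (Theta f g) : ℝ) = inner ℝ (β n 0) (Theta f g) -
        ((∫ r in Ioc 0 (min M' (t n)), (inner ℝ (NL (β n r)) (tau r (Theta f g)) : ℝ)) +
          ∫ r in Ioc M' (t n), (inner ℝ (NL (β n r)) (tau r (Theta f g)) : ℝ)) := by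
    intro n M' hM'
    have h0 : (0 : ℝ) ∈ Icc 0 (T n) := ⟨le_rfl, (hβ.1 n).1⟩
    have hadj := hG.2.2.2.2.2.1
    rw [hadj, neg_neg, wduh hG (hβ.1 n).2.1 (hi n) h0 (ht n) (tau (t n) (Theta f g)), hG.1,
      zero_sub, neg_add_cancel, hG.2.1]
    congr 1
    have h1 : ∀ r : ℝ, tau (r - t n) (tau (t n) (Theta f g)) = tau r (Theta f g) := by
      intro r
      rw [hG.1]
      congr 2
      ring
    simp_rw [h1]
    rw [intervalIntegral.integral_of_le (ht n).1]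
    have h2 : Ioc 0 (t n) = Ioc 0 (min M' (t n)) ∪ Ioc M' (t n) := by
      ext r
      simp only [mem_Ioc, mem_union, le_min_iff]
      constructor
      · rintro ⟨a, b⟩
        rcases le_or_gt r M' with h | h
        · exact Or.inl ⟨a, h, b⟩
        · exact Or.inr ⟨h, b⟩
      · rintro (⟨a, _, b⟩ | ⟨a, b⟩)
        · exact ⟨a, b⟩
        · exact ⟨by linarith, b⟩
    have h3 : Disjoint (Ioc 0 (min M' (t n))) (Ioc M' (t n)) := by
      rw [Set.disjoint_left]
      intro r hr hr2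
      have := (le_min_iff.1 hr.2).1
      linarith [hr2.1]
    have hgi : IntegrableOn (fun r => (inner ℝ (NL (β n r)) (tau r (Theta f g)) : ℝ))
        (Icc 0 (T n)) volume := by
      have h4 := pair_meas hG 0 (Theta f g) (hi n)
      refine Integrable.mono' ((hi n).norm.mul_const ‖Theta f g‖) ?_ ?_
      · refine h4.congr (Eventually.of_forall fun r => ?_)
        simp only [sub_zero]
      · refine Eventually.of_forall fun r => ?_
        refine (norm_inner_le_norm _ _).trans ?_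
        rw [LinearIsometry.norm_map]
    rw [h2, setIntegral_union h3 measurableSet_Ioc]
    · apply hgi.mono_set
      intro r hr
      exact ⟨hr.1.le, ((le_min_iff.1 hr.2).2).trans (ht n).2⟩
    · apply hgi.mono_set
      intro r hr
      exact ⟨by linarith [hr.1], hr.2.trans (ht n).2⟩
  rw [Metric.tendsto_atTop]
  intro ε hε
  obtain ⟨M', hM1, hM2⟩ : ∃ M' : ℝ, 1 ≤ M' ∧
      C7 * A ^ 5 * (5 * M' ^ (-(1 / 5 : ℝ))) ≤ ε / 4 := by
    have h1 : Tendsto (fun M' : ℝ => C7 * A ^ 5 * (5 * M' ^ (-(1 / 5 : ℝ)))) atTop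
        (𝓝 (C7 * A ^ 5 * (5 * 0))) :=
      ((tendsto_rpow_neg_atTop (by norm_num : (0 : ℝ) < 1 / 5)).const_mul 5).const_mul _
    rw [mul_zero, mul_zero] at h1
    have h2 := (h1.eventually (ge_mem_nhds (by positivity : (0 : ℝ) < ε / 4))).and
      (eventually_ge_atTop (1 : ℝ))
    obtain ⟨M', h3, h4⟩ := h2.exists
    exact ⟨M', h4, h3⟩
  have e1 := (Metric.tendsto_atTop.1 (hβ.2 (Theta f g))) (ε / 4) (by positivity)
  have e2 := (Metric.tendsto_atTop.1
    (early hG5 hNc hNb hM hL hF hG hβ ht hi hf hg M')) (ε / 4) (by positivity)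
  obtain ⟨N1, hN1⟩ := e1
  obtain ⟨N2, hN2⟩ := e2
  refine ⟨max N1 N2, fun n hn => ?_⟩
  have a1 := hN1 n (le_of_max_le_left hn)
  have a2 := hN2 n (le_of_max_le_right hn)
  have a3 := tail hM hC70 hC7 (hm n) (hβ.1 n).2.2.1
    (lt_of_le_of_lt (hβ.1 n).2.2.2 ENNReal.ofReal_lt_top) (ht n).2 hM1 hA
  rw [inner_zero_left, Real.dist_eq, sub_zero] at a1
  rw [Real.dist_eq, sub_zero] at a2
  rw [Real.dist_eq, sub_zero, hform n M' (by linarith)]
  have b1 := abs_sub (inner ℝ (β n 0) (Theta f g) : ℝ)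
    ((∫ r in Ioc 0 (min M' (t n)), (inner ℝ (NL (β n r)) (tau r (Theta f g)) : ℝ)) +
          ∫ r in Ioc M' (t n), (inner ℝ (NL (β n r)) (tau r (Theta f g)) : ℝ))
  have b2 := abs_add_le
    (∫ r in Ioc 0 (min M' (t n)), (inner ℝ (NL (β n r)) (tau r (Theta f g)) : ℝ))
    (∫ r in Ioc M' (t n), (inner ℝ (NL (β n r)) (tau r (Theta f g)) : ℝ))
  linarith

end G8x

open Locx G5x G8x in
theorem thm_G8 (hG5 : St_G5) (hG7 : St_G7) (hNc : St_NLc) (hNb : St_NLb) (hM : St_Meas)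
    (hL : St_Lin) (hF : St_Free) (hD : St_Dens) (hG : St_Grp1) : St_G8 := by
  intro A M T t β C1 c hβ ht hC1 hc
  have hA : 0 ≤ A := (norm_nonneg _).trans ((hβ.1 0).2.2.1 0 ⟨le_rfl, (hβ.1 0).1⟩)
  have hb : ∀ n, ‖tau (-(t n)) (β n (t n))‖ ≤ A := by
    intro n
    rw [LinearIsometry.norm_map]
    exact (hβ.1 n).2.2.1 (t n) (ht n)
  have hclose : ∀ (n : ℕ) (x y : K), |(inner ℝ (tau (-(t n)) (β n (t n))) x : ℝ)| ≤
      |(inner ℝ (tau (-(t n)) (β n (t n))) y : ℝ)| + A * ‖x - y‖ := by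
    intro n x y
    have h1 : (inner ℝ (tau (-(t n)) (β n (t n))) x : ℝ) =
        inner ℝ (tau (-(t n)) (β n (t n))) y + inner ℝ (tau (-(t n)) (β n (t n))) (x - y) := by
      rw [← inner_add_right]
      congr 1
      abel
    rw [h1]
    refine (abs_add_le _ _).trans (add_le_add le_rfl ?_)
    exact (abs_real_inner_le_norm _ _).trans (mul_le_mul_of_nonneg_right (hb n) (norm_nonneg _))
  have step2 : ∀ κ : K, ∀ ε : ℝ, 0 < ε → ∀ᶠ n in atTop,
      |(inner ℝ (tau (-(t n)) (β n (t n))) κ : ℝ)| < ε := by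
    intro κ ε hε
    obtain ⟨f, g, hf, hg, hfg⟩ := hD.2 κ (ε / (2 * (A + 1))) (by positivity)
    have h1 := (Metric.tendsto_atTop.1
      (step1 hG5 hG7 hNc hNb hM hL hF hG hβ ht hf hg)) (ε / 2) (by positivity)
    obtain ⟨N, hN⟩ := h1
    filter_upwards [eventually_ge_atTop N] with n hn
    have h2 := hN n hn
    rw [Real.dist_eq, sub_zero] at h2
    have h3 := hclose n κ (Theta f g)
    have h4 : A * ‖κ - Theta f g‖ ≤ ε / 2 := by
      calc A * ‖κ - Theta f g‖ ≤ (A + 1) * (ε / (2 * (A + 1))) :=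
            mul_le_mul (by linarith) hfg.le (norm_nonneg _) (by positivity)
        _ = ε / 2 := by field_simp
    linarith
  rw [Metric.tendsto_atTop]
  intro ε hε
  obtain ⟨s, hs1, hs2, hs3⟩ := hC1.finite_cover_balls (e := ε / (2 * (A + 1))) (by positivity)
  have h1 : ∀ᶠ n in atTop, ∀ κ ∈ s,
      |(inner ℝ (tau (-(t n)) (β n (t n))) κ : ℝ)| < ε / 2 := by
    rw [eventually_all_finite hs2]
    intro κ _
    exact step2 κ (ε / 2) (by positivity)
  obtain ⟨N, hN⟩ := eventually_atTop.1 h1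
  refine ⟨N, fun n hn => ?_⟩
  rw [Real.dist_eq, sub_zero]
  have h2 := hs3 (hc n)
  simp only [mem_iUnion, Metric.mem_ball, exists_prop] at h2
  obtain ⟨κ, hκ, hd⟩ := h2
  rw [dist_eq_norm] at hd
  have h3 := hclose n (c n) κ
  have h4 := hN n hn κ hκ
  have h5 : A * ‖c n - κ‖ ≤ ε / 2 := by
    calc A * ‖c n - κ‖ ≤ (A + 1) * (ε / (2 * (A + 1))) :=
          mul_le_mul (by linarith) hd.le (norm_nonneg _) (by positivity)
      _ = ε / 2 := by field_simp
  linarith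

end Pool.Agent.QWE
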