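import Pool.Agent.QWE.StG

/-!
# QWE/G9 (helper96): local smallness
-/

set_option autoImplicit false

open MeasureTheory Filter Topology Set
open scoped ENNReal NNReal RealInnerProductSpace

namespace Pool.Agent.QWE

namespace G9x

theorem dct {R : ℝ} {T : ℕ → ℝ} (e h : ℕ → ℝ → ℝ≥0∞) (C : ℝ≥0∞) (hC : C ≠ ⊤) (p : ℝ)
    (hp : 0 < p)
    (hm : ∀ n, AEMeasurable (e n) (volume.restrict (Icc 0 (min R (T n)))))
    (hb : ∀ n, ∀ t ∈ Icc 0 (min R (T n)), e n t ≤ C)
    (hle : ∀ n, ∀ t ∈ Icc 0 (min R (T n)), e n t ≤ h n t)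
    (hh : ∀ t ∈ Icc 0 R, Tendsto (fun n => h n t) atTop (𝓝 0)) :
    Tendsto (fun n => ∫⁻ t in Icc 0 (min R (T n)), e n t ^ p) atTop (𝓝 0) := by
  have hsub : ∀ n, Icc 0 (min R (T n)) ⊆ Icc 0 R := fun n =>
    Icc_subset_Icc_right (min_le_left _ _)
  have h1 : Tendsto (fun n => ∫⁻ t, (Icc 0 (min R (T n))).indicator (fun t => e n t ^ p) t)
      atTop (𝓝 (∫⁻ _ : ℝ, 0)) := by
    refine tendsto_lintegral_of_dominated_convergence'
      (fun t => (Icc 0 R).indicator (fun _ => C ^ p) t) ?_ ?_ ?_ ?_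
    · intro n
      exact (aemeasurable_indicator_iff measurableSet_Icc).2 ((hm n).pow_const p)
    · intro n
      refine Eventually.of_forall fun t => ?_
      dsimp only
      by_cases ht : t ∈ Icc 0 (min R (T n))
      · rw [indicator_of_mem ht, indicator_of_mem (hsub n ht)]
        exact ENNReal.rpow_le_rpow (hb n t ht) hp.le
      · rw [indicator_of_notMem ht]
        exact zero_le
    · rw [lintegral_indicator measurableSet_Icc, setLIntegral_const]
      refine ENNReal.mul_ne_top (ENNReal.rpow_ne_top_of_nonneg hp.le hC) ?_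
      rw [Real.volume_Icc]
      exact ENNReal.ofReal_ne_top
    · refine Eventually.of_forall fun t => ?_
      by_cases ht : t ∈ Icc 0 R
      · have h2 : Tendsto (fun n => h n t ^ p) atTop (𝓝 0) := by
          have h3 := ((ENNReal.continuous_rpow_const (y := p)).tendsto 0).comp (hh t ht)
          rw [ENNReal.zero_rpow_of_pos hp] at h3
          exact h3
        refine tendsto_of_tendsto_of_tendsto_of_le_of_le tendsto_const_nhds h2
          (fun n => zero_le) (fun n => ?_)
        dsimp only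
        by_cases ht' : t ∈ Icc 0 (min R (T n))
        · rw [indicator_of_mem ht']
          exact ENNReal.rpow_le_rpow (hle n t ht') hp.le
        · rw [indicator_of_notMem ht']
          exact zero_le
      · have h2 : ∀ n, (Icc 0 (min R (T n))).indicator (fun t => e n t ^ p) t = 0 := fun n =>
          indicator_of_notMem (fun h' => ht (hsub n h')) _
        simp only [h2]
        exact tendsto_const_nhds
  rw [lintegral_zero] at h1
  refine h1.congr fun n => ?_
  rw [lintegral_indicator measurableSet_Icc]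

theorem lyap (f : E → ℝ) (hf : AEStronglyMeasurable f volume) :
    eLpNorm f 15 volume ^ 3 ≤ (eLpNorm f 2 volume ^ (2 / 5 : ℝ)) ^ (5 / 18 : ℝ) *
      (eLpNorm f 20 volume ^ 4) ^ (13 / 18 : ℝ) := by
  have h2 : eLpNorm f 2 volume = (∫⁻ x, ‖f x‖ₑ ^ (2 : ℝ)) ^ (1 / 2 : ℝ) := by
    rw [eLpNorm_eq_lintegral_rpow_enorm_toReal (by norm_num) (by norm_num)]
    norm_num
  have h15 : eLpNorm f 15 volume = (∫⁻ x, ‖f x‖ₑ ^ (15 : ℝ)) ^ (1 / 15 : ℝ) := by
    rw [eLpNorm_eq_lintegral_rpow_enorm_toReal (by norm_num) (by norm_num)]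
    norm_num
  have h20 : eLpNorm f 20 volume = (∫⁻ x, ‖f x‖ₑ ^ (20 : ℝ)) ^ (1 / 20 : ℝ) := by
    rw [eLpNorm_eq_lintegral_rpow_enorm_toReal (by norm_num) (by norm_num)]
    norm_num
  have hH : ∫⁻ x, ‖f x‖ₑ ^ (15 : ℝ) ≤ (∫⁻ x, ‖f x‖ₑ ^ (2 : ℝ)) ^ (5 / 18 : ℝ) *
      (∫⁻ x, ‖f x‖ₑ ^ (20 : ℝ)) ^ (13 / 18 : ℝ) := by
    refine le_trans (le_of_eq ?_) (ENNReal.lintegral_mul_norm_pow_le
      (f := fun x => ‖f x‖ₑ ^ (2 : ℝ)) (g := fun x => ‖f x‖ₑ ^ (20 : ℝ))
      (hf.enorm.pow_const _) (hf.enorm.pow_const _) (p := 5 / 18) (q := 13 / 18)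
      (by norm_num) (by norm_num) (by norm_num))
    refine lintegral_congr fun x => ?_
    rw [← ENNReal.rpow_mul, ← ENNReal.rpow_mul, ← ENNReal.rpow_add_of_nonneg _ _ (by norm_num)
      (by norm_num)]
    norm_num
  rw [h2, h15, h20]
  have e3 : ∀ z : ℝ≥0∞, z ^ 3 = z ^ (3 : ℝ) := fun z => by
    rw [← ENNReal.rpow_natCast]; norm_num
  have e4 : ∀ z : ℝ≥0∞, z ^ 4 = z ^ (4 : ℝ) := fun z => by
    rw [← ENNReal.rpow_natCast]; norm_num
  rw [e3, e4, ← ENNReal.rpow_mul, ← ENNReal.rpow_mul, ← ENNReal.rpow_mul, ← ENNReal.rpow_mul,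
    ← ENNReal.rpow_mul]
  refine (ENNReal.rpow_le_rpow hH (by norm_num)).trans (le_of_eq ?_)
  rw [ENNReal.mul_rpow_of_nonneg _ _ (by norm_num), ← ENNReal.rpow_mul, ← ENNReal.rpow_mul]
  norm_num

/-- Hoelder on a ball -/
theorem hold (R : ℝ) (q : ℝ≥0∞) (hq : 2 ≤ q) (f : E → ℝ) (hf : AEStronglyMeasurable f volume) :
    eLpNorm ((Metric.ball (0 : E) R).indicator f) 2 volume ≤
      eLpNorm f q volume * volume (Metric.ball (0 : E) R) ^ (1 / (2 : ℝ) - 1 / q.toReal) := by
  have hBm : MeasurableSet (Metric.ball (0 : E) R) := Metric.isOpen_ball.measurableSet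
  rw [eLpNorm_indicator_eq_eLpNorm_restrict hBm]
  refine (eLpNorm_le_eLpNorm_mul_rpow_measure_univ hq hf.restrict).trans ?_
  rw [Measure.restrict_apply_univ, ENNReal.toReal_ofNat]
  gcongr
  exact Measure.restrict_le_self

/-- the ball has finite measure -/
theorem vol_ne (R : ℝ) (s : ℝ) (hs : 0 ≤ s) : volume (Metric.ball (0 : E) R) ^ s ≠ ⊤ :=
  ENNReal.rpow_ne_top_of_nonneg hs measure_ball_lt_top.ne

theorem two_le : (2 : ℝ≥0∞) ≤ 10 / 3 := by
  rw [ENNReal.le_div_iff_mul_le (Or.inl (by norm_num)) (Or.inl (by norm_num))]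
  norm_num

theorem toReal_103 : ((10 / 3 : ℝ≥0∞)).toReal = 10 / 3 := by
  rw [ENNReal.toReal_div]
  norm_num

/-- the local norm of the derivative is Lipschitz -/
theorem lip (hF : St_Fld) (hL : St_Lin) (R : ℝ) (i : Fin 5) : ∃ D : ℝ≥0∞, D ≠ ⊤ ∧
    (∀ k : K, eLpNorm ((Metric.ball (0 : E) R).indicator (DU k i)) 2 volume ≤ D * ‖k‖ₑ) ∧
    ∀ k k' : K, eLpNorm ((Metric.ball (0 : E) R).indicator (DU k i)) 2 volume ≤
      eLpNorm ((Metric.ball (0 : E) R).indicator (DU k' i)) 2 volume + D * ‖k - k'‖ₑ := by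
  obtain ⟨C, hC, hFld⟩ := hF
  set D : ℝ≥0∞ := ENNReal.ofReal C *
    volume (Metric.ball (0 : E) R) ^ (1 / (2 : ℝ) - 1 / (10 / 3 : ℝ≥0∞).toReal) with hD
  have hBm : MeasurableSet (Metric.ball (0 : E) R) := Metric.isOpen_ball.measurableSet
  have hb : ∀ k : K, eLpNorm ((Metric.ball (0 : E) R).indicator (DU k i)) 2 volume ≤
      D * ‖k‖ₑ := by
    intro k
    have h1 := (hFld k).2.2.1 i
    refine (hold R (10 / 3) two_le (DU k i) h1.1.aestronglyMeasurable).trans ?_
    calc _ ≤ (ENNReal.ofReal C * ‖k‖ₑ) *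
          volume (Metric.ball (0 : E) R) ^ (1 / (2 : ℝ) - 1 / (10 / 3 : ℝ≥0∞).toReal) := by
          gcongr
          exact h1.2.2
      _ = _ := by rw [hD]; ring
  refine ⟨D, ?_, hb, ?_⟩
  · refine ENNReal.mul_ne_top ENNReal.ofReal_ne_top (vol_ne R _ ?_)
    rw [toReal_103]
    norm_num
  · intro k k'
    have h1 := (hL.1 1 k' (k - k')).2.2.1 i
    have h2 : k' + (1 : ℝ) • (k - k') = k := by rw [one_smul]; abel
    rw [h2] at h1
    have h3 : (Metric.ball (0 : E) R).indicator (DU k i) =ᵐ[volume]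
        (Metric.ball (0 : E) R).indicator (DU k' i) +
          (Metric.ball (0 : E) R).indicator (DU (k - k') i) := by
      filter_upwards [h1] with x hx
      rw [Pi.add_apply]
      by_cases hxB : x ∈ Metric.ball (0 : E) R
      · rw [indicator_of_mem hxB, indicator_of_mem hxB, indicator_of_mem hxB, hx, one_mul]
      · rw [indicator_of_notMem hxB, indicator_of_notMem hxB, indicator_of_notMem hxB, add_zero]
    rw [eLpNorm_congr_ae h3]
    refine (eLpNorm_add_le
      (((hFld k').2.2.1 i).1.aestronglyMeasurable.indicator hBm)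
      (((hFld (k - k')).2.2.1 i).1.aestronglyMeasurable.indicator hBm) (by norm_num)).trans ?_
    gcongr
    exact hb _

theorem meas_DU (hF : St_Fld) (hL : St_Lin) (R : ℝ) (i : Fin 5) {J : Set ℝ}
    (hJ : MeasurableSet J) {k : ℝ → K} (hk : ContinuousOn k J) :
    AEMeasurable (fun t => eLpNorm ((Metric.ball (0 : E) R).indicator (DU (k t) i)) 2 volume)
      (volume.restrict J) := by
  obtain ⟨D, hD, hb, hl⟩ := lip hF hL R i
  have hfin : ∀ k : K, eLpNorm ((Metric.ball (0 : E) R).indicator (DU k i)) 2 volume ≠ ⊤ := by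
    intro k
    exact ne_top_of_le_ne_top (ENNReal.mul_ne_top hD enorm_ne_top) (hb k)
  set φ : K → ℝ := fun k =>
    (eLpNorm ((Metric.ball (0 : E) R).indicator (DU k i)) 2 volume).toReal with hφ
  have hle : ∀ k k' : K, φ k ≤ φ k' + D.toReal * ‖k - k'‖ := by
    intro k k'
    have h1 := ENNReal.toReal_mono (ENNReal.add_ne_top.2
      ⟨hfin k', ENNReal.mul_ne_top hD enorm_ne_top⟩) (hl k k')
    rw [ENNReal.toReal_add (hfin k') (ENNReal.mul_ne_top hD enorm_ne_top),
      ENNReal.toReal_mul, toReal_enorm] at h1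
    exact h1
  have hcont : Continuous φ := by
    refine LipschitzWith.continuous (K := D.toNNReal) (LipschitzWith.of_dist_le_mul ?_)
    intro k k'
    rw [Real.dist_eq, dist_eq_norm]
    change |φ k - φ k'| ≤ D.toReal * ‖k - k'‖
    rw [abs_le]
    have h1 := hle k k'
    have h2 := hle k' k
    rw [norm_sub_rev] at h2
    constructor <;> linarith
  have h1 : (fun t => eLpNorm ((Metric.ball (0 : E) R).indicator (DU (k t) i)) 2 volume) =
      fun t => ENNReal.ofReal (φ (k t)) := by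
    funext t
    rw [hφ]
    exact (ENNReal.ofReal_toReal (hfin (k t))).symm
  rw [h1]
  exact ((hcont.comp_continuousOn hk).aemeasurable hJ).ennreal_ofReal

end G9x

open G9x in
/-- **G9** -/
theorem thm_G9 (h5 : St_G5) (h4 : St_G4) (hM : St_Meas) (hF : St_Fld) (hL : St_Lin) : St_G9 := by
  intro A M T β R hβ hR
  have hβ1 := hβ.1
  have hweak := h5 A M T β hβ
  obtain ⟨C, hC, hFld⟩ := id hF
  have hBm : MeasurableSet (Metric.ball (0 : E) R) := Metric.isOpen_ball.measurableSet
  have hsub : ∀ n, Icc 0 (min R (T n)) ⊆ Icc 0 (T n) := fun n =>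
    Icc_subset_Icc_right (min_le_right _ _)
  have hcont : ∀ n, ContinuousOn (β n) (Icc 0 (min R (T n))) := fun n =>
    ((hβ1 n).2.1.2.1).mono (hsub n)
  have hnorm : ∀ n, ∀ t ∈ Icc 0 (min R (T n)), ‖β n t‖ₑ ≤ ENNReal.ofReal A := by
    intro n t ht
    rw [← ofReal_norm]
    exact ENNReal.ofReal_le_ofReal ((hβ1 n).2.2.1 t (hsub n ht))
  have hasm : ∀ n, AEStronglyMeasurable (β n) (volume.restrict (Icc 0 (min R (T n)))) :=
    fun n => (hcont n).aestronglyMeasurable measurableSet_Icc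
  have hmeas := fun n => (hM (β n) (Icc 0 (min R (T n))) measurableSet_Icc (hasm n)).1
  have hif : ∀ n, ∀ t ∈ Icc 0 (min R (T n)), (if t ≤ T n then β n t else 0) = β n t := by
    intro n t ht
    rw [if_pos (ht.2.trans (min_le_right _ _))]
  constructor
  · -- first claim
    set e2 : ℕ → ℝ → ℝ≥0∞ := fun n t =>
      eLpNorm ((Metric.ball (0 : E) R).indicator (U (β n t))) 2 volume with he2
    have hd : Tendsto (fun n => ∫⁻ t in Icc 0 (min R (T n)), e2 n t ^ (2 / 5 : ℝ)) atTop
        (𝓝 0) := by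
      refine dct e2 (fun n t => eLpNorm ((Metric.ball (0 : E) R).indicator
        (U (if t ≤ T n then β n t else 0))) 2 volume)
        (ENNReal.ofReal C * ENNReal.ofReal A *
          volume (Metric.ball (0 : E) R) ^ (1 / (2 : ℝ) - 1 / (10 : ℝ≥0∞).toReal))
        ?_ (2 / 5) (by norm_num) ?_ ?_ ?_ ?_
      · refine ENNReal.mul_ne_top (ENNReal.mul_ne_top ENNReal.ofReal_ne_top
          ENNReal.ofReal_ne_top) (vol_ne R _ ?_)
        norm_num
      · intro n
        exact hmeas n 2 _ (by norm_num) hBm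
      · intro n t ht
        have h1 := (hFld (β n t)).1
        refine (hold R 10 (by norm_num) _ h1.1.aestronglyMeasurable).trans ?_
        gcongr
        refine h1.2.trans ?_
        gcongr
        exact hnorm n t ht
      · intro n t ht
        rw [hif n t ht]
      · intro t ht
        exact (h4 _ R (hweak t ht.1)).1
    have hlim : Tendsto (fun n => (∫⁻ t in Icc 0 (min R (T n)), e2 n t ^ (2 / 5 : ℝ)) ^
        (5 / 18 : ℝ) * ENNReal.ofReal M ^ (13 / 18 : ℝ)) atTop (𝓝 0) := by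
      have h1 := ((ENNReal.continuous_rpow_const (y := (5 / 18 : ℝ))).tendsto 0).comp hd
      rw [ENNReal.zero_rpow_of_pos (by norm_num)] at h1
      have h2 := ENNReal.Tendsto.mul_const (b := ENNReal.ofReal M ^ (13 / 18 : ℝ)) h1
        (Or.inr (ENNReal.rpow_ne_top_of_nonneg (by norm_num) ENNReal.ofReal_ne_top))
      rw [zero_mul] at h2
      exact h2
    refine tendsto_of_tendsto_of_tendsto_of_le_of_le tendsto_const_nhds hlim
      (fun n => zero_le) (fun n => ?_)
    dsimp only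
    have hsn : AEMeasurable (fun t => sn (β n t) ^ 4)
        (volume.restrict (Icc 0 (min R (T n)))) := by
      have h1 := hmeas n 20 univ (by norm_num) MeasurableSet.univ
      simp only [indicator_univ] at h1
      exact h1.pow_const 4
    have he2m : AEMeasurable (fun t => e2 n t ^ (2 / 5 : ℝ))
        (volume.restrict (Icc 0 (min R (T n)))) :=
      (hmeas n 2 _ (by norm_num) hBm).pow_const _
    calc ∫⁻ t in Icc 0 (min R (T n)),
          eLpNorm ((Metric.ball (0 : E) R).indicator (U (β n t))) 15 volume ^ 3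
        ≤ ∫⁻ t in Icc 0 (min R (T n)), (e2 n t ^ (2 / 5 : ℝ)) ^ (5 / 18 : ℝ) *
            (sn (β n t) ^ 4) ^ (13 / 18 : ℝ) := by
          refine lintegral_mono fun t => ?_
          refine (lyap _ ((hFld (β n t)).1.1.aestronglyMeasurable.indicator hBm)).trans ?_
          gcongr
          exact eLpNorm_indicator_le _
      _ ≤ (∫⁻ t in Icc 0 (min R (T n)), e2 n t ^ (2 / 5 : ℝ)) ^ (5 / 18 : ℝ) *
            (∫⁻ t in Icc 0 (min R (T n)), sn (β n t) ^ 4) ^ (13 / 18 : ℝ) :=
          ENNReal.lintegral_mul_norm_pow_le he2m hsn (by norm_num) (by norm_num) (by norm_num)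
      _ ≤ _ := by
          gcongr
          refine (lintegral_mono_set (hsub n)).trans ?_
          exact (hβ1 n).2.2.2
  · intro i
    obtain ⟨D, hD, hb, _⟩ := lip hF hL R i
    have hd := dct (R := R) (T := T) (fun n t =>
      eLpNorm ((Metric.ball (0 : E) R).indicator (DU (β n t) i)) 2 volume)
      (fun n t => eLpNorm ((Metric.ball (0 : E) R).indicator
        (DU (if t ≤ T n then β n t else 0) i)) 2 volume)
      (D * ENNReal.ofReal A) (ENNReal.mul_ne_top hD ENNReal.ofReal_ne_top) 2 (by norm_num)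
      (fun n => meas_DU hF hL R i measurableSet_Icc (hcont n))
      (by
        intro n t ht
        refine (hb (β n t)).trans ?_
        gcongr
        exact hnorm n t ht)
      (by
        intro n t ht
        rw [hif n t ht])
      (by
        intro t ht
        exact (h4 _ R (hweak t ht.1)).2 i)
    refine hd.congr fun n => ?_
    refine lintegral_congr fun t => ?_
    rw [← ENNReal.rpow_natCast]
    norm_num

end Pool.Agent.QWE
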