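import Pool.Agent.QWE.StC

set_option autoImplicit false

/-!
# QWE, module GBd
-/

open MeasureTheory Filter Topology Set
open scoped ENNReal NNReal RealInnerProductSpace

namespace Pool.Agent.QWE

namespace GBdx

lemma sub_unbdd (b : ℕ → ℝ) (h : ¬ ∃ B, ∀ n, b n ≤ B) :
    ∃ φ : ℕ → ℕ, Tendsto φ atTop atTop ∧ Tendsto (fun n => b (φ n)) atTop atTop := by
  have h1 : ∀ N : ℕ, ∃ n, N ≤ n ∧ (N : ℝ) ≤ b n := by
    by_contra hcon
    push Not at hcon
    obtain ⟨N, hN⟩ := hcon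
    apply h
    refine ⟨(N : ℝ) + ∑ i ∈ Finset.range N, |b i|, fun n => ?_⟩
    by_cases hn : N ≤ n
    · have h2 := hN n hn
      have h3 : 0 ≤ ∑ i ∈ Finset.range N, |b i| := Finset.sum_nonneg fun i _ => abs_nonneg _
      linarith
    · have h2 : |b n| ≤ ∑ i ∈ Finset.range N, |b i| :=
        Finset.single_le_sum (f := fun i => |b i|) (fun i _ => abs_nonneg _)
          (Finset.mem_range.mpr (by omega))
      have h3 := le_abs_self (b n)
      have h4 : (0 : ℝ) ≤ N := Nat.cast_nonneg N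
      linarith
  choose φ hφ using h1
  exact ⟨φ, tendsto_atTop_mono (fun N => (hφ N).1) tendsto_id,
    tendsto_atTop_mono (fun N => (hφ N).2) tendsto_natCast_atTop_atTop⟩

lemma wto_unique {k : ℕ → K} {κ κ' : K} (h1 : WTo k κ) (h2 : WTo k κ') : κ = κ' := by
  have h3 : (inner ℝ (κ - κ') (κ - κ') : ℝ) = 0 := by
    have h4 := tendsto_nhds_unique (h1 (κ - κ')) (h2 (κ - κ'))
    rw [inner_sub_left, h4, sub_self]
  exact sub_eq_zero.mp (inner_self_eq_zero.mp h3)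

end GBdx

open GBdx

theorem thm_GBd (h : St_G0) : St_GBd := by
  intro Q k y a κ hQ hk hw hκ
  have key : ∀ φ : ℕ → ℕ, Tendsto φ atTop atTop →
      ¬ (Tendsto (fun n => a (φ n)) atTop atTop ∨ Tendsto (fun n => a (φ n)) atTop atBot ∨
      ((∃ B, ∀ n, |a (φ n)| ≤ B) ∧ Tendsto (fun n => ‖y (φ n)‖) atTop atTop)) := by
    intro φ hφ hcon
    have h1 := h Q (fun n => k (φ n)) (fun n => y (φ n)) (fun n => a (φ n)) hQ (fun n => hk _) hcon
    have h2 : WTo (fun n => gr (y (φ n)) (a (φ n)) (k (φ n))) κ := fun w => (hw w).comp hφ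
    exact hκ (wto_unique h2 h1)
  have ha : ∃ B, ∀ n, a n ≤ B := by
    by_contra hcon
    obtain ⟨φ, h1, h2⟩ := sub_unbdd a hcon
    exact key φ h1 (Or.inl h2)
  have hb : ∃ B, ∀ n, -a n ≤ B := by
    by_contra hcon
    obtain ⟨φ, h1, h2⟩ := sub_unbdd (fun n => -a n) hcon
    refine key φ h1 (Or.inr (Or.inl ?_))
    have h3 := tendsto_neg_atTop_atBot.comp h2
    refine h3.congr fun n => ?_
    simp
  obtain ⟨B1, hB1⟩ := ha
  obtain ⟨B2, hB2⟩ := hb
  have hab : ∀ n, |a n| ≤ max B1 B2 := fun n =>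
    abs_le'.mpr ⟨(hB1 n).trans (le_max_left _ _), (hB2 n).trans (le_max_right _ _)⟩
  have hy : ∃ B, ∀ n, ‖y n‖ ≤ B := by
    by_contra hcon
    obtain ⟨φ, h1, h2⟩ := sub_unbdd (fun n => ‖y n‖) hcon
    exact key φ h1 (Or.inr (Or.inr ⟨⟨_, fun n => hab _⟩, h2⟩))
  obtain ⟨B3, hB3⟩ := hy
  exact ⟨max (max B1 B2) B3, fun n => ⟨(hab n).trans (le_max_left _ _),
    (hB3 n).trans (le_max_right _ _)⟩⟩

end Pool.Agent.QWE
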