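import Pool.Agent.QWE.StB

set_option autoImplicit false

/-!
# QWE, GStab: stability on a half line
-/

open MeasureTheory Filter Topology Set
open scoped ENNReal NNReal RealInnerProductSpace Pointwise

namespace Pool.Agent.QWE

namespace GStabx

/-- `SN` depends only on the values on the set. -/
lemma SN_congr {J : Set ℝ} (hJ : MeasurableSet J) {k k' : ℝ → K} (h : ∀ t ∈ J, k t = k' t) :
    SN J k = SN J k' := by
  unfold SN
  exact setLIntegral_congr_fun hJ fun t ht => by simp only [h t ht]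

lemma SN_mono {J J' : Set ℝ} (h : J ⊆ J') (k : ℝ → K) : SN J k ≤ SN J' k :=
  lintegral_mono_set h

/-- Solutions on `[0,T]` for all `T` with the same initial value define a solution on `[0,∞)`. -/
lemma patch (hU : St_Uniq) (x0 : K) (R : ℝ → (ℝ → K) → Prop)
    (h : ∀ T : ℝ, 0 ≤ T → ∃ f : ℝ → K, IsSol (Icc 0 T) f ∧ f 0 = x0 ∧ R T f) :
    ∃ κ : ℝ → K, IsSol (Ici 0) κ ∧ κ 0 = x0 ∧ ∀ T : ℝ, 0 ≤ T → ∃ f : ℝ → K, R T f ∧
      ∀ t ∈ Icc 0 T, κ t = f t := by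
  choose! f hf using h
  have key : ∀ T : ℝ, 0 ≤ T → ∀ t ∈ Icc 0 T, f (|t| + 1) t = f T t := by
    intro T hT t ht
    have h1 : (0 : ℝ) ≤ |t| + 1 := by positivity
    refine hU (Icc 0 (|t| + 1)) (Icc 0 T) (f (|t| + 1)) (f T) 0 (hf _ h1).1 (hf T hT).1
      ⟨le_rfl, h1⟩ ⟨le_rfl, hT⟩ ((hf _ h1).2.1.trans (hf T hT).2.1.symm) t ?_ ht
    exact ⟨ht.1, by linarith [le_abs_self t]⟩
  refine ⟨fun t => f (|t| + 1) t, ⟨ordConnected_Ici, ?_, ?_, ?_⟩, ?_, ?_⟩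
  · intro t ht
    have ht0 : (0 : ℝ) ≤ t := ht
    have hT : (0 : ℝ) ≤ t + 1 := by linarith
    have hmem : Icc (0 : ℝ) (t + 1) ∈ 𝓝[Ici 0] t := by
      have h1 : Icc (0 : ℝ) (t + 1) = Ici 0 ∩ Iic (t + 1) := by ext x; simp
      rw [h1]
      exact inter_mem_nhdsWithin _ (Iic_mem_nhds (by linarith))
    have hc : ContinuousWithinAt (f (t + 1)) (Icc 0 (t + 1)) t :=
      (hf _ hT).1.2.1 t ⟨ht0, by linarith⟩
    refine (hc.mono_of_mem_nhdsWithin hmem).congr_of_eventuallyEq ?_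
      (key _ hT t ⟨ht0, by linarith⟩)
    filter_upwards [hmem] with s hs
    exact key _ hT s hs
  · intro a ha b hb
    have ha0 : (0 : ℝ) ≤ a := ha
    have hb0 : (0 : ℝ) ≤ b := hb
    have hT : 0 ≤ max a b := le_max_of_le_left ha0
    have h1 := (hf _ hT).1.2.2.1 a ⟨ha0, le_max_left _ _⟩ b ⟨hb0, le_max_right _ _⟩
    refine lt_of_eq_of_lt (SN_congr measurableSet_Icc fun t ht => ?_) h1
    exact key _ hT t ⟨ha0.trans ht.1, ht.2.trans (le_max_right _ _)⟩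
  · intro s hs t ht
    have hs0 : (0 : ℝ) ≤ s := hs
    have ht0 : (0 : ℝ) ≤ t := ht
    have hT : 0 ≤ max s t := le_max_of_le_left hs0
    have h1 := (hf _ hT).1.2.2.2 s ⟨hs0, le_max_left _ _⟩ t ⟨ht0, le_max_right _ _⟩
    have e1 := key _ hT s ⟨hs0, le_max_left _ _⟩
    have e2 := key _ hT t ⟨ht0, le_max_right _ _⟩
    have e3 : ∫ r in s..t, tau (t - r) (NL (f (|r| + 1) r)) =
        ∫ r in s..t, tau (t - r) (NL (f (max s t) r)) := by
      refine intervalIntegral.integral_congr fun r hr => ?_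
      have hr' : r ∈ Icc 0 (max s t) := by
        rw [uIcc, mem_Icc] at hr
        exact ⟨(le_min hs0 ht0).trans hr.1, hr.2⟩
      simp only [key _ hT r hr']
    simp only [e1, e2, e3]
    exact h1
  · have h1 := key 0 le_rfl 0 ⟨le_rfl, le_rfl⟩
    simp only [h1]
    exact (hf 0 le_rfl).2.1
  · intro T hT
    exact ⟨f T, (hf T hT).2.2, key T hT⟩

lemma pow_quarter (x : ℝ≥0∞) : (x ^ (1 / 4 : ℝ)) ^ 4 = x := by
  rw [← ENNReal.rpow_natCast, ← ENNReal.rpow_mul]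
  norm_num

lemma pow_quarter' (x : ℝ≥0∞) : (x ^ 4) ^ (1 / 4 : ℝ) = x := by
  rw [← ENNReal.rpow_natCast, ← ENNReal.rpow_mul]
  norm_num

lemma SN_Ici (k : ℝ → K) : SN (Ici 0) k = ⨆ n : ℕ, SN (Icc 0 (n : ℝ)) k := by
  have h1 : Ici (0 : ℝ) = ⋃ n : ℕ, Icc 0 (n : ℝ) := by
    ext x
    simp only [mem_Ici, mem_iUnion, mem_Icc]
    refine ⟨fun hx => ?_, fun ⟨n, hn⟩ => hn.1⟩
    obtain ⟨n, hn⟩ := exists_nat_ge x
    exact ⟨n, hx, hn⟩
  rw [h1]
  unfold SN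
  refine setLIntegral_iUnion_of_directed _ (directed_of_isDirected_le fun i j hij => ?_)
  exact Icc_subset_Icc_right (by exact_mod_cast hij)

end GStabx

open GStabx in
theorem thm_GStab (hS : St_SNt) (hU : St_Uniq) (hG : St_Gron) (hP : St_Pert) : St_GStab := by
  intro k k0 hk hSN hlim
  obtain ⟨Cg, hCg, hg⟩ := hG
  obtain ⟨A, hA⟩ : ∃ A, A = ‖k 0‖ * Real.exp (Cg * (SN (Ici 0) k).toReal) + 1 := ⟨_, rfl⟩
  have hA0 : 0 < A := by rw [hA]; positivity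
  have hkA : ∀ t ∈ Ici (0 : ℝ), ‖k t‖ ≤ A := by
    intro t ht
    have h1 := hg (Ici 0) k hk hSN 0 (mem_Ici.2 le_rfl) t ht
    rw [hA]; linarith
  obtain ⟨M, hM⟩ : ∃ M, M = (SN (Ici 0) k).toReal + 1 := ⟨_, rfl⟩
  have hM0 : 0 < M := by rw [hM]; positivity
  have hkM : ∀ T : ℝ, SN (Icc 0 T) k ≤ ENNReal.ofReal M := by
    intro T
    refine (SN_mono Icc_subset_Ici_self k).trans ?_
    rw [← ENNReal.ofReal_toReal hSN.ne]
    exact ENNReal.ofReal_le_ofReal (by rw [hM]; linarith)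
  obtain ⟨e1, C, he1, hC, hpert⟩ := hP A M hA0 hM0
  obtain ⟨a, ha⟩ : ∃ a : ℝ≥0∞, a = (SN (Ici 0) k) ^ (1 / 4 : ℝ) := ⟨_, rfl⟩
  have ha4 : a ^ 4 = SN (Ici 0) k := by rw [ha]; exact pow_quarter _
  have hε : Tendsto (fun n => ‖k0 n - k 0‖) atTop (𝓝 0) := by
    rw [← tendsto_iff_norm_sub_tendsto_zero]; exact hlim
  -- the bound for the Strichartz norm
  have hbd : ∀ᶠ n in atTop, (a + ENNReal.ofReal (C * ‖k0 n - k 0‖)) ^ 4 ≤ a ^ 4 + 1 := by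
    have h1 : Tendsto (fun n => (a + ENNReal.ofReal (C * ‖k0 n - k 0‖)) ^ 4) atTop
        (𝓝 ((a + ENNReal.ofReal (C * 0)) ^ 4)) := by
      have h2 : Continuous fun x : ℝ => (a + ENNReal.ofReal (C * x)) ^ 4 := by
        have h3 : Continuous fun x : ℝ => a + ENNReal.ofReal (C * x) :=
          (continuous_add_left a).comp (ENNReal.continuous_ofReal.comp (by fun_prop))
        exact (ENNReal.continuous_pow 4).comp h3
      exact (h2.tendsto 0).comp hε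
    have h4 : (a + ENNReal.ofReal (C * 0)) ^ 4 < a ^ 4 + 1 := by
      rw [mul_zero, ENNReal.ofReal_zero, add_zero, ha4]
      exact ENNReal.lt_add_right hSN.ne one_ne_zero
    exact (h1.eventually_lt_const h4).mono fun n hn => hn.le
  have hε1 : ∀ᶠ n in atTop, ‖k0 n - k 0‖ ≤ e1 :=
    (hε.eventually_lt_const he1).mono fun n hn => hn.le
  have hex : ∀ n, ∃ κ : ℝ → K, (a + ENNReal.ofReal (C * ‖k0 n - k 0‖)) ^ 4 ≤ a ^ 4 + 1 →
      ‖k0 n - k 0‖ ≤ e1 → IsSol (Ici 0) κ ∧ κ 0 = k0 n ∧ SN (Ici 0) κ ≤ SN (Ici 0) k + 1 := by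
    intro n
    by_cases h1 : ‖k0 n - k 0‖ ≤ e1
    swap
    · exact ⟨0, fun _ h => absurd h h1⟩
    have h2 : ∀ T : ℝ, 0 ≤ T → ∃ f : ℝ → K, IsSol (Icc 0 T) f ∧ f 0 = k0 n ∧
        SN (Icc 0 T) (fun t => f t - k t) ≤ ENNReal.ofReal (C * ‖k0 n - k 0‖) ^ 4 := by
      intro T hT
      obtain ⟨f, f1, f2, _, f4⟩ := hpert T ‖k0 n - k 0‖ k (fun _ => 0) (k0 n) hT (norm_nonneg _) h1
        (hk.2.1.mono Icc_subset_Ici_self) (fun t ht => hkA t ht.1) (hkM T)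
        (integrableOn_zero) (by simp) (fun t ht => by
          have h3 := hk.2.2.2 0 (mem_Ici.2 le_rfl) t ht.1
          simpa only [sub_zero] using h3) le_rfl
      exact ⟨f, f1, f2, f4⟩
    obtain ⟨κ, κ1, κ2, κ3⟩ := patch hU (k0 n)
      (fun T f => SN (Icc 0 T) (fun t => f t - k t) ≤ ENNReal.ofReal (C * ‖k0 n - k 0‖) ^ 4) h2
    refine ⟨κ, fun hb _ => ⟨κ1, κ2, ?_⟩⟩
    rw [SN_Ici κ]
    refine iSup_le fun m => ?_
    have hm : (0 : ℝ) ≤ m := Nat.cast_nonneg m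
    obtain ⟨f, f1, f2⟩ := κ3 m hm
    have hJ : MeasurableSet (Icc (0 : ℝ) m) := measurableSet_Icc
    have hkc : ContinuousOn k (Icc 0 (m : ℝ)) := hk.2.1.mono Icc_subset_Ici_self
    have hκc : ContinuousOn κ (Icc 0 (m : ℝ)) := κ1.2.1.mono Icc_subset_Ici_self
    have h3 := (hS k (fun t => κ t - k t) (Icc 0 (m : ℝ)) hJ (hkc.aestronglyMeasurable hJ)
      ((hκc.sub hkc).aestronglyMeasurable hJ)).1
    have h4 : SN (Icc 0 (m : ℝ)) (fun t => k t + (κ t - k t)) = SN (Icc 0 (m : ℝ)) κ :=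
      SN_congr hJ fun t _ => by abel
    have h5 : SN (Icc 0 (m : ℝ)) (fun t => κ t - k t) ≤
        ENNReal.ofReal (C * ‖k0 n - k 0‖) ^ 4 := by
      refine le_trans (le_of_eq (SN_congr hJ fun t ht => ?_)) f1
      rw [f2 t ht]
    rw [h4] at h3
    have h6 : SN (Icc 0 (m : ℝ)) κ ^ (1 / 4 : ℝ) ≤ a + ENNReal.ofReal (C * ‖k0 n - k 0‖) := by
      refine h3.trans (add_le_add ?_ ?_)
      · rw [ha]
        exact ENNReal.rpow_le_rpow (SN_mono Icc_subset_Ici_self k) (by norm_num)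
      · rw [← pow_quarter' (ENNReal.ofReal (C * ‖k0 n - k 0‖))]
        exact ENNReal.rpow_le_rpow h5 (by norm_num)
    calc SN (Icc 0 (m : ℝ)) κ = (SN (Icc 0 (m : ℝ)) κ ^ (1 / 4 : ℝ)) ^ 4 := (pow_quarter _).symm
      _ ≤ (a + ENNReal.ofReal (C * ‖k0 n - k 0‖)) ^ 4 := pow_le_pow_left' h6 4
      _ ≤ a ^ 4 + 1 := hb
      _ = SN (Ici 0) k + 1 := by rw [ha4]
  choose kn hkn using hex
  refine ⟨kn, ?_⟩
  filter_upwards [hbd, hε1] with n h1 h2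
  exact hkn n h1 h2

end Pool.Agent.QWE
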