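import Pool.Agent.QWE.Uniq

set_option autoImplicit false

/-!
# QWE, Glue: gluing of solutions
-/

open MeasureTheory Filter Topology Set
open scoped ENNReal NNReal RealInnerProductSpace

namespace Pool.Agent.QWE

namespace Gluex

lemma ii_tau (hG : St_Grp1) {G : ℝ → K} {x y : ℝ}
    (h : IntervalIntegrable G volume x y) (t : ℝ) :
    IntervalIntegrable (fun r => tau (t - r) (G r)) volume x y := by
  rw [intervalIntegrable_iff] at h ⊢
  exact Uniqx.tau_int hG h t

/-- the Duhamel formula from `x` to `t` -/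
def D (k : ℝ → K) (x t : ℝ) : Prop :=
  k t = tau (t - x) (k x) - ∫ r in x..t, tau (t - r) (NL (k r))

lemma chain (hG : St_Grp1) {k : ℝ → K} {x m t : ℝ}
    (h1 : D k x m) (h2 : D k m t) (i1 : IntervalIntegrable (fun r => NL (k r)) volume x m)
    (i2 : IntervalIntegrable (fun r => NL (k r)) volume m t) : D k x t := by
  unfold D at *
  have e1 : tau (t - m) (∫ r in x..m, tau (m - r) (NL (k r))) =
      ∫ r in x..m, tau (t - r) (NL (k r)) := by
    have h := (tau (t - m)).toContinuousLinearMap.intervalIntegral_comp_comm (ii_tau hG i1 m)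
    change _ = (tau (t - m)).toContinuousLinearMap (∫ r in x..m, tau (m - r) (NL (k r))) at h
    have h' : (tau (t - m)).toContinuousLinearMap (∫ r in x..m, tau (m - r) (NL (k r))) =
        tau (t - m) (∫ r in x..m, tau (m - r) (NL (k r))) := rfl
    rw [← h', ← h]
    refine intervalIntegral.integral_congr fun r _ => ?_
    change tau (t - m) (tau (m - r) (NL (k r))) = tau (t - r) (NL (k r))
    rw [hG.1]
    congr 2
    ring
  have e2 : tau (t - m) (tau (m - x) (k x)) = tau (t - x) (k x) := by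
    rw [hG.1]
    congr 2
    ring
  rw [h2, h1, map_sub, e1, e2, sub_sub,
    intervalIntegral.integral_add_adjacent_intervals (ii_tau hG i1 t) (ii_tau hG i2 t)]

/-! ### integrability of the nonlinearity -/

lemma iiNL (hN : St_NLb) (hM : St_Meas) {I : Set ℝ} {k : ℝ → K}
    (hk : IsSol I k) {x y : ℝ} (hx : x ∈ I) (hy : y ∈ I) :
    IntervalIntegrable (fun r => NL (k r)) volume x y := by
  rw [intervalIntegrable_iff]
  have h1 : min x y ∈ I := by rcases min_choice x y with h | h <;> rw [h] <;> assumption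
  have h2 : max x y ∈ I := by rcases max_choice x y with h | h <;> rw [h] <;> assumption
  have c1 : ContinuousOn k (Icc (min x y) (max x y)) := hk.2.1.mono (hk.1.out h1 h2)
  obtain ⟨B, hB⟩ := isCompact_Icc.exists_bound_of_continuousOn c1
  exact (Uniqx.NL_int hN hM measurableSet_Icc (c1.aestronglyMeasurable measurableSet_Icc) hB
    (hk.2.2.1 _ h1 _ h2)).mono_set Ioc_subset_Icc_self

/-! ### intervals with a common point -/

lemma comp_up {I J : Set ℝ} (hI : I.OrdConnected) (hJ : J.OrdConnected) {t0 : ℝ}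
    (h1 : t0 ∈ I) (h2 : t0 ∈ J) : (I ∪ J) ∩ Ici t0 ⊆ I ∨ (I ∪ J) ∩ Ici t0 ⊆ J := by
  by_cases h : J ∩ Ici t0 ⊆ I
  · left
    rintro r ⟨h3 | h3, h4⟩
    · exact h3
    · exact h ⟨h3, h4⟩
  · right
    obtain ⟨j, ⟨hj1, hj2⟩, hj3⟩ := not_subset.1 h
    rintro r ⟨h3 | h3, h4⟩
    · have h5 : r < j := by
        by_contra h6
        exact hj3 (hI.out h1 h3 ⟨hj2, not_lt.1 h6⟩)
      exact hJ.out h2 hj1 ⟨h4, h5.le⟩
    · exact h3

lemma comp_dn {I J : Set ℝ} (hI : I.OrdConnected) (hJ : J.OrdConnected) {t0 : ℝ}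
    (h1 : t0 ∈ I) (h2 : t0 ∈ J) : (I ∪ J) ∩ Iic t0 ⊆ I ∨ (I ∪ J) ∩ Iic t0 ⊆ J := by
  by_cases h : J ∩ Iic t0 ⊆ I
  · left
    rintro r ⟨h3 | h3, h4⟩
    · exact h3
    · exact h ⟨h3, h4⟩
  · right
    obtain ⟨j, ⟨hj1, hj2⟩, hj3⟩ := not_subset.1 h
    rintro r ⟨h3 | h3, h4⟩
    · have h5 : j < r := by
        by_contra h6
        exact hj3 (hI.out h3 h1 ⟨not_lt.1 h6, hj2⟩)
      exact hJ.out hj1 h2 ⟨h5.le, h4⟩
    · exact h3

lemma ord_union {I J : Set ℝ} (hI : I.OrdConnected) (hJ : J.OrdConnected) {t0 : ℝ}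
    (h1 : t0 ∈ I) (h2 : t0 ∈ J) : (I ∪ J).OrdConnected := by
  rw [← isPreconnected_iff_ordConnected] at *
  exact IsPreconnected.union t0 h1 h2 hI hJ

end Gluex

open Gluex in
theorem thm_Glue (hG : St_Grp1) (hN : St_NLb) (hM : St_Meas) (hU : St_Uniq) :
    St_Glue := by
  intro I J k k' t0 hk hk' hI hJ h0
  classical
  have hag := hU I J k k' t0 hk hk' hI hJ h0
  let κ : ℝ → K := fun t => if t ∈ I then k t else k' t
  have e1 : ∀ t ∈ I, κ t = k t := fun t ht => if_pos ht
  have e2 : ∀ t ∈ J, κ t = k' t := by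
    intro t ht
    by_cases h : t ∈ I
    · rw [e1 t h]
      exact hag t h ht
    · exact if_neg h
  -- pieces
  have piece : ∀ (A : Set ℝ) (f : ℝ → K), IsSol A f → (∀ t ∈ A, κ t = f t) → ∀ x ∈ A, ∀ y ∈ A,
      D κ x y ∧ IntervalIntegrable (fun r => NL (κ r)) volume x y ∧
        SN (Icc x y) κ < ⊤ := by
    intro A f hf hA x hx y hy
    have hsub : ∀ r ∈ uIcc x y, κ r = f r := fun r hr => hA r (hf.1.uIcc_subset hx hy hr)
    refine ⟨?_, ?_, ?_⟩
    · have h1 := hf.2.2.2 x hx y hy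
      unfold D
      rw [hA y hy, hA x hx, h1]
      congr 1
      refine intervalIntegral.integral_congr fun r hr => ?_
      simp only [hsub r hr]
    · refine (iiNL hN hM hf hx hy).congr fun r hr => ?_
      simp only [hsub r (uIoc_subset_uIcc hr)]
    · have h1 := hf.2.2.1 x hx y hy
      refine lt_of_eq_of_lt ?_ h1
      unfold SN
      refine setLIntegral_congr_fun measurableSet_Icc fun r hr => ?_
      simp only [hsub r (Icc_subset_uIcc hr)]
  have toT : ∀ x ∈ I ∪ J, (D κ x t0 ∧ IntervalIntegrable (fun r => NL (κ r)) volume x t0 ∧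
      SN (Icc x t0) κ < ⊤) ∧ (D κ t0 x ∧
      IntervalIntegrable (fun r => NL (κ r)) volume t0 x ∧ SN (Icc t0 x) κ < ⊤) := by
    rintro x (hx | hx)
    · exact ⟨piece I k hk e1 x hx t0 hI, piece I k hk e1 t0 hI x hx⟩
    · exact ⟨piece J k' hk' e2 x hx t0 hJ, piece J k' hk' e2 t0 hJ x hx⟩
  have cI : ContinuousOn κ I := hk.2.1.congr e1
  have cJ : ContinuousOn κ J := hk'.2.1.congr e2
  have cu : ContinuousOn κ ((I ∪ J) ∩ Ici t0) := by
    rcases comp_up hk.1 hk'.1 hI hJ with h | h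
    · exact cI.mono h
    · exact cJ.mono h
  have cd : ContinuousOn κ ((I ∪ J) ∩ Iic t0) := by
    rcases comp_dn hk.1 hk'.1 hI hJ with h | h
    · exact cI.mono h
    · exact cJ.mono h
  refine ⟨κ, ⟨ord_union hk.1 hk'.1 hI hJ, ?_, ?_, ?_⟩, e1, e2⟩
  · intro t ht
    have hun : I ∪ J = ((I ∪ J) ∩ Ici t0) ∪ ((I ∪ J) ∩ Iic t0) := by
      rw [← inter_union_distrib_left, union_comm (Ici t0), Iic_union_Ici, inter_univ]
    rw [hun]
    refine ContinuousWithinAt.union ?_ ?_
    · by_cases h : t0 ≤ t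
      · exact cu t ⟨ht, h⟩
      · refine continuousWithinAt_of_notMem_closure fun h2 => h ?_
        have h3 : closure ((I ∪ J) ∩ Ici t0) ⊆ Ici t0 := isClosed_Ici.closure_subset_iff.2 inter_subset_right
        exact h3 h2
    · by_cases h : t ≤ t0
      · exact cd t ⟨ht, h⟩
      · refine continuousWithinAt_of_notMem_closure fun h2 => h ?_
        have h3 : closure ((I ∪ J) ∩ Iic t0) ⊆ Iic t0 := isClosed_Iic.closure_subset_iff.2 inter_subset_right
        exact h3 h2
  · intro x hx y hy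
    have hsub : Icc x y ⊆ Icc x t0 ∪ Icc t0 y := by
      intro r hr
      rcases le_total r t0 with h | h
      · exact Or.inl ⟨hr.1, h⟩
      · exact Or.inr ⟨h, hr.2⟩
    refine (lintegral_mono_set hsub).trans_lt ((lintegral_union_le _ _ _).trans_lt ?_)
    exact ENNReal.add_lt_top.2 ⟨(toT x hx).1.2.2, (toT y hy).2.2.2⟩
  · intro x hx y hy
    exact chain hG (toT x hx).1.1 (toT y hy).2.1 (toT x hx).1.2.1 (toT y hy).2.2.1

end Pool.Agent.QWE
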