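import Pool.Agent.QWE.StA
import Pool.Agent.QWE.StC

set_option autoImplicit false

/-!
# QWE, module GrA: the group of translations and dilations
-/

open MeasureTheory Filter Topology Set
open scoped ENNReal NNReal RealInnerProductSpace

namespace Pool.Agent.QWE

namespace GrAx

lemma cont_iso {P : Type} [TopologicalSpace P] (T : P → K →ₗᵢ[ℝ] K)
    (h : ∀ k, Continuous fun p => T p k) : Continuous fun z : K × P => T z.2 z.1 := by
  refine continuous_prod_of_continuous_lipschitzWith (fun z : K × P => T z.2 z.1) 1 (fun k => h k)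
    (fun p => ?_)
  exact (T p).isometry.lipschitz

lemma gr_def (y : E) (a : ℝ) (k : K) : gr y a k = sh y (dl a k) := rfl

lemma exp_smul (a : ℝ) (y : E) : Real.exp a • Real.exp (-a) • y = y := by
  rw [smul_smul, ← Real.exp_add, add_neg_cancel, Real.exp_zero, one_smul]

lemma exp_smul' (a : ℝ) (y : E) : Real.exp (-a) • Real.exp a • y = y := by
  rw [smul_smul, ← Real.exp_add, neg_add_cancel, Real.exp_zero, one_smul]

lemma dl_sh (h2 : St_Grp2) (a : ℝ) (y : E) (k : K) :
    dl a (sh y k) = sh (Real.exp (-a) • y) (dl a k) := by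
  rw [h2.2.2.2.2.1 a (Real.exp (-a) • y) k, exp_smul]

lemma ext_set (y x : E) (a R : ℝ) :
    {z : E | x + Real.exp (-a) • z ∈ ext y R} = ext (Real.exp a • (y - x)) (Real.exp a * R) := by
  ext z
  change R < dist (x + Real.exp (-a) • z) y ↔ Real.exp a * R < dist z (Real.exp a • (y - x))
  have h1 : dist z (Real.exp a • (y - x)) = Real.exp a * dist (x + Real.exp (-a) • z) y := by
    rw [dist_eq_norm, dist_eq_norm]
    have h3 : z - Real.exp a • (y - x) = Real.exp a • (x + Real.exp (-a) • z - y) := by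
      rw [smul_sub, smul_sub, smul_add, exp_smul]
      abel
    rw [h3, norm_smul, Real.norm_eq_abs, abs_of_pos (Real.exp_pos a)]
  rw [h1]
  exact (mul_lt_mul_iff_right₀ (Real.exp_pos a)).symm

lemma half_set (e x : E) (a c : ℝ) :
    {z : E | x + Real.exp (-a) • z ∈ half e c} = half e (Real.exp a * (c - inner ℝ x e)) := by
  ext z
  change c < inner ℝ (x + Real.exp (-a) • z) e ↔ Real.exp a * (c - inner ℝ x e) < inner ℝ z e
  rw [inner_add_left, real_inner_smul_left]
  have h1 : (inner ℝ z e : ℝ) = Real.exp a * (Real.exp (-a) * inner ℝ z e) := by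
    rw [← mul_assoc, ← Real.exp_add, add_neg_cancel, Real.exp_zero, one_mul]
  constructor
  · intro h
    rw [h1]
    exact mul_lt_mul_of_pos_left (by linarith) (Real.exp_pos a)
  · intro h
    rw [h1] at h
    have := lt_of_mul_lt_mul_left h (Real.exp_pos a).le
    linarith

end GrAx

open GrAx

theorem thm_GrA (h1 : St_Grp1) (h2 : St_Grp2) (h3 : St_Act) : St_GrA := by
  have hmul : ∀ (y y' : E) (a a' : ℝ) (k : K),
      gr y a (gr y' a' k) = gr (y + Real.exp (-a) • y') (a + a') k := by
    intro y y' a a' k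
    rw [gr_def, gr_def, gr_def, dl_sh h2, h1.2.2.1, h2.1]
  have hone : ∀ k : K, gr 0 0 k = k := by
    intro k
    rw [gr_def, h2.2.1, h1.2.2.2.1]
  refine ⟨hmul, hone, ?_, ?_, ?_, ?_, ?_, ?_, ?_, ?_⟩
  · intro y a k
    constructor
    · unfold ig
      rw [hmul, smul_neg, exp_smul', add_neg_cancel, add_neg_cancel, hone]
    · unfold ig
      rw [hmul, neg_neg, neg_add_cancel, neg_add_cancel, hone]
  · intro y a k
    constructor
    · rw [gr_def, (sh y).norm_map, (dl a).norm_map]
    · unfold ig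
      rw [gr_def, (sh _).norm_map, (dl _).norm_map]
  · intro y a c k k'
    rw [gr_def, gr_def, gr_def, map_add, map_add, map_smul, map_smul]
  · intro y a k k'
    unfold ig
    rw [gr_def, gr_def, h1.2.2.2.2.2.2.1, h2.2.2.2.2.2.2.2.2.1, dl_sh h2, neg_neg, smul_neg]
  · intro t y a k
    rw [gr_def, gr_def, h1.2.2.2.2.1, h2.2.2.2.1]
  · have hd := cont_iso dl h2.2.2.2.2.2.2.2.2.2
    have hs := cont_iso sh h1.2.2.2.2.2.2.2.2
    have e1 : (fun z : E × ℝ × K => gr z.1 z.2.1 z.2.2) =
        (fun z : K × E => sh z.2 z.1) ∘ (fun z : E × ℝ × K => (dl z.2.1 z.2.2, z.1)) := rfl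
    rw [e1]
    refine hs.comp (Continuous.prodMk ?_ continuous_fst)
    have e2 : (fun z : E × ℝ × K => dl z.2.1 z.2.2) =
        (fun z : K × ℝ => dl z.2 z.1) ∘ (fun z : E × ℝ × K => (z.2.2, z.2.1)) := rfl
    rw [e2]
    exact hd.comp (Continuous.prodMk (continuous_snd.comp continuous_snd)
      (continuous_fst.comp continuous_snd))
  · intro y R x a k
    rw [h3.2.2.2.1, ext_set]
  · intro e c x a k
    rw [h3.2.2.2.1, half_set]

end Pool.Agent.QWE
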