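import Pool.Agent.QWE.StB

/-!
# [Gron] a priori bound
-/

set_option autoImplicit false

open MeasureTheory Filter Topology Set
open scoped ENNReal NNReal RealInnerProductSpace Pointwise

namespace Pool.Agent.QWE

namespace Gronx

/-- A discrete form of the Gronwall lemma. -/
private theorem real_gron {f u : ℝ → ℝ} {a b C : ℝ} (hab : a ≤ b) (hC : 0 < C)
    (hf : ContinuousOn f (Icc a b)) (hu : ContinuousOn u (Icc a b))
    (humono : ∀ x ∈ Icc a b, ∀ y ∈ Icc a b, x ≤ y → u x ≤ u y)
    (hf0 : ∀ x ∈ Icc a b, 0 ≤ f x)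
    (hstep : ∀ x ∈ Icc a b, ∀ y ∈ Icc a b, x ≤ y → ∀ M, 0 ≤ M → (∀ z ∈ Icc x y, f z ≤ M) →
      f y ≤ f x + C * (u y - u x) * M) :
    f b ≤ f a * Real.exp (2 * C * (u b - u a)) := by
  have hexp : ∀ e : ℝ, 0 ≤ e → e ≤ 1 / 2 → 1 ≤ Real.exp (2 * e) * (1 - e) := by
    intro e h0 h1
    have h2 := Real.add_one_le_exp (2 * e)
    nlinarith
  have key : Icc a b ⊆ {x | f x ≤ f a * Real.exp (2 * C * (u x - u a))} := by
    refine IsClosed.Icc_subset_of_forall_exists_gt ?_ ?_ ?_
    · have hg : ContinuousOn (fun x => f a * Real.exp (2 * C * (u x - u a)) - f x) (Icc a b) := by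
        refine ContinuousOn.sub (ContinuousOn.mul continuousOn_const ?_) hf
        exact Real.continuous_exp.comp_continuousOn
          (continuousOn_const.mul (hu.sub continuousOn_const))
      have h1 := hg.preimage_isClosed_of_isClosed isClosed_Icc (isClosed_Ici (a := (0 : ℝ)))
      have h2 : {x | f x ≤ f a * Real.exp (2 * C * (u x - u a))} ∩ Icc a b =
          Icc a b ∩ (fun x => f a * Real.exp (2 * C * (u x - u a)) - f x) ⁻¹' Ici 0 := by
        ext x
        simp only [mem_inter_iff, Set.mem_ofPred_eq, mem_preimage, mem_Ici, sub_nonneg]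
        exact and_comm
      rw [h2]
      exact h1
    · simp
    · rintro x ⟨hx, hxab⟩ y hy
      have hxI : x ∈ Icc a b := ⟨hxab.1, hxab.2.le⟩
      -- a point close to `x`
      have hnear : ∀ᶠ z in 𝓝[Icc a b] x, u z < u x + 1 / (2 * C) := by
        have h1 := hu x hxI
        exact h1.eventually (gt_mem_nhds (by have : 0 < 1 / (2 * C) := by positivity
                                             linarith))
      rw [eventually_nhdsWithin_iff] at hnear
      obtain ⟨ε, hε, hball⟩ := Metric.eventually_nhds_iff.1 hnear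
      obtain ⟨z, hz⟩ : ∃ z, z = min (min y b) (x + ε / 2) := ⟨_, rfl⟩
      have hxz : x < z := by
        rw [hz]
        exact lt_min (lt_min hy hxab.2) (by linarith)
      have hzy : z ≤ y := by rw [hz]; exact (min_le_left _ _).trans (min_le_left _ _)
      have hzb : z ≤ b := by rw [hz]; exact (min_le_left _ _).trans (min_le_right _ _)
      have hzε : z ≤ x + ε / 2 := by rw [hz]; exact min_le_right _ _
      have hzI : z ∈ Icc a b := ⟨hxab.1.trans hxz.le, hzb⟩
      refine ⟨z, ?_, hxz, hzy⟩
      have huz : u z < u x + 1 / (2 * C) := by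
        refine hball ?_ hzI
        rw [Real.dist_eq, abs_of_pos (by linarith)]
        linarith
      have hsub : Icc x z ⊆ Icc a b := Icc_subset_Icc hxab.1 hzb
      obtain ⟨w, hw, hmax⟩ := isCompact_Icc.exists_isMaxOn ⟨x, left_mem_Icc.2 hxz.le⟩ (hf.mono hsub)
      have hM0 : 0 ≤ f w := hf0 w (hsub hw)
      have hwI := hsub hw
      have h1 := hstep x hxI w hwI hw.1 (f w) hM0 (fun v hv => hmax ⟨hv.1, hv.2.trans hw.2⟩)
      have h2 : u w ≤ u z := humono w hwI z hzI hw.2
      have h2' : u x ≤ u w := humono x hxI w hwI hw.1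
      obtain ⟨e, he⟩ : ∃ e : ℝ, e = C * (u z - u x) := ⟨_, rfl⟩
      have he0 : 0 ≤ e := by
        rw [he]
        exact mul_nonneg hC.le (by linarith)
      have he1 : e ≤ 1 / 2 := by
        rw [he]
        calc C * (u z - u x) ≤ C * (1 / (2 * C)) := by gcongr; linarith
          _ = 1 / 2 := by field_simp
      have h3 : f w ≤ f x + e * f w := by
        refine h1.trans ?_
        have : C * (u w - u x) ≤ e := by rw [he]; gcongr
        have := mul_le_mul_of_nonneg_right this hM0
        linarith
      have h4 : f w ≤ f x * Real.exp (2 * e) := by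
        have h5 := hexp e he0 he1
        have h6 : f w * (1 - e) ≤ f x := by linarith
        calc f w = f w * 1 := by ring
          _ ≤ f w * (Real.exp (2 * e) * (1 - e)) := mul_le_mul_of_nonneg_left h5 hM0
          _ = (f w * (1 - e)) * Real.exp (2 * e) := by ring
          _ ≤ f x * Real.exp (2 * e) := mul_le_mul_of_nonneg_right h6 (Real.exp_pos _).le
      show f z ≤ f a * Real.exp (2 * C * (u z - u a))
      have h7 : f z ≤ f w := hmax ⟨hxz.le, le_rfl⟩
      calc f z ≤ f x * Real.exp (2 * e) := h7.trans h4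
        _ ≤ (f a * Real.exp (2 * C * (u x - u a))) * Real.exp (2 * e) :=
            mul_le_mul_of_nonneg_right hx (Real.exp_pos _).le
        _ = f a * Real.exp (2 * C * (u z - u a)) := by
            rw [mul_assoc, ← Real.exp_add, he]
            congr 2
            ring
  exact key (right_mem_Icc.2 hab)

end Gronx

open Gronx in
theorem thm_Gron (hMeas : St_Meas) (hNLb : St_NLb) : St_Gron := by
  obtain ⟨⟨C0, hC0, hNL, -⟩, -⟩ := hNLb
  refine ⟨2 * C0, by positivity, ?_⟩
  intro I k hk hfin
  obtain ⟨hI, hcont, -, hduh⟩ := hk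
  -- the case of an interval `[a, b]`
  have main : ∀ a ∈ I, ∀ b ∈ I, a ≤ b →
      ‖k b‖ ≤ ‖k a‖ * Real.exp (2 * C0 * (SN I k).toReal) ∧
      ‖k a‖ ≤ ‖k b‖ * Real.exp (2 * C0 * (SN I k).toReal) := by
    intro a ha b hb hab
    have hsub : Icc a b ⊆ I := hI.out ha hb
    have hck : ContinuousOn k (Icc a b) := hcont.mono hsub
    have hSN : SN (Icc a b) k ≤ SN I k := lintegral_mono_set hsub
    have hSNf : SN (Icc a b) k < ⊤ := hSN.trans_lt hfin
    have hmk : AEStronglyMeasurable k (volume.restrict (Icc a b)) :=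
      hck.aestronglyMeasurable measurableSet_Icc
    have hmg : AEMeasurable (fun r => sn (k r) ^ 4) (volume.restrict (Icc a b)) := by
      have h1 := (hMeas k (Icc a b) measurableSet_Icc hmk).1 20 univ (by norm_num)
        MeasurableSet.univ
      simp only [indicator_univ] at h1
      exact h1.pow_const 4
    obtain ⟨g, hg⟩ : ∃ g : ℝ → ℝ, g = fun r => (sn (k r) ^ 4).toReal := ⟨_, rfl⟩
    have hgI : IntegrableOn g (Icc a b) volume := by
      rw [hg]
      exact integrable_toReal_of_lintegral_ne_top hmg hSNf.ne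
    have hglt : ∀ᵐ r ∂(volume.restrict (Icc a b)), sn (k r) ^ 4 < ⊤ :=
      ae_lt_top' hmg hSNf.ne
    obtain ⟨u, hu⟩ : ∃ u : ℝ → ℝ, u = fun y => ∫ r in a..y, g r := ⟨_, rfl⟩
    have huc : ContinuousOn u (Icc a b) := by
      rw [hu]
      have h1 := intervalIntegral.continuousOn_primitive_interval (μ := volume) (f := g)
        (a := a) (b := b) (by rw [uIcc_of_le hab]; exact hgI)
      rwa [uIcc_of_le hab] at h1
    have hint : ∀ x ∈ Icc a b, ∀ y ∈ Icc a b, IntervalIntegrable g volume x y := by
      intro x hx y hy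
      rw [intervalIntegrable_iff]
      refine hgI.mono_set ?_
      refine uIoc_subset_uIcc.trans ?_
      exact uIcc_subset_Icc hx hy
    have hudiff : ∀ x ∈ Icc a b, ∀ y ∈ Icc a b, u y - u x = ∫ r in x..y, g r := by
      intro x hx y hy
      have haI : a ∈ Icc a b := left_mem_Icc.2 hab
      rw [hu]
      exact intervalIntegral.integral_interval_sub_left (hint a haI y hy) (hint a haI x hx)
    have hg0 : ∀ r, 0 ≤ g r := by
      intro r
      rw [hg]
      exact ENNReal.toReal_nonneg
    have humono : ∀ x ∈ Icc a b, ∀ y ∈ Icc a b, x ≤ y → u x ≤ u y := by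
      intro x hx y hy hxy
      have h1 := hudiff x hx y hy
      have h2 : 0 ≤ ∫ r in x..y, g r := intervalIntegral.integral_nonneg hxy fun r _ => hg0 r
      linarith
    have huab : u b - u a ≤ (SN I k).toReal := by
      have haI : a ∈ Icc a b := left_mem_Icc.2 hab
      have hbI : b ∈ Icc a b := right_mem_Icc.2 hab
      rw [hudiff a haI b hbI, intervalIntegral.integral_of_le hab, ← integral_Icc_eq_integral_Ioc,
        hg, integral_toReal hmg hglt]
      exact ENNReal.toReal_mono hfin.ne hSN
    -- the increments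
    have hinc : ∀ x ∈ Icc a b, ∀ y ∈ Icc a b, x ≤ y → ∀ M, 0 ≤ M → (∀ z ∈ Icc x y, ‖k z‖ ≤ M) →
        ‖∫ r in x..y, tau (y - r) (NL (k r))‖ ≤ C0 * (u y - u x) * M := by
      intro x hx y hy hxy M hM hkM
      have hsub2 : Ioc x y ⊆ Icc a b := fun r hr => ⟨hx.1.trans hr.1.le, hr.2.trans hy.2⟩
      have h0 : 0 ≤ C0 * (u y - u x) * M := by
        have := humono x hx y hy hxy
        have h2 : 0 ≤ u y - u x := by linarith
        positivity
      rw [intervalIntegral.integral_of_le hxy]
      have h1 : ‖∫ r in Ioc x y, tau (y - r) (NL (k r))‖ₑ ≤ ENNReal.ofReal (C0 * (u y - u x) * M) := by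
        refine (enorm_integral_le_lintegral_enorm _).trans ?_
        have h2 : ∀ r ∈ Ioc x y, ‖tau (y - r) (NL (k r))‖ₑ ≤
            sn (k r) ^ 4 * (ENNReal.ofReal C0 * ENNReal.ofReal M) := by
          intro r hr
          have e1 : ‖tau (y - r) (NL (k r))‖ₑ = ‖NL (k r)‖ₑ := by
            rw [← ofReal_norm, ← ofReal_norm, LinearIsometry.norm_map]
          have e2 : ‖k r‖ₑ ≤ ENNReal.ofReal M := by
            rw [← ofReal_norm]
            exact ENNReal.ofReal_le_ofReal (hkM r ⟨hr.1.le, hr.2⟩)
          rw [e1]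
          calc ‖NL (k r)‖ₑ ≤ ENNReal.ofReal C0 * sn (k r) ^ 4 * ‖k r‖ₑ := hNL (k r)
            _ ≤ ENNReal.ofReal C0 * sn (k r) ^ 4 * ENNReal.ofReal M := by gcongr
            _ = _ := by ring
        refine (setLIntegral_mono' measurableSet_Ioc h2).trans ?_
        rw [lintegral_mul_const' _ _ (by
          exact ENNReal.mul_ne_top ENNReal.ofReal_ne_top ENNReal.ofReal_ne_top)]
        have h3 : ∫⁻ r in Ioc x y, sn (k r) ^ 4 = ENNReal.ofReal (u y - u x) := by
          have hle : volume.restrict (Ioc x y) ≤ volume.restrict (Icc a b) :=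
            Measure.restrict_mono_set _ hsub2
          have hm' : AEMeasurable (fun r => sn (k r) ^ 4) (volume.restrict (Ioc x y)) :=
            hmg.mono_measure hle
          have hlt' : ∀ᵐ r ∂(volume.restrict (Ioc x y)), sn (k r) ^ 4 < ⊤ :=
            ae_mono hle hglt
          rw [hudiff x hx y hy, intervalIntegral.integral_of_le hxy, hg,
            integral_toReal hm' hlt', ENNReal.ofReal_toReal]
          exact ((lintegral_mono_set hsub2).trans_lt hSNf).ne
        rw [h3, ← ENNReal.ofReal_mul hC0.le, ← ENNReal.ofReal_mul (by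
          have := humono x hx y hy hxy
          linarith)]
        refine le_of_eq ?_
        congr 1
        ring
      rw [← ofReal_norm] at h1
      exact (ENNReal.ofReal_le_ofReal_iff h0).1 h1
    have hdd : ∀ x ∈ Icc a b, ∀ y ∈ Icc a b,
        k y = tau (y - x) (k x) - ∫ r in x..y, tau (y - r) (NL (k r)) :=
      fun x hx y hy => hduh x (hsub hx) y (hsub hy)
    have hfc : ContinuousOn (fun r => ‖k r‖) (Icc a b) := hck.norm
    have hexple : Real.exp (2 * C0 * (u b - u a)) ≤ Real.exp (2 * C0 * (SN I k).toReal) := by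
      apply Real.exp_le_exp.2
      gcongr
    constructor
    · refine (real_gron hab hC0 hfc huc humono (fun x _ => norm_nonneg _) ?_).trans ?_
      · intro x hx y hy hxy M hM hkM
        have h1 := hinc x hx y hy hxy M hM hkM
        have h2 : ‖k y‖ ≤ ‖tau (y - x) (k x)‖ + ‖∫ r in x..y, tau (y - r) (NL (k r))‖ := by
          conv_lhs => rw [hdd x hx y hy]
          exact norm_sub_le _ _
        rw [LinearIsometry.norm_map] at h2
        linarith
      · exact mul_le_mul_of_nonneg_left hexple (norm_nonneg _)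
    · -- reflection
      have hneg : ∀ r, r ∈ Icc (-b) (-a) → -r ∈ Icc a b := by
        intro r hr
        exact ⟨by linarith [hr.2], by linarith [hr.1]⟩
      have hcn : ContinuousOn (fun r : ℝ => -r) (Icc (-b) (-a)) := continuous_neg.continuousOn
      have hr := real_gron (f := fun r => ‖k (-r)‖) (u := fun r => - u (-r)) (a := -b) (b := -a)
        (by linarith) hC0 (hfc.comp hcn hneg) ((huc.comp hcn hneg).neg)
        (by
          intro x hx y hy hxy
          have := humono (-y) (hneg y hy) (-x) (hneg x hx) (by linarith)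
          linarith)
        (fun x _ => norm_nonneg _)
        (by
          intro x hx y hy hxy M hM hkM
          have h1 := hinc (-y) (hneg y hy) (-x) (hneg x hx) (by linarith) M hM (by
            intro z hz
            have h2 := hkM (-z) ⟨by linarith [hz.2], by linarith [hz.1]⟩
            rwa [neg_neg] at h2)
          have h3 : tau (-x - -y) (k (-y)) = k (-x) +
              ∫ r in (-y)..(-x), tau (-x - r) (NL (k r)) := by
            have h4 := hdd (-y) (hneg y hy) (-x) (hneg x hx)
            rw [h4]
            abel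
          have h2 : ‖k (-y)‖ ≤ ‖k (-x)‖ + ‖∫ r in (-y)..(-x), tau (-x - r) (NL (k r))‖ := by
            rw [← LinearIsometry.norm_map (tau (-x - -y)) (k (-y)), h3]
            exact norm_add_le _ _
          have h5 : C0 * (-u (-y) - -u (-x)) * M = C0 * (u (-x) - u (-y)) * M := by ring
          rw [h5]
          linarith)
      simp only [neg_neg] at hr
      refine hr.trans ?_
      have h5 : -u a - -u b = u b - u a := by ring
      rw [h5]
      exact mul_le_mul_of_nonneg_left hexple (norm_nonneg _)
  intro s hs t ht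
  rcases le_total s t with h | h
  · exact (main s hs t ht h).1
  · exact (main t ht s hs h).2

end Pool.Agent.QWE
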