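import Pool.Agent.QWE.StA
import Pool.Agent.QWE.StD

/-!
# QWE, module HB: half spaces, elementary facts
-/

set_option autoImplicit false

open MeasureTheory Filter Topology Set
open scoped ENNReal NNReal RealInnerProductSpace

namespace Pool.Agent.QWE.HBx

lemma inner_le (e x : E) (he : ‖e‖ = 1) : (inner ℝ x e : ℝ) ≤ ‖x‖ := by
  have h := real_inner_le_norm x e
  rwa [he, mul_one] at h

lemma neg_le_inner (e x : E) (he : ‖e‖ = 1) : -‖x‖ ≤ (inner ℝ x e : ℝ) := by
  have h := neg_le_of_abs_le (abs_real_inner_le_norm x e)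
  rwa [he, mul_one] at h

lemma shr_half (e : E) (c s : ℝ) (he : ‖e‖ = 1) (hs : 0 ≤ s) :
    shr (half e c) s = half e (c + s) := by
  ext x
  constructor
  · rintro ⟨b, hb, hsub⟩
    have hee : (inner ℝ e e : ℝ) = 1 := by rw [real_inner_self_eq_norm_sq, he]; norm_num
    have hmem : x - ((s + b) / 2) • e ∈ Metric.ball x b := by
      rw [Metric.mem_ball, dist_eq_norm, sub_sub_cancel_left, norm_neg, norm_smul, he, mul_one,
        Real.norm_eq_abs, abs_of_nonneg (by linarith)]
      linarith
    have h1 : c < inner ℝ (x - ((s + b) / 2) • e) e := hsub hmem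
    rw [inner_sub_left, real_inner_smul_left, hee, mul_one] at h1
    change c + s < inner ℝ x e
    linarith
  · intro hx
    have hx' : c + s < inner ℝ x e := hx
    refine ⟨inner ℝ x e - c, by linarith, fun y hy => ?_⟩
    rw [Metric.mem_ball, dist_eq_norm] at hy
    have h1 := neg_le_inner e (y - x) he
    rw [inner_sub_left] at h1
    change c < inner ℝ y e
    linarith

lemma set_gr (e y : E) (c a : ℝ) :
    {z : E | y + Real.exp (-a) • z ∈ half e c} = half e (Real.exp a * (c - inner ℝ y e)) := by
  ext z
  change c < inner ℝ (y + Real.exp (-a) • z) e ↔ Real.exp a * (c - inner ℝ y e) < inner ℝ z e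
  rw [inner_add_left, real_inner_smul_left]
  have h1 : Real.exp a * Real.exp (-a) = 1 := by
    rw [← Real.exp_add, add_neg_cancel, Real.exp_zero]
  have h2 := Real.exp_pos a
  have h3 := Real.exp_pos (-a)
  constructor
  · intro h
    calc Real.exp a * (c - inner ℝ y e) < Real.exp a * (Real.exp (-a) * inner ℝ z e) := by
          apply mul_lt_mul_of_pos_left _ h2
          linarith
      _ = inner ℝ z e := by rw [← mul_assoc, h1, one_mul]
  · intro h
    have h4 : Real.exp (-a) * (Real.exp a * (c - inner ℝ y e)) < Real.exp (-a) * inner ℝ z e :=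
      mul_lt_mul_of_pos_left h h3
    rw [← mul_assoc, mul_comm (Real.exp (-a)), h1, one_mul] at h4
    linarith

end Pool.Agent.QWE.HBx

namespace Pool.Agent.QWE

/-- **HB** (half spaces, elementary facts). -/
theorem thm_HB (hA : St_Act) (hB : St_ExB) (hG2 : St_Grp2) : St_HB := by
  have h5 : ∀ (e y : E) (c a : ℝ) (k : K),
      ex (half e c) (gr y a k) = ex (half e (Real.exp a * (c - inner ℝ y e))) k := by
    intro e y c a k
    rw [hA.2.2.2.1, HBx.set_gr]
  refine ⟨fun e c => ?_, fun e c c' k h => ?_, fun e c he => ⟨?_, ?_⟩, HBx.shr_half, h5, ?_⟩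
  · exact isOpen_lt continuous_const (by fun_prop)
  · exact hB.2.2.1 _ _ _ fun x hx => lt_of_le_of_lt h hx
  · intro x hx
    have h1 : c < inner ℝ x e := hx
    change c < dist x 0
    rw [dist_zero_right]
    exact lt_of_lt_of_le h1 (HBx.inner_le e x he)
  · intro x hx
    rw [Metric.mem_ball, dist_zero_right] at hx
    have h1 := HBx.neg_le_inner e x he
    change -c < inner ℝ x e
    linarith
  · intro e c s k he
    have h6 := h5 e (s • e) c 0 k
    have hee : (inner ℝ e e : ℝ) = 1 := by rw [real_inner_self_eq_norm_sq, he]; norm_num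
    rw [Real.exp_zero, one_mul, real_inner_smul_left, hee, mul_one] at h6
    unfold gr at h6
    rw [hG2.2.1] at h6
    rw [← h6]
    have h7 := hB.1 (half e c) (sh (s • e) k) k
    have h8 := (abs_le.1 h7).2
    linarith

end Pool.Agent.QWE
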