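import Pool.Agent.QWE.StA

set_option autoImplicit false

/-!
# QWE, HLS: Hardy-Littlewood-Sobolev on the line

Direct proof: after normalisation `∫ f^p = ∫ g^p = 1` split the double integral in the parts
`g t ≤ f s` and `f s < g t`. For fixed `s` with `a = f s` the inner integral over `g t ≤ a` is
bounded by `C a^(p-1)` (near part: `g ≤ a`; far part: Hoelder), split at `|s-t| = a^(-p)`.
-/

open MeasureTheory Filter Topology Set
open scoped ENNReal NNReal

namespace Pool.Agent.QWE.HLSx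

/-- The kernel. -/
noncomputable def ker (γ : ℝ) (r : ℝ) : ℝ≥0∞ := ENNReal.ofReal (|r| ^ (-γ))

lemma ker_meas (γ : ℝ) : Measurable (ker γ) := by
  unfold ker
  fun_prop

lemma ker_neg (γ r : ℝ) : ker γ (-r) = ker γ r := by simp [ker]

lemma lint_even (h : ℝ → ℝ≥0∞) (hm : Measurable h) (he : ∀ r, h (-r) = h r) :
    ∫⁻ r, h r = 2 * ∫⁻ r in Ioi (0 : ℝ), h r := by
  have h1 : ∫⁻ r, h r = (∫⁻ r in Ioi (0 : ℝ), h r) + ∫⁻ r in (Ioi (0 : ℝ))ᶜ, h r :=
    (lintegral_add_compl h measurableSet_Ioi).symm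
  have h2 : ∫⁻ r in (Ioi (0 : ℝ))ᶜ, h r = ∫⁻ r in Iio (0 : ℝ), h r := by
    rw [compl_Ioi]
    exact setLIntegral_congr Iio_ae_eq_Iic.symm
  have h3 : ∫⁻ r in Iio (0 : ℝ), h r = ∫⁻ r in Ioi (0 : ℝ), h r := by
    have mp : MeasurePreserving (fun x : ℝ => -x) volume volume := Measure.measurePreserving_neg volume
    have := mp.setLIntegral_comp_preimage (s := Iio (0 : ℝ)) measurableSet_Iio hm
    rw [← this]
    have h4 : (fun x : ℝ => -x) ⁻¹' Iio 0 = Ioi 0 := by ext x; simp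
    rw [h4]
    simp only [he]
  rw [h1, h2, h3, two_mul]

/-- Near part. -/
lemma near {γ : ℝ} (h0 : 0 < γ) (h1 : γ < 1) {R : ℝ} (hR : 0 < R) (s : ℝ) :
    ∫⁻ t, {t : ℝ | |s - t| < R}.indicator (fun t => ker γ (s - t)) t ≤
      ENNReal.ofReal (2 * R ^ (1 - γ) / (1 - γ)) := by
  have e1 : ∫⁻ t, {t : ℝ | |s - t| < R}.indicator (fun t => ker γ (s - t)) t =
      ∫⁻ r, {r : ℝ | |r| < R}.indicator (ker γ) r := by
    rw [← lintegral_sub_left_eq_self (fun r => {r : ℝ | |r| < R}.indicator (ker γ) r) s]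
    rfl
  rw [e1, lint_even _ ((ker_meas γ).indicator (measurableSet_lt measurable_abs measurable_const))
    (fun r => by simp only [indicator, mem_ofPred_eq, abs_neg, ker_neg])]
  have e2 : ∫⁻ r in Ioi (0 : ℝ), {r : ℝ | |r| < R}.indicator (ker γ) r ≤
      ∫⁻ r in Ioc (0 : ℝ) R, ENNReal.ofReal (r ^ (-γ)) := by
    rw [← lintegral_indicator measurableSet_Ioi, ← lintegral_indicator measurableSet_Ioc]
    refine lintegral_mono fun r => ?_
    by_cases hr : r ∈ Ioi (0 : ℝ)
    · rw [indicator_of_mem hr]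
      by_cases hr2 : |r| < R
      · have hr' : (0 : ℝ) < r := hr
        rw [indicator_of_mem (show r ∈ {r : ℝ | |r| < R} from hr2),
          indicator_of_mem (show r ∈ Ioc (0 : ℝ) R from ⟨hr', (le_abs_self r).trans hr2.le⟩), ker,
          abs_of_pos hr']
      · rw [indicator_of_notMem (show r ∉ {r : ℝ | |r| < R} from hr2)]
        exact zero_le
    · rw [indicator_of_notMem hr]
      exact zero_le
  have hi : IntervalIntegrable (fun r : ℝ => r ^ (-γ)) volume 0 R :=
    intervalIntegral.intervalIntegrable_rpow' (by linarith)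
  have e3 : ∫⁻ r in Ioc (0 : ℝ) R, ENNReal.ofReal (r ^ (-γ)) =
      ENNReal.ofReal (R ^ (1 - γ) / (1 - γ)) := by
    rw [← ofReal_integral_eq_lintegral_ofReal]
    · rw [← intervalIntegral.integral_of_le hR.le, integral_rpow (Or.inl (by linarith))]
      have h2 : (0 : ℝ) ^ (-γ + 1) = 0 := Real.zero_rpow (by linarith)
      rw [h2, sub_zero]
      have h3 : -γ + 1 = 1 - γ := by ring
      rw [h3]
    · exact (intervalIntegrable_iff_integrableOn_Ioc_of_le hR.le).1 hi
    · refine (ae_restrict_iff' measurableSet_Ioc).2 (Eventually.of_forall fun r hr => ?_)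
      exact Real.rpow_nonneg hr.1.le _
  calc 2 * ∫⁻ r in Ioi (0 : ℝ), {r : ℝ | |r| < R}.indicator (ker γ) r
      ≤ 2 * ENNReal.ofReal (R ^ (1 - γ) / (1 - γ)) := by rw [← e3]; gcongr
    _ = ENNReal.ofReal (2 * R ^ (1 - γ) / (1 - γ)) := by
        rw [mul_div_assoc, ENNReal.ofReal_mul (by norm_num)]
        norm_num

/-- Far part. -/
lemma far {γ : ℝ} (h0 : 0 < γ) {R : ℝ} (hR : 0 < R) (s : ℝ) :
    ∫⁻ t, ({t : ℝ | R ≤ |s - t|}.indicator (fun t => ker γ (s - t)) t) ^ (2 / γ) ≤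
      ENNReal.ofReal (2 / R) := by
  have hq : 0 < 2 / γ := by positivity
  have e1 : ∫⁻ t, ({t : ℝ | R ≤ |s - t|}.indicator (fun t => ker γ (s - t)) t) ^ (2 / γ) =
      ∫⁻ r, {r : ℝ | R ≤ |r|}.indicator (fun r => ENNReal.ofReal (|r| ^ (-2 : ℝ))) r := by
    rw [← lintegral_sub_left_eq_self
      (fun r => {r : ℝ | R ≤ |r|}.indicator (fun r => ENNReal.ofReal (|r| ^ (-2 : ℝ))) r) s]
    refine lintegral_congr fun t => ?_
    by_cases ht : R ≤ |s - t|
    · rw [indicator_of_mem (show t ∈ {t : ℝ | R ≤ |s - t|} from ht),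
        indicator_of_mem (show s - t ∈ {r : ℝ | R ≤ |r|} from ht), ker,
        ENNReal.ofReal_rpow_of_nonneg (by positivity) hq.le, ← Real.rpow_mul (abs_nonneg _)]
      have : -γ * (2 / γ) = -2 := by field_simp
      rw [this]
    · rw [indicator_of_notMem (show t ∉ {t : ℝ | R ≤ |s - t|} from ht),
        indicator_of_notMem (show s - t ∉ {r : ℝ | R ≤ |r|} from ht), ENNReal.zero_rpow_of_pos hq]
  rw [e1, lint_even _ (Measurable.indicator (by fun_prop)
    (measurableSet_le measurable_const measurable_abs))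
    (fun r => by simp only [indicator, mem_ofPred_eq, abs_neg])]
  have e2 : ∫⁻ r in Ioi (0 : ℝ), {r : ℝ | R ≤ |r|}.indicator
      (fun r => ENNReal.ofReal (|r| ^ (-2 : ℝ))) r ≤
      ∫⁻ r in Ioi R, ENNReal.ofReal (r ^ (-2 : ℝ)) := by
    rw [← lintegral_indicator measurableSet_Ioi]
    rw [setLIntegral_congr (Ioi_ae_eq_Ici (a := R)), ← lintegral_indicator measurableSet_Ici]
    refine lintegral_mono fun r => ?_
    by_cases hr : r ∈ Ioi (0 : ℝ)
    · rw [indicator_of_mem hr]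
      by_cases hr2 : R ≤ |r|
      · have hr' : (0 : ℝ) < r := hr
        rw [indicator_of_mem (show r ∈ {r : ℝ | R ≤ |r|} from hr2), abs_of_pos hr',
          indicator_of_mem (show r ∈ Ici R by rwa [abs_of_pos hr'] at hr2)]
      · rw [indicator_of_notMem (show r ∉ {r : ℝ | R ≤ |r|} from hr2)]
        exact zero_le
    · rw [indicator_of_notMem hr]
      exact zero_le
  have e3 : ∫⁻ r in Ioi R, ENNReal.ofReal (r ^ (-2 : ℝ)) = ENNReal.ofReal (1 / R) := by
    rw [← ofReal_integral_eq_lintegral_ofReal (integrableOn_Ioi_rpow_of_lt (by norm_num) hR)]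
    · rw [integral_Ioi_rpow_of_lt (by norm_num) hR]
      congr 1
      have h3 : (-2 : ℝ) + 1 = -1 := by norm_num
      rw [h3, Real.rpow_neg_one]
      ring
    · refine (ae_restrict_iff' measurableSet_Ioi).2 (Eventually.of_forall fun r hr => ?_)
      exact Real.rpow_nonneg (hR.trans hr).le _
  calc 2 * ∫⁻ r in Ioi (0 : ℝ), {r : ℝ | R ≤ |r|}.indicator
        (fun r => ENNReal.ofReal (|r| ^ (-2 : ℝ))) r
      ≤ 2 * ENNReal.ofReal (1 / R) := by rw [← e3]; gcongr
    _ = ENNReal.ofReal (2 / R) := by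
        rw [show (2 : ℝ) / R = 2 * (1 / R) by ring, ENNReal.ofReal_mul (by norm_num)]
        norm_num

/-- The constant. -/
noncomputable def cst (γ : ℝ) : ℝ := 2 / (1 - γ) + 2 ^ (γ / 2)

lemma cst_pos {γ : ℝ} (h1 : γ < 1) : 0 < cst γ := by
  have : 0 < 1 - γ := by linarith
  unfold cst; positivity

/-- Inner bound. -/
lemma inner_bound {γ : ℝ} (h0 : 0 < γ) (h1 : γ < 1) {g : ℝ → ℝ≥0∞} (hg : Measurable g)
    (hg1 : ∫⁻ t, g t ^ (2 / (2 - γ)) ≤ 1) (a : ℝ≥0∞) (s : ℝ) :
    ∫⁻ t, {t : ℝ | g t ≤ a}.indicator g t * ker γ (s - t) ≤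
      ENNReal.ofReal (cst γ) * a ^ (γ / (2 - γ)) := by
  have hγ2 : 0 < 2 - γ := by linarith
  have hδ : 0 < γ / (2 - γ) := by positivity
  rcases eq_or_ne a 0 with rfl | ha0
  · have : ∀ t, {t : ℝ | g t ≤ 0}.indicator g t * ker γ (s - t) = 0 := by
      intro t
      by_cases ht : g t ≤ 0
      · rw [indicator_of_mem (show t ∈ {t : ℝ | g t ≤ 0} from ht), nonpos_iff_eq_zero.1 ht, zero_mul]
      · rw [indicator_of_notMem (show t ∉ {t : ℝ | g t ≤ 0} from ht), zero_mul]
    simp only [this, lintegral_zero]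
    exact zero_le
  rcases eq_or_ne a ⊤ with rfl | hat
  · rw [ENNReal.top_rpow_of_pos hδ, ENNReal.mul_top]
    · exact le_top
    · exact (ENNReal.ofReal_pos.2 (cst_pos h1)).ne'
  obtain ⟨b, rfl⟩ : ∃ b : ℝ, a = ENNReal.ofReal b := ⟨a.toReal, (ENNReal.ofReal_toReal hat).symm⟩
  have hb : 0 < b := ENNReal.ofReal_pos.1 (pos_iff_ne_zero.2 ha0)
  set R : ℝ := b ^ (-(2 / (2 - γ))) with hR
  have hRp : 0 < R := Real.rpow_pos_of_pos hb _
  have hsplit : ∀ t, {t : ℝ | g t ≤ ENNReal.ofReal b}.indicator g t * ker γ (s - t) ≤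
      ENNReal.ofReal b * {t : ℝ | |s - t| < R}.indicator (fun t => ker γ (s - t)) t +
      g t * {t : ℝ | R ≤ |s - t|}.indicator (fun t => ker γ (s - t)) t := by
    intro t
    by_cases ht : |s - t| < R
    · rw [indicator_of_mem (show t ∈ {t : ℝ | |s - t| < R} from ht)]
      refine le_add_right ?_
      gcongr
      by_cases hgt : g t ≤ ENNReal.ofReal b
      · rw [indicator_of_mem (show t ∈ {t : ℝ | g t ≤ ENNReal.ofReal b} from hgt)]; exact hgt
      · rw [indicator_of_notMem (show t ∉ {t : ℝ | g t ≤ ENNReal.ofReal b} from hgt)]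
        exact zero_le
    · rw [indicator_of_mem (show t ∈ {t : ℝ | R ≤ |s - t|} from not_lt.1 ht)]
      refine le_add_left ?_
      gcongr
      exact indicator_le_self _ _ _
  have hm1 : Measurable fun t => {t : ℝ | |s - t| < R}.indicator (fun t => ker γ (s - t)) t := by
    refine Measurable.indicator ((ker_meas γ).comp (by fun_prop)) ?_
    exact measurableSet_lt (by fun_prop) measurable_const
  have hm2 : Measurable fun t => {t : ℝ | R ≤ |s - t|}.indicator (fun t => ker γ (s - t)) t := by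
    refine Measurable.indicator ((ker_meas γ).comp (by fun_prop)) ?_
    exact measurableSet_le measurable_const (by fun_prop)
  have hold : ∫⁻ t, g t * {t : ℝ | R ≤ |s - t|}.indicator (fun t => ker γ (s - t)) t ≤
      ENNReal.ofReal ((2 / R) ^ (γ / 2)) := by
    have hpq : (2 / (2 - γ)).HolderConjugate (2 / γ) := by
      rw [Real.holderConjugate_iff]
      constructor
      · rw [lt_div_iff₀ hγ2]; linarith
      · field_simp; ring
    have h2 := ENNReal.lintegral_mul_le_Lp_mul_Lq volume hpq hg.aemeasurable hm2.aemeasurable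
    have h3 : (∫⁻ t, g t ^ (2 / (2 - γ))) ^ (1 / (2 / (2 - γ))) ≤ 1 := by
      calc _ ≤ (1 : ℝ≥0∞) ^ (1 / (2 / (2 - γ))) := by gcongr
        _ = 1 := ENNReal.one_rpow _
    have h4 : (∫⁻ t, ({t : ℝ | R ≤ |s - t|}.indicator (fun t => ker γ (s - t)) t) ^ (2 / γ)) ^
        (1 / (2 / γ)) ≤ ENNReal.ofReal ((2 / R) ^ (γ / 2)) := by
      rw [← ENNReal.ofReal_rpow_of_nonneg (by positivity) (by positivity)]
      have : 1 / (2 / γ) = γ / 2 := by field_simp
      rw [this]
      gcongr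
      exact far h0 hRp s
    calc _ ≤ _ := h2
      _ ≤ 1 * ENNReal.ofReal ((2 / R) ^ (γ / 2)) := mul_le_mul' h3 h4
      _ = _ := one_mul _
  calc ∫⁻ t, {t : ℝ | g t ≤ ENNReal.ofReal b}.indicator g t * ker γ (s - t)
      ≤ ∫⁻ t, (ENNReal.ofReal b * {t : ℝ | |s - t| < R}.indicator (fun t => ker γ (s - t)) t +
        g t * {t : ℝ | R ≤ |s - t|}.indicator (fun t => ker γ (s - t)) t) := lintegral_mono hsplit
    _ = (ENNReal.ofReal b * ∫⁻ t, {t : ℝ | |s - t| < R}.indicator (fun t => ker γ (s - t)) t) +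
        ∫⁻ t, g t * {t : ℝ | R ≤ |s - t|}.indicator (fun t => ker γ (s - t)) t := by
        rw [lintegral_add_left (hm1.const_mul _), lintegral_const_mul _ hm1]
    _ ≤ ENNReal.ofReal b * ENNReal.ofReal (2 * R ^ (1 - γ) / (1 - γ)) +
        ENNReal.ofReal ((2 / R) ^ (γ / 2)) := by
        gcongr
        exact near h0 h1 hRp s
    _ = ENNReal.ofReal (cst γ) * ENNReal.ofReal b ^ (γ / (2 - γ)) := by
        have h1' : 0 < 1 - γ := by linarith
        rw [← ENNReal.ofReal_mul hb.le, ← ENNReal.ofReal_add (by positivity) (by positivity),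
          ENNReal.ofReal_rpow_of_pos hb, ← ENNReal.ofReal_mul (cst_pos h1).le]
        congr 1
        have e1 : b * R ^ (1 - γ) = b ^ (γ / (2 - γ)) := by
          rw [hR, ← Real.rpow_mul hb.le]
          nth_rw 1 [← Real.rpow_one b]
          rw [← Real.rpow_add hb]
          congr 1
          field_simp
          ring
        have e2 : (2 / R) ^ (γ / 2) = 2 ^ (γ / 2) * b ^ (γ / (2 - γ)) := by
          rw [Real.div_rpow (by norm_num) hRp.le, hR, ← Real.rpow_mul hb.le, div_eq_mul_inv,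
            ← Real.rpow_neg hb.le]
          congr 2
          field_simp
        rw [e2, cst]
        have e3 : b * (2 * R ^ (1 - γ) / (1 - γ)) = 2 / (1 - γ) * (b * R ^ (1 - γ)) := by ring
        rw [e3, e1]
        ring

/-- Normalised version. -/
lemma hls_norm {γ : ℝ} (h0 : 0 < γ) (h1 : γ < 1) {f g : ℝ → ℝ≥0∞} (hf : Measurable f)
    (hg : Measurable g) (hf1 : ∫⁻ t, f t ^ (2 / (2 - γ)) ≤ 1)
    (hg1 : ∫⁻ t, g t ^ (2 / (2 - γ)) ≤ 1) :
    ∫⁻ s, ∫⁻ t, f s * g t * ker γ (s - t) ≤ ENNReal.ofReal (2 * cst γ) := by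
  have hγ2 : 0 < 2 - γ := by linarith
  have key : ∀ {f g : ℝ → ℝ≥0∞}, Measurable f → Measurable g →
      (∫⁻ t, f t ^ (2 / (2 - γ)) ≤ 1) → (∫⁻ t, g t ^ (2 / (2 - γ)) ≤ 1) →
      ∫⁻ s, f s * ∫⁻ t, {t : ℝ | g t ≤ f s}.indicator g t * ker γ (s - t) ≤
        ENNReal.ofReal (cst γ) := by
    intro f g hf hg hf1 hg1
    calc ∫⁻ s, f s * ∫⁻ t, {t : ℝ | g t ≤ f s}.indicator g t * ker γ (s - t)
        ≤ ∫⁻ s, ENNReal.ofReal (cst γ) * f s ^ (2 / (2 - γ)) := by
          refine lintegral_mono fun s => ?_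
          calc f s * ∫⁻ t, {t : ℝ | g t ≤ f s}.indicator g t * ker γ (s - t)
              ≤ f s * (ENNReal.ofReal (cst γ) * f s ^ (γ / (2 - γ))) := by
                gcongr
                exact inner_bound h0 h1 hg hg1 (f s) s
            _ = ENNReal.ofReal (cst γ) * (f s ^ (1 : ℝ) * f s ^ (γ / (2 - γ))) := by
                rw [ENNReal.rpow_one]; ring
            _ = ENNReal.ofReal (cst γ) * f s ^ (2 / (2 - γ)) := by
                rw [← ENNReal.rpow_add_of_nonneg _ _ zero_le_one (by positivity)]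
                congr 2
                field_simp
                ring
      _ = ENNReal.ofReal (cst γ) * ∫⁻ s, f s ^ (2 / (2 - γ)) :=
          lintegral_const_mul _ (hf.pow_const _)
      _ ≤ ENNReal.ofReal (cst γ) * 1 := by gcongr
      _ = ENNReal.ofReal (cst γ) := mul_one _
  have hsplit : ∀ s t, f s * g t * ker γ (s - t) ≤
      f s * ({t : ℝ | g t ≤ f s}.indicator g t * ker γ (s - t)) +
      g t * ({s : ℝ | f s ≤ g t}.indicator f s * ker γ (t - s)) := by
    intro s t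
    rcases le_total (g t) (f s) with h | h
    · rw [indicator_of_mem (show t ∈ {t : ℝ | g t ≤ f s} from h)]
      refine le_add_right (le_of_eq (by ring))
    · rw [indicator_of_mem (show s ∈ {s : ℝ | f s ≤ g t} from h)]
      refine le_add_left (le_of_eq ?_)
      have : ker γ (t - s) = ker γ (s - t) := by rw [← ker_neg, neg_sub]
      rw [this]; ring
  have hms : MeasurableSet {z : ℝ × ℝ | g z.2 ≤ f z.1} :=
    measurableSet_le (hg.comp measurable_snd) (hf.comp measurable_fst)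
  have hms' : MeasurableSet {z : ℝ × ℝ | f z.1 ≤ g z.2} :=
    measurableSet_le (hf.comp measurable_fst) (hg.comp measurable_snd)
  have hm1 : Measurable fun z : ℝ × ℝ =>
      f z.1 * ({t : ℝ | g t ≤ f z.1}.indicator g z.2 * ker γ (z.1 - z.2)) := by
    refine (hf.comp measurable_fst).mul (Measurable.mul ?_ ((ker_meas γ).comp (by fun_prop)))
    exact (hg.comp measurable_snd).indicator hms
  have hm2 : Measurable fun z : ℝ × ℝ =>
      g z.2 * ({s : ℝ | f s ≤ g z.2}.indicator f z.1 * ker γ (z.2 - z.1)) := by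
    refine (hg.comp measurable_snd).mul (Measurable.mul ?_ ((ker_meas γ).comp (by fun_prop)))
    exact (hf.comp measurable_fst).indicator hms'
  have hm3 : ∀ s, Measurable fun t =>
      f s * ({t : ℝ | g t ≤ f s}.indicator g t * ker γ (s - t)) := fun s =>
    hm1.comp (measurable_const.prodMk measurable_id)
  have hm4 : ∀ s, Measurable fun t =>
      ({t : ℝ | g t ≤ f s}.indicator g t * ker γ (s - t)) := fun s => by
    refine Measurable.mul ?_ ((ker_meas γ).comp (by fun_prop))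
    exact hg.indicator (measurableSet_le hg measurable_const)
  have hm5 : ∀ t, Measurable fun s =>
      ({s : ℝ | f s ≤ g t}.indicator f s * ker γ (t - s)) := fun t => by
    refine Measurable.mul ?_ ((ker_meas γ).comp (by fun_prop))
    exact hf.indicator (measurableSet_le hf measurable_const)
  calc ∫⁻ s, ∫⁻ t, f s * g t * ker γ (s - t)
      ≤ ∫⁻ s, ∫⁻ t, (f s * ({t : ℝ | g t ≤ f s}.indicator g t * ker γ (s - t)) +
        g t * ({s : ℝ | f s ≤ g t}.indicator f s * ker γ (t - s))) :=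
        lintegral_mono fun s => lintegral_mono fun t => hsplit s t
    _ = ∫⁻ s, ((∫⁻ t, f s * ({t : ℝ | g t ≤ f s}.indicator g t * ker γ (s - t))) +
        ∫⁻ t, g t * ({s : ℝ | f s ≤ g t}.indicator f s * ker γ (t - s))) := by
        refine lintegral_congr fun s => ?_
        rw [lintegral_add_left (hm3 s)]
    _ = (∫⁻ s, ∫⁻ t, f s * ({t : ℝ | g t ≤ f s}.indicator g t * ker γ (s - t))) +
        ∫⁻ s, ∫⁻ t, g t * ({s : ℝ | f s ≤ g t}.indicator f s * ker γ (t - s)) := by
        rw [lintegral_add_left hm1.lintegral_prod_right']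
    _ = (∫⁻ s, f s * ∫⁻ t, {t : ℝ | g t ≤ f s}.indicator g t * ker γ (s - t)) +
        ∫⁻ t, g t * ∫⁻ s, {s : ℝ | f s ≤ g t}.indicator f s * ker γ (t - s) := by
        congr 1
        · refine lintegral_congr fun s => ?_
          rw [lintegral_const_mul _ (hm4 s)]
        · rw [lintegral_lintegral_swap hm2.aemeasurable]
          refine lintegral_congr fun t => ?_
          rw [lintegral_const_mul _ (hm5 t)]
    _ ≤ ENNReal.ofReal (cst γ) + ENNReal.ofReal (cst γ) :=
        add_le_add (key hf hg hf1 hg1) (key hg hf hg1 hf1)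
    _ = ENNReal.ofReal (2 * cst γ) := by
        rw [← ENNReal.ofReal_add (cst_pos h1).le (cst_pos h1).le, two_mul]

/-- Hardy-Littlewood-Sobolev on the line. -/
lemma hls {γ : ℝ} (h0 : 0 < γ) (h1 : γ < 1) {f g : ℝ → ℝ≥0∞} (hf : Measurable f)
    (hg : Measurable g) :
    ∫⁻ s, ∫⁻ t, f s * g t * ker γ (s - t) ≤ ENNReal.ofReal (2 * cst γ) *
      (∫⁻ s, f s ^ (2 / (2 - γ))) ^ ((2 - γ) / 2) * (∫⁻ s, g s ^ (2 / (2 - γ))) ^ ((2 - γ) / 2) := by
  have hγ2 : 0 < 2 - γ := by linarith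
  have hp : 0 < 2 / (2 - γ) := by positivity
  have hp' : 0 < (2 - γ) / 2 := by positivity
  have hc : 0 < 2 * cst γ := by have := cst_pos h1; positivity
  set A := ∫⁻ s, f s ^ (2 / (2 - γ)) with hA
  set B := ∫⁻ s, g s ^ (2 / (2 - γ)) with hB
  have hzero : ∀ {h : ℝ → ℝ≥0∞}, Measurable h → ∫⁻ s, h s ^ (2 / (2 - γ)) = 0 →
      h =ᵐ[volume] 0 := by
    intro h hh hh0
    have := (lintegral_eq_zero_iff (hh.pow_const _)).1 hh0
    filter_upwards [this] with x hx
    simpa [hp, hp.le, not_lt.2 hp.le] using hx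
  rcases eq_or_ne A 0 with hA0 | hA0
  · have h2 := hzero hf hA0
    have h3 : ∫⁻ s, ∫⁻ t, f s * g t * ker γ (s - t) = 0 := by
      rw [lintegral_eq_zero_iff']
      · filter_upwards [h2] with s hs
        simp [hs]
      · refine (Measurable.lintegral_prod_right' (f := fun z : ℝ × ℝ => f z.1 * g z.2 *
          ker γ (z.1 - z.2)) ?_).aemeasurable
        exact ((hf.comp measurable_fst).mul (hg.comp measurable_snd)).mul
          ((ker_meas γ).comp (by fun_prop))
    rw [h3]; exact zero_le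
  rcases eq_or_ne B 0 with hB0 | hB0
  · have h2 := hzero hg hB0
    have h3 : ∀ s, ∫⁻ t, f s * g t * ker γ (s - t) = 0 := by
      intro s
      have : (fun t => f s * g t * ker γ (s - t)) =ᵐ[volume] fun _ => 0 := by
        filter_upwards [h2] with t ht
        simp [ht]
      rw [lintegral_congr_ae this, lintegral_zero]
    simp only [h3, lintegral_zero]
    exact zero_le
  have hA' : A ^ ((2 - γ) / 2) ≠ 0 := by
    intro h; rcases ENNReal.rpow_eq_zero_iff.1 h with h | h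
    · exact hA0 h.1
    · linarith [h.2]
  have hB' : B ^ ((2 - γ) / 2) ≠ 0 := by
    intro h; rcases ENNReal.rpow_eq_zero_iff.1 h with h | h
    · exact hB0 h.1
    · linarith [h.2]
  have hc' : ENNReal.ofReal (2 * cst γ) ≠ 0 := (ENNReal.ofReal_pos.2 hc).ne'
  rcases eq_or_ne A ⊤ with hAt | hAt
  · rw [hAt, ENNReal.top_rpow_of_pos hp', ENNReal.mul_top hc', ENNReal.top_mul hB']
    exact le_top
  rcases eq_or_ne B ⊤ with hBt | hBt
  · rw [hBt, ENNReal.top_rpow_of_pos hp', ENNReal.mul_top (mul_ne_zero hc' hA')]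
    exact le_top
  -- normalise
  set α : ℝ≥0∞ := A ^ ((2 - γ) / 2) with hα
  set β : ℝ≥0∞ := B ^ ((2 - γ) / 2) with hβ
  have hαt : α ≠ ⊤ := ENNReal.rpow_ne_top_of_nonneg hp'.le hAt
  have hβt : β ≠ ⊤ := ENNReal.rpow_ne_top_of_nonneg hp'.le hBt
  have hnorm : ∀ {h : ℝ → ℝ≥0∞}, Measurable h → ∀ {H η : ℝ≥0∞}, H ≠ 0 → H ≠ ⊤ →
      H = ∫⁻ s, h s ^ (2 / (2 - γ)) → η = H ^ ((2 - γ) / 2) →
      ∫⁻ s, (η⁻¹ * h s) ^ (2 / (2 - γ)) ≤ 1 := by
    intro h hh H η h1 h2 h3 h4
    have h5 : ∀ s, (η⁻¹ * h s) ^ (2 / (2 - γ)) = H⁻¹ * h s ^ (2 / (2 - γ)) := by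
      intro s
      rw [ENNReal.mul_rpow_of_nonneg _ _ hp.le, h4, ENNReal.inv_rpow, ← ENNReal.rpow_mul]
      have : (2 - γ) / 2 * (2 / (2 - γ)) = 1 := by field_simp
      rw [this, ENNReal.rpow_one]
    simp only [h5]
    rw [lintegral_const_mul _ (hh.pow_const _), ← h3, ENNReal.inv_mul_cancel h1 h2]
  have hfin := hls_norm h0 h1 (f := fun s => α⁻¹ * f s) (g := fun s => β⁻¹ * g s)
    (hf.const_mul _) (hg.const_mul _) (hnorm hf hA0 hAt hA hα) (hnorm hg hB0 hBt hB hβ)
  have e1 : ∀ s t, f s * g t * ker γ (s - t) =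
      α * β * (α⁻¹ * f s * (β⁻¹ * g t) * ker γ (s - t)) := by
    intro s t
    have h2 : α * α⁻¹ = 1 := ENNReal.mul_inv_cancel hA' hαt
    have h3 : β * β⁻¹ = 1 := ENNReal.mul_inv_cancel hB' hβt
    calc f s * g t * ker γ (s - t) = (α * α⁻¹) * (β * β⁻¹) * (f s * g t * ker γ (s - t)) := by
          rw [h2, h3]; simp
      _ = _ := by ring
  have hm : Measurable fun z : ℝ × ℝ => α⁻¹ * f z.1 * (β⁻¹ * g z.2) * ker γ (z.1 - z.2) := by
    refine Measurable.mul (Measurable.mul ?_ ?_) ((ker_meas γ).comp (by fun_prop))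
    · exact (hf.comp measurable_fst).const_mul _
    · exact (hg.comp measurable_snd).const_mul _
  calc ∫⁻ s, ∫⁻ t, f s * g t * ker γ (s - t)
      = ∫⁻ s, ∫⁻ t, α * β * (α⁻¹ * f s * (β⁻¹ * g t) * ker γ (s - t)) := by
        refine lintegral_congr fun s => lintegral_congr fun t => e1 s t
    _ = ∫⁻ s, α * β * ∫⁻ t, (α⁻¹ * f s * (β⁻¹ * g t) * ker γ (s - t)) := by
        refine lintegral_congr fun s => ?_
        rw [lintegral_const_mul]
        exact hm.comp (measurable_const.prodMk measurable_id)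
    _ = α * β * ∫⁻ s, ∫⁻ t, (α⁻¹ * f s * (β⁻¹ * g t) * ker γ (s - t)) := by
        rw [lintegral_const_mul _ hm.lintegral_prod_right']
    _ ≤ α * β * ENNReal.ofReal (2 * cst γ) := by gcongr
    _ = ENNReal.ofReal (2 * cst γ) * α * β := by ring

end Pool.Agent.QWE.HLSx

namespace Pool.Agent.QWE

open HLSx

theorem thm_HLS : St_HLS := by
  have c1 : 0 < cst (1 / 2) := cst_pos (by norm_num)
  have c2 : 0 < cst (2 / 3) := cst_pos (by norm_num)
  refine ⟨2 * cst (1 / 2) + 2 * cst (2 / 3), by positivity, fun f g hf hg => ⟨?_, ?_⟩⟩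
  · have h := hls (γ := 1 / 2) (by norm_num) (by norm_num) hf hg
    have e1 : (2 : ℝ) / (2 - 1 / 2) = 4 / 3 := by norm_num
    have e2 : (2 - 1 / 2 : ℝ) / 2 = 3 / 4 := by norm_num
    rw [e1, e2] at h
    refine h.trans ?_
    gcongr
    linarith
  · have h := hls (γ := 2 / 3) (by norm_num) (by norm_num) hf hg
    have e1 : (2 : ℝ) / (2 - 2 / 3) = 3 / 2 := by norm_num
    have e2 : (2 - 2 / 3 : ℝ) / 2 = 2 / 3 := by norm_num
    rw [e1, e2] at h
    refine h.trans ?_
    gcongr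
    linarith

end Pool.Agent.QWE
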