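import Pool.Agent.QWE.StA

set_option autoImplicit false

/-!
# QWE, IP: inner product in terms of the fields (helper81)
-/

open MeasureTheory Filter Topology Set
open scoped ENNReal NNReal RealInnerProductSpace ContDiff Pointwise

namespace Pool.Agent.QWE

namespace IPx

/-! ### test functions -/

private lemma test_pd (i : Fin 5) {φ : E → ℝ} (h : IsTest φ) : IsTest (pd i φ) := by
  refine ⟨?_, h.2.fderiv_apply ℝ _⟩
  exact (h.1.fderiv_right (m := ∞) (by simp)).clm_apply contDiff_const

private lemma tsupport_pd (i : Fin 5) (φ : E → ℝ) : tsupport (pd i φ) ⊆ tsupport φ :=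
  tsupport_fderiv_apply_subset ℝ _

private lemma lap_zero {φ : E → ℝ} {x : E} (h : x ∉ tsupport φ) : lap φ x = 0 := by
  refine Finset.sum_eq_zero fun i _ => ?_
  exact image_eq_zero_of_notMem_tsupport fun h2 => h (tsupport_pd i φ (tsupport_pd i _ h2))

private lemma test_lap {φ : E → ℝ} (h : IsTest φ) : IsTest (lap φ) := by
  refine ⟨?_, HasCompactSupport.intro h.2 fun x hx => lap_zero hx⟩
  exact ContDiff.sum fun i _ => (test_pd i (test_pd i h)).1

private lemma sch {f : E → ℝ} (hf : IsTest f) : IsSch f :=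
  ⟨hf.2.toSchwartzMap hf.1, fun _ => rfl⟩

private lemma int_mul {f g : E → ℝ} (hf : IsTest f) (hg : IsTest g) :
    Integrable (fun x => f x * g x) (volume : Measure E) :=
  (hf.1.continuous.mul hg.1.continuous).integrable_of_hasCompactSupport hf.2.mul_right

private lemma ibp (i : Fin 5) {f g : E → ℝ} (hf : IsTest f) (hg : IsTest g) :
    ∫ x, f x * pd i g x = - ∫ x, pd i f x * g x := by
  have h := integral_mul_fderiv_eq_neg_fderiv_mul_of_integrable (μ := (volume : Measure E))
    (f := f) (g := g) (v := EuclideanSpace.single i (1 : ℝ))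
    (int_mul (test_pd i hf) hg) (int_mul hf (test_pd i hg)) (int_mul hf hg)
    (fun x _ => (hf.1.differentiable (by simp)) x) (fun x _ => (hg.1.differentiable (by simp)) x)
  exact h

private lemma ibp_lap {f g : E → ℝ} (hf : IsTest f) (hg : IsTest g) :
    ∫ x, f x * lap g x = - ∑ i, ∫ x, pd i f x * pd i g x := by
  have h1 : ∫ x, f x * lap g x = ∑ i, ∫ x, f x * pd i (pd i g) x := by
    rw [← integral_finsetSum _ fun i _ => int_mul hf (test_pd i (test_pd i hg))]
    refine integral_congr_ae (Eventually.of_forall fun x => ?_)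
    simp only [lap, Finset.mul_sum]
  rw [h1, ← Finset.sum_neg_distrib]
  exact Finset.sum_congr rfl fun i _ => ibp i hf (test_pd i hg)

private lemma ibp_lap2 {f g : E → ℝ} (hf : IsTest f) (hg : IsTest g) :
    ∫ x, f x * lap (lap g) x = ∫ x, lap f x * lap g x := by
  have h1 := ibp_lap hf (test_lap hg)
  have h2 := ibp_lap (test_lap hg) hf
  have h3 : ∫ x, lap f x * lap g x = ∫ x, lap g x * lap f x :=
    integral_congr_ae (Eventually.of_forall fun x => mul_comm _ _)
  rw [h1, h3, h2]
  congr 1
  refine Finset.sum_congr rfl fun i _ => ?_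
  exact integral_congr_ae (Eventually.of_forall fun x => mul_comm _ _)

/-- `⟨Theta f g, Rk φ⟩`, `⟨Theta f g, dRk φ⟩` -/
private lemma theta_in (hI : St_Iso) {f g φ : E → ℝ} (hf : IsTest f) (hg : IsTest g)
    (h : IsTest φ) : inner ℝ (Theta f g) (Rk φ) = ∫ x, f x * φ x ∧
      inner ℝ (Theta f g) (dRk φ) = ∫ x, g x * φ x := by
  constructor
  · have h1 := (hI f φ (sch hf) (sch h)).1
    have h2 := (hI φ (lap g) (sch h) (sch (test_lap hg))).2.2
    rw [Theta, real_inner_smul_left, inner_sub_left, mul_sub, h1,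
      real_inner_comm (Rk φ) (dRk (lap g)), h2]
    ring
  · have h1 := (hI g φ (sch hg) (sch h)).2.1
    have h2 := (hI (lap (lap f)) φ (sch (test_lap (test_lap hf))) (sch h)).2.2
    rw [Theta, real_inner_smul_left, inner_sub_left, mul_sub, h1, h2]
    ring

private lemma theta_theta (hI : St_Iso) {f g f' g' : E → ℝ} (hf : IsTest f) (hg : IsTest g)
    (hf' : IsTest f') (hg' : IsTest g') : inner ℝ (Theta f g) (Theta f' g') =
      c0 * ((∫ x, lap f x * lap f' x) + ∑ i, ∫ x, pd i g x * pd i g' x) := by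
  have h1 := (theta_in hI hf hg (test_lap (test_lap hf'))).1
  have h2 := (theta_in hI hf hg (test_lap hg')).2
  have h3 : inner ℝ (Theta f g) (Theta f' g') =
      c0 * (inner ℝ (Theta f g) (Rk (lap (lap f'))) - inner ℝ (Theta f g) (dRk (lap g'))) := by
    conv_lhs => rw [show Theta f' g' = c0 • (Rk (lap (lap f')) - dRk (lap g')) from rfl]
    rw [real_inner_smul_right, inner_sub_right]
  rw [h3, h1, h2, ibp_lap2 hf hf', ibp_lap hg hg', sub_neg_eq_add]

/-! ### the operators -/

private lemma mkT (W : K → E → ℝ) (C : ℝ) (hC : 0 ≤ C) (h1 : ∀ k, MemLp (W k) 2 volume)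
    (h2 : ∀ k, eLpNorm (W k) 2 volume ≤ ENNReal.ofReal C * ‖k‖ₑ)
    (h3 : ∀ (c : ℝ) (k k' : K), W (k + c • k') =ᵐ[volume] fun x => W k x + c * W k' x) :
    ∃ T : K →L[ℝ] Lp ℝ 2 (volume : Measure E), ∀ k, T k = (h1 k).toLp (W k) := by
  have e1 : ∀ (c : ℝ) (k k' : K), (h1 (k + c • k')).toLp (W (k + c • k')) =
      (h1 k).toLp (W k) + c • (h1 k').toLp (W k') := by
    intro c k k'
    rw [← MemLp.toLp_const_smul, ← MemLp.toLp_add, MemLp.toLp_eq_toLp_iff]
    exact h3 c k k'
  have e0 : (h1 0).toLp (W 0) = 0 := by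
    have h := e1 1 0 0
    rw [one_smul, one_smul] at h
    have h' : (h1 ((0 : K) + 0)).toLp (W ((0 : K) + 0)) = (h1 0).toLp (W 0) := by
      simp only [add_zero]
    rw [h'] at h
    exact left_eq_add.1 h
  let L : K →ₗ[ℝ] Lp ℝ 2 (volume : Measure E) :=
    { toFun := fun k => (h1 k).toLp (W k)
      map_add' := fun k k' => by
        have h := e1 1 k k'
        rw [one_smul] at h
        simp only [one_smul] at h
        exact h
      map_smul' := fun c k => by
        have h := e1 c 0 k
        rw [e0, zero_add] at h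
        simp only [zero_add] at h
        exact h }
  refine ⟨L.mkContinuous C fun k => ?_, fun k => rfl⟩
  change ‖(h1 k).toLp (W k)‖ ≤ C * ‖k‖
  rw [Lp.norm_toLp]
  refine ENNReal.toReal_le_of_le_ofReal (by positivity) ((h2 k).trans_eq ?_)
  rw [ENNReal.ofReal_mul hC, ofReal_norm]

private lemma in_toLp {u v : E → ℝ} (hu : MemLp u 2 volume) (hv : MemLp v 2 volume) :
    ∫ x, u x * v x = inner ℝ (hu.toLp u) (hv.toLp v) := by
  rw [L2.inner_def]
  refine integral_congr_ae ?_
  filter_upwards [hu.coeFn_toLp, hv.coeFn_toLp] with x h1 h2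
  rw [h1, h2]
  simp [mul_comm]

private lemma dense_ind (hD : St_Dens) {P : K → Prop} (hc : IsClosed {k | P k})
    (h : ∀ f g : E → ℝ, IsTest f → IsTest g → P (Theta f g)) (k : K) : P k := by
  have h1 : k ∈ closure {k | P k} := by
    rw [Metric.mem_closure_iff]
    intro ε hε
    obtain ⟨f, g, hf, hg, h2⟩ := hD.2 k ε hε
    exact ⟨_, h f g hf hg, by rwa [dist_eq_norm]⟩
  rwa [hc.closure_eq] at h1

end IPx

open IPx in
theorem thm_IP (hI : St_Iso) (hD : St_Dens) (hF : St_Fld) (hL : St_Lin) : St_IP := by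
  obtain ⟨C, hC, hF⟩ := hF
  -- the operators
  have a1 : ∀ k : K, MemLp (LU k) 2 (volume : Measure E) := fun k =>
    memLp_finsetSum _ fun i _ => ((hF k).2.2.2.1 i i).1
  have a2 : ∀ k : K, eLpNorm (LU k) 2 (volume : Measure E) ≤ ENNReal.ofReal (5 * C) * ‖k‖ₑ := by
    intro k
    have h1 : LU k = ∑ i, DDU k i i := by
      funext x
      simp [LU]
    rw [h1]
    refine (eLpNorm_sum_le (fun i _ => ((hF k).2.2.2.1 i i).1.1) (by norm_num)).trans ?_
    refine (Finset.sum_le_sum fun i _ => ((hF k).2.2.2.1 i i).2.2).trans_eq ?_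
    rw [Finset.sum_const, Finset.card_univ, Fintype.card_fin, nsmul_eq_mul,
      ENNReal.ofReal_mul (by norm_num), mul_assoc]
    norm_num
  have a3 : ∀ (c : ℝ) (k k' : K), LU (k + c • k') =ᵐ[(volume : Measure E)]
      fun x => LU k x + c * LU k' x := by
    intro c k k'
    have h := fun i => (hL.1 c k k').2.2.2.1 i i
    filter_upwards [ae_all_iff.2 h] with x hx
    simp only [LU, hx, Finset.sum_add_distrib, Finset.mul_sum]
  obtain ⟨TL, hTL⟩ := mkT LU (5 * C) (by positivity) a1 a2 a3
  have b : ∀ i, ∃ T : K →L[ℝ] Lp ℝ 2 (volume : Measure E),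
      ∀ k, T k = ((hF k).2.2.2.2 i).1.toLp (DV k i) := fun i =>
    mkT (fun k => DV k i) C hC.le (fun k => ((hF k).2.2.2.2 i).1)
      (fun k => ((hF k).2.2.2.2 i).2.2) fun c k k' => (hL.1 c k k').2.2.2.2 i
  choose TV hTV using b
  have key : ∀ k k' : K, ((∫ x, LU k x * LU k' x) + ∑ i, ∫ x, DV k i x * DV k' i x) =
      inner ℝ (TL k) (TL k') + ∑ i, inner ℝ (TV i k) (TV i k') := by
    intro k k'
    rw [in_toLp (a1 k) (a1 k'), hTL, hTL]
    congr 1
    refine Finset.sum_congr rfl fun i _ => ?_
    rw [in_toLp ((hF k).2.2.2.2 i).1 ((hF k').2.2.2.2 i).1, hTV, hTV]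
  intro k k'
  rw [key]
  revert k'
  refine dense_ind hD (P := fun k => ∀ k' : K, inner ℝ k k' =
    c0 * (inner ℝ (TL k) (TL k') + ∑ i, inner ℝ (TV i k) (TV i k'))) ?_ ?_ k
  · rw [ofPred_forall]
    refine isClosed_iInter fun k' => isClosed_eq ?_ ?_
    · exact continuous_id.inner continuous_const
    · refine continuous_const.mul ((TL.continuous.inner continuous_const).add ?_)
      exact continuous_finsetSum _ fun i _ => (TV i).continuous.inner continuous_const
  · intro f g hf hg k'
    refine dense_ind hD (P := fun k' => inner ℝ (Theta f g) k' =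
      c0 * (inner ℝ (TL (Theta f g)) (TL k') + ∑ i, inner ℝ (TV i (Theta f g)) (TV i k'))) ?_ ?_ k'
    · refine isClosed_eq ?_ ?_
      · exact continuous_const.inner continuous_id
      · refine continuous_const.mul ((continuous_const.inner TL.continuous).add ?_)
        exact continuous_finsetSum _ fun i _ => continuous_const.inner (TV i).continuous
    · intro f' g' hf' hg'
      rw [theta_theta hI hf hg hf' hg', ← key]
      have l1 : ∀ {f g : E → ℝ}, IsTest f → IsTest g →
          LU (Theta f g) =ᵐ[(volume : Measure E)] lap f := by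
        intro f g hf hg
        have h := fun i => (hL.2.1 f g hf hg).2.2.2.1 i i
        filter_upwards [ae_all_iff.2 h] with x hx
        simp only [LU, lap, hx]
      congr 2
      · refine integral_congr_ae ?_
        filter_upwards [l1 hf hg, l1 hf' hg'] with x h1 h2
        rw [h1, h2]
      · refine Finset.sum_congr rfl fun i _ => integral_congr_ae ?_
        filter_upwards [(hL.2.1 f g hf hg).2.2.2.2 i, (hL.2.1 f' g' hf' hg').2.2.2.2 i] with x h1 h2
        rw [h1, h2]

end Pool.Agent.QWE
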