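import Pool.Agent.QWE.StE

set_option autoImplicit false

/-!
# QWE, Ind: multiplication operators on `K`
-/

open MeasureTheory Filter Topology Set
open scoped ENNReal NNReal RealInnerProductSpace

namespace Pool.Agent.QWE

namespace Indx

lemma indK_coe (A : Set (S × ℝ)) (k : K) (hA : MeasurableSet A) :
    (indK A k : S × ℝ → ℝ) =ᵐ[mu] A.indicator k := by
  unfold indK
  have h1 : Measurable (A.indicator fun _ : S × ℝ => (1 : ℝ)) := measurable_const.indicator hA
  have h2 : ∀ z : S × ℝ, |A.indicator (fun _ : S × ℝ => (1 : ℝ)) z| ≤ 1 := by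
    intro z
    by_cases hz : z ∈ A
    · rw [indicator_of_mem hz, abs_one]
    · rw [indicator_of_notMem hz, abs_zero]; norm_num
  filter_upwards [mulK_coe h1 h2 k] with z hz
  rw [hz]
  by_cases hz' : z ∈ A
  · rw [indicator_of_mem hz', indicator_of_mem hz', one_mul]
  · rw [indicator_of_notMem hz', indicator_of_notMem hz', zero_mul]

lemma indK_mono (A B : Set (S × ℝ)) (k : K) (hA : MeasurableSet A) (hB : MeasurableSet B)
    (h : A ⊆ B) : ‖indK A k‖ ≤ ‖indK B k‖ := by
  refine Lp.norm_le_norm_of_ae_le ?_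
  filter_upwards [indK_coe A k hA, indK_coe B k hB] with z h1 h2
  rw [h1, h2]
  by_cases hz : z ∈ A
  · rw [indicator_of_mem hz, indicator_of_mem (h hz)]
  · rw [indicator_of_notMem hz, norm_zero]; exact norm_nonneg _

lemma mulK_le (θ : S × ℝ → ℝ) (k : K) : ‖mulK θ k‖ ≤ ‖k‖ := by
  by_cases h : Measurable θ ∧ ∀ z, |θ z| ≤ 1
  · have h1 : mulK θ k = mulLin h k := by
      rw [mulK, dif_pos h]; rfl
    rw [h1]
    have h2 := mulLin_le h k
    rwa [one_mul] at h2
  · rw [mulK, dif_neg h, zero_apply, norm_zero]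
    exact norm_nonneg _

lemma indK_union (A B : Set (S × ℝ)) (k : K) (hA : MeasurableSet A) (hB : MeasurableSet B) :
    ‖indK (A ∪ B) k‖ ≤ ‖indK A k‖ + ‖indK B k‖ := by
  have hBA : MeasurableSet (B \ A) := hB.diff hA
  have h1 : indK (A ∪ B) k = indK A k + indK (B \ A) k := by
    apply Lp.ext
    filter_upwards [indK_coe (A ∪ B) k (hA.union hB), indK_coe A k hA, indK_coe (B \ A) k hBA,
      Lp.coeFn_add (indK A k) (indK (B \ A) k)] with z e1 e2 e3 e4
    rw [e1, e4, Pi.add_apply, e2, e3]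
    by_cases hz : z ∈ A
    · have h2 : z ∉ B \ A := fun h => h.2 hz
      have h3 : z ∈ A ∪ B := Or.inl hz
      rw [indicator_of_mem h3, indicator_of_mem hz, indicator_of_notMem h2, add_zero]
    · by_cases hz' : z ∈ B
      · have h2 : z ∈ B \ A := ⟨hz', hz⟩
        have h3 : z ∈ A ∪ B := Or.inr hz'
        rw [indicator_of_mem h3, indicator_of_notMem hz, indicator_of_mem h2, zero_add]
      · have h2 : z ∉ B \ A := fun h => hz' h.1
        have h3 : z ∉ A ∪ B := fun h => h.elim hz hz'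
        rw [indicator_of_notMem h3, indicator_of_notMem hz, indicator_of_notMem h2, zero_add]
  rw [h1]
  exact (norm_add_le _ _).trans (add_le_add le_rfl
    (indK_mono (B \ A) B k hBA hB sdiff_subset))

/-- Multiplication by an indicator and a measure preserving substitution. -/
lemma indK_comp (A A' : Set (S × ℝ)) (k Tk Tk' : K) (e : S × ℝ → S × ℝ)
    (he : MeasurePreserving e mu mu) (hA : MeasurableSet A) (hA' : MeasurableSet A')
    (h1 : (Tk : S × ℝ → ℝ) =ᵐ[mu] fun z => k (e z))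
    (h2 : (Tk' : S × ℝ → ℝ) =ᵐ[mu] fun z => (indK A' k) (e z))
    (h : ∀ z, e z ∈ A' ↔ z ∈ A) : indK A Tk = Tk' := by
  apply Lp.ext
  filter_upwards [indK_coe A Tk hA, h1, h2, he.quasiMeasurePreserving.ae (indK_coe A' k hA')]
    with z e1 e2 e3 e4
  rw [e1, e3, e4]
  by_cases hz : z ∈ A
  · rw [indicator_of_mem hz, indicator_of_mem ((h z).2 hz), e2]
  · rw [indicator_of_notMem hz, indicator_of_notMem (fun h' => hz ((h z).1 h'))]

lemma mulK_ind (θ : S × ℝ → ℝ) (B : Set (S × ℝ)) (k : K) (h1 : Measurable θ)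
    (h2 : ∀ z, |θ z| ≤ 1) (hB : MeasurableSet B) (h : ∀ z, θ z ≠ 0 → z ∈ B) :
    ‖mulK θ k‖ ≤ ‖indK B k‖ := by
  refine Lp.norm_le_norm_of_ae_le ?_
  filter_upwards [mulK_coe h1 h2 k, indK_coe B k hB] with z e1 e2
  rw [e1, e2]
  by_cases hz : z ∈ B
  · rw [indicator_of_mem hz, norm_mul]
    calc ‖θ z‖ * ‖k z‖ ≤ 1 * ‖k z‖ := by gcongr; exact h2 z
      _ = ‖k z‖ := one_mul _
  · have h3 : θ z = 0 := by
      by_contra h4
      exact hz (h z h4)
    rw [h3, zero_mul, norm_zero]
    exact norm_nonneg _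

end Indx

open Indx in
theorem thm_Ind : St_Ind := by
  refine ⟨indK_coe, indK_mono, mulK_le, indK_union, ?_, ?_, ?_, mulK_ind, ?_⟩
  · intro A k s hA
    have hm : Measurable fun z : S × ℝ => (z.1, z.2 + s) := by fun_prop
    refine indK_comp A {z | (z.1, z.2 + s) ∈ A} k (tau s k) _ (fun z => (z.1, z.2 - s))
      (mp_shift (g := fun _ => s) measurable_const) hA (hm hA) (tau_coe s k) (tau_coe s _) ?_
    intro z
    simp
  · intro A k hA
    have hm : Measurable fun z : S × ℝ => (-z.1, -z.2) := mp_rev.measurable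
    refine indK_comp A {z | (-z.1, -z.2) ∈ A} k (rev k) _ (fun z => (-z.1, -z.2))
      mp_rev hA (hm hA) (rev_coe k) (rev_coe _) ?_
    intro z
    simp
  · intro A k y hA
    have hm : Measurable fun z : S × ℝ => (z.1, z.2 + inner ℝ y (z.1 : E)) := by fun_prop
    refine indK_comp A {z | (z.1, z.2 + inner ℝ y (z.1 : E)) ∈ A} k (sh y k) _
      (fun z => (z.1, z.2 - inner ℝ y (z.1 : E)))
      (mp_shift (g := fun w : S => inner ℝ y (w : E)) (by fun_prop)) hA (hm hA) (sh_coe y k)
      (sh_coe y _) ?_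
    intro z
    simp
  · intro θ B k h1 h2 hB h0 h
    have h3 := mulK_ind θ B k h1 h2 hB h
    rw [h0, norm_zero] at h3
    exact norm_le_zero_iff.1 h3

end Pool.Agent.QWE
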