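import Pool.Agent.QWE.StG
import Pool.Agent.QWE.NLb

set_option autoImplicit false

/-!
# QWE, Int0: the interaction term, pointwise in time
-/

open MeasureTheory Filter Topology Set
open scoped ENNReal NNReal RealInnerProductSpace

namespace Pool.Agent.QWE

namespace Int0x

lemma add_eq (k k' : K) : k + (1 : ℝ) • k' = k + k' := by
  rw [one_smul]

lemma U_add (lin : St_Lin) (k k' : K) :
    U (k + k') =ᵐ[volume] fun x => U k x + U k' x := by
  have h := (lin.1 1 k k').1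
  rw [add_eq] at h
  filter_upwards [h] with x hx
  rw [hx]; ring

lemma DU_add (lin : St_Lin) (k k' : K) (i : Fin 5) :
    DU (k + k') i =ᵐ[volume] fun x => DU k i x + DU k' i x := by
  have h := (lin.1 1 k k').2.2.1 i
  rw [add_eq] at h
  filter_upwards [h] with x hx
  rw [hx]; ring

lemma sn_add (fld : St_Fld) (lin : St_Lin) (k k' : K) : sn (k + k') ≤ sn k + sn k' := by
  obtain ⟨C, hC, hfld⟩ := fld
  unfold sn
  rw [eLpNorm_congr_ae (U_add lin k k')]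
  exact eLpNorm_add_le (hfld k).1.1.1 (hfld k').1.1.1 (by norm_num)

lemma int3 {f g h : E → ℝ} (hf : Integrable f volume) (hg : Integrable g volume)
    (hh : Integrable h volume) :
    ∫ x, (f x - g x - h x) = (∫ x, f x) - (∫ x, g x) - ∫ x, h x := by
  have h1 : ∫ x, (f x - g x - h x) = (∫ x, (f x - g x)) - ∫ x, h x :=
    integral_sub (hf.sub hg) hh
  rw [h1, integral_sub hf hg]

lemma pw4 (a b : ℝ) : |(a + b) ^ 4 - a ^ 4| ≤ 15 * (|b| * (|a| ^ 3 + |b| ^ 3)) := by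
  have e1 : (a + b) ^ 4 - a ^ 4 = b * (4 * a ^ 3 + 6 * (a ^ 2 * b) + 4 * (a * b ^ 2) + b ^ 3) := by
    ring
  have ha := abs_nonneg a
  have hb := abs_nonneg b
  have e2 : |4 * a ^ 3 + 6 * (a ^ 2 * b) + 4 * (a * b ^ 2) + b ^ 3| ≤
      4 * |a| ^ 3 + 6 * (|a| ^ 2 * |b|) + 4 * (|a| * |b| ^ 2) + |b| ^ 3 := by
    refine (abs_add_le _ _).trans (add_le_add ((abs_add_le _ _).trans (add_le_add
      ((abs_add_le _ _).trans (add_le_add ?_ ?_)) ?_)) ?_) <;>
    simp only [abs_mul, abs_pow, Nat.abs_ofNat, le_refl]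
  have e3 : |a| ^ 2 * |b| ≤ |a| ^ 3 + |b| ^ 3 := by
    nlinarith [mul_nonneg ha (sq_nonneg (|a| - |b|)), mul_nonneg hb (sq_nonneg (|a| - |b|)),
      pow_nonneg ha 3, pow_nonneg hb 3, mul_nonneg ha (sq_nonneg |b|)]
  have e4 : |a| * |b| ^ 2 ≤ |a| ^ 3 + |b| ^ 3 := by
    nlinarith [mul_nonneg ha (sq_nonneg (|a| - |b|)), mul_nonneg hb (sq_nonneg (|a| - |b|)),
      pow_nonneg ha 3, pow_nonneg hb 3, mul_nonneg hb (sq_nonneg |a|)]
  rw [e1, abs_mul]
  have e5 : |b| * |4 * a ^ 3 + 6 * (a ^ 2 * b) + 4 * (a * b ^ 2) + b ^ 3| ≤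
      |b| * (15 * (|a| ^ 3 + |b| ^ 3)) := by
    refine mul_le_mul_of_nonneg_left (e2.trans ?_) hb
    nlinarith [pow_nonneg ha 3, pow_nonneg hb 3]
  linarith

end Int0x

open Int0x NLbx in
theorem thm_Int0 (nlb : St_NLb) (gam : St_GamE) (dens : St_Dens) (lin : St_Lin) (fld : St_Fld) :
    St_Int0 := by
  have hc0 : 0 < √c0 := Real.sqrt_pos.2 c0_pos
  refine ⟨√c0 * 75, by positivity, ?_⟩
  intro k k' hk hk'
  have hs : sn (k + k') < ⊤ := (sn_add fld lin k k').trans_lt (ENNReal.add_lt_top.2 ⟨hk, hk'⟩)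
  obtain ⟨a2, a3, aG, -, -, aW⟩ := nlb.2 (k + k') hs
  obtain ⟨b2, b3, bG, -, -, bW⟩ := nlb.2 k hk
  obtain ⟨c2, c3, cG, -, -, cW⟩ := nlb.2 k' hk'
  obtain ⟨C, hC, hfld⟩ := id fld
  have hWD : ∀ i, MemLp (fun x => 5 * U (k + k') x ^ 4 * DU (k + k') i x -
      5 * U k x ^ 4 * DU k i x - 5 * U k' x ^ 4 * DU k' i x) 2
      volume ∧ WD i (fun x => U (k + k') x ^ 5 - U k x ^ 5 - U k' x ^ 5)
      (fun x => 5 * U (k + k') x ^ 4 * DU (k + k') i x -
      5 * U k x ^ 4 * DU k i x - 5 * U k' x ^ 4 * DU k' i x) := by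
    intro i
    refine ⟨((aW i).1.sub (bW i).1).sub (cW i).1, ?_⟩
    intro φ hφ
    have t : ENNReal.HolderTriple 2 2 1 :=
      ht (by norm_num) (by norm_num) (by norm_num) (by norm_num)
    have j1 : ∀ {f : E → ℝ} {ψ : E → ℝ}, MemLp f 2 volume → IsTest ψ →
        Integrable (fun x => f x * ψ x) volume := fun hf hψ =>
      memLp_one_iff_integrable.1 (hoelM 2 2 t hf (test_memLp hψ 2))
    have e1 : (fun x => (U (k + k') x ^ 5 - U k x ^ 5 - U k' x ^ 5) * pd i φ x) =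
        fun x => U (k + k') x ^ 5 * pd i φ x - U k x ^ 5 * pd i φ x -
          U k' x ^ 5 * pd i φ x := by ext x; ring
    have e2 : (fun x => (5 * U (k + k') x ^ 4 * DU (k + k') i x -
        5 * U k x ^ 4 * DU k i x - 5 * U k' x ^ 4 * DU k' i x) * φ x) =
        fun x => 5 * U (k + k') x ^ 4 * DU (k + k') i x * φ x -
          5 * U k x ^ 4 * DU k i x * φ x - 5 * U k' x ^ 4 * DU k' i x * φ x := by
      ext x; ring
    have e3 := int3 (j1 a2 (test_pd hφ i)) (j1 b2 (test_pd hφ i)) (j1 c2 (test_pd hφ i))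
    have e4 := int3 (j1 (aW i).1 hφ) (j1 (bW i).1 hφ) (j1 (cW i).1 hφ)
    rw [e1, e2, e3, e4, (aW i).2.1 φ hφ, (bW i).2.1 φ hφ, (cW i).2.1 φ hφ]
    ring
  have n2 : MemLp (fun x => U (k + k') x ^ 5 - U k x ^ 5 - U k' x ^ 5) 2 volume :=
    (a2.sub b2).sub c2
  have n3 : MemLp (fun x => U (k + k') x ^ 5 - U k x ^ 5 - U k' x ^ 5) (10 / 3) volume :=
    (a3.sub b3).sub c3
  obtain ⟨q1, q2, -⟩ := gam _ _ n2 n3 hWD
  have huni : NL (k + k') - NL k - NL k' =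
      Gam (fun x => U (k + k') x ^ 5 - U k x ^ 5 - U k' x ^ 5) := by
    refine uniq dens fun φ hφ => ?_
    have t : ENNReal.HolderTriple 2 2 1 :=
      ht (by norm_num) (by norm_num) (by norm_num) (by norm_num)
    have j1 : ∀ {f : E → ℝ}, MemLp f 2 volume → Integrable (fun x => f x * φ x) volume :=
      fun hf => memLp_one_iff_integrable.1 (hoelM 2 2 t hf (test_memLp hφ 2))
    have r1 := q1 φ hφ
    rw [inner_sub_left, inner_sub_left, inner_sub_left, inner_sub_left, (aG φ hφ).1, (bG φ hφ).1,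
      (cG φ hφ).1, (aG φ hφ).2, (bG φ hφ).2, (cG φ hφ).2]
    refine ⟨by rw [sub_zero, sub_zero]; exact r1.1.symm, ?_⟩
    have e1 : (fun x => (U (k + k') x ^ 5 - U k x ^ 5 - U k' x ^ 5) * φ x) =
        fun x => U (k + k') x ^ 5 * φ x - U k x ^ 5 * φ x - U k' x ^ 5 * φ x := by ext x; ring
    have e2 : ∫ x, (U (k + k') x ^ 5 - U k x ^ 5 - U k' x ^ 5) * φ x =
        (∫ x, U (k + k') x ^ 5 * φ x) - (∫ x, U k x ^ 5 * φ x) - ∫ x, U k' x ^ 5 * φ x := by
      rw [e1]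
      exact int3 (j1 a2) (j1 b2) (j1 c2)
    exact e2.symm.trans r1.2.symm
  rw [huni]
  refine (gam_le q2 fun i => (hWD i).1).trans ?_
  rw [ENNReal.ofReal_mul hc0.le, mul_assoc]
  refine mul_le_mul' le_rfl ?_
  rw [Finset.mul_sum]
  refine Finset.sum_le_sum fun i _ => ?_
  have m1 : AEStronglyMeasurable (U k) volume := (hfld k).1.1.1
  have m2 : AEStronglyMeasurable (U k') volume := (hfld k').1.1.1
  have m3 : AEStronglyMeasurable (DU k i) volume := ((hfld k).2.2.1 i).1.1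
  have m4 : AEStronglyMeasurable (DU k' i) volume := ((hfld k').2.2.1 i).1.1
  have m5 : AEStronglyMeasurable (fun x => |U k x| ^ 3 + |U k' x| ^ 3) volume :=
    (m1.norm.pow 3).add (m2.norm.pow 3)
  have mX : AEStronglyMeasurable
      (fun x => |U k' x| * (|U k x| ^ 3 + |U k' x| ^ 3) * |DU k i x|) volume :=
    (m2.norm.mul m5).mul m3.norm
  have mY : AEStronglyMeasurable
      (fun x => |U k x| * (|U k x| ^ 3 + |U k' x| ^ 3) * |DU k' i x|) volume :=
    (m1.norm.mul m5).mul m4.norm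
  have hle := eLpNorm_add_le (μ := (volume : Measure E)) mX mY (by norm_num : (1 : ℝ≥0∞) ≤ 2)
  have hc : ‖(75 : ℝ)‖ₑ = ENNReal.ofReal 75 := Real.enorm_eq_ofReal (by norm_num)
  have hcs := eLpNorm_const_smul (75 : ℝ)
    ((fun x => |U k' x| * (|U k x| ^ 3 + |U k' x| ^ 3) * |DU k i x|) +
      fun x => |U k x| * (|U k x| ^ 3 + |U k' x| ^ 3) * |DU k' i x|) 2 (volume : Measure E)
  rw [hc] at hcs
  refine le_trans ?_ (mul_le_mul' le_rfl hle)
  rw [← hcs]
  refine eLpNorm_mono_ae ?_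
  filter_upwards [U_add lin k k', DU_add lin k k' i] with x h1 h2
  rw [h1, h2]
  simp only [Pi.smul_apply, Pi.add_apply, smul_eq_mul, Real.norm_eq_abs]
  set a := U k x
  set b := U k' x
  set d := DU k i x
  set e := DU k' i x
  have e1 : 5 * (a + b) ^ 4 * (d + e) - 5 * a ^ 4 * d - 5 * b ^ 4 * e =
      5 * (((a + b) ^ 4 - a ^ 4) * d) + 5 * (((b + a) ^ 4 - b ^ 4) * e) := by ring
  rw [e1]
  have p1 := mul_le_mul_of_nonneg_right (pw4 a b) (abs_nonneg d)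
  have p2 := mul_le_mul_of_nonneg_right (pw4 b a) (abs_nonneg e)
  rw [← abs_mul] at p1 p2
  refine (abs_add_le _ _).trans (le_trans ?_ (le_abs_self _))
  rw [abs_mul 5, abs_mul 5 (((b + a) ^ 4 - b ^ 4) * e), abs_of_pos (by norm_num : (0 : ℝ) < 5)]
  nlinarith

end Pool.Agent.QWE
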