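import Pool.Agent.QWE.StG
import Pool.Agent.QWE.NLb

set_option autoImplicit false

/-!
# QWE, Int1: the interaction term, split into a local part and errors
-/

open MeasureTheory Filter Topology Set
open scoped ENNReal NNReal RealInnerProductSpace

namespace Pool.Agent.QWE

namespace Int1x

open NLbx

lemma e_abs {f : E → ℝ} (p : ℝ≥0∞) : eLpNorm (fun x => |f x|) p volume = eLpNorm f p volume :=
  eLpNorm_congr_norm_ae (Eventually.of_forall fun x => by simp)

lemma tri3 {T P Q R : E → ℝ} (mP : AEStronglyMeasurable P volume)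
    (mQ : AEStronglyMeasurable Q volume) (mR : AEStronglyMeasurable R volume)
    (h : ∀ x, |T x| ≤ |P x| + |Q x| + |R x|) :
    eLpNorm T 2 volume ≤ eLpNorm P 2 volume + eLpNorm Q 2 volume + eLpNorm R 2 volume := by
  have h1 : eLpNorm T 2 volume ≤
      eLpNorm (((fun x => |P x|) + fun x => |Q x|) + fun x => |R x|) 2 volume := by
    refine eLpNorm_mono fun x => ?_
    simp only [Pi.add_apply, Real.norm_eq_abs]
    exact (h x).trans (le_abs_self _)
  have h2 := eLpNorm_add_le (μ := (volume : Measure E)) (mP.norm.add mQ.norm) mR.norm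
    (by norm_num : (1 : ℝ≥0∞) ≤ 2)
  have h3 := eLpNorm_add_le (μ := (volume : Measure E)) mP.norm mQ.norm
    (by norm_num : (1 : ℝ≥0∞) ≤ 2)
  rw [← e_abs (f := P), ← e_abs (f := Q), ← e_abs (f := R)]
  exact h1.trans (h2.trans (add_le_add h3 le_rfl))

lemma tri2 {T P Q : E → ℝ} (mP : AEStronglyMeasurable P volume)
    (mQ : AEStronglyMeasurable Q volume) (h : ∀ x, |T x| ≤ |P x| + |Q x|) :
    eLpNorm T 2 volume ≤ eLpNorm P 2 volume + eLpNorm Q 2 volume := by
  have h1 := tri3 (T := T) mP mQ (aestronglyMeasurable_const (b := (0 : ℝ)))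
    (fun x => by simpa using h x)
  have h2 : eLpNorm (fun _ : E => (0 : ℝ)) 2 volume = 0 := by simp
  rwa [h2, add_zero] at h1

lemma cst {f : E → ℝ} {c : ℝ} (hc : 0 ≤ c) (p : ℝ≥0∞) :
    eLpNorm (fun x => c * f x) p volume = ENNReal.ofReal c * eLpNorm f p volume := by
  have h := eLpNorm_const_smul c f p (volume : Measure E)
  rw [Real.enorm_eq_ofReal hc] at h
  exact h

/-- four factors -/
lemma hA {B f g h : E → ℝ} (mB : AEStronglyMeasurable B volume)
    (mf : AEStronglyMeasurable f volume) (mg : AEStronglyMeasurable g volume)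
    (mh : AEStronglyMeasurable h volume) :
    eLpNorm (fun x => B x * (f x * (g x * g x) * h x)) 2 volume ≤
      eLpNorm B (30 / 7) volume * (eLpNorm f 15 volume *
        (eLpNorm g 20 volume * eLpNorm g 20 volume) * eLpNorm h 10 volume) := by
  have t1 : ENNReal.HolderTriple 20 20 10 :=
    ht (by norm_num) (by norm_num) (by norm_num) (by norm_num)
  have t2 : ENNReal.HolderTriple 15 10 6 :=
    ht (by norm_num) (by norm_num) (by norm_num) (by norm_num)
  have t3 : ENNReal.HolderTriple 6 10 (15 / 4) :=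
    ht (by norm_num) (by norm_num) (by norm_num) (by norm_num)
  have t4 : ENNReal.HolderTriple (30 / 7) (15 / 4) 2 :=
    ht (by norm_num) (by norm_num) (by norm_num) (by norm_num)
  have n1 : AEStronglyMeasurable (fun x => g x * g x) volume := mg.mul mg
  have n2 : AEStronglyMeasurable (fun x => f x * (g x * g x)) volume := mf.mul n1
  have n3 : AEStronglyMeasurable (fun x => f x * (g x * g x) * h x) volume := n2.mul mh
  refine (hoel _ _ t4 mB n3).trans (mul_le_mul' le_rfl ?_)
  refine (hoel _ _ t3 n2 mh).trans (mul_le_mul' ?_ le_rfl)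
  refine (hoel _ _ t2 mf n1).trans (mul_le_mul' le_rfl ?_)
  exact hoel _ _ t1 mg mg

/-- four factors -/
lemma hB {B f g h : E → ℝ} (mB : AEStronglyMeasurable B volume)
    (mf : AEStronglyMeasurable f volume) (mg : AEStronglyMeasurable g volume)
    (mh : AEStronglyMeasurable h volume) :
    eLpNorm (fun x => B x * (f x * (g x * g x) * h x)) 2 volume ≤
      eLpNorm B 30 volume * (eLpNorm f 15 volume *
        (eLpNorm g 20 volume * eLpNorm g 20 volume) * eLpNorm h (10 / 3) volume) := by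
  have t1 : ENNReal.HolderTriple 20 20 10 :=
    ht (by norm_num) (by norm_num) (by norm_num) (by norm_num)
  have t2 : ENNReal.HolderTriple 15 10 6 :=
    ht (by norm_num) (by norm_num) (by norm_num) (by norm_num)
  have t3 : ENNReal.HolderTriple 6 (10 / 3) (15 / 7) :=
    ht (by norm_num) (by norm_num) (by norm_num) (by norm_num)
  have t4 : ENNReal.HolderTriple 30 (15 / 7) 2 :=
    ht (by norm_num) (by norm_num) (by norm_num) (by norm_num)
  have n1 : AEStronglyMeasurable (fun x => g x * g x) volume := mg.mul mg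
  have n2 : AEStronglyMeasurable (fun x => f x * (g x * g x)) volume := mf.mul n1
  have n3 : AEStronglyMeasurable (fun x => f x * (g x * g x) * h x) volume := n2.mul mh
  refine (hoel _ _ t4 mB n3).trans (mul_le_mul' le_rfl ?_)
  refine (hoel _ _ t3 n2 mh).trans (mul_le_mul' ?_ le_rfl)
  refine (hoel _ _ t2 mf n1).trans (mul_le_mul' le_rfl ?_)
  exact hoel _ _ t1 mg mg

/-- cubes -/
lemma cub {f : E → ℝ} (mf : AEStronglyMeasurable f volume) :
    eLpNorm (fun x => |f x| ^ 3) (20 / 3) volume ≤ eLpNorm f 20 volume ^ 3 := by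
  have t1 : ENNReal.HolderTriple 20 20 10 :=
    ht (by norm_num) (by norm_num) (by norm_num) (by norm_num)
  have t2 : ENNReal.HolderTriple 20 10 (20 / 3) :=
    ht (by norm_num) (by norm_num) (by norm_num) (by norm_num)
  have e : eLpNorm (fun x => |f x| ^ 3) (20 / 3) volume =
      eLpNorm (fun x => f x * (f x * f x)) (20 / 3) volume :=
    eLpNorm_congr_norm_ae (Eventually.of_forall fun x => by
      simp only [Real.norm_eq_abs, abs_mul, abs_pow, abs_abs]; ring)
  have n1 : AEStronglyMeasurable (fun x => f x * f x) volume := mf.mul mf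
  rw [e]
  refine (hoel _ _ t2 mf n1).trans ?_
  calc eLpNorm f 20 volume * eLpNorm (fun x => f x * f x) 10 volume
      ≤ eLpNorm f 20 volume * (eLpNorm f 20 volume * eLpNorm f 20 volume) :=
        mul_le_mul' le_rfl (hoel _ _ t1 mf mf)
    _ = _ := by ring

/-- `|f| |g|³ d` in `L²` -/
lemma hC {f g d : E → ℝ} (mf : AEStronglyMeasurable f volume)
    (mg : AEStronglyMeasurable g volume) (md : AEStronglyMeasurable d volume) :
    eLpNorm (fun x => f x * |g x| ^ 3 * d x) 2 volume ≤
      eLpNorm f 20 volume * eLpNorm g 20 volume ^ 3 * eLpNorm d (10 / 3) volume := by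
  have t1 : ENNReal.HolderTriple 20 (20 / 3) 5 :=
    ht (by norm_num) (by norm_num) (by norm_num) (by norm_num)
  have t : ENNReal.HolderTriple 5 (10 / 3) 2 :=
    ht (by norm_num) (by norm_num) (by norm_num) (by norm_num)
  have n1 : AEStronglyMeasurable (fun x => |g x| ^ 3) volume := mg.norm.pow 3
  have n2 : AEStronglyMeasurable (fun x => f x * |g x| ^ 3) volume := mf.mul n1
  refine (hoel _ _ t n2 md).trans (mul_le_mul' ?_ le_rfl)
  exact (hoel _ _ t1 mf n1).trans (mul_le_mul' le_rfl (cub mg))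

end Int1x

open Int1x NLbx in
theorem thm_Int1 (int0 : St_Int0) (fld : St_Fld) : St_Int1 := by
  obtain ⟨C0, hC0, h0⟩ := int0
  obtain ⟨C1, hC1, hfld⟩ := fld
  refine ⟨40 * C0 * (1 + C1), by positivity, ?_⟩
  intro m hm
  set B : Set E := Metric.ball 0 m with hBdef
  have hBm : MeasurableSet B := Metric.isOpen_ball.measurableSet
  have hBf : volume B < ⊤ := measure_ball_lt_top
  set B1 : E → ℝ := B.indicator (fun _ => 1) with hB1
  have mB1 : ∀ p : ℝ≥0∞, MemLp B1 p volume := fun p =>
    memLp_indicator_const p hBm 1 (Or.inr hBf.ne)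
  have aB1 : AEStronglyMeasurable B1 volume := (mB1 1).1
  obtain ⟨K1, hK1⟩ : ∃ K1, K1 = eLpNorm B1 (30 / 7) volume := ⟨_, rfl⟩
  obtain ⟨K2, hK2⟩ : ∃ K2, K2 = eLpNorm B1 30 volume := ⟨_, rfl⟩
  have fK1 : K1 ≠ ⊤ := hK1 ▸ (mB1 _).2.ne
  have fK2 : K2 ≠ ⊤ := hK2 ▸ (mB1 _).2.ne
  set M : ℝ≥0∞ := ENNReal.ofReal m with hM
  set c0' : ℝ≥0∞ := ENNReal.ofReal C0 with hc0'
  set c1 : ℝ≥0∞ := ENNReal.ofReal C1 with hc1
  have fM : M ≠ ⊤ := ENNReal.ofReal_ne_top
  have fc0 : c0' ≠ ⊤ := ENNReal.ofReal_ne_top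
  have fc1 : c1 ≠ ⊤ := ENNReal.ofReal_ne_top
  obtain ⟨κ, hκ⟩ : ∃ κ, κ = c0' * (5 * M * K1 * c1 + 5 * M * K2 * c1 + 8 * M ^ 4) := ⟨_, rfl⟩
  have fκ : κ ≠ ⊤ := by
    rw [hκ]
    finiteness
  refine ⟨κ.toReal + 1, by positivity, ?_⟩
  have hκ1 : κ ≤ ENNReal.ofReal (κ.toReal + 1) := by
    rw [ENNReal.ofReal_add ENNReal.toReal_nonneg zero_le_one, ENNReal.ofReal_toReal fκ]
    exact le_self_add
  intro k k' H ε hk hk' hHm hHb hH0 hHε
  have ma : AEStronglyMeasurable (U k) volume := (hfld k).1.1.1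
  have mb : AEStronglyMeasurable (U k') volume := (hfld k').1.1.1
  have mD : ∀ i, AEStronglyMeasurable (DU k i) volume := fun i => ((hfld k).2.2.1 i).1.1
  have mD' : ∀ i, AEStronglyMeasurable (DU k' i) volume := fun i => ((hfld k').2.2.1 i).1.1
  obtain ⟨s, hs⟩ : ∃ s, s = sn k := ⟨_, rfl⟩
  obtain ⟨s', hs'⟩ : ∃ s', s' = sn k' := ⟨_, rfl⟩
  obtain ⟨q, hq⟩ : ∃ q, q = qm m k := ⟨_, rfl⟩
  have hs0 : eLpNorm (U k) 20 volume = s := hs.symm
  have hs0' : eLpNorm (U k') 20 volume = s' := hs'.symm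
  obtain ⟨f, hf⟩ : ∃ f : E → ℝ, f = B.indicator (U k') := ⟨_, rfl⟩
  have mf : AEStronglyMeasurable f volume := hf ▸ mb.indicator hBm
  obtain ⟨N, hN⟩ : ∃ N, N = eLpNorm f 15 volume := ⟨_, rfl⟩
  obtain ⟨r, hr⟩ : ∃ r : E → ℝ, r = fun x => max 0 (|U k x| - m) + |Bᶜ.indicator (U k) x| :=
    ⟨_, rfl⟩
  have mr1 : AEStronglyMeasurable (fun x => max 0 (|U k x| - m)) volume := by
    have h1 := ma.norm.sub (aestronglyMeasurable_const (b := m))
    exact (aestronglyMeasurable_const (b := (0 : ℝ))).sup h1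
  have mr2 : AEStronglyMeasurable (fun x => |Bᶜ.indicator (U k) x|) volume :=
    (ma.indicator hBm.compl).norm
  have mr : AEStronglyMeasurable r volume := hr ▸ mr1.add mr2
  have hrq : eLpNorm r 20 volume ≤ q := by
    have h1 := eLpNorm_add_le (μ := (volume : Measure E)) mr1 mr2
      (by norm_num : (1 : ℝ≥0∞) ≤ 20)
    rw [e_abs (f := Bᶜ.indicator (U k))] at h1
    rw [hr, hq]
    exact h1
  have hr0 : ∀ x, 0 ≤ r x := fun x => by
    rw [hr]; exact add_nonneg (le_max_left _ _) (abs_nonneg _)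
  have hB10 : ∀ x, 0 ≤ B1 x := fun x => by
    rw [hB1]; exact indicator_nonneg (fun _ _ => zero_le_one) x
  have hax : ∀ x, |U k x| ≤ m * B1 x + r x := by
    intro x
    rw [hr, hB1]
    by_cases hx : x ∈ B
    · rw [indicator_of_mem hx]
      have h1 := le_max_right 0 (|U k x| - m)
      have h2 := abs_nonneg (Bᶜ.indicator (U k) x)
      simp only
      linarith
    · rw [indicator_of_notMem hx]
      have h1 := le_max_left 0 (|U k x| - m)
      have h2 : Bᶜ.indicator (U k) x = U k x := indicator_of_mem hx _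
      simp only
      rw [h2]
      linarith
  -- the first term
  have hX : ∀ i, eLpNorm (fun x => |U k' x| * (|U k x| ^ 3 + |U k' x| ^ 3) * |DU k i x|) 2 volume ≤
      M * K1 * c1 * (N * (s ^ 2 * ‖k‖ₑ + s' ^ 2 * ‖k'‖ₑ)) + ε * (s' * s ^ 3 + s' ^ 4) := by
    intro i
    have mE : AEStronglyMeasurable (fun x => DU k i x - H i x) volume :=
      (mD i).sub (hHm i).aestronglyMeasurable
    have n1 : AEStronglyMeasurable (fun x => m * (B1 x * (f x * (U k x * U k x) * U k x)))
        volume := (aB1.mul ((mf.mul (ma.mul ma)).mul ma)).const_mul m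
    have n2 : AEStronglyMeasurable (fun x => m * (B1 x * (f x * (U k' x * U k' x) * U k' x)))
        volume := (aB1.mul ((mf.mul (mb.mul mb)).mul mb)).const_mul m
    have n3 : AEStronglyMeasurable (fun x => U k' x * |U k x| ^ 3 * (DU k i x - H i x))
        volume := (mb.mul (ma.norm.pow 3)).mul mE
    have n4 : AEStronglyMeasurable (fun x => U k' x * |U k' x| ^ 3 * (DU k i x - H i x))
        volume := (mb.mul (mb.norm.pow 3)).mul mE
    have n34 : AEStronglyMeasurable (fun x => |U k' x * |U k x| ^ 3 * (DU k i x - H i x)| +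
      |U k' x * |U k' x| ^ 3 * (DU k i x - H i x)|) volume := n3.norm.add n4.norm
    have h1 := tri3 (T := fun x => |U k' x| * (|U k x| ^ 3 + |U k' x| ^ 3) * |DU k i x|)
      n1 n2 n34 (by
        intro x
        have p1 : |H i x| * |U k' x| ≤ m * (B1 x * |f x|) := by
          by_cases hx : x ∈ B
          · have e1 : B1 x = 1 := by rw [hB1, indicator_of_mem hx]
            have e2 : f x = U k' x := by rw [hf, indicator_of_mem hx]
            rw [e1, e2, one_mul]
            exact mul_le_mul_of_nonneg_right (hHb i x) (abs_nonneg _)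
          · have e1 : B1 x = 0 := by rw [hB1, indicator_of_notMem hx]
            have e3 : H i x = 0 := by
              apply hH0
              by_contra hc
              exact hx (mem_ball_zero_iff.2 (not_le.1 hc))
            rw [e1, e3, abs_zero, zero_mul, zero_mul, mul_zero]
        have p2 : |DU k i x| ≤ |H i x| + |DU k i x - H i x| := by
          have := abs_add_le (H i x) (DU k i x - H i x)
          rwa [add_sub_cancel] at this
        have a0 := abs_nonneg (U k x)
        have b0 := abs_nonneg (U k' x)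
        have e1 : |m * (B1 x * (f x * (U k x * U k x) * U k x))| =
            m * (B1 x * |f x|) * |U k x| ^ 3 := by
          simp only [abs_mul, abs_of_nonneg hm, abs_of_nonneg (hB10 x)]; ring
        have e2 : |m * (B1 x * (f x * (U k' x * U k' x) * U k' x))| =
            m * (B1 x * |f x|) * |U k' x| ^ 3 := by
          simp only [abs_mul, abs_of_nonneg hm, abs_of_nonneg (hB10 x)]; ring
        have e3 : |(|U k' x * |U k x| ^ 3 * (DU k i x - H i x)| +
            |U k' x * |U k' x| ^ 3 * (DU k i x - H i x)|)| =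
            |U k' x| * (|U k x| ^ 3 + |U k' x| ^ 3) * |DU k i x - H i x| := by
          rw [abs_of_nonneg (by positivity)]
          simp only [abs_mul, abs_pow, abs_abs]; ring
        have e4 : |(|U k' x| * (|U k x| ^ 3 + |U k' x| ^ 3) * |DU k i x|)| =
            |U k' x| * (|U k x| ^ 3 + |U k' x| ^ 3) * |DU k i x| := abs_of_nonneg (by positivity)
        rw [e1, e2, e3, e4]
        have hw : 0 ≤ |U k x| ^ 3 + |U k' x| ^ 3 := by positivity
        have p3 := mul_le_mul_of_nonneg_left p2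
          (by positivity : 0 ≤ |U k' x| * (|U k x| ^ 3 + |U k' x| ^ 3))
        have p4 := mul_le_mul_of_nonneg_right p1 hw
        linarith)
    refine h1.trans ?_
    rw [cst hm, cst hm]
    have q1 := hA (f := f) (g := U k) (h := U k) aB1 mf ma ma
    have q2 := hA (f := f) (g := U k') (h := U k') aB1 mf mb mb
    have q3 : eLpNorm (fun x => |U k' x * |U k x| ^ 3 * (DU k i x - H i x)| +
      |U k' x * |U k' x| ^ 3 * (DU k i x - H i x)|) 2 volume ≤ s' * s ^ 3 * ε + s' * s' ^ 3 * ε := by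
      have r1 := hC mb ma mE
      have r2 := hC mb mb mE
      rw [hs0, hs0'] at r1
      rw [hs0'] at r2
      have r3 := eLpNorm_add_le (μ := (volume : Measure E)) n3.norm n4.norm
        (by norm_num : (1 : ℝ≥0∞) ≤ 2)
      refine r3.trans (add_le_add ?_ ?_)
      · refine (le_of_eq (e_abs _)).trans (r1.trans (mul_le_mul' le_rfl (hHε i)))
      · refine (le_of_eq (e_abs _)).trans (r2.trans (mul_le_mul' le_rfl (hHε i)))
    rw [← hK1, ← hN, hs0] at q1
    rw [← hK1, ← hN, hs0'] at q2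
    have w1 := (hfld k).1.2
    have w2 := (hfld k').1.2
    calc M * eLpNorm (fun x => B1 x * (f x * (U k x * U k x) * U k x)) 2 volume +
          M * eLpNorm (fun x => B1 x * (f x * (U k' x * U k' x) * U k' x)) 2 volume +
          eLpNorm (fun x => |U k' x * |U k x| ^ 3 * (DU k i x - H i x)| +
            |U k' x * |U k' x| ^ 3 * (DU k i x - H i x)|) 2 volume
        ≤ M * (K1 * (N * (s * s) * (c1 * ‖k‖ₑ))) + M * (K1 * (N * (s' * s') * (c1 * ‖k'‖ₑ))) +
          (s' * s ^ 3 * ε + s' * s' ^ 3 * ε) := by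
          refine add_le_add (add_le_add (mul_le_mul' le_rfl (q1.trans ?_))
            (mul_le_mul' le_rfl (q2.trans ?_))) q3
          · exact mul_le_mul' le_rfl (mul_le_mul' le_rfl w1)
          · exact mul_le_mul' le_rfl (mul_le_mul' le_rfl w2)
      _ = _ := by ring
  -- the second term
  have hY : ∀ i, eLpNorm (fun x => |U k x| * (|U k x| ^ 3 + |U k' x| ^ 3) * |DU k' i x|) 2 volume ≤
      8 * M ^ 4 * eLpNorm (B.indicator (DU k' i)) 2 volume + 8 * c1 * (q ^ 4 * ‖k'‖ₑ) +
        (M * K2 * c1 * (N * (s' ^ 2 * ‖k'‖ₑ)) + c1 * (q * s' ^ 3 * ‖k'‖ₑ)) := by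
    intro i
    have n1 : AEStronglyMeasurable (fun x => 8 * m ^ 4 * B.indicator (DU k' i) x) volume :=
      ((mD' i).indicator hBm).const_mul _
    have n2 : AEStronglyMeasurable (fun x => 8 * (r x * |r x| ^ 3 * DU k' i x)) volume :=
      ((mr.mul (mr.norm.pow 3)).mul (mD' i)).const_mul _
    have n3 : AEStronglyMeasurable
        (fun x => m * (B1 x * (f x * (U k' x * U k' x) * DU k' i x))) volume :=
      (aB1.mul ((mf.mul (mb.mul mb)).mul (mD' i))).const_mul m
    have n4 : AEStronglyMeasurable (fun x => r x * |U k' x| ^ 3 * DU k' i x) volume :=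
      (mr.mul (mb.norm.pow 3)).mul (mD' i)
    have n12 : AEStronglyMeasurable (fun x => |8 * m ^ 4 * B.indicator (DU k' i) x| +
      |8 * (r x * |r x| ^ 3 * DU k' i x)|) volume := n1.norm.add n2.norm
    have n34 : AEStronglyMeasurable
        (fun x => |m * (B1 x * (f x * (U k' x * U k' x) * DU k' i x))| +
          |r x * |U k' x| ^ 3 * DU k' i x|) volume := n3.norm.add n4.norm
    have h1 := tri2 (T := fun x => |U k x| * (|U k x| ^ 3 + |U k' x| ^ 3) * |DU k' i x|)
      n12 n34 (by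
        intro x
        have a0 := abs_nonneg (U k x)
        have b0 := abs_nonneg (U k' x)
        have d0 := abs_nonneg (DU k' i x)
        have hrx := hr0 x
        have e1 : |(|8 * m ^ 4 * B.indicator (DU k' i) x| + |8 * (r x * |r x| ^ 3 * DU k' i x)|)| =
            8 * m ^ 4 * (B1 x * |DU k' i x|) + 8 * r x ^ 4 * |DU k' i x| := by
          rw [abs_of_nonneg (by positivity)]
          have e5 : |B.indicator (DU k' i) x| = B1 x * |DU k' i x| := by
            by_cases hx : x ∈ B
            · rw [indicator_of_mem hx, hB1, indicator_of_mem hx, one_mul]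
            · rw [indicator_of_notMem hx, hB1, indicator_of_notMem hx, zero_mul, abs_zero]
          simp only [abs_mul, abs_pow, e5, abs_of_nonneg hm, abs_of_nonneg hrx,
            Nat.abs_ofNat]
          ring
        have e2 : |(|m * (B1 x * (f x * (U k' x * U k' x) * DU k' i x))| +
          |r x * |U k' x| ^ 3 * DU k' i x|)| =
            m * B1 x * |U k' x| ^ 3 * |DU k' i x| + r x * |U k' x| ^ 3 * |DU k' i x| := by
          rw [abs_of_nonneg (by positivity)]
          have e5 : B1 x * |f x| = B1 x * |U k' x| := by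
            by_cases hx : x ∈ B
            · rw [hf, indicator_of_mem hx]
            · rw [hB1, indicator_of_notMem hx, zero_mul, zero_mul]
          have e6 : |m * (B1 x * (f x * (U k' x * U k' x) * DU k' i x))| =
              m * (B1 x * |f x|) * |U k' x| ^ 2 * |DU k' i x| := by
            simp only [abs_mul, abs_of_nonneg hm, abs_of_nonneg (hB10 x)]; ring
          have e7 : |r x * |U k' x| ^ 3 * DU k' i x| = r x * |U k' x| ^ 3 * |DU k' i x| := by
            simp only [abs_mul, abs_pow, abs_abs, abs_of_nonneg hrx]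
          rw [e6, e7, e5]
          ring
        have e4 : |(|U k x| * (|U k x| ^ 3 + |U k' x| ^ 3) * |DU k' i x|)| =
            |U k x| * (|U k x| ^ 3 + |U k' x| ^ 3) * |DU k' i x| := abs_of_nonneg (by positivity)
        rw [e1, e2, e4]
        have hB4 : B1 x ^ 4 = B1 x := by
          by_cases hx : x ∈ B
          · rw [hB1, indicator_of_mem hx, one_pow]
          · rw [hB1, indicator_of_notMem hx]; norm_num
        have p1 : |U k x| ^ 4 ≤ 8 * m ^ 4 * B1 x + 8 * r x ^ 4 := by
          have h2 : |U k x| ^ 4 ≤ (m * B1 x + r x) ^ 4 := pow_le_pow_left₀ a0 (hax x) 4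
          have h3 : (m * B1 x + r x) ^ 4 ≤ 8 * ((m * B1 x) ^ 4 + r x ^ 4) := by
            nlinarith [sq_nonneg (m * B1 x - r x), sq_nonneg ((m * B1 x) ^ 2 - r x ^ 2),
              mul_nonneg (mul_nonneg (mul_nonneg hm (hB10 x)) hrx)
                (sq_nonneg (m * B1 x - r x)), sq_nonneg (m * B1 x + r x),
              mul_nonneg (sq_nonneg (m * B1 x + r x)) (sq_nonneg (m * B1 x - r x))]
          rw [mul_pow, hB4] at h3
          linarith
        have p2 := mul_le_mul_of_nonneg_right p1 d0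
        have p3 := mul_le_mul_of_nonneg_right (hax x) (by positivity : 0 ≤ |U k' x| ^ 3 * |DU k' i x|)
        nlinarith)
    refine h1.trans ?_
    have w2 := ((hfld k').2.2.1 i).2.2
    have q1 : eLpNorm (fun x => |8 * m ^ 4 * B.indicator (DU k' i) x| +
        |8 * (r x * |r x| ^ 3 * DU k' i x)|) 2 volume ≤
        8 * M ^ 4 * eLpNorm (B.indicator (DU k' i)) 2 volume + 8 * (q * q ^ 3 * (c1 * ‖k'‖ₑ)) := by
      have r3 := eLpNorm_add_le (μ := (volume : Measure E)) n1.norm n2.norm
        (by norm_num : (1 : ℝ≥0∞) ≤ 2)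
      refine r3.trans (add_le_add ?_ ?_)
      · refine (le_of_eq (e_abs _)).trans (le_of_eq ?_)
        rw [cst (by positivity), ENNReal.ofReal_mul (by norm_num), ENNReal.ofReal_pow hm,
          ENNReal.ofReal_ofNat]
      · refine (le_of_eq (e_abs _)).trans ?_
        rw [cst (f := fun x => r x * |r x| ^ 3 * DU k' i x) (by norm_num), ENNReal.ofReal_ofNat]
        refine mul_le_mul' le_rfl ((hC mr mr (mD' i)).trans ?_)
        exact mul_le_mul' (mul_le_mul' hrq (pow_le_pow_left' hrq 3)) w2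
    have q2 : eLpNorm (fun x => |m * (B1 x * (f x * (U k' x * U k' x) * DU k' i x))| +
          |r x * |U k' x| ^ 3 * DU k' i x|) 2 volume ≤
        M * (K2 * (N * (s' * s') * (c1 * ‖k'‖ₑ))) + q * s' ^ 3 * (c1 * ‖k'‖ₑ) := by
      have r3 := eLpNorm_add_le (μ := (volume : Measure E)) n3.norm n4.norm
        (by norm_num : (1 : ℝ≥0∞) ≤ 2)
      refine r3.trans (add_le_add ?_ ?_)
      · refine (le_of_eq (e_abs _)).trans ?_
        rw [cst hm]
        refine mul_le_mul' le_rfl ((hB aB1 mf mb (mD' i)).trans ?_)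
        rw [← hK2, ← hN, hs0']
        exact mul_le_mul' le_rfl (mul_le_mul' le_rfl w2)
      · refine (le_of_eq (e_abs _)).trans ((hC mr mb (mD' i)).trans ?_)
        rw [hs0']
        exact mul_le_mul' (mul_le_mul' hrq le_rfl) w2
    refine (add_le_add q1 q2).trans (le_of_eq ?_)
    ring
  have hfin := h0 k k' hk hk'
  refine hfin.trans ?_
  have hsum : (∑ i, (eLpNorm (fun x => |U k' x| * (|U k x| ^ 3 + |U k' x| ^ 3) * |DU k i x|) 2
      volume + eLpNorm (fun x => |U k x| * (|U k x| ^ 3 + |U k' x| ^ 3) * |DU k' i x|) 2 volume)) ≤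
      5 * (M * K1 * c1 * (N * (s ^ 2 * ‖k‖ₑ + s' ^ 2 * ‖k'‖ₑ)) + ε * (s' * s ^ 3 + s' ^ 4) +
        (8 * c1 * (q ^ 4 * ‖k'‖ₑ) +
        (M * K2 * c1 * (N * (s' ^ 2 * ‖k'‖ₑ)) + c1 * (q * s' ^ 3 * ‖k'‖ₑ)))) +
      8 * M ^ 4 * ∑ i, eLpNorm (B.indicator (DU k' i)) 2 volume := by
    refine (Finset.sum_le_sum fun i _ => add_le_add (hX i) (hY i)).trans (le_of_eq ?_)
    simp only [Finset.sum_add_distrib, Finset.sum_const, Finset.card_univ, Fintype.card_fin,
      nsmul_eq_mul, Finset.mul_sum]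
    push_cast
    ring
  refine (mul_le_mul' le_rfl hsum).trans ?_
  have hc : ENNReal.ofReal (40 * C0 * (1 + C1)) = 40 * c0' * (1 + c1) := by
    rw [ENNReal.ofReal_mul (by positivity), ENNReal.ofReal_mul (by norm_num),
      ENNReal.ofReal_add zero_le_one hC1.le, ENNReal.ofReal_one, ENNReal.ofReal_ofNat]
  rw [hc, ← hs, ← hs', ← hq]
  obtain ⟨D, hD⟩ : ∃ D, D = ∑ i, eLpNorm (B.indicator (DU k' i)) 2 volume := ⟨_, rfl⟩
  rw [← hD]
  have hNe : eLpNorm ((Metric.ball (0 : E) m).indicator (U k')) 15 volume = N := by rw [hN, hf]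
  rw [hNe]
  refine le_trans ?_ (add_le_add le_rfl (mul_le_mul' hκ1 le_rfl))
  rw [hκ]
  obtain ⟨a, ha⟩ : ∃ a, a = ‖k‖ₑ := ⟨_, rfl⟩
  obtain ⟨b, hb⟩ : ∃ b, b = ‖k'‖ₑ := ⟨_, rfl⟩
  rw [← ha, ← hb]
  calc c0' * (5 * (M * K1 * c1 * (N * (s ^ 2 * a + s' ^ 2 * b)) + ε * (s' * s ^ 3 + s' ^ 4) +
        (8 * c1 * (q ^ 4 * b) + (M * K2 * c1 * (N * (s' ^ 2 * b)) + c1 * (q * s' ^ 3 * b)))) +
        8 * M ^ 4 * D)
      ≤ c0' * (5 * (M * K1 * c1 * (N * (s ^ 2 * a + s' ^ 2 * b)) + ε * (s' * s ^ 3 + s' ^ 4) +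
        (8 * c1 * (q ^ 4 * b) + (M * K2 * c1 * (N * (s' ^ 2 * b)) + c1 * (q * s' ^ 3 * b)))) +
        8 * M ^ 4 * D) + (c0' * ((35 + 40 * c1) * (ε * (s' * s ^ 3 + s' ^ 4)) +
          40 * ((q ^ 4 + q * s' ^ 3) * b) + 35 * c1 * (q * s' ^ 3 * b)) +
          c0' * (5 * M * K2 * c1 * (N * (s ^ 2 * a)) +
            8 * M ^ 4 * (N * (s ^ 2 * a + s' ^ 2 * b)) +
            (5 * M * K1 * c1 + 5 * M * K2 * c1) * D)) := le_self_add
    _ = _ := by ring

end Pool.Agent.QWE
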