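import Pool.Agent.QWE.StD

/-!
# QWE, module Intp: interpolation of a quasi Lipschitz path
-/

set_option autoImplicit false

open MeasureTheory Filter Topology Set
open scoped ENNReal NNReal RealInnerProductSpace

namespace Pool.Agent.QWE.Intpx

/-- Linear interpolation of a sequence. -/
noncomputable def P (z : ℤ → E) (s : ℝ) : E := z ⌊s⌋ + Int.fract s • (z (⌊s⌋ + 1) - z ⌊s⌋)

lemma chain (z : ℤ → E) (M : ℝ) (hz : ∀ n, ‖z (n + 1) - z n‖ ≤ M) (n : ℤ) (j : ℕ) :
    ‖z (n + j) - z n‖ ≤ j * M := by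
  induction j with
  | zero => simp
  | succ j ih =>
    have e : z (n + ((j + 1 : ℕ) : ℤ)) - z n = (z (n + j + 1) - z (n + j)) + (z (n + j) - z n) := by
      push_cast
      rw [add_assoc]
      abel
    rw [e]
    refine (norm_add_le _ _).trans ?_
    push_cast
    linarith [hz (n + j)]

lemma P_le (z : ℤ → E) (M : ℝ) (hz : ∀ n, ‖z (n + 1) - z n‖ ≤ M) (s t : ℝ) (hst : s ≤ t) :
    ‖P z t - P z s‖ ≤ M * (t - s) := by
  have hM : 0 ≤ M := (norm_nonneg _).trans (hz 0)
  have hs := Int.floor_add_fract s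
  have ht := Int.floor_add_fract t
  have hfs0 := Int.fract_nonneg s
  have hfs1 := (Int.fract_lt_one s).le
  have hft0 := Int.fract_nonneg t
  rcases eq_or_lt_of_le (Int.floor_le_floor hst) with h | h
  · have e : P z t - P z s = (t - s) • (z (⌊s⌋ + 1) - z ⌊s⌋) := by
      unfold P
      rw [← h]
      have : t - s = Int.fract t - Int.fract s := by
        have h' : ((⌊s⌋ : ℤ) : ℝ) = ((⌊t⌋ : ℤ) : ℝ) := by rw [h]
        linarith
      rw [this, sub_smul]
      abel
    rw [e, norm_smul, Real.norm_eq_abs, abs_of_nonneg (by linarith), mul_comm]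
    exact mul_le_mul_of_nonneg_right (hz _) (by linarith)
  · obtain ⟨j, hj⟩ := Int.eq_ofNat_of_zero_le (show 0 ≤ ⌊t⌋ - (⌊s⌋ + 1) by omega)
    have hm : ⌊t⌋ = ⌊s⌋ + 1 + j := by omega
    have e : P z t - P z s = Int.fract t • (z (⌊t⌋ + 1) - z ⌊t⌋) + (z ⌊t⌋ - z (⌊s⌋ + 1)) +
        (1 - Int.fract s) • (z (⌊s⌋ + 1) - z ⌊s⌋) := by
      unfold P
      rw [sub_smul, one_smul]
      abel
    rw [e]
    have h1 : ‖Int.fract t • (z (⌊t⌋ + 1) - z ⌊t⌋)‖ ≤ Int.fract t * M := by
      rw [norm_smul, Real.norm_eq_abs, abs_of_nonneg hft0]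
      exact mul_le_mul_of_nonneg_left (hz _) hft0
    have h2 : ‖z ⌊t⌋ - z (⌊s⌋ + 1)‖ ≤ j * M := by
      rw [hm]
      exact chain z M hz _ _
    have h3 : ‖(1 - Int.fract s) • (z (⌊s⌋ + 1) - z ⌊s⌋)‖ ≤ (1 - Int.fract s) * M := by
      rw [norm_smul, Real.norm_eq_abs, abs_of_nonneg (by linarith)]
      exact mul_le_mul_of_nonneg_left (hz _) (by linarith)
    have h4 : ((⌊t⌋ : ℤ) : ℝ) = (⌊s⌋ : ℝ) + 1 + j := by
      rw [hm]
      push_cast
      ring
    calc ‖Int.fract t • (z (⌊t⌋ + 1) - z ⌊t⌋) + (z ⌊t⌋ - z (⌊s⌋ + 1)) +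
        (1 - Int.fract s) • (z (⌊s⌋ + 1) - z ⌊s⌋)‖ ≤
        Int.fract t * M + j * M + (1 - Int.fract s) * M := by
          refine (norm_add_le _ _).trans (add_le_add ((norm_add_le _ _).trans (add_le_add h1 h2)) h3)
      _ = M * (t - s) := by
        have h5 : t - s = 1 + j + Int.fract t - Int.fract s := by linarith
        rw [h5]
        ring

lemma P_dist (z : ℤ → E) (M : ℝ) (hz : ∀ n, ‖z (n + 1) - z n‖ ≤ M) (s t : ℝ) :
    dist (P z t) (P z s) ≤ M * |t - s| := by
  rw [dist_eq_norm]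
  rcases le_total s t with h | h
  · rw [abs_of_nonneg (by linarith)]
    exact P_le z M hz s t h
  · rw [abs_of_nonpos (by linarith), norm_sub_rev, neg_sub]
    exact P_le z M hz t s h

end Pool.Agent.QWE.Intpx

namespace Pool.Agent.QWE

open Intpx in
/-- **Intp** (interpolation). -/
theorem thm_Intp : St_Intp := by
  intro x kap C hk0 hk1 hx
  have hC : 0 ≤ C := by
    have := hx 0 0
    simpa using this
  set L : ℝ := 2 * C / kap + 1 with hL
  have hL0 : 0 < L := by positivity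
  have hCL : C ≤ kap / 2 * L := by
    rw [hL, mul_add, mul_div_assoc', mul_comm (kap / 2) (2 * C), mul_one]
    have e : 2 * C * (kap / 2) / kap = C := by field_simp
    rw [e]
    linarith
  set z : ℤ → E := fun n => x (n * L) with hz
  have hM : ∀ n, ‖z (n + 1) - z n‖ ≤ (1 - kap / 2) * L := by
    intro n
    have h1 := hx (n * L) (((n + 1 : ℤ) : ℝ) * L)
    rw [dist_eq_norm] at h1
    have h2 : ((n + 1 : ℤ) : ℝ) * L - n * L = L := by
      push_cast
      ring
    rw [h2, abs_of_pos hL0] at h1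
    calc ‖z (n + 1) - z n‖ ≤ (1 - kap) * L + C := h1
      _ ≤ (1 - kap / 2) * L := by linarith
  refine ⟨fun t => P z (t / L), kap / 2, 2 * L + C, by linarith, by linarith, fun s t => ?_,
    fun t => ?_⟩
  · refine (P_dist z _ hM (s / L) (t / L)).trans (le_of_eq ?_)
    rw [← sub_div, abs_div, abs_of_pos hL0]
    field_simp
  · have h1 : dist (x t) (z ⌊t / L⌋) ≤ L + C := by
      have h2 := hx (⌊t / L⌋ * L) t
      have h3 : |t - ⌊t / L⌋ * L| ≤ L := by
        have h4 := Int.floor_le (t / L)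
        have h5 := (Int.lt_floor_add_one (t / L)).le
        rw [le_div_iff₀ hL0] at h4
        rw [div_le_iff₀ hL0] at h5
        rw [abs_le]
        constructor <;> linarith
      refine h2.trans ?_
      have h4 : (1 - kap) * |t - ⌊t / L⌋ * L| ≤ 1 * L := by
        apply mul_le_mul (by linarith) h3 (abs_nonneg _) (by norm_num)
      linarith
    have h2 : dist (z ⌊t / L⌋) (P z (t / L)) ≤ L := by
      unfold P
      rw [dist_eq_norm, sub_add_cancel_left, norm_neg, norm_smul, Real.norm_eq_abs,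
        abs_of_nonneg (Int.fract_nonneg _)]
      have h3 := hM ⌊t / L⌋
      calc Int.fract (t / L) * ‖z (⌊t / L⌋ + 1) - z ⌊t / L⌋‖ ≤ 1 * L := by
            apply mul_le_mul (Int.fract_lt_one _).le (h3.trans ?_) (norm_nonneg _) (by norm_num)
            have : (0 : ℝ) ≤ kap / 2 * L := by positivity
            linarith
        _ = L := one_mul L
    calc dist (x t) (P z (t / L)) ≤ dist (x t) (z ⌊t / L⌋) + dist (z ⌊t / L⌋) (P z (t / L)) :=
          dist_triangle _ _ _
      _ ≤ 2 * L + C := by linarith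

end Pool.Agent.QWE
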