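import Pool.Agent.QWE.StA

set_option autoImplicit false

/-!
# QWE / Iso: the isometry (F1, F2, F3)
-/

open MeasureTheory Filter Topology Set
open scoped ENNReal NNReal RealInnerProductSpace Pointwise FourierTransform SchwartzMap LineDeriv

namespace Pool.Agent.QWE

namespace Isox

/-! ### Schwartz functions -/

theorem sch_pd {φ : E → ℝ} (h : IsSch φ) (i : Fin 5) : IsSch (pd i φ) := by
  obtain ⟨f, hf⟩ := h
  have he : φ = f := by
    funext x
    exact (hf x).symm
  refine ⟨∂_{EuclideanSpace.single i (1 : ℝ)} f, fun x => ?_⟩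
  rw [he]
  rfl

theorem sch_lap {φ : E → ℝ} (h : IsSch φ) : IsSch (lap φ) := by
  choose g hg using fun i : Fin 5 => sch_pd (sch_pd h i) i
  refine ⟨∑ i, g i, fun x => ?_⟩
  rw [sum_apply]
  exact Finset.sum_congr rfl fun i _ => hg i x

/-- complexification -/
theorem exists_cx {φ : E → ℝ} (h : IsSch φ) : ∃ f : 𝓢(E, ℂ), ∀ x, f x = (φ x : ℂ) := by
  obtain ⟨f, hf⟩ := h
  refine ⟨f.postcompCLM Complex.ofRealCLM, fun x => ?_⟩
  rw [SchwartzMap.postcompCLM_apply, hf x]
  rfl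

/-! ### Functions of one variable -/

/-- the Radon transform in the direction `w` as a complex function of `p` -/
noncomputable def G (φ : E → ℝ) (w : S) (p : ℝ) : ℂ := (Rad φ (w, p) : ℂ)

/-- its derivative -/
noncomputable def dG (φ : E → ℝ) (w : S) (p : ℝ) : ℂ := (dRad φ (w, p) : ℂ)

theorem integrable_of_bound {f : ℝ → ℂ} (hc : Continuous f) {C : ℝ}
    (h : ∀ p, ‖f p‖ ≤ C / (1 + p ^ 2)) : Integrable f := by
  have h1 : Integrable fun p : ℝ => C * (1 + p ^ 2)⁻¹ := integrable_inv_one_add_sq.const_mul C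
  refine h1.mono' hc.aestronglyMeasurable (Eventually.of_forall fun p => ?_)
  rw [← div_eq_mul_inv]
  exact h p

theorem G_cont (h : St_RadS) {φ : E → ℝ} (hφ : IsSch φ) (w : S) : Continuous (G φ w) :=
  Complex.continuous_ofReal.comp ((h φ hφ).1.comp (by fun_prop))

theorem dG_cont (h : St_RadS) {φ : E → ℝ} (hφ : IsSch φ) (w : S) : Continuous (dG φ w) :=
  Complex.continuous_ofReal.comp ((h φ hφ).2.1.comp (by fun_prop))

theorem G_int (h : St_RadS) {φ : E → ℝ} (hφ : IsSch φ) (w : S) : Integrable (G φ w) := by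
  obtain ⟨C, hC⟩ := (h φ hφ).2.2.1
  refine integrable_of_bound (G_cont h hφ w) (C := C) fun p => ?_
  rw [G, Complex.norm_real]
  exact (hC (w, p)).1

theorem dG_int (h : St_RadS) {φ : E → ℝ} (hφ : IsSch φ) (w : S) : Integrable (dG φ w) := by
  obtain ⟨C, hC⟩ := (h φ hφ).2.2.1
  refine integrable_of_bound (dG_cont h hφ w) (C := C) fun p => ?_
  rw [dG, Complex.norm_real]
  exact (hC (w, p)).2

theorem G_deriv (h : St_RadS) {φ : E → ℝ} (hφ : IsSch φ) (w : S) (p : ℝ) :
    HasDerivAt (G φ w) (dG φ w p) p :=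
  ((h φ hφ).2.2.2.1 w p).1.ofReal_comp

theorem dG_deriv (h : St_RadS) {φ : E → ℝ} (hφ : IsSch φ) (w : S) (p : ℝ) :
    HasDerivAt (dG φ w) (G (lap φ) w p) p :=
  ((h φ hφ).2.2.2.1 w p).2.ofReal_comp

theorem F_dG (h : St_RadS) {φ : E → ℝ} (hφ : IsSch φ) (w : S) (r : ℝ) :
    𝓕 (dG φ w) r = (2 * Real.pi * Complex.I * r) • 𝓕 (G φ w) r := by
  have h1 : deriv (G φ w) = dG φ w := by
    funext p
    exact (G_deriv h hφ w p).deriv
  have h2 := Real.fourier_deriv (G_int h hφ w) (fun p => (G_deriv h hφ w p).differentiableAt)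
    (by rw [h1]; exact dG_int h hφ w)
  rw [h1] at h2
  exact congrFun h2 r

theorem F_G_lap (h : St_RadS) {φ : E → ℝ} (hφ : IsSch φ) (w : S) (r : ℝ) :
    𝓕 (G (lap φ) w) r = (2 * Real.pi * Complex.I * r) ^ 2 * 𝓕 (G φ w) r := by
  have h1 : deriv (dG φ w) = G (lap φ) w := by
    funext p
    exact (dG_deriv h hφ w p).deriv
  have h2 := Real.fourier_deriv (dG_int h hφ w) (fun p => (dG_deriv h hφ w p).differentiableAt)
    (by rw [h1]; exact G_int h (sch_lap hφ) w)
  rw [h1] at h2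
  rw [congrFun h2 r, F_dG h hφ w r, smul_eq_mul, smul_eq_mul]
  ring

/-- Fourier slice theorem -/
theorem F_G (hF : St_FSl) {φ : E → ℝ} (hφ : IsSch φ) {f : 𝓢(E, ℂ)} (hf : ∀ x, f x = (φ x : ℂ))
    (w : S) (r : ℝ) : 𝓕 (G φ w) r = 𝓕 f (r • (w : E)) := by
  rw [Real.fourier_real_eq_integral_exp_smul, SchwartzMap.fourier_coe, Real.fourier_eq']
  have h1 := hF φ hφ w r
  have h2 : ∫ v : ℝ, Complex.exp (↑(-2 * Real.pi * v * r) * Complex.I) • G φ w v =
      ∫ p, (Rad φ (w, p) : ℂ) * Complex.exp (-2 * Real.pi * Complex.I * r * p) := by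
    refine integral_congr_ae (Eventually.of_forall fun p => ?_)
    simp only [smul_eq_mul, G]
    rw [mul_comm]
    congr 2
    push_cast
    ring
  have h3 : ∫ v : E, Complex.exp (↑(-2 * Real.pi * inner ℝ v (r • (w : E))) * Complex.I) • f v =
      ∫ x, (φ x : ℂ) * Complex.exp (-2 * Real.pi * Complex.I * r * inner ℝ x (w : E)) := by
    refine integral_congr_ae (Eventually.of_forall fun x => ?_)
    simp only [smul_eq_mul, hf]
    rw [mul_comm, inner_smul_right]
    congr 2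
    push_cast
    ring
  rw [h2, h3, h1]

/-- a Schwartz function is integrable on lines, also with the weight `r ^ 4` -/
theorem line_int (f : 𝓢(E, ℂ)) (w : S) (k : ℕ) :
    Integrable fun r : ℝ => (r : ℂ) ^ k * f (r • (w : E)) := by
  obtain ⟨C1, hC1⟩ := f.decay k 0
  obtain ⟨C2, hC2⟩ := f.decay (k + 2) 0
  refine integrable_of_bound (by fun_prop) (C := C1 + C2) fun r => ?_
  have hw : ‖(w : E)‖ = 1 := by simp
  have hr : ‖r • (w : E)‖ = |r| := by rw [norm_smul, hw, mul_one, Real.norm_eq_abs]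
  have h1 := hC1.2 (r • (w : E))
  have h2 := hC2.2 (r • (w : E))
  rw [norm_iteratedFDeriv_zero, hr] at h1 h2
  rw [norm_mul, norm_pow, Complex.norm_real, Real.norm_eq_abs, le_div_iff₀ (by positivity)]
  have e1 : |r| ^ (k + 2) = |r| ^ k * r ^ 2 := by rw [pow_add, sq_abs]
  rw [e1] at h2
  nlinarith

/-- one dimensional Parseval formula in the direction `w` -/
theorem parseval (hR : St_RadS) (hF : St_FSl) {f φ : E → ℝ} (hf : IsSch f) (hφ : IsSch φ)
    {fC φC : 𝓢(E, ℂ)} (hfC : ∀ x, fC x = (f x : ℂ)) (hφC : ∀ x, φC x = (φ x : ℂ)) (w : S) :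
    ∫ p, G (lap (lap f)) w p * G φ w p =
      ∫ r : ℝ, 16 * (Real.pi : ℂ) ^ 4 * ((r : ℂ) ^ 4 *
        ((𝓕 fC) (r • (w : E)) * (𝓕⁻ φC) (r • (w : E)))) := by
  obtain ⟨Ψ, hΨd⟩ : ∃ Ψ : ℝ → ℂ, ∀ r, Ψ r = (𝓕⁻ φC) (r • (w : E)) := ⟨_, fun _ => rfl⟩
  have hG2 : Ψ = 𝓕⁻ (G φ w) := by
    funext r
    rw [hΨd, Real.fourierInv_eq_fourier_neg, F_G hF hφ hφC, SchwartzMap.fourierInv_coe,
      Real.fourierInv_eq_fourier_neg, SchwartzMap.fourier_coe, neg_smul]
  have hFG2 : 𝓕 (G φ w) = fun r : ℝ => (𝓕 φC) (r • (w : E)) := by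
    funext r
    exact F_G hF hφ hφC w r
  have hint2 : Integrable (𝓕 (G φ w)) := by
    rw [hFG2]
    have h1 := line_int (𝓕 φC) w 0
    simpa using h1
  have hΨ : Integrable Ψ := by
    have h1 := line_int (𝓕⁻ φC) w 0
    refine h1.congr (Eventually.of_forall fun r => ?_)
    simp only [pow_zero, one_mul]
    exact (hΨd r).symm
  have hinv : 𝓕 Ψ = G φ w := by
    rw [hG2]
    exact (G_cont hR hφ w).fourier_fourierInv_eq (G_int hR hφ w) hint2
  have hflip : ∫ ξ : ℝ, 𝓕 (G (lap (lap f)) w) ξ * Ψ ξ =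
      ∫ x : ℝ, G (lap (lap f)) w x * 𝓕 Ψ x := by
    simpa using! VectorFourier.integral_fourierIntegral_smul_eq_flip (L := innerₗ ℝ)
      Real.continuous_fourierChar continuous_inner (G_int hR (sch_lap (sch_lap hf)) w) hΨ
  rw [hinv] at hflip
  rw [← hflip]
  refine integral_congr_ae (Eventually.of_forall fun r => ?_)
  simp only
  rw [F_G_lap hR (sch_lap hf), F_G_lap hR hf, F_G hF hf hfC, hΨd]
  have hI : Complex.I ^ 4 = 1 := Complex.I_pow_four
  linear_combination (16 * (Real.pi : ℂ) ^ 4 * (r : ℂ) ^ 4 *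
        ((𝓕 fC) (r • (w : E)) * (𝓕⁻ φC) (r • (w : E)))) * hI

/-! ### Polar coordinates -/

/-- polar coordinates for a complex valued function on `E` -/
theorem polar {H : E → ℂ} (hH : Integrable H) :
    Integrable (fun w : S => ∫ r in Ioi (0 : ℝ), (r : ℂ) ^ 4 * H (r • (w : E))) sg ∧
      ∫ w : S, (∫ r in Ioi (0 : ℝ), (r : ℂ) ^ 4 * H (r • (w : E))) ∂sg = ∫ x, H x := by
  have hmp := (volume : Measure E).measurePreserving_homeomorphUnitSphereProd
  have hemb := (homeomorphUnitSphereProd E).measurableEmbedding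
  have hdim : Module.finrank ℝ E - 1 = 4 := by simp [E]
  rw [hdim] at hmp
  -- the function on the product
  have hval : ∀ x : ({0}ᶜ : Set E), (((homeomorphUnitSphereProd E x).2 : ℝ)) •
      ((homeomorphUnitSphereProd E x).1 : E) = (x : E) := by
    intro x
    have h1 := congrArg (fun y : ({0}ᶜ : Set E) => (y : E))
      ((homeomorphUnitSphereProd E).symm_apply_apply x)
    exact h1
  have hH2 : IntegrableOn H ({0}ᶜ : Set E) volume := hH.integrableOn
  have hH3 : Integrable (fun x : ({0}ᶜ : Set E) => H x) ((volume : Measure E).comap (↑)) :=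
    (integrableOn_iff_comap_subtypeVal (measurableSet_singleton _).compl).1 hH2
  have hprod : Integrable (fun z : S × Ioi (0 : ℝ) => H ((z.2 : ℝ) • (z.1 : E)))
      (sg.prod (Measure.volumeIoiPow 4)) := by
    rw [← hmp.integrable_comp_emb hemb]
    refine hH3.congr (Eventually.of_forall fun x => ?_)
    show H x = H (((homeomorphUnitSphereProd E x).2 : ℝ) • ((homeomorphUnitSphereProd E x).1 : E))
    rw [hval]
  have hin : ∀ w : S, ∫ r : Ioi (0 : ℝ), H ((r : ℝ) • (w : E)) ∂(Measure.volumeIoiPow 4) =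
      ∫ r in Ioi (0 : ℝ), (r : ℂ) ^ 4 * H (r • (w : E)) := by
    intro w
    rw [Measure.volumeIoiPow]
    have h1 : (fun r : Ioi (0 : ℝ) => ENNReal.ofReal ((r : ℝ) ^ 4)) =
        fun r : Ioi (0 : ℝ) => ((Real.toNNReal ((r : ℝ) ^ 4) : ℝ≥0) : ℝ≥0∞) := rfl
    rw [h1, integral_withDensity_eq_integral_smul
      ((measurable_subtype_coe.pow_const _).real_toNNReal)]
    rw [← integral_subtype_comap measurableSet_Ioi fun r : ℝ => (r : ℂ) ^ 4 * H (r • (w : E))]
    refine integral_congr_ae (Eventually.of_forall fun r => ?_)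
    simp only
    rw [NNReal.smul_def, Real.coe_toNNReal _ (pow_nonneg r.2.out.le _), Complex.real_smul,
      Complex.ofReal_pow]
  constructor
  · refine hprod.integral_prod_left.congr (Eventually.of_forall fun w => ?_)
    exact hin w
  · calc ∫ w : S, (∫ r in Ioi (0 : ℝ), (r : ℂ) ^ 4 * H (r • (w : E))) ∂sg
        = ∫ w : S, (∫ r : Ioi (0 : ℝ), H ((r : ℝ) • (w : E)) ∂(Measure.volumeIoiPow 4)) ∂sg := by
          refine integral_congr_ae (Eventually.of_forall fun w => ?_)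
          exact (hin w).symm
      _ = ∫ z : S × Ioi (0 : ℝ), H ((z.2 : ℝ) • (z.1 : E)) ∂(sg.prod (Measure.volumeIoiPow 4)) :=
          (integral_prod _ hprod).symm
      _ = ∫ x : ({0}ᶜ : Set E), H x ∂((volume : Measure E).comap (↑)) := by
          rw [← hmp.integral_comp hemb]
          refine integral_congr_ae (Eventually.of_forall fun x => ?_)
          show H (((homeomorphUnitSphereProd E x).2 : ℝ) •
            ((homeomorphUnitSphereProd E x).1 : E)) = H x
          rw [hval]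
      _ = ∫ x, H x := by
          rw [integral_subtype_comap (measurableSet_singleton _).compl fun x => H x,
            restrict_compl_singleton]

/-- integral over all lines through the origin -/
theorem polar2 {H : E → ℂ} (hH : Integrable H)
    (hl : ∀ w : S, Integrable fun r : ℝ => (r : ℂ) ^ 4 * H (r • (w : E))) :
    ∫ w : S, (∫ r : ℝ, (r : ℂ) ^ 4 * H (r • (w : E))) ∂sg = 2 * ∫ x, H x := by
  obtain ⟨h1, h2⟩ := polar hH
  have h3 : ∀ w : S, ∫ r : ℝ, (r : ℂ) ^ 4 * H (r • (w : E)) =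
      (∫ r in Ioi (0 : ℝ), (r : ℂ) ^ 4 * H (r • (w : E))) +
        ∫ r in Ioi (0 : ℝ), (r : ℂ) ^ 4 * H (r • ((-w : S) : E)) := by
    intro w
    have h4 : ∫ r in Ioi (0 : ℝ), (r : ℂ) ^ 4 * H (r • ((-w : S) : E)) =
        ∫ r in Iic (0 : ℝ), (r : ℂ) ^ 4 * H (r • (w : E)) := by
      have h5 := integral_comp_neg_Ioi (0 : ℝ) (fun r : ℝ => (r : ℂ) ^ 4 * H (r • (w : E)))
      rw [neg_zero] at h5
      rw [← h5]
      refine setIntegral_congr_fun measurableSet_Ioi fun r _ => ?_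
      have h6 : r • ((-w : S) : E) = (-r) • (w : E) := by simp
      have h7 : (((-r : ℝ)) : ℂ) ^ 4 = (r : ℂ) ^ 4 := by
        push_cast
        ring
      rw [h6, h7]
    rw [h4, ← intervalIntegral.integral_Iic_add_Ioi (b := (0 : ℝ)) (hl w).integrableOn
      (hl w).integrableOn, add_comm]
  have h8 : Integrable (fun w : S => ∫ r in Ioi (0 : ℝ), (r : ℂ) ^ 4 * H (r • ((-w : S) : E)))
      sg := by
    have h9 := mp_neg_sphere.integrable_comp h1.aestronglyMeasurable
    exact h9.2 h1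
  have h10 : ∫ w : S, (∫ r in Ioi (0 : ℝ), (r : ℂ) ^ 4 * H (r • ((-w : S) : E))) ∂sg = ∫ x, H x := by
    rw [← h2]
    exact mp_neg_sphere.integral_comp (Homeomorph.neg S).measurableEmbedding
      (fun w : S => ∫ r in Ioi (0 : ℝ), (r : ℂ) ^ 4 * H (r • (w : E)))
  rw [integral_congr_ae (Eventually.of_forall h3), integral_add h1 h8, h2, h10]
  ring

/-! ### Inner products in `K` -/

theorem prod_int {f g : S × ℝ → ℝ} (hf : Continuous f) (hg : Continuous g) {C D : ℝ}
    (hC : ∀ z, |f z| ≤ C / (1 + z.2 ^ 2)) (hD : ∀ z, |g z| ≤ D / (1 + z.2 ^ 2)) :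
    Integrable (fun z => f z * g z) mu := by
  have h1 : Integrable (fun p : ℝ => (C * D) * (1 + p ^ 2)⁻¹) :=
    integrable_inv_one_add_sq.const_mul _
  have h2 : Integrable (fun z : S × ℝ => (C * D) * (1 + z.2 ^ 2)⁻¹) mu := h1.comp_snd sg
  refine h2.mono' (hf.mul hg).aestronglyMeasurable (Eventually.of_forall fun z => ?_)
  have h3 : (1 : ℝ) ≤ 1 + z.2 ^ 2 := by nlinarith [sq_nonneg z.2]
  have hC0 : 0 ≤ C := by
    have := (abs_nonneg _).trans (hC z)
    rw [le_div_iff₀ (by linarith)] at this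
    linarith
  have h4 : |f z| ≤ C := (hC z).trans (div_le_self hC0 h3)
  rw [Real.norm_eq_abs, abs_mul]
  calc |f z| * |g z| ≤ C * (D / (1 + z.2 ^ 2)) :=
      mul_le_mul h4 (hD z) (abs_nonneg _) hC0
    _ = (C * D) * (1 + z.2 ^ 2)⁻¹ := by ring

theorem inner_K {k k' : K} {f g : S × ℝ → ℝ} (hk : (k : S × ℝ → ℝ) =ᵐ[mu] f)
    (hk' : (k' : S × ℝ → ℝ) =ᵐ[mu] g) :
    (inner ℝ k k' : ℝ) = ∫ z, f z * g z ∂mu := by
  rw [L2.inner_def]
  refine integral_congr_ae ?_
  filter_upwards [hk, hk'] with z h1 h2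
  rw [h1, h2]
  simp [mul_comm]

/-- the first formula -/
theorem main1 (hR : St_RadS) (hF : St_FSl) {f φ : E → ℝ} (hf : IsSch f) (hφ : IsSch φ) :
    c0 * ∫ w : S, (∫ p : ℝ, Rad (lap (lap f)) (w, p) * Rad φ (w, p)) ∂sg = ∫ x, f x * φ x := by
  obtain ⟨fC, hfC⟩ := exists_cx hf
  obtain ⟨φC, hφC⟩ := exists_cx hφ
  obtain ⟨H, hHd⟩ : ∃ H : 𝓢(E, ℂ), ∀ x, H x = (𝓕 fC) x * (𝓕⁻ φC) x := by
    refine ⟨SchwartzMap.pairing (ContinuousLinearMap.mul ℂ ℂ) (𝓕 fC) (𝓕⁻ φC), fun x => ?_⟩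
    rfl
  have h1 : ((∫ w : S, (∫ p : ℝ, Rad (lap (lap f)) (w, p) * Rad φ (w, p)) ∂sg : ℝ) : ℂ) =
      ∫ w : S, (∫ p : ℝ, G (lap (lap f)) w p * G φ w p) ∂sg := by
    rw [← integral_complex_ofReal]
    refine integral_congr_ae (Eventually.of_forall fun w => ?_)
    simp only
    rw [← integral_complex_ofReal]
    refine integral_congr_ae (Eventually.of_forall fun p => ?_)
    simp only [G, Complex.ofReal_mul]
  have h2 : ∫ w : S, (∫ p : ℝ, G (lap (lap f)) w p * G φ w p) ∂sg =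
      16 * (Real.pi : ℂ) ^ 4 * (2 * ∫ x, H x) := by
    rw [← polar2 H.integrable (fun w => line_int H w 4), ← integral_const_mul]
    refine integral_congr_ae (Eventually.of_forall fun w => ?_)
    simp only
    rw [parseval hR hF hf hφ hfC hφC w, integral_const_mul]
    congr 1
    refine integral_congr_ae (Eventually.of_forall fun r => ?_)
    simp only
    rw [hHd]
  have h3 : ∫ x, H x = ((∫ x, f x * φ x : ℝ) : ℂ) := by
    calc ∫ x, H x = ∫ x, (𝓕 fC) x * (𝓕⁻ φC) x :=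
          integral_congr_ae (Eventually.of_forall hHd)
      _ = ∫ x, fC x * (𝓕 (𝓕⁻ φC)) x := SchwartzMap.integral_fourier_mul_eq fC (𝓕⁻ φC)
      _ = ∫ x, fC x * φC x := by rw [FourierTransform.fourier_fourierInv_eq]
      _ = ((∫ x, f x * φ x : ℝ) : ℂ) := by
          rw [← integral_complex_ofReal]
          refine integral_congr_ae (Eventually.of_forall fun x => ?_)
          simp only [hfC, hφC]
          rw [← Complex.ofReal_mul]
  have h4 : ((c0 * ∫ w : S, (∫ p : ℝ, Rad (lap (lap f)) (w, p) * Rad φ (w, p)) ∂sg : ℝ) : ℂ) =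
      ((∫ x, f x * φ x : ℝ) : ℂ) := by
    rw [Complex.ofReal_mul, h1, h2, h3, c0]
    push_cast
    have hpi : (Real.pi : ℂ) ≠ 0 := by exact_mod_cast Real.pi_ne_zero
    field_simp
    ring
  exact_mod_cast h4

/-! ### Parity -/

theorem even (hR : St_RadS) {φ : E → ℝ} (hφ : IsSch φ) (w : S) (p : ℝ) :
    Rad φ (-w, -p) = Rad φ (w, p) := by
  obtain ⟨hc, -, ⟨C, hC⟩, -, hg, -, -⟩ := hR φ hφ
  set D : ℝ → ℝ := fun p => Rad φ (-w, -p) - Rad φ (w, p) with hD
  have hc1 : Continuous fun p : ℝ => Rad φ (-w, -p) := hc.comp (by fun_prop)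
  have hc2 : Continuous fun p : ℝ => Rad φ (w, p) := hc.comp (by fun_prop)
  have hDc : Continuous D := hc1.sub hc2
  have hb : ∀ z : S × ℝ, |Rad φ z| ≤ C := by
    intro z
    have h3 : (1 : ℝ) ≤ 1 + z.2 ^ 2 := by nlinarith [sq_nonneg z.2]
    have h4 := (hC z).1
    have hC0 : 0 ≤ C := by
      have := (abs_nonneg _).trans h4
      rw [le_div_iff₀ (by linarith)] at this
      linarith
    exact h4.trans (div_le_self hC0 h3)
  have hDb : ∃ B, ∀ p, |D p| ≤ B := ⟨C + C, fun p => (abs_sub _ _).trans (add_le_add (hb _) (hb _))⟩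
  obtain ⟨B, hB⟩ := hDb
  have e1 := hg w D hDc ⟨B, hB⟩
  have e2 := hg (-w) (fun p => D (-p)) (hDc.comp continuous_neg) ⟨B, fun p => hB _⟩
  have e3 : ∫ p, Rad φ (-w, p) * D (-p) = ∫ p, Rad φ (-w, -p) * D p := by
    rw [← integral_neg_eq_self (fun p => Rad φ (-w, p) * D (-p)) volume]
    simp only [neg_neg]
  have e4 : ∫ x, φ x * D (-(inner ℝ x ((-w : S) : E))) = ∫ x, φ x * D (inner ℝ x (w : E)) := by
    simp
  have e5 : ∫ p, Rad φ (-w, -p) * D p = ∫ p, Rad φ (w, p) * D p := by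
    rw [← e3, e2, e4, e1]
  have hint : ∀ g : ℝ → ℝ, Continuous g → (∀ p, |g p| ≤ C / (1 + p ^ 2)) →
      Integrable fun p => g p * D p := by
    intro g hgc hgb
    have h5 : Integrable fun p : ℝ => (C * B) * (1 + p ^ 2)⁻¹ :=
      integrable_inv_one_add_sq.const_mul _
    refine h5.mono' (hgc.mul hDc).aestronglyMeasurable (Eventually.of_forall fun p => ?_)
    rw [Real.norm_eq_abs, abs_mul]
    have h6 := (abs_nonneg _).trans (hgb p)
    calc |g p| * |D p| ≤ (C / (1 + p ^ 2)) * B := mul_le_mul (hgb p) (hB p) (abs_nonneg _) h6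
      _ = (C * B) * (1 + p ^ 2)⁻¹ := by ring
  have i1 := hint _ hc1 (fun p => by
    have := (hC (-w, -p)).1
    simpa using this)
  have i2 := hint _ hc2 (fun p => (hC (w, p)).1)
  have e6 : ∫ p, D p * D p = 0 := by
    have h7 : ∀ p, D p * D p = Rad φ (-w, -p) * D p - Rad φ (w, p) * D p := by
      intro p
      simp only [hD]
      ring
    rw [integral_congr_ae (Eventually.of_forall h7), integral_sub i1 i2, e5, sub_self]
  have i3 : Integrable fun p => D p * D p := by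
    refine (i1.sub i2).congr (Eventually.of_forall fun p => ?_)
    simp only [hD, Pi.sub_apply]
    ring
  have e7 : (fun p => D p * D p) =ᵐ[volume] 0 :=
    (integral_eq_zero_iff_of_nonneg (fun p => mul_self_nonneg _) i3).1 e6
  have e8 : (fun p => D p * D p) = 0 :=
    Continuous.ae_eq_iff_eq volume (hDc.mul hDc) continuous_zero |>.1 e7
  have e9 := congrFun e8 p
  have e10 : D p = 0 := mul_self_eq_zero.1 e9
  exact sub_eq_zero.1 e10

theorem odd (hR : St_RadS) {φ : E → ℝ} (hφ : IsSch φ) (w : S) (p : ℝ) :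
    dRad φ (-w, -p) = - dRad φ (w, p) := by
  have h1 := ((hR φ hφ).2.2.2.1 w p).1
  have h2 := ((hR φ hφ).2.2.2.1 (-w) (-p)).1
  have h3 : HasDerivAt (fun p : ℝ => Rad φ (-w, -p)) (dRad φ (-w, -p) * (-1)) p :=
    HasDerivAt.comp p h2 (hasDerivAt_neg p)
  have h4 : (fun p : ℝ => Rad φ (-w, -p)) = fun p => Rad φ (w, p) := by
    funext p
    exact even hR hφ w p
  rw [h4] at h3
  have h5 := h3.unique h1
  linarith

/-- integration by parts in `p` -/
theorem ibp (hR : St_RadS) {f φ : E → ℝ} (hf : IsSch f) (hφ : IsSch φ) (w : S) :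
    ∫ p, dRad f (w, p) * dRad φ (w, p) = - ∫ p, Rad (lap f) (w, p) * Rad φ (w, p) := by
  obtain ⟨c1, c2, ⟨C, hC⟩, d1, -, -, -⟩ := hR f hf
  obtain ⟨c1', c2', ⟨C', hC'⟩, d1', -, -, -⟩ := hR φ hφ
  obtain ⟨c1'', -, ⟨C'', hC''⟩, -, -, -, -⟩ := hR (lap f) (sch_lap hf)
  have key : ∀ (g h : S × ℝ → ℝ) (A B : ℝ), Continuous g → Continuous h →
      (∀ z, |g z| ≤ A / (1 + z.2 ^ 2)) → (∀ z, |h z| ≤ B / (1 + z.2 ^ 2)) →
      Integrable fun p : ℝ => g (w, p) * h (w, p) := by
    intro g h A B hg hh hA hB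
    have h5 : Integrable fun p : ℝ => (A * B) * (1 + p ^ 2)⁻¹ :=
      integrable_inv_one_add_sq.const_mul _
    have hcg : Continuous fun p : ℝ => g (w, p) := hg.comp (by fun_prop)
    have hch : Continuous fun p : ℝ => h (w, p) := hh.comp (by fun_prop)
    refine h5.mono' (hcg.mul hch).aestronglyMeasurable (Eventually.of_forall fun p => ?_)
    rw [Real.norm_eq_abs, abs_mul]
    have h3 : (1 : ℝ) ≤ 1 + p ^ 2 := by nlinarith [sq_nonneg p]
    have hA0 : 0 ≤ A := by
      have := (abs_nonneg _).trans (hA (w, p))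
      rw [le_div_iff₀ (by linarith)] at this
      linarith
    have h4 : |g (w, p)| ≤ A := (hA (w, p)).trans (div_le_self hA0 h3)
    calc |g (w, p)| * |h (w, p)| ≤ A * (B / (1 + p ^ 2)) :=
        mul_le_mul h4 (hB (w, p)) (abs_nonneg _) hA0
      _ = (A * B) * (1 + p ^ 2)⁻¹ := by ring
  exact integral_mul_deriv_eq_deriv_mul_of_integrable
    (u := fun p => dRad f (w, p)) (u' := fun p => Rad (lap f) (w, p))
    (v := fun p => Rad φ (w, p)) (v' := fun p => dRad φ (w, p))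
    (fun p _ => (d1 w p).2) (fun p _ => (d1' w p).1)
    (key _ _ _ _ c2 c2' (fun z => (hC z).2) (fun z => (hC' z).2))
    (key _ _ _ _ c1'' c1' (fun z => (hC'' z).1) (fun z => (hC' z).1))
    (key _ _ _ _ c2 c1' (fun z => (hC z).2) (fun z => (hC' z).1))

end Isox

open Isox in
theorem thm_Iso (hR : St_RadS) (hF : St_FSl) : St_Iso := by
  intro f φ hf hφ
  have hlf := sch_lap hf
  have hllf := sch_lap hlf
  obtain ⟨cφ, cdφ, ⟨Cφ, hCφ⟩, -, -, aφ, adφ⟩ := hR φ hφ
  obtain ⟨cf, -, ⟨Cf, hCf⟩, -, -, af, -⟩ := hR f hf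
  obtain ⟨-, cdlf, ⟨Clf, hClf⟩, -, -, -, adlf⟩ := hR _ hlf
  obtain ⟨cllf, -, ⟨Cllf, hCllf⟩, -, -, allf, -⟩ := hR _ hllf
  refine ⟨?_, ?_, ?_⟩
  · rw [inner_K allf aφ, integral_prod _ (prod_int cllf cφ (fun z => (hCllf z).1)
      (fun z => (hCφ z).1))]
    exact main1 hR hF hf hφ
  · rw [inner_K adlf adφ, integral_prod _ (prod_int cdlf cdφ (fun z => (hClf z).2)
      (fun z => (hCφ z).2)), integral_congr_ae (Eventually.of_forall fun w => ibp hR hlf hφ w),
      integral_neg, mul_neg, main1 hR hF hf hφ]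
  · rw [inner_K af adφ]
    have h1 : ∫ z, Rad f z * dRad φ z ∂mu = - ∫ z, Rad f z * dRad φ z ∂mu := by
      calc ∫ z, Rad f z * dRad φ z ∂mu
          = ∫ z, Rad f z * dRad φ z ∂(mu.map fun z : S × ℝ => (-z.1, -z.2)) := by
            rw [mp_rev.map_eq]
        _ = ∫ z : S × ℝ, Rad f (-z.1, -z.2) * dRad φ (-z.1, -z.2) ∂mu := by
            exact integral_map (f := fun z => Rad f z * dRad φ z) mp_rev.measurable.aemeasurable
              ((cf.mul cdφ).aestronglyMeasurable)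
        _ = ∫ z : S × ℝ, -(Rad f z * dRad φ z) ∂mu := by
            refine integral_congr_ae (Eventually.of_forall fun z => ?_)
            simp only
            rw [even hR hf, odd hR hφ]
            ring
        _ = - ∫ z, Rad f z * dRad φ z ∂mu := integral_neg _
    linarith

end Pool.Agent.QWE
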