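import Pool.Agent.QWE.StA

set_option autoImplicit false

/-!
# QWE, KcB: the kernel of `T T*`
-/

open MeasureTheory Filter Topology Set
open scoped ENNReal NNReal

namespace Pool.Agent.QWE.KcBx

/-- Young's inequality in the three function form. -/
lemma young {p q : ℝ} (hp : 1 ≤ p) (hq : 1 ≤ q) (hpq : 2 / p + 1 / q = 2)
    {a b κ : E → ℝ≥0∞} (ha : Measurable a) (hb : Measurable b) (hκ : Measurable κ) :
    ∫⁻ x, ∫⁻ y, a x * b y * κ (x - y) ≤
      (∫⁻ x, a x ^ p) ^ (1 / p) * (∫⁻ x, b x ^ p) ^ (1 / p) * (∫⁻ x, κ x ^ q) ^ (1 / q) := by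
  have hp0 : 0 < p := by linarith
  have hq0 : 0 < q := by linarith
  set w0 : ℝ := 1 - 1 / p with hw0
  set w2 : ℝ := 1 - 1 / q with hw2
  have h1 : 1 / p ≤ 1 := by rw [div_le_one hp0]; exact hp
  have h2 : 1 / q ≤ 1 := by rw [div_le_one hq0]; exact hq
  have hw0n : 0 ≤ w0 := by linarith
  have hw2n : 0 ≤ w2 := by linarith
  have e0 : w0 + w2 = 1 / p := by
    have : 2 / p = 2 * (1 / p) := by ring
    rw [this] at hpq
    linarith
  have e1 : w0 + w0 = 1 / q := by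
    have : 2 / p = 2 * (1 / p) := by ring
    rw [this] at hpq
    linarith
  have e2 : w0 + w0 + w2 = 1 := by rw [e1]; linarith
  -- the three functions
  let f : Fin 3 → E × E → ℝ≥0∞ := fun i z =>
    match i with
    | 0 => b z.2 ^ p * κ (z.1 - z.2) ^ q
    | 1 => a z.1 ^ p * κ (z.1 - z.2) ^ q
    | 2 => a z.1 ^ p * b z.2 ^ p
  let w : Fin 3 → ℝ := fun i =>
    match i with
    | 0 => w0
    | 1 => w0
    | 2 => w2
  have ma : Measurable fun z : E × E => a z.1 := ha.comp measurable_fst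
  have mb : Measurable fun z : E × E => b z.2 := hb.comp measurable_snd
  have mκ : Measurable fun z : E × E => κ (z.1 - z.2) := hκ.comp (by fun_prop)
  have mf : ∀ i, Measurable (f i) := by
    intro i
    fin_cases i
    · exact (mb.pow_const _).mul (mκ.pow_const _)
    · exact (ma.pow_const _).mul (mκ.pow_const _)
    · exact (ma.pow_const _).mul (mb.pow_const _)
  have hol := ENNReal.lintegral_prod_norm_pow_le (μ := (volume : Measure (E × E))) Finset.univ
    (f := f) (fun i _ => (mf i).aemeasurable) (p := w)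
    (by simp only [Fin.sum_univ_three, w]; exact e2)
    (by intro i _; fin_cases i <;> simp [w, hw0n, hw2n])
  simp only [Fin.prod_univ_three, f, w] at hol
  have hpt : ∀ z : E × E, a z.1 * b z.2 * κ (z.1 - z.2) =
      (b z.2 ^ p * κ (z.1 - z.2) ^ q) ^ w0 * (a z.1 ^ p * κ (z.1 - z.2) ^ q) ^ w0 *
        (a z.1 ^ p * b z.2 ^ p) ^ w2 := by
    intro z
    simp only [ENNReal.mul_rpow_of_nonneg _ _ hw0n, ENNReal.mul_rpow_of_nonneg _ _ hw2n,
      ← ENNReal.rpow_mul]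
    have r1 : ∀ c : ℝ≥0∞, c ^ (p * w0) * c ^ (p * w2) = c := by
      intro c
      rw [← ENNReal.rpow_add_of_nonneg _ _ (by positivity) (by positivity), ← mul_add, e0,
        mul_one_div_cancel hp0.ne', ENNReal.rpow_one]
    have r2 : ∀ c : ℝ≥0∞, c ^ (q * w0) * c ^ (q * w0) = c := by
      intro c
      rw [← ENNReal.rpow_add_of_nonneg _ _ (by positivity) (by positivity), ← mul_add, e1,
        mul_one_div_cancel hq0.ne', ENNReal.rpow_one]
    calc a z.1 * b z.2 * κ (z.1 - z.2)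
        = (a z.1 ^ (p * w0) * a z.1 ^ (p * w2)) * (b z.2 ^ (p * w0) * b z.2 ^ (p * w2)) *
          (κ (z.1 - z.2) ^ (q * w0) * κ (z.1 - z.2) ^ (q * w0)) := by rw [r1, r1, r2]
      _ = _ := by ring
  have m0 : Measurable fun z : E × E => b z.2 ^ p * κ (z.1 - z.2) ^ q :=
    (mb.pow_const _).mul (mκ.pow_const _)
  have m1 : Measurable fun z : E × E => a z.1 ^ p * κ (z.1 - z.2) ^ q :=
    (ma.pow_const _).mul (mκ.pow_const _)
  have m2 : Measurable fun z : E × E => a z.1 ^ p * b z.2 ^ p :=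
    (ma.pow_const _).mul (mb.pow_const _)
  have m3 : Measurable fun z : E × E => a z.1 * b z.2 * κ (z.1 - z.2) := (ma.mul mb).mul mκ
  have i0 : ∫⁻ z : E × E, b z.2 ^ p * κ (z.1 - z.2) ^ q =
      (∫⁻ x, b x ^ p) * ∫⁻ x, κ x ^ q := by
    rw [Measure.volume_eq_prod, lintegral_prod_symm' _ m0]
    have : ∀ y, ∫⁻ x, b y ^ p * κ (x - y) ^ q = b y ^ p * ∫⁻ x, κ x ^ q := by
      intro y
      have hmy : Measurable fun x : E => κ (x - y) ^ q := (hκ.comp (by fun_prop)).pow_const _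
      rw [lintegral_const_mul _ hmy]
      rw [lintegral_sub_right_eq_self (fun x => κ x ^ q) y]
    simp only [this]
    rw [lintegral_mul_const _ (hb.pow_const _)]
  have i1 : ∫⁻ z : E × E, a z.1 ^ p * κ (z.1 - z.2) ^ q =
      (∫⁻ x, a x ^ p) * ∫⁻ x, κ x ^ q := by
    rw [Measure.volume_eq_prod, lintegral_prod _ m1.aemeasurable]
    have : ∀ x, ∫⁻ y, a x ^ p * κ (x - y) ^ q = a x ^ p * ∫⁻ x, κ x ^ q := by
      intro x
      have hmy : Measurable fun y : E => κ (x - y) ^ q := (hκ.comp (by fun_prop)).pow_const _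
      rw [lintegral_const_mul _ hmy]
      rw [lintegral_sub_left_eq_self (fun x => κ x ^ q) x]
    simp only [this]
    rw [lintegral_mul_const _ (ha.pow_const _)]
  have i2 : ∫⁻ z : E × E, a z.1 ^ p * b z.2 ^ p = (∫⁻ x, a x ^ p) * ∫⁻ x, b x ^ p := by
    rw [Measure.volume_eq_prod, lintegral_prod _ m2.aemeasurable]
    have : ∀ x, ∫⁻ y, a x ^ p * b y ^ p = a x ^ p * ∫⁻ x, b x ^ p := by
      intro x
      rw [lintegral_const_mul _ (hb.pow_const _)]
    simp only [this]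
    rw [lintegral_mul_const _ (ha.pow_const _)]
  rw [i0, i1, i2] at hol
  calc ∫⁻ x, ∫⁻ y, a x * b y * κ (x - y)
      = ∫⁻ z : E × E, a z.1 * b z.2 * κ (z.1 - z.2) := by
        rw [Measure.volume_eq_prod, lintegral_prod _ m3.aemeasurable]
    _ = ∫⁻ z : E × E, (b z.2 ^ p * κ (z.1 - z.2) ^ q) ^ w0 * (a z.1 ^ p * κ (z.1 - z.2) ^ q) ^ w0 *
        (a z.1 ^ p * b z.2 ^ p) ^ w2 := lintegral_congr hpt
    _ ≤ _ := hol
    _ = (∫⁻ x, a x ^ p) ^ (1 / p) * (∫⁻ x, b x ^ p) ^ (1 / p) * (∫⁻ x, κ x ^ q) ^ (1 / q) := by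
        rw [← e0, ← e1]
        simp only [ENNReal.mul_rpow_of_nonneg _ _ hw0n, ENNReal.mul_rpow_of_nonneg _ _ hw2n]
        rw [ENNReal.rpow_add_of_nonneg _ _ hw0n hw2n, ENNReal.rpow_add_of_nonneg _ _ hw0n hw2n,
          ENNReal.rpow_add_of_nonneg _ _ hw0n hw0n]
        ring

/-- Tail integral. -/
noncomputable def tail (m : ℝ) : ℝ≥0∞ :=
  ∫⁻ z : E, {z : E | 1 ≤ ‖z‖}.indicator (fun z => ENNReal.ofReal (‖z‖ ^ (-m))) z

lemma tail_lt {m : ℝ} (hm : 5 < m) : tail m < ⊤ := by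
  have h1 := finite_integral_one_add_norm (E := E) (μ := volume) (r := m)
    (by simp only [finrank_euclideanSpace, Fintype.card_fin]; exact_mod_cast hm)
  have h2 : tail m ≤ ENNReal.ofReal (2 ^ m) * ∫⁻ x : E, ENNReal.ofReal ((1 + ‖x‖) ^ (-m)) := by
    rw [← lintegral_const_mul _ (by fun_prop)]
    refine lintegral_mono fun z => ?_
    by_cases hz : 1 ≤ ‖z‖
    · rw [indicator_of_mem (show z ∈ {z : E | 1 ≤ ‖z‖} from hz)]
      rw [← ENNReal.ofReal_mul (by positivity)]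
      refine ENNReal.ofReal_le_ofReal ?_
      have hz0 : 0 < ‖z‖ := by linarith
      have h3 : (1 + ‖z‖) ^ (-m) ≥ (2 * ‖z‖) ^ (-m) :=
        Real.rpow_le_rpow_of_nonpos (by positivity) (by linarith) (by linarith)
      have h4 : (2 * ‖z‖) ^ (-m) = (2 ^ m)⁻¹ * ‖z‖ ^ (-m) := by
        rw [Real.mul_rpow (by norm_num) hz0.le, Real.rpow_neg (by norm_num)]
      calc ‖z‖ ^ (-m) = 2 ^ m * ((2 ^ m)⁻¹ * ‖z‖ ^ (-m)) := by field_simp
        _ = 2 ^ m * (2 * ‖z‖) ^ (-m) := by rw [h4]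
        _ ≤ 2 ^ m * (1 + ‖z‖) ^ (-m) := by gcongr
    · rw [indicator_of_notMem (show z ∉ {z : E | 1 ≤ ‖z‖} from hz)]
      exact zero_le
  exact h2.trans_lt (ENNReal.mul_lt_top ENNReal.ofReal_lt_top h1)

lemma Kc_nonneg (t : ℝ) (z : E) : 0 ≤ Kc t z := by
  unfold Kc; positivity

lemma Kc_meas (t : ℝ) : Measurable (Kc t) := by
  unfold Kc; fun_prop

lemma lintegral_smul (h : E → ℝ≥0∞) (hh : Measurable h) {c : ℝ} (hc : 0 < c) :
    ∫⁻ z, h (c • z) = ENNReal.ofReal (c ^ (-5 : ℝ)) * ∫⁻ z, h z := by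
  have h1 := Measure.map_addHaar_smul (volume : Measure E) hc.ne'
  have h2 : ∫⁻ z, h (c • z) = ∫⁻ z, h z ∂(Measure.map (fun z => c • z) (volume : Measure E)) := by
    rw [lintegral_map hh (by fun_prop)]
  rw [h2, h1, lintegral_smul_measure, smul_eq_mul]
  congr 2
  rw [finrank_euclideanSpace, Fintype.card_fin, abs_of_pos (by positivity), Real.rpow_neg hc.le]
  norm_num

/-- Norm of the kernel. -/
lemma Kc_norm {m : ℝ} (hm : 5 < m) {t : ℝ} (ht : t ≠ 0) :
    ∫⁻ z, ENNReal.ofReal (Kc t z) ^ m ≤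
      ENNReal.ofReal ((2 * Real.pi ^ 2) ^ m) * tail m * ENNReal.ofReal (|t| ^ (5 - m)) := by
  have ht0 : 0 < |t| := abs_pos.2 ht
  have hm0 : 0 < m := by linarith
  set φ : E → ℝ≥0∞ := {z : E | 1 ≤ ‖z‖}.indicator (fun z => ENNReal.ofReal (‖z‖ ^ (-m))) with hφ
  have hφm : Measurable φ := Measurable.indicator (by fun_prop)
    (measurableSet_le measurable_const measurable_norm)
  have hpt : ∀ z : E, ENNReal.ofReal (Kc t z) ^ m ≤
      ENNReal.ofReal ((2 * Real.pi ^ 2) ^ m * |t| ^ (-m)) * φ (|t|⁻¹ • z) := by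
    intro z
    by_cases hz : |t| ≤ ‖z‖
    · have hz0 : 0 < ‖z‖ := ht0.trans_le hz
      have hmem : |t|⁻¹ • z ∈ {z : E | 1 ≤ ‖z‖} := by
        change 1 ≤ ‖|t|⁻¹ • z‖
        rw [norm_smul, norm_inv, Real.norm_eq_abs, abs_abs, inv_mul_eq_div, one_le_div ht0]
        exact hz
      rw [hφ, indicator_of_mem hmem, ENNReal.ofReal_rpow_of_nonneg (Kc_nonneg _ _) hm0.le,
        ← ENNReal.ofReal_mul (by positivity)]
      refine ENNReal.ofReal_le_ofReal ?_
      rw [norm_smul, norm_inv, Real.norm_eq_abs, abs_abs,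
        Real.mul_rpow (by positivity) hz0.le, Real.inv_rpow ht0.le, Real.rpow_neg ht0.le, inv_inv]
      have h1 : Kc t z ≤ 2 * Real.pi ^ 2 / ‖z‖ := by
        unfold Kc
        have : max 0 (1 - t ^ 2 / ‖z‖ ^ 2) ≤ 1 := max_le zero_le_one (by
          have : 0 ≤ t ^ 2 / ‖z‖ ^ 2 := by positivity
          linarith)
        calc 2 * Real.pi ^ 2 / ‖z‖ * max 0 (1 - t ^ 2 / ‖z‖ ^ 2) ≤ 2 * Real.pi ^ 2 / ‖z‖ * 1 := by
              gcongr
          _ = _ := mul_one _
      calc Kc t z ^ m ≤ (2 * Real.pi ^ 2 / ‖z‖) ^ m := by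
            have := Kc_nonneg t z
            gcongr
        _ = (2 * Real.pi ^ 2) ^ m * ‖z‖ ^ (-m) := by
            rw [Real.div_rpow (by positivity) hz0.le, Real.rpow_neg hz0.le]; rfl
        _ = (2 * Real.pi ^ 2) ^ m * (|t| ^ m)⁻¹ * (|t| ^ m * ‖z‖ ^ (-m)) := by
            have : |t| ^ m ≠ 0 := (Real.rpow_pos_of_pos ht0 m).ne'
            field_simp
    · have : Kc t z = 0 := by
        unfold Kc
        have hz' : ‖z‖ < |t| := not_le.1 hz
        rcases eq_or_lt_of_le (norm_nonneg z) with h | h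
        · rw [← h]; simp
        · have h2 : 1 ≤ t ^ 2 / ‖z‖ ^ 2 := by
            rw [one_le_div (by positivity), ← sq_abs t]
            gcongr
          rw [max_eq_left (by linarith), mul_zero]
      rw [this, ENNReal.ofReal_zero, ENNReal.zero_rpow_of_pos hm0]
      exact zero_le
  calc ∫⁻ z, ENNReal.ofReal (Kc t z) ^ m
      ≤ ∫⁻ z, ENNReal.ofReal ((2 * Real.pi ^ 2) ^ m * |t| ^ (-m)) * φ (|t|⁻¹ • z) :=
        lintegral_mono hpt
    _ = ENNReal.ofReal ((2 * Real.pi ^ 2) ^ m * |t| ^ (-m)) *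
        (ENNReal.ofReal (|t|⁻¹ ^ (-5 : ℝ)) * tail m) := by
        have hm1 : Measurable fun z : E => φ (|t|⁻¹ • z) := hφm.comp (by fun_prop)
        rw [lintegral_const_mul _ hm1, lintegral_smul φ hφm (inv_pos.2 ht0)]
        rfl
    _ = ENNReal.ofReal ((2 * Real.pi ^ 2) ^ m) * tail m * ENNReal.ofReal (|t| ^ (5 - m)) := by
        have h1 : |t| ^ (5 - m) = |t| ^ (-m) * |t|⁻¹ ^ (-5 : ℝ) := by
          rw [Real.inv_rpow ht0.le, Real.rpow_neg ht0.le 5, inv_inv, ← Real.rpow_add ht0]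
          congr 1; ring
        rw [h1, ENNReal.ofReal_mul (by positivity), ENNReal.ofReal_mul (by positivity)]
        ring

/-- The bound, for general exponents. -/
lemma core {p m γ P Q C : ℝ} (hp : 1 ≤ p) (hm : 5 < m) (hpm : 2 / p + 1 / m = 2)
    (hγ : (5 - m) / m = -γ) (hQ : 0 ≤ Q)
    (hls : ∀ f g : ℝ → ℝ≥0∞, Measurable f → Measurable g →
      ∫⁻ s, ∫⁻ t, f s * g t * ENNReal.ofReal (|s - t| ^ (-γ)) ≤
        ENNReal.ofReal C * (∫⁻ s, f s ^ P) ^ Q * (∫⁻ s, g s ^ P) ^ Q) (hC : 0 < C) :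
    ∃ D : ℝ, 0 < D ∧ ∀ (F : ℝ → E → ℝ≥0∞) (r : ℝ), Measurable (Function.uncurry F) →
      ∫⁻ s, ∫⁻ t, ∫⁻ x, ∫⁻ y, F s x * F t y * ENNReal.ofReal (Kc (s - t + r) (x - y)) ≤
        ENNReal.ofReal D * (∫⁻ s, (∫⁻ x, F s x ^ p) ^ (1 / p * P)) ^ (Q + Q) := by
  have hm0 : 0 < m := by linarith
  have hp0 : 0 < p := by linarith
  set A : ℝ≥0∞ := (ENNReal.ofReal ((2 * Real.pi ^ 2) ^ m) * tail m) ^ (1 / m) with hA
  have hAt : A ≠ ⊤ := by
    refine ENNReal.rpow_ne_top_of_nonneg (by positivity) ?_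
    exact (ENNReal.mul_lt_top ENNReal.ofReal_lt_top (tail_lt hm)).ne
  refine ⟨(A.toReal + 1) * C, by positivity, fun F r hF => ?_⟩
  have hFs : ∀ s, Measurable (F s) := fun s => hF.comp (measurable_const.prodMk measurable_id)
  set N : ℝ → ℝ≥0∞ := fun s => (∫⁻ x, F s x ^ p) ^ (1 / p) with hN
  have hNm : Measurable N := by
    refine Measurable.pow_const ?_ _
    exact (hF.pow_const p).lintegral_prod_right'
  have hNP : ∀ s, N s ^ P = (∫⁻ x, F s x ^ p) ^ (1 / p * P) := fun s => by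
    rw [hN, ENNReal.rpow_mul]
  have hstep : ∀ s t, s - t + r ≠ 0 →
      ∫⁻ x, ∫⁻ y, F s x * F t y * ENNReal.ofReal (Kc (s - t + r) (x - y)) ≤
        A * (N s * N t * ENNReal.ofReal (|s - t + r| ^ (-γ))) := by
    intro s t hst
    have h1 := young hp (by linarith) hpm (hFs s) (hFs t)
      (ENNReal.measurable_ofReal.comp (Kc_meas (s - t + r)))
    have h2 : (∫⁻ z, ENNReal.ofReal (Kc (s - t + r) z) ^ m) ^ (1 / m) ≤
        A * ENNReal.ofReal (|s - t + r| ^ (-γ)) := by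
      have h0 : 0 < |s - t + r| := abs_pos.2 hst
      calc (∫⁻ z, ENNReal.ofReal (Kc (s - t + r) z) ^ m) ^ (1 / m)
          ≤ (ENNReal.ofReal ((2 * Real.pi ^ 2) ^ m) * tail m *
            ENNReal.ofReal (|s - t + r| ^ (5 - m))) ^ (1 / m) := by
            gcongr
            exact Kc_norm hm hst
        _ = A * ENNReal.ofReal (|s - t + r| ^ (-γ)) := by
            rw [ENNReal.mul_rpow_of_nonneg _ _ (by positivity), ← hA]
            congr 1
            rw [ENNReal.ofReal_rpow_of_nonneg (by positivity) (by positivity),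
              ← Real.rpow_mul (abs_nonneg _), ← hγ]
            congr 2
            ring
    calc ∫⁻ x, ∫⁻ y, F s x * F t y * ENNReal.ofReal (Kc (s - t + r) (x - y))
        ≤ N s * N t * (∫⁻ z, ENNReal.ofReal (Kc (s - t + r) z) ^ m) ^ (1 / m) := h1
      _ ≤ N s * N t * (A * ENNReal.ofReal (|s - t + r| ^ (-γ))) := by gcongr
      _ = _ := by ring
  have hmk : ∀ s, Measurable fun t => N s * N t * ENNReal.ofReal (|s - t + r| ^ (-γ)) := by
    intro s
    exact (hNm.const_mul _).mul (by fun_prop)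
  have hmk2 : Measurable fun z : ℝ × ℝ =>
      N z.1 * N z.2 * ENNReal.ofReal (|z.1 - z.2 + r| ^ (-γ)) :=
    ((hNm.comp measurable_fst).mul (hNm.comp measurable_snd)).mul (by fun_prop)
  have hNr : Measurable fun t => N (t + r) := hNm.comp (by fun_prop)
  have h3 : ∀ s, ∫⁻ t, N s * N t * ENNReal.ofReal (|s - t + r| ^ (-γ)) =
      ∫⁻ t, N s * N (t + r) * ENNReal.ofReal (|s - t| ^ (-γ)) := by
    intro s
    rw [← lintegral_add_right_eq_self
      (fun t => N s * N t * ENNReal.ofReal (|s - t + r| ^ (-γ))) r]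
    refine lintegral_congr fun t => ?_
    have : s - (t + r) + r = s - t := by ring
    rw [this]
  calc ∫⁻ s, ∫⁻ t, ∫⁻ x, ∫⁻ y, F s x * F t y * ENNReal.ofReal (Kc (s - t + r) (x - y))
      ≤ ∫⁻ s, ∫⁻ t, A * (N s * N t * ENNReal.ofReal (|s - t + r| ^ (-γ))) := by
        refine lintegral_mono fun s => lintegral_mono_ae ?_
        have : ∀ᵐ t : ℝ, t ≠ s + r := Measure.ae_ne volume (s + r)
        filter_upwards [this] with t ht
        refine hstep s t fun h => ht ?_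
        linarith
    _ = A * ∫⁻ s, ∫⁻ t, N s * N t * ENNReal.ofReal (|s - t + r| ^ (-γ)) := by
        simp only [lintegral_const_mul A (hmk _)]
        rw [lintegral_const_mul _ hmk2.lintegral_prod_right']
    _ = A * ∫⁻ s, ∫⁻ t, N s * N (t + r) * ENNReal.ofReal (|s - t| ^ (-γ)) := by
        simp only [h3]
    _ ≤ A * (ENNReal.ofReal C * (∫⁻ s, N s ^ P) ^ Q * (∫⁻ s, N (s + r) ^ P) ^ Q) := by
        gcongr
        exact hls N (fun t => N (t + r)) hNm hNr
    _ = A * ENNReal.ofReal C * (∫⁻ s, (∫⁻ x, F s x ^ p) ^ (1 / p * P)) ^ (Q + Q) := by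
        rw [lintegral_add_right_eq_self (fun s => N s ^ P) r]
        simp only [hNP]
        rw [ENNReal.rpow_add_of_nonneg _ _ hQ hQ]
        ring
    _ ≤ ENNReal.ofReal ((A.toReal + 1) * C) *
        (∫⁻ s, (∫⁻ x, F s x ^ p) ^ (1 / p * P)) ^ (Q + Q) := by
        gcongr
        rw [ENNReal.ofReal_mul (by positivity)]
        gcongr
        calc A = ENNReal.ofReal A.toReal := (ENNReal.ofReal_toReal hAt).symm
          _ ≤ _ := ENNReal.ofReal_le_ofReal (by linarith)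

end Pool.Agent.QWE.KcBx

namespace Pool.Agent.QWE

open KcBx

theorem thm_KcB (hHLS : St_HLS) : St_KcB := by
  obtain ⟨C, hC, h⟩ := hHLS
  obtain ⟨D1, hD1, h1⟩ := core (p := 20 / 19) (m := 10) (γ := 1 / 2) (P := 4 / 3) (Q := 3 / 4)
    (C := C) (by norm_num) (by norm_num) (by norm_num) (by norm_num) (by norm_num)
    (fun f g hf hg => (h f g hf hg).1) hC
  obtain ⟨D2, hD2, h2⟩ := core (p := 30 / 29) (m := 15) (γ := 2 / 3) (P := 3 / 2) (Q := 2 / 3)
    (C := C) (by norm_num) (by norm_num) (by norm_num) (by norm_num) (by norm_num)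
    (fun f g hf hg => (h f g hf hg).2) hC
  refine ⟨D1 + D2, by positivity, fun F r hF => ⟨?_, ?_⟩⟩
  · have e1 : (1 : ℝ) / (20 / 19) * (4 / 3) = 19 / 15 := by norm_num
    have e2 : (3 : ℝ) / 4 + 3 / 4 = 3 / 2 := by norm_num
    have := h1 F r hF
    rw [e1, e2] at this
    refine this.trans ?_
    gcongr
    linarith
  · have e1 : (1 : ℝ) / (30 / 29) * (3 / 2) = 29 / 20 := by norm_num
    have e2 : (2 : ℝ) / 3 + 2 / 3 = 4 / 3 := by norm_num
    have := h2 F r hF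
    rw [e1, e2] at this
    refine this.trans ?_
    gcongr
    linarith

end Pool.Agent.QWE
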