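import Pool.Agent.QWE.StE
import Pool.Agent.QWE.StA

set_option autoImplicit false

/-!
# QWE, L5B: the `L⁵` norm on a ball by dyadic annuli
-/

open MeasureTheory Filter Topology Set
open scoped ENNReal NNReal RealInnerProductSpace

namespace Pool.Agent.QWE

namespace L5Bx

lemma pow5 (f : E → ℝ) (s : Set E) :
    ∫⁻ x in s, ‖f x‖ₑ ^ 5 = eLpNorm f 5 (volume.restrict s) ^ 5 := by
  have h := eLpNorm_nnreal_pow_eq_lintegral (f := f) (μ := volume.restrict s) (p := 5)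
    (by norm_num)
  have h1 : ((5 : ℝ≥0) : ℝ) = ((5 : ℕ) : ℝ) := by norm_num
  have h2 : ((5 : ℝ≥0) : ℝ≥0∞) = 5 := by norm_num
  rw [h1, h2, ENNReal.rpow_natCast] at h
  rw [h]
  simp only [ENNReal.rpow_natCast]

lemma holder5 {f : E → ℝ} (hf : AEStronglyMeasurable f volume) (s : Set E) :
    ∫⁻ x in s, ‖f x‖ₑ ^ 5 ≤
      eLpNorm f 10 (volume.restrict s) ^ 5 * (volume s) ^ (1 / 2 : ℝ) := by
  have h1 := eLpNorm_le_eLpNorm_mul_rpow_measure_univ (μ := volume.restrict s) (p := 5) (q := 10)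
    (by norm_num) (hf.restrict)
  have h3 : (1 / (5 : ℝ≥0∞).toReal - 1 / (10 : ℝ≥0∞).toReal) = (1 / 10 : ℝ) := by norm_num
  rw [h3, Measure.restrict_apply_univ] at h1
  rw [pow5]
  calc eLpNorm f 5 (volume.restrict s) ^ 5
      ≤ (eLpNorm f 10 (volume.restrict s) * volume s ^ (1 / 10 : ℝ)) ^ 5 :=
        pow_le_pow_left' h1 5
    _ = eLpNorm f 10 (volume.restrict s) ^ 5 * (volume s) ^ (1 / 2 : ℝ) := by
        rw [mul_pow, ← ENNReal.rpow_natCast (volume s ^ (1 / 10 : ℝ)), ← ENNReal.rpow_mul]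
        norm_num

/-- One piece. -/
lemma piece {f : E → ℝ} (hf : AEStronglyMeasurable f volume) (s : Set E) (y : E) (r B : ℝ)
    (hr : 0 ≤ r) (hB : 0 ≤ B) (hs : s ⊆ Metric.closedBall y r)
    (h : eLpNorm f 10 (volume.restrict s) ≤ ENNReal.ofReal B) :
    ∫⁻ x in s, ‖f x‖ₑ ^ 5 ≤
      ENNReal.ofReal (B ^ 5 * √(r ^ 5 * (volume (Metric.ball (0 : E) 1)).toReal)) := by
  set W := (volume (Metric.ball (0 : E) 1)).toReal with hW
  have hW0 : 0 ≤ W := ENNReal.toReal_nonneg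
  have hvol : volume s ≤ ENNReal.ofReal (r ^ 5 * W) := by
    refine (measure_mono hs).trans ?_
    rw [Measure.addHaar_closedBall _ _ hr, finrank_euclideanSpace_fin,
      ENNReal.ofReal_mul (pow_nonneg hr 5), hW, ENNReal.ofReal_toReal measure_ball_lt_top.ne]
  calc ∫⁻ x in s, ‖f x‖ₑ ^ 5
      ≤ eLpNorm f 10 (volume.restrict s) ^ 5 * (volume s) ^ (1 / 2 : ℝ) := holder5 hf s
    _ ≤ ENNReal.ofReal B ^ 5 * ENNReal.ofReal (r ^ 5 * W) ^ (1 / 2 : ℝ) := by
        gcongr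
    _ = ENNReal.ofReal (B ^ 5 * √(r ^ 5 * W)) := by
        rw [ENNReal.ofReal_rpow_of_nonneg (mul_nonneg (pow_nonneg hr 5) hW0) (by norm_num),
          ← ENNReal.ofReal_pow hB, ← ENNReal.ofReal_mul (pow_nonneg hB 5), Real.sqrt_eq_rpow]

lemma sqrt_pow (j : ℕ) (W : ℝ) :
    √(((2 : ℝ) ^ (j + 1)) ^ 5 * W) = √(32 * W) * (2 : ℝ) ^ ((5 / 2 : ℝ) * j) := by
  have h1 : ((2 : ℝ) ^ (j + 1)) ^ 5 * W = 32 * W * ((2 : ℝ) ^ ((5 / 2 : ℝ) * j)) ^ 2 := by
    rw [← Real.rpow_natCast ((2 : ℝ) ^ ((5 / 2 : ℝ) * j)), ← Real.rpow_mul (by norm_num)]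
    have h2 : (5 / 2 : ℝ) * j * ((2 : ℕ) : ℝ) = ((5 * j : ℕ) : ℝ) := by push_cast; ring
    rw [h2, Real.rpow_natCast]
    ring
  rw [h1, Real.sqrt_mul' _ (sq_nonneg _), Real.sqrt_sq (Real.rpow_nonneg (by norm_num) _)]

end L5Bx

open L5Bx

theorem thm_L5B (hF : St_Fld) (hX : St_ExF) : St_L5B := by
  obtain ⟨C1, hC1, hF⟩ := hF
  obtain ⟨C2, hC2, hX⟩ := hX
  set W := (volume (Metric.ball (0 : E) 1)).toReal with hW
  have hW0 : 0 ≤ W := ENNReal.toReal_nonneg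
  set C := C1 ^ 5 * √W + C2 ^ 5 * √(32 * W) + 1 with hC
  have hCa : C1 ^ 5 * √W ≤ C := by
    have : 0 ≤ C2 ^ 5 * √(32 * W) := by positivity
    linarith
  have hCb : C2 ^ 5 * √(32 * W) ≤ C := by
    have : 0 ≤ C1 ^ 5 * √W := by positivity
    linarith
  refine ⟨C, by positivity, ?_⟩
  intro k y m A hA hm n
  have hA0 : 0 ≤ A := (norm_nonneg k).trans hA
  have hm0 : ∀ ρ, 0 ≤ m ρ := fun ρ => (norm_nonneg _).trans (hm ρ)
  have hmeas : AEStronglyMeasurable (U k) volume := (hF k).1.1.1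
  -- induction
  have key : ∀ n : ℕ, ∫⁻ x in Metric.closedBall y (2 ^ n), ‖U k x‖ₑ ^ 5 ≤
      ENNReal.ofReal (C * (A ^ 5 +
        ∑ j ∈ Finset.range n, (2 : ℝ) ^ ((5 / 2 : ℝ) * j) * m (2 ^ j) ^ 5)) := by
    intro n
    induction n with
    | zero =>
      have h1 : eLpNorm (U k) 10 (volume.restrict (Metric.closedBall y (2 ^ 0))) ≤
          ENNReal.ofReal (C1 * A) := by
        refine (eLpNorm_mono_measure _ Measure.restrict_le_self).trans ((hF k).1.2.trans ?_)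
        rw [ENNReal.ofReal_mul hC1.le, ← ofReal_norm]
        gcongr
      refine (piece hmeas _ y (2 ^ 0) (C1 * A) (by norm_num) (by positivity)
        Subset.rfl h1).trans (ENNReal.ofReal_le_ofReal ?_)
      rw [Finset.range_zero, Finset.sum_empty, add_zero, pow_zero, one_pow, one_mul]
      calc (C1 * A) ^ 5 * √W = C1 ^ 5 * √W * A ^ 5 := by ring
        _ ≤ C * A ^ 5 := by gcongr
    | succ n ih =>
      set s : Set E := {x | 2 ^ n < dist x y ∧ dist x y ≤ 2 ^ (n + 1)} with hs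
      have hsub : Metric.closedBall y (2 ^ (n + 1)) ⊆ Metric.closedBall y (2 ^ n) ∪ s := by
        intro x hx
        by_cases h : dist x y ≤ 2 ^ n
        · exact Or.inl h
        · exact Or.inr ⟨not_le.1 h, hx⟩
      have h1 : eLpNorm (U k) 10 (volume.restrict s) ≤ ENNReal.ofReal (C2 * m (2 ^ n)) := by
        have hopen : IsOpen (ext y (2 ^ n)) := isOpen_lt continuous_const (by fun_prop)
        have h2 : s ⊆ ext y (2 ^ n) := fun x hx => hx.1
        refine (eLpNorm_mono_measure _ (Measure.restrict_mono h2 le_rfl)).trans ?_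
        rw [← eLpNorm_indicator_eq_eLpNorm_restrict hopen.measurableSet]
        refine ((hX k (ext y (2 ^ n)) hopen).1).trans (ENNReal.ofReal_le_ofReal ?_)
        exact mul_le_mul_of_nonneg_left (hm _) hC2.le
      have h3 := piece hmeas s y (2 ^ (n + 1)) (C2 * m (2 ^ n)) (by positivity)
        (mul_nonneg hC2.le (hm0 _)) (fun x hx => hx.2) h1
      rw [← hW, sqrt_pow] at h3
      calc ∫⁻ x in Metric.closedBall y (2 ^ (n + 1)), ‖U k x‖ₑ ^ 5
          ≤ ∫⁻ x in Metric.closedBall y (2 ^ n) ∪ s, ‖U k x‖ₑ ^ 5 := lintegral_mono_set hsub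
        _ ≤ (∫⁻ x in Metric.closedBall y (2 ^ n), ‖U k x‖ₑ ^ 5) + ∫⁻ x in s, ‖U k x‖ₑ ^ 5 :=
            lintegral_union_le _ _ _
        _ ≤ ENNReal.ofReal (C * (A ^ 5 +
              ∑ j ∈ Finset.range n, (2 : ℝ) ^ ((5 / 2 : ℝ) * j) * m (2 ^ j) ^ 5)) +
            ENNReal.ofReal (C * ((2 : ℝ) ^ ((5 / 2 : ℝ) * n) * m (2 ^ n) ^ 5)) := by
            refine add_le_add ih (h3.trans (ENNReal.ofReal_le_ofReal ?_))
            calc (C2 * m (2 ^ n)) ^ 5 * (√(32 * W) * (2 : ℝ) ^ ((5 / 2 : ℝ) * n))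
                = C2 ^ 5 * √(32 * W) * ((2 : ℝ) ^ ((5 / 2 : ℝ) * n) * m (2 ^ n) ^ 5) := by ring
              _ ≤ C * ((2 : ℝ) ^ ((5 / 2 : ℝ) * n) * m (2 ^ n) ^ 5) := by
                  have := hm0 (2 ^ n)
                  gcongr
        _ = ENNReal.ofReal (C * (A ^ 5 +
              ∑ j ∈ Finset.range (n + 1), (2 : ℝ) ^ ((5 / 2 : ℝ) * j) * m (2 ^ j) ^ 5)) := by
            rw [← ENNReal.ofReal_add, Finset.sum_range_succ]
            · congr 1
              ring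
            · have h4 : 0 ≤ ∑ j ∈ Finset.range n, (2 : ℝ) ^ ((5 / 2 : ℝ) * j) * m (2 ^ j) ^ 5 :=
                Finset.sum_nonneg fun j _ => mul_nonneg (Real.rpow_nonneg (by norm_num) _)
                  (pow_nonneg (hm0 _) 5)
              positivity
            · have := hm0 (2 ^ n)
              positivity
  have h1 := key (n + 1)
  have h2 : ∫⁻ x in Metric.ball y (2 ^ (n + 1)), ENNReal.ofReal (|U k x| ^ 5) ≤
      ENNReal.ofReal (C * (A ^ 5 +
        ∑ j ∈ Finset.range (n + 1), (2 : ℝ) ^ ((5 / 2 : ℝ) * j) * m (2 ^ j) ^ 5)) := by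
    refine le_trans ?_ h1
    refine (lintegral_mono_set Metric.ball_subset_closedBall).trans (lintegral_mono fun x => ?_)
    rw [ENNReal.ofReal_pow (abs_nonneg _), ← Real.enorm_eq_ofReal_abs]
  have hm5 : AEStronglyMeasurable (fun x => |U k x| ^ 5)
      (volume.restrict (Metric.ball y (2 ^ (n + 1)))) := (hmeas.norm.pow 5).restrict
  rw [integral_eq_lintegral_of_nonneg_ae
    (Eventually.of_forall fun x => pow_nonneg (abs_nonneg _) 5) hm5]
  refine ENNReal.toReal_le_of_le_ofReal ?_ h2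
  have h4 : 0 ≤ ∑ j ∈ Finset.range (n + 1), (2 : ℝ) ^ ((5 / 2 : ℝ) * j) * m (2 ^ j) ^ 5 :=
    Finset.sum_nonneg fun j _ => mul_nonneg (Real.rpow_nonneg (by norm_num) _)
      (pow_nonneg (hm0 _) 5)
  positivity

end Pool.Agent.QWE
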