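import Pool.Agent.QWE.UTest

set_option autoImplicit false

open MeasureTheory Filter Topology Set
open scoped ENNReal NNReal RealInnerProductSpace Pointwise

namespace Pool.Agent.QWE

theorem thm_L7 (h : St_RadT) : St_L7 := by
  intro y ρ k hk
  have hA := UTestx.measurableSet_A y ρ
  obtain ⟨A, hAd⟩ : ∃ A : Set (S × ℝ), A = {z : S × ℝ | |z.2 - inner ℝ y (z.1 : E)| < ρ} :=
    ⟨_, rfl⟩
  rw [← hAd] at hA hk
  have hk0 : ∀ᵐ z ∂mu, z ∈ A → k z = 0 := by
    have h1 := UTestx.indK_coe hA k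
    rw [hk] at h1
    filter_upwards [h1, Lp.coeFn_zero ℝ 2 mu] with z hz hz0 hzA
    rw [indicator_of_mem hzA] at hz
    rw [← hz, hz0]
    rfl
  have hgen : ∀ (w : K) (f : S × ℝ → ℝ), ((w : S × ℝ → ℝ) =ᵐ[mu] f) →
      (∀ z : S × ℝ, ρ ≤ |z.2 - inner ℝ y (z.1 : E)| → f z = 0) → inner ℝ k w = (0 : ℝ) := by
    intro w f hwf hf
    rw [L2.inner_def]
    have : ∀ᵐ z ∂mu, inner ℝ (k z) (w z) = (0 : ℝ) := by
      filter_upwards [hk0, hwf] with z h1 h2
      by_cases hz : |z.2 - inner ℝ y (z.1 : E)| < ρ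
      · rw [h1 (hAd ▸ hz), inner_zero_left]
      · rw [h2, hf z (not_lt.1 hz), inner_zero_right]
    rw [integral_congr_ae this, integral_zero]
  have hle : TS (Metric.ball y ρ) ≤ (Submodule.span ℝ {k})ᗮ := by
    apply Submodule.topologicalClosure_minimal _ _ (Submodule.isClosed_orthogonal _)
    rw [Submodule.span_le]
    rintro w ⟨φ, hφ, hφs, hw⟩
    obtain ⟨-, -, r3, -, -, r6, r7⟩ := h φ hφ
    have r := r3 y ρ (hφs.trans Metric.ball_subset_closedBall)
    rw [SetLike.mem_coe, Submodule.mem_orthogonal_singleton_iff_inner_right]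
    rcases hw with rfl | rfl
    · exact hgen _ _ r6 fun z hz => (r z hz).1
    · exact hgen _ _ r7 fun z hz => (r z hz).2
  rw [Van, Submodule.mem_orthogonal]
  intro u hu
  have := hle hu
  rw [Submodule.mem_orthogonal_singleton_iff_inner_left] at this
  exact this

end Pool.Agent.QWE
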