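import Pool.Agent.QWE.StA

set_option autoImplicit false

/-!
# QWE, module L8: exterior locality
-/

open MeasureTheory Filter Topology Set
open scoped ENNReal NNReal RealInnerProductSpace Pointwise

namespace Pool.Agent.QWE

namespace L8x

lemma indK_coe {A : Set (S × ℝ)} (hA : MeasurableSet A) (k : K) :
    (indK A k : S × ℝ → ℝ) =ᵐ[mu] fun z => A.indicator (fun _ => (1 : ℝ)) z * k z := by
  refine mulK_coe (measurable_const.indicator hA) ?_ k
  intro z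
  by_cases hz : z ∈ A
  · rw [indicator_of_mem hz]; simp
  · rw [indicator_of_notMem hz]; simp

lemma indK_norm {A : Set (S × ℝ)} (hA : MeasurableSet A) (k : K) : ‖indK A k‖ ≤ ‖k‖ := by
  refine Lp.norm_le_norm_of_ae_le ?_
  filter_upwards [indK_coe hA k] with z hz
  rw [hz, norm_mul]
  by_cases hz : z ∈ A
  · rw [indicator_of_mem hz]; simp
  · rw [indicator_of_notMem hz]; simp

lemma wd_zero {i : Fin 5} {f g : E → ℝ} {Ω : Set E} (hΩ : IsOpen Ω)
    (hf : ∀ᵐ x, x ∈ Ω → f x = 0) (hg : LocallyIntegrable g volume) (h : WD i f g) :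
    ∀ᵐ x, x ∈ Ω → g x = 0 := by
  refine hΩ.ae_eq_zero_of_integral_contDiff_smul_eq_zero (hg.locallyIntegrableOn Ω) ?_
  intro φ h1 h2 h3
  have h4 := h φ ⟨h1, h2⟩
  have h5 : ∫ x, f x * pd i φ x = 0 := by
    refine integral_eq_zero_of_ae ?_
    filter_upwards [hf] with x hx
    by_cases hxΩ : x ∈ Ω
    · rw [hx hxΩ]; simp
    · have h6 : fderiv ℝ φ x = 0 := fderiv_of_notMem_tsupport ℝ fun hx' => hxΩ (h3 hx')
      unfold pd
      rw [h6]
      simp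
  rw [h5] at h4
  have h6 : ∫ x, φ x • g x = ∫ x, g x * φ x := by
    refine integral_congr_ae (Eventually.of_forall fun x => ?_)
    show φ x * g x = g x * φ x
    ring
  rw [h6]
  linarith

lemma one_le_p : (1 : ℝ≥0∞) ≤ 10 / 3 := by
  rw [ENNReal.le_div_iff_mul_le (Or.inl (by norm_num)) (Or.inl (by norm_num))]
  norm_num

lemma flds (hFld : St_Fld) {Ω : Set E} (hΩ : IsOpen Ω) {k : K}
    (hU : ∀ᵐ x, x ∈ Ω → U k x = 0) (hV : ∀ᵐ x, x ∈ Ω → V k x = 0) :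
    (∀ᵐ x, x ∈ Ω → LU k x = 0) ∧ ∀ i, ∀ᵐ x, x ∈ Ω → DV k i x = 0 := by
  obtain ⟨C, _, hC⟩ := hFld
  obtain ⟨_, _, hDU, hDDU, hDV⟩ := hC k
  have h1 : ∀ i, ∀ᵐ x, x ∈ Ω → DU k i x = 0 := fun i =>
    wd_zero hΩ hU ((hDU i).1.locallyIntegrable one_le_p) (hDU i).2.1
  have h2 : ∀ i j, ∀ᵐ x, x ∈ Ω → DDU k i j x = 0 := fun i j =>
    wd_zero hΩ (h1 i) ((hDDU i j).1.locallyIntegrable one_le_two) (hDDU i j).2.1
  have h3 : ∀ i, ∀ᵐ x, x ∈ Ω → DV k i x = 0 := fun i =>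
    wd_zero hΩ hV ((hDV i).1.locallyIntegrable one_le_two) (hDV i).2.1
  refine ⟨?_, h3⟩
  have h4 : ∀ᵐ x, ∀ i, x ∈ Ω → DDU k i i x = 0 := ae_all_iff.2 fun i => h2 i i
  filter_upwards [h4] with x hx hxΩ
  unfold LU
  exact Finset.sum_eq_zero fun i _ => hx i hxΩ

/-- orthogonality of fields with complementary supports -/
lemma orth (hFld : St_Fld) (hIP : St_IP) {Ω Ω' : Set E} (hΩ : IsOpen Ω) (hΩ' : IsOpen Ω')
    (hun : ∀ x, x ∈ Ω ∨ x ∈ Ω') {k k' : K}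
    (hU : ∀ᵐ x, x ∈ Ω → U k x = 0) (hV : ∀ᵐ x, x ∈ Ω → V k x = 0)
    (hU' : ∀ᵐ x, x ∈ Ω' → U k' x = 0) (hV' : ∀ᵐ x, x ∈ Ω' → V k' x = 0) :
    inner ℝ k k' = 0 := by
  obtain ⟨h1, h2⟩ := flds hFld hΩ hU hV
  obtain ⟨h1', h2'⟩ := flds hFld hΩ' hU' hV'
  rw [hIP k k']
  have h3 : ∫ x, LU k x * LU k' x = 0 := by
    refine integral_eq_zero_of_ae ?_
    filter_upwards [h1, h1'] with x hx hx'
    rcases hun x with h | h
    · rw [hx h]; simp
    · rw [hx' h]; simp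
  have h4 : ∀ i, ∫ x, DV k i x * DV k' i x = 0 := by
    intro i
    refine integral_eq_zero_of_ae ?_
    filter_upwards [h2 i, h2' i] with x hx hx'
    rcases hun x with h | h
    · rw [hx h]; simp
    · rw [hx' h]; simp
  rw [h3, Finset.sum_eq_zero fun i _ => h4 i]
  simp

lemma meas_q (y : E) : Measurable fun z : S × ℝ => |z.2 - inner ℝ y (z.1 : E)| := by
  have h : Continuous fun z : S × ℝ => |z.2 - inner ℝ y (z.1 : E)| := by fun_prop
  exact h.measurable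

lemma isOpen_ext (y : E) (ρ : ℝ) : IsOpen (ext y ρ) :=
  isOpen_lt continuous_const (by fun_prop)

/-- the second part for one radius -/
lemma one (hFld : St_Fld) (hIP : St_IP) (hExB : St_ExB) (hL7 : St_L7) (y : E) (ρ ρ' : ℝ)
    (hρ : ρ < ρ') (k : K) (hk : Van (ext y ρ) k) :
    indK {z | ρ' ≤ |z.2 - inner ℝ y (z.1 : E)|} k = 0 := by
  obtain ⟨_, _, _, _, _, _, hop, _⟩ := hExB
  set B : Set (S × ℝ) := {z | ρ' ≤ |z.2 - inner ℝ y (z.1 : E)|} with hB
  have hBm : MeasurableSet B := measurableSet_le measurable_const (meas_q y)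
  have hLm : MeasurableSet {z : S × ℝ | |z.2 - inner ℝ y (z.1 : E)| < ρ'} :=
    measurableSet_lt (meas_q y) measurable_const
  set κ : K := indK B k with hκ
  have hz : indK {z | |z.2 - inner ℝ y (z.1 : E)| < ρ'} κ = 0 := by
    apply Lp.ext
    filter_upwards [indK_coe hLm κ, indK_coe hBm k, Lp.coeFn_zero ℝ 2 mu] with z h1 h2 h3
    rw [h1, h3, h2]
    by_cases hzB : z ∈ B
    · have h4 : z ∉ {z : S × ℝ | |z.2 - inner ℝ y (z.1 : E)| < ρ'} := by
        intro h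
        have h5 : |z.2 - inner ℝ y (z.1 : E)| < ρ' := h
        have h6 : ρ' ≤ |z.2 - inner ℝ y (z.1 : E)| := hzB
        linarith
      rw [indicator_of_notMem h4]
      simp
    · rw [indicator_of_notMem hzB]
      simp
  have hV := hL7 y ρ' κ hz
  have h1 := (hop _ k (isOpen_ext y ρ)).1 hk
  have h2 := (hop _ κ Metric.isOpen_ball).1 hV
  have h3 : inner ℝ k κ = 0 := by
    refine orth hFld hIP (isOpen_ext y ρ) (Metric.isOpen_ball (x := y) (ε := ρ')) ?_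
      h1.1 h1.2 h2.1 h2.2
    intro x
    rcases lt_or_ge ρ (dist x y) with h | h
    · exact Or.inl h
    · exact Or.inr (lt_of_le_of_lt h hρ)
  have h4 : inner ℝ k κ = inner ℝ κ κ := by
    rw [L2.inner_def, L2.inner_def]
    refine integral_congr_ae ?_
    filter_upwards [indK_coe hBm k] with z hz
    show κ z * k z = κ z * κ z
    have hz' : κ z = B.indicator (fun _ => (1 : ℝ)) z * k z := hz
    rw [hz']
    by_cases hzB : z ∈ B
    · rw [indicator_of_mem hzB]; simp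
    · rw [indicator_of_notMem hzB]; simp
  rw [h3] at h4
  exact inner_self_eq_zero.1 h4.symm

lemma two (hFld : St_Fld) (hIP : St_IP) (hExB : St_ExB) (hL7 : St_L7) (y : E) (ρ : ℝ)
    (k : K) (hk : Van (ext y ρ) k) :
    indK {z | ρ < |z.2 - inner ℝ y (z.1 : E)|} k = 0 := by
  have hAm : MeasurableSet {z : S × ℝ | ρ < |z.2 - inner ℝ y (z.1 : E)|} :=
    measurableSet_lt measurable_const (meas_q y)
  have hBm : ∀ n : ℕ, MeasurableSet {z : S × ℝ | ρ + 1 / ((n : ℝ) + 1) ≤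
      |z.2 - inner ℝ y (z.1 : E)|} := fun n => measurableSet_le measurable_const (meas_q y)
  have h0 : ∀ n : ℕ, indK {z | ρ + 1 / ((n : ℝ) + 1) ≤ |z.2 - inner ℝ y (z.1 : E)|} k = 0 :=
    fun n => one hFld hIP hExB hL7 y ρ _ (by
      have : (0 : ℝ) < 1 / ((n : ℝ) + 1) := by positivity
      linarith) k hk
  have h1 : ∀ᵐ z ∂mu, ∀ n : ℕ, ({z : S × ℝ | ρ + 1 / ((n : ℝ) + 1) ≤
      |z.2 - inner ℝ y (z.1 : E)|}).indicator (fun _ => (1 : ℝ)) z * k z = 0 := by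
    refine ae_all_iff.2 fun n => ?_
    filter_upwards [indK_coe (hBm n) k, Lp.coeFn_zero ℝ 2 mu] with z h2 h3
    rw [← h2, h0 n, h3]
    rfl
  apply Lp.ext
  filter_upwards [indK_coe hAm k, h1, Lp.coeFn_zero ℝ 2 mu] with z h2 h3 h4
  rw [h2, h4]
  by_cases hz : z ∈ {z : S × ℝ | ρ < |z.2 - inner ℝ y (z.1 : E)|}
  · have hz' : ρ < |z.2 - inner ℝ y (z.1 : E)| := hz
    obtain ⟨n, hn⟩ := exists_nat_one_div_lt (sub_pos.2 hz')
    have h5 : z ∈ {z : S × ℝ | ρ + 1 / ((n : ℝ) + 1) ≤ |z.2 - inner ℝ y (z.1 : E)|} := by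
      show ρ + 1 / ((n : ℝ) + 1) ≤ |z.2 - inner ℝ y (z.1 : E)|
      linarith
    have h6 := h3 n
    rw [indicator_of_mem h5, one_mul] at h6
    rw [h6]
    simp
  · rw [indicator_of_notMem hz]
    simp

end L8x

theorem thm_L8 (hFld : St_Fld) (hIP : St_IP) (hExB : St_ExB) (hL7 : St_L7) : St_L8 := by
  intro y ρ k _
  refine ⟨?_, L8x.two hFld hIP hExB hL7 y ρ k⟩
  have hAm : MeasurableSet {z : S × ℝ | ρ < |z.2 - inner ℝ y (z.1 : E)|} :=
    measurableSet_lt measurable_const (L8x.meas_q y)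
  have h1 : Van (ext y ρ) (k - pr (ext y ρ) k) := hExB.2.2.2.2.1 _ k
  have h2 := L8x.two hFld hIP hExB hL7 y ρ _ h1
  rw [map_sub, sub_eq_zero] at h2
  rw [h2]
  exact L8x.indK_norm hAm _

end Pool.Agent.QWE
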