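import Pool.Agent.QWE.StA

/-!
# QWE, module Lin: linearity of the fields, values on test states
-/

set_option autoImplicit false

open MeasureTheory Filter Topology Set
open scoped ENNReal NNReal RealInnerProductSpace ContDiff Pointwise

namespace Pool.Agent.QWE.Linx

lemma test_sch {φ : E → ℝ} (h : IsTest φ) : IsSch φ :=
  ⟨h.2.toSchwartzMap h.1, fun _ => rfl⟩

lemma test_pd {φ : E → ℝ} (h : IsTest φ) (i : Fin 5) : IsTest (pd i φ) := by
  refine ⟨?_, ?_⟩
  · unfold pd
    have h1 : ContDiff ℝ ∞ (fderiv ℝ φ) := h.1.fderiv_right (by norm_cast)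
    exact h1.clm_apply contDiff_const
  · unfold pd
    have h1 : HasCompactSupport (fderiv ℝ φ) := h.2.fderiv ℝ
    exact h1.comp_left (g := fun L : E →L[ℝ] ℝ => L (EuclideanSpace.single i (1 : ℝ))) rfl

lemma test_lap {φ : E → ℝ} (h : IsTest φ) : IsTest (lap φ) := by
  have h1 : ∀ i : Fin 5, IsTest (pd i (pd i φ)) := fun i => test_pd (test_pd h i) i
  refine ⟨?_, ?_⟩
  · unfold lap
    exact ContDiff.sum fun i _ => (h1 i).1
  · have h2 : ∀ s : Finset (Fin 5), HasCompactSupport (fun x => ∑ i ∈ s, pd i (pd i φ) x) := by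
      intro s
      induction s using Finset.induction_on with
      | empty =>
        simp only [Finset.sum_empty]
        exact HasCompactSupport.zero
      | insert a s ha ih =>
        simp only [Finset.sum_insert ha]
        exact (h1 a).2.add ih
    exact h2 Finset.univ

lemma int_mul {f φ : E → ℝ} (hf : LocallyIntegrable f volume) (hφ : IsTest φ) :
    Integrable (fun x => f x * φ x) volume := by
  have h := hf.integrable_smul_left_of_hasCompactSupport hφ.1.continuous hφ.2
  refine h.congr (Eventually.of_forall fun x => ?_)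
  simp only [smul_eq_mul]
  ring

lemma ae_lin {f f1 f2 : E → ℝ} {c : ℝ} (h : LocallyIntegrable f volume)
    (h1 : LocallyIntegrable f1 volume) (h2 : LocallyIntegrable f2 volume)
    (H : ∀ φ, IsTest φ → ∫ x, f x * φ x = (∫ x, f1 x * φ x) + c * ∫ x, f2 x * φ x) :
    f =ᵐ[volume] fun x => f1 x + c * f2 x := by
  have h2' : LocallyIntegrable (fun x => c * f2 x) volume := by
    have := h2.smul c
    exact this
  have h3 : LocallyIntegrable (fun x => f x - (f1 x + c * f2 x)) volume := h.sub (h1.add h2')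
  have h4 := ae_eq_zero_of_integral_contDiff_smul_eq_zero h3 (fun g hg1 hg2 => by
    have hg : IsTest g := ⟨hg1, hg2⟩
    have e1 : (fun x => g x • (f x - (f1 x + c * f2 x))) =
        fun x => f x * g x - (f1 x * g x + c * (f2 x * g x)) := by
      funext x
      simp only [smul_eq_mul]
      ring
    have i2 : Integrable (fun x => f1 x * g x + c * (f2 x * g x)) volume :=
      (int_mul h1 hg).add ((int_mul h2 hg).const_mul c)
    rw [e1, integral_sub (int_mul h hg) i2,
      integral_add (int_mul h1 hg) ((int_mul h2 hg).const_mul c), integral_const_mul, H g hg]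
    ring)
  filter_upwards [h4] with x hx
  linarith

lemma wd_lin {f f1 f2 g g1 g2 : E → ℝ} {c : ℝ} {i : Fin 5}
    (hf1 : LocallyIntegrable f1 volume) (hf2 : LocallyIntegrable f2 volume)
    (hg : LocallyIntegrable g volume) (hg1 : LocallyIntegrable g1 volume)
    (hg2 : LocallyIntegrable g2 volume) (w : WD i f g) (w1 : WD i f1 g1) (w2 : WD i f2 g2)
    (hl : f =ᵐ[volume] fun x => f1 x + c * f2 x) :
    g =ᵐ[volume] fun x => g1 x + c * g2 x := by
  refine ae_lin hg hg1 hg2 fun φ hφ => ?_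
  have hp := test_pd hφ i
  have e1 : ∫ x, f x * pd i φ x = (∫ x, f1 x * pd i φ x) + c * ∫ x, f2 x * pd i φ x := by
    have e2 : ∫ x, f x * pd i φ x = ∫ x, (f1 x * pd i φ x + c * (f2 x * pd i φ x)) := by
      apply integral_congr_ae
      filter_upwards [hl] with x hx
      rw [hx]
      ring
    rw [e2, integral_add (int_mul hf1 hp) ((int_mul hf2 hp).const_mul c), integral_const_mul]
  have a1 := w φ hφ
  have a2 := w1 φ hφ
  have a3 := w2 φ hφ
  rw [e1, a2, a3] at a1
  linarith

lemma wd_test {f : E → ℝ} (hf : IsTest f) (i : Fin 5) : WD i f (pd i f) := by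
  intro φ hφ
  have hp := test_pd hf i
  have hq := test_pd hφ i
  unfold pd
  refine integral_mul_fderiv_eq_neg_fderiv_mul_of_integrable ?_ ?_ ?_ ?_ ?_
  · exact int_mul (hp.1.continuous.locallyIntegrable) hφ
  · exact int_mul (hf.1.continuous.locallyIntegrable) hq
  · exact int_mul (hf.1.continuous.locallyIntegrable) hφ
  · intro x _
    exact (hf.1.differentiable (by simp)).differentiableAt
  · intro x _
    exact (hφ.1.differentiable (by simp)).differentiableAt

lemma wd_zero (i : Fin 5) : WD i (fun _ => (0 : ℝ)) (fun _ => (0 : ℝ)) := by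
  intro φ _
  simp

lemma li_zero : LocallyIntegrable (fun _ : E => (0 : ℝ)) volume :=
  (continuous_const (y := (0 : ℝ))).locallyIntegrable

lemma wd_eq {f F g G : E → ℝ} {i : Fin 5} (hF : LocallyIntegrable F volume)
    (hg : LocallyIntegrable g volume) (hG : LocallyIntegrable G volume)
    (w : WD i f g) (W : WD i F G) (hl : f =ᵐ[volume] F) : g =ᵐ[volume] G := by
  have h := wd_lin (c := 0) (f2 := fun _ => 0) (g2 := fun _ => 0) hF li_zero hg hG li_zero w W
    (wd_zero i) (by
      filter_upwards [hl] with x hx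
      rw [hx]
      ring)
  filter_upwards [h] with x hx
  rw [hx]
  ring

lemma ae_uniq {f F : E → ℝ} (hf : LocallyIntegrable f volume) (hF : LocallyIntegrable F volume)
    (H : ∀ φ, IsTest φ → ∫ x, f x * φ x = ∫ x, F x * φ x) : f =ᵐ[volume] F := by
  have h := ae_lin (c := 0) (f2 := fun _ => 0) hf hF li_zero (fun φ hφ => by
    rw [H φ hφ]
    ring)
  filter_upwards [h] with x hx
  rw [hx]
  ring

lemma inner_Theta_Rk (hI : St_Iso) {f g φ : E → ℝ} (hf : IsTest f) (hg : IsTest g)
    (hφ : IsSch φ) : inner ℝ (Theta f g) (Rk φ) = ∫ x, f x * φ x := by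
  have h1 := (hI f φ (test_sch hf) hφ).1
  have h2 := (hI φ (lap g) hφ (test_sch (test_lap hg))).2.2
  unfold Theta
  rw [real_inner_smul_left, inner_sub_left, real_inner_comm (Rk φ) (dRk (lap g)), h2, sub_zero, h1]

lemma inner_Theta_dRk (hI : St_Iso) {f g φ : E → ℝ} (hf : IsTest f) (hg : IsTest g)
    (hφ : IsSch φ) : inner ℝ (Theta f g) (dRk φ) = ∫ x, g x * φ x := by
  have h1 := (hI g φ (test_sch hg) hφ).2.1
  have h2 := (hI (lap (lap f)) φ (test_sch (test_lap (test_lap hf))) hφ).2.2
  unfold Theta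
  rw [real_inner_smul_left, inner_sub_left, h2, zero_sub, mul_neg, h1, neg_neg]

/-- The test formulas for the velocity field and Schwartz functions. -/
lemma V_sch (hD : St_Dens) (hI : St_Iso) (C : ℝ) (hC : 0 < C)
    (hV : ∀ k : K, IsV k (V k) ∧ eLpNorm (V k) (10 / 3) volume ≤ ENNReal.ofReal C * ‖k‖ₑ)
    (hadd : ∀ (c : ℝ) (k k' : K), V (k + c • k') =ᵐ[volume] fun x => V k x + c * V k' x)
    (hth : ∀ f g : E → ℝ, IsTest f → IsTest g → V (Theta f g) =ᵐ[volume] g)
    (k : K) (φ : E → ℝ) (hφ : IsSch φ) : ∫ x, V k x * φ x = inner ℝ k (dRk φ) := by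
  obtain ⟨Φ, hΦ⟩ := hφ
  have hφm : MemLp φ (10 / 7) volume := by
    have := Φ.memLp (10 / 7) (volume : Measure E)
    refine this.ae_eq (Eventually.of_forall hΦ)
  have hpq : ENNReal.HolderTriple (10 / 3) (10 / 7) 1 := by
    constructor
    rw [ENNReal.inv_div (by norm_num) (by norm_num), ENNReal.inv_div (by norm_num) (by norm_num),
      inv_one, ← ENNReal.add_div]
    norm_num
    exact ENNReal.div_self (by norm_num) (by norm_num)
  set A : ℝ := (eLpNorm φ (10 / 7) volume).toReal with hA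
  -- the bound for all k
  have hb : ∀ k : K, |∫ x, V k x * φ x| ≤ C * ‖k‖ * A := by
    intro k
    have h1 : eLpNorm (fun x => V k x * φ x) 1 volume ≤
        eLpNorm (V k) (10 / 3) volume * eLpNorm φ (10 / 7) volume := by
      exact eLpNorm_smul_le_mul_eLpNorm (φ := V k) (f := φ) hφm.1 (hV k).1.1.1
    have h2 : eLpNorm (fun x => V k x * φ x) 1 volume ≤ ENNReal.ofReal (C * ‖k‖ * A) := by
      refine h1.trans ?_
      rw [hA, ENNReal.ofReal_mul (by positivity), ENNReal.ofReal_mul hC.le,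
        ENNReal.ofReal_toReal hφm.2.ne]
      gcongr
      refine (hV k).2.trans ?_
      rw [← ofReal_norm]
    rw [← Real.norm_eq_abs]
    refine (norm_integral_le_lintegral_norm _).trans ?_
    refine ENNReal.toReal_le_of_le_ofReal (by positivity) (le_trans (le_of_eq ?_) h2)
    rw [eLpNorm_one_eq_lintegral_enorm]
    simp only [ofReal_norm]
  have hint : ∀ k : K, Integrable (fun x => V k x * φ x) volume := by
    intro k
    have := MemLp.integrable_mul (p := 10 / 3) (q := 10 / 7) (hV k).1.1 hφm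
    exact this
  -- difference
  have hdiff : ∀ k k' : K, (∫ x, V k x * φ x) - ∫ x, V k' x * φ x = ∫ x, V (k - k') x * φ x := by
    intro k k'
    rw [← integral_sub (hint k) (hint k')]
    apply integral_congr_ae
    have h1 := hadd (-1) k k'
    have e : k + (-1 : ℝ) • k' = k - k' := by
      rw [neg_one_smul, sub_eq_add_neg]
    rw [e] at h1
    filter_upwards [h1] with x hx
    rw [hx]
    ring
  have key : ∀ ε : ℝ, 0 < ε → |(∫ x, V k x * φ x) - inner ℝ k (dRk φ)| ≤
      ε * (C * A + ‖dRk φ‖) := by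
    intro ε hε
    obtain ⟨f, g, hf, hg, hfg⟩ := hD.2 k ε hε
    have h1 : ∫ x, V (Theta f g) x * φ x = inner ℝ (Theta f g) (dRk φ) := by
      rw [inner_Theta_dRk hI hf hg ⟨Φ, hΦ⟩]
      apply integral_congr_ae
      filter_upwards [hth f g hf hg] with x hx
      rw [hx]
    have h2 : (∫ x, V k x * φ x) - inner ℝ k (dRk φ) =
        (∫ x, V (k - Theta f g) x * φ x) - inner ℝ (k - Theta f g) (dRk φ) := by
      rw [← hdiff, inner_sub_left, h1]
      ring
    rw [h2]
    have h3 := hb (k - Theta f g)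
    have h4 := abs_real_inner_le_norm (k - Theta f g) (dRk φ)
    have hA0 : 0 ≤ A := ENNReal.toReal_nonneg
    calc |(∫ x, V (k - Theta f g) x * φ x) - inner ℝ (k - Theta f g) (dRk φ)| ≤
        |∫ x, V (k - Theta f g) x * φ x| + |inner ℝ (k - Theta f g) (dRk φ)| := abs_sub _ _
      _ ≤ C * ‖k - Theta f g‖ * A + ‖k - Theta f g‖ * ‖dRk φ‖ := add_le_add h3 h4
      _ ≤ C * ε * A + ε * ‖dRk φ‖ := by gcongr
      _ = ε * (C * A + ‖dRk φ‖) := by ring
  have h0 : |(∫ x, V k x * φ x) - inner ℝ k (dRk φ)| ≤ 0 := by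
    set B : ℝ := C * A + ‖dRk φ‖ with hB
    have hB0 : 0 ≤ B := by positivity
    refine le_of_forall_pos_le_add fun ε hε => ?_
    have h1 := key (ε / (B + 1)) (by positivity)
    refine h1.trans ?_
    rw [zero_add, div_mul_eq_mul_div, div_le_iff₀ (by positivity)]
    nlinarith
  have h1 := abs_nonpos_iff.1 h0
  linarith

end Pool.Agent.QWE.Linx

namespace Pool.Agent.QWE

open Linx in
/-- **Lin** (a.e. linearity of the fields, values on test states). -/
theorem thm_Lin (hD : St_Dens) (hI : St_Iso) (hU : St_UTest) (hF : St_Fld) : St_Lin := by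
  obtain ⟨C, hC, hF⟩ := hF
  have h1 : (1 : ℝ≥0∞) ≤ 10 / 3 := by
    rw [ENNReal.le_div_iff_mul_le (by norm_num) (by norm_num)]
    norm_num
  have liU : ∀ k : K, LocallyIntegrable (U k) volume := hU.2.1
  have liV : ∀ k : K, LocallyIntegrable (V k) volume := fun k =>
    (hF k).2.1.1.1.locallyIntegrable h1
  have liDU : ∀ (k : K) i, LocallyIntegrable (DU k i) volume := fun k i =>
    ((hF k).2.2.1 i).1.locallyIntegrable h1
  have liDDU : ∀ (k : K) i j, LocallyIntegrable (DDU k i j) volume := fun k i j =>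
    ((hF k).2.2.2.1 i j).1.locallyIntegrable (by norm_num)
  have liDV : ∀ (k : K) i, LocallyIntegrable (DV k i) volume := fun k i =>
    ((hF k).2.2.2.2 i).1.locallyIntegrable (by norm_num)
  have aU : ∀ (c : ℝ) (k k' : K), U (k + c • k') =ᵐ[volume] fun x => U k x + c * U k' x := by
    intro c k k'
    refine ae_lin (liU _) (liU _) (liU _) fun φ hφ => ?_
    rw [hU.2.2 _ φ (test_sch hφ), hU.2.2 _ φ (test_sch hφ), hU.2.2 _ φ (test_sch hφ),
      inner_add_left, real_inner_smul_left]
  have aV : ∀ (c : ℝ) (k k' : K), V (k + c • k') =ᵐ[volume] fun x => V k x + c * V k' x := by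
    intro c k k'
    refine ae_lin (liV _) (liV _) (liV _) fun φ hφ => ?_
    rw [(hF _).2.1.1.2 φ hφ, (hF _).2.1.1.2 φ hφ, (hF _).2.1.1.2 φ hφ, inner_add_left,
      real_inner_smul_left]
  have aDU : ∀ (c : ℝ) (k k' : K) (i : Fin 5),
      DU (k + c • k') i =ᵐ[volume] fun x => DU k i x + c * DU k' i x := fun c k k' i =>
    wd_lin (liU _) (liU _) (liDU _ i) (liDU _ i) (liDU _ i) ((hF _).2.2.1 i).2.1
      ((hF _).2.2.1 i).2.1 ((hF _).2.2.1 i).2.1 (aU c k k')
  have aDDU : ∀ (c : ℝ) (k k' : K) (i j : Fin 5),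
      DDU (k + c • k') i j =ᵐ[volume] fun x => DDU k i j x + c * DDU k' i j x := fun c k k' i j =>
    wd_lin (liDU _ i) (liDU _ i) (liDDU _ i j) (liDDU _ i j) (liDDU _ i j)
      ((hF _).2.2.2.1 i j).2.1 ((hF _).2.2.2.1 i j).2.1 ((hF _).2.2.2.1 i j).2.1 (aDU c k k' i)
  have aDV : ∀ (c : ℝ) (k k' : K) (i : Fin 5),
      DV (k + c • k') i =ᵐ[volume] fun x => DV k i x + c * DV k' i x := fun c k k' i =>
    wd_lin (liV _) (liV _) (liDV _ i) (liDV _ i) (liDV _ i) ((hF _).2.2.2.2 i).2.1
      ((hF _).2.2.2.2 i).2.1 ((hF _).2.2.2.2 i).2.1 (aV c k k')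
  have tU : ∀ f g : E → ℝ, IsTest f → IsTest g → U (Theta f g) =ᵐ[volume] f := by
    intro f g hf hg
    refine ae_uniq (liU _) hf.1.continuous.locallyIntegrable fun φ hφ => ?_
    rw [hU.2.2 _ φ (test_sch hφ), inner_Theta_Rk hI hf hg (test_sch hφ)]
  have tV : ∀ f g : E → ℝ, IsTest f → IsTest g → V (Theta f g) =ᵐ[volume] g := by
    intro f g hf hg
    refine ae_uniq (liV _) hg.1.continuous.locallyIntegrable fun φ hφ => ?_
    rw [(hF _).2.1.1.2 φ hφ, inner_Theta_dRk hI hf hg (test_sch hφ)]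
  have tDU : ∀ f g : E → ℝ, IsTest f → IsTest g → ∀ i, DU (Theta f g) i =ᵐ[volume] pd i f :=
    fun f g hf hg i => wd_eq hf.1.continuous.locallyIntegrable (liDU _ i)
      (test_pd hf i).1.continuous.locallyIntegrable ((hF _).2.2.1 i).2.1 (wd_test hf i)
      (tU f g hf hg)
  refine ⟨fun c k k' => ⟨aU c k k', aV c k k', aDU c k k', aDDU c k k', aDV c k k'⟩,
    fun f g hf hg => ⟨tU f g hf hg, tV f g hf hg, tDU f g hf hg, fun i j => ?_, fun i => ?_⟩, ?_⟩
  · exact wd_eq (test_pd hf i).1.continuous.locallyIntegrable (liDDU _ i j)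
      (test_pd (test_pd hf i) j).1.continuous.locallyIntegrable ((hF _).2.2.2.1 i j).2.1
      (wd_test (test_pd hf i) j) (tDU f g hf hg i)
  · exact wd_eq hg.1.continuous.locallyIntegrable (liDV _ i)
      (test_pd hg i).1.continuous.locallyIntegrable ((hF _).2.2.2.2 i).2.1
      (wd_test hg i) (tV f g hf hg)
  · exact V_sch hD hI C hC (fun k => (hF k).2.1) aV tV

end Pool.Agent.QWE
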