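import Pool.Agent.QWE.UTest

set_option autoImplicit false

open MeasureTheory Filter Topology Set
open scoped ENNReal NNReal RealInnerProductSpace Pointwise

namespace Pool.Agent.QWE
namespace Lscx

/-- convergence in `K` implies almost everywhere convergence of a subsequence of the fields -/
theorem ae_sub (h1 : St_UTest) (h2 : St_Lin) (u : ℕ → K) (k : K)
    (hu : ∀ n, ‖u n - k‖ ≤ (1 / 2) ^ n) :
    ∀ᵐ x : E, Tendsto (fun n => U (u n) x) atTop (𝓝 (U k x)) := by
  obtain ⟨⟨C, hC, hb⟩, -, -⟩ := h1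
  set d : ℕ → K := fun n => u n + (-1 : ℝ) • k with hd
  have hdn : ∀ n, ‖d n‖ₑ ≤ ENNReal.ofReal ((1 / 2) ^ n) := by
    intro n
    have e : d n = u n - k := by rw [hd]; simp only [neg_smul, one_smul, sub_eq_add_neg]
    rw [e, ← ofReal_norm_eq_enorm]
    exact ENNReal.ofReal_le_ofReal (hu n)
  have hlin : ∀ᵐ x : E, ∀ n, U (d n) x = U (u n) x + (-1) * U k x := by
    rw [ae_all_iff]
    intro n
    exact (h2.1 (-1) (u n) k).1
  have hm : ∀ m : ℕ, ∀ᵐ x : E, x ∈ Metric.ball (0 : E) (m + 1) →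
      Tendsto (fun n => ‖U (d n) x‖ₑ) atTop (𝓝 0) := by
    intro m
    rw [← ae_restrict_iff' Metric.isOpen_ball.measurableSet]
    have hpos : (0 : ℝ) < m + 1 := by positivity
    have hmeas : ∀ n, AEMeasurable (fun x => ‖U (d n) x‖ₑ)
        (volume.restrict (Metric.ball (0 : E) (m + 1))) := fun n =>
      (UTestx.measurable_U (d n)).measurable.enorm.aemeasurable
    have hfin : ∫⁻ x in Metric.ball (0 : E) (m + 1), ∑' n, ‖U (d n) x‖ₑ ≠ ∞ := by
      rw [lintegral_tsum hmeas]
      have hle : ∀ n, ∫⁻ x in Metric.ball (0 : E) (m + 1), ‖U (d n) x‖ₑ ≤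
          ENNReal.ofReal (C * (m + 1 : ℝ) ^ (9 / 2 : ℝ)) * ENNReal.ofReal ((1 / 2) ^ n) := by
        intro n
        refine (hb (d n) 0 (m + 1) hpos).trans ?_
        gcongr
        rw [UTestx.enorm_indK (UTestx.measurableSet_A 0 (m + 1))]
        refine (eLpNorm_mono_measure _ Measure.restrict_le_self).trans ?_
        rw [← Lp.enorm_def]
        exact hdn n
      refine ne_top_of_le_ne_top ?_ (ENNReal.tsum_le_tsum hle)
      rw [ENNReal.tsum_mul_left]
      apply ENNReal.mul_ne_top ENNReal.ofReal_ne_top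
      have : ∀ n : ℕ, ENNReal.ofReal ((1 / 2 : ℝ) ^ n) = (ENNReal.ofReal (1 / 2)) ^ n := fun n =>
        ENNReal.ofReal_pow (by norm_num) n
      simp only [this]
      rw [ENNReal.tsum_geometric]
      apply ENNReal.inv_ne_top.2
      rw [← ENNReal.ofReal_one, ← ENNReal.ofReal_sub _ (by norm_num)]
      norm_num
    filter_upwards [ae_lt_top' (AEMeasurable.tsum hmeas) hfin] with x hx
    exact ENNReal.tendsto_atTop_zero_of_tsum_ne_top hx.ne
  rw [← ae_all_iff] at hm
  filter_upwards [hm, hlin] with x hx hl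
  obtain ⟨m, hm1⟩ := exists_nat_gt ‖x‖
  have h3 := hx m (by rw [mem_ball_zero_iff]; linarith)
  rw [tendsto_iff_edist_tendsto_0]
  refine h3.congr fun n => ?_
  rw [edist_eq_enorm_sub, hl n]
  congr 1
  ring

end Lscx

theorem thm_Lsc (h1 : St_UTest) (h2 : St_Lin) : St_Lsc := by
  intro p B hp hB
  rw [lowerSemicontinuous_iff_isClosed_preimage]
  intro y
  apply IsSeqClosed.isClosed
  intro u k hu hlim
  obtain ⟨φ, hφ1, hφ2⟩ := extraction_forall_of_eventually
    (P := fun (n : ℕ) (j : ℕ) => ‖u j - k‖ ≤ (1 / 2) ^ n) (fun n => by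
      have h3 : Tendsto (fun j => ‖u j - k‖) atTop (𝓝 0) :=
        tendsto_iff_norm_sub_tendsto_zero.1 hlim
      exact (h3.eventually (gt_mem_nhds (show (0 : ℝ) < (1 / 2) ^ n by positivity))).mono
        fun j hj => hj.le)
  have h3 := Lscx.ae_sub h1 h2 (fun n => u (φ n)) k hφ2
  have h4 : ∀ᵐ x : E, Tendsto (fun n => B.indicator (U (u (φ n))) x) atTop
      (𝓝 (B.indicator (U k) x)) := by
    filter_upwards [h3] with x hx
    by_cases hxB : x ∈ B
    · simp only [indicator_of_mem hxB]; exact hx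
    · simp only [indicator_of_notMem hxB]; exact tendsto_const_nhds
  have h5 := Lp.eLpNorm_lim_le_liminf_eLpNorm (p := p) (μ := (volume : Measure E))
    (f := fun n => B.indicator (U (u (φ n))))
    (fun n => ((UTestx.measurable_U _).indicator hB).aestronglyMeasurable) _ h4
  refine h5.trans ?_
  apply liminf_le_of_frequently_le' (Frequently.of_forall fun n => ?_)
  exact hu (φ n)

end Pool.Agent.QWE
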