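import Pool.Agent.QWE.StG
import Pool.Agent.QWE.Lsc

set_option autoImplicit false

/-!
# QWE, LscT: lower semicontinuity of the `L²⁰` norm of the part of the position field above a height
-/

open MeasureTheory Filter Topology Set
open scoped ENNReal NNReal RealInnerProductSpace

namespace Pool.Agent.QWE

theorem thm_LscT (h1 : St_UTest) (h2 : St_Lin) : St_LscT := by
  intro m _
  rw [lowerSemicontinuous_iff_isClosed_preimage]
  intro y
  apply IsSeqClosed.isClosed
  intro u k hu hlim
  obtain ⟨φ, hφ1, hφ2⟩ := extraction_forall_of_eventually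
    (P := fun (n : ℕ) (j : ℕ) => ‖u j - k‖ ≤ (1 / 2) ^ n) (fun n => by
      have h3 : Tendsto (fun j => ‖u j - k‖) atTop (𝓝 0) :=
        tendsto_iff_norm_sub_tendsto_zero.1 hlim
      exact (h3.eventually (gt_mem_nhds (show (0 : ℝ) < (1 / 2) ^ n by positivity))).mono
        fun j hj => hj.le)
  have h3 := Lscx.ae_sub h1 h2 (fun n => u (φ n)) k hφ2
  have h4 : ∀ᵐ x : E, Tendsto (fun n => max 0 (|U (u (φ n)) x| - m)) atTop
      (𝓝 (max 0 (|U k x| - m))) := by
    filter_upwards [h3] with x hx
    exact tendsto_const_nhds.max (hx.abs.sub_const m)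
  have hmeas : ∀ n, AEStronglyMeasurable (fun x : E => max 0 (|U (u (φ n)) x| - m)) volume := by
    intro n
    have h6 : Measurable (U (u (φ n))) := (UTestx.measurable_U _).measurable
    exact (measurable_const.max ((measurable_norm.comp h6).sub_const m)).aestronglyMeasurable
  have h5 := Lp.eLpNorm_lim_le_liminf_eLpNorm (p := 20) (μ := (volume : Measure E))
    (f := fun n x => max 0 (|U (u (φ n)) x| - m)) hmeas _ h4
  refine h5.trans ?_
  apply liminf_le_of_frequently_le' (Frequently.of_forall fun n => ?_)
  exact hu (φ n)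

end Pool.Agent.QWE
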