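import Pool.Agent.QWE.StB
import Pool.Agent.QWE.StA

set_option autoImplicit false
set_option linter.unusedSectionVars false

/-!
# QWE, Meas: measurability (helper7)
-/

open MeasureTheory Filter Topology Set
open scoped ENNReal NNReal RealInnerProductSpace ContDiff Pointwise

namespace Pool.Agent.QWE

namespace Measx

/-! ### a theorem of Pettis -/

section pettis

variable {H : Type*} [NormedAddCommGroup H] [InnerProductSpace ℝ H] [SecondCountableTopology H]
  {α : Type*} [MeasurableSpace α]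

private lemma weak_all {g : α → H} {D : Set H} (hD : Dense D)
    (h : ∀ w ∈ D, Measurable fun r => inner ℝ (g r) w) (w : H) :
    Measurable fun r => inner ℝ (g r) w := by
  obtain ⟨x, hx, hx2⟩ := mem_closure_iff_seq_limit.1 (hD w)
  refine measurable_of_tendsto_metrizable (f := fun n r => inner ℝ (g r) (x n))
    (fun n => h _ (hx n)) ?_
  rw [tendsto_pi_nhds]
  intro r
  exact (tendsto_const_nhds (x := g r)).inner hx2

private lemma ball_meas {g : α → H} {D : Set H} (hD : Dense D)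
    (h : ∀ w ∈ D, Measurable fun r => inner ℝ (g r) w) (c : H) {ρ : ℝ} (hρ : 0 ≤ ρ) :
    MeasurableSet {r | ‖g r - c‖ ≤ ρ} := by
  have h1 : {r | ‖g r - c‖ ≤ ρ} = ⋂ n : ℕ, {r | inner ℝ (g r) (TopologicalSpace.denseSeq H n) -
      inner ℝ c (TopologicalSpace.denseSeq H n) ≤ ρ * ‖TopologicalSpace.denseSeq H n‖} := by
    ext r
    rw [mem_iInter]
    constructor
    · intro hr n
      have hr' : ‖g r - c‖ ≤ ρ := hr
      show inner ℝ (g r) _ - inner ℝ c _ ≤ _
      rw [← inner_sub_left]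
      refine (real_inner_le_norm _ _).trans ?_
      gcongr
    · intro hr
      show ‖g r - c‖ ≤ ρ
      by_contra hcon
      push Not at hcon
      have ho : IsOpen {d : H | ρ * ‖d‖ < inner ℝ (g r - c) d} :=
        isOpen_lt (by fun_prop) (by fun_prop)
      have hne : ({d : H | ρ * ‖d‖ < inner ℝ (g r - c) d}).Nonempty := by
        refine ⟨g r - c, ?_⟩
        show ρ * ‖g r - c‖ < inner ℝ (g r - c) (g r - c)
        rw [real_inner_self_eq_norm_mul_norm]
        exact mul_lt_mul_of_pos_right hcon (hρ.trans_lt hcon)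
      obtain ⟨d, hd, ⟨n, rfl⟩⟩ :=
        (TopologicalSpace.denseRange_denseSeq H).inter_open_nonempty _ ho hne
      have h2 : inner ℝ (g r) (TopologicalSpace.denseSeq H n) -
        inner ℝ c (TopologicalSpace.denseSeq H n) ≤ ρ * ‖TopologicalSpace.denseSeq H n‖ := hr n
      rw [← inner_sub_left] at h2
      exact absurd hd (not_lt.2 h2)
  rw [h1]
  refine MeasurableSet.iInter fun n => ?_
  exact measurableSet_le ((weak_all hD h _).sub_const _) measurable_const

lemma pettis {g : α → H} {D : Set H} (hD : Dense D)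
    (h : ∀ w ∈ D, Measurable fun r => inner ℝ (g r) w) : StronglyMeasurable g := by
  borelize H
  have hm : Measurable g := by
    refine measurable_of_isOpen fun O hO => ?_
    have h1 : g ⁻¹' O = ⋃ n : ℕ, ⋃ q : ℕ,
        {r | Metric.closedBall (TopologicalSpace.denseSeq H n) (1 / ((q : ℝ) + 1)) ⊆ O ∧
          ‖g r - TopologicalSpace.denseSeq H n‖ ≤ 1 / ((q : ℝ) + 1)} := by
      ext r
      simp only [mem_iUnion]
      constructor
      · intro hr
        obtain ⟨ε, hε, hb⟩ := Metric.isOpen_iff.1 hO (g r) hr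
        obtain ⟨q, hq⟩ := exists_nat_one_div_lt (half_pos hε)
        have hq0 : (0 : ℝ) < 1 / ((q : ℝ) + 1) := by positivity
        obtain ⟨d, hd, ⟨n, rfl⟩⟩ := (TopologicalSpace.denseRange_denseSeq H).inter_open_nonempty
          (Metric.ball (g r) (1 / ((q : ℝ) + 1))) Metric.isOpen_ball ⟨g r, Metric.mem_ball_self hq0⟩
        refine ⟨n, q, ?_, ?_⟩
        · intro y hy
          apply hb
          rw [Metric.mem_ball]
          rw [Metric.mem_closedBall] at hy
          rw [Metric.mem_ball] at hd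
          calc dist y (g r) ≤ dist y (TopologicalSpace.denseSeq H n) +
                dist (TopologicalSpace.denseSeq H n) (g r) := dist_triangle _ _ _
            _ < ε := by linarith
        · rw [Metric.mem_ball, dist_comm, dist_eq_norm] at hd
          exact hd.le
      · rintro ⟨n, q, h2, h3⟩
        apply h2
        rw [Metric.mem_closedBall, dist_eq_norm]
        exact h3
    rw [h1]
    refine MeasurableSet.iUnion fun n => MeasurableSet.iUnion fun q => ?_
    by_cases h2 : Metric.closedBall (TopologicalSpace.denseSeq H n) (1 / ((q : ℝ) + 1)) ⊆ O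
    · have h3 : {r | Metric.closedBall (TopologicalSpace.denseSeq H n) (1 / ((q : ℝ) + 1)) ⊆ O ∧
          ‖g r - TopologicalSpace.denseSeq H n‖ ≤ 1 / ((q : ℝ) + 1)} =
          {r | ‖g r - TopologicalSpace.denseSeq H n‖ ≤ 1 / ((q : ℝ) + 1)} := by
        ext r
        exact ⟨fun h => h.2, fun h => ⟨h2, h⟩⟩
      rw [h3]
      exact ball_meas hD h _ (by positivity)
    · have h3 : {r | Metric.closedBall (TopologicalSpace.denseSeq H n) (1 / ((q : ℝ) + 1)) ⊆ O ∧
          ‖g r - TopologicalSpace.denseSeq H n‖ ≤ 1 / ((q : ℝ) + 1)} = ∅ := by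
        ext r
        exact ⟨fun h => absurd h.1 h2, fun h => absurd h (notMem_empty _)⟩
      rw [h3]
      exact MeasurableSet.empty
  exact hm.stronglyMeasurable

end pettis

/-! ### test functions -/

private lemma test_pd (i : Fin 5) {φ : E → ℝ} (h : IsTest φ) : IsTest (pd i φ) := by
  refine ⟨?_, h.2.fderiv_apply ℝ _⟩
  exact (h.1.fderiv_right (m := ∞) (by simp)).clm_apply contDiff_const

private lemma tsupport_pd (i : Fin 5) (φ : E → ℝ) : tsupport (pd i φ) ⊆ tsupport φ :=
  tsupport_fderiv_apply_subset ℝ _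

private lemma lap_zero {φ : E → ℝ} {x : E} (h : x ∉ tsupport φ) : lap φ x = 0 := by
  refine Finset.sum_eq_zero fun i _ => ?_
  exact image_eq_zero_of_notMem_tsupport fun h2 => h (tsupport_pd i φ (tsupport_pd i _ h2))

private lemma test_lap {φ : E → ℝ} (h : IsTest φ) : IsTest (lap φ) := by
  refine ⟨?_, HasCompactSupport.intro h.2 fun x hx => lap_zero hx⟩
  exact ContDiff.sum fun i _ => (test_pd i (test_pd i h)).1

/-! ### the fifth power -/

private lemma pow_diff (a b : ℝ) : |a ^ 5 - b ^ 5| ≤ 5 * (|a - b| * (|a| + |b|) ^ 4) := by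
  have h1 : a ^ 5 - b ^ 5 = (a - b) * (a ^ 4 + a ^ 3 * b + a ^ 2 * b ^ 2 + a * b ^ 3 + b ^ 4) := by
    ring
  have ha := abs_nonneg a
  have hb := abs_nonneg b
  have h2 : |a ^ 4 + a ^ 3 * b + a ^ 2 * b ^ 2 + a * b ^ 3 + b ^ 4| ≤
      |a| ^ 4 + |a| ^ 3 * |b| + |a| ^ 2 * |b| ^ 2 + |a| * |b| ^ 3 + |b| ^ 4 := by
    calc |a ^ 4 + a ^ 3 * b + a ^ 2 * b ^ 2 + a * b ^ 3 + b ^ 4|
        ≤ |a ^ 4| + |a ^ 3 * b| + |a ^ 2 * b ^ 2| + |a * b ^ 3| + |b ^ 4| := by
          refine (abs_add_le _ _).trans ?_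
          gcongr
          refine (abs_add_le _ _).trans ?_
          gcongr
          refine (abs_add_le _ _).trans ?_
          gcongr
          exact abs_add_le _ _
      _ = _ := by simp only [abs_mul, abs_pow]
  have h3 : |a| ^ 4 + |a| ^ 3 * |b| + |a| ^ 2 * |b| ^ 2 + |a| * |b| ^ 3 + |b| ^ 4 ≤
      (|a| + |b|) ^ 4 := by
    have e : (|a| + |b|) ^ 4 - (|a| ^ 4 + |a| ^ 3 * |b| + |a| ^ 2 * |b| ^ 2 + |a| * |b| ^ 3 + |b| ^ 4) =
      3 * (|a| ^ 3 * |b|) + 5 * (|a| ^ 2 * |b| ^ 2) + 3 * (|a| * |b| ^ 3) := by ring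
    have : 0 ≤ 3 * (|a| ^ 3 * |b|) + 5 * (|a| ^ 2 * |b| ^ 2) + 3 * (|a| * |b| ^ 3) := by positivity
    linarith
  rw [h1, abs_mul]
  have h4 : 0 ≤ |a - b| * (|a| + |b|) ^ 4 := by positivity
  calc |a - b| * |a ^ 4 + a ^ 3 * b + a ^ 2 * b ^ 2 + a * b ^ 3 + b ^ 4|
      ≤ |a - b| * (|a| + |b|) ^ 4 := by
        gcongr
        exact h2.trans h3
    _ ≤ _ := by linarith

private lemma ht1 : ENNReal.HolderTriple 10 (5 / 2) 2 := ⟨by
  rw [ENNReal.inv_div (Or.inl (by norm_num)) (Or.inl (by norm_num))]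
  rw [← ENNReal.toReal_eq_toReal_iff' (by finiteness) (by finiteness)]
  rw [ENNReal.toReal_add (by finiteness) (by finiteness)]
  simp
  norm_num⟩

private lemma hol {f g : E → ℝ} (hf : AEStronglyMeasurable f volume)
    (hg : AEStronglyMeasurable g volume) :
    eLpNorm (fun x => f x * g x) 2 volume ≤ eLpNorm f 10 volume * eLpNorm g (5 / 2) volume := by
  have := ht1
  have h := eLpNorm_le_eLpNorm_mul_eLpNorm_of_nnnorm (p := 10) (q := 5 / 2) (r := 2) hf hg
    (fun a b => a * b) 1 (Eventually.of_forall fun x => by simp)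
  simpa using h

private lemma five_half : (5 / 2 : ℝ≥0∞) * ENNReal.ofReal 4 = 10 := by
  rw [← ENNReal.toReal_eq_toReal_iff' (by finiteness) (by finiteness)]
  simp
  norm_num

private lemma pow_four (w : E → ℝ) (hw : ∀ x, 0 ≤ w x) :
    eLpNorm (fun x => w x ^ 4) (5 / 2) volume = eLpNorm w 10 volume ^ 4 := by
  have h5 := eLpNorm_norm_rpow (p := 5 / 2) (q := 4) (μ := (volume : Measure E)) w (by norm_num)
  have h6 : (fun x => ‖w x‖ ^ (4 : ℝ)) = fun x => w x ^ 4 := by
    funext x
    rw [Real.norm_eq_abs, abs_of_nonneg (hw x), show (4 : ℝ) = ((4 : ℕ) : ℝ) by norm_num,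
      Real.rpow_natCast]
  rw [five_half, h6] at h5
  rw [h5, show (4 : ℝ) = ((4 : ℕ) : ℝ) by norm_num, ENNReal.rpow_natCast]

private lemma five_mul (g : E → ℝ) :
    eLpNorm (fun x => 5 * g x) 2 volume = 5 * eLpNorm g 2 volume := by
  have h3 := eLpNorm_const_smul (5 : ℝ) g 2 (volume : Measure E)
  have h4 : ‖(5 : ℝ)‖ₑ = 5 := by
    rw [Real.enorm_eq_ofReal (by norm_num)]
    norm_num
  rw [h4] at h3
  exact h3

private lemma abs_sum {u v : E → ℝ} (hu : MemLp u 10 volume) (hv : MemLp v 10 volume) :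
    eLpNorm (fun x => |u x| + |v x|) 10 volume ≤ eLpNorm u 10 volume + eLpNorm v 10 volume := by
  have h9 := eLpNorm_add_le hu.norm.1 hv.norm.1 (p := 10) (by norm_num)
  rw [eLpNorm_norm u, eLpNorm_norm v] at h9
  exact h9

private lemma pow_norm {u v : E → ℝ} (hu : MemLp u 10 volume) (hv : MemLp v 10 volume) :
    eLpNorm (fun x => u x ^ 5 - v x ^ 5) 2 volume ≤
      5 * (eLpNorm (fun x => u x - v x) 10 volume *
        (eLpNorm u 10 volume + eLpNorm v 10 volume) ^ 4) := by
  have hm : AEStronglyMeasurable (fun x => |u x| + |v x|) volume := hu.norm.1.add hv.norm.1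
  have h1 : eLpNorm (fun x => u x ^ 5 - v x ^ 5) 2 volume ≤
      eLpNorm (fun x => 5 * ((u x - v x) * (|u x| + |v x|) ^ 4)) 2 volume := by
    refine eLpNorm_mono fun x => ?_
    rw [Real.norm_eq_abs, Real.norm_eq_abs, abs_mul, abs_mul, abs_of_nonneg (by norm_num : (0:ℝ) ≤ 5),
      abs_of_nonneg (by positivity : 0 ≤ (|u x| + |v x|) ^ 4)]
    exact pow_diff _ _
  refine h1.trans ?_
  rw [five_mul]
  gcongr
  have h2 := hol (f := fun x => u x - v x) (g := fun x => (|u x| + |v x|) ^ 4) (hu.sub hv).1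
    (hm.pow 4)
  refine h2.trans ?_
  rw [pow_four _ fun x => by positivity]
  gcongr
  exact abs_sum hu hv

private lemma memLp5 {u : E → ℝ} (hu : MemLp u 10 volume) : MemLp (fun x => u x ^ 5) 2 volume := by
  refine ⟨hu.1.pow 5, ?_⟩
  have h0 : MemLp (fun _ : E => (0 : ℝ)) 10 volume := MemLp.zero'
  have h1 := pow_norm hu h0
  have h2 : (fun x => u x ^ 5 - (0 : ℝ) ^ 5) = fun x => u x ^ 5 := by
    funext x
    simp
  rw [h2] at h1
  refine h1.trans_lt ?_
  have h3 := (hu.sub h0).2
  have h4 := hu.2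
  have h5 := h0.2
  have h6 : eLpNorm (fun x => u x - (0 : ℝ)) 10 volume < ⊤ := h3
  exact ENNReal.mul_lt_top (by norm_num) (ENNReal.mul_lt_top h6
    (ENNReal.pow_lt_top (ENNReal.add_lt_top.2 ⟨h4, h5⟩)))

private lemma Phi_diff {u v ψ : E → ℝ} (hu : MemLp u 10 volume) (hv : MemLp v 10 volume)
    (hψ : MemLp ψ 2 volume) :
    ‖(∫ x, u x ^ 5 * ψ x) - ∫ x, v x ^ 5 * ψ x‖ₑ ≤
      5 * (eLpNorm (fun x => u x - v x) 10 volume *
        (eLpNorm u 10 volume + eLpNorm v 10 volume) ^ 4) * eLpNorm ψ 2 volume := by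
  have hi : ∀ {w : E → ℝ}, MemLp w 10 volume → Integrable (fun x => w x ^ 5 * ψ x) volume := by
    intro w hw
    exact (memLp5 hw).integrable_mul hψ
  rw [← integral_sub (hi hu) (hi hv)]
  refine (enorm_integral_le_lintegral_enorm _).trans ?_
  rw [← eLpNorm_one_eq_lintegral_enorm]
  have h1 : (fun x => u x ^ 5 * ψ x - v x ^ 5 * ψ x) = fun x => (u x ^ 5 - v x ^ 5) * ψ x := by
    funext x
    ring
  rw [h1]
  have h0 : AEStronglyMeasurable (fun x => u x ^ 5 - v x ^ 5) volume :=
    ((memLp5 hu).sub (memLp5 hv)).1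
  have h2 := eLpNorm_le_eLpNorm_mul_eLpNorm_of_nnnorm (p := 2) (q := 2) (r := 1)
    h0 hψ.1 (fun a b => a * b) 1 (Eventually.of_forall fun x => by simp)
  have h3 : eLpNorm (fun x => (u x ^ 5 - v x ^ 5) * ψ x) 1 volume ≤
      eLpNorm (fun x => u x ^ 5 - v x ^ 5) 2 volume * eLpNorm ψ 2 volume := by
    simpa using h2
  refine h3.trans ?_
  gcongr
  exact pow_norm hu hv

/-- the pairing of the fifth power with a fixed function is continuous -/
private lemma Phi_cont (hF : St_Fld) (hL : St_Lin) {ψ : E → ℝ} (hψ : MemLp ψ 2 volume) :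
    Continuous fun k : K => ∫ x, U k x ^ 5 * ψ x := by
  obtain ⟨C, hC, hF⟩ := hF
  set A := (eLpNorm ψ 2 volume).toReal with hA
  have hAe : eLpNorm ψ 2 volume = ENNReal.ofReal A := (ENNReal.ofReal_toReal hψ.2.ne).symm
  have hA0 : 0 ≤ A := ENNReal.toReal_nonneg
  have hn : ∀ k : K, eLpNorm (U k) 10 volume ≤ ENNReal.ofReal (C * ‖k‖) := by
    intro k
    rw [ENNReal.ofReal_mul hC.le, ofReal_norm]
    exact (hF k).1.2
  have hd : ∀ k k' : K, eLpNorm (fun x => U k x - U k' x) 10 volume ≤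
      ENNReal.ofReal (C * ‖k - k'‖) := by
    intro k k'
    have h1 := (hL.1 (-1) k k').1
    have h2 : eLpNorm (fun x => U k x - U k' x) 10 volume = eLpNorm (U (k - k')) 10 volume := by
      refine eLpNorm_congr_ae ?_
      have h3 : k - k' = k + (-1 : ℝ) • k' := by
        rw [neg_one_smul, sub_eq_add_neg]
      rw [h3]
      filter_upwards [h1] with x hx
      rw [hx]
      ring
    rw [h2]
    exact hn _
  have key : ∀ k k' : K, |(∫ x, U k x ^ 5 * ψ x) - ∫ x, U k' x ^ 5 * ψ x| ≤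
      5 * (C * ‖k - k'‖ * (C * ‖k‖ + C * ‖k'‖) ^ 4) * A := by
    intro k k'
    have h1 := Phi_diff (hF k).1.1 (hF k').1.1 hψ
    have h2 : 5 * (eLpNorm (fun x => U k x - U k' x) 10 volume *
        (eLpNorm (U k) 10 volume + eLpNorm (U k') 10 volume) ^ 4) * eLpNorm ψ 2 volume ≤
        ENNReal.ofReal (5 * (C * ‖k - k'‖ * (C * ‖k‖ + C * ‖k'‖) ^ 4) * A) := by
      rw [ENNReal.ofReal_mul (by positivity), ENNReal.ofReal_mul (by norm_num),
        ENNReal.ofReal_mul (by positivity), ENNReal.ofReal_pow (by positivity),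
        ENNReal.ofReal_add (by positivity) (by positivity), ← hAe]
      have h5 : ENNReal.ofReal 5 = 5 := by norm_num
      rw [h5]
      gcongr
      · exact hd k k'
      · exact hn k
      · exact hn k'
    have h3 := h1.trans h2
    rw [Real.enorm_eq_ofReal_abs] at h3
    exact (ENNReal.ofReal_le_ofReal_iff (by positivity)).1 h3
  rw [continuous_iff_continuousAt]
  intro k
  rw [ContinuousAt, tendsto_iff_norm_sub_tendsto_zero]
  refine squeeze_zero (fun _ => norm_nonneg _) (fun k' => key k' k) ?_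
  have h1 : Continuous fun k' : K => 5 * (C * ‖k' - k‖ * (C * ‖k'‖ + C * ‖k‖) ^ 4) * A := by
    fun_prop
  have h2 := h1.tendsto k
  simpa using h2

private lemma comp_meas {G : K → ℝ≥0∞} (hG : LowerSemicontinuous G) {k : ℝ → K}
    (hk : StronglyMeasurable k) : Measurable fun r => G (k r) := by
  let _ : MeasurableSpace K := borel K
  have : BorelSpace K := ⟨rfl⟩
  exact hG.measurable.comp hk.measurable

private lemma dense_theta (hD : St_Dens) :
    Dense {w : K | ∃ f g : E → ℝ, IsTest f ∧ IsTest g ∧ w = Theta f g} := by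
  rw [Metric.dense_iff]
  intro k r hr
  obtain ⟨f, g, hf, hg, h⟩ := hD.2 k r hr
  refine ⟨Theta f g, ?_, f, g, hf, hg, rfl⟩
  rw [Metric.mem_ball, dist_comm, dist_eq_norm]
  exact h

end Measx

open Measx in
theorem thm_Meas (hD : St_Dens) (hF : St_Fld) (hL : St_Lin) (hLsc : St_Lsc) (hN : St_NLw) :
    St_Meas := by
  intro k J hJ hk
  have hk' := hk.stronglyMeasurable_mk
  have hkk := hk.ae_eq_mk
  refine ⟨?_, ?_⟩
  · intro p B hp hB
    refine ⟨fun r => eLpNorm (B.indicator (U (hk.mk k r))) p volume, comp_meas (hLsc p B hp hB) hk', ?_⟩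
    filter_upwards [hkk] with r hr
    rw [hr]
  · intro hfin
    obtain ⟨C, hC, hN⟩ := hN
    have hsm : Measurable fun r => sn (hk.mk k r) := by
      have h1 := hLsc 20 univ (by norm_num) MeasurableSet.univ
      simp only [indicator_univ] at h1
      exact comp_meas h1 hk'
    have hS : MeasurableSet {r | sn (hk.mk k r) < ⊤} := measurableSet_lt hsm measurable_const
    have : Fact ((2 : ℝ≥0∞) ≠ ⊤) := ⟨by norm_num⟩
    have : IsSeparable mu := isSeparable_of_sigmaFinite _
    have : SecondCountableTopology K := Lp.SecondCountableTopology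
    have hg : StronglyMeasurable ({r | sn (hk.mk k r) < ⊤}.indicator fun r => NL (hk.mk k r)) := by
      refine pettis (dense_theta hD) ?_
      rintro w ⟨f, g, hf, hg, rfl⟩
      have hψ : MemLp (lap g) 2 volume :=
        (test_lap hg).1.continuous.memLp_of_hasCompactSupport (test_lap hg).2
      have h1 : Measurable fun r => -c0 * ∫ x, U (hk.mk k r) x ^ 5 * lap g x :=
        (((Phi_cont hF hL hψ).comp_stronglyMeasurable hk').measurable).const_mul _
      have h2 : (fun r => inner ℝ (({r | sn (hk.mk k r) < ⊤}.indicator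
          fun r => NL (hk.mk k r)) r) (Theta f g)) =
          {r | sn (hk.mk k r) < ⊤}.indicator
            fun r => -c0 * ∫ x, U (hk.mk k r) x ^ 5 * lap g x := by
        funext r
        by_cases hr : r ∈ {r | sn (hk.mk k r) < ⊤}
        · rw [indicator_of_mem hr, indicator_of_mem hr]
          exact (hN _ f g hr hf hg).1
        · rw [indicator_of_notMem hr, indicator_of_notMem hr, inner_zero_left]
      rw [h2]
      exact h1.indicator hS
    refine ⟨_, hg, ?_⟩
    filter_upwards [hkk, hfin] with r hr hr2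
    rw [hr] at hr2
    rw [indicator_of_mem (by exact hr2 : r ∈ {r | sn (hk.mk k r) < ⊤}), hr]

end Pool.Agent.QWE
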