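import Pool.Agent.QWE.StB
import Pool.Agent.QWE.Lin

/-!
# QWE/Mor (helper72): the Morawetz inequality
-/

set_option autoImplicit false

open MeasureTheory Filter Topology Set
open scoped ENNReal NNReal RealInnerProductSpace ContDiff Pointwise

namespace Pool.Agent.QWE.Morx

open Linx

/-- The bracket of `x`. -/
noncomputable def jb (x : E) : ℝ := √(1 + ‖x‖ ^ 2)

theorem jb_pos (x : E) : 0 < jb x := by
  unfold jb
  positivity

theorem jb_sq (x : E) : jb x ^ 2 = 1 + ‖x‖ ^ 2 := Real.sq_sqrt (by positivity)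

theorem jb_ge (x : E) : 1 ≤ jb x := by
  have h1 := jb_sq x
  have h2 := jb_pos x
  nlinarith [sq_nonneg ‖x‖]

theorem jb_norm (x : E) : ‖x‖ ≤ jb x := by
  have h1 := jb_sq x
  have h2 := jb_pos x
  have h3 := norm_nonneg x
  nlinarith

theorem jb_smooth : ContDiff ℝ ∞ jb := by
  unfold jb
  apply ContDiff.sqrt
  · exact contDiff_const.add (contDiff_norm_sq ℝ)
  · intro x
    positivity

/-- First coefficient. -/
noncomputable def aco (i : Fin 5) (x : E) : ℝ := x i / jb x

/-- Second coefficient. -/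
noncomputable def bco (x : E) : ℝ := (1 / jb x ^ 3 + 4 / jb x) / 2

theorem aco_smooth (i : Fin 5) : ContDiff ℝ ∞ (aco i) := by
  unfold aco
  apply ContDiff.div
  · fun_prop
  · exact jb_smooth
  · intro x
    exact (jb_pos x).ne'

theorem bco_smooth : ContDiff ℝ ∞ bco := by
  unfold bco
  apply ContDiff.div_const
  apply ContDiff.add
  · apply ContDiff.div contDiff_const (jb_smooth.pow 3)
    intro x
    exact (pow_pos (jb_pos x) 3).ne'
  · apply ContDiff.div contDiff_const jb_smooth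
    intro x
    exact (jb_pos x).ne'

theorem aco_le (i : Fin 5) (x : E) : |aco i x| ≤ 1 := by
  unfold aco
  rw [abs_div, abs_of_pos (jb_pos x), div_le_one (jb_pos x)]
  have h1 : |x i| ≤ ‖x‖ := by
    have := EuclideanSpace.norm_sq_eq x
    have h2 : ‖x i‖ ^ 2 ≤ ∑ j, ‖x j‖ ^ 2 :=
      Finset.single_le_sum (f := fun j => ‖x j‖ ^ 2) (fun j _ => by positivity) (Finset.mem_univ i)
    rw [← this, Real.norm_eq_abs] at h2
    exact (pow_le_pow_iff_left₀ (abs_nonneg _) (norm_nonneg _) two_ne_zero).1 h2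
  exact h1.trans (jb_norm x)

theorem bco_nonneg (x : E) : 0 ≤ bco x := by
  unfold bco
  have := jb_pos x
  positivity

theorem bco_le (x : E) : bco x ≤ 5 / 2 := by
  unfold bco
  have h1 := jb_ge x
  have h2 : 1 / jb x ^ 3 ≤ 1 := by
    rw [div_le_one (by positivity)]
    exact one_le_pow₀ h1
  have h3 : 4 / jb x ≤ 4 := by
    rw [div_le_iff₀ (by positivity)]
    linarith
  linarith

/-- The sum of the derivatives of the first coefficients. -/
theorem pd_aco (i : Fin 5) (x : E) : pd i (aco i) x = 1 / jb x - x i ^ 2 / jb x ^ 3 := by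
  have hd : HasFDerivAt (aco i) (fderiv ℝ (aco i) x) x :=
    ((aco_smooth i).differentiable (by simp) x).hasFDerivAt
  have hl : HasDerivAt (fun t : ℝ => x + t • (EuclideanSpace.single i (1 : ℝ) : E))
      (EuclideanSpace.single i (1 : ℝ)) 0 := by
    have h1 : HasDerivAt (fun t : ℝ => t • (EuclideanSpace.single i (1 : ℝ) : E))
        ((1 : ℝ) • (EuclideanSpace.single i (1 : ℝ) : E)) 0 :=
      (hasDerivAt_id (0 : ℝ)).smul_const _
    rw [one_smul] at h1
    exact h1.const_add x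
  have h0 : x + (0 : ℝ) • (EuclideanSpace.single i (1 : ℝ) : E) = x := by rw [zero_smul, add_zero]
  have h2 : HasDerivAt (aco i ∘ fun t : ℝ => x + t • (EuclideanSpace.single i (1 : ℝ) : E))
      (fderiv ℝ (aco i) x (EuclideanSpace.single i (1 : ℝ))) 0 := by
    apply HasFDerivAt.comp_hasDerivAt (f := fun t : ℝ => x + t • (EuclideanSpace.single i (1 : ℝ) : E))
    · rw [h0]
      exact hd
    · exact hl
  have h3 : (aco i ∘ fun t : ℝ => x + t • (EuclideanSpace.single i (1 : ℝ) : E)) =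
      fun t : ℝ => (x i + t) / √(1 + ‖x‖ ^ 2 + 2 * t * x i + t ^ 2) := by
    funext t
    have e1 : ‖x + t • (EuclideanSpace.single i (1 : ℝ) : E)‖ ^ 2 = ‖x‖ ^ 2 + 2 * t * x i + t ^ 2 := by
      rw [norm_add_sq_real, real_inner_smul_right, norm_smul, PiLp.norm_single]
      rw [real_inner_comm, EuclideanSpace.inner_single_left]
      simp
      ring
    simp only [Function.comp, aco, jb, e1]
    congr 1
    · simp
    · congr 1
      ring
  have h4 : HasDerivAt (fun t : ℝ => (x i + t) / √(1 + ‖x‖ ^ 2 + 2 * t * x i + t ^ 2))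
      (1 / jb x - x i ^ 2 / jb x ^ 3) 0 := by
    have hj := jb_pos x
    have hj2 := jb_sq x
    have g1 : HasDerivAt (fun t : ℝ => x i + t) 1 0 := (hasDerivAt_id (0 : ℝ)).const_add _
    have g2 : HasDerivAt (fun t : ℝ => 1 + ‖x‖ ^ 2 + 2 * t * x i + t ^ 2) (2 * x i) 0 := by
      have a1 : HasDerivAt (fun t : ℝ => 2 * t * x i) (2 * x i) 0 := by
        have := ((hasDerivAt_id (0 : ℝ)).const_mul 2).mul_const (x i)
        simpa using this
      have a2 : HasDerivAt (fun t : ℝ => t ^ 2) 0 0 := by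
        have := hasDerivAt_pow 2 (0 : ℝ)
        simpa using this
      have a3 := (a1.const_add (1 + ‖x‖ ^ 2)).add a2
      rw [add_zero] at a3
      exact a3
    have g3 : HasDerivAt (fun t : ℝ => √(1 + ‖x‖ ^ 2 + 2 * t * x i + t ^ 2))
        (2 * x i / (2 * √(1 + ‖x‖ ^ 2 + 2 * 0 * x i + 0 ^ 2))) 0 := by
      apply g2.sqrt
      have : (0 : ℝ) < 1 + ‖x‖ ^ 2 := by positivity
      simp
      exact this.ne'
    have e2 : √(1 + ‖x‖ ^ 2 + 2 * 0 * x i + 0 ^ 2) = jb x := by
      unfold jb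
      congr 1
      ring
    have g4 := g1.div g3 (by rw [e2]; exact hj.ne')
    rw [e2] at g4
    apply g4.congr_deriv
    field_simp
    ring
  rw [h3] at h2
  exact h2.unique h4

theorem sum_pd_aco (x : E) : ∑ i, pd i (aco i) x = 2 * bco x := by
  simp only [pd_aco]
  rw [Finset.sum_sub_distrib, ← Finset.sum_div, ← Finset.sum_div]
  have h1 := EuclideanSpace.norm_sq_eq x
  simp only [Real.norm_eq_abs, sq_abs] at h1
  rw [← h1]
  have h2 := jb_sq x
  have h3 := jb_pos x
  have h4 : ‖x‖ ^ 2 = jb x ^ 2 - 1 := by linarith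
  rw [h4]
  unfold bco
  simp
  field_simp
  ring

theorem test_mul {a φ : E → ℝ} (ha : ContDiff ℝ ∞ a) (hφ : IsTest φ) :
    IsTest fun x => a x * φ x :=
  ⟨ha.mul hφ.1, hφ.2.mul_left⟩

theorem test_add {f g : E → ℝ} (hf : IsTest f) (hg : IsTest g) : IsTest fun x => f x + g x :=
  ⟨hf.1.add hg.1, hf.2.add hg.2⟩

theorem test_sub {f g : E → ℝ} (hf : IsTest f) (hg : IsTest g) : IsTest fun x => f x - g x :=
  ⟨hf.1.sub hg.1, hf.2.sub hg.2⟩

theorem test_sum {ι : Type} (s : Finset ι) {f : ι → E → ℝ} (hf : ∀ i, IsTest (f i)) :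
    IsTest fun x => ∑ i ∈ s, f i x := by
  classical
  refine ⟨ContDiff.sum fun i _ => (hf i).1, ?_⟩
  induction s using Finset.induction_on with
  | empty =>
    simp only [Finset.sum_empty]
    exact HasCompactSupport.zero
  | insert a s ha ih =>
    simp only [Finset.sum_insert ha]
    exact (hf a).2.add ih

/-- The dual test function. -/
noncomputable def psi (φ : E → ℝ) (x : E) : ℝ :=
  bco x * φ x - ∑ i, pd i (fun y => aco i y * φ y) x

theorem psi_test {φ : E → ℝ} (hφ : IsTest φ) : IsTest (psi φ) := by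
  unfold psi
  apply test_sub
  · exact test_mul bco_smooth hφ
  · exact test_sum _ fun i => test_pd (test_mul (aco_smooth i) hφ) i

theorem psi_eq {φ : E → ℝ} (hφ : IsTest φ) (x : E) :
    psi φ x = - ((∑ i, aco i x * pd i φ x) + bco x * φ x) := by
  have h1 : ∀ i, pd i (fun y => aco i y * φ y) x = pd i (aco i) x * φ x + aco i x * pd i φ x := by
    intro i
    unfold pd
    have e := fderiv_mul ((aco_smooth i).differentiable (by simp) x)
      (hφ.1.differentiable (by simp) x)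
    have e2 : (fun y => aco i y * φ y) = aco i * φ := rfl
    rw [e2, e]
    simp
    ring
  unfold psi
  simp only [h1]
  rw [Finset.sum_add_distrib, ← Finset.sum_mul, sum_pd_aco]
  ring

/-- The combination. -/
noncomputable def mm (v : E → ℝ) (d : Fin 5 → E → ℝ) (x : E) : ℝ :=
  (∑ i, aco i x * d i x) + bco x * v x

theorem testid {v : E → ℝ} {d : Fin 5 → E → ℝ} (hv : LocallyIntegrable v volume)
    (hd : ∀ i, LocallyIntegrable (d i) volume) (hw : ∀ i, WD i v (d i)) {φ : E → ℝ}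
    (hφ : IsTest φ) : ∫ x, mm v d x * φ x = ∫ x, v x * psi φ x := by
  have e1 : (fun x => mm v d x * φ x) =
      fun x => (∑ i, d i x * (aco i x * φ x)) + v x * (bco x * φ x) := by
    funext x
    unfold mm
    rw [add_mul, Finset.sum_mul]
    congr 1
    · apply Finset.sum_congr rfl
      intro i _
      ring
    · ring
  have e2 : (fun x => v x * psi φ x) =
      fun x => v x * (bco x * φ x) - ∑ i, v x * pd i (fun y => aco i y * φ y) x := by
    funext x
    unfold psi
    rw [mul_sub, Finset.mul_sum]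
  rw [e1, e2, integral_add, integral_sub, integral_finsetSum, integral_finsetSum]
  · have e3 : ∀ i, ∫ x, v x * pd i (fun y => aco i y * φ y) x =
        - ∫ x, d i x * (aco i x * φ x) := fun i => hw i _ (test_mul (aco_smooth i) hφ)
    simp only [e3]
    rw [Finset.sum_neg_distrib]
    ring
  · exact fun i _ => int_mul hv (test_pd (test_mul (aco_smooth i) hφ) i)
  · exact fun i _ => int_mul (hd i) (test_mul (aco_smooth i) hφ)
  · exact int_mul hv (test_mul bco_smooth hφ)
  · exact integrable_finsetSum _ fun i _ => int_mul hv (test_pd (test_mul (aco_smooth i) hφ) i)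
  · exact integrable_finsetSum _ fun i _ => int_mul (hd i) (test_mul (aco_smooth i) hφ)
  · exact int_mul hv (test_mul bco_smooth hφ)

/-! ### The Hilbert space -/

/-- The space. -/
noncomputable abbrev Hs := Lp ℝ 2 (volume : Measure E)

/-- The element given by a function. -/
noncomputable def toH (f : E → ℝ) : Hs := by
  classical exact if h : MemLp f 2 volume then h.toLp f else 0

theorem toH_coe {f : E → ℝ} (h : MemLp f 2 volume) : (toH f : E → ℝ) =ᵐ[volume] f := by
  simp only [toH, dif_pos h]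
  exact h.coeFn_toLp

theorem toH_eq {f : E → ℝ} (h : MemLp f 2 volume) : toH f = h.toLp f := by
  simp only [toH, dif_pos h]

theorem inner_toH {f g : E → ℝ} (hf : MemLp f 2 volume) (hg : MemLp g 2 volume) :
    inner ℝ (toH f) (toH g) = ∫ x, f x * g x := by
  rw [L2.inner_def]
  apply integral_congr_ae
  filter_upwards [toH_coe hf, toH_coe hg] with x h1 h2
  rw [h1, h2]
  simp [mul_comm]

theorem inner_toH' (w : Hs) {g : E → ℝ} (hg : MemLp g 2 volume) :
    inner ℝ w (toH g) = ∫ x, w x * g x := by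
  rw [L2.inner_def]
  apply integral_congr_ae
  filter_upwards [toH_coe hg] with x h2
  rw [h2]
  simp [mul_comm]

theorem toH_sub {f g : E → ℝ} (hf : MemLp f 2 volume) (hg : MemLp g 2 volume) :
    toH f - toH g = toH (fun x => f x - g x) := by
  have h : MemLp (fun x => f x - g x) 2 volume := hf.sub hg
  rw [toH_eq hf, toH_eq hg, toH_eq h, ← MemLp.toLp_sub]
  rfl

theorem norm_toH {f : E → ℝ} (hf : MemLp f 2 volume) : ‖toH f‖ = (eLpNorm f 2 volume).toReal := by
  rw [toH_eq hf, Lp.norm_toLp]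

theorem enorm_toH {f : E → ℝ} (hf : MemLp f 2 volume) : ‖toH f‖ₑ = eLpNorm f 2 volume := by
  rw [toH_eq hf, Lp.enorm_toLp]

theorem cont_toH {X : Type} [TopologicalSpace X] {D : X → E → ℝ} (hm : ∀ t, MemLp (D t) 2 volume)
    (h : ∀ t0, Tendsto (fun t => eLpNorm (fun y => D t y - D t0 y) 2 volume) (𝓝 t0) (𝓝 0)) :
    Continuous fun t => toH (D t) := by
  rw [continuous_iff_continuousAt]
  intro t0
  rw [ContinuousAt, tendsto_iff_norm_sub_tendsto_zero]
  have h1 : (fun t => ‖toH (D t) - toH (D t0)‖) =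
      fun t => (eLpNorm (fun y => D t y - D t0 y) 2 volume).toReal := by
    funext t
    have hs : MemLp (fun y => D t y - D t0 y) 2 volume := (hm t).sub (hm t0)
    rw [toH_sub (hm t) (hm t0), norm_toH hs]
  rw [h1]
  have h2 := (ENNReal.tendsto_toReal (ENNReal.zero_ne_top)).comp (h t0)
  exact h2

/-- Weak identities. -/
theorem lemA {a b : ℝ} {p q : ℝ → Hs} (hq : Continuous q)
    (h : ∀ t ∈ Icc a b, ∀ φ, IsTest φ → inner ℝ (p t) (toH φ) - inner ℝ (p a) (toH φ) =
      ∫ r in a..t, inner ℝ (q r) (toH φ)) :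
    ∀ t ∈ Icc a b, p t = p a + ∫ r in a..t, q r := by
  intro t ht
  obtain ⟨G, hG⟩ : ∃ G : Hs, G = ∫ r in a..t, q r := ⟨_, rfl⟩
  have h1 : ∀ φ, IsTest φ → inner ℝ (p t - p a - G) (toH φ) = 0 := by
    intro φ hφ
    have e1 := (innerSL ℝ (toH φ)).intervalIntegral_comp_comm (hq.intervalIntegrable (μ := volume) a t)
    simp only [innerSL_apply_apply] at e1
    have e2 : ∫ r in a..t, inner ℝ (q r) (toH φ) = inner ℝ G (toH φ) := by
      rw [hG, real_inner_comm, ← e1]
      apply intervalIntegral.integral_congr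
      intro r _
      exact real_inner_comm _ _
    rw [inner_sub_left, inner_sub_left, h t ht φ hφ, e2, sub_self]
  have h2 : (p t - p a - G) = 0 := by
    rw [Lp.eq_zero_iff_ae_eq_zero]
    have hli : LocallyIntegrable ((p t - p a - G : Hs) : E → ℝ) volume :=
      (Lp.memLp (p t - p a - G)).locallyIntegrable (by norm_num)
    apply ae_eq_zero_of_integral_contDiff_smul_eq_zero hli
    intro g hg1 hg2
    have hg : IsTest g := ⟨hg1, hg2⟩
    have hm : MemLp g 2 volume := hg1.continuous.memLp_of_hasCompactSupport hg2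
    have h3 := h1 g hg
    rw [inner_toH' _ hm] at h3
    rw [← h3]
    apply integral_congr_ae
    filter_upwards with x
    rw [smul_eq_mul, mul_comm]
  rw [← hG]
  have h4 : p t - p a = G := sub_eq_zero.1 h2
  rw [← h4]
  abel

/-- Product rule. -/
theorem lemB {a b : ℝ} (hab : a ≤ b) {p q p' q' : ℝ → Hs} (hq : Continuous q)
    (hq' : Continuous q') (h : ∀ t ∈ Icc a b, p t = p a + ∫ r in a..t, q r)
    (h' : ∀ t ∈ Icc a b, p' t = p' a + ∫ r in a..t, q' r) :
    ContinuousOn (fun r => (inner ℝ (p r) (q' r) + inner ℝ (q r) (p' r) : ℝ)) (Icc a b) ∧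
    ∫ r in a..b, (inner ℝ (p r) (q' r) + inner ℝ (q r) (p' r) : ℝ) =
      inner ℝ (p b) (p' b) - inner ℝ (p a) (p' a) := by
  obtain ⟨P, hP⟩ : ∃ P : ℝ → Hs, P = fun t => p a + ∫ r in a..t, q r := ⟨_, rfl⟩
  obtain ⟨P', hP'⟩ : ∃ P' : ℝ → Hs, P' = fun t => p' a + ∫ r in a..t, q' r := ⟨_, rfl⟩
  have d1 : ∀ t, HasDerivAt P (q t) t := by
    intro t
    rw [hP]
    exact (hq.integral_hasStrictDerivAt a t).hasDerivAt.const_add _
  have d2 : ∀ t, HasDerivAt P' (q' t) t := by
    intro t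
    rw [hP']
    exact (hq'.integral_hasStrictDerivAt a t).hasDerivAt.const_add _
  have c1 : Continuous P := continuous_iff_continuousAt.2 fun t => (d1 t).continuousAt
  have c2 : Continuous P' := continuous_iff_continuousAt.2 fun t => (d2 t).continuousAt
  have e1 : ∀ t ∈ Icc a b, p t = P t := by
    intro t ht
    rw [h t ht, hP]
  have e2 : ∀ t ∈ Icc a b, p' t = P' t := by
    intro t ht
    rw [h' t ht, hP']
  have cI : Continuous fun r => (inner ℝ (P r) (q' r) + inner ℝ (q r) (P' r) : ℝ) :=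
    (c1.inner hq').add (hq.inner c2)
  constructor
  · apply cI.continuousOn.congr
    intro t ht
    dsimp only
    rw [e1 t ht, e2 t ht]
  · have h3 := intervalIntegral.integral_eq_sub_of_hasDerivAt (a := a) (b := b)
      (f := fun t => (inner ℝ (P t) (P' t) : ℝ))
      (f' := fun r => (inner ℝ (P r) (q' r) + inner ℝ (q r) (P' r) : ℝ))
      (fun t _ => (d1 t).inner ℝ (d2 t)) (cI.intervalIntegrable _ _)
    rw [e1 b ⟨hab, le_rfl⟩, e2 b ⟨hab, le_rfl⟩, e1 a ⟨le_rfl, hab⟩, e2 a ⟨le_rfl, hab⟩, ← h3]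
    apply intervalIntegral.integral_congr
    intro r hr
    rw [uIcc_of_le hab] at hr
    dsimp only
    rw [e1 r hr, e2 r hr]

/-! ### Continuity of the fields -/

theorem pow5 (a b : ℝ) : |a ^ 5 - b ^ 5| ≤ 5 * (|a - b| * (|a| + |b|) ^ 4) := by
  have e : a ^ 5 - b ^ 5 = (a - b) * (a ^ 4 + a ^ 3 * b + a ^ 2 * b ^ 2 + a * b ^ 3 + b ^ 4) := by
    ring
  rw [e, abs_mul]
  have ha : |a| ≤ |a| + |b| := by linarith [abs_nonneg b]
  have hb : |b| ≤ |a| + |b| := by linarith [abs_nonneg a]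
  have h0 : 0 ≤ |a| + |b| := by positivity
  have h1 : |a ^ 4| ≤ (|a| + |b|) ^ 4 := by
    rw [abs_pow]
    gcongr
  have h2 : |a ^ 3 * b| ≤ (|a| + |b|) ^ 4 := by
    rw [abs_mul, abs_pow]
    calc |a| ^ 3 * |b| ≤ (|a| + |b|) ^ 3 * (|a| + |b|) := by gcongr
      _ = _ := by ring
  have h3 : |a ^ 2 * b ^ 2| ≤ (|a| + |b|) ^ 4 := by
    rw [abs_mul, abs_pow, abs_pow]
    calc |a| ^ 2 * |b| ^ 2 ≤ (|a| + |b|) ^ 2 * (|a| + |b|) ^ 2 := by gcongr
      _ = _ := by ring
  have h4 : |a * b ^ 3| ≤ (|a| + |b|) ^ 4 := by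
    rw [abs_mul, abs_pow]
    calc |a| * |b| ^ 3 ≤ (|a| + |b|) * (|a| + |b|) ^ 3 := by gcongr
      _ = _ := by ring
  have h5 : |b ^ 4| ≤ (|a| + |b|) ^ 4 := by
    rw [abs_pow]
    gcongr
  have h6 : |a ^ 4 + a ^ 3 * b + a ^ 2 * b ^ 2 + a * b ^ 3 + b ^ 4| ≤ 5 * (|a| + |b|) ^ 4 := by
    calc _ ≤ |a ^ 4| + |a ^ 3 * b| + |a ^ 2 * b ^ 2| + |a * b ^ 3| + |b ^ 4| := by
          refine (abs_add_le _ _).trans (add_le_add ?_ le_rfl)
          refine (abs_add_le _ _).trans (add_le_add ?_ le_rfl)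
          refine (abs_add_le _ _).trans (add_le_add ?_ le_rfl)
          exact abs_add_le _ _
      _ ≤ _ := by linarith
  calc |a - b| * |a ^ 4 + a ^ 3 * b + a ^ 2 * b ^ 2 + a * b ^ 3 + b ^ 4| ≤
        |a - b| * (5 * (|a| + |b|) ^ 4) := by gcongr
    _ = _ := by ring

theorem u5_diff {u w : E → ℝ} (hu : MemLp u 10 volume) (hw : MemLp w 10 volume) :
    eLpNorm (fun x => u x ^ 5 - w x ^ 5) 2 volume ≤
      5 * (eLpNorm (fun x => u x - w x) 10 volume *
        (eLpNorm u 10 volume + eLpNorm w 10 volume) ^ 4) := by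
  have hH : ENNReal.HolderTriple 10 (5 / 2) 2 := by
    refine ⟨?_⟩
    have h25 : (2 / 5 : ℝ≥0∞) ≠ ⊤ := ENNReal.div_ne_top (by simp) (by simp)
    rw [ENNReal.inv_div (by norm_num) (by norm_num)]
    rw [← ENNReal.toReal_eq_toReal_iff' (by simp [h25]) (by simp)]
    rw [ENNReal.toReal_add (by simp) h25]
    simp
    norm_num
  obtain ⟨s, hs⟩ : ∃ s : E → ℝ, s = fun x => |u x| + |w x| := ⟨_, rfl⟩
  have hsm : AEStronglyMeasurable s volume := by
    rw [hs]
    exact hu.1.norm.add hw.1.norm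
  have h1 : eLpNorm (fun x => u x ^ 5 - w x ^ 5) 2 volume ≤
      ENNReal.ofReal 5 * eLpNorm ((fun x => u x - w x) • fun x => ‖s x‖ ^ (4 : ℝ)) 2 volume := by
    apply eLpNorm_le_mul_eLpNorm_of_ae_le_mul
    filter_upwards with x
    have h0 : 0 ≤ |u x| + |w x| := by positivity
    have h2 := pow5 (u x) (w x)
    rw [hs]
    simp only [Pi.smul_apply', smul_eq_mul, norm_mul, Real.norm_eq_abs]
    have e4 : |(|(|u x| + |w x|)|) ^ (4 : ℝ)| = (|u x| + |w x|) ^ 4 := by
      rw [abs_of_nonneg h0]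
      have : (|u x| + |w x|) ^ (4 : ℝ) = (|u x| + |w x|) ^ (4 : ℕ) := by
        rw [← Real.rpow_natCast]
        norm_num
      rw [this, abs_of_nonneg (by positivity)]
    rw [e4]
    exact h2
  have h2 : eLpNorm ((fun x => u x - w x) • fun x => ‖s x‖ ^ (4 : ℝ)) 2 volume ≤
      eLpNorm (fun x => u x - w x) 10 volume * eLpNorm (fun x => ‖s x‖ ^ (4 : ℝ)) (5 / 2) volume := by
    apply eLpNorm_smul_le_mul_eLpNorm
    · have : Continuous fun t : ℝ => ‖t‖ ^ (4 : ℝ) := by
        apply Continuous.rpow_const continuous_norm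
        intro t
        right
        norm_num
      exact this.comp_aestronglyMeasurable hsm
    · exact hu.1.sub hw.1
  have h3 : eLpNorm (fun x => ‖s x‖ ^ (4 : ℝ)) (5 / 2) volume = eLpNorm s 10 volume ^ (4 : ℝ) := by
    rw [eLpNorm_norm_rpow s (by norm_num)]
    congr 2
    rw [← ENNReal.toReal_eq_toReal_iff' (by
      apply ENNReal.mul_ne_top _ ENNReal.ofReal_ne_top
      exact ENNReal.div_ne_top (by simp) (by simp)) (by simp)]
    rw [ENNReal.toReal_mul, ENNReal.toReal_ofReal (by norm_num), ENNReal.toReal_div]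
    simp
    norm_num
  have h4 : eLpNorm s 10 volume ≤ eLpNorm u 10 volume + eLpNorm w 10 volume := by
    have e1 : s = (fun x => ‖u x‖) + fun x => ‖w x‖ := by
      rw [hs]
      rfl
    rw [e1]
    refine (eLpNorm_add_le hu.1.norm hw.1.norm (by norm_num)).trans ?_
    rw [eLpNorm_norm, eLpNorm_norm]
  rw [h3] at h2
  have e5 : ENNReal.ofReal 5 = 5 := by simp
  rw [e5] at h1
  have e6 : ∀ z : ℝ≥0∞, z ^ (4 : ℝ) = z ^ (4 : ℕ) := by
    intro z
    rw [← ENNReal.rpow_natCast]
    norm_num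
  rw [e6] at h2
  refine h1.trans ?_
  gcongr
  refine h2.trans ?_
  gcongr

theorem u5_mem {u : E → ℝ} (hu : MemLp u 10 volume) : MemLp (fun x => u x ^ 5) 2 volume := by
  refine ⟨?_, ?_⟩
  · exact hu.1.pow 5
  · have h := u5_diff hu (w := fun _ => 0) MemLp.zero'
    have e1 : (fun x => u x ^ 5 - (0 : ℝ) ^ 5) = fun x => u x ^ 5 := by
      funext x
      ring
    have e2 : (fun x => u x - (0 : ℝ)) = u := by
      funext x
      ring
    rw [e1, e2] at h
    refine h.trans_lt ?_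
    have h0 : eLpNorm (fun _ : E => (0 : ℝ)) 10 volume = 0 := eLpNorm_zero
    rw [h0, add_zero]
    exact ENNReal.mul_lt_top (by simp) (ENNReal.mul_lt_top hu.2 (ENNReal.pow_lt_top hu.2))

/-- The facts on fields used below. -/
structure FC (C : ℝ) : Prop where
  pos : 0 < C
  u : ∀ k : K, MemLp (U k) 10 volume ∧ eLpNorm (U k) 10 volume ≤ ENNReal.ofReal C * ‖k‖ₑ
  v : ∀ k : K, MemLp (V k) (10 / 3) volume
  du : ∀ (k : K) (i : Fin 5), MemLp (DU k i) (10 / 3) volume ∧ WD i (U k) (DU k i)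
  ddu : ∀ (k : K) (i j : Fin 5), MemLp (DDU k i j) 2 volume ∧
    eLpNorm (DDU k i j) 2 volume ≤ ENNReal.ofReal C * ‖k‖ₑ
  dv : ∀ (k : K) (i : Fin 5), MemLp (DV k i) 2 volume ∧ WD i (V k) (DV k i) ∧
    eLpNorm (DV k i) 2 volume ≤ ENNReal.ofReal C * ‖k‖ₑ

theorem FC_of (h : St_Fld) : ∃ C, FC C := by
  obtain ⟨C, hC, h⟩ := h
  exact ⟨C, hC, fun k => (h k).1, fun k => (h k).2.1.1.1, fun k i =>
    ⟨((h k).2.2.1 i).1, ((h k).2.2.1 i).2.1⟩, fun k i j =>
    ⟨((h k).2.2.2.1 i j).1, ((h k).2.2.2.1 i j).2.2⟩, fun k i => (h k).2.2.2.2 i⟩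

theorem diff_gen {D : K → E → ℝ} {C : ℝ} {p : ℝ≥0∞}
    (hD : ∀ k, eLpNorm (D k) p volume ≤ ENNReal.ofReal C * ‖k‖ₑ) (hC : 0 < C)
    (hL : ∀ (c : ℝ) (k k' : K), D (k + c • k') =ᵐ[volume] fun x => D k x + c * D k' x) (k k' : K) :
    eLpNorm (fun x => D k x - D k' x) p volume ≤ ENNReal.ofReal (C * ‖k - k'‖) := by
  have h1 : (fun x => D k x - D k' x) =ᵐ[volume] D (k + (-1 : ℝ) • k') := by
    filter_upwards [hL (-1) k k'] with x hx
    rw [hx]
    ring
  have h2 : k + (-1 : ℝ) • k' = k - k' := by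
    rw [neg_one_smul, sub_eq_add_neg]
  rw [eLpNorm_congr_ae h1, h2, ENNReal.ofReal_mul hC.le, ofReal_norm]
  exact hD _

theorem sum_sub_le {ι : Type} (s : Finset ι) {p : ℝ≥0∞} (hp : 1 ≤ p) {f : ι → E → ℝ}
    (hf : ∀ i, AEStronglyMeasurable (f i) volume) :
    eLpNorm (fun x => ∑ i ∈ s, f i x) p volume ≤ ∑ i ∈ s, eLpNorm (f i) p volume := by
  have h := eLpNorm_sum_le (p := p) (μ := (volume : Measure E)) (f := f) (s := s)
    (fun i _ => hf i) hp
  have e : (∑ i ∈ s, f i) = fun x => ∑ i ∈ s, f i x := by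
    funext x
    rw [Finset.sum_apply]
  rwa [e] at h

/-- The right side of the equation. -/
noncomputable def FV (k : K) (x : E) : ℝ := LU k x - U k x ^ 5

theorem FV_mem {C : ℝ} (hF : FC C) (k : K) : MemLp (FV k) 2 volume := by
  unfold FV LU
  apply MemLp.sub
  · exact memLp_finsetSum _ fun i _ => (hF.ddu k i i).1
  · exact u5_mem (hF.u k).1

theorem FV_diff {C : ℝ} (hF : FC C) (hL : St_Lin) (k k' : K) :
    eLpNorm (fun x => FV k x - FV k' x) 2 volume ≤
      5 * ENNReal.ofReal (C * ‖k - k'‖) + 5 * (ENNReal.ofReal (C * ‖k - k'‖) *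
        (ENNReal.ofReal (C * ‖k‖) + ENNReal.ofReal (C * ‖k'‖)) ^ 4) := by
  have e1 : (fun x => FV k x - FV k' x) =
      (fun x => ∑ i, (DDU k i i x - DDU k' i i x)) - fun x => U k x ^ 5 - U k' x ^ 5 := by
    funext x
    unfold FV LU
    simp only [Pi.sub_apply, Finset.sum_sub_distrib]
    ring
  have hm : ∀ i, AEStronglyMeasurable (fun x => DDU k i i x - DDU k' i i x) volume :=
    fun i => (hF.ddu k i i).1.1.sub (hF.ddu k' i i).1.1
  rw [e1]
  refine (eLpNorm_sub_le ?_ ?_ (by norm_num)).trans (add_le_add ?_ ?_)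
  · have := Finset.aestronglyMeasurable_sum (μ := (volume : Measure E)) Finset.univ
      (f := fun i x => DDU k i i x - DDU k' i i x) (fun i _ => hm i)
    have e : (∑ i, fun x => DDU k i i x - DDU k' i i x) =
        fun x => ∑ i, (DDU k i i x - DDU k' i i x) := by
      funext x
      rw [Finset.sum_apply]
    rwa [e] at this
  · exact (u5_mem (hF.u k).1).1.sub (u5_mem (hF.u k').1).1
  · refine (sum_sub_le _ (by norm_num) hm).trans ?_
    calc ∑ i, eLpNorm (fun x => DDU k i i x - DDU k' i i x) 2 volume ≤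
          ∑ i : Fin 5, ENNReal.ofReal (C * ‖k - k'‖) := by
          apply Finset.sum_le_sum
          intro i _
          exact diff_gen (D := fun k => DDU k i i) (fun k => (hF.ddu k i i).2) hF.pos
            (fun c k k' => (hL.1 c k k').2.2.2.1 i i) k k'
      _ = _ := by simp
  · refine (u5_diff (hF.u k).1 (hF.u k').1).trans ?_
    gcongr
    · exact diff_gen (D := fun k => U k) (fun k => (hF.u k).2) hF.pos
        (fun c k k' => (hL.1 c k k').1) k k'
    · rw [ENNReal.ofReal_mul hF.pos.le, ofReal_norm]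
      exact (hF.u k).2
    · rw [ENNReal.ofReal_mul hF.pos.le, ofReal_norm]
      exact (hF.u k').2

theorem ofr (x y z : ℝ) (hx : 0 ≤ x) (hy : 0 ≤ y) (hz : 0 ≤ z) :
    5 * ENNReal.ofReal x + 5 * (ENNReal.ofReal x * (ENNReal.ofReal y + ENNReal.ofReal z) ^ 4) =
      ENNReal.ofReal (5 * x + 5 * (x * (y + z) ^ 4)) := by
  have e5 : (5 : ℝ≥0∞) = ENNReal.ofReal 5 := by simp
  rw [e5, ENNReal.ofReal_add (by positivity) (by positivity),
    ENNReal.ofReal_mul (by norm_num), ENNReal.ofReal_mul (by norm_num),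
    ENNReal.ofReal_mul hx, ENNReal.ofReal_pow (by positivity), ENNReal.ofReal_add hy hz]

theorem FV_cont {C : ℝ} (hF : FC C) (hL : St_Lin) : Continuous fun k => toH (FV k) := by
  apply cont_toH (fun k => FV_mem hF k)
  intro k0
  have h1 : Tendsto (fun k : K => 5 * ENNReal.ofReal (C * ‖k - k0‖) +
      5 * (ENNReal.ofReal (C * ‖k - k0‖) *
        (ENNReal.ofReal (C * ‖k‖) + ENNReal.ofReal (C * ‖k0‖)) ^ 4)) (𝓝 k0) (𝓝 0) := by
    have hC := hF.pos.le
    have e : ∀ k : K, 5 * ENNReal.ofReal (C * ‖k - k0‖) +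
        5 * (ENNReal.ofReal (C * ‖k - k0‖) *
        (ENNReal.ofReal (C * ‖k‖) + ENNReal.ofReal (C * ‖k0‖)) ^ 4) =
        ENNReal.ofReal (5 * (C * ‖k - k0‖) + 5 * ((C * ‖k - k0‖) * (C * ‖k‖ + C * ‖k0‖) ^ 4)) := by
      intro k
      exact ofr _ _ _ (by positivity) (by positivity) (by positivity)
    simp only [e]
    have e0 : (0 : ℝ≥0∞) = ENNReal.ofReal (5 * (C * ‖k0 - k0‖) +
        5 * ((C * ‖k0 - k0‖) * (C * ‖k0‖ + C * ‖k0‖) ^ 4)) := by simp
    rw [e0]
    apply ENNReal.tendsto_ofReal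
    have hc : Continuous fun k : K => 5 * (C * ‖k - k0‖) +
        5 * ((C * ‖k - k0‖) * (C * ‖k‖ + C * ‖k0‖) ^ 4) := by fun_prop
    exact hc.tendsto k0
  exact tendsto_of_tendsto_of_tendsto_of_le_of_le tendsto_const_nhds h1 (fun _ => zero_le)
    (fun k => FV_diff hF hL k k0)

theorem aco_mem {f : E → ℝ} (hf : AEStronglyMeasurable f volume) (i : Fin 5) :
    AEStronglyMeasurable (fun x => aco i x * f x) volume :=
  (aco_smooth i).continuous.aestronglyMeasurable.mul hf

theorem bco_mem {f : E → ℝ} (hf : AEStronglyMeasurable f volume) :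
    AEStronglyMeasurable (fun x => bco x * f x) volume :=
  bco_smooth.continuous.aestronglyMeasurable.mul hf

theorem mm_bound {v : E → ℝ} {d : Fin 5 → E → ℝ} (hv : AEStronglyMeasurable v volume)
    (hd : ∀ i, AEStronglyMeasurable (d i) volume) :
    eLpNorm (mm v d) 2 volume ≤ (∑ i, eLpNorm (d i) 2 volume) +
      ENNReal.ofReal (5 / 2) * eLpNorm v 2 volume := by
  have e1 : mm v d = (fun x => ∑ i, aco i x * d i x) + fun x => bco x * v x := rfl
  rw [e1]
  have hs : AEStronglyMeasurable (fun x => ∑ i, aco i x * d i x) volume := by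
    have := Finset.aestronglyMeasurable_sum (μ := (volume : Measure E)) Finset.univ
      (f := fun i x => aco i x * d i x) (fun i _ => aco_mem (hd i) i)
    have e : (∑ i, fun x => aco i x * d i x) = fun x => ∑ i, aco i x * d i x := by
      funext x
      rw [Finset.sum_apply]
    rwa [e] at this
  refine (eLpNorm_add_le hs (bco_mem hv) (by norm_num)).trans (add_le_add ?_ ?_)
  · refine (sum_sub_le _ (by norm_num) (fun i => aco_mem (hd i) i)).trans ?_
    apply Finset.sum_le_sum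
    intro i _
    apply eLpNorm_mono_ae
    filter_upwards with x
    rw [norm_mul]
    calc ‖aco i x‖ * ‖d i x‖ ≤ 1 * ‖d i x‖ := by
          gcongr
          exact aco_le i x
      _ = _ := one_mul _
  · apply eLpNorm_le_mul_eLpNorm_of_ae_le_mul
    filter_upwards with x
    rw [norm_mul]
    gcongr
    rw [Real.norm_eq_abs, abs_of_nonneg (bco_nonneg x)]
    exact bco_le x

theorem mm_mem {v : E → ℝ} {d : Fin 5 → E → ℝ} (hv : MemLp v 2 volume)
    (hd : ∀ i, MemLp (d i) 2 volume) : MemLp (mm v d) 2 volume := by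
  refine ⟨?_, ?_⟩
  · have e1 : mm v d = (fun x => ∑ i, aco i x * d i x) + fun x => bco x * v x := rfl
    have hs : AEStronglyMeasurable (fun x => ∑ i, aco i x * d i x) volume := by
      have := Finset.aestronglyMeasurable_sum (μ := (volume : Measure E)) Finset.univ
        (f := fun i x => aco i x * d i x) (fun i _ => aco_mem (hd i).1 i)
      have e : (∑ i, fun x => aco i x * d i x) = fun x => ∑ i, aco i x * d i x := by
        funext x
        rw [Finset.sum_apply]
      rwa [e] at this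
    rw [e1]
    exact hs.add (bco_mem hv.1)
  · refine (mm_bound hv.1 (fun i => (hd i).1)).trans_lt ?_
    apply ENNReal.add_lt_top.2
    constructor
    · exact ENNReal.sum_lt_top.2 fun i _ => (hd i).2
    · exact ENNReal.mul_lt_top ENNReal.ofReal_lt_top hv.2

theorem mm_diff {v v' : E → ℝ} {d d' : Fin 5 → E → ℝ} (hv : AEStronglyMeasurable v volume)
    (hd : ∀ i, AEStronglyMeasurable (d i) volume) (hv' : AEStronglyMeasurable v' volume)
    (hd' : ∀ i, AEStronglyMeasurable (d' i) volume) :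
    eLpNorm (fun x => mm v d x - mm v' d' x) 2 volume ≤
      (∑ i, eLpNorm (fun x => d i x - d' i x) 2 volume) +
      ENNReal.ofReal (5 / 2) * eLpNorm (fun x => v x - v' x) 2 volume := by
  have e : (fun x => mm v d x - mm v' d' x) =
      mm (fun x => v x - v' x) (fun i x => d i x - d' i x) := by
    funext x
    unfold mm
    simp only [mul_sub, Finset.sum_sub_distrib]
    ring
  rw [e]
  exact mm_bound (hv.sub hv') (fun i => (hd i).sub (hd' i))

theorem tend_int {f : E → ℝ} {g : ℕ → E → ℝ} {g' : E → ℝ} (hf : MemLp f 2 volume)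
    (hg : ∀ n, MemLp (g n) 2 volume) (hg' : MemLp g' 2 volume)
    (h : Tendsto (fun n => eLpNorm (fun x => g n x - g' x) 2 volume) atTop (𝓝 0)) :
    Tendsto (fun n => ∫ x, f x * g n x) atTop (𝓝 (∫ x, f x * g' x)) := by
  have h1 : Tendsto (fun n => toH (g n)) atTop (𝓝 (toH g')) := by
    rw [tendsto_iff_norm_sub_tendsto_zero]
    have h2 : (fun n => ‖toH (g n) - toH g'‖) =
        fun n => (eLpNorm (fun y => g n y - g' y) 2 volume).toReal := by
      funext n
      have hs : MemLp (fun y => g n y - g' y) 2 volume := (hg n).sub hg'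
      rw [toH_sub (hg n) hg', norm_toH hs]
    rw [h2]
    exact (ENNReal.tendsto_toReal (ENNReal.zero_ne_top)).comp h
  have h2 : Tendsto (fun n => (inner ℝ (toH f) (toH (g n)) : ℝ)) atTop
      (𝓝 (inner ℝ (toH f) (toH g'))) := tendsto_const_nhds.inner h1
  rw [inner_toH hf hg'] at h2
  have h3 : (fun n => (inner ℝ (toH f) (toH (g n)) : ℝ)) = fun n => ∫ x, f x * g n x := by
    funext n
    exact inner_toH hf (hg n)
  rwa [h3] at h2

theorem lemC (hFE : St_FEd) {C : ℝ} (hF : FC C) (hL : St_Lin) (k : K) (hk : FE k) :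
    ∫ x, V k x * mm (V k) (DV k) x = 0 := by
  obtain ⟨_, _, hFE⟩ := hFE
  obtain ⟨⟨f, g, ht, hT, _, hg⟩, _⟩ := hFE k hk
  have hdv : ∀ i, MemLp (DV k i) 2 volume := fun i => (hF.dv k i).1
  have hX : MemLp (mm (V k) (DV k)) 2 volume := mm_mem hk.2 hdv
  have hgm : ∀ n, MemLp (g n) 2 volume := fun n =>
    (ht n).2.1.continuous.memLp_of_hasCompactSupport (ht n).2.2
  have hpm : ∀ n i, MemLp (pd i (g n)) 2 volume := fun n i =>
    (test_pd (ht n).2 i).1.continuous.memLp_of_hasCompactSupport (test_pd (ht n).2 i).2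
  have t1 := tend_int hX hgm hk.2 hg
  have hp : ∀ i, Tendsto (fun n => eLpNorm (fun x => pd i (g n) x - DV k i x) 2 volume) atTop
      (𝓝 0) := by
    intro i
    have hb : ∀ n, eLpNorm (fun x => pd i (g n) x - DV k i x) 2 volume ≤
        ENNReal.ofReal (C * ‖Theta (f n) (g n) - k‖) := by
      intro n
      have h1 : (fun x => pd i (g n) x - DV k i x) =ᵐ[volume]
          fun x => DV (Theta (f n) (g n)) i x - DV k i x := by
        filter_upwards [(hL.2.1 (f n) (g n) (ht n).1 (ht n).2).2.2.2.2 i] with x hx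
        rw [hx]
      rw [eLpNorm_congr_ae h1]
      exact diff_gen (D := fun k => DV k i) (fun k => (hF.dv k i).2.2) hF.pos
        (fun c k k' => (hL.1 c k k').2.2.2.2 i) _ _
    have h0 : Tendsto (fun n => ENNReal.ofReal (C * ‖Theta (f n) (g n) - k‖)) atTop (𝓝 0) := by
      have h2 := (tendsto_iff_norm_sub_tendsto_zero.1 hT).const_mul C
      rw [mul_zero] at h2
      have h3 := ENNReal.tendsto_ofReal h2
      rwa [ENNReal.ofReal_zero] at h3
    exact tendsto_of_tendsto_of_tendsto_of_le_of_le tendsto_const_nhds h0 (fun _ => zero_le) hb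
  have hmm : Tendsto (fun n => eLpNorm (fun x => mm (g n) (fun i => pd i (g n)) x -
      mm (V k) (DV k) x) 2 volume) atTop (𝓝 0) := by
    have h0 : Tendsto (fun n => (∑ i, eLpNorm (fun x => pd i (g n) x - DV k i x) 2 volume) +
        ENNReal.ofReal (5 / 2) * eLpNorm (fun x => g n x - V k x) 2 volume) atTop (𝓝 0) := by
      have a1 : Tendsto (fun n => ∑ i, eLpNorm (fun x => pd i (g n) x - DV k i x) 2 volume) atTop
          (𝓝 (∑ _i : Fin 5, (0 : ℝ≥0∞))) := tendsto_finsetSum _ fun i _ => hp i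
      have a2 := ENNReal.Tendsto.const_mul hg
        (Or.inr (ENNReal.ofReal_ne_top (r := 5 / 2)))
      have a3 := a1.add a2
      simpa using a3
    exact tendsto_of_tendsto_of_tendsto_of_le_of_le tendsto_const_nhds h0 (fun _ => zero_le)
      (fun n => mm_diff (hgm n).1 (fun i => (hpm n i).1) hk.2.1 (fun i => (hdv i).1))
  have t2 := tend_int hk.2 (fun n => mm_mem (hgm n) (fun i => hpm n i)) hX hmm
  have e1 : ∀ n, ∫ x, mm (V k) (DV k) x * g n x =
      - ∫ x, V k x * mm (g n) (fun i => pd i (g n)) x := by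
    intro n
    rw [testid (hk.2.locallyIntegrable (by norm_num))
      (fun i => (hdv i).locallyIntegrable (by norm_num)) (fun i => (hF.dv k i).2.1) (ht n).2,
      ← integral_neg]
    apply integral_congr_ae
    filter_upwards with x
    rw [psi_eq (ht n).2]
    unfold mm
    ring
  simp only [e1] at t1
  have h5 := tendsto_nhds_unique t1 t2.neg
  have e2 : ∫ x, mm (V k) (DV k) x * V k x = ∫ x, V k x * mm (V k) (DV k) x := by
    apply integral_congr_ae
    filter_upwards with x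
    ring
  rw [e2] at h5
  linarith

/-- The static input. -/
def MI (CM : ℝ) : Prop := ∀ k : K, FE k → MemLp (mm (U k) (DU k)) 2 volume ∧
  eLpNorm (mm (U k) (DU k)) 2 volume ≤ ENNReal.ofReal CM * ∑ i, eLpNorm (DU k i) 2 volume ∧
  ∫ x, FV k x * mm (U k) (DU k) x ≤ - (4 / 3) * ∫ x, U k x ^ 6 / jb x

theorem MI_of {CM : ℝ} (h : ∀ k : K, FE k → ∃ m : E → ℝ, MemLp m 2 volume ∧
  (m =ᵐ[volume] fun x => (∑ i, x i * DU k i x) / √(1 + ‖x‖ ^ 2) +
    (1 / (√(1 + ‖x‖ ^ 2)) ^ 3 + 4 / √(1 + ‖x‖ ^ 2)) / 2 * U k x) ∧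
  eLpNorm m 2 volume ≤ ENNReal.ofReal CM * ∑ i, eLpNorm (DU k i) 2 volume ∧
  ∫ x, (LU k x - U k x ^ 5) * m x ≤ - (4 / 3) * ∫ x, U k x ^ 6 / √(1 + ‖x‖ ^ 2)) : MI CM := by
  intro k hk
  obtain ⟨m, hm, he, hb, hi⟩ := h k hk
  have e : m =ᵐ[volume] mm (U k) (DU k) := by
    filter_upwards [he] with x hx
    rw [hx]
    unfold mm aco bco jb
    congr 1
    rw [Finset.sum_div]
    apply Finset.sum_congr rfl
    intro i _
    ring
  refine ⟨(memLp_congr_ae e).1 hm, ?_, ?_⟩
  · rw [← eLpNorm_congr_ae e]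
    exact hb
  · have e2 : ∫ x, FV k x * mm (U k) (DU k) x = ∫ x, (LU k x - U k x ^ 5) * m x := by
      apply integral_congr_ae
      filter_upwards [e] with x hx
      rw [hx]
      rfl
    rw [e2]
    exact hi

theorem sq_toH {f : E → ℝ} (hf : MemLp f 2 volume) : ‖toH f‖ ^ 2 = ∫ x, f x ^ 2 := by
  rw [← real_inner_self_eq_norm_sq, inner_toH hf hf]
  apply integral_congr_ae
  filter_upwards with x
  ring

theorem bdM {CM : ℝ} (hCM : 0 < CM) (hM : MI CM) (k : K) (hk : FE k) :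
    |(inner ℝ (toH (V k)) (toH (mm (U k) (DU k))) : ℝ)| ≤ 5 * CM * En k := by
  obtain ⟨h1, h2, _⟩ := hM k hk
  have h3 : ‖toH (mm (U k) (DU k))‖ ≤ CM * ∑ i, ‖toH (DU k i)‖ := by
    rw [norm_toH h1]
    have e : CM * ∑ i, ‖toH (DU k i)‖ =
        (ENNReal.ofReal CM * ∑ i, eLpNorm (DU k i) 2 volume).toReal := by
      rw [ENNReal.toReal_mul, ENNReal.toReal_ofReal hCM.le,
        ENNReal.toReal_sum (fun i _ => (hk.1 i).2.ne)]
      congr 1
      apply Finset.sum_congr rfl
      intro i _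
      exact norm_toH (hk.1 i)
    rw [e]
    apply ENNReal.toReal_mono _ h2
    exact ENNReal.mul_ne_top ENNReal.ofReal_ne_top
      (ENNReal.sum_ne_top.2 fun i _ => (hk.1 i).2.ne)
  have h4 : (∑ i, ‖toH (DU k i)‖ ^ 2) / 2 + ‖toH (V k)‖ ^ 2 / 2 ≤ En k := by
    unfold En
    have e1 : ∀ i, ‖toH (DU k i)‖ ^ 2 = ∫ x, DU k i x ^ 2 := fun i => sq_toH (hk.1 i)
    simp only [e1]
    rw [sq_toH hk.2]
    have h6 : 0 ≤ ∫ x, U k x ^ 6 := integral_nonneg fun x => by positivity
    linarith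
  have h5 : ‖toH (V k)‖ * ∑ i, ‖toH (DU k i)‖ ≤
      (5 * ‖toH (V k)‖ ^ 2 + ∑ i, ‖toH (DU k i)‖ ^ 2) / 2 := by
    have e1 : (5 * ‖toH (V k)‖ ^ 2 + ∑ i, ‖toH (DU k i)‖ ^ 2) / 2 =
        ∑ i, (‖toH (V k)‖ ^ 2 + ‖toH (DU k i)‖ ^ 2) / 2 := by
      rw [← Finset.sum_div, Finset.sum_add_distrib]
      simp
    rw [e1, Finset.mul_sum]
    apply Finset.sum_le_sum
    intro i _
    nlinarith [sq_nonneg (‖toH (V k)‖ - ‖toH (DU k i)‖)]
  have h6 : 0 ≤ ∑ i, ‖toH (DU k i)‖ ^ 2 := Finset.sum_nonneg fun i _ => by positivity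
  calc |(inner ℝ (toH (V k)) (toH (mm (U k) (DU k))) : ℝ)| ≤
        ‖toH (V k)‖ * ‖toH (mm (U k) (DU k))‖ := abs_real_inner_le_norm _ _
    _ ≤ ‖toH (V k)‖ * (CM * ∑ i, ‖toH (DU k i)‖) := by gcongr
    _ = CM * (‖toH (V k)‖ * ∑ i, ‖toH (DU k i)‖) := by ring
    _ ≤ CM * ((5 * ‖toH (V k)‖ ^ 2 + ∑ i, ‖toH (DU k i)‖ ^ 2) / 2) := by gcongr
    _ ≤ CM * (5 * En k) := by
        gcongr
        linarith
    _ = 5 * CM * En k := by ring

theorem mor_aux {C CM : ℝ} (hF : FC C) (hL : St_Lin) (hW : St_WEq) (hFE : St_FEd) (hE : St_En)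
    (hCM : 0 < CM) (hM : MI CM) {a b : ℝ} {k : ℝ → K} (hab : a ≤ b) (hs : IsSol (Icc a b) k)
    (hfe : FE (k a)) :
    ∃ h : ℝ → ℝ, ContinuousOn h (Icc a b) ∧ (∀ t ∈ Icc a b, ∫ x, U (k t) x ^ 6 / jb x ≤ h t) ∧
      ∫ t in a..b, h t ≤ 8 * CM * En (k a) := by
  have ha : a ∈ Icc a b := ⟨le_rfl, hab⟩
  have hb : b ∈ Icc a b := ⟨hab, le_rfl⟩
  have hEn := hE (Icc a b) k a hs ha hfe
  obtain ⟨κ, hκ⟩ : ∃ κ : ℝ → K, κ = fun t => k (projIcc a b hab t) := ⟨_, rfl⟩
  have hκc : Continuous κ := by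
    rw [hκ]
    exact hs.2.1.comp_continuous (continuous_subtype_val.comp continuous_projIcc)
      (fun t => (projIcc a b hab t).2)
  have hκe : ∀ t ∈ Icc a b, κ t = k t := by
    intro t ht
    rw [hκ]
    dsimp only
    rw [projIcc_of_mem hab ht]
  have hκF : ∀ t, FE (κ t) := by
    intro t
    rw [hκ]
    exact (hEn _ (projIcc a b hab t).2).1
  -- the curves
  obtain ⟨q, hq⟩ : ∃ q : ℝ → Hs, q = fun t => toH (FV (κ t)) := ⟨_, rfl⟩
  obtain ⟨p, hp⟩ : ∃ p : ℝ → Hs, p = fun t => toH (V (κ t)) := ⟨_, rfl⟩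
  obtain ⟨q', hq'⟩ : ∃ q' : ℝ → Hs, q' = fun t => toH (mm (V (κ t)) (DV (κ t))) := ⟨_, rfl⟩
  obtain ⟨p', hp'⟩ : ∃ p' : ℝ → Hs, p' = fun t => toH (mm (U (κ t)) (DU (κ t))) := ⟨_, rfl⟩
  have tm : ∀ φ, IsTest φ → MemLp φ 2 volume := fun φ hφ =>
    hφ.1.continuous.memLp_of_hasCompactSupport hφ.2
  have hdv : ∀ k i, MemLp (DV k i) 2 volume := fun k i => (hF.dv k i).1
  have hqc : Continuous q := by
    rw [hq]
    exact (FV_cont hF hL).comp hκc
  have hpI : ∀ t ∈ Icc a b, p t = p a + ∫ r in a..t, q r := by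
    apply lemA hqc
    intro t ht φ hφ
    have h1 := (hW (Icc a b) k hs a ha t ht φ hφ).2
    rw [hp]
    dsimp only
    rw [inner_toH (hκF t).2 (tm φ hφ), inner_toH (hκF a).2 (tm φ hφ), hκe t ht, hκe a ha, h1]
    apply intervalIntegral.integral_congr
    intro r hr
    rw [uIcc_of_le ht.1] at hr
    have hr' : r ∈ Icc a b := ⟨hr.1, hr.2.trans ht.2⟩
    rw [hq]
    dsimp only
    rw [inner_toH (FV_mem hF _) (tm φ hφ), hκe r hr']
    rfl
  have hpp : ∀ t, p t = p (projIcc a b hab t) := by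
    intro t
    rw [hp, hκ]
    dsimp only
    rw [projIcc_val]
  have hpc : Continuous p := by
    have h1 : p = fun t => p a + ∫ r in a..(projIcc a b hab t : ℝ), q r := by
      funext t
      rw [hpp t]
      exact hpI _ (projIcc a b hab t).2
    rw [h1]
    have h2 : Continuous fun t => ∫ r in a..t, q r :=
      continuous_iff_continuousAt.2 fun t => (hqc.integral_hasStrictDerivAt a t).hasDerivAt.continuousAt
    exact continuous_const.add (h2.comp (continuous_subtype_val.comp continuous_projIcc))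
  have hqc' : Continuous q' := by
    rw [hq']
    apply cont_toH (fun t => mm_mem (hκF t).2 (hdv _))
    intro t0
    have a1 : Tendsto (fun t => ∑ i, eLpNorm (fun x => DV (κ t) i x - DV (κ t0) i x) 2 volume)
        (𝓝 t0) (𝓝 0) := by
      have b1 : Tendsto (fun t => ∑ _i : Fin 5, ENNReal.ofReal (C * ‖κ t - κ t0‖)) (𝓝 t0)
          (𝓝 0) := by
        have c1 : Continuous fun t => ∑ _i : Fin 5, ENNReal.ofReal (C * ‖κ t - κ t0‖) := by
          apply continuous_finsetSum
          intro i _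
          apply ENNReal.continuous_ofReal.comp
          fun_prop
        have c2 := c1.tendsto t0
        simpa using c2
      apply tendsto_of_tendsto_of_tendsto_of_le_of_le tendsto_const_nhds b1 (fun _ => zero_le)
      intro t
      apply Finset.sum_le_sum
      intro i _
      exact diff_gen (D := fun k => DV k i) (fun k => (hF.dv k i).2.2) hF.pos
        (fun c k k' => (hL.1 c k k').2.2.2.2 i) _ _
    have a2 : Tendsto (fun t => eLpNorm (fun x => V (κ t) x - V (κ t0) x) 2 volume) (𝓝 t0)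
        (𝓝 0) := by
      have e : ∀ t, eLpNorm (fun x => V (κ t) x - V (κ t0) x) 2 volume = ‖p t - p t0‖ₑ := by
        intro t
        rw [hp]
        dsimp only
        have hs2 : MemLp (fun x => V (κ t) x - V (κ t0) x) 2 volume := (hκF t).2.sub (hκF t0).2
        rw [toH_sub (hκF t).2 (hκF t0).2, enorm_toH hs2]
      simp only [e]
      have c1 : Continuous fun t => ‖p t - p t0‖ₑ := by fun_prop
      have c2 := c1.tendsto t0
      simpa using c2
    have a3 := a1.add (ENNReal.Tendsto.const_mul a2 (Or.inr (ENNReal.ofReal_ne_top (r := 5 / 2))))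
    rw [mul_zero, add_zero] at a3
    exact tendsto_of_tendsto_of_tendsto_of_le_of_le tendsto_const_nhds a3 (fun _ => zero_le)
      (fun t => mm_diff (hκF t).2.1 (fun i => (hdv _ i).1) (hκF t0).2.1 (fun i => (hdv _ i).1))
  have hpI' : ∀ t ∈ Icc a b, p' t = p' a + ∫ r in a..t, q' r := by
    apply lemA hqc'
    intro t ht φ hφ
    have h1 := (hW (Icc a b) k hs a ha t ht (psi φ) (psi_test hφ)).1
    rw [hp']
    dsimp only
    have g1 : ∀ k : K, ∫ x, mm (U k) (DU k) x * φ x = ∫ x, U k x * psi φ x := fun k =>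
      testid ((hF.u k).1.locallyIntegrable (by norm_num))
        (fun i => (hF.du k i).1.locallyIntegrable (by
          rw [ENNReal.le_div_iff_mul_le (by simp) (by simp)]
          norm_num)) (fun i => (hF.du k i).2) hφ
    rw [inner_toH (hM _ (hκF t)).1 (tm φ hφ), inner_toH (hM _ (hκF a)).1 (tm φ hφ), g1, g1,
      hκe t ht, hκe a ha, h1]
    apply intervalIntegral.integral_congr
    intro r hr
    rw [uIcc_of_le ht.1] at hr
    have hr' : r ∈ Icc a b := ⟨hr.1, hr.2.trans ht.2⟩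
    rw [hq']
    dsimp only
    rw [inner_toH (mm_mem (hκF r).2 (hdv _)) (tm φ hφ),
      testid ((hκF r).2.locallyIntegrable (by norm_num))
      (fun i => (hdv _ i).locallyIntegrable (by norm_num)) (fun i => (hF.dv _ i).2.1) hφ, hκe r hr']
  obtain ⟨hc, hI⟩ := lemB hab hqc hqc' hpI hpI'
  refine ⟨fun t => -(3 / 4) * (inner ℝ (p t) (q' t) + inner ℝ (q t) (p' t)),
    hc.const_mul _, ?_, ?_⟩
  · intro t ht
    have h1 : (inner ℝ (p t) (q' t) : ℝ) = 0 := by
      rw [hp, hq']
      dsimp only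
      rw [inner_toH (hκF t).2 (mm_mem (hκF t).2 (hdv _))]
      exact lemC hFE hF hL _ (hκF t)
    have h2 : (inner ℝ (q t) (p' t) : ℝ) ≤ - (4 / 3) * ∫ x, U (k t) x ^ 6 / jb x := by
      rw [hq, hp']
      dsimp only
      rw [inner_toH (FV_mem hF _) (hM _ (hκF t)).1, hκe t ht]
      exact (hM _ (hEn t ht).1).2.2
    dsimp only
    rw [h1]
    linarith
  · rw [intervalIntegral.integral_const_mul, hI]
    have b1 := bdM hCM hM (k a) (hEn a ha).1
    have b2 := bdM hCM hM (k b) (hEn b hb).1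
    rw [(hEn b hb).2.2] at b2
    have e1 : (inner ℝ (p a) (p' a) : ℝ) =
        inner ℝ (toH (V (k a))) (toH (mm (U (k a)) (DU (k a)))) := by
      rw [hp, hp']
      dsimp only
      rw [hκe a ha]
    have e2 : (inner ℝ (p b) (p' b) : ℝ) =
        inner ℝ (toH (V (k b))) (toH (mm (U (k b)) (DU (k b)))) := by
      rw [hp, hp']
      dsimp only
      rw [hκe b hb]
    rw [e1, e2]
    have b3 := (abs_le.1 b1).2
    have b4 := (abs_le.1 b2).1
    have b5 : 0 ≤ CM * En (k a) := by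
      have := abs_nonneg (inner ℝ (toH (V (k a))) (toH (mm (U (k a)) (DU (k a)))) : ℝ)
      linarith
    linarith

end Pool.Agent.QWE.Morx

namespace Pool.Agent.QWE

open Morx in
theorem thm_Mor (hFl : St_Fld) (hL : St_Lin) (hW : St_WEq) (hFE : St_FEd) (hE : St_En)
    (hMI : St_MorI) : St_Mor := by
  obtain ⟨C, hF⟩ := FC_of hFl
  obtain ⟨CM, hCM, hM0⟩ := hMI
  have hM : MI CM := MI_of hM0
  refine ⟨8 * CM, by positivity, ?_⟩
  intro a b k hab hs hfe
  obtain ⟨h, hc, hle, hI⟩ := mor_aux hF hL hW hFE hE hCM hM hab hs hfe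
  have ha : a ∈ Icc a b := ⟨le_rfl, hab⟩
  have hEn := hE (Icc a b) k a hs ha hfe
  have h1 : ∀ t ∈ Icc a b, ∫⁻ x, ENNReal.ofReal (U (k t) x ^ 6 / √(1 + ‖x‖ ^ 2)) ≤
      ENNReal.ofReal (h t) := by
    intro t ht
    have h6 := (hEn t ht).2.1
    have hi : Integrable (fun x => U (k t) x ^ 6 / jb x) volume := by
      have i1 : Integrable (fun x => U (k t) x ^ 6) volume := by
        have := h6.integrable_norm_pow (by norm_num)
        refine this.congr ?_
        filter_upwards with x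
        rw [Real.norm_eq_abs]
        exact Even.pow_abs (by decide) (U (k t) x)
      refine i1.mono (i1.1.div₀ jb_smooth.continuous.aestronglyMeasurable) ?_
      filter_upwards with x
      rw [norm_div, Real.norm_eq_abs (jb x), abs_of_pos (jb_pos x)]
      exact div_le_self (norm_nonneg _) (jb_ge x)
    have h2 : ∫⁻ x, ENNReal.ofReal (U (k t) x ^ 6 / √(1 + ‖x‖ ^ 2)) =
        ENNReal.ofReal (∫ x, U (k t) x ^ 6 / jb x) := by
      rw [ofReal_integral_eq_lintegral_ofReal hi]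
      · rfl
      · filter_upwards with x
        have := jb_pos x
        simp only [Pi.zero_apply]
        positivity
    rw [h2]
    exact ENNReal.ofReal_le_ofReal (hle t ht)
  have hint : IntegrableOn h (Icc a b) volume := hc.integrableOn_Icc
  calc ∫⁻ t in Icc a b, ∫⁻ x, ENNReal.ofReal (U (k t) x ^ 6 / √(1 + ‖x‖ ^ 2)) ≤
        ∫⁻ t in Icc a b, ENNReal.ofReal (h t) := setLIntegral_mono' measurableSet_Icc h1
    _ = ENNReal.ofReal (∫ t in Icc a b, h t) := by
        rw [ofReal_integral_eq_lintegral_ofReal hint]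
        filter_upwards [ae_restrict_mem measurableSet_Icc] with t ht
        have h3 : 0 ≤ ∫ x, U (k t) x ^ 6 / jb x := integral_nonneg fun x => by
          have := jb_pos x
          positivity
        exact h3.trans (hle t ht)
    _ ≤ ENNReal.ofReal (8 * CM * En (k a)) := by
        apply ENNReal.ofReal_le_ofReal
        rw [integral_Icc_eq_integral_Ioc, ← intervalIntegral.integral_of_le hab]
        exact hI

end Pool.Agent.QWE
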