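import Pool.Agent.QWE.StA

set_option autoImplicit false

/-!
# QWE, NF: near field estimate for general sources, by mollification and scaling from NF1
-/

open MeasureTheory Filter Topology Set
open scoped ENNReal NNReal RealInnerProductSpace Pointwise ContDiff Convolution

namespace Pool.Agent.QWE.NFx

private lemma isSch_of_isTest {φ : E → ℝ} (hφ : IsTest φ) : IsSch φ :=
  ⟨hφ.2.toSchwartzMap hφ.1, fun _ => rfl⟩

private lemma eq_zero_of_orth (hD : TS univ = ⊤) (d : K)
    (h : ∀ φ, IsTest φ → inner ℝ d (Rk φ) = 0 ∧ inner ℝ d (dRk φ) = 0) : d = 0 := by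
  have h1 : TS univ ≤ (Submodule.span ℝ {d})ᗮ := by
    unfold TS
    apply Submodule.topologicalClosure_minimal
    · rw [Submodule.span_le]
      rintro w ⟨φ, hφ, -, rfl | rfl⟩
      · exact Submodule.mem_orthogonal_singleton_iff_inner_right.2 (h φ hφ).1
      · exact Submodule.mem_orthogonal_singleton_iff_inner_right.2 (h φ hφ).2
    · exact Submodule.isClosed_orthogonal _
  have h2 : d ∈ (Submodule.span ℝ {d})ᗮ := h1 (by rw [hD]; trivial)
  exact inner_self_eq_zero.1 (Submodule.mem_orthogonal_singleton_iff_inner_right.1 h2)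

private lemma gam_eq (hD : TS univ = ⊤) {F : E → ℝ} {w : K} (hw : IsGam F w) : Gam F = w := by
  have h : ∃ w, IsGam F w := ⟨w, hw⟩
  have h1 : IsGam F (Gam F) := by
    rw [Gam, dif_pos h]; exact h.choose_spec
  have h2 : Gam F - w = 0 := by
    apply eq_zero_of_orth hD
    intro φ hφ
    rw [inner_sub_left, inner_sub_left, (h1 φ hφ).1, (h1 φ hφ).2, (hw φ hφ).1, (hw φ hφ).2]
    simp
  exact sub_eq_zero.1 h2

/-- The exterior norm of the near field is a continuous function of the state. -/
private lemma cont_ex (Ω : Set E) (θ : S × ℝ → ℝ) (σ : ℝ) :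
    Continuous fun κ : K => ex Ω (mulK θ (tau (-σ) κ)) := by
  unfold ex
  exact ((pr Ω).continuous.comp ((mulK θ).continuous.comp (tau (-σ)).continuous)).norm

section Mollify

/-- `L¹` norm of a convolution with a mollifier. -/
private lemma integral_abs_conv_le {f g : E → ℝ} (hf : Integrable f volume)
    (hf0 : ∀ x, 0 ≤ f x) (hf1 : ∫ x, f x = 1) (hg : Integrable g volume) :
    ∫ x, |(f ⋆[ContinuousLinearMap.lsmul ℝ ℝ, volume] g) x| ≤ ∫ x, |g x| := by
  have h1 : ∫ x, (f ⋆[ContinuousLinearMap.lsmul ℝ ℝ, volume] fun y => |g y|) x =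
      (ContinuousLinearMap.lsmul ℝ ℝ) (∫ x, f x) (∫ x, |g x|) :=
    integral_convolution _ hf hg.abs
  have h2 : ∫ x, |(f ⋆[ContinuousLinearMap.lsmul ℝ ℝ, volume] g) x| ≤
      ∫ x, (f ⋆[ContinuousLinearMap.lsmul ℝ ℝ, volume] fun y => |g y|) x := by
    apply integral_mono
    · exact (hf.integrable_convolution (ContinuousLinearMap.lsmul ℝ ℝ) hg).abs
    · exact hf.integrable_convolution (ContinuousLinearMap.lsmul ℝ ℝ) hg.abs
    · intro x
      simp only [convolution_def]
      refine (abs_integral_le_integral_abs).trans (le_of_eq ?_)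
      congr 1
      ext y
      simp [abs_mul, abs_of_nonneg (hf0 y)]
  rw [h1, hf1] at h2
  simpa using h2

/-- Support of a convolution. -/
private lemma conv_eq_zero {f g : E → ℝ} {r s : ℝ} (hf : ∀ x, s ≤ ‖x‖ → f x = 0)
    (hg : ∀ᵐ x, r < ‖x‖ → g x = 0) (x : E) (hx : r + s ≤ ‖x‖) :
    (f ⋆[ContinuousLinearMap.lsmul ℝ ℝ, volume] g) x = 0 := by
  rw [convolution_def]
  have h1 : ∀ᵐ t : E, r < ‖x - t‖ → g (x - t) = 0 :=
    (quasiMeasurePreserving_sub_left volume x).ae hg
  rw [← integral_zero E ℝ (μ := (volume : Measure E))]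
  apply integral_congr_ae
  filter_upwards [h1] with t ht
  by_cases hs : s ≤ ‖t‖
  · simp [hf t hs]
  · push Not at hs
    have h2 : r < ‖x - t‖ := by
      have := norm_sub_norm_le x t
      linarith
    simp [ht h2]

end Mollify

/-- The mollification of a state without position field is the source element of the mollified
velocity field. -/
private lemma isGam_conv (h1 : St_Grp1) (hU : St_UTest) (hL : St_Lin) (hA : St_Act)
    {k : K} (hk : U k =ᵐ[volume] 0) (hV : Integrable (V k) volume) {f : E → ℝ}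
    (hf : Continuous f) (hfc : HasCompactSupport f) :
    IsGam (f ⋆[ContinuousLinearMap.lsmul ℝ ℝ, volume] (V k)) (∫ t, f t • sh t k) := by
  intro φ hφ
  have hsh : Continuous fun y => sh y k := h1.2.2.2.2.2.2.2.2 k
  have hint : Integrable (fun t => f t • sh t k) volume :=
    (hf.smul hsh).integrable_of_hasCompactSupport hfc.smul_right
  have hinner : ∀ w : K, inner ℝ (∫ t, f t • sh t k) w = ∫ t, f t * inner ℝ (sh t k) w := by
    intro w
    rw [real_inner_comm, ← integral_inner hint]
    congr 1; ext t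
    rw [inner_smul_right, real_inner_comm]
  have hφs := isSch_of_isTest hφ
  constructor
  · rw [hinner]
    have h0 : ∀ t, inner ℝ (sh t k) (Rk φ) = 0 := by
      intro t
      rw [← hU.2.2 _ _ hφs]
      have h2 : (fun x => U (sh t k) x * φ x) =ᵐ[volume] fun _ => 0 := by
        filter_upwards [(hA.1 t k).1, (measurePreserving_sub_right volume t).quasiMeasurePreserving.ae hk]
          with x h3 h4
        rw [h3, h4]; simp
      rw [integral_congr_ae h2]; simp
    simp [h0]
  · rw [hinner]
    have h0 : ∀ t, inner ℝ (sh t k) (dRk φ) = ∫ x, V k (x - t) * φ x := by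
      intro t
      rw [← hL.2.2 _ _ hφs]
      apply integral_congr_ae
      filter_upwards [(hA.1 t k).2] with x h3
      rw [h3]
    have hfi : Integrable f volume := hf.integrable_of_hasCompactSupport hfc
    have hprod : Integrable (fun p : E × E => (f p.2 * V k (p.1 - p.2)) * φ p.1)
        ((volume : Measure E).prod (volume : Measure E)) := by
      have h2 : Integrable (fun p : E × E => f p.2 * V k (p.1 - p.2))
          ((volume : Measure E).prod (volume : Measure E)) := by
        have := hfi.convolution_integrand (ContinuousLinearMap.lsmul ℝ ℝ) hV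
        simpa using this
      obtain ⟨B, hB⟩ := hφ.2.exists_bound_of_continuous hφ.1.continuous
      refine h2.mul_bdd (c := B) ?_ ?_
      · exact (hφ.1.continuous.comp continuous_fst).aestronglyMeasurable
      · exact Eventually.of_forall fun p => hB p.1
    calc ∫ t, f t * inner ℝ (sh t k) (dRk φ)
        = ∫ t, ∫ x, (f t * V k (x - t)) * φ x := by
          congr 1; ext t
          rw [h0, ← integral_const_mul]
          congr 1; ext x; ring
      _ = ∫ x, ∫ t, (f t * V k (x - t)) * φ x := by
          rw [integral_integral_swap]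
          exact hprod.swap
      _ = ∫ x, (f ⋆[ContinuousLinearMap.lsmul ℝ ℝ, volume] (V k)) x * φ x := by
          congr 1; ext x
          rw [integral_mul_const, convolution_def]
          rfl

/-- Unit scale estimate for states with velocity field supported in a ball. -/
private lemma unit_est (h1 : St_Grp1) (hD : TS univ = ⊤) (hU : St_UTest) (hF : St_Fld)
    (hL : St_Lin) (hA : St_Act) {θ : S × ℝ → ℝ} {C : ℝ} {σ : ℝ}
    (hC : ∀ F : E → ℝ, IsTest F → (∀ x, 1 / 3 ≤ ‖x‖ → F x = 0) →
      ex (ext 0 1) (mulK θ (tau (-σ) (Gam F))) ≤ C * ∫ x, |F x|)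
    {k : K} (hk : U k =ᵐ[volume] 0) (hV : ∀ᵐ x, 1 / 4 < ‖x‖ → V k x = 0) :
    ex (ext 0 1) (mulK θ (tau (-σ) k)) ≤ max C 0 * ∫ x, |V k x| := by
  have hVi : Integrable (V k) volume := by
    obtain ⟨C', -, hF'⟩ := hF
    have hV1 : MemLp (V k) (10 / 3) volume := (hF' k).2.1.1.1
    have h2 : (V k) =ᵐ[volume] (Metric.closedBall (0 : E) (1 / 4)).indicator (V k) := by
      filter_upwards [hV] with x hx
      by_cases h : x ∈ Metric.closedBall (0 : E) (1 / 4)
      · rw [indicator_of_mem h]
      · rw [indicator_of_notMem h]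
        apply hx
        simpa [mem_closedBall_zero_iff] using h
    rw [integrable_congr h2, integrable_indicator_iff Metric.isClosed_closedBall.measurableSet]
    have hfin : (volume : Measure E) (Metric.closedBall (0 : E) (1 / 4)) < ⊤ :=
      measure_closedBall_lt_top
    have : IsFiniteMeasure ((volume : Measure E).restrict (Metric.closedBall (0 : E) (1 / 4))) :=
      ⟨by rwa [Measure.restrict_apply_univ]⟩
    refine (hV1.restrict (Metric.closedBall (0 : E) (1 / 4))).integrable ?_
    rw [ENNReal.le_div_iff_mul_le (by norm_num) (by norm_num)]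
    norm_num
  -- mollifiers
  let φ : ℕ → ContDiffBump (0 : E) := fun n =>
    { rIn := 1 / (2 * (n + 12 : ℝ)), rOut := 1 / (n + 12 : ℝ)
      rIn_pos := by positivity
      rIn_lt_rOut := by
        apply one_div_lt_one_div_of_lt
        · positivity
        · have : (0 : ℝ) < (n : ℝ) + 12 := by positivity
          linarith }
  have hφ0 : Tendsto (fun n => (φ n).rOut) atTop (𝓝 0) := by
    change Tendsto (fun n : ℕ => 1 / ((n : ℝ) + 12)) atTop (𝓝 0)
    simp only [one_div]
    exact tendsto_inv_atTop_zero.comp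
      (tendsto_atTop_add_const_right _ _ tendsto_natCast_atTop_atTop)
  have hsh : Continuous fun y => sh y k := h1.2.2.2.2.2.2.2.2 k
  have hlim : Tendsto (fun n => ∫ t, (φ n).normed volume t • sh t k) atTop (𝓝 k) := by
    have h2 := ContDiffBump.convolution_tendsto_right_of_continuous
      (μ := (volume : Measure E)) hφ0 (g := fun y : E => sh (-y) k) (hsh.comp continuous_neg) 0
    have h3 : sh (-(0 : E)) k = k := by rw [neg_zero]; exact h1.2.2.2.1 k
    simp only [h3] at h2
    refine h2.congr fun n => ?_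
    rw [convolution_def]
    congr 1; ext1 t
    simp
  have hcont := (cont_ex (ext 0 1) θ σ).tendsto k
  refine le_of_tendsto (hcont.comp hlim) (Eventually.of_forall fun n => ?_)
  simp only [Function.comp_apply]
  set f : E → ℝ := (φ n).normed volume with hf
  have hfc : HasCompactSupport f := (φ n).hasCompactSupport_normed
  have hfd : ContDiff ℝ ∞ f := (φ n).contDiff_normed
  have hG := isGam_conv h1 hU hL hA hk hVi hfd.continuous hfc
  rw [← gam_eq hD hG]
  have hfr : ∀ x : E, 1 / 12 ≤ ‖x‖ → f x = 0 := by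
    intro x hx
    have h2 : x ∉ Function.support f := by
      rw [hf, (φ n).support_normed_eq, Metric.mem_ball, dist_zero_right, not_lt]
      refine le_trans ?_ hx
      change 1 / ((n : ℝ) + 12) ≤ 1 / 12
      apply one_div_le_one_div_of_le (by norm_num)
      have : (0 : ℝ) ≤ n := by positivity
      linarith
    simpa using h2
  have hz : ∀ x : E, 1 / 3 ≤ ‖x‖ → (f ⋆[ContinuousLinearMap.lsmul ℝ ℝ, volume] (V k)) x = 0 := by
    intro x hx
    exact conv_eq_zero hfr hV x (by linarith)
  have hT : IsTest (f ⋆[ContinuousLinearMap.lsmul ℝ ℝ, volume] (V k)) := by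
    refine ⟨hfc.contDiff_convolution_left _ hfd hVi.locallyIntegrable, ?_⟩
    apply HasCompactSupport.of_support_subset_isCompact (isCompact_closedBall (0 : E) (1 / 3))
    intro x hx
    rw [mem_closedBall_zero_iff]
    by_contra h
    exact hx (hz x (le_of_lt (not_le.1 h)))
  have h3 := hC _ hT hz
  have h4 := integral_abs_conv_le ((φ n).integrable_normed) ((φ n).nonneg_normed)
    ((φ n).integral_normed) hVi
  have h5 : 0 ≤ ∫ x, |(f ⋆[ContinuousLinearMap.lsmul ℝ ℝ, volume] (V k)) x| :=
    integral_nonneg fun x => abs_nonneg _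
  exact h3.trans ((mul_le_mul_of_nonneg_right (le_max_left C 0) h5).trans
    (mul_le_mul_of_nonneg_left h4 (le_max_right C 0)))

end Pool.Agent.QWE.NFx

namespace Pool.Agent.QWE

open NFx

private lemma NFx.mulK_dl {θ : ℝ → ℝ} (hθ : Continuous θ) (hθ1 : ∀ p, |θ p| ≤ 1) {R : ℝ}
    (hR : 0 < R) (κ : K) :
    mulK (fun z => θ (z.2 / R)) (dl (-Real.log R) κ) =
      dl (-Real.log R) (mulK (fun z => θ z.2) κ) := by
  have he : Real.exp (-Real.log R) = R⁻¹ := by rw [Real.exp_neg, Real.exp_log hR]
  have hm1 : Measurable fun z : S × ℝ => θ (z.2 / R) :=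
    hθ.measurable.comp (measurable_snd.div_const R)
  have hm2 : Measurable fun z : S × ℝ => θ z.2 := hθ.measurable.comp measurable_snd
  apply Lp.ext
  have h := (qmp_scale (Real.exp_pos (-Real.log R))).ae
    (mulK_coe hm2 (fun z => hθ1 z.2) κ)
  filter_upwards [mulK_coe hm1 (fun z => hθ1 (z.2 / R)) (dl (-Real.log R) κ),
    dl_coe (-Real.log R) κ, dl_coe (-Real.log R) (mulK (fun z => θ z.2) κ), h] with z h1 h2 h3 h4
  rw [h1, h2, h3, h4]
  have h5 : Real.exp (-Real.log R) * z.2 = z.2 / R := by rw [he]; field_simp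
  simp only [h5]
  ring

/-- **NF**: the near field estimate for general sources. -/
theorem thm_NF (h1 : St_Grp1) (h2 : St_Grp2) (hD : St_Dens) (hU : St_UTest) (hF : St_Fld)
    (hL : St_Lin) (hA : St_Act) (hG : St_GamE) (hN : St_NF1) : St_NF := by
  intro θ hθ hθ1 hθ2
  obtain ⟨C, hC⟩ := hN θ hθ hθ1 hθ2
  refine ⟨max C 0, ?_⟩
  intro R F G σ hR hF2 hF10 hFG hFz hσ0 hσ
  obtain ⟨-, -, hGU, hGV, -⟩ := hG F G hF2 hF10 hFG
  have hea : Real.exp (Real.log R) = R := Real.exp_log hR
  have hea' : Real.exp (-Real.log R) = R⁻¹ := by rw [Real.exp_neg, hea]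
  have hqmp : Measure.QuasiMeasurePreserving (fun x : E => R • x) volume volume :=
    Measure.quasiMeasurePreserving_smul volume hR.ne'
  set w := Gam F with hw
  set k := dl (Real.log R) w with hk
  have hUk : U k =ᵐ[volume] 0 := by
    filter_upwards [(hA.2.1 (Real.log R) w).1, hqmp.ae hGU] with x h3 h4
    rw [h3, hea, h4]; simp
  have hVk : V k =ᵐ[volume] fun x => Real.exp (3 * Real.log R / 2) * F (R • x) := by
    filter_upwards [(hA.2.1 (Real.log R) w).2, hqmp.ae hGV] with x h3 h4
    rw [h3, hea, h4]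
  have hVz : ∀ᵐ x, 1 / 4 < ‖x‖ → V k x = 0 := by
    filter_upwards [hVk, hqmp.ae hFz] with x h3 h4 h5
    rw [h3, h4 ?_, mul_zero]
    rw [norm_smul, Real.norm_eq_abs, abs_of_pos hR]
    nlinarith
  have hσ1 : 0 ≤ σ / R := by positivity
  have hσ2 : σ / R ≤ 1 / 8 := by
    rw [div_le_iff₀ hR]; linarith
  have key := unit_est h1 hD.1 hU hF hL hA (θ := fun z => θ z.2) (C := C) (σ := σ / R)
    (fun F' hF' hz => hC F' (σ / R) hF' hz hσ1 hσ2) hUk hVz
  have hint : ∫ x, |V k x| = R ^ (-(7 / 2 : ℝ)) * ∫ x, |F x| := by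
    have h3 : ∫ x, |V k x| = ∫ x, Real.exp (3 * Real.log R / 2) * |F (R • x)| := by
      apply integral_congr_ae
      filter_upwards [hVk] with x hx
      rw [hx, abs_mul, abs_of_pos (Real.exp_pos _)]
    rw [h3, integral_const_mul, Measure.integral_comp_smul volume (fun x => |F x|) R]
    have h4 : Module.finrank ℝ E = 5 := by simp [E]
    rw [h4, smul_eq_mul, ← mul_assoc]
    congr 1
    rw [abs_of_pos (by positivity), Real.rpow_def_of_pos hR, ← hea, ← Real.exp_nat_mul,
      ← Real.exp_neg, ← Real.exp_add, hea]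
    congr 1
    push_cast
    ring
  have hstate : mulK (fun z => θ (z.2 / R)) (tau (-σ) w) =
      dl (-Real.log R) (mulK (fun z => θ z.2) (tau (-(σ / R)) k)) := by
    have h3 : w = dl (-Real.log R) k := by
      rw [hk, h2.1, neg_add_cancel, h2.2.1]
    have h4 : Real.exp (-Real.log R) * (-σ) = -(σ / R) := by rw [hea']; ring
    conv_lhs => rw [h3]
    rw [h2.2.2.2.1, h4, NFx.mulK_dl hθ.continuous hθ1 hR]
  have hext : ∀ κ : K, ex (ext 0 R) (dl (-Real.log R) κ) = ex (ext 0 1) κ := by
    intro κ
    have h3 := hA.2.2.2.1 (ext 0 R) 0 (-Real.log R) κ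
    have h4 : gr 0 (-Real.log R) κ = dl (-Real.log R) κ := by
      rw [gr, h1.2.2.2.1]
    rw [h4] at h3
    rw [h3]
    congr 1
    ext z
    simp only [ext, mem_ofPred_eq, neg_neg, hea, zero_add, dist_zero_right, norm_smul,
      Real.norm_eq_abs, abs_of_pos hR]
    constructor
    · intro h; by_contra h'; push Not at h'; nlinarith
    · intro h; nlinarith
  rw [hstate, hext]
  refine key.trans (le_of_eq ?_)
  rw [hint]
  ring

end Pool.Agent.QWE
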