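import Pool.Agent.QWE.StA

/-!
# QWE: near field, unit scale, smooth sources (NF1)
-/

set_option autoImplicit false

open MeasureTheory Filter Topology Set
open scoped ENNReal NNReal RealInnerProductSpace ContDiff Pointwise

namespace Pool.Agent.QWE

namespace NF1x

lemma exists_mol {r : ℝ} (hr : 0 < r) : ∃ φ : ℝ → ℝ, IsMol r φ := by
  let f : ContDiffBump (0 : ℝ) := ⟨r / 2, r, by positivity, by linarith⟩
  refine ⟨f.normed volume, ?_, fun p => f.nonneg_normed p, ?_, f.integral_normed⟩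
  · exact f.contDiff_normed
  · intro p hp
    have h1 : p ∉ Function.support (f.normed (volume : Measure ℝ)) := by
      rw [f.support_normed_eq]
      simpa [f] using hp
    simpa using h1

lemma mol_mono {r s : ℝ} (h : r ≤ s) {φ : ℝ → ℝ} (hφ : IsMol r φ) : IsMol s φ :=
  ⟨hφ.1, hφ.2.1, fun p hp => hφ.2.2.1 p (h.trans hp), hφ.2.2.2⟩

/-- the span which defines `TS Ω` -/
noncomputable def sp (Ω : Set E) : Submodule ℝ K :=
  Submodule.span ℝ {w | ∃ φ, IsTest φ ∧ tsupport φ ⊆ Ω ∧ (w = Rk φ ∨ w = dRk φ)}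

lemma ex_le {Ω : Set E} {k : K} {c : ℝ} (hc : 0 ≤ c)
    (h : ∀ w ∈ sp Ω, |inner ℝ k w| ≤ c * ‖w‖) : ex Ω k ≤ c := by
  have h1 : ∀ w ∈ TS Ω, |inner ℝ k w| ≤ c * ‖w‖ := by
    intro w hw
    have hcl : IsClosed {w : K | |inner ℝ k w| ≤ c * ‖w‖} :=
      isClosed_le (by fun_prop) (by fun_prop)
    have hsub : ((sp Ω : Submodule ℝ K) : Set K) ⊆ {w : K | |inner ℝ k w| ≤ c * ‖w‖} :=
      fun w hw => h w hw
    exact hcl.closure_subset_iff.2 hsub hw
  have hmem : pr Ω k ∈ TS Ω := Submodule.starProjection_apply_mem _ _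
  have h2 := h1 _ hmem
  have h3 : inner ℝ (k - pr Ω k) (pr Ω k) = 0 :=
    Submodule.starProjection_inner_eq_zero _ _ hmem
  rw [inner_sub_left, real_inner_self_eq_norm_sq] at h3
  have h4 : ‖pr Ω k‖ ^ 2 ≤ c * ‖pr Ω k‖ := by
    have := le_abs_self (inner ℝ k (pr Ω k))
    linarith
  unfold ex
  rcases (norm_nonneg (pr Ω k)).eq_or_lt with h5 | h5
  · rw [← h5]
    exact hc
  · rw [sq] at h4
    exact le_of_mul_le_mul_right h4 h5

lemma abs_inner_le_ex {Ω : Set E} {k w : K} (hw : w ∈ TS Ω) :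
    |inner ℝ k w| ≤ ex Ω k * ‖w‖ := by
  have h3 : inner ℝ (k - pr Ω k) w = 0 := Submodule.starProjection_inner_eq_zero _ _ hw
  rw [inner_sub_left] at h3
  have h4 : inner ℝ k w = inner ℝ (pr Ω k) w := by linarith
  rw [h4]
  exact abs_real_inner_le_norm _ _

end NF1x

open NF1x in
theorem thm_NF1 (hA : St_NFa) (hB : St_NFb) : St_NF1 := by
  intro θ hθ hθ1 hθ0
  obtain ⟨C, hC⟩ := hB θ hθ hθ1 hθ0
  refine ⟨C, fun F σ hF hF0 hσ0 hσ1 => ?_⟩
  choose φ hφ using fun n : ℕ => exists_mol (r := 1 / (n + 100 : ℝ)) (by positivity)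
  have hφ' : ∀ n, IsMol (1 / 100) (φ n) := fun n => mol_mono (by
    apply one_div_le_one_div_of_le (by norm_num)
    have : (0 : ℝ) ≤ n := Nat.cast_nonneg n
    linarith) (hφ n)
  have hbd : ∀ n, ex (ext 0 1) (toK (kap θ F σ (φ n))) ≤ C * ∫ x, |F x| :=
    fun n => hC F σ (φ n) hF hF0 hσ0 hσ1 (hφ' n)
  have hc : 0 ≤ C * ∫ x, |F x| := (norm_nonneg _).trans (hbd 0)
  obtain ⟨-, hlim⟩ := hA θ F σ hθ hθ1 hθ0 hF hF0
  have hlim' : ∀ w ∈ sp (ext 0 1),
      Tendsto (fun n => inner ℝ (toK (kap θ F σ (φ n))) w) atTop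
        (𝓝 (inner ℝ (mulK (fun z => θ z.2) (tau (-σ) (Gam F))) w)) := by
    intro w hw
    unfold sp at hw
    induction hw using Submodule.span_induction with
    | mem w h =>
      obtain ⟨ψ, hψ, -, h1 | h1⟩ := h
      · rw [h1]
        exact (hlim φ hφ ψ hψ).1
      · rw [h1]
        exact (hlim φ hφ ψ hψ).2
    | zero =>
      simp only [inner_zero_right]
      exact tendsto_const_nhds
    | add x y _ _ hx hy =>
      simp only [inner_add_right]
      exact hx.add hy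
    | smul a x _ hx =>
      simp only [inner_smul_right]
      exact hx.const_mul a
  refine ex_le hc fun w hw => ?_
  refine le_of_tendsto (hlim' w hw).abs (Eventually.of_forall fun n => ?_)
  refine (abs_inner_le_ex (Submodule.le_topologicalClosure _ hw)).trans ?_
  exact mul_le_mul_of_nonneg_right (hbd n) (norm_nonneg w)

end Pool.Agent.QWE
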