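import Pool.Agent.QWE.StA

/-!
# QWE, NFK: kernel bound for the near field
-/

set_option autoImplicit false

open MeasureTheory Filter Topology Set
open scoped ENNReal NNReal RealInnerProductSpace Pointwise

namespace Pool.Agent.QWE

namespace NFKx

/-- a smooth function which agrees with `√(1 - s²)` on `[-1/2, 1/2]` -/
lemma ex_q : ∃ q : ℝ → ℝ, Sm q ∧ ∀ s, |s| ≤ 1 / 2 → q s = √(1 - s ^ 2) := by
  let χ : ContDiffBump (0 : ℝ) := ⟨1 / 2, 3 / 4, by norm_num, by norm_num⟩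
  refine ⟨fun s => √(1 - χ s * s ^ 2), ?_, ?_⟩
  · have h1 : ContDiff ℝ ((⊤ : ℕ∞) : WithTop ℕ∞) (fun s : ℝ => 1 - χ s * s ^ 2) :=
      contDiff_const.sub (χ.contDiff.mul (contDiff_id.pow 2))
    refine h1.sqrt fun s => ?_
    by_cases hs : |s| < 3 / 4
    · have h2 : χ s ≤ 1 := χ.le_one
      have h3 : 0 ≤ χ s := χ.nonneg
      have h4 : s ^ 2 < 9 / 16 := by
        rw [← sq_abs]
        have := abs_nonneg s
        nlinarith
      have h5 : χ s * s ^ 2 ≤ 1 * s ^ 2 := mul_le_mul_of_nonneg_right h2 (sq_nonneg s)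
      intro h6
      linarith
    · have h2 : χ s = 0 := by
        apply χ.zero_of_le_dist
        rw [Real.dist_eq, sub_zero]
        exact not_lt.1 hs
      rw [h2]
      norm_num
  · intro s hs
    have h2 : χ s = 1 := by
      apply χ.one_of_mem_closedBall
      rw [Metric.mem_closedBall, Real.dist_eq, sub_zero]
      exact hs
    show √(1 - χ s * s ^ 2) = _
    rw [h2, one_mul]

lemma sm_iter {φ : ℝ → ℝ} (h : Sm φ) (k : ℕ) : Sm (iteratedDeriv k φ) := by
  induction k with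
  | zero => rw [iteratedDeriv_zero]; exact h
  | succ k ih =>
    rw [iteratedDeriv_succ]
    have h1 : ContDiff ℝ ((⊤ : ℕ∞) : WithTop ℕ∞) (iteratedDeriv k φ) := ih
    exact (contDiff_infty_iff_deriv.1 h1).2

lemma sm_deriv {φ : ℝ → ℝ} (h : Sm φ) : Sm (deriv φ) := (contDiff_infty_iff_deriv.1 h).2

lemma iter_zero {φ : ℝ → ℝ} (hz : ∀ p, 1 / 100 ≤ |p| → φ p = 0) (k : ℕ) {p : ℝ}
    (hp : 1 / 100 < |p|) : iteratedDeriv k φ p = 0 := by
  have h1 : φ =ᶠ[𝓝 p] fun _ => (0 : ℝ) := by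
    have h2 : {x : ℝ | 1 / 100 < |x|} ∈ 𝓝 p :=
      (isOpen_lt continuous_const continuous_abs).mem_nhds hp
    filter_upwards [h2] with x hx
    exact hz x (le_of_lt hx)
  rw [h1.iteratedDeriv_eq]
  simp

/-- outside of `[-1/2, 1/2]` the argument is large -/
lemma arg_big {r σ s : ℝ} (hr : 5 / 12 ≤ r) (h0 : 0 ≤ σ) (h1 : σ ≤ 1 / 8) (hs : 1 / 2 ≤ |s|) :
    1 / 100 < |r * s + σ| := by
  have h2 : |r * s| = r * |s| := by rw [abs_mul, abs_of_pos (by linarith)]
  have h3 : |r * s| - |σ| ≤ |r * s + σ| := by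
    have := abs_sub_abs_le_abs_sub (r * s) (-σ)
    rw [abs_neg, sub_neg_eq_add] at this
    exact this
  rw [abs_of_nonneg h0, h2] at h3
  nlinarith

/-- repeated integration by parts -/
lemma ibp {φ : ℝ → ℝ} (hφ : Sm φ) (hz : ∀ p, 1 / 100 ≤ |p| → φ p = 0) {r σ : ℝ}
    (hr : 5 / 12 ≤ r) (h0 : 0 ≤ σ) (h1 : σ ≤ 1 / 8) (k : ℕ) : ∀ h : ℝ → ℝ, Sm h →
    ∫ s in (-(1 / 2 : ℝ))..(1 / 2), iteratedDeriv k φ (r * s + σ) * h s =
      (-(1 / r)) ^ k * ∫ s in (-(1 / 2 : ℝ))..(1 / 2), φ (r * s + σ) * iteratedDeriv k h s := by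
  have hr0 : 0 < r := by linarith
  induction k with
  | zero =>
    intro h _
    simp
  | succ k ih =>
    intro h hh
    have hk : ContDiff ℝ ((⊤ : ℕ∞) : WithTop ℕ∞) (iteratedDeriv k φ) := sm_iter hφ k
    have hkd : Differentiable ℝ (iteratedDeriv k φ) := hk.differentiable (by simp)
    have hhd : Differentiable ℝ h := ContDiff.differentiable hh (by simp)
    have hu : ∀ x ∈ uIcc (-(1 / 2 : ℝ)) (1 / 2), HasDerivAt h (deriv h x) x :=
      fun x _ => (hhd x).hasDerivAt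
    have hv : ∀ x ∈ uIcc (-(1 / 2 : ℝ)) (1 / 2),
        HasDerivAt (fun s => iteratedDeriv k φ (r * s + σ) / r)
          (iteratedDeriv (k + 1) φ (r * x + σ)) x := by
      intro x _
      have e1 : HasDerivAt (fun s : ℝ => r * s + σ) r x := by
        have := ((hasDerivAt_id x).const_mul r).add_const σ
        simpa using this
      have e2 : HasDerivAt (iteratedDeriv k φ) (deriv (iteratedDeriv k φ) (r * x + σ))
          (r * x + σ) := (hkd _).hasDerivAt
      have e3 := (e2.comp x e1).div_const r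
      have e4 : deriv (iteratedDeriv k φ) (r * x + σ) * r / r =
          iteratedDeriv (k + 1) φ (r * x + σ) := by
        rw [iteratedDeriv_succ]
        field_simp
      rw [e4] at e3
      exact e3
    have hc1 : Continuous (deriv h) := ContDiff.continuous (sm_deriv hh)
    have hc2 : Continuous fun x => iteratedDeriv (k + 1) φ (r * x + σ) :=
      (ContDiff.continuous (sm_iter hφ (k + 1))).comp (by fun_prop)
    have key := intervalIntegral.integral_mul_deriv_eq_deriv_mul hu hv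
      (hc1.intervalIntegrable _ _) (hc2.intervalIntegrable _ _)
    have z1 : iteratedDeriv k φ (r * (1 / 2) + σ) = 0 :=
      iter_zero hz k (arg_big hr h0 h1 (by rw [abs_of_pos (by norm_num)]))
    have z2 : iteratedDeriv k φ (r * (-(1 / 2)) + σ) = 0 :=
      iter_zero hz k (arg_big hr h0 h1 (by rw [abs_neg, abs_of_pos (by norm_num)]))
    rw [z1, z2] at key
    have e5 : ∫ s in (-(1 / 2 : ℝ))..(1 / 2), iteratedDeriv (k + 1) φ (r * s + σ) * h s =
        ∫ s in (-(1 / 2 : ℝ))..(1 / 2), h s * iteratedDeriv (k + 1) φ (r * s + σ) :=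
      intervalIntegral.integral_congr fun s _ => mul_comm _ _
    have e6 : ∫ s in (-(1 / 2 : ℝ))..(1 / 2), deriv h s * (iteratedDeriv k φ (r * s + σ) / r) =
        (1 / r) * ∫ s in (-(1 / 2 : ℝ))..(1 / 2), iteratedDeriv k φ (r * s + σ) * deriv h s := by
      rw [← intervalIntegral.integral_const_mul]
      refine intervalIntegral.integral_congr fun s _ => ?_
      show deriv h s * (iteratedDeriv k φ (r * s + σ) / r) =
        1 / r * (iteratedDeriv k φ (r * s + σ) * deriv h s)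
      ring
    rw [e5, key, e6, ih (deriv h) (sm_deriv hh)]
    have e7 : ∀ s, iteratedDeriv (k + 1) h s = iteratedDeriv k (deriv h) s := fun s => by
      rw [iteratedDeriv_succ']
    simp only [e7]
    ring

/-- the integral of the dilated bump -/
lemma int_le {φ : ℝ → ℝ} (hφ : Sm φ) (hp : ∀ p, 0 ≤ φ p) (hz : ∀ p, 1 / 100 ≤ |p| → φ p = 0)
    (hi : ∫ p, φ p = 1) {r : ℝ} (hr : 0 < r) (σ : ℝ) :
    Integrable (fun s => φ (r * s + σ)) ∧ ∫ s, φ (r * s + σ) = 1 / r := by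
  have hcs : HasCompactSupport φ := by
    refine HasCompactSupport.intro (isCompact_Icc (a := -(1 / 100 : ℝ)) (b := 1 / 100)) ?_
    intro x hx
    apply hz
    by_contra h
    push Not at h
    exact hx (abs_le.1 h.le)
  have hint : Integrable φ := (ContDiff.continuous hφ).integrable_of_hasCompactSupport hcs
  constructor
  · exact (hint.comp_add_right σ).comp_mul_left' hr.ne'
  · have e1 := Measure.integral_comp_mul_left (fun x => φ (x + σ)) r
    have e2 : ∫ x, φ (x + σ) = ∫ x, φ x := integral_add_right_eq_self φ σ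
    rw [e2, hi, abs_of_pos (inv_pos.2 hr), smul_eq_mul, mul_one] at e1
    rw [e1, one_div]

/-- the linear map `(a, b) ↦ a x + b y` -/
noncomputable def Lxy (x y : E) : (ℝ × ℝ) →L[ℝ] E :=
  (ContinuousLinearMap.fst ℝ ℝ ℝ).smulRight x + (ContinuousLinearMap.snd ℝ ℝ ℝ).smulRight y

lemma Lxy_apply (x y : E) (p : ℝ × ℝ) : Lxy x y p = p.1 • x + p.2 • y := rfl

lemma Lxy_norm {x y : E} (hx : ‖x‖ ≤ 1) (hy : ‖y‖ ≤ 1) : ‖Lxy x y‖ ≤ 2 := by
  refine ContinuousLinearMap.opNorm_le_bound _ (by norm_num) fun p => ?_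
  rw [Lxy_apply]
  have h1 : ‖p.1‖ ≤ ‖p‖ := norm_fst_le p
  have h2 : ‖p.2‖ ≤ ‖p‖ := norm_snd_le p
  calc ‖p.1 • x + p.2 • y‖ ≤ ‖p.1 • x‖ + ‖p.2 • y‖ := norm_add_le _ _
    _ = ‖p.1‖ * ‖x‖ + ‖p.2‖ * ‖y‖ := by rw [norm_smul, norm_smul]
    _ ≤ ‖p.1‖ * 1 + ‖p.2‖ * 1 := by gcongr
    _ ≤ 2 * ‖p‖ := by linarith

/-- bound for the derivatives of the functions on the curves -/
lemma bound (q : ℝ → ℝ) (hq : Sm q) (n : ℕ) (B : ℝ) : ∃ C : ℝ, ∀ b : E → ℝ, SmE b →
    (∀ j ≤ n, ∀ x : E, ‖x‖ ≤ 1 → ‖iteratedFDeriv ℝ j b x‖ ≤ B) → ∀ x y : E, ‖x‖ ≤ 1 → ‖y‖ ≤ 1 →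
    ∀ s : ℝ, |s| ≤ 1 / 2 → ‖s • x + q s • y‖ ≤ 1 →
      |iteratedDeriv n (fun s => (1 - s ^ 2) * b (s • x + q s • y)) s| ≤ C := by
  -- constants
  have hγ : ContDiff ℝ ((⊤ : ℕ∞) : WithTop ℕ∞) (fun s : ℝ => (s, q s)) :=
    contDiff_id.prodMk hq
  have ha : ContDiff ℝ ((⊤ : ℕ∞) : WithTop ℕ∞) (fun s : ℝ => 1 - s ^ 2) :=
    contDiff_const.sub (contDiff_id.pow 2)
  have hN : ∀ i : ℕ, (i : WithTop ℕ∞) ≤ ((⊤ : ℕ∞) : WithTop ℕ∞) := fun i => by
    exact_mod_cast (le_top : (i : ℕ∞) ≤ ⊤)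
  have hM : ∀ i : ℕ, ∃ M : ℝ, ∀ s ∈ Icc (-(1 / 2) : ℝ) (1 / 2),
      ‖iteratedFDeriv ℝ i (fun s : ℝ => (s, q s)) s‖ ≤ M := fun i =>
    isCompact_Icc.exists_bound_of_continuousOn
      (ContDiff.continuous_iteratedFDeriv (hN i) hγ).continuousOn
  have hM' : ∀ i : ℕ, ∃ M : ℝ, ∀ s ∈ Icc (-(1 / 2) : ℝ) (1 / 2),
      ‖iteratedFDeriv ℝ i (fun s : ℝ => 1 - s ^ 2) s‖ ≤ M := fun i =>
    isCompact_Icc.exists_bound_of_continuousOn
      (ContDiff.continuous_iteratedFDeriv (hN i) ha).continuousOn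
  choose M hM using hM
  choose M' hM' using hM'
  obtain ⟨D, hD⟩ : ∃ D : ℝ, D = 1 + 2 * ∑ i ∈ Finset.range (n + 1), |M i| := ⟨_, rfl⟩
  have hD1 : 1 ≤ D := by
    have : 0 ≤ ∑ i ∈ Finset.range (n + 1), |M i| := Finset.sum_nonneg fun i _ => abs_nonneg _
    rw [hD]
    linarith
  refine ⟨∑ i ∈ Finset.range (n + 1), (n.choose i : ℝ) * M' i *
    (((n - i).factorial : ℝ) * B * D ^ (n - i)), ?_⟩
  intro b hb hbB x y hx hy s hs hsn
  have hsI : s ∈ Icc (-(1 / 2) : ℝ) (1 / 2) := abs_le.1 hs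
  have hcomp : ContDiff ℝ ((⊤ : ℕ∞) : WithTop ℕ∞) (fun s : ℝ => s • x + q s • y) := by
    have h1 : (fun s : ℝ => s • x + q s • y) = Lxy x y ∘ fun s : ℝ => (s, q s) := rfl
    rw [h1]
    exact (Lxy x y).contDiff.comp hγ
  have hbc : ContDiff ℝ ((⊤ : ℕ∞) : WithTop ℕ∞) (b ∘ fun s : ℝ => s • x + q s • y) :=
    ContDiff.comp hb hcomp
  have hder : ∀ i ≤ n, ‖iteratedFDeriv ℝ i (b ∘ fun s : ℝ => s • x + q s • y) s‖ ≤
      (i.factorial : ℝ) * B * D ^ i := by
    intro i hi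
    refine norm_iteratedFDeriv_comp_le hb hcomp (hN i) s (fun j hj => hbB j (hj.trans hi) _ hsn) ?_
    intro j hj1 hj
    have h1 : (fun s : ℝ => s • x + q s • y) = Lxy x y ∘ fun s : ℝ => (s, q s) := rfl
    rw [h1]
    have h2 := (Lxy x y).norm_iteratedFDeriv_comp_left (f := fun s : ℝ => (s, q s)) (x := s)
      hγ.contDiffAt (hN j)
    refine h2.trans ?_
    have h3 : ‖iteratedFDeriv ℝ j (fun s : ℝ => (s, q s)) s‖ ≤
        ∑ i ∈ Finset.range (n + 1), |M i| :=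
      ((hM j s hsI).trans (le_abs_self _)).trans
        (Finset.single_le_sum (f := fun i => |M i|) (fun i _ => abs_nonneg _)
          (Finset.mem_range.2 (by omega)))
    calc ‖Lxy x y‖ * ‖iteratedFDeriv ℝ j (fun s : ℝ => (s, q s)) s‖
        ≤ 2 * ∑ i ∈ Finset.range (n + 1), |M i| :=
          mul_le_mul (Lxy_norm hx hy) h3 (norm_nonneg _) (by norm_num)
      _ ≤ D := by rw [hD]; linarith
      _ ≤ D ^ j := le_self_pow₀ hD1 (by omega)
  have h1 : |iteratedDeriv n (fun s => (1 - s ^ 2) * b (s • x + q s • y)) s| =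
      ‖iteratedFDeriv ℝ n (fun s => (1 - s ^ 2) * (b ∘ fun s : ℝ => s • x + q s • y) s) s‖ := by
    rw [norm_iteratedFDeriv_eq_norm_iteratedDeriv]
    rfl
  rw [h1]
  refine (norm_iteratedFDeriv_mul_le ha hbc s (hN n)).trans ?_
  refine Finset.sum_le_sum fun i hi => ?_
  have h2 := hM' i s hsI
  have h3 := hder (n - i) (by omega)
  have h4 : (0 : ℝ) ≤ M' i := (norm_nonneg _).trans h2
  refine mul_le_mul (mul_le_mul_of_nonneg_left h2 (Nat.cast_nonneg _)) h3 (norm_nonneg _) ?_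
  positivity

/-- an isometry onto the orthogonal complement of a unit vector -/
lemma ex_O (e : S) : ∃ O : EuclideanSpace ℝ (Fin 4) →ₗᵢ[ℝ] E, ∀ v, inner ℝ (O v) (e : E) = 0 := by
  have he : (e : E) ≠ 0 := by
    intro h
    have h1 : ‖(e : E)‖ = 1 := by
      have := e.2
      rwa [mem_sphere_zero_iff_norm] at this
    rw [h, norm_zero] at h1
    exact zero_ne_one h1
  haveI : Fact (Module.finrank ℝ E = 4 + 1) := ⟨by simp⟩
  let bs := OrthonormalBasis.fromOrthogonalSpanSingleton (𝕜 := ℝ) 4 he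
  refine ⟨(Submodule.subtypeₗᵢ _).comp bs.repr.symm.toLinearIsometry, fun v => ?_⟩
  have h1 : ((bs.repr.symm v : (ℝ ∙ (e : E))ᗮ) : E) ∈ (ℝ ∙ (e : E))ᗮ := (bs.repr.symm v).2
  rw [real_inner_comm]
  exact (Submodule.mem_orthogonal_singleton_iff_inner_right.1 h1)

/-- the estimate on one curve -/
lemma curve {φ : ℝ → ℝ} (hφ : Sm φ) (hp : ∀ p, 0 ≤ φ p) (hz : ∀ p, 1 / 100 ≤ |p| → φ p = 0)
    (hi : ∫ p, φ p = 1) {r σ : ℝ} (hr : 5 / 12 ≤ r) (h0 : 0 ≤ σ) (h1 : σ ≤ 1 / 8) (n : ℕ)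
    {h : ℝ → ℝ} (hh : Sm h) {C : ℝ} (hC : ∀ s, |s| ≤ 1 / 2 → |iteratedDeriv n h s| ≤ C) :
    |∫ s in (-(1 / 2 : ℝ))..(1 / 2), iteratedDeriv n φ (r * s + σ) * h s| ≤ C / r ^ (n + 1) := by
  have hr0 : 0 < r := by linarith
  obtain ⟨i1, i2⟩ := int_le hφ hp hz hi hr0 σ
  have hC0 : 0 ≤ C := (abs_nonneg _).trans (hC 0 (by norm_num))
  rw [ibp hφ hz hr h0 h1 n h hh, abs_mul, abs_pow, abs_neg, abs_of_pos (by positivity)]
  have e1 : |∫ s in (-(1 / 2 : ℝ))..(1 / 2), φ (r * s + σ) * iteratedDeriv n h s| ≤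
      ∫ s in (-(1 / 2 : ℝ))..(1 / 2), φ (r * s + σ) * C := by
    have e2 := intervalIntegral.norm_integral_le_of_norm_le (μ := volume)
      (a := -(1 / 2 : ℝ)) (b := 1 / 2)
      (f := fun s => φ (r * s + σ) * iteratedDeriv n h s) (g := fun s => φ (r * s + σ) * C)
      (by norm_num) (Eventually.of_forall fun s hs => by
        rw [norm_mul, Real.norm_of_nonneg (hp _), Real.norm_eq_abs]
        exact mul_le_mul_of_nonneg_left (hC s (abs_le.2 ⟨by linarith [hs.1], hs.2⟩)) (hp _))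
      ((i1.mul_const C).intervalIntegrable)
    exact e2
  have e3 : ∫ s in (-(1 / 2 : ℝ))..(1 / 2), φ (r * s + σ) * C ≤ C / r := by
    rw [intervalIntegral.integral_of_le (by norm_num)]
    have e4 : ∫ s in Ioc (-(1 / 2 : ℝ)) (1 / 2), φ (r * s + σ) * C ≤ ∫ s, φ (r * s + σ) * C :=
      setIntegral_le_integral (i1.mul_const C)
        (Eventually.of_forall fun s => mul_nonneg (hp _) hC0)
    have e5 : ∫ s, φ (r * s + σ) * C = 1 / r * C := by rw [integral_mul_const, i2]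
    rw [e5] at e4
    calc _ ≤ 1 / r * C := e4
      _ = C / r := by ring
  calc (1 / r) ^ n * |∫ s in (-(1 / 2 : ℝ))..(1 / 2), φ (r * s + σ) * iteratedDeriv n h s|
      ≤ (1 / r) ^ n * (C / r) := mul_le_mul_of_nonneg_left (e1.trans e3) (by positivity)
    _ = C / r ^ (n + 1) := by
      rw [pow_succ, one_div, inv_pow]
      field_simp

end NFKx

open NFKx in
theorem thm_NFK (hSL : St_SL) : St_NFK := by
  intro n B
  obtain ⟨q, hq, hq2⟩ := ex_q
  obtain ⟨C₁, hC₁⟩ := bound q hq n B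
  obtain ⟨ν, hν⟩ : ∃ ν : Measure (Metric.sphere (0 : EuclideanSpace ℝ (Fin 4)) 1),
    ν = (volume : Measure (EuclideanSpace ℝ (Fin 4))).toSphere := ⟨_, rfl⟩
  haveI : IsFiniteMeasure ν := by rw [hν]; infer_instance
  refine ⟨C₁ * ν.real univ, ?_⟩
  intro b hb hbB φ hφ hφ0 hφz hφi z σ hz hσ0 hσ1
  obtain ⟨r, hr⟩ : ∃ r : ℝ, r = ‖z‖ := ⟨_, rfl⟩
  rw [← hr] at hz ⊢
  have hr0 : 0 < r := by linarith
  have hzn : ‖(1 / r) • z‖ = 1 := by
    rw [norm_smul, Real.norm_of_nonneg (by positivity), ← hr]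
    field_simp
  obtain ⟨e, he⟩ : ∃ e : S, (e : E) = (1 / r) • z :=
    ⟨⟨(1 / r) • z, by rw [mem_sphere_zero_iff_norm]; exact hzn⟩, rfl⟩
  have hen : ‖(e : E)‖ = 1 := by rw [he]; exact hzn
  have hze : z = r • (e : E) := by
    rw [he, smul_smul]
    rw [mul_one_div_cancel hr0.ne', one_smul]
  obtain ⟨O, hO⟩ := ex_O e
  have hin : ∀ (s t : ℝ) (v : EuclideanSpace ℝ (Fin 4)),
      inner ℝ z (s • (e : E) + t • O v) = r * s := by
    intro s t v
    have h1 : inner ℝ (e : E) (O v) = 0 := by rw [real_inner_comm]; exact hO v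
    rw [hze, inner_smul_left, inner_add_right, inner_smul_right, inner_smul_right, h1,
      real_inner_self_eq_norm_sq, hen]
    simp
  have hφc : Continuous (iteratedDeriv n φ) := ContDiff.continuous (sm_iter hφ n)
  have hbc : Continuous b := ContDiff.continuous hb
  have hqc : Continuous q := ContDiff.continuous hq
  have hcont : Continuous (fun x : E => b x * iteratedDeriv n φ (inner ℝ z x + σ)) :=
    hbc.mul (hφc.comp (by fun_prop))
  have h1 := hSL e O hO (fun x => b x * iteratedDeriv n φ (inner ℝ z x + σ)) hcont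
  rw [h1, ← hν]
  have hOn : ∀ v : Metric.sphere (0 : EuclideanSpace ℝ (Fin 4)) 1, ‖O v‖ = 1 := by
    intro v
    rw [O.norm_map]
    have := v.2
    rwa [mem_sphere_zero_iff_norm] at this
  have hnorm : ∀ (s : ℝ) (v : Metric.sphere (0 : EuclideanSpace ℝ (Fin 4)) 1), |s| ≤ 1 / 2 →
      ‖s • (e : E) + q s • O v‖ ≤ 1 := by
    intro s v hs
    have h2 : ‖s • (e : E) + q s • O v‖ ^ 2 = 1 := by
      rw [← real_inner_self_eq_norm_sq, inner_add_left, inner_add_right, inner_add_right,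
        inner_smul_left, inner_smul_right, inner_smul_left, inner_smul_right, inner_smul_left,
        inner_smul_right, inner_smul_left, inner_smul_right, hO v, real_inner_comm (O v) (e : E),
        hO v, real_inner_self_eq_norm_sq, real_inner_self_eq_norm_sq, hen, hOn v, hq2 s hs]
      have h3 : 0 ≤ 1 - s ^ 2 := by
        rw [← sq_abs]
        have := abs_nonneg s
        nlinarith
      have h4 := Real.mul_self_sqrt h3
      simp only [conj_trivial]
      nlinarith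
    nlinarith [norm_nonneg (s • (e : E) + q s • O v)]
  -- the integrand
  obtain ⟨G, hG⟩ : ∃ G : ℝ → Metric.sphere (0 : EuclideanSpace ℝ (Fin 4)) 1 → ℝ,
      G = fun (s : ℝ) (v : Metric.sphere (0 : EuclideanSpace ℝ (Fin 4)) 1) =>
        iteratedDeriv n φ (r * s + σ) * ((1 - s ^ 2) * b (s • (e : E) + q s • O v)) := ⟨_, rfl⟩
  have h2 : ∫ s in (-1 : ℝ)..1, (1 - s ^ 2) *
      ∫ v : Metric.sphere (0 : EuclideanSpace ℝ (Fin 4)) 1,
        b (s • (e : E) + √(1 - s ^ 2) • O v) *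
          iteratedDeriv n φ (inner ℝ z (s • (e : E) + √(1 - s ^ 2) • O v) + σ) ∂ν =
      ∫ s in Ioc (-(1 / 2) : ℝ) (1 / 2), ∫ v, G s v ∂ν := by
    rw [intervalIntegral.integral_of_le (by norm_num)]
    have h3 : Ioc (-(1 / 2) : ℝ) (1 / 2) ⊆ Ioc (-1) 1 :=
      Ioc_subset_Ioc (by norm_num) (by norm_num)
    rw [setIntegral_eq_of_subset_of_forall_sdiff_eq_zero measurableSet_Ioc h3]
    · refine setIntegral_congr_fun measurableSet_Ioc fun s hs => ?_
      have hs' : |s| ≤ 1 / 2 := abs_le.2 ⟨hs.1.le, hs.2⟩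
      show (1 - s ^ 2) * ∫ v, _ ∂ν = _
      rw [← integral_const_mul]
      refine integral_congr_ae (Eventually.of_forall fun v => ?_)
      show (1 - s ^ 2) * (b (s • (e : E) + √(1 - s ^ 2) • O v) *
          iteratedDeriv n φ (inner ℝ z (s • (e : E) + √(1 - s ^ 2) • O v) + σ)) = G s v
      rw [hin, hG]
      show _ = iteratedDeriv n φ (r * s + σ) * ((1 - s ^ 2) * b (s • (e : E) + q s • O v))
      rw [hq2 s hs']
      ring
    · intro s hs
      have hs' : 1 / 2 ≤ |s| := by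
        by_contra h4
        push Not at h4
        have h5 := abs_lt.1 h4
        exact hs.2 ⟨h5.1, h5.2.le⟩
      have h6 : ∀ v : Metric.sphere (0 : EuclideanSpace ℝ (Fin 4)) 1,
          b (s • (e : E) + √(1 - s ^ 2) • O v) *
          iteratedDeriv n φ (inner ℝ z (s • (e : E) + √(1 - s ^ 2) • O v) + σ) = 0 := by
        intro v
        rw [hin, iter_zero hφz n (arg_big hz hσ0 hσ1 hs'), mul_zero]
      simp only [h6, integral_zero, mul_zero]
  rw [h2]
  have hGc : Continuous (Function.uncurry G) := by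
    rw [hG]
    have e1 : Continuous fun p : ℝ × Metric.sphere (0 : EuclideanSpace ℝ (Fin 4)) 1 =>
        p.1 • (e : E) + q p.1 • O p.2 := by
      refine (continuous_fst.smul continuous_const).add
        ((hqc.comp continuous_fst).smul (O.continuous.comp ?_))
      exact continuous_subtype_val.comp continuous_snd
    exact (hφc.comp (by fun_prop)).mul
      ((continuous_const.sub (continuous_fst.pow 2)).mul (hbc.comp e1))
  obtain ⟨Mφ, hMφ⟩ : ∃ M : ℝ, ∀ s ∈ Icc (-(1 / 2) : ℝ) (1 / 2),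
      ‖iteratedDeriv n φ (r * s + σ)‖ ≤ M :=
    isCompact_Icc.exists_bound_of_continuousOn (hφc.comp (by fun_prop)).continuousOn
  have hB0 : 0 ≤ B := (norm_nonneg _).trans (hbB 0 (Nat.zero_le _) 0 (by simp))
  have hMφ0 : 0 ≤ Mφ := (norm_nonneg _).trans (hMφ 0 (by constructor <;> norm_num))
  have hGb : ∀ s v, ‖G s v‖ ≤ Mφ * (1 * B) := by
    intro s v
    rw [hG]
    show ‖iteratedDeriv n φ (r * s + σ) * ((1 - s ^ 2) * b (s • (e : E) + q s • O v))‖ ≤ _
    by_cases hs : |s| ≤ 1 / 2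
    · rw [norm_mul, norm_mul]
      have h3 : ‖b (s • (e : E) + q s • O v)‖ ≤ B := by
        have := hbB 0 (Nat.zero_le _) _ (hnorm s v hs)
        rwa [norm_iteratedFDeriv_zero] at this
      have h4 : ‖1 - s ^ 2‖ ≤ 1 := by
        rw [Real.norm_eq_abs, abs_le]
        have h5 := abs_nonneg s
        have h6 : s ^ 2 ≤ 1 := by
          rw [← sq_abs]
          nlinarith
        constructor <;> nlinarith [sq_nonneg s]
      exact mul_le_mul (hMφ s (abs_le.1 hs)) (mul_le_mul h4 h3 (norm_nonneg _) zero_le_one)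
        (by positivity) hMφ0
    · rw [iter_zero hφz n (arg_big hz hσ0 hσ1 (not_le.1 hs).le), zero_mul, norm_zero]
      positivity
  have hint : Integrable (Function.uncurry G)
      ((volume.restrict (Ioc (-(1 / 2) : ℝ) (1 / 2))).prod ν) :=
    Integrable.of_bound hGc.aestronglyMeasurable (Mφ * (1 * B))
      (Eventually.of_forall fun p => hGb p.1 p.2)
  rw [integral_integral_swap hint]
  have hcur : ∀ v, ‖∫ s in Ioc (-(1 / 2) : ℝ) (1 / 2), G s v‖ ≤ C₁ / r ^ (n + 1) := by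
    intro v
    have hO1 : ‖O v‖ ≤ 1 := (hOn v).le
    have hsm : Sm fun s : ℝ => (1 - s ^ 2) * b (s • (e : E) + q s • O v) := by
      have e1 : ContDiff ℝ ((⊤ : ℕ∞) : WithTop ℕ∞) (fun s : ℝ => s • (e : E) + q s • O v) :=
        (contDiff_id.smul contDiff_const).add (ContDiff.smul hq contDiff_const)
      exact (contDiff_const.sub (contDiff_id.pow 2)).mul (ContDiff.comp hb e1)
    have := curve hφ hφ0 hφz hφi hz hσ0 hσ1 n hsm (C := C₁) (fun s hs =>
      hC₁ b hb hbB (e : E) (O v) hen.le hO1 s hs (hnorm s v hs))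
    rw [intervalIntegral.integral_of_le (by norm_num)] at this
    rw [Real.norm_eq_abs, hG]
    exact this
  have h5 := norm_integral_le_of_norm_le_const (μ := ν) (Eventually.of_forall hcur)
  rw [Real.norm_eq_abs] at h5
  refine h5.trans (le_of_eq ?_)
  ring

end Pool.Agent.QWE
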