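import Pool.Agent.QWE.ExB
import Pool.Agent.QWE.StB

set_option autoImplicit false

/-!
# QWE / NFSP: finite speed of propagation
-/

open MeasureTheory Filter Topology Set
open scoped ENNReal NNReal RealInnerProductSpace Pointwise

namespace Pool.Agent.QWE

namespace NFSPx

open ExBx

theorem van_mono {Ω Ω' : Set E} (h : Ω ⊆ Ω') {k : K} (hk : Van Ω' k) : Van Ω k := by
  rw [van_iff] at hk ⊢
  exact fun φ h1 h2 => hk φ h1 (h2.trans h)

theorem van_sub {Ω : Set E} {k k' : K} (h : Van Ω k) (h' : Van Ω k') : Van Ω (k - k') :=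
  Submodule.sub_mem _ h h'

theorem isClosed_van (Ω : Set E) : IsClosed {k : K | Van Ω k} :=
  Submodule.isClosed_orthogonal (TS Ω)

theorem isOpen_shr (Ω : Set E) (a : ℝ) : IsOpen (shr Ω a) := by
  rw [Metric.isOpen_iff]
  rintro x ⟨b, hb, hx⟩
  refine ⟨(b - a) / 2, by linarith, fun y hy => ⟨(a + b) / 2, by linarith, fun z hz => hx ?_⟩⟩
  rw [Metric.mem_ball] at hy hz ⊢
  have := dist_triangle z y x
  linarith

theorem shr_anti {Ω : Set E} {a b : ℝ} (h : a ≤ b) : shr Ω b ⊆ shr Ω a := by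
  rintro x ⟨c, hc, hx⟩
  exact ⟨c, by linarith, hx⟩

theorem shr_subset {Ω : Set E} {a : ℝ} (h : 0 ≤ a) : shr Ω a ⊆ Ω := by
  rintro x ⟨c, hc, hx⟩
  exact hx (Metric.mem_ball_self (by linarith))

theorem shr_shr {Ω : Set E} {a b : ℝ} : shr Ω (a + b) ⊆ shr (shr Ω a) b := by
  rintro x ⟨c, hc, hx⟩
  refine ⟨b + (c - a - b) / 2, by linarith, fun y hy =>
    ⟨a + (c - a - b) / 2, by linarith, fun z hz => hx ?_⟩⟩
  rw [Metric.mem_ball] at hy hz ⊢
  have := dist_triangle z y x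
  linarith

theorem sub_eq_add_smul (a b : K) : a - b = a + (-1 : ℝ) • b := by
  rw [neg_smul, one_smul, sub_eq_add_neg]

theorem van_NL (hB : St_ExB) (hL : St_Lin) (hN : St_NLb) {Ω : Set E} (hΩ : IsOpen Ω) {κ κ' : K}
    (h : Van Ω (κ - κ')) (h1 : sn κ < ⊤) (h2 : sn κ' < ⊤) : Van Ω (NL κ - NL κ') := by
  have hf := hB.2.2.2.2.2.2.1
  rw [hf Ω _ hΩ] at h ⊢
  obtain ⟨-, -, -, u1, v1, -⟩ := hN.2 κ h1
  obtain ⟨-, -, -, u2, v2, -⟩ := hN.2 κ' h2
  rw [sub_eq_add_smul] at h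
  rw [sub_eq_add_smul (NL κ)]
  obtain ⟨lu, -⟩ := hL.1 (-1) κ κ'
  obtain ⟨lu', lv', -⟩ := hL.1 (-1) (NL κ) (NL κ')
  constructor
  · filter_upwards [lu', u1, u2] with x a b c _
    rw [a, b, c]; simp
  · filter_upwards [lv', v1, v2, h.1, lu] with x a b c d e hx
    rw [a, b, c]
    have h3 := d hx
    rw [e] at h3
    have h4 : U κ x = U κ' x := by linarith
    rw [h4]; ring

theorem tau_cont (hG : St_Grp1) : Continuous fun q : ℝ × K => tau q.1 q.2 := by
  refine continuous_prod_of_continuous_lipschitzWith' _ 1 (fun a => ?_) (fun b => ?_)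
  · exact (tau a).lipschitz
  · exact hG.2.2.2.2.2.2.2.1 b

theorem int_tau (hG : St_Grp1) {G : ℝ → K} {a b : ℝ} (hab : a ≤ b) (c : ℝ)
    (hI : IntegrableOn G (Icc a b) volume) :
    IntervalIntegrable (fun r => tau (c - r) (G r)) volume a b := by
  rw [intervalIntegrable_iff_integrableOn_Icc_of_le hab]
  have hm : AEStronglyMeasurable (fun r => tau (c - r) (G r)) (volume.restrict (Icc a b)) := by
    have h0 : AEStronglyMeasurable (fun r : ℝ => c - r) (volume.restrict (Icc a b)) :=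
      (continuous_const.sub continuous_id).aestronglyMeasurable
    have h1 : AEStronglyMeasurable G (volume.restrict (Icc a b)) := hI.aestronglyMeasurable
    have h2 := h0.prodMk h1
    have h3 := (tau_cont hG).comp_aestronglyMeasurable h2
    exact h3
  refine Integrable.mono' hI.norm hm (Eventually.of_forall fun r => ?_)
  rw [LinearIsometry.norm_map]

theorem int_NL (hN : St_NLb) (hM : St_Meas) {κ : ℝ → K} {a b : ℝ} (hc : ContinuousOn κ (Icc a b))
    (hs : SN (Icc a b) κ < ⊤) :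
    IntegrableOn (fun r => NL (κ r)) (Icc a b) volume ∧
      ∀ᵐ r ∂(volume.restrict (Icc a b)), sn (κ r) < ⊤ := by
  have hm : AEStronglyMeasurable κ (volume.restrict (Icc a b)) :=
    hc.aestronglyMeasurable measurableSet_Icc
  obtain ⟨m1, m2⟩ := hM κ (Icc a b) measurableSet_Icc hm
  have m1' : AEMeasurable (fun r => sn (κ r)) (volume.restrict (Icc a b)) := by
    have := m1 20 univ (by norm_num) MeasurableSet.univ
    simp only [indicator_univ] at this
    exact this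
  have hfin : ∀ᵐ r ∂(volume.restrict (Icc a b)), sn (κ r) < ⊤ := by
    have h := ae_lt_top' (m1'.pow_const 4) hs.ne
    filter_upwards [h] with r hr
    by_contra hcon
    rw [not_lt, top_le_iff] at hcon
    rw [hcon] at hr
    simp at hr
  refine ⟨⟨m2 hfin, ?_⟩, hfin⟩
  obtain ⟨⟨C, hC, hb, -⟩, -⟩ := hN
  obtain ⟨B, hB⟩ := isCompact_Icc.exists_bound_of_continuousOn hc
  rw [hasFiniteIntegral_iff_enorm]
  calc ∫⁻ r in Icc a b, ‖NL (κ r)‖ₑ
      ≤ ∫⁻ r in Icc a b, ENNReal.ofReal C * ENNReal.ofReal B * sn (κ r) ^ 4 := by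
        refine lintegral_mono_ae ?_
        filter_upwards [ae_restrict_mem measurableSet_Icc] with r hr
        refine (hb (κ r)).trans ?_
        have h1 : ‖κ r‖ₑ ≤ ENNReal.ofReal B := by
          rw [← ofReal_norm]
          exact ENNReal.ofReal_le_ofReal (hB r hr)
        calc ENNReal.ofReal C * sn (κ r) ^ 4 * ‖κ r‖ₑ
            ≤ ENNReal.ofReal C * sn (κ r) ^ 4 * ENNReal.ofReal B := by gcongr
          _ = ENNReal.ofReal C * ENNReal.ofReal B * sn (κ r) ^ 4 := by ring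
    _ = ENNReal.ofReal C * ENNReal.ofReal B * SN (Icc a b) κ := by
        rw [lintegral_const_mul'' _ (m1'.pow_const 4)]
        rfl
    _ < ⊤ := ENNReal.mul_lt_top (ENNReal.mul_lt_top ENNReal.ofReal_lt_top ENNReal.ofReal_lt_top) hs

theorem free_fin (hS : St_Str) (k0 : K) (x : ℝ) :
    ∫⁻ t, sn (tau (t - x) k0) ^ 4 ≠ ⊤ := by
  obtain ⟨C, hC, h⟩ := hS
  have h1 := (h k0).1
  have h2 : ∫⁻ t, sn (tau (t - x) k0) ^ 4 = ∫⁻ t, sn (tau t k0) ^ 4 :=
    lintegral_sub_right_eq_self (fun t => sn (tau t k0) ^ 4) x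
  rw [h2]
  refine ne_top_of_le_ne_top ?_ h1
  exact ENNReal.pow_ne_top (ENNReal.mul_ne_top ENNReal.ofReal_ne_top enorm_ne_top)

theorem free_small (hS : St_Str) (k0 : K) (x : ℝ) {e : ℝ≥0∞} (he : 0 < e) :
    ∀ᶠ δ in 𝓝[>] (0 : ℝ), SN (Icc x (x + δ)) (fun t => tau (t - x) k0) ≤ e := by
  have h1 : Tendsto ((volume : Measure ℝ) ∘ fun δ => Icc x (x + δ)) (𝓝[>] (0 : ℝ)) (𝓝 0) := by
    have e1 : ((volume : Measure ℝ) ∘ fun δ => Icc x (x + δ)) = fun δ => ENNReal.ofReal δ := by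
      funext δ
      simp [Real.volume_Icc]
    rw [e1]
    have : Tendsto (fun δ : ℝ => ENNReal.ofReal δ) (𝓝 0) (𝓝 (ENNReal.ofReal 0)) :=
      (ENNReal.continuous_ofReal.tendsto 0)
    rw [ENNReal.ofReal_zero] at this
    exact this.mono_left nhdsWithin_le_nhds
  have h2 := tendsto_setLIntegral_zero (free_fin hS k0 x) h1
  exact (h2.eventually (gt_mem_nhds he)).mono fun δ hδ => le_of_lt hδ

theorem pic_bd (hG : St_Grp1) (hS : St_Str) (hN : St_NLb) (hM : St_Meas) (hD : St_DuhI)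
    (hT : St_SNt) (k0 : K) (x b : ℝ) (hxb : x ≤ b) (n : ℕ) :
    ContinuousOn (PicN k0 x n) (Icc x b) ∧ SN (Icc x b) (PicN k0 x n) < ⊤ := by
  have hfc : Continuous fun t : ℝ => tau (t - x) k0 :=
    (tau_cont hG).comp ((by fun_prop : Continuous fun t : ℝ => t - x).prodMk continuous_const)
  have hfs : SN (Icc x b) (fun t => tau (t - x) k0) < ⊤ := by
    refine lt_of_le_of_lt (setLIntegral_le_lintegral _ _) (lt_top_iff_ne_top.2 (free_fin hS k0 x))
  induction n with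
  | zero => exact ⟨hfc.continuousOn, hfs⟩
  | succ n ih =>
    obtain ⟨hc, hs⟩ := ih
    obtain ⟨hI, -⟩ := int_NL hN hM hc hs
    obtain ⟨C, hC, hD⟩ := hD
    obtain ⟨d1, -, d3, -⟩ := hD x b x (fun r => NL (PicN k0 x n r)) le_rfl hxb hI
    have hc' : ContinuousOn (PicN k0 x (n + 1)) (Icc x b) := hfc.continuousOn.sub d1
    refine ⟨hc', ?_⟩
    have hm1 : AEStronglyMeasurable (fun t : ℝ => tau (t - x) k0) (volume.restrict (Icc x b)) :=
      hfc.aestronglyMeasurable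
    have hm2 : AEStronglyMeasurable (fun t : ℝ => -∫ r in x..t, tau (t - r) (NL (PicN k0 x n r)))
        (volume.restrict (Icc x b)) := (d1.aestronglyMeasurable measurableSet_Icc).neg
    have h3 := (hT _ _ (Icc x b) measurableSet_Icc hm1 hm2).1
    have h4 := (hT _ _ (Icc x b) measurableSet_Icc (d1.aestronglyMeasurable measurableSet_Icc)
      hm1).2
    rw [h4] at h3
    have h5 : SN (Icc x b) (fun t => ∫ r in x..t, tau (t - r) (NL (PicN k0 x n r))) < ⊤ :=
      lt_of_le_of_lt d3 (ENNReal.pow_lt_top ENNReal.ofReal_lt_top)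
    have h6 : (SN (Icc x b) (PicN k0 x (n + 1))) ^ (1 / 4 : ℝ) < ⊤ := by
      refine lt_of_le_of_lt (le_trans (le_of_eq ?_) h3) (ENNReal.add_lt_top.2
        ⟨ENNReal.rpow_lt_top_of_nonneg (by norm_num) hfs.ne,
          ENNReal.rpow_lt_top_of_nonneg (by norm_num) h5.ne⟩)
      congr 2
      funext t
      rw [← sub_eq_add_neg]
      rfl
    by_contra hcon
    rw [not_lt, top_le_iff] at hcon
    rw [hcon, ENNReal.top_rpow_of_pos (by norm_num)] at h6
    exact lt_irrefl _ h6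

theorem pic_van (hB : St_ExB) (hL : St_Lin) (hG : St_Grp1) (hF : St_FSP) (hS : St_Str)
    (hN : St_NLb) (hM : St_Meas) (hD : St_DuhI) (hT : St_SNt) (k0 k0' : K) (x b : ℝ) (hxb : x ≤ b)
    {Ω : Set E} (hΩ : IsOpen Ω) (hV : Van Ω (k0 - k0')) (n : ℕ) :
    ∀ t ∈ Icc x b, Van (shr Ω (t - x)) (PicN k0 x n t - PicN k0' x n t) := by
  have hfree : ∀ t ∈ Icc x b, Van (shr Ω (t - x)) (tau (t - x) k0 - tau (t - x) k0') := by
    intro t ht
    rw [← map_sub]
    have h1 := (hF Ω (t - x) (k0 - k0') hΩ).1 hV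
    rwa [abs_of_nonneg (by linarith [ht.1])] at h1
  induction n with
  | zero => exact hfree
  | succ n ih =>
    intro t ht
    obtain ⟨c1, s1⟩ := pic_bd hG hS hN hM hD hT k0 x b hxb n
    obtain ⟨c2, s2⟩ := pic_bd hG hS hN hM hD hT k0' x b hxb n
    obtain ⟨i1, f1⟩ := int_NL hN hM c1 s1
    obtain ⟨i2, f2⟩ := int_NL hN hM c2 s2
    have hsub : Icc x t ⊆ Icc x b := Icc_subset_Icc_right ht.2
    have j1 := int_tau hG ht.1 t (i1.mono_set hsub)
    have j2 := int_tau hG ht.1 t (i2.mono_set hsub)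
    have e1 : PicN k0 x (n + 1) t - PicN k0' x (n + 1) t =
        (tau (t - x) k0 - tau (t - x) k0') -
          ∫ r in x..t, (tau (t - r) (NL (PicN k0 x n r)) - tau (t - r) (NL (PicN k0' x n r))) := by
      rw [intervalIntegral.integral_sub j1 j2]
      show (tau (t - x) k0 - ∫ r in x..t, tau (t - r) (NL (PicN k0 x n r))) -
        (tau (t - x) k0' - ∫ r in x..t, tau (t - r) (NL (PicN k0' x n r))) = _
      abel
    rw [e1]
    refine van_sub (hfree t ht) ?_
    rw [van_iff_pr, ← ContinuousLinearMap.intervalIntegral_comp_comm _ (j1.sub j2)]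
    apply intervalIntegral.integral_zero_ae
    have g1 := (ae_restrict_iff' measurableSet_Icc).1 f1
    have g2 := (ae_restrict_iff' measurableSet_Icc).1 f2
    filter_upwards [g1, g2] with r h1 h2 hr
    rw [uIoc_of_le ht.1] at hr
    have hrI : r ∈ Icc x b := ⟨hr.1.le, hr.2.trans ht.2⟩
    have h3 := van_NL hB hL hN (isOpen_shr Ω (r - x)) (ih r hrI) (h1 hrI) (h2 hrI)
    have h4 := (hF (shr Ω (r - x)) (t - r) _ (isOpen_shr Ω (r - x))).1 h3
    rw [abs_of_nonneg (by linarith [hr.2])] at h4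
    have h5 : Van (shr Ω (t - x)) (tau (t - r) (NL (PicN k0 x n r) - NL (PicN k0' x n r))) := by
      refine van_mono ?_ h4
      have h6 := shr_shr (Ω := Ω) (a := r - x) (b := t - r)
      have e2 : r - x + (t - r) = t - x := by ring
      rwa [e2] at h6
    rw [map_sub] at h5
    exact van_iff_pr.1 h5

/-- one short step -/
theorem short (hB : St_ExB) (hL : St_Lin) (hG : St_Grp1) (hF : St_FSP) (hS : St_Str)
    (hN : St_NLb) (hM : St_Meas) (hD : St_DuhI) (hT : St_SNt) (hLoc : St_Loc) (hU : St_Uniq)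
    {I : Set ℝ} {k k' : ℝ → K} (hk : IsSol I k) (hk' : IsSol I k') {x T : ℝ} (hx : x ∈ I)
    (hTI : T ∈ I) (hxT : x < T) {Ω : Set E} (hΩ : IsOpen Ω) (hV : Van Ω (k x - k' x)) :
    ∃ δ : ℝ, 0 < δ ∧ ∀ t ∈ Icc x (x + δ), Van (shr Ω (t - x)) (k t - k' t) := by
  obtain ⟨η0, hη0, hloc⟩ := hLoc (max ‖k x‖ ‖k' x‖ + 1) (by positivity)
  have he : (0 : ℝ≥0∞) < ENNReal.ofReal η0 ^ 4 := by
    have := ENNReal.ofReal_pos.2 hη0
    positivity
  obtain ⟨δ, ⟨⟨s1, s2⟩, hδT⟩, hδ0⟩ := (((free_small hS (k x) x he).and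
    (free_small hS (k' x) x he)).and
    ((Filter.Eventually.filter_mono nhdsWithin_le_nhds (gt_mem_nhds (by linarith : (0 : ℝ) < T - x))))
    |>.and self_mem_nhdsWithin).exists
  have hδ : 0 < δ := hδ0
  have hsub : Icc x (x + δ) ⊆ I := fun t ht => hk.1.out hx hTI ⟨ht.1, by linarith [ht.2]⟩
  obtain ⟨κ, a1, a2, -, -, a5⟩ := hloc (k x) x (x + δ) x η0
    ((le_max_left _ _).trans (by linarith)) le_rfl (by linarith) hη0 le_rfl s1
  obtain ⟨κ', b1, b2, -, -, b5⟩ := hloc (k' x) x (x + δ) x η0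
    ((le_max_right _ _).trans (by linarith)) le_rfl (by linarith) hη0 le_rfl s2
  have hxx : x ∈ Icc x (x + δ) := ⟨le_rfl, by linarith⟩
  refine ⟨δ, hδ, fun t ht => ?_⟩
  rw [hU I _ k κ x hk a1 hx hxx a2.symm t (hsub ht) ht,
    hU I _ k' κ' x hk' b1 hx hxx b2.symm t (hsub ht) ht]
  exact (isClosed_van _).mem_of_tendsto ((a5 t ht).sub (b5 t ht))
    (Eventually.of_forall fun n => pic_van hB hL hG hF hS hN hM hD hT (k x) (k' x) x (x + δ)
      (by linarith) hΩ hV n t ht)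

/-- the forward case -/
theorem forw (hB : St_ExB) (hL : St_Lin) (hG : St_Grp1) (hF : St_FSP) (hS : St_Str)
    (hN : St_NLb) (hM : St_Meas) (hD : St_DuhI) (hT : St_SNt) (hLoc : St_Loc) (hU : St_Uniq)
    {I : Set ℝ} {k k' : ℝ → K} (hk : IsSol I k) (hk' : IsSol I k') {t0 T : ℝ} (ht0 : t0 ∈ I)
    (hTI : T ∈ I) (h0T : t0 ≤ T) {Ω : Set E} (hΩ : IsOpen Ω) (hV : Van Ω (k t0 - k' t0)) :
    Van (shr Ω (T - t0)) (k T - k' T) := by
  have hsub : Icc t0 T ⊆ I := hk.1.out ht0 hTI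
  set s : Set ℝ := {t | Van (shr Ω (t - t0)) (k t - k' t)} with hs
  suffices h : Icc t0 T ⊆ s from h ⟨h0T, le_rfl⟩
  have hd : ContinuousOn (fun t => k t - k' t) (Icc t0 T) :=
    (hk.2.1.mono hsub).sub (hk'.2.1.mono hsub)
  have hclosed : IsClosed (s ∩ Icc t0 T) := by
    rw [← closure_subset_iff_isClosed]
    intro y hy
    have hyI : y ∈ Icc t0 T := by
      have := closure_mono inter_subset_right hy
      rwa [isClosed_Icc.closure_eq] at this
    refine ⟨?_, hyI⟩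
    show Van (shr Ω (y - t0)) (k y - k' y)
    rw [van_iff]
    intro φ p1 p2
    obtain ⟨ε, hε, hφ⟩ : ∃ ε : ℝ, 0 < ε ∧ tsupport φ ⊆ shr Ω (y + ε - t0) := by
      obtain ⟨n, hn⟩ := p1.2.isCompact.elim_directed_cover
        (fun n : ℕ => shr Ω (y + 1 / ((n : ℝ) + 1) - t0)) (fun n => isOpen_shr _ _)
        (fun z hz => by
          obtain ⟨c, hc, hz⟩ := p2 hz
          obtain ⟨n, hn⟩ := exists_nat_one_div_lt (sub_pos.2 hc)
          exact mem_iUnion.2 ⟨n, c, by linarith, hz⟩)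
        (Monotone.directed_le (fun m n hmn => shr_anti (by
          have : (1 : ℝ) / ((n : ℝ) + 1) ≤ 1 / ((m : ℝ) + 1) := by
            have h1 : (m : ℝ) ≤ n := by exact_mod_cast hmn
            gcongr
          linarith)))
      exact ⟨1 / ((n : ℝ) + 1), by positivity, hn⟩
    have hcl : k y - k' y ∈ closure ((fun t => k t - k' t) '' (s ∩ Icc t0 T ∩ Iio (y + ε))) := by
      have h1 : y ∈ closure (s ∩ Icc t0 T ∩ Iio (y + ε)) := by
        rw [inter_comm]
        exact isOpen_Iio.inter_closure ⟨by show y < y + ε; linarith, hy⟩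
      have h2 : ContinuousWithinAt (fun t => k t - k' t) (s ∩ Icc t0 T ∩ Iio (y + ε)) y :=
        (hd y hyI).mono (fun z hz => hz.1.2)
      exact h2.mem_closure_image h1
    have hset : closure ((fun t => k t - k' t) '' (s ∩ Icc t0 T ∩ Iio (y + ε))) ⊆
        {w : K | Van (shr Ω (y + ε - t0)) w} := by
      refine closure_minimal ?_ (isClosed_van _)
      rintro _ ⟨z, ⟨⟨hz1, -⟩, hz2⟩, rfl⟩
      have hz3 : z < y + ε := hz2
      exact van_mono (shr_anti (by linarith)) hz1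
    exact van_iff.1 (hset hcl) φ p1 hφ
  have hst : t0 ∈ s := by
    show Van (shr Ω (t0 - t0)) (k t0 - k' t0)
    rw [sub_self]
    exact van_mono (shr_subset le_rfl) hV
  refine hclosed.Icc_subset_of_forall_mem_nhdsWithin hst ?_
  rintro x ⟨hxs, hx⟩
  have hxs' : Van (shr Ω (x - t0)) (k x - k' x) := hxs
  obtain ⟨δ, hδ, h⟩ := short hB hL hG hF hS hN hM hD hT hLoc hU hk hk' (hsub ⟨hx.1, hx.2.le⟩) hTI
    hx.2 (isOpen_shr _ _) hxs'
  have hmem : Ioc x (x + δ) ∈ 𝓝[>] x := Ioc_mem_nhdsGT (by linarith)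
  refine mem_of_superset hmem fun t ht => ?_
  have h1 := h t ⟨ht.1.le, ht.2⟩
  refine van_mono ?_ h1
  have h2 := shr_shr (Ω := Ω) (a := x - t0) (b := t - x)
  have e2 : x - t0 + (t - x) = t - t0 := by ring
  rwa [e2] at h2

end NFSPx

open NFSPx ExBx in
theorem thm_NFSP (hB : St_ExB) (hL : St_Lin) (hA : St_Act) (hG : St_Grp1) (hF : St_FSP)
    (hS : St_Str) (hN : St_NLb) (hM : St_Meas) (hD : St_DuhI) (hT : St_SNt) (hLoc : St_Loc)
    (hU : St_Uniq) (hSym : St_Sym) : St_NFSP := by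
  intro I k k' t0 Ω hk hk' ht0 hΩ hV t ht
  have hrev : ∀ (Ω' : Set E) (w : K), Van Ω' (rev w) ↔ Van Ω' w := by
    intro Ω' w
    rw [hB.2.2.2.1, hB.2.2.2.1, hA.2.2.2.2]
  rcases le_total t0 t with h | h
  · rw [abs_of_nonneg (by linarith)]
    exact forw hB hL hG hF hS hN hM hD hT hLoc hU hk hk' ht0 ht h hΩ hV
  · rw [abs_of_nonpos (by linarith)]
    have s1 := (hSym.2.2.2.2.2.2.1 I k hk).2.2.2
    have s2 := (hSym.2.2.2.2.2.2.1 I k' hk').2.2.2
    have h1 : -t0 ∈ {t : ℝ | -t ∈ I} := by simpa using ht0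
    have h2 : -t ∈ {t : ℝ | -t ∈ I} := by simpa using ht
    have h3 := forw hB hL hG hF hS hN hM hD hT hLoc hU s1 s2 h1 h2 (by linarith) hΩ (by
      simp only [neg_neg]
      rw [← map_sub, hrev]
      exact hV)
    simp only [neg_neg] at h3
    rw [← map_sub, hrev] at h3
    have e : -t - -t0 = -(t - t0) := by ring
    rwa [e] at h3

end Pool.Agent.QWE
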