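import Pool.Agent.QWE.Lin
import Pool.Agent.QWE.StG

/-!
# QWE, NLc: weak continuity of the nonlinearity
-/

set_option autoImplicit false

open MeasureTheory Filter Topology Set
open scoped ENNReal NNReal RealInnerProductSpace ContDiff Pointwise

namespace Pool.Agent.QWE

namespace NLcx

open Linx

theorem ht1 : ENNReal.HolderTriple (5 / 2) 10 2 := by
  have ha : (5 / 2 : ℝ≥0∞)⁻¹ ≠ ⊤ := ENNReal.inv_ne_top.2 (by simp)
  have hb : (10 : ℝ≥0∞)⁻¹ ≠ ⊤ := ENNReal.inv_ne_top.2 (by simp)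
  have hc : (2 : ℝ≥0∞)⁻¹ ≠ ⊤ := ENNReal.inv_ne_top.2 (by simp)
  refine ⟨?_⟩
  rw [← ENNReal.toReal_eq_toReal_iff' (ENNReal.add_ne_top.2 ⟨ha, hb⟩) hc,
    ENNReal.toReal_add ha hb]
  simp only [ENNReal.toReal_inv, ENNReal.toReal_div, ENNReal.toReal_ofNat]
  norm_num

theorem ht2 : ENNReal.HolderTriple (5 / 2) (10 / 3) (10 / 7) := by
  have ha : (5 / 2 : ℝ≥0∞)⁻¹ ≠ ⊤ := ENNReal.inv_ne_top.2 (by simp)
  have hb : (10 / 3 : ℝ≥0∞)⁻¹ ≠ ⊤ := ENNReal.inv_ne_top.2 (by simp)
  have hc : (10 / 7 : ℝ≥0∞)⁻¹ ≠ ⊤ := ENNReal.inv_ne_top.2 (by simp)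
  refine ⟨?_⟩
  rw [← ENNReal.toReal_eq_toReal_iff' (ENNReal.add_ne_top.2 ⟨ha, hb⟩) hc,
    ENNReal.toReal_add ha hb]
  simp only [ENNReal.toReal_inv, ENNReal.toReal_div, ENNReal.toReal_ofNat]
  norm_num

theorem ht3 : ENNReal.HolderTriple (10 / 7) (10 / 3) 1 := by
  have ha : (10 / 7 : ℝ≥0∞)⁻¹ ≠ ⊤ := ENNReal.inv_ne_top.2 (by simp)
  have hb : (10 / 3 : ℝ≥0∞)⁻¹ ≠ ⊤ := ENNReal.inv_ne_top.2 (by simp)
  have hc : (1 : ℝ≥0∞)⁻¹ ≠ ⊤ := ENNReal.inv_ne_top.2 (by simp)
  refine ⟨?_⟩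
  rw [← ENNReal.toReal_eq_toReal_iff' (ENNReal.add_ne_top.2 ⟨ha, hb⟩) hc,
    ENNReal.toReal_add ha hb]
  simp only [ENNReal.toReal_inv, ENNReal.toReal_div, ENNReal.toReal_ofNat, ENNReal.toReal_one]
  norm_num

theorem hold {p q r : ℝ≥0∞} (h : ENNReal.HolderTriple p q r) {f g : E → ℝ}
    (hf : AEStronglyMeasurable f volume) (hg : AEStronglyMeasurable g volume) :
    eLpNorm (fun x => f x * g x) r volume ≤ eLpNorm f p volume * eLpNorm g q volume :=
  eLpNorm_smul_le_mul_eLpNorm (p := p) (q := q) (r := r) (φ := f) (f := g) hg hf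

theorem pow4 (u : E → ℝ) :
    eLpNorm (fun x => u x ^ 4) (5 / 2) volume = eLpNorm u 10 volume ^ 4 := by
  have h2 := eLpNorm_norm_rpow (μ := (volume : Measure E)) (p := 5 / 2) (q := 4) u (by norm_num)
  have h3 : (5 / 2 : ℝ≥0∞) * ENNReal.ofReal 4 = 10 := by
    rw [ENNReal.ofReal_ofNat, ← ENNReal.toReal_eq_toReal_iff' (by finiteness) (by finiteness)]
    simp only [ENNReal.toReal_mul, ENNReal.toReal_div, ENNReal.toReal_ofNat]
    norm_num
  rw [h3] at h2
  rw [← eLpNorm_norm]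
  have h4 : (fun x => ‖u x ^ 4‖) = fun x => ‖u x‖ ^ (4 : ℝ) := by
    funext x
    rw [norm_pow]
    exact (Real.rpow_natCast _ 4).symm
  rw [h4, h2]
  exact ENNReal.rpow_natCast _ 4

theorem U_sub (hL : St_Lin) (a b : K) : U (a - b) =ᵐ[volume] fun x => U a x - U b x := by
  have h := (hL.1 (-1) a b).1
  have e : a + (-1 : ℝ) • b = a - b := by rw [neg_smul, one_smul, sub_eq_add_neg]
  rw [e] at h
  filter_upwards [h] with x hx
  rw [hx]; ring

theorem wto_sub {k : ℕ → K} {k' : K} (h : WTo k k') : WTo (fun n => k n - k') 0 := by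
  intro w
  have := (h w).sub (tendsto_const_nhds (x := inner ℝ k' w))
  simpa only [sub_self, inner_sub_left, inner_zero_left] using this

theorem conv_ball (h4 : St_G4) (hL : St_Lin) {k : ℕ → K} {k' : K} (h : WTo k k') (M : ℝ) :
    Tendsto (fun n => eLpNorm ((Metric.ball (0 : E) M).indicator
      (fun x => U (k n) x - U k' x)) 2 volume) atTop (𝓝 0) := by
  have h1 := (h4 _ M (wto_sub h)).1
  refine h1.congr fun n => eLpNorm_congr_ae ?_
  filter_upwards [U_sub hL (k n) k'] with x hx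
  simp only [Set.indicator]
  split_ifs
  · exact hx
  · rfl

theorem part1_ball (h4 : St_G4) (hL : St_Lin) (hF : St_Fld) {k : ℕ → K} {k' : K} (h : WTo k k')
    {c : ℝ≥0∞} (hc : ∀ n, sn (k n) ≤ c) (M : ℝ) :
    eLpNorm ((Metric.ball (0 : E) M).indicator (U k')) 20 volume ≤ c := by
  obtain ⟨C, -, hC⟩ := hF
  have hm : ∀ w : K, AEStronglyMeasurable (U w) (volume.restrict (Metric.ball (0 : E) M)) :=
    fun w => (hC w).1.1.1.restrict
  have h1 := conv_ball h4 hL h M
  simp only [eLpNorm_indicator_eq_eLpNorm_restrict measurableSet_ball] at h1 ⊢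
  have h2 : TendstoInMeasure (volume.restrict (Metric.ball (0 : E) M)) (fun n => U (k n)) atTop
      (U k') := tendstoInMeasure_of_tendsto_eLpNorm (p := 2) (by norm_num) (fun n => hm (k n))
        (hm k') h1
  obtain ⟨ns, -, hns⟩ := h2.exists_seq_tendsto_ae
  refine Lp.eLpNorm_le_of_ae_tendsto (u := atTop) (f := fun i => U (k (ns i)))
    (Eventually.of_forall fun i => ?_) (fun i => hm _) hns
  exact (eLpNorm_mono_measure _ Measure.restrict_le_self).trans (hc (ns i))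

theorem part1 (h4 : St_G4) (hL : St_Lin) (hF : St_Fld) (hW : St_WkS) (k : ℕ → K) (k' : K)
    (h : WTo k k') : sn k' ≤ liminf (fun n => sn (k n)) atTop := by
  by_contra hcon
  rw [not_le] at hcon
  obtain ⟨c, hc1, hc2⟩ := exists_between hcon
  have hfr : ∃ᶠ n in atTop, sn (k n) < c := frequently_lt_of_liminf_lt (by isBoundedDefault) hc1
  obtain ⟨φ, hφ, hφc⟩ := extraction_of_frequently_atTop hfr
  have h1 : WTo (k ∘ φ) k' := hW.2.2.2.1 k k' φ h hφ
  have hm : AEStronglyMeasurable (U k') volume := by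
    obtain ⟨C, -, hC⟩ := hF
    exact (hC k').1.1.1
  have h2 : sn k' ≤ c := by
    refine Lp.eLpNorm_le_of_ae_tendsto (u := atTop)
      (f := fun n : ℕ => (Metric.ball (0 : E) n).indicator (U k'))
      (Eventually.of_forall fun n => part1_ball h4 hL hF h1 (fun i => (hφc i).le) n)
      (fun n => hm.indicator measurableSet_ball) (Eventually.of_forall fun x => ?_)
    refine tendsto_const_nhds.congr' ?_
    obtain ⟨N, hN⟩ := exists_nat_gt (dist x 0)
    filter_upwards [eventually_ge_atTop N] with n hn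
    have : x ∈ Metric.ball (0 : E) n := by
      rw [Metric.mem_ball]
      exact hN.trans_le (by exact_mod_cast hn)
    rw [Set.indicator_of_mem this]
  exact absurd h2 (not_le.2 hc2)

theorem pow5_sub (a b : ℝ) : |a ^ 5 - b ^ 5| ≤ |a - b| * (5 * (|a| + |b|) ^ 4) := by
  have e : a ^ 5 - b ^ 5 = (a - b) * (a ^ 4 + a ^ 3 * b + a ^ 2 * b ^ 2 + a * b ^ 3 + b ^ 4) := by
    ring
  rw [e, abs_mul]
  refine mul_le_mul_of_nonneg_left ?_ (abs_nonneg _)
  have ha := abs_nonneg a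
  have hb := abs_nonneg b
  have h1 : |a ^ 4 + a ^ 3 * b + a ^ 2 * b ^ 2 + a * b ^ 3 + b ^ 4| ≤
      |a| ^ 4 + |a| ^ 3 * |b| + |a| ^ 2 * |b| ^ 2 + |a| * |b| ^ 3 + |b| ^ 4 := by
    refine (abs_add_le _ _).trans (add_le_add ((abs_add_le _ _).trans (add_le_add
      ((abs_add_le _ _).trans (add_le_add ((abs_add_le _ _).trans (add_le_add ?_ ?_)) ?_)) ?_)) ?_)
    all_goals simp only [abs_mul, abs_pow]; exact le_rfl
  refine h1.trans ?_
  generalize |a| = x at *
  generalize |b| = y at *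
  have hxy : 0 ≤ x * y := mul_nonneg ha hb
  nlinarith [mul_nonneg hxy (sq_nonneg x), mul_nonneg hxy (sq_nonneg y), mul_nonneg hxy hxy,
    pow_nonneg ha 4, pow_nonneg hb 4]

theorem lap_zero {φ : E → ℝ} {x : E} (h : x ∉ tsupport φ) : lap φ x = 0 := by
  have h1 : ∀ (i : Fin 5) (ψ : E → ℝ), tsupport (pd i ψ) ⊆ tsupport ψ := fun i ψ =>
    tsupport_fderiv_apply_subset ℝ _
  refine Finset.sum_eq_zero fun i _ => ?_
  exact image_eq_zero_of_notMem_tsupport fun h2 => h (h1 i φ (h1 i _ h2))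

theorem memLp_test {φ : E → ℝ} (h : IsTest φ) (p : ℝ≥0∞) : MemLp φ p volume :=
  h.1.continuous.memLp_of_hasCompactSupport h.2

/-- the basic estimate of the difference -/
theorem diff_bd {u v φ : E → ℝ} {M : ℝ} (hu : AEStronglyMeasurable u volume)
    (hv : AEStronglyMeasurable v volume) (hφ : AEStronglyMeasurable φ volume)
    (hs : ∀ x, x ∉ Metric.ball (0 : E) M → φ x = 0) :
    eLpNorm (fun x => (u x ^ 5 - v x ^ 5) * φ x) 1 volume ≤
      eLpNorm ((Metric.ball (0 : E) M).indicator (fun x => u x - v x)) 2 volume *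
        (5 * (eLpNorm u 10 volume + eLpNorm v 10 volume) ^ 4 * eLpNorm φ 10 volume) := by
  have m1 : AEStronglyMeasurable (fun x => |u x| + |v x|) (volume : Measure E) := by
    have a := hu.norm
    have b := hv.norm
    exact a.add b
  have m2 : AEStronglyMeasurable ((Metric.ball (0 : E) M).indicator (fun x => u x - v x))
      (volume : Measure E) := (hu.sub hv).indicator measurableSet_ball
  have m3 : AEStronglyMeasurable (fun x => (5 * (|u x| + |v x|) ^ 4) * φ x)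
      (volume : Measure E) := ((m1.pow 4).const_mul 5).mul hφ
  calc eLpNorm (fun x => (u x ^ 5 - v x ^ 5) * φ x) 1 volume
      ≤ eLpNorm (fun x => (Metric.ball (0 : E) M).indicator (fun x => u x - v x) x *
          ((5 * (|u x| + |v x|) ^ 4) * φ x)) 1 volume := by
        refine eLpNorm_mono fun x => ?_
        by_cases hx : x ∈ Metric.ball (0 : E) M
        · rw [Set.indicator_of_mem hx, norm_mul, norm_mul, norm_mul, ← mul_assoc]
          refine mul_le_mul_of_nonneg_right ?_ (norm_nonneg _)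
          simp only [Real.norm_eq_abs]
          have h1 := pow5_sub (u x) (v x)
          have h2 : |5 * (|u x| + |v x|) ^ 4| = 5 * (|u x| + |v x|) ^ 4 :=
            abs_of_nonneg (by positivity)
          rw [h2]
          exact h1
        · rw [hs x hx]; simp
    _ ≤ eLpNorm ((Metric.ball (0 : E) M).indicator (fun x => u x - v x)) 2 volume *
          eLpNorm (fun x => (5 * (|u x| + |v x|) ^ 4) * φ x) 2 volume :=
        hold inferInstance m2 m3
    _ ≤ eLpNorm ((Metric.ball (0 : E) M).indicator (fun x => u x - v x)) 2 volume *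
          (eLpNorm (fun x => 5 * (|u x| + |v x|) ^ 4) (5 / 2) volume * eLpNorm φ 10 volume) := by
        gcongr
        exact hold ht1 ((m1.pow 4).const_mul 5) hφ
    _ ≤ _ := by
        have h3 : eLpNorm (fun x => 5 * (|u x| + |v x|) ^ 4) (5 / 2) volume ≤
            5 * (eLpNorm u 10 volume + eLpNorm v 10 volume) ^ 4 := by
          have h4 : (fun x => 5 * (|u x| + |v x|) ^ 4) =
              (5 : ℝ) • fun x : E => (|u x| + |v x|) ^ 4 := rfl
          rw [h4, eLpNorm_const_smul, pow4]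
          have h5 : ‖(5 : ℝ)‖ₑ = 5 := by
            rw [Real.enorm_eq_ofReal (by norm_num), ENNReal.ofReal_ofNat]
          rw [h5]
          gcongr
          have h6 : eLpNorm (fun x => |u x| + |v x|) 10 volume ≤
              eLpNorm (fun x => ‖u x‖) 10 volume + eLpNorm (fun x => ‖v x‖) 10 volume :=
            eLpNorm_add_le hu.norm hv.norm (by norm_num)
          rwa [eLpNorm_norm, eLpNorm_norm] at h6
        gcongr

theorem part2 (h4 : St_G4) (hL : St_Lin) (hF : St_Fld) (hW : St_WkS) (hN : St_NLb)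
    (hNw : St_NLw) (k : ℕ → K) (k' : K) (f g : E → ℝ) (hf : IsTest f) (hg : IsTest g)
    (h : WTo k k') (hk : ∀ n, sn (k n) < ⊤) (hk' : sn k' < ⊤) :
    Tendsto (fun n => inner ℝ (NL (k n)) (Theta f g)) atTop
      (𝓝 (inner ℝ (NL k') (Theta f g))) := by
  obtain ⟨C, hC, hNw⟩ := hNw
  obtain ⟨CF, hCF, hF⟩ := hF
  have e1 : ∀ w : K, sn w < ⊤ → inner ℝ (NL w) (Theta f g) = -c0 * ∫ x, U w x ^ 5 * lap g x :=
    fun w hw => (hNw w f g hw hf hg).1
  rw [e1 k' hk']
  simp only [fun n => e1 (k n) (hk n)]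
  refine Tendsto.const_mul (-c0) ?_
  have hφ := test_lap hg
  obtain ⟨M, hM⟩ : ∃ M : ℝ, ∀ x, x ∉ Metric.ball (0 : E) M → lap g x = 0 := by
    obtain ⟨M, hM⟩ := hg.2.isCompact.isBounded.subset_ball 0
    exact ⟨M, fun x hx => lap_zero fun h => hx (hM h)⟩
  obtain ⟨A, hA⟩ := hW.2.1 k k' h
  have hint : ∀ w : K, sn w < ⊤ → Integrable (fun x => U w x ^ 5 * lap g x) volume := by
    intro w hw
    have h1 : MemLp (fun x => U w x ^ 5) 2 volume := (hN.2 w hw).1
    exact MemLp.integrable_mul h1 (memLp_test hφ 2)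
  set D : ℝ≥0∞ := 5 * (ENNReal.ofReal (CF) * ENNReal.ofReal A + ENNReal.ofReal CF * ‖k'‖ₑ) ^ 4 *
    eLpNorm (lap g) 10 volume with hD
  have hDfin : D ≠ ⊤ := by
    have := (memLp_test hφ 10).2.ne
    rw [hD]
    finiteness
  have hconv := conv_ball h4 hL h M
  have hlim : Tendsto (fun n => eLpNorm ((Metric.ball (0 : E) M).indicator
      (fun x => U (k n) x - U k' x)) 2 volume * D) atTop (𝓝 0) := by
    have := ENNReal.Tendsto.mul_const (b := D) hconv (Or.inr hDfin)
    rwa [zero_mul] at this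
  rw [tendsto_iff_edist_tendsto_0]
  refine tendsto_of_tendsto_of_tendsto_of_le_of_le tendsto_const_nhds hlim (fun n => zero_le)
    (fun n => ?_)
  rw [edist_eq_enorm_sub, ← integral_sub (hint _ (hk n)) (hint _ hk')]
  have e2 : (fun x => U (k n) x ^ 5 * lap g x - U k' x ^ 5 * lap g x) =
      fun x => (U (k n) x ^ 5 - U k' x ^ 5) * lap g x := by
    funext x; ring
  rw [e2]
  refine (enorm_integral_le_lintegral_enorm _).trans ?_
  rw [← eLpNorm_one_eq_lintegral_enorm]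
  refine (diff_bd (hF (k n)).1.1.1 (hF k').1.1.1 hφ.1.continuous.aestronglyMeasurable hM).trans ?_
  rw [hD]
  gcongr
  · refine (hF (k n)).1.2.trans ?_
    gcongr
    rw [← ofReal_norm]
    exact ENNReal.ofReal_le_ofReal (hA n)
  · exact (hF k').1.2

/-- triple product -/
theorem triple {u d φ : E → ℝ} (hu : AEStronglyMeasurable u volume)
    (hd : AEStronglyMeasurable d volume) (hφ : AEStronglyMeasurable φ volume) :
    ‖∫ x, (5 * u x ^ 4 * d x) * φ x‖ₑ ≤
      5 * eLpNorm u 10 volume ^ 4 * eLpNorm d (10 / 3) volume * eLpNorm φ (10 / 3) volume := by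
  have m1 : AEStronglyMeasurable (fun x => 5 * u x ^ 4) (volume : Measure E) :=
    (hu.pow 4).const_mul 5
  have h5 : ‖(5 : ℝ)‖ₑ = 5 := by
    rw [Real.enorm_eq_ofReal (by norm_num), ENNReal.ofReal_ofNat]
  have h6 : eLpNorm (fun x => 5 * u x ^ 4) (5 / 2) volume = 5 * eLpNorm u 10 volume ^ 4 := by
    have h4 : (fun x => 5 * u x ^ 4) = (5 : ℝ) • fun x : E => u x ^ 4 := rfl
    rw [h4, eLpNorm_const_smul, pow4, h5]
  calc ‖∫ x, (5 * u x ^ 4 * d x) * φ x‖ₑ ≤ ∫⁻ x, ‖(5 * u x ^ 4 * d x) * φ x‖ₑ :=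
        enorm_integral_le_lintegral_enorm _
    _ = eLpNorm (fun x => (5 * u x ^ 4 * d x) * φ x) 1 volume :=
        eLpNorm_one_eq_lintegral_enorm.symm
    _ ≤ eLpNorm (fun x => 5 * u x ^ 4 * d x) (10 / 7) volume * eLpNorm φ (10 / 3) volume :=
        hold ht3 (m1.mul hd) hφ
    _ ≤ (eLpNorm (fun x => 5 * u x ^ 4) (5 / 2) volume * eLpNorm d (10 / 3) volume) *
          eLpNorm φ (10 / 3) volume := by
        gcongr
        exact hold ht2 m1 hd
    _ = _ := by rw [h6]

theorem part3 (hF : St_Fld) (hN : St_NLb) (hNw : St_NLw) (hDec : St_Decay) (f g : E → ℝ) (M : ℝ)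
    (hf : IsTest f) (hg : IsTest g) : ∃ C : ℝ, 0 < C ∧ ∀ (s : ℝ) (k : K), |s| ≤ M → sn k < ⊤ →
    |inner ℝ (NL k) (tau s (Theta f g))| ≤ C * ‖k‖ ^ 5 := by
  obtain ⟨Cw, -, hNw⟩ := hNw
  obtain ⟨CF, hCF, hF⟩ := hF
  obtain ⟨Cd, M0, hCd, hM0, hdec⟩ := hDec f g hf hg
  set B : Set E := Metric.closedBall (0 : E) (M + M0) with hB
  -- bound of the norm of the test function
  set G : ℝ≥0∞ := ENNReal.ofReal Cd * volume B ^ (1 / (10 / 3 : ℝ≥0∞).toReal) with hG
  have hGfin : G ≠ ⊤ := by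
    have h1 : volume B ≠ ⊤ := measure_closedBall_lt_top.ne
    rw [hG]
    refine ENNReal.mul_ne_top ENNReal.ofReal_ne_top (ENNReal.rpow_ne_top_of_nonneg ?_ h1)
    positivity
  set X : ℝ≥0∞ := 5 * (5 * ENNReal.ofReal CF ^ 5 * G) with hX
  have hXfin : X ≠ ⊤ := by rw [hX]; finiteness
  have hc0 : 0 ≤ c0 := by unfold c0; positivity
  refine ⟨c0 * X.toReal + 1, by positivity, fun s k hs hk => ?_⟩
  obtain ⟨f', g', hf', hg', htau, hsupp, hbd⟩ := hdec s
  rw [htau, (hNw k f' g' hk hf' hg').1]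
  obtain ⟨n1, n2, -, -, -, n6⟩ := hN.2 k hk
  have hsum : ∫ x, U k x ^ 5 * lap g' x =
      - ∑ i, ∫ x, (5 * U k x ^ 4 * DU k i x) * pd i g' x := by
    have h1 : ∀ i : Fin 5, Integrable (fun x => U k x ^ 5 * pd i (pd i g') x) volume := fun i =>
      MemLp.integrable_mul n1 (memLp_test (test_pd (test_pd hg' i) i) 2)
    have h2 : (fun x => U k x ^ 5 * lap g' x) = fun x => ∑ i, U k x ^ 5 * pd i (pd i g') x := by
      funext x
      rw [lap, Finset.mul_sum]
    rw [h2, integral_finsetSum _ fun i _ => h1 i, ← Finset.sum_neg_distrib]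
    refine Finset.sum_congr rfl fun i _ => ?_
    exact (n6 i).2.1 (pd i g') (test_pd hg' i)
  rw [hsum]
  have hG' : ∀ i, eLpNorm (pd i g') (10 / 3) volume ≤ G := by
    intro i
    have h1 : pd i g' = B.indicator (pd i g') := by
      symm
      rw [Set.indicator_eq_self]
      intro x hx
      by_contra hcon
      apply hx
      have hxo : ∀ᶠ y in 𝓝 x, g' y = 0 := by
        have ho : IsOpen Bᶜ := Metric.isClosed_closedBall.isOpen_compl
        filter_upwards [ho.mem_nhds hcon] with y hy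
        apply (hsupp y _).2
        rw [hB, mem_compl_iff, Metric.mem_closedBall, not_le, dist_zero_right] at hy
        rw [abs_of_nonneg (by linarith)]
        linarith
      have h2 : fderiv ℝ g' x = 0 := by
        have h3 : g' =ᶠ[𝓝 x] fun _ => (0 : ℝ) := hxo
        rw [h3.fderiv_eq]
        simp
      rw [pd, h2]; simp
    have h2 : ∀ x, ‖B.indicator (pd i g') x‖ ≤ ‖B.indicator (fun _ => Cd) x‖ := by
      intro x
      by_cases hx : x ∈ B
      · rw [Set.indicator_of_mem hx, Set.indicator_of_mem hx, Real.norm_eq_abs, Real.norm_eq_abs,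
          abs_of_pos hCd]
        refine ((hbd x i i).2.2.2.2).trans ?_
        rw [div_le_iff₀ (by positivity)]
        nlinarith [sq_nonneg s]
      · rw [Set.indicator_of_notMem hx, Set.indicator_of_notMem hx]
    rw [h1]
    refine (eLpNorm_mono h2).trans ?_
    refine (eLpNorm_indicator_const_le _ _).trans (le_of_eq ?_)
    rw [hG, Real.enorm_eq_ofReal hCd.le]
  have hterm : ∀ i, ‖∫ x, (5 * U k x ^ 4 * DU k i x) * pd i g' x‖ₑ ≤
      5 * ENNReal.ofReal CF ^ 5 * G * ‖k‖ₑ ^ 5 := by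
    intro i
    have hu := (hF k).1
    have hd := (hF k).2.2.1 i
    refine (triple hu.1.1 hd.1.1 (test_pd hg' i).1.continuous.aestronglyMeasurable).trans ?_
    calc 5 * eLpNorm (U k) 10 volume ^ 4 * eLpNorm (DU k i) (10 / 3) volume *
          eLpNorm (pd i g') (10 / 3) volume
        ≤ 5 * (ENNReal.ofReal CF * ‖k‖ₑ) ^ 4 * (ENNReal.ofReal CF * ‖k‖ₑ) * G := by
          gcongr
          · exact hu.2
          · exact hd.2.2
          · exact hG' i
      _ = _ := by ring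
  have hall : ‖∑ i, ∫ x, (5 * U k x ^ 4 * DU k i x) * pd i g' x‖ₑ ≤ X * ‖k‖ₑ ^ 5 := by
    refine (enorm_sum_le _ _).trans ?_
    refine (Finset.sum_le_sum fun i _ => hterm i).trans (le_of_eq ?_)
    rw [Finset.sum_const, Finset.card_univ, Fintype.card_fin, hX]
    simp only [nsmul_eq_mul]
    push_cast
    ring
  have hreal : |∑ i, ∫ x, (5 * U k x ^ 4 * DU k i x) * pd i g' x| ≤ X.toReal * ‖k‖ ^ 5 := by
    have h7 := ENNReal.toReal_mono (ENNReal.mul_ne_top hXfin (by finiteness)) hall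
    rw [toReal_enorm, Real.norm_eq_abs, ENNReal.toReal_mul, ENNReal.toReal_pow, toReal_enorm] at h7
    exact h7
  rw [neg_mul_neg, abs_mul, abs_of_nonneg hc0]
  have hk5 : 0 ≤ ‖k‖ ^ 5 := by positivity
  calc c0 * |∑ i, ∫ x, (5 * U k x ^ 4 * DU k i x) * pd i g' x|
      ≤ c0 * (X.toReal * ‖k‖ ^ 5) := by gcongr
    _ ≤ (c0 * X.toReal + 1) * ‖k‖ ^ 5 := by nlinarith

end NLcx

open NLcx in
/-- **NLc** (weak continuity of the nonlinearity) -/
theorem thm_NLc (h4 : St_G4) (hW : St_WkS) (hL : St_Lin) (hF : St_Fld) (hN : St_NLb)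
    (hNw : St_NLw) (hDec : St_Decay) : St_NLc :=
  ⟨part1 h4 hL hF hW, part2 h4 hL hF hW hN hNw, part3 hF hN hNw hDec⟩

end Pool.Agent.QWE
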