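import Pool.Agent.QWE.StE
import Pool.Agent.QWE.StA

/-!
# QWE, module NLo: locality of the nonlinearity
-/

set_option autoImplicit false

open MeasureTheory Filter Topology Set
open scoped ENNReal NNReal RealInnerProductSpace Pointwise

namespace Pool.Agent.QWE

private theorem NLo_isOpen_ext (y : E) (ρ : ℝ) : IsOpen (ext y ρ) :=
  isOpen_lt continuous_const (continuous_id.dist continuous_const)

private theorem NLo_van (hLin : St_Lin) (hExB : St_ExB) (hExF : St_ExF) (hNLb : St_NLb)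
    (Ω : Set E) (k k' : K) (hΩ : IsOpen Ω) (hk : sn k < ⊤) (hk' : sn k' < ⊤)
    (hV : Van Ω (k - k')) : Van Ω (NL k - NL k') := by
  obtain ⟨-, -, -, -, -, -, hvan, -⟩ := hExB
  obtain ⟨C, -, hF⟩ := hExF
  obtain ⟨-, -, -, hU, hVel, -⟩ := hNLb.2 k hk
  obtain ⟨-, -, -, hU', hVel', -⟩ := hNLb.2 k' hk'
  obtain ⟨hLU, hLV, -⟩ := hLin.1 (-1) (NL k) (NL k')
  have e : NL k + (-1 : ℝ) • NL k' = NL k - NL k' := by
    rw [neg_one_smul, ← sub_eq_add_neg]
  rw [e] at hLU hLV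
  rw [hvan Ω _ hΩ]
  constructor
  · filter_upwards [hLU, hU, hU'] with x h1 h2 h3 _
    rw [h1, h2, h3]
    simp
  · filter_upwards [hLV, hVel, hVel', (hF k Ω hΩ).2.2.2 k' hV] with x h1 h2 h3 h4 hx
    rw [h1, h2, h3, (h4 hx).1]
    ring

theorem thm_NLo (hLin : St_Lin) (hExB : St_ExB) (hL8 : St_L8) (hExF : St_ExF)
    (hNLb : St_NLb) : St_NLo := by
  refine ⟨fun Ω k k' hΩ hk hk' hV => NLo_van hLin hExB hExF hNLb Ω k k' hΩ hk hk' hV, ?_⟩
  intro y ρ k k' hρ hk hk' hV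
  exact (hL8 y ρ (NL k - NL k') hρ).2
    (NLo_van hLin hExB hExF hNLb _ k k' (NLo_isOpen_ext y ρ) hk hk' hV)

end Pool.Agent.QWE
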