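import Pool.Agent.QWE.StA
import Pool.Agent.QWE.StB

/-!
# QWE, NLw: weak pairing of the nonlinearity (helper21)
-/

set_option autoImplicit false

open MeasureTheory Filter Topology Set
open scoped ENNReal NNReal RealInnerProductSpace ContDiff Pointwise

namespace Pool.Agent.QWE

namespace NLwx

private lemma test_pd (i : Fin 5) {φ : E → ℝ} (h : IsTest φ) : IsTest (pd i φ) := by
  refine ⟨?_, h.2.fderiv_apply ℝ _⟩
  exact (h.1.fderiv_right (m := ∞) (by simp)).clm_apply contDiff_const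

private lemma tsupport_pd (i : Fin 5) (φ : E → ℝ) : tsupport (pd i φ) ⊆ tsupport φ :=
  tsupport_fderiv_apply_subset ℝ _

private lemma lap_zero {φ : E → ℝ} {x : E} (h : x ∉ tsupport φ) : lap φ x = 0 := by
  refine Finset.sum_eq_zero fun i _ => ?_
  exact image_eq_zero_of_notMem_tsupport fun h2 => h (tsupport_pd i φ (tsupport_pd i _ h2))

private lemma test_lap {φ : E → ℝ} (h : IsTest φ) : IsTest (lap φ) := by
  refine ⟨?_, HasCompactSupport.intro h.2 fun x hx => lap_zero hx⟩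
  exact ContDiff.sum fun i _ => (test_pd i (test_pd i h)).1

private lemma pow5 (u : E → ℝ) :
    eLpNorm (fun x => u x ^ 5) 2 volume = eLpNorm u 10 volume ^ 5 := by
  have h2 := eLpNorm_norm_rpow (μ := (volume : Measure E)) (p := 2) (q := 5) u (by norm_num)
  have h3 : (2 : ℝ≥0∞) * ENNReal.ofReal 5 = 10 := by
    rw [ENNReal.ofReal_ofNat]; norm_num
  rw [h3] at h2
  rw [← eLpNorm_norm]
  have h4 : (fun x => ‖u x ^ 5‖) = fun x => ‖u x‖ ^ (5 : ℝ) := by
    funext x
    rw [norm_pow]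
    exact (Real.rpow_natCast _ 5).symm
  rw [h4, h2]
  exact ENNReal.rpow_natCast _ 5

private lemma bound (u v : E → ℝ) (hu : MemLp u 10 volume) (hv : MemLp v 2 volume) :
    |∫ x, u x ^ 5 * v x| ≤
      (eLpNorm u 10 volume).toReal ^ 5 * (eLpNorm v 2 volume).toReal := by
  have h8 : AEStronglyMeasurable (fun x => u x ^ 5) (volume : Measure E) := hu.1.pow 5
  have h9 : eLpNorm (fun x => u x ^ 5 * v x) 1 volume ≤
      eLpNorm (fun x => u x ^ 5) 2 volume * eLpNorm v 2 volume :=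
    eLpNorm_smul_le_mul_eLpNorm (p := 2) (q := 2) (r := 1) (φ := fun x => u x ^ 5) (f := v) hv.1 h8
  have h5 : ‖∫ x, u x ^ 5 * v x‖ₑ ≤ eLpNorm u 10 volume ^ 5 * eLpNorm v 2 volume := by
    calc ‖∫ x, u x ^ 5 * v x‖ₑ ≤ ∫⁻ x, ‖u x ^ 5 * v x‖ₑ := enorm_integral_le_lintegral_enorm _
      _ = eLpNorm (fun x => u x ^ 5 * v x) 1 volume := eLpNorm_one_eq_lintegral_enorm.symm
      _ ≤ eLpNorm (fun x => u x ^ 5) 2 volume * eLpNorm v 2 volume := h9
      _ = eLpNorm u 10 volume ^ 5 * eLpNorm v 2 volume := by rw [pow5]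
  have h6 : eLpNorm u 10 volume ^ 5 * eLpNorm v 2 volume ≠ ⊤ :=
    ENNReal.mul_ne_top (ENNReal.pow_ne_top hu.2.ne) hv.2.ne
  have h7 := ENNReal.toReal_mono h6 h5
  rw [toReal_enorm, Real.norm_eq_abs, ENNReal.toReal_mul, ENNReal.toReal_pow] at h7
  exact h7

end NLwx

open NLwx in
/-- **NLw** (weak pairing) -/
theorem thm_NLw (hNLb : St_NLb) (hFld : St_Fld) : St_NLw := by
  obtain ⟨C, hC, hF⟩ := hFld
  refine ⟨C ^ 5, by positivity, fun k f g hk hf hg => ⟨?_, ?_⟩⟩
  · have hG : IsGam (fun x => U k x ^ 5) (NL k) := (hNLb.2 k hk).2.2.1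
    have h1 := (hG (lap (lap f)) (test_lap (test_lap hf))).1
    have h2 := (hG (lap g) (test_lap hg)).2
    rw [Theta, inner_smul_right, inner_sub_right, h1, h2]
    ring
  · have hu := (hF k).1
    have hv : MemLp (lap g) 2 volume :=
      (test_lap hg).1.continuous.memLp_of_hasCompactSupport (test_lap hg).2
    refine (bound (U k) (lap g) hu.1 hv).trans ?_
    refine mul_le_mul_of_nonneg_right ?_ ENNReal.toReal_nonneg
    have h1 : (eLpNorm (U k) 10 volume).toReal ≤ C * ‖k‖ := by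
      have h2 := ENNReal.toReal_mono (ENNReal.mul_ne_top ENNReal.ofReal_ne_top enorm_ne_top) hu.2
      rwa [ENNReal.toReal_mul, ENNReal.toReal_ofReal hC.le, toReal_enorm] at h2
    calc (eLpNorm (U k) 10 volume).toReal ^ 5 ≤ (C * ‖k‖) ^ 5 :=
        pow_le_pow_left₀ ENNReal.toReal_nonneg h1 5
      _ = C ^ 5 * ‖k‖ ^ 5 := mul_pow _ _ _

end Pool.Agent.QWE
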