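import Pool.Agent.QWE.StA
import Pool.Agent.QWE.StE

set_option autoImplicit false

/-!
# QWE: a normalised compact solution with a subluminal centre is a path
-/

open MeasureTheory Filter Topology Set
open scoped ENNReal NNReal RealInnerProductSpace

namespace Pool.Agent.QWE

private lemma NPth_bound (hGrA : St_GrA) {Q : Set K} {k : ℝ → K} {x : ℝ → E} {a : ℝ → ℝ}
    (h : NSol Q k x a) : ∃ A : ℝ, ∀ t, ‖k t‖ ≤ A := by
  obtain ⟨A, hA⟩ := h.1.1.isBounded.exists_norm_le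
  refine ⟨A, fun t => ?_⟩
  obtain ⟨κ, hκ, hk⟩ := h.1.2.2.2 t (mem_univ t)
  rw [hk, (hGrA.2.2.2.1 (x t) (a t) κ).1]
  exact hA κ hκ

theorem thm_NPth (hExB : St_ExB) (hGrA : St_GrA) (hTgt : St_Tgt) : St_NPth := by
  intro Q k x a hN y κ C hκ0 hκ1 hy hxy
  obtain ⟨A, hA⟩ := NPth_bound hGrA hN
  have hb : ∀ ρ : ℝ, BddAbove (range fun t => ex (ext (y t) ρ) (k t)) := by
    intro ρ
    refine ⟨A, ?_⟩
    rintro _ ⟨t, rfl⟩
    exact (hExB.2.1 _ _).trans (hA t)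
  have hle : ∀ t ρ : ℝ, ex (ext (y t) ρ) (k t) ≤ epsb k y ρ := fun t ρ => le_ciSup (hb ρ) t
  refine ⟨⟨A, hN.1.2.2.1.1, hA, hy, hle⟩, ?_⟩
  rw [Metric.tendsto_atTop]
  intro ε hε
  obtain ⟨R0, -, hR⟩ := hTgt Q k x a hN (ε / 2) (half_pos hε)
  refine ⟨R0 + C, fun ρ hρ => ?_⟩
  have h1 : epsb k y ρ ≤ ε / 2 := by
    refine ciSup_le fun t => ?_
    have hsub : ext (y t) ρ ⊆ ext (x t) (ρ - C) := by
      intro z hz
      have hz' : ρ < dist z (y t) := hz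
      have h2 := dist_triangle z (x t) (y t)
      have h3 := hxy t
      change ρ - C < dist z (x t)
      linarith
    exact (hExB.2.2.1 _ _ (k t) hsub).trans (hR (ρ - C) (by linarith) t)
  have h0 : 0 ≤ epsb k y ρ := (norm_nonneg _).trans (hle 0 ρ)
  rw [Real.dist_eq, sub_zero, abs_of_nonneg h0]
  linarith

end Pool.Agent.QWE
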