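import Pool.Agent.QWE.StA
import Pool.Agent.QWE.StE

set_option autoImplicit false

/-!
# QWE, module P1: the pointwise bound
-/

open MeasureTheory Filter Topology Set
open scoped ENNReal NNReal RealInnerProductSpace

namespace Pool.Agent.QWE

theorem thm_P1 (hInd : St_Ind) (hPSy : St_PSy) (hP1a : St_P1a) : St_P1 := by
  obtain ⟨d, C, hd, hC, h⟩ := hP1a
  refine ⟨d, 2 * C, hd, by linarith, ?_⟩
  intro κ A m k y hκ0 hκ1 hP hm t ρ hρ hex
  have hA1 : MeasurableSet {z : S × ℝ | ρ < z.2 - inner ℝ (y t) (z.1 : E)} :=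
    measurableSet_lt measurable_const (by fun_prop)
  have hA2 : MeasurableSet {z : S × ℝ | ρ < -(z.2 - inner ℝ (y t) (z.1 : E))} :=
    measurableSet_lt measurable_const (by fun_prop)
  have h1 := h κ A m k y hκ0 hκ1 hP hm t ρ hρ hex
  obtain ⟨hR1, hR2, _⟩ := hPSy κ A m k y hP
  have e1 : ex (ext (y t) ρ) (rev (k t)) = ex (ext (y t) ρ) (k t) := by
    have := hR2 (-t) ρ
    rwa [neg_neg] at this
  have h2 := h κ A m (fun t => rev (k (-t))) (fun t => y (-t)) hκ0 hκ1 hR1 hm (-t) ρ hρ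
  simp only [neg_neg] at h2
  rw [e1] at h2
  have h3 := h2 hex
  rw [hInd.2.2.2.2.2.1 _ _ hA1, rev.norm_map] at h3
  have e2 : {z : S × ℝ | (-z.1, -z.2) ∈ {z : S × ℝ | ρ < z.2 - inner ℝ (y t) (z.1 : E)}} =
      {z : S × ℝ | ρ < -(z.2 - inner ℝ (y t) (z.1 : E))} := by
    ext z
    change ρ < -z.2 - inner ℝ (y t) ((-z.1 : S) : E) ↔ ρ < -(z.2 - inner ℝ (y t) (z.1 : E))
    have e3 : ((-z.1 : S) : E) = -(z.1 : E) := rfl
    rw [e3, inner_neg_right]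
    have e4 : -z.2 - -(inner ℝ (y t) (z.1 : E)) = -(z.2 - inner ℝ (y t) (z.1 : E)) := by ring
    rw [e4]
  rw [e2] at h3
  have e5 : {z : S × ℝ | ρ < |z.2 - inner ℝ (y t) (z.1 : E)|} =
      {z : S × ℝ | ρ < z.2 - inner ℝ (y t) (z.1 : E)} ∪
        {z : S × ℝ | ρ < -(z.2 - inner ℝ (y t) (z.1 : E))} := by
    ext z
    change ρ < |z.2 - inner ℝ (y t) (z.1 : E)| ↔ ρ < z.2 - inner ℝ (y t) (z.1 : E) ∨
      ρ < -(z.2 - inner ℝ (y t) (z.1 : E))
    exact lt_abs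
  rw [e5]
  have h4 := hInd.2.2.2.1 _ _ (k t) hA1 hA2
  linarith

end Pool.Agent.QWE
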