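import Pool.Agent.QWE.StE
import Pool.Agent.QWE.StA

set_option autoImplicit false

/-!
# QWE, P1a: the pointwise bound, outgoing side
-/

open MeasureTheory Filter Topology Set
open scoped ENNReal NNReal RealInnerProductSpace

namespace Pool.Agent.QWE

namespace P1ax

lemma meas_out (y : E) (c : ℝ) :
    MeasurableSet {z : S × ℝ | c < z.2 - inner ℝ y (z.1 : E)} := by
  apply measurableSet_lt measurable_const
  fun_prop

lemma meas_abs (y : E) (c : ℝ) :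
    MeasurableSet {z : S × ℝ | c < |z.2 - inner ℝ y (z.1 : E)|} := by
  apply measurableSet_lt measurable_const
  fun_prop

lemma isOpen_ext (y : E) (ρ : ℝ) : IsOpen (ext y ρ) :=
  isOpen_lt continuous_const (continuous_id.dist continuous_const)

lemma ext_sub_shr (y : E) (ρ s : ℝ) : ext y (ρ + s) ⊆ shr (ext y ρ) s := by
  intro x hx
  have hx' : ρ + s < dist x y := hx
  obtain ⟨b, hb1, hb2⟩ := exists_between (show s < dist x y - ρ by linarith)
  refine ⟨b, hb1, fun z hz => ?_⟩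
  have hz' : dist z x < b := hz
  have h1 : dist x y ≤ dist z x + dist z y := by
    have := dist_triangle x z y
    rwa [dist_comm x z] at this
  change ρ < dist z y
  linarith

lemma ex_nonneg (Ω : Set E) (k : K) : 0 ≤ ex Ω k := norm_nonneg _

lemma van_mono (hExB : St_ExB) {Ω Ω' : Set E} (h : Ω ⊆ Ω') {k : K} (hk : Van Ω' k) :
    Van Ω k := by
  rw [hExB.2.2.2.1] at hk ⊢
  have h1 := hExB.2.2.1 Ω Ω' k h
  exact le_antisymm (h1.trans hk.le) (ex_nonneg Ω k)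

lemma ind_le (hInd : St_Ind) (A : Set (S × ℝ)) (k : K) : ‖indK A k‖ ≤ ‖k‖ :=
  hInd.2.2.1 _ k

/-- Replacement of the source by that of the exterior solution. -/
lemma src_le (hInd : St_Ind) (hNLo : St_NLo) (hExB : St_ExB) (y0 : E) (ρ σ : ℝ) (hρ : 0 ≤ ρ)
    (hσ : 0 ≤ σ) (k k' : K) (h1 : sn k < ⊤) (h2 : sn k' < ⊤)
    (hV : Van (shr (ext y0 ρ) σ) (k - k')) :
    ‖indK {z | ρ < z.2 - inner ℝ y0 (z.1 : E)} (tau (-σ) (NL k))‖ ≤ ‖NL k'‖ := by
  have hm := meas_out y0 ρ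
  have h3 := hInd.2.2.2.2.1 {z | ρ < z.2 - inner ℝ y0 (z.1 : E)} (NL k) (-σ) hm
  rw [h3, LinearIsometry.norm_map]
  have hset : {z : S × ℝ | (z.1, z.2 + -σ) ∈ {z : S × ℝ | ρ < z.2 - inner ℝ y0 (z.1 : E)}} =
      {z : S × ℝ | ρ + σ < z.2 - inner ℝ y0 (z.1 : E)} := by
    ext z
    simp only [Set.mem_ofPred_eq]
    constructor
    · intro h; linarith
    · intro h; linarith
  rw [hset]
  have hV2 : Van (ext y0 (ρ + σ)) (k - k') := van_mono hExB (ext_sub_shr y0 ρ σ) hV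
  have h4 := hNLo.2 y0 (ρ + σ) k k' (by linarith) h1 h2 hV2
  have h5 : ‖indK {z | ρ + σ < z.2 - inner ℝ y0 (z.1 : E)} (NL k - NL k')‖ ≤ 0 := by
    refine (hInd.2.1 _ {z | ρ + σ < |z.2 - inner ℝ y0 (z.1 : E)|} _ (meas_out y0 _)
      (meas_abs y0 _) ?_).trans ?_
    · intro z hz
      have hz' : ρ + σ < z.2 - inner ℝ y0 (z.1 : E) := hz
      exact lt_of_lt_of_le hz' (le_abs_self _)
    · rw [h4, norm_zero]
  have h6 : indK {z | ρ + σ < z.2 - inner ℝ y0 (z.1 : E)} (NL k) =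
      indK {z | ρ + σ < z.2 - inner ℝ y0 (z.1 : E)} (NL k - NL k') +
      indK {z | ρ + σ < z.2 - inner ℝ y0 (z.1 : E)} (NL k') := by
    rw [← map_add, sub_add_cancel]
  rw [h6]
  calc ‖indK {z | ρ + σ < z.2 - inner ℝ y0 (z.1 : E)} (NL k - NL k') +
      indK {z | ρ + σ < z.2 - inner ℝ y0 (z.1 : E)} (NL k')‖
      ≤ ‖indK {z | ρ + σ < z.2 - inner ℝ y0 (z.1 : E)} (NL k - NL k')‖ +
        ‖indK {z | ρ + σ < z.2 - inner ℝ y0 (z.1 : E)} (NL k')‖ := norm_add_le _ _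
    _ ≤ 0 + ‖NL k'‖ := add_le_add h5 (ind_le hInd _ _)
    _ = ‖NL k'‖ := zero_add _

lemma key (hInd : St_Ind) (hNLo : St_NLo) (hNLi : St_NLi) (hExB : St_ExB)
    {k k' : ℝ → K} (hk : IsSol univ k) (hk' : IsSol univ k') (t0 ρ : ℝ) (hρ : 0 ≤ ρ) (y0 : E)
    (hV : ∀ t, Van (shr (ext y0 ρ) |t - t0|) (k t - k' t))
    (hint : Integrable (fun t => NL (k' t)) volume) (s : ℝ) (hs : 0 ≤ s) :
    ‖indK {z | ρ < z.2 - inner ℝ y0 (z.1 : E)} (k t0)‖ ≤
      ‖indK {z | ρ + s < z.2 - inner ℝ y0 (z.1 : E)} (k (t0 + s))‖ + ∫ r, ‖NL (k' r)‖ := by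
  have hm := meas_out y0 ρ
  have hN := (hNLi univ k hk).2 t0 (mem_univ _) (t0 + s) (mem_univ _)
  have e1 : t0 - (t0 + s) = -s := by ring
  rw [e1] at hN
  have e2 : k t0 = tau (-s) (k (t0 + s)) + ∫ r in t0..(t0 + s), tau (t0 - r) (NL (k r)) := by
    rw [hN]; abel
  have h3 := hInd.2.2.2.2.1 {z | ρ < z.2 - inner ℝ y0 (z.1 : E)} (k (t0 + s)) (-s) hm
  have hset : {z : S × ℝ | (z.1, z.2 + -s) ∈ {z : S × ℝ | ρ < z.2 - inner ℝ y0 (z.1 : E)}} =
      {z : S × ℝ | ρ + s < z.2 - inner ℝ y0 (z.1 : E)} := by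
    ext z
    simp only [Set.mem_ofPred_eq]
    constructor
    · intro h; linarith
    · intro h; linarith
  rw [hset] at h3
  have h4 : ‖indK {z | ρ < z.2 - inner ℝ y0 (z.1 : E)} (tau (-s) (k (t0 + s)))‖ =
      ‖indK {z | ρ + s < z.2 - inner ℝ y0 (z.1 : E)} (k (t0 + s))‖ := by
    rw [h3, LinearIsometry.norm_map]
  have hnn : 0 ≤ ∫ r, ‖NL (k' r)‖ := integral_nonneg fun r => norm_nonneg _
  have h5 : ‖indK {z | ρ < z.2 - inner ℝ y0 (z.1 : E)}
      (∫ r in t0..(t0 + s), tau (t0 - r) (NL (k r)))‖ ≤ ∫ r, ‖NL (k' r)‖ := by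
    by_cases hI : IntervalIntegrable (fun r => tau (t0 - r) (NL (k r))) volume t0 (t0 + s)
    · rw [← ContinuousLinearMap.intervalIntegral_comp_comm _ hI]
      have ha := ((hNLi univ k hk).1 t0 (mem_univ _) (t0 + s) (mem_univ _)).2
      have hb := ((hNLi univ k' hk').1 t0 (mem_univ _) (t0 + s) (mem_univ _)).2
      rw [ae_restrict_iff' measurableSet_Icc] at ha hb
      have hle : ∀ᵐ r ∂(volume : Measure ℝ), r ∈ Ioc t0 (t0 + s) →
          ‖indK {z | ρ < z.2 - inner ℝ y0 (z.1 : E)} (tau (t0 - r) (NL (k r)))‖ ≤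
            ‖NL (k' r)‖ := by
        filter_upwards [ha, hb] with r h6 h7 hr
        have hr' : r ∈ Icc t0 (t0 + s) := Ioc_subset_Icc_self hr
        have h8 : 0 ≤ r - t0 := by linarith [hr.1]
        have h9 := hV r
        rw [abs_of_nonneg h8] at h9
        have h10 := src_le hInd hNLo hExB y0 ρ (r - t0) hρ h8 (k r) (k' r) (h6 hr') (h7 hr') h9
        rwa [neg_sub] at h10
      have hI2 : IntervalIntegrable (fun r => ‖NL (k' r)‖) volume t0 (t0 + s) :=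
        hint.norm.intervalIntegrable
      refine (intervalIntegral.norm_integral_le_of_norm_le (by linarith) hle hI2).trans ?_
      rw [intervalIntegral.integral_of_le (by linarith)]
      exact setIntegral_le_integral hint.norm (Eventually.of_forall fun r => norm_nonneg _)
    · rw [intervalIntegral.integral_undef hI, map_zero, norm_zero]
      exact hnn
  have h6 : indK {z | ρ < z.2 - inner ℝ y0 (z.1 : E)} (k t0) =
      indK {z | ρ < z.2 - inner ℝ y0 (z.1 : E)} (tau (-s) (k (t0 + s))) +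
      indK {z | ρ < z.2 - inner ℝ y0 (z.1 : E)}
        (∫ r in t0..(t0 + s), tau (t0 - r) (NL (k r))) := by
    rw [← map_add, ← e2]
  rw [h6]
  refine (norm_add_le _ _).trans ?_
  rw [h4]
  exact add_le_add le_rfl h5

lemma first_le (hInd : St_Ind) (hL8 : St_L8) {κ A : ℝ} {m : ℝ → ℝ} {k : ℝ → K} {y : ℝ → E}
    (hκ : 0 < κ) (hP : Pth κ A m k y) (t0 ρ : ℝ) (hρ : 0 ≤ ρ) (s : ℝ) (hs : 0 ≤ s) :
    ‖indK {z | ρ + s < z.2 - inner ℝ (y t0) (z.1 : E)} (k (t0 + s))‖ ≤ m (ρ + κ * s) := by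
  obtain ⟨h1, h2, h3, h4⟩ := hP
  have h5 := h4 (t0 + s) (ρ + κ * s)
  have h6 := (hL8 (y (t0 + s)) (ρ + κ * s) (k (t0 + s)) (by positivity)).1
  refine (hInd.2.1 _ {z | ρ + κ * s < |z.2 - inner ℝ (y (t0 + s)) (z.1 : E)|} _
    (meas_out _ _) (meas_abs _ _) ?_).trans (h6.trans h5)
  intro z hz
  have hz' : ρ + s < z.2 - inner ℝ (y t0) (z.1 : E) := hz
  have h7 := h3 t0 (t0 + s)
  have e1 : t0 + s - t0 = s := by ring
  rw [e1, abs_of_nonneg hs] at h7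
  have h8 : inner ℝ (y (t0 + s) - y t0) (z.1 : E) ≤ ‖y (t0 + s) - y t0‖ * ‖(z.1 : E)‖ :=
    real_inner_le_norm _ _
  have h9 : ‖(z.1 : E)‖ = 1 := by
    simp
  rw [h9, mul_one, ← dist_eq_norm, inner_sub_left] at h8
  have h10 : ρ + κ * s < z.2 - inner ℝ (y (t0 + s)) (z.1 : E) := by linarith
  exact lt_of_lt_of_le h10 (le_abs_self _)

end P1ax

open P1ax in
theorem thm_P1a (hInd : St_Ind) (hNLo : St_NLo) (hNLi : St_NLi) (hExB : St_ExB) (hL8 : St_L8)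
    (hExt : St_Ext) : St_P1a := by
  obtain ⟨d, C, hd, hC, hE⟩ := hExt
  refine ⟨d, C, hd, hC, ?_⟩
  intro κ A m k y hκ hκ1 hP hm t ρ hρ hex
  obtain ⟨k', hk', -, -, hint, hbd, -, -, hV⟩ :=
    hE univ k t (ext (y t) ρ) hP.1 (mem_univ _) (isOpen_ext _ _) hex
  have hV' : ∀ r, Van (shr (ext (y t) ρ) |r - t|) (k r - k' r) := fun r => (hV r (mem_univ _)).1
  have h1 : ∀ s : ℝ, 0 ≤ s → ‖indK {z | ρ < z.2 - inner ℝ (y t) (z.1 : E)} (k t)‖ ≤
      m (ρ + κ * s) + C * ex (ext (y t) ρ) (k t) ^ 5 := by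
    intro s hs
    refine (key hInd hNLo hNLi hExB hP.1 hk' t ρ hρ (y t) hV' hint s hs).trans ?_
    exact add_le_add (first_le hInd hL8 hκ hP t ρ hρ s hs) hbd
  have h2 : Tendsto (fun s : ℝ => ρ + κ * s) atTop atTop :=
    tendsto_atTop_add_const_left _ _ (tendsto_id.const_mul_atTop hκ)
  have h3 : Tendsto (fun s : ℝ => m (ρ + κ * s) + C * ex (ext (y t) ρ) (k t) ^ 5) atTop
      (𝓝 (0 + C * ex (ext (y t) ρ) (k t) ^ 5)) :=
    (hm.comp h2).add tendsto_const_nhds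
  rw [zero_add] at h3
  exact ge_of_tendsto h3 ((eventually_ge_atTop 0).mono fun s hs => h1 s hs)

end Pool.Agent.QWE
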