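import Pool.Agent.QWE.Loc
import Pool.Agent.QWE.StE

set_option autoImplicit false

/-!
# QWE, module P3a: decomposition at time zero
-/

open MeasureTheory Filter Topology Set
open scoped ENNReal NNReal RealInnerProductSpace

namespace Pool.Agent.QWE

namespace P3ax

lemma int_tau0 (hG : St_Grp1) {μ : Measure ℝ} {G : ℝ → K} (h : Integrable G μ) :
    Integrable (fun r => tau (-r) (G r)) μ := by
  have h1 := Locx.int_tau hG h 0
  refine h1.congr (Eventually.of_forall fun r => ?_)
  change tau (0 - r) (G r) = tau (-r) (G r)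
  rw [zero_sub]

end P3ax

theorem thm_P3a (hG : St_Grp1) (hN : St_NLi) : St_P3a := by
  intro k hk θ hθ hθ1 T hT
  obtain ⟨h1, h2⟩ := hN univ k hk
  have hint := (h1 0 (mem_univ _) T (mem_univ _)).1
  have hG0 : IntegrableOn (fun r => tau (-r) (NL (k r))) (Icc 0 T) volume :=
    P3ax.int_tau0 hG hint
  have hii : IntervalIntegrable (fun r => tau (-r) (NL (k r))) volume 0 T := by
    rw [intervalIntegrable_iff_integrableOn_Icc_of_le hT]
    exact hG0
  have hb : ∀ z, |θ z| ≤ 1 := fun z => abs_le.mpr ⟨by linarith [(hθ1 z).1], (hθ1 z).2⟩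
  have hii2 : IntervalIntegrable (fun r => mulK θ (tau (-r) (NL (k r)))) volume 0 T := by
    constructor
    · exact (mulK θ).integrable_comp hii.1
    · exact (mulK θ).integrable_comp hii.2
  refine ⟨hii2, ?_⟩
  have h3 := h2 0 (mem_univ _) T (mem_univ _)
  rw [zero_sub] at h3
  have h4 : (∫ r in (0 : ℝ)..T, tau (0 - r) (NL (k r))) =
      ∫ r in (0 : ℝ)..T, tau (-r) (NL (k r)) := by
    refine intervalIntegral.integral_congr fun r _ => ?_
    change tau (0 - r) (NL (k r)) = tau (-r) (NL (k r))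
    rw [zero_sub]
  rw [h4] at h3
  have h5 : mulK θ (k 0) = mulK θ (tau (-T) (k T)) +
      ∫ r in (0 : ℝ)..T, mulK θ (tau (-r) (NL (k r))) := by
    rw [h3, map_sub, ← ContinuousLinearMap.intervalIntegral_comp_comm _ hii, sub_add_cancel]
  have h6 : k 0 = mulK (fun z => 1 - θ z) (k 0) + mulK θ (k 0) := by
    apply Lp.ext
    have hb' : ∀ z, |1 - θ z| ≤ 1 := fun z =>
      abs_le.mpr ⟨by linarith [(hθ1 z).2], by linarith [(hθ1 z).1]⟩
    filter_upwards [mulK_coe (θ := fun z => 1 - θ z) (measurable_const.sub hθ) hb' (k 0),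
      mulK_coe hθ hb (k 0), Lp.coeFn_add (mulK (fun z => 1 - θ z) (k 0)) (mulK θ (k 0))]
      with z e1 e2 e3
    rw [e3, Pi.add_apply, e1, e2]
    ring
  rw [add_assoc, ← h5]
  exact h6

end Pool.Agent.QWE
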