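import Pool.Agent.QWE.StA
import Pool.Agent.QWE.StE

set_option autoImplicit false

/-!
# QWE, module P3b: the first two terms
-/

open MeasureTheory Filter Topology Set
open scoped ENNReal NNReal RealInnerProductSpace

namespace Pool.Agent.QWE

namespace P3bx

/-- multiplication and translation -/
lemma mulK_tau (θ : S × ℝ → ℝ) (k : K) (s : ℝ) (hθ : Measurable θ) (hb : ∀ z, |θ z| ≤ 1) :
    mulK θ (tau s k) = tau s (mulK (fun z => θ (z.1, z.2 + s)) k) := by
  have hm : Measurable fun z : S × ℝ => (z.1, z.2 + s) := by fun_prop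
  have hmp : MeasurePreserving (fun z : S × ℝ => (z.1, z.2 - s)) mu mu :=
    mp_shift (g := fun _ => s) measurable_const
  apply Lp.ext
  filter_upwards [mulK_coe hθ hb (tau s k), tau_coe s k,
    tau_coe s (mulK (fun z => θ (z.1, z.2 + s)) k),
    hmp.quasiMeasurePreserving.ae (mulK_coe (θ := fun z => θ (z.1, z.2 + s)) (hθ.comp hm)
      (fun z => hb _) k)] with z e1 e2 e3 e4
  rw [e1, e2, e3, e4]
  change θ z * k (z.1, z.2 - s) = θ (z.1, z.2 - s + s) * k (z.1, z.2 - s)
  rw [sub_add_cancel]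

lemma inner_le (y : E) (w : S) : |(inner ℝ y (w : E) : ℝ)| ≤ ‖y‖ := by
  have h1 := abs_real_inner_le_norm y (w : E)
  have h2 : ‖(w : E)‖ = 1 := by
    have := w.2
    rwa [mem_sphere_zero_iff_norm] at this
  rwa [h2, mul_one] at h1

end P3bx

open P3bx

theorem thm_P3b (hInd : St_Ind) (hP1 : St_P1) : St_P3b := by
  obtain ⟨d, C, hd, hC, h⟩ := hP1
  refine ⟨d, hd, C, hC, ?_⟩
  intro κ A m k y θ R hκ0 hκ1 hP hanti hm hy0 hθ hθ1 hθ2 hθ3 hR hmd
  obtain ⟨hsol, hkA, hy, hex⟩ := id hP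
  have hmeas : Measurable fun z : S × ℝ => θ (z.2 / R) := hθ.comp (by fun_prop)
  constructor
  · have h1 := h κ A m k y hκ0 hκ1 hP hm 0 (κ / 24 * R) (by positivity) ((hex _ _).trans hmd)
    rw [hy0] at h1
    have hB : MeasurableSet {z : S × ℝ | κ / 24 * R < |z.2 - inner ℝ (0 : E) (z.1 : E)|} :=
      measurableSet_lt measurable_const (by fun_prop)
    have h2 := hInd.2.2.2.2.2.2.2.1 (fun z : S × ℝ => 1 - θ (z.2 / R)) _ (k 0)
      (measurable_const.sub hmeas)
      (fun z => abs_le.mpr ⟨by linarith [(hθ1 (z.2 / R)).2], by linarith [(hθ1 (z.2 / R)).1]⟩) hB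
      (fun z hz => by
        change κ / 24 * R < |z.2 - inner ℝ (0 : E) (z.1 : E)|
        rw [inner_zero_left, sub_zero]
        by_contra hcon
        rw [not_lt] at hcon
        apply hz
        have h3 : |z.2 / R| ≤ κ / 24 := by
          rw [abs_div, abs_of_pos hR, div_le_iff₀ hR]
          exact hcon
        rw [hθ2 _ h3, sub_self])
    refine h2.trans (h1.trans ?_)
    have h4 := hex 0 (κ / 24 * R)
    rw [hy0] at h4
    have h5 : 0 ≤ ex (ext 0 (κ / 24 * R)) (k 0) := norm_nonneg _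
    gcongr
  · obtain ⟨T, hT⟩ : ∃ T : ℝ, T = R / κ + R / 12 := ⟨_, rfl⟩
    rw [← hT]
    have hκT : κ * T = R + κ * R / 12 := by
      rw [hT]
      field_simp
    have hT0 : 0 < T := by rw [hT]; positivity
    have hmR : m R ≤ m (κ / 24 * R) := hanti (by nlinarith)
    have h1 := h κ A m k y hκ0 hκ1 hP hm T R hR.le ((hex _ _).trans (hmR.trans hmd))
    rw [mulK_tau _ _ _ hmeas (fun z => abs_le.mpr ⟨by linarith [(hθ1 (z.2 / R)).1],
      (hθ1 (z.2 / R)).2⟩), (tau _).norm_map]
    have hB : MeasurableSet {z : S × ℝ | R < |z.2 - inner ℝ (y T) (z.1 : E)|} :=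
      measurableSet_lt measurable_const (by fun_prop)
    have hyT : ‖y T‖ ≤ (1 - κ) * T := by
      have h3 := hy 0 T
      rw [hy0, dist_zero_right, sub_zero, abs_of_pos hT0] at h3
      exact h3
    have h2 := hInd.2.2.2.2.2.2.2.1 (fun z : S × ℝ => θ ((z.2 + -T) / R)) _ (k T)
      (hθ.comp (by fun_prop))
      (fun z => abs_le.mpr ⟨by linarith [(hθ1 ((z.2 + -T) / R)).1], (hθ1 ((z.2 + -T) / R)).2⟩) hB
      (fun z hz => by
        change R < |z.2 - inner ℝ (y T) (z.1 : E)|
        have h4 : |(z.2 + -T) / R| < κ / 12 := by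
          by_contra hcon
          rw [not_lt] at hcon
          exact hz (hθ3 _ hcon)
        rw [abs_div, abs_of_pos hR, div_lt_iff₀ hR] at h4
        have h5 := (abs_lt.mp h4).1
        have h6 := (abs_le.mp (inner_le (y T) z.1)).2
        have h7 : R < z.2 - inner ℝ (y T) (z.1 : E) := by nlinarith
        exact lt_of_lt_of_le h7 (le_abs_self _))
    refine h2.trans (h1.trans ?_)
    have h4 := (hex T R).trans hmR
    have h5 : 0 ≤ ex (ext (y T) R) (k T) := norm_nonneg _
    gcongr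

end Pool.Agent.QWE
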