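import Pool.Agent.QWE.StA
import Pool.Agent.QWE.StE

set_option autoImplicit false

/-!
# QWE, P3c: near field estimate of the core source (helper25)
-/

open MeasureTheory Filter Topology Set
open scoped ENNReal NNReal RealInnerProductSpace

namespace Pool.Agent.QWE.P3cx

lemma inner_le (Y : E) (w : S) : inner ℝ Y (w : E) ≤ ‖Y‖ := by
  have h1 := real_inner_le_norm Y (w : E)
  have h2 : ‖(w : E)‖ = 1 := norm_eq_of_mem_sphere w
  rwa [h2, mul_one] at h1

/-- the fifth power of the position field is integrable on balls -/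
lemma int5 (hF : St_Fld) (k : K) (Y : E) (R : ℝ) :
    IntegrableOn (fun x => |U k x| ^ 5) (Metric.ball Y R) volume := by
  obtain ⟨C, hC, hF⟩ := hF
  have h1 : MemLp (U k) 10 (volume.restrict (Metric.ball Y R)) := (hF k).1.1.restrict _
  have hfin : IsFiniteMeasure ((volume : Measure E).restrict (Metric.ball Y R)) :=
    ⟨by rw [Measure.restrict_apply_univ]; exact measure_ball_lt_top⟩
  have h2 : MemLp (U k) (5 : ℕ) (volume.restrict (Metric.ball Y R)) :=
    h1.mono_exponent (by norm_num)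
  have h3 := h2.integrable_norm_pow (by norm_num)
  exact h3

end Pool.Agent.QWE.P3cx

namespace Pool.Agent.QWE

open P3cx

theorem thm_P3c (hFld : St_Fld) (hNF : St_NF) (hInd : St_Ind) (hNLo : St_NLo)
    (hCore : St_Core) : St_P3c := by
  intro κ θ hκ0 hκ1 hθs hθ01 hθ0
  obtain ⟨C1, hC1⟩ := hNF θ hθs (fun p => by
    rw [abs_le]
    constructor
    · linarith [(hθ01 p).1]
    · exact (hθ01 p).2) (fun p hp => hθ0 p (by linarith))
  obtain ⟨C2, hC2, hcore⟩ := hCore
  obtain ⟨-, -, -, -, itau, -, -, -, imul⟩ := hInd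
  obtain ⟨-, nlo⟩ := hNLo
  have hCpos : 0 < (|C1| + 1) * (1 + C2) := by positivity
  refine ⟨(|C1| + 1) * (1 + C2), hCpos, ?_⟩
  intro R s k k' Y hR hs hY hk hk' hV
  have hc : 0 < κ / 24 * R := by positivity
  have hmθ : Measurable fun z : S × ℝ => θ (z.2 / R) :=
    (ContDiff.continuous hθs).measurable.comp (measurable_snd.div_const R)
  have hθ1 : ∀ z : S × ℝ, |θ (z.2 / R)| ≤ 1 := fun z => by
    rw [abs_le]
    constructor
    · linarith [(hθ01 (z.2 / R)).1]
    · exact (hθ01 (z.2 / R)).2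
  constructor
  · intro hsR
    have h1 := nlo Y (κ / 24 * R) k k' hc.le hk hk' hV
    set B : Set (S × ℝ) := {z | κ / 24 * R < |z.2 + s - inner ℝ Y (z.1 : E)|} with hB
    have hBm : MeasurableSet B := by
      apply measurableSet_lt measurable_const
      fun_prop
    refine imul _ B _ hmθ hθ1 hBm ?_ ?_
    · rw [itau B _ (-s) hBm]
      have h2 : {z : S × ℝ | (z.1, z.2 + -s) ∈ B} =
          {z : S × ℝ | κ / 24 * R < |z.2 - inner ℝ Y (z.1 : E)|} := by
        ext z
        simp only [hB, mem_ofPred_eq]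
        rw [show z.2 + -s + s - inner ℝ Y (z.1 : E) = z.2 - inner ℝ Y (z.1 : E) by ring]
      rw [h2, h1, map_zero]
    · intro z hz
      have h3 : |z.2 / R| < κ / 12 := by
        by_contra h
        exact hz (hθ0 _ (not_lt.1 h))
      have h4 : -(κ / 12 * R) < z.2 := by
        have h5 := (abs_lt.1 h3).1
        rw [lt_div_iff₀ hR] at h5
        linarith
      have h6 := inner_le Y z.1
      have h7 : κ / 24 * R < z.2 + s - inner ℝ Y (z.1 : E) := by nlinarith
      exact h7.trans_le (le_abs_self _)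
  · intro hsR
    obtain ⟨F, G, hF2, hF103, hG, hF0, hGam, hFi, hFb⟩ :=
      hcore k k' Y (κ / 24 * R) hc hk hk' hV
    have h1 := hC1 R F G s hR hF2 hF103 hG (Eventually.of_forall fun x hx => by
      apply hF0
      have h2 : ‖x‖ - ‖Y‖ ≤ dist x Y := by
        rw [dist_eq_norm]
        exact norm_sub_norm_le x Y
      have h3 : (1 - κ) * s ≤ (1 - κ) * (R / 8) :=
        mul_le_mul_of_nonneg_left hsR (by linarith)
      have h4 : 0 < κ * R := mul_pos hκ0 hR
      nlinarith) hs hsR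
    rw [hGam]
    refine h1.trans ?_
    set I : ℝ := ∫ x in Metric.ball Y R, |U k x| ^ 5 with hI
    have hI0 : 0 ≤ I := setIntegral_nonneg measurableSet_ball fun x _ => by positivity
    have h2 : ∫ x in Metric.ball Y (κ / 24 * R), |U k x| ^ 5 ≤ I := by
      refine setIntegral_mono_set (int5 hFld k Y R) (Eventually.of_forall fun x => by
        simp only [Pi.zero_apply]; positivity) ?_
      refine (Metric.ball_subset_ball ?_).eventuallyLE
      nlinarith
    have h3 : (κ / 24 * R) ^ (5 / 2 : ℝ) ≤ R ^ (5 / 2 : ℝ) :=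
      Real.rpow_le_rpow hc.le (by nlinarith) (by norm_num)
    have h4 : ∫ x, |F x| ≤ I + C2 * (R ^ (5 / 2 : ℝ) * ‖k'‖ ^ 5) := by
      refine hFb.trans (add_le_add h2 ?_)
      rw [mul_assoc]
      exact mul_le_mul_of_nonneg_left (mul_le_mul_of_nonneg_right h3 (by positivity)) hC2.le
    have hT0 : 0 ≤ R ^ (5 / 2 : ℝ) * ‖k'‖ ^ 5 := by positivity
    have h5 : ∫ x, |F x| ≤ (1 + C2) * (I + R ^ (5 / 2 : ℝ) * ‖k'‖ ^ 5) := by
      refine h4.trans ?_
      nlinarith [mul_nonneg hC2.le hI0]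
    have h6 : 0 ≤ ∫ x, |F x| := integral_nonneg fun x => abs_nonneg _
    have hR7 : 0 ≤ R ^ (-(7 / 2 : ℝ)) := by positivity
    calc C1 * R ^ (-(7 / 2 : ℝ)) * ∫ x, |F x|
        ≤ (|C1| + 1) * R ^ (-(7 / 2 : ℝ)) * ∫ x, |F x| := by
          refine mul_le_mul_of_nonneg_right (mul_le_mul_of_nonneg_right ?_ hR7) h6
          linarith [le_abs_self C1]
      _ ≤ (|C1| + 1) * R ^ (-(7 / 2 : ℝ)) *
          ((1 + C2) * (I + R ^ (5 / 2 : ℝ) * ‖k'‖ ^ 5)) :=
          mul_le_mul_of_nonneg_left h5 (mul_nonneg (by positivity) hR7)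
      _ = (|C1| + 1) * (1 + C2) * R ^ (-(7 / 2 : ℝ)) *
          (I + R ^ (5 / 2 : ℝ) * ‖k'‖ ^ 5) := by ring

end Pool.Agent.QWE
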