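import Pool.Agent.QWE.StE

set_option autoImplicit false

/-!
# QWE, P3d: exterior solutions on short time intervals
-/

open MeasureTheory Filter Topology Set
open scoped ENNReal NNReal RealInnerProductSpace

namespace Pool.Agent.QWE

namespace P3dx

lemma TS_mono {Ω Ω' : Set E} (h : Ω' ⊆ Ω) : TS Ω' ≤ TS Ω := by
  refine Submodule.topologicalClosure_mono (Submodule.span_mono ?_)
  rintro w ⟨φ, h1, h2, h3⟩
  exact ⟨φ, h1, h2.trans h, h3⟩

lemma Van_anti {Ω Ω' : Set E} (h : Ω' ⊆ Ω) {k : K} (hk : Van Ω k) : Van Ω' k :=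
  Submodule.orthogonal_le (TS_mono h) hk

lemma isOpen_ext (y : E) (ρ : ℝ) : IsOpen (ext y ρ) :=
  isOpen_lt continuous_const (continuous_id.dist continuous_const)

lemma ext_sub_shr {y y' : E} {ρ τ : ℝ} (h : dist y y' ≤ ρ / 2) (hτ : τ ≤ ρ / 2) :
    ext y (2 * ρ) ⊆ shr (ext y' ρ) τ := by
  intro x hx
  have hx' : 2 * ρ < dist x y := hx
  have h1 : dist x y ≤ dist x y' + dist y' y := dist_triangle _ _ _
  rw [dist_comm y' y] at h1
  refine ⟨dist x y' - ρ, by linarith, ?_⟩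
  intro z hz
  have hz' : dist z x < dist x y' - ρ := hz
  have h2 : dist x y' ≤ dist x z + dist z y' := dist_triangle _ _ _
  rw [dist_comm x z] at h2
  change ρ < dist z y'
  linarith

end P3dx

open P3dx in
theorem thm_P3d (hExt : St_Ext) : St_P3d := by
  obtain ⟨d, C, hd, hC, h⟩ := hExt
  refine ⟨d, C, hd, hC, ?_⟩
  intro κ A m k y hκ0 hκ1 hP ρ t1 hρ hm
  obtain ⟨hsol, -, hy, hex⟩ := hP
  have he : ex (ext (y t1) ρ) (k t1) ≤ m ρ := hex t1 ρ
  have he0 : 0 ≤ ex (ext (y t1) ρ) (k t1) := norm_nonneg _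
  obtain ⟨k', k1, -, k3, k4, k5, -, -, k8⟩ := h univ k t1 (ext (y t1) ρ) hsol (mem_univ _)
    (isOpen_ext _ _) (he.trans hm)
  refine ⟨k', k1, fun t => (k3 t).trans (by linarith), k4, k5.trans ?_, fun t ht => ?_⟩
  · gcongr
  · refine Van_anti (ext_sub_shr ?_ ht) (k8 t (mem_univ _)).1
    have h1 := hy t1 t
    have h2 : (1 - κ) * |t - t1| ≤ 1 * |t - t1| :=
      mul_le_mul_of_nonneg_right (by linarith) (abs_nonneg _)
    linarith

end Pool.Agent.QWE
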