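import Pool.Agent.QWE.StA
import Pool.Agent.QWE.StE

set_option autoImplicit false

/-!
# QWE, module P3e: the Duhamel term
-/

open MeasureTheory Filter Topology Set
open scoped ENNReal NNReal RealInnerProductSpace

namespace Pool.Agent.QWE

namespace P3ex

/-- choice of the short interval -/
lemma pick {κ R s : ℝ} {J : ℕ} (hκ : 0 < κ) (hR : 0 < R) (hJ : (1 / κ + 1 / 12) * (96 / κ) < J)
    (hs0 : 0 < s) (hs : s ≤ R / κ + R / 12) :
    ∃ n : ℕ, n < J ∧ |s - n * (κ / 48 * R / 2)| ≤ κ / 48 * R / 2 := by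
  obtain ⟨h, hh⟩ : ∃ h : ℝ, h = κ / 48 * R / 2 := ⟨_, rfl⟩
  have hh0 : 0 < h := by rw [hh]; positivity
  rw [← hh]
  have h1 : 0 ≤ s / h := by positivity
  have h2 := Nat.floor_le h1
  have h3 := Nat.lt_floor_add_one (s / h)
  rw [le_div_iff₀ hh0] at h2
  rw [div_lt_iff₀ hh0] at h3
  refine ⟨⌊s / h⌋₊, ?_, ?_⟩
  · rw [Nat.floor_lt h1, div_lt_iff₀ hh0]
    refine lt_of_le_of_lt hs ?_
    have h4 : (1 / κ + 1 / 12) * (96 / κ) * h = R / κ + R / 12 := by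
      rw [hh]
      field_simp
      ring
    rw [← h4]
    exact mul_lt_mul_of_pos_right hJ hh0
  · rw [abs_le]
    constructor
    · linarith
    · linarith

lemma rpow_aux {R : ℝ} (hR : 0 < R) (B b : ℝ) :
    R * (R ^ (-(7 / 2 : ℝ)) * (B + R ^ (5 / 2 : ℝ) * b)) = R ^ (-(5 / 2 : ℝ)) * B + b := by
  have h1 : R * R ^ (-(7 / 2 : ℝ)) = R ^ (-(5 / 2 : ℝ)) := by
    have h2 := Real.rpow_add hR 1 (-(7 / 2 : ℝ))
    rw [Real.rpow_one] at h2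
    rw [← h2]
    norm_num
  have h3 : R ^ (-(5 / 2 : ℝ)) * R ^ (5 / 2 : ℝ) = 1 := by
    rw [← Real.rpow_add hR]
    norm_num
  calc R * (R ^ (-(7 / 2 : ℝ)) * (B + R ^ (5 / 2 : ℝ) * b))
      = (R * R ^ (-(7 / 2 : ℝ))) * (B + R ^ (5 / 2 : ℝ) * b) := by ring
    _ = R ^ (-(5 / 2 : ℝ)) * B + (R ^ (-(5 / 2 : ℝ)) * R ^ (5 / 2 : ℝ)) * b := by
        rw [h1]
        ring
    _ = _ := by rw [h3, one_mul]

/-- the pointwise bound of the integrand -/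
lemma bound (hExB : St_ExB) (hInd : St_Ind) {κ C2 : ℝ} {θ : ℝ → ℝ}
    (h2 : ∀ (R s : ℝ) (k k' : K) (Y : E), 0 < R → 0 ≤ s →
      ‖Y‖ ≤ (1 - κ) * s → sn k < ⊤ → sn k' < ⊤ → Van (ext Y (κ / 24 * R)) (k - k') →
      (R / 8 < s → mulK (fun z => θ (z.2 / R)) (tau (-s) (NL k - NL k')) = 0) ∧
      (s ≤ R / 8 → ex (ext 0 R) (mulK (fun z => θ (z.2 / R)) (tau (-s) (NL k - NL k'))) ≤
      C2 * R ^ (-(7 / 2 : ℝ)) * ((∫ x in Metric.ball Y R, |U k x| ^ 5) + R ^ (5 / 2 : ℝ) * ‖k'‖ ^ 5)))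
    (hC2 : 0 < C2) {R s b B : ℝ} {k k' : K} {Y : E} (hR : 0 < R) (hs : 0 < s)
    (hY : ‖Y‖ ≤ (1 - κ) * s) (hk : sn k < ⊤) (hk' : sn k' < ⊤)
    (hV : Van (ext Y (κ / 24 * R)) (k - k'))
    (hB : ∫ x in Metric.ball Y R, |U k x| ^ 5 ≤ B) (hB0 : 0 ≤ B) (hb : ‖k'‖ ≤ b) :
    ‖pr (ext 0 R) (mulK (fun z => θ (z.2 / R)) (tau (-s) (NL k)))‖ ≤ ‖NL k'‖ +
      (Ioc 0 (R / 8)).indicator (fun _ => C2 * (R ^ (-(7 / 2 : ℝ)) *
        (B + R ^ (5 / 2 : ℝ) * b ^ 5))) s := by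
  obtain ⟨h3, h4⟩ := h2 R s k k' Y hR hs.le hY hk hk' hV
  have hb0 : 0 ≤ b := (norm_nonneg _).trans hb
  have e1 : mulK (fun z => θ (z.2 / R)) (tau (-s) (NL k)) =
      mulK (fun z => θ (z.2 / R)) (tau (-s) (NL k')) +
        mulK (fun z => θ (z.2 / R)) (tau (-s) (NL k - NL k')) := by
    rw [← map_add, ← map_add, add_sub_cancel]
  rw [e1, map_add]
  refine (norm_add_le _ _).trans (add_le_add ?_ ?_)
  · have h5 := hExB.2.1 (ext 0 R) (mulK (fun z => θ (z.2 / R)) (tau (-s) (NL k')))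
    have h6 := hInd.2.2.1 (fun z => θ (z.2 / R)) (tau (-s) (NL k'))
    rw [(tau (-s)).norm_map] at h6
    exact h5.trans h6
  · by_cases hsR : s ≤ R / 8
    · rw [indicator_of_mem (show s ∈ Ioc 0 (R / 8) from ⟨hs, hsR⟩)]
      refine (h4 hsR).trans ?_
      rw [mul_assoc]
      have h7 : ‖k'‖ ^ 5 ≤ b ^ 5 := pow_le_pow_left₀ (norm_nonneg _) hb 5
      have h8 : 0 ≤ R ^ (5 / 2 : ℝ) := Real.rpow_nonneg hR.le _
      have h9 : 0 ≤ R ^ (-(7 / 2 : ℝ)) := Real.rpow_nonneg hR.le _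
      refine mul_le_mul_of_nonneg_left (mul_le_mul_of_nonneg_left (add_le_add hB
        (mul_le_mul_of_nonneg_left h7 h8)) h9) hC2.le
    · rw [h3 (not_le.mp hsR), map_zero, norm_zero]
      refine indicator_nonneg (fun _ _ => ?_) s
      have h8 : 0 ≤ R ^ (5 / 2 : ℝ) := Real.rpow_nonneg hR.le _
      have h9 : 0 ≤ R ^ (-(7 / 2 : ℝ)) := Real.rpow_nonneg hR.le _
      positivity

end P3ex

open P3ex

theorem thm_P3e (hExB : St_ExB) (hInd : St_Ind) (hNLi : St_NLi) (hP3a : St_P3a) (hP3c : St_P3c)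
    (hP3d : St_P3d) : St_P3e := by
  obtain ⟨d, C1, hd, hC1, h1⟩ := hP3d
  refine ⟨d, hd, ?_⟩
  intro κ θ hκ0 hκ1 hθ hθ1 hθ2
  obtain ⟨C2, hC2, h2⟩ := hP3c κ θ hκ0 hκ1 hθ hθ1 hθ2
  obtain ⟨J, hJ⟩ := exists_nat_gt ((1 / κ + 1 / 12) * (96 / κ))
  refine ⟨J * C1 + 4 * C2, by positivity, ?_⟩
  intro A m k y R B hR hP hy0 hmd hB
  obtain ⟨hsol, hkA, hy, hex⟩ := id hP
  obtain ⟨ρ, hρ⟩ : ∃ ρ : ℝ, ρ = κ / 48 * R := ⟨_, rfl⟩
  have hρ0 : 0 < ρ := by rw [hρ]; positivity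
  have hJ' := fun s hs0 hs => pick (s := s) hκ0 hR hJ hs0 hs
  rw [← hρ] at hmd hJ' ⊢
  have hm0 : 0 ≤ m ρ := le_trans (norm_nonneg _) (hex 0 ρ)
  have hB0 : 0 ≤ B := by
    refine le_trans ?_ (hB 0)
    exact integral_nonneg fun x => by positivity
  choose k' hk'sol hk'b hk'i hk'I hk'V using fun n : ℕ => h1 κ A m k y hκ0 hκ1 hP ρ
    (n * (ρ / 2)) hρ0 hmd
  obtain ⟨T, hT⟩ : ∃ T : ℝ, T = R / κ + R / 12 := ⟨_, rfl⟩
  rw [← hT] at hJ' ⊢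
  have hT0 : 0 ≤ T := by rw [hT]; positivity
  have hθc : Continuous θ := hθ.continuous
  have hΦ := (hP3a k hsol (fun z => θ (z.2 / R)) (hθc.measurable.comp (by fun_prop))
    (fun z => hθ1 _) T hT0).1
  obtain ⟨c3, hc3⟩ : ∃ c3 : ℝ, c3 = C2 * (R ^ (-(7 / 2 : ℝ)) *
        (B + R ^ (5 / 2 : ℝ) * (2 * m ρ) ^ 5)) := ⟨_, rfl⟩
  have hc30 : 0 ≤ c3 := by
    rw [hc3]
    have h8 : 0 ≤ R ^ (5 / 2 : ℝ) := Real.rpow_nonneg hR.le _
    have h9 : 0 ≤ R ^ (-(7 / 2 : ℝ)) := Real.rpow_nonneg hR.le _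
    positivity
  obtain ⟨G, hG⟩ : ∃ G : ℝ → ℝ, G = fun s => ∑ n ∈ Finset.range J, ‖NL (k' n s)‖ +
    (Ioc 0 (R / 8)).indicator (fun _ => c3) s := ⟨_, rfl⟩
  have hind : Integrable ((Ioc 0 (R / 8)).indicator (fun _ : ℝ => c3)) volume := by
    rw [integrable_indicator_iff measurableSet_Ioc]
    exact integrableOn_const (by simp) (by simp)
  have hsumi : Integrable (fun s => ∑ n ∈ Finset.range J, ‖NL (k' n s)‖) volume :=
    integrable_finsetSum _ fun n _ => (hk'i n).norm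
  have hGi : Integrable G volume := by
    rw [hG]
    exact hsumi.add hind
  have hG0 : ∀ s, 0 ≤ G s := by
    intro s
    rw [hG]
    exact add_nonneg (Finset.sum_nonneg fun _ _ => norm_nonneg _)
      (indicator_nonneg (fun _ _ => hc30) s)
  have hae1 : ∀ᵐ s ∂(volume : Measure ℝ), s ∈ Icc 0 T → sn (k s) < ⊤ := by
    have := ((hNLi univ k hsol).1 0 (mem_univ _) T (mem_univ _)).2
    rwa [ae_restrict_iff' measurableSet_Icc] at this
  have hae2 : ∀ᵐ s ∂(volume : Measure ℝ), ∀ n, s ∈ Icc 0 T → sn (k' n s) < ⊤ := by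
    rw [ae_all_iff]
    intro n
    have := ((hNLi univ (k' n) (hk'sol n)).1 0 (mem_univ _) T (mem_univ _)).2
    rwa [ae_restrict_iff' measurableSet_Icc] at this
  have hle : ∀ᵐ s ∂(volume : Measure ℝ), s ∈ Ioc 0 T →
      ‖pr (ext 0 R) (mulK (fun z => θ (z.2 / R)) (tau (-s) (NL (k s))))‖ ≤ G s := by
    filter_upwards [hae1, hae2] with s e1 e2 hs
    have hsI : s ∈ Icc 0 T := Ioc_subset_Icc_self hs
    obtain ⟨n, hnJ, hn⟩ := hJ' s hs.1 hs.2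
    have hV := hk'V n s hn
    rw [show 2 * ρ = κ / 24 * R by rw [hρ]; ring] at hV
    have hYs : ‖y s‖ ≤ (1 - κ) * s := by
      have h3 := hy 0 s
      rw [hy0, dist_zero_right, sub_zero, abs_of_pos hs.1] at h3
      exact h3
    have h5 := bound hExB hInd h2 hC2 hR hs.1 hYs (e1 hsI) (e2 n hsI) hV (hB s) hB0 (hk'b n s)
    rw [← hc3] at h5
    refine h5.trans ?_
    rw [hG]
    refine add_le_add ?_ le_rfl
    exact Finset.single_le_sum (f := fun n => ‖NL (k' n s)‖) (fun _ _ => norm_nonneg _)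
      (Finset.mem_range.mpr hnJ)
  have h6 : ex (ext 0 R) (∫ s in (0 : ℝ)..T, mulK (fun z => θ (z.2 / R)) (tau (-s) (NL (k s)))) ≤
      ∫ s in (0 : ℝ)..T, G s := by
    unfold ex
    rw [← ContinuousLinearMap.intervalIntegral_comp_comm _ hΦ]
    exact intervalIntegral.norm_integral_le_of_norm_le hT0 hle hGi.intervalIntegrable
  have h7 : ∫ s in (0 : ℝ)..T, G s ≤ ∫ s, G s := by
    rw [intervalIntegral.integral_of_le hT0]
    exact setIntegral_le_integral hGi (Eventually.of_forall hG0)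
  have h8 : ∫ s, G s ≤ J * (C1 * m ρ ^ 5) + c3 * (R / 8) := by
    rw [hG, integral_add hsumi hind, integral_finsetSum _ fun n _ => (hk'i n).norm]
    refine add_le_add ?_ ?_
    · refine (Finset.sum_le_sum fun n _ => hk'I n).trans ?_
      rw [Finset.sum_const, Finset.card_range, nsmul_eq_mul]
    · rw [integral_indicator measurableSet_Ioc, setIntegral_const, smul_eq_mul, mul_comm]
      refine mul_le_mul_of_nonneg_left ?_ hc30
      rw [measureReal_def, Real.volume_Ioc, sub_zero, ENNReal.toReal_ofReal (by positivity)]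
  have h9 : c3 * (R / 8) = C2 / 8 * (R ^ (-(5 / 2 : ℝ)) * B) + 4 * C2 * m ρ ^ 5 := by
    have e1 := rpow_aux hR B ((2 * m ρ) ^ 5)
    have e2 : c3 * (R / 8) = C2 / 8 * (R * (R ^ (-(7 / 2 : ℝ)) *
        (B + R ^ (5 / 2 : ℝ) * (2 * m ρ) ^ 5))) := by
      rw [hc3]
      ring
    rw [e2, e1]
    ring
  have h10 : 0 ≤ R ^ (-(5 / 2 : ℝ)) * B := mul_nonneg (Real.rpow_nonneg hR.le _) hB0
  have h11 : C2 / 8 * (R ^ (-(5 / 2 : ℝ)) * B) ≤ (J * C1 + 4 * C2) * (R ^ (-(5 / 2 : ℝ)) * B) := by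
    refine mul_le_mul_of_nonneg_right ?_ h10
    have : 0 ≤ (J : ℝ) * C1 := by positivity
    linarith
  have h12 : (J * C1 + 4 * C2) * R ^ (-(5 / 2 : ℝ)) * B =
      (J * C1 + 4 * C2) * (R ^ (-(5 / 2 : ℝ)) * B) := by ring
  rw [h12]
  have h13 : (J * C1 + 4 * C2) * m ρ ^ 5 = J * (C1 * m ρ ^ 5) + 4 * C2 * m ρ ^ 5 := by ring
  linarith

end Pool.Agent.QWE
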