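import Pool.Agent.QWE.StE

set_option autoImplicit false

/-!
# QWE, module P4r: a sequence lemma
-/

open MeasureTheory Filter Topology Set
open scoped ENNReal NNReal RealInnerProductSpace

namespace Pool.Agent.QWE

namespace P4rx

lemma rp (p : ℝ) (hp : p = (2 : ℝ) ^ (1 / 2 : ℝ)) (n : ℕ) :
    (2 : ℝ) ^ ((3 / 2 : ℝ) * n) = p ^ (3 * n) ∧ (2 : ℝ) ^ ((5 / 2 : ℝ) * n) = p ^ (5 * n) ∧
    (2 : ℝ) ^ (-(5 / 2 : ℝ) * n) = (p ^ (5 * n))⁻¹ ∧
    (2 : ℝ) ^ (-(3 / 2 : ℝ) * n) = (p ^ (3 * n))⁻¹ := by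
  have h3 : (2 : ℝ) ^ ((3 / 2 : ℝ) * n) = p ^ (3 * n) := by
    rw [hp, ← Real.rpow_natCast, ← Real.rpow_mul (by norm_num)]
    congr 1
    push_cast
    ring
  have h5 : (2 : ℝ) ^ ((5 / 2 : ℝ) * n) = p ^ (5 * n) := by
    rw [hp, ← Real.rpow_natCast, ← Real.rpow_mul (by norm_num)]
    congr 1
    push_cast
    ring
  refine ⟨h3, h5, ?_, ?_⟩
  · rw [neg_mul, Real.rpow_neg (by norm_num), h5]
  · rw [neg_mul, Real.rpow_neg (by norm_num), h3]

lemma geo (n : ℕ) : ∑ j ∈ Finset.range (n + 1), (2 : ℝ) ^ j ≤ 2 * 2 ^ n := by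
  induction n with
  | zero => simp
  | succ n ih =>
    rw [Finset.sum_range_succ, pow_succ]
    linarith

/-- one step of the induction -/
lemma step (p : ℝ) (hp1 : 1 ≤ p) (hp2 : p * p = 2) (e : ℕ → ℝ) (C δ : ℝ) (M n1 n : ℕ)
    (he : ∀ n, 0 ≤ e n) (hC : 0 ≤ C) (hδ : 0 ≤ δ) (hn1 : ∀ j, n1 ≤ j → e j ≤ δ)
    (hn : n1 + M ≤ n) (hsm : (C * p ^ (3 * M) + 2 * C) * δ ^ 4 ≤ 1 / 2) (Z : ℝ)
    (hZ : ∀ j, j ≤ n → p ^ (3 * j) * e j ≤ Z)
    (h : e n ≤ C * e (n - M) ^ 5 + C * (p ^ (5 * n))⁻¹ *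
      (1 + ∑ j ∈ Finset.range (n + 1), p ^ (5 * j) * e j ^ 5)) :
    p ^ (3 * n) * e n ≤ C * (1 + ∑ j ∈ Finset.range n1, p ^ (5 * j) * e j ^ 5) + Z / 2 := by
  have hp0 : 0 < p := by linarith
  have hZ0 : 0 ≤ Z := le_trans (mul_nonneg (pow_nonneg hp0.le _) (he 0)) (hZ 0 (Nat.zero_le _))
  have hp2n : ∀ j : ℕ, p ^ (2 * j) = 2 ^ j := by
    intro j
    rw [pow_mul, pow_two, hp2]
  have e5 : ∀ j, n1 ≤ j → e j ^ 5 ≤ δ ^ 4 * e j := by
    intro j hj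
    have h1 : e j ^ 4 ≤ δ ^ 4 := pow_le_pow_left₀ (he j) (hn1 j hj) 4
    have h2 := mul_le_mul_of_nonneg_right h1 (he j)
    calc e j ^ 5 = e j ^ 4 * e j := by ring
      _ ≤ _ := h2
  -- first term
  have t1 : p ^ (3 * n) * (C * e (n - M) ^ 5) ≤ C * p ^ (3 * M) * δ ^ 4 * Z := by
    have h1 := e5 (n - M) (by omega)
    have h2 := hZ (n - M) (by omega)
    have h3 : p ^ (3 * n) = p ^ (3 * M) * p ^ (3 * (n - M)) := by
      rw [← pow_add]
      congr 1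
      omega
    calc p ^ (3 * n) * (C * e (n - M) ^ 5) ≤ p ^ (3 * n) * (C * (δ ^ 4 * e (n - M))) := by
          gcongr
      _ = C * p ^ (3 * M) * δ ^ 4 * (p ^ (3 * (n - M)) * e (n - M)) := by
          rw [h3]
          ring
      _ ≤ _ := by gcongr
  -- the sum
  have t2 : ∑ j ∈ Finset.range (n + 1), p ^ (5 * j) * e j ^ 5 ≤
      ∑ j ∈ Finset.range n1, p ^ (5 * j) * e j ^ 5 + δ ^ 4 * Z * (2 * 2 ^ n) := by
    rw [← Finset.sum_range_add_sum_Ico _ (show n1 ≤ n + 1 by omega)]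
    refine add_le_add le_rfl ?_
    calc ∑ j ∈ Finset.Ico n1 (n + 1), p ^ (5 * j) * e j ^ 5
        ≤ ∑ j ∈ Finset.Ico n1 (n + 1), δ ^ 4 * Z * 2 ^ j := by
          refine Finset.sum_le_sum fun j hj => ?_
          rw [Finset.mem_Ico] at hj
          calc p ^ (5 * j) * e j ^ 5 ≤ p ^ (5 * j) * (δ ^ 4 * e j) := by
                have := e5 j hj.1
                gcongr
            _ = δ ^ 4 * 2 ^ j * (p ^ (3 * j) * e j) := by
                rw [← hp2n j, show 5 * j = 2 * j + 3 * j by ring, pow_add]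
                ring
            _ ≤ δ ^ 4 * 2 ^ j * Z := by
                have := hZ j (by omega)
                gcongr
            _ = _ := by ring
      _ = δ ^ 4 * Z * ∑ j ∈ Finset.Ico n1 (n + 1), (2 : ℝ) ^ j := by rw [Finset.mul_sum]
      _ ≤ δ ^ 4 * Z * ∑ j ∈ Finset.range (n + 1), (2 : ℝ) ^ j := by
          refine mul_le_mul_of_nonneg_left ?_ (by positivity)
          refine Finset.sum_le_sum_of_subset_of_nonneg ?_ fun _ _ _ => by positivity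
          intro j hj
          rw [Finset.mem_Ico] at hj
          exact Finset.mem_range.mpr hj.2
      _ ≤ _ := mul_le_mul_of_nonneg_left (geo n) (by positivity)
  obtain ⟨S1, hS1⟩ : ∃ S1, S1 = ∑ j ∈ Finset.range n1, p ^ (5 * j) * e j ^ 5 := ⟨_, rfl⟩
  have hS0 : 0 ≤ S1 := by
    rw [hS1]
    exact Finset.sum_nonneg fun j _ => mul_nonneg (pow_nonneg hp0.le _) (pow_nonneg (he j) _)
  rw [← hS1] at t2 ⊢
  have t3 : p ^ (3 * n) * (p ^ (5 * n))⁻¹ = (2 ^ n)⁻¹ := by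
    rw [← hp2n n, show 5 * n = 3 * n + 2 * n by ring, pow_add]
    field_simp
  have h2n : (1 : ℝ) ≤ 2 ^ n := one_le_pow₀ (by norm_num)
  have t4 : p ^ (3 * n) * (C * (p ^ (5 * n))⁻¹ *
      (1 + ∑ j ∈ Finset.range (n + 1), p ^ (5 * j) * e j ^ 5)) ≤
      C * (1 + S1) + 2 * C * δ ^ 4 * Z := by
    calc p ^ (3 * n) * (C * (p ^ (5 * n))⁻¹ *
          (1 + ∑ j ∈ Finset.range (n + 1), p ^ (5 * j) * e j ^ 5))
        = C * (p ^ (3 * n) * (p ^ (5 * n))⁻¹) *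
          (1 + ∑ j ∈ Finset.range (n + 1), p ^ (5 * j) * e j ^ 5) := by ring
      _ ≤ C * (2 ^ n)⁻¹ * (1 + (S1 + δ ^ 4 * Z * (2 * 2 ^ n))) := by
          rw [t3]
          gcongr
      _ = C * ((2 ^ n)⁻¹ * (1 + S1)) + 2 * C * δ ^ 4 * Z := by
          field_simp
          ring
      _ ≤ C * (1 * (1 + S1)) + 2 * C * δ ^ 4 * Z := by
          have : ((2 : ℝ) ^ n)⁻¹ ≤ 1 := inv_le_one_of_one_le₀ h2n
          gcongr
      _ = _ := by ring
  have t5 := mul_le_mul_of_nonneg_left h (pow_nonneg hp0.le (3 * n))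
  rw [mul_add] at t5
  have t6 := mul_le_mul_of_nonneg_right hsm hZ0
  linarith

end P4rx

theorem thm_P4r : St_P4r := by
  intro e C0 M n0 he hlim hM h0
  obtain ⟨p, hp⟩ : ∃ p : ℝ, p = (2 : ℝ) ^ (1 / 2 : ℝ) := ⟨_, rfl⟩
  have hp1 : 1 ≤ p := by
    rw [hp]
    exact Real.one_le_rpow (by norm_num) (by norm_num)
  have hp2 : p * p = 2 := by
    rw [hp, ← Real.rpow_add (by norm_num)]
    norm_num
  have hp0 : 0 < p := by linarith
  obtain ⟨C, hC⟩ : ∃ C : ℝ, C = max C0 1 := ⟨_, rfl⟩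
  have hC1 : 1 ≤ C := by rw [hC]; exact le_max_right _ _
  have hC0 : C0 ≤ C := by rw [hC]; exact le_max_left _ _
  have h : ∀ n, n0 ≤ n → e n ≤ C * e (n - M) ^ 5 + C * (p ^ (5 * n))⁻¹ *
      (1 + ∑ j ∈ Finset.range (n + 1), p ^ (5 * j) * e j ^ 5) := by
    intro n hn
    have h1 := h0 n hn
    rw [(P4rx.rp p hp n).2.2.1, Finset.sum_congr rfl fun j _ => by
      rw [(P4rx.rp p hp j).2.1]] at h1
    have hs : 0 ≤ ∑ j ∈ Finset.range (n + 1), p ^ (5 * j) * e j ^ 5 :=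
      Finset.sum_nonneg fun j _ => mul_nonneg (pow_nonneg hp0.le _) (pow_nonneg (he j) _)
    have h2 : C0 * e (n - M) ^ 5 ≤ C * e (n - M) ^ 5 :=
      mul_le_mul_of_nonneg_right hC0 (pow_nonneg (he _) _)
    have h3 : C0 * (p ^ (5 * n))⁻¹ * (1 + ∑ j ∈ Finset.range (n + 1), p ^ (5 * j) * e j ^ 5) ≤
        C * (p ^ (5 * n))⁻¹ * (1 + ∑ j ∈ Finset.range (n + 1), p ^ (5 * j) * e j ^ 5) := by
      gcongr
    linarith
  obtain ⟨A, hA⟩ : ∃ A : ℝ, A = C * p ^ (3 * M) + 2 * C := ⟨_, rfl⟩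
  have hA0 : 0 < A := by rw [hA]; positivity
  obtain ⟨δ, hδ0, hδ⟩ : ∃ δ : ℝ, 0 < δ ∧ A * δ ^ 4 ≤ 1 / 2 := by
    refine ⟨min 1 (1 / (2 * A)), by positivity, ?_⟩
    have h1 : min 1 (1 / (2 * A)) ≤ 1 := min_le_left _ _
    have h2 : min 1 (1 / (2 * A)) ≤ 1 / (2 * A) := min_le_right _ _
    have h3 : 0 ≤ min 1 (1 / (2 * A)) := by positivity
    have h4 : (min 1 (1 / (2 * A))) ^ 4 ≤ min 1 (1 / (2 * A)) := by
      calc (min 1 (1 / (2 * A))) ^ 4 ≤ (min 1 (1 / (2 * A))) ^ 1 :=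
            pow_le_pow_of_le_one h3 h1 (by norm_num)
        _ = _ := pow_one _
    calc A * (min 1 (1 / (2 * A))) ^ 4 ≤ A * (1 / (2 * A)) := by
          have := h4.trans h2
          gcongr
      _ = 1 / 2 := by field_simp
  obtain ⟨n1, hn1⟩ := eventually_atTop.mp (hlim.eventually_le_const hδ0)
  obtain ⟨N, hN⟩ : ∃ N : ℕ, N = n0 + n1 + M := ⟨_, rfl⟩
  obtain ⟨c1, hc1⟩ : ∃ c1 : ℝ,
    c1 = C * (1 + ∑ j ∈ Finset.range n1, p ^ (5 * j) * e j ^ 5) := ⟨_, rfl⟩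
  have hb0 : ∀ j, 0 ≤ p ^ (3 * j) * e j := fun j => mul_nonneg (pow_nonneg hp0.le _) (he j)
  have hc10 : 0 ≤ c1 := by
    rw [hc1]
    have : 0 ≤ ∑ j ∈ Finset.range n1, p ^ (5 * j) * e j ^ 5 :=
      Finset.sum_nonneg fun j _ => mul_nonneg (pow_nonneg hp0.le _) (pow_nonneg (he j) _)
    positivity
  obtain ⟨D, hD⟩ : ∃ D : ℝ,
    D = 2 * c1 + ∑ j ∈ Finset.range N, p ^ (3 * j) * e j + 1 := ⟨_, rfl⟩
  have hsum0 : 0 ≤ ∑ j ∈ Finset.range N, p ^ (3 * j) * e j := Finset.sum_nonneg fun j _ => hb0 j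
  have hD0 : 0 < D := by rw [hD]; linarith
  have key : ∀ n, p ^ (3 * n) * e n ≤ D := by
    intro n
    induction n using Nat.strong_induction_on with
    | _ n ih =>
      by_cases hn : n < N
      · have h1 : p ^ (3 * n) * e n ≤ ∑ j ∈ Finset.range N, p ^ (3 * j) * e j :=
          Finset.single_le_sum (f := fun j => p ^ (3 * j) * e j) (fun j _ => hb0 j)
            (Finset.mem_range.mpr hn)
        linarith
      · by_contra hcon
        rw [not_le] at hcon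
        have h1 := P4rx.step p hp1 hp2 e C δ M n1 n he (by linarith) hδ0.le hn1 (by omega)
          (by rw [← hA]; exact hδ) (p ^ (3 * n) * e n) (fun j hj => by
            rcases Nat.lt_or_eq_of_le hj with hj | hj
            · exact (ih j hj).trans hcon.le
            · rw [hj]) (h n (by omega))
        rw [← hc1] at h1
        linarith
  refine ⟨D, hD0, fun n => ?_⟩
  rw [(P4rx.rp p hp n).2.2.2, ← div_eq_mul_inv, le_div_iff₀ (pow_pos hp0 _), mul_comm]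
  exact key n

end Pool.Agent.QWE
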