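import Pool.Agent.QWE.StA
import Pool.Agent.QWE.StB

set_option autoImplicit false

/-!
# QWE, Pert: the perturbation lemma (helper6)
-/

open MeasureTheory Filter Topology Set
open scoped ENNReal NNReal RealInnerProductSpace Pointwise

namespace Pool.Agent.QWE

namespace Pertx

/-! ### the flow and integrals -/

lemma tau_cont (hG : St_Grp1) : Continuous fun p : ℝ × K => tau p.1 p.2 := by
  obtain ⟨-, -, -, -, -, -, -, hc, -⟩ := hG
  rw [continuous_iff_continuousAt]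
  rintro ⟨s, k⟩
  rw [ContinuousAt, tendsto_iff_norm_sub_tendsto_zero]
  have h1 : Tendsto (fun p : ℝ × K => ‖p.2 - k‖ + ‖tau p.1 k - tau s k‖) (𝓝 (s, k)) (𝓝 0) := by
    have h2 : Tendsto (fun p : ℝ × K => ‖p.2 - k‖) (𝓝 (s, k)) (𝓝 0) := by
      have h4 : Continuous fun p : ℝ × K => ‖p.2 - k‖ := by fun_prop
      simpa using h4.tendsto (s, k)
    have h3 : Tendsto (fun p : ℝ × K => ‖tau p.1 k - tau s k‖) (𝓝 (s, k)) (𝓝 0) := by
      have h4 : Continuous fun p : ℝ × K => ‖tau p.1 k - tau s k‖ :=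
        (((hc k).comp continuous_fst).sub continuous_const).norm
      simpa using h4.tendsto (s, k)
    simpa using h2.add h3
  refine squeeze_zero (fun _ => norm_nonneg _) (fun p => ?_) h1
  have h4 : tau p.1 p.2 - tau s k = tau p.1 (p.2 - k) + (tau p.1 k - tau s k) := by
    rw [map_sub]
    abel
  show ‖tau p.1 p.2 - tau s k‖ ≤ _
  rw [h4]
  refine (norm_add_le _ _).trans ?_
  rw [(tau p.1).norm_map]

lemma tau_int (hG : St_Grp1) {J : Set ℝ} {G : ℝ → K} (h : IntegrableOn G J volume)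
    (t : ℝ) : IntegrableOn (fun r => tau (t - r) (G r)) J volume := by
  have h1 : AEStronglyMeasurable (fun r => tau (t - r) (G r)) (volume.restrict J) := by
    have h2 : AEStronglyMeasurable (fun r : ℝ => ((t - r, G r) : ℝ × K))
        (volume.restrict J) :=
      AEStronglyMeasurable.prodMk (continuous_const.sub continuous_id).aestronglyMeasurable h.1
    have h3 := (tau_cont hG).comp_aestronglyMeasurable h2
    exact h3
  exact Integrable.congr' h h1 (Eventually.of_forall fun r => ((tau _).norm_map _).symm)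

lemma ii {a b s t : ℝ} {F : ℝ → K} (h : IntegrableOn F (Icc a b) volume) (hs : a ≤ s)
    (hst : s ≤ t) (ht : t ≤ b) : IntervalIntegrable F volume s t :=
  (intervalIntegrable_iff_integrableOn_Ioc_of_le hst).2
    (h.mono_set (Ioc_subset_Icc_self.trans (Icc_subset_Icc hs ht)))

/-- Duhamel formula for two points -/
lemma two_point (hG : St_Grp1) {a b : ℝ} {kt G : ℝ → K} (hGi : IntegrableOn G (Icc a b) volume)
    (h : ∀ t ∈ Icc a b, kt t = tau (t - a) (kt a) - ∫ r in a..t, tau (t - r) (G r)) :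
    ∀ s ∈ Icc a b, ∀ t ∈ Icc a b, s ≤ t →
      kt t = tau (t - s) (kt s) - ∫ r in s..t, tau (t - r) (G r) := by
  intro s hs t ht hst
  have h1 := tau_int hG hGi t
  have h2 := tau_int hG hGi s
  obtain ⟨g1, -⟩ := hG
  have e1 : tau (t - s) (∫ r in a..s, tau (s - r) (G r)) = ∫ r in a..s, tau (t - r) (G r) := by
    have h3 := (tau (t - s)).toContinuousLinearMap.intervalIntegral_comp_comm
      (ii h2 le_rfl hs.1 hs.2)
    have h4 : ∀ r, (tau (t - s)).toContinuousLinearMap (tau (s - r) (G r)) =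
        tau (t - r) (G r) := by
      intro r
      show tau (t - s) (tau (s - r) (G r)) = tau (t - r) (G r)
      rw [g1]
      congr 2
      ring
    simp only [h4] at h3
    exact h3.symm
  have e2 : (∫ r in a..s, tau (t - r) (G r)) + ∫ r in s..t, tau (t - r) (G r) =
      ∫ r in a..t, tau (t - r) (G r) :=
    intervalIntegral.integral_add_adjacent_intervals (ii h1 le_rfl hs.1 hs.2)
      (ii h1 hs.1 hst ht.2)
  have e3 : tau (t - s) (tau (s - a) (kt a)) = tau (t - a) (kt a) := by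
    rw [g1]
    congr 2
    ring
  rw [h t ht, h s hs, map_sub, e1, e3, ← e2]
  abel

/-! ### the Strichartz norm -/

/-- the norm -/
noncomputable def sS (J : Set ℝ) (k : ℝ → K) : ℝ≥0∞ := SN J k ^ (1 / 4 : ℝ)

lemma sS_pow (J : Set ℝ) (k : ℝ → K) : sS J k ^ 4 = SN J k := by
  rw [sS, ← ENNReal.rpow_natCast, ← ENNReal.rpow_mul]
  norm_num

lemma quarter (x : ℝ≥0∞) : (x ^ 4) ^ (1 / 4 : ℝ) = x := by
  rw [← ENNReal.rpow_natCast, ← ENNReal.rpow_mul]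
  norm_num

lemma sS_le {J : Set ℝ} {k : ℝ → K} {x : ℝ≥0∞} (h : SN J k ≤ x ^ 4) : sS J k ≤ x := by
  rw [sS, ← quarter x]
  exact ENNReal.rpow_le_rpow h (by norm_num)

lemma SN_le {J : Set ℝ} {k : ℝ → K} {x : ℝ≥0∞} (h : sS J k ≤ x) : SN J k ≤ x ^ 4 := by
  rw [← sS_pow]
  exact pow_le_pow_left' h 4

lemma SN_congr {J : Set ℝ} (hJ : MeasurableSet J) {k k' : ℝ → K} (h : ∀ t ∈ J, k t = k' t) :
    SN J k = SN J k' := by
  unfold SN
  exact setLIntegral_congr_fun hJ fun t ht => by simp only [h t ht]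

lemma sn_meas (hM : St_Meas) {J : Set ℝ} (hJ : MeasurableSet J) {k : ℝ → K}
    (hk : AEStronglyMeasurable k (volume.restrict J)) :
    AEMeasurable (fun r => sn (k r)) (volume.restrict J) := by
  have h := (hM k J hJ hk).1 20 univ (by norm_num) MeasurableSet.univ
  simp only [indicator_univ] at h
  exact h

lemma sn_fin (hM : St_Meas) {J : Set ℝ} (hJ : MeasurableSet J) {k : ℝ → K}
    (hk : AEStronglyMeasurable k (volume.restrict J)) (hS : SN J k < ⊤) :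
    ∀ᵐ r ∂(volume.restrict J), sn (k r) < ⊤ := by
  have h1 : ∀ᵐ r ∂(volume.restrict J), sn (k r) ^ 4 < ⊤ :=
    ae_lt_top' ((sn_meas hM hJ hk).pow_const 4) hS.ne
  filter_upwards [h1] with r hr
  by_contra h2
  rw [not_lt, top_le_iff] at h2
  rw [h2] at hr
  simp at hr

lemma enorm_le_ofReal {x : K} {B : ℝ} (h : ‖x‖ ≤ B) : ‖x‖ₑ ≤ ENNReal.ofReal B := by
  rw [← ofReal_norm]
  exact ENNReal.ofReal_le_ofReal h

lemma NL_int (hM : St_Meas) {CN : ℝ}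
    (hN1 : ∀ k : K, ‖NL k‖ₑ ≤ ENNReal.ofReal CN * sn k ^ 4 * ‖k‖ₑ)
    {J : Set ℝ} (hJ : MeasurableSet J) {k : ℝ → K}
    (hk : AEStronglyMeasurable k (volume.restrict J)) (hS : SN J k < ⊤) {B : ℝ}
    (hB : ∀ t ∈ J, ‖k t‖ ≤ B) :
    IntegrableOn (fun r => NL (k r)) J volume ∧
      ∫⁻ r in J, ‖NL (k r)‖ₑ ≤ ENNReal.ofReal CN * ENNReal.ofReal B * SN J k := by
  have h1 := (hM k J hJ hk).2 (sn_fin hM hJ hk hS)
  have h2 : ∫⁻ r in J, ‖NL (k r)‖ₑ ≤ ENNReal.ofReal CN * ENNReal.ofReal B * SN J k := by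
    have h3 : ∫⁻ r in J, ‖NL (k r)‖ₑ ≤
        ∫⁻ r in J, ENNReal.ofReal CN * ENNReal.ofReal B * sn (k r) ^ 4 := by
      refine setLIntegral_mono' hJ fun t ht => (hN1 (k t)).trans ?_
      calc ENNReal.ofReal CN * sn (k t) ^ 4 * ‖k t‖ₑ
          ≤ ENNReal.ofReal CN * sn (k t) ^ 4 * ENNReal.ofReal B :=
            mul_le_mul_right (enorm_le_ofReal (hB t ht)) _
        _ = ENNReal.ofReal CN * ENNReal.ofReal B * sn (k t) ^ 4 := by ring
    rw [lintegral_const_mul' _ _ (ENNReal.mul_ne_top ENNReal.ofReal_ne_top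
      ENNReal.ofReal_ne_top)] at h3
    exact h3
  exact ⟨⟨h1, h2.trans_lt (ENNReal.mul_lt_top (ENNReal.mul_lt_top ENNReal.ofReal_lt_top
    ENNReal.ofReal_lt_top) hS)⟩, h2⟩

lemma holder {μ : Measure ℝ} {f g : ℝ → ℝ≥0∞} (hf : AEMeasurable f μ) (hg : AEMeasurable g μ) :
    ∫⁻ r, f r ^ 3 * g r ∂μ ≤
      ((∫⁻ r, f r ^ 4 ∂μ) ^ (1 / 4 : ℝ)) ^ 3 * (∫⁻ r, g r ^ 4 ∂μ) ^ (1 / 4 : ℝ) := by
  have hpq : (4 / 3 : ℝ).HolderConjugate 4 := by
    rw [Real.holderConjugate_iff]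
    norm_num
  have h := ENNReal.lintegral_mul_le_Lp_mul_Lq μ hpq (hf.pow_const 3) hg
  have e1 : ∀ r, (f r ^ 3) ^ (4 / 3 : ℝ) = f r ^ 4 := by
    intro r
    rw [← ENNReal.rpow_natCast, ← ENNReal.rpow_natCast, ← ENNReal.rpow_mul]
    norm_num
  have e2 : ∀ r, g r ^ (4 : ℝ) = g r ^ 4 := by
    intro r
    rw [← ENNReal.rpow_natCast]
    norm_num
  have e3 : ∀ x : ℝ≥0∞, x ^ (1 / (4 / 3) : ℝ) = (x ^ (1 / 4 : ℝ)) ^ 3 := by
    intro x
    rw [← ENNReal.rpow_natCast, ← ENNReal.rpow_mul]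
    norm_num
  simp only [Pi.mul_apply, e1, e2, e3] at h
  exact h

lemma cube_le (x y : ℝ≥0∞) : (x + y) ^ 3 ≤ 8 * (x ^ 3 + y ^ 3) := by
  have key : ∀ u v : ℝ≥0∞, u ≤ v → (u + v) ^ 3 ≤ 8 * (u ^ 3 + v ^ 3) := by
    intro u v h
    calc (u + v) ^ 3 ≤ (v + v) ^ 3 := pow_le_pow_left' (add_le_add_left h v) 3
      _ = 8 * v ^ 3 := by ring
      _ ≤ 8 * (u ^ 3 + v ^ 3) := mul_le_mul_right le_add_self _
  rcases le_total x y with h | h
  · exact key x y h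
  · rw [add_comm x y, add_comm (x ^ 3)]
    exact key y x h

lemma NL_diff (hM : St_Meas) {CN : ℝ}
    (hN2 : ∀ k k' : K, sn k < ⊤ → sn k' < ⊤ → ‖NL k - NL k'‖ₑ ≤ ENNReal.ofReal CN *
      ((sn k + sn k') ^ 3 * sn (k - k') * ‖k‖ₑ + sn k' ^ 4 * ‖k - k'‖ₑ))
    {J : Set ℝ} (hJ : MeasurableSet J) {k k' : ℝ → K}
    (hk : AEStronglyMeasurable k (volume.restrict J))
    (hk' : AEStronglyMeasurable k' (volume.restrict J)) (hS : SN J k < ⊤) (hS' : SN J k' < ⊤)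
    {B : ℝ} {D : ℝ≥0∞} (hB : ∀ t ∈ J, ‖k t‖ ≤ B) (hD : ∀ t ∈ J, ‖k t - k' t‖ₑ ≤ D)
    (hDt : D ≠ ⊤) :
    ∫⁻ r in J, ‖NL (k r) - NL (k' r)‖ₑ ≤ ENNReal.ofReal CN *
      (8 * ENNReal.ofReal B * ((sS J k ^ 3 + sS J k' ^ 3) * sS J (fun t => k t - k' t)) +
        D * SN J k') := by
  have mx := sn_meas hM hJ hk
  have my := sn_meas hM hJ hk'
  have mz := sn_meas hM hJ (hk.sub hk')
  have h1 : ∀ᵐ r ∂(volume.restrict J), ‖NL (k r) - NL (k' r)‖ₑ ≤ ENNReal.ofReal CN *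
      (8 * ENNReal.ofReal B * (sn (k r) ^ 3 * sn (k r - k' r) + sn (k' r) ^ 3 * sn (k r - k' r)) +
        D * sn (k' r) ^ 4) := by
    filter_upwards [sn_fin hM hJ hk hS, sn_fin hM hJ hk' hS', ae_restrict_mem hJ] with r h2 h3 h4
    refine (hN2 _ _ h2 h3).trans (mul_le_mul_right (add_le_add ?_ ?_) _)
    · calc (sn (k r) + sn (k' r)) ^ 3 * sn (k r - k' r) * ‖k r‖ₑ
          ≤ (8 * (sn (k r) ^ 3 + sn (k' r) ^ 3)) * sn (k r - k' r) * ENNReal.ofReal B :=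
            mul_le_mul' (mul_le_mul_left (cube_le _ _) _) (enorm_le_ofReal (hB r h4))
        _ = _ := by ring
    · rw [mul_comm]
      exact mul_le_mul_left (hD r h4) _
  refine (lintegral_mono_ae h1).trans ?_
  have m1 : AEMeasurable (fun r => sn (k r) ^ 3 * sn (k r - k' r)) (volume.restrict J) :=
    (mx.pow_const 3).mul mz
  have m2 : AEMeasurable (fun r => sn (k' r) ^ 3 * sn (k r - k' r)) (volume.restrict J) :=
    (my.pow_const 3).mul mz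
  have m3 : AEMeasurable (fun r => 8 * ENNReal.ofReal B *
      (sn (k r) ^ 3 * sn (k r - k' r) + sn (k' r) ^ 3 * sn (k r - k' r))) (volume.restrict J) :=
    (m1.add m2).const_mul _
  have hB8 : 8 * ENNReal.ofReal B ≠ ⊤ := ENNReal.mul_ne_top (by norm_num) ENNReal.ofReal_ne_top
  rw [lintegral_const_mul' _ _ ENNReal.ofReal_ne_top, lintegral_add_left' m3,
    lintegral_const_mul' _ _ hB8, lintegral_add_left' m1, lintegral_const_mul' _ _ hDt]
  refine mul_le_mul_right (add_le_add (mul_le_mul_right ?_ _) le_rfl) _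
  rw [add_mul]
  exact add_le_add (holder mx mz) (holder my mz)

/-- free evolution -/
lemma free {CS : ℝ} (hS : ∀ k : K, ∫⁻ t, eLpNorm (U (tau t k)) 20 volume ^ 4 ≤
    (ENNReal.ofReal CS * ‖k‖ₑ) ^ 4) (J : Set ℝ) (a : ℝ) (k : K) :
    sS J (fun t => tau (t - a) k) ≤ ENNReal.ofReal CS * ‖k‖ₑ := by
  refine sS_le ((lintegral_mono' Measure.restrict_le_self le_rfl).trans ?_)
  have h1 := lintegral_sub_right_eq_self (μ := (volume : Measure ℝ))
    (fun t => sn (tau t k) ^ 4) a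
  rw [h1]
  exact hS k

/-- Duhamel integrals -/
lemma duh {CD : ℝ} (hCD : 0 < CD) (hD : ∀ (a b t0 : ℝ) (G : ℝ → K), a ≤ t0 → t0 ≤ b →
      IntegrableOn G (Icc a b) volume →
      ContinuousOn (fun t => ∫ r in t0..t, tau (t - r) (G r)) (Icc a b) ∧
      (∀ t ∈ Icc a b, ‖∫ r in t0..t, tau (t - r) (G r)‖ ≤ ∫ r in Icc a b, ‖G r‖) ∧
      SN (Icc a b) (fun t => ∫ r in t0..t, tau (t - r) (G r)) ≤
        ENNReal.ofReal (CD * ∫ r in Icc a b, ‖G r‖) ^ 4 ∧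
      ∫⁻ t in Icc a b, eLpNorm (U (∫ r in t0..t, tau (t - r) (G r))) 30 volume ^ 3 ≤
        ENNReal.ofReal (CD * ∫ r in Icc a b, ‖G r‖) ^ 3)
    {a b : ℝ} (hab : a ≤ b) {G : ℝ → K} (hG : IntegrableOn G (Icc a b) volume) :
    ContinuousOn (fun t => ∫ r in a..t, tau (t - r) (G r)) (Icc a b) ∧
    (∀ t ∈ Icc a b, ‖∫ r in a..t, tau (t - r) (G r)‖ₑ ≤ ∫⁻ r in Icc a b, ‖G r‖ₑ) ∧
    sS (Icc a b) (fun t => ∫ r in a..t, tau (t - r) (G r)) ≤
      ENNReal.ofReal CD * ∫⁻ r in Icc a b, ‖G r‖ₑ := by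
  obtain ⟨h1, h2, h3, -⟩ := hD a b a G le_rfl hab hG
  have h4 := ofReal_integral_norm_eq_lintegral_enorm hG
  refine ⟨h1, fun t ht => ?_, sS_le ?_⟩
  · rw [← h4]
    exact enorm_le_ofReal (h2 t ht)
  · rw [← h4, ← ENNReal.ofReal_mul hCD.le]
    exact h3

/-- the constants -/
lemma consts (A CN CD CS η0 : ℝ) (hA : 0 < A) (hCN : 0 < CN) (hCD : 0 < CD) (hCS : 0 < CS)
    (hη0 : 0 < η0) : ∃ η κ : ℝ, 0 < η ∧ η ≤ 1 ∧ 1 ≤ κ ∧ κ * η ≤ η0 ∧
      (∀ ε : ℝ, ε ≤ η → CS * ε + (η + CD * (CN * A * η ^ 4 + ε)) ≤ κ * η) ∧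
      (1 + CD) * (CN * (8 * (2 * (A + 1)) * ((2 * (κ * η)) ^ 3 + η ^ 3) + η ^ 4)) ≤ 1 / 2 := by
  obtain ⟨κ, hκ⟩ : ∃ κ, κ = 1 + CD * CN * A + CD + CS := ⟨_, rfl⟩
  have hκ1 : 1 ≤ κ := by
    rw [hκ]
    have : 0 < CD * CN * A := by positivity
    linarith
  have hκ0 : 0 < κ := by linarith
  obtain ⟨κ2, hκ2⟩ : ∃ κ2, κ2 = (1 + CD) * (CN * (16 * (A + 1) * (8 * κ ^ 3 + 1) + 1)) := ⟨_, rfl⟩
  have hκ20 : 0 < κ2 := by
    rw [hκ2]
    positivity
  refine ⟨min 1 (min (η0 / κ) (1 / (2 * κ2))), κ, by positivity, min_le_left _ _, hκ1, ?_, ?_, ?_⟩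
  · have h1 : min 1 (min (η0 / κ) (1 / (2 * κ2))) ≤ η0 / κ :=
      (min_le_right _ _).trans (min_le_left _ _)
    calc κ * min 1 (min (η0 / κ) (1 / (2 * κ2))) ≤ κ * (η0 / κ) :=
          mul_le_mul_of_nonneg_left h1 hκ0.le
      _ = η0 := by field_simp
  · obtain ⟨η, hη⟩ : ∃ η, η = min 1 (min (η0 / κ) (1 / (2 * κ2))) := ⟨_, rfl⟩
    have hη1 : η ≤ 1 := by
      rw [hη]
      exact min_le_left _ _
    have hηp : 0 < η := by
      rw [hη]
      positivity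
    rw [← hη]
    intro ε hε
    have h4 : η ^ 4 ≤ η := by
      have h := pow_le_pow_of_le_one hηp.le hη1 (by norm_num : 1 ≤ 4)
      simpa using h
    have h5 : CD * (CN * A * η ^ 4 + ε) ≤ CD * (CN * A * η + η) :=
      mul_le_mul_of_nonneg_left (add_le_add (mul_le_mul_of_nonneg_left h4 (by positivity)) hε)
        hCD.le
    have h6 : CS * ε ≤ CS * η := mul_le_mul_of_nonneg_left hε hCS.le
    rw [hκ]
    linarith
  · obtain ⟨η, hη⟩ : ∃ η, η = min 1 (min (η0 / κ) (1 / (2 * κ2))) := ⟨_, rfl⟩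
    have hη1 : η ≤ 1 := by
      rw [hη]
      exact min_le_left _ _
    have hηp : 0 < η := by
      rw [hη]
      positivity
    have hη2 : η ≤ 1 / (2 * κ2) := by
      rw [hη]
      exact (min_le_right _ _).trans (min_le_right _ _)
    rw [← hη]
    have h3 : η ^ 3 ≤ η := by
      have h := pow_le_pow_of_le_one hηp.le hη1 (by norm_num : 1 ≤ 3)
      simpa using h
    have h4 : η ^ 4 ≤ η := by
      have h := pow_le_pow_of_le_one hηp.le hη1 (by norm_num : 1 ≤ 4)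
      simpa using h
    have h5 : 8 * (2 * (A + 1)) * ((2 * (κ * η)) ^ 3 + η ^ 3) + η ^ 4 ≤
        (16 * (A + 1) * (8 * κ ^ 3 + 1) + 1) * η := by
      have h6 : 8 * (2 * (A + 1)) * ((2 * (κ * η)) ^ 3 + η ^ 3) =
          (16 * (A + 1) * (8 * κ ^ 3 + 1)) * η ^ 3 := by ring
      rw [h6, add_mul, one_mul]
      exact add_le_add (mul_le_mul_of_nonneg_left h3 (by positivity)) h4
    calc (1 + CD) * (CN * (8 * (2 * (A + 1)) * ((2 * (κ * η)) ^ 3 + η ^ 3) + η ^ 4))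
        ≤ (1 + CD) * (CN * ((16 * (A + 1) * (8 * κ ^ 3 + 1) + 1) * η)) :=
          mul_le_mul_of_nonneg_left (mul_le_mul_of_nonneg_left h5 hCN.le) (by positivity)
      _ = κ2 * η := by
          rw [hκ2]
          ring
      _ ≤ κ2 * (1 / (2 * κ2)) := mul_le_mul_of_nonneg_left hη2 hκ20.le
      _ = 1 / 2 := by field_simp

/-- the final inequality -/
lemma absorb {δ σ n g ε CN CD CS c x y A : ℝ} (hδ : 0 ≤ δ) (hσ : 0 ≤ σ)
    (hCN : 0 < CN) (hCD : 0 < CD) (hA : 0 < A) (hx : 0 ≤ x) (hy : 0 ≤ y)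
    (hc : c = 8 * (2 * (A + 1)) * (x ^ 3 + y ^ 3) + y ^ 4)
    (h0 : (1 + CD) * (CN * c) ≤ 1 / 2)
    (h1 : n ≤ CN * (8 * (2 * (A + 1)) * ((x ^ 3 + y ^ 3) * σ) + δ * y ^ 4))
    (h2 : δ ≤ ε + g) (h3 : σ ≤ CS * ε + CD * g) (h4 : g ≤ n + ε) :
    δ + σ ≤ 2 * (2 + CS + CD) * ε := by
  have h5 : 8 * (2 * (A + 1)) * ((x ^ 3 + y ^ 3) * σ) + δ * y ^ 4 ≤ c * (δ + σ) := by
    have h6 : 0 ≤ 8 * (2 * (A + 1)) * (x ^ 3 + y ^ 3) * δ := by positivity
    have h7 : 0 ≤ y ^ 4 * σ := by positivity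
    rw [hc]
    linarith
  have h6 : n ≤ CN * (c * (δ + σ)) := h1.trans (mul_le_mul_of_nonneg_left h5 hCN.le)
  have h7 : δ + σ ≤ (1 + CS) * ε + (1 + CD) * g := by linarith
  have h8 : (1 + CD) * g ≤ (1 + CD) * (CN * (c * (δ + σ)) + ε) :=
    mul_le_mul_of_nonneg_left (by linarith) (by positivity)
  have h9 : (1 + CD) * (CN * c) * (δ + σ) ≤ 1 / 2 * (δ + σ) :=
    mul_le_mul_of_nonneg_right h0 (by positivity)
  have h10 : (1 + CD) * (CN * (c * (δ + σ)) + ε) =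
      (1 + CD) * (CN * c) * (δ + σ) + (1 + CD) * ε := by ring
  linarith

lemma lint_add {J : Set ℝ} {F G : ℝ → K} (hF : IntegrableOn F J volume)
    (hG : IntegrableOn G J volume) {ε : ℝ} (hε : ∫ r in J, ‖G r‖ ≤ ε) :
    ∫⁻ r in J, ‖F r - G r‖ₑ ≤ (∫⁻ r in J, ‖F r‖ₑ) + ENNReal.ofReal ε := by
  have h1 : ∫⁻ r in J, ‖F r - G r‖ₑ ≤ ∫⁻ r in J, (‖F r‖ₑ + ‖G r‖ₑ) :=
    lintegral_mono fun r => enorm_sub_le
  rw [lintegral_add_left' hF.1.enorm] at h1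
  refine h1.trans (add_le_add le_rfl ?_)
  rw [← ofReal_integral_norm_eq_lintegral_enorm hG]
  exact ENNReal.ofReal_le_ofReal hε

/-- existence on a short interval -/
lemma exist (hG : St_Grp1) {CS CN CD : ℝ} (hCS : 0 < CS) (hCN : 0 < CN) (hCD : 0 < CD)
    (hStr : ∀ k : K, ∫⁻ t, eLpNorm (U (tau t k)) 20 volume ^ 4 ≤ (ENNReal.ofReal CS * ‖k‖ₑ) ^ 4)
    (hT : St_SNt) {η0 A : ℝ} (hA : 0 < A)
    (hL : ∀ (k0 : K) (a b t0 η : ℝ), ‖k0‖ ≤ A + 1 →
      a ≤ t0 → t0 ≤ b → 0 < η → η ≤ η0 →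
      SN (Icc a b) (fun t => tau (t - t0) k0) ≤ ENNReal.ofReal η ^ 4 →
      ∃ k : ℝ → K, IsSol (Icc a b) k ∧ k t0 = k0 ∧ SN (Icc a b) k ≤ ENNReal.ofReal (2 * η) ^ 4 ∧
        (∀ t ∈ Icc a b, ‖k t‖ ≤ 2 * (A + 1)) ∧
        ∀ t ∈ Icc a b, Tendsto (fun n => PicN k0 t0 n t) atTop (𝓝 (k t)))
    {a b ε η κ : ℝ} {kt G : ℝ → K} {k0 : K} (hab : a ≤ b) (hε : 0 ≤ ε) (hεη : ε ≤ η) (hη : 0 < η)
    (hη1 : η ≤ 1) (hκ : 1 ≤ κ) (hκη : κ * η ≤ η0)
    (hc : CS * ε + (η + CD * (CN * A * η ^ 4 + ε)) ≤ κ * η)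
    (hkt : ContinuousOn kt (Icc a b)) (hktA : ∀ t ∈ Icc a b, ‖kt t‖ ≤ A)
    (hS : SN (Icc a b) kt ≤ ENNReal.ofReal η ^ 4)
    (hD0 : ContinuousOn (fun t => ∫ r in a..t, tau (t - r) (G r)) (Icc a b))
    (hD1 : sS (Icc a b) (fun t => ∫ r in a..t, tau (t - r) (G r)) ≤
      ENNReal.ofReal CD * ∫⁻ r in Icc a b, ‖G r‖ₑ)
    (hG1 : ∫⁻ r in Icc a b, ‖G r‖ₑ ≤ ENNReal.ofReal CN * ENNReal.ofReal A * ENNReal.ofReal η ^ 4 +
      ENNReal.ofReal ε)
    (hdu : ∀ t ∈ Icc a b, kt t = tau (t - a) (kt a) - ∫ r in a..t, tau (t - r) (G r))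
    (h0 : ‖k0 - kt a‖ ≤ ε) :
    ∃ k : ℝ → K, IsSol (Icc a b) k ∧ k a = k0 ∧
      SN (Icc a b) k ≤ ENNReal.ofReal (2 * (κ * η)) ^ 4 ∧ (∀ t ∈ Icc a b, ‖k t‖ ≤ 2 * (A + 1)) := by
  have hJ : MeasurableSet (Icc a b) := measurableSet_Icc
  have hmem : a ∈ Icc a b := ⟨le_rfl, hab⟩
  have hk0 : ‖k0‖ ≤ A + 1 := by
    have h1 : k0 = (k0 - kt a) + kt a := by abel
    rw [h1]
    refine (norm_add_le _ _).trans ?_
    have h2 := hktA a hmem
    linarith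
  have m1 : AEStronglyMeasurable (fun t => tau (t - a) (k0 - kt a)) (volume.restrict (Icc a b)) := by
    obtain ⟨-, -, -, -, -, -, -, hcc, -⟩ := hG
    have h1 : Continuous fun t : ℝ => tau (t - a) (k0 - kt a) :=
      (hcc (k0 - kt a)).comp (continuous_id.sub continuous_const)
    exact h1.aestronglyMeasurable
  have m2 : AEStronglyMeasurable kt (volume.restrict (Icc a b)) := hkt.aestronglyMeasurable hJ
  have m3 : AEStronglyMeasurable (fun t => ∫ r in a..t, tau (t - r) (G r))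
      (volume.restrict (Icc a b)) := hD0.aestronglyMeasurable hJ
  have t1 := (hT _ _ (Icc a b) hJ m1 (m2.add m3)).1
  have t2 := (hT _ _ (Icc a b) hJ m2 m3).1
  have e1 : SN (Icc a b) (fun t => tau (t - a) k0) = SN (Icc a b) (fun t =>
      tau (t - a) (k0 - kt a) + (kt + fun t => ∫ r in a..t, tau (t - r) (G r)) t) := by
    refine SN_congr hJ fun t ht => ?_
    show tau (t - a) k0 = tau (t - a) (k0 - kt a) + (kt t + ∫ r in a..t, tau (t - r) (G r))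
    rw [hdu t ht, map_sub]
    abel
  have b1 : sS (Icc a b) (fun t => tau (t - a) k0) ≤ ENNReal.ofReal (κ * η) := by
    have s1 : sS (Icc a b) (fun t => tau (t - a) (k0 - kt a)) ≤
        ENNReal.ofReal CS * ENNReal.ofReal ε :=
      (free hStr (Icc a b) a _).trans (mul_le_mul_right (enorm_le_ofReal h0) _)
    have s2 : sS (Icc a b) kt ≤ ENNReal.ofReal η := sS_le hS
    have s3 : sS (Icc a b) (fun t => ∫ r in a..t, tau (t - r) (G r)) ≤
        ENNReal.ofReal CD * (ENNReal.ofReal CN * ENNReal.ofReal A * ENNReal.ofReal η ^ 4 +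
          ENNReal.ofReal ε) := hD1.trans (mul_le_mul_right hG1 _)
    have s4 : sS (Icc a b) (fun t => tau (t - a) k0) ≤
        sS (Icc a b) (fun t => tau (t - a) (k0 - kt a)) + (sS (Icc a b) kt +
          sS (Icc a b) (fun t => ∫ r in a..t, tau (t - r) (G r))) := by
      have s5 : sS (Icc a b) (fun t => tau (t - a) k0) = SN (Icc a b) (fun t =>
          tau (t - a) (k0 - kt a) + (kt + fun t => ∫ r in a..t, tau (t - r) (G r)) t) ^
            (1 / 4 : ℝ) := by rw [sS, e1]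
      rw [s5]
      exact t1.trans (add_le_add le_rfl t2)
    refine (s4.trans (add_le_add s1 (add_le_add s2 s3))).trans ?_
    have s6 : ENNReal.ofReal CS * ENNReal.ofReal ε + (ENNReal.ofReal η +
        ENNReal.ofReal CD * (ENNReal.ofReal CN * ENNReal.ofReal A * ENNReal.ofReal η ^ 4 +
          ENNReal.ofReal ε)) =
        ENNReal.ofReal (CS * ε + (η + CD * (CN * A * η ^ 4 + ε))) := by
      rw [ENNReal.ofReal_add (by positivity) (by positivity),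
        ENNReal.ofReal_add (by positivity) (by positivity), ENNReal.ofReal_mul hCS.le,
        ENNReal.ofReal_mul hCD.le, ENNReal.ofReal_add (by positivity) hε,
        ENNReal.ofReal_mul (by positivity), ENNReal.ofReal_mul hCN.le, ENNReal.ofReal_pow hη.le]
    rw [s6]
    exact ENNReal.ofReal_le_ofReal hc
  obtain ⟨k, k1, k2, k3, k4, -⟩ := hL k0 a b a (κ * η) hk0 le_rfl hab (by positivity) hκη (SN_le b1)
  exact ⟨k, k1, k2, k3, k4⟩

lemma real_le {x : ℝ≥0∞} {y : ℝ} (hx : x ≠ ⊤) (hy : 0 ≤ y) (h : x ≤ ENNReal.ofReal y) :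
    x.toReal ≤ y := by
  rw [← ENNReal.ofReal_toReal hx] at h
  exact (ENNReal.ofReal_le_ofReal_iff hy).1 h

lemma conv_eq {c B x y σ δ : ℝ} (hc : 0 ≤ c) (hB : 0 ≤ B) (hx : 0 ≤ x) (hy : 0 ≤ y) (hσ : 0 ≤ σ)
    (hδ : 0 ≤ δ) : ENNReal.ofReal c * (8 * ENNReal.ofReal B *
      ((ENNReal.ofReal x ^ 3 + ENNReal.ofReal y ^ 3) * ENNReal.ofReal σ) +
        ENNReal.ofReal δ * ENNReal.ofReal y ^ 4) =
      ENNReal.ofReal (c * (8 * B * ((x ^ 3 + y ^ 3) * σ) + δ * y ^ 4)) := by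
  have h8 : ENNReal.ofReal 8 = 8 := by norm_num
  rw [ENNReal.ofReal_mul hc, ENNReal.ofReal_add (p := 8 * B * ((x ^ 3 + y ^ 3) * σ))
    (by positivity) (by positivity), ENNReal.ofReal_mul (p := 8 * B) (by positivity),
    ENNReal.ofReal_mul (p := 8) (by norm_num), ENNReal.ofReal_mul (p := x ^ 3 + y ^ 3)
    (by positivity), ENNReal.ofReal_add (p := x ^ 3) (by positivity) (by positivity),
    ENNReal.ofReal_pow hx, ENNReal.ofReal_pow hy, ENNReal.ofReal_mul hδ, ENNReal.ofReal_pow hy, h8]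

/-- the difference formula -/
lemma diff_formula (hG : St_Grp1) {a b : ℝ} {kt k F Ft : ℝ → K}
    (iF : IntegrableOn F (Icc a b) volume) (iFt : IntegrableOn Ft (Icc a b) volume)
    (hdk : ∀ t ∈ Icc a b, k t = tau (t - a) (k a) - ∫ r in a..t, tau (t - r) (F r))
    (hdkt : ∀ t ∈ Icc a b, kt t = tau (t - a) (kt a) - ∫ r in a..t, tau (t - r) (Ft r)) :
    ∀ t ∈ Icc a b, k t - kt t = tau (t - a) (k a - kt a) +
      -(∫ r in a..t, tau (t - r) (F r - Ft r)) := by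
  intro t ht
  have h1 := ii (tau_int hG iF t) le_rfl ht.1 ht.2
  have h2 := ii (tau_int hG iFt t) le_rfl ht.1 ht.2
  have h3 := intervalIntegral.integral_sub h1 h2
  have h4 : ∀ r, tau (t - r) (F r) - tau (t - r) (Ft r) = tau (t - r) (F r - Ft r) := fun r =>
    (map_sub _ _ _).symm
  simp only [h4] at h3
  rw [h3, hdk t ht, hdkt t ht, map_sub]
  abel

/-- the difference -/
lemma differ (hG : St_Grp1) {CS CN CD : ℝ} (hCS : 0 < CS) (hCN : 0 < CN) (hCD : 0 < CD)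
    (hStr : ∀ k : K, ∫⁻ t, eLpNorm (U (tau t k)) 20 volume ^ 4 ≤ (ENNReal.ofReal CS * ‖k‖ₑ) ^ 4)
    (hT : St_SNt) (hM : St_Meas)
    (hN2 : ∀ k k' : K, sn k < ⊤ → sn k' < ⊤ → ‖NL k - NL k'‖ₑ ≤ ENNReal.ofReal CN *
      ((sn k + sn k') ^ 3 * sn (k - k') * ‖k‖ₑ + sn k' ^ 4 * ‖k - k'‖ₑ))
    {A : ℝ} (hA : 0 < A) {a b ε η κ : ℝ} {kt k F Ft : ℝ → K} (hε : 0 ≤ ε)
    (hη : 0 < η) (hκ : 1 ≤ κ)
    (hc : (1 + CD) * (CN * (8 * (2 * (A + 1)) * ((2 * (κ * η)) ^ 3 + η ^ 3) + η ^ 4)) ≤ 1 / 2)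
    (hkt : ContinuousOn kt (Icc a b)) (hktA : ∀ t ∈ Icc a b, ‖kt t‖ ≤ A)
    (hS : SN (Icc a b) kt ≤ ENNReal.ofReal η ^ 4)
    (hk : ContinuousOn k (Icc a b)) (hkA : ∀ t ∈ Icc a b, ‖k t‖ ≤ 2 * (A + 1))
    (hSk : SN (Icc a b) k ≤ ENNReal.ofReal (2 * (κ * η)) ^ 4)
    (hG1 : ContinuousOn (fun t => ∫ r in a..t, tau (t - r) (F r - Ft r)) (Icc a b))
    (hG2 : ∀ t ∈ Icc a b, ‖∫ r in a..t, tau (t - r) (F r - Ft r)‖ₑ ≤
      ∫⁻ r in Icc a b, ‖F r - Ft r‖ₑ)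
    (hG3 : sS (Icc a b) (fun t => ∫ r in a..t, tau (t - r) (F r - Ft r)) ≤
      ENNReal.ofReal CD * ∫⁻ r in Icc a b, ‖F r - Ft r‖ₑ)
    (hG4 : ∫⁻ r in Icc a b, ‖F r - Ft r‖ₑ ≤
      (∫⁻ r in Icc a b, ‖NL (k r) - NL (kt r)‖ₑ) + ENNReal.ofReal ε)
    (hN : ∫⁻ r in Icc a b, ‖NL (k r) - NL (kt r)‖ₑ ≠ ⊤)
    (hd : ∀ t ∈ Icc a b, k t - kt t = tau (t - a) (k a - kt a) +
      -(∫ r in a..t, tau (t - r) (F r - Ft r)))
    (h0 : ‖k a - kt a‖ ≤ ε) :
    (∀ t ∈ Icc a b, ‖k t - kt t‖ ≤ 2 * (2 + CS + CD) * ε) ∧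
      SN (Icc a b) (fun t => k t - kt t) ≤ ENNReal.ofReal (2 * (2 + CS + CD) * ε) ^ 4 := by
  have hJ : MeasurableSet (Icc a b) := measurableSet_Icc
  have mk : AEStronglyMeasurable k (volume.restrict (Icc a b)) := hk.aestronglyMeasurable hJ
  have mkt : AEStronglyMeasurable kt (volume.restrict (Icc a b)) := hkt.aestronglyMeasurable hJ
  have hSt : SN (Icc a b) kt < ⊤ := hS.trans_lt (ENNReal.pow_lt_top ENNReal.ofReal_lt_top)
  have hSkt : SN (Icc a b) k < ⊤ := hSk.trans_lt (ENNReal.pow_lt_top ENNReal.ofReal_lt_top)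
  obtain ⟨Δ, hΔ⟩ : ∃ Δ : ℝ≥0∞, Δ = ⨆ t ∈ Icc a b, ‖k t - kt t‖ₑ := ⟨_, rfl⟩
  have hΔ1 : ∀ t ∈ Icc a b, ‖k t - kt t‖ₑ ≤ Δ := by
    intro t ht
    rw [hΔ]
    exact le_iSup₂ (f := fun t (_ : t ∈ Icc a b) => ‖k t - kt t‖ₑ) t ht
  have hΔt : Δ ≠ ⊤ := by
    have h1 : Δ ≤ ENNReal.ofReal (2 * (A + 1) + A) := by
      rw [hΔ]
      refine iSup₂_le fun t ht => enorm_le_ofReal ((norm_sub_le _ _).trans ?_)
      exact add_le_add (hkA t ht) (hktA t ht)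
    exact ne_top_of_le_ne_top ENNReal.ofReal_ne_top h1
  obtain ⟨X, hX⟩ : ∃ X : ℝ≥0∞, X = sS (Icc a b) (fun t => k t - kt t) := ⟨_, rfl⟩
  obtain ⟨IG, hIG⟩ : ∃ IG : ℝ≥0∞, IG = ∫⁻ r in Icc a b, ‖F r - Ft r‖ₑ := ⟨_, rfl⟩
  obtain ⟨IN, hIN⟩ : ∃ IN : ℝ≥0∞, IN = ∫⁻ r in Icc a b, ‖NL (k r) - NL (kt r)‖ₑ := ⟨_, rfl⟩
  have hINt : IN ≠ ⊤ := by
    rw [hIN]
    exact hN
  have q4 : IG ≤ IN + ENNReal.ofReal ε := by
    rw [hIG, hIN]
    exact hG4
  have hIGt : IG ≠ ⊤ :=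
    ne_top_of_le_ne_top (ENNReal.add_ne_top.2 ⟨hINt, ENNReal.ofReal_ne_top⟩) q4
  -- the Strichartz norm
  have q3 : X ≤ ENNReal.ofReal CS * ENNReal.ofReal ε + ENNReal.ofReal CD * IG := by
    have m1 : AEStronglyMeasurable (fun t => tau (t - a) (k a - kt a))
        (volume.restrict (Icc a b)) := by
      obtain ⟨-, -, -, -, -, -, -, hcc, -⟩ := hG
      have h1 : Continuous fun t : ℝ => tau (t - a) (k a - kt a) :=
        (hcc (k a - kt a)).comp (continuous_id.sub continuous_const)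
      exact h1.aestronglyMeasurable
    have m3 : AEStronglyMeasurable (fun t => ∫ r in a..t, tau (t - r) (F r - Ft r))
        (volume.restrict (Icc a b)) := hG1.aestronglyMeasurable hJ
    have t1 := (hT _ _ (Icc a b) hJ m1 m3.neg).1
    have t2 := (hT _ _ (Icc a b) hJ m3 m3).2
    have t3 : SN (Icc a b) (-fun t => ∫ r in a..t, tau (t - r) (F r - Ft r)) =
        SN (Icc a b) (fun t => ∫ r in a..t, tau (t - r) (F r - Ft r)) := t2
    rw [t3] at t1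
    have e1 : SN (Icc a b) (fun t => k t - kt t) = SN (Icc a b) (fun t =>
        tau (t - a) (k a - kt a) + (-fun t => ∫ r in a..t, tau (t - r) (F r - Ft r)) t) :=
      SN_congr hJ fun t ht => hd t ht
    rw [hX, sS, e1]
    refine t1.trans (add_le_add ?_ ?_)
    · exact (free hStr (Icc a b) a _).trans (mul_le_mul_right (enorm_le_ofReal h0) _)
    · rw [hIG]
      exact hG3
  have hXt : X ≠ ⊤ := ne_top_of_le_ne_top (ENNReal.add_ne_top.2
    ⟨ENNReal.mul_ne_top ENNReal.ofReal_ne_top ENNReal.ofReal_ne_top,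
      ENNReal.mul_ne_top ENNReal.ofReal_ne_top hIGt⟩) q3
  -- the sup norm
  have q2 : Δ ≤ ENNReal.ofReal ε + IG := by
    rw [hΔ]
    refine iSup₂_le fun t ht => ?_
    rw [hd t ht]
    refine (enorm_add_le _ _).trans (add_le_add ?_ ?_)
    · refine enorm_le_ofReal ?_
      rw [(tau _).norm_map]
      exact h0
    · rw [enorm_neg, hIG]
      exact hG2 t ht
  -- the nonlinearity
  have q1 : IN ≤ ENNReal.ofReal CN * (8 * ENNReal.ofReal (2 * (A + 1)) *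
      ((ENNReal.ofReal (2 * (κ * η)) ^ 3 + ENNReal.ofReal η ^ 3) * X) +
        Δ * ENNReal.ofReal η ^ 4) := by
    rw [hIN]
    refine (NL_diff hM hN2 hJ mk mkt hSkt hSt hkA hΔ1 hΔt).trans ?_
    rw [← hX]
    refine mul_le_mul_right (add_le_add (mul_le_mul_right (mul_le_mul_left (add_le_add ?_ ?_) _) _)
      (mul_le_mul_right hS _)) _
    · exact pow_le_pow_left' (sS_le hSk) 3
    · exact pow_le_pow_left' (sS_le hS) 3
  -- real numbers
  have hx : 0 ≤ 2 * (κ * η) := by positivity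
  have hδ0 : 0 ≤ Δ.toReal := ENNReal.toReal_nonneg
  have hσ0 : 0 ≤ X.toReal := ENNReal.toReal_nonneg
  have hg0 : 0 ≤ IG.toReal := ENNReal.toReal_nonneg
  have hn0 : 0 ≤ IN.toReal := ENNReal.toReal_nonneg
  have r1 : IN.toReal ≤ CN * (8 * (2 * (A + 1)) * (((2 * (κ * η)) ^ 3 + η ^ 3) * X.toReal) +
      Δ.toReal * η ^ 4) := by
    refine real_le hINt (by positivity) (q1.trans (le_of_eq ?_))
    have h1 := conv_eq (c := CN) (B := 2 * (A + 1)) hCN.le (by positivity) hx hη.le hσ0 hδ0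
    rw [ENNReal.ofReal_toReal hXt, ENNReal.ofReal_toReal hΔt] at h1
    exact h1
  have r2 : Δ.toReal ≤ ε + IG.toReal := by
    refine real_le hΔt (by positivity) (q2.trans (le_of_eq ?_))
    rw [ENNReal.ofReal_add hε hg0, ENNReal.ofReal_toReal hIGt]
  have r3 : X.toReal ≤ CS * ε + CD * IG.toReal := by
    refine real_le hXt (by positivity) (q3.trans (le_of_eq ?_))
    rw [ENNReal.ofReal_add (by positivity) (by positivity), ENNReal.ofReal_mul hCS.le,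
      ENNReal.ofReal_mul hCD.le, ENNReal.ofReal_toReal hIGt]
  have r4 : IG.toReal ≤ IN.toReal + ε := by
    refine real_le hIGt (by positivity) (q4.trans (le_of_eq ?_))
    rw [ENNReal.ofReal_add hn0 hε, ENNReal.ofReal_toReal hINt]
  have r5 := absorb hδ0 hσ0 hCN hCD hA hx hη.le rfl hc r1 r2 r3 r4
  refine ⟨fun t ht => ?_, SN_le ?_⟩
  · have h1 : ‖k t - kt t‖ ≤ Δ.toReal := by
      have h2 := ENNReal.toReal_mono hΔt (hΔ1 t ht)
      rwa [toReal_enorm] at h2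
    linarith
  · rw [← hX, ← ENNReal.ofReal_toReal hXt]
    exact ENNReal.ofReal_le_ofReal (by linarith)

/-- the conclusion on an interval -/
def Goal (a b ε C : ℝ) (kt : ℝ → K) (k0 : K) : Prop :=
  ∃ k : ℝ → K, IsSol (Icc a b) k ∧ k a = k0 ∧ (∀ t ∈ Icc a b, ‖k t - kt t‖ ≤ C * ε) ∧
    SN (Icc a b) (fun t => k t - kt t) ≤ ENNReal.ofReal (C * ε) ^ 4

/-- the hypotheses on an interval -/
structure Hyp (A a b ε : ℝ) (kt e : ℝ → K) : Prop where
  hab : a ≤ b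
  cont : ContinuousOn kt (Icc a b)
  bd : ∀ t ∈ Icc a b, ‖kt t‖ ≤ A
  ie : IntegrableOn e (Icc a b) volume
  he : ∫ r in Icc a b, ‖e r‖ ≤ ε
  du : ∀ s ∈ Icc a b, ∀ t ∈ Icc a b, s ≤ t →
    kt t = tau (t - s) (kt s) - ∫ r in s..t, tau (t - r) (NL (kt r) - e r)

lemma Hyp.mono {A a b ε a' b' ε' : ℝ} {kt e : ℝ → K} (h : Hyp A a b ε kt e) (h1 : a ≤ a')
    (h2 : a' ≤ b') (h3 : b' ≤ b) (h4 : ε ≤ ε') : Hyp A a' b' ε' kt e where
  hab := h2
  cont := h.cont.mono (Icc_subset_Icc h1 h3)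
  bd t ht := h.bd t (Icc_subset_Icc h1 h3 ht)
  ie := h.ie.mono_set (Icc_subset_Icc h1 h3)
  he := by
    refine (setIntegral_mono_set h.ie.norm ?_ ?_).trans (h.he.trans h4)
    · exact Eventually.of_forall fun r => norm_nonneg _
    · exact (Icc_subset_Icc h1 h3).eventuallyLE
  du s hs t ht hst := h.du s (Icc_subset_Icc h1 h3 hs) t (Icc_subset_Icc h1 h3 ht) hst

/-- one step -/
lemma one_step (hG : St_Grp1) (hStr : St_Str) (hNLb : St_NLb) (hM : St_Meas) (hDu : St_DuhI)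
    (hT : St_SNt) (hL : St_Loc) (A : ℝ) (hA : 0 < A) :
    ∃ η C : ℝ, 0 < η ∧ 1 ≤ C ∧ ∀ (a b ε : ℝ) (kt e : ℝ → K) (k0 : K), 0 ≤ ε → ε ≤ η →
    Hyp A a b ε kt e → SN (Icc a b) kt ≤ ENNReal.ofReal η ^ 4 → ‖k0 - kt a‖ ≤ ε →
    Goal a b ε C kt k0 := by
  obtain ⟨⟨CN, hCN, hN1, hN2⟩, -⟩ := hNLb
  obtain ⟨CD, hCD, hDu⟩ := hDu
  obtain ⟨CS, hCS, hStr⟩ := hStr
  have hStr' : ∀ k : K, ∫⁻ t, eLpNorm (U (tau t k)) 20 volume ^ 4 ≤
      (ENNReal.ofReal CS * ‖k‖ₑ) ^ 4 := fun k => (hStr k).1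
  obtain ⟨η0, hη0, hL⟩ := hL (A + 1) (by linarith)
  obtain ⟨η, κ, hη, hη1, hκ, hκη, hc1, hc2⟩ := consts A CN CD CS η0 hA hCN hCD hCS hη0
  refine ⟨η, 2 * (2 + CS + CD), hη, by linarith, ?_⟩
  intro a b ε kt e k0 hε hεη hH hS h0
  have hJ : MeasurableSet (Icc a b) := measurableSet_Icc
  have ha : a ∈ Icc a b := ⟨le_rfl, hH.hab⟩
  have mkt : AEStronglyMeasurable kt (volume.restrict (Icc a b)) :=
    hH.cont.aestronglyMeasurable hJ
  have hSt : SN (Icc a b) kt < ⊤ := hS.trans_lt (ENNReal.pow_lt_top ENNReal.ofReal_lt_top)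
  obtain ⟨iNt, bNt⟩ := NL_int hM hN1 hJ mkt hSt hH.bd
  have iG0 : IntegrableOn (fun r => NL (kt r) - e r) (Icc a b) volume := iNt.sub hH.ie
  have hG1 : ∫⁻ r in Icc a b, ‖NL (kt r) - e r‖ₑ ≤
      ENNReal.ofReal CN * ENNReal.ofReal A * ENNReal.ofReal η ^ 4 + ENNReal.ofReal ε :=
    (lint_add iNt hH.ie hH.he).trans (add_le_add (bNt.trans (mul_le_mul_right hS _)) le_rfl)
  obtain ⟨c0, -, s0⟩ := duh hCD hDu hH.hab iG0
  have hdu0 : ∀ t ∈ Icc a b, kt t = tau (t - a) (kt a) -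
      ∫ r in a..t, tau (t - r) (NL (kt r) - e r) := fun t ht => hH.du a ha t ht ht.1
  obtain ⟨k, k1, k2, k3, k4⟩ := exist hG hCS hCN hCD hStr' hT hA hL hH.hab hε hεη hη hη1 hκ hκη
    (hc1 ε hεη) hH.cont hH.bd hS c0 s0 hG1 hdu0 h0
  have mk : AEStronglyMeasurable k (volume.restrict (Icc a b)) :=
    k1.2.1.aestronglyMeasurable hJ
  have hSk : SN (Icc a b) k < ⊤ := k3.trans_lt (ENNReal.pow_lt_top ENNReal.ofReal_lt_top)
  obtain ⟨iN, -⟩ := NL_int hM hN1 hJ mk hSk k4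
  have iD : IntegrableOn (fun r => NL (k r) - (NL (kt r) - e r)) (Icc a b) volume := iN.sub iG0
  obtain ⟨c1, b1, s1⟩ := duh hCD hDu hH.hab iD
  have iNN : IntegrableOn (fun r => NL (k r) - NL (kt r)) (Icc a b) volume := iN.sub iNt
  have hG4 : ∫⁻ r in Icc a b, ‖NL (k r) - (NL (kt r) - e r)‖ₑ ≤
      (∫⁻ r in Icc a b, ‖NL (k r) - NL (kt r)‖ₑ) + ENNReal.ofReal ε := by
    have h1 : ∫ r in Icc a b, ‖-e r‖ ≤ ε := by
      simp only [norm_neg]
      exact hH.he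
    have h2 := lint_add iNN hH.ie.neg h1
    refine le_trans (le_of_eq ?_) h2
    refine lintegral_congr fun r => ?_
    congr 1
    show NL (k r) - (NL (kt r) - e r) = NL (k r) - NL (kt r) - -e r
    abel
  have hd := diff_formula hG iN iG0 (fun t ht => k1.2.2.2 a ha t ht) hdu0
  have h0' : ‖k a - kt a‖ ≤ ε := by
    rw [k2]
    exact h0
  obtain ⟨g1, g2⟩ := differ hG hCS hCN hCD hStr' hT hM hN2 hA hε hη hκ hc2 hH.cont hH.bd hS k1.2.1 k4
    k3 c1 b1 s1 hG4 iNN.2.ne hd h0'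
  exact ⟨k, k1, k2, g1, g2⟩

/-- the dividing point -/
lemma split (hM : St_Meas) {a b : ℝ} (hab : a ≤ b) {kt : ℝ → K} (hkt : ContinuousOn kt (Icc a b))
    {n : ℕ} {θ : ℝ} (hθ : 0 ≤ θ) (h1 : SN (Icc a b) kt ≤ ENNReal.ofReal ((n + 1 : ℕ) * θ))
    (h2 : ENNReal.ofReal (n * θ) < SN (Icc a b) kt) :
    ∃ c ∈ Icc a b, SN (Icc a c) kt ≤ ENNReal.ofReal (n * θ) ∧
      SN (Icc c b) kt ≤ ENNReal.ofReal θ := by
  have hJ : MeasurableSet (Icc a b) := measurableSet_Icc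
  have mkt : AEStronglyMeasurable kt (volume.restrict (Icc a b)) := hkt.aestronglyMeasurable hJ
  have hfin : SN (Icc a b) kt < ⊤ := h1.trans_lt ENNReal.ofReal_lt_top
  have hm : AEMeasurable (fun r => sn (kt r) ^ 4) (volume.restrict (Icc a b)) :=
    (sn_meas hM hJ mkt).pow_const 4
  have hint : IntegrableOn (fun r => (sn (kt r) ^ 4).toReal) (Icc a b) volume :=
    integrable_toReal_of_lintegral_ne_top hm hfin.ne
  have hval : ∀ c ∈ Icc a b, ∫ r in Ioc a c, (sn (kt r) ^ 4).toReal = (SN (Icc a c) kt).toReal := by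
    intro c hc
    have hs : Ioc a c ⊆ Icc a b := Ioc_subset_Icc_self.trans (Icc_subset_Icc le_rfl hc.2)
    have h3 : AEMeasurable (fun r => sn (kt r) ^ 4) (volume.restrict (Ioc a c)) :=
      hm.mono_measure (Measure.restrict_mono hs le_rfl)
    have h4 : ∀ᵐ r ∂(volume.restrict (Ioc a c)), sn (kt r) ^ 4 < ⊤ := by
      refine ae_restrict_of_ae_restrict_of_subset hs ?_
      exact ae_lt_top' hm hfin.ne
    rw [integral_toReal h3 h4]
    unfold SN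
    rw [restrict_Ioc_eq_restrict_Icc]
  have hcont := intervalIntegral.continuousOn_primitive (a := a) (b := b) hint
  have hSNle : ∀ c ∈ Icc a b, SN (Icc a c) kt ≤ SN (Icc a b) kt := fun c hc =>
    lintegral_mono_set (Icc_subset_Icc le_rfl hc.2)
  have hnθ : 0 ≤ (n : ℝ) * θ := by positivity
  have hmemI : (n : ℝ) * θ ∈ Icc (∫ r in Ioc a a, (sn (kt r) ^ 4).toReal)
      (∫ r in Ioc a b, (sn (kt r) ^ 4).toReal) := by
    constructor
    · rw [Ioc_self, setIntegral_empty]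
      exact hnθ
    · rw [hval b ⟨hab, le_rfl⟩]
      rw [ENNReal.ofReal_lt_iff_lt_toReal hnθ hfin.ne] at h2
      exact h2.le
  obtain ⟨c, hc, hc2⟩ := intermediate_value_Icc hab hcont hmemI
  have hc3 : ∫ r in Ioc a c, (sn (kt r) ^ 4).toReal = n * θ := hc2
  have hcfin : SN (Icc a c) kt ≠ ⊤ := ((hSNle c hc).trans_lt hfin).ne
  have e1 : SN (Icc a c) kt = ENNReal.ofReal (n * θ) := by
    rw [← hc3, hval c hc, ENNReal.ofReal_toReal hcfin]
  refine ⟨c, hc, e1.le, ?_⟩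
  have e2 : SN (Icc a b) kt = SN (Icc a c) kt + SN (Icc c b) kt := by
    unfold SN
    have h5 : Icc a b = Icc a c ∪ Ioc c b := (Icc_union_Ioc_eq_Icc hc.1 hc.2).symm
    rw [h5, lintegral_union measurableSet_Ioc ?_, restrict_Ioc_eq_restrict_Icc]
    rw [Set.disjoint_left]
    intro x hx hx'
    exact absurd hx.2 (not_le.2 hx'.1)
  rw [e2, e1] at h1
  have e3 : ENNReal.ofReal ((n + 1 : ℕ) * θ) = ENNReal.ofReal (n * θ) + ENNReal.ofReal θ := by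
    rw [← ENNReal.ofReal_add hnθ hθ]
    congr 1
    push_cast
    ring
  rw [e3] at h1
  exact (ENNReal.add_le_add_iff_left ENNReal.ofReal_ne_top).1 h1

/-- finitely many steps -/
lemma steps (hM : St_Meas) (hGl : St_Glue) {A η C1 : ℝ} (hη : 0 < η) (hC1 : 1 ≤ C1)
    (h1 : ∀ (a b ε : ℝ) (kt e : ℝ → K) (k0 : K), 0 ≤ ε → ε ≤ η →
      Hyp A a b ε kt e → SN (Icc a b) kt ≤ ENNReal.ofReal η ^ 4 → ‖k0 - kt a‖ ≤ ε →
      Goal a b ε C1 kt k0) (n : ℕ) :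
    ∃ e1 C : ℝ, 0 < e1 ∧ 1 ≤ C ∧ ∀ (a b ε : ℝ) (kt e : ℝ → K) (k0 : K), 0 ≤ ε → ε ≤ e1 →
      Hyp A a b ε kt e → SN (Icc a b) kt ≤ ENNReal.ofReal (n * η ^ 4) → ‖k0 - kt a‖ ≤ ε →
      Goal a b ε C kt k0 := by
  induction n with
  | zero =>
    refine ⟨η, C1, hη, hC1, fun a b ε kt e k0 h2 h3 h4 h5 h6 => h1 a b ε kt e k0 h2 h3 h4 ?_ h6⟩
    refine h5.trans ?_
    rw [Nat.cast_zero, zero_mul, ENNReal.ofReal_zero]
    exact zero_le
  | succ n ih =>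
    obtain ⟨e1, C, he1, hC, ih⟩ := ih
    have hCp : 0 < C := by linarith
    refine ⟨min e1 (η / C), (1 + C1) * C, by positivity, by nlinarith, ?_⟩
    intro a b ε kt e k0 hε hεe hH hS h0
    have hε1 : ε ≤ e1 := hεe.trans (min_le_left _ _)
    have hε2 : C * ε ≤ η := by
      have h2 : ε ≤ η / C := hεe.trans (min_le_right _ _)
      rw [le_div_iff₀ hCp] at h2
      linarith
    have hCε : 0 ≤ C * ε := by positivity
    have hle : C * ε ≤ (1 + C1) * C * ε := by nlinarith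
    by_cases hcase : SN (Icc a b) kt ≤ ENNReal.ofReal (n * η ^ 4)
    · obtain ⟨k, k1, k2, k3, k4⟩ := ih a b ε kt e k0 hε hε1 hH hcase h0
      refine ⟨k, k1, k2, fun t ht => (k3 t ht).trans hle, k4.trans ?_⟩
      exact pow_le_pow_left' (ENNReal.ofReal_le_ofReal hle) 4
    · obtain ⟨c, hc, s1, s2⟩ := split hM hH.hab hH.cont (by positivity) hS (not_le.1 hcase)
      have hc1 : c ∈ Icc a c := ⟨hc.1, le_rfl⟩
      obtain ⟨k, k1, k2, k3, k4⟩ := ih a c ε kt e k0 hε hε1 (hH.mono le_rfl hc.1 hc.2 le_rfl) s1 h0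
      have h2 : ε ≤ C * ε := by nlinarith
      have h3 : SN (Icc c b) kt ≤ ENNReal.ofReal η ^ 4 := by
        rw [← ENNReal.ofReal_pow hη.le]
        exact s2
      obtain ⟨k', l1, l2, l3, l4⟩ := h1 c b (C * ε) kt e (k c) hCε hε2
        (hH.mono hc.1 hc.2 le_rfl h2) h3 (k3 c hc1)
      obtain ⟨k'', m1, m2, m3⟩ := hGl (Icc a c) (Icc c b) k k' c k1 l1 hc1 ⟨le_rfl, hc.2⟩ l2.symm
      rw [Icc_union_Icc_eq_Icc hc.1 hc.2] at m1
      have hle2 : C1 * (C * ε) ≤ (1 + C1) * C * ε := by nlinarith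
      refine ⟨k'', m1, ?_, ?_, ?_⟩
      · rw [m2 a ⟨le_rfl, hc.1⟩, k2]
      · intro t ht
        rcases le_total t c with h4 | h4
        · rw [m2 t ⟨ht.1, h4⟩]
          exact (k3 t ⟨ht.1, h4⟩).trans hle
        · rw [m3 t ⟨h4, ht.2⟩]
          exact (l3 t ⟨h4, ht.2⟩).trans hle2
      · have h4 : SN (Icc a b) (fun t => k'' t - kt t) ≤
            SN (Icc a c) (fun t => k'' t - kt t) + SN (Icc c b) (fun t => k'' t - kt t) := by
          unfold SN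
          rw [← Icc_union_Icc_eq_Icc hc.1 hc.2]
          exact lintegral_union_le _ _ _
        have h5 : SN (Icc a c) (fun t => k'' t - kt t) = SN (Icc a c) (fun t => k t - kt t) :=
          SN_congr measurableSet_Icc fun t ht => by rw [m2 t ht]
        have h6 : SN (Icc c b) (fun t => k'' t - kt t) = SN (Icc c b) (fun t => k' t - kt t) :=
          SN_congr measurableSet_Icc fun t ht => by rw [m3 t ht]
        rw [h5, h6] at h4
        refine (h4.trans (add_le_add k4 l4)).trans ?_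
        have hC1ε : 0 ≤ C1 * (C * ε) := by positivity
        rw [← ENNReal.ofReal_pow hCε, ← ENNReal.ofReal_pow hC1ε, ← ENNReal.ofReal_add
          (by positivity) (by positivity), ← ENNReal.ofReal_pow (hCε.trans hle)]
        refine ENNReal.ofReal_le_ofReal ?_
        have h7 : (1 + C1) * C * ε = C * ε + C1 * (C * ε) := by ring
        rw [h7]
        exact pow_add_pow_le hCε hC1ε (by norm_num)

end Pertx

open Pertx in
theorem thm_Pert (hG : St_Grp1) (hStr : St_Str) (hNLb : St_NLb) (hM : St_Meas) (hDu : St_DuhI)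
    (hT : St_SNt) (hL : St_Loc) (hGl : St_Glue) : St_Pert := by
  intro A M hA hMp
  obtain ⟨η, C1, hη, hC1, hstep⟩ := one_step hG hStr hNLb hM hDu hT hL A hA
  have hη4 : 0 < η ^ 4 := by positivity
  obtain ⟨n, hn⟩ := exists_nat_ge (M / η ^ 4)
  obtain ⟨e1, C, he1, hC, hmain⟩ := steps hM hGl hη hC1 hstep n
  refine ⟨e1, C, he1, by linarith, ?_⟩
  intro T ε kt e k0 hT0 hε hεe hkt hktA hS he heε hdu h0
  obtain ⟨⟨CN, hCN, hN1, -⟩, -⟩ := hNLb
  have mkt : AEStronglyMeasurable kt (volume.restrict (Icc 0 T)) :=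
    hkt.aestronglyMeasurable measurableSet_Icc
  obtain ⟨iNt, -⟩ := NL_int hM hN1 measurableSet_Icc mkt (hS.trans_lt ENNReal.ofReal_lt_top) hktA
  have iG : IntegrableOn (fun r => NL (kt r) - e r) (Icc 0 T) volume := iNt.sub he
  have hdu' : ∀ t ∈ Icc 0 T, kt t = tau (t - 0) (kt 0) -
      ∫ r in (0 : ℝ)..t, tau (t - r) (NL (kt r) - e r) := by
    intro t ht
    rw [sub_zero]
    exact hdu t ht
  have hH : Hyp A 0 T ε kt e :=
    ⟨hT0, hkt, hktA, he, heε, two_point hG iG hdu'⟩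
  refine hmain 0 T ε kt e k0 hε hεe hH (hS.trans (ENNReal.ofReal_le_ofReal ?_)) h0
  rwa [div_le_iff₀ hη4] at hn

end Pool.Agent.QWE
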