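import Pool.Agent.QWE.StG

set_option autoImplicit false

/-!
# QWE, Psi: existence of the frequency cut-off kernel
-/

open MeasureTheory Filter Topology Set
open scoped ENNReal NNReal RealInnerProductSpace FourierTransform ContDiff

namespace Pool.Agent.QWE

theorem thm_Psi : St_Psi := by
  let b : ContDiffBump (0 : E) := ⟨1, 2, one_pos, one_lt_two⟩
  let h : E → ℂ := fun x => ((b x : ℝ) : ℂ)
  have hc : HasCompactSupport h :=
    b.hasCompactSupport.comp_left (g := fun r : ℝ => (r : ℂ)) Complex.ofReal_zero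
  have hs : ContDiff ℝ ∞ h := Complex.ofRealCLM.contDiff.comp b.contDiff
  let H : SchwartzMap E ℂ := hc.toSchwartzMap hs
  have hH : ∀ x, H x = h x := fun _ => rfl
  let G : SchwartzMap E ℂ := 𝓕⁻ H
  have hG : ∀ x, G x = ∫ v, Complex.exp ((↑(2 * Real.pi * inner ℝ v x) * Complex.I)) • h v := by
    intro x
    have h1 : (G : E → ℂ) = 𝓕⁻ (H : E → ℂ) := SchwartzMap.fourierInv_coe H
    rw [h1, Real.fourierInv_eq']
    rfl
  have hneg : ∀ x, G (-x) = G x := by
    intro x
    rw [hG, hG, ← integral_neg_eq_self]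
    refine integral_congr_ae (Eventually.of_forall fun v => ?_)
    change Complex.exp ((↑(2 * Real.pi * inner ℝ (-v) (-x)) * Complex.I)) • h (-v) =
      Complex.exp ((↑(2 * Real.pi * inner ℝ v x) * Complex.I)) • h v
    have h2 : h (-v) = h v := by
      change ((b (-v) : ℝ) : ℂ) = ((b v : ℝ) : ℂ)
      rw [b.neg]
    rw [inner_neg_neg, h2]
  have hconj : ∀ x, (starRingEnd ℂ) (G x) = G (-x) := by
    intro x
    rw [hG, hG, ← integral_conj]
    refine integral_congr_ae (Eventually.of_forall fun v => ?_)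
    change (starRingEnd ℂ) (Complex.exp ((↑(2 * Real.pi * inner ℝ v x) * Complex.I)) • h v) =
      Complex.exp ((↑(2 * Real.pi * inner ℝ v (-x)) * Complex.I)) • h v
    rw [smul_eq_mul, smul_eq_mul, map_mul, ← Complex.exp_conj, map_mul, Complex.conj_ofReal,
      Complex.conj_I, inner_neg_right]
    congr 1
    · congr 1
      push_cast
      ring
    · exact Complex.conj_ofReal _
  have hreal : ∀ x, G x = (((G x).re : ℝ) : ℂ) := by
    intro x
    have h1 : (starRingEnd ℂ) (G x) = G x := by rw [hconj, hneg]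
    exact (Complex.conj_eq_iff_re.1 h1).symm
  have hInv : ∀ ξ, ∫ v, Complex.exp ((↑(-2 * Real.pi * inner ℝ v ξ) * Complex.I)) • G v = h ξ := by
    intro ξ
    have h1 : 𝓕 G = H := FourierTransform.fourier_fourierInv_eq H
    have h2 : (𝓕 G : SchwartzMap E ℂ) ξ = h ξ := by rw [h1]; rfl
    rw [← h2, ← Real.fourier_eq']
    rfl
  have hint : ∀ ξ : E, Integrable (fun v : E =>
      Complex.exp ((↑(-2 * Real.pi * inner ℝ v ξ) * Complex.I)) • G v) := by
    intro ξ
    refine G.integrable.mono ?_ (Eventually.of_forall fun v => ?_)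
    · refine Continuous.aestronglyMeasurable ?_
      have := G.continuous
      fun_prop
    · rw [norm_smul, Complex.norm_exp_ofReal_mul_I, one_mul]
  have key : ∀ ξ : E, ∫ x, (G x).re * Real.cos (2 * Real.pi * inner ℝ x ξ) = b ξ := by
    intro ξ
    have h1 := Complex.reCLM.integral_comp_comm (hint ξ)
    rw [hInv ξ] at h1
    have h2 : Complex.reCLM (h ξ) = b ξ := Complex.ofReal_re _
    rw [h2] at h1
    rw [← h1]
    refine integral_congr_ae (Eventually.of_forall fun v => ?_)
    change (G v).re * Real.cos (2 * Real.pi * inner ℝ v ξ) =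
      (Complex.exp ((↑(-2 * Real.pi * inner ℝ v ξ) * Complex.I)) • G v).re
    conv_rhs => rw [hreal v]
    rw [smul_eq_mul, Complex.re_mul_ofReal, Complex.exp_ofReal_mul_I_re, mul_comm]
    congr 1
    rw [← Real.cos_neg]
    congr 1
    ring
  refine ⟨fun x => (G x).re, ⟨SchwartzMap.postcompCLM (𝕜 := ℝ) Complex.reCLM G, fun x => rfl⟩,
    fun x => congrArg Complex.re (hneg x), fun ξ => ?_⟩
  rw [key ξ]
  refine ⟨b.nonneg, b.le_one, fun hξ => ?_, fun hξ => ?_⟩
  · exact b.one_of_mem_closedBall (by rw [mem_closedBall_zero_iff]; exact hξ)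
  · exact b.zero_of_le_dist (by rw [dist_zero_right]; exact hξ)

end Pool.Agent.QWE
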