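import Pool.Agent.QWE.StA

set_option autoImplicit false

open MeasureTheory Filter Topology Set
open scoped ENNReal NNReal RealInnerProductSpace Pointwise

namespace Pool.Agent.QWE
namespace UTestx

/-- an orthonormal frame starting with `w` -/
theorem frame (w : S) : ∃ T : E ≃ᵐ ℝ × (Fin 4 → ℝ),
    MeasurePreserving T volume (volume.prod volume) ∧ (∀ x, (T x).1 = inner ℝ x (w : E)) ∧
    (∀ x i, |(T x).2 i| ≤ ‖x‖) ∧ (∀ x y i, (T (x - y)).2 i = (T x).2 i - (T y).2 i) := by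
  have hw : ‖(w : E)‖ = 1 := by simp
  have ho : Orthonormal ℝ (({0} : Set (Fin 5)).domRestrict (fun _ : Fin 5 => (w : E))) := by
    constructor
    · intro i; simpa using hw
    · intro i j hij; exact absurd (Subsingleton.elim i j) hij
  obtain ⟨b, hb⟩ := ho.exists_orthonormalBasis_extension_of_card_eq (by simp)
  have hb0 : b 0 = w := hb 0 (by simp)
  have hT1 : MeasurePreserving (b.repr.toHomeomorph.toMeasurableEquiv) volume volume :=
    b.measurePreserving_repr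
  have hT2 : MeasurePreserving (MeasurableEquiv.toLp 2 (Fin 5 → ℝ)).symm volume volume :=
    EuclideanSpace.volume_preserving_symm_measurableEquiv_toLp (Fin 5)
  have hT3 : MeasurePreserving (MeasurableEquiv.piFinSuccAbove (fun _ : Fin 5 => ℝ) 0) volume
      volume := volume_preserving_piFinSuccAbove (fun _ : Fin 5 => ℝ) 0
  refine ⟨(b.repr.toHomeomorph.toMeasurableEquiv.trans
    (MeasurableEquiv.toLp 2 (Fin 5 → ℝ)).symm).trans
    (MeasurableEquiv.piFinSuccAbove (fun _ : Fin 5 => ℝ) 0), (hT3.comp (hT2.comp hT1)), ?_, ?_, ?_⟩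
  · intro x
    change (b.repr x) 0 = _
    rw [b.repr_apply_apply, hb0, real_inner_comm]
  · intro x i
    change |(b.repr x) ((0 : Fin 5).succAbove i)| ≤ ‖x‖
    rw [b.repr_apply_apply]
    calc |inner ℝ (b ((0 : Fin 5).succAbove i)) x| ≤ ‖b ((0 : Fin 5).succAbove i)‖ * ‖x‖ :=
          abs_real_inner_le_norm _ _
      _ = ‖x‖ := by rw [b.orthonormal.1, one_mul]
  · intro x y i
    change (b.repr (x - y)) ((0 : Fin 5).succAbove i) =
      (b.repr x) ((0 : Fin 5).succAbove i) - (b.repr y) ((0 : Fin 5).succAbove i)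
    rw [map_sub]
    rfl

theorem ball_bound (w : S) (y : E) (M : ℝ) (hM : 0 < M) (g : ℝ → ℝ≥0∞) (hg : Measurable g) :
    ∫⁻ x in Metric.ball y M, g (inner ℝ x (w : E)) ≤
      ENNReal.ofReal ((2 * M) ^ 4) * ∫⁻ p in {p : ℝ | |p - inner ℝ y (w : E)| < M}, g p := by
  obtain ⟨T, hT, h1, h2, h3⟩ := frame w
  have hA : MeasurableSet {p : ℝ | |p - inner ℝ y (w : E)| < M} :=
    measurableSet_lt (by fun_prop) measurable_const
  set A : Set ℝ := {p : ℝ | |p - inner ℝ y (w : E)| < M} with hAdef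
  set B : Set (Fin 4 → ℝ) := Metric.ball (T y).2 M with hB
  have hw : ‖(w : E)‖ = 1 := by simp
  rw [← lintegral_indicator Metric.isOpen_ball.measurableSet, ← lintegral_indicator hA]
  have hG : Measurable (fun z : ℝ × (Fin 4 → ℝ) => A.indicator g z.1 *
      B.indicator (fun _ => (1 : ℝ≥0∞)) z.2) :=
    ((hg.indicator hA).comp measurable_fst).mul
      ((measurable_const.indicator Metric.isOpen_ball.measurableSet).comp measurable_snd)
  calc ∫⁻ x, (Metric.ball y M).indicator (fun x => g (inner ℝ x (w : E))) x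
      ≤ ∫⁻ x, (fun z : ℝ × (Fin 4 → ℝ) => A.indicator g z.1 *
          B.indicator (fun _ => (1 : ℝ≥0∞)) z.2) (T x) := by
        apply lintegral_mono
        intro x
        by_cases hx : x ∈ Metric.ball y M
        · rw [indicator_of_mem hx]
          rw [Metric.mem_ball, dist_eq_norm] at hx
          have hxA : (T x).1 ∈ A := by
            rw [hAdef, mem_ofPred_eq, h1, ← inner_sub_left]
            calc |inner ℝ (x - y) (w : E)| ≤ ‖x - y‖ * ‖(w : E)‖ := abs_real_inner_le_norm _ _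
              _ < M := by rw [hw, mul_one]; exact hx
          have hxB : (T x).2 ∈ B := by
            rw [hB, Metric.mem_ball, dist_pi_lt_iff hM]
            intro i
            rw [Real.dist_eq, ← h3]
            exact (h2 _ _).trans_lt hx
          change _ ≤ A.indicator g (T x).1 * B.indicator (fun _ => (1 : ℝ≥0∞)) (T x).2
          rw [indicator_of_mem hxA, indicator_of_mem hxB, mul_one, h1]
        · rw [indicator_of_notMem hx]; exact bot_le
    _ = ∫⁻ z, A.indicator g z.1 * B.indicator (fun _ => (1 : ℝ≥0∞)) z.2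
          ∂((volume : Measure ℝ).prod volume) := hT.lintegral_comp hG
    _ = (∫⁻ p, A.indicator g p) * ∫⁻ v, B.indicator (fun _ => (1 : ℝ≥0∞)) v := by
        apply lintegral_prod_mul
        · exact (hg.indicator hA).aemeasurable
        · exact (measurable_const.indicator Metric.isOpen_ball.measurableSet).aemeasurable
    _ = ENNReal.ofReal ((2 * M) ^ 4) * ∫⁻ p, A.indicator g p := by
        rw [lintegral_indicator Metric.isOpen_ball.measurableSet, lintegral_const, one_mul,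
          Measure.restrict_apply_univ, Real.volume_pi_ball _ hM, Fintype.card_fin, mul_comm]

theorem measurable_coe (k : K) : Measurable (k : S × ℝ → ℝ) :=
  (Lp.stronglyMeasurable k).measurable

theorem measurable_map : Measurable (fun q : E × S => (q.2, inner ℝ q.1 (q.2 : E))) := by
  fun_prop

theorem measurableSet_A (y : E) (M : ℝ) :
    MeasurableSet {z : S × ℝ | |z.2 - inner ℝ y (z.1 : E)| < M} :=
  measurableSet_lt (by fun_prop) measurable_const

theorem indK_coe {A : Set (S × ℝ)} (hA : MeasurableSet A) (k : K) :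
    (indK A k : S × ℝ → ℝ) =ᵐ[mu] A.indicator k := by
  have h := mulK_coe (θ := A.indicator fun _ => (1 : ℝ)) (measurable_const.indicator hA)
    (fun z => by
      by_cases hz : z ∈ A
      · simp [hz]
      · simp [hz]) k
  filter_upwards [h] with z hz
  rw [indK, hz]
  by_cases hz : z ∈ A
  · simp [hz]
  · simp [hz]

theorem enorm_indK {A : Set (S × ℝ)} (hA : MeasurableSet A) (k : K) :
    ‖indK A k‖ₑ = eLpNorm k 2 (mu.restrict A) := by
  rw [Lp.enorm_def, eLpNorm_congr_ae (indK_coe hA k), eLpNorm_indicator_eq_eLpNorm_restrict hA]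

theorem mu_A (y : E) (M : ℝ) :
    mu {z : S × ℝ | |z.2 - inner ℝ y (z.1 : E)| < M} = ENNReal.ofReal (2 * M) * sg univ := by
  rw [Measure.prod_apply (measurableSet_A y M)]
  have : ∀ w : S, (volume : Measure ℝ) (Prod.mk w ⁻¹' {z : S × ℝ |
      |z.2 - inner ℝ y (z.1 : E)| < M}) = ENNReal.ofReal (2 * M) := by
    intro w
    have e : Prod.mk w ⁻¹' {z : S × ℝ | |z.2 - inner ℝ y (z.1 : E)| < M} =
        Metric.ball (inner ℝ y (w : E)) M := by
      ext p
      simp [Metric.mem_ball, Real.dist_eq]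
    rw [e, Real.volume_ball]
  simp only [this]
  rw [lintegral_const]

theorem part1 : ∃ C : ℝ, 0 < C ∧ ∀ (k : K) (y : E) (M : ℝ), 0 < M →
    ∫⁻ x in Metric.ball y M, ‖U k x‖ₑ ≤ ENNReal.ofReal (C * M ^ (9 / 2 : ℝ)) *
      ‖indK {z | |z.2 - inner ℝ y (z.1 : E)| < M} k‖ₑ := by
  refine ⟨16 * (2 * (sg univ).toReal) ^ (1 / 2 : ℝ) + 1, by positivity, ?_⟩
  intro k y M hM
  have hk := measurable_coe k
  have hA := measurableSet_A y M
  set A : Set (S × ℝ) := {z : S × ℝ | |z.2 - inner ℝ y (z.1 : E)| < M} with hAdef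
  have s1 : ∫⁻ x in Metric.ball y M, ‖U k x‖ₑ ≤
      ENNReal.ofReal ((2 * M) ^ 4) * ∫⁻ z in A, ‖k z‖ₑ ∂mu := by
    calc ∫⁻ x in Metric.ball y M, ‖U k x‖ₑ
        ≤ ∫⁻ x in Metric.ball y M, ∫⁻ w : S, ‖k (w, inner ℝ x (w : E))‖ₑ ∂sg :=
          lintegral_mono fun x => enorm_integral_le_lintegral_enorm _
      _ = ∫⁻ w : S, ∫⁻ x in Metric.ball y M, ‖k (w, inner ℝ x (w : E))‖ₑ ∂volume ∂sg := by
          apply lintegral_lintegral_swap
          exact (hk.comp measurable_map).enorm.aemeasurable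
      _ ≤ ∫⁻ w : S, ENNReal.ofReal ((2 * M) ^ 4) *
            ∫⁻ p in {p : ℝ | |p - inner ℝ y (w : E)| < M}, ‖k (w, p)‖ₑ ∂volume ∂sg := by
          apply lintegral_mono
          intro w
          exact ball_bound w y M hM (fun p => ‖k (w, p)‖ₑ)
            ((hk.comp measurable_prodMk_left).enorm)
      _ = ∫⁻ w : S, ENNReal.ofReal ((2 * M) ^ 4) *
            ∫⁻ p : ℝ, A.indicator (fun z => ‖k z‖ₑ) (w, p) ∂volume ∂sg := by
          congr 1
          ext w
          congr 1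
          rw [← lintegral_indicator (measurableSet_lt (by fun_prop) measurable_const)]
          rfl
      _ = ENNReal.ofReal ((2 * M) ^ 4) * ∫⁻ w : S, ∫⁻ p : ℝ,
            A.indicator (fun z => ‖k z‖ₑ) (w, p) ∂volume ∂sg := by
          rw [lintegral_const_mul]
          exact (hk.enorm.indicator hA).lintegral_prod_right'
      _ = ENNReal.ofReal ((2 * M) ^ 4) * ∫⁻ z in A, ‖k z‖ₑ ∂mu := by
          rw [← lintegral_indicator hA, lintegral_prod _ (hk.enorm.indicator hA).aemeasurable]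
  have s2 : ∫⁻ z in A, ‖k z‖ₑ ∂mu ≤
      ‖indK A k‖ₑ * (ENNReal.ofReal (2 * M) * sg univ) ^ (1 / 2 : ℝ) := by
    rw [enorm_indK hA, ← eLpNorm_one_eq_lintegral_enorm]
    have h := eLpNorm_le_eLpNorm_mul_rpow_measure_univ (μ := mu.restrict A) (p := 1) (q := 2)
      (f := (k : S × ℝ → ℝ)) (by norm_num) hk.aestronglyMeasurable
    rw [Measure.restrict_apply_univ, mu_A y M] at h
    refine h.trans (le_of_eq ?_)
    congr 2
    norm_num
  have hs : sg univ = ENNReal.ofReal ((sg univ).toReal) :=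
    (ENNReal.ofReal_toReal (measure_ne_top _ _)).symm
  have s3 : ENNReal.ofReal ((2 * M) ^ 4) * (ENNReal.ofReal (2 * M) * sg univ) ^ (1 / 2 : ℝ) ≤
      ENNReal.ofReal ((16 * (2 * (sg univ).toReal) ^ (1 / 2 : ℝ) + 1) * M ^ (9 / 2 : ℝ)) := by
    rw [hs, ENNReal.toReal_ofReal ENNReal.toReal_nonneg, ← ENNReal.ofReal_mul (by positivity),
      ENNReal.ofReal_rpow_of_nonneg (by positivity) (by norm_num),
      ← ENNReal.ofReal_mul (by positivity)]
    apply ENNReal.ofReal_le_ofReal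
    have e1 : (2 * M * (sg univ).toReal) ^ (1 / 2 : ℝ) =
        (2 * (sg univ).toReal) ^ (1 / 2 : ℝ) * M ^ (1 / 2 : ℝ) := by
      rw [← Real.mul_rpow (by positivity) hM.le]
      congr 1
      ring
    have e2 : M ^ (9 / 2 : ℝ) = M ^ 4 * M ^ (1 / 2 : ℝ) := by
      rw [← Real.rpow_natCast, ← Real.rpow_add hM]
      norm_num
    rw [e1, e2]
    have h1 : 0 ≤ M ^ 4 * M ^ (1 / 2 : ℝ) := by positivity
    nlinarith
  calc ∫⁻ x in Metric.ball y M, ‖U k x‖ₑ
      ≤ ENNReal.ofReal ((2 * M) ^ 4) * ∫⁻ z in A, ‖k z‖ₑ ∂mu := s1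
    _ ≤ ENNReal.ofReal ((2 * M) ^ 4) *
        (‖indK A k‖ₑ * (ENNReal.ofReal (2 * M) * sg univ) ^ (1 / 2 : ℝ)) := by gcongr
    _ = (ENNReal.ofReal ((2 * M) ^ 4) * (ENNReal.ofReal (2 * M) * sg univ) ^ (1 / 2 : ℝ)) *
        ‖indK A k‖ₑ := by ring
    _ ≤ _ := by gcongr

theorem measurable_U (k : K) : StronglyMeasurable (U k) := by
  have h : StronglyMeasurable (fun q : E × S => k (q.2, inner ℝ q.1 (q.2 : E))) :=
    ((measurable_coe k).comp measurable_map).stronglyMeasurable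
  exact h.integral_prod_right'

theorem part2 (k : K) : LocallyIntegrable (U k) volume := by
  obtain ⟨C, hC, h⟩ := part1
  intro x
  refine ⟨Metric.ball x 1, Metric.ball_mem_nhds x one_pos, ?_⟩
  refine ⟨(measurable_U k).aestronglyMeasurable, ?_⟩
  refine (h k x 1 one_pos).trans_lt ?_
  exact ENNReal.mul_lt_top ENNReal.ofReal_lt_top enorm_lt_top

/-- decay of Schwartz functions -/
theorem sch_decay {φ : E → ℝ} (hφ : IsSch φ) :
    Continuous φ ∧ ∃ C : ℝ, 0 ≤ C ∧ ∀ x, |φ x| ≤ C * ((1 + ‖x‖ ^ 2) ^ 5)⁻¹ := by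
  obtain ⟨f, hf⟩ := hφ
  have hfφ : (f : E → ℝ) = φ := funext hf
  refine ⟨hfφ ▸ f.continuous, ?_⟩
  refine ⟨2 ^ 10 * ((Finset.Iic (10, 0)).sup fun m => SchwartzMap.seminorm ℝ m.1 m.2) f,
    by positivity, fun x => ?_⟩
  have h := SchwartzMap.one_add_le_sup_seminorm_apply (𝕜 := ℝ) (m := (10, 0)) (k := 10) (n := 0)
    (le_refl _) (le_refl _) f x
  rw [norm_iteratedFDeriv_zero, hfφ, Real.norm_eq_abs] at h
  rw [← div_eq_mul_inv, le_div_iff₀ (by positivity)]
  refine le_trans ?_ h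
  rw [mul_comm]
  apply mul_le_mul_of_nonneg_right _ (abs_nonneg _)
  have h1 : 1 + ‖x‖ ^ 2 ≤ (1 + ‖x‖) ^ 2 := by nlinarith [norm_nonneg x]
  calc (1 + ‖x‖ ^ 2) ^ 5 ≤ ((1 + ‖x‖) ^ 2) ^ 5 := pow_le_pow_left₀ (by positivity) h1 5
    _ = (1 + ‖x‖) ^ 10 := by ring

/-- the product bound -/
theorem prod_bound {T : E ≃ᵐ ℝ × (Fin 4 → ℝ)} {w : S} (h1 : ∀ x, (T x).1 = inner ℝ x (w : E))
    (h2 : ∀ x i, |(T x).2 i| ≤ ‖x‖) (z : ℝ × (Fin 4 → ℝ)) :
    ((1 + ‖T.symm z‖ ^ 2) ^ 5)⁻¹ ≤ (1 + z.1 ^ 2)⁻¹ * ∏ i, (1 + (z.2 i) ^ 2)⁻¹ := by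
  have hw : ‖(w : E)‖ = 1 := by simp
  set x : E := T.symm z with hx
  have hz : T x = z := by rw [hx]; exact T.apply_symm_apply z
  have a1 : z.1 ^ 2 ≤ ‖x‖ ^ 2 := by
    rw [← hz, h1]
    have : |inner ℝ x (w : E)| ≤ ‖x‖ := by
      calc |inner ℝ x (w : E)| ≤ ‖x‖ * ‖(w : E)‖ := abs_real_inner_le_norm _ _
        _ = ‖x‖ := by rw [hw, mul_one]
    exact sq_le_sq' (by linarith [neg_abs_le (inner ℝ x (w : E))]) ((le_abs_self _).trans this)
  have a2 : ∀ i, (z.2 i) ^ 2 ≤ ‖x‖ ^ 2 := by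
    intro i
    have := h2 x i
    rw [hz] at this
    exact sq_le_sq' (by linarith [neg_abs_le (z.2 i)]) ((le_abs_self _).trans this)
  have a3 : ∏ i, (1 + (z.2 i) ^ 2) ≤ (1 + ‖x‖ ^ 2) ^ 4 := by
    calc ∏ i, (1 + (z.2 i) ^ 2) ≤ ∏ _i : Fin 4, (1 + ‖x‖ ^ 2) :=
          Finset.prod_le_prod (fun i _ => by positivity) (fun i _ => by linarith [a2 i])
      _ = (1 + ‖x‖ ^ 2) ^ 4 := by simp
  rw [Finset.prod_inv_distrib, ← mul_inv]
  have a4 : 0 < ∏ i, (1 + (z.2 i) ^ 2) := Finset.prod_pos fun i _ => by positivity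
  apply inv_anti₀ (by positivity)
  calc (1 + z.1 ^ 2) * ∏ i, (1 + (z.2 i) ^ 2) ≤ (1 + ‖x‖ ^ 2) * (1 + ‖x‖ ^ 2) ^ 4 :=
        mul_le_mul (by linarith) a3 a4.le (by positivity)
    _ = (1 + ‖x‖ ^ 2) ^ 5 := by ring

theorem integrable_D : Integrable (fun v : Fin 4 → ℝ => ∏ i, (1 + (v i) ^ 2)⁻¹) volume :=
  Integrable.fintype_prod (f := fun _ (t : ℝ) => (1 + t ^ 2)⁻¹)
    (fun _ => integrable_inv_one_add_sq)

section slice

variable {T : E ≃ᵐ ℝ × (Fin 4 → ℝ)} {w : S} {φ : E → ℝ} {C : ℝ}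

theorem slice_dom (h1 : ∀ x, (T x).1 = inner ℝ x (w : E)) (h2 : ∀ x i, |(T x).2 i| ≤ ‖x‖)
    (hC0 : 0 ≤ C) (hC : ∀ x, |φ x| ≤ C * ((1 + ‖x‖ ^ 2) ^ 5)⁻¹) (q : ℝ → ℝ)
    (z : ℝ × (Fin 4 → ℝ)) :
    ‖q z.1 * φ (T.symm z)‖ ≤ C * (|q z.1 * (1 + z.1 ^ 2)⁻¹| * ∏ i, (1 + (z.2 i) ^ 2)⁻¹) := by
  rw [norm_mul, Real.norm_eq_abs, Real.norm_eq_abs, abs_mul, abs_of_nonneg
    (show 0 ≤ (1 + z.1 ^ 2)⁻¹ by positivity)]
  have b1 := hC (T.symm z)
  have b2 := prod_bound h1 h2 z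
  have b3 := mul_le_mul_of_nonneg_left b2 hC0
  calc |q z.1| * |φ (T.symm z)| ≤ |q z.1| * (C * ((1 + z.1 ^ 2)⁻¹ * ∏ i, (1 + (z.2 i) ^ 2)⁻¹)) :=
        mul_le_mul_of_nonneg_left (b1.trans b3) (abs_nonneg _)
    _ = _ := by ring

theorem slice_int (h1 : ∀ x, (T x).1 = inner ℝ x (w : E)) (h2 : ∀ x i, |(T x).2 i| ≤ ‖x‖)
    (hφ : Continuous φ) (hC0 : 0 ≤ C) (hC : ∀ x, |φ x| ≤ C * ((1 + ‖x‖ ^ 2) ^ 5)⁻¹) (q : ℝ → ℝ)
    (hq : Measurable q) (hqi : Integrable (fun p => q p * (1 + p ^ 2)⁻¹) volume) :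
    Integrable (fun z : ℝ × (Fin 4 → ℝ) => q z.1 * φ (T.symm z)) (volume.prod volume) := by
  have h3 : Integrable (fun z : ℝ × (Fin 4 → ℝ) => C * (|q z.1 * (1 + z.1 ^ 2)⁻¹| *
      ∏ i, (1 + (z.2 i) ^ 2)⁻¹)) (volume.prod volume) :=
    (Integrable.mul_prod (f := fun p : ℝ => |q p * (1 + p ^ 2)⁻¹|)
      (g := fun v : Fin 4 → ℝ => ∏ i, (1 + (v i) ^ 2)⁻¹) hqi.abs integrable_D).const_mul C
  refine h3.mono' ?_ (Eventually.of_forall fun z => slice_dom h1 h2 hC0 hC q z)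
  exact ((hq.comp measurable_fst).mul
    (hφ.measurable.comp T.symm.measurable)).aestronglyMeasurable

theorem slice_eq (hT : MeasurePreserving T volume (volume.prod volume))
    (h1 : ∀ x, (T x).1 = inner ℝ x (w : E)) (h2 : ∀ x i, |(T x).2 i| ≤ ‖x‖)
    (hφ : Continuous φ) (hC0 : 0 ≤ C) (hC : ∀ x, |φ x| ≤ C * ((1 + ‖x‖ ^ 2) ^ 5)⁻¹) (q : ℝ → ℝ)
    (hq : Measurable q) (hqi : Integrable (fun p => q p * (1 + p ^ 2)⁻¹) volume) :
    Integrable (fun x : E => q (inner ℝ x (w : E)) * φ x) volume ∧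
    ∫ x : E, q (inner ℝ x (w : E)) * φ x = ∫ p, q p * ∫ v, φ (T.symm (p, v)) := by
  have h3 := slice_int h1 h2 hφ hC0 hC q hq hqi
  have e : (fun x : E => q (inner ℝ x (w : E)) * φ x) =
      (fun z : ℝ × (Fin 4 → ℝ) => q z.1 * φ (T.symm z)) ∘ T := by
    funext x
    simp only [Function.comp, T.symm_apply_apply, h1]
  constructor
  · rw [e]
    exact (hT.integrable_comp h3.aestronglyMeasurable).2 h3
  · have h4 := hT.integral_comp' (fun z : ℝ × (Fin 4 → ℝ) => q z.1 * φ (T.symm z))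
    have h5 : ∫ x : E, q (inner ℝ x (w : E)) * φ x =
        ∫ x : E, (fun z : ℝ × (Fin 4 → ℝ) => q z.1 * φ (T.symm z)) (T x) :=
      integral_congr_ae (Eventually.of_forall fun x => congrFun e x)
    rw [h5, h4, integral_prod _ h3]
    apply integral_congr_ae
    exact Eventually.of_forall fun p => integral_const_mul (q p) (fun v => φ (T.symm (p, v)))

theorem slice_norm (hT : MeasurePreserving T volume (volume.prod volume))
    (h1 : ∀ x, (T x).1 = inner ℝ x (w : E)) (h2 : ∀ x i, |(T x).2 i| ≤ ‖x‖)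
    (hφ : Continuous φ) (hC0 : 0 ≤ C) (hC : ∀ x, |φ x| ≤ C * ((1 + ‖x‖ ^ 2) ^ 5)⁻¹) (q : ℝ → ℝ)
    (hq : Measurable q) (hqi : Integrable (fun p => q p * (1 + p ^ 2)⁻¹) volume) :
    ∫ x : E, ‖q (inner ℝ x (w : E)) * φ x‖ ≤
      C * (∫ v : Fin 4 → ℝ, ∏ i, (1 + (v i) ^ 2)⁻¹) * ∫ p, |q p * (1 + p ^ 2)⁻¹| := by
  have h3 := slice_int h1 h2 hφ hC0 hC q hq hqi
  have h4 := hT.integral_comp' (fun z : ℝ × (Fin 4 → ℝ) => ‖q z.1 * φ (T.symm z)‖)
  have h5 : ∫ x : E, ‖q (inner ℝ x (w : E)) * φ x‖ =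
      ∫ x : E, (fun z : ℝ × (Fin 4 → ℝ) => ‖q z.1 * φ (T.symm z)‖) (T x) := by
    apply integral_congr_ae
    refine Eventually.of_forall fun x => ?_
    simp only [T.symm_apply_apply, h1]
  rw [h5, h4]
  have h6 : Integrable (fun z : ℝ × (Fin 4 → ℝ) => C * (|q z.1 * (1 + z.1 ^ 2)⁻¹| *
      ∏ i, (1 + (z.2 i) ^ 2)⁻¹)) (volume.prod volume) :=
    (Integrable.mul_prod (f := fun p : ℝ => |q p * (1 + p ^ 2)⁻¹|)
      (g := fun v : Fin 4 → ℝ => ∏ i, (1 + (v i) ^ 2)⁻¹) hqi.abs integrable_D).const_mul C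
  calc ∫ z, ‖q z.1 * φ (T.symm z)‖ ∂((volume : Measure ℝ).prod volume)
      ≤ ∫ z : ℝ × (Fin 4 → ℝ), C * (|q z.1 * (1 + z.1 ^ 2)⁻¹| * ∏ i, (1 + (z.2 i) ^ 2)⁻¹)
          ∂((volume : Measure ℝ).prod volume) :=
        integral_mono h3.norm h6 fun z => slice_dom h1 h2 hC0 hC q z
    _ = C * ((∫ p, |q p * (1 + p ^ 2)⁻¹|) * ∫ v : Fin 4 → ℝ, ∏ i, (1 + (v i) ^ 2)⁻¹) := by
        rw [integral_const_mul]
        congr 1
        exact integral_prod_mul (fun p : ℝ => |q p * (1 + p ^ 2)⁻¹|)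
          (fun v : Fin 4 → ℝ => ∏ i, (1 + (v i) ^ 2)⁻¹)
    _ = _ := by ring

end slice

/-- the slice formula for the Radon transform -/
theorem rad_formula (h : St_RadS) {φ : E → ℝ} (hφ : IsSch φ) (w : S) (q : ℝ → ℝ)
    (hq : Measurable q) (hqi : Integrable (fun p => q p * (1 + p ^ 2)⁻¹) volume) :
    ∫ x : E, q (inner ℝ x (w : E)) * φ x = ∫ p, q p * Rad φ (w, p) := by
  obtain ⟨hc, C, hC0, hC⟩ := sch_decay hφ
  obtain ⟨T, hT, h1, h2, -⟩ := frame w
  obtain ⟨r1, -, -, -, r5, -⟩ := h φ hφ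
  have hΦ : Integrable (fun p => ∫ v, φ (T.symm (p, v))) volume := by
    have h3 := slice_int h1 h2 hc hC0 hC (fun _ => 1) measurable_const
      (by simpa using integrable_inv_one_add_sq)
    simpa using h3.integral_prod_left
  have hae : ∀ᵐ p : ℝ, Rad φ (w, p) = ∫ v, φ (T.symm (p, v)) := by
    apply ae_eq_of_integral_contDiff_smul_eq
    · exact (r1.comp (Continuous.prodMk_right w)).locallyIntegrable
    · exact hΦ.locallyIntegrable
    · intro g hg hgs
      obtain ⟨B, hB⟩ := hg.continuous.bounded_above_of_compact_support hgs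
      have e1 := r5 w g hg.continuous ⟨B, fun p => by simpa using hB p⟩
      have hgi : Integrable (fun p => g p * (1 + p ^ 2)⁻¹) volume :=
        integrable_inv_one_add_sq.bdd_mul hg.continuous.aestronglyMeasurable
          (Eventually.of_forall hB)
      have e2 := (slice_eq hT h1 h2 hc hC0 hC g hg.continuous.measurable hgi).2
      simp only [smul_eq_mul]
      rw [← e2]
      calc ∫ p, g p * Rad φ (w, p) = ∫ p, Rad φ (w, p) * g p := by
            congr 1; ext p; ring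
        _ = ∫ x, φ x * g (inner ℝ x (w : E)) := e1
        _ = _ := by congr 1; ext x; ring
  rw [(slice_eq hT h1 h2 hc hC0 hC q hq hqi).2]
  apply integral_congr_ae
  filter_upwards [hae] with p hp
  rw [hp]

theorem memLp_weight : MemLp (fun z : S × ℝ => (1 + z.2 ^ 2)⁻¹) 2 mu := by
  have hm : AEStronglyMeasurable (fun z : S × ℝ => (1 + z.2 ^ 2)⁻¹) mu :=
    (by fun_prop : Measurable fun z : S × ℝ => (1 + z.2 ^ 2)⁻¹).aestronglyMeasurable
  rw [memLp_two_iff_integrable_sq hm]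
  have h1 : Integrable (fun z : S × ℝ => (1 : ℝ) * (1 + z.2 ^ 2)⁻¹) mu :=
    (integrable_const (1 : ℝ)).mul_prod integrable_inv_one_add_sq
  refine h1.mono' (hm.pow 2) (Eventually.of_forall fun z => ?_)
  have h2 : 0 < (1 + z.2 ^ 2)⁻¹ := by positivity
  have h3 : (1 + z.2 ^ 2)⁻¹ ≤ 1 := inv_le_one_of_one_le₀ (by nlinarith [sq_nonneg z.2])
  rw [Real.norm_eq_abs, abs_of_nonneg (by positivity), one_mul]
  nlinarith

theorem part3 (h : St_RadS) (k : K) (φ : E → ℝ) (hφ : IsSch φ) :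
    ∫ x, U k x * φ x = inner ℝ k (Rk φ) := by
  obtain ⟨hc, C, hC0, hC⟩ := sch_decay hφ
  obtain ⟨-, -, -, -, -, r6, -⟩ := h φ hφ
  have hk := measurable_coe k
  have hki : Integrable (fun z : S × ℝ => k z * (1 + z.2 ^ 2)⁻¹) mu :=
    (Lp.memLp k).integrable_mul memLp_weight
  have hkw : ∀ᵐ w : S ∂sg, Integrable (fun p => k (w, p) * (1 + p ^ 2)⁻¹) volume :=
    hki.prod_right_ae
  have hqm : ∀ w : S, Measurable fun p => k (w, p) := fun w => hk.comp measurable_prodMk_left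
  set H : E → S → ℝ := fun x w => k (w, inner ℝ x (w : E)) * φ x with hH
  have hHm : Measurable (Function.uncurry H) :=
    (hk.comp measurable_map).mul (hc.measurable.comp measurable_fst)
  have hHi : Integrable (Function.uncurry H) ((volume : Measure E).prod sg) := by
    rw [integrable_prod_iff' hHm.aestronglyMeasurable]
    constructor
    · filter_upwards [hkw] with w hw
      obtain ⟨T, hT, h1, h2, -⟩ := frame w
      exact (slice_eq hT h1 h2 hc hC0 hC _ (hqm w) hw).1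
    · have h3 : Integrable (fun w : S => C * (∫ v : Fin 4 → ℝ, ∏ i, (1 + (v i) ^ 2)⁻¹) *
          ∫ p, |k (w, p) * (1 + p ^ 2)⁻¹|) sg := by
        apply Integrable.const_mul
        exact hki.abs.integral_prod_left
      refine h3.mono' ?_ ?_
      · exact (hHm.norm.stronglyMeasurable.integral_prod_left').aestronglyMeasurable
      · filter_upwards [hkw] with w hw
        obtain ⟨T, hT, h1, h2, -⟩ := frame w
        rw [Real.norm_eq_abs, abs_of_nonneg (integral_nonneg fun x => norm_nonneg _)]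
        exact slice_norm hT h1 h2 hc hC0 hC _ (hqm w) hw
  have hR : Integrable (fun z : S × ℝ => k z * Rad φ z) mu := by
    have h4 : Integrable (fun z : S × ℝ => k z * (Rk φ : K) z) mu :=
      (Lp.memLp k).integrable_mul (Lp.memLp (Rk φ))
    refine h4.congr ?_
    filter_upwards [r6] with z hz
    rw [hz]
  calc ∫ x, U k x * φ x = ∫ x, ∫ w, H x w ∂sg := by
        congr 1
        ext x
        rw [U, ← integral_mul_const]
    _ = ∫ w, ∫ x, H x w ∂volume ∂sg := integral_integral_swap hHi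
    _ = ∫ w, ∫ p, k (w, p) * Rad φ (w, p) ∂volume ∂sg := by
        apply integral_congr_ae
        filter_upwards [hkw] with w hw
        exact rad_formula h hφ w _ (hqm w) hw
    _ = ∫ z, k z * Rad φ z ∂mu := (integral_prod _ hR).symm
    _ = inner ℝ k (Rk φ) := by
        rw [L2.inner_def]
        apply integral_congr_ae
        filter_upwards [r6] with z hz
        rw [hz]
        simp [mul_comm]

end UTestx

theorem thm_UTest (h : St_RadS) : St_UTest :=
  ⟨UTestx.part1, UTestx.part2, UTestx.part3 h⟩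

end Pool.Agent.QWE
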