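import Pool.Agent.QWE.StE

set_option autoImplicit false

/-!
# QWE, module R: rigidity
-/

open MeasureTheory Filter Topology Set
open scoped ENNReal NNReal RealInnerProductSpace

namespace Pool.Agent.QWE

namespace Rx

lemma sol_mono {I J : Set ℝ} {k : ℝ → K} (h : IsSol I k) (hJI : J ⊆ I) (hJ : J.OrdConnected) :
    IsSol J k :=
  ⟨hJ, h.2.1.mono hJI, fun a ha b hb => h.2.2.1 a (hJI ha) b (hJI hb),
    fun s hs t ht => h.2.2.2 s (hJI hs) t (hJI ht)⟩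

end Rx

theorem thm_R (hC0 : St_C0) (hC2 : St_C2) (hC6 : St_C6) (hD5 : St_D5) (hNPth : St_NPth)
    (hP4 : St_P4) (hE1 : St_E1) (hMor : St_Mor) (hE3 : St_E3) (hE4 : St_E4) : St_R := by
  intro I k Q x a hmax hQ hk t ht
  by_contra hne
  obtain ⟨Q', hC⟩ := hC0 I k Q x a hmax hQ hk ⟨t, ht, hne⟩
  have hI : I = univ := hC2 Q' I k x a hC
  subst hI
  obtain ⟨k', x', a', hN⟩ := hC6 Q' k x a hC
  obtain ⟨y, κ, C, hκ0, hκ1, hy, hxy⟩ := hD5 Q' k' x' a' hN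
  obtain ⟨⟨A, hP⟩, hlim⟩ := hNPth Q' k' x' a' hN y κ C hκ0 hκ1 hy hxy
  obtain ⟨D, hD, hDn⟩ := hP4 κ A k' y hκ0 hκ1 hP hlim
  obtain ⟨C1, hC1, hE⟩ := hE1 (max D A)
  have hkA : ‖k' 0‖ ≤ max D A := (hP.2.1 0).trans (le_max_right _ _)
  have hFE : FE (k' 0) := (hE (k' 0) (y 0) hkA (fun n => (hDn n 0).trans (by
    have : (0 : ℝ) ≤ (2 : ℝ) ^ (-(3 / 2 : ℝ) * n) := by positivity
    exact mul_le_mul_of_nonneg_right (le_max_left _ _) this))).1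
  obtain ⟨C2, hC2', hM⟩ := hMor
  have hsol : IsSol univ k' := hP.1
  have hB : ∀ T : ℝ, 0 < T → ∫⁻ t in Icc 0 T, ∫⁻ z,
      ENNReal.ofReal (U (k' t) z ^ 6 / √(1 + ‖z‖ ^ 2)) ≤ ENNReal.ofReal (C2 * En (k' 0)) :=
    fun T hT => hM 0 T k' hT.le (Rx.sol_mono hsol (subset_univ _) ordConnected_Icc) hFE
  have hunb := hE3 Q' k' x' a' hN y C (C2 * En (k' 0)) (fun s t => (hy s t).trans (by
    have := abs_nonneg (t - s)
    nlinarith)) hxy hB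
  exact hE4 Q' k' x' a' hN y D hDn hunb

end Pool.Agent.QWE
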