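import Pool.Agent.QWE.StG

set_option autoImplicit false

/-!
# QWE, RSob: refined Sobolev inequality
-/

open MeasureTheory Filter Topology Set
open scoped ENNReal NNReal RealInnerProductSpace

namespace Pool.Agent.QWE

namespace RSobx

theorem qmp (y : E) {c : ℝ} (hc : c ≠ 0) :
    Measure.QuasiMeasurePreserving (fun x : E => y + c • x) volume volume := by
  have h1 : Measure.QuasiMeasurePreserving (fun x : E => c • x) volume volume := by
    refine ⟨measurable_const_smul c, ?_⟩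
    rw [Measure.map_addHaar_smul volume hc]
    exact Measure.smul_absolutelyContinuous
  exact (measurePreserving_add_left volume y).quasiMeasurePreserving.comp h1

theorem ig_U (hAct : St_Act) (y : E) (a : ℝ) (k : K) :
    U (ig y a k) =ᵐ[volume] fun x => Real.exp (-a / 2) * U k (y + Real.exp (-a) • x) := by
  obtain ⟨h1, h2, -⟩ := hAct
  have h3 := (h1 (-(Real.exp a • y)) (dl (-a) k)).1
  have h4 := (measurePreserving_sub_right (volume : Measure E)
    (-(Real.exp a • y))).quasiMeasurePreserving.ae ((h2 (-a) k).1)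
  filter_upwards [h3, h4] with x hx hx'
  have e : U (ig y a k) x = U (sh (-(Real.exp a • y)) (dl (-a) k)) x := rfl
  rw [e, hx, hx', sub_neg_eq_add, smul_add, smul_smul, ← Real.exp_add, neg_add_cancel,
    Real.exp_zero, one_smul, add_comm]

theorem inn (hAct : St_Act) (hUTest : St_UTest) (hLin : St_Lin) {ψ : E → ℝ} (hψ : IsSch ψ)
    {f g : E → ℝ} (hf : IsTest f) (hg : IsTest g) (y : E) (a : ℝ) :
    inner ℝ (ig y a (Theta f g)) (Rk ψ) =
      Real.exp (-a / 2) * ∫ z, f (y + Real.exp (-a) • z) * ψ z := by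
  rw [← hUTest.2.2 _ ψ hψ, ← integral_const_mul]
  refine integral_congr_ae ?_
  have h1 := (qmp y (Real.exp_pos (-a)).ne').ae (hLin.2.1 f g hf hg).1
  filter_upwards [ig_U hAct y a (Theta f g), h1] with x hx hx'
  rw [hx, hx', mul_assoc]

theorem ig_sub (y : E) (a : ℝ) (k k' : K) : ig y a (k - k') = ig y a k - ig y a k' := by
  unfold ig gr
  rw [map_sub, map_sub]

theorem ig_norm (y : E) (a : ℝ) (k : K) : ‖ig y a k‖ = ‖k‖ := by
  unfold ig gr
  rw [LinearIsometry.norm_map, LinearIsometry.norm_map]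

theorem hyp (hAct : St_Act) (hUTest : St_UTest) (hLin : St_Lin) {ψ : E → ℝ} (hψ : IsSch ψ)
    {f g : E → ℝ} (hf : IsTest f) (hg : IsTest g) {k : K} {B ε : ℝ}
    (hB : ∀ (y : E) (a : ℝ), |inner ℝ (ig y a k) (Rk ψ)| ≤ B) (hε : ‖k - Theta f g‖ ≤ ε)
    (x : E) (l : ℝ) (hl : 0 < l) :
    |∫ z, f (x + l⁻¹ • z) * ψ z| ≤ (B + ε * ‖Rk ψ‖) * √l := by
  have h1 := inn hAct hUTest hLin hψ hf hg x (Real.log l)
  have e1 : Real.exp (-Real.log l) = l⁻¹ := by rw [Real.exp_neg, Real.exp_log hl]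
  have e2 : Real.exp (-Real.log l / 2) = (√l)⁻¹ := by
    rw [neg_div, Real.exp_neg, Real.exp_half, Real.exp_log hl]
  rw [e1, e2] at h1
  have hs : 0 < √l := Real.sqrt_pos.2 hl
  have h2 : ∫ z, f (x + l⁻¹ • z) * ψ z = √l * inner ℝ (ig x (Real.log l) (Theta f g)) (Rk ψ) := by
    rw [h1, ← mul_assoc, mul_inv_cancel₀ hs.ne', one_mul]
  have h3 : inner ℝ (ig x (Real.log l) (Theta f g)) (Rk ψ) =
      inner ℝ (ig x (Real.log l) k) (Rk ψ) -
        inner ℝ (ig x (Real.log l) (k - Theta f g)) (Rk ψ) := by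
    rw [ig_sub, inner_sub_left, sub_sub_cancel]
  have h4 : |inner ℝ (ig x (Real.log l) (k - Theta f g)) (Rk ψ)| ≤ ε * ‖Rk ψ‖ := by
    refine (abs_real_inner_le_norm _ _).trans ?_
    rw [ig_norm]
    exact mul_le_mul_of_nonneg_right hε (norm_nonneg _)
  rw [h2, abs_mul, abs_of_pos hs, mul_comm]
  refine mul_le_mul_of_nonneg_right ?_ hs.le
  rw [h3]
  exact (abs_sub _ _).trans (add_le_add (hB _ _) h4)

theorem lapL (hIP : St_IP) (hLin : St_Lin) {f g : E → ℝ} (hf : IsTest f) (hg : IsTest g) :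
    c0 * ∫ x, lap f x ^ 2 ≤ ‖Theta f g‖ ^ 2 := by
  have hc : 0 < c0 := by
    unfold c0
    positivity
  have h1 : LU (Theta f g) =ᵐ[volume] lap f := by
    have h2 : ∀ᵐ x, ∀ i, DDU (Theta f g) i i x = pd i (pd i f) x := by
      rw [ae_all_iff]
      intro i
      exact (hLin.2.1 f g hf hg).2.2.2.1 i i
    filter_upwards [h2] with x hx
    unfold LU lap
    exact Finset.sum_congr rfl fun i _ => hx i
  rw [← real_inner_self_eq_norm_sq, hIP]
  have h3 : ∫ x, LU (Theta f g) x * LU (Theta f g) x = ∫ x, lap f x ^ 2 := by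
    refine integral_congr_ae ?_
    filter_upwards [h1] with x hx
    rw [hx, sq]
  rw [h3]
  refine mul_le_mul_of_nonneg_left ?_ hc.le
  have h4 : 0 ≤ ∑ i, ∫ x, DV (Theta f g) i x * DV (Theta f g) i x :=
    Finset.sum_nonneg fun i _ => integral_nonneg fun x => mul_self_nonneg _
  linarith

theorem pw {a b c : ℝ} (ha : 0 ≤ a) (hb : 0 ≤ b) (hc : 0 ≤ c) :
    (a * b ^ 8 * c ^ 2) ^ (1 / 10 : ℝ) = a ^ (1 / 10 : ℝ) * b ^ (4 / 5 : ℝ) * c ^ (1 / 5 : ℝ) := by
  rw [Real.mul_rpow (by positivity) (by positivity), Real.mul_rpow ha (by positivity),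
    ← Real.rpow_natCast_mul hb, ← Real.rpow_natCast_mul hc]
  norm_num

theorem main (hAct : St_Act) (hUTest : St_UTest) (hLin : St_Lin) (hFld : St_Fld) (hIP : St_IP)
    {ψ : E → ℝ} (hψ : IsSch ψ) {C0 : ℝ} (hC0 : 0 < C0)
    (hT : ∀ (f : E → ℝ) (B : ℝ), IsTest f → 0 ≤ B →
      (∀ (x : E) (l : ℝ), 0 < l → |∫ z, f (x + l⁻¹ • z) * ψ z| ≤ B * √l) →
      ∫ x, |f x| ^ 10 ≤ C0 * B ^ 8 * ∫ x, lap f x ^ 2)
    {f g : E → ℝ} (hf : IsTest f) (hg : IsTest g) {k : K} {B ε : ℝ} (hB0 : 0 ≤ B) (hε0 : 0 ≤ ε)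
    (hB : ∀ (y : E) (a : ℝ), |inner ℝ (ig y a k) (Rk ψ)| ≤ B) (hε : ‖k - Theta f g‖ ≤ ε) :
    eLpNorm (U (Theta f g)) 10 volume ≤ ENNReal.ofReal
      ((C0 / c0) ^ (1 / 10 : ℝ) * (B + ε * ‖Rk ψ‖) ^ (4 / 5 : ℝ) * (‖k‖ + ε) ^ (1 / 5 : ℝ)) := by
  have hc : 0 < c0 := by
    unfold c0
    positivity
  have hae : U (Theta f g) =ᵐ[volume] f := (hLin.2.1 f g hf hg).1
  have hm : MemLp (U (Theta f g)) 10 volume := by
    obtain ⟨C, -, h⟩ := hFld
    exact (h (Theta f g)).1.1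
  have hm' : MemLp f 10 volume := (memLp_congr_ae hae).1 hm
  have hBn : 0 ≤ B + ε * ‖Rk ψ‖ := by positivity
  have h1 := hT f (B + ε * ‖Rk ψ‖) hf hBn (hyp hAct hUTest hLin hψ hf hg hB hε)
  have h2 := lapL hIP hLin hf hg
  have h3 : ‖Theta f g‖ ≤ ‖k‖ + ε := by
    have := norm_sub_norm_le (Theta f g) k
    rw [norm_sub_rev] at this
    linarith
  have h4 : ∫ x, |f x| ^ 10 ≤ C0 / c0 * (B + ε * ‖Rk ψ‖) ^ 8 * (‖k‖ + ε) ^ 2 := by
    refine h1.trans ?_
    have h5 : ∫ x, lap f x ^ 2 ≤ (‖k‖ + ε) ^ 2 / c0 := by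
      rw [le_div_iff₀ hc, mul_comm]
      exact h2.trans (pow_le_pow_left₀ (norm_nonneg _) h3 2)
    calc C0 * (B + ε * ‖Rk ψ‖) ^ 8 * ∫ x, lap f x ^ 2
        ≤ C0 * (B + ε * ‖Rk ψ‖) ^ 8 * ((‖k‖ + ε) ^ 2 / c0) := by gcongr
      _ = C0 / c0 * (B + ε * ‖Rk ψ‖) ^ 8 * (‖k‖ + ε) ^ 2 := by ring
  rw [eLpNorm_congr_ae hae, hm'.eLpNorm_eq_integral_rpow_norm (by norm_num) (by norm_num)]
  refine ENNReal.ofReal_le_ofReal ?_
  rw [← pw (by positivity) hBn (by positivity)]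
  have e1 : ((10 : ℝ≥0∞).toReal)⁻¹ = (1 / 10 : ℝ) := by norm_num
  have e2 : ∫ x, ‖f x‖ ^ (10 : ℝ≥0∞).toReal = ∫ x, |f x| ^ 10 := by
    refine integral_congr_ae (Eventually.of_forall fun x => ?_)
    have : (10 : ℝ≥0∞).toReal = ((10 : ℕ) : ℝ) := by norm_num
    change ‖f x‖ ^ (10 : ℝ≥0∞).toReal = |f x| ^ 10
    rw [this, Real.rpow_natCast, Real.norm_eq_abs]
  rw [e1, e2]
  exact Real.rpow_le_rpow (integral_nonneg fun x => by positivity) h4 (by norm_num)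

end RSobx

open RSobx in
theorem thm_RSob (hRSobT : St_RSobT) (hDens : St_Dens) (hFld : St_Fld) (hLin : St_Lin)
    (hAct : St_Act) (hUTest : St_UTest) (hIP : St_IP) : St_RSob := by
  intro ψ hψ
  obtain ⟨C0, hC0, hT⟩ := hRSobT ψ hψ
  obtain ⟨Cf, hCf, hF⟩ := id hFld
  have hc : 0 < c0 := by
    unfold c0
    positivity
  refine ⟨(C0 / c0) ^ (1 / 10 : ℝ), by positivity, ?_⟩
  intro k B hB0 hB
  have key : ∀ ε : ℝ, 0 < ε → eLpNorm (U k) 10 volume ≤ ENNReal.ofReal (Cf * ε +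
      (C0 / c0) ^ (1 / 10 : ℝ) * (B + ε * ‖Rk ψ‖) ^ (4 / 5 : ℝ) * (‖k‖ + ε) ^ (1 / 5 : ℝ)) := by
    intro ε hε
    obtain ⟨f, g, hf, hg, hfg⟩ := hDens.2 k ε hε
    have h1 := main hAct hUTest hLin hFld hIP hψ.1 hC0 hT hf hg hB0 hε.le hB hfg.le
    have h2 : U k =ᵐ[volume] fun x => U (Theta f g) x + 1 * U (k - Theta f g) x := by
      have := (hLin.1 1 (Theta f g) (k - Theta f g)).1
      rwa [one_smul, add_sub_cancel] at this
    have h3 : eLpNorm (U k) 10 volume ≤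
        eLpNorm (U (Theta f g)) 10 volume + eLpNorm (U (k - Theta f g)) 10 volume := by
      rw [eLpNorm_congr_ae h2]
      have h4 : (fun x => U (Theta f g) x + 1 * U (k - Theta f g) x) =
          U (Theta f g) + U (k - Theta f g) := by
        funext x
        rw [one_mul]
        rfl
      rw [h4]
      exact eLpNorm_add_le (hF _).1.1.1 (hF _).1.1.1 (by norm_num)
    have h4 : eLpNorm (U (k - Theta f g)) 10 volume ≤ ENNReal.ofReal (Cf * ε) := by
      refine (hF _).1.2.trans ?_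
      rw [ENNReal.ofReal_mul hCf.le, ← ofReal_norm]
      gcongr
    refine h3.trans ((add_le_add h1 h4).trans ?_)
    rw [add_comm, ENNReal.ofReal_add (by positivity) (by positivity)]
  have hcont : ContinuousAt (fun ε : ℝ => ENNReal.ofReal (Cf * ε +
      (C0 / c0) ^ (1 / 10 : ℝ) * (B + ε * ‖Rk ψ‖) ^ (4 / 5 : ℝ) * (‖k‖ + ε) ^ (1 / 5 : ℝ))) 0 := by
    refine ENNReal.continuous_ofReal.continuousAt.comp ?_
    refine ContinuousAt.add (by fun_prop) (ContinuousAt.mul (ContinuousAt.mul continuousAt_const ?_) ?_)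
    · exact ContinuousAt.rpow_const (by fun_prop) (Or.inr (by norm_num))
    · exact ContinuousAt.rpow_const (by fun_prop) (Or.inr (by norm_num))
  have hlim := hcont.tendsto.mono_left (nhdsWithin_le_nhds (s := Ioi (0 : ℝ)))
  simp only [mul_zero, zero_mul, add_zero, zero_add] at hlim
  exact ge_of_tendsto hlim (by
    filter_upwards [self_mem_nhdsWithin] with ε hε
    exact key ε hε)

end Pool.Agent.QWE
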