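import Pool.Agent.QWE.StG

set_option autoImplicit false

/-!
# QWE, RSobT: refined Sobolev inequality for test functions
-/

open MeasureTheory Filter Topology Set
open scoped ENNReal NNReal RealInnerProductSpace FourierTransform SchwartzMap LineDeriv

namespace Pool.Agent.QWE.RSobTx

/-- Complexification. -/
theorem exists_cx {φ : E → ℝ} (h : IsSch φ) : ∃ f : 𝓢(E, ℂ), ∀ x, f x = (φ x : ℂ) := by
  obtain ⟨f, hf⟩ := h
  refine ⟨f.postcompCLM Complex.ofRealCLM, fun x => ?_⟩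
  rw [SchwartzMap.postcompCLM_apply, hf x]
  rfl

/-- The real transform. -/
noncomputable def hh (ψ : E → ℝ) (ξ : E) : ℝ := ∫ x, ψ x * Real.cos (2 * Real.pi * inner ℝ x ξ)

lemma fourier_even {ψ : E → ℝ} {Ψ : 𝓢(E, ℂ)} (hΨ : ∀ x, Ψ x = (ψ x : ℂ)) (he : ∀ x, ψ (-x) = ψ x)
    (ξ : E) : 𝓕 Ψ ξ = (hh ψ ξ : ℂ) := by
  have hint : Integrable fun x => Complex.exp (↑(-2 * Real.pi * inner ℝ x ξ) * Complex.I) • Ψ x := by
    simp only [smul_eq_mul]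
    refine (Ψ.integrable (μ := (volume : Measure E))).bdd_mul (c := 1) ?_ ?_
    · exact (by fun_prop : Continuous fun x : E =>
        Complex.exp (↑(-2 * Real.pi * inner ℝ x ξ) * Complex.I)).aestronglyMeasurable
    · exact Eventually.of_forall fun x => by
        rw [Complex.norm_exp_ofReal_mul_I]
  have h1 : 𝓕 Ψ ξ = ∫ x, Complex.exp (↑(-2 * Real.pi * inner ℝ x ξ) * Complex.I) • Ψ x := by
    rw [SchwartzMap.fourier_coe, Real.fourier_eq']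
  have h2 : 𝓕 Ψ ξ = ∫ x, Complex.exp (-(↑(-2 * Real.pi * inner ℝ x ξ) * Complex.I)) • Ψ x := by
    rw [h1, ← integral_neg_eq_self]
    refine integral_congr_ae (Eventually.of_forall fun x => ?_)
    simp only [hΨ, he, inner_neg_left]
    congr 2
    push_cast
    ring
  have hint2 : Integrable fun x =>
      Complex.exp (-(↑(-2 * Real.pi * inner ℝ x ξ) * Complex.I)) • Ψ x := by
    simp only [smul_eq_mul]
    refine (Ψ.integrable (μ := (volume : Measure E))).bdd_mul (c := 1) ?_ ?_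
    · exact (by fun_prop : Continuous fun x : E =>
        Complex.exp (-(↑(-2 * Real.pi * inner ℝ x ξ) * Complex.I))).aestronglyMeasurable
    · exact Eventually.of_forall fun x => by
        rw [← neg_mul, ← Complex.ofReal_neg, Complex.norm_exp_ofReal_mul_I]
  have h3 : 2 * 𝓕 Ψ ξ = ∫ x, ((2 * (ψ x * Real.cos (2 * Real.pi * inner ℝ x ξ)) : ℝ) : ℂ) := by
    rw [two_mul]
    nth_rw 1 [h1]
    rw [h2, ← integral_add hint hint2]
    refine integral_congr_ae (Eventually.of_forall fun x => ?_)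
    simp only [hΨ, smul_eq_mul]
    have h4 : Complex.exp (↑(-2 * Real.pi * inner ℝ x ξ) * Complex.I) +
        Complex.exp (-(↑(-2 * Real.pi * inner ℝ x ξ) * Complex.I)) =
        2 * Complex.cos (↑(2 * Real.pi * inner ℝ x ξ)) := by
      rw [Complex.cos]
      have e1 : (↑(-2 * Real.pi * inner ℝ x ξ) : ℂ) * Complex.I =
          -(↑(2 * Real.pi * inner ℝ x ξ) * Complex.I) := by push_cast; ring
      have e2 : -(↑(-2 * Real.pi * inner ℝ x ξ) * Complex.I) =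
          (↑(2 * Real.pi * inner ℝ x ξ) * Complex.I) := by push_cast; ring
      rw [e2, e1]
      have e3 : -(↑(2 * Real.pi * inner ℝ x ξ) * Complex.I) =
          -↑(2 * Real.pi * inner ℝ x ξ) * Complex.I := by ring
      rw [e3]
      ring
    rw [← add_mul, h4]
    push_cast
    ring
  rw [integral_complex_ofReal, integral_const_mul] at h3
  have h4 : (2 : ℂ) ≠ 0 := two_ne_zero
  apply mul_left_cancel₀ h4
  rw [h3, hh]
  push_cast
  ring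

/-- Scaling equivalence. -/
noncomputable def scl {l : ℝ} (hl : 0 < l) : E ≃L[ℝ] E :=
  ContinuousLinearEquiv.smulLeft (Units.mk0 l⁻¹ (inv_ne_zero hl.ne'))

lemma scl_apply {l : ℝ} (hl : 0 < l) (x : E) : scl hl x = l⁻¹ • x := rfl

/-- The symbol. -/
noncomputable def sym (Ψ : 𝓢(E, ℂ)) {l : ℝ} (hl : 0 < l) : 𝓢(E, ℂ) :=
  SchwartzMap.compCLMOfContinuousLinearEquiv ℂ (scl hl) (𝓕 Ψ)

lemma sym_apply (Ψ : 𝓢(E, ℂ)) {l : ℝ} (hl : 0 < l) (ξ : E) : sym Ψ hl ξ = 𝓕 Ψ (l⁻¹ • ξ) := rfl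

/-- The filtered transform. -/
noncomputable def HL (F Ψ : 𝓢(E, ℂ)) {l : ℝ} (hl : 0 < l) : 𝓢(E, ℂ) :=
  SchwartzMap.smulLeftCLM ℂ (sym Ψ hl) (𝓕 F)

lemma HL_apply (F Ψ : 𝓢(E, ℂ)) {l : ℝ} (hl : 0 < l) (ξ : E) :
    HL F Ψ hl ξ = 𝓕 Ψ (l⁻¹ • ξ) * 𝓕 F ξ := by
  rw [HL, SchwartzMap.smulLeftCLM_apply_apply (sym Ψ hl).hasTemperateGrowth, sym_apply, smul_eq_mul]

lemma P_eq {ψ : E → ℝ} {F Ψ : 𝓢(E, ℂ)} (hΨ : ∀ x, Ψ x = (ψ x : ℂ)) (he : ∀ x, ψ (-x) = ψ x)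
    {l : ℝ} (hl : 0 < l) (x : E) :
    𝓕⁻ (HL F Ψ hl) x = ∫ z, F (x + l⁻¹ • z) * (ψ z : ℂ) := by
  have hc : Continuous fun q : E × E =>
      Complex.exp (↑(2 * Real.pi * inner ℝ q.2 x) * Complex.I) *
        Complex.exp (↑(-2 * Real.pi * inner ℝ q.1 (l⁻¹ • q.2)) * Complex.I) := by fun_prop
  have hprod : Integrable (fun q : E × E =>
      Complex.exp (↑(2 * Real.pi * inner ℝ q.2 x) * Complex.I) *
        Complex.exp (↑(-2 * Real.pi * inner ℝ q.1 (l⁻¹ • q.2)) * Complex.I) *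
        (Ψ q.1 * 𝓕 F q.2)) (volume.prod volume) := by
    refine ((Ψ.integrable (μ := (volume : Measure E))).mul_prod
      ((𝓕 F).integrable (μ := (volume : Measure E)))).bdd_mul (c := 1) hc.aestronglyMeasurable ?_
    refine Eventually.of_forall fun q => ?_
    rw [norm_mul, Complex.norm_exp_ofReal_mul_I, Complex.norm_exp_ofReal_mul_I, one_mul]
  have h1 : 𝓕⁻ (HL F Ψ hl) x = ∫ ξ, ∫ z,
      Complex.exp (↑(2 * Real.pi * inner ℝ ξ x) * Complex.I) *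
        Complex.exp (↑(-2 * Real.pi * inner ℝ z (l⁻¹ • ξ)) * Complex.I) *
        (Ψ z * 𝓕 F ξ) := by
    rw [SchwartzMap.fourierInv_coe, Real.fourierInv_eq']
    refine integral_congr_ae (Eventually.of_forall fun ξ => ?_)
    simp only [HL_apply, smul_eq_mul]
    have e1 : 𝓕 Ψ (l⁻¹ • ξ) = ∫ z, Complex.exp (↑(-2 * Real.pi * inner ℝ z (l⁻¹ • ξ)) * Complex.I) •
        Ψ z := by
      rw [SchwartzMap.fourier_coe, Real.fourier_eq']
    rw [e1, ← integral_mul_const, ← integral_const_mul]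
    refine integral_congr_ae (Eventually.of_forall fun z => ?_)
    simp only [smul_eq_mul]
    ring
  have h2 : ∀ z, ∫ ξ, Complex.exp (↑(2 * Real.pi * inner ℝ ξ x) * Complex.I) *
        Complex.exp (↑(-2 * Real.pi * inner ℝ z (l⁻¹ • ξ)) * Complex.I) *
        (Ψ z * 𝓕 F ξ) = F (x - l⁻¹ • z) * (ψ z : ℂ) := by
    intro z
    have e1 : F (x - l⁻¹ • z) = ∫ ξ, Complex.exp (↑(2 * Real.pi * inner ℝ ξ (x - l⁻¹ • z)) *
        Complex.I) • 𝓕 F ξ := by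
      have e2 : 𝓕⁻ (𝓕 F) (x - l⁻¹ • z) = F (x - l⁻¹ • z) := by simp
      rw [← e2, SchwartzMap.fourierInv_coe, Real.fourierInv_eq']
    rw [e1, ← integral_mul_const]
    refine integral_congr_ae (Eventually.of_forall fun ξ => ?_)
    simp only [smul_eq_mul, hΨ]
    rw [← Complex.exp_add]
    have e3 : (↑(2 * Real.pi * inner ℝ ξ x) : ℂ) * Complex.I +
        ↑(-2 * Real.pi * inner ℝ z (l⁻¹ • ξ)) * Complex.I =
        ↑(2 * Real.pi * inner ℝ ξ (x - l⁻¹ • z)) * Complex.I := by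
      rw [inner_sub_right, inner_smul_right, inner_smul_right, real_inner_comm ξ z]
      push_cast
      ring
    rw [e3]
    ring
  rw [h1, ← integral_integral_swap hprod]
  simp only [h2]
  rw [← integral_neg_eq_self]
  refine integral_congr_ae (Eventually.of_forall fun z => ?_)
  simp only [he, smul_neg, sub_neg_eq_add]

/-- Plancherel for the difference. -/
lemma planch {ψ : E → ℝ} {F Ψ : 𝓢(E, ℂ)} (hΨ : ∀ x, Ψ x = (ψ x : ℂ)) (he : ∀ x, ψ (-x) = ψ x)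
    (h0 : ∀ ξ, 0 ≤ hh ψ ξ) (h1 : ∀ ξ, hh ψ ξ ≤ 1) (h2 : ∀ ξ, ‖ξ‖ ≤ 1 → hh ψ ξ = 1)
    {l : ℝ} (hl : 0 < l) :
    ∫⁻ x, ENNReal.ofReal (‖F x - ∫ z, F (x + l⁻¹ • z) * (ψ z : ℂ)‖ ^ 2) ≤
      ∫⁻ ξ, {ξ : E | l ≤ ‖ξ‖}.indicator (fun ξ => ENNReal.ofReal (‖𝓕 F ξ‖ ^ 2)) ξ := by
  set P : 𝓢(E, ℂ) := 𝓕⁻ (HL F Ψ hl) with hP
  have hPx : ∀ x, (F - P) x = F x - ∫ z, F (x + l⁻¹ • z) * (ψ z : ℂ) := by
    intro x
    rw [sub_apply, hP, P_eq hΨ he hl]
  have hFP : ∀ ξ, 𝓕 (F - P) ξ = (1 - (hh ψ (l⁻¹ • ξ) : ℂ)) * 𝓕 F ξ := by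
    intro ξ
    have e1 : 𝓕 (F - P) = 𝓕 F - HL F Ψ hl := by
      rw [sub_eq_add_neg, FourierTransform.fourier_add, FourierTransform.fourier_neg, hP,
        ← sub_eq_add_neg]
      simp
    rw [e1, sub_apply, HL_apply, fourier_even hΨ he]
    ring
  have hn : ∀ ξ, ‖𝓕 (F - P) ξ‖ ^ 2 ≤ {ξ : E | l ≤ ‖ξ‖}.indicator (fun ξ => ‖𝓕 F ξ‖ ^ 2) ξ := by
    intro ξ
    by_cases hξ : l ≤ ‖ξ‖
    · rw [indicator_of_mem (show ξ ∈ {ξ : E | l ≤ ‖ξ‖} from hξ), hFP, norm_mul]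
      have e2 : ‖1 - (hh ψ (l⁻¹ • ξ) : ℂ)‖ ≤ 1 := by
        rw [← Complex.ofReal_one, ← Complex.ofReal_sub, Complex.norm_real, Real.norm_eq_abs,
          abs_le]
        constructor
        · linarith [h1 (l⁻¹ • ξ)]
        · linarith [h0 (l⁻¹ • ξ)]
      have e3 : ‖1 - (hh ψ (l⁻¹ • ξ) : ℂ)‖ * ‖𝓕 F ξ‖ ≤ 1 * ‖𝓕 F ξ‖ := by gcongr
      rw [one_mul] at e3
      gcongr
    · rw [indicator_of_notMem (show ξ ∉ {ξ : E | l ≤ ‖ξ‖} from hξ), hFP, h2]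
      · simp
      · rw [norm_smul, norm_inv, Real.norm_eq_abs, abs_of_pos hl, inv_mul_le_iff₀ hl, mul_one]
        exact (not_le.1 hξ).le
  have hi : ∀ F' : 𝓢(E, ℂ), Integrable fun x => ‖F' x‖ ^ 2 := by
    intro F'
    exact (memLp_two_iff_integrable_sq_norm F'.continuous.aestronglyMeasurable).1
      (F'.memLp 2 volume)
  have hm : MeasurableSet {ξ : E | l ≤ ‖ξ‖} := measurableSet_le measurable_const measurable_norm
  calc ∫⁻ x, ENNReal.ofReal (‖F x - ∫ z, F (x + l⁻¹ • z) * (ψ z : ℂ)‖ ^ 2)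
      = ∫⁻ x, ENNReal.ofReal (‖(F - P) x‖ ^ 2) := by simp only [hPx]
    _ = ENNReal.ofReal (∫ x, ‖(F - P) x‖ ^ 2) :=
        (ofReal_integral_eq_lintegral_ofReal (hi _) (Eventually.of_forall fun x => by positivity)).symm
    _ = ENNReal.ofReal (∫ ξ, ‖𝓕 (F - P) ξ‖ ^ 2) := by rw [SchwartzMap.integral_norm_sq_fourier]
    _ ≤ ENNReal.ofReal (∫ ξ, {ξ : E | l ≤ ‖ξ‖}.indicator (fun ξ => ‖𝓕 F ξ‖ ^ 2) ξ) := by
        refine ENNReal.ofReal_le_ofReal (integral_mono (hi _) ((hi _).indicator hm) hn)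
    _ = ∫⁻ ξ, ENNReal.ofReal ({ξ : E | l ≤ ‖ξ‖}.indicator (fun ξ => ‖𝓕 F ξ‖ ^ 2) ξ) :=
        ofReal_integral_eq_lintegral_ofReal ((hi _).indicator hm)
          (Eventually.of_forall fun x => indicator_nonneg (fun _ _ => by positivity) x)
    _ = ∫⁻ ξ, {ξ : E | l ≤ ‖ξ‖}.indicator (fun ξ => ENNReal.ofReal (‖𝓕 F ξ‖ ^ 2)) ξ := by
        refine lintegral_congr fun ξ => ?_
        by_cases hξ : l ≤ ‖ξ‖
        · rw [indicator_of_mem (show ξ ∈ {ξ : E | l ≤ ‖ξ‖} from hξ),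
            indicator_of_mem (show ξ ∈ {ξ : E | l ≤ ‖ξ‖} from hξ)]
        · rw [indicator_of_notMem (show ξ ∉ {ξ : E | l ≤ ‖ξ‖} from hξ),
            indicator_of_notMem (show ξ ∉ {ξ : E | l ≤ ‖ξ‖} from hξ), ENNReal.ofReal_zero]

/-- Distribution function bound. -/
lemma distr {ψ f : E → ℝ} {F Ψ : 𝓢(E, ℂ)} (hΨ : ∀ x, Ψ x = (ψ x : ℂ)) (hF : ∀ x, F x = (f x : ℂ))
    (he : ∀ x, ψ (-x) = ψ x)
    (h0 : ∀ ξ, 0 ≤ hh ψ ξ) (h1 : ∀ ξ, hh ψ ξ ≤ 1) (h2 : ∀ ξ, ‖ξ‖ ≤ 1 → hh ψ ξ = 1)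
    {B : ℝ} (hB : 0 < B)
    (hb : ∀ (x : E) (l : ℝ), 0 < l → |∫ z, f (x + l⁻¹ • z) * ψ z| ≤ B * √l) {t : ℝ} (ht : 0 < t) :
    volume {x | t < |f x|} * ENNReal.ofReal (t ^ (9 : ℝ)) ≤
      ENNReal.ofReal (4 * t ^ 7) * ∫⁻ ξ, {ξ : E | t ≤ 2 * B * √‖ξ‖}.indicator
        (fun ξ => ENNReal.ofReal (‖𝓕 F ξ‖ ^ 2)) ξ := by
  set l : ℝ := (t / (2 * B)) ^ 2 with hl
  have hlp : 0 < l := by positivity
  have hsq : √l = t / (2 * B) := by rw [hl, Real.sqrt_sq (by positivity)]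
  have hp := planch (F := F) hΨ he h0 h1 h2 hlp
  have hset : {ξ : E | l ≤ ‖ξ‖} = {ξ : E | t ≤ 2 * B * √‖ξ‖} := by
    ext ξ
    simp only [mem_ofPred_eq]
    constructor
    · intro h
      have : √l ≤ √‖ξ‖ := Real.sqrt_le_sqrt h
      rw [hsq, div_le_iff₀ (by positivity)] at this
      linarith
    · intro h
      have h3 : t / (2 * B) ≤ √‖ξ‖ := by rw [div_le_iff₀ (by positivity)]; linarith
      calc l = (t / (2 * B)) ^ 2 := hl
        _ ≤ √‖ξ‖ ^ 2 := by gcongr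
        _ = ‖ξ‖ := Real.sq_sqrt (norm_nonneg _)
  rw [hset] at hp
  have hPr : ∀ x, ∫ z, F (x + l⁻¹ • z) * (ψ z : ℂ) = ((∫ z, f (x + l⁻¹ • z) * ψ z : ℝ) : ℂ) := by
    intro x
    rw [← integral_complex_ofReal]
    refine integral_congr_ae (Eventually.of_forall fun z => ?_)
    simp only [hF]
    push_cast
    ring
  have hsub : {x | t < |f x|} ⊆ {x | ENNReal.ofReal (t ^ 2 / 4) ≤
      ENNReal.ofReal (‖F x - ∫ z, F (x + l⁻¹ • z) * (ψ z : ℂ)‖ ^ 2)} := by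
    intro x hx
    have hx' : t < |f x| := hx
    have h3 := hb x l hlp
    rw [hsq] at h3
    have h4 : B * (t / (2 * B)) = t / 2 := by field_simp
    rw [h4] at h3
    refine ENNReal.ofReal_le_ofReal ?_
    rw [hPr, hF, ← Complex.ofReal_sub, Complex.norm_real, Real.norm_eq_abs]
    have h5 : t / 2 ≤ |f x - ∫ z, f (x + l⁻¹ • z) * ψ z| := by
      have := abs_sub_abs_le_abs_sub (f x) (∫ z, f (x + l⁻¹ • z) * ψ z)
      linarith
    calc t ^ 2 / 4 = (t / 2) ^ 2 := by ring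
      _ ≤ _ := by gcongr
  have hmeas : AEMeasurable fun x => ENNReal.ofReal (‖F x - ∫ z, F (x + l⁻¹ • z) * (ψ z : ℂ)‖ ^ 2) := by
    have h3 : (fun x => ENNReal.ofReal (‖F x - ∫ z, F (x + l⁻¹ • z) * (ψ z : ℂ)‖ ^ 2)) =
        fun x => ENNReal.ofReal (‖F x - (𝓕⁻ (HL F Ψ hlp)) x‖ ^ 2) := by
      funext x
      rw [P_eq hΨ he hlp]
    rw [h3]
    have h4 : Continuous fun x => ‖F x - (𝓕⁻ (HL F Ψ hlp)) x‖ ^ 2 :=
      ((F.continuous.sub (𝓕⁻ (HL F Ψ hlp)).continuous).norm).pow 2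
    exact (ENNReal.continuous_ofReal.comp h4).measurable.aemeasurable
  have hcheb := mul_meas_ge_le_lintegral₀ hmeas (ENNReal.ofReal (t ^ 2 / 4))
  have h9 : t ^ (9 : ℝ) = 4 * t ^ 7 * (t ^ 2 / 4) := by
    rw [show (9 : ℝ) = ((9 : ℕ) : ℝ) by norm_num, Real.rpow_natCast]
    ring
  rw [h9, ENNReal.ofReal_mul (by positivity)]
  calc volume {x | t < |f x|} * (ENNReal.ofReal (4 * t ^ 7) * ENNReal.ofReal (t ^ 2 / 4))
      = ENNReal.ofReal (4 * t ^ 7) * (ENNReal.ofReal (t ^ 2 / 4) * volume {x | t < |f x|}) := by ring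
    _ ≤ ENNReal.ofReal (4 * t ^ 7) * (ENNReal.ofReal (t ^ 2 / 4) *
        volume {x | ENNReal.ofReal (t ^ 2 / 4) ≤
          ENNReal.ofReal (‖F x - ∫ z, F (x + l⁻¹ • z) * (ψ z : ℂ)‖ ^ 2)}) := by gcongr
    _ ≤ ENNReal.ofReal (4 * t ^ 7) * ∫⁻ x, ENNReal.ofReal
        (‖F x - ∫ z, F (x + l⁻¹ • z) * (ψ z : ℂ)‖ ^ 2) := by gcongr
    _ ≤ _ := by gcongr

/-- Inner integral in the layer cake. -/
lemma inner_int {a : ℝ} (ha : 0 ≤ a) :
    ∫⁻ t in Ioi (0 : ℝ), (if t ≤ a then ENNReal.ofReal (4 * t ^ 7) else 0) ≤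
      ENNReal.ofReal (a ^ 8 / 2) := by
  have h1 : ∫⁻ t in Ioi (0 : ℝ), (if t ≤ a then ENNReal.ofReal (4 * t ^ 7) else 0) =
      ∫⁻ t in Ioc (0 : ℝ) a, ENNReal.ofReal (4 * t ^ 7) := by
    rw [← lintegral_indicator measurableSet_Ioi, ← lintegral_indicator measurableSet_Ioc]
    refine lintegral_congr fun t => ?_
    by_cases h0 : 0 < t
    · rw [indicator_of_mem (show t ∈ Ioi (0 : ℝ) from h0)]
      by_cases hta : t ≤ a
      · rw [if_pos hta, indicator_of_mem (show t ∈ Ioc (0 : ℝ) a from ⟨h0, hta⟩)]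
      · rw [if_neg hta, indicator_of_notMem fun h => hta h.2]
    · rw [indicator_of_notMem (show t ∉ Ioi (0 : ℝ) from h0), indicator_of_notMem fun h => h0 h.1]
  rw [h1, ← ofReal_integral_eq_lintegral_ofReal]
  · refine ENNReal.ofReal_le_ofReal (le_of_eq ?_)
    rw [← intervalIntegral.integral_of_le ha, intervalIntegral.integral_const_mul, integral_pow]
    norm_num
    ring
  · exact (by fun_prop : Continuous fun t : ℝ => 4 * t ^ 7).integrableOn_Icc.mono_set Ioc_subset_Icc_self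
  · refine (ae_restrict_iff' measurableSet_Ioc).2 (Eventually.of_forall fun t ht => ?_)
    have := ht.1
    change (0 : ℝ) ≤ 4 * t ^ 7
    positivity

lemma fourier_lap {f : E → ℝ} (hf : IsSch f) {F L : 𝓢(E, ℂ)} (hF : ∀ x, F x = (f x : ℂ))
    (hL : ∀ x, L x = (lap f x : ℂ)) (ξ : E) :
    𝓕 L ξ = -((2 * Real.pi) ^ 2 * ‖ξ‖ ^ 2 : ℝ) * 𝓕 F ξ := by
  obtain ⟨fR, hfR⟩ := hf
  obtain rfl : (fR : E → ℝ) = f := funext hfR
  have hd : ∀ (g : SchwartzMap E ℝ) (G : 𝓢(E, ℂ)) (m : E), (∀ x, G x = (g x : ℂ)) →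
      ∀ x, (∂_{m} G) x = ((fderiv ℝ g x m : ℝ) : ℂ) := by
    intro g G m hG x
    rw [SchwartzMap.lineDerivOp_apply_eq_fderiv]
    have h1 : (G : E → ℂ) = fun x => Complex.ofRealCLM (g x) := funext hG
    rw [h1]
    have h2 : HasFDerivAt (fun x => Complex.ofRealCLM (g x))
        (Complex.ofRealCLM.comp (fderiv ℝ g x)) x :=
      Complex.ofRealCLM.hasFDerivAt.comp x (g.hasFDerivAt x)
    rw [h2.fderiv]
    rfl
  set e : Fin 5 → E := fun i => EuclideanSpace.single i (1 : ℝ) with he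
  have hLs : L = ∑ i, ∂_{e i} (∂_{e i} F) := by
    ext x
    rw [sum_apply, hL]
    have : ∀ i, (∂_{e i} (∂_{e i} F)) x = ((pd i (pd i fR) x : ℝ) : ℂ) := by
      intro i
      exact hd (∂_{e i} fR) (∂_{e i} F) (e i) (fun x => hd fR F (e i) hF x) x
    simp only [this, lap]
    push_cast
    rfl
  have htg : ∀ m : E, (inner ℝ · m : E → ℝ).HasTemperateGrowth := fun m =>
    ((innerSL ℝ).flip m).hasTemperateGrowth
  have hF1 : ∀ (G : 𝓢(E, ℂ)) (m : E), 𝓕 (∂_{m} G) ξ = (2 * Real.pi * Complex.I) *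
      ((inner ℝ ξ m : ℝ) : ℂ) * 𝓕 G ξ := by
    intro G m
    rw [SchwartzMap.fourier_lineDerivOp_eq, smul_apply, SchwartzMap.smulLeftCLM_apply_apply (htg m),
      smul_eq_mul, Complex.real_smul]
    ring
  rw [hLs, FourierTransform.fourier_sum, sum_apply]
  simp only [hF1]
  have h3 : ∀ i, 2 * (Real.pi : ℂ) * Complex.I * ((inner ℝ ξ (e i) : ℝ) : ℂ) *
      (2 * Real.pi * Complex.I * ((inner ℝ ξ (e i) : ℝ) : ℂ) * 𝓕 F ξ) =
      ((inner ℝ ξ (e i) : ℝ) : ℂ) ^ 2 * (-(2 * Real.pi) ^ 2 * 𝓕 F ξ) := by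
    intro i
    have hI := Complex.I_sq
    linear_combination (4 * (Real.pi : ℂ) ^ 2 * ((inner ℝ ξ (e i) : ℝ) : ℂ) ^ 2 * 𝓕 F ξ) * hI
  simp only [h3]
  rw [← Finset.sum_mul]
  have h4 : ∑ i, ((inner ℝ ξ (e i) : ℝ) : ℂ) ^ 2 = ((‖ξ‖ ^ 2 : ℝ) : ℂ) := by
    rw [EuclideanSpace.real_norm_sq_eq]
    push_cast
    refine Finset.sum_congr rfl fun i _ => ?_
    rw [he]
    simp only
    rw [EuclideanSpace.inner_single_right]
    simp
  rw [h4]
  push_cast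
  ring

/-- The bound for positive `B`. -/
lemma bound_pos {ψ f : E → ℝ} (hψ : IsPsi ψ) (hf : IsSch f) {B : ℝ} (hB : 0 < B)
    (hb : ∀ (x : E) (l : ℝ), 0 < l → |∫ z, f (x + l⁻¹ • z) * ψ z| ≤ B * √l) :
    ∫ x, |f x| ^ 10 ≤ 1280 / (2 * Real.pi) ^ 4 * B ^ 8 * ∫ x, lap f x ^ 2 := by
  obtain ⟨hψS, he, hψ3⟩ := hψ
  obtain ⟨Ψ, hΨ⟩ := exists_cx hψS
  obtain ⟨F, hF⟩ := exists_cx hf
  obtain ⟨fR, hfR⟩ := hf
  have hfR' : (fR : E → ℝ) = f := funext hfR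
  have hlapS : IsSch (lap f) := by
    rw [← hfR']
    refine ⟨∑ i : Fin 5, ∂_{(EuclideanSpace.single i (1 : ℝ) : E)}
      (∂_{(EuclideanSpace.single i (1 : ℝ) : E)} fR), fun x => ?_⟩
    rw [sum_apply]
    rfl
  obtain ⟨L, hL⟩ := exists_cx hlapS
  have h0 : ∀ ξ, 0 ≤ hh ψ ξ := fun ξ => (hψ3 ξ).1
  have h1 : ∀ ξ, hh ψ ξ ≤ 1 := fun ξ => (hψ3 ξ).2.1
  have h2 : ∀ ξ, ‖ξ‖ ≤ 1 → hh ψ ξ = 1 := fun ξ h => (hψ3 ξ).2.2.1 h
  have hfc : Continuous f := hfR' ▸ fR.continuous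
  set g : E → ℝ≥0∞ := fun ξ => ENNReal.ofReal (‖𝓕 F ξ‖ ^ 2) with hg
  have hgm : Measurable g :=
    (ENNReal.continuous_ofReal.comp (((𝓕 F).continuous.norm).pow 2)).measurable
  set A : Set (ℝ × E) := {q | q.1 ≤ 2 * B * √‖q.2‖} with hA
  have hAm : MeasurableSet A := measurableSet_le measurable_fst (by fun_prop)
  have hlc := lintegral_rpow_eq_lintegral_meas_lt_mul (μ := (volume : Measure E))
    (f := fun x => |f x|) (Eventually.of_forall fun x => abs_nonneg _)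
    hfc.abs.measurable.aemeasurable (p := 10) (by norm_num)
  have hjm : Measurable fun q : ℝ × E => ENNReal.ofReal (4 * q.1 ^ 7) *
      A.indicator (fun q => g q.2) q := by
    refine Measurable.mul (by fun_prop) ?_
    exact (hgm.comp measurable_snd).indicator hAm
  have hstep1 : ∫⁻ t in Ioi (0 : ℝ), volume {x | t < |f x|} * ENNReal.ofReal (t ^ ((10 : ℝ) - 1)) ≤
      ∫⁻ t in Ioi (0 : ℝ), ∫⁻ ξ, ENNReal.ofReal (4 * t ^ 7) * A.indicator (fun q => g q.2) (t, ξ) := by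
    refine setLIntegral_mono' measurableSet_Ioi fun t ht => ?_
    have h3 : (10 : ℝ) - 1 = 9 := by norm_num
    rw [h3]
    refine (distr hΨ hF he h0 h1 h2 hB hb ht).trans (le_of_eq ?_)
    rw [← lintegral_const_mul]
    · refine lintegral_congr fun ξ => ?_
      congr 1
    · exact hgm.indicator (measurableSet_le measurable_const (by fun_prop))
  have hstep2 : ∫⁻ t in Ioi (0 : ℝ), ∫⁻ ξ, ENNReal.ofReal (4 * t ^ 7) *
      A.indicator (fun q => g q.2) (t, ξ) =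
      ∫⁻ ξ, ∫⁻ t in Ioi (0 : ℝ), ENNReal.ofReal (4 * t ^ 7) * A.indicator (fun q => g q.2) (t, ξ) :=
    lintegral_lintegral_swap hjm.aemeasurable
  have hstep3 : ∀ ξ, ∫⁻ t in Ioi (0 : ℝ), ENNReal.ofReal (4 * t ^ 7) *
      A.indicator (fun q => g q.2) (t, ξ) ≤
      ENNReal.ofReal (128 * B ^ 8 * (‖ξ‖ ^ 4 * ‖𝓕 F ξ‖ ^ 2)) := by
    intro ξ
    have h3 : ∀ t : ℝ, ENNReal.ofReal (4 * t ^ 7) * A.indicator (fun q => g q.2) (t, ξ) =
        (if t ≤ 2 * B * √‖ξ‖ then ENNReal.ofReal (4 * t ^ 7) else 0) * g ξ := by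
      intro t
      by_cases h4 : t ≤ 2 * B * √‖ξ‖
      · rw [if_pos h4, indicator_of_mem (show (t, ξ) ∈ A from h4)]
      · rw [if_neg h4, indicator_of_notMem (show (t, ξ) ∉ A from h4), zero_mul, mul_zero]
    simp only [h3]
    rw [lintegral_mul_const]
    · have h4 := inner_int (a := 2 * B * √‖ξ‖) (by positivity)
      calc _ ≤ ENNReal.ofReal ((2 * B * √‖ξ‖) ^ 8 / 2) * g ξ := by gcongr
        _ = ENNReal.ofReal (128 * B ^ 8 * (‖ξ‖ ^ 4 * ‖𝓕 F ξ‖ ^ 2)) := by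
            rw [hg, ← ENNReal.ofReal_mul (by positivity)]
            congr 1
            have h5 : √‖ξ‖ ^ 8 = ‖ξ‖ ^ 4 := by
              calc √‖ξ‖ ^ 8 = (√‖ξ‖ ^ 2) ^ 4 := by ring
                _ = ‖ξ‖ ^ 4 := by rw [Real.sq_sqrt (norm_nonneg _)]
            rw [mul_pow, mul_pow, h5]
            ring
    · exact Measurable.ite (measurableSet_le measurable_id measurable_const) (by fun_prop)
        measurable_const
  have hLsq : ∀ ξ, ‖𝓕 L ξ‖ ^ 2 = (2 * Real.pi) ^ 4 * (‖ξ‖ ^ 4 * ‖𝓕 F ξ‖ ^ 2) := by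
    intro ξ
    rw [fourier_lap ⟨fR, hfR⟩ hF hL, norm_mul, norm_neg, Complex.norm_real, Real.norm_eq_abs,
      abs_of_nonneg (by positivity)]
    ring
  have hi : ∀ F' : 𝓢(E, ℂ), Integrable fun x => ‖F' x‖ ^ 2 := by
    intro F'
    exact (memLp_two_iff_integrable_sq_norm F'.continuous.aestronglyMeasurable).1
      (F'.memLp 2 volume)
  have hlapi : ∫ x, lap f x ^ 2 = ∫ ξ, ‖𝓕 L ξ‖ ^ 2 := by
    rw [SchwartzMap.integral_norm_sq_fourier]
    refine integral_congr_ae (Eventually.of_forall fun x => ?_)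
    simp only [hL]
    rw [Complex.norm_real, Real.norm_eq_abs, sq_abs]
  have hfin : ∫⁻ ξ, ENNReal.ofReal (128 * B ^ 8 * (‖ξ‖ ^ 4 * ‖𝓕 F ξ‖ ^ 2)) =
      ENNReal.ofReal (128 / (2 * Real.pi) ^ 4 * B ^ 8 * ∫ x, lap f x ^ 2) := by
    have h3 : ∀ ξ, 128 * B ^ 8 * (‖ξ‖ ^ 4 * ‖𝓕 F ξ‖ ^ 2) =
        128 / (2 * Real.pi) ^ 4 * B ^ 8 * ‖𝓕 L ξ‖ ^ 2 := by
      intro ξ
      rw [hLsq]
      have : (2 * Real.pi) ^ 4 ≠ 0 := by positivity
      field_simp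
    simp only [h3]
    rw [← ofReal_integral_eq_lintegral_ofReal ((hi _).const_mul _)
      (Eventually.of_forall fun ξ => by positivity), integral_const_mul, hlapi]
  have hfint : Integrable fun x => |f x| ^ 10 := by
    have h3 : MemLp fR 10 volume := fR.memLp 10 volume
    have h4 := h3.integrable_norm_pow (p := 10) (by norm_num)
    rw [hfR'] at h4
    exact h4
  have hmain : ENNReal.ofReal (∫ x, |f x| ^ 10) ≤
      ENNReal.ofReal (1280 / (2 * Real.pi) ^ 4 * B ^ 8 * ∫ x, lap f x ^ 2) := by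
    rw [ofReal_integral_eq_lintegral_ofReal hfint (Eventually.of_forall fun x => by positivity)]
    have h3 : ∀ x, |f x| ^ 10 = |f x| ^ (10 : ℝ) := by
      intro x
      rw [show (10 : ℝ) = ((10 : ℕ) : ℝ) by norm_num, Real.rpow_natCast]
    simp only [h3]
    rw [hlc]
    calc _ ≤ ENNReal.ofReal 10 * ∫⁻ ξ, ENNReal.ofReal (128 * B ^ 8 * (‖ξ‖ ^ 4 * ‖𝓕 F ξ‖ ^ 2)) := by
          gcongr
          refine hstep1.trans ?_
          rw [hstep2]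
          exact lintegral_mono hstep3
      _ = _ := by
          rw [hfin, ← ENNReal.ofReal_mul (by norm_num)]
          congr 1
          ring
  have hX : 0 ≤ ∫ x, lap f x ^ 2 := integral_nonneg fun x => sq_nonneg _
  exact (ENNReal.ofReal_le_ofReal_iff (by positivity)).1 hmain

end Pool.Agent.QWE.RSobTx

namespace Pool.Agent.QWE

open RSobTx

theorem thm_RSobT : St_RSobT := by
  intro ψ hψ
  refine ⟨1280 / (2 * Real.pi) ^ 4, by positivity, fun f B hf hB hb => ?_⟩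
  have hfS : IsSch f := ⟨hf.2.toSchwartzMap hf.1, fun _ => rfl⟩
  rcases eq_or_lt_of_le hB with rfl | hB'
  · have h1 : ∀ᶠ b : ℝ in 𝓝[>] 0, ∫ x, |f x| ^ 10 ≤
        1280 / (2 * Real.pi) ^ 4 * b ^ 8 * ∫ x, lap f x ^ 2 := by
      filter_upwards [self_mem_nhdsWithin] with b hb0
      have hb0' : 0 < b := hb0
      refine bound_pos hψ hfS hb0' fun x l hl => (hb x l hl).trans ?_
      rw [zero_mul]
      positivity
    have h2 : Tendsto (fun b : ℝ => 1280 / (2 * Real.pi) ^ 4 * b ^ 8 * ∫ x, lap f x ^ 2) (𝓝[>] 0)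
        (𝓝 (1280 / (2 * Real.pi) ^ 4 * 0 ^ 8 * ∫ x, lap f x ^ 2)) := by
      have hc : Continuous fun b : ℝ => 1280 / (2 * Real.pi) ^ 4 * b ^ 8 * ∫ x, lap f x ^ 2 := by
        fun_prop
      exact (hc.tendsto 0).mono_left nhdsWithin_le_nhds
    exact ge_of_tendsto h2 h1
  · exact bound_pos hψ hfS hB' hb

end Pool.Agent.QWE
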