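import Pool.Agent.QWE.StA

set_option autoImplicit false

/-!
# QWE, RadS: the Radon transform of Schwartz functions
-/

open MeasureTheory Filter Topology Set
open scoped ENNReal NNReal

namespace Pool.Agent.QWE.RadSx

/-- Directional derivative of a Schwartz function. -/
noncomputable def D (v : E) (f : SchwartzMap E ℝ) : SchwartzMap E ℝ := LineDeriv.lineDerivOp v f

lemma D_apply (v : E) (f : SchwartzMap E ℝ) (x : E) : D v f x = fderiv ℝ f x v := rfl

lemma D_fun (v : E) (f : SchwartzMap E ℝ) : (fun x => fderiv ℝ f x v) = D v f := rfl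

lemma inner_le (x : E) (w : S) : |inner ℝ x (w : E)| ≤ ‖x‖ := by
  have h := abs_real_inner_le_norm x (w : E)
  have hw : ‖(w : E)‖ = 1 := by simp
  rwa [hw, mul_one] at h

lemma norm_w (w : S) : ‖(w : E)‖ = 1 := by simp

lemma inner_w (w : S) : inner ℝ (w : E) (w : E) = (1 : ℝ) := by
  rw [real_inner_self_eq_norm_sq, norm_w, one_pow]

/-- Hyperplanes are null sets. -/
lemma null_plane (w : S) (p : ℝ) : volume {x : E | inner ℝ x (w : E) = p} = 0 := by
  have hker : volume ((LinearMap.ker (innerₛₗ ℝ (w : E)) : Submodule ℝ E) : Set E) = 0 := by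
    refine Measure.addHaar_submodule volume _ fun h => ?_
    have h1 : (w : E) ∈ LinearMap.ker (innerₛₗ ℝ (w : E)) := by rw [h]; trivial
    rw [LinearMap.mem_ker, innerₛₗ_apply_apply, inner_w] at h1
    exact one_ne_zero h1
  have h2 : {x : E | inner ℝ x (w : E) = p} =
      (fun x => x + (-(p • (w : E)))) ⁻¹' ((LinearMap.ker (innerₛₗ ℝ (w : E)) : Submodule ℝ E) : Set E) := by
    ext x
    simp only [mem_preimage, SetLike.mem_coe, LinearMap.mem_ker, innerₛₗ_apply_apply,
      mem_ofPred_eq]
    rw [real_inner_comm, ← sub_eq_add_neg, inner_sub_right, inner_smul_right, inner_w, mul_one,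
      sub_eq_zero]
  rw [h2, measure_preimage_add_right, hker]

lemma ae_ne_plane (w : S) (p : ℝ) : ∀ᵐ x : E, inner ℝ x (w : E) ≠ p := by
  rw [ae_iff]
  simpa using null_plane w p

lemma meas_half (w : S) (p : ℝ) : MeasurableSet {x : E | inner ℝ x (w : E) ≤ p} :=
  measurableSet_le (by fun_prop) measurable_const

/-- Continuity of half space integrals. -/
lemma cont_gen {Ψ : S → E → ℝ} {B : E → ℝ} (hB : Integrable B)
    (hm : ∀ w, AEStronglyMeasurable (Ψ w)) (hb : ∀ w x, |Ψ w x| ≤ B x)
    (hc : ∀ x, Continuous fun w => Ψ w x) :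
    Continuous fun z : S × ℝ =>
      ∫ x, {x : E | inner ℝ x (z.1 : E) ≤ z.2}.indicator (Ψ z.1) x := by
  rw [continuous_iff_continuousAt]
  intro z0
  refine continuousAt_of_dominated (bound := B) ?_ ?_ hB ?_
  · exact Eventually.of_forall fun z => (hm z.1).indicator (meas_half z.1 z.2)
  · refine Eventually.of_forall fun z => Eventually.of_forall fun x => ?_
    refine (norm_indicator_le_norm_self _ _).trans ?_
    exact hb _ _
  · filter_upwards [ae_ne_plane z0.1 z0.2] with x hx
    have hci : Continuous fun z : S × ℝ => inner ℝ x (z.1 : E) := by fun_prop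
    rcases lt_or_gt_of_ne hx with h | h
    · have h1 : ∀ᶠ z : S × ℝ in 𝓝 z0, inner ℝ x (z.1 : E) < z.2 :=
        hci.continuousAt.eventually_lt continuous_snd.continuousAt h
      have h2 : (fun z : S × ℝ => Ψ z.1 x) =ᶠ[𝓝 z0]
          fun z => {x : E | inner ℝ x (z.1 : E) ≤ z.2}.indicator (Ψ z.1) x := by
        filter_upwards [h1] with z hz
        rw [indicator_of_mem (show x ∈ {x : E | inner ℝ x (z.1 : E) ≤ z.2} from hz.le)]
      exact ((hc x).comp continuous_fst).continuousAt.congr h2
    · have h1 : ∀ᶠ z : S × ℝ in 𝓝 z0, z.2 < inner ℝ x (z.1 : E) :=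
        continuous_snd.continuousAt.eventually_lt hci.continuousAt h
      have h2 : (fun _ : S × ℝ => (0 : ℝ)) =ᶠ[𝓝 z0]
          fun z => {x : E | inner ℝ x (z.1 : E) ≤ z.2}.indicator (Ψ z.1) x := by
        filter_upwards [h1] with z hz
        rw [indicator_of_notMem (show x ∉ {x : E | inner ℝ x (z.1 : E) ≤ z.2} from not_le.2 hz)]
      exact continuousAt_const.congr h2

/-- Decay of half space integrals. -/
lemma dec_gen {Ψ : E → ℝ} {B : E → ℝ} (w : S) (p : ℝ) (hΨ : Integrable Ψ) (h0 : ∫ x, Ψ x = 0)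
    (hb : ∀ x, |Ψ x| ≤ B x) (hB : Integrable fun x => (1 + ‖x‖ ^ 2) * B x) :
    |∫ x, {x : E | inner ℝ x (w : E) ≤ p}.indicator Ψ x| ≤
      (∫ x, (1 + ‖x‖ ^ 2) * B x) / (1 + p ^ 2) := by
  have hpos : (0 : ℝ) < 1 + p ^ 2 := by positivity
  have key : ∀ A : Set E, MeasurableSet A → (∀ x ∈ A, p ^ 2 ≤ ‖x‖ ^ 2) →
      |∫ x, A.indicator Ψ x| ≤ (∫ x, (1 + ‖x‖ ^ 2) * B x) / (1 + p ^ 2) := by
    intro A hA hA2
    have h1 : |∫ x, A.indicator Ψ x| ≤ ∫ x, (1 + ‖x‖ ^ 2) * B x / (1 + p ^ 2) := by
      rw [← Real.norm_eq_abs]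
      refine norm_integral_le_of_norm_le (hB.div_const _) (Eventually.of_forall fun x => ?_)
      have hBx : 0 ≤ B x := (abs_nonneg _).trans (hb x)
      by_cases hx : x ∈ A
      · rw [indicator_of_mem hx, le_div_iff₀ hpos, Real.norm_eq_abs, mul_comm]
        have := hA2 x hx
        gcongr
        exact hb x
      · rw [indicator_of_notMem hx, norm_zero]
        positivity
    rwa [integral_div] at h1
  rcases le_or_gt p 0 with hp | hp
  · refine key _ (meas_half w p) fun x hx => ?_
    have hx' : inner ℝ x (w : E) ≤ p := hx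
    have h1 := inner_le x w
    have h2 : |p| ≤ |inner ℝ x (w : E)| := by
      rw [abs_of_nonpos hp, abs_of_nonpos (hx'.trans hp)]; linarith
    have h3 : |p| ≤ ‖x‖ := h2.trans h1
    calc p ^ 2 = |p| ^ 2 := (sq_abs p).symm
      _ ≤ ‖x‖ ^ 2 := by gcongr
  · have h1 := key ({x : E | inner ℝ x (w : E) ≤ p}ᶜ) (meas_half w p).compl fun x hx => by
      have hx' : p < inner ℝ x (w : E) := not_le.1 hx
      have h1 := inner_le x w
      have h3 : p ≤ ‖x‖ := (hx'.le.trans (le_abs_self _)).trans h1
      gcongr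
    have h2 : ∫ x, {x : E | inner ℝ x (w : E) ≤ p}.indicator Ψ x =
        - ∫ x, ({x : E | inner ℝ x (w : E) ≤ p}ᶜ).indicator Ψ x := by
      rw [integral_indicator (meas_half w p), integral_indicator (meas_half w p).compl]
      have := integral_add_compl (meas_half w p) hΨ
      rw [h0] at this
      linarith
    rw [h2, abs_neg]
    exact h1

/-- Integration by parts against a plane wave. -/
lemma ibp (h : SchwartzMap E ℝ) (v : E) (w : S) {g g' : ℝ → ℝ} (hg : ∀ s, HasDerivAt g (g' s) s)
    {b b' : ℝ} (hb : ∀ s, |g s| ≤ b) (hb' : ∀ s, |g' s| ≤ b') (hm : Measurable g') :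
    ∫ x, D v h x * g (inner ℝ x (w : E)) =
      - ∫ x, h x * (g' (inner ℝ x (w : E)) * inner ℝ v (w : E)) := by
  have hgc : Continuous g := continuous_iff_continuousAt.2 fun s => (hg s).continuousAt
  have hL : ∀ x : E, HasLineDerivAt ℝ (fun x : E => g (inner ℝ x (w : E)))
      (g' (inner ℝ x (w : E)) * inner ℝ v (w : E)) x v := by
    intro x
    have h1 : HasDerivAt (fun t : ℝ => inner ℝ (x + t • v) (w : E)) (inner ℝ v (w : E)) 0 := by
      have : (fun t : ℝ => inner ℝ (x + t • v) (w : E)) =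
          fun t => inner ℝ x (w : E) + t * inner ℝ v (w : E) := by
        ext t
        rw [inner_add_left, inner_smul_left]; rfl
      rw [this]
      simpa using ((hasDerivAt_id (0 : ℝ)).mul_const (inner ℝ v (w : E))).const_add
        (inner ℝ x (w : E))
    have h2 : HasDerivAt g (g' (inner ℝ x (w : E))) (inner ℝ (x + (0 : ℝ) • v) (w : E)) := by
      simpa using hg (inner ℝ x (w : E))
    exact h2.comp (0 : ℝ) h1
  have hh : ∀ x : E, HasLineDerivAt ℝ h (D v h x) x v := fun x =>
    (h.hasFDerivAt x).hasLineDerivAt v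
  have hm1 : AEStronglyMeasurable (fun x : E => g (inner ℝ x (w : E))) :=
    (hgc.comp (by fun_prop)).aestronglyMeasurable
  have hm2 : AEStronglyMeasurable (fun x : E => g' (inner ℝ x (w : E)) * inner ℝ v (w : E)) :=
    ((hm.comp (by fun_prop)).mul_const _).aestronglyMeasurable
  have i1 : Integrable fun x => h x * g (inner ℝ x (w : E)) :=
    (h.integrable).mul_bdd (c := b) hm1 (Eventually.of_forall fun x => hb _)
  have i2 : Integrable fun x => D v h x * g (inner ℝ x (w : E)) :=
    ((D v h).integrable).mul_bdd (c := b) hm1 (Eventually.of_forall fun x => hb _)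
  have i3 : Integrable fun x => h x * (g' (inner ℝ x (w : E)) * inner ℝ v (w : E)) := by
    refine (h.integrable).mul_bdd (c := b' * |inner ℝ v (w : E)|) hm2
      (Eventually.of_forall fun x => ?_)
    rw [norm_mul]
    exact mul_le_mul_of_nonneg_right (hb' _) (norm_nonneg _)
  have := integral_bilinear_hasLineDerivAt_right_eq_neg_left_of_integrable
    (μ := (volume : Measure E)) (B := ContinuousLinearMap.mul ℝ ℝ) (f := h) (f' := D v h)
    (g := fun x => g (inner ℝ x (w : E))) (g' := fun x => g' (inner ℝ x (w : E)) * inner ℝ v (w : E))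
    (v := v) i2 i3 i1 (fun x _ => hh x) (fun x _ => hL x)
  simp only [ContinuousLinearMap.mul_apply'] at this
  rw [this, neg_neg]

/-- The integral of a directional derivative is zero. -/
lemma int_D (h : SchwartzMap E ℝ) (v : E) : ∫ x, D v h x = 0 := by
  have w0 : S := ⟨EuclideanSpace.single 0 1, by simp⟩
  have := ibp h v w0 (g := fun _ => 1) (g' := fun _ => 0) (fun s => hasDerivAt_const s 1)
    (b := 1) (b' := 0) (by simp) (by simp) measurable_const
  simpa using this

lemma Rad_eq (f : SchwartzMap E ℝ) (z : S × ℝ) :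
    Rad f z = ∫ x, {x : E | inner ℝ x (z.1 : E) ≤ z.2}.indicator (D (z.1 : E) f) x := rfl

lemma dRad_eq' (f : SchwartzMap E ℝ) (z : S × ℝ) : dRad f z = Rad (D (z.1 : E) f) z := rfl

lemma dRad_eq (f : SchwartzMap E ℝ) (z : S × ℝ) :
    dRad f z = ∫ x, {x : E | inner ℝ x (z.1 : E) ≤ z.2}.indicator (D (z.1 : E) (D (z.1 : E) f)) x :=
  rfl

/-- Second order bound. -/
noncomputable def G2 (f : SchwartzMap E ℝ) : SchwartzMap E (E →L[ℝ] E →L[ℝ] ℝ) :=
  SchwartzMap.fderivCLM ℝ E (E →L[ℝ] ℝ) (SchwartzMap.fderivCLM ℝ E ℝ f)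

lemma DD_apply (f : SchwartzMap E ℝ) (v v' x : E) : D v (D v' f) x = G2 f x v v' := by
  have h1 : (D v' f : E → ℝ) = fun y => (SchwartzMap.fderivCLM ℝ E ℝ f) y v' := rfl
  have h2 : HasFDerivAt (fun y => (SchwartzMap.fderivCLM ℝ E ℝ f) y v')
      ((ContinuousLinearMap.apply ℝ ℝ v').comp (G2 f x)) x :=
    (ContinuousLinearMap.apply ℝ ℝ v').hasFDerivAt.comp x
      ((SchwartzMap.fderivCLM ℝ E ℝ f).hasFDerivAt x)
  rw [D_apply, h1, h2.fderiv]
  rfl

lemma D_le (f : SchwartzMap E ℝ) (w : S) (x : E) :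
    |D (w : E) f x| ≤ ‖SchwartzMap.fderivCLM ℝ E ℝ f x‖ := by
  have h := (SchwartzMap.fderivCLM ℝ E ℝ f x).le_opNorm (w : E)
  rw [norm_w, mul_one] at h
  exact h

lemma DD_le (f : SchwartzMap E ℝ) (w : S) (x : E) : |D (w : E) (D (w : E) f) x| ≤ ‖G2 f x‖ := by
  rw [DD_apply]
  have h := (G2 f x).le_opNorm₂ (w : E) (w : E)
  rw [norm_w, mul_one, mul_one] at h
  exact h

lemma Rad_cont (f : SchwartzMap E ℝ) : Continuous (Rad f) := by
  have h := cont_gen (Ψ := fun w => D (w : E) f)
    (B := fun x => ‖SchwartzMap.fderivCLM ℝ E ℝ f x‖)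
    (SchwartzMap.integrable _).norm (fun w => (D (w : E) f).continuous.aestronglyMeasurable)
    (fun w x => D_le f w x) (fun x => by
      have : (fun w : S => D (w : E) f x) = fun w : S => fderiv ℝ f x (w : E) := rfl
      rw [this]
      exact (fderiv ℝ f x).continuous.comp continuous_subtype_val)
  exact h

lemma dRad_cont (f : SchwartzMap E ℝ) : Continuous (dRad f) := by
  have h := cont_gen (Ψ := fun w => D (w : E) (D (w : E) f)) (B := fun x => ‖G2 f x‖)
    (SchwartzMap.integrable _).norm
    (fun w => (D (w : E) (D (w : E) f)).continuous.aestronglyMeasurable)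
    (fun w x => DD_le f w x) (fun x => by
      simp only [DD_apply]
      exact ((G2 f x).continuous.comp continuous_subtype_val).clm_apply continuous_subtype_val)
  exact h

lemma wint {V : Type*} [NormedAddCommGroup V] [NormedSpace ℝ V] (F : SchwartzMap E V) :
    Integrable fun x => (1 + ‖x‖ ^ 2) * ‖F x‖ := by
  have h1 : Integrable (fun x => ‖F x‖) (volume : Measure E) := F.integrable.norm
  have h2 := F.integrable_pow_mul volume 2
  refine (h1.add h2).congr (Eventually.of_forall fun x => ?_)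
  simp only [Pi.add_apply]
  ring

lemma Rad_dec (f : SchwartzMap E ℝ) : ∃ C, ∀ z : S × ℝ, |Rad f z| ≤ C / (1 + z.2 ^ 2) :=
  ⟨_, fun z => dec_gen z.1 z.2 (D (z.1 : E) f).integrable (int_D f _)
    (fun x => D_le f z.1 x) (wint (SchwartzMap.fderivCLM ℝ E ℝ f))⟩

lemma dRad_dec (f : SchwartzMap E ℝ) : ∃ C, ∀ z : S × ℝ, |dRad f z| ≤ C / (1 + z.2 ^ 2) :=
  ⟨_, fun z => dec_gen z.1 z.2 (D (z.1 : E) (D (z.1 : E) f)).integrable
    (int_D (D (z.1 : E) f) z.1) (fun x => DD_le f z.1 x) (wint (G2 f))⟩

/-- The derivative of an integral over a half line. -/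
lemma derivIic {h : ℝ → ℝ} (hi : Integrable h) (hc : Continuous h) (s : ℝ) :
    HasDerivAt (fun s => ∫ p in Iic s, h p) (h s) s := by
  have h1 : (fun s => ∫ p in Iic s, h p) =
      fun s => (∫ p in Iic (0 : ℝ), h p) + ∫ p in (0 : ℝ)..s, h p := by
    ext s
    have := intervalIntegral.integral_Iic_sub_Iic (a := 0) (b := s) hi.integrableOn hi.integrableOn
    linarith
  rw [h1]
  exact (intervalIntegral.integral_hasDerivAt_right (hi.intervalIntegrable)
    (hc.stronglyMeasurableAtFilter _ _) hc.continuousAt).const_add _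

/-- The formula for `g` continuous with compact support. -/
lemma formula_cs (f : SchwartzMap E ℝ) (w : S) {g : ℝ → ℝ} (hg : Continuous g)
    (hgs : HasCompactSupport g) :
    ∫ p, Rad f (w, p) * g p = ∫ x, f x * g (inner ℝ x (w : E)) := by
  have hgi : Integrable g := hg.integrable_of_hasCompactSupport hgs
  obtain ⟨b, hb⟩ := hg.bounded_above_of_compact_support hgs
  set A : Set (ℝ × E) := {z | inner ℝ z.2 (w : E) ≤ z.1} with hA
  have hAm : MeasurableSet A := measurableSet_le (by fun_prop) measurable_fst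
  set G : ℝ → ℝ := fun s => (∫ p, g p) - ∫ p in Iic s, g p with hG
  have hGd : ∀ s, HasDerivAt G (- g s) s := fun s => by
    have := (derivIic hgi hg s).const_sub (∫ p, g p)
    exact this
  have hGb : ∀ s, |G s| ≤ ∫ p, |g p| := by
    intro s
    have h1 : G s = ∫ p in (Iic s)ᶜ, g p := by
      have := integral_add_compl (μ := volume) (measurableSet_Iic (a := s)) hgi
      rw [hG]; linarith
    rw [h1]
    calc |∫ p in (Iic s)ᶜ, g p| ≤ ∫ p in (Iic s)ᶜ, |g p| := abs_integral_le_integral_abs
      _ ≤ ∫ p, |g p| := setIntegral_le_integral hgi.abs (Eventually.of_forall fun _ => abs_nonneg _)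
  have hprod : Integrable (fun z : ℝ × E => A.indicator (fun z => g z.1 * D (w : E) f z.2) z)
      (volume.prod volume) := (hgi.mul_prod (D (w : E) f).integrable).indicator hAm
  have hL : ∀ p, ∫ x, A.indicator (fun z => g z.1 * D (w : E) f z.2) (p, x) =
      Rad f (w, p) * g p := by
    intro p
    rw [Rad_eq, ← integral_mul_const]
    refine integral_congr_ae (Eventually.of_forall fun x => ?_)
    by_cases hx : inner ℝ x (w : E) ≤ p
    · simp only
      rw [indicator_of_mem (show (p, x) ∈ A from hx),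
        indicator_of_mem (show x ∈ {x : E | inner ℝ x (w : E) ≤ p} from hx)]
      ring
    · simp only
      rw [indicator_of_notMem (show (p, x) ∉ A from hx),
        indicator_of_notMem (show x ∉ {x : E | inner ℝ x (w : E) ≤ p} from hx), zero_mul]
  have hR : ∀ x, ∫ p, A.indicator (fun z => g z.1 * D (w : E) f z.2) (p, x) =
      D (w : E) f x * G (inner ℝ x (w : E)) := by
    intro x
    have h1 : ∀ p, A.indicator (fun z => g z.1 * D (w : E) f z.2) (p, x) =
        D (w : E) f x * (Ici (inner ℝ x (w : E))).indicator g p := by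
      intro p
      by_cases hx : inner ℝ x (w : E) ≤ p
      · rw [indicator_of_mem (show (p, x) ∈ A from hx),
          indicator_of_mem (show p ∈ Ici (inner ℝ x (w : E)) from hx)]
        ring
      · rw [indicator_of_notMem (show (p, x) ∉ A from hx),
          indicator_of_notMem (show p ∉ Ici (inner ℝ x (w : E)) from hx), mul_zero]
    simp only [h1]
    rw [integral_const_mul, integral_indicator measurableSet_Ici]
    congr 1
    have := integral_add_compl (μ := volume) (measurableSet_Iic (a := inner ℝ x (w : E))) hgi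
    rw [compl_Iic] at this
    rw [integral_Ici_eq_integral_Ioi, hG]
    linarith
  calc ∫ p, Rad f (w, p) * g p
      = ∫ p, ∫ x, A.indicator (fun z => g z.1 * D (w : E) f z.2) (p, x) := by
        simp only [hL]
    _ = ∫ x, ∫ p, A.indicator (fun z => g z.1 * D (w : E) f z.2) (p, x) :=
        integral_integral_swap hprod
    _ = ∫ x, D (w : E) f x * G (inner ℝ x (w : E)) := by simp only [hR]
    _ = - ∫ x, f x * (- g (inner ℝ x (w : E)) * inner ℝ (w : E) (w : E)) :=
        ibp f (w : E) w hGd hGb (b' := b) (fun s => by rw [abs_neg]; exact hb s) hg.neg.measurable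
    _ = ∫ x, f x * g (inner ℝ x (w : E)) := by
        rw [← integral_neg]
        refine integral_congr_ae (Eventually.of_forall fun x => ?_)
        simp only [inner_w]
        ring

/-- Cut-off functions on the line. -/
noncomputable def chi (n : ℕ) (p : ℝ) : ℝ := max 0 (min 1 ((n : ℝ) + 1 - |p|))

lemma chi_cont (n : ℕ) : Continuous (chi n) := by unfold chi; fun_prop

lemma chi_nonneg (n : ℕ) (p : ℝ) : 0 ≤ chi n p := le_max_left _ _

lemma chi_le (n : ℕ) (p : ℝ) : chi n p ≤ 1 := max_le zero_le_one (min_le_left _ _)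

lemma chi_supp (n : ℕ) : HasCompactSupport (chi n) := by
  refine HasCompactSupport.intro (isCompact_Icc (a := -((n : ℝ) + 1)) (b := (n : ℝ) + 1))
    fun p hp => ?_
  have h1 : (n : ℝ) + 1 < |p| := by
    by_contra h
    exact hp (abs_le.1 (not_lt.1 h))
  unfold chi
  rw [min_eq_right (by linarith), max_eq_left (by linarith)]

lemma chi_tendsto (p : ℝ) : Tendsto (fun n => chi n p) atTop (𝓝 1) := by
  obtain ⟨N, hN⟩ := exists_nat_ge |p|
  refine tendsto_const_nhds.congr' ?_
  filter_upwards [eventually_ge_atTop N] with n hn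
  have h1 : (N : ℝ) ≤ n := by exact_mod_cast hn
  unfold chi
  rw [min_eq_left (by linarith), max_eq_right zero_le_one]

lemma Rad_int (f : SchwartzMap E ℝ) (w : S) : Integrable fun p => Rad f (w, p) := by
  obtain ⟨C, hC⟩ := Rad_dec f
  refine (integrable_inv_one_add_sq.const_mul C).mono
    ((Rad_cont f).comp (by fun_prop)).aestronglyMeasurable (Eventually.of_forall fun p => ?_)
  rw [Real.norm_eq_abs, Real.norm_eq_abs]
  exact (hC (w, p)).trans ((le_of_eq (div_eq_mul_inv _ _)).trans (le_abs_self _))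

/-- The formula for bounded functions that are limits. -/
lemma formula_lim (f : SchwartzMap E ℝ) (w : S) {g : ℝ → ℝ} {gn : ℕ → ℝ → ℝ} {B : ℝ}
    (hgc : ∀ n, Continuous (gn n)) (hgb : ∀ n p, |gn n p| ≤ B)
    (hl : ∀ p, Tendsto (fun n => gn n p) atTop (𝓝 (g p)))
    (hf : ∀ n, ∫ p, Rad f (w, p) * gn n p = ∫ x, f x * gn n (inner ℝ x (w : E))) :
    ∫ p, Rad f (w, p) * g p = ∫ x, f x * g (inner ℝ x (w : E)) := by
  have h1 : Tendsto (fun n => ∫ p, Rad f (w, p) * gn n p) atTop
      (𝓝 (∫ p, Rad f (w, p) * g p)) := by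
    refine tendsto_integral_of_dominated_convergence (fun p => |Rad f (w, p)| * B) ?_ ?_ ?_ ?_
    · exact fun n => (((Rad_cont f).comp (by fun_prop)).mul (hgc n)).aestronglyMeasurable
    · exact (Rad_int f w).abs.mul_const _
    · refine fun n => Eventually.of_forall fun p => ?_
      rw [norm_mul, Real.norm_eq_abs, Real.norm_eq_abs]
      exact mul_le_mul_of_nonneg_left (hgb n p) (abs_nonneg _)
    · exact Eventually.of_forall fun p => (hl p).const_mul _
  have h2 : Tendsto (fun n => ∫ x, f x * gn n (inner ℝ x (w : E))) atTop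
      (𝓝 (∫ x, f x * g (inner ℝ x (w : E)))) := by
    refine tendsto_integral_of_dominated_convergence (fun x => |f x| * B) ?_ ?_ ?_ ?_
    · exact fun n => (f.continuous.mul ((hgc n).comp (by fun_prop))).aestronglyMeasurable
    · exact f.integrable.abs.mul_const _
    · refine fun n => Eventually.of_forall fun x => ?_
      rw [norm_mul, Real.norm_eq_abs, Real.norm_eq_abs]
      exact mul_le_mul_of_nonneg_left (hgb n _) (abs_nonneg _)
    · exact Eventually.of_forall fun x => (hl _).const_mul _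
  simp only [hf] at h1
  exact tendsto_nhds_unique h1 h2

/-- The formula for bounded continuous functions. -/
lemma formula_bd (f : SchwartzMap E ℝ) (w : S) {g : ℝ → ℝ} (hg : Continuous g) {B : ℝ}
    (hB : ∀ p, |g p| ≤ B) :
    ∫ p, Rad f (w, p) * g p = ∫ x, f x * g (inner ℝ x (w : E)) := by
  refine formula_lim f w (gn := fun n p => g p * chi n p) (B := B) ?_ ?_ ?_ ?_
  · exact fun n => hg.mul (chi_cont n)
  · intro n p
    rw [abs_mul, abs_of_nonneg (chi_nonneg n p)]
    calc |g p| * chi n p ≤ |g p| * 1 := by gcongr; exact chi_le n p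
      _ ≤ B := by rw [mul_one]; exact hB p
  · intro p
    have := (chi_tendsto p).const_mul (g p)
    rwa [mul_one] at this
  · intro n
    exact formula_cs f w (hg.mul (chi_cont n)) (chi_supp n).mul_left

/-- `Rad` as an integral of `dRad`. -/
lemma Rad_eq_int (f : SchwartzMap E ℝ) (w : S) (p : ℝ) :
    Rad f (w, p) = ∫ q in Iic p, dRad f (w, q) := by
  have h := formula_lim (D (w : E) f) w (g := (Iic p).indicator fun _ => 1)
    (gn := fun n q => max 0 (min 1 (1 - (n : ℝ) * (q - p)))) (B := 1) ?_ ?_ ?_ ?_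
  · have h1 : ∫ q, Rad (D (w : E) f) (w, q) * (Iic p).indicator (fun _ => 1) q =
        ∫ q in Iic p, dRad f (w, q) := by
      rw [← integral_indicator measurableSet_Iic]
      refine integral_congr_ae (Eventually.of_forall fun q => ?_)
      by_cases hq : q ∈ Iic p
      · simp only [indicator_of_mem hq, mul_one]; rfl
      · simp only [indicator_of_notMem hq, mul_zero]
    have h2 : ∫ x, D (w : E) f x * (Iic p).indicator (fun _ => 1) (inner ℝ x (w : E)) =
        Rad f (w, p) := by
      rw [Rad_eq]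
      refine integral_congr_ae (Eventually.of_forall fun x => ?_)
      by_cases hx : inner ℝ x (w : E) ≤ p
      · simp only
        rw [indicator_of_mem (show inner ℝ x (w : E) ∈ Iic p from hx),
          indicator_of_mem (show x ∈ {x : E | inner ℝ x (w : E) ≤ p} from hx), mul_one]
      · simp only
        rw [indicator_of_notMem (show inner ℝ x (w : E) ∉ Iic p from hx),
          indicator_of_notMem (show x ∉ {x : E | inner ℝ x (w : E) ≤ p} from hx), mul_zero]
    rw [← h1, ← h2, h]
  · exact fun n => by fun_prop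
  · intro n q
    rw [abs_of_nonneg (le_max_left _ _)]
    exact max_le zero_le_one (min_le_left _ _)
  · intro q
    rcases le_or_gt q p with hq | hq
    · rw [indicator_of_mem (show q ∈ Iic p from hq)]
      refine tendsto_const_nhds.congr fun n => ?_
      have : (n : ℝ) * (q - p) ≤ 0 := mul_nonpos_of_nonneg_of_nonpos (by positivity) (by linarith)
      rw [min_eq_left (by linarith), max_eq_right zero_le_one]
    · rw [indicator_of_notMem (show q ∉ Iic p from not_le.2 hq)]
      obtain ⟨N, hN⟩ := exists_nat_ge (1 / (q - p))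
      refine tendsto_const_nhds.congr' ?_
      filter_upwards [eventually_ge_atTop N] with n hn
      have h1 : (N : ℝ) ≤ n := by exact_mod_cast hn
      have h2 : 0 < q - p := by linarith
      have h3 : 1 ≤ (n : ℝ) * (q - p) := by
        rw [← div_le_iff₀ h2]; linarith
      rw [max_eq_left]
      exact (min_le_right _ _).trans (by linarith)
  · intro n
    exact formula_bd (D (w : E) f) w (by fun_prop) (B := 1) (fun q => by
      rw [abs_of_nonneg (le_max_left _ _)]
      exact max_le zero_le_one (min_le_left _ _))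

lemma Rad_deriv (f : SchwartzMap E ℝ) (w : S) (p : ℝ) :
    HasDerivAt (fun p => Rad f (w, p)) (dRad f (w, p)) p := by
  have h1 : (fun p => Rad f (w, p)) = fun p => ∫ q in Iic p, dRad f (w, q) := by
    ext p; exact Rad_eq_int f w p
  rw [h1]
  exact derivIic (Rad_int (D (w : E) f) w) ((dRad_cont f).comp (by fun_prop)) p

/-- The Laplacian of a Schwartz function. -/
noncomputable def La (f : SchwartzMap E ℝ) : SchwartzMap E ℝ :=
  ∑ i, D (EuclideanSpace.single i (1 : ℝ)) (D (EuclideanSpace.single i (1 : ℝ)) f)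

lemma lap_eq (f : SchwartzMap E ℝ) : lap f = La f := by
  ext x
  have h1 : ∀ (i : Fin 5) (h : SchwartzMap E ℝ),
      pd i h = D (EuclideanSpace.single i (1 : ℝ)) h := fun i h => rfl
  unfold lap La
  rw [sum_apply]
  simp only [h1]

lemma ibp2 (f : SchwartzMap E ℝ) (v : E) (w : S) {g : ℝ → ℝ}
    (hg : ContDiff ℝ ((⊤ : ℕ∞) : WithTop ℕ∞) g) (hgs : HasCompactSupport g) :
    ∫ x, D v (D v f) x * g (inner ℝ x (w : E)) =
      inner ℝ v (w : E) ^ 2 * ∫ x, f x * deriv (deriv g) (inner ℝ x (w : E)) := by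
  have hg1 : ContDiff ℝ ((⊤ : ℕ∞) : WithTop ℕ∞) (deriv g) :=
    (contDiff_infty_iff_deriv.1 hg).2
  have hg2 : ContDiff ℝ ((⊤ : ℕ∞) : WithTop ℕ∞) (deriv (deriv g)) :=
    (contDiff_infty_iff_deriv.1 hg1).2
  obtain ⟨b, hb⟩ := hg.continuous.bounded_above_of_compact_support hgs
  obtain ⟨b1, hb1⟩ := hg1.continuous.bounded_above_of_compact_support hgs.deriv
  obtain ⟨b2, hb2⟩ := hg2.continuous.bounded_above_of_compact_support hgs.deriv.deriv
  have hd : ∀ s, HasDerivAt g (deriv g s) s := fun s =>
    (contDiff_infty_iff_deriv.1 hg).1.differentiableAt.hasDerivAt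
  have hd1 : ∀ s, HasDerivAt (deriv g) (deriv (deriv g) s) s := fun s =>
    (contDiff_infty_iff_deriv.1 hg1).1.differentiableAt.hasDerivAt
  rw [ibp (D v f) v w hd hb hb1 hg1.continuous.measurable]
  have h1 : ∫ x, D v f x * (deriv g (inner ℝ x (w : E)) * inner ℝ v (w : E)) =
      inner ℝ v (w : E) * ∫ x, D v f x * deriv g (inner ℝ x (w : E)) := by
    rw [← integral_const_mul]
    refine integral_congr_ae (Eventually.of_forall fun x => ?_)
    simp only
    ring
  rw [h1, ibp f v w hd1 hb1 hb2 hg2.continuous.measurable]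
  have h2 : ∫ x, f x * (deriv (deriv g) (inner ℝ x (w : E)) * inner ℝ v (w : E)) =
      inner ℝ v (w : E) * ∫ x, f x * deriv (deriv g) (inner ℝ x (w : E)) := by
    rw [← integral_const_mul]
    refine integral_congr_ae (Eventually.of_forall fun x => ?_)
    simp only
    ring
  rw [h2]
  ring

lemma sum_sq (w : S) : ∑ i : Fin 5, inner ℝ (EuclideanSpace.single i (1 : ℝ)) (w : E) ^ 2 = (1 : ℝ) := by
  have h1 : ‖(w : E)‖ ^ 2 = 1 := by rw [norm_w, one_pow]
  rw [EuclideanSpace.real_norm_sq_eq] at h1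
  refine Eq.trans (Finset.sum_congr rfl fun i _ => ?_) h1
  rw [EuclideanSpace.inner_single_left, map_one, one_mul]

lemma DD_eq_La (f : SchwartzMap E ℝ) (w : S) (p : ℝ) :
    Rad (D (w : E) (D (w : E) f)) (w, p) = Rad (La f) (w, p) := by
  have hc1 : Continuous fun p => Rad (D (w : E) (D (w : E) f)) (w, p) :=
    (Rad_cont _).comp (by fun_prop)
  have hc2 : Continuous fun p => Rad (La f) (w, p) := (Rad_cont _).comp (by fun_prop)
  have hae := ae_eq_of_integral_contDiff_smul_eq (μ := (volume : Measure ℝ))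
    (f := fun p => Rad (D (w : E) (D (w : E) f)) (w, p)) (f' := fun p => Rad (La f) (w, p))
    hc1.locallyIntegrable hc2.locallyIntegrable (fun g hg hgs => by
      have hg' : ContDiff ℝ ((⊤ : ℕ∞) : WithTop ℕ∞) g := hg
      have e1 : ∀ h : SchwartzMap E ℝ, ∫ p, g p • Rad h (w, p) =
          ∫ x, h x * g (inner ℝ x (w : E)) := by
        intro h
        rw [← formula_cs h w hg'.continuous hgs]
        refine integral_congr_ae (Eventually.of_forall fun p => ?_)
        simp only [smul_eq_mul]
        ring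
      rw [e1, e1, ibp2 f (w : E) w hg' hgs, inner_w]
      have e2 : ∫ x, (La f) x * g (inner ℝ x (w : E)) =
          ∑ i, ∫ x, D (EuclideanSpace.single i (1 : ℝ)) (D (EuclideanSpace.single i (1 : ℝ)) f) x *
            g (inner ℝ x (w : E)) := by
        rw [← integral_finsetSum]
        · refine integral_congr_ae (Eventually.of_forall fun x => ?_)
          simp only [La, sum_apply, Finset.sum_mul]
        · intro i _
          obtain ⟨b, hb⟩ := hg'.continuous.bounded_above_of_compact_support hgs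
          exact (SchwartzMap.integrable _).mul_bdd (c := b)
            ((hg'.continuous.comp (by fun_prop)).aestronglyMeasurable)
            (Eventually.of_forall fun x => hb _)
      rw [e2]
      simp only [ibp2 f _ w hg' hgs]
      rw [← Finset.sum_mul, sum_sq]
      ring)
  have := (Continuous.ae_eq_iff_eq (volume : Measure ℝ) hc1 hc2).1 hae
  exact congrFun this p

lemma dRad_deriv (f : SchwartzMap E ℝ) (w : S) (p : ℝ) :
    HasDerivAt (fun p => dRad f (w, p)) (Rad (lap f) (w, p)) p := by
  have h := Rad_deriv (D (w : E) f) w p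
  rw [lap_eq, ← DD_eq_La]
  exact h

lemma memLp_of {F : S × ℝ → ℝ} (hc : Continuous F) (hC : ∃ C, ∀ z : S × ℝ, |F z| ≤ C / (1 + z.2 ^ 2)) :
    MemLp F 2 mu := by
  obtain ⟨C, hC⟩ := hC
  have h1 : MemLp (fun p : ℝ => C * (1 + p ^ 2)⁻¹) 2 volume := by
    refine MemLp.const_mul ?_ C
    have hcont : Continuous fun p : ℝ => (1 + p ^ 2)⁻¹ :=
      Continuous.inv₀ (by fun_prop) (fun p => by positivity)
    rw [memLp_two_iff_integrable_sq hcont.aestronglyMeasurable]
    refine integrable_inv_one_add_sq.mono (hcont.pow 2).aestronglyMeasurable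
      (Eventually.of_forall fun p => ?_)
    have h0 : 0 ≤ (1 + p ^ 2)⁻¹ := by positivity
    have h1 : (1 + p ^ 2)⁻¹ ≤ 1 := inv_le_one_of_one_le₀ (by nlinarith [sq_nonneg p])
    rw [Real.norm_of_nonneg (by positivity), Real.norm_of_nonneg h0]
    nlinarith
  have h2 : MemLp (fun z : S × ℝ => C * (1 + z.2 ^ 2)⁻¹) 2 mu := h1.comp_snd sg
  refine h2.mono hc.aestronglyMeasurable (Eventually.of_forall fun z => ?_)
  rw [Real.norm_eq_abs, Real.norm_eq_abs]
  exact (hC z).trans ((le_of_eq (div_eq_mul_inv _ _)).trans (le_abs_self _))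

end Pool.Agent.QWE.RadSx

namespace Pool.Agent.QWE

open RadSx

theorem thm_RadS : St_RadS := by
  rintro φ ⟨f, hf⟩
  obtain rfl : (f : E → ℝ) = φ := funext hf
  obtain ⟨C1, hC1⟩ := Rad_dec f
  obtain ⟨C2, hC2⟩ := dRad_dec f
  refine ⟨Rad_cont f, dRad_cont f, ⟨max C1 C2, fun z => ⟨?_, ?_⟩⟩, ?_, ?_, ?_, ?_⟩
  · refine (hC1 z).trans ?_
    gcongr
    exact le_max_left _ _
  · refine (hC2 z).trans ?_
    gcongr
    exact le_max_right _ _
  · exact fun w p => ⟨Rad_deriv f w p, dRad_deriv f w p⟩
  · rintro w g hg ⟨B, hB⟩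
    exact formula_bd f w hg hB
  · exact toK_coe (memLp_of (Rad_cont f) ⟨C1, hC1⟩)
  · exact toK_coe (memLp_of (dRad_cont f) ⟨C2, hC2⟩)

end Pool.Agent.QWE
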