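import Pool.Agent.QWE.StA

/-!
# QWE/SL (helper72): slices of the sphere
-/

set_option autoImplicit false

open MeasureTheory Filter Topology Set
open scoped ENNReal NNReal RealInnerProductSpace Pointwise

namespace Pool.Agent.QWE.SLx

/-- Polar coordinates. -/
theorem polar {F : Type} [NormedAddCommGroup F] [NormedSpace ℝ F] [FiniteDimensional ℝ F]
    [MeasurableSpace F] [BorelSpace F] [Nontrivial F] (μ : Measure F) [μ.IsAddHaarMeasure]
    {h : F → ℝ≥0∞} (hh : Measurable h) :
    ∫⁻ x, h x ∂μ = ∫⁻ w : Metric.sphere (0 : F) 1, (∫⁻ r in Ioi (0 : ℝ),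
      ENNReal.ofReal (r ^ (Module.finrank ℝ F - 1)) * h (r • (w : F))) ∂μ.toSphere := by
  have h1 : ∫⁻ x, h x ∂μ = ∫⁻ x : ({0}ᶜ : Set F), h x ∂(μ.comap (↑)) := by
    rw [lintegral_subtype_comap (measurableSet_singleton _).compl h, restrict_compl_singleton]
  have h2 := μ.measurePreserving_homeomorphUnitSphereProd.lintegral_comp_emb
    (Homeomorph.measurableEmbedding _)
    (fun z : Metric.sphere (0 : F) 1 × Ioi (0 : ℝ) => h ((z.2 : ℝ) • (z.1 : F)))
  have h3 : ∀ x : ({0}ᶜ : Set F),
      h (((homeomorphUnitSphereProd F x).2 : ℝ) • ((homeomorphUnitSphereProd F x).1 : F)) = h x := by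
    intro x
    congr 1
    have hx : ‖(x : F)‖ ≠ 0 := norm_ne_zero_iff.2 x.2
    simp [smul_smul, mul_inv_cancel₀ hx]
  simp only [h3] at h2
  rw [h1, h2, lintegral_prod]
  swap
  · apply Measurable.aemeasurable
    exact hh.comp (by fun_prop)
  apply lintegral_congr
  intro w
  have hm : Measurable fun r : ℝ => h (r • (w : F)) := hh.comp (by fun_prop)
  rw [Measure.volumeIoiPow, lintegral_withDensity_eq_lintegral_mul]
  · have h4 := lintegral_subtype_comap (μ := (volume : Measure ℝ)) (s := Ioi (0 : ℝ)) measurableSet_Ioi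
      (fun r => ENNReal.ofReal (r ^ (Module.finrank ℝ F - 1)) * h (r • (w : F)))
    rw [← h4]
    rfl
  · fun_prop
  · exact hm.comp measurable_subtype_coe

/-- Four dimensional space. -/
abbrev E4 := EuclideanSpace ℝ (Fin 4)

/-- The coordinates `x = s e + O y`. -/
theorem coords (e : S) (O : E4 →ₗᵢ[ℝ] E) (hO : ∀ v, inner ℝ (O v) (e : E) = 0) {f : E → ℝ≥0∞}
    (hf : Measurable f) :
    ∫⁻ x, f x = ∫⁻ y : E4, ∫⁻ s : ℝ, f (s • (e : E) + O y) := by
  have he : ‖(e : E)‖ = 1 := by
    have := e.2
    rwa [mem_sphere_zero_iff_norm] at this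
  let L0 : WithLp 2 (ℝ × E4) →ₗ[ℝ] E :=
    { toFun := fun p => p.fst • (e : E) + O p.snd
      map_add' := by
        intro p q
        simp only [WithLp.add_fst, WithLp.add_snd, add_smul, map_add]
        abel
      map_smul' := by
        intro c p
        simp only [WithLp.smul_fst, WithLp.smul_snd, map_smul, smul_eq_mul, mul_smul,
          RingHom.id_apply, smul_add] }
  let L : WithLp 2 (ℝ × E4) →ₗᵢ[ℝ] E :=
    { toLinearMap := L0
      norm_map' := by
        intro p
        change ‖p.fst • (e : E) + O p.snd‖ = ‖p‖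
        have h1 : ‖p.fst • (e : E) + O p.snd‖ ^ 2 = ‖p‖ ^ 2 := by
          rw [norm_add_sq_real, WithLp.prod_norm_sq_eq_of_L2, norm_smul, he, mul_one,
            O.norm_map, real_inner_smul_left, real_inner_comm, hO]
          ring
        exact (pow_left_inj₀ (norm_nonneg _) (norm_nonneg _) two_ne_zero).1 h1 }
  have hfr : Module.finrank ℝ (WithLp 2 (ℝ × E4)) = Module.finrank ℝ E := by
    have h1 := (WithLp.linearEquiv 2 ℝ (ℝ × E4)).finrank_eq
    rw [h1]
    simp
  let Le : WithLp 2 (ℝ × E4) ≃ₗᵢ[ℝ] E := L.toLinearIsometryEquiv hfr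
  have hmp : MeasurePreserving Le volume volume := LinearIsometryEquiv.measurePreserving Le
  have hmp2 : MeasurePreserving (fun p : ℝ × E4 => (WithLp.toLp 2 p : WithLp 2 (ℝ × E4)))
      volume volume := WithLp.volume_preserving_toLp ℝ E4
  have h1 := (hmp.comp hmp2).lintegral_comp hf
  rw [← h1, Measure.volume_eq_prod, lintegral_prod_symm]
  · rfl
  · apply Measurable.aemeasurable
    exact hf.comp (hmp.comp hmp2).measurable

/-- Polar coordinates in the half plane. -/
theorem halfplane {H : ℝ → ℝ → ℝ≥0∞} (hH : Measurable (Function.uncurry H)) :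
    ∫⁻ s : ℝ, ∫⁻ ρ in Ioi (0 : ℝ), H s ρ =
      ∫⁻ θ in Ioo (0 : ℝ) Real.pi, ∫⁻ R in Ioi (0 : ℝ),
        ENNReal.ofReal R * H (R * Real.cos θ) (R * Real.sin θ) := by
  obtain ⟨G, hG⟩ : ∃ G : ℝ × ℝ → ℝ≥0∞, G = {z : ℝ × ℝ | 0 < z.2}.indicator (Function.uncurry H) :=
    ⟨_, rfl⟩
  have hset : MeasurableSet {z : ℝ × ℝ | 0 < z.2} := measurableSet_lt measurable_const measurable_snd
  have hGm : Measurable G := by
    rw [hG]
    exact hH.indicator hset
  have h1 := lintegral_comp_polarCoord_symm G
  have h2 : ∫⁻ p : ℝ × ℝ, G p = ∫⁻ s : ℝ, ∫⁻ ρ in Ioi (0 : ℝ), H s ρ := by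
    rw [Measure.volume_eq_prod, lintegral_prod _ hGm.aemeasurable]
    apply lintegral_congr
    intro s
    rw [← lintegral_indicator measurableSet_Ioi]
    apply lintegral_congr
    intro ρ
    rw [hG]
    by_cases h : 0 < ρ
    · rw [indicator_of_mem (show (s, ρ) ∈ {z : ℝ × ℝ | 0 < z.2} from h),
        indicator_of_mem (show ρ ∈ Ioi (0 : ℝ) from h)]
      rfl
    · rw [indicator_of_notMem (show (s, ρ) ∉ {z : ℝ × ℝ | 0 < z.2} from h),
        indicator_of_notMem (show ρ ∉ Ioi (0 : ℝ) from h)]
  rw [← h2, ← h1]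
  -- the target
  have hm3 : Measurable fun p : ℝ × ℝ => ENNReal.ofReal p.1 • G (polarCoord.symm p) := by
    have hpc : Measurable fun p : ℝ × ℝ => polarCoord.symm p := by
      have : (fun p : ℝ × ℝ => polarCoord.symm p) =
          fun p : ℝ × ℝ => (p.1 * Real.cos p.2, p.1 * Real.sin p.2) := by
        funext p
        exact polarCoord_symm_apply p
      rw [this]
      fun_prop
    exact (ENNReal.measurable_ofReal.comp measurable_fst).smul (hGm.comp hpc)
  have ht : polarCoord.target = Ioi (0 : ℝ) ×ˢ Ioo (-Real.pi) Real.pi := rfl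
  rw [ht, Measure.volume_eq_prod, ← Measure.prod_restrict, lintegral_prod_symm _ hm3.aemeasurable]
  have hsplit : ∀ g : ℝ → ℝ≥0∞, Measurable g → (∀ θ ∈ Ioc (-Real.pi) 0, g θ = 0) →
      ∫⁻ θ in Ioo (-Real.pi) Real.pi, g θ = ∫⁻ θ in Ioo (0 : ℝ) Real.pi, g θ := by
    intro g hg h0
    have hpi := Real.pi_pos
    have hu : Ioo (-Real.pi) Real.pi = Ioc (-Real.pi) 0 ∪ Ioo 0 Real.pi := by
      ext θ
      simp only [mem_Ioo, mem_union, mem_Ioc]
      constructor
      · rintro ⟨a, b⟩
        rcases le_or_gt θ 0 with h | h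
        · exact Or.inl ⟨a, h⟩
        · exact Or.inr ⟨h, b⟩
      · rintro (⟨a, b⟩ | ⟨a, b⟩)
        · exact ⟨a, by linarith⟩
        · exact ⟨by linarith, b⟩
    have hd : Disjoint (Ioc (-Real.pi) 0) (Ioo 0 Real.pi) := by
      rw [Set.disjoint_left]
      rintro θ ⟨_, a⟩ ⟨b, _⟩
      linarith
    rw [hu, lintegral_union measurableSet_Ioo hd]
    have h3 : ∫⁻ θ in Ioc (-Real.pi) 0, g θ = 0 := by
      rw [setLIntegral_congr_fun measurableSet_Ioc h0]
      simp
    rw [h3, zero_add]
  rw [hsplit]
  · apply setLIntegral_congr_fun measurableSet_Ioo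
    intro θ hθ
    dsimp only
    apply setLIntegral_congr_fun measurableSet_Ioi
    intro R hR
    dsimp only
    rw [polarCoord_symm_apply, hG, indicator_of_mem, smul_eq_mul]
    · rfl
    · exact mul_pos hR (Real.sin_pos_of_pos_of_lt_pi hθ.1 hθ.2)
  · exact Measurable.lintegral_prod_left' (μ := volume.restrict (Ioi (0 : ℝ))) hm3
  · intro θ hθ
    have : ∫⁻ R in Ioi (0 : ℝ), ENNReal.ofReal R • G (polarCoord.symm (R, θ)) =
        ∫⁻ R in Ioi (0 : ℝ), 0 := by
      apply setLIntegral_congr_fun measurableSet_Ioi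
      intro R hR
      dsimp only
      rw [polarCoord_symm_apply, hG, indicator_of_notMem, smul_zero]
      have h4 : Real.sin θ ≤ 0 := Real.sin_nonpos_of_nonpos_of_neg_pi_le hθ.2 hθ.1.le
      intro hmem
      have h5 : 0 < R * Real.sin θ := hmem
      have h6 := mul_nonpos_of_nonneg_of_nonpos (le_of_lt hR) h4
      linarith
    rw [this, lintegral_zero]

/-- The substitution `s = cos θ`. -/
theorem subst_cos (g : ℝ → ℝ≥0∞) : ∫⁻ s in Ioo (-1 : ℝ) 1, ENNReal.ofReal (1 - s ^ 2) * g s =
    ∫⁻ θ in Ioo (0 : ℝ) Real.pi, ENNReal.ofReal (Real.sin θ ^ 3) * g (Real.cos θ) := by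
  have himg : Real.cos '' Ioo 0 Real.pi = Ioo (-1) 1 := by
    ext s
    constructor
    · rintro ⟨θ, hθ, rfl⟩
      constructor
      · have := Real.strictAntiOn_cos ⟨hθ.1.le, hθ.2.le⟩ ⟨Real.pi_pos.le, le_rfl⟩ hθ.2
        rwa [Real.cos_pi] at this
      · have := Real.strictAntiOn_cos ⟨le_rfl, Real.pi_pos.le⟩ ⟨hθ.1.le, hθ.2.le⟩ hθ.1
        rwa [Real.cos_zero] at this
    · rintro ⟨h1, h2⟩
      refine ⟨Real.arccos s, ⟨?_, ?_⟩, Real.cos_arccos h1.le h2.le⟩
      · exact Real.arccos_pos.2 h2
      · rcases (Real.arccos_le_pi s).lt_or_eq with h | h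
        · exact h
        · exfalso
          have := congrArg Real.cos h
          rw [Real.cos_arccos h1.le h2.le, Real.cos_pi] at this
          linarith
  have h1 := lintegral_image_eq_lintegral_abs_deriv_mul (s := Ioo 0 Real.pi) (f := Real.cos)
    (f' := fun θ => -Real.sin θ) measurableSet_Ioo
    (fun θ _ => (Real.hasDerivAt_cos θ).hasDerivWithinAt)
    (Real.injOn_cos.mono Ioo_subset_Icc_self) (fun s => ENNReal.ofReal (1 - s ^ 2) * g s)
  rw [himg] at h1
  rw [h1]
  apply setLIntegral_congr_fun measurableSet_Ioo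
  intro θ hθ
  have hs := Real.sin_pos_of_pos_of_lt_pi hθ.1 hθ.2
  dsimp only
  rw [abs_neg, abs_of_pos hs, ← mul_assoc, ← ENNReal.ofReal_mul hs.le]
  congr 2
  have := Real.sin_sq_add_cos_sq θ
  nlinarith

/-- The unit sphere measure in `ℝ⁴`. -/
noncomputable abbrev sg3 : Measure (Metric.sphere (0 : E4) 1) := (volume : Measure E4).toSphere

/-- The radial constant. -/
noncomputable def I0 : ℝ≥0∞ := ∫⁻ r in Ioi (0 : ℝ), ENNReal.ofReal (r ^ 4) *
  (Ioo (0 : ℝ) 1).indicator (fun _ => 1) r

theorem I0_ne_top : I0 ≠ ⊤ := by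
  have h1 : I0 ≤ ∫⁻ r in Ioi (0 : ℝ), (Ioo (0 : ℝ) 1).indicator (fun _ => 1) r := by
    apply setLIntegral_mono
    · exact measurable_const.indicator measurableSet_Ioo
    · intro r hr
      by_cases h : r ∈ Ioo (0 : ℝ) 1
      · rw [indicator_of_mem h, mul_one]
        have : r ^ 4 ≤ 1 := pow_le_one₀ h.1.le h.2.le
        calc ENNReal.ofReal (r ^ 4) ≤ ENNReal.ofReal 1 := ENNReal.ofReal_le_ofReal this
          _ = 1 := ENNReal.ofReal_one
      · rw [indicator_of_notMem h, mul_zero]
  have h2 : ∫⁻ r in Ioi (0 : ℝ), (Ioo (0 : ℝ) 1).indicator (fun _ => (1 : ℝ≥0∞)) r ≤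
      ∫⁻ r, (Ioo (0 : ℝ) 1).indicator (fun _ => (1 : ℝ≥0∞)) r := setLIntegral_le_lintegral _ _
  have h2b : ∫⁻ r, (Ioo (0 : ℝ) 1).indicator (fun _ => (1 : ℝ≥0∞)) r = ENNReal.ofReal (1 - 0) := by
    rw [lintegral_indicator measurableSet_Ioo, setLIntegral_const, Real.volume_Ioo, one_mul]
  have h3 := h1.trans h2
  rw [h2b] at h3
  exact ne_top_of_le_ne_top ENNReal.ofReal_ne_top h3

theorem I0_ne_zero : I0 ≠ 0 := by
  unfold I0
  intro h
  have hm : Measurable fun r : ℝ => ENNReal.ofReal (r ^ 4) *
      (Ioo (0 : ℝ) 1).indicator (fun _ => 1) r := by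
    apply Measurable.mul
    · fun_prop
    · exact measurable_const.indicator measurableSet_Ioo
  rw [lintegral_eq_zero_iff hm, Filter.EventuallyEq, ae_restrict_iff' measurableSet_Ioi] at h
  have h2 : ∀ᵐ r : ℝ, r ∉ Ioo (0 : ℝ) 1 := by
    filter_upwards [h] with r hr hmem
    have h3 := hr hmem.1
    rw [indicator_of_mem hmem, mul_one] at h3
    have h4 : 0 < r ^ 4 := pow_pos hmem.1 4
    have h5 : ENNReal.ofReal (r ^ 4) ≠ 0 := (ENNReal.ofReal_pos.2 h4).ne'
    exact h5 h3
  have h3 : volume (Ioo (0 : ℝ) 1) = 0 := by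
    rw [measure_eq_zero_iff_ae_notMem]
    exact h2
  rw [Real.volume_Ioo] at h3
  simp at h3

/-- Cutting off radially. -/
noncomputable def cut (G : E → ℝ≥0∞) (x : E) : ℝ≥0∞ :=
  (Ioo (0 : ℝ) 1).indicator (fun _ => 1) ‖x‖ * G (‖x‖⁻¹ • x)

theorem cut_meas {G : E → ℝ≥0∞} (hG : Measurable G) : Measurable (cut G) := by
  unfold cut
  apply Measurable.mul
  · exact (measurable_const.indicator measurableSet_Ioo).comp measurable_norm
  · apply hG.comp
    exact measurable_norm.inv.smul measurable_id

theorem cut_smul (G : E → ℝ≥0∞) {r : ℝ} (hr : 0 < r) {u : E} (hu : ‖u‖ = 1) :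
    cut G (r • u) = (Ioo (0 : ℝ) 1).indicator (fun _ => 1) r * G u := by
  unfold cut
  have h1 : ‖r • u‖ = r := by
    rw [norm_smul, hu, mul_one, Real.norm_eq_abs, abs_of_pos hr]
  rw [h1, smul_smul, inv_mul_cancel₀ hr.ne', one_smul]

theorem ptn (e : S) (O : E4 →ₗᵢ[ℝ] E) (hO : ∀ v, inner ℝ (O v) (e : E) = 0)
    (v : Metric.sphere (0 : E4) 1) {a b : ℝ} (hab : a ^ 2 + b ^ 2 = 1) :
    ‖a • (e : E) + b • O v‖ = 1 := by
  have he : ‖(e : E)‖ = 1 := by
    have := e.2
    rwa [mem_sphere_zero_iff_norm] at this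
  have hv : ‖(v : E4)‖ = 1 := by
    have := v.2
    rwa [mem_sphere_zero_iff_norm] at this
  have h1 : ‖a • (e : E) + b • O v‖ ^ 2 = 1 := by
    rw [norm_add_sq_real, norm_smul, norm_smul, he, O.norm_map, hv, mul_one, mul_one,
      real_inner_smul_left, real_inner_smul_right, real_inner_comm, hO, Real.norm_eq_abs,
      Real.norm_eq_abs, sq_abs, sq_abs]
    linarith
  have h2 := norm_nonneg (a • (e : E) + b • O v)
  nlinarith

/-- The slicing formula, for nonnegative functions. -/
theorem core (e : S) (O : E4 →ₗᵢ[ℝ] E) (hO : ∀ v, inner ℝ (O v) (e : E) = 0) {G : E → ℝ≥0∞}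
    (hG : Measurable G) :
    ∫⁻ w : S, G w ∂sg = ∫⁻ s in Ioo (-1 : ℝ) 1, ENNReal.ofReal (1 - s ^ 2) *
      ∫⁻ v, G (s • (e : E) + √(1 - s ^ 2) • O v) ∂sg3 := by
  have hcm := cut_meas hG
  have hG5 : Module.finrank ℝ E - 1 = 4 := by simp
  have hG4 : Module.finrank ℝ E4 - 1 = 3 := by simp
  -- step A
  have hA : ∫⁻ x, cut G x = I0 * ∫⁻ w : S, G w ∂sg := by
    rw [polar (volume : Measure E) hcm, hG5]
    rw [← lintegral_const_mul]
    · apply lintegral_congr
      intro w
      have hw : ‖(w : E)‖ = 1 := by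
        have := w.2
        rwa [mem_sphere_zero_iff_norm] at this
      unfold I0
      rw [← lintegral_mul_const]
      · apply setLIntegral_congr_fun measurableSet_Ioi
        intro r hr
        dsimp only
        rw [cut_smul G hr hw, mul_assoc]
      · apply Measurable.mul
        · fun_prop
        · exact measurable_const.indicator measurableSet_Ioo
    · exact hG.comp measurable_subtype_coe
  -- step B
  have hOm : Measurable fun y : E4 => O y := O.continuous.measurable
  have hB : ∫⁻ x, cut G x = ∫⁻ v, (∫⁻ ρ in Ioi (0 : ℝ),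
      ENNReal.ofReal (ρ ^ 3) * ∫⁻ s : ℝ, cut G (s • (e : E) + O (ρ • (v : E4)))) ∂sg3 := by
    rw [coords e O hO hcm, polar (volume : Measure E4), hG4]
    have hm : Measurable (Function.uncurry fun (y : E4) (s : ℝ) => cut G (s • (e : E) + O y)) := by
      apply hcm.comp
      apply Measurable.add
      · exact measurable_snd.smul_const _
      · exact hOm.comp measurable_fst
    exact hm.lintegral_prod_right'
  have hC : ∀ v : Metric.sphere (0 : E4) 1, (∫⁻ ρ in Ioi (0 : ℝ),
      ENNReal.ofReal (ρ ^ 3) * ∫⁻ s : ℝ, cut G (s • (e : E) + O (ρ • (v : E4)))) =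
      I0 * ∫⁻ s in Ioo (-1 : ℝ) 1, ENNReal.ofReal (1 - s ^ 2) *
        G (s • (e : E) + √(1 - s ^ 2) • O v) := by
    intro v
    have hm1 : Measurable (Function.uncurry fun (s ρ : ℝ) =>
        ENNReal.ofReal (ρ ^ 3) * cut G (s • (e : E) + ρ • O v)) := by
      apply Measurable.mul
      · apply ENNReal.measurable_ofReal.comp
        exact measurable_snd.pow_const 3
      · apply hcm.comp
        exact (measurable_fst.smul_const _).add (measurable_snd.smul_const _)
    have e1 : (∫⁻ ρ in Ioi (0 : ℝ),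
        ENNReal.ofReal (ρ ^ 3) * ∫⁻ s : ℝ, cut G (s • (e : E) + O (ρ • (v : E4)))) =
        ∫⁻ ρ in Ioi (0 : ℝ), ∫⁻ s : ℝ, ENNReal.ofReal (ρ ^ 3) * cut G (s • (e : E) + ρ • O v) := by
      apply lintegral_congr
      intro ρ
      rw [← lintegral_const_mul]
      · simp only [map_smul]
      · apply hcm.comp
        exact (measurable_id.smul_const _).add_const _
    rw [e1, lintegral_lintegral_swap, halfplane hm1]
    · have e2 : ∀ θ ∈ Ioo (0 : ℝ) Real.pi, (∫⁻ R in Ioi (0 : ℝ), ENNReal.ofReal R *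
          (ENNReal.ofReal ((R * Real.sin θ) ^ 3) *
            cut G ((R * Real.cos θ) • (e : E) + (R * Real.sin θ) • O v))) =
          ENNReal.ofReal (Real.sin θ ^ 3) * (I0 *
            G (Real.cos θ • (e : E) + √(1 - Real.cos θ ^ 2) • O v)) := by
        intro θ hθ
        have hs := Real.sin_pos_of_pos_of_lt_pi hθ.1 hθ.2
        have hsq : √(1 - Real.cos θ ^ 2) = Real.sin θ := by
          rw [← Real.sin_sq, Real.sqrt_sq hs.le]
        have hu : ‖Real.cos θ • (e : E) + Real.sin θ • O v‖ = 1 :=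
          ptn e O hO v (by have := Real.sin_sq_add_cos_sq θ; linarith)
        rw [hsq]
        unfold I0
        rw [← lintegral_mul_const, ← lintegral_const_mul]
        · apply setLIntegral_congr_fun measurableSet_Ioi
          intro R hR
          have hR' : (0 : ℝ) < R := hR
          dsimp only
          have e3 : (R * Real.cos θ) • (e : E) + (R * Real.sin θ) • O v =
              R • (Real.cos θ • (e : E) + Real.sin θ • O v) := by
            rw [smul_add, smul_smul, smul_smul]
          have e4 : ENNReal.ofReal R * ENNReal.ofReal ((R * Real.sin θ) ^ 3) =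
              ENNReal.ofReal (Real.sin θ ^ 3) * ENNReal.ofReal (R ^ 4) := by
            rw [← ENNReal.ofReal_mul hR'.le, ← ENNReal.ofReal_mul (by positivity)]
            congr 1
            ring
          rw [e3, cut_smul G hR' hu, ← mul_assoc, e4]
          ring
        · apply Measurable.mul_const
          apply Measurable.mul
          · fun_prop
          · exact measurable_const.indicator measurableSet_Ioo
        · apply Measurable.mul
          · fun_prop
          · exact measurable_const.indicator measurableSet_Ioo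
      rw [setLIntegral_congr_fun measurableSet_Ioo e2]
      have e5 := subst_cos (fun s => I0 * G (s • (e : E) + √(1 - s ^ 2) • O v))
      rw [← e5, ← lintegral_const_mul]
      · apply lintegral_congr
        intro s
        ring
      · apply Measurable.mul
        · fun_prop
        · apply hG.comp
          apply Measurable.add
          · exact measurable_id.smul_const _
          · apply Measurable.smul_const
            fun_prop
    · exact (hm1.comp measurable_swap).aemeasurable
  have hm2 : Measurable (Function.uncurry fun (s : ℝ) (v : Metric.sphere (0 : E4) 1) =>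
      ENNReal.ofReal (1 - s ^ 2) * G (s • (e : E) + √(1 - s ^ 2) • O v)) := by
    apply Measurable.mul
    · apply ENNReal.measurable_ofReal.comp
      exact measurable_const.sub (measurable_fst.pow_const 2)
    · apply hG.comp
      apply Measurable.add
      · exact measurable_fst.smul_const _
      · refine Measurable.smul (f := fun a : ℝ × Metric.sphere (0 : E4) 1 => √(1 - a.1 ^ 2))
          (g := fun a : ℝ × Metric.sphere (0 : E4) 1 => O a.2) ?_ ?_
        · apply Real.continuous_sqrt.measurable.comp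
          exact measurable_const.sub (measurable_fst.pow_const 2)
        · exact hOm.comp (measurable_subtype_coe.comp measurable_snd)
  have hD : ∫⁻ x, cut G x = I0 * ∫⁻ s in Ioo (-1 : ℝ) 1, ENNReal.ofReal (1 - s ^ 2) *
      ∫⁻ v, G (s • (e : E) + √(1 - s ^ 2) • O v) ∂sg3 := by
    rw [hB]
    simp only [hC]
    rw [lintegral_const_mul, lintegral_lintegral_swap]
    · congr 1
      apply lintegral_congr
      intro s
      rw [lintegral_const_mul]
      apply hG.comp
      apply Measurable.const_add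
      have hOm2 : Measurable fun v : Metric.sphere (0 : E4) 1 => O v :=
        hOm.comp measurable_subtype_coe
      exact hOm2.const_smul (√(1 - s ^ 2))
    · exact (hm2.comp measurable_swap).aemeasurable
    · exact (hm2.comp measurable_swap).lintegral_prod_right'
  rw [hA] at hD
  exact (ENNReal.mul_right_inj I0_ne_zero I0_ne_top).1 hD

/-- The weighted measure on `(-1, 1)`. -/
noncomputable def m1 : Measure ℝ :=
  (volume.restrict (Ioo (-1 : ℝ) 1)).withDensity fun s => ENNReal.ofReal (1 - s ^ 2)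

instance : SFinite m1 := by
  unfold m1
  infer_instance

/-- The parametrisation. -/
noncomputable def Psi (e : S) (O : E4 →ₗᵢ[ℝ] E) (z : ℝ × Metric.sphere (0 : E4) 1) : E :=
  z.1 • (e : E) + √(1 - z.1 ^ 2) • O z.2

theorem Psi_cont (e : S) (O : E4 →ₗᵢ[ℝ] E) : Continuous (Psi e O) := by
  unfold Psi
  have h1 : Continuous fun z : ℝ × Metric.sphere (0 : E4) 1 => O z.2 :=
    O.continuous.comp (continuous_subtype_val.comp continuous_snd)
  have h2 : Continuous fun z : ℝ × Metric.sphere (0 : E4) 1 => √(1 - z.1 ^ 2) := by fun_prop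
  have h3 : Continuous fun z : ℝ × Metric.sphere (0 : E4) 1 => z.1 • (e : E) := by fun_prop
  exact h3.add (h2.smul h1)

theorem meq (e : S) (O : E4 →ₗᵢ[ℝ] E) (hO : ∀ v, inner ℝ (O v) (e : E) = 0) :
    Measure.map (Subtype.val : S → E) sg = Measure.map (Psi e O) (m1.prod sg3) := by
  have : SFinite (m1.prod sg3) := Measure.prod.instSFinite
  apply Measure.ext
  intro A hA
  rw [← lintegral_indicator_one hA, ← lintegral_indicator_one hA]
  have hG : Measurable (A.indicator (1 : E → ℝ≥0∞)) := measurable_one.indicator hA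
  rw [lintegral_map hG measurable_subtype_coe, lintegral_map hG (Psi_cont e O).measurable,
    core e O hO hG, lintegral_prod]
  · unfold m1
    rw [lintegral_withDensity_eq_lintegral_mul]
    · rfl
    · fun_prop
    · have h1 : Measurable fun z : ℝ × Metric.sphere (0 : E4) 1 =>
          A.indicator (1 : E → ℝ≥0∞) (Psi e O z) := hG.comp (Psi_cont e O).measurable
      exact h1.lintegral_prod_right'
  · exact (hG.comp (Psi_cont e O).measurable).aemeasurable

end Pool.Agent.QWE.SLx

namespace Pool.Agent.QWE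

open SLx in
theorem thm_SL : St_SL := by
  intro e O hO b hb
  have hm := meq e O hO
  have hbm : Measurable b := hb.measurable
  have i1 : Integrable (fun w : S => b w) sg := by
    have hc : Continuous fun w : S => b w := hb.comp continuous_subtype_val
    exact hc.integrable_of_hasCompactSupport (HasCompactSupport.of_compactSpace _)
  have i2 : Integrable b (Measure.map (Subtype.val : S → E) sg) := by
    rw [integrable_map_measure hbm.aestronglyMeasurable measurable_subtype_coe.aemeasurable]
    exact i1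
  have i3 : Integrable (fun z => b (Psi e O z)) (m1.prod sg3) := by
    rw [hm, integrable_map_measure hbm.aestronglyMeasurable (Psi_cont e O).measurable.aemeasurable]
      at i2
    exact i2
  have e1 : ∫ w : S, b w ∂sg = ∫ x, b x ∂(Measure.map (Subtype.val : S → E) sg) := by
    rw [integral_map measurable_subtype_coe.aemeasurable hbm.aestronglyMeasurable]
  have e2 : ∫ x, b x ∂(Measure.map (Psi e O) (m1.prod sg3)) =
      ∫ z, b (Psi e O z) ∂(m1.prod sg3) := by
    rw [integral_map (Psi_cont e O).measurable.aemeasurable hbm.aestronglyMeasurable]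
  rw [e1, hm, e2, integral_prod _ i3]
  unfold m1
  rw [integral_withDensity_eq_integral_toReal_smul]
  · rw [intervalIntegral.integral_of_le (by norm_num), ← integral_Ioc_eq_integral_Ioo]
    apply setIntegral_congr_fun measurableSet_Ioc
    intro s hs
    have h1 : 0 ≤ 1 - s ^ 2 := by nlinarith [hs.1, hs.2]
    dsimp only
    rw [ENNReal.toReal_ofReal h1]
    rfl
  · fun_prop
  · exact Filter.Eventually.of_forall fun s => ENNReal.ofReal_lt_top

end Pool.Agent.QWE
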