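import Pool.Agent.QWE.StA
import Pool.Agent.QWE.StG

set_option autoImplicit false

/-!
# QWE, SNc: elementary facts on solutions and `SN`
-/

open MeasureTheory Filter Topology Set
open scoped ENNReal NNReal RealInnerProductSpace

namespace Pool.Agent.QWE

namespace SNcx

lemma exhaust {I : Set ℝ} (hI : I.OrdConnected) (f : ℝ → ℝ≥0∞) (r : ℝ≥0∞)
    (h : r < ∫⁻ t in I, f t) :
    ∃ s ∈ I, ∃ t ∈ I, s ≤ t ∧ r < ∫⁻ x in Icc s t, f x := by
  rcases I.eq_empty_or_nonempty with hne | hne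
  · rw [hne] at h
    simp at h
  have : Nonempty I := hne.to_subtype
  obtain ⟨u, hu⟩ : ∃ u : ℕ → I, DenseRange u :=
    ⟨TopologicalSpace.denseSeq I, TopologicalSpace.denseRange_denseSeq I⟩
  obtain ⟨s, hs⟩ : ∃ s : ℕ × ℕ → Set ℝ, s = fun p => Icc (u p.1 : ℝ) (u p.2) := ⟨_, rfl⟩
  have hdir : Directed (· ⊆ ·) s := by
    intro p q
    obtain ⟨i, hi1, hi2⟩ : ∃ i, (u i : ℝ) ≤ u p.1 ∧ (u i : ℝ) ≤ u q.1 := by
      rcases le_total (u p.1 : ℝ) (u q.1) with h1 | h1
      · exact ⟨p.1, le_rfl, h1⟩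
      · exact ⟨q.1, h1, le_rfl⟩
    obtain ⟨j, hj1, hj2⟩ : ∃ j, (u p.2 : ℝ) ≤ u j ∧ (u q.2 : ℝ) ≤ u j := by
      rcases le_total (u p.2 : ℝ) (u q.2) with h1 | h1
      · exact ⟨q.2, h1, le_rfl⟩
      · exact ⟨p.2, le_rfl, h1⟩
    refine ⟨(i, j), ?_, ?_⟩
    · simp only [hs]; exact Icc_subset_Icc hi1 hj1
    · simp only [hs]; exact Icc_subset_Icc hi2 hj2
  have hUI : (⋃ p, s p) ⊆ I := by
    intro x hx
    obtain ⟨p, hp⟩ := mem_iUnion.1 hx
    simp only [hs] at hp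
    exact hI.out (u p.1).2 (u p.2).2 hp
  have hae : I =ᵐ[volume] ⋃ p, s p := by
    refine (ae_eq_set.2 ⟨?_, ?_⟩)
    · have h1 : I \ (⋃ p, s p) ⊆ {x ∈ I | ∀ y ∈ I, x ≤ y} ∪ {x ∈ I | ∀ y ∈ I, y ≤ x} := by
        intro x hx
        by_contra h2
        simp only [mem_union, not_or] at h2
        have h3 : ∃ y ∈ I, y < x := by
          by_contra h4
          push Not at h4
          exact h2.1 ⟨hx.1, h4⟩
        have h4 : ∃ y ∈ I, x < y := by
          by_contra h4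
          push Not at h4
          exact h2.2 ⟨hx.1, h4⟩
        obtain ⟨y, hy, hyx⟩ := h3
        obtain ⟨z, hz, hxz⟩ := h4
        obtain ⟨i, hi⟩ := hu.exists_mem_open (isOpen_Iio.preimage continuous_subtype_val)
          (⟨⟨y, hy⟩, hyx⟩ : ((fun w : I => (w : ℝ)) ⁻¹' Iio x).Nonempty)
        obtain ⟨j, hj⟩ := hu.exists_mem_open (isOpen_Ioi.preimage continuous_subtype_val)
          (⟨⟨z, hz⟩, hxz⟩ : ((fun w : I => (w : ℝ)) ⁻¹' Ioi x).Nonempty)
        refine hx.2 (mem_iUnion.2 ⟨(i, j), ?_⟩)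
        simp only [hs]
        have hi' : (u i : ℝ) < x := hi
        have hj' : x < (u j : ℝ) := hj
        exact ⟨hi'.le, hj'.le⟩
      refine measure_mono_null h1 (measure_union_null ?_ ?_)
      · refine Set.Subsingleton.measure_zero ?_ _
        intro x hx y hy
        exact le_antisymm (hx.2 y hy.1) (hy.2 x hx.1)
      · refine Set.Subsingleton.measure_zero ?_ _
        intro x hx y hy
        exact le_antisymm (hy.2 x hx.1) (hx.2 y hy.1)
    · rw [sdiff_eq_empty.2 hUI, measure_empty]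
  rw [Measure.restrict_congr_set hae, setLIntegral_iUnion_of_directed _ hdir, lt_iSup_iff] at h
  obtain ⟨p, hp⟩ := h
  simp only [hs] at hp
  refine ⟨u p.1, (u p.1).2, u p.2, (u p.2).2, ?_, hp⟩
  by_contra h1
  rw [Icc_eq_empty h1] at hp
  simp at hp

lemma nhds_Icc {I : Set ℝ} {t : ℝ} (ht : t ∈ I) :
    ∃ c ∈ I, ∃ d ∈ I, c ≤ t ∧ t ≤ d ∧ Icc c d ∈ 𝓝[I] t := by
  have h1 : ∃ c ∈ I, c ≤ t ∧ Ici c ∈ 𝓝[I] t := by
    by_cases h : ∃ c ∈ I, c < t
    · obtain ⟨c, hc, hct⟩ := h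
      exact ⟨c, hc, hct.le, mem_nhdsWithin_of_mem_nhds (Ici_mem_nhds hct)⟩
    · push Not at h
      exact ⟨t, ht, le_rfl, mem_of_superset self_mem_nhdsWithin h⟩
  have h2 : ∃ d ∈ I, t ≤ d ∧ Iic d ∈ 𝓝[I] t := by
    by_cases h : ∃ d ∈ I, t < d
    · obtain ⟨d, hd, hdt⟩ := h
      exact ⟨d, hd, hdt.le, mem_nhdsWithin_of_mem_nhds (Iic_mem_nhds hdt)⟩
    · push Not at h
      exact ⟨t, ht, le_rfl, mem_of_superset self_mem_nhdsWithin h⟩
  obtain ⟨c, hc, hct, h3⟩ := h1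
  obtain ⟨d, hd, htd, h4⟩ := h2
  exact ⟨c, hc, d, hd, hct, htd, inter_mem h3 h4⟩

lemma tend {I : Set ℝ} {k : ℝ → K} (h : IsSol I k) {t : ℝ} (ht : t ∈ I) :
    Tendsto (fun s => SN (uIcc t s) k) (𝓝[I] t) (𝓝 0) := by
  obtain ⟨c, hc, d, hd, hct, htd, hn⟩ := nhds_Icc ht
  have h1 : SN (Icc c d) k ≠ ⊤ := (h.2.2.1 c hc d hd).ne
  have h2 : Tendsto ((volume.restrict (Icc c d)) ∘ fun s => uIcc t s) (𝓝[I] t) (𝓝 0) := by
    have h3 : Tendsto (fun s : ℝ => ENNReal.ofReal |s - t|) (𝓝[I] t) (𝓝 0) := by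
      have h4 : Continuous fun s : ℝ => ENNReal.ofReal |s - t| :=
        ENNReal.continuous_ofReal.comp (by fun_prop)
      have h5 := (h4.tendsto t).mono_left (nhdsWithin_le_nhds (s := I))
      simpa using h5
    refine tendsto_of_tendsto_of_tendsto_of_le_of_le tendsto_const_nhds h3
      (fun s => bot_le) fun s => ?_
    refine (Measure.restrict_apply_le _ _).trans ?_
    rw [Real.volume_interval]
  have h3 := tendsto_setLIntegral_zero h1 h2
  refine h3.congr' ?_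
  filter_upwards [hn] with s hs
  have h4 : uIcc t s ⊆ Icc c d := uIcc_subset_Icc ⟨hct, htd⟩ hs
  rw [Measure.restrict_restrict_of_subset h4]
  rfl

lemma SN_add (k : ℝ → K) (a b c : ℝ) (hab : a ≤ b) (hbc : b ≤ c) :
    SN (Icc a c) k = SN (Icc a b) k + SN (Icc b c) k := by
  unfold SN
  rw [← Icc_union_Ioc_eq_Icc hab hbc,
    lintegral_union measurableSet_Ioc (by
      rw [Set.disjoint_left]
      intro x hx hx'
      exact absurd hx.2 (not_le.2 hx'.1)), Measure.restrict_congr_set (Ioc_ae_eq_Icc (a := b) (b := c))]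

lemma zero_sol (hL : St_Lin) (hN : St_NLb) {I : Set ℝ} (hI : I.OrdConnected) :
    IsSol I (fun _ => 0) := by
  have hU : U 0 =ᵐ[volume] 0 := by
    filter_upwards [(hL.1 (-1) 0 0).1] with x hx
    simp only [smul_zero, add_zero] at hx
    simp only [Pi.zero_apply]
    linarith
  have hsn : sn 0 = 0 := by
    unfold sn
    rw [eLpNorm_congr_ae hU]
    simp
  have hNL : NL 0 = 0 := by
    obtain ⟨C, -, h1, -⟩ := hN.1
    have h2 := h1 0
    rw [enorm_zero, mul_zero] at h2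
    exact enorm_eq_zero.1 (le_antisymm h2 bot_le)
  refine ⟨hI, continuousOn_const, ?_, ?_⟩
  · intro a _ b _
    simp [SN, hsn]
  · intro s _ t _
    simp [hNL]

end SNcx

open SNcx in
theorem thm_SNc (hL : St_Lin) (hN : St_NLb) (hU : St_Uniq) : St_SNc := by
  have hres : ∀ (I I' : Set ℝ) (k : ℝ → K), IsSol I k → I' ⊆ I → I'.OrdConnected →
      IsSol I' k := fun I I' k h hs hc =>
    ⟨hc, h.2.1.mono hs, fun a ha b hb => h.2.2.1 a (hs ha) b (hs hb),
      fun s h1 t ht => h.2.2.2 s (hs h1) t (hs ht)⟩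
  have hex : ∀ (I : Set ℝ) (k : ℝ → K) (r : ℝ≥0∞), IsSol I k → r < SN I k →
      ∃ s ∈ I, ∃ t ∈ I, s ≤ t ∧ r < SN (Icc s t) k := fun I k r h hr => exhaust h.1 _ r hr
  refine ⟨hres, hex, ?_, ?_, SN_add, ?_⟩
  · intro I k s r h hs hr
    obtain ⟨s', hs', t, ht, hst, h1⟩ := hex (I ∩ Ici s) k r
      (hres I _ k h inter_subset_left (h.1.inter ordConnected_Ici)) hr
    exact ⟨t, ht.1, ht.2, h1.trans_le (lintegral_mono_set (Icc_subset_Icc_left hs'.2))⟩
  · intro I k s h hs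
    have hfin : ∀ a ∈ I, ∀ b ∈ I, SN (Icc a b) k ≠ ⊤ := fun a ha b hb => (h.2.2.1 a ha b hb).ne
    constructor
    · intro t ht
      unfold ContinuousWithinAt
      rw [tendsto_iff_dist_tendsto_zero]
      have h1 := (tend h ht.1).mono_left (nhdsWithin_mono t (inter_subset_left (s := I) (t := Ici s)))
      have h2 := (ENNReal.tendsto_toReal ENNReal.zero_ne_top).comp h1
      rw [ENNReal.toReal_zero] at h2
      refine h2.congr' ?_
      filter_upwards [self_mem_nhdsWithin] with t' ht'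
      rw [Function.comp_apply, Real.dist_eq]
      rcases le_total t t' with h3 | h3
      · rw [uIcc_of_le h3, SN_add k s t t' ht.2 h3, ENNReal.toReal_add (hfin s hs t ht.1)
          (hfin t ht.1 t' ht'.1), add_sub_cancel_left, abs_of_nonneg ENNReal.toReal_nonneg]
      · rw [uIcc_of_ge h3, SN_add k s t' t ht'.2 h3, ENNReal.toReal_add (hfin s hs t' ht'.1)
          (hfin t' ht'.1 t ht.1), abs_sub_comm, add_sub_cancel_left,
          abs_of_nonneg ENNReal.toReal_nonneg]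
    · intro t ht
      unfold ContinuousWithinAt
      rw [tendsto_iff_dist_tendsto_zero]
      have h1 := (tend h ht.1).mono_left (nhdsWithin_mono t (inter_subset_left (s := I) (t := Iic s)))
      have h2 := (ENNReal.tendsto_toReal ENNReal.zero_ne_top).comp h1
      rw [ENNReal.toReal_zero] at h2
      refine h2.congr' ?_
      filter_upwards [self_mem_nhdsWithin] with t' ht'
      rw [Function.comp_apply, Real.dist_eq]
      rcases le_total t t' with h3 | h3
      · rw [uIcc_of_le h3, SN_add k t t' s h3 ht'.2, ENNReal.toReal_add (hfin t ht.1 t' ht'.1)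
          (hfin t' ht'.1 s hs), abs_sub_comm, add_sub_cancel_right,
          abs_of_nonneg ENNReal.toReal_nonneg]
      · rw [uIcc_of_ge h3, SN_add k t' t s h3 ht.2, ENNReal.toReal_add (hfin t' ht'.1 t ht.1)
          (hfin t ht.1 s hs), add_sub_cancel_right, abs_of_nonneg ENNReal.toReal_nonneg]
  · intro I k s h hs h0 t ht
    exact hU I I k (fun _ => 0) s h (zero_sol hL hN h.1) hs hs h0 t ht ht

end Pool.Agent.QWE
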