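import Pool.Agent.QWE.StA
import Pool.Agent.QWE.StB

/-!
# QWE / SNt: triangle inequality and sign invariance of the Strichartz norm (helper82)
-/

set_option autoImplicit false

open MeasureTheory Filter Topology Set
open scoped ENNReal NNReal

namespace Pool.Agent.QWE

namespace SNtx

private lemma U_add (hL : St_Lin) (k k' : K) : U (k + k') =ᵐ[volume] U k + U k' := by
  have h := (hL.1 1 k k').1
  rw [one_smul] at h
  filter_upwards [h] with x hx
  rw [hx, Pi.add_apply, one_mul]

private lemma U_zero (hL : St_Lin) : U 0 =ᵐ[volume] (0 : E → ℝ) := by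
  have h := U_add hL 0 0
  rw [add_zero] at h
  filter_upwards [h] with x hx
  rw [Pi.add_apply] at hx
  rw [Pi.zero_apply]
  linarith

private lemma U_neg (hL : St_Lin) (k : K) : U (-k) =ᵐ[volume] -U k := by
  have h := (hL.1 (-1) 0 k).1
  rw [neg_one_smul, zero_add] at h
  filter_upwards [h, U_zero hL] with x hx h0
  rw [hx, h0, Pi.neg_apply, Pi.zero_apply]
  ring

private lemma sn_neg (hL : St_Lin) (k : K) : sn (-k) = sn k := by
  unfold sn
  rw [eLpNorm_congr_ae (U_neg hL k), eLpNorm_neg]

private lemma sn_add (hL : St_Lin) (hF : ∀ k : K, AEStronglyMeasurable (U k) volume) (k k' : K) :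
    sn (k + k') ≤ sn k + sn k' := by
  unfold sn
  rw [eLpNorm_congr_ae (U_add hL k k')]
  exact eLpNorm_add_le (hF k) (hF k') (by norm_num)

private lemma sn_meas (hM : St_Meas) (k : ℝ → K) (J : Set ℝ) (hJ : MeasurableSet J)
    (hk : AEStronglyMeasurable k (volume.restrict J)) :
    AEMeasurable (fun t => sn (k t)) (volume.restrict J) := by
  have h := (hM k J hJ hk).1 20 univ (by norm_num) MeasurableSet.univ
  simp only [indicator_univ] at h
  exact h

end SNtx

open SNtx in
theorem thm_SNt (hF : St_Fld) (hL : St_Lin) (hM : St_Meas) : St_SNt := by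
  intro k k' J hJ hk hk'
  obtain ⟨C, -, hC⟩ := hF
  have hFm : ∀ k : K, AEStronglyMeasurable (U k) volume := fun k => (hC k).1.1.1
  constructor
  · have hm := sn_meas hM k J hJ hk
    have hm' := sn_meas hM k' J hJ hk'
    have h1 : SN J (fun t => k t + k' t) ≤ ∫⁻ t in J, (sn (k t) + sn (k' t)) ^ 4 := by
      unfold SN
      refine lintegral_mono fun t => ?_
      exact pow_le_pow_left₀ zero_le (sn_add hL hFm (k t) (k' t)) 4
    have h2 := ENNReal.lintegral_Lp_add_le (μ := volume.restrict J) (p := 4) hm hm' (by norm_num)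
    have e : ∀ x : ℝ≥0∞, x ^ (4 : ℝ) = x ^ (4 : ℕ) := fun x => by
      rw [show (4 : ℝ) = ((4 : ℕ) : ℝ) by norm_num, ENNReal.rpow_natCast]
    simp only [Pi.add_apply, e] at h2
    refine le_trans (ENNReal.rpow_le_rpow h1 (by norm_num)) ?_
    exact h2
  · unfold SN
    simp only [sn_neg hL]

end Pool.Agent.QWE
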