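import Pool.Agent.QWE.StG

set_option autoImplicit false

/-!
# QWE, ScM: rescaled solutions
-/

open MeasureTheory Filter Topology Set
open scoped ENNReal NNReal RealInnerProductSpace

namespace Pool.Agent.QWE

namespace ScMx

lemma set_eq (I : Set ℝ) (t0 b : ℝ) :
    {t : ℝ | Real.exp (-b) * t ∈ {s : ℝ | s + t0 ∈ I}} = {t | t0 + t * Real.exp (-b) ∈ I} := by
  ext t
  change Real.exp (-b) * t + t0 ∈ I ↔ t0 + t * Real.exp (-b) ∈ I
  rw [mul_comm, add_comm]

lemma resc_eq (k : ℝ → K) (t0 : ℝ) (y : E) (b : ℝ) : resc k t0 y b =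
    fun t => sh (-(Real.exp b • y)) (dl (-b) (k (Real.exp (-b) * t + t0))) := by
  funext t
  rw [mul_comm, add_comm]
  rfl

lemma sol (hS : St_Sym) {I : Set ℝ} {k : ℝ → K} (h : IsSol I k) (t0 : ℝ) (y : E) (b : ℝ) :
    IsSol {t | t0 + t * Real.exp (-b) ∈ I} (resc k t0 y b) := by
  have h7 := hS.2.2.2.2.2.2.1
  have h1 := (h7 I k h).1 t0
  have h2 := (h7 _ _ h1).2.2.1 (-b)
  have h3 := (h7 _ _ h2).2.1 (-(Real.exp b • y))
  rw [set_eq] at h3
  rw [resc_eq]
  exact h3

lemma max (hS : St_Sym) (hG : St_GrA) {I : Set ℝ} {k : ℝ → K} (h : IsMax I k) (t0 : ℝ) (y : E)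
    (b : ℝ) : IsMax {t | t0 + t * Real.exp (-b) ∈ I} (resc k t0 y b) := by
  have hexp : Real.exp b * Real.exp (-b) = 1 := by
    rw [← Real.exp_add, add_neg_cancel, Real.exp_zero]
  refine ⟨sol hS h.1 t0 y b, ?_, ?_, ?_⟩
  · exact h.2.1.preimage (f := fun t : ℝ => t0 + t * Real.exp (-b)) (by fun_prop)
  · obtain ⟨x, hx⟩ := h.2.2.1
    refine ⟨(x - t0) * Real.exp b, ?_⟩
    change t0 + (x - t0) * Real.exp b * Real.exp (-b) ∈ I
    rw [mul_assoc, hexp, mul_one, add_sub_cancel]
    exact hx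
  · intro J k' hJ hIJ hk
    have h1 := sol hS hJ (-(t0 * Real.exp b)) (-(Real.exp b • y)) (-b)
    rw [neg_neg] at h1
    have h2 : I ⊆ {t | -(t0 * Real.exp b) + t * Real.exp b ∈ J} := by
      intro t ht
      refine hIJ ?_
      change t0 + (-(t0 * Real.exp b) + t * Real.exp b) * Real.exp (-b) ∈ I
      have e : t0 + (-(t0 * Real.exp b) + t * Real.exp b) * Real.exp (-b) =
          t0 + (t - t0) * (Real.exp b * Real.exp (-b)) := by ring
      rw [e, hexp, mul_one, add_sub_cancel]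
      exact ht
    have h3 := h.2.2.2 _ _ h1 h2 (by
      intro t ht
      have e : t0 + (-(t0 * Real.exp b) + t * Real.exp b) * Real.exp (-b) = t := by
        have e' : t0 + (-(t0 * Real.exp b) + t * Real.exp b) * Real.exp (-b) =
            t0 + (t - t0) * (Real.exp b * Real.exp (-b)) := by ring
        rw [e', hexp, mul_one, add_sub_cancel]
      have hs : -(t0 * Real.exp b) + t * Real.exp b ∈ {t | t0 + t * Real.exp (-b) ∈ I} := by
        change t0 + (-(t0 * Real.exp b) + t * Real.exp b) * Real.exp (-b) ∈ I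
        rw [e]
        exact ht
      have e2 : ∀ w : K, ig (-(Real.exp b • y)) (-b) w = gr y b w := by
        intro w
        unfold ig
        rw [smul_neg, neg_neg, smul_smul, mul_comm (Real.exp (-b)), hexp, one_smul, neg_neg]
      unfold resc
      rw [neg_neg, hk _ hs, e2]
      unfold resc
      rw [e]
      exact (hG.2.2.1 y b (k t)).1)
    intro s hs
    refine h3 ?_
    change -(t0 * Real.exp b) + (t0 + s * Real.exp (-b)) * Real.exp b ∈ J
    have e : -(t0 * Real.exp b) + (t0 + s * Real.exp (-b)) * Real.exp b =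
        s * (Real.exp b * Real.exp (-b)) := by ring
    rw [e, hexp, mul_one]
    exact hs

end ScMx

open ScMx

theorem thm_ScM (hS : St_Sym) (hG : St_GrA) : St_ScM := by
  intro I k t0 y b
  refine ⟨fun h => sol hS h t0 y b, fun h => ScMx.max hS hG h t0 y b, ?_, ?_⟩
  · intro hI
    have h8 := hS.2.2.2.2.2.2.2
    have m1 : MeasurableSet {s : ℝ | s + t0 ∈ I} := (measurable_add_const t0) hI
    have m2 : MeasurableSet {t : ℝ | Real.exp (-b) * t ∈ {s : ℝ | s + t0 ∈ I}} :=
      (measurable_const_mul (Real.exp (-b))) m1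
    have h1 := (h8 I k hI).1 t0
    have h2 := (h8 _ (fun t => k (t + t0)) m1).2.2.1 (-b)
    have h3 := (h8 _ (fun t => dl (-b) (k (Real.exp (-b) * t + t0))) m2).2.1 (-(Real.exp b • y))
    rw [← set_eq, resc_eq, h3, h2, h1]
  · intro t
    exact (hG.2.2.2.1 y b _).2

end Pool.Agent.QWE
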