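import Pool.Agent.QWE.StA

/-!
# QWE, module Sob: Sobolev inequalities for test functions on `ℝ⁵`
-/

set_option autoImplicit false

open MeasureTheory Filter Topology Set
open scoped ENNReal NNReal RealInnerProductSpace ContDiff Pointwise

namespace Pool.Agent.QWE

namespace Sobx

/-! ### test functions -/

private lemma test_pd (i : Fin 5) {φ : E → ℝ} (h : IsTest φ) : IsTest (pd i φ) := by
  refine ⟨?_, h.2.fderiv_apply ℝ _⟩
  exact (h.1.fderiv_right (m := ∞) (by simp)).clm_apply contDiff_const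

private lemma int_mul {f g : E → ℝ} (hf : IsTest f) (hg : IsTest g) :
    Integrable (fun x => f x * g x) volume :=
  (hf.1.continuous.mul hg.1.continuous).integrable_of_hasCompactSupport hf.2.mul_right

private lemma test_diff {f : E → ℝ} (hf : IsTest f) : Differentiable ℝ f :=
  hf.1.differentiable (by simp)

/-- integration by parts -/
private lemma ibp (i : Fin 5) {f g : E → ℝ} (hf : IsTest f) (hg : IsTest g) :
    ∫ x, f x * pd i g x = - ∫ x, pd i f x * g x :=
  integral_mul_fderiv_eq_neg_fderiv_mul_of_integrable (int_mul (test_pd i hf) hg)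
    (int_mul hf (test_pd i hg)) (int_mul hf hg) (fun x _ => test_diff hf x)
    (fun x _ => test_diff hg x)

/-- second derivatives commute -/
private lemma pd_comm (i j : Fin 5) {f : E → ℝ} (hf : IsTest f) : pd i (pd j f) = pd j (pd i f) := by
  have key : ∀ (i j : Fin 5) (x : E), pd i (pd j f) x =
      fderiv ℝ (fderiv ℝ f) x (EuclideanSpace.single i 1) (EuclideanSpace.single j 1) := by
    intro i j x
    have hd : DifferentiableAt ℝ (fderiv ℝ f) x :=
      ((hf.1.fderiv_right (m := ∞) (by simp)).differentiable (by simp)) x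
    change fderiv ℝ (fun y => fderiv ℝ f y (EuclideanSpace.single j (1 : ℝ))) x
      (EuclideanSpace.single i (1 : ℝ)) = _
    rw [fderiv_clm_apply hd (differentiableAt_const _)]
    simp
  have hs : ∀ x, IsSymmSndFDerivAt ℝ f x := fun x =>
    (hf.1.contDiffAt (x := x)).isSymmSndFDerivAt (by simp; exact WithTop.coe_le_coe.2 le_top)
  funext x
  rw [key i j x, key j i x]
  exact (hs x).eq _ _

private lemma int_sq (i j : Fin 5) {f : E → ℝ} (hf : IsTest f) :
    ∫ x, pd j (pd i f) x * pd j (pd i f) x = ∫ x, pd i (pd i f) x * pd j (pd j f) x := by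
  have hi := test_pd i hf
  have hj := test_pd j hf
  rw [ibp j (test_pd j hi) hi]
  have e1 : ∫ x, pd i (pd i f) x * pd j (pd j f) x = - ∫ x, pd i f x * pd i (pd j (pd j f)) x := by
    rw [ibp i hi (test_pd j hj), neg_neg]
  have e2 : pd j (pd j (pd i f)) = pd i (pd j (pd j f)) := by
    rw [pd_comm j i hf, pd_comm j i hj]
  rw [e1, e2]
  congr 1
  refine integral_congr_ae (Eventually.of_forall fun x => ?_)
  exact mul_comm _ _

private lemma int_lap {f : E → ℝ} (hf : IsTest f) :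
    ∫ x, lap f x * lap f x = ∑ i, ∑ j, ∫ x, pd j (pd i f) x * pd j (pd i f) x := by
  have h1 : ∀ x, lap f x * lap f x = ∑ i, ∑ j, pd i (pd i f) x * pd j (pd j f) x := by
    intro x
    rw [lap, Finset.sum_mul_sum]
  have h2 : ∀ i j, Integrable (fun x => pd i (pd i f) x * pd j (pd j f) x) volume := fun i j =>
    int_mul (test_pd i (test_pd i hf)) (test_pd j (test_pd j hf))
  rw [integral_congr_ae (Eventually.of_forall h1),
    integral_finsetSum _ fun i _ => integrable_finsetSum _ fun j _ => h2 i j]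
  refine Finset.sum_congr rfl fun i _ => ?_
  rw [integral_finsetSum _ fun j _ => h2 i j]
  exact Finset.sum_congr rfl fun j _ => (int_sq i j hf).symm

private lemma l2_le {f g : E → ℝ} (hf : Continuous f) (hg : Continuous g) (hfs : HasCompactSupport f)
    (hgs : HasCompactSupport g) (h : ∫ x, f x * f x ≤ ∫ x, g x * g x) :
    eLpNorm f 2 volume ≤ eLpNorm g 2 volume := by
  have mf : MemLp f 2 volume := hf.memLp_of_hasCompactSupport hfs
  have mg : MemLp g 2 volume := hg.memLp_of_hasCompactSupport hgs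
  rw [mf.eLpNorm_eq_integral_rpow_norm two_ne_zero ENNReal.ofNat_ne_top,
    mg.eLpNorm_eq_integral_rpow_norm two_ne_zero ENNReal.ofNat_ne_top]
  have e : ∀ u : E → ℝ, ∫ x, ‖u x‖ ^ (2 : ℝ≥0∞).toReal = ∫ x, u x * u x := by
    intro u
    refine integral_congr_ae (Eventually.of_forall fun x => ?_)
    change ‖u x‖ ^ (2 : ℝ≥0∞).toReal = u x * u x
    rw [ENNReal.toReal_ofNat, Real.rpow_ofNat, Real.norm_eq_abs, sq_abs, sq]
  rw [e, e]
  apply ENNReal.ofReal_le_ofReal
  exact Real.rpow_le_rpow (integral_nonneg fun x => mul_self_nonneg _) h (by positivity)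

private lemma lap_test {f : E → ℝ} (hf : IsTest f) : IsTest (lap f) := by
  refine ⟨ContDiff.sum fun i _ => (test_pd i (test_pd i hf)).1,
    HasCompactSupport.intro hf.2 fun x hx => Finset.sum_eq_zero fun i _ => ?_⟩
  exact image_eq_zero_of_notMem_tsupport fun h2 => hx
    (tsupport_fderiv_apply_subset ℝ _ (tsupport_fderiv_apply_subset ℝ _ h2))

private lemma d2_le {f : E → ℝ} (hf : IsTest f) (i j : Fin 5) :
    eLpNorm (pd j (pd i f)) 2 volume ≤ eLpNorm (lap f) 2 volume := by
  have ht := test_pd j (test_pd i hf)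
  have hl := lap_test hf
  refine l2_le ht.1.continuous hl.1.continuous ht.2 hl.2 ?_
  rw [int_lap hf]
  have h0 : ∀ i j, 0 ≤ ∫ x, pd j (pd i f) x * pd j (pd i f) x := fun i j =>
    integral_nonneg fun x => mul_self_nonneg _
  calc ∫ x, pd j (pd i f) x * pd j (pd i f) x
      ≤ ∑ j, ∫ x, pd j (pd i f) x * pd j (pd i f) x :=
        Finset.single_le_sum (f := fun j => ∫ x, pd j (pd i f) x * pd j (pd i f) x)
          (fun j _ => h0 i j) (Finset.mem_univ j)
    _ ≤ ∑ i, ∑ j, ∫ x, pd j (pd i f) x * pd j (pd i f) x :=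
        Finset.single_le_sum (f := fun i => ∑ j, ∫ x, pd j (pd i f) x * pd j (pd i f) x)
          (fun i _ => Finset.sum_nonneg fun j _ => h0 i j) (Finset.mem_univ i)

/-! ### the gradient -/

private lemma fderiv_le (f : E → ℝ) (x : E) : ‖fderiv ℝ f x‖ ≤ ∑ i, ‖pd i f x‖ := by
  refine ContinuousLinearMap.opNorm_le_bound _ (Finset.sum_nonneg fun i _ => norm_nonneg _) ?_
  intro v
  have h1 : v = ∑ i, v i • EuclideanSpace.single i (1 : ℝ) := by
    ext j
    simp [Pi.single_apply]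
  calc ‖fderiv ℝ f x v‖ = ‖∑ i, v i * pd i f x‖ := by
        conv_lhs => rw [h1]
        rw [map_sum]
        congr 1
        refine Finset.sum_congr rfl fun i _ => ?_
        rw [map_smul, smul_eq_mul]
        rfl
    _ ≤ ∑ i, ‖v i * pd i f x‖ := norm_sum_le _ _
    _ ≤ ∑ i, ‖pd i f x‖ * ‖v‖ := by
        refine Finset.sum_le_sum fun i _ => ?_
        rw [norm_mul, mul_comm]
        exact mul_le_mul_of_nonneg_left (PiLp.norm_apply_le v i) (norm_nonneg _)
    _ = (∑ i, ‖pd i f x‖) * ‖v‖ := by rw [Finset.sum_mul]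

private lemma grad_le {f : E → ℝ} (hf : IsTest f) (p : ℝ≥0∞) (hp : 1 ≤ p) :
    eLpNorm (fderiv ℝ f) p volume ≤ ∑ i, eLpNorm (pd i f) p volume := by
  calc eLpNorm (fderiv ℝ f) p volume ≤ eLpNorm (∑ i, fun x => ‖pd i f x‖) p volume := by
        refine eLpNorm_mono fun x => ?_
        rw [Finset.sum_apply, Real.norm_of_nonneg (Finset.sum_nonneg fun i _ => norm_nonneg _)]
        exact fderiv_le f x
    _ ≤ ∑ i, eLpNorm (fun x => ‖pd i f x‖) p volume :=
        eLpNorm_sum_le (fun i _ => (test_pd i hf).1.continuous.norm.aestronglyMeasurable) hp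
    _ = ∑ i, eLpNorm (pd i f) p volume := by
        refine Finset.sum_congr rfl fun i _ => ?_
        exact eLpNorm_norm _

/-! ### Gagliardo-Nirenberg-Sobolev -/

private lemma gns1 : ∃ C : ℝ≥0, ∀ f : E → ℝ, IsTest f →
    eLpNorm f (10 / 3) volume ≤ C * ∑ i, eLpNorm (pd i f) 2 volume := by
  refine ⟨SNormLESNormFDerivOfEqConst ℝ (volume : Measure E) ((2 : ℝ≥0) : ℝ), fun f hf => ?_⟩
  have h := eLpNorm_le_eLpNorm_fderiv_of_eq (volume : Measure E) (u := f) (p := 2) (p' := 10 / 3)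
    (hf.1.of_le (by simp)) hf.2 (by norm_num) (by simp) (by simp; norm_num)
  have e : (((10 / 3 : ℝ≥0) : ℝ≥0∞)) = 10 / 3 := by
    rw [ENNReal.coe_div (by norm_num)]
    simp
  rw [e] at h
  refine h.trans ?_
  have := grad_le hf ((2 : ℝ≥0) : ℝ≥0∞) (by norm_num)
  gcongr
  exact this

private lemma gns2 : ∃ C : ℝ≥0, ∀ f : E → ℝ, IsTest f →
    eLpNorm f 10 volume ≤ C * ∑ i, eLpNorm (pd i f) (10 / 3) volume := by
  refine ⟨SNormLESNormFDerivOfEqConst ℝ (volume : Measure E) ((10 / 3 : ℝ≥0) : ℝ), fun f hf => ?_⟩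
  have h := eLpNorm_le_eLpNorm_fderiv_of_eq (volume : Measure E) (u := f) (p := 10 / 3) (p' := 10)
    (hf.1.of_le (by simp)) hf.2 (by rw [le_div_iff₀ (by norm_num)]; norm_num) (by simp)
    (by simp; norm_num)
  have e : (((10 / 3 : ℝ≥0) : ℝ≥0∞)) = 10 / 3 := by
    rw [ENNReal.coe_div (by norm_num)]
    simp
  rw [e] at h
  refine h.trans ?_
  have := grad_le hf (10 / 3) (by rw [ENNReal.le_div_iff_mul_le (by simp) (by simp)]; norm_num)
  gcongr

end Sobx

open Sobx

theorem thm_Sob : St_Sob := by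
  obtain ⟨C1, h1⟩ := gns1
  obtain ⟨C2, h2⟩ := gns2
  have key : ∀ f : E → ℝ, IsTest f →
      ∀ i j, eLpNorm (pd j (pd i f)) 2 volume ≤ eLpNorm (lap f) 2 volume := fun f hf i j => d2_le hf i j
  have hb : ∀ f : E → ℝ, IsTest f → ∀ i, eLpNorm (pd i f) (10 / 3) volume ≤
      ((C1 * 5 : ℝ≥0) : ℝ≥0∞) * eLpNorm (lap f) 2 volume := by
    intro f hf i
    calc eLpNorm (pd i f) (10 / 3) volume ≤ C1 * ∑ j, eLpNorm (pd j (pd i f)) 2 volume :=
          h1 _ (test_pd i hf)
      _ ≤ C1 * ∑ _j : Fin 5, eLpNorm (lap f) 2 volume := by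
          gcongr with j
          exact key f hf i j
      _ = _ := by
          rw [Finset.sum_const, Finset.card_univ, Fintype.card_fin, nsmul_eq_mul, ← mul_assoc]
          push_cast
          rfl
  have ha : ∀ f : E → ℝ, IsTest f → eLpNorm f 10 volume ≤
      ((C2 * 5 * (C1 * 5) : ℝ≥0) : ℝ≥0∞) * eLpNorm (lap f) 2 volume := by
    intro f hf
    calc eLpNorm f 10 volume ≤ C2 * ∑ i, eLpNorm (pd i f) (10 / 3) volume := h2 f hf
      _ ≤ C2 * ∑ _i : Fin 5, ((C1 * 5 : ℝ≥0) : ℝ≥0∞) * eLpNorm (lap f) 2 volume := by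
          gcongr with i
          exact hb f hf i
      _ = _ := by
          rw [Finset.sum_const, Finset.card_univ, Fintype.card_fin, nsmul_eq_mul, ← mul_assoc,
            ← mul_assoc]
          push_cast
          rfl
  let C : ℝ≥0 := C2 * 5 * (C1 * 5) + C1 * 5 + C1 + 1
  have hC : ENNReal.ofReal (C : ℝ) = (C : ℝ≥0∞) := ENNReal.ofReal_coe_nnreal
  refine ⟨(C : ℝ), ?_, fun f hf => ⟨?_, ?_, ?_, ?_⟩⟩
  · have : (0 : ℝ≥0) < C := by positivity
    exact_mod_cast this
  · rw [hC]
    refine (ha f hf).trans ?_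
    gcongr
    calc C2 * 5 * (C1 * 5) ≤ C2 * 5 * (C1 * 5) + (C1 * 5 + C1 + 1) := le_self_add
      _ = C := by ring
  · intro i
    rw [hC]
    refine (hb f hf i).trans ?_
    gcongr
    calc C1 * 5 ≤ C1 * 5 + (C2 * 5 * (C1 * 5) + C1 + 1) := le_self_add
      _ = C := by ring
  · exact key f hf
  · rw [hC]
    refine (h1 f hf).trans ?_
    gcongr
    calc C1 ≤ C1 + (C2 * 5 * (C1 * 5) + C1 * 5 + 1) := le_self_add
      _ = C := by ring

end Pool.Agent.QWE
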