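import Pool.Agent.QWE.StA

set_option autoImplicit false

/-!
# QWE: properties of the dual Radon transform of the shifted Radon transform (`St_Sph`)
-/

open MeasureTheory Filter Topology Set
open scoped ENNReal NNReal RealInnerProductSpace Pointwise ContDiff

namespace Pool.Agent.QWE.Sphx

/-! ### Parametric integrals over the sphere -/

/-- Weighted dual transform of `h`, shifted by `t`. -/
private noncomputable def G (a : S → ℝ) (h : S × ℝ → ℝ) (q : ℝ × E) : ℝ :=
  ∫ w : S, a w * h (w, inner ℝ q.2 (w : E) - q.1) ∂sg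

/-- The linear form `(s, v) ↦ ⟪v, w⟫ - s`. -/
private noncomputable def L (w : S) : ℝ × E →L[ℝ] ℝ :=
  (innerSL ℝ (w : E)).comp (ContinuousLinearMap.snd ℝ ℝ E) - ContinuousLinearMap.fst ℝ ℝ E

private lemma L_apply (w : S) (v : ℝ × E) : L w v = inner ℝ v.2 (w : E) - v.1 := by
  simp [L, real_inner_comm]

private lemma cont_L : Continuous L := by
  unfold L
  fun_prop

private lemma cont_arg : Continuous fun z : (ℝ × E) × S => (z.2, inner ℝ z.1.2 (z.2 : E) - z.1.1) := by
  fun_prop

private lemma hasFDerivAt_G {a : S → ℝ} (ha : Continuous a) {h h' : S × ℝ → ℝ} (hh : Continuous h)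
    (hh' : Continuous h') (hd : ∀ w p, HasDerivAt (fun p => h (w, p)) (h' (w, p)) p) (q : ℝ × E) :
    HasFDerivAt (G a h) (∫ w : S, (a w * h' (w, inner ℝ q.2 (w : E) - q.1)) • L w ∂sg) q := by
  have hc : Continuous (fun z : (ℝ × E) × S =>
      (a z.2 * h' (z.2, inner ℝ z.1.2 (z.2 : E) - z.1.1)) • L z.2) := by
    refine Continuous.smul (Continuous.mul (ha.comp continuous_snd) ?_) (cont_L.comp continuous_snd)
    exact hh'.comp cont_arg
  have hK : IsCompact (Metric.closedBall q 1 ×ˢ (univ : Set S)) :=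
    (isCompact_closedBall q 1).prod isCompact_univ
  obtain ⟨C, hC⟩ := hK.exists_bound_of_continuousOn hc.continuousOn
  have hq : ∀ q : ℝ × E, Continuous fun w : S => (q, w) := fun q => by fun_prop
  have hc0 : Continuous (fun z : (ℝ × E) × S =>
      (a z.2 * h (z.2, inner ℝ z.1.2 (z.2 : E) - z.1.1))) := by
    refine (Continuous.mul (ha.comp continuous_snd) ?_)
    exact hh.comp cont_arg
  refine hasFDerivAt_integral_of_dominated_of_fderiv_le
    (F := fun q w => a w * h (w, inner ℝ q.2 (w : E) - q.1))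
    (F' := fun (q : ℝ × E) (w : S) => (a w * h' (w, inner ℝ q.2 (w : E) - q.1)) • L w)
    (bound := fun _ => C) (Metric.ball_mem_nhds q one_pos) ?_ ?_ ?_ ?_ ?_ ?_
  · exact Eventually.of_forall fun x => (hc0.comp (hq x)).aestronglyMeasurable
  · exact (hc0.comp (hq q)).integrable_of_hasCompactSupport (HasCompactSupport.of_compactSpace _)
  · exact (hc.comp (hq q)).aestronglyMeasurable
  · refine Eventually.of_forall fun w x hx => ?_
    exact hC (x, w) ⟨Metric.ball_subset_closedBall hx, mem_univ _⟩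
  · exact integrable_const _
  · refine Eventually.of_forall fun w x hx => ?_
    have h1 : HasFDerivAt (fun q : ℝ × E => inner ℝ q.2 (w : E) - q.1) (L w) x := by
      have h2 : (fun q : ℝ × E => inner ℝ q.2 (w : E) - q.1) = fun q => L w q := by
        funext q; rw [L_apply]
      rw [h2]
      exact (L w).hasFDerivAt
    have h3 := (hd w (inner ℝ x.2 (w : E) - x.1)).comp_hasFDerivAt x h1
    have h4 := h3.const_mul (a w)
    rw [mul_smul]
    exact h4

/-- A sequence of continuous functions on `S × ℝ`, each the `p`-derivative of the preceding one. -/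
private structure Good (h : ℕ → S × ℝ → ℝ) : Prop where
  cont : ∀ n, Continuous (h n)
  der : ∀ (n : ℕ) (w : S) (p : ℝ), HasDerivAt (fun p => h n (w, p)) (h (n + 1) (w, p)) p

private lemma fderiv_G {a : S → ℝ} (ha : Continuous a) {h : ℕ → S × ℝ → ℝ} (hg : Good h) (n : ℕ)
    (q v : ℝ × E) : fderiv ℝ (G a (h n)) q v = G (fun w => a w * L w v) (h (n + 1)) q := by
  rw [(hasFDerivAt_G ha (hg.cont n) (hg.cont (n + 1)) (hg.der n) q).fderiv]
  rw [ContinuousLinearMap.integral_apply]
  · unfold G
    refine integral_congr_ae (Eventually.of_forall fun w => ?_)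
    simp only [_root_.smul_apply, smul_eq_mul]
    ring
  · refine Continuous.integrable_of_hasCompactSupport ?_ (HasCompactSupport.of_compactSpace _)
    refine Continuous.smul (ha.mul ?_) cont_L
    exact (hg.cont (n + 1)).comp (by fun_prop)

private lemma contDiff_G {h : ℕ → S × ℝ → ℝ} (hg : Good h) (m : ℕ) :
    ∀ (a : S → ℝ), Continuous a → ∀ n, ContDiff ℝ m (G a (h n)) := by
  induction m with
  | zero =>
    intro a ha n
    rw [show ((0 : ℕ) : WithTop ℕ∞) = 0 from rfl, contDiff_zero]
    exact continuous_iff_continuousAt.2 fun q =>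
      (hasFDerivAt_G ha (hg.cont n) (hg.cont (n + 1)) (hg.der n) q).continuousAt
  | succ m ih =>
    intro a ha n
    rw [show ((m + 1 : ℕ) : WithTop ℕ∞) = (m : WithTop ℕ∞) + 1 from rfl, contDiff_succ_iff_fderiv]
    refine ⟨fun q => (hasFDerivAt_G ha (hg.cont n) (hg.cont (n + 1)) (hg.der n) q).differentiableAt,
      fun hm => ?_, ?_⟩
    · exact absurd hm (by simp)
    · rw [contDiff_clm_apply_iff]
      intro v
      have h1 : (fun q => fderiv ℝ (G a (h n)) q v) = G (fun w => a w * L w v) (h (n + 1)) := by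
        funext q
        exact fderiv_G ha hg n q v
      rw [h1]
      refine ih _ (ha.mul ?_) _
      exact (ContinuousLinearMap.apply ℝ ℝ v).continuous.comp cont_L

private lemma contDiff_top_G {h : ℕ → S × ℝ → ℝ} (hg : Good h) {a : S → ℝ} (ha : Continuous a)
    (n : ℕ) : ContDiff ℝ ∞ (G a (h n)) := by
  rw [contDiff_infty]
  exact fun m => contDiff_G hg m a ha n

/-- The time derivative. -/
private lemma deriv_t_G {h : ℕ → S × ℝ → ℝ} (hg : Good h) {a : S → ℝ} (ha : Continuous a)
    (n : ℕ) (t : ℝ) (x : E) :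
    HasDerivAt (fun s => G a (h n) (s, x)) (- G a (h (n + 1)) (t, x)) t := by
  have h1 := hasFDerivAt_G ha (hg.cont n) (hg.cont (n + 1)) (hg.der n) (t, x)
  have h2 : HasDerivAt (fun s : ℝ => (s, x)) ((1 : ℝ), (0 : E)) t :=
    (hasDerivAt_id t).prodMk (hasDerivAt_const t x)
  have h3 := h1.comp_hasDerivAt t h2
  have h4 : (∫ w : S, (a w * h (n + 1) (w, inner ℝ x (w : E) - t)) • L w ∂sg) ((1 : ℝ), (0 : E)) =
      - G a (h (n + 1)) (t, x) := by
    have h5 := fderiv_G ha hg n (t, x) ((1 : ℝ), (0 : E))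
    rw [h1.fderiv] at h5
    rw [h5]
    unfold G
    rw [← integral_neg]
    refine integral_congr_ae (Eventually.of_forall fun w => ?_)
    simp only [L_apply, inner_zero_left]
    ring
  rw [← h4]
  exact h3

private lemma iter_t_G {h : ℕ → S × ℝ → ℝ} (hg : Good h) {a : S → ℝ} (ha : Continuous a) (x : E)
    (m : ℕ) : ∀ n, iteratedDeriv m (fun s => G a (h n) (s, x)) =
      fun t => (-1) ^ m * G a (h (n + m)) (t, x) := by
  induction m with
  | zero => intro n; simp
  | succ m ih =>
    intro n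
    rw [iteratedDeriv_succ, ih n]
    funext t
    have := (deriv_t_G hg ha (n + m) t x).const_mul ((-1 : ℝ) ^ m)
    rw [this.deriv, pow_succ]
    rw [show n + (m + 1) = n + m + 1 from rfl]
    ring

private lemma pd_G {h : ℕ → S × ℝ → ℝ} (hg : Good h) {a : S → ℝ} (ha : Continuous a)
    (n : ℕ) (t : ℝ) (i : Fin 5) (x : E) :
    pd i (fun y => G a (h n) (t, y)) x = G (fun w => a w * (w : E) i) (h (n + 1)) (t, x) := by
  have h1 := hasFDerivAt_G ha (hg.cont n) (hg.cont (n + 1)) (hg.der n) (t, x)
  have h2 : HasFDerivAt (fun y : E => (t, y)) (ContinuousLinearMap.inr ℝ ℝ E) x :=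
    hasFDerivAt_prodMk_right t x
  have h3 := h1.comp x h2
  unfold pd
  have h3' : fderiv ℝ (fun y => G a (h n) (t, y)) x = _ := h3.fderiv
  rw [h3', ContinuousLinearMap.comp_apply, ContinuousLinearMap.inr_apply]
  have h5 := fderiv_G ha hg n (t, x) ((0 : ℝ), (EuclideanSpace.single i (1 : ℝ) : E))
  rw [h1.fderiv] at h5
  rw [h5]
  unfold G
  refine integral_congr_ae (Eventually.of_forall fun w => ?_)
  simp only [L_apply]
  have h6 : inner ℝ (EuclideanSpace.single i (1 : ℝ) : E) (w : E) = (w : E) i := by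
    simp [EuclideanSpace.inner_single_left]
  rw [h6, sub_zero]

private lemma lap_G {h : ℕ → S × ℝ → ℝ} (hg : Good h) (n : ℕ) (t : ℝ) (x : E) :
    lap (fun y => G (fun _ => 1) (h n) (t, y)) x = G (fun _ => 1) (h (n + 2)) (t, x) := by
  unfold lap
  have h1 : ∀ i : Fin 5, pd i (pd i fun y => G (fun _ => 1) (h n) (t, y)) x =
      G (fun w => (w : E) i * (w : E) i) (h (n + 2)) (t, x) := by
    intro i
    have h2 : (pd i fun y => G (fun _ => 1) (h n) (t, y)) =
        fun y => G (fun w : S => 1 * (w : E) i) (h (n + 1)) (t, y) := by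
      funext y
      exact pd_G hg continuous_const n t i y
    rw [h2, pd_G hg (by fun_prop) (n + 1) t i x]
    simp only [one_mul]
  rw [Finset.sum_congr rfl fun i _ => h1 i]
  unfold G
  rw [← integral_finsetSum]
  · refine integral_congr_ae (Eventually.of_forall fun w => ?_)
    simp only
    rw [← Finset.sum_mul]
    congr 1
    have h3 : ‖(w : E)‖ = 1 := by simp
    have h4 := EuclideanSpace.real_norm_sq_eq (w : E)
    rw [h3] at h4
    rw [one_pow] at h4
    rw [h4]
    refine Finset.sum_congr rfl fun i _ => ?_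
    ring
  · intro i _
    refine Continuous.integrable_of_hasCompactSupport ?_ (HasCompactSupport.of_compactSpace _)
    refine Continuous.mul (by fun_prop) ?_
    exact (hg.cont (n + 2)).comp (by fun_prop)

/-! ### Test functions -/

private lemma test_pd {f : E → ℝ} (hf : IsTest f) (i : Fin 5) : IsTest (pd i f) := by
  refine ⟨?_, ?_⟩
  · exact (hf.1.fderiv_right (m := ∞) (by simp)).clm_apply contDiff_const
  · exact hf.2.fderiv_apply ℝ _

private lemma test_lap {f : E → ℝ} (hf : IsTest f) : IsTest (lap f) := by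
  refine ⟨?_, ?_⟩
  · unfold lap
    exact ContDiff.sum fun i _ => (test_pd (test_pd hf i) i).1
  · have h1 : lap f = ∑ i, pd i (pd i f) := by
      funext x; simp [lap]
    rw [h1]
    have h2 : ∀ s : Finset (Fin 5), HasCompactSupport (∑ i ∈ s, pd i (pd i f)) := by
      intro s
      induction s using Finset.induction_on with
      | empty => simpa using (HasCompactSupport.zero : HasCompactSupport (0 : E → ℝ))
      | insert i s hi ih =>
        rw [Finset.sum_insert hi]
        exact (test_pd (test_pd hf i) i).2.add ih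
    exact h2 _

private lemma test_sch {f : E → ℝ} (hf : IsTest f) : IsSch f :=
  ⟨hf.2.toSchwartzMap hf.1, fun _ => rfl⟩

private lemma test_iter {f : E → ℝ} (hf : IsTest f) (j : ℕ) : IsTest (lap^[j] f) := by
  induction j with
  | zero => simpa using hf
  | succ j ih =>
    rw [Function.iterate_succ_apply']
    exact test_lap ih

/-- The sequence `Rad f, dRad f, Rad (lap f), dRad (lap f), ...`. -/
private noncomputable def H (f : E → ℝ) (n : ℕ) : S × ℝ → ℝ :=
  if n % 2 = 0 then Rad (lap^[n / 2] f) else dRad (lap^[n / 2] f)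

private lemma good_H (hRadT : St_RadT) {f : E → ℝ} (hf : IsTest f) : Good (H f) where
  cont n := by
    obtain ⟨h1, h2, -⟩ := hRadT _ (test_iter hf (n / 2))
    unfold H
    split_ifs
    · exact h1
    · exact h2
  der n w p := by
    obtain ⟨-, -, -, h1, -⟩ := hRadT _ (test_iter hf (n / 2))
    unfold H
    rcases Nat.even_or_odd' n with ⟨c, rfl | rfl⟩
    · have e1 : (2 * c) % 2 = 0 := by omega
      have e2 : (2 * c + 1) % 2 ≠ 0 := by omega
      have e3 : (2 * c + 1) / 2 = c := by omega
      have e4 : 2 * c / 2 = c := by omega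
      rw [e4] at h1
      simp only [e1, e2, if_true, if_false, e3, e4]
      exact (h1 w p).1
    · have e1 : (2 * c + 1) % 2 ≠ 0 := by omega
      have e2 : (2 * c + 1 + 1) % 2 = 0 := by omega
      have e3 : (2 * c + 1) / 2 = c := by omega
      have e4 : (2 * c + 1 + 1) / 2 = c + 1 := by omega
      rw [e3] at h1
      simp only [e1, e2, if_true, if_false, e3, e4, Function.iterate_succ_apply']
      exact (h1 w p).2

private lemma Sph_eq (f : E → ℝ) (t : ℝ) (x : E) : Sph f t x = G (fun _ => 1) (H f 0) (t, x) := by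
  unfold Sph G H
  simp

private lemma Sph_eq2 (f : E → ℝ) (t : ℝ) (x : E) :
    Sph (lap f) t x = G (fun _ => 1) (H f 2) (t, x) := by
  unfold Sph G H
  simp

private lemma Sph_eq4 (f : E → ℝ) (t : ℝ) (x : E) :
    Sph (lap (lap f)) t x = G (fun _ => 1) (H f 4) (t, x) := by
  unfold Sph G H
  simp [Function.iterate_succ_apply']

private lemma contDiff_Sph (hRadT : St_RadT) {f : E → ℝ} (hf : IsTest f) :
    ContDiff ℝ ∞ (fun q : ℝ × E => Sph f q.1 q.2) := by
  have h1 : (fun q : ℝ × E => Sph f q.1 q.2) = G (fun _ => 1) (H f 0) := by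
    funext q
    exact Sph_eq f q.1 q.2
  rw [h1]
  exact contDiff_top_G (good_H hRadT hf) continuous_const 0

private lemma iter_Sph (hRadT : St_RadT) {f : E → ℝ} (hf : IsTest f) (x : E) (m : ℕ) :
    iteratedDeriv m (fun s => Sph f s x) =
      fun t => (-1) ^ m * G (fun _ => 1) (H f m) (t, x) := by
  have h1 : (fun s => Sph f s x) = fun s => G (fun _ => 1) (H f 0) (s, x) := by
    funext s
    exact Sph_eq f s x
  rw [h1, iter_t_G (good_H hRadT hf) continuous_const x m 0, zero_add]

private lemma lap_Sph (hRadT : St_RadT) {f : E → ℝ} (hf : IsTest f) (t : ℝ) (x : E) :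
    lap (fun y => Sph f t y) x = Sph (lap f) t x := by
  have h1 : (fun y => Sph f t y) = fun y => G (fun _ => 1) (H f 0) (t, y) := by
    funext y
    exact Sph_eq f t y
  rw [h1, lap_G (good_H hRadT hf) 0 t x, Sph_eq2]

/-! ### The kernel -/

private lemma Kc_nonneg (t : ℝ) (z : E) : 0 ≤ Kc t z := by
  unfold Kc
  positivity

private lemma Kc_le (t : ℝ) (z : E) : Kc t z ≤ 2 * Real.pi ^ 2 * (‖z‖⁻¹) ^ 1 := by
  unfold Kc
  have h1 : max 0 (1 - t ^ 2 / ‖z‖ ^ 2) ≤ 1 := max_le zero_le_one (by
    have : 0 ≤ t ^ 2 / ‖z‖ ^ 2 := by positivity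
    linarith)
  calc 2 * Real.pi ^ 2 / ‖z‖ * max 0 (1 - t ^ 2 / ‖z‖ ^ 2) ≤ 2 * Real.pi ^ 2 / ‖z‖ * 1 := by gcongr
    _ = 2 * Real.pi ^ 2 * (‖z‖⁻¹) ^ 1 := by rw [mul_one, pow_one, div_eq_mul_inv]

private lemma Kc_neg (t : ℝ) (z : E) : Kc (-t) z = Kc t z := by
  unfold Kc
  rw [neg_sq]

private lemma Kc_meas1 (t : ℝ) (x : E) : Measurable fun y : E => Kc t (x - y) := by
  unfold Kc
  fun_prop

private lemma Kc_meas2 (x : E) : Measurable fun q : ℝ × E => Kc q.1 (x - q.2) := by
  unfold Kc
  fun_prop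

private lemma Kc_cont (z : E) : Continuous fun t => Kc t z := by
  unfold Kc
  fun_prop

private lemma map_zonal (hSL1 : St_SL1) {z : E} (hz : z ≠ 0) :
    sg.map (fun w : S => inner ℝ z (w : E)) =
      (volume : Measure ℝ).withDensity (fun p => ENNReal.ofReal (Kc p z)) := by
  have hm : Measurable fun p => ENNReal.ofReal (Kc p z) := (Kc_cont z).measurable.ennreal_ofReal
  have hz0 : 0 < ‖z‖ := norm_pos_iff.2 hz
  refine Measure.ext_of_lintegral _ fun g hg => ?_
  rw [lintegral_map hg (by fun_prop), hSL1 z hz g hg,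
    lintegral_withDensity_eq_lintegral_mul _ hm hg, ← lintegral_indicator measurableSet_Icc]
  refine lintegral_congr fun p => ?_
  simp only [Pi.mul_apply]
  by_cases hp : p ∈ Icc (-‖z‖) ‖z‖
  · rw [indicator_of_mem hp]
    have h1 : p ^ 2 ≤ ‖z‖ ^ 2 := sq_le_sq' hp.1 hp.2
    have h2 : 0 ≤ 1 - p ^ 2 / ‖z‖ ^ 2 := by
      rw [sub_nonneg, div_le_one (by positivity)]
      exact h1
    unfold Kc
    rw [max_eq_right h2]
  · rw [indicator_of_notMem hp]
    have h1 : ‖z‖ ^ 2 ≤ p ^ 2 := by
      rw [sq_le_sq, abs_of_pos hz0]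
      by_contra h
      rw [not_le, abs_lt] at h
      exact hp ⟨h.1.le, h.2.le⟩
    have h2 : 1 - p ^ 2 / ‖z‖ ^ 2 ≤ 0 := by
      rw [sub_nonpos, one_le_div (by positivity)]
      exact h1
    unfold Kc
    rw [max_eq_left h2]
    simp

private lemma zonal (hSL1 : St_SL1) {z : E} (hz : z ≠ 0) {g : ℝ → ℝ} (hg : Continuous g) :
    ∫ w : S, g (inner ℝ z (w : E)) ∂sg = ∫ p, g p * Kc p z := by
  have hm : Measurable fun p => ENNReal.ofReal (Kc p z) := (Kc_cont z).measurable.ennreal_ofReal
  have h1 := integral_map (μ := sg) (φ := fun w : S => inner ℝ z (w : E)) (f := g)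
    (by fun_prop) hg.aestronglyMeasurable
  rw [← h1, map_zonal hSL1 hz, integral_withDensity_eq_integral_toReal_smul hm
    (Eventually.of_forall fun _ => ENNReal.ofReal_lt_top)]
  refine integral_congr_ae (Eventually.of_forall fun p => ?_)
  simp only [smul_eq_mul, ENNReal.toReal_ofReal (Kc_nonneg p z)]
  ring

private lemma int_pow {f : E → ℝ} (hf : Continuous f) (hc : HasCompactSupport f) (x : E) (k : ℕ)
    (hk : k ≤ 4) : Integrable (fun y => f y * (‖x - y‖⁻¹) ^ k) := by
  obtain ⟨B, hB⟩ := hc.exists_bound_of_continuous hf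
  obtain ⟨M, hM⟩ := hc.isCompact.isBounded.subset_closedBall x
  have hB0 : 0 ≤ B := (norm_nonneg _).trans (hB 0)
  set φ : ℝ → ℝ := (Icc 0 M).indicator (fun r => B * (r⁻¹) ^ k) with hφ
  have h1 : Integrable (fun z : E => φ ‖z‖) := by
    rw [integrable_fun_norm_addHaar]
    have h2 : IntegrableOn (fun r : ℝ => (Icc 0 M).indicator (fun r => B * r ^ (4 - k)) r)
        (Ioi 0) := by
      apply Integrable.integrableOn
      rw [integrable_indicator_iff measurableSet_Icc]
      exact ContinuousOn.integrableOn_compact isCompact_Icc (by fun_prop)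
    refine h2.congr_fun (fun r hr => ?_) measurableSet_Ioi
    have hr0 : (0 : ℝ) < r := hr
    have h3 : Module.finrank ℝ E - 1 = 4 := by simp
    simp only [h3, smul_eq_mul, hφ]
    by_cases hr1 : r ∈ Icc 0 M
    · rw [indicator_of_mem hr1, indicator_of_mem hr1]
      have h4 : r ^ 4 = r ^ (4 - k) * r ^ k := by
        rw [← pow_add]; congr 1; omega
      rw [h4]
      have h5 : r ^ k * (r⁻¹) ^ k = 1 := by
        rw [← mul_pow, mul_inv_cancel₀ hr0.ne', one_pow]
      calc B * r ^ (4 - k) = B * r ^ (4 - k) * (r ^ k * (r⁻¹) ^ k) := by rw [h5, mul_one]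
        _ = r ^ (4 - k) * r ^ k * (B * r⁻¹ ^ k) := by ring
    · rw [indicator_of_notMem hr1, indicator_of_notMem hr1, mul_zero]
  have h2 : Integrable (fun y : E => φ ‖x - y‖) := h1.comp_sub_left x
  refine h2.mono' ?_ (Eventually.of_forall fun y => ?_)
  · refine (hf.measurable.mul ?_).aestronglyMeasurable
    fun_prop
  · by_cases hy : ‖x - y‖ ∈ Icc 0 M
    · simp only [hφ]
      rw [indicator_of_mem hy, norm_mul]
      gcongr
      · exact hB y
      · rw [Real.norm_of_nonneg (by positivity)]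
    · have h3 : f y = 0 := by
        by_contra h
        have h4 := hM (subset_tsupport f h)
        rw [Metric.mem_closedBall, dist_comm, dist_eq_norm] at h4
        exact hy ⟨norm_nonneg _, h4⟩
      rw [h3, zero_mul, norm_zero]
      simp only [hφ]
      rw [indicator_of_notMem hy]

private lemma cont_ker {f : E → ℝ} (hf : Continuous f) (hc : HasCompactSupport f) (x : E) :
    Continuous fun t => ∫ y, f y * Kc t (x - y) := by
  refine continuous_of_dominated (bound := fun y => ‖f y * (‖x - y‖⁻¹) ^ 1‖ * (2 * Real.pi ^ 2))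
    ?_ ?_ ?_ ?_
  · intro t
    exact (hf.measurable.mul (Kc_meas1 t x)).aestronglyMeasurable
  · intro t
    refine Eventually.of_forall fun y => ?_
    rw [norm_mul, norm_mul, Real.norm_of_nonneg (Kc_nonneg t (x - y)), mul_assoc,
      Real.norm_of_nonneg (by positivity : 0 ≤ (‖x - y‖⁻¹) ^ 1)]
    gcongr
    rw [mul_comm]
    exact Kc_le t (x - y)
  · exact (int_pow hf hc x 1 (by norm_num)).norm.mul_const _
  · exact Eventually.of_forall fun y => (Kc_cont (x - y)).const_mul _

private lemma ker_test (hSL1 : St_SL1) {f : E → ℝ} (hf : Continuous f) (hc : HasCompactSupport f)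
    (x : E) {g : ℝ → ℝ} (hg : Continuous g) (hgc : HasCompactSupport g) :
    ∫ t, g t * ∫ y, f y * Kc t (x - y) = ∫ y, f y * ∫ w : S, g (inner ℝ (x - y) (w : E)) ∂sg := by
  have hint : Integrable (fun q : ℝ × E => g q.1 * (f q.2 * Kc q.1 (x - q.2)))
      ((volume : Measure ℝ).prod (volume : Measure E)) := by
    have h1 : Integrable (fun q : ℝ × E => g q.1 * (f q.2 * (‖x - q.2‖⁻¹) ^ 1))
        ((volume : Measure ℝ).prod (volume : Measure E)) :=
      (hg.integrable_of_hasCompactSupport hgc).mul_prod (int_pow hf hc x 1 (by norm_num))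
    refine (h1.norm.mul_const (2 * Real.pi ^ 2)).mono' ?_ (Eventually.of_forall fun q => ?_)
    · refine Measurable.aestronglyMeasurable ?_
      exact (hg.measurable.comp measurable_fst).mul
        ((hf.measurable.comp measurable_snd).mul (Kc_meas2 x))
    · simp only [norm_mul]
      rw [Real.norm_of_nonneg (Kc_nonneg q.1 (x - q.2)), mul_assoc, mul_assoc,
        Real.norm_of_nonneg (by positivity : 0 ≤ (‖x - q.2‖⁻¹) ^ 1)]
      gcongr
      rw [mul_comm]
      exact Kc_le q.1 (x - q.2)
  have h1 : ∫ t, g t * ∫ y, f y * Kc t (x - y) = ∫ t, ∫ y, g t * (f y * Kc t (x - y)) := by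
    refine integral_congr_ae (Eventually.of_forall fun t => ?_)
    simp only [integral_const_mul]
  rw [h1, integral_integral_swap hint]
  have h2 : ∀ᵐ y : E, y ≠ x := by
    rw [ae_iff]
    simp
  refine integral_congr_ae (h2.mono fun y hy => ?_)
  simp only
  have h3 : x - y ≠ 0 := sub_ne_zero.2 (Ne.symm hy)
  rw [zonal hSL1 h3 hg, ← integral_const_mul]
  refine integral_congr_ae (Eventually.of_forall fun t => ?_)
  simp only
  ring

private lemma rad_test (hRadT : St_RadT) {f : E → ℝ} (hf : IsTest f)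
    (x : E) {g : ℝ → ℝ} (hg : Continuous g) (hgc : HasCompactSupport g) :
    ∫ t, g t * Sph f t x = ∫ y, f y * ∫ w : S, g (inner ℝ (x - y) (w : E)) ∂sg := by
  obtain ⟨hcR, -, -, -, hR, -⟩ := hRadT f hf
  have h1 : ∫ t, g t * Sph f t x = ∫ t, ∫ w : S, g t * Rad f (w, inner ℝ x (w : E) - t) ∂sg := by
    refine integral_congr_ae (Eventually.of_forall fun t => ?_)
    simp only [integral_const_mul]
    rfl
  have hi1 : Integrable (fun q : ℝ × S => g q.1 * Rad f (q.2, inner ℝ x (q.2 : E) - q.1))
      ((volume : Measure ℝ).prod sg) := by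
    refine Continuous.integrable_of_hasCompactSupport ?_ ?_
    · exact (hg.comp continuous_fst).mul (hcR.comp (by fun_prop))
    · refine HasCompactSupport.intro (hgc.isCompact.prod isCompact_univ) fun q hq => ?_
      have : q.1 ∉ tsupport g := fun h => hq ⟨h, mem_univ _⟩
      rw [image_eq_zero_of_notMem_tsupport this, zero_mul]
  rw [h1, integral_integral_swap hi1]
  have h2 : ∀ w : S, ∫ t, g t * Rad f (w, inner ℝ x (w : E) - t) =
      ∫ y, f y * g (inner ℝ (x - y) (w : E)) := by
    intro w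
    have h3 := integral_sub_left_eq_self
      (fun t : ℝ => g t * Rad f (w, inner ℝ x (w : E) - t)) volume (inner ℝ x (w : E))
    rw [← h3]
    simp only [sub_sub_cancel]
    have h4 := hR w (fun p => g (inner ℝ x (w : E) - p)) (by fun_prop)
    simp only [inner_sub_left]
    rw [← h4]
    refine integral_congr_ae (Eventually.of_forall fun t => ?_)
    simp only
    ring
  have hi2 : Integrable (fun q : S × E => f q.2 * g (inner ℝ (x - q.2) (q.1 : E)))
      (sg.prod (volume : Measure E)) := by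
    refine Continuous.integrable_of_hasCompactSupport ?_ ?_
    · exact (hf.1.continuous.comp continuous_snd).mul (hg.comp (by fun_prop))
    · refine HasCompactSupport.intro (isCompact_univ.prod hf.2.isCompact) fun q hq => ?_
      have : q.2 ∉ tsupport f := fun h => hq ⟨mem_univ _, h⟩
      rw [image_eq_zero_of_notMem_tsupport this, zero_mul]
  rw [integral_congr_ae (Eventually.of_forall h2), integral_integral_swap hi2]
  refine integral_congr_ae (Eventually.of_forall fun y => ?_)
  simp only [integral_const_mul]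

private lemma kernel (hRadT : St_RadT) (hSL1 : St_SL1) {f : E → ℝ} (hf : IsTest f) (t : ℝ) (x : E) :
    Sph f t x = ∫ y, f y * Kc t (x - y) := by
  have hA : Continuous fun t => Sph f t x :=
    (contDiff_Sph hRadT hf).continuous.comp (by fun_prop : Continuous fun t : ℝ => (t, x))
  have hB := cont_ker hf.1.continuous hf.2 x
  have h1 : ∀ᵐ t : ℝ, Sph f t x = ∫ y, f y * Kc t (x - y) := by
    refine ae_eq_of_integral_contDiff_smul_eq hA.locallyIntegrable hB.locallyIntegrable
      fun g hg hgc => ?_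
    simp only [smul_eq_mul]
    rw [rad_test hRadT hf x hg.continuous hgc, ker_test hSL1 hf.1.continuous hf.2 x hg.continuous hgc]
  exact congrFun ((Continuous.ae_eq_iff_eq volume hA hB).1 h1) t

/-! ### Inversion -/

private lemma inversion (hRadT : St_RadT) (hIso : St_Iso) {f : E → ℝ} (hf : IsTest f) (x : E) :
    c0 * Sph (lap (lap f)) 0 x = f x := by
  have hφ : IsTest (lap (lap f)) := test_lap (test_lap hf)
  obtain ⟨hcR, -, -, -, -, hae, -⟩ := hRadT _ hφ
  have hA : Continuous fun x => c0 * Sph (lap (lap f)) 0 x :=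
    continuous_const.mul ((contDiff_Sph hRadT hφ).continuous.comp
      (by fun_prop : Continuous fun x : E => ((0 : ℝ), x)))
  have h1 : ∀ᵐ x : E, c0 * Sph (lap (lap f)) 0 x = f x := by
    refine ae_eq_of_integral_contDiff_smul_eq hA.locallyIntegrable
      hf.1.continuous.locallyIntegrable fun g hg hgc => ?_
    have hgt : IsTest g := ⟨hg, hgc⟩
    obtain ⟨hcG, -, hsG, -, hRG, haeG, -⟩ := hRadT g hgt
    obtain ⟨M, hM⟩ := hgc.isCompact.isBounded.subset_closedBall (0 : E)
    simp only [smul_eq_mul]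
    have hi : Integrable (fun q : E × S => g q.1 * Rad (lap (lap f)) (q.2, inner ℝ q.1 (q.2 : E)))
        ((volume : Measure E).prod sg) := by
      refine Continuous.integrable_of_hasCompactSupport ?_ ?_
      · exact (hg.continuous.comp continuous_fst).mul (hcR.comp (by fun_prop))
      · refine HasCompactSupport.intro (hgc.isCompact.prod isCompact_univ) fun q hq => ?_
        have : q.1 ∉ tsupport g := fun h => hq ⟨h, mem_univ _⟩
        rw [image_eq_zero_of_notMem_tsupport this, zero_mul]
    have e1 : ∫ x, g x * (c0 * Sph (lap (lap f)) 0 x) =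
        c0 * ∫ x, ∫ w : S, g x * Rad (lap (lap f)) (w, inner ℝ x (w : E)) ∂sg := by
      rw [← integral_const_mul]
      refine integral_congr_ae (Eventually.of_forall fun x => ?_)
      simp only [integral_const_mul, Sph, sub_zero]
      ring
    have e2 : ∀ w : S, ∫ x, g x * Rad (lap (lap f)) (w, inner ℝ x (w : E)) =
        ∫ p, Rad g (w, p) * Rad (lap (lap f)) (w, p) := by
      intro w
      exact (hRG w (fun p => Rad (lap (lap f)) (w, p)) (hcR.comp (by fun_prop))).symm
    have hi2 : Integrable (fun z : S × ℝ => Rad g z * Rad (lap (lap f)) z) mu := by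
      refine Continuous.integrable_of_hasCompactSupport (hcG.mul hcR) ?_
      refine HasCompactSupport.intro
        (isCompact_univ.prod (isCompact_Icc (a := -M) (b := M))) fun q hq => ?_
      have h2 : M ≤ |q.2| := by
        by_contra h
        rw [not_le, abs_lt] at h
        exact hq ⟨mem_univ _, h.1.le, h.2.le⟩
      have h3 := (hsG 0 M hM q (by simpa using h2)).1
      rw [h3, zero_mul]
    have e3 : inner ℝ (Rk (lap (lap f))) (Rk g) =
        ∫ w : S, ∫ p, Rad g (w, p) * Rad (lap (lap f)) (w, p) ∂volume ∂sg := by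
      rw [L2.inner_def, ← integral_prod _ hi2]
      refine integral_congr_ae ?_
      filter_upwards [hae, haeG] with z hz1 hz2
      rw [hz1, hz2]
      simp
    rw [e1, integral_integral_swap hi, integral_congr_ae (Eventually.of_forall e2), ← e3,
      (hIso f g (test_sch hf) (test_sch hgt)).1]
    refine integral_congr_ae (Eventually.of_forall fun x => ?_)
    simp only
    ring
  exact congrFun ((Continuous.ae_eq_iff_eq volume hA hf.1.continuous).1 h1) x

/-! ### Vanishing -/

private lemma poly_iter (A B : ℝ) :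
    (∀ s, iteratedDeriv 3 (fun s : ℝ => A - B * s ^ 2) s = 0) ∧
      ∀ s, iteratedDeriv 4 (fun s : ℝ => A - B * s ^ 2) s = 0 := by
  have d1 : deriv (fun s : ℝ => A - B * s ^ 2) = fun s => -(B * (2 * s)) := by
    funext s
    have h1 : HasDerivAt (fun s : ℝ => A - B * s ^ 2) (0 - B * (((2 : ℕ) : ℝ) * s ^ (2 - 1))) s :=
      (hasDerivAt_const s A).sub ((hasDerivAt_pow 2 s).const_mul B)
    rw [h1.deriv]; norm_num
  have d2 : deriv (fun s : ℝ => -(B * (2 * s))) = fun _ => -(B * 2) := by
    funext s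
    have h1 : HasDerivAt (fun s : ℝ => -(B * (2 * s))) (-(B * (2 * 1))) s :=
      (((hasDerivAt_id s).const_mul 2).const_mul B).neg
    rw [h1.deriv]; ring
  have d3 : deriv (fun _ : ℝ => -(B * 2)) = fun _ => 0 := by
    funext s; simp
  have i3 : iteratedDeriv 3 (fun s : ℝ => A - B * s ^ 2) = fun _ => 0 := by
    rw [iteratedDeriv_succ, iteratedDeriv_succ, iteratedDeriv_one, d1, d2, d3]
  refine ⟨fun s => by rw [i3], fun s => ?_⟩
  rw [iteratedDeriv_succ, i3]
  simp

private lemma Kc_far {s : ℝ} {z : E} (h : |s| < ‖z‖) :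
    Kc s z = 2 * Real.pi ^ 2 * (‖z‖⁻¹) ^ 1 - 2 * Real.pi ^ 2 * (‖z‖⁻¹) ^ 3 * s ^ 2 := by
  have hz : 0 < ‖z‖ := (abs_nonneg s).trans_lt h
  have h1 : s ^ 2 ≤ ‖z‖ ^ 2 := by
    rw [sq_le_sq, abs_of_pos hz]
    exact h.le
  have h2 : 0 ≤ 1 - s ^ 2 / ‖z‖ ^ 2 := by
    rw [sub_nonneg, div_le_one (by positivity)]
    exact h1
  unfold Kc
  rw [max_eq_right h2]
  field_simp

private lemma vanish_pos (hRadT : St_RadT) (hSL1 : St_SL1) {f : E → ℝ} (hf : IsTest f) {t : ℝ}
    (ht : t ≠ 0) (x : E) (h0 : ∀ y, dist y x ≤ |t| → f y = 0) :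
    iteratedDeriv 3 (fun s => Sph f s x) t = 0 ∧ iteratedDeriv 4 (fun s => Sph f s x) t = 0 := by
  set A : ℝ := ∫ y, f y * (‖x - y‖⁻¹) ^ 1 with hA
  set B : ℝ := ∫ y, f y * (‖x - y‖⁻¹) ^ 3 with hB
  have ht0 : 0 < |t| := abs_pos.2 ht
  have h1 : ∀ s, |s| < |t| → Sph f s x = 2 * Real.pi ^ 2 * A - 2 * Real.pi ^ 2 * B * s ^ 2 := by
    intro s hs
    rw [kernel hRadT hSL1 hf s x]
    have h2 : ∀ y, f y * Kc s (x - y) = 2 * Real.pi ^ 2 * (f y * (‖x - y‖⁻¹) ^ 1) -
        2 * Real.pi ^ 2 * s ^ 2 * (f y * (‖x - y‖⁻¹) ^ 3) := by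
      intro y
      by_cases hy : dist y x ≤ |t|
      · rw [h0 y hy]; ring
      · rw [not_le, dist_comm, dist_eq_norm] at hy
        rw [Kc_far (hs.trans hy)]
        ring
    rw [integral_congr_ae (Eventually.of_forall h2), integral_sub, integral_const_mul,
      integral_const_mul, ← hA, ← hB]
    · ring
    · exact (int_pow hf.1.continuous hf.2 x 1 (by norm_num)).const_mul _
    · exact (int_pow hf.1.continuous hf.2 x 3 (by norm_num)).const_mul _
  have h2 : ∀ m, ∀ s, |s| < |t| → iteratedDeriv m (fun s => Sph f s x) s =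
      iteratedDeriv m (fun s : ℝ => 2 * Real.pi ^ 2 * A - 2 * Real.pi ^ 2 * B * s ^ 2) s := by
    intro m s hs
    refine Filter.EventuallyEq.iteratedDeriv_eq m ?_
    have h3 : ∀ᶠ r in 𝓝 s, |r| < |t| := (continuous_abs.tendsto s).eventually_lt_const hs
    filter_upwards [h3] with r hr
    exact h1 r hr
  have h3 : ∀ m, Continuous (iteratedDeriv m (fun s => Sph f s x)) := by
    intro m
    rw [iter_Sph hRadT hf x m]
    exact continuous_const.mul ((contDiff_top_G (good_H hRadT hf) continuous_const m).continuous.comp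
      (by fun_prop : Continuous fun s : ℝ => (s, x)))
  have h4 : ∀ m, (∀ s, iteratedDeriv m (fun s : ℝ => 2 * Real.pi ^ 2 * A -
      2 * Real.pi ^ 2 * B * s ^ 2) s = 0) → iteratedDeriv m (fun s => Sph f s x) t = 0 := by
    intro m hm
    have h5 : IsClosed {s | iteratedDeriv m (fun s => Sph f s x) s = 0} :=
      isClosed_eq (h3 m) continuous_const
    have h6 : Ioo (-|t|) |t| ⊆ {s | iteratedDeriv m (fun s => Sph f s x) s = 0} := by
      intro s hs
      rw [Set.mem_ofPred_eq, h2 m s (abs_lt.2 ⟨hs.1, hs.2⟩), hm]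
    have h7 := closure_minimal h6 h5
    rw [closure_Ioo (by linarith)] at h7
    exact h7 ⟨neg_abs_le t, le_abs_self t⟩
  obtain ⟨p3, p4⟩ := poly_iter (2 * Real.pi ^ 2 * A) (2 * Real.pi ^ 2 * B)
  exact ⟨h4 3 p3, h4 4 p4⟩

end Pool.Agent.QWE.Sphx

namespace Pool.Agent.QWE

open Sphx in
/-- **Sph** (properties of the dual transform of the shifted Radon transform). -/
theorem thm_Sph (hRadT : St_RadT) (hSL1 : St_SL1) (hIso : St_Iso) : St_Sph := by
  intro f hf
  have hev : ∀ t x, Sph f (-t) x = Sph f t x := by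
    intro t x
    rw [kernel hRadT hSL1 hf, kernel hRadT hSL1 hf]
    simp only [Kc_neg]
  have hinv : ∀ x, c0 * iteratedDeriv 4 (fun s => Sph f s x) 0 = f x := by
    intro x
    rw [iter_Sph hRadT hf x 4, ← inversion hRadT hIso hf x, Sph_eq4]
    ring
  refine ⟨contDiff_Sph hRadT hf, kernel hRadT hSL1 hf, hev, fun t x => ⟨?_, ?_⟩, ?_, hinv⟩
  · rw [iter_Sph hRadT hf x 2, Sph_eq2]
    ring
  · exact lap_Sph hRadT hf t x
  · intro t x h0
    by_cases ht : t = 0
    · subst ht
      refine ⟨?_, ?_⟩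
      · have h1 := iteratedDeriv_comp_neg 3 (fun s => Sph f s x) 0
        have h2 : (fun s => Sph f (-s) x) = fun s => Sph f s x := by
          funext s; exact hev s x
        rw [h2, neg_zero] at h1
        have h3 : iteratedDeriv 3 (fun s => Sph f s x) 0 =
            - iteratedDeriv 3 (fun s => Sph f s x) 0 := by
          conv_lhs => rw [h1]
          norm_num
        linarith
      · have h1 := hinv x
        rw [h0 x (by simp)] at h1
        have h2 : c0 ≠ 0 := by
          unfold c0
          positivity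
        exact (mul_eq_zero.1 h1).resolve_left h2
    · exact vanish_pos hRadT hSL1 hf ht x h0

end Pool.Agent.QWE
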