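import Pool.Agent.QWE.StA
import Pool.Agent.QWE.StB

set_option autoImplicit false

/-!
# QWE, Stab: stability on compact intervals (N4)
-/

open MeasureTheory Filter Topology Set
open scoped ENNReal NNReal RealInnerProductSpace Pointwise

namespace Pool.Agent.QWE

namespace Stabx

/-- Forward in time, from time `0`. -/
lemma fwd0 (hP : St_Pert) (T : ℝ) (k : ℝ → K) (hT : 0 ≤ T) (hk : IsSol (Icc 0 T) k) :
    ∃ e1 C : ℝ, 0 < e1 ∧ 0 < C ∧ ∀ x : K, ‖x - k 0‖ ≤ e1 → ∃ f : ℝ → K, IsSol (Icc 0 T) f ∧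
      f 0 = x ∧ (∀ t ∈ Icc 0 T, ‖f t - k t‖ ≤ C * ‖x - k 0‖) ∧
      SN (Icc 0 T) (fun t => f t - k t) ≤ ENNReal.ofReal (C * ‖x - k 0‖) ^ 4 := by
  have h0 : (0 : ℝ) ∈ Icc 0 T := ⟨le_rfl, hT⟩
  obtain ⟨A, hA⟩ := isCompact_Icc.exists_bound_of_continuousOn hk.2.1
  have hSN : SN (Icc 0 T) k < ⊤ := hk.2.2.1 0 h0 T ⟨hT, le_rfl⟩
  have hA1 : ∀ t ∈ Icc 0 T, ‖k t‖ ≤ |A| + 1 := fun t ht =>
    (hA t ht).trans (by linarith [le_abs_self A])
  have hA0 : 0 < |A| + 1 := by positivity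
  have hM0 : 0 < (SN (Icc 0 T) k).toReal + 1 := by positivity
  obtain ⟨e1, C, he1, hC, hpert⟩ := hP (|A| + 1) ((SN (Icc 0 T) k).toReal + 1) hA0 hM0
  refine ⟨e1, C, he1, hC, fun x hx => ?_⟩
  obtain ⟨f, f1, f2, f3, f4⟩ := hpert T ‖x - k 0‖ k (fun _ => 0) x hT (norm_nonneg _) hx hk.2.1 hA1
    (by
      conv_lhs => rw [← ENNReal.ofReal_toReal hSN.ne]
      exact ENNReal.ofReal_le_ofReal (by linarith))
    integrableOn_zero (by simp) (fun t ht => by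
      have h3 := hk.2.2.2 0 h0 t ht
      simpa only [sub_zero] using h3) le_rfl
  exact ⟨f, f1, f2, f3, f4⟩

/-- Forward in time. -/
lemma fwd (hP : St_Pert) (hY : St_Sym) (t0 b : ℝ) (k : ℝ → K) (hT : t0 ≤ b)
    (hk : IsSol (Icc t0 b) k) :
    ∃ e1 C : ℝ, 0 < e1 ∧ 0 < C ∧ ∀ x : K, ‖x - k t0‖ ≤ e1 → ∃ f : ℝ → K, IsSol (Icc t0 b) f ∧
      f t0 = x ∧ (∀ t ∈ Icc t0 b, ‖f t - k t‖ ≤ C * ‖x - k t0‖) ∧
      SN (Icc t0 b) (fun t => f t - k t) ≤ ENNReal.ofReal (C * ‖x - k t0‖) ^ 4 := by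
  obtain ⟨-, -, -, -, -, -, hY7, hY8⟩ := hY
  have hs : {t : ℝ | t + t0 ∈ Icc t0 b} = Icc 0 (b - t0) := by
    ext t
    simp only [mem_setOf_eq, mem_Icc]
    constructor
    · rintro ⟨h1, h2⟩; exact ⟨by linarith, by linarith⟩
    · rintro ⟨h1, h2⟩; exact ⟨by linarith, by linarith⟩
  have hs' : {t : ℝ | t + -t0 ∈ Icc 0 (b - t0)} = Icc t0 b := by
    ext t
    simp only [mem_setOf_eq, mem_Icc]
    constructor
    · rintro ⟨h1, h2⟩; exact ⟨by linarith, by linarith⟩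
    · rintro ⟨h1, h2⟩; exact ⟨by linarith, by linarith⟩
  have h1 := (hY7 (Icc t0 b) k hk).1 t0
  rw [hs] at h1
  obtain ⟨e1, C, he1, hC, h2⟩ := fwd0 hP (b - t0) (fun t => k (t + t0)) (by linarith) h1
  simp only [zero_add] at h2
  refine ⟨e1, C, he1, hC, fun x hx => ?_⟩
  obtain ⟨f, f1, f2, f3, f4⟩ := h2 x hx
  refine ⟨fun t => f (t + -t0), ?_, ?_, ?_, ?_⟩
  · have h3 := (hY7 (Icc 0 (b - t0)) f f1).1 (-t0)
    rwa [hs'] at h3
  · simpa using f2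
  · intro t ht
    have h3 := f3 (t + -t0) ⟨by linarith [ht.1], by linarith [ht.2]⟩
    simpa using h3
  · have h3 := (hY8 (Icc 0 (b - t0)) (fun t => f t - k (t + t0)) measurableSet_Icc).1 (-t0)
    rw [hs'] at h3
    have h4 : (fun t : ℝ => f (t + -t0) - k (t + -t0 + t0)) = fun t => f (t + -t0) - k t := by
      funext t; simp
    rw [h4] at h3
    rw [h3]
    exact f4

/-- Backward in time. -/
lemma bwd (hG : St_Grp2) (hP : St_Pert) (hY : St_Sym) (a t0 : ℝ) (k : ℝ → K) (hT : a ≤ t0)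
    (hk : IsSol (Icc a t0) k) :
    ∃ e1 C : ℝ, 0 < e1 ∧ 0 < C ∧ ∀ x : K, ‖x - k t0‖ ≤ e1 → ∃ f : ℝ → K, IsSol (Icc a t0) f ∧
      f t0 = x ∧ (∀ t ∈ Icc a t0, ‖f t - k t‖ ≤ C * ‖x - k t0‖) ∧
      SN (Icc a t0) (fun t => f t - k t) ≤ ENNReal.ofReal (C * ‖x - k t0‖) ^ 4 := by
  have hrr : ∀ x : K, rev (rev x) = x := hG.2.2.1
  have hs : {t : ℝ | -t ∈ Icc a t0} = Icc (-t0) (-a) := by
    ext t
    simp only [mem_setOf_eq, mem_Icc]
    constructor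
    · rintro ⟨h1, h2⟩; exact ⟨by linarith, by linarith⟩
    · rintro ⟨h1, h2⟩; exact ⟨by linarith, by linarith⟩
  have hs' : {t : ℝ | -t ∈ Icc (-t0) (-a)} = Icc a t0 := by
    ext t
    simp only [mem_setOf_eq, mem_Icc]
    constructor
    · rintro ⟨h1, h2⟩; exact ⟨by linarith, by linarith⟩
    · rintro ⟨h1, h2⟩; exact ⟨by linarith, by linarith⟩
  have h1 := (hY.2.2.2.2.2.2.1 (Icc a t0) k hk).2.2.2
  rw [hs] at h1
  obtain ⟨e1, C, he1, hC, h2⟩ := fwd hP hY (-t0) (-a) (fun t => rev (k (-t))) (by linarith) h1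
  simp only [neg_neg] at h2
  have hn : ∀ x : K, ‖rev x - rev (k t0)‖ = ‖x - k t0‖ := by
    intro x
    rw [← map_sub, rev.norm_map]
  refine ⟨e1, C, he1, hC, fun x hx => ?_⟩
  obtain ⟨f, f1, f2, f3, f4⟩ := h2 (rev x) (by rw [hn]; exact hx)
  rw [hn] at f3 f4
  refine ⟨fun t => rev (f (-t)), ?_, ?_, ?_, ?_⟩
  · have h3 := (hY.2.2.2.2.2.2.1 (Icc (-t0) (-a)) f f1).2.2.2
    rwa [hs'] at h3
  · simp only [f2, hrr]
  · intro t ht
    have h3 := f3 (-t) ⟨by linarith [ht.2], by linarith [ht.1]⟩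
    rw [neg_neg] at h3
    have h4 : rev (f (-t)) - k t = rev (f (-t) - rev (k t)) := by
      rw [map_sub, hrr]
    rw [h4, rev.norm_map]
    exact h3
  · have h3 := (hY.2.2.2.2.2.2.2 (Icc (-t0) (-a)) (fun t => f t - rev (k (-t)))
      measurableSet_Icc).2.2.2
    rw [hs'] at h3
    have h4 : (fun t : ℝ => rev (f (-t) - rev (k (- -t)))) = fun t => rev (f (-t)) - k t := by
      funext t; rw [map_sub, hrr, neg_neg]
    rw [h4] at h3
    rw [h3]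
    exact f4

lemma isSol_mono {I J : Set ℝ} {k : ℝ → K} (h : IsSol I k) (hJ : J.OrdConnected) (hs : J ⊆ I) :
    IsSol J k :=
  ⟨hJ, h.2.1.mono hs, fun a ha b hb => h.2.2.1 a (hs ha) b (hs hb),
    fun s h1 t ht => h.2.2.2 s (hs h1) t (hs ht)⟩

end Stabx

open Stabx in
theorem thm_Stab (hG : St_Grp2) (hL : St_Glue) (hP : St_Pert) (hY : St_Sym) : St_Stab := by
  intro a b t0 k k0 ha hb hk hlim
  have hk1 : IsSol (Icc t0 b) k := isSol_mono hk ordConnected_Icc (Icc_subset_Icc_left ha)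
  have hk2 : IsSol (Icc a t0) k := isSol_mono hk ordConnected_Icc (Icc_subset_Icc_right hb)
  obtain ⟨e1, C1, he1, hC1, H1⟩ := fwd hP hY t0 b k hb hk1
  obtain ⟨e2, C2, he2, hC2, H2⟩ := bwd hG hP hY a t0 k ha hk2
  have hε : Tendsto (fun n => ‖k0 n - k t0‖) atTop (𝓝 0) := by
    rw [← tendsto_iff_norm_sub_tendsto_zero]; exact hlim
  have hun : Icc a t0 ∪ Icc t0 b = Icc a b := Icc_union_Icc_eq_Icc ha hb
  have hex : ∀ n, ∃ f : ℝ → K, ‖k0 n - k t0‖ ≤ e1 → ‖k0 n - k t0‖ ≤ e2 →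
      IsSol (Icc a b) f ∧ f t0 = k0 n ∧
      (∀ t ∈ Icc a b, ‖f t - k t‖ ≤ (C1 + C2) * ‖k0 n - k t0‖) ∧
      SN (Icc a b) (fun t => f t - k t) ≤ ENNReal.ofReal (C1 * ‖k0 n - k t0‖) ^ 4 +
        ENNReal.ofReal (C2 * ‖k0 n - k t0‖) ^ 4 := by
    intro n
    by_cases h1 : ‖k0 n - k t0‖ ≤ e1
    swap
    · exact ⟨0, fun h => absurd h h1⟩
    by_cases h2 : ‖k0 n - k t0‖ ≤ e2
    swap
    · exact ⟨0, fun _ h => absurd h h2⟩
    obtain ⟨f, f1, f2, f3, f4⟩ := H1 (k0 n) h1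
    obtain ⟨g, g1, g2, g3, g4⟩ := H2 (k0 n) h2
    obtain ⟨κ, κ1, κ2, κ3⟩ := hL (Icc a t0) (Icc t0 b) g f t0 g1 f1 ⟨ha, le_rfl⟩ ⟨le_rfl, hb⟩
      (g2.trans f2.symm)
    rw [hun] at κ1
    have hnn := norm_nonneg (k0 n - k t0)
    refine ⟨κ, fun _ _ => ⟨κ1, (κ2 t0 ⟨ha, le_rfl⟩).trans g2, ?_, ?_⟩⟩
    · intro t ht
      rcases le_total t t0 with h | h
      · rw [κ2 t ⟨ht.1, h⟩]
        refine (g3 t ⟨ht.1, h⟩).trans ?_
        nlinarith
      · rw [κ3 t ⟨h, ht.2⟩]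
        refine (f3 t ⟨h, ht.2⟩).trans ?_
        nlinarith
    · have e1 : SN (Icc a b) (fun t => κ t - k t) ≤
          SN (Icc t0 b) (fun t => κ t - k t) + SN (Icc a t0) (fun t => κ t - k t) := by
        rw [← hun, union_comm]
        exact lintegral_union_le _ _ _
      refine e1.trans (add_le_add ?_ ?_)
      · refine le_trans (le_of_eq ?_) f4
        exact setLIntegral_congr_fun measurableSet_Icc fun t ht => by simp only [κ3 t ht]
      · refine le_trans (le_of_eq ?_) g4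
        exact setLIntegral_congr_fun measurableSet_Icc fun t ht => by simp only [κ2 t ht]
  choose kn hkn using hex
  have hε1 : ∀ᶠ n in atTop, ‖k0 n - k t0‖ ≤ e1 :=
    (hε.eventually_lt_const he1).mono fun n hn => hn.le
  have hε2 : ∀ᶠ n in atTop, ‖k0 n - k t0‖ ≤ e2 :=
    (hε.eventually_lt_const he2).mono fun n hn => hn.le
  refine ⟨kn, ?_, ?_⟩
  · filter_upwards [hε1, hε2] with n h1 h2
    exact ⟨(hkn n h1 h2).1, (hkn n h1 h2).2.1⟩
  · intro ε hε0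
    have h3 : ∀ᶠ n in atTop, (C1 + C2) * ‖k0 n - k t0‖ < ε := by
      have h4 : Tendsto (fun n => (C1 + C2) * ‖k0 n - k t0‖) atTop (𝓝 ((C1 + C2) * 0)) :=
        hε.const_mul _
      rw [mul_zero] at h4
      exact h4.eventually_lt_const hε0
    have h5 : ∀ᶠ n in atTop, ENNReal.ofReal (C1 * ‖k0 n - k t0‖) ^ 4 +
        ENNReal.ofReal (C2 * ‖k0 n - k t0‖) ^ 4 < ENNReal.ofReal ε := by
      have h6 : Continuous fun x : ℝ => ENNReal.ofReal (C1 * x) ^ 4 + ENNReal.ofReal (C2 * x) ^ 4 :=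
        ((ENNReal.continuous_pow 4).comp (ENNReal.continuous_ofReal.comp (by fun_prop))).add
          ((ENNReal.continuous_pow 4).comp (ENNReal.continuous_ofReal.comp (by fun_prop)))
      have h7 := (h6.tendsto 0).comp hε
      simp only [mul_zero, ENNReal.ofReal_zero, ne_eq, OfNat.ofNat_ne_zero, not_false_eq_true,
        zero_pow, add_zero] at h7
      exact h7.eventually_lt_const (ENNReal.ofReal_pos.2 hε0)
    filter_upwards [hε1, hε2, h3, h5] with n h1 h2 h3 h5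
    obtain ⟨_, _, h8, h9⟩ := hkn n h1 h2
    exact ⟨fun t ht => (h8 t ht).trans_lt h3, h9.trans_lt h5⟩

end Pool.Agent.QWE
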