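import Pool.Agent.QWE.StA

/-!
# QWE/Str (helper72): Strichartz estimates
-/

set_option autoImplicit false

open MeasureTheory Filter Topology Set
open scoped ENNReal NNReal RealInnerProductSpace Pointwise

namespace Pool.Agent.QWE.Strx

/-- Truncations. -/
noncomputable def trc (u : ℝ → E → ℝ≥0∞) (n : ℕ) (t : ℝ) (x : E) : ℝ≥0∞ :=
  ({z : ℝ × E | |z.1| ≤ n ∧ ‖z.2‖ ≤ n}.indicator (fun z => min (u z.1 z.2) n)) (t, x)

theorem trc_meas {u : ℝ → E → ℝ≥0∞} (hu : Measurable (Function.uncurry u)) (n : ℕ) :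
    Measurable (Function.uncurry (trc u n)) := by
  have h1 : MeasurableSet {z : ℝ × E | |z.1| ≤ n ∧ ‖z.2‖ ≤ n} := by
    apply MeasurableSet.inter
    · exact measurableSet_le (f := fun z : ℝ × E => |z.1|) (by fun_prop) measurable_const
    · exact measurableSet_le (f := fun z : ℝ × E => ‖z.2‖) (by fun_prop) measurable_const
  have h2 : Measurable (fun z : ℝ × E => min (u z.1 z.2) (n : ℝ≥0∞)) := hu.min measurable_const
  exact h2.indicator h1

theorem trc_le (u : ℝ → E → ℝ≥0∞) (n : ℕ) (t : ℝ) (x : E) : trc u n t x ≤ u t x := by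
  unfold trc
  by_cases h : (t, x) ∈ {z : ℝ × E | |z.1| ≤ n ∧ ‖z.2‖ ≤ n}
  · rw [indicator_of_mem h]
    exact min_le_left _ _
  · rw [indicator_of_notMem h]
    exact zero_le

theorem trc_le' (u : ℝ → E → ℝ≥0∞) (n : ℕ) (t : ℝ) (x : E) :
    trc u n t x ≤ (Metric.closedBall (0 : E) n).indicator (fun _ => (n : ℝ≥0∞)) x := by
  unfold trc
  by_cases h : (t, x) ∈ {z : ℝ × E | |z.1| ≤ n ∧ ‖z.2‖ ≤ n}
  · rw [indicator_of_mem h, indicator_of_mem (by
      rw [mem_closedBall_zero_iff]
      exact h.2)]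
    exact min_le_right _ _
  · rw [indicator_of_notMem h]
    exact zero_le

theorem trc_mono (u : ℝ → E → ℝ≥0∞) (t : ℝ) (x : E) : Monotone fun n => trc u n t x := by
  intro m n hmn
  dsimp only
  unfold trc
  have hmn' : (m : ℝ) ≤ n := by exact_mod_cast hmn
  by_cases h : (t, x) ∈ {z : ℝ × E | |z.1| ≤ m ∧ ‖z.2‖ ≤ m}
  · rw [indicator_of_mem h, indicator_of_mem (show (t, x) ∈ {z : ℝ × E | |z.1| ≤ n ∧ ‖z.2‖ ≤ n}
      from ⟨h.1.trans hmn', h.2.trans hmn'⟩)]
    exact min_le_min le_rfl (by exact_mod_cast hmn)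
  · rw [indicator_of_notMem h]
    exact zero_le

theorem trc_tendsto (u : ℝ → E → ℝ≥0∞) (t : ℝ) (x : E) :
    Tendsto (fun n => trc u n t x) atTop (𝓝 (u t x)) := by
  have h1 : ∀ᶠ n : ℕ in atTop, trc u n t x = min (u t x) n := by
    obtain ⟨N, hN⟩ := exists_nat_ge (max |t| ‖x‖)
    filter_upwards [eventually_ge_atTop N] with n hn
    have hn' : (N : ℝ) ≤ n := by exact_mod_cast hn
    unfold trc
    rw [indicator_of_mem]
    exact ⟨((le_max_left _ _).trans hN).trans hn', ((le_max_right _ _).trans hN).trans hn'⟩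
  have h2 : Tendsto (fun n : ℕ => min (u t x) (n : ℝ≥0∞)) atTop (𝓝 (u t x)) := by
    have h3 := (tendsto_const_nhds (x := u t x)).min ENNReal.tendsto_nat_nhds_top
    rwa [min_eq_left le_top] at h3
  exact h2.congr' (h1.mono fun n h => h.symm)

/-- The dual characterisation of the mixed norm. -/
theorem dual {u : ℝ → E → ℝ≥0∞} (hu : Measurable (Function.uncurry u)) {r q : ℝ} (hr : 1 < r)
    (hq : 1 < q) {B : ℝ≥0∞}
    (h : ∀ F : ℝ → E → ℝ≥0∞, Measurable (Function.uncurry F) → ∫⁻ t, ∫⁻ x, F t x * u t x ≤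
      B * (∫⁻ t, (∫⁻ x, F t x ^ (r / (r - 1))) ^ ((r - 1) / r * (q / (q - 1)))) ^ ((q - 1) / q)) :
    ∫⁻ t, (∫⁻ x, u t x ^ r) ^ (q / r) ≤ B ^ q := by
  have hr0 : 0 < r := by linarith
  have hq0 : 0 < q := by linarith
  have hr1 : 0 < r - 1 := by linarith
  have hq1 : 0 < q - 1 := by linarith
  -- measurability
  have hm : ∀ n, Measurable (Function.uncurry (trc u n)) := trc_meas hu
  have hmx : ∀ n t, Measurable (trc u n t) := fun n t => (hm n).comp measurable_prodMk_left
  obtain ⟨a, ha⟩ : ∃ a : ℕ → ℝ → ℝ≥0∞, a = fun n t => ∫⁻ x, trc u n t x ^ r := ⟨_, rfl⟩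
  have ham : ∀ n, Measurable (a n) := by
    intro n
    rw [ha]
    exact Measurable.lintegral_prod_right' (f := fun z : ℝ × E => trc u n z.1 z.2 ^ r)
      ((hm n).pow_const r)
  -- finiteness
  have hafin : ∀ n t, a n t ≤ (n : ℝ≥0∞) ^ r * volume (Metric.closedBall (0 : E) n) := by
    intro n t
    rw [ha]
    dsimp only
    calc ∫⁻ x, trc u n t x ^ r ≤
        ∫⁻ x, (Metric.closedBall (0 : E) n).indicator (fun _ => (n : ℝ≥0∞) ^ r) x := by
          apply lintegral_mono
          intro x
          dsimp only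
          have h1 := trc_le' u n t x
          by_cases hx : x ∈ Metric.closedBall (0 : E) n
          · rw [indicator_of_mem hx] at h1 ⊢
            exact ENNReal.rpow_le_rpow h1 hr0.le
          · rw [indicator_of_notMem hx] at h1 ⊢
            rw [le_antisymm h1 zero_le, ENNReal.zero_rpow_of_pos hr0]
      _ = _ := by
          rw [lintegral_indicator measurableSet_closedBall, lintegral_const,
            Measure.restrict_apply_univ]
  have hatop : ∀ n t, a n t ≠ ⊤ := by
    intro n t
    refine ne_top_of_le_ne_top ?_ (hafin n t)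
    apply ENNReal.mul_ne_top
    · exact ENNReal.rpow_ne_top_of_nonneg hr0.le (ENNReal.natCast_ne_top n)
    · exact (measure_closedBall_lt_top).ne
  have hazero : ∀ (n : ℕ) (t : ℝ), (n : ℝ) < |t| → a n t = 0 := by
    intro n t ht
    rw [ha]
    dsimp only
    rw [lintegral_eq_zero_iff ((hmx n t).pow_const r)]
    refine Eventually.of_forall fun x => ?_
    have h1 : trc u n t x = 0 := by
      unfold trc
      rw [indicator_of_notMem]
      intro hmem
      exact absurd hmem.1 (not_le.2 ht)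
    change trc u n t x ^ r = 0
    rw [h1, ENNReal.zero_rpow_of_pos hr0]
  have hqr : 0 < q / r := div_pos hq0 hr0
  obtain ⟨A, hA⟩ : ∃ A : ℕ → ℝ≥0∞, A = fun n => ∫⁻ t, a n t ^ (q / r) := ⟨_, rfl⟩
  have hAfin : ∀ n, A n ≠ ⊤ := by
    intro n
    rw [hA]
    dsimp only
    have h1 : ∀ t, a n t ^ (q / r) ≤ (Icc (-(n : ℝ)) n).indicator (fun _ =>
        ((n : ℝ≥0∞) ^ r * volume (Metric.closedBall (0 : E) n)) ^ (q / r)) t := by
      intro t
      by_cases ht : t ∈ Icc (-(n : ℝ)) n
      · rw [indicator_of_mem ht]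
        exact ENNReal.rpow_le_rpow (hafin n t) hqr.le
      · rw [hazero n t (by
          by_contra hcon
          push Not at hcon
          exact ht (abs_le.1 hcon)), ENNReal.zero_rpow_of_pos hqr]
        exact zero_le
    refine ne_top_of_le_ne_top ?_ (lintegral_mono h1)
    rw [lintegral_indicator measurableSet_Icc, lintegral_const, Measure.restrict_apply_univ]
    apply ENNReal.mul_ne_top
    · apply ENNReal.rpow_ne_top_of_nonneg hqr.le
      apply ENNReal.mul_ne_top
      · exact ENNReal.rpow_ne_top_of_nonneg hr0.le (ENNReal.natCast_ne_top n)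
      · exact (measure_closedBall_lt_top).ne
    · exact (measure_Icc_lt_top).ne
  -- the main bound for the truncations
  have hmain : ∀ n, A n ≤ B ^ q := by
    intro n
    obtain ⟨c, hc⟩ : ∃ c : ℝ → ℝ≥0∞, c = fun t => if a n t = 0 then 0 else a n t ^ (q / r - 1) :=
      ⟨_, rfl⟩
    have hcm : Measurable c := by
      rw [hc]
      exact Measurable.ite ((ham n) (measurableSet_singleton 0)) measurable_const
        ((ham n).pow_const _)
    obtain ⟨F, hF⟩ : ∃ F : ℝ → E → ℝ≥0∞, F = fun t x => c t * trc u n t x ^ (r - 1) := ⟨_, rfl⟩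
    have hFm : Measurable (Function.uncurry F) := by
      rw [hF]
      exact (hcm.comp measurable_fst).mul ((hm n).pow_const _)
    have key := h F hFm
    have e1 : ∀ t, (∫⁻ x, F t x ^ (r / (r - 1))) ^ ((r - 1) / r * (q / (q - 1))) =
        a n t ^ (q / r) := by
      intro t
      have e2 : ∀ x, F t x ^ (r / (r - 1)) = c t ^ (r / (r - 1)) * trc u n t x ^ r := by
        intro x
        rw [hF]
        dsimp only
        rw [ENNReal.mul_rpow_of_nonneg _ _ (by positivity), ← ENNReal.rpow_mul]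
        congr 2
        field_simp
      simp only [e2]
      rw [lintegral_const_mul _ ((hmx n t).pow_const r)]
      have e3 : ∫⁻ x, trc u n t x ^ r = a n t := by rw [ha]
      rw [e3]
      by_cases h0 : a n t = 0
      · rw [h0, mul_zero, ENNReal.zero_rpow_of_pos (by positivity),
          ENNReal.zero_rpow_of_pos hqr]
      · have e4 : c t = a n t ^ (q / r - 1) := by rw [hc]; dsimp only; rw [if_neg h0]
        rw [e4, ← ENNReal.rpow_mul]
        have e5 : a n t ^ ((q / r - 1) * (r / (r - 1))) * a n t =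
            a n t ^ ((q - 1) / (r - 1)) := by
          conv_lhs => rw [← ENNReal.rpow_one (a n t)]
          rw [← ENNReal.rpow_mul, ← ENNReal.rpow_add _ _ h0 (hatop n t)]
          congr 1
          field_simp
          ring
        rw [e5, ← ENNReal.rpow_mul]
        congr 1
        field_simp
    have e6 : ∀ t, a n t ^ (q / r) ≤ ∫⁻ x, F t x * u t x := by
      intro t
      by_cases h0 : a n t = 0
      · rw [h0, ENNReal.zero_rpow_of_pos hqr]
        exact zero_le
      · have e4 : c t = a n t ^ (q / r - 1) := by rw [hc]; dsimp only; rw [if_neg h0]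
        calc a n t ^ (q / r) = c t * a n t := by
              rw [e4]
              conv_rhs => rw [← ENNReal.rpow_one (a n t)]
              rw [← ENNReal.rpow_mul, ← ENNReal.rpow_add _ _ h0 (hatop n t)]
              congr 1
              ring
          _ = ∫⁻ x, c t * trc u n t x ^ r := by
              rw [lintegral_const_mul _ ((hmx n t).pow_const r), ha]
          _ ≤ ∫⁻ x, F t x * u t x := by
              apply lintegral_mono
              intro x
              rw [hF]
              dsimp only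
              have e7 : trc u n t x ^ r = trc u n t x ^ (r - 1) * trc u n t x := by
                rcases eq_or_ne (trc u n t x) 0 with h1 | h1
                · rw [h1, mul_zero, ENNReal.zero_rpow_of_pos hr0]
                · have h2 : trc u n t x ≠ ⊤ := by
                    refine ne_top_of_le_ne_top ?_ (trc_le' u n t x)
                    by_cases hx : x ∈ Metric.closedBall (0 : E) n
                    · rw [indicator_of_mem hx]
                      exact ENNReal.natCast_ne_top n
                    · rw [indicator_of_notMem hx]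
                      exact ENNReal.zero_ne_top
                  conv_rhs => rw [← ENNReal.rpow_one (trc u n t x)]
                  rw [← ENNReal.rpow_mul, ← ENNReal.rpow_add _ _ h1 h2]
                  congr 1
                  ring
              rw [e7, ← mul_assoc]
              exact mul_le_mul_right (trc_le u n t x) _
    simp only [e1] at key
    have e8 : A n ≤ B * A n ^ ((q - 1) / q) := by
      rw [hA]
      dsimp only
      exact (lintegral_mono e6).trans key
    rcases eq_or_ne (A n) 0 with h0 | h0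
    · rw [h0]
      exact zero_le
    · have h1 : A n ^ ((q - 1) / q) ≠ 0 := by
        rw [Ne, ENNReal.rpow_eq_zero_iff]
        push Not
        exact ⟨fun h2 => absurd h2 h0, fun h2 => absurd h2 (hAfin n)⟩
      have h2 : A n ^ ((q - 1) / q) ≠ ⊤ := ENNReal.rpow_ne_top_of_nonneg (by positivity) (hAfin n)
      have h3 : A n ^ (1 / q) ≤ B := by
        rw [← ENNReal.mul_le_mul_iff_left h1 h2]
        calc A n ^ (1 / q) * A n ^ ((q - 1) / q) = A n ^ (1 / q + (q - 1) / q) :=
              (ENNReal.rpow_add _ _ h0 (hAfin n)).symm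
          _ = A n := by
              have : 1 / q + (q - 1) / q = 1 := by
                field_simp
                ring
              rw [this, ENNReal.rpow_one]
          _ ≤ _ := e8
      calc A n = (A n ^ (1 / q)) ^ q := by
            rw [← ENNReal.rpow_mul]
            have : 1 / q * q = 1 := by field_simp
            rw [this, ENNReal.rpow_one]
        _ ≤ B ^ q := ENNReal.rpow_le_rpow h3 hq0.le
  -- the limit
  have hlim : Tendsto A atTop (𝓝 (∫⁻ t, (∫⁻ x, u t x ^ r) ^ (q / r))) := by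
    have hmono_a : ∀ t, Monotone fun n => a n t := by
      intro t m n hmn
      rw [ha]
      dsimp only
      apply lintegral_mono
      intro x
      exact ENNReal.rpow_le_rpow (trc_mono u t x hmn) hr0.le
    have hlim_a : ∀ t, Tendsto (fun n => a n t) atTop (𝓝 (∫⁻ x, u t x ^ r)) := by
      intro t
      rw [ha]
      apply lintegral_tendsto_of_tendsto_of_monotone
      · exact fun n => ((hmx n t).pow_const r).aemeasurable
      · exact Eventually.of_forall fun x m n hmn =>
          ENNReal.rpow_le_rpow (trc_mono u t x hmn) hr0.le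
      · exact Eventually.of_forall fun x =>
          (ENNReal.continuous_rpow_const.tendsto _).comp (trc_tendsto u t x)
    rw [hA]
    apply lintegral_tendsto_of_tendsto_of_monotone
    · exact fun n => ((ham n).pow_const _).aemeasurable
    · exact Eventually.of_forall fun t m n hmn => ENNReal.rpow_le_rpow (hmono_a t hmn) hqr.le
    · exact Eventually.of_forall fun t => (ENNReal.continuous_rpow_const.tendsto _).comp (hlim_a t)
  exact le_of_tendsto' hlim hmain

/-! ### The adjoint operator -/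

/-- The majorant of the position field of `tau t k`. -/
noncomputable def uu (k : K) (t : ℝ) (x : E) : ℝ≥0∞ :=
  ∫⁻ w : S, ‖k (w, inner ℝ x (w : E) - t)‖ₑ ∂sg

theorem kmeas (k : K) : Measurable fun z : S × ℝ => ‖k z‖ₑ :=
  (Lp.stronglyMeasurable k).measurable.enorm

theorem uu_meas (k : K) : Measurable (Function.uncurry (uu k)) := by
  have h1 : Measurable fun z : (ℝ × E) × S =>
      ‖k (z.2, inner ℝ z.1.2 (z.2 : E) - z.1.1)‖ₑ :=
    (kmeas k).comp (by fun_prop)
  exact Measurable.lintegral_prod_right' (ν := sg) h1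

/-- The adjoint. -/
noncomputable def kp (F : ℝ → E → ℝ≥0∞) (z : S × ℝ) : ℝ≥0∞ :=
  ∫⁻ x : E, F (inner ℝ x (z.1 : E) - z.2) x

theorem kp_meas {F : ℝ → E → ℝ≥0∞} (hF : Measurable (Function.uncurry F)) :
    Measurable (kp F) := by
  have h1 : Measurable fun q : (S × ℝ) × E => F (inner ℝ q.2 (q.1.1 : E) - q.1.2) q.2 := by
    have h2 : Measurable fun q : (S × ℝ) × E => (inner ℝ q.2 (q.1.1 : E) - q.1.2, q.2) := by
      fun_prop
    exact hF.comp h2
  exact Measurable.lintegral_prod_right' (ν := (volume : Measure E)) h1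

theorem sub_left (c : ℝ) {f : ℝ → ℝ≥0∞} (hf : Measurable f) :
    ∫⁻ p, f (c - p) = ∫⁻ p, f p :=
  (Measure.measurePreserving_sub_left volume c).lintegral_comp hf

theorem pair_eq {F : ℝ → E → ℝ≥0∞} (hF : Measurable (Function.uncurry F)) (k : K) :
    ∫⁻ t, ∫⁻ x, F t x * uu k t x = ∫⁻ z, ‖k z‖ₑ * kp F z ∂mu := by
  have hk := kmeas k
  have hm3 : Measurable fun q : (ℝ × E) × S =>
      F q.1.1 q.1.2 * ‖k (q.2, inner ℝ q.1.2 (q.2 : E) - q.1.1)‖ₑ := by
    apply Measurable.mul
    · exact hF.comp measurable_fst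
    · exact hk.comp (by fun_prop)
  have hm4 : Measurable fun q : (E × S) × ℝ =>
      F q.2 q.1.1 * ‖k (q.1.2, inner ℝ q.1.1 (q.1.2 : E) - q.2)‖ₑ := by
    exact hm3.comp (f := fun q : (E × S) × ℝ => (((q.2, q.1.1), q.1.2) : (ℝ × E) × S))
      (by fun_prop)
  have h1 : ∫⁻ t, ∫⁻ x, F t x * uu k t x =
      ∫⁻ t, ∫⁻ x, ∫⁻ w : S, F t x * ‖k (w, inner ℝ x (w : E) - t)‖ₑ ∂sg := by
    apply lintegral_congr
    intro t
    apply lintegral_congr
    intro x
    unfold uu
    rw [lintegral_const_mul]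
    exact hk.comp (by fun_prop)
  rw [h1]
  -- exchange `t` with `(x, w)`
  have h2 : ∀ t, ∫⁻ x, ∫⁻ w : S, F t x * ‖k (w, inner ℝ x (w : E) - t)‖ₑ ∂sg =
      ∫⁻ q, F t q.1 * ‖k (q.2, inner ℝ q.1 (q.2 : E) - t)‖ₑ ∂((volume : Measure E).prod sg) := by
    intro t
    rw [lintegral_prod]
    exact (hm3.comp (f := fun q : E × S => (((t, q.1), q.2) : (ℝ × E) × S))
      (by fun_prop)).aemeasurable
  simp only [h2]
  have : SFinite ((volume : Measure E).prod sg) := Measure.prod.instSFinite
  rw [lintegral_lintegral_swap]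
  swap
  · exact (hm3.comp (f := fun q : ℝ × (E × S) => (((q.1, q.2.1), q.2.2) : (ℝ × E) × S))
      (by fun_prop)).aemeasurable
  have h3 : ∀ q : E × S, ∫⁻ t, F t q.1 * ‖k (q.2, inner ℝ q.1 (q.2 : E) - t)‖ₑ =
      ∫⁻ p, F (inner ℝ q.1 (q.2 : E) - p) q.1 * ‖k (q.2, p)‖ₑ := by
    intro q
    have hm : Measurable fun p : ℝ => F (inner ℝ q.1 (q.2 : E) - p) q.1 * ‖k (q.2, p)‖ₑ := by
      apply Measurable.mul
      · exact hF.comp (f := fun p : ℝ => ((inner ℝ q.1 (q.2 : E) - p, q.1) : ℝ × E))
          (by fun_prop)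
      · exact hk.comp (by fun_prop)
    have h4 := sub_left (inner ℝ q.1 (q.2 : E)) hm
    rw [← h4]
    apply lintegral_congr
    intro t
    rw [sub_sub_cancel]
  simp only [h3]
  have hm5 : Measurable fun q : (E × S) × ℝ =>
      F (inner ℝ q.1.1 (q.1.2 : E) - q.2) q.1.1 * ‖k (q.1.2, q.2)‖ₑ := by
    apply Measurable.mul
    · exact hF.comp (f := fun q : (E × S) × ℝ =>
        ((inner ℝ q.1.1 (q.1.2 : E) - q.2, q.1.1) : ℝ × E)) (by fun_prop)
    · exact hk.comp (by fun_prop)
  rw [lintegral_prod _ (Measurable.lintegral_prod_right' (ν := (volume : Measure ℝ))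
    hm5).aemeasurable]
  rw [lintegral_lintegral_swap]
  swap
  · exact (Measurable.lintegral_prod_right' (ν := (volume : Measure ℝ)) hm5).aemeasurable
  rw [lintegral_prod]
  swap
  · exact (hk.mul (kp_meas hF)).aemeasurable
  apply lintegral_congr
  intro w
  dsimp only
  rw [lintegral_lintegral_swap]
  swap
  · exact (hm5.comp (f := fun q : E × ℝ => (((q.1, w), q.2) : (E × S) × ℝ))
      (by fun_prop)).aemeasurable
  apply lintegral_congr
  intro p
  unfold kp
  rw [← lintegral_const_mul]
  · apply lintegral_congr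
    intro x
    rw [mul_comm]
  · exact hF.comp (f := fun x : E => ((inner ℝ x (w : E) - p, x) : ℝ × E)) (by fun_prop)

theorem Kc_meas : Measurable fun q : ℝ × E => Kc q.1 q.2 := by
  unfold Kc
  apply Measurable.mul
  · exact measurable_const.div (by fun_prop)
  · apply Measurable.max measurable_const
    apply Measurable.sub measurable_const
    exact Measurable.div (by fun_prop) (by fun_prop)

/-- The spherical integral of a plane wave. -/
theorem sph_le (hSL : St_SL1) {F : ℝ → E → ℝ≥0∞} (hF : Measurable (Function.uncurry F)) (s : ℝ)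
    (y z : E) (hz : z ≠ 0) : ∫⁻ w : S, F (s + inner ℝ z (w : E)) y ∂sg ≤
      ∫⁻ t, ENNReal.ofReal (Kc (t - s) z) * F t y := by
  have hm : Measurable fun p : ℝ => F (s + p) y :=
    hF.comp (f := fun p : ℝ => ((s + p, y) : ℝ × E)) (by fun_prop)
  rw [hSL z hz (fun p => F (s + p) y) hm]
  have hz0 : 0 < ‖z‖ := norm_pos_iff.2 hz
  calc ∫⁻ p in Icc (-‖z‖) ‖z‖,
        ENNReal.ofReal (2 * Real.pi ^ 2 / ‖z‖ * (1 - p ^ 2 / ‖z‖ ^ 2)) * F (s + p) y
      ≤ ∫⁻ p in Icc (-‖z‖) ‖z‖, ENNReal.ofReal (Kc p z) * F (s + p) y := by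
        apply lintegral_mono
        intro p
        dsimp only
        gcongr
        unfold Kc
        gcongr
        exact le_max_right _ _
    _ ≤ ∫⁻ p, ENNReal.ofReal (Kc p z) * F (s + p) y := setLIntegral_le_lintegral _ _
    _ = ∫⁻ p, (fun t => ENNReal.ofReal (Kc (t - s) z) * F t y) (s + p) := by
        apply lintegral_congr
        intro p
        dsimp only
        rw [add_sub_cancel_left]
    _ = _ := lintegral_add_left_eq_self (fun t => ENNReal.ofReal (Kc (t - s) z) * F t y) s

/-- The square of the norm of the adjoint. -/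
theorem sq_le (hSL : St_SL1) {F : ℝ → E → ℝ≥0∞} (hF : Measurable (Function.uncurry F)) :
    ∫⁻ z, kp F z ^ (2 : ℝ) ∂mu ≤ ∫⁻ s, ∫⁻ t, ∫⁻ x, ∫⁻ y,
      F s x * F t y * ENNReal.ofReal (Kc (s - t + 0) (x - y)) := by
  have hk := kp_meas hF
  -- Fubini in the form `w`, `p`
  have h1 : ∫⁻ z, kp F z ^ (2 : ℝ) ∂mu = ∫⁻ w : S, (∫⁻ p, kp F (w, p) * kp F (w, p)) ∂sg := by
    rw [lintegral_prod _ (hk.pow_const _).aemeasurable]
    apply lintegral_congr
    intro w
    apply lintegral_congr
    intro p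
    rw [ENNReal.rpow_two, sq]
  -- the inner integral
  have h2 : ∀ w : S, ∫⁻ p, kp F (w, p) * kp F (w, p) =
      ∫⁻ x : E, ∫⁻ s, F s x * kp F (w, inner ℝ x (w : E) - s) := by
    intro w
    have hm5 : Measurable fun q : ℝ × E => F (inner ℝ q.2 (w : E) - q.1) q.2 * kp F (w, q.1) := by
      apply Measurable.mul
      · exact hF.comp (f := fun q : ℝ × E => ((inner ℝ q.2 (w : E) - q.1, q.2) : ℝ × E))
          (by fun_prop)
      · exact hk.comp (f := fun q : ℝ × E => ((w, q.1) : S × ℝ)) (by fun_prop)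
    have h3 : ∀ p, kp F (w, p) * kp F (w, p) =
        ∫⁻ x : E, F (inner ℝ x (w : E) - p) x * kp F (w, p) := by
      intro p
      rw [lintegral_mul_const]
      · rfl
      · exact hF.comp (f := fun x : E => ((inner ℝ x (w : E) - p, x) : ℝ × E)) (by fun_prop)
    simp only [h3]
    rw [lintegral_lintegral_swap]
    swap
    · exact hm5.aemeasurable
    apply lintegral_congr
    intro x
    have hm : Measurable fun s : ℝ => F s x * kp F (w, inner ℝ x (w : E) - s) := by
      apply Measurable.mul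
      · exact hF.comp (f := fun s : ℝ => ((s, x) : ℝ × E)) (by fun_prop)
      · exact hk.comp (f := fun s : ℝ => ((w, inner ℝ x (w : E) - s) : S × ℝ)) (by fun_prop)
    have h4 := sub_left (inner ℝ x (w : E)) hm
    rw [← h4]
    apply lintegral_congr
    intro p
    rw [sub_sub_cancel]
  have hm6 : Measurable fun q : (S × E) × ℝ =>
      F q.2 q.1.2 * kp F (q.1.1, inner ℝ q.1.2 (q.1.1 : E) - q.2) := by
    apply Measurable.mul
    · exact hF.comp (f := fun q : (S × E) × ℝ => ((q.2, q.1.2) : ℝ × E)) (by fun_prop)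
    · exact hk.comp (f := fun q : (S × E) × ℝ =>
        ((q.1.1, inner ℝ q.1.2 (q.1.1 : E) - q.2) : S × ℝ)) (by fun_prop)
  have h5 : ∫⁻ z, kp F z ^ (2 : ℝ) ∂mu =
      ∫⁻ s, ∫⁻ x : E, ∫⁻ w : S, F s x * kp F (w, inner ℝ x (w : E) - s) ∂sg := by
    rw [h1]
    simp only [h2]
    have e1 : ∫⁻ w : S, (∫⁻ x : E, ∫⁻ s, F s x * kp F (w, inner ℝ x (w : E) - s)) ∂sg =
        ∫⁻ q : S × E, (∫⁻ s, F s q.2 * kp F (q.1, inner ℝ q.2 (q.1 : E) - s))
          ∂(sg.prod (volume : Measure E)) := by
      rw [lintegral_prod]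
      exact (Measurable.lintegral_prod_right' (ν := (volume : Measure ℝ)) hm6).aemeasurable
    have : SFinite (sg.prod (volume : Measure E)) := Measure.prod.instSFinite
    rw [e1, lintegral_lintegral_swap]
    swap
    · exact hm6.aemeasurable
    apply lintegral_congr
    intro s
    rw [lintegral_prod]
    swap
    · exact (hm6.comp (f := fun q : S × E => ((q, s) : (S × E) × ℝ)) (by fun_prop)).aemeasurable
    rw [lintegral_lintegral_swap]
    exact (hm6.comp (f := fun q : S × E => ((q, s) : (S × E) × ℝ)) (by fun_prop)).aemeasurable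
  rw [h5]
  apply lintegral_mono
  intro s
  dsimp only
  -- the integral over the sphere
  have hmy : ∀ x : E, Measurable fun q : S × E => F (s + inner ℝ (q.2 - x) (q.1 : E)) q.2 := by
    intro x
    exact hF.comp (f := fun q : S × E => ((s + inner ℝ (q.2 - x) (q.1 : E), q.2) : ℝ × E))
      (by fun_prop)
  have h6 : ∀ x : E, ∫⁻ w : S, F s x * kp F (w, inner ℝ x (w : E) - s) ∂sg ≤
      ∫⁻ y : E, ∫⁻ t, F s x * (ENNReal.ofReal (Kc (t - s) (y - x)) * F t y) := by
    intro x
    have e1 : ∀ w : S, kp F (w, inner ℝ x (w : E) - s) =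
        ∫⁻ y : E, F (s + inner ℝ (y - x) (w : E)) y := by
      intro w
      unfold kp
      apply lintegral_congr
      intro y
      congr 1
      rw [inner_sub_left]
      ring
    simp only [e1]
    rw [lintegral_const_mul]
    swap
    · exact Measurable.lintegral_prod_right' (ν := (volume : Measure E)) (hmy x)
    rw [lintegral_lintegral_swap (hmy x).aemeasurable, ← lintegral_const_mul]
    swap
    · exact Measurable.lintegral_prod_left' (μ := sg) (hmy x)
    apply lintegral_mono_ae
    have hne : ∀ᵐ y : E, y ≠ x := by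
      rw [ae_iff]
      have : {y : E | ¬ y ≠ x} = {x} := by
        ext y
        simp
      rw [this]
      exact measure_singleton x
    filter_upwards [hne] with y hy
    rw [lintegral_const_mul]
    swap
    · apply Measurable.mul
      · exact (Kc_meas.comp (f := fun t : ℝ => ((t - s, y - x) : ℝ × E)) (by fun_prop)).ennreal_ofReal
      · exact hF.comp (f := fun t : ℝ => ((t, y) : ℝ × E)) (by fun_prop)
    gcongr
    exact sph_le hSL hF s y (y - x) (sub_ne_zero.2 hy)
  refine (lintegral_mono h6).trans (le_of_eq ?_)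
  -- exchange the order
  have hm7 : Measurable fun q : (E × E) × ℝ =>
      F s q.1.1 * (ENNReal.ofReal (Kc (q.2 - s) (q.1.2 - q.1.1)) * F q.2 q.1.2) := by
    apply Measurable.mul
    · exact hF.comp (f := fun q : (E × E) × ℝ => ((s, q.1.1) : ℝ × E)) (by fun_prop)
    · apply Measurable.mul
      · exact (Kc_meas.comp (f := fun q : (E × E) × ℝ => ((q.2 - s, q.1.2 - q.1.1) : ℝ × E))
          (by fun_prop)).ennreal_ofReal
      · exact hF.comp (f := fun q : (E × E) × ℝ => ((q.2, q.1.2) : ℝ × E)) (by fun_prop)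
  have e2 : ∫⁻ x : E, ∫⁻ y : E, ∫⁻ t, F s x * (ENNReal.ofReal (Kc (t - s) (y - x)) * F t y) =
      ∫⁻ q : E × E, (∫⁻ t, F s q.1 * (ENNReal.ofReal (Kc (t - s) (q.2 - q.1)) * F t q.2))
        ∂((volume : Measure E).prod (volume : Measure E)) := by
    rw [lintegral_prod]
    exact (Measurable.lintegral_prod_right' (ν := (volume : Measure ℝ)) hm7).aemeasurable
  rw [e2, lintegral_lintegral_swap]
  swap
  · exact hm7.aemeasurable
  apply lintegral_congr
  intro t
  rw [lintegral_prod]
  swap
  · exact (hm7.comp (f := fun q : E × E => ((q, t) : (E × E) × ℝ)) (by fun_prop)).aemeasurable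
  apply lintegral_congr
  intro x
  apply lintegral_congr
  intro y
  have e3 : Kc (t - s) (y - x) = Kc (s - t + 0) (x - y) := by
    unfold Kc
    rw [norm_sub_rev y x, add_zero]
    congr 4
    ring
  dsimp only
  rw [e3]
  ring

/-- The pairing with the adjoint. -/
theorem core (hSL : St_SL1) {F : ℝ → E → ℝ≥0∞} (hF : Measurable (Function.uncurry F)) (k : K)
    {D : ℝ≥0∞} (hD : ∫⁻ s, ∫⁻ t, ∫⁻ x, ∫⁻ y,
      F s x * F t y * ENNReal.ofReal (Kc (s - t + 0) (x - y)) ≤ D) :
    ∫⁻ t, ∫⁻ x, F t x * uu k t x ≤ ‖k‖ₑ * D ^ (1 / 2 : ℝ) := by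
  rw [pair_eq hF k]
  have h1 := ENNReal.lintegral_mul_le_Lp_mul_Lq mu Real.HolderConjugate.two_two
    (kmeas k).aemeasurable (kp_meas hF).aemeasurable
  refine h1.trans ?_
  have h2 : (∫⁻ z, ‖k z‖ₑ ^ (2 : ℝ) ∂mu) ^ (1 / 2 : ℝ) = ‖k‖ₑ := by
    rw [Lp.enorm_def, eLpNorm_eq_lintegral_rpow_enorm_toReal two_ne_zero ENNReal.ofNat_ne_top]
    simp
  rw [h2]
  gcongr
  exact (sq_le hSL hF).trans hD

/-- A property that holds almost everywhere on `S × ℝ` holds along almost all planes. -/
theorem ae_planes {P : S × ℝ → Prop} (h : ∀ᵐ z ∂mu, P z) :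
    ∀ᵐ x : E, ∀ᵐ w ∂sg, P (w, inner ℝ x (w : E)) := by
  obtain ⟨T, hsub, hT, hT0⟩ := exists_measurable_superset_of_null (ae_iff.1 h)
  have h1 : ∀ᵐ z ∂mu, z ∉ T := by
    rw [ae_iff]
    simpa using hT0
  have h2 := Measure.ae_ae_of_ae_prod h1
  have h3 : ∀ᵐ w ∂sg, ∀ᵐ x : E, ((w, inner ℝ x (w : E)) : S × ℝ) ∉ T := by
    filter_upwards [h2] with w hw
    have hm : MeasurableSet {p : ℝ | ((w, p) : S × ℝ) ∉ T} := by
      have : MeasurableSet ((fun p : ℝ => ((w, p) : S × ℝ)) ⁻¹' Tᶜ) :=
        hT.compl.preimage measurable_prodMk_left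
      exact this
    have hw1 : ‖(w : E)‖ = 1 := by
      have := w.2
      rwa [mem_sphere_zero_iff_norm] at this
    have hsurj : Function.Surjective ((innerSL ℝ (w : E)).toLinearMap : E →ₗ[ℝ] ℝ) := by
      intro c
      refine ⟨c • (w : E), ?_⟩
      change inner ℝ (w : E) (c • (w : E)) = c
      rw [inner_smul_right, real_inner_self_eq_norm_sq, hw1]
      ring
    have h4 := (ae_comp_linearMap_mem_iff ((innerSL ℝ (w : E)).toLinearMap : E →ₗ[ℝ] ℝ)
      (volume : Measure E) (volume : Measure ℝ) hsurj hm).2 hw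
    filter_upwards [h4] with x hx
    rw [real_inner_comm]
    exact hx
  have hm : MeasurableSet {q : S × E | ((q.1, inner ℝ q.2 (q.1 : E)) : S × ℝ) ∉ T} := by
    have : MeasurableSet ((fun q : S × E => ((q.1, inner ℝ q.2 (q.1 : E)) : S × ℝ)) ⁻¹' Tᶜ) :=
      hT.compl.preimage (by fun_prop)
    exact this
  have h5 := (Measure.ae_ae_comm (μ := sg) (ν := (volume : Measure E))
    (p := fun w x => ((w, inner ℝ x (w : E)) : S × ℝ) ∉ T) hm).1 h3
  filter_upwards [h5] with x hx
  filter_upwards [hx] with w hw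
  by_contra hcon
  exact hw (hsub hcon)

/-- The position field is bounded by the majorant. -/
theorem field_le (k : K) (t : ℝ) : ∀ᵐ x : E, ‖U (tau t k) x‖ₑ ≤ uu k t x := by
  have h1 := ae_planes (tau_coe t k)
  filter_upwards [h1] with x hx
  unfold U uu
  refine (enorm_integral_le_lintegral_enorm _).trans (le_of_eq ?_)
  apply lintegral_congr_ae
  filter_upwards [hx] with w hw
  rw [hw]

/-- The norm of the field. -/
theorem norm_le (k : K) (t : ℝ) {r : ℝ} {p : ℝ≥0∞} (hp0 : p ≠ 0) (hpt : p ≠ ⊤) (hpr : p.toReal = r)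
    (hr : 0 < r) (q : ℕ) : eLpNorm (U (tau t k)) p volume ^ q ≤
      (∫⁻ x, uu k t x ^ r) ^ ((q : ℝ) / r) := by
  rw [eLpNorm_eq_lintegral_rpow_enorm_toReal hp0 hpt, hpr, ← ENNReal.rpow_natCast,
    ← ENNReal.rpow_mul]
  have e : 1 / r * (q : ℝ) = (q : ℝ) / r := by ring
  rw [e]
  apply ENNReal.rpow_le_rpow _ (by positivity)
  apply lintegral_mono_ae
  filter_upwards [field_le k t] with x hx
  exact ENNReal.rpow_le_rpow hx hr.le

end Pool.Agent.QWE.Strx

namespace Pool.Agent.QWE

open Strx

/-- **Str**. -/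
theorem thm_Str (hSL : St_SL1) (hK : St_KcB) : St_Str := by
  obtain ⟨C, hC, hKc⟩ := hK
  refine ⟨Real.sqrt C, Real.sqrt_pos.2 hC, fun k => ?_⟩
  have hsq : ENNReal.ofReal C ^ (1 / 2 : ℝ) = ENNReal.ofReal (Real.sqrt C) := by
    rw [ENNReal.ofReal_rpow_of_pos hC, Real.sqrt_eq_rpow]
  have hu := uu_meas k
  constructor
  · have h1 := dual hu (r := 20) (q := 4) (by norm_num) (by norm_num)
      (B := ENNReal.ofReal (Real.sqrt C) * ‖k‖ₑ) (by
        intro F hF
        have h2 := core hSL hF k (hKc F 0 hF).1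
        refine h2.trans (le_of_eq ?_)
        rw [ENNReal.mul_rpow_of_nonneg _ _ (by norm_num), hsq, ← ENNReal.rpow_mul]
        have e1 : (20 : ℝ) / (20 - 1) = 20 / 19 := by norm_num
        have e2 : ((20 : ℝ) - 1) / 20 * (4 / (4 - 1)) = 19 / 15 := by norm_num
        have e3 : ((4 : ℝ) - 1) / 4 = 3 / 2 * (1 / 2) := by norm_num
        rw [e1, e2, e3]
        ring)
    have h3 : ((ENNReal.ofReal (Real.sqrt C) * ‖k‖ₑ) ^ (4 : ℝ)) =
        (ENNReal.ofReal (Real.sqrt C) * ‖k‖ₑ) ^ 4 := by
      rw [← ENNReal.rpow_natCast]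
      norm_num
    rw [← h3]
    refine le_trans (lintegral_mono fun t => ?_) h1
    have h4 := norm_le k t (r := 20) (p := 20) (by norm_num) (by norm_num) (by norm_num)
      (by norm_num) 4
    refine h4.trans (le_of_eq ?_)
    norm_num
  · have h1 := dual hu (r := 30) (q := 3) (by norm_num) (by norm_num)
      (B := ENNReal.ofReal (Real.sqrt C) * ‖k‖ₑ) (by
        intro F hF
        have h2 := core hSL hF k (hKc F 0 hF).2
        refine h2.trans (le_of_eq ?_)
        rw [ENNReal.mul_rpow_of_nonneg _ _ (by norm_num), hsq, ← ENNReal.rpow_mul]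
        have e1 : (30 : ℝ) / (30 - 1) = 30 / 29 := by norm_num
        have e2 : ((30 : ℝ) - 1) / 30 * (3 / (3 - 1)) = 29 / 20 := by norm_num
        have e3 : ((3 : ℝ) - 1) / 3 = 4 / 3 * (1 / 2) := by norm_num
        rw [e1, e2, e3]
        ring)
    have h3 : ((ENNReal.ofReal (Real.sqrt C) * ‖k‖ₑ) ^ (3 : ℝ)) =
        (ENNReal.ofReal (Real.sqrt C) * ‖k‖ₑ) ^ 3 := by
      rw [← ENNReal.rpow_natCast]
      norm_num
    rw [← h3]
    refine le_trans (lintegral_mono fun t => ?_) h1
    have h4 := norm_le k t (r := 30) (p := 30) (by norm_num) (by norm_num) (by norm_num)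
      (by norm_num) 3
    refine h4.trans (le_of_eq ?_)
    norm_num

end Pool.Agent.QWE
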