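import Pool.Agent.QWE.StA
import Pool.Agent.QWE.StB

set_option autoImplicit false

/-!
# QWE, Sym: symmetries of the nonlinear equation
-/

open MeasureTheory Filter Topology Set
open scoped ENNReal NNReal RealInnerProductSpace Pointwise ContDiff

namespace Pool.Agent.QWE

namespace Symx

/-! ### Sources -/

lemma gam_unique (hD : St_Dens) {F : E → ℝ} {w w' : K} (h : IsGam F w) (h' : IsGam F w') :
    w = w' := by
  have key : TS univ ≤ (Submodule.span ℝ {w - w'})ᗮ := by
    refine Submodule.topologicalClosure_minimal _ (Submodule.span_le.2 ?_)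
      (Submodule.isClosed_orthogonal _)
    rintro x ⟨φ, hφ, -, hx⟩
    rw [SetLike.mem_coe, Submodule.mem_orthogonal_singleton_iff_inner_right]
    rcases hx with rfl | rfl
    · rw [inner_sub_left, (h φ hφ).1, (h' φ hφ).1, sub_zero]
    · rw [inner_sub_left, (h φ hφ).2, (h' φ hφ).2, sub_self]
  have h1 : w - w' ∈ (Submodule.span ℝ {w - w'})ᗮ := key (by rw [hD.1]; trivial)
  rw [Submodule.mem_orthogonal_singleton_iff_inner_right] at h1
  exact sub_eq_zero.1 (inner_self_eq_zero.1 h1)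

lemma gam_spec {F : E → ℝ} (h : ∃ w, IsGam F w) : IsGam F (Gam F) := by
  unfold Gam
  rw [dif_pos h]
  exact h.choose_spec

lemma gam_not {F : E → ℝ} (h : ¬ ∃ w, IsGam F w) : Gam F = 0 := by
  unfold Gam
  rw [dif_neg h]

lemma gam_map (hD : St_Dens) {F F' : E → ℝ} (T : K → K) (T0 : T 0 = 0)
    (h1 : ∀ w, IsGam F w → IsGam F' (T w)) (h2 : (∃ w, IsGam F' w) → ∃ w, IsGam F w) :
    Gam F' = T (Gam F) := by
  by_cases h : ∃ w, IsGam F w
  · have h3 := h1 _ (gam_spec h)
    exact gam_unique hD (gam_spec ⟨_, h3⟩) h3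
  · rw [gam_not h, gam_not (fun h' => h (h2 h')), T0]

lemma isGam_congr {F F' : E → ℝ} (hFF : F =ᵐ[volume] F') {w : K} (h : IsGam F w) : IsGam F' w := by
  intro φ hφ
  refine ⟨(h φ hφ).1, (h φ hφ).2.trans (integral_congr_ae ?_)⟩
  filter_upwards [hFF] with x hx
  rw [hx]

lemma gam_congr (hD : St_Dens) {F F' : E → ℝ} (hFF : F =ᵐ[volume] F') : Gam F' = Gam F :=
  gam_map hD id rfl (fun _ h => isGam_congr hFF h) fun ⟨w, h⟩ => ⟨w, isGam_congr hFF.symm h⟩

lemma isSch_of_test {φ : E → ℝ} (h : IsTest φ) : IsSch φ :=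
  ⟨h.2.toSchwartzMap h.1, fun _ => rfl⟩

lemma isGam_iff (hU : St_UTest) (hF : St_Fld) {F : E → ℝ} {w : K} :
    IsGam F w ↔ ∀ φ, IsTest φ → ∫ x, U w x * φ x = 0 ∧ ∫ x, V w x * φ x = ∫ x, F x * φ x := by
  obtain ⟨C, -, hF⟩ := hF
  have h1 : ∀ φ, IsTest φ → ∫ x, U w x * φ x = inner ℝ w (Rk φ) :=
    fun φ hφ => hU.2.2 w φ (isSch_of_test hφ)
  have h2 : ∀ φ, IsTest φ → ∫ x, V w x * φ x = inner ℝ w (dRk φ) := (hF w).2.1.1.2
  constructor
  · intro h φ hφ
    rw [h1 φ hφ, h2 φ hφ]
    exact h φ hφ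
  · intro h φ hφ
    rw [← h1 φ hφ, ← h2 φ hφ]
    exact h φ hφ

lemma test_shift {φ : E → ℝ} (h : IsTest φ) (y : E) : IsTest fun x => φ (x + y) := by
  refine ⟨h.1.comp (contDiff_id.add contDiff_const), ?_⟩
  exact h.2.comp_homeomorph (Homeomorph.addRight y)

lemma test_scale {φ : E → ℝ} (h : IsTest φ) {c : ℝ} (hc : c ≠ 0) : IsTest fun x => φ (c • x) := by
  refine ⟨h.1.comp (contDiff_const_smul c), ?_⟩
  exact h.2.comp_homeomorph (Homeomorph.smulOfNeZero c hc)

lemma isGam_sh (hU : St_UTest) (hF : St_Fld) (hA : St_Act) (y : E) {F : E → ℝ} {w : K}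
    (h : IsGam F w) : IsGam (fun x => F (x - y)) (sh y w) := by
  rw [isGam_iff hU hF] at h ⊢
  intro φ hφ
  have h1 := h _ (test_shift hφ y)
  have e1 : ∫ x, U (sh y w) x * φ x = ∫ x, U w x * φ (x + y) := by
    refine (integral_congr_ae ?_).trans
      (integral_sub_right_eq_self (fun x => U w x * φ (x + y)) y)
    filter_upwards [(hA.1 y w).1] with x hx
    rw [hx, sub_add_cancel]
  have e2 : ∫ x, V (sh y w) x * φ x = ∫ x, V w x * φ (x + y) := by
    refine (integral_congr_ae ?_).trans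
      (integral_sub_right_eq_self (fun x => V w x * φ (x + y)) y)
    filter_upwards [(hA.1 y w).2] with x hx
    rw [hx, sub_add_cancel]
  have e3 : ∫ x, F (x - y) * φ x = ∫ x, F x * φ (x + y) := by
    refine (integral_congr_ae (Eventually.of_forall fun x => ?_)).trans
      (integral_sub_right_eq_self (fun x => F x * φ (x + y)) y)
    simp only [sub_add_cancel]
  rw [e1, e2, e3]
  exact h1

lemma isGam_dl (hU : St_UTest) (hF : St_Fld) (hA : St_Act) (a : ℝ) {F : E → ℝ} {w : K}
    (h : IsGam F w) :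
    IsGam (fun x => Real.exp (3 * a / 2) * F (Real.exp a • x)) (dl a w) := by
  rw [isGam_iff hU hF] at h ⊢
  intro φ hφ
  have hc : (Real.exp a)⁻¹ ≠ 0 := inv_ne_zero (Real.exp_pos a).ne'
  have h1 := h _ (test_scale hφ hc)
  have hs : ∀ G : E → ℝ, ∫ x, G (Real.exp a • x) * φ x =
      |((Real.exp a) ^ (Module.finrank ℝ E))⁻¹| * ∫ x, G x * φ ((Real.exp a)⁻¹ • x) := by
    intro G
    have h2 := Measure.integral_comp_smul (volume : Measure E)
      (fun x => G x * φ ((Real.exp a)⁻¹ • x)) (Real.exp a)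
    rw [smul_eq_mul] at h2
    rw [← h2]
    refine integral_congr_ae (Eventually.of_forall fun x => ?_)
    simp only
    rw [smul_smul, inv_mul_cancel₀ (Real.exp_pos a).ne', one_smul]
  have e1 : ∫ x, U (dl a w) x * φ x = Real.exp (a / 2) * ∫ x, U w (Real.exp a • x) * φ x := by
    rw [← integral_const_mul]
    refine integral_congr_ae ?_
    filter_upwards [(hA.2.1 a w).1] with x hx
    rw [hx, mul_assoc]
  have e2 : ∫ x, V (dl a w) x * φ x =
      Real.exp (3 * a / 2) * ∫ x, V w (Real.exp a • x) * φ x := by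
    rw [← integral_const_mul]
    refine integral_congr_ae ?_
    filter_upwards [(hA.2.1 a w).2] with x hx
    rw [hx, mul_assoc]
  have e3 : ∫ x, Real.exp (3 * a / 2) * F (Real.exp a • x) * φ x =
      Real.exp (3 * a / 2) * ∫ x, F (Real.exp a • x) * φ x := by
    rw [← integral_const_mul]
    refine integral_congr_ae (Eventually.of_forall fun x => ?_)
    simp only
    rw [mul_assoc]
  rw [e1, e2, e3, hs, hs, hs, h1.1, h1.2, mul_zero, mul_zero]
  exact ⟨rfl, rfl⟩

lemma isGam_rev (hU : St_UTest) (hF : St_Fld) (hA : St_Act) {F : E → ℝ} {w : K}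
    (h : IsGam F w) : IsGam (fun x => - F x) (rev w) := by
  rw [isGam_iff hU hF] at h ⊢
  intro φ hφ
  have e1 : ∫ x, U (rev w) x * φ x = ∫ x, U w x * φ x := by
    refine integral_congr_ae ?_
    filter_upwards [(hA.2.2.1 w).1] with x hx
    rw [hx]
  have e2 : ∫ x, V (rev w) x * φ x = - ∫ x, V w x * φ x := by
    rw [← integral_neg]
    refine integral_congr_ae ?_
    filter_upwards [(hA.2.2.1 w).2] with x hx
    rw [hx, neg_mul]
  have e3 : ∫ x, - F x * φ x = - ∫ x, F x * φ x := by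
    rw [← integral_neg]
    simp only [neg_mul]
  rw [e1, e2, e3, (h φ hφ).1, (h φ hφ).2]
  exact ⟨rfl, rfl⟩

lemma isGam_smul (c : ℝ) {F : E → ℝ} {w : K} (h : IsGam F w) :
    IsGam (fun x => c * F x) (c • w) := by
  intro φ hφ
  rw [real_inner_smul_left, real_inner_smul_left, (h φ hφ).1, (h φ hφ).2, mul_zero,
    ← integral_const_mul]
  refine ⟨rfl, ?_⟩
  simp only [mul_assoc]

lemma NL_sh (hD : St_Dens) (hU : St_UTest) (hF : St_Fld) (hA : St_Act) (y : E) (k : K) :
    NL (sh y k) = sh y (NL k) := by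
  have h1 : Gam (fun x => U (sh y k) x ^ 5) = Gam fun x => U k (x - y) ^ 5 := by
    refine gam_congr hD ?_
    filter_upwards [(hA.1 y k).1] with x hx
    rw [hx]
  unfold NL
  rw [h1]
  refine gam_map hD (F := fun x => U k x ^ 5) (fun w => sh y w) (map_zero _)
    (fun w h => isGam_sh hU hF hA y h) ?_
  rintro ⟨w, h⟩
  refine ⟨sh (-y) w, ?_⟩
  have h2 := isGam_sh hU hF hA (-y) h
  simp only [sub_neg_eq_add, add_sub_cancel_right] at h2
  exact h2

lemma NL_rev (hD : St_Dens) (hU : St_UTest) (hF : St_Fld) (hA : St_Act) (k : K) :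
    NL (rev k) = - rev (NL k) := by
  have h1 : Gam (fun x => U (rev k) x ^ 5) = Gam fun x => U k x ^ 5 := by
    refine gam_congr hD ?_
    filter_upwards [(hA.2.2.1 k).1] with x hx
    rw [hx]
  unfold NL
  rw [h1]
  refine gam_map hD (F := fun x => U k x ^ 5) (fun w => - rev w) (by simp) ?_ (fun h => h)
  intro w h
  have h2 := isGam_smul (-1) (isGam_rev hU hF hA h)
  simp only [neg_mul, one_mul, neg_neg, neg_smul, one_smul] at h2
  exact h2

lemma NL_dl (hD : St_Dens) (hU : St_UTest) (hF : St_Fld) (hA : St_Act) (a : ℝ) (k : K) :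
    NL (dl a k) = Real.exp a • dl a (NL k) := by
  have h1 : Gam (fun x => U (dl a k) x ^ 5) =
      Gam fun x => Real.exp a * (Real.exp (3 * a / 2) * U k (Real.exp a • x) ^ 5) := by
    refine gam_congr hD ?_
    filter_upwards [(hA.2.1 a k).1] with x hx
    rw [hx, mul_pow, ← Real.exp_nat_mul, ← mul_assoc, ← Real.exp_add]
    congr 2
    push_cast
    ring
  unfold NL
  rw [h1]
  refine gam_map hD (F := fun x => U k x ^ 5) (fun w => Real.exp a • dl a w) (by simp) ?_ ?_
  · intro w h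
    exact isGam_smul (Real.exp a) (isGam_dl hU hF hA a h)
  · rintro ⟨w, h⟩
    refine ⟨_, isGam_congr (Eventually.of_forall fun x => ?_)
      (isGam_smul (Real.exp (-a)) (isGam_dl hU hF hA (-a) h))⟩
    rw [smul_smul, ← Real.exp_add, add_neg_cancel, Real.exp_zero, one_smul]
    have e1 : Real.exp (3 * -a / 2) * Real.exp (3 * a / 2) = 1 := by
      rw [← Real.exp_add]
      have : 3 * -a / 2 + 3 * a / 2 = 0 := by ring
      rw [this, Real.exp_zero]
    have e2 : Real.exp (-a) * Real.exp a = 1 := by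
      rw [← Real.exp_add, neg_add_cancel, Real.exp_zero]
    calc Real.exp (-a) * (Real.exp (3 * -a / 2) *
          (Real.exp a * (Real.exp (3 * a / 2) * U k x ^ 5)))
        = (Real.exp (-a) * Real.exp a) * (Real.exp (3 * -a / 2) * Real.exp (3 * a / 2)) *
          U k x ^ 5 := by ring
      _ = U k x ^ 5 := by rw [e1, e2, one_mul, one_mul]

/-! ### The Strichartz norm -/

lemma sn_sh (hF : St_Fld) (hA : St_Act) (y : E) (k : K) : sn (sh y k) = sn k := by
  unfold sn
  rw [eLpNorm_congr_ae (hA.1 y k).1]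
  obtain ⟨C, -, hF⟩ := hF
  have hm : AEStronglyMeasurable (U k) volume := (hF k).1.1.1
  exact eLpNorm_comp_measurePreserving hm (measurePreserving_sub_right volume y)

lemma sn_rev (hA : St_Act) (k : K) : sn (rev k) = sn k := by
  unfold sn
  rw [eLpNorm_congr_ae (hA.2.2.1 k).1]

lemma sn_dl (hF : St_Fld) (hA : St_Act) (a : ℝ) (k : K) :
    sn (dl a k) = ENNReal.ofReal (Real.exp (a / 4)) * sn k := by
  unfold sn
  rw [eLpNorm_congr_ae (hA.2.1 a k).1]
  obtain ⟨C, -, hF⟩ := hF
  have hm : AEStronglyMeasurable (U k) volume := (hF k).1.1.1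
  have hmap : Measure.map (fun x : E => Real.exp a • x) volume =
      ENNReal.ofReal (Real.exp (-5 * a)) • (volume : Measure E) := by
    have h1 := Measure.map_addHaar_smul (volume : Measure E) (Real.exp_pos a).ne'
    rw [h1, finrank_euclideanSpace_fin, ← Real.exp_nat_mul, ← Real.exp_neg,
      abs_of_pos (Real.exp_pos _)]
    congr 3
    push_cast
    ring
  have h2 : eLpNorm (U k ∘ fun x : E => Real.exp a • x) 20 volume =
      eLpNorm (U k) 20 (Measure.map (fun x : E => Real.exp a • x) volume) := by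
    rw [eLpNorm_map_measure _ (by fun_prop)]
    rw [hmap]
    exact hm.mono_ac Measure.smul_absolutelyContinuous
  have h3 : eLpNorm (fun x : E => U k (Real.exp a • x)) 20 volume =
      ENNReal.ofReal (Real.exp (-a / 4)) * eLpNorm (U k) 20 volume := by
    change eLpNorm (U k ∘ fun x : E => Real.exp a • x) 20 volume = _
    rw [h2, hmap, eLpNorm_smul_measure_of_ne_top (by norm_num)]
    simp only [smul_eq_mul]
    congr 1
    rw [ENNReal.ofReal_rpow_of_pos (Real.exp_pos _), ← Real.exp_mul]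
    congr 2
    norm_num
    ring
  have h4 : (fun x : E => Real.exp (a / 2) * U k (Real.exp a • x)) =
      Real.exp (a / 2) • fun x : E => U k (Real.exp a • x) := rfl
  rw [h4, eLpNorm_const_smul, h3, ← mul_assoc, Real.enorm_eq_ofReal (Real.exp_pos _).le,
    ← ENNReal.ofReal_mul (Real.exp_pos _).le, ← Real.exp_add]
  congr 3
  ring

lemma SN_shift (k : ℝ → K) (J : Set ℝ) (c : ℝ) :
    SN {t | t + c ∈ J} (fun t => k (t + c)) = SN J k := by
  unfold SN
  exact (measurePreserving_add_right volume c).setLIntegral_comp_preimage_emb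
    (Homeomorph.addRight c).measurableEmbedding (fun t => sn (k t) ^ 4) J

lemma SN_rev (hA : St_Act) (k : ℝ → K) (J : Set ℝ) :
    SN {t | -t ∈ J} (fun t => rev (k (-t))) = SN J k := by
  unfold SN
  simp only [sn_rev hA]
  exact (Measure.measurePreserving_neg volume).setLIntegral_comp_preimage_emb
    (Homeomorph.neg ℝ).measurableEmbedding (fun t => sn (k t) ^ 4) J

lemma SN_dl (hF : St_Fld) (hA : St_Act) (k : ℝ → K) (J : Set ℝ) (a : ℝ) :
    SN {t | Real.exp a * t ∈ J} (fun t => dl a (k (Real.exp a * t))) = SN J k := by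
  unfold SN
  simp only [sn_dl hF hA, mul_pow]
  have h1 : ENNReal.ofReal (Real.exp (a / 4)) ^ 4 = ENNReal.ofReal (Real.exp a) := by
    rw [← ENNReal.ofReal_pow (Real.exp_pos _).le, ← Real.exp_nat_mul]
    congr 2
    push_cast
    ring
  rw [h1, lintegral_const_mul' _ _ ENNReal.ofReal_ne_top]
  have hemb : MeasurableEmbedding (fun t : ℝ => Real.exp a * t) :=
    (Homeomorph.mulLeft₀ (Real.exp a) (Real.exp_pos a).ne').measurableEmbedding
  have h2 : ∫⁻ t in {t | Real.exp a * t ∈ J}, sn (k (Real.exp a * t)) ^ 4 =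
      ∫⁻ t in J, sn (k t) ^ 4 ∂(Measure.map (fun t : ℝ => Real.exp a * t) volume) := by
    rw [hemb.restrict_map, hemb.lintegral_map]
    rfl
  rw [h2, Real.map_volume_mul_left (Real.exp_pos a).ne', Measure.restrict_smul,
    lintegral_smul_measure, abs_of_pos (inv_pos.2 (Real.exp_pos a)), smul_eq_mul, ← mul_assoc,
    ← ENNReal.ofReal_mul (Real.exp_pos a).le, mul_inv_cancel₀ (Real.exp_pos a).ne',
    ENNReal.ofReal_one, one_mul]

/-! ### Solutions -/

lemma sol_shift {I : Set ℝ} {k : ℝ → K} (h : IsSol I k) (c : ℝ) :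
    IsSol {t | t + c ∈ I} (fun t => k (t + c)) := by
  refine ⟨?_, ?_, ?_, ?_⟩
  · refine ⟨fun x hx y hy z hz => ?_⟩
    exact h.1.out hx hy ⟨add_le_add_left hz.1 c, add_le_add_left hz.2 c⟩
  · exact h.2.1.comp (by fun_prop) fun t ht => ht
  · intro a ha b hb
    have h1 := h.2.2.1 _ ha _ hb
    rw [← SN_shift k (Icc (a + c) (b + c)) c] at h1
    have h2 : {t : ℝ | t + c ∈ Icc (a + c) (b + c)} = Icc a b := by
      ext t
      simp
    rw [h2] at h1
    exact h1
  · intro s hs t ht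
    have h1 := h.2.2.2 _ hs _ ht
    have h2 : ∫ r in s..t, tau (t - r) (NL (k (r + c))) =
        ∫ r in (s + c)..(t + c), tau (t + c - r) (NL (k r)) := by
      rw [← intervalIntegral.integral_comp_add_right]
      simp only [add_sub_add_right_eq_sub]
    simp only
    rw [h2, h1, add_sub_add_right_eq_sub]

lemma iint_comp (L : K →ₗᵢ[ℝ] K) (f : ℝ → K) (s t : ℝ) :
    L (∫ r in s..t, f r) = ∫ r in s..t, L (f r) := by
  simp only [intervalIntegral, map_sub, LinearIsometry.integral_comp_comm]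

lemma sol_sh (hG1 : St_Grp1) (hD : St_Dens) (hU : St_UTest) (hF : St_Fld) (hA : St_Act)
    {I : Set ℝ} {k : ℝ → K} (h : IsSol I k) (y : E) : IsSol I (fun t => sh y (k t)) := by
  refine ⟨h.1, ?_, ?_, ?_⟩
  · exact (sh y).continuous.comp_continuousOn h.2.1
  · intro a ha b hb
    unfold SN
    simp only [sn_sh hF hA]
    exact h.2.2.1 a ha b hb
  · intro s hs t ht
    simp only
    rw [h.2.2.2 s hs t ht, map_sub, iint_comp, hG1.2.2.2.2.1]
    congr 1
    refine intervalIntegral.integral_congr fun r _ => ?_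
    rw [NL_sh hD hU hF hA, hG1.2.2.2.2.1]

lemma sol_dl (hG2 : St_Grp2) (hD : St_Dens) (hU : St_UTest) (hF : St_Fld) (hA : St_Act)
    {I : Set ℝ} {k : ℝ → K} (h : IsSol I k) (a : ℝ) :
    IsSol {t | Real.exp a * t ∈ I} (fun t => dl a (k (Real.exp a * t))) := by
  have hc := Real.exp_pos a
  refine ⟨?_, ?_, ?_, ?_⟩
  · refine ⟨fun x hx y hy z hz => ?_⟩
    exact h.1.out hx hy ⟨mul_le_mul_of_nonneg_left hz.1 hc.le, mul_le_mul_of_nonneg_left hz.2 hc.le⟩
  · exact (dl a).continuous.comp_continuousOn (h.2.1.comp (by fun_prop) fun t ht => ht)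
  · intro x hx y hy
    have h1 := h.2.2.1 _ hx _ hy
    rw [← SN_dl hF hA k (Icc (Real.exp a * x) (Real.exp a * y)) a] at h1
    have h2 : {t : ℝ | Real.exp a * t ∈ Icc (Real.exp a * x) (Real.exp a * y)} = Icc x y := by
      ext t
      simp only [mem_ofPred_eq, mem_Icc, mul_le_mul_iff_right₀ hc]
    rw [h2] at h1
    exact h1
  · intro s hs t ht
    have h1 := h.2.2.2 _ hs _ ht
    have h2 : ∫ r in (Real.exp a * s)..(Real.exp a * t), dl a (tau (Real.exp a * t - r) (NL (k r))) =
        ∫ r in s..t, tau (t - r) (NL (dl a (k (Real.exp a * r)))) := by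
      have h3 := intervalIntegral.smul_integral_comp_mul_left
        (f := fun r => dl a (tau (Real.exp a * t - r) (NL (k r)))) (a := s) (b := t) (Real.exp a)
      rw [← h3, ← intervalIntegral.integral_smul]
      refine intervalIntegral.integral_congr fun r _ => ?_
      rw [NL_dl hD hU hF hA, map_smul, hG2.2.2.2.1, mul_sub]
    simp only
    rw [h1, map_sub, iint_comp, h2, hG2.2.2.2.1, mul_sub]

lemma sol_rev (hG2 : St_Grp2) (hD : St_Dens) (hU : St_UTest) (hF : St_Fld) (hA : St_Act)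
    {I : Set ℝ} {k : ℝ → K} (h : IsSol I k) :
    IsSol {t | -t ∈ I} (fun t => rev (k (-t))) := by
  refine ⟨?_, ?_, ?_, ?_⟩
  · refine ⟨fun x hx y hy z hz => ?_⟩
    exact h.1.out hy hx ⟨neg_le_neg hz.2, neg_le_neg hz.1⟩
  · exact rev.continuous.comp_continuousOn (h.2.1.comp (by fun_prop) fun t ht => ht)
  · intro x hx y hy
    have h1 := h.2.2.1 _ hy _ hx
    rw [← SN_rev hA k (Icc (-y) (-x))] at h1
    have h2 : {t : ℝ | -t ∈ Icc (-y) (-x)} = Icc x y := by
      ext t
      simp only [mem_ofPred_eq, mem_Icc, neg_le_neg_iff]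
      exact and_comm
    rw [h2] at h1
    exact h1
  · intro s hs t ht
    have h1 := h.2.2.2 _ hs _ ht
    have h2 : ∫ r in (-s)..(-t), rev (tau (-t - r) (NL (k r))) =
        ∫ r in s..t, tau (t - r) (NL (rev (k (-r)))) := by
      have h3 := intervalIntegral.integral_comp_neg
        (f := fun r => rev (tau (-t - r) (NL (k r)))) (a := s) (b := t)
      rw [intervalIntegral.integral_symm, ← h3, ← intervalIntegral.integral_neg]
      refine intervalIntegral.integral_congr fun r _ => ?_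
      rw [NL_rev hD hU hF hA, map_neg, hG2.2.2.2.2.2.1]
      congr 3
      ring
    simp only
    rw [h1, map_sub, iint_comp, h2, hG2.2.2.2.2.2.1]
    congr 3
    ring

end Symx

open Symx

theorem thm_Sym (hG1 : St_Grp1) (hG2 : St_Grp2) (hD : St_Dens) (hU : St_UTest) (hF : St_Fld)
    (hA : St_Act) : St_Sym := by
  refine ⟨sn_sh hF hA, sn_dl hF hA, sn_rev hA, NL_sh hD hU hF hA, NL_dl hD hU hF hA,
    NL_rev hD hU hF hA, ?_, ?_⟩
  · intro I k h
    exact ⟨sol_shift h, sol_sh hG1 hD hU hF hA h, sol_dl hG2 hD hU hF hA h,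
      sol_rev hG2 hD hU hF hA h⟩
  · intro J k _
    refine ⟨SN_shift k J, ?_, SN_dl hF hA k J, SN_rev hA k J⟩
    intro y
    unfold SN
    simp only [sn_sh hF hA]

end Pool.Agent.QWE
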