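import Pool.Agent.QWE.StA
import Pool.Agent.QWE.StC

set_option autoImplicit false

/-!
# QWE, module Tga: uniform tightness of compact sets
-/

open MeasureTheory Filter Topology Set
open scoped ENNReal NNReal RealInnerProductSpace

namespace Pool.Agent.QWE

theorem thm_Tga (h : St_ExB) : St_Tga := by
  intro Q hQ ε hε
  obtain ⟨t, htQ, htf, hcov⟩ := hQ.finite_cover_balls (half_pos hε)
  have h1 : ∀ᶠ R : ℝ in atTop, ∀ κ ∈ t, ex (ext 0 R) κ < ε / 2 := by
    rw [Filter.eventually_all_finite htf]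
    intro κ _
    exact (h.2.2.2.2.2.2.2.2.2.1 κ).eventually_lt_const (half_pos hε)
  obtain ⟨R1, hR1⟩ := eventually_atTop.mp h1
  refine ⟨max R1 1, lt_of_lt_of_le one_pos (le_max_right _ _), fun R hR κ hκ => ?_⟩
  have h2 := hcov hκ
  rw [mem_iUnion₂] at h2
  obtain ⟨κ', hκ', hb⟩ := h2
  have h3 := hR1 R ((le_max_left _ _).trans hR) κ' hκ'
  have h4 := h.1 (ext 0 R) κ κ'
  have h5 : ‖κ - κ'‖ < ε / 2 := by
    rw [← dist_eq_norm]
    exact Metric.mem_ball.mp hb
  have h6 := (abs_le.mp h4).2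
  linarith

end Pool.Agent.QWE
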