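import Pool.Agent.QWE.StC

set_option autoImplicit false

/-!
# QWE, module Tgt
-/

open MeasureTheory Filter Topology Set
open scoped ENNReal NNReal RealInnerProductSpace

namespace Pool.Agent.QWE

theorem thm_Tgt (h1 : St_Tga) (h2 : St_GrA) : St_Tgt := by
  intro Q k x a hN ε hε
  obtain ⟨⟨hQ, h0, hmax, hk⟩, ha⟩ := hN
  obtain ⟨R0, hR0, hR⟩ := h1 Q hQ ε hε
  refine ⟨2 * R0, by linarith, fun R hRR t => ?_⟩
  obtain ⟨κ, hκ, hkt⟩ := hk t (mem_univ t)
  rw [hkt, h2.2.2.2.2.2.2.2.2.1, sub_self, smul_zero]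
  refine hR _ ?_ κ hκ
  have h3 : (1 : ℝ) / 2 ≤ Real.exp (a t) := by
    have h4 := Real.exp_le_exp.mpr (ha t)
    rw [Real.exp_neg, Real.exp_log (by norm_num)] at h4
    linarith
  have h5 := mul_le_mul h3 hRR (by linarith) (Real.exp_pos _).le
  linarith

end Pool.Agent.QWE
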