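import Pool.Agent.QWE.StA
import Pool.Agent.QWE.StB

set_option autoImplicit false

/-!
# QWE, Uniq: uniqueness of solutions
-/

open MeasureTheory Filter Topology Set
open scoped ENNReal NNReal RealInnerProductSpace Pointwise

namespace Pool.Agent.QWE

namespace Uniqx

/-! ### Measurability and integrability -/

lemma tau_cont (h1 : St_Grp1) : Continuous fun q : K × ℝ => tau q.2 q.1 := by
  obtain ⟨-, -, -, -, -, -, -, hc, -⟩ := h1
  exact continuous_prod_of_continuous_lipschitzWith _ 1 (fun k => hc k)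
    (fun t => (tau t).lipschitz)

lemma tau_int (h1 : St_Grp1) {G : ℝ → K} {s : Set ℝ} (hG : IntegrableOn G s volume) (t : ℝ) :
    IntegrableOn (fun r => tau (t - r) (G r)) s volume := by
  have h2 : Continuous fun r : ℝ => t - r := continuous_const.sub continuous_id
  have h3 : AEStronglyMeasurable (fun r => ((G r, t - r) : K × ℝ)) (volume.restrict s) :=
    hG.aestronglyMeasurable.prodMk h2.aestronglyMeasurable
  have hm := (tau_cont h1).comp_aestronglyMeasurable h3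
  have h4 : Integrable (fun r => ‖G r‖) (volume.restrict s) := hG.norm
  have h5 : ∀ r, ‖tau (t - r) (G r)‖ ≤ ‖G r‖ := fun r => by rw [LinearIsometry.norm_map]
  exact Integrable.mono' h4 hm (Eventually.of_forall h5)

lemma sn_meas (hM : St_Meas) {k : ℝ → K} {J : Set ℝ} (hJ : MeasurableSet J)
    (hk : AEStronglyMeasurable k (volume.restrict J)) :
    AEMeasurable (fun r => sn (k r)) (volume.restrict J) := by
  have h := (hM k J hJ hk).1 20 univ (by norm_num) MeasurableSet.univ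
  simp only [indicator_univ] at h
  exact h

lemma sn_ae (hM : St_Meas) {k : ℝ → K} {J : Set ℝ} (hJ : MeasurableSet J)
    (hk : AEStronglyMeasurable k (volume.restrict J)) (hs : SN J k < ⊤) :
    ∀ᵐ r ∂(volume.restrict J), sn (k r) < ⊤ := by
  have h := ae_lt_top' ((sn_meas hM hJ hk).pow_const 4) hs.ne
  filter_upwards [h] with r hr
  exact (ENNReal.pow_lt_top_iff.1 hr).resolve_right (by norm_num)

lemma enorm_le {x : K} {B : ℝ} (h : ‖x‖ ≤ B) : ‖x‖ₑ ≤ ENNReal.ofReal B := by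
  rw [← ofReal_norm]
  exact ENNReal.ofReal_le_ofReal h

lemma NL_int (hN : St_NLb) (hM : St_Meas) {k : ℝ → K} {J : Set ℝ} (hJ : MeasurableSet J)
    (hk : AEStronglyMeasurable k (volume.restrict J)) {B : ℝ} (hB : ∀ t ∈ J, ‖k t‖ ≤ B)
    (hs : SN J k < ⊤) : IntegrableOn (fun r => NL (k r)) J volume := by
  obtain ⟨⟨C, hC, h1, -⟩, -⟩ := hN
  refine ⟨(hM k J hJ hk).2 (sn_ae hM hJ hk hs), ?_⟩
  have h2 : ∫⁻ r in J, ‖NL (k r)‖ₑ ≤
      ∫⁻ r in J, ENNReal.ofReal C * ENNReal.ofReal B * sn (k r) ^ 4 := by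
    refine lintegral_mono_ae ?_
    filter_upwards [ae_restrict_mem hJ] with r hr
    have h3 := enorm_le (hB r hr)
    calc ‖NL (k r)‖ₑ ≤ ENNReal.ofReal C * sn (k r) ^ 4 * ‖k r‖ₑ := h1 (k r)
      _ = ENNReal.ofReal C * ‖k r‖ₑ * sn (k r) ^ 4 := by ring
      _ ≤ ENNReal.ofReal C * ENNReal.ofReal B * sn (k r) ^ 4 := by gcongr
  refine lt_of_le_of_lt h2 ?_
  rw [lintegral_const_mul' _ _ (ENNReal.mul_ne_top ENNReal.ofReal_ne_top ENNReal.ofReal_ne_top)]
  exact ENNReal.mul_lt_top (ENNReal.mul_lt_top ENNReal.ofReal_lt_top ENNReal.ofReal_lt_top) hs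

lemma SN_congr {J : Set ℝ} (hJ : MeasurableSet J) {k k' : ℝ → K} (h : ∀ t ∈ J, k t = k' t) :
    SN J k = SN J k' := by
  unfold SN
  exact setLIntegral_congr_fun hJ fun t ht => by simp only [h t ht]

lemma two_pow : (2 : ℝ≥0∞) ^ ((4 : ℝ) - 1) = 8 := by
  have h : (4 : ℝ) - 1 = ((3 : ℕ) : ℝ) := by norm_num
  rw [h, ENNReal.rpow_natCast]
  norm_num

/-- Hölder's inequality in time. -/
lemma holder (hM : St_Meas) {k k' : ℝ → K} {J : Set ℝ} (hJ : MeasurableSet J)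
    (hk : AEStronglyMeasurable k (volume.restrict J))
    (hk' : AEStronglyMeasurable k' (volume.restrict J)) :
    ∫⁻ r in J, (sn (k r) + sn (k' r)) ^ 3 * sn (k r - k' r) ≤
      (8 * (SN J k + SN J k')) ^ (3 / 4 : ℝ) * SN J (fun r => k r - k' r) ^ (1 / 4 : ℝ) := by
  have hp : Real.HolderConjugate (4 / 3) 4 := Real.holderConjugate_iff.2 ⟨by norm_num, by norm_num⟩
  have m1 := sn_meas hM hJ hk
  have m2 := sn_meas hM hJ hk'
  have m3 := sn_meas hM hJ (hk.sub hk')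
  have h1 := ENNReal.lintegral_mul_le_Lp_mul_Lq (volume.restrict J) hp
    (f := fun r => (sn (k r) + sn (k' r)) ^ 3) (g := fun r => sn (k r - k' r))
    ((m1.add m2).pow_const 3) m3
  refine h1.trans ?_
  have e1 : (1 : ℝ) / (4 / 3) = 3 / 4 := by norm_num
  rw [e1]
  refine mul_le_mul' (ENNReal.rpow_le_rpow ?_ (by norm_num)) ?_
  · have h2 : ∀ r, ((sn (k r) + sn (k' r)) ^ 3) ^ (4 / 3 : ℝ) ≤
        8 * (sn (k r) ^ 4 + sn (k' r) ^ 4) := by
      intro r
      have e2 : ((sn (k r) + sn (k' r)) ^ 3) ^ (4 / 3 : ℝ) = (sn (k r) + sn (k' r)) ^ (4 : ℝ) := by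
        rw [← ENNReal.rpow_natCast, ← ENNReal.rpow_mul]
        norm_num
      have h3 := ENNReal.rpow_add_le_mul_rpow_add_rpow (sn (k r)) (sn (k' r))
        (by norm_num : (1 : ℝ) ≤ 4)
      have e3 : ∀ x : ℝ≥0∞, x ^ (4 : ℝ) = x ^ 4 := by
        intro x
        have e4 : (4 : ℝ) = ((4 : ℕ) : ℝ) := by norm_num
        rw [e4, ENNReal.rpow_natCast]
      rw [two_pow, e3, e3, e3] at h3
      rw [e2, e3]
      exact h3
    refine (lintegral_mono h2).trans ?_
    rw [lintegral_const_mul' _ _ (by norm_num), lintegral_add_left' (m1.pow_const 4)]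
    rfl
  · refine le_of_eq ?_
    unfold SN
    congr 1
    refine lintegral_congr fun r => ?_
    have e4 : (4 : ℝ) = ((4 : ℕ) : ℝ) := by norm_num
    rw [e4, ENNReal.rpow_natCast]

/-- The estimate of differences. -/
lemma diff (hN : St_NLb) (hM : St_Meas) : ∃ C : ℝ, 0 < C ∧ ∀ (k k' : ℝ → K) (J : Set ℝ)
    (B D : ℝ≥0∞), MeasurableSet J → AEStronglyMeasurable k (volume.restrict J) →
    AEStronglyMeasurable k' (volume.restrict J) → SN J k < ⊤ → SN J k' < ⊤ →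
    B ≠ ⊤ → D ≠ ⊤ → (∀ t ∈ J, ‖k t‖ₑ ≤ B) → (∀ t ∈ J, ‖k t - k' t‖ₑ ≤ D) →
    ∫⁻ r in J, ‖NL (k r) - NL (k' r)‖ₑ ≤ ENNReal.ofReal C *
      (B * ((8 * (SN J k + SN J k')) ^ (3 / 4 : ℝ) * SN J (fun r => k r - k' r) ^ (1 / 4 : ℝ)) +
        D * SN J k') := by
  obtain ⟨⟨C, hC, -, h1⟩, -⟩ := hN
  refine ⟨C, hC, fun k k' J B D hJ hk hk' hs hs' hBt hDt hB hD => ?_⟩
  have m1 := sn_meas hM hJ hk
  have m2 := sn_meas hM hJ hk'
  have m3 := sn_meas hM hJ (hk.sub hk')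
  have h2 : ∫⁻ r in J, ‖NL (k r) - NL (k' r)‖ₑ ≤
      ∫⁻ r in J, ENNReal.ofReal C * (B * ((sn (k r) + sn (k' r)) ^ 3 * sn (k r - k' r)) +
        D * sn (k' r) ^ 4) := by
    refine lintegral_mono_ae ?_
    filter_upwards [ae_restrict_mem hJ, sn_ae hM hJ hk hs, sn_ae hM hJ hk' hs'] with r hr h3 h4
    refine (h1 (k r) (k' r) h3 h4).trans ?_
    have h5 := hB r hr
    have h6 := hD r hr
    calc ENNReal.ofReal C * ((sn (k r) + sn (k' r)) ^ 3 * sn (k r - k' r) * ‖k r‖ₑ +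
          sn (k' r) ^ 4 * ‖k r - k' r‖ₑ) =
        ENNReal.ofReal C * (‖k r‖ₑ * ((sn (k r) + sn (k' r)) ^ 3 * sn (k r - k' r)) +
          ‖k r - k' r‖ₑ * sn (k' r) ^ 4) := by ring
      _ ≤ _ := by gcongr
  refine h2.trans ?_
  have m4 : AEMeasurable (fun r => B * ((sn (k r) + sn (k' r)) ^ 3 * sn (k r - k' r)))
      (volume.restrict J) := (((m1.add m2).pow_const 3).mul m3).const_mul B
  rw [lintegral_const_mul' _ _ ENNReal.ofReal_ne_top, lintegral_add_left' m4,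
    lintegral_const_mul' _ _ hBt, lintegral_const_mul' _ _ hDt]
  have h7 := holder hM hJ hk hk'
  unfold SN at h7 ⊢
  gcongr

lemma quarter (x : ℝ≥0∞) : (x ^ 4) ^ (1 / 4 : ℝ) = x := by
  rw [← ENNReal.rpow_natCast, ← ENNReal.rpow_mul]
  norm_num

/-- The difference of two solutions which agree at `s`. -/
lemma formula (h1 : St_Grp1) (hN : St_NLb) (hM : St_Meas) {I J : Set ℝ} {k k' : ℝ → K}
    (hk : IsSol I k) (hk' : IsSol J k') {a b s : ℝ} (has : a ≤ s) (hsb : s ≤ b)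
    (hI : Icc a b ⊆ I) (hJ : Icc a b ⊆ J) (he : k s = k' s) :
    IntegrableOn (fun r => NL (k' r) - NL (k r)) (Icc a b) volume ∧
    ∀ t ∈ Icc a b, k t - k' t = ∫ r in s..t, tau (t - r) (NL (k' r) - NL (k r)) := by
  have hab : a ≤ b := has.trans hsb
  have haI := hI ⟨le_rfl, hab⟩
  have hbI := hI ⟨hab, le_rfl⟩
  have haJ := hJ ⟨le_rfl, hab⟩
  have hbJ := hJ ⟨hab, le_rfl⟩
  have c1 : ContinuousOn k (Icc a b) := hk.2.1.mono hI
  have c2 : ContinuousOn k' (Icc a b) := hk'.2.1.mono hJ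
  obtain ⟨B1, hB1⟩ := isCompact_Icc.exists_bound_of_continuousOn c1
  obtain ⟨B2, hB2⟩ := isCompact_Icc.exists_bound_of_continuousOn c2
  have i1 := NL_int hN hM measurableSet_Icc (c1.aestronglyMeasurable measurableSet_Icc) hB1
    (hk.2.2.1 a haI b hbI)
  have i2 := NL_int hN hM measurableSet_Icc (c2.aestronglyMeasurable measurableSet_Icc) hB2
    (hk'.2.2.1 a haJ b hbJ)
  refine ⟨i2.sub i1, fun t ht => ?_⟩
  have hsub : uIoc s t ⊆ Icc a b := by
    intro x hx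
    rw [uIoc, mem_Ioc] at hx
    exact ⟨(le_min has ht.1).trans hx.1.le, hx.2.trans (max_le hsb ht.2)⟩
  have j1 : IntervalIntegrable (fun r => tau (t - r) (NL (k r))) volume s t := by
    rw [intervalIntegrable_iff]
    exact (tau_int h1 i1 t).mono_set hsub
  have j2 : IntervalIntegrable (fun r => tau (t - r) (NL (k' r))) volume s t := by
    rw [intervalIntegrable_iff]
    exact (tau_int h1 i2 t).mono_set hsub
  have f1 := hk.2.2.2 s (hI ⟨has, hsb⟩) t (hI ht)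
  have f2 := hk'.2.2.2 s (hJ ⟨has, hsb⟩) t (hJ ht)
  have e1 : ∫ r in s..t, tau (t - r) (NL (k' r) - NL (k r)) =
      (∫ r in s..t, tau (t - r) (NL (k' r))) - ∫ r in s..t, tau (t - r) (NL (k r)) := by
    rw [← intervalIntegral.integral_sub j2 j1]
    refine intervalIntegral.integral_congr fun r _ => ?_
    simp only [map_sub]
  rw [e1, f1, f2, he]
  abel

/-- Uniqueness on short intervals. -/
lemma loc (h1 : St_Grp1) (hN : St_NLb) (hM : St_Meas) (hD : St_DuhI) (B : ℝ) :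
    ∃ δ0 : ℝ, 0 < δ0 ∧ ∀ (I J : Set ℝ) (k k' : ℝ → K), IsSol I k → IsSol J k' →
      ∀ a b s : ℝ, a ≤ s → s ≤ b → Icc a b ⊆ I → Icc a b ⊆ J →
      (∀ t ∈ Icc a b, ‖k t‖ ≤ B) → SN (Icc a b) k ≤ ENNReal.ofReal δ0 →
      SN (Icc a b) k' ≤ ENNReal.ofReal δ0 → k s = k' s → ∀ t ∈ Icc a b, k t = k' t := by
  obtain ⟨C, hC, hdiff⟩ := diff hN hM
  obtain ⟨C', hC', hduh⟩ := hD
  -- the choice of `δ0`
  have hcont : Continuous fun δ : ℝ => ENNReal.ofReal C * (ENNReal.ofReal B *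
      ((8 * (ENNReal.ofReal δ + ENNReal.ofReal δ)) ^ (3 / 4 : ℝ) * ENNReal.ofReal C') +
        ENNReal.ofReal δ) := by
    have c0 : Continuous fun δ : ℝ => ENNReal.ofReal δ := ENNReal.continuous_ofReal
    have c1 : Continuous fun δ : ℝ => 8 * (ENNReal.ofReal δ + ENNReal.ofReal δ) :=
      (ENNReal.continuous_const_mul (by norm_num)).comp (c0.add c0)
    have c2 : Continuous fun δ : ℝ =>
        (8 * (ENNReal.ofReal δ + ENNReal.ofReal δ)) ^ (3 / 4 : ℝ) :=
      ENNReal.continuous_rpow_const.comp c1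
    have c3 : Continuous fun δ : ℝ =>
        (8 * (ENNReal.ofReal δ + ENNReal.ofReal δ)) ^ (3 / 4 : ℝ) * ENNReal.ofReal C' :=
      (ENNReal.continuous_mul_const ENNReal.ofReal_ne_top).comp c2
    have c4 : Continuous fun δ : ℝ => ENNReal.ofReal B *
        ((8 * (ENNReal.ofReal δ + ENNReal.ofReal δ)) ^ (3 / 4 : ℝ) * ENNReal.ofReal C') :=
      (ENNReal.continuous_const_mul ENNReal.ofReal_ne_top).comp c3
    exact (ENNReal.continuous_const_mul ENNReal.ofReal_ne_top).comp (c4.add c0)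
  have h0 : ENNReal.ofReal C * (ENNReal.ofReal B *
      ((8 * (ENNReal.ofReal 0 + ENNReal.ofReal 0)) ^ (3 / 4 : ℝ) * ENNReal.ofReal C') +
        ENNReal.ofReal 0) < 1 / 2 := by
    rw [ENNReal.ofReal_zero, add_zero, add_zero, mul_zero,
      ENNReal.zero_rpow_of_pos (by norm_num), zero_mul, mul_zero, mul_zero]
    norm_num
  have hev := (hcont.tendsto 0).eventually_lt_const h0
  obtain ⟨δ0, hδ, hδ0⟩ := ((hev.filter_mono nhdsWithin_le_nhds).and
    (self_mem_nhdsWithin (a := (0 : ℝ)) (s := Ioi 0))).exists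
  refine ⟨δ0, hδ0, ?_⟩
  intro I J k k' hk hk' a b s has hsb hI hJ hB hs1 hs2 he
  have hab : a ≤ b := has.trans hsb
  obtain ⟨hint, hform⟩ := formula h1 hN hM hk hk' has hsb hI hJ he
  have c1 : ContinuousOn k (Icc a b) := hk.2.1.mono hI
  have c2 : ContinuousOn k' (Icc a b) := hk'.2.1.mono hJ
  obtain ⟨-, d2, d3, -⟩ := hduh a b s (fun r => NL (k' r) - NL (k r)) has hsb hint
  obtain ⟨X, hX⟩ : ∃ X : ℝ, X = ∫ r in Icc a b, ‖NL (k' r) - NL (k r)‖ := ⟨_, rfl⟩
  have hX0 : 0 ≤ X := by rw [hX]; exact integral_nonneg fun r => norm_nonneg _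
  have hXe : ENNReal.ofReal X = ∫⁻ r in Icc a b, ‖NL (k r) - NL (k' r)‖ₑ := by
    rw [hX, ofReal_integral_norm_eq_lintegral_enorm hint]
    exact lintegral_congr fun r => by rw [← enorm_neg, neg_sub]
  rw [← hX] at d2 d3
  have hd : ∀ t ∈ Icc a b, ‖k t - k' t‖ ≤ X := by
    intro t ht
    rw [hform t ht]
    exact d2 t ht
  have hSd : SN (Icc a b) (fun t => k t - k' t) ≤ ENNReal.ofReal (C' * X) ^ 4 := by
    rw [SN_congr measurableSet_Icc hform]
    exact d3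
  have key := hdiff k k' (Icc a b) (ENNReal.ofReal B) (ENNReal.ofReal X) measurableSet_Icc
    (c1.aestronglyMeasurable measurableSet_Icc) (c2.aestronglyMeasurable measurableSet_Icc)
    (hs1.trans_lt ENNReal.ofReal_lt_top) (hs2.trans_lt ENNReal.ofReal_lt_top)
    ENNReal.ofReal_ne_top ENNReal.ofReal_ne_top (fun t ht => enorm_le (hB t ht))
    (fun t ht => enorm_le (hd t ht))
  have hq : SN (Icc a b) (fun t => k t - k' t) ^ (1 / 4 : ℝ) ≤
      ENNReal.ofReal C' * ENNReal.ofReal X := by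
    refine (ENNReal.rpow_le_rpow hSd (by norm_num)).trans ?_
    rw [quarter, ENNReal.ofReal_mul hC'.le]
  rw [← hXe] at key
  have key2 : ENNReal.ofReal X ≤ ENNReal.ofReal X * (1 / 2) := by
    calc ENNReal.ofReal X ≤ _ := key
      _ ≤ ENNReal.ofReal C * (ENNReal.ofReal B *
          ((8 * (ENNReal.ofReal δ0 + ENNReal.ofReal δ0)) ^ (3 / 4 : ℝ) *
            (ENNReal.ofReal C' * ENNReal.ofReal X)) + ENNReal.ofReal X * ENNReal.ofReal δ0) := by
        gcongr
      _ = ENNReal.ofReal X * (ENNReal.ofReal C * (ENNReal.ofReal B *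
          ((8 * (ENNReal.ofReal δ0 + ENNReal.ofReal δ0)) ^ (3 / 4 : ℝ) * ENNReal.ofReal C') +
            ENNReal.ofReal δ0)) := by ring
      _ ≤ ENNReal.ofReal X * (1 / 2) := by gcongr
  have hX1 : X ≤ 0 := by
    by_contra hcon
    push Not at hcon
    have e1 : ENNReal.ofReal X * (1 / 2) = ENNReal.ofReal (X * (1 / 2)) := by
      rw [ENNReal.ofReal_mul hX0]
      congr 1
      rw [ENNReal.ofReal_div_of_pos (by norm_num), ENNReal.ofReal_one]
      norm_num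
    rw [e1, ENNReal.ofReal_le_ofReal_iff (by positivity)] at key2
    linarith
  intro t ht
  have h5 := hd t ht
  have h6 : ‖k t - k' t‖ = 0 := le_antisymm (h5.trans hX1) (norm_nonneg _)
  exact sub_eq_zero.1 (norm_eq_zero.1 h6)

/-- The Strichartz norm is small on short intervals. -/
lemma small_int {k : ℝ → K} {a b : ℝ} (hs : SN (Icc a b) k < ⊤) {ε : ℝ} (hε : 0 < ε) :
    ∃ δ : ℝ, 0 < δ ∧ ∀ x y : ℝ, Icc x y ⊆ Icc a b → y - x < δ →
      SN (Icc x y) k ≤ ENNReal.ofReal ε := by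
  obtain ⟨η, hη, h⟩ := exists_pos_setLIntegral_lt_of_measure_lt (μ := volume.restrict (Icc a b))
    (f := fun r => sn (k r) ^ 4) hs.ne (ENNReal.ofReal_pos.2 hε).ne'
  obtain ⟨r, hr0, hr⟩ := ENNReal.lt_iff_exists_nnreal_btwn.1 hη
  have hr0' : (0 : ℝ) < r := by exact_mod_cast hr0
  refine ⟨r, hr0', fun x y hxy hd => ?_⟩
  have h1 : (volume.restrict (Icc a b)) (Icc x y) < η := by
    refine lt_of_le_of_lt (Measure.restrict_apply_le _ _) (lt_of_le_of_lt ?_ hr)
    rw [Real.volume_Icc]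
    exact (ENNReal.ofReal_le_ofReal hd.le).trans (by rw [ENNReal.ofReal_coe_nnreal])
  have h2 := h (Icc x y) h1
  rw [Measure.restrict_restrict measurableSet_Icc, inter_eq_left.2 hxy] at h2
  exact h2.le

end Uniqx

open Uniqx in
theorem thm_Uniq (h1 : St_Grp1) (hN : St_NLb) (hM : St_Meas) (hD : St_DuhI) : St_Uniq := by
  intro I J k k' t0 hk hk' h0I h0J he t htI htJ
  have hI : Icc (min t0 t) (max t0 t) ⊆ I := hk.1.uIcc_subset h0I htI
  have hJ : Icc (min t0 t) (max t0 t) ⊆ J := hk'.1.uIcc_subset h0J htJ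
  have hab : min t0 t ≤ max t0 t := min_le_max
  obtain ⟨B, hB⟩ := isCompact_Icc.exists_bound_of_continuousOn (hk.2.1.mono hI)
  obtain ⟨δ0, hδ0, hloc⟩ := loc h1 hN hM hD B
  obtain ⟨δ1, hδ1, hs1⟩ := small_int
    (hk.2.2.1 _ (hI ⟨le_rfl, hab⟩) _ (hI ⟨hab, le_rfl⟩)) hδ0
  obtain ⟨δ2, hδ2, hs2⟩ := small_int
    (hk'.2.2.1 _ (hJ ⟨le_rfl, hab⟩) _ (hJ ⟨hab, le_rfl⟩)) hδ0
  obtain ⟨δ, hδ⟩ : ∃ δ, δ = min δ1 δ2 / 2 := ⟨_, rfl⟩
  have hδ' : 0 < δ := by rw [hδ]; exact half_pos (lt_min hδ1 hδ2)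
  have hδa : δ < δ1 := by
    have := min_le_left δ1 δ2
    rw [hδ]
    linarith
  have hδb : δ < δ2 := by
    have := min_le_right δ1 δ2
    rw [hδ]
    linarith
  have key : ∀ n : ℕ, ∀ x ∈ Icc (min t0 t) (max t0 t), |x - t0| ≤ n * δ → k x = k' x := by
    intro n
    induction n with
    | zero =>
      intro x _ hx2
      rw [Nat.cast_zero, zero_mul] at hx2
      have h2 : x = t0 := sub_eq_zero.1 (abs_eq_zero.1 (le_antisymm hx2 (abs_nonneg _)))
      rw [h2]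
      exact he
    | succ n ih =>
      intro x hx hx2
      push_cast at hx2
      have hn : (0 : ℝ) < (n : ℝ) + 1 := by positivity
      obtain ⟨θ, hθ⟩ : ∃ θ : ℝ, θ = n / ((n : ℝ) + 1) := ⟨_, rfl⟩
      have hθ0 : 0 ≤ θ := by rw [hθ]; positivity
      have hθ1 : 1 - θ = 1 / ((n : ℝ) + 1) := by
        rw [hθ]
        field_simp
        ring
      have hθ1' : 0 ≤ 1 - θ := by rw [hθ1]; positivity
      obtain ⟨s, hs⟩ : ∃ s : ℝ, s = t0 + θ * (x - t0) := ⟨_, rfl⟩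
      have hsx : |x - s| ≤ δ := by
        have e1 : x - s = (1 - θ) * (x - t0) := by rw [hs]; ring
        rw [e1, abs_mul, abs_of_nonneg hθ1', hθ1, div_mul_eq_mul_div, one_mul,
          div_le_iff₀ hn]
        linarith
      have hst : |s - t0| ≤ n * δ := by
        have e1 : s - t0 = θ * (x - t0) := by rw [hs]; ring
        rw [e1, abs_mul, abs_of_nonneg hθ0, hθ, div_mul_eq_mul_div, div_le_iff₀ hn]
        have := Nat.cast_nonneg (α := ℝ) n
        nlinarith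
      have h0m : t0 ∈ Icc (min t0 t) (max t0 t) := ⟨min_le_left _ _, le_max_left _ _⟩
      have hsm : s ∈ Icc (min t0 t) (max t0 t) := by
        have e1 : s = (1 - θ) * t0 + θ * x := by rw [hs]; ring
        rw [e1]
        exact (convex_Icc _ _) h0m hx hθ1' hθ0 (by ring)
      have hsub : Icc (min s x) (max s x) ⊆ Icc (min t0 t) (max t0 t) :=
        Icc_subset_Icc (le_min hsm.1 hx.1) (max_le hsm.2 hx.2)
      have hlen : max s x - min s x ≤ δ := by
        rw [max_sub_min_eq_abs]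
        exact hsx
      exact hloc I J k k' hk hk' (min s x) (max s x) s (min_le_left _ _) (le_max_left _ _)
        (hsub.trans hI) (hsub.trans hJ) (fun y hy => hB y (hsub hy))
        (hs1 _ _ hsub (hlen.trans_lt hδa)) (hs2 _ _ hsub (hlen.trans_lt hδb)) (ih s hsm hst) x
        ⟨min_le_right _ _, le_max_right _ _⟩
  obtain ⟨n, hn⟩ := exists_nat_ge (|t - t0| / δ)
  refine key n t ⟨min_le_right _ _, le_max_right _ _⟩ ?_
  rwa [div_le_iff₀ hδ'] at hn

end Pool.Agent.QWE
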