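import Pool.Agent.QWE.StA
import Pool.Agent.QWE.StB

set_option autoImplicit false

/-!
# QWE, module WEq: the equation in the sense of distributions
-/

open MeasureTheory Filter Topology Set
open scoped ENNReal NNReal RealInnerProductSpace Pointwise ContDiff

namespace Pool.Agent.QWE

namespace WEqx

/-! ### derivative of the translates -/

lemma diff_bound {F G : K} {f g : S × ℝ → ℝ} (hF : (F : S × ℝ → ℝ) =ᵐ[mu] f)
    (hG : (G : S × ℝ → ℝ) =ᵐ[mu] g) {M : ℝ}
    (hfs : ∀ z : S × ℝ, M ≤ |z.2| → f z = 0) (hgs : ∀ z : S × ℝ, M ≤ |z.2| → g z = 0)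
    (hd : ∀ (w : S) (p : ℝ), HasDerivAt (fun p => f (w, p)) (g (w, p)) p)
    {ε δ : ℝ} (hε : 0 ≤ ε) (hδ1 : δ ≤ 1)
    (hu : ∀ (w : S) (p p' : ℝ), |p' - p| < δ → |g (w, p') - g (w, p)| ≤ ε)
    {h : ℝ} (hh : |h| < δ) :
    ‖tau (-h) F - F - h • G‖ ≤
      ε * |h| * (mu.real {z : S × ℝ | |z.2| ≤ M + 1}) ^ (1 / 2 : ℝ) := by
  have hA : MeasurableSet {z : S × ℝ | |z.2| ≤ M + 1} :=
    measurableSet_le (by fun_prop) measurable_const
  have hμA : mu {z : S × ℝ | |z.2| ≤ M + 1} ≠ ⊤ := by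
    have h1 : {z : S × ℝ | |z.2| ≤ M + 1} = (univ : Set S) ×ˢ Icc (-(M + 1)) (M + 1) := by
      ext z
      simp [abs_le]
    rw [h1, Measure.prod_prod]
    exact (ENNReal.mul_lt_top (measure_lt_top _ _) measure_Icc_lt_top).ne
  have hpt : ∀ (w : S) (p : ℝ), |f (w, p + h) - f (w, p) - h * g (w, p)| ≤ ε * |h| := by
    intro w p
    have h1 : ∀ x ∈ Metric.ball p δ, HasDerivWithinAt (fun x => f (w, x) - x * g (w, p))
        (g (w, x) - 1 * g (w, p)) (Metric.ball p δ) x := fun x _ =>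
      ((hd w x).sub ((hasDerivAt_id x).mul_const (g (w, p)))).hasDerivWithinAt
    have h2 : ∀ x ∈ Metric.ball p δ, ‖g (w, x) - 1 * g (w, p)‖ ≤ ε := by
      intro x hx
      rw [one_mul]
      exact hu w p x (by rwa [Metric.mem_ball, Real.dist_eq] at hx)
    have hδ : 0 < δ := lt_of_le_of_lt (abs_nonneg h) hh
    have h3 := Convex.norm_image_sub_le_of_norm_hasDerivWithin_le h1 h2 (convex_ball p δ)
      (Metric.mem_ball_self hδ) (show p + h ∈ Metric.ball p δ by
        rw [Metric.mem_ball, Real.dist_eq, add_sub_cancel_left]; exact hh)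
    have h4 : f (w, p + h) - (p + h) * g (w, p) - (f (w, p) - p * g (w, p)) =
        f (w, p + h) - f (w, p) - h * g (w, p) := by ring
    rw [h4, add_sub_cancel_left] at h3
    exact h3
  have hae : (tau (-h) F - F - h • G : K) =ᵐ[mu]
      fun z => f (z.1, z.2 + h) - f z - h * g z := by
    have h1 := (mp_shift (g := fun _ => -h) measurable_const).quasiMeasurePreserving.ae hF
    filter_upwards [Lp.coeFn_sub (tau (-h) F - F) (h • G), Lp.coeFn_sub (tau (-h) F) F,
      Lp.coeFn_smul h G, tau_coe (-h) F, hF, hG, h1] with z h2 h3 h4 h5 h6 h7 h8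
    rw [h2, Pi.sub_apply, h3, Pi.sub_apply, h4, Pi.smul_apply, h5, h6, h7, h8, smul_eq_mul,
      sub_neg_eq_add]
  have hle : ‖tau (-h) F - F - h • G‖ ≤ ‖indicatorConstLp 2 hA hμA (ε * |h|)‖ := by
    refine Lp.norm_le_norm_of_ae_le ?_
    filter_upwards [hae, indicatorConstLp_coeFn (p := 2) (hs := hA) (hμs := hμA)
      (c := ε * |h|)] with z h1 h2
    rw [h1, h2]
    by_cases hz : z ∈ {z : S × ℝ | |z.2| ≤ M + 1}
    · rw [indicator_of_mem hz, Real.norm_eq_abs, Real.norm_eq_abs,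
        abs_of_nonneg (mul_nonneg hε (abs_nonneg h))]
      exact hpt z.1 z.2
    · rw [indicator_of_notMem hz]
      have h3 : M + 1 < |z.2| := not_le.1 hz
      have h4 : M ≤ |z.2 + h| := by
        have h5 : |z.2| ≤ |z.2 + h| + |h| := by
          have := abs_sub (z.2 + h) h
          rwa [add_sub_cancel_right] at this
        linarith
      rw [hfs _ h4, hfs z (by linarith), hgs z (by linarith)]
      simp
  refine hle.trans ?_
  rw [norm_indicatorConstLp (by norm_num) (by norm_num), Real.norm_eq_abs,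
    abs_of_nonneg (mul_nonneg hε (abs_nonneg h))]
  simp

lemma hasDeriv_tau (hGrp : St_Grp1) {F G : K} {f g : S × ℝ → ℝ}
    (hF : (F : S × ℝ → ℝ) =ᵐ[mu] f) (hG : (G : S × ℝ → ℝ) =ᵐ[mu] g) (hg : Continuous g) {M : ℝ}
    (hfs : ∀ z : S × ℝ, M ≤ |z.2| → f z = 0) (hgs : ∀ z : S × ℝ, M ≤ |z.2| → g z = 0)
    (hd : ∀ (w : S) (p : ℝ), HasDerivAt (fun p => f (w, p)) (g (w, p)) p) (t : ℝ) :
    HasDerivAt (fun t => tau (-t) F) (tau (-t) G) t := by
  obtain ⟨hadd, _⟩ := hGrp
  have hcs : HasCompactSupport g := by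
    refine HasCompactSupport.intro ((isCompact_univ (X := S)).prod
      (isCompact_Icc (a := -M) (b := M))) ?_
    intro z hz
    apply hgs
    by_contra hcon
    rw [not_le, abs_lt] at hcon
    exact hz ⟨mem_univ _, hcon.1.le, hcon.2.le⟩
  have huc : UniformContinuous g := hcs.uniformContinuous_of_continuous hg
  rw [hasDerivAt_iff_isLittleO_nhds_zero, Asymptotics.isLittleO_iff]
  intro c hc
  set L : ℝ := (mu.real {z : S × ℝ | |z.2| ≤ M + 1}) ^ (1 / 2 : ℝ) with hL
  have hL0 : 0 ≤ L := Real.rpow_nonneg measureReal_nonneg _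
  have hε : 0 < c / (L + 1) := div_pos hc (by linarith)
  obtain ⟨δ, hδ, hδu⟩ := Metric.uniformContinuous_iff.1 huc _ hε
  have hδ' : 0 < min δ 1 := lt_min hδ one_pos
  filter_upwards [Metric.ball_mem_nhds (0 : ℝ) hδ'] with h hh
  rw [Metric.mem_ball, dist_zero_right, Real.norm_eq_abs] at hh
  have h1 : tau (-(t + h)) F - tau (-t) F - h • tau (-t) G =
      tau (-t) (tau (-h) F - F - h • G) := by
    have h0 : -(t + h) = -t + -h := by ring
    rw [map_sub, map_sub, map_smul, hadd, h0]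
  rw [h1, LinearIsometry.norm_map]
  have h2 := diff_bound hF hG hfs hgs hd hε.le (min_le_right δ 1) (fun w p p' hp => by
    have h3 : dist ((w, p') : S × ℝ) (w, p) < δ := by
      rw [Prod.dist_eq, dist_self, max_lt_iff]
      exact ⟨hδ, by rw [Real.dist_eq]; exact lt_of_lt_of_le hp (min_le_left _ _)⟩
    have h4 := hδu h3
    rw [Real.dist_eq] at h4
    exact h4.le) hh
  refine h2.trans ?_
  rw [Real.norm_eq_abs, ← hL]
  have h5 : c / (L + 1) * L ≤ c := by
    rw [div_mul_eq_mul_div, div_le_iff₀ (by linarith)]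
    nlinarith
  calc c / (L + 1) * |h| * L = (c / (L + 1) * L) * |h| := by ring
    _ ≤ c * |h| := mul_le_mul_of_nonneg_right h5 (abs_nonneg h)

/-! ### integration by parts -/

lemma ibp {H : Type*} [NormedAddCommGroup H] [InnerProductSpace ℝ H] [CompleteSpace H]
    {M ψ ψ' : ℝ → H} {s t C : ℝ} (hst : s ≤ t) (hM : IntegrableOn M (Ioc s t) volume)
    (hψ : ∀ r, HasDerivAt ψ (ψ' r) r) (hψ' : Continuous ψ') (hC : ∀ r, ‖ψ' r‖ ≤ C)
    (hC' : ∀ r, ‖ψ r‖ ≤ C) :
    ∫ r in s..t, inner ℝ (∫ q in s..r, M q) (ψ' r) =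
      inner ℝ (∫ q in s..t, M q) (ψ t) - ∫ q in s..t, inner ℝ (M q) (ψ q) := by
  have hψc : Continuous ψ := continuous_iff_continuousAt.2 fun r => (hψ r).continuousAt
  set μ : Measure ℝ := volume.restrict (Ioc s t) with hμ
  set h : ℝ → ℝ → ℝ := fun r q => (Iic r).indicator (fun q => inner ℝ (M q) (ψ' r)) q with hh
  have hL : ∫ r in s..t, inner ℝ (∫ q in s..r, M q) (ψ' r) = ∫ r, ∫ q, h r q ∂μ ∂μ := by
    rw [intervalIntegral.integral_of_le hst]
    refine setIntegral_congr_fun measurableSet_Ioc ?_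
    intro r hr
    show inner ℝ (∫ q in s..r, M q) (ψ' r) = ∫ q, h r q ∂μ
    have h1 : Ioc s t ∩ Iic r = Ioc s r := by
      ext q
      simp only [mem_inter_iff, mem_Ioc, mem_Iic]
      exact ⟨fun h => ⟨h.1.1, h.2⟩, fun h => ⟨⟨h.1, h.2.trans hr.2⟩, h.2⟩⟩
    have h2 : IntegrableOn M (Ioc s r) volume := hM.mono_set (Ioc_subset_Ioc_right hr.2)
    rw [intervalIntegral.integral_of_le hr.1.le, hμ, setIntegral_indicator measurableSet_Iic, h1,
      real_inner_comm, ← integral_inner h2]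
    refine integral_congr_ae (Eventually.of_forall fun q => ?_)
    exact real_inner_comm _ _
  have hint : Integrable (Function.uncurry h) (μ.prod μ) := by
    have h1 : Integrable (fun z : ℝ × ℝ => C * ‖M z.2‖) (μ.prod μ) :=
      (Integrable.comp_snd (hM.norm) μ).const_mul C
    refine h1.mono ?_ ?_
    · have h2 : Function.uncurry h = ({z : ℝ × ℝ | z.2 ≤ z.1}).indicator
          (fun z => inner ℝ (M z.2) (ψ' z.1)) := by
        ext z
        rfl
      rw [h2]
      refine AEStronglyMeasurable.indicator ?_ (measurableSet_le measurable_snd measurable_fst)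
      exact (hM.aestronglyMeasurable.comp_snd).inner
        (hψ'.comp continuous_fst).aestronglyMeasurable
    · refine Eventually.of_forall fun z => ?_
      have hC0 : 0 ≤ C := (norm_nonneg _).trans (hC 0)
      have h2 : ‖Function.uncurry h z‖ ≤ ‖(inner ℝ (M z.2) (ψ' z.1) : ℝ)‖ :=
        norm_indicator_le_norm_self (s := Iic z.1) (fun q => inner ℝ (M q) (ψ' z.1)) z.2
      refine h2.trans ((norm_inner_le_norm _ _).trans ?_)
      rw [Real.norm_eq_abs, abs_of_nonneg (mul_nonneg hC0 (norm_nonneg _)), mul_comm C]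
      exact mul_le_mul_of_nonneg_left (hC _) (norm_nonneg _)
  rw [hL, integral_integral_swap hint]
  have hR : ∫ q, ∫ r, h r q ∂μ ∂μ = ∫ q, (inner ℝ (M q) (ψ t) - inner ℝ (M q) (ψ q)) ∂μ := by
    refine setIntegral_congr_fun measurableSet_Ioc ?_
    intro q hq
    show ∫ r, h r q ∂μ = inner ℝ (M q) (ψ t) - inner ℝ (M q) (ψ q)
    have h1 : ∀ r, h r q = (Ici q).indicator (fun r => inner ℝ (M q) (ψ' r)) r := by
      intro r
      by_cases hr : q ≤ r
      · rw [indicator_of_mem (show r ∈ Ici q from hr)]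
        exact indicator_of_mem (show q ∈ Iic r from hr) _
      · rw [indicator_of_notMem (show r ∉ Ici q from hr)]
        exact indicator_of_notMem (show q ∉ Iic r from hr) _
    have h2 : Ioc s t ∩ Ici q = Icc q t := by
      ext r
      simp only [mem_inter_iff, mem_Ioc, mem_Ici, mem_Icc]
      exact ⟨fun h => ⟨h.2, h.1.2⟩, fun h => ⟨⟨lt_of_lt_of_le hq.1 h.1, h.2⟩, h.1⟩⟩
    simp_rw [h1]
    rw [hμ, setIntegral_indicator measurableSet_Ici, h2, integral_Icc_eq_integral_Ioc,
      ← intervalIntegral.integral_of_le hq.2]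
    refine intervalIntegral.integral_eq_sub_of_hasDerivAt (f := fun r => inner ℝ (M q) (ψ r)) ?_ ?_
    · intro r _
      exact (innerSL ℝ (M q)).hasFDerivAt.comp_hasDerivAt r (hψ r)
    · exact (continuous_const.inner hψ').intervalIntegrable _ _
  rw [hR, integral_sub]
  · rw [intervalIntegral.integral_of_le hst, intervalIntegral.integral_of_le hst]
    congr 1
    rw [real_inner_comm, ← integral_inner hM]
    refine integral_congr_ae (Eventually.of_forall fun q => ?_)
    exact real_inner_comm _ _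
  · exact hM.inner_const (ψ t)
  · have h1 : Integrable (fun q => C * ‖M q‖) μ := hM.norm.const_mul C
    refine h1.mono (hM.aestronglyMeasurable.inner hψc.aestronglyMeasurable) ?_
    refine Eventually.of_forall fun q => ?_
    have hC0 : 0 ≤ C := (norm_nonneg _).trans (hC 0)
    refine (norm_inner_le_norm _ _).trans ?_
    rw [Real.norm_eq_abs, abs_of_nonneg (mul_nonneg hC0 (norm_nonneg _)), mul_comm C]
    exact mul_le_mul_of_nonneg_left (hC' _) (norm_nonneg _)

/-! ### the weak form of the Duhamel formula -/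

lemma duh (hGrp : St_Grp1) {k N : ℝ → K} {s t : ℝ} (hst : s ≤ t)
    (hN : IntegrableOn N (Icc s t) volume)
    (hk : ∀ r ∈ Icc s t, k r = tau (r - s) (k s) - ∫ q in s..r, tau (r - q) (N q))
    (hkc : ContinuousOn k (Icc s t)) {w w' : K}
    (hw : ∀ r, HasDerivAt (fun r => tau (-r) w) (tau (-r) w') r) :
    (inner ℝ (k t) w : ℝ) - inner ℝ (k s) w =
      ∫ r in s..t, ((inner ℝ (k r) w' : ℝ) - inner ℝ (N r) w) := by
  obtain ⟨hadd, h0, _, _, _, _, _, hcont, _⟩ := hGrp
  set M : ℝ → K := fun q => tau (-q) (N q) with hMdef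
  set Z : K := tau (-s) (k s) with hZ
  have hjc : Continuous fun z : ℝ × K => tau (-z.1) z.2 := by
    rw [continuous_iff_continuousAt]
    rintro ⟨a, x⟩
    have h1 : Tendsto (fun z : ℝ × K => tau (-z.1) x) (𝓝 (a, x)) (𝓝 (tau (-a) x)) :=
      ((hcont x).comp (continuous_neg.comp continuous_fst)).tendsto (a, x)
    have h2 : Tendsto (fun z : ℝ × K => tau (-z.1) (z.2 - x)) (𝓝 (a, x)) (𝓝 0) := by
      rw [tendsto_zero_iff_norm_tendsto_zero]
      simp only [LinearIsometry.norm_map]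
      have h3 : Continuous fun z : ℝ × K => ‖z.2 - x‖ := by fun_prop
      have h4 := h3.tendsto (a, x)
      simpa using h4
    have h3 := h1.add h2
    rw [add_zero] at h3
    refine h3.congr fun z => ?_
    rw [← map_add, add_sub_cancel]
  have hMint : IntegrableOn M (Icc s t) volume := by
    have hm1 : AEStronglyMeasurable (fun q : ℝ => (q, N q)) (volume.restrict (Icc s t)) :=
      aestronglyMeasurable_id.prodMk hN.aestronglyMeasurable
    have hm2 : AEStronglyMeasurable (fun q : ℝ => tau (-(q, N q).1) (q, N q).2)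
        (volume.restrict (Icc s t)) :=
      Continuous.comp_aestronglyMeasurable (g := fun z : ℝ × K => tau (-z.1) z.2) hjc hm1
    have hm3 : Integrable M (volume.restrict (Icc s t)) := by
      refine Integrable.mono (hN : Integrable N (volume.restrict (Icc s t))) hm2 ?_
      exact Eventually.of_forall fun q => (LinearIsometry.norm_map (tau (-q)) (N q)).le
    exact hm3
  have hMint' : IntegrableOn M (Ioc s t) volume := hMint.mono_set Ioc_subset_Icc_self
  have hback : ∀ r ∈ Icc s t, tau (-r) (k r) = Z - ∫ q in s..r, M q := by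
    intro r hr
    rw [hk r hr, map_sub, hadd, intervalIntegral.integral_of_le hr.1,
      intervalIntegral.integral_of_le hr.1, ← LinearIsometry.integral_comp_comm]
    congr 1
    · rw [hZ]
      congr 2
      ring
    · refine integral_congr_ae (Eventually.of_forall fun q => ?_)
      show tau (-r) (tau (r - q) (N q)) = tau (-q) (N q)
      rw [hadd]
      congr 2
      ring
  have hC : ∀ r, ‖tau (-r) w'‖ ≤ ‖w‖ + ‖w'‖ := fun r => by
    rw [LinearIsometry.norm_map]
    linarith [norm_nonneg w]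
  have hC' : ∀ r, ‖tau (-r) w‖ ≤ ‖w‖ + ‖w'‖ := fun r => by
    rw [LinearIsometry.norm_map]
    linarith [norm_nonneg w']
  have hψ'c : Continuous fun r => tau (-r) w' := (hcont w').comp continuous_neg
  have hψc : Continuous fun r => tau (-r) w := (hcont w).comp continuous_neg
  have hibp := ibp hst hMint' hw hψ'c hC hC'
  have hkw : ∀ r, (inner ℝ (k r) w' : ℝ) = inner ℝ (tau (-r) (k r)) (tau (-r) w') := fun r => by
    rw [LinearIsometry.inner_map_map]
  have hNw : ∀ r, (inner ℝ (N r) w : ℝ) = inner ℝ (M r) (tau (-r) w) := fun r => by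
    rw [hMdef, LinearIsometry.inner_map_map]
  have hi1 : IntervalIntegrable (fun r => (inner ℝ (k r) w' : ℝ)) volume s t := by
    refine ContinuousOn.intervalIntegrable ?_
    rw [uIcc_of_le hst]
    exact hkc.inner continuousOn_const
  have hi2 : IntervalIntegrable (fun r => (inner ℝ (N r) w : ℝ)) volume s t := by
    rw [intervalIntegrable_iff_integrableOn_Icc_of_le hst]
    exact hN.inner_const w
  have hYc : ContinuousOn (fun r => ∫ q in s..r, M q) (Icc s t) := by
    have h1 := intervalIntegral.continuousOn_primitive_interval (μ := volume) (f := M) (a := s)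
      (b := t) (by rw [uIcc_of_le hst]; exact hMint)
    rwa [uIcc_of_le hst] at h1
  have hi3 : IntervalIntegrable (fun r => (inner ℝ (∫ q in s..r, M q) (tau (-r) w') : ℝ))
      volume s t := by
    refine ContinuousOn.intervalIntegrable ?_
    rw [uIcc_of_le hst]
    exact hYc.inner hψ'c.continuousOn
  have hi4 : IntervalIntegrable (fun r => (inner ℝ Z (tau (-r) w') : ℝ)) volume s t :=
    (continuous_const.inner hψ'c).intervalIntegrable _ _
  rw [intervalIntegral.integral_sub hi1 hi2]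
  have e1 : ∫ r in s..t, (inner ℝ (k r) w' : ℝ) =
      ∫ r in s..t, ((inner ℝ Z (tau (-r) w') : ℝ) -
        inner ℝ (∫ q in s..r, M q) (tau (-r) w')) := by
    refine intervalIntegral.integral_congr fun r hr => ?_
    rw [uIcc_of_le hst] at hr
    show (inner ℝ (k r) w' : ℝ) = _
    rw [hkw, hback r hr, inner_sub_left]
  have e2 : ∫ r in s..t, (inner ℝ Z (tau (-r) w') : ℝ) =
      inner ℝ Z (tau (-t) w) - inner ℝ Z (tau (-s) w) := by
    refine intervalIntegral.integral_eq_sub_of_hasDerivAt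
      (f := fun r => inner ℝ Z (tau (-r) w)) ?_ hi4
    intro r _
    exact (innerSL ℝ Z).hasFDerivAt.comp_hasDerivAt r (hw r)
  have e3 : ∫ r in s..t, (inner ℝ (N r) w : ℝ) = ∫ r in s..t, (inner ℝ (M r) (tau (-r) w) : ℝ) :=
    intervalIntegral.integral_congr fun r _ => hNw r
  have e4 : (inner ℝ (k t) w : ℝ) = inner ℝ Z (tau (-t) w) -
      inner ℝ (∫ q in s..t, M q) (tau (-t) w) := by
    rw [← inner_sub_left, ← hback t ⟨hst, le_rfl⟩, LinearIsometry.inner_map_map]
  have e5 : (inner ℝ (k s) w : ℝ) = inner ℝ Z (tau (-s) w) := by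
    rw [hZ, LinearIsometry.inner_map_map]
  rw [e1, intervalIntegral.integral_sub hi4 hi3, e2, hibp, e3, e4, e5]
  ring

/-! ### the nonlinearity along a solution -/

lemma NL_int (hNLb : St_NLb) (hMeas : St_Meas) {I : Set ℝ} {k : ℝ → K} (hk : IsSol I k)
    {s t : ℝ} (hs : s ∈ I) (ht : t ∈ I) :
    (∀ᵐ r ∂(volume.restrict (Icc s t)), sn (k r) < ⊤) ∧
      IntegrableOn (fun r => NL (k r)) (Icc s t) volume := by
  obtain ⟨hoc, hcont, hSN, _⟩ := hk
  have hsub : Icc s t ⊆ I := hoc.out hs ht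
  have hc : ContinuousOn k (Icc s t) := hcont.mono hsub
  have hkm : AEStronglyMeasurable k (volume.restrict (Icc s t)) :=
    hc.aestronglyMeasurable measurableSet_Icc
  obtain ⟨h1, h2⟩ := hMeas k (Icc s t) measurableSet_Icc hkm
  have hsm : AEMeasurable (fun r => sn (k r)) (volume.restrict (Icc s t)) := by
    have h3 := h1 20 univ (by norm_num) MeasurableSet.univ
    simp only [indicator_univ] at h3
    exact h3
  have hfin := hSN s hs t ht
  have h3 : ∀ᵐ r ∂(volume.restrict (Icc s t)), sn (k r) ^ 4 < ⊤ :=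
    ae_lt_top' (hsm.pow_const 4) hfin.ne
  have h4 : ∀ᵐ r ∂(volume.restrict (Icc s t)), sn (k r) < ⊤ := by
    filter_upwards [h3] with r hr
    by_contra hcon
    rw [not_lt, top_le_iff] at hcon
    rw [hcon] at hr
    simp at hr
  refine ⟨h4, h2 h4, ?_⟩
  obtain ⟨⟨C, _, hb, _⟩, _⟩ := hNLb
  obtain ⟨B, hB⟩ := isCompact_Icc.exists_bound_of_continuousOn hc
  have h5 : ∫⁻ r in Icc s t, ‖NL (k r)‖ₑ ≤
      ∫⁻ r in Icc s t, ENNReal.ofReal C * ENNReal.ofReal B * sn (k r) ^ 4 := by
    refine setLIntegral_mono' measurableSet_Icc fun r hr => ?_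
    refine (hb (k r)).trans ?_
    have h6 : ‖k r‖ₑ ≤ ENNReal.ofReal B := by
      rw [← ofReal_norm]
      exact ENNReal.ofReal_le_ofReal (hB r hr)
    calc ENNReal.ofReal C * sn (k r) ^ 4 * ‖k r‖ₑ ≤
        ENNReal.ofReal C * sn (k r) ^ 4 * ENNReal.ofReal B := by gcongr
      _ = ENNReal.ofReal C * ENNReal.ofReal B * sn (k r) ^ 4 := by ring
  refine lt_of_le_of_lt h5 ?_
  rw [lintegral_const_mul' _ _ (ENNReal.mul_ne_top ENNReal.ofReal_ne_top ENNReal.ofReal_ne_top)]
  exact ENNReal.mul_lt_top (ENNReal.mul_lt_top ENNReal.ofReal_lt_top ENNReal.ofReal_lt_top) hfin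

/-! ### test functions -/

lemma test_pd {φ : E → ℝ} (h : IsTest φ) (i : Fin 5) : IsTest (pd i φ) := by
  refine ⟨?_, ?_⟩
  · unfold pd
    exact (h.1.fderiv_right (m := ∞) (by norm_num)).clm_apply contDiff_const
  · unfold pd
    exact h.2.fderiv_apply ℝ _

lemma test_lap {φ : E → ℝ} (h : IsTest φ) : IsTest (lap φ) := by
  refine ⟨?_, ?_⟩
  · unfold lap
    exact ContDiff.sum fun i _ => (test_pd (test_pd h i) i).1
  · have h1 : ∀ x, x ∉ tsupport φ → lap φ x = 0 := by
      intro x hx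
      unfold lap
      refine Finset.sum_eq_zero fun i _ => ?_
      have h2 : tsupport (pd i φ) ⊆ tsupport φ := tsupport_fderiv_apply_subset ℝ _
      have h3 : fderiv ℝ (pd i φ) x = 0 := fderiv_of_notMem_tsupport ℝ fun h => hx (h2 h)
      show fderiv ℝ (pd i φ) x _ = 0
      rw [h3]
      rfl
    exact HasCompactSupport.intro h.2 h1

lemma sch {φ : E → ℝ} (h : IsTest φ) : IsSch φ := ⟨h.2.toSchwartzMap h.1, fun _ => rfl⟩

lemma one_le_p : (1 : ℝ≥0∞) ≤ 10 / 3 := by
  rw [ENNReal.le_div_iff_mul_le (Or.inl (by norm_num)) (Or.inl (by norm_num))]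
  norm_num

lemma int_test {f φ : E → ℝ} {p : ℝ≥0∞} (hp : 1 ≤ p) (hf : MemLp f p volume) (h : IsTest φ) :
    Integrable (fun x => f x * φ x) volume := by
  have h1 := (hf.locallyIntegrable hp).integrable_smul_right_of_hasCompactSupport
    h.1.continuous h.2
  exact h1

lemma LU_test (hFld : St_Fld) (k : K) {φ : E → ℝ} (h : IsTest φ) :
    (∫ x, U k x * lap φ x = ∫ x, LU k x * φ x) ∧ Integrable (fun x => LU k x * φ x) volume := by
  obtain ⟨C, _, hC⟩ := hFld
  obtain ⟨hU, _, hDU, hDDU, _⟩ := hC k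
  have hi : ∀ i, Integrable (fun x => DDU k i i x * φ x) volume := fun i =>
    int_test one_le_two (hDDU i i).1 h
  have h1 : ∫ x, U k x * lap φ x = ∑ i, ∫ x, U k x * pd i (pd i φ) x := by
    rw [← integral_finsetSum]
    · refine integral_congr_ae (Eventually.of_forall fun x => ?_)
      show U k x * lap φ x = ∑ i, U k x * pd i (pd i φ) x
      rw [← Finset.mul_sum]
      rfl
    · intro i _
      exact int_test (by norm_num) hU.1 (test_pd (test_pd h i) i)
  have h2 : ∀ i, ∫ x, U k x * pd i (pd i φ) x = ∫ x, DDU k i i x * φ x := by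
    intro i
    rw [(hDU i).2.1 _ (test_pd h i), (hDDU i i).2.1 _ h, neg_neg]
  have h3 : (fun x => LU k x * φ x) = fun x => ∑ i, DDU k i i x * φ x := by
    ext x
    unfold LU
    rw [Finset.sum_mul]
  refine ⟨?_, ?_⟩
  · rw [h1, Finset.sum_congr rfl fun i _ => h2 i, h3, integral_finsetSum _ fun i _ => hi i]
  · rw [h3]
    exact integrable_finsetSum _ fun i _ => hi i

lemma main_le (hGrp : St_Grp1) (hRadT : St_RadT) (hUT : St_UTest) (hFld : St_Fld)
    (hLin : St_Lin) (hNLb : St_NLb) (hMeas : St_Meas) {I : Set ℝ} {k : ℝ → K} (hk : IsSol I k)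
    {s t : ℝ} (hs : s ∈ I) (ht : t ∈ I) (hst : s ≤ t) {φ : E → ℝ} (h : IsTest φ) :
    (∫ x, U (k t) x * φ x) - (∫ x, U (k s) x * φ x) = ∫ r in s..t, ∫ x, V (k r) x * φ x ∧
    (∫ x, V (k t) x * φ x) - (∫ x, V (k s) x * φ x) =
      ∫ r in s..t, ∫ x, (LU (k r) x - U (k r) x ^ 5) * φ x := by
  obtain ⟨haefin, hNint⟩ := NL_int hNLb hMeas hk hs ht
  obtain ⟨hoc, hcont, _, hD⟩ := hk
  have hsub : Icc s t ⊆ I := hoc.out hs ht
  have hc : ContinuousOn k (Icc s t) := hcont.mono hsub
  have hkd : ∀ r ∈ Icc s t, k r = tau (r - s) (k s) - ∫ q in s..r, tau (r - q) (NL (k q)) :=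
    fun r hr => hD s hs r (hsub hr)
  have hl := test_lap h
  obtain ⟨_, c2, hsup1, hder1, _, e1, e2⟩ := hRadT φ h
  obtain ⟨c3, _, hsup2, _, _, e3, _⟩ := hRadT (lap φ) hl
  obtain ⟨M1, hM1⟩ := h.2.isCompact.isBounded.subset_closedBall (0 : E)
  obtain ⟨M2, hM2⟩ := hl.2.isCompact.isBounded.subset_closedBall (0 : E)
  have hz : ∀ z : S × ℝ, z.2 - inner ℝ (0 : E) (z.1 : E) = z.2 := fun z => by
    rw [inner_zero_left, sub_zero]
  have hA : ∀ z : S × ℝ, max M1 M2 ≤ |z.2| → Rad φ z = 0 ∧ dRad φ z = 0 := fun z hzz =>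
    hsup1 0 M1 hM1 z (by rw [hz]; exact (le_max_left _ _).trans hzz)
  have hB : ∀ z : S × ℝ, max M1 M2 ≤ |z.2| → Rad (lap φ) z = 0 := fun z hzz =>
    (hsup2 0 M2 hM2 z (by rw [hz]; exact (le_max_right _ _).trans hzz)).1
  have hw1 : ∀ r, HasDerivAt (fun r => tau (-r) (Rk φ)) (tau (-r) (dRk φ)) r := fun r =>
    hasDeriv_tau hGrp e1 e2 c2 (fun z hz => (hA z hz).1) (fun z hz => (hA z hz).2)
      (fun w p => (hder1 w p).1) r
  have hw2 : ∀ r, HasDerivAt (fun r => tau (-r) (dRk φ)) (tau (-r) (Rk (lap φ))) r := fun r =>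
    hasDeriv_tau hGrp e2 e3 c3 (fun z hz => (hA z hz).2) (fun z hz => hB z hz)
      (fun w p => (hder1 w p).2) r
  have hd1 := duh hGrp hst hNint hkd hc hw1
  have hd2 := duh hGrp hst hNint hkd hc hw2
  have hU : ∀ r, ∫ x, U (k r) x * φ x = inner ℝ (k r) (Rk φ) := fun r => hUT.2.2 (k r) φ (sch h)
  have hV : ∀ r, ∫ x, V (k r) x * φ x = inner ℝ (k r) (dRk φ) := fun r =>
    hLin.2.2 (k r) φ (sch h)
  have hUl : ∀ r, inner ℝ (k r) (Rk (lap φ)) = ∫ x, LU (k r) x * φ x := fun r => by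
    rw [← hUT.2.2 (k r) (lap φ) (sch hl), (LU_test hFld (k r) h).1]
  have hae : ∀ᵐ r ∂(volume.restrict (Ioc s t)), sn (k r) < ⊤ :=
    ae_restrict_of_ae_restrict_of_subset Ioc_subset_Icc_self haefin
  refine ⟨?_, ?_⟩
  · rw [hU, hU, hd1, intervalIntegral.integral_of_le hst, intervalIntegral.integral_of_le hst]
    refine integral_congr_ae ?_
    filter_upwards [hae] with r hr
    have h1 := ((hNLb.2 (k r) hr).2.2.1 φ h).1
    show (inner ℝ (k r) (dRk φ) : ℝ) - inner ℝ (NL (k r)) (Rk φ) = ∫ x, V (k r) x * φ x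
    rw [h1, sub_zero, hV]
  · rw [hV, hV, hd2, intervalIntegral.integral_of_le hst, intervalIntegral.integral_of_le hst]
    refine integral_congr_ae ?_
    filter_upwards [hae] with r hr
    have h2 := hNLb.2 (k r) hr
    have h1 := (h2.2.2.1 φ h).2
    show (inner ℝ (k r) (Rk (lap φ)) : ℝ) - inner ℝ (NL (k r)) (dRk φ) =
      ∫ x, (LU (k r) x - U (k r) x ^ 5) * φ x
    rw [h1, hUl, ← integral_sub (LU_test hFld (k r) h).2 (int_test one_le_two h2.1 h)]
    refine integral_congr_ae (Eventually.of_forall fun x => ?_)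
    show LU (k r) x * φ x - U (k r) x ^ 5 * φ x = (LU (k r) x - U (k r) x ^ 5) * φ x
    ring

end WEqx

theorem thm_WEq (hGrp : St_Grp1) (hRadT : St_RadT) (hUT : St_UTest) (hFld : St_Fld)
    (hLin : St_Lin) (hNLb : St_NLb) (hMeas : St_Meas) : St_WEq := by
  intro I k hk s hs t ht φ h
  rcases le_total s t with hst | hst
  · exact WEqx.main_le hGrp hRadT hUT hFld hLin hNLb hMeas hk hs ht hst h
  · have h1 := WEqx.main_le hGrp hRadT hUT hFld hLin hNLb hMeas hk ht hs hst h
    rw [intervalIntegral.integral_symm t s, intervalIntegral.integral_symm t s, ← h1.1, ← h1.2]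
    exact ⟨by ring, by ring⟩

end Pool.Agent.QWE
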