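import Pool.Agent.QWE.StG

set_option autoImplicit false

/-!
# QWE, WkC: weak compactness of equicontinuous curves
-/

open MeasureTheory Filter Topology Set
open scoped ENNReal NNReal RealInnerProductSpace

namespace Pool.Agent.QWE

namespace WkCx

lemma sep : TopologicalSpace.SeparableSpace K := by
  have : Fact ((2 : ℝ≥0∞) ≠ ⊤) := ⟨by norm_num⟩
  have : MeasurableSpace.CountablyGenerated S := by infer_instance
  have h3 : MeasurableSpace.CountablyGenerated (S × ℝ) := by infer_instance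
  have h2 : MeasureTheory.IsSeparable mu := by infer_instance
  have h1 : SecondCountableTopology (Lp ℝ 2 mu) := MeasureTheory.Lp.SecondCountableTopology
  infer_instance

/-- Difference of pairings with two test vectors. -/
lemma pair_le {A : ℝ} {x y : K} (hx : ‖x‖ ≤ A) (hy : ‖y‖ ≤ A) (w w' : K) :
    |(inner ℝ x w : ℝ) - inner ℝ y w| ≤
      |(inner ℝ x w' : ℝ) - inner ℝ y w'| + 2 * A * ‖w - w'‖ := by
  have h1 : (inner ℝ x w : ℝ) - inner ℝ y w =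
      (inner ℝ x w' - inner ℝ y w') + inner ℝ (x - y) (w - w') := by
    simp only [inner_sub_left, inner_sub_right]; ring
  have h2 : |(inner ℝ (x - y) (w - w') : ℝ)| ≤ 2 * A * ‖w - w'‖ := by
    refine (abs_real_inner_le_norm _ _).trans ?_
    gcongr
    exact (norm_sub_le _ _).trans (by linarith)
  rw [h1]
  refine (abs_add_le _ _).trans ?_
  linarith

/-- A test vector from a dense set. -/
lemma near {D : Set K} (hD : Dense D) (w : K) {A ε : ℝ} (hA : 0 ≤ A) (hε : 0 < ε) :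
    ∃ w' ∈ D, 2 * A * ‖w - w'‖ ≤ ε := by
  obtain ⟨w', hw', h1⟩ := Metric.mem_closure_iff.1 (hD w) (ε / (2 * A + 1)) (by positivity)
  rw [dist_eq_norm] at h1
  refine ⟨w', hw', ?_⟩
  have h2 : (2 * A + 1) * ‖w - w'‖ ≤ (2 * A + 1) * (ε / (2 * A + 1)) := by gcongr
  have h3 : (2 * A + 1) * (ε / (2 * A + 1)) = ε := by
    have : 2 * A + 1 ≠ 0 := by positivity
    field_simp
  nlinarith [norm_nonneg (w - w')]

lemma cauchy_dense {x : ℕ → K} {A : ℝ} (hx : ∀ n, ‖x n‖ ≤ A) {D : Set K} (hD : Dense D)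
    (h : ∀ w ∈ D, CauchySeq fun n => (inner ℝ (x n) w : ℝ)) (w : K) :
    CauchySeq fun n => (inner ℝ (x n) w : ℝ) := by
  have hA0 : 0 ≤ A := (norm_nonneg _).trans (hx 0)
  rw [Metric.cauchySeq_iff]
  intro ε hε
  obtain ⟨w', hw', h1⟩ := near hD w hA0 (half_pos hε)
  obtain ⟨N, hN⟩ := Metric.cauchySeq_iff.1 (h w' hw') (ε / 2) (half_pos hε)
  refine ⟨N, fun m hm n hn => ?_⟩
  have h2 := hN m hm n hn
  rw [Real.dist_eq] at h2 ⊢
  have h3 := pair_le (hx m) (hx n) w w'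
  linarith

/-- Diagonal argument. -/
lemma diag (A M : ℝ) (β : ℕ → ℝ → K) (hM : 0 ≤ M) (hβ : ∀ n, ∀ t ∈ Icc 0 M, ‖β n t‖ ≤ A) :
    ∃ φ : ℕ → ℕ, StrictMono φ ∧ ∀ (q : ℚ) (w : K),
      CauchySeq fun n => (inner ℝ (β (φ n) (projIcc 0 M hM (q : ℝ))) w : ℝ) := by
  have : TopologicalSpace.SeparableSpace K := sep
  obtain ⟨f, hf⟩ : ∃ f : ℕ → K, DenseRange f :=
    ⟨TopologicalSpace.denseSeq K, TopologicalSpace.denseRange_denseSeq K⟩
  have hc : IsCompact (Set.pi univ fun p : ℚ × ℕ => Icc (-(A * ‖f p.2‖)) (A * ‖f p.2‖)) :=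
    isCompact_univ_pi fun _ => isCompact_Icc
  obtain ⟨g, -, φ, hφ, h1⟩ := hc.tendsto_subseq
    (x := fun n (p : ℚ × ℕ) => (inner ℝ (β n (projIcc 0 M hM (p.1 : ℝ))) (f p.2) : ℝ))
    (fun n => by
      rw [mem_univ_pi]
      intro p
      rw [mem_Icc, ← abs_le]
      refine (abs_real_inner_le_norm _ _).trans ?_
      gcongr
      exact hβ n _ (Subtype.mem _))
  refine ⟨φ, hφ, fun q w => ?_⟩
  refine cauchy_dense (x := fun n => β (φ n) (projIcc 0 M hM (q : ℝ)))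
    (fun n => hβ _ _ (Subtype.mem _)) hf ?_ w
  rintro _ ⟨j, rfl⟩
  have h2 := (tendsto_pi_nhds.1 h1) (q, j)
  exact h2.cauchySeq

end WkCx

open WkCx in
theorem thm_WkC (hW : St_WkS) : St_WkC := by
  intro A M β D hM hD hβ heq
  have hA0 : 0 ≤ A := (norm_nonneg _).trans (hβ 0 0 ⟨le_rfl, hM⟩)
  obtain ⟨φ, hφ, hφc⟩ := diag A M β hM hβ
  -- Cauchy for all times and `w ∈ D`
  have h1 : ∀ t ∈ Icc 0 M, ∀ w ∈ D, CauchySeq fun n => (inner ℝ (β (φ n) t) w : ℝ) := by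
    intro t ht w hw
    rw [Metric.cauchySeq_iff]
    intro ε hε
    obtain ⟨δ, hδ, h2⟩ := heq w hw (ε / 4) (by positivity)
    obtain ⟨q, hq1, hq2⟩ := exists_rat_btwn (show t < t + δ by linarith)
    obtain ⟨N, hN⟩ := Metric.cauchySeq_iff.1 (hφc q w) (ε / 4) (by positivity)
    have h3 : |t - (projIcc 0 M hM (q : ℝ) : ℝ)| ≤ δ := by
      have h4 : (projIcc 0 M hM (q : ℝ) : ℝ) = max 0 (min M q) := rfl
      rw [h4, abs_le]
      constructor
      · have : max 0 (min M (q : ℝ)) ≤ t + δ := by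
          refine max_le (by linarith [ht.1]) ((min_le_right _ _).trans hq2.le)
        linarith
      · have : t ≤ max 0 (min M (q : ℝ)) := le_max_of_le_right (le_min ht.2 hq1.le)
        linarith
    refine ⟨N, fun m hm n hn => ?_⟩
    have h5 := hN m hm n hn
    rw [Real.dist_eq] at h5 ⊢
    have h6 := h2 (φ m) t ht _ (Subtype.mem (projIcc 0 M hM (q : ℝ))) h3
    have h7 := h2 (φ n) t ht _ (Subtype.mem (projIcc 0 M hM (q : ℝ))) h3
    rw [abs_le] at h6 h7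
    rw [abs_lt] at h5 ⊢
    constructor <;> linarith [h5.1, h5.2, h6.1, h6.2, h7.1, h7.2]
  have h2 : ∀ t ∈ Icc 0 M, ∃ κ : K, ‖κ‖ ≤ A ∧ WTo (fun n => β (φ n) t) κ := by
    intro t ht
    obtain ⟨ψ, hψ, κ, hκ, h3⟩ := hW.1 (fun n => β (φ n) t) A (fun n => hβ _ t ht)
    refine ⟨κ, hκ, fun w => ?_⟩
    have h4 := cauchy_dense (x := fun n => β (φ n) t) (fun n => hβ _ t ht) hD (h1 t ht) w
    exact tendsto_nhds_of_cauchySeq_of_subseq h4 hψ.tendsto_atTop (h3 w)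
  have h2' : ∀ t, ∃ κ : K, t ∈ Icc 0 M → ‖κ‖ ≤ A ∧ WTo (fun n => β (φ n) t) κ := by
    intro t
    by_cases ht : t ∈ Icc 0 M
    · obtain ⟨κ, h3⟩ := h2 t ht
      exact ⟨κ, fun _ => h3⟩
    · exact ⟨0, fun h => absurd h ht⟩
  choose k hk using h2'
  refine ⟨φ, k, hφ, hk, ?_⟩
  -- uniform modulus for `w ∈ D`
  have h3 : ∀ w ∈ D, ∀ ε : ℝ, 0 < ε → ∃ δ : ℝ, 0 < δ ∧ ∀ s ∈ Icc 0 M, ∀ t ∈ Icc 0 M, |s - t| ≤ δ →
      |(inner ℝ (k s) w : ℝ) - inner ℝ (k t) w| ≤ ε := by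
    intro w hw ε hε
    obtain ⟨δ, hδ, h4⟩ := heq w hw ε hε
    refine ⟨δ, hδ, fun s hs t ht hst => ?_⟩
    have h5 : Tendsto (fun n => |(inner ℝ (β (φ n) s) w : ℝ) - inner ℝ (β (φ n) t) w|) atTop
        (𝓝 |(inner ℝ (k s) w : ℝ) - inner ℝ (k t) w|) :=
      (((hk s hs).2 w).sub ((hk t ht).2 w)).abs
    exact le_of_tendsto h5 (Eventually.of_forall fun n => h4 (φ n) s hs t ht hst)
  intro w
  rw [Metric.continuousOn_iff]
  intro t ht ε hε
  obtain ⟨w', hw', h4⟩ := near hD w hA0 (show 0 < ε / 4 by positivity)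
  obtain ⟨δ, hδ, h5⟩ := h3 w' hw' (ε / 2) (by positivity)
  refine ⟨δ, hδ, fun s hs hst => ?_⟩
  rw [Real.dist_eq] at hst ⊢
  have h6 := h5 s hs t ht hst.le
  have h7 := pair_le (hk s hs).1 (hk t ht).1 w w'
  linarith

end Pool.Agent.QWE
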