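import Pool.Agent.QWE.StG

set_option autoImplicit false

/-!
# QWE, WkS: weak convergence in `K`
-/

open MeasureTheory Filter Topology Set
open scoped ENNReal NNReal RealInnerProductSpace

namespace Pool.Agent.QWE

namespace WkSx

lemma sep : TopologicalSpace.SeparableSpace K := by
  have : Fact ((2 : ℝ≥0∞) ≠ ⊤) := ⟨by norm_num⟩
  have : MeasurableSpace.CountablyGenerated S := by infer_instance
  have h3 : MeasurableSpace.CountablyGenerated (S × ℝ) := by infer_instance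
  have h2 : MeasureTheory.IsSeparable mu := by infer_instance
  have h1 : SecondCountableTopology (Lp ℝ 2 mu) := MeasureTheory.Lp.SecondCountableTopology
  infer_instance

lemma bdd {k : ℕ → K} {k' : K} (h : WTo k k') : ∃ A, ∀ n, ‖k n‖ ≤ A := by
  obtain ⟨C, hC⟩ := banach_steinhaus (g := fun n => innerSL ℝ (k n)) (fun w => by
    have h1 : Bornology.IsBounded (range fun n => (inner ℝ (k n) w : ℝ)) :=
      Metric.isBounded_range_of_tendsto _ (h w)
    obtain ⟨C, hC⟩ := h1.exists_norm_le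
    exact ⟨C, fun n => hC _ ⟨n, rfl⟩⟩)
  exact ⟨C, fun n => by simpa using hC n⟩

lemma norm_le {k : ℕ → K} {k' : K} {A : ℝ} (h : WTo k k') (hA : ∀ n, ‖k n‖ ≤ A) : ‖k'‖ ≤ A := by
  have h1 := h k'
  have h2 : (inner ℝ k' k' : ℝ) ≤ A * ‖k'‖ := by
    refine le_of_tendsto h1 (Eventually.of_forall fun n => ?_)
    refine (real_inner_le_norm _ _).trans ?_
    gcongr
    exact hA n
  rw [real_inner_self_eq_norm_sq] at h2
  by_contra h3
  push Not at h3
  have h4 : 0 ≤ A := (norm_nonneg _).trans (hA 0)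
  nlinarith [norm_nonneg k']

lemma seqc (k : ℕ → K) (A : ℝ) (hk : ∀ n, ‖k n‖ ≤ A) :
    ∃ φ : ℕ → ℕ, StrictMono φ ∧ ∃ k' : K, ‖k'‖ ≤ A ∧ WTo (k ∘ φ) k' := by
  have : TopologicalSpace.SeparableSpace K := sep
  have h1 := WeakDual.isSeqCompact_closedBall ℝ K 0 A
  obtain ⟨f, -, φ, hφ, h2⟩ := h1 (x := fun n => StrongDual.toWeakDual (innerSL ℝ (k n)))
    (fun n => by
      simp only [mem_preimage, Metric.mem_closedBall, dist_zero_right]
      have : ‖innerSL ℝ (k n)‖ ≤ A := by rw [innerSL_apply_norm]; exact hk n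
      exact this)
  obtain ⟨k', hk'⟩ : ∃ k' : K, k' = (InnerProductSpace.toDual ℝ K).symm
    (WeakDual.toStrongDual f) := ⟨_, rfl⟩
  have h3 : WTo (k ∘ φ) k' := by
    intro w
    have h4 := (WeakDual.eval_continuous (𝕜 := ℝ) w).tendsto f
    have h5 := h4.comp h2
    have h6 : (inner ℝ k' w : ℝ) = f w := by
      rw [hk', InnerProductSpace.toDual_symm_apply]; rfl
    rw [h6]
    exact h5
  exact ⟨φ, hφ, k', norm_le h3 fun n => hk _, h3⟩

lemma ofDense {k : ℕ → K} {k' : K} {A : ℝ} {D : Set K} (hD : Dense D) (hA : ∀ n, ‖k n‖ ≤ A)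
    (h : ∀ w ∈ D, Tendsto (fun n => (inner ℝ (k n) w : ℝ)) atTop (𝓝 (inner ℝ k' w))) :
    WTo k k' := by
  intro w
  have hA0 : 0 ≤ A := (norm_nonneg _).trans (hA 0)
  rw [Metric.tendsto_atTop]
  intro ε hε
  obtain ⟨w', hw', h1⟩ := Metric.mem_closure_iff.1 (hD w) (ε / (2 * (A + ‖k'‖ + 1)))
    (by positivity)
  obtain ⟨N, hN⟩ := Metric.tendsto_atTop.1 (h w' hw') (ε / 2) (by positivity)
  refine ⟨N, fun n hn => ?_⟩
  have h2 := hN n hn
  rw [Real.dist_eq] at h2 ⊢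
  rw [dist_eq_norm] at h1
  have h3 : (inner ℝ (k n) w : ℝ) - inner ℝ k' w =
      inner ℝ (k n - k') (w - w') + (inner ℝ (k n) w' - inner ℝ k' w') := by
    simp only [inner_sub_left, inner_sub_right]; ring
  have h4 : |(inner ℝ (k n - k') (w - w') : ℝ)| ≤ (A + ‖k'‖) * ‖w - w'‖ := by
    refine (abs_real_inner_le_norm _ _).trans ?_
    gcongr
    exact (norm_sub_le _ _).trans (by linarith [hA n])
  have h5 : (A + ‖k'‖) * ‖w - w'‖ ≤ ε / 2 := by
    have h6 : (A + ‖k'‖ + 1) * ‖w - w'‖ ≤ (A + ‖k'‖ + 1) * (ε / (2 * (A + ‖k'‖ + 1))) := by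
      gcongr
    have h7 : (A + ‖k'‖ + 1) * (ε / (2 * (A + ‖k'‖ + 1))) = ε / 2 := by
      have : A + ‖k'‖ + 1 ≠ 0 := by positivity
      field_simp
    nlinarith [norm_nonneg (w - w')]
  rw [h3]
  calc |(inner ℝ (k n - k') (w - w') : ℝ) + (inner ℝ (k n) w' - inner ℝ k' w')|
      ≤ |(inner ℝ (k n - k') (w - w') : ℝ)| + |(inner ℝ (k n) w' : ℝ) - inner ℝ k' w'| :=
        abs_add_le _ _
    _ < ε := by linarith

end WkSx

open WkSx in
theorem thm_WkS : St_WkS := by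
  refine ⟨seqc, fun k k' h => bdd h, fun k k' A h hA => norm_le h hA, ?_, ?_, ?_, ?_, ?_, ?_⟩
  · intro k k' φ h hφ w
    exact (h w).comp hφ.tendsto_atTop
  · intro k k' k'' h h'
    have h1 : ∀ w, (inner ℝ k' w : ℝ) = inner ℝ k'' w := fun w => tendsto_nhds_unique (h w) (h' w)
    exact ext_inner_right ℝ h1
  · intro k k' h w
    exact h.inner tendsto_const_nhds
  · intro k k' h h'
    rw [tendsto_iff_norm_sub_tendsto_zero]
    have h1 : Tendsto (fun n => ‖k n - k'‖ ^ 2) atTop (𝓝 0) := by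
      have h2 : Tendsto (fun n => ‖k n‖ ^ 2 - 2 * (inner ℝ (k n) k' : ℝ) + ‖k'‖ ^ 2) atTop
          (𝓝 (‖k'‖ ^ 2 - 2 * (inner ℝ k' k' : ℝ) + ‖k'‖ ^ 2)) :=
        ((h'.pow 2).sub ((h k').const_mul 2)).add_const _
      have h3 : ‖k'‖ ^ 2 - 2 * (inner ℝ k' k' : ℝ) + ‖k'‖ ^ 2 = 0 := by
        rw [real_inner_self_eq_norm_sq]; ring
      rw [h3] at h2
      refine h2.congr fun n => ?_
      rw [norm_sub_sq_real]
    have h4 : Tendsto (fun n => √(‖k n - k'‖ ^ 2)) atTop (𝓝 (√0)) :=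
      (Real.continuous_sqrt.tendsto 0).comp h1
    rw [Real.sqrt_zero] at h4
    refine h4.congr fun n => ?_
    rw [Real.sqrt_sq (norm_nonneg _)]
  · intro k k' A D hD hA h
    exact ofDense hD hA h
  · intro k k' h
    unfold WTo at h
    push Not at h
    obtain ⟨w, hw⟩ := h
    rw [Metric.tendsto_atTop] at hw
    push Not at hw
    obtain ⟨ε, hε, hw⟩ := hw
    have h1 : ∃ᶠ n in atTop, ε ≤ |(inner ℝ (k n) w : ℝ) - inner ℝ k' w| := by
      rw [frequently_atTop]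
      intro N
      obtain ⟨n, hn, h2⟩ := hw N
      exact ⟨n, hn, by rwa [Real.dist_eq] at h2⟩
    obtain ⟨φ, hφ, h3⟩ := extraction_of_frequently_atTop h1
    exact ⟨w, ε, φ, hε, hφ, h3⟩

end Pool.Agent.QWE
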