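import Pool.Agent.QWE.ABd
import Pool.Agent.QWE.Act
import Pool.Agent.QWE.Apx
import Pool.Agent.QWE.Blow
import Pool.Agent.QWE.Br1
import Pool.Agent.QWE.Br2
import Pool.Agent.QWE.Br3
import Pool.Agent.QWE.C0
import Pool.Agent.QWE.C1
import Pool.Agent.QWE.C1a
import Pool.Agent.QWE.C2
import Pool.Agent.QWE.C2a
import Pool.Agent.QWE.C2b
import Pool.Agent.QWE.C3
import Pool.Agent.QWE.C4
import Pool.Agent.QWE.C5
import Pool.Agent.QWE.C6
import Pool.Agent.QWE.CSy
import Pool.Agent.QWE.Core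
import Pool.Agent.QWE.Cut
import Pool.Agent.QWE.D1
import Pool.Agent.QWE.D2
import Pool.Agent.QWE.D3
import Pool.Agent.QWE.D4
import Pool.Agent.QWE.D5
import Pool.Agent.QWE.Dec
import Pool.Agent.QWE.Decay
import Pool.Agent.QWE.Dens
import Pool.Agent.QWE.DuhI
import Pool.Agent.QWE.E1
import Pool.Agent.QWE.E3
import Pool.Agent.QWE.E3a
import Pool.Agent.QWE.E4
import Pool.Agent.QWE.E4a
import Pool.Agent.QWE.En
import Pool.Agent.QWE.ExB
import Pool.Agent.QWE.ExF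
import Pool.Agent.QWE.Ext
import Pool.Agent.QWE.FEd
import Pool.Agent.QWE.FSP
import Pool.Agent.QWE.FSl
import Pool.Agent.QWE.FbP
import Pool.Agent.QWE.FinalOf
import Pool.Agent.QWE.Fld
import Pool.Agent.QWE.Free
import Pool.Agent.QWE.G0
import Pool.Agent.QWE.G0a
import Pool.Agent.QWE.G10
import Pool.Agent.QWE.G11
import Pool.Agent.QWE.G12
import Pool.Agent.QWE.G13
import Pool.Agent.QWE.G13a
import Pool.Agent.QWE.G14
import Pool.Agent.QWE.G15
import Pool.Agent.QWE.G16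
import Pool.Agent.QWE.G2
import Pool.Agent.QWE.G4
import Pool.Agent.QWE.G5
import Pool.Agent.QWE.G6
import Pool.Agent.QWE.G7
import Pool.Agent.QWE.G8
import Pool.Agent.QWE.G9
import Pool.Agent.QWE.GBd
import Pool.Agent.QWE.GLim
import Pool.Agent.QWE.GStab
import Pool.Agent.QWE.GamE
import Pool.Agent.QWE.Glue
import Pool.Agent.QWE.GrA
import Pool.Agent.QWE.Gron
import Pool.Agent.QWE.Grp1
import Pool.Agent.QWE.Grp2
import Pool.Agent.QWE.HB
import Pool.Agent.QWE.HLS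
import Pool.Agent.QWE.Hcp
import Pool.Agent.QWE.Hsc
import Pool.Agent.QWE.IP
import Pool.Agent.QWE.Ind
import Pool.Agent.QWE.Int0
import Pool.Agent.QWE.Int1
import Pool.Agent.QWE.Intp
import Pool.Agent.QWE.Iso
import Pool.Agent.QWE.KcB
import Pool.Agent.QWE.L5B
import Pool.Agent.QWE.L7
import Pool.Agent.QWE.L8
import Pool.Agent.QWE.LAf
import Pool.Agent.QWE.Lin
import Pool.Agent.QWE.Loc
import Pool.Agent.QWE.Lsc
import Pool.Agent.QWE.LscT
import Pool.Agent.QWE.MaxE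
import Pool.Agent.QWE.Meas
import Pool.Agent.QWE.Mor
import Pool.Agent.QWE.MorI
import Pool.Agent.QWE.NF
import Pool.Agent.QWE.NF1
import Pool.Agent.QWE.NFK
import Pool.Agent.QWE.NFSP
import Pool.Agent.QWE.NFa
import Pool.Agent.QWE.NFb
import Pool.Agent.QWE.NLb
import Pool.Agent.QWE.NLc
import Pool.Agent.QWE.NLi
import Pool.Agent.QWE.NLo
import Pool.Agent.QWE.NLw
import Pool.Agent.QWE.NPth
import Pool.Agent.QWE.P1
import Pool.Agent.QWE.P1a
import Pool.Agent.QWE.P3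
import Pool.Agent.QWE.P3a
import Pool.Agent.QWE.P3b
import Pool.Agent.QWE.P3c
import Pool.Agent.QWE.P3d
import Pool.Agent.QWE.P3e
import Pool.Agent.QWE.P4
import Pool.Agent.QWE.P4r
import Pool.Agent.QWE.PSy
import Pool.Agent.QWE.Pert
import Pool.Agent.QWE.Psi
import Pool.Agent.QWE.PsiNZ
import Pool.Agent.QWE.R
import Pool.Agent.QWE.RSob
import Pool.Agent.QWE.RSobT
import Pool.Agent.QWE.RadS
import Pool.Agent.QWE.RadT
import Pool.Agent.QWE.SL
import Pool.Agent.QWE.SL1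
import Pool.Agent.QWE.SNc
import Pool.Agent.QWE.SNt
import Pool.Agent.QWE.ScM
import Pool.Agent.QWE.Small
import Pool.Agent.QWE.Sob
import Pool.Agent.QWE.Sph
import Pool.Agent.QWE.Stab
import Pool.Agent.QWE.Str
import Pool.Agent.QWE.Sym
import Pool.Agent.QWE.Tga
import Pool.Agent.QWE.Tgt
import Pool.Agent.QWE.UTest
import Pool.Agent.QWE.UV0
import Pool.Agent.QWE.Uniq
import Pool.Agent.QWE.WEq
import Pool.Agent.QWE.WkC
import Pool.Agent.QWE.WkS
import Pool.Agent.QWE.Z1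

set_option autoImplicit false

/-!
# QWE: assembly of the proof
-/

namespace Pool.Agent.QWE

/-- The final theorem (internal form). -/
theorem final : St_Final := by
  have hPsi : St_Psi := thm_Psi
  have hRSobT : St_RSobT := thm_RSobT
  have hRadS : St_RadS := thm_RadS
  have hFSl : St_FSl := thm_FSl hRadS
  have hIso : St_Iso := thm_Iso hRadS hFSl
  have hDens : St_Dens := thm_Dens hRadS hFSl hIso
  have hSob : St_Sob := thm_Sob
  have hUTest : St_UTest := thm_UTest hRadS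
  have hFld : St_Fld := thm_Fld hSob hIso hDens hUTest
  have hLin : St_Lin := thm_Lin hDens hIso hUTest hFld
  have hGrp1 : St_Grp1 := thm_Grp1
  have hGrp2 : St_Grp2 := thm_Grp2
  have hRadT : St_RadT := thm_RadT
  have hAct : St_Act := thm_Act hGrp1 hGrp2 hRadT hUTest hFld
  have hIP : St_IP := thm_IP hIso hDens hFld hLin
  have hRSob : St_RSob := thm_RSob hRSobT hDens hFld hLin hAct hUTest hIP
  have hSL : St_SL := thm_SL
  have hSL1 : St_SL1 := thm_SL1 hSL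
  have hHLS : St_HLS := thm_HLS
  have hKcB : St_KcB := thm_KcB hHLS
  have hStr : St_Str := thm_Str hSL1 hKcB
  have hLsc : St_Lsc := thm_Lsc hUTest hLin
  have hDuhI : St_DuhI := thm_DuhI hGrp1 hLin hUTest hLsc hStr
  have hGamE : St_GamE := thm_GamE hUTest hFld hLin hIP
  have hNLb : St_NLb := thm_NLb hFld hLin hDens hGamE
  have hNLw : St_NLw := thm_NLw hNLb hFld
  have hMeas : St_Meas := thm_Meas hDens hFld hLin hLsc hNLw
  have hG2 : St_G2 := thm_G2 hRSob hStr hDuhI hNLb hMeas hLin hGrp1 hUTest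
  have hWkS : St_WkS := thm_WkS
  have hSph : St_Sph := thm_Sph hRadT hSL1 hIso
  have hDecay : St_Decay := thm_Decay hRadT hIso hDens hSL1 hSph
  have hG10 : St_G10 := thm_G10 hDecay hDens hLin hFld hGrp1
  have hLscT : St_LscT := thm_LscT hUTest hLin
  have hSNt : St_SNt := thm_SNt hFld hLin hMeas
  have hLoc : St_Loc := thm_Loc hGrp1 hLsc hNLb hMeas hDuhI hSNt
  have hUniq : St_Uniq := thm_Uniq hGrp1 hNLb hMeas hDuhI
  have hGlue : St_Glue := thm_Glue hGrp1 hNLb hMeas hUniq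
  have hGron : St_Gron := thm_Gron hMeas hNLb
  have hBlow : St_Blow := thm_Blow hGrp1 hStr hNLb hMeas hLoc hGlue hGron
  have hMaxE : St_MaxE := thm_MaxE hStr hLoc hUniq hGlue
  have hApx : St_Apx := thm_Apx hG10 hLscT hLsc hBlow hMaxE hDens hLin hFld
  have hInt0 : St_Int0 := thm_Int0 hNLb hGamE hDens hLin hFld
  have hInt1 : St_Int1 := thm_Int1 hInt0 hFld
  have hWkC : St_WkC := thm_WkC hWkS
  have hG4 : St_G4 := thm_G4 hWkS hFld hLin hDens hUTest
  have hNLc : St_NLc := thm_NLc hG4 hWkS hLin hFld hNLb hNLw hDecay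
  have hFree : St_Free := thm_Free hRadT hIso hDens hSph
  have hG5 : St_G5 := thm_G5 hWkS hWkC hNLc hNLb hMeas hUniq hDuhI hFree hDens hGrp1 hLin
  have hG9 : St_G9 := thm_G9 hG5 hG4 hMeas hFld hLin
  have hG11 : St_G11 := thm_G11 hApx hInt1 hG9 hGron hMeas hFld hLin
  have hG6 : St_G6 := thm_G6 hDens hLin hFld
  have hG7 : St_G7 := thm_G7 hG6 hDecay hIP hNLb hLin hFld
  have hG8 : St_G8 := thm_G8 hG5 hG7 hNLc hNLb hMeas hLin hFree hDens hGrp1
  have hPert : St_Pert := thm_Pert hGrp1 hStr hNLb hMeas hDuhI hSNt hLoc hGlue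
  have hDec : St_Dec := thm_Dec hG11 hG8 hPert hUniq hGron hSNt hMeas hNLb hBlow hMaxE hGrp1
  have hSNc : St_SNc := thm_SNc hLin hNLb hUniq
  have hSmall : St_Small := thm_Small hStr hNLb hMeas hLoc hGron hMaxE hBlow
  have hG12 : St_G12 := thm_G12 hDec hSNc hMaxE hBlow hUniq hSmall hGron hWkS
  have hSym : St_Sym := thm_Sym hGrp1 hGrp2 hDens hUTest hFld hAct
  have hStab : St_Stab := thm_Stab hGrp2 hGlue hPert hSym
  have hGStab : St_GStab := thm_GStab hSNt hUniq hGron hPert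
  have hG13a : St_G13a := thm_G13a hStab hGStab hBlow hMaxE hUniq hSNt hSNc
  have hGrA : St_GrA := thm_GrA hGrp1 hGrp2 hAct
  have hScM : St_ScM := thm_ScM hSym hGrA
  have hG13 : St_G13 := thm_G13 hPsi hG2 hWkS hG12 hG13a hScM hSNc
  have hG14 : St_G14 := thm_G14 hPsi hG2 hWkS hG12 hG13a hScM hSNc hSNt
  have hExB : St_ExB := thm_ExB hDens hUTest hFld hLin
  have hPsiNZ : St_PsiNZ := thm_PsiNZ hAct hUTest hLin hFld hDens hExB
  have hFbP : St_FbP := thm_FbP hPsiNZ hGrA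
  have hG0a : St_G0a := thm_G0a hGrp1 hGrp2 hSL1
  have hG0 : St_G0 := thm_G0 hG0a
  have hGBd : St_GBd := thm_GBd hG0
  have hG15 : St_G15 := thm_G15 hG14 hFbP hPsi hGBd hGrA hSNc hWkS hLin
  have hGLim : St_GLim := thm_GLim hGBd hGrA
  have hC1a : St_C1a := thm_C1a hGrp1 hStr hSNt hLoc
  have hG16 : St_G16 := thm_G16 hG15 hGLim hGBd hC1a hStab hMaxE hScM hSNc hWkS hGrA
  have hC0 : St_C0 := thm_C0 hUniq hSmall
  have hFSP : St_FSP := thm_FSP hGrp1 hExB hFree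
  have hNFSP : St_NFSP := thm_NFSP hExB hLin hAct hGrp1 hFSP hStr hNLb hMeas hDuhI hSNt hLoc hUniq hSym
  have hExt : St_Ext := thm_Ext hExB hSmall hNFSP
  have hTga : St_Tga := thm_Tga hExB
  have hCSy : St_CSy := thm_CSy hGrp2 hGrA hSym
  have hC1 : St_C1 := thm_C1 hC1a hCSy hMaxE hGrA
  have hC2a : St_C2a := thm_C2a hExB hExt hGrA hTga hC1
  have hExF : St_ExF := thm_ExF hFld hLin hExB
  have hC2b : St_C2b := thm_C2b hFld hLin hExF
  have hWEq : St_WEq := thm_WEq hGrp1 hRadT hUTest hFld hLin hNLb hMeas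
  have hFEd : St_FEd := thm_FEd hFld hLin hDens hIP hSob
  have hEn : St_En := thm_En hFld hLin hWEq hFEd
  have hZ1 : St_Z1 := thm_Z1 hDens hUTest hFld
  have hC2 : St_C2 := thm_C2 hC2a hC2b hEn hZ1 hCSy hGrA
  have hC3 : St_C3 := thm_C3 hGrA hGLim hCSy hC2 hMaxE hStab hUniq hSmall
  have hC4 : St_C4 := thm_C4 hGrA hG0 hC3
  have hC5 : St_C5 := thm_C5
  have hC6 : St_C6 := thm_C6 hC4 hC3 hC5
  have hD1 : St_D1 := thm_D1 hDens hLin hIP hExB hDecay
  have hHB : St_HB := thm_HB hAct hExB hGrp2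
  have hD2 : St_D2 := thm_D2 hExt hD1 hExB hHB hGrp1
  have hHcp : St_Hcp := thm_Hcp hExB hHB
  have hCut : St_Cut := thm_Cut hDens hUTest hFld hLin hIP
  have hHsc : St_Hsc := thm_Hsc hExB hCut hHB
  have hD3 : St_D3 := thm_D3 hD2 hHB hHcp hHsc hC3 hGrA hCSy hGrp1
  have hABd : St_ABd := thm_ABd hGBd
  have hD4 : St_D4 := thm_D4 hD2 hD3 hHB hHcp hABd
  have hIntp : St_Intp := thm_Intp
  have hD5 : St_D5 := thm_D5 hD4 hIntp
  have hTgt : St_Tgt := thm_Tgt hTga hGrA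
  have hNPth : St_NPth := thm_NPth hExB hGrA hTgt
  have hPSy : St_PSy := thm_PSy hGrp2 hAct hSym
  have hNLi : St_NLi := thm_NLi hGrp1 hNLb hMeas
  have hP3a : St_P3a := thm_P3a hGrp1 hNLi
  have hInd : St_Ind := thm_Ind
  have hL7 : St_L7 := thm_L7 hRadT
  have hL8 : St_L8 := thm_L8 hFld hIP hExB hL7
  have hNLo : St_NLo := thm_NLo hLin hExB hL8 hExF hNLb
  have hP1a : St_P1a := thm_P1a hInd hNLo hNLi hExB hL8 hExt
  have hP1 : St_P1 := thm_P1 hInd hPSy hP1a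
  have hP3b : St_P3b := thm_P3b hInd hP1
  have hNFa : St_NFa := thm_NFa hRadT hIso hDens
  have hNFK : St_NFK := thm_NFK hSL
  have hNFb : St_NFb := thm_NFb hRadT hUTest hLin hIP hNFK hNFa
  have hNF1 : St_NF1 := thm_NF1 hNFa hNFb
  have hNF : St_NF := thm_NF hGrp1 hGrp2 hDens hUTest hFld hLin hAct hGamE hNF1
  have hCore : St_Core := thm_Core hDens hFld hGamE hNLb hExF
  have hP3c : St_P3c := thm_P3c hFld hNF hInd hNLo hCore
  have hP3d : St_P3d := thm_P3d hExt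
  have hP3e : St_P3e := thm_P3e hExB hInd hNLi hP3a hP3c hP3d
  have hL5B : St_L5B := thm_L5B hFld hExF
  have hP3 : St_P3 := thm_P3 hExB hP3a hP3b hP3e hL5B
  have hP4r : St_P4r := thm_P4r
  have hP4 : St_P4 := thm_P4 hExB hPSy hP3 hP4r
  have hE1 : St_E1 := thm_E1 hFld hExF
  have hMorI : St_MorI := thm_MorI hFld hLin hFEd
  have hMor : St_Mor := thm_Mor hFld hLin hWEq hFEd hEn hMorI
  have hUV0 : St_UV0 := thm_UV0 hWEq hUTest hLin hDens
  have hE3a : St_E3a := thm_E3a hFld hC3 hLsc hUV0 hAct hGrA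
  have hE3 : St_E3 := thm_E3 hE3a
  have hE4a : St_E4a := thm_E4a hFld hExF
  have hE4 : St_E4 := thm_E4 hGrA hTga hEn hZ1 hE1 hE4a
  have hR : St_R := thm_R hC0 hC2 hC6 hD5 hNPth hP4 hE1 hMor hE3 hE4
  have hLA : St_LA := thm_LA hG13 hG16 hR hGrA
  have hBr1 : St_Br1 := thm_Br1 hDens hFld hLin hIP hExB
  have hBr2 : St_Br2 := thm_Br2 hGrp1 hRadT hDens hUTest hLin hFree hNLb hMeas hBr1
  have hBr3 : St_Br3 := thm_Br3 hRadT hGrp1 hUTest hFld hLin hWEq hBr1
  have hFinalOf : St_FinalOf := thm_FinalOf hGrp1 hLin hMaxE hBlow hBr1 hBr2 hBr3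
  exact hFinalOf hLA

end Pool.Agent.QWE
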