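import Pool.Agent.QWE.StA

/-!
# QWE, module SL1: zonal functions on the sphere (helper18)
-/

set_option autoImplicit false

open MeasureTheory Filter Topology Set
open scoped ENNReal NNReal RealInnerProductSpace Pointwise

namespace Pool.Agent.QWE

namespace SL1x

theorem area : (volume : Measure (EuclideanSpace ℝ (Fin 4))).toSphere.real univ =
    2 * Real.pi ^ 2 := by
  rw [Measure.real, Measure.toSphere_apply_univ, EuclideanSpace.volume_ball]
  have h1 : Real.Gamma (((Fintype.card (Fin 4) : ℕ) : ℝ) / 2 + 1) = 2 := by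
    have h2 : ((Fintype.card (Fin 4) : ℕ) : ℝ) / 2 + 1 = ((2 : ℕ) : ℝ) + 1 := by
      rw [Fintype.card_fin]
      norm_num
    rw [h2, Real.Gamma_nat_eq_factorial]
    norm_num [Nat.factorial]
  rw [h1]
  have h3 : √Real.pi ^ (Fintype.card (Fin 4)) = Real.pi ^ 2 := by
    rw [Fintype.card_fin]
    have : (√Real.pi) ^ 4 = ((√Real.pi) ^ 2) ^ 2 := by ring
    rw [this, Real.sq_sqrt Real.pi_pos.le]
  rw [h3]
  simp only [finrank_euclideanSpace, Fintype.card_fin, ENNReal.ofReal_one, one_pow, one_mul,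
    ENNReal.toReal_mul, ENNReal.toReal_natCast]
  rw [ENNReal.toReal_ofReal (by positivity)]
  push_cast
  ring

theorem exO (e : E) (he : e ≠ 0) :
    ∃ O : EuclideanSpace ℝ (Fin 4) →ₗᵢ[ℝ] E, ∀ v, inner ℝ (O v) e = 0 := by
  have : Fact (Module.finrank ℝ E = 4 + 1) := ⟨by simp [E]⟩
  let b := OrthonormalBasis.fromOrthogonalSpanSingleton (𝕜 := ℝ) 4 he
  refine ⟨(Submodule.subtypeₗᵢ _).comp b.repr.symm.toLinearIsometry, fun v => ?_⟩
  have h := (b.repr.symm v).2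
  rw [Submodule.mem_orthogonal_singleton_iff_inner_left] at h
  exact h

theorem cont (hSL : St_SL) (z : E) (hz : z ≠ 0) (h : ℝ → ℝ) (hc : Continuous h) :
    ∫ w : S, h (inner ℝ z (w : E)) ∂sg =
      ∫ p in (-‖z‖)..‖z‖, (2 * Real.pi ^ 2 / ‖z‖ * (1 - p ^ 2 / ‖z‖ ^ 2)) * h p := by
  have hz0 : 0 < ‖z‖ := norm_pos_iff.mpr hz
  have he : ‖z‖⁻¹ • z ∈ Metric.sphere (0 : E) 1 := by
    rw [mem_sphere_zero_iff_norm, norm_smul, norm_inv, norm_norm]
    exact inv_mul_cancel₀ hz0.ne'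
  obtain ⟨O, hO⟩ := exO z hz
  have key := hSL ⟨‖z‖⁻¹ • z, he⟩ O (fun v => by
    change inner ℝ (O v) (‖z‖⁻¹ • z) = 0
    rw [inner_smul_right, hO v, mul_zero]) (fun x => h (inner ℝ z x))
    (hc.comp (by fun_prop))
  rw [key]
  have h1 : ∀ s : ℝ, (1 - s ^ 2) *
      ∫ v : Metric.sphere (0 : EuclideanSpace ℝ (Fin 4)) 1,
        h (inner ℝ z (s • (((⟨‖z‖⁻¹ • z, he⟩ : S) : E)) + √(1 - s ^ 2) • O v))
        ∂((volume : Measure (EuclideanSpace ℝ (Fin 4))).toSphere) =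
      (1 - (s * ‖z‖) ^ 2 / ‖z‖ ^ 2) * (2 * Real.pi ^ 2 * h (s * ‖z‖)) := by
    intro s
    have h2 : ∀ v : Metric.sphere (0 : EuclideanSpace ℝ (Fin 4)) 1,
        h (inner ℝ z (s • (((⟨‖z‖⁻¹ • z, he⟩ : S) : E)) + √(1 - s ^ 2) • O v)) =
        h (s * ‖z‖) := by
      intro v
      congr 1
      change inner ℝ z (s • (‖z‖⁻¹ • z) + √(1 - s ^ 2) • O v) = s * ‖z‖
      rw [inner_add_right, inner_smul_right, inner_smul_right, inner_smul_right,
        real_inner_self_eq_norm_sq, real_inner_comm (O v) z, hO]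
      field_simp
      ring
    have h3 : ∫ v : Metric.sphere (0 : EuclideanSpace ℝ (Fin 4)) 1,
        h (inner ℝ z (s • (((⟨‖z‖⁻¹ • z, he⟩ : S) : E)) + √(1 - s ^ 2) • O v))
        ∂((volume : Measure (EuclideanSpace ℝ (Fin 4))).toSphere) =
        2 * Real.pi ^ 2 * h (s * ‖z‖) := by
      rw [integral_congr_ae (Eventually.of_forall h2), integral_const, area, smul_eq_mul]
    rw [h3]
    congr 2
    field_simp
  rw [intervalIntegral.integral_congr (g := fun s : ℝ =>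
    (1 - (s * ‖z‖) ^ 2 / ‖z‖ ^ 2) * (2 * Real.pi ^ 2 * h (s * ‖z‖))) (fun s _ => h1 s)]
  rw [intervalIntegral.integral_comp_mul_right
    (fun p => (1 - p ^ 2 / ‖z‖ ^ 2) * (2 * Real.pi ^ 2 * h p)) hz0.ne']
  rw [smul_eq_mul, ← intervalIntegral.integral_const_mul]
  have e1 : (-1 : ℝ) * ‖z‖ = -‖z‖ := by ring
  rw [e1, one_mul]
  refine intervalIntegral.integral_congr (fun p _ => ?_)
  change ‖z‖⁻¹ * ((1 - p ^ 2 / ‖z‖ ^ 2) * (2 * Real.pi ^ 2 * h p)) =
    (2 * Real.pi ^ 2 / ‖z‖ * (1 - p ^ 2 / ‖z‖ ^ 2)) * h p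
  ring

theorem meas (hSL : St_SL) (z : E) (hz : z ≠ 0) :
    sg.map (fun w : S => inner ℝ z (w : E)) =
      ((volume : Measure ℝ).restrict (Icc (-‖z‖) ‖z‖)).withDensity
        (fun p => ENNReal.ofReal (2 * Real.pi ^ 2 / ‖z‖ * (1 - p ^ 2 / ‖z‖ ^ 2))) := by
  have hz0 : 0 < ‖z‖ := norm_pos_iff.mpr hz
  have hd : Continuous (fun p : ℝ => 2 * Real.pi ^ 2 / ‖z‖ * (1 - p ^ 2 / ‖z‖ ^ 2)) := by
    fun_prop
  have hi : Integrable (fun p : ℝ => 2 * Real.pi ^ 2 / ‖z‖ * (1 - p ^ 2 / ‖z‖ ^ 2))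
      ((volume : Measure ℝ).restrict (Icc (-‖z‖) ‖z‖)) :=
    hd.continuousOn.integrableOn_compact isCompact_Icc
  have : IsFiniteMeasure (((volume : Measure ℝ).restrict (Icc (-‖z‖) ‖z‖)).withDensity
        (fun p => ENNReal.ofReal (2 * Real.pi ^ 2 / ‖z‖ * (1 - p ^ 2 / ‖z‖ ^ 2)))) :=
    isFiniteMeasure_withDensity_ofReal hi.2
  have hm : Measurable (fun w : S => inner ℝ z (w : E)) := by fun_prop
  have : IsFiniteMeasure (sg.map (fun w : S => inner ℝ z (w : E))) :=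
    Measure.isFiniteMeasure_map _ _
  refine ext_of_forall_integral_eq_of_IsFiniteMeasure (fun f => ?_)
  rw [integral_map hm.aemeasurable f.continuous.aestronglyMeasurable,
    cont hSL z hz f f.continuous]
  rw [integral_withDensity_eq_integral_toReal_smul (by fun_prop)
    (Eventually.of_forall fun _ => ENNReal.ofReal_lt_top)]
  rw [intervalIntegral.integral_of_le (by linarith), ← integral_Icc_eq_integral_Ioc]
  refine setIntegral_congr_fun measurableSet_Icc (fun p hp => ?_)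
  have h1 : 0 ≤ 2 * Real.pi ^ 2 / ‖z‖ * (1 - p ^ 2 / ‖z‖ ^ 2) := by
    refine mul_nonneg (by positivity) ?_
    rw [sub_nonneg, div_le_one (by positivity)]
    exact sq_le_sq' hp.1 hp.2
  change (2 * Real.pi ^ 2 / ‖z‖ * (1 - p ^ 2 / ‖z‖ ^ 2)) * f p =
    (ENNReal.ofReal (2 * Real.pi ^ 2 / ‖z‖ * (1 - p ^ 2 / ‖z‖ ^ 2))).toReal • f p
  rw [ENNReal.toReal_ofReal h1, smul_eq_mul]

end SL1x

theorem thm_SL1 (hSL : St_SL) : St_SL1 := by
  intro z hz g hg
  have hm : Measurable (fun w : S => inner ℝ z (w : E)) := by fun_prop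
  have h1 := SL1x.meas hSL z hz
  rw [← lintegral_map hg hm, h1, lintegral_withDensity_eq_lintegral_mul _ (by fun_prop) hg]
  rfl

end Pool.Agent.QWE
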