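import Pool.Agent.QWE.StA
import Pool.Agent.QWE.StB

/-!
# QWE, module Z1: energy zero
-/

set_option autoImplicit false

open MeasureTheory Filter Topology Set
open scoped ENNReal NNReal RealInnerProductSpace ContDiff Pointwise

namespace Pool.Agent.QWE

namespace Z1x

private lemma sch {f : E → ℝ} (hf : IsTest f) : IsSch f :=
  ⟨hf.2.toSchwartzMap hf.1, fun _ => rfl⟩

private lemma ae_zero {f : E → ℝ} (n : ℕ) (hn : n ≠ 0) (he : Even n)
    (hf : MemLp f (n : ℝ≥0∞) volume) (h : ∫ x, f x ^ n = 0) : f =ᵐ[volume] 0 := by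
  have h0 : ∀ x, 0 ≤ f x ^ n := fun x => he.pow_nonneg (f x)
  have hi : Integrable (fun x => f x ^ n) volume := by
    have h1 := hf.integrable_norm_pow hn
    refine h1.congr (Eventually.of_forall fun x => ?_)
    change ‖f x‖ ^ n = f x ^ n
    rw [Real.norm_eq_abs, he.pow_abs]
  have h2 := (integral_eq_zero_iff_of_nonneg h0 hi).1 h
  filter_upwards [h2] with x hx
  exact pow_eq_zero_iff hn |>.1 hx

private lemma orth (k : K) (hU : ∀ φ, IsTest φ → inner ℝ k (Rk φ) = 0)
    (hV : ∀ φ, IsTest φ → inner ℝ k (dRk φ) = 0) (hT : TS univ = ⊤) : k = 0 := by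
  have hk : k ∈ TS univ := by
    rw [hT]
    exact Submodule.mem_top
  have h1 : ∀ w ∈ Submodule.span ℝ {w : K | ∃ φ, IsTest φ ∧ tsupport φ ⊆ univ ∧
      (w = Rk φ ∨ w = dRk φ)}, inner ℝ k w = 0 := by
    intro w hw
    induction hw using Submodule.span_induction with
    | mem w hw =>
      obtain ⟨φ, hφ, -, h | h⟩ := hw
      · rw [h]
        exact hU φ hφ
      · rw [h]
        exact hV φ hφ
    | zero => exact inner_zero_right _
    | add x y _ _ hx hy => rw [inner_add_right, hx, hy, add_zero]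
    | smul c x _ hx => rw [inner_smul_right, hx, mul_zero]
  have h2 : closure ((Submodule.span ℝ {w : K | ∃ φ, IsTest φ ∧ tsupport φ ⊆ univ ∧
      (w = Rk φ ∨ w = dRk φ)} : Submodule ℝ K) : Set K) ⊆ {w : K | inner ℝ k w = 0} := by
    refine closure_minimal (fun w hw => h1 w hw) ?_
    exact isClosed_eq (by fun_prop) continuous_const
  have h3 : inner ℝ k k = 0 := by
    have h4 : k ∈ closure ((Submodule.span ℝ {w : K | ∃ φ, IsTest φ ∧ tsupport φ ⊆ univ ∧
      (w = Rk φ ∨ w = dRk φ)} : Submodule ℝ K) : Set K) := by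
      rw [← Submodule.topologicalClosure_coe]
      exact hk
    exact h2 h4
  exact inner_self_eq_zero.1 h3

end Z1x

open Z1x

theorem thm_Z1 (hDens : St_Dens) (hUT : St_UTest) (hFld : St_Fld) : St_Z1 := by
  intro k hFE hU6 hEn
  obtain ⟨hD, hV2⟩ := hFE
  have n1 : 0 ≤ ∑ i, ∫ x, DU k i x ^ 2 :=
    Finset.sum_nonneg fun i _ => integral_nonneg fun x => sq_nonneg _
  have n2 : 0 ≤ ∫ x, V k x ^ 2 := integral_nonneg fun x => sq_nonneg _
  have n3 : 0 ≤ ∫ x, U k x ^ 6 := integral_nonneg fun x => Even.pow_nonneg (by decide) _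
  have hE : (∑ i, ∫ x, DU k i x ^ 2) / 2 + (∫ x, V k x ^ 2) / 2 + (∫ x, U k x ^ 6) / 6 = 0 := hEn
  have hV0 : V k =ᵐ[volume] 0 :=
    ae_zero 2 two_ne_zero even_two (by exact_mod_cast hV2) (by linarith)
  have hU0 : U k =ᵐ[volume] 0 :=
    ae_zero 6 (by norm_num) (by decide) (by exact_mod_cast hU6) (by linarith)
  obtain ⟨C, _, hF⟩ := hFld
  refine orth k ?_ ?_ hDens.1
  · intro φ hφ
    rw [← hUT.2.2 k φ (sch hφ)]
    have : (fun x => U k x * φ x) =ᵐ[volume] fun _ => (0 : ℝ) := by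
      filter_upwards [hU0] with x hx
      rw [hx]
      simp
    rw [integral_congr_ae this]
    simp
  · intro φ hφ
    rw [← (hF k).2.1.1.2 φ hφ]
    have : (fun x => V k x * φ x) =ᵐ[volume] fun _ => (0 : ℝ) := by
      filter_upwards [hV0] with x hx
      rw [hx]
      simp
    rw [integral_congr_ae this]
    simp

end Pool.Agent.QWE
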